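import Pool.Agent.H32.MQ.HStm
import Pool.Agent.H98.MF.C.Bas
import Pool.Agent.H98.MF.C.C9
import Pool.Agent.H98.MF.NFrm

/-!
# Malle's conjecture for 8T28 and 8T29 over number fields, block H: coordinates
-/

set_option autoImplicit false

open scoped BigOperators
open NumberField IsDedekindDomain

namespace Pool.Agent.H32.MQ

open Pool.Agent.H98.MF

section

variable {k : Type} [Field k] [NumberField k] (Fr : Frm k)

theorem hb_notMem (p : Fr.sys.P) : Fr.pl p ∉ Fr.S := (Fr.pl_iff _).1 ⟨p, rfl⟩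

theorem hb_two (p : Fr.sys.P) : ord (Fr.pl p) (2 : k) = 0 :=
  Pool.Agent.H98.MF.B.ord_two_eq Fr.adm (hb_notMem Fr p)

theorem hb_ord_u (p : Fr.sys.P) (j : Fin Fr.sys.m) : ord (Fr.pl p) (Fr.u j : k) = 0 :=
  Pool.Agent.H98.MF.B.mem_US.1 (Fr.u_mem j) _ (hb_notMem Fr p)

theorem hb_ord_U (p : Fr.sys.P) (c : Fin Fr.sys.m → ZMod 2) :
    ord (Fr.pl p) ((∏ j, Fr.u j ^ (c j).val : kˣ) : k) = 0 := by
  rw [Pool.Agent.H98.MF.B.ord_prod]
  refine Finset.sum_eq_zero fun j _ => ?_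
  rw [Units.val_pow_eq_pow_val, Pool.Agent.H98.MF.B.ord_pow, hb_ord_u, mul_zero]

open Classical in
theorem hb_ord_pi (p : Fr.sys.P) (s : Finset Fr.sys.P) :
    ord (Fr.pl p) ((∏ q ∈ s, Fr.pi q : kˣ) : k) = if p ∈ s then 1 else 0 := by
  rw [Pool.Agent.H98.MF.B.ord_prod]
  have h1 : ∀ q ∈ s, ord (Fr.pl p) (Fr.pi q : k) = if q = p then 1 else 0 := by
    intro q _
    by_cases h : q = p
    · rw [if_pos h, h]
      exact Fr.pi_self p
    · rw [if_neg h]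
      exact Fr.pi_other q p (Ne.symm h)
  rw [Finset.sum_congr rfl h1, Finset.sum_ite_eq']

theorem h_repO : StRepO Fr := by
  intro c p
  unfold rep
  rw [Units.val_mul, Pool.Agent.H98.MF.B.ord_mul _ (Units.ne_zero _) (Units.ne_zero _),
    hb_ord_U, hb_ord_pi, zero_add]

/-- an `S`-unit times a square has coordinates -/
theorem hb_even (z : kˣ) (h : ∀ p : Fr.sys.P, Even (ord (Fr.pl p) (z : k))) :
    ∃ c : Fr.sys.T, IsSquare (z * ∏ j, Fr.u j ^ (c j).val) := by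
  obtain ⟨u, hu, t, ht⟩ := Pool.Agent.H98.MF.B.exists_unit_mul_sq Fr.adm.prS z (fun Q hQ => by
    obtain ⟨p, rfl⟩ := (Fr.pl_iff Q).2 hQ
    exact h p)
  obtain ⟨c, hc⟩ := Fr.u_gen u hu
  obtain ⟨w, -, hw⟩ := Pool.Agent.H98.MF.B.mem_sqr.1 hc
  refine ⟨c, w * t, ?_⟩
  rw [ht, ← pow_two, mul_pow, hw]
  exact mul_right_comm _ _ _

theorem h_co : StCo Fr := by
  classical
  intro x
  have h0 : ∀ p : Fr.sys.P, Even (ord (Fr.pl p) ((x * ∏ q ∈ odp Fr x, Fr.pi q : kˣ) : k)) := by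
    intro p
    rw [Units.val_mul, Pool.Agent.H98.MF.B.ord_mul _ (Units.ne_zero _) (Units.ne_zero _),
      hb_ord_pi]
    split_ifs with h
    · exact ((mem_odp Fr).1 h).add_one
    · rw [add_zero]
      rw [mem_odp, Int.not_odd_iff_even] at h
      exact h
  obtain ⟨c, hc⟩ := hb_even Fr _ h0
  have h : ∃ c : Fr.sys.T, IsSquare (x * rep Fr (c, odp Fr x)) := by
    refine ⟨c, ?_⟩
    unfold rep
    have e : x * ((∏ j, Fr.u j ^ ((c, odp Fr x).1 j).val) * ∏ p ∈ (c, odp Fr x).2, Fr.pi p) =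
        x * (∏ q ∈ odp Fr x, Fr.pi q) * ∏ j, Fr.u j ^ (c j).val := by
      show x * ((∏ j, Fr.u j ^ (c j).val) * ∏ p ∈ odp Fr x, Fr.pi p) = _
      rw [mul_comm (∏ j, Fr.u j ^ (c j).val), mul_assoc]
    rw [e]
    exact hc
  have e2 : co Fr x = (h.choose, odp Fr x) := by
    unfold co
    rw [dif_pos h]
  rw [e2]
  exact h.choose_spec

theorem hb_parity {x y : kˣ} (h : IsSquare (x * y)) (p : Fr.sys.P) :
    Odd (ord (Fr.pl p) (x : k)) ↔ Odd (ord (Fr.pl p) (y : k)) := by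
  obtain ⟨w, hw⟩ := h
  have h1 : ord (Fr.pl p) (x : k) + ord (Fr.pl p) (y : k) = ord (Fr.pl p) (w : k) +
      ord (Fr.pl p) (w : k) := by
    rw [← Pool.Agent.H98.MF.B.ord_mul _ x.ne_zero y.ne_zero,
      ← Pool.Agent.H98.MF.B.ord_mul _ w.ne_zero w.ne_zero, ← Units.val_mul, hw, Units.val_mul]
  rw [Int.odd_iff, Int.odd_iff]
  omega

theorem h_coU : StCoU Fr := by
  classical
  intro c c' h
  have h2 : c.2 = c'.2 := by
    ext p
    have h3 := hb_parity Fr h p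
    rw [h_repO Fr c p, h_repO Fr c' p] at h3
    by_cases h4 : p ∈ c.2 <;> by_cases h5 : p ∈ c'.2 <;> simp [h4, h5] at h3 ⊢
  have h1 : c.1 + c'.1 = 0 := by
    apply Fr.u_ind
    obtain ⟨t, ht⟩ := NFrm_prod_add Fr.u c.1 c'.1
    obtain ⟨w, hw⟩ := h
    unfold rep at hw
    rw [← h2] at hw
    refine ⟨w * t⁻¹ * (∏ p ∈ c.2, Fr.pi p)⁻¹, ?_⟩
    have e1 : (∏ j, Fr.u j ^ ((c.1 + c'.1) j).val) =
        ((∏ j, Fr.u j ^ (c.1 j).val) * ∏ j, Fr.u j ^ (c'.1 j).val) * (t ^ 2)⁻¹ := by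
      rw [ht, mul_inv_cancel_right]
    have e2 : (∏ j, Fr.u j ^ (c.1 j).val) * (∏ j, Fr.u j ^ (c'.1 j).val) =
        w * w * ((∏ p ∈ c.2, Fr.pi p)⁻¹ * (∏ p ∈ c.2, Fr.pi p)⁻¹) := by
      rw [← hw, mul_mul_mul_comm, mul_inv_cancel_right, mul_inv_cancel_right]
    rw [e1, e2, pow_two, mul_inv]
    have e3 : ∀ a b d : kˣ, a * a * (b * b) * (d * d) = a * d * b * (a * d * b) := by
      intro a b d
      rw [mul_mul_mul_comm (a * d) b (a * d) b, mul_mul_mul_comm a d a d, mul_right_comm]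
    exact e3 _ _ _
  have h3 : c.1 = c'.1 := by
    funext j
    have h4 : c.1 j + c'.1 j = 0 := congrFun h1 j
    have h5 : ∀ a b : ZMod 2, a + b = 0 → a = b := by decide
    exact h5 _ _ h4
  exact Prod.ext h3 h2

theorem hb_qr_one (p : Fr.sys.P) : qr (1 : k) (Fr.pl p) = 0 := by
  rw [qr_eq_zero]
  have h := locSq_sq (Fr.pl p) (one_ne_zero : (1 : k) ≠ 0)
  rwa [one_pow] at h

theorem hb_qr_prod {ι : Type} (p : Fr.sys.P) (s : Finset ι) (f : ι → kˣ)
    (h : ∀ i ∈ s, Even (ord (Fr.pl p) (f i : k))) :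
    qr ((∏ i ∈ s, f i : kˣ) : k) (Fr.pl p) = ∑ i ∈ s, qr (f i : k) (Fr.pl p) := by
  classical
  induction s using Finset.induction_on with
  | empty => simpa using hb_qr_one Fr p
  | insert i s hi ih =>
    have h1 := ih fun j hj => h j (Finset.mem_insert_of_mem hj)
    rw [Finset.prod_insert hi, Finset.sum_insert hi, Units.val_mul,
      Pool.Agent.H98.MF.qr_mul (hb_two Fr p) (Units.ne_zero _) (Units.ne_zero _)
        (h i (Finset.mem_insert_self i s)) ?_, h1]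
    rw [Pool.Agent.H98.MF.B.ord_prod]
    exact Finset.even_sum _ fun j hj => h j (Finset.mem_insert_of_mem hj)

theorem hb_qr_U (p : Fr.sys.P) (c : Fr.sys.T) :
    qr ((∏ j, Fr.u j ^ (c j).val : kˣ) : k) (Fr.pl p) = c ⬝ᵥ Fr.sys.ty p := by
  have h0 : ∀ j, Even (ord (Fr.pl p) ((Fr.u j ^ (c j).val : kˣ) : k)) := fun j => by
    rw [Units.val_pow_eq_pow_val, Pool.Agent.H98.MF.B.ord_pow, hb_ord_u, mul_zero]
    exact Even.zero
  rw [hb_qr_prod Fr p _ _ fun j _ => h0 j]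
  unfold dotProduct
  refine Finset.sum_congr rfl fun j _ => ?_
  have h2 : ∀ a : ZMod 2, a = 0 ∨ a = 1 := by decide
  rcases h2 (c j) with h | h
  · rw [h, ZMod.val_zero, pow_zero, zero_mul]
    simpa using hb_qr_one Fr p
  · rw [h, show (1 : ZMod 2).val = 1 from rfl, pow_one, one_mul]
    exact (Fr.ty_eq p j).symm

theorem h_repQ : StRepQ Fr := by
  classical
  intro c p hp
  have h1 : ∀ q ∈ c.2, Even (ord (Fr.pl p) (Fr.pi q : k)) := fun q hq => by
    rw [Fr.pi_other q p (fun h => hp (h ▸ hq))]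
    exact Even.zero
  unfold rep
  rw [Units.val_mul, Pool.Agent.H98.MF.qr_mul (hb_two Fr p) (Units.ne_zero _)
    (Units.ne_zero _), hb_qr_U, hb_qr_prod Fr p _ _ h1]
  · unfold Sys.ex
    rw [add_comm]
    congr 1
    refine Finset.sum_congr rfl fun q hq => ?_
    exact (Fr.J_eq q p fun h => hp (h ▸ hq)).symm
  · rw [hb_ord_U]
    exact Even.zero
  · rw [hb_ord_pi, if_neg hp]
    exact Even.zero

theorem hb_qr_sq {x y : kˣ} (h : IsSquare (x * y)) (P : HeightOneSpectrum (𝓞 k)) :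
    qr (x : k) P = qr (y : k) P := by
  obtain ⟨w, hw⟩ := h
  have h1 : (x : k) * (y : k) ^ 2 = (y : k) * (w : k) ^ 2 := by
    have h2 : (x : k) * y = w * w := by rw [← Units.val_mul, hw, Units.val_mul]
    linear_combination (y : k) * h2
  have h3 : LocSq P (x : k) ↔ LocSq P (y : k) := by
    rw [← locSq_mul_sq P y.ne_zero (x : k), h1, locSq_mul_sq P w.ne_zero]
  unfold qr
  by_cases h4 : LocSq P (x : k)
  · rw [if_pos h4, if_pos (h3.1 h4)]
  · rw [if_neg h4, if_neg (fun h5 => h4 (h3.2 h5))]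

theorem h_qr : StQr Fr := by
  intro x p hp
  rw [hb_qr_sq (h_co Fr x) (Fr.pl p)]
  apply h_repQ
  intro h
  have h1 : p ∈ odp Fr x := h
  rw [mem_odp, ← Int.not_even_iff_odd] at h1
  exact h1 hp

end

end Pool.Agent.H32.MQ
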