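import Pool.Agent.H32.MQ.HStm
import Pool.Agent.H98.MF.L.Herb
import Pool.Agent.H98.MF.L.HerbA
import Pool.Agent.H98.MF.L.QuadZ

/-!
# Malle's conjecture for 8T28 and 8T29 over number fields, row H2: symbols and norms at the
primes outside `M`
-/

set_option autoImplicit false
set_option linter.unusedSectionVars false

open scoped BigOperators
open NumberField IsDedekindDomain

namespace Pool.Agent.H32.MQ

open Pool.Agent.H98.MF

section

variable {k : Type} [Field k] [NumberField k] {Fr : Frm k} {L : Type} [Field L] [NumberField L]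
  [Algebra k L]

theorem hq_two (Fr : Frm k) (p : Fr.sys.P) : ord (Fr.pl p) (2 : k) = 0 := by
  have hP : Fr.pl p ∉ Fr.S := (Fr.pl_iff _).1 ⟨p, rfl⟩
  by_contra h0
  apply hP
  apply Fr.adm.two
  have h1 : (2 : k) = ((2 : 𝓞 k) : k) := rc_two.symm
  have h2 := ord_int_nonneg (Fr.pl p) (2 : 𝓞 k)
  rw [h1] at h0
  exact lt_of_le_of_ne h2 (Ne.symm h0)

theorem h_ord (X : HX Fr L) : StOrd X := by
  intro p Q hp hQ
  have h : ∀ x : k, ord Q (algebraMap k L x) = ord (Fr.pl p) x := fun x =>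
    Pool.Agent.H98.MF.B.qe_ord_of_even X.qe hQ (hq_two Fr p) (X.unr p hp) x
  refine ⟨?_, h⟩
  have h1 := h 2
  rwa [map_ofNat, hq_two] at h1

theorem hq_nm (X : HX Fr L) (x : Lˣ) :
    algebraMap k L (HX.nrX (k := k) x : k) = (x : L) * X.sig (x : L) := X.nm_eq (x : L)

theorem hq_sig_ne (X : HX Fr L) (x : Lˣ) : X.sig (x : L) ≠ 0 := by
  rw [Ne, map_eq_zero_iff X.sig X.sig.injective]
  exact x.ne_zero

theorem h_ordN (X : HX Fr L) : StOrdN X := by
  intro p Q hp hQ x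
  rw [← (h_ord X p Q hp hQ).2, hq_nm, ord_mul Q x.ne_zero (hq_sig_ne X x), ord_cj]

/-- an element of even exponent is an integral unit modulo squares -/
theorem hq_red {P : HeightOneSpectrum (𝓞 k)} {c : k} (hc : c ≠ 0) (he : Even (ord P c)) :
    ∃ (u : 𝓞 k) (t : k), u ∉ P.asIdeal ∧ t ≠ 0 ∧ c * t ^ 2 = (u : k) := by
  obtain ⟨m, hm⟩ := he
  obtain ⟨π, hπ⟩ := exists_unif P
  have hπ0 : (π : k) ≠ 0 := by
    intro h
    rw [h, ord_zero] at hπ
    omega
  have hp0 : (π : k) ^ (-m) ≠ 0 := zpow_ne_zero _ hπ0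
  have hp1 : ord P ((π : k) ^ (-m)) = -m := by
    rcases Int.eq_nat_or_neg (-m) with ⟨n, hn | hn⟩
    · rw [hn, zpow_natCast, ord_pow, hπ, mul_one]
    · rw [hn, zpow_neg, zpow_natCast, ord_inv, ord_pow, hπ, mul_one]
  set w : k := (π : k) ^ (-m) with hw
  have h0 : ord P (c * w ^ 2) = 0 := by
    rw [ord_mul P hc (pow_ne_zero 2 hp0), ord_pow, hp1, hm]
    push_cast
    ring
  obtain ⟨x, y, hy, hxy⟩ := (ord_nonneg_iff P (c * w ^ 2)).1 h0.ge
  have hy0 : (y : k) ≠ 0 := by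
    intro h
    apply hy
    have h1 : y = 0 := by exact_mod_cast h
    rw [h1]
    exact P.asIdeal.zero_mem
  have hyo : ord P (y : k) = 0 := ord_unit P hy
  refine ⟨x * y, w * (y : k), ?_, mul_ne_zero hp0 hy0, ?_⟩
  · intro hmem
    have h1 := (le_ord_iff P (x * y) 1).2 (by rw [pow_one]; exact hmem)
    have h2 : ((x * y : 𝓞 k) : k) = (c * w ^ 2) * (y : k) * (y : k) := by
      rw [rc_mul, ← hxy]
    have h3 : (c * w ^ 2) * (y : k) * (y : k) ≠ 0 :=
      mul_ne_zero (mul_ne_zero (mul_ne_zero hc (pow_ne_zero 2 hp0)) hy0) hy0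
    rcases h1 with h1 | h1
    · apply h3
      rw [← h2, h1, rc_zero]
    · rw [h2, ord_mul P (mul_ne_zero (mul_ne_zero hc (pow_ne_zero 2 hp0)) hy0) hy0,
        ord_mul P (mul_ne_zero hc (pow_ne_zero 2 hp0)) hy0, h0, hyo] at h1
      norm_num at h1
  · rw [rc_mul, ← hxy]
    ring

theorem hq_congr {P : HeightOneSpectrum (𝓞 k)} {Q : HeightOneSpectrum (𝓞 L)} {x : L} {y : k}
    (h : LocSq Q x ↔ LocSq P y) : qr x Q = qr y P := by
  unfold qr
  by_cases h1 : LocSq P y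
  · rw [if_pos h1, if_pos (h.2 h1)]
  · rw [if_neg h1, if_neg fun h2 => h1 (h.1 h2)]

/-- squares in the completion of degree one -/
theorem hq_locSq {P : HeightOneSpectrum (𝓞 k)} {Q : HeightOneSpectrum (𝓞 L)} (h : Over P Q)
    (hf : P.asIdeal.inertiaDeg' Q.asIdeal = 1) (h2P : ord P (2 : k) = 0)
    (h2Q : ord Q (2 : L) = 0) {c : k} (hc : c ≠ 0) (he : Even (ord P c)) :
    LocSq Q (algebraMap k L c) ↔ LocSq P c := by
  obtain ⟨u, t, hu, ht, hut⟩ := hq_red hc he
  have ht' : algebraMap k L t ≠ 0 := by simpa using ht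
  set u' : 𝓞 L := algebraMap (𝓞 k) (𝓞 L) u with hu'
  have hu'Q : u' ∉ Q.asIdeal := by
    intro h1
    apply hu
    rw [← h]
    exact h1
  have e1 : algebraMap k L c * algebraMap k L t ^ 2 = (u' : L) := by
    rw [← map_pow, ← map_mul, hut]
    rfl
  rw [← locSq_mul_sq P ht, hut, ← locSq_mul_sq Q ht', e1, ← qr_eq_zero, ← qr_eq_zero,
    qr_int h2P u hu, qr_int h2Q u' hu'Q]
  constructor
  · rintro ⟨z, hz⟩
    obtain ⟨w, hw⟩ := resid_surj h hf z
    refine ⟨w, ?_⟩
    rw [← h, Ideal.mem_comap]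
    have e2 : algebraMap (𝓞 k) (𝓞 L) (u - w ^ 2) =
        (u' - z ^ 2) + (z - algebraMap (𝓞 k) (𝓞 L) w) * (z + algebraMap (𝓞 k) (𝓞 L) w) := by
      rw [map_sub, map_pow, ← hu']
      ring
    rw [e2]
    exact Q.asIdeal.add_mem hz (Q.asIdeal.mul_mem_right _ hw)
  · rintro ⟨w, hw⟩
    refine ⟨algebraMap (𝓞 k) (𝓞 L) w, ?_⟩
    rw [← h, Ideal.mem_comap, map_sub, map_pow] at hw
    exact hw

theorem hq_deg (X : HX Fr L) (b : X.PX) :
    (Fr.pl (X.shX b)).asIdeal.inertiaDeg' b.1.asIdeal = 1 :=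
  (ef_of_split X.qe.deg (X.shX_over b) ((X.shX_over b).cj X.sig) b.2.2).2

theorem h_qm (X : HX Fr L) : StQM X := by
  intro c b he
  exact hq_congr (hq_locSq (X.shX_over b) (hq_deg X b) (hq_two Fr _)
    (h_ord X _ _ (X.shX_not b) (X.shX_over b)).1 c.ne_zero he)

theorem hq_sig (X : HX Fr L) (Q : HeightOneSpectrum (𝓞 L)) (x : L) :
    LocSq Q (X.sig x) ↔ LocSq (cj X.sig Q) x := by
  constructor
  · intro h n
    obtain ⟨c, hc⟩ := h n
    refine ⟨X.sig c, ?_⟩
    have e1 : X.sig (x * X.sig c ^ 2) = X.sig x * c ^ 2 := by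
      rw [map_mul, map_pow, X.sig_sig]
    rcases hc with hc | hc
    · left
      apply X.sig.injective
      rw [e1, hc, map_one]
    · right
      rw [ord_cj, map_sub, e1, map_one]
      exact hc
  · intro h n
    obtain ⟨c, hc⟩ := h n
    refine ⟨X.sig c, ?_⟩
    have e1 : X.sig x * X.sig c ^ 2 = X.sig (x * c ^ 2) := by
      rw [map_mul, map_pow]
    rcases hc with hc | hc
    · left
      rw [e1, hc, map_one]
    · right
      rw [ord_cj, map_sub, map_one] at hc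
      rw [e1]
      exact hc

theorem hq_sig_qr (X : HX Fr L) (Q : HeightOneSpectrum (𝓞 L)) (x : L) :
    qr (X.sig x) Q = qr x (cj X.sig Q) := by
  unfold qr
  by_cases h1 : LocSq (cj X.sig Q) x
  · rw [if_pos h1, if_pos ((hq_sig X Q x).2 h1)]
  · rw [if_neg h1, if_neg fun h2 => h1 ((hq_sig X Q x).1 h2)]

theorem h_qs (X : HX Fr L) : StQS X := by
  intro x b h1 h2
  have hO := h_ord X _ _ (X.shX_not b) (X.shX_over b)
  have h2' : Even (ord (cj X.sig b.1) (x : L)) := h2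
  have hN : Even (ord (Fr.pl (X.shX b)) (HX.nrX (k := k) x : k)) := by
    rw [h_ordN X _ _ (X.shX_not b) (X.shX_over b)]
    exact h1.add h2'
  rw [← h_qm X _ b hN, hq_nm, qr_mul hO.1 x.ne_zero (hq_sig_ne X x) h1
    (by rw [← ord_cj]; exact h2'), hq_sig_qr]
  rfl

theorem h_qi (X : HX Fr L) : StQI X := by
  intro x p Q hp hQ hcj hx
  have hO := h_ord X p Q hp hQ
  have hna : ¬ LocSq (Fr.pl p) (X.a : k) := fun h =>
    (Pool.Agent.H98.MF.B.qe_split_iff X.qe X.sig X.sig_α hQ).1 h hcj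
  have hu : ∀ Q' : HeightOneSpectrum (𝓞 L), Over (Fr.pl p) Q' → Q' = Q := by
    intro Q' h'
    rcases Pool.Agent.H98.MF.B.qe_over X.qe X.sig X.sig_α hQ h' with h | h
    · exact h
    · rw [h, hcj]
  have hD : QuadD (Fr.pl p) (X.a : k) X.α Q _ _ :=
    ⟨X.qe.sq, X.qe.deg, X.a.ne_zero, hna, ef_of_unique X.qe.deg hQ hu, hQ.ord_map,
      over_absNorm hQ, by
        intro τ z
        rcases X.sig_all τ with rfl | rfl
        · rfl
        · rw [← ord_cj, hcj]⟩
  symm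
  apply hq_congr
  constructor
  · intro h
    exact hD.norm h
  · intro h
    obtain ⟨c, hc0, hc⟩ := hD.up h
    have hc0' : algebraMap k L c ≠ 0 := by simpa using hc0
    have hce : Even (ord (Fr.pl p) c) := by
      have h1 := hc.even
      rw [ord_mul Q hc0' x.ne_zero, hO.2] at h1
      exact (Int.even_add.1 h1).2 hx
    by_cases hs : LocSq (Fr.pl p) c
    · exact ((hD.base hs).mul_iff _).1 hc
    · have h3 : LocSq (Fr.pl p) (c * (X.a : k)) := by
        rw [← qr_eq_zero, qr_mul (hq_two Fr p) hc0 X.a.ne_zero hce (X.unr p hp)]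
        have e1 : qr c (Fr.pl p) = 1 := by
          unfold qr
          rw [if_neg hs]
        have e2 : qr (X.a : k) (Fr.pl p) = 1 := by
          unfold qr
          rw [if_neg hna]
        rw [e1, e2]
        decide
      have h4 := hD.base h3
      have hα0 : X.α ≠ 0 := Pool.Agent.H98.MF.B.qe_ne_zero X.qe
      rw [map_mul, ← X.qe.sq, locSq_mul_sq Q hα0] at h4
      exact (h4.mul_iff _).1 hc

end

end Pool.Agent.H32.MQ
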