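import Pool.Agent.H32.MQ.HDefs

/-!
# Malle's conjecture for 8T28 and 8T29 over number fields, block H: statements
-/

set_option autoImplicit false

open scoped BigOperators
open NumberField IsDedekindDomain

namespace Pool.Agent.H32.MQ

open Pool.Agent.H98.MF

section

variable {k : Type} [Field k] [NumberField k] (Fr : Frm k)

/-! ### row H1: coordinates -/

/-- the coordinates represent the class -/
def StCo : Prop := ∀ x : kˣ, IsSquare (x * rep Fr (co Fr x))

/-- the coordinates are unique -/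
def StCoU : Prop := ∀ c c' : El Fr.sys, IsSquare (rep Fr c * rep Fr c') → c = c'

open Classical in
/-- the exponents of the representatives -/
def StRepO : Prop := ∀ (c : El Fr.sys) (p : Fr.sys.P),
  ord (Fr.pl p) (rep Fr c : k) = if p ∈ c.2 then 1 else 0

/-- the symbols of the representatives -/
def StRepQ : Prop := ∀ (c : El Fr.sys) (p : Fr.sys.P), p ∉ c.2 →
  qr (rep Fr c : k) (Fr.pl p) = Fr.sys.ex c.2 c.1 p

/-- the symbols of an element at the primes with even exponent -/
def StQr : Prop := ∀ (x : kˣ) (p : Fr.sys.P), Even (ord (Fr.pl p) (x : k)) →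
  qr (x : k) (Fr.pl p) = Fr.sys.ex (co Fr x).2 (co Fr x).1 p

variable {Fr} {L : Type} [Field L] [NumberField L] [Algebra k L] (X : HX Fr L)

/-! ### row H2: symbols and norms at unramified primes -/

/-- exponents at primes outside `M` -/
def StOrd : Prop := ∀ (p : Fr.sys.P) (Q : HeightOneSpectrum (𝓞 L)), p ∉ X.M →
  Over (Fr.pl p) Q → ord Q (2 : L) = 0 ∧ ∀ x : k, ord Q (algebraMap k L x) = ord (Fr.pl p) x

/-- the exponents of the norm -/
def StOrdN : Prop := ∀ (p : Fr.sys.P) (Q : HeightOneSpectrum (𝓞 L)), p ∉ X.M →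
  Over (Fr.pl p) Q → ∀ x : Lˣ,
    ord (Fr.pl p) (HX.nrX (k := k) x : k) = ord Q (x : L) + ord (cj X.sig Q) (x : L)

/-- the primes of degree one -/
def StSplit : Prop := ∀ (p : Fr.sys.P), p ∉ X.M →
  ((∃ b : X.PX, X.shX b = p) ↔ Fr.sys.ex (co Fr X.a).2 (co Fr X.a).1 p = 0)

/-- the symbol of an element of `k` at a prime of degree one -/
def StQM : Prop := ∀ (c : kˣ) (b : X.PX), Even (ord (Fr.pl (X.shX b)) (c : k)) →
  qr (algebraMap k L (c : k)) b.1 = qr (c : k) (Fr.pl (X.shX b))

/-- the symbol of the norm, degree one -/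
def StQS : Prop := ∀ (x : Lˣ) (b : X.PX), Even (ord b.1 (x : L)) →
  Even (ord (X.cjX b).1 (x : L)) →
  qr (HX.nrX (k := k) x : k) (Fr.pl (X.shX b)) = qr (x : L) b.1 + qr (x : L) (X.cjX b).1

/-- the symbol of the norm, degree two -/
def StQI : Prop := ∀ (x : Lˣ) (p : Fr.sys.P) (Q : HeightOneSpectrum (𝓞 L)), p ∉ X.M →
  Over (Fr.pl p) Q → cj X.sig Q = Q → Even (ord Q (x : L)) →
  qr (HX.nrX (k := k) x : k) (Fr.pl p) = qr (x : L) Q

/-! ### row H3: the number of classes -/

/-- few classes with given odd exponents -/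
def StCardB : Prop := ∀ g : Finset X.PX, (X.Bs g).Finite ∧
  (X.Bs g).ncard ≤ 4 ^ (Fr.sys.m + X.M.card)

/-! ### row H4: the product formula -/

open Classical in
/-- the product formula for `(γ, δ t)` -/
def StProd : Prop := ∀ (g : Finset X.PX),
  (∀ b ∈ g, ∀ b' ∈ g, X.shX b = X.shX b' → b = b') → ∀ γ ∈ X.Bs g, ∀ (c : El Fr.sys),
  c.2 ⊆ X.M → ∀ x : Finset Fr.sys.P, Disjoint x X.M → Disjoint x (g.image X.shX) →
    ∑ p ∈ x, qr (HX.nrX (k := k) (HX.out γ) : k) (Fr.pl p) +
      ∑ b ∈ g, (qr (X.δ : L) b.1 + Fr.sys.ex (x ∪ c.2) c.1 (X.shX b)) = X.hS γ c x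

/-! ### row H5: the local symbols depend on the local classes only -/

/-- the symbols above `M` and at the real places depend on the local classes -/
def StInv : Prop := ∀ (γ : HX.GX L) (c : El Fr.sys) (x x' : Finset Fr.sys.P),
  c.2 ⊆ X.M → Disjoint x X.M → Disjoint x' X.M → labM X.M x = labM X.M x' →
    X.hS γ c x = X.hS γ c x'

end

end Pool.Agent.H32.MQ
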