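import Pool.Agent.H32.MQ.EStm

/-!
# Block E, row E9: the residue of the series of sets of primes
-/

set_option autoImplicit false

open scoped BigOperators
open Filter Topology

namespace Pool.Agent.H32.MQ

open Pool.Agent.H98.MF

/-- the norm of a set of primes, to a power -/
theorem eq1_nm_rpow (S : Pre) (x : Finset S.P) (s : ℝ) :
    (S.nm x : ℝ) ^ s = ∏ p ∈ x, (S.N p : ℝ) ^ s := by
  unfold Pre.nm
  rw [Nat.cast_prod]
  exact (Real.finsetProd_rpow x (fun p => (S.N p : ℝ)) (fun p _ => Nat.cast_nonneg _) s).symm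

/-- the series over the sets of primes converges beyond one -/
theorem eq1_summable (S : Sys) (s : ℝ) (hs : 1 < s) :
    Summable fun x : Finset S.P => (S.nm x : ℝ) ^ (-s) := by
  have h1 : Summable fun p : S.P => ‖(S.N p : ℝ) ^ (-s)‖ :=
    (summable_N S s hs).norm
  refine (summable_finsetProd_of_summable_norm h1).congr fun x => ?_
  exact (eq1_nm_rpow S.toPre x (-s)).symm

/-- summation by norm -/
theorem eq1_fiber (S : Sys) (s : ℝ) (hs : 1 < s) :
    ∑' x : Finset S.P, (S.nm x : ℝ) ^ (-s) =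
      ∑' n : ℕ, S.ph (fun _ => 1) n * (n : ℝ) ^ (-s) := by
  have h1 := (eq1_summable S s hs).hasSum.tsum_fiberwise (fun x => S.nm x)
  rw [← h1.tsum_eq]
  refine tsum_congr fun n => ?_
  have h2 : ((fun x : Finset S.P => S.nm x) ⁻¹' {n}) =
      (((S.bx n).filter fun x => S.nm x = n : Finset (Finset S.P)) : Set (Finset S.P)) := by
    ext x
    simp only [Set.mem_preimage, Set.mem_singleton_iff, Finset.coe_filter, Set.mem_ofPred_eq,
      S.mem_bx]
    constructor
    · intro h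
      exact ⟨by rw [h], h⟩
    · exact fun h => h.2
  rw [h2]
  rw [Finset.tsum_subtype' ((S.bx n).filter fun x => S.nm x = n)
    (fun x : Finset S.P => (S.nm x : ℝ) ^ (-s))]
  unfold Pre.ph
  rw [Finset.sum_mul]
  refine Finset.sum_congr rfl fun x hx => ?_
  rw [(Finset.mem_filter.1 hx).2, one_mul]

/-- the average number of sets of primes of given norm -/
theorem eq1_mean (S : Sys) : ∃ κ : ℝ, 0 < κ ∧
    Tendsto (fun n : ℕ => (∑ k ∈ Finset.Icc 1 n, S.ph (fun _ => 1) k) / (n : ℝ)) atTop (𝓝 κ) := by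
  obtain ⟨κ, C, hκ, hC⟩ := cnt_sqf S
  refine ⟨κ, hκ, ?_⟩
  have h1 : ∀ n : ℕ, ∑ k ∈ Finset.Icc 1 n, S.ph (fun _ => 1) k = ((S.bx n).card : ℝ) := by
    intro n
    have h2 := sum_bx S.toPre (fun _ => 1) (fun _ => 1) (n : ℝ)
    rw [Nat.floor_natCast] at h2
    simp only [mul_one] at h2
    rw [← h2, Finset.sum_const, nsmul_eq_mul, mul_one]
  have h3 : ∀ n : ℕ, 1 ≤ n → |(∑ k ∈ Finset.Icc 1 n, S.ph (fun _ => 1) k) / (n : ℝ) - κ| ≤
      C * (n : ℝ) ^ (-S.dl) := by
    intro n hn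
    have hn1 : (1 : ℝ) ≤ n := by exact_mod_cast hn
    have hn0 : (0 : ℝ) < n := by linarith
    have h4 := hC ∅ n hn1
    rw [Finset.prod_empty, mul_one] at h4
    have h5 : ((S.bx n).filter fun x => Disjoint x (∅ : Finset S.P)) = S.bx n :=
      Finset.filter_true_of_mem fun x _ => Finset.disjoint_empty_right x
    rw [h5] at h4
    have h6 : S.hs ∅ = 1 := by
      unfold Pre.hs
      exact Finset.prod_empty
    rw [h6, mul_one] at h4
    rw [h1 n]
    have h7 : ((S.bx n).card : ℝ) / n - κ = (((S.bx n).card : ℝ) - κ * n) / n := by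
      field_simp
    rw [h7, abs_div, abs_of_pos hn0, div_le_iff₀ hn0]
    have h8 : C * (n : ℝ) ^ (-S.dl) * n = C * (n : ℝ) ^ (1 - S.dl) := by
      rw [mul_assoc]
      congr 1
      rw [sub_eq_add_neg, Real.rpow_add hn0, Real.rpow_one]
      ring
    rw [h8]
    exact h4
  have h9 : Tendsto (fun n : ℕ => C * (n : ℝ) ^ (-S.dl)) atTop (𝓝 0) := by
    have h10 := ((tendsto_rpow_neg_atTop S.dl_pos).comp tendsto_natCast_atTop_atTop).const_mul C
    rw [mul_zero] at h10
    exact h10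
  rw [tendsto_iff_norm_sub_tendsto_zero]
  refine squeeze_zero' (Eventually.of_forall fun n => norm_nonneg _) ?_ h9
  filter_upwards [eventually_ge_atTop 1] with n hn
  rw [Real.norm_eq_abs]
  exact h3 n hn

/-- the Dirichlet series of a real function at a real point -/
theorem eq1_lseries (f : ℕ → ℝ) (hf : f 0 = 0) (s : ℝ) :
    LSeries (fun n => (f n : ℂ)) (s : ℂ) = ((∑' n : ℕ, f n * (n : ℝ) ^ (-s) : ℝ) : ℂ) := by
  rw [Complex.ofReal_tsum]
  unfold LSeries
  refine tsum_congr fun n => ?_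
  rcases Nat.eq_zero_or_pos n with h | h
  · rw [h, LSeries.term_zero, hf, zero_mul, Complex.ofReal_zero]
  · rw [LSeries.term_of_ne_zero h.ne', Complex.ofReal_mul, Complex.ofReal_cpow (Nat.cast_nonneg n),
      Complex.ofReal_neg, Complex.cpow_neg, Complex.ofReal_natCast, div_eq_mul_inv]

/-- the series of sets of primes -/
theorem eQ1 : SEQ1 := by
  intro S
  obtain ⟨κ, hκ, hlim⟩ := eq1_mean S
  refine ⟨κ, hκ, ?_⟩
  have hf0 : ∀ n, 0 ≤ S.ph (fun _ => 1) n := fun n =>
    Finset.sum_nonneg fun x _ => zero_le_one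
  have hz : S.ph (fun _ => 1) 0 = 0 := by
    unfold Pre.ph
    refine Finset.sum_eq_zero fun x hx => ?_
    have h1 := S.one_le_nm x
    have h2 := (Finset.mem_filter.1 hx).2
    omega
  have h1 := LSeries_tendsto_sub_mul_nhds_one_of_tendsto_sum_div_and_nonneg
    (S.ph (fun _ => 1)) hlim hf0
  have h2 : Tendsto (fun σ : ℝ => 1 + σ) (𝓝[>] 0) (𝓝[>] 1) := by
    refine tendsto_nhdsWithin_iff.2 ⟨?_, ?_⟩
    · have h3 : Tendsto (fun σ : ℝ => 1 + σ) (𝓝 0) (𝓝 (1 + 0)) :=
        (continuous_const.add continuous_id).tendsto 0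
      rw [add_zero] at h3
      exact h3.mono_left nhdsWithin_le_nhds
    · filter_upwards [self_mem_nhdsWithin] with σ hσ
      have h4 : (0 : ℝ) < σ := hσ
      show (1 : ℝ) < 1 + σ
      linarith
  have h3 := (Complex.continuous_re.tendsto _).comp (h1.comp h2)
  rw [Complex.ofReal_re] at h3
  refine h3.congr' ?_
  filter_upwards [self_mem_nhdsWithin] with σ hσ
  have h4 : (0 : ℝ) < σ := hσ
  have h5 := eq1_lseries (S.ph (fun _ => 1)) hz (1 + σ)
  simp only [Function.comp_apply]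
  rw [h5, ← eq1_fiber S (1 + σ) (by linarith)]
  have h6 : (((1 + σ : ℝ) : ℂ) - 1) * ((∑' x : Finset S.P, (S.nm x : ℝ) ^ (-(1 + σ)) : ℝ) : ℂ) =
      ((σ * ∑' x : Finset S.P, (S.nm x : ℝ) ^ (-(1 + σ)) : ℝ) : ℂ) := by
    push_cast
    ring
  rw [h6, Complex.ofReal_re]

end Pool.Agent.H32.MQ
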