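import Pool.Agent.H32.MQ.KUStm
import Pool.Agent.H98.MF.SChrSqf

/-!
# Malle's conjecture for 8T28 and 8T29, row MQ-K3: character sums with powers, dyadic range
-/

set_option autoImplicit false

open scoped BigOperators

namespace Pool.Agent.H32.MQ

open Pool.Agent.H98.MK (sg)
open Pool.Agent.H98.MF

theorem klin_tel (g : ℕ → ℝ) (k T : ℕ) (h : k ≤ T) :
    ∑ m ∈ Finset.Ico k T, (g m - g (m + 1)) = g k - g T := by
  induction T, h using Nat.le_induction with
  | base => simp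
  | succ T hT ih =>
    rw [Finset.sum_Ico_succ_top hT, ih]
    ring

/-- Abel summation over a finite set graded by a natural number -/
theorem klin_abel {ι : Type*} (S : Finset ι) (a : ι → ℝ) (n : ι → ℕ) (B T : ℕ) (hBT : B < T)
    (hn : ∀ x ∈ S, n x ≤ T) (g : ℕ → ℝ) (hg : ∀ m, B < m → g (m + 1) ≤ g m) (hT : 0 ≤ g T)
    (M : ℝ) (hM : ∀ m, B ≤ m → m ≤ T → |∑ x ∈ S.filter (fun x => n x ≤ m), a x| ≤ M) :
    |∑ x ∈ S.filter (fun x => B < n x), a x * g (n x)| ≤ 2 * M * g (B + 1) := by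
  classical
  have hD : ∀ m, B ≤ m → m ≤ T →
      |∑ x ∈ S.filter (fun x => B < n x), (if n x ≤ m then a x else 0)| ≤ 2 * M := by
    intro m h1 h2
    have e1 : ∑ x ∈ S.filter (fun x => B < n x), (if n x ≤ m then a x else 0) =
        ∑ x ∈ S.filter (fun x => n x ≤ m), a x - ∑ x ∈ S.filter (fun x => n x ≤ B), a x := by
      rw [Finset.sum_filter, Finset.sum_filter, Finset.sum_filter, ← Finset.sum_sub_distrib]
      refine Finset.sum_congr rfl fun x _ => ?_
      by_cases h3 : B < n x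
      · rw [if_pos h3, if_neg (by omega : ¬ n x ≤ B)]
        ring
      · rw [if_neg h3, if_pos (by omega : n x ≤ B), if_pos (by omega : n x ≤ m)]
        ring
    rw [e1]
    have e2 := hM m h1 h2
    have e3 := hM B le_rfl hBT.le
    have e4 := abs_sub (∑ x ∈ S.filter (fun x => n x ≤ m), a x)
      (∑ x ∈ S.filter (fun x => n x ≤ B), a x)
    linarith
  have htel : ∀ k, B < k → k ≤ T → ∑ m ∈ Finset.Ico k T, (g m - g (m + 1)) = g k - g T := by
    intro k _ h2
    exact klin_tel g k T h2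
  have e1 : ∀ x ∈ S.filter (fun x => B < n x), a x * g (n x) = g T * a x +
      ∑ m ∈ Finset.Ico (B + 1) T, (g m - g (m + 1)) * (if n x ≤ m then a x else 0) := by
    intro x hx
    rw [Finset.mem_filter] at hx
    have h1 := htel (n x) hx.2 (hn x hx.1)
    have h2 : ∑ m ∈ Finset.Ico (B + 1) T, (g m - g (m + 1)) * (if n x ≤ m then a x else 0) =
        ∑ m ∈ Finset.Ico (n x) T, (g m - g (m + 1)) * a x := by
      have h3 : Finset.Ico (n x) T = (Finset.Ico (B + 1) T).filter (fun m => n x ≤ m) := by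
        ext m
        rw [Finset.mem_filter, Finset.mem_Ico, Finset.mem_Ico]
        omega
      rw [h3, Finset.sum_filter]
      refine Finset.sum_congr rfl fun m _ => ?_
      split_ifs <;> ring
    rw [h2, ← Finset.sum_mul, h1]
    ring
  rw [Finset.sum_congr rfl e1, Finset.sum_add_distrib, ← Finset.mul_sum, Finset.sum_comm]
  have e2 : ∀ m ∈ Finset.Ico (B + 1) T, ∑ x ∈ S.filter (fun x => B < n x),
      (g m - g (m + 1)) * (if n x ≤ m then a x else 0) = (g m - g (m + 1)) *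
      ∑ x ∈ S.filter (fun x => B < n x), (if n x ≤ m then a x else 0) := by
    intro m _
    rw [Finset.mul_sum]
  rw [Finset.sum_congr rfl e2]
  have e3 : |g T * ∑ x ∈ S.filter (fun x => B < n x), a x| ≤ g T * (2 * M) := by
    rw [abs_mul, abs_of_nonneg hT]
    refine mul_le_mul_of_nonneg_left ?_ hT
    have h1 := hD T hBT.le le_rfl
    have h2 : ∑ x ∈ S.filter (fun x => B < n x), (if n x ≤ T then a x else 0) =
        ∑ x ∈ S.filter (fun x => B < n x), a x := by
      refine Finset.sum_congr rfl fun x hx => ?_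
      rw [if_pos (hn x (Finset.mem_filter.1 hx).1)]
    rwa [h2] at h1
  have e4 : |∑ m ∈ Finset.Ico (B + 1) T, (g m - g (m + 1)) *
      ∑ x ∈ S.filter (fun x => B < n x), (if n x ≤ m then a x else 0)| ≤
      ∑ m ∈ Finset.Ico (B + 1) T, (g m - g (m + 1)) * (2 * M) := by
    refine (Finset.abs_sum_le_sum_abs _ _).trans (Finset.sum_le_sum fun m hm => ?_)
    rw [Finset.mem_Ico] at hm
    have h1 : 0 ≤ g m - g (m + 1) := sub_nonneg.2 (hg m (by omega))
    rw [abs_mul, abs_of_nonneg h1]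
    exact mul_le_mul_of_nonneg_left (hD m (by omega) (by omega)) h1
  rw [← Finset.sum_mul, htel (B + 1) (by omega) (by omega)] at e4
  refine (abs_add_le _ _).trans ?_
  linarith

theorem sklin : SKLin := by
  classical
  intro S
  obtain ⟨C, hC, h⟩ := chr_sqf S
  refine ⟨8 * C, fun y z c hyc j s hs1 hs2 => ?_⟩
  set K : ℝ := C * (S.nm y : ℝ) ^ S.A * S.hs z with hK
  have hz : 0 ≤ S.hs z := le_trans zero_le_one (S.one_le_hs z)
  have hA : 0 ≤ (S.nm y : ℝ) ^ S.A := Real.rpow_nonneg (Nat.cast_nonneg _) _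
  have hK0 : 0 ≤ K := by positivity
  have hdl := S.dl_le
  have hdl0 := S.dl_pos
  set a : Finset S.P → ℝ := fun x => if Disjoint x (y ∪ z)
    then ((sg (S.JJ x y + c ⬝ᵥ S.tys x) : ℤ) : ℝ) else 0 with ha
  have h' : ∀ t : ℝ, 1 ≤ t → |∑ x ∈ S.bx t, a x| ≤ K * t ^ (1 - S.dl) := fun t ht =>
    h y z c hyc t ht
  have e0 : ∀ x : Finset S.P, (if Nat.clog 2 (S.nm x) = j ∧ Disjoint x (y ∪ z)
      then ((sg (S.JJ x y + c ⬝ᵥ S.tys x) : ℤ) : ℝ) * (S.nm x : ℝ) ^ (-s) else 0) =
      (if Nat.clog 2 (S.nm x) = j then a x * (S.nm x : ℝ) ^ (-s) else 0) := by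
    intro x
    rw [ha]
    by_cases h1 : Nat.clog 2 (S.nm x) = j <;> by_cases h2 : Disjoint x (y ∪ z) <;>
      simp [h1, h2]
  rw [Finset.sum_congr rfl fun x _ => e0 x]
  rcases Nat.eq_zero_or_pos j with rfl | hj
  · have e1 : ∑ x ∈ S.bx ((2 : ℝ) ^ 0), (if Nat.clog 2 (S.nm x) = 0
        then a x * (S.nm x : ℝ) ^ (-s) else 0) = ∑ x ∈ S.bx 1, a x := by
      rw [pow_zero]
      refine Finset.sum_congr rfl fun x hx => ?_
      have h1 := S.mem_bx.1 hx
      have h2 : S.nm x ≤ 1 := by exact_mod_cast h1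
      have h3 : S.nm x = 1 := le_antisymm h2 (S.one_le_nm x)
      rw [h3, if_pos (Nat.clog_one_right 2), Nat.cast_one, Real.one_rpow, mul_one]
    rw [e1]
    have h1 := h' 1 le_rfl
    rw [Real.one_rpow, mul_one] at h1
    rw [Nat.cast_zero, mul_zero, Real.rpow_zero, mul_one]
    linarith
  · set B : ℕ := 2 ^ (j - 1) with hB
    have hB1 : 1 ≤ B := Nat.one_le_two_pow
    have hT : 2 ^ j = 2 * B := by
      rw [hB, ← pow_succ']
      congr 1
      omega
    have hcl : ∀ x ∈ S.bx ((2 : ℝ) ^ j), (Nat.clog 2 (S.nm x) = j ↔ B < S.nm x) := by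
      intro x hx
      have h1 := S.mem_bx.1 hx
      have h2 : S.nm x ≤ 2 ^ j := by exact_mod_cast h1
      have h3 : Nat.clog 2 (S.nm x) ≤ j := (Nat.clog_le_iff_le_pow (by norm_num)).2 h2
      have h4 := Nat.lt_clog_iff_pow_lt (b := 2) (by norm_num) (x := S.nm x) (y := j - 1)
      rw [hB]
      constructor
      · intro h5
        exact h4.1 (by omega)
      · intro h5
        have h6 := h4.2 h5
        omega
    have e1 : ∑ x ∈ S.bx ((2 : ℝ) ^ j), (if Nat.clog 2 (S.nm x) = j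
        then a x * (S.nm x : ℝ) ^ (-s) else 0) =
        ∑ x ∈ (S.bx ((2 : ℝ) ^ j)).filter (fun x => B < S.nm x),
          a x * (fun m : ℕ => (m : ℝ) ^ (-s)) (S.nm x) := by
      rw [Finset.sum_filter]
      refine Finset.sum_congr rfl fun x hx => ?_
      by_cases h1 : B < S.nm x
      · rw [if_pos h1, if_pos ((hcl x hx).2 h1)]
      · rw [if_neg h1, if_neg (fun h2 => h1 ((hcl x hx).1 h2))]
    rw [e1]
    have hM : ∀ m, B ≤ m → m ≤ 2 ^ j →
        |∑ x ∈ (S.bx ((2 : ℝ) ^ j)).filter (fun x => S.nm x ≤ m), a x| ≤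
          K * ((2 : ℝ) ^ j) ^ (1 - S.dl) := by
      intro m h1 h2
      have h3 : (S.bx ((2 : ℝ) ^ j)).filter (fun x => S.nm x ≤ m) = S.bx (m : ℝ) := by
        ext x
        rw [Finset.mem_filter, S.mem_bx, S.mem_bx]
        constructor
        · intro h4
          exact_mod_cast h4.2
        · intro h4
          have h5 : S.nm x ≤ m := by exact_mod_cast h4
          exact ⟨by exact_mod_cast h5.trans h2, h5⟩
      rw [h3]
      have h4 : (1 : ℝ) ≤ m := by exact_mod_cast hB1.trans h1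
      refine (h' m h4).trans (mul_le_mul_of_nonneg_left ?_ hK0)
      refine Real.rpow_le_rpow (by linarith) ?_ (by linarith)
      exact_mod_cast h2
    have h1 := klin_abel (S.bx ((2 : ℝ) ^ j)) a S.nm B (2 ^ j) (by omega)
      (fun x hx => by
        have h1 := S.mem_bx.1 hx
        exact_mod_cast h1)
      (fun m : ℕ => (m : ℝ) ^ (-s))
      (fun m hm => by
        refine Real.rpow_le_rpow_of_nonpos (by exact_mod_cast (by omega : 0 < m)) ?_
          (by linarith)
        push_cast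
        linarith)
      (Real.rpow_nonneg (Nat.cast_nonneg _) _) _ hM
    refine h1.trans ?_
    have hBr : (0 : ℝ) < B := by exact_mod_cast hB1
    have e2 : ((B + 1 : ℕ) : ℝ) ^ (-s) ≤ 4 * ((2 : ℝ) ^ j) ^ (-s) := by
      have h2 : ((B + 1 : ℕ) : ℝ) ^ (-s) ≤ (B : ℝ) ^ (-s) := by
        refine Real.rpow_le_rpow_of_nonpos hBr ?_ (by linarith)
        push_cast
        linarith
      have h3 : (2 : ℝ) ^ j = 2 * B := by exact_mod_cast hT
      have h4 : (2 : ℝ) ^ (-s) * 4 ≥ 1 := by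
        have h5 : (2 : ℝ) ^ (-(2 : ℝ)) ≤ (2 : ℝ) ^ (-s) :=
          Real.rpow_le_rpow_of_exponent_le (by norm_num) (by linarith)
        have h6 : (2 : ℝ) ^ (-(2 : ℝ)) = 1 / 4 := by
          rw [Real.rpow_neg (by norm_num)]
          norm_num
        rw [h6] at h5
        linarith
      have h5 : (0 : ℝ) ≤ (B : ℝ) ^ (-s) := Real.rpow_nonneg hBr.le _
      rw [h3, Real.mul_rpow (by norm_num) hBr.le]
      nlinarith
    have e3 : (2 : ℝ) ^ ((1 - s - S.dl) * j) = ((2 : ℝ) ^ j) ^ (1 - S.dl) *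
        ((2 : ℝ) ^ j) ^ (-s) := by
      rw [← Real.rpow_add (by positivity), ← Real.rpow_natCast, ← Real.rpow_mul (by norm_num)]
      congr 1
      ring
    have hp : 0 ≤ K * ((2 : ℝ) ^ j) ^ (1 - S.dl) := by positivity
    calc 2 * (K * ((2 : ℝ) ^ j) ^ (1 - S.dl)) * ((B + 1 : ℕ) : ℝ) ^ (-s)
        ≤ 2 * (K * ((2 : ℝ) ^ j) ^ (1 - S.dl)) * (4 * ((2 : ℝ) ^ j) ^ (-s)) :=
          mul_le_mul_of_nonneg_left e2 (by linarith)
      _ = 8 * C * (S.nm y : ℝ) ^ S.A * S.hs z * (2 : ℝ) ^ ((1 - s - S.dl) * j) := by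
          rw [e3, hK]
          ring

end Pool.Agent.H32.MQ
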