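import Pool.Agent.H32.MQ.KUStm

/-!
# Block K: pointwise bounds
-/

set_option autoImplicit false

open scoped BigOperators

namespace Pool.Agent.H32.MQ

open Pool.Agent.H98.MF

theorem kpt_sixteen (S : Sys) (ε : ℝ) (hε : 0 < ε) : ∃ C : ℝ, ∀ x : Finset S.P,
    (16 : ℝ) ^ x.card ≤ C * (S.nm x : ℝ) ^ ε := by
  classical
  obtain ⟨X, hX⟩ : ∃ X : ℝ, X = (16 : ℝ) ^ (1 / ε) := ⟨_, rfl⟩
  have hX0 : 0 < X := by rw [hX]; positivity
  have hXε : X ^ ε = 16 := by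
    rw [hX, ← Real.rpow_mul (by norm_num), one_div, inv_mul_cancel₀ hε.ne', Real.rpow_one]
  refine ⟨(16 : ℝ) ^ (S.pr X).card, fun x => ?_⟩
  have h1 : ∀ p : S.P, (16 : ℝ) ≤
      (if p ∈ S.pr X then 16 else 1) * (S.N p : ℝ) ^ ε := by
    intro p
    have hN1 : (1 : ℝ) ≤ S.N p := by exact_mod_cast S.one_le_N p
    by_cases hp : p ∈ S.pr X
    · rw [if_pos hp]
      have := Real.one_le_rpow hN1 hε.le
      linarith
    · rw [if_neg hp, one_mul]
      have h2 : X ≤ S.N p := by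
        by_contra h3
        push Not at h3
        exact hp ((S.mem_pr hX0.le).2 h3.le)
      calc (16 : ℝ) = X ^ ε := hXε.symm
        _ ≤ (S.N p : ℝ) ^ ε := Real.rpow_le_rpow hX0.le h2 hε.le
  have h2 : (16 : ℝ) ^ x.card ≤
      ∏ p ∈ x, ((if p ∈ S.pr X then 16 else 1) * (S.N p : ℝ) ^ ε) := by
    rw [← Finset.prod_const]
    exact Finset.prod_le_prod (fun _ _ => by norm_num) fun p _ => h1 p
  have h3 : ∏ p ∈ x, (if p ∈ S.pr X then (16 : ℝ) else 1) ≤ (16 : ℝ) ^ (S.pr X).card := by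
    rw [Finset.prod_ite, Finset.prod_const, Finset.prod_const_one, mul_one]
    refine pow_le_pow_right₀ (by norm_num) (Finset.card_le_card fun p hp => ?_)
    exact (Finset.mem_filter.1 hp).2
  have h4 : ∏ p ∈ x, (S.N p : ℝ) ^ ε = (S.nm x : ℝ) ^ ε := by
    rw [Real.finsetProd_rpow _ _ fun p _ => Nat.cast_nonneg _]
    unfold Pre.nm
    rw [Nat.cast_prod]
  rw [Finset.prod_mul_distrib, h4] at h2
  refine h2.trans (mul_le_mul_of_nonneg_right h3 ?_)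
  exact Real.rpow_nonneg (Nat.cast_nonneg _) _

theorem kpt_hs_le (S : Sys) (x : Finset S.P) : S.hs x ≤ (16 : ℝ) ^ x.card := by
  unfold Pre.hs
  rw [← Finset.prod_const]
  refine Finset.prod_le_prod
    (fun p _ => le_trans zero_le_one (S.one_le_hs_factor p)) fun p _ => ?_
  have h2 : (2 : ℝ) ≤ S.N p := by exact_mod_cast S.two_le p
  have h0 : 0 ≤ (S.N p : ℝ) ^ (-(1 / 2) : ℝ) := Real.rpow_nonneg (by linarith) _
  have h3 : ((S.N p : ℝ) ^ (-(1 / 2) : ℝ)) ^ 2 = (S.N p : ℝ)⁻¹ := by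
    rw [← Real.rpow_natCast, ← Real.rpow_mul (by linarith)]
    norm_num
    rw [Real.rpow_neg_one]
  have h4 : (S.N p : ℝ)⁻¹ ≤ 1 / 2 := by
    rw [one_div]
    exact inv_anti₀ (by norm_num) h2
  have h5 : (S.N p : ℝ) ^ (-(1 / 2) : ℝ) ≤ 15 / 16 := by nlinarith
  rw [inv_le_comm₀ (by linarith) (by norm_num)]
  linarith

/-- pointwise bounds -/
theorem skpt : SKPt := by
  intro S ε hε
  obtain ⟨C, hC⟩ := kpt_sixteen S ε hε
  exact ⟨C, fun x => ⟨(kpt_hs_le S x).trans (hC x), hC x⟩⟩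

end Pool.Agent.H32.MQ
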