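import Pool.Agent.H98.MF.SCntSqf
import Pool.Agent.H98.MF.SChrSqf

/-!
# Malle's conjecture for 8T28 and 8T29 over number fields: definitions and statements of block T
(Karamata's theorem, summation over the twists)
-/

set_option autoImplicit false

open scoped BigOperators
open Filter Topology

namespace Pool.Agent.H32.MQ

open Pool.Agent.H98.MK (sg)
open Pool.Agent.H98.MF

/-! ### Karamata's theorem for double poles -/

/-- the elements of size at most `u` -/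
noncomputable def fsz {X : Type} {n : X → ℕ} (hf : ∀ N : ℕ, {x | n x ≤ N}.Finite) (u : ℝ) :
    Finset X := (hf ⌊u⌋₊).toFinset

/-- the functional `∫_0^1 P(x) (-log x) dx` -/
noncomputable def LamP (P : Polynomial ℝ) : ℝ := P.sum fun k a => a / ((k : ℝ) + 1) ^ 2

/-- the function `1/x` on `[1/e, 1]` -/
noncomputable def gK (x : ℝ) : ℝ := if Real.exp (-1) ≤ x then 1 / x else 0

/-- a Dirichlet series with a double pole -/
structure DPole {X : Type} (n : X → ℕ) (b : X → ℝ) (L : ℝ) : Prop where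
  nonneg : ∀ x, 0 ≤ b x
  summ : ∀ σ : ℝ, 0 < σ → Summable fun x => b x * (n x : ℝ) ^ (-σ)
  lim : Tendsto (fun σ : ℝ => σ ^ 2 * ∑' x, b x * (n x : ℝ) ^ (-σ)) (𝓝[>] 0) (𝓝 L)

/-- T1 -/
def STPol : Prop := ∀ (X : Type) (n : X → ℕ) (b : X → ℝ) (L : ℝ), (∀ x, 1 ≤ n x) →
  DPole n b L → ∀ P : Polynomial ℝ,
    (∀ σ : ℝ, 0 < σ → Summable fun x => b x * (n x : ℝ) ^ (-σ) * P.eval ((n x : ℝ) ^ (-σ))) ∧
    Tendsto (fun σ : ℝ => σ ^ 2 * ∑' x, b x * (n x : ℝ) ^ (-σ) * P.eval ((n x : ℝ) ^ (-σ)))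
      (𝓝[>] 0) (𝓝 (L * LamP P))

/-- T2a -/
def STLam : Prop := ∀ P : Polynomial ℝ,
  LamP P = ∫ x in (0 : ℝ)..1, P.eval x * (-Real.log x)

/-- T2b -/
def STApx : Prop := ∀ ε : ℝ, 0 < ε → ∃ P1 P2 : Polynomial ℝ,
  (∀ x : ℝ, 0 ≤ x → x ≤ 1 → P1.eval x ≤ gK x ∧ gK x ≤ P2.eval x) ∧
    |LamP P1 - 1 / 2| ≤ ε ∧ |LamP P2 - 1 / 2| ≤ ε

/-- T3: Karamata's theorem -/
def STKar : Prop := ∀ (X : Type) (n : X → ℕ) (b : X → ℝ) (L : ℝ), (∀ x, 1 ≤ n x) →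
  ∀ hf : (∀ N : ℕ, {x | n x ≤ N}.Finite), DPole n b L →
    Tendsto (fun u : ℝ => (∑ x ∈ fsz hf u, b x) / Real.log u ^ 2) atTop (𝓝 (L / 2))

/-! ### the data -/

/-- the loss factor of a finite set of primes -/
noncomputable def hp {F : Sys} (r : Finset F.P) : ℝ :=
  ∏ p ∈ r, ((1 - (F.N p : ℝ) ^ (-(1 / 2) : ℝ))⁻¹ - 1)

/-- the coefficients of `∏ (1 + 1/N)⁻¹` -/
noncomputable def mg {F : Sys} (r : Finset F.P) : ℝ := ∏ p ∈ r, (-(1 / ((F.N p : ℝ) + 1)))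

/-- objects with sizes, weights and finite sets of ramified primes -/
structure TDat (F : Sys) where
  X : Type
  n : X → ℕ
  one_le : ∀ x, 1 ≤ n x
  fin : ∀ N : ℕ, {x | n x ≤ N}.Finite
  ram : X → Finset F.P
  w : X → ℝ
  w0 : ∀ x, 0 ≤ w x
  ρ : Finset F.P → ℝ
  ρ0 : ∀ r, 0 ≤ ρ r
  summ : ∀ s : ℝ, 1 < s → Summable fun x => w x * (n x : ℝ) ^ (-s)
  hU : ∀ (r : Finset F.P) (σ : ℝ), 0 < σ → σ ≤ 1 →
    ∑' x, (if r ⊆ ram x then w x * (n x : ℝ) ^ (-(1 + σ)) else 0) ≤ ρ r * σ ^ (-(2 : ℝ))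
  hρ : Summable fun r : Finset F.P => hp r * ρ r

namespace TDat

variable {F : Sys} (D : TDat F)

/-- the objects of size at most `u` -/
noncomputable def fs (u : ℝ) : Finset D.X := fsz D.fin u

/-- restriction to the objects ramified at `r` -/
noncomputable def rs (v : D.X → ℝ) (r : Finset F.P) (x : D.X) : ℝ := if r ⊆ D.ram x then v x else 0

/-- the logarithmic sum -/
noncomputable def W (v : D.X → ℝ) (u : ℝ) : ℝ := ∑ x ∈ D.fs u, v x / (D.n x : ℝ)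

/-- double poles with leading coefficients `Lv` -/
def HasL (v : D.X → ℝ) (Lv : Finset F.P → ℝ) : Prop := ∀ r : Finset F.P,
  Tendsto (fun σ : ℝ => σ ^ 2 * ∑' x, (if r ⊆ D.ram x then v x * (D.n x : ℝ) ^ (-(1 + σ)) else 0))
    (𝓝[>] 0) (𝓝 (Lv r))

/-- the number of sets of primes of norm at most `t`, prime to `z`, with a character -/
noncomputable def fz (c : F.T) (z : Finset F.P) (t : ℝ) : ℝ :=
  ∑ a ∈ F.bx t, (if Disjoint a z then ((sg (c ⬝ᵥ F.tys a) : ℤ) : ℝ) else 0)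

/-- the sum over the objects and the twists -/
noncomputable def G (v : D.X → ℝ) (c : F.T) (Y : ℝ) : ℝ :=
  ∑ x ∈ D.fs Y, v x * fz c (D.ram x) (Y / (D.n x : ℝ))

end TDat

/-- T4 -/
def STW : Prop := ∀ (F : Sys) (D : TDat F) (v : D.X → ℝ) (Lv Lw : Finset F.P → ℝ),
  (∀ x, |v x| ≤ D.w x) → D.HasL v Lv → D.HasL D.w Lw → ∀ r : Finset F.P,
    Tendsto (fun u : ℝ => D.W (D.rs v r) u / Real.log u ^ 2) atTop (𝓝 (Lv r / 2))

/-- T5 -/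
def STU : Prop := ∀ (F : Sys) (D : TDat F) (r : Finset F.P) (u : ℝ), 1 ≤ u →
  D.W (D.rs D.w r) u ≤ Real.exp 1 * D.ρ r * (1 + Real.log u) ^ 2

/-- T6 -/
def STX : Prop := ∀ (F : Sys) (D : TDat F) (v : D.X → ℝ) (m : Finset F.P → ℝ) (u : ℝ),
  (Summable fun r => m r * D.W (D.rs v r) u) ∧
    D.W (fun x => v x * ∑ r ∈ (D.ram x).powerset, m r) u = ∑' r, m r * D.W (D.rs v r) u

/-- T7 -/
def STT : Prop := ∀ (F : Sys) (D : TDat F) (v : D.X → ℝ) (Lv Lw m : Finset F.P → ℝ),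
  (∀ x, |v x| ≤ D.w x) → D.HasL v Lv → D.HasL D.w Lw → (∀ r, |m r| ≤ hp r) →
    (Summable fun r => m r * Lv r) ∧
    Tendsto (fun u : ℝ => D.W (fun x => v x * ∑ r ∈ (D.ram x).powerset, m r) u / Real.log u ^ 2)
      atTop (𝓝 (1 / 2 * ∑' r, m r * Lv r))

/-- T8 -/
def STEx : Prop := ∀ (F : Sys) (z : Finset F.P),
  (∏ p ∈ z, (1 + 1 / (F.N p : ℝ))⁻¹ = ∑ r ∈ z.powerset, mg r) ∧
  (F.hs z = ∑ r ∈ z.powerset, hp r) ∧ (∀ r : Finset F.P, |mg r| ≤ hp r) ∧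
  (∏ p ∈ z, (1 + 1 / (F.N p : ℝ)) = ∑ r ∈ z.powerset, ((F.nm r : ℝ))⁻¹) ∧
  (∀ r : Finset F.P, ((F.nm r : ℝ))⁻¹ ≤ hp r)

/-- T9 -/
def STEr : Prop := ∀ (F : Sys) (D : TDat F) (Lw : Finset F.P → ℝ), D.HasL D.w Lw →
  ∀ δ : ℝ, 0 < δ → Tendsto (fun Y : ℝ => (∑ x ∈ D.fs Y, D.w x * F.hs (D.ram x) *
    (Y / (D.n x : ℝ)) ^ (1 - δ)) / (Y * Real.log Y ^ 2)) atTop (𝓝 0)

/-- T10: the trivial character -/
def STZ : Prop := ∀ F : Sys, ∃ κ : ℝ, 0 < κ ∧ ∀ (D : TDat F) (v : D.X → ℝ)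
  (Lv Lw : Finset F.P → ℝ), (∀ x, |v x| ≤ D.w x) → D.HasL v Lv → D.HasL D.w Lw →
    (Summable fun r => mg r * Lv r) ∧
    Tendsto (fun Y : ℝ => D.G v 0 Y / (Y * Real.log Y ^ 2)) atTop
      (𝓝 (κ / 2 * ∑' r, mg r * Lv r))

/-- T11: a nontrivial character -/
def STB : Prop := ∀ (F : Sys) (D : TDat F) (v : D.X → ℝ) (Lw : Finset F.P → ℝ) (c : F.T),
  c ≠ 0 → (∀ x, |v x| ≤ D.w x) → D.HasL D.w Lw →
    Tendsto (fun Y : ℝ => D.G v c Y / (Y * Real.log Y ^ 2)) atTop (𝓝 0)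

/-- T12: positivity -/
def STPos : Prop := ∀ (F : Sys) (D : TDat F) (v : D.X → ℝ) (Lv Lw : Finset F.P → ℝ),
  (∀ x, 0 ≤ v x) → (∀ x, v x ≤ D.w x) → D.HasL v Lv → D.HasL D.w Lw → 0 < Lv ∅ →
    0 < ∑' r, mg r * Lv r

end Pool.Agent.H32.MQ
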