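import Pool.Agent.H32.MQ.GStm
import Pool.Agent.H98.MF.CountHoms4

/-!
# Malle's conjecture for 8T28 and 8T29 over number fields, G3: fields inside the algebraic closure
and surjective homomorphisms
-/

set_option autoImplicit false

open scoped BigOperators Pointwise
open NumberField IsDedekindDomain Filter

namespace Pool.Agent.H32.MQ.G

open Pool.Agent.H98.MF
open Pool.Agent.H98.ML (Dt Ext)
open Pool.Agent.H32.MA (mInd bM)
open Pool.Agent.H32.MZ (NK MalleK T28 T29)

section

variable {k : Type} [Field k] [NumberField k] {n : ℕ} {G : Subgroup (Equiv.Perm (Fin n))}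

/-- a field comes from a surjection, on the nose -/
theorem g3_exists (i0 : Fin n) (M : IntermediateField k (Om k)) (hfd : FiniteDimensional k M)
    (e : (M →ₐ[k] Om k) ≃ Fin n) (he : ∀ π : Equiv.Perm (Fin n),
    π ∈ G ↔ ∃ σ : Gm k, ∀ φ : M →ₐ[k] Om k, e (σ.toAlgHom.comp φ) = π (e φ))
    (h0 : e M.val = i0) :
    ∃ ρ : Gm k →* G, Function.Surjective ρ ∧ IsLocallyConstant ρ ∧ fld k (ch4U i0 ρ) = M := by
  set P := ch4Perm M n e with hP
  have hPG : ∀ σ, P σ ∈ G := fun σ =>
    (he _).2 ⟨σ, fun φ => (ch4Perm_apply M n e σ φ).symm⟩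
  have hGP : ∀ π ∈ G, ∃ σ, P σ = π := by
    intro π hπ
    obtain ⟨σ, hσ⟩ := (he _).1 hπ
    refine ⟨σ, ?_⟩
    ext i
    obtain ⟨φ, rfl⟩ := e.surjective i
    rw [hP, ch4Perm_apply, hσ]
  let ρ : Gm k →* G := P.codRestrict G hPG
  have hρ : ∀ σ (φ : M →ₐ[k] Om k),
      (ρ σ : Equiv.Perm (Fin n)) (e φ) = e (σ.toAlgHom.comp φ) :=
    fun σ φ => ch4Perm_apply M n e σ φ
  have hs : Function.Surjective ρ := by
    rintro ⟨π, hπ⟩
    obtain ⟨σ, hσ⟩ := hGP π hπ
    exact ⟨σ, Subtype.ext hσ⟩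
  have hfixφ : ∀ (φ : M →ₐ[k] Om k) (σ : Gm k),
      σ ∈ φ.fieldRange.fixingSubgroup ↔ σ.toAlgHom.comp φ = φ := by
    intro φ σ
    rw [IntermediateField.mem_fixingSubgroup_iff]
    constructor
    · intro h
      ext x
      exact h (φ x) ⟨x, rfl⟩
    · rintro h y ⟨x, rfl⟩
      exact DFunLike.congr_fun h x
  have hl : IsLocallyConstant ρ := by
    apply lc_of_ker_openK
    have hfin : Finite (M →ₐ[k] Om k) := Finite.of_equiv _ e.symm
    have h1 : (ρ.ker : Set (Gm k)) =
        ⋂ φ : M →ₐ[k] Om k, (φ.fieldRange.fixingSubgroup : Set (Gm k)) := by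
      ext σ
      rw [Set.mem_iInter]
      constructor
      · intro h φ
        have h2 : ρ σ = 1 := h
        rw [SetLike.mem_coe, hfixφ]
        apply e.injective
        rw [← hρ, h2]
        rfl
      · intro h
        have h2 : ρ σ = 1 := by
          apply Subtype.ext
          ext i
          obtain ⟨φ, rfl⟩ := e.surjective i
          rw [hρ, (hfixφ φ σ).1 (h φ)]
          rfl
        exact h2
    rw [h1]
    refine isOpen_iInter_of_finite fun φ => ?_
    have hf : FiniteDimensional k φ.fieldRange :=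
      (AlgEquiv.ofInjectiveField φ).toLinearEquiv.finiteDimensional
    exact IntermediateField.fixingSubgroup_isOpen _
  refine ⟨ρ, hs, hl, ?_⟩
  have h1 : ch4U i0 ρ = M.fixingSubgroup := by
    ext σ
    rw [ch4_mem, ← h0, hρ, e.injective.eq_iff, IntermediateField.mem_fixingSubgroup_iff]
    constructor
    · intro h x hx
      exact DFunLike.congr_fun h (⟨x, hx⟩ : M)
    · intro h
      ext x
      exact h (x : Om k) x.2
  rw [h1]
  exact InfiniteGalois.fixedField_fixingSubgroup _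

/-- moving the inclusion to a given index -/
theorem g3_move (htr : MulAction.IsPretransitive G (Fin n)) (i0 : Fin n)
    (M : IntermediateField k (Om k)) (h : Ch4Emb n G M) :
    ∃ e : (M →ₐ[k] Om k) ≃ Fin n, (∀ π : Equiv.Perm (Fin n),
      π ∈ G ↔ ∃ σ : Gm k, ∀ φ : M →ₐ[k] Om k, e (σ.toAlgHom.comp φ) = π (e φ)) ∧
      e M.val = i0 := by
  obtain ⟨e, he⟩ := h
  obtain ⟨g, hg⟩ := htr.exists_smul_eq (e M.val) i0
  refine ⟨e.trans (g : Equiv.Perm (Fin n)), fun π => ?_, hg⟩
  have h1 : π ∈ G ↔ (g : Equiv.Perm (Fin n))⁻¹ * π * g ∈ G := by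
    rw [G.mul_mem_cancel_right g.2, G.mul_mem_cancel_left (G.inv_mem g.2)]
  rw [h1, he]
  refine exists_congr fun σ => forall_congr' fun φ => ?_
  constructor
  · intro h2
    change (g : Equiv.Perm (Fin n)) (e (σ.toAlgHom.comp φ)) =
      π ((g : Equiv.Perm (Fin n)) (e φ))
    rw [h2]
    exact Equiv.apply_symm_apply (g : Equiv.Perm (Fin n)) _
  · intro h2
    have h3 : (g : Equiv.Perm (Fin n)) (e (σ.toAlgHom.comp φ)) =
      π ((g : Equiv.Perm (Fin n)) (e φ)) := h2
    change _ = (g : Equiv.Perm (Fin n))⁻¹ (π ((g : Equiv.Perm (Fin n)) (e φ)))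
    rw [← h3]
    exact (Equiv.symm_apply_apply (g : Equiv.Perm (Fin n)) _).symm

/-- the counting argument -/
theorem g3_main (htr : MulAction.IsPretransitive G (Fin n)) (i0 : Fin n) (B : ℝ)
    (P : IntermediateField k (Om k) → Prop)
    (hP : ∀ M, P M ↔ FiniteDimensional k M ∧ Module.finrank k M = n ∧ Ch4Emb n G M ∧
      (rdN M : ℝ) ≤ B) :
    Nat.card {M : IntermediateField k (Om k) // P M} *
      Nat.card {α : MulAut G // ∀ x : G, x ∈ MulAction.stabilizer G i0 ↔
          α x ∈ MulAction.stabilizer G i0} =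
      Nat.card {ρ : Gm k →* G // Function.Surjective ρ ∧ IsLocallyConstant ρ ∧
        (rdN (fld k ((MulAction.stabilizer G i0).comap ρ)) : ℝ) ≤ B} := by
  classical
  let A := {α : MulAut G // ∀ x : G, x ∈ MulAction.stabilizer G i0 ↔
          α x ∈ MulAction.stabilizer G i0}
  let T := {ρ : Gm k →* G // Function.Surjective ρ ∧ IsLocallyConstant ρ ∧
        (rdN (fld k (ch4U i0 ρ)) : ℝ) ≤ B}
  let F : T → {M : IntermediateField k (Om k) // P M} := fun t => ⟨fld k (ch4U i0 t.1),
    (hP _).2 ⟨fldK_finite _ (ch4_open i0 t.1 t.2.2.1),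
      ch4_finrank htr i0 t.1 t.2.1 t.2.2.1, ch4_emb htr i0 t.1 t.2.1 t.2.2.1, t.2.2.2⟩⟩
  have hF : Function.Surjective F := by
    rintro ⟨M, hM⟩
    obtain ⟨hfd, hn, he, hd⟩ := (hP M).1 hM
    obtain ⟨e, he1, he2⟩ := g3_move htr i0 M he
    obtain ⟨ρ, hs, hl, hf⟩ := g3_exists i0 M hfd e he1 he2
    exact ⟨⟨ρ, hs, hl, by rw [hf]; exact hd⟩, Subtype.ext hf⟩
  choose R hR using hF
  have hU : ∀ (ρ : Gm k →* G) (α : A),
      ch4U i0 ((α.1 : G ≃* G).toMonoidHom.comp ρ) = ch4U i0 ρ := by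
    intro ρ α
    ext σ
    exact (α.2 (ρ σ)).symm
  let tw : T → A → T := fun t α => ⟨(α.1 : G ≃* G).toMonoidHom.comp t.1,
    (α.1 : G ≃* G).surjective.comp t.2.1, t.2.2.1.comp _, by
      rw [hU]
      exact t.2.2.2⟩
  have hFtw : ∀ t α, F (tw t α) = F t := by
    intro t α
    apply Subtype.ext
    change fld k (ch4U i0 ((α.1 : G ≃* G).toMonoidHom.comp t.1)) = fld k (ch4U i0 t.1)
    rw [hU]
  let ψ : {M : IntermediateField k (Om k) // P M} × A → T := fun x => tw (R x.1) x.2
  have hψ : Function.Bijective ψ := by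
    constructor
    · rintro ⟨c, α⟩ ⟨c', α'⟩ h
      have h1 : F (tw (R c) α) = F (tw (R c') α') := congrArg F h
      rw [hFtw, hFtw, hR, hR] at h1
      subst h1
      have h2 : (tw (R c) α).1 = (tw (R c) α').1 := congrArg Subtype.val h
      have h3 : α = α' := by
        apply Subtype.ext
        apply MulEquiv.ext
        intro x
        obtain ⟨σ, rfl⟩ := (R c).2.1 x
        exact DFunLike.congr_fun h2 σ
      rw [h3]
    · intro t
      set s : T := R (F t) with hs
      have h1 : F s = F t := hR (F t)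
      have h1' : fld k (ch4U i0 s.1) = fld k (ch4U i0 t.1) := congrArg Subtype.val h1
      have h1'' : ch4U i0 s.1 = ch4U i0 t.1 := by
        rw [← fldK_fixing _ (ch4_open i0 s.1 s.2.2.1), h1',
          fldK_fixing _ (ch4_open i0 t.1 t.2.2.1)]
      have hk := ch4_ker htr i0 s.2.1 t.2.1 1 (fun σ => by
        rw [one_mul, inv_one, mul_one, h1''])
      let a : G ≃* G := (QuotientGroup.quotientKerEquivOfSurjective s.1 s.2.1).symm.trans
        ((QuotientGroup.quotientMulEquivOfEq hk).trans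
          (QuotientGroup.quotientKerEquivOfSurjective t.1 t.2.1))
      have ha : ∀ σ, a (s.1 σ) = t.1 σ := by
        intro σ
        have h2 : (QuotientGroup.quotientKerEquivOfSurjective s.1 s.2.1).symm (s.1 σ) =
            (QuotientGroup.mk σ : Gm k ⧸ s.1.ker) := by
          rw [MulEquiv.symm_apply_eq]
          rfl
        change QuotientGroup.quotientKerEquivOfSurjective t.1 t.2.1
          (QuotientGroup.quotientMulEquivOfEq hk
            ((QuotientGroup.quotientKerEquivOfSurjective s.1 s.2.1).symm (s.1 σ))) = t.1 σ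
        rw [h2]
        rfl
      refine ⟨(F t, ⟨a, fun x => ?_⟩), ?_⟩
      · obtain ⟨σ, rfl⟩ := s.2.1 x
        rw [ha]
        change σ ∈ ch4U i0 s.1 ↔ σ ∈ ch4U i0 t.1
        rw [h1'']
      · apply Subtype.ext
        apply MonoidHom.ext
        intro σ
        exact ha σ
  have h1 := Nat.card_congr (Equiv.ofBijective ψ hψ)
  rw [Nat.card_prod] at h1
  exact h1

end

/-- the count of fields inside the algebraic closure of `k` -/
theorem g3_count (k : Type) [Field k] [NumberField k] (n : ℕ)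
    (G : Subgroup (Equiv.Perm (Fin n)))
    (htr : MulAction.IsPretransitive G (Fin n)) (i0 : Fin n) (X : ℝ) :
    NK k G X * Nat.card {α : MulAut G // ∀ x : G, x ∈ MulAction.stabilizer G i0 ↔
          α x ∈ MulAction.stabilizer G i0} =
      Nat.card {ρ : Gm k →* G // Function.Surjective ρ ∧ IsLocallyConstant ρ ∧
        (rdN (fld k ((MulAction.stabilizer G i0).comap ρ)) : ℝ) ≤ X} := by
  have hn : 0 < n := by
    have := i0.2
    omega
  unfold NK
  rw [← Nat.card_coe_set_eq]
  refine g3_main htr i0 X (fun M : IntermediateField k (AlgebraicClosure k) =>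
            Module.finrank k M = n ∧
            (∃ e : (M →ₐ[k] AlgebraicClosure k) ≃ Fin n, ∀ π : Equiv.Perm (Fin n),
               π ∈ G ↔ ∃ σ : AlgebraicClosure k ≃ₐ[k] AlgebraicClosure k,
                 ∀ φ : M →ₐ[k] AlgebraicClosure k, e (σ.toAlgHom.comp φ) = π (e φ)) ∧
            ∃ h : NumberField M,
              ((|@NumberField.discr M _ h| : ℤ) : ℝ) ≤
                X * ((|NumberField.discr k| : ℤ) : ℝ) ^ n) (fun M => ?_)
  constructor
  · rintro ⟨h1, h2, h3⟩
    have hfd : FiniteDimensional k M := Module.finite_of_finrank_pos (by rw [h1]; exact hn)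
    exact ⟨hfd, h1, h2, (ch4_disc M hfd n h1 X).1 h3⟩
  · rintro ⟨hfd, h1, h2, h3⟩
    exact ⟨h1, h2, (ch4_disc M hfd n h1 X).2 h3⟩

/-- transport of the homomorphisms to an isomorphic group -/
theorem g3_transport (k : Type) [Field k] [NumberField k] (n : ℕ)
    (G : Subgroup (Equiv.Perm (Fin n))) (i0 : Fin n) (H : Type) [Group H]
    (pr : H →* Equiv.Perm (Fin n)) (hpr : Function.Injective pr) (hr : pr.range = G) (X : ℝ) :
    {ρ : Gm k →* H | Function.Surjective ρ ∧ IsLocallyConstant ρ ∧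
      (rdN (fld k (((MulAction.stabilizer (Equiv.Perm (Fin n)) i0).comap pr).comap ρ)) : ℝ) ≤
        X}.ncard =
      Nat.card {ρ : Gm k →* G // Function.Surjective ρ ∧ IsLocallyConstant ρ ∧
        (rdN (fld k ((MulAction.stabilizer G i0).comap ρ)) : ℝ) ≤ X} := by
  subst hr
  rw [← Nat.card_coe_set_eq]
  let e : H ≃* pr.range := MonoidHom.ofInjective hpr
  have hU : ∀ ρ : Gm k →* H, (MulAction.stabilizer pr.range i0).comap (e.toMonoidHom.comp ρ) =
      ((MulAction.stabilizer (Equiv.Perm (Fin n)) i0).comap pr).comap ρ := by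
    intro ρ
    ext σ
    exact Iff.rfl
  refine Nat.card_congr ⟨fun ρ => ⟨e.toMonoidHom.comp ρ.1, ?_, ?_, ?_⟩,
    fun ρ => ⟨e.symm.toMonoidHom.comp ρ.1, ?_, ?_, ?_⟩, ?_, ?_⟩
  · exact e.surjective.comp ρ.2.1
  · exact IsLocallyConstant.comp ρ.2.2.1 e
  · rw [hU]
    exact ρ.2.2.2
  · exact e.symm.surjective.comp ρ.2.1
  · exact IsLocallyConstant.comp ρ.2.2.1 e.symm
  · rw [← hU]
    have h1 : e.toMonoidHom.comp (e.symm.toMonoidHom.comp ρ.1) = ρ.1 := by
      apply MonoidHom.ext
      intro σ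
      exact e.apply_symm_apply _
    rw [h1]
    exact ρ.2.2.2
  · intro ρ
    apply Subtype.ext
    apply MonoidHom.ext
    intro σ
    exact e.symm_apply_apply _
  · intro ρ
    apply Subtype.ext
    apply MonoidHom.ext
    intro σ
    exact e.apply_symm_apply _

theorem stNK : StNK := by
  intro n G htr i0 H _ pr hpr hr
  obtain ⟨a, ha⟩ : ∃ a : ℕ, a = Nat.card {α : MulAut G // ∀ x : G,
      x ∈ MulAction.stabilizer G i0 ↔ α x ∈ MulAction.stabilizer G i0} := ⟨_, rfl⟩
  have ha0 : 0 < a := by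
    rw [ha]
    have hfin : Finite (MulAut G) := Finite.of_injective (fun α : MulAut G => (α : G → G))
      fun α β h => MulEquiv.ext fun x => congrFun h x
    have hne : Nonempty {α : MulAut G // ∀ x : G,
        x ∈ MulAction.stabilizer G i0 ↔ α x ∈ MulAction.stabilizer G i0} :=
      ⟨⟨1, fun x => Iff.rfl⟩⟩
    exact Nat.card_pos
  have ha1 : (0 : ℝ) < a := by exact_mod_cast ha0
  refine ⟨1 / a, by positivity, fun k _ _ X => ?_⟩
  have h1 := g3_count k n G htr i0 X
  rw [← g3_transport k n G i0 H pr hpr hr X, ← ha] at h1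
  have h2 : (NK k G X : ℝ) * a = ({ρ : Gm k →* H | Function.Surjective ρ ∧ IsLocallyConstant ρ ∧
      (rdN (fld k (((MulAction.stabilizer (Equiv.Perm (Fin n)) i0).comap pr).comap ρ)) : ℝ) ≤
        X}.ncard : ℝ) := by exact_mod_cast h1
  rw [← h2]
  field_simp

end Pool.Agent.H32.MQ.G
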