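import Pool.Agent.H32.MQ.Od

/-!
# Malle's conjecture for 8T28 and 8T29, block BF: statements of the abstract part
-/

set_option autoImplicit false

open scoped BigOperators

namespace Pool.Agent.H32.MQ

open Pool.Agent.H98.MK (sg)
open Pool.Agent.H98.MF
open Pool.Agent.H32.MA.AB (Lat Ker cube bxA)

namespace Od

variable {S : Sys} {Q : Qd S} {n c B K : ℕ} (O : Od Q n c B K)

/-- the symbol of an element at a set of primes -/
noncomputable def sgs (e : Finset Q.P) (x : O.U) : ℝ :=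
  ((sg (∑ p ∈ e, O.chi (O.em p) x) : ℤ) : ℝ)

/-- the label of a good set -/
noncomputable def lab (al : Finset Q.P → O.A) (g : Finset Q.P) : O.V →₀ ℕ :=
  O.lb (O.io (al g)) g

end Od

/-- BF1: small elements in the ideals of good sets (pigeonhole) -/
def AlSt : Prop := ∀ (S : Sys) (Q : Qd S) (n c B K : ℕ) (O : Od Q n c B K),
  ∃ al : Finset Q.P → O.A, O.Al al

/-- BF2: the kernels are orthogonal -/
def KerSt : Prop := ∀ (S : Sys) (Q : Qd S) (n c B K : ℕ) (O : Od Q n c B K) (E : ℝ)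
  (I : Finset (Finset Q.P)), (∀ e ∈ I, Q.Gd e ∧ (Q.nq e : ℝ) ≤ E) → Ker O.L I O.kr Q.nq E

/-- BF3: the number of good sets -/
def CntSt : Prop := ∀ (S : Sys) (ε : ℝ), 0 < ε → ∃ C : ℝ, 0 < C ∧
  ∀ (Q : Qd S) (X : ℝ), 1 ≤ X → ((Q.gb X).card : ℝ) ≤ C * X ^ (1 + ε)

open Classical in
/-- BF4: the labels -/
def LbSt : Prop := ∀ (S : Sys) (Q : Qd S) (n c B K : ℕ) (O : Od Q n c B K)
  (al : Finset Q.P → O.A), O.Al al → ∀ g, Q.Gd g →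
    (∀ v, O.ord v (O.io (al g)) = O.lab al g v + if v ∈ g.image O.em then 1 else 0) ∧
    O.nV (O.lab al g) ≤ c ∧ 2 ^ (O.bp (O.lab al g)).card ≤ c ^ 2 ∧
    (∀ g', Q.Gd g' → O.lab al g' = O.lab al g → al g' = al g → g' = g) ∧
    Q.nq g ∣ O.L.nrm (al g)

open Classical in
/-- BF5: the values of the kernels -/
def KrSt : Prop := ∀ (S : Sys) (Q : Qd S) (n c B K : ℕ) (O : Od Q n c B K)
  (al : Finset Q.P → O.A), O.Al al → ∀ g, Q.Gd g → ∀ e, Q.Gd e →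
    Disjoint e (O.bp (O.lab al g)) → ((O.kr e (al g) : ℤ) : ℝ) =
      if Disjoint (Q.shd e) (Q.shd g) then O.sgs e (O.io (al g)) else 0

open Classical in
/-- BF6: the bilinear estimate for the kernels -/
def BKSt : Prop := ∀ (S : Sys) (n B : ℕ), 1 ≤ n → ∃ C : ℝ, 0 < C ∧
  ∀ (Q : Qd S) (c K : ℕ) (O : Od Q n c B K) (al : Finset Q.P → O.A), O.Al al →
    ∀ (f : O.V →₀ ℕ) (X Y : ℝ), 1 ≤ X → X ≤ Y → ∀ a b : Finset Q.P → ℝ,
      (∀ e, |a e| ≤ 1) → (∀ g, |b g| ≤ 1) →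
      |∑ e ∈ (Q.gb X).filter (fun e => Disjoint e (O.bp f)),
        ∑ g ∈ (Q.gb Y).filter (fun g => O.lab al g = f), a e * b g * O.kr e (al g)| ≤
        C * (c : ℝ) ^ (n + 1) * Y * X ^ (1 - 1 / (24 * n : ℝ))

open Classical in
/-- BF7: the bilinear estimate, the symbols at the shorter variable -/
def BFaSt : Prop := ∀ (S : Sys) (n B : ℕ), 1 ≤ n → ∃ C : ℝ, 0 < C ∧
  ∀ (Q : Qd S) (c K : ℕ) (O : Od Q n c B K) (al : Finset Q.P → O.A), O.Al al →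
    ∀ (f : O.V →₀ ℕ) (X Y : ℝ), 1 ≤ X → X ≤ Y → ∀ a b : Finset Q.P → ℝ,
      (∀ e, |a e| ≤ 1) → (∀ g, |b g| ≤ 1) →
      |∑ e ∈ Q.gb X, ∑ g ∈ (Q.gb Y).filter (fun g => O.lab al g = f),
        if Disjoint (Q.shd e) (Q.shd g) then a e * b g * O.sgs e (O.io (al g)) else 0| ≤
        C * (c : ℝ) ^ (n + 3) * Y * X ^ (1 - 1 / (24 * n : ℝ))

/-- the product formula for good sets with disjoint shadows -/
def RcSt : Prop := ∀ (S : Sys) (Q : Qd S) (n c B K : ℕ) (O : Od Q n c B K)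
  (al : Finset Q.P → O.A), O.Al al → ∀ f f' : O.V →₀ ℕ, ∃ (a b : Finset Q.P → ℝ)
    (w : O.Lm → O.Lm → ℝ), (∀ g, |a g| ≤ 1) ∧ (∀ e, |b e| ≤ 1) ∧ (∀ l l', |w l l'| ≤ 1) ∧
    ∀ g e, Q.Gd g → Q.Gd e → O.lab al g = f → O.lab al e = f' →
      Disjoint (Q.shd e) (Q.shd g) → O.sgs e (O.io (al g)) =
        a g * b e * w (O.loc (O.io (al g))) (O.loc (O.io (al e))) * O.sgs g (O.io (al e))

open Classical in
/-- BF9: the bilinear estimate, the symbols at the longer variable -/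
def BFbSt : Prop := ∀ (S : Sys) (n B : ℕ), 1 ≤ n → ∃ C : ℝ, 0 < C ∧
  ∀ (Q : Qd S) (c K : ℕ) (O : Od Q n c B K) (al : Finset Q.P → O.A), O.Al al →
    ∀ (f : O.V →₀ ℕ) (X Y : ℝ), 1 ≤ X → X ≤ Y → ∀ a b : Finset Q.P → ℝ,
      (∀ g, |a g| ≤ 1) → (∀ e, |b e| ≤ 1) →
      |∑ g ∈ (Q.gb X).filter (fun g => O.lab al g = f), ∑ e ∈ Q.gb Y,
        if Disjoint (Q.shd e) (Q.shd g) then a g * b e * O.sgs e (O.io (al g)) else 0| ≤
        C * (K : ℝ) ^ 3 * (c : ℝ) ^ (n + 3) * Y * X ^ (1 - 1 / (24 * n : ℝ))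

open Classical in
/-- BF10: the classes with given odd exponents -/
def RepSt : Prop := ∀ (S : Sys) (Q : Qd S) (n c B K : ℕ) (O : Od Q n c B K)
  (al : Finset Q.P → O.A), O.Al al → ∀ (h : Finset Q.P) (f : O.V →₀ ℕ), ∃ Y : Finset O.U,
    Y.card ≤ 4 ^ (S.m + Q.M.card) ∧ ∀ g, Q.Gd g → O.lab al g = f →
      Disjoint (Q.shd g) (Q.shd h) →
      (∀ F : Q.G → ℝ, ∑ γ ∈ Q.B (g ∪ h), F γ = ∑ y ∈ Y, F (O.cl (O.io (al g) + y))) ∧
      ∀ y ∈ Y, ∀ a, a ∉ g ∪ h → Q.sy (O.cl (O.io (al g) + y)) a =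
        O.chi (O.em a) (O.io (al g)) + O.chi (O.em a) y

/-- BF11: the bilinear estimate -/
def BFSt : Prop := ∀ (S : Sys) (n B : ℕ), 1 ≤ n → ∃ C : ℝ, 0 < C ∧
  ∀ (Q : Qd S) (c K : ℕ), 1 ≤ c → 1 ≤ K → Od Q n c B K →
    Q.BF (C * (K : ℝ) ^ 4 * (c : ℝ) ^ (n + 3) * 4 ^ (S.m + Q.M.card)) 0 (1 / (24 * n : ℝ))

end Pool.Agent.H32.MQ
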