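import Pool.Agent.H32.MQ.HMain
import Pool.Agent.H32.MQ.BFStm

/-!
# Malle's conjecture for 8T28 and 8T29, block BF: statements of the instance

For `X : HX Fr L` we construct `Od (Qof X) n c B K` with `n = B = 2 [k : ℚ]` and `c`, `K` bounded
by a power of the norm of `M`.
-/

set_option autoImplicit false

open scoped BigOperators
open NumberField IsDedekindDomain

namespace Pool.Agent.H32.MQ

open Pool.Agent.H98.MK (sg)
open Pool.Agent.H98.MF
open Pool.Agent.H32.MA.AB (Lat)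

/-! ### sizes of integers -/

section

variable (k : Type) [Field k] [NumberField k]

/-- the degree -/
noncomputable def dg : ℕ := Module.finrank ℤ (𝓞 k)

/-- a basis of the integers -/
noncomputable def kco : Module.Basis (Fin (dg k)) ℤ (𝓞 k) := Module.finBasis ℤ (𝓞 k)

variable {k}

/-- the largest coordinate -/
noncomputable def sz (x : 𝓞 k) : ℕ := Finset.univ.sup fun i => ((kco k).repr x i).natAbs

variable (k)

/-- I1: sizes of products and norms -/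
def SzSt : Prop := ∃ C : ℕ, 1 ≤ C ∧ sz (1 : 𝓞 k) ≤ C ∧
  (∀ x y : 𝓞 k, sz (x * y) ≤ C * sz x * sz y) ∧
  ∀ x : 𝓞 k, (Algebra.norm ℤ x).natAbs ≤ C * sz x ^ dg k

/-- I2: small elements of prime ideals -/
def PgSt : Prop := ∀ P : HeightOneSpectrum (𝓞 k), ∃ x : 𝓞 k, x ≠ 0 ∧ x ∈ P.asIdeal ∧
  sz x ^ dg k ≤ nrm P

variable {k}

/-- I3: small representatives of classes modulo squares -/
def BdSt (Fr : Frm k) : Prop := ∃ C A : ℕ, 1 ≤ C ∧ ∀ (a : kˣ) (M : Finset Fr.sys.P),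
  (∀ p, p ∉ M → Even (ord (Fr.pl p) (a : k))) → ∃ (b : 𝓞 k) (z : kˣ),
    (b : k) = a * z ^ 2 ∧ (∀ p, p ∉ M → ord (Fr.pl p) (b : k) = 0) ∧
    sz b ≤ C * Fr.sys.nm M ^ A

end

/-! ### the order -/

section

variable {k : Type} [Field k] [NumberField k] {L : Type} [Field L] [NumberField L] [Algebra k L]

/-- the order generated by a square root of `b` -/
def ordA (b : 𝓞 k) (β : L) (h : β ^ 2 = algebraMap k L b) : Subring L where
  carrier := {z | ∃ x y : 𝓞 k, z = algebraMap k L x + algebraMap k L y * β}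
  mul_mem' := by
    rintro _ _ ⟨x, y, rfl⟩ ⟨x', y', rfl⟩
    refine ⟨x * x' + b * (y * y'), x * y' + y * x', ?_⟩
    have e1 : ((x * x' + b * (y * y') : 𝓞 k) : k) = (x : k) * x' + b * (y * y') := rfl
    have e2 : ((x * y' + y * x' : 𝓞 k) : k) = (x : k) * y' + y * x' := rfl
    rw [e1, e2]
    simp only [map_add, map_mul]
    linear_combination (algebraMap k L y * algebraMap k L y') * h
  one_mem' := by
    refine ⟨1, 0, ?_⟩
    have e1 : ((1 : 𝓞 k) : k) = 1 := rfl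
    have e2 : ((0 : 𝓞 k) : k) = 0 := rfl
    rw [e1, e2, map_one, map_zero, zero_mul, add_zero]
  add_mem' := by
    rintro _ _ ⟨x, y, rfl⟩ ⟨x', y', rfl⟩
    refine ⟨x + x', y + y', ?_⟩
    have e1 : ((x + x' : 𝓞 k) : k) = (x : k) + x' := rfl
    have e2 : ((y + y' : 𝓞 k) : k) = (y : k) + y' := rfl
    rw [e1, e2, map_add, map_add]
    ring
  zero_mem' := by
    refine ⟨0, 0, ?_⟩
    have e2 : ((0 : 𝓞 k) : k) = 0 := rfl
    rw [e2, map_zero, zero_mul, add_zero]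
  neg_mem' := by
    rintro _ ⟨x, y, rfl⟩
    refine ⟨-x, -y, ?_⟩
    have e1 : ((-x : 𝓞 k) : k) = -(x : k) := rfl
    have e2 : ((-y : 𝓞 k) : k) = -(y : k) := rfl
    rw [e1, e2, map_neg, map_neg]
    ring

end

/-- I4: coordinates of the order -/
def LatSt (k : Type) [Field k] [NumberField k] : Prop := ∃ C : ℕ, 1 ≤ C ∧
  ∀ (L : Type) [Field L] [NumberField L] [Algebra k L] (b : 𝓞 k) (β : L)
    (h : β ^ 2 = algebraMap k L b), Module.finrank k L = 2 → ¬ IsSquare (b : k) →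
    ∃ Lt : Lat (ordA b β h) (2 * dg k) (C * (1 + sz b) ^ dg k),
      ∀ x : ordA b β h, ((Lt.nrm x : ℕ) : ℚ) = |Algebra.norm ℚ (x : L)|

/-- I5: exponents and norms -/
def NdSt (L : Type) [Field L] [NumberField L] : Prop :=
  ∀ x : 𝓞 L, x ≠ 0 → (∀ Q : HeightOneSpectrum (𝓞 L), 0 ≤ ord Q (x : L)) ∧
    ∀ T : Finset (HeightOneSpectrum (𝓞 L)),
      ∏ Q ∈ T, nrm Q ^ (ord Q (x : L)).toNat ∣ (Algebra.norm ℤ x).natAbs

/-- I6: the quadratic character at an odd prime -/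
def ChSt (L : Type) [Field L] [NumberField L] : Prop :=
  ∀ Q : HeightOneSpectrum (𝓞 L), ord Q (2 : L) = 0 → ∃ χ : Additive Lˣ →+ ZMod 2,
    (∀ x : Lˣ, Even (ord Q (x : L)) → χ (Additive.ofMul x) = qr (x : L) Q) ∧
    ∀ x y : Lˣ, hs Q (x : L) (y : L) = ((ord Q (x : L) : ℤ) : ZMod 2) *
      ((ord Q (y : L) : ℤ) : ZMod 2) * χ (Additive.ofMul (-1)) +
      ((ord Q (y : L) : ℤ) : ZMod 2) * χ (Additive.ofMul x) +
      ((ord Q (x : L) : ℤ) : ZMod 2) * χ (Additive.ofMul y)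

section

variable {k : Type} [Field k] [NumberField k] {Fr : Frm k} {L : Type} [Field L]
  [NumberField L] [Algebra k L] (X : HX Fr L)

/-- the primes of `L` not above `S₀` and `M` -/
abbrev VX : Type := {Q : HeightOneSpectrum (𝓞 L) // X.Out Q}

/-- the places of `L` above `S₀` and `M` and the real places -/
abbrev PM : Type := {v : Pl L // v ∈ pls X.SL}

/-- the local classes at these places -/
abbrev LmX : Type := ∀ v : PM X, Lˣ ⧸ LS v.1

/-- the sum of the symbols at these places -/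
noncomputable def hX (l l' : LmX X) : ZMod 2 :=
  ∑ v : PM X, hv v.1 ((Quotient.out (l v) : Lˣ) : L) ((Quotient.out (l' v) : Lˣ) : L)

/-- I7: the product formula -/
def PfSt : Prop := ∀ (x y : Lˣ) (T : Finset (VX X)),
  (∀ Q : VX X, Q ∉ T → ord Q.1 (x : L) = 0 ∧ ord Q.1 (y : L) = 0) →
    ∑ Q ∈ T, hs Q.1 (x : L) (y : L) = hX X (fun _ => (x : _)) (fun _ => (y : _))

/-- the residue symbols -/
noncomputable def rsX (b : X.PX) (x : L) : ℤ := by
  classical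
  exact if x = 0 ∨ ord b.1 x ≠ 0 then 0 else sg (qr x b.1)

/-- I9: the residue symbols depend on residues -/
def RsSt : Prop := ∀ (b : X.PX) (x y : 𝓞 L), x - y ∈ b.1.asIdeal → rsX X b x = rsX X b y

/-- I10: elements of the order with given symbols -/
def TwSt : Prop := ∀ (b0 : 𝓞 k) (β : L) (h : β ^ 2 = algebraMap k L b0),
  ¬ IsSquare (b0 : k) → (∀ p, p ∉ X.M → ord (Fr.pl p) (b0 : k) = 0) →
    ∀ (W : Finset X.PX), ∀ a ∈ W, ∀ m : ℕ, 1 ≤ m → ∃ u : ordA b0 β h,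
      rsX X a (u : L) = -1 ∧ (∀ b ∈ W, b ≠ a → rsX X b (u : L) = 1) ∧
      ∀ x, (∃ y, u * x = m * y) → ∃ y, x = m * y

/-- I11: the classes modulo squares -/
def ClSt : Prop := (∀ (x : Lˣ) (b : X.PX), Even (ord b.1 (x : L)) →
    (Qof X).sy (x : HX.GX L) b = qr (x : L) b.1) ∧
  (∀ (g : Finset X.PX) (γ : HX.GX L), γ ∈ (Qof X).B g ↔ ∃ x : Lˣ, (x : HX.GX L) = γ ∧
    ∀ Q : VX X, (Odd (ord Q.1 (x : L)) ↔ ∃ b ∈ g, b.1 = Q.1)) ∧
  ∀ x y : Lˣ, (x : HX.GX L) = (y : HX.GX L) ↔ ∃ z : Lˣ, x = y * (z * z)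

end

section

variable {k : Type} [Field k] [NumberField k] (Fr : Frm k)

/-- I8: the number of local classes -/
def LcSt : Prop := ∃ C A : ℕ, 1 ≤ C ∧ ∀ (L : Type) [Field L] [NumberField L] [Algebra k L]
  (X : HX Fr L), Finite (LmX X) ∧ Nat.card (LmX X) ≤ C * Fr.sys.nm X.M ^ A

/-- I12: few ideals of small norm -/
def CvSt : Prop := ∃ C : ℕ, 1 ≤ C ∧ ∀ (L : Type) [Field L] [NumberField L] [Algebra k L]
  (X : HX Fr L) (c : ℕ), 1 ≤ c → ∃ Φ : Finset (VX X →₀ ℕ), Φ.card ≤ C * c ^ 2 ∧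
    ∀ f : VX X →₀ ℕ, (f.prod fun Q j => nrm Q.1 ^ j) ≤ c → f ∈ Φ

/-- I13: few good sets of given norm -/
def FwSt : Prop := ∀ (L : Type) [Field L] [NumberField L] [Algebra k L] (X : HX Fr L) (m : ℕ),
  1 ≤ m → (((Qof X).gb m).filter fun z => (Qof X).nq z = m).card ≤
    m.divisors.card ^ (2 * dg k)

/-- I14: the instance -/
def OdSt : Prop := ∃ C A : ℕ, 1 ≤ C ∧ ∀ (L : Type) [Field L] [NumberField L] [Algebra k L]
  (X : HX Fr L), ∃ c K : ℕ, 1 ≤ c ∧ 1 ≤ K ∧ c ≤ C * Fr.sys.nm X.M ^ A ∧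
    K ≤ C * Fr.sys.nm X.M ^ A ∧ Nonempty (Od (Qof X) (2 * dg k) c (2 * dg k) K)

/-- the bilinear estimate over all quadratic extensions -/
def BFMain : Prop := ∃ C A η : ℝ, 0 < C ∧ 0 ≤ A ∧ 0 < η ∧
  ∀ (L : Type) [Field L] [NumberField L] [Algebra k L] (X : HX Fr L), (Qof X).BF C A η

end

end Pool.Agent.H32.MQ
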