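import Pool.Agent.H32.MQ.TStm

/-!
# Row MQ-T2b: polynomials on both sides of `1/x` on `[1/e, 1]`
-/

set_option autoImplicit false

open scoped BigOperators
open Filter Topology

namespace Pool.Agent.H32.MQ

/-- the function `1/x` on `[v, 1]`, zero on `[0, u]` -/
private noncomputable def rampT (u v x : ℝ) : ℝ :=
  max 0 (min 1 ((x - u) / (v - u))) / max x u

private theorem rampT_cont (u v : ℝ) (hu : 0 < u) : Continuous (rampT u v) := by
  unfold rampT
  refine Continuous.div (by fun_prop) (by fun_prop) fun x => ?_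
  exact (lt_of_lt_of_le hu (le_max_right _ _)).ne'

private theorem rampT_nonneg {u : ℝ} (v : ℝ) (hu : 0 < u) (x : ℝ) : 0 ≤ rampT u v x :=
  div_nonneg (le_max_left _ _) (hu.le.trans (le_max_right _ _))

private theorem rampT_low {u v : ℝ} (huv : u < v) {x : ℝ} (hx : x ≤ u) : rampT u v x = 0 := by
  unfold rampT
  have h1 : (x - u) / (v - u) ≤ 0 := div_nonpos_of_nonpos_of_nonneg (by linarith) (by linarith)
  have h2 : min 1 ((x - u) / (v - u)) ≤ 0 := (min_le_right _ _).trans h1
  rw [max_eq_left h2, zero_div]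

private theorem rampT_high {u v : ℝ} (huv : u < v) {x : ℝ} (hx : v ≤ x) :
    rampT u v x = 1 / x := by
  unfold rampT
  have h1 : 1 ≤ (x - u) / (v - u) := by
    rw [le_div_iff₀ (by linarith)]
    linarith
  rw [min_eq_left h1, max_eq_right zero_le_one, max_eq_left (by linarith)]

private theorem rampT_le {u v : ℝ} {x : ℝ} (hu : 0 < u) (hx : u ≤ x) :
    rampT u v x ≤ 1 / x := by
  unfold rampT
  rw [max_eq_left hx]
  have h1 : max 0 (min 1 ((x - u) / (v - u))) ≤ 1 := max_le zero_le_one (min_le_left _ _)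
  exact div_le_div_of_nonneg_right h1 (hu.le.trans hx)

/-- integrability of a continuous function times `-log` -/
private theorem intT {f : ℝ → ℝ} (hf : Continuous f) (a b : ℝ) :
    IntervalIntegrable (fun x => f x * (-Real.log x)) MeasureTheory.volume a b :=
  (intervalIntegral.intervalIntegrable_log'.neg).continuousOn_mul hf.continuousOn

private theorem int_inv {c : ℝ} (hc : 0 < c) (hc1 : c ≤ 1) :
    ∫ x in c..1, 1 / x * (-Real.log x) = Real.log c ^ 2 / 2 := by
  have h1 : ∀ x ∈ Set.uIcc c 1, HasDerivAt (fun x => -(Real.log x ^ 2 / 2))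
      (1 / x * (-Real.log x)) x := by
    intro x hx
    rw [Set.uIcc_of_le hc1] at hx
    have hx0 : x ≠ 0 := (lt_of_lt_of_le hc hx.1).ne'
    have h2 := (((Real.hasDerivAt_log hx0).pow 2).div_const 2).neg
    refine h2.congr_deriv ?_
    simp
    ring
  rw [intervalIntegral.integral_eq_sub_of_hasDerivAt h1]
  · rw [Real.log_one]
    ring
  · refine ContinuousOn.intervalIntegrable fun x hx => ?_
    rw [Set.uIcc_of_le hc1] at hx
    have hx0 : x ≠ 0 := (lt_of_lt_of_le hc hx.1).ne'
    refine ContinuousAt.continuousWithinAt ?_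
    exact (continuousAt_const.div continuousAt_id hx0).mul (Real.continuousAt_log hx0).neg

private theorem invT_integrable {c : ℝ} (hc : 0 < c) (hc1 : c ≤ 1) :
    IntervalIntegrable (fun x => 1 / x * (-Real.log x)) MeasureTheory.volume c 1 := by
  refine ContinuousOn.intervalIntegrable fun x hx => ?_
  rw [Set.uIcc_of_le hc1] at hx
  have hx0 : x ≠ 0 := (lt_of_lt_of_le hc hx.1).ne'
  refine ContinuousAt.continuousWithinAt ?_
  exact (continuousAt_const.div continuousAt_id hx0).mul (Real.continuousAt_log hx0).neg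

private theorem int_one : ∫ x in (0 : ℝ)..1, (-Real.log x) = 1 := by
  rw [intervalIntegral.integral_neg, integral_log]
  simp

/-- both bounds for the integral of the ramp -/
private theorem int_ramp {u v : ℝ} (hu : 0 < u) (huv : u < v) (hv : v ≤ 1) :
    Real.log v ^ 2 / 2 ≤ ∫ x in (0 : ℝ)..1, rampT u v x * (-Real.log x) ∧
      ∫ x in (0 : ℝ)..1, rampT u v x * (-Real.log x) ≤ Real.log u ^ 2 / 2 := by
  have hc := rampT_cont u v hu
  have hnn : ∀ x : ℝ, 0 ≤ x → x ≤ 1 → 0 ≤ rampT u v x * (-Real.log x) := by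
    intro x h0 h1
    exact mul_nonneg (rampT_nonneg v hu x) (neg_nonneg.2 (Real.log_nonpos h0 h1))
  constructor
  · rw [← intervalIntegral.integral_add_adjacent_intervals (intT hc 0 v) (intT hc v 1)]
    have h1 : 0 ≤ ∫ x in (0 : ℝ)..v, rampT u v x * (-Real.log x) := by
      refine intervalIntegral.integral_nonneg (by linarith) fun x hx => ?_
      exact hnn x hx.1 (hx.2.trans hv)
    have h2 : ∫ x in v..1, rampT u v x * (-Real.log x) = ∫ x in v..1, 1 / x * (-Real.log x) := by
      refine intervalIntegral.integral_congr fun x hx => ?_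
      rw [Set.uIcc_of_le hv] at hx
      rw [rampT_high huv hx.1]
    rw [h2, int_inv (by linarith) hv]
    linarith
  · rw [← intervalIntegral.integral_add_adjacent_intervals (intT hc 0 u) (intT hc u 1)]
    have h1 : ∫ x in (0 : ℝ)..u, rampT u v x * (-Real.log x) = 0 := by
      have h3 : ∫ x in (0 : ℝ)..u, rampT u v x * (-Real.log x) = ∫ _x in (0 : ℝ)..u, (0 : ℝ) := by
        refine intervalIntegral.integral_congr fun x hx => ?_
        rw [Set.uIcc_of_le hu.le] at hx
        rw [rampT_low huv hx.2, zero_mul]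
      rw [h3, intervalIntegral.integral_zero]
    have h2 : ∫ x in u..1, rampT u v x * (-Real.log x) ≤ ∫ x in u..1, 1 / x * (-Real.log x) := by
      refine intervalIntegral.integral_mono_on (by linarith) (intT hc u 1)
        (invT_integrable hu (by linarith)) fun x hx => ?_
      have hx0 : 0 ≤ x := hu.le.trans hx.1
      exact mul_le_mul_of_nonneg_right (rampT_le hu hx.1)
        (neg_nonneg.2 (Real.log_nonpos hx0 hx.2))
    rw [int_inv hu (by linarith)] at h2
    linarith

/-- comparison of polynomials with a continuous function -/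
private theorem lam_cmp (h : STLam) (P : Polynomial ℝ) {f : ℝ → ℝ} (hf : Continuous f) {α β : ℝ}
    (hP : ∀ x : ℝ, 0 ≤ x → x ≤ 1 → f x + α ≤ P.eval x ∧ P.eval x ≤ f x + β) :
    (∫ x in (0 : ℝ)..1, f x * (-Real.log x)) + α ≤ LamP P ∧
      LamP P ≤ (∫ x in (0 : ℝ)..1, f x * (-Real.log x)) + β := by
  have hPc : Continuous fun x => P.eval x := P.continuous
  have hsum : ∀ γ : ℝ, ∫ x in (0 : ℝ)..1, (f x + γ) * (-Real.log x) =
      (∫ x in (0 : ℝ)..1, f x * (-Real.log x)) + γ := by
    intro γ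
    have h1 : ∫ x in (0 : ℝ)..1, (f x + γ) * (-Real.log x) =
        ∫ x in (0 : ℝ)..1, (f x * (-Real.log x) + γ * (-Real.log x)) := by
      refine intervalIntegral.integral_congr fun x _ => ?_
      ring
    rw [h1, intervalIntegral.integral_add (intT hf 0 1) (intT continuous_const 0 1),
      intervalIntegral.integral_const_mul, int_one, mul_one]
  rw [h P]
  constructor
  · rw [← hsum α]
    refine intervalIntegral.integral_mono_on zero_le_one (intT (hf.add continuous_const) 0 1)
      (intT hPc 0 1) fun x hx => ?_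
    exact mul_le_mul_of_nonneg_right (hP x hx.1 hx.2).1
      (neg_nonneg.2 (Real.log_nonpos hx.1 hx.2))
  · rw [← hsum β]
    refine intervalIntegral.integral_mono_on zero_le_one (intT hPc 0 1)
      (intT (hf.add continuous_const) 0 1) fun x hx => ?_
    exact mul_le_mul_of_nonneg_right (hP x hx.1 hx.2).2
      (neg_nonneg.2 (Real.log_nonpos hx.1 hx.2))

theorem tApx (h : STLam) : STApx := by
  intro ε hε
  obtain ⟨θ, hθ0, hθ1, hθε⟩ : ∃ θ : ℝ, 0 < θ ∧ θ ≤ 1 / 2 ∧ 4 * θ ≤ ε :=
    ⟨min (1 / 2) (ε / 4), lt_min (by norm_num) (by linarith), min_le_left _ _, by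
      have := min_le_right (1 / 2 : ℝ) (ε / 4)
      linarith⟩
  set a : ℝ := Real.exp (-1) with ha
  set c : ℝ := Real.exp (-(1 - θ)) with hc
  set c' : ℝ := Real.exp (-(1 + θ)) with hc'
  have ha0 : 0 < a := Real.exp_pos _
  have hc'0 : 0 < c' := Real.exp_pos _
  have hac : a < c := Real.exp_lt_exp.2 (by linarith)
  have hc'a : c' < a := Real.exp_lt_exp.2 (by linarith)
  have hc1 : c ≤ 1 := Real.exp_le_one_iff.2 (by linarith)
  have ha1 : a ≤ 1 := hac.le.trans hc1
  have la : Real.log a = -1 := Real.log_exp _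
  have lc : Real.log c = -(1 - θ) := Real.log_exp _
  have lc' : Real.log c' = -(1 + θ) := Real.log_exp _
  have f1 := rampT_cont a c ha0
  have f2 := rampT_cont c' a hc'0
  obtain ⟨P1, hP1⟩ := exists_polynomial_near_of_continuousOn 0 1 (fun x => rampT a c x - θ)
    (f1.sub continuous_const).continuousOn θ hθ0
  obtain ⟨P2, hP2⟩ := exists_polynomial_near_of_continuousOn 0 1 (fun x => rampT c' a x + θ)
    (f2.add continuous_const).continuousOn θ hθ0
  have hb1 : ∀ x : ℝ, 0 ≤ x → x ≤ 1 → rampT a c x + (-(2 * θ)) ≤ P1.eval x ∧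
      P1.eval x ≤ rampT a c x + 0 := by
    intro x h0 h1
    have h2 := abs_lt.1 (hP1 x ⟨h0, h1⟩)
    constructor <;> linarith [h2.1, h2.2]
  have hb2 : ∀ x : ℝ, 0 ≤ x → x ≤ 1 → rampT c' a x + 0 ≤ P2.eval x ∧
      P2.eval x ≤ rampT c' a x + 2 * θ := by
    intro x h0 h1
    have h2 := abs_lt.1 (hP2 x ⟨h0, h1⟩)
    constructor <;> linarith [h2.1, h2.2]
  obtain ⟨l1, l2⟩ := lam_cmp h P1 f1 hb1
  obtain ⟨l3, l4⟩ := lam_cmp h P2 f2 hb2
  obtain ⟨i1, i2⟩ := int_ramp ha0 hac hc1
  obtain ⟨i3, i4⟩ := int_ramp hc'0 hc'a ha1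
  rw [la] at i2 i3
  rw [lc] at i1
  rw [lc'] at i4
  refine ⟨P1, P2, fun x h0 h1 => ⟨?_, ?_⟩, ?_, ?_⟩
  · have h2 := (hb1 x h0 h1).2
    rw [add_zero] at h2
    refine h2.trans ?_
    unfold gK
    by_cases hx : Real.exp (-1) ≤ x
    · rw [if_pos hx]
      exact rampT_le ha0 hx
    · rw [if_neg hx, rampT_low hac (not_le.1 hx).le]
  · have h2 := (hb2 x h0 h1).1
    rw [add_zero] at h2
    refine le_trans ?_ h2
    unfold gK
    by_cases hx : Real.exp (-1) ≤ x
    · rw [if_pos hx, rampT_high hc'a hx]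
    · rw [if_neg hx]
      exact rampT_nonneg a hc'0 x
  · rw [abs_le]
    constructor
    · nlinarith
    · nlinarith
  · rw [abs_le]
    constructor
    · nlinarith
    · nlinarith

end Pool.Agent.H32.MQ
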