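import Pool.Agent.H32.MQ.TStm

/-!
# Malle's conjecture for 8T28 and 8T29 over number fields, row T11: a nontrivial character
-/

set_option autoImplicit false

open scoped BigOperators
open Filter Topology

namespace Pool.Agent.H32.MQ

open Pool.Agent.H98.MK (sg)
open Pool.Agent.H98.MF

theorem tB (h3 : STEr) : STB := by
  intro F D v Lw c hc hv hL
  obtain ⟨C, hC, h1⟩ := chr_sqf F
  have h2 := h3 F D Lw hL F.dl F.dl_pos
  have hfz : ∀ (z : Finset F.P) (t : ℝ), 1 ≤ t →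
      |TDat.fz c z t| ≤ C * F.hs z * t ^ (1 - F.dl) := by
    intro z t ht
    have h := h1 ∅ z c (Or.inr hc) t ht
    simp only [Finset.empty_union, F.JJ_empty_right, zero_add, F.nm_empty, Nat.cast_one,
      Real.one_rpow, mul_one] at h
    exact h
  have hG : ∀ Y : ℝ, 1 ≤ Y → |D.G v c Y| ≤ C * ∑ x ∈ D.fs Y, D.w x * F.hs (D.ram x) *
      (Y / (D.n x : ℝ)) ^ (1 - F.dl) := by
    intro Y hY
    have h4 : |D.G v c Y| ≤ ∑ x ∈ D.fs Y, |v x * TDat.fz c (D.ram x) (Y / (D.n x : ℝ))| :=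
      Finset.abs_sum_le_sum_abs _ _
    refine h4.trans ?_
    rw [Finset.mul_sum]
    refine Finset.sum_le_sum fun x hx => ?_
    have hx1 : D.n x ≤ ⌊Y⌋₊ := by
      have h5 : x ∈ (D.fin ⌊Y⌋₊).toFinset := hx
      rw [Set.Finite.mem_toFinset] at h5
      exact h5
    have hx2 : (D.n x : ℝ) ≤ Y := by
      have h6 : ((⌊Y⌋₊ : ℕ) : ℝ) ≤ Y := Nat.floor_le (by linarith)
      exact le_trans (by exact_mod_cast hx1) h6
    have hx3 : (0 : ℝ) < D.n x := by exact_mod_cast D.one_le x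
    have ht : 1 ≤ Y / (D.n x : ℝ) := (one_le_div hx3).2 hx2
    have h7 := hfz (D.ram x) (Y / (D.n x : ℝ)) ht
    rw [abs_mul]
    calc |v x| * |TDat.fz c (D.ram x) (Y / (D.n x : ℝ))|
        ≤ D.w x * (C * F.hs (D.ram x) * (Y / (D.n x : ℝ)) ^ (1 - F.dl)) :=
          mul_le_mul (hv x) h7 (abs_nonneg _) (D.w0 x)
      _ = C * (D.w x * F.hs (D.ram x) * (Y / (D.n x : ℝ)) ^ (1 - F.dl)) := by ring
  have h8 := h2.const_mul C
  rw [mul_zero] at h8
  refine squeeze_zero_norm' (eventually_atTop.2 ⟨1, fun Y hY => ?_⟩) h8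
  have hden : 0 ≤ Y * Real.log Y ^ 2 := mul_nonneg (by linarith) (sq_nonneg _)
  rw [Real.norm_eq_abs, abs_div, abs_of_nonneg hden, ← mul_div_assoc]
  exact div_le_div_of_nonneg_right (hG Y hY) hden

end Pool.Agent.H32.MQ
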