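import Pool.Agent.H32.MQ.TStm

/-!
# Project MQ, row T9: the error terms
-/

set_option autoImplicit false

open scoped BigOperators
open Filter Topology

namespace Pool.Agent.H32.MQ

open Pool.Agent.H98.MK (sg)
open Pool.Agent.H98.MF

theorem ter_mem {X : Type} {n : X → ℕ} (hf : ∀ N : ℕ, {x | n x ≤ N}.Finite) {u : ℝ} (hu : 0 ≤ u)
    {x : X} : x ∈ fsz hf u ↔ (n x : ℝ) ≤ u := by
  unfold fsz
  rw [Set.Finite.mem_toFinset]
  exact Nat.le_floor_iff hu

theorem ter_log (c : ℝ) (hc : 0 < c) :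
    Tendsto (fun Y : ℝ => Real.log (c * Y) ^ 2 / Real.log Y ^ 2) atTop (𝓝 1) := by
  have h1 : Tendsto (fun Y : ℝ => Real.log c / Real.log Y + 1) atTop (𝓝 (0 + 1)) :=
    (Real.tendsto_log_atTop.const_div_atTop _).add_const 1
  have h2 := h1.pow 2
  rw [zero_add, one_pow] at h2
  refine h2.congr' ?_
  filter_upwards [eventually_gt_atTop (1 : ℝ)] with Y hY
  have h3 : 0 < Real.log Y := Real.log_pos hY
  rw [Real.log_mul hc.ne' (by linarith), ← div_pow, add_div, div_self h3.ne']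

theorem tEr (h1 : STT) (h2 : STEx) : STEr := by
  intro F D Lw hL δ hδ
  have hhp : ∀ r : Finset F.P, 0 ≤ hp r := fun r => le_trans (abs_nonneg _) ((h2 F ∅).2.2.1 r)
  obtain ⟨-, hT⟩ := h1 F D D.w Lw Lw hp (fun x => by rw [abs_of_nonneg (D.w0 x)]) hL hL
    (fun r => by rw [abs_of_nonneg (hhp r)])
  obtain ⟨l, hl⟩ : ∃ l : ℝ, l = 1 / 2 * ∑' r, hp r * Lw r := ⟨_, rfl⟩
  rw [← hl] at hT
  have hhs : ∀ x, ∑ r ∈ (D.ram x).powerset, hp r = F.hs (D.ram x) :=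
    fun x => ((h2 F (D.ram x)).2.1).symm
  have hhs0 : ∀ x, 0 ≤ F.hs (D.ram x) := fun x => by
    rw [← hhs x]
    exact Finset.sum_nonneg fun r _ => hhp r
  obtain ⟨b, hb⟩ : ∃ b : D.X → ℝ, ∀ x, b x = D.w x * F.hs (D.ram x) / (D.n x : ℝ) :=
    ⟨_, fun x => rfl⟩
  have hb0 : ∀ x, 0 ≤ b x := fun x => by
    rw [hb]
    exact div_nonneg (mul_nonneg (D.w0 x) (hhs0 x)) (Nat.cast_nonneg _)
  obtain ⟨V, hV⟩ : ∃ V : ℝ → ℝ, ∀ u, V u = ∑ x ∈ D.fs u, b x := ⟨_, fun u => rfl⟩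
  have hVT : Tendsto (fun u : ℝ => V u / Real.log u ^ 2) atTop (𝓝 l) := by
    refine hT.congr fun u => ?_
    rw [hV]
    unfold TDat.W
    congr 1
    refine Finset.sum_congr rfl fun x _ => ?_
    rw [hb, ← hhs]
  have hn : ∀ x, (0 : ℝ) < D.n x := fun x => by
    have := D.one_le x
    exact_mod_cast this
  -- the function to be bounded
  have hR : ∀ Y : ℝ, 0 < Y → (∑ x ∈ D.fs Y, D.w x * F.hs (D.ram x) *
      (Y / (D.n x : ℝ)) ^ (1 - δ)) / (Y * Real.log Y ^ 2) =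
      (∑ x ∈ D.fs Y, b x * ((D.n x : ℝ) / Y) ^ δ) / Real.log Y ^ 2 := by
    intro Y hY
    have h3 : ∑ x ∈ D.fs Y, D.w x * F.hs (D.ram x) * (Y / (D.n x : ℝ)) ^ (1 - δ) =
        Y * ∑ x ∈ D.fs Y, b x * ((D.n x : ℝ) / Y) ^ δ := by
      rw [Finset.mul_sum]
      refine Finset.sum_congr rfl fun x _ => ?_
      have h4 : 0 < Y / (D.n x : ℝ) := div_pos hY (hn x)
      have h5 : ((D.n x : ℝ) / Y) ^ δ = (Y / (D.n x : ℝ)) ^ (-δ) := by
        rw [Real.rpow_neg h4.le, ← Real.inv_rpow h4.le, inv_div]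
      rw [h5, hb, sub_eq_add_neg, Real.rpow_add h4, Real.rpow_one]
      have h6 := (hn x).ne'
      field_simp
    rw [h3, mul_div_mul_left _ _ hY.ne']
  have hup : ∀ c Y : ℝ, 0 < c → c ≤ 1 → 0 < Y →
      ∑ x ∈ D.fs Y, b x * ((D.n x : ℝ) / Y) ^ δ ≤ c ^ δ * V (c * Y) + V Y - V (c * Y) := by
    intro c Y hc hc1 hY
    have hcY : c * Y ≤ Y := by nlinarith
    have hcY0 : 0 < c * Y := mul_pos hc hY
    have hsub : D.fs (c * Y) ⊆ D.fs Y := by
      intro x hx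
      unfold TDat.fs at hx ⊢
      rw [ter_mem D.fin hcY0.le] at hx
      rw [ter_mem D.fin hY.le]
      exact hx.trans hcY
    classical
    rw [hV, hV, ← Finset.sum_sdiff hsub, ← Finset.sum_sdiff hsub (f := b)]
    have h3 : ∑ x ∈ D.fs Y \ D.fs (c * Y), b x * ((D.n x : ℝ) / Y) ^ δ ≤
        ∑ x ∈ D.fs Y \ D.fs (c * Y), b x := by
      refine Finset.sum_le_sum fun x hx => ?_
      have hx1 := (Finset.mem_sdiff.1 hx).1
      unfold TDat.fs at hx1
      rw [ter_mem D.fin hY.le] at hx1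
      have h4 : ((D.n x : ℝ) / Y) ^ δ ≤ 1 :=
        Real.rpow_le_one (div_nonneg (hn x).le hY.le) ((div_le_one hY).2 hx1) hδ.le
      exact mul_le_of_le_one_right (hb0 x) h4
    have h5 : ∑ x ∈ D.fs (c * Y), b x * ((D.n x : ℝ) / Y) ^ δ ≤
        c ^ δ * ∑ x ∈ D.fs (c * Y), b x := by
      rw [Finset.mul_sum]
      refine Finset.sum_le_sum fun x hx => ?_
      unfold TDat.fs at hx
      rw [ter_mem D.fin hcY0.le] at hx
      have h4 : ((D.n x : ℝ) / Y) ^ δ ≤ c ^ δ :=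
        Real.rpow_le_rpow (div_nonneg (hn x).le hY.le) ((div_le_iff₀ hY).2 hx) hδ.le
      rw [mul_comm]
      exact mul_le_mul_of_nonneg_right h4 (hb0 x)
    linarith
  have hcV : ∀ c : ℝ, 0 < c →
      Tendsto (fun Y : ℝ => V (c * Y) / Real.log Y ^ 2) atTop (𝓝 l) := by
    intro c hc
    have h3 : Tendsto (fun Y : ℝ => c * Y) atTop atTop := tendsto_id.const_mul_atTop hc
    have h4 := (hVT.comp h3).mul (ter_log c hc)
    rw [mul_one] at h4
    refine h4.congr' ?_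
    filter_upwards [h3.eventually (eventually_gt_atTop (1 : ℝ))] with Y hY
    have h5 : Real.log (c * Y) ^ 2 ≠ 0 := pow_ne_zero _ (Real.log_pos hY).ne'
    rw [Function.comp_apply, div_mul_div_comm, mul_comm (V (c * Y)), mul_div_mul_left _ _ h5]
  rw [tendsto_order]
  constructor
  · intro a ha
    filter_upwards [eventually_gt_atTop (0 : ℝ)] with Y hY
    rw [hR Y hY]
    refine lt_of_lt_of_le ha (div_nonneg (Finset.sum_nonneg fun x _ => ?_) (sq_nonneg _))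
    exact mul_nonneg (hb0 x) (Real.rpow_nonneg (div_nonneg (hn x).le hY.le) _)
  · intro a ha
    obtain ⟨c, hc, hc1, hca⟩ : ∃ c : ℝ, 0 < c ∧ c ≤ 1 ∧ c ^ δ * l < a := by
      have h3 : Tendsto (fun c : ℝ => c ^ δ * l) (𝓝[>] 0) (𝓝 (0 * l)) := by
        refine Tendsto.mul_const l ?_
        have h4 : Tendsto (fun c : ℝ => c ^ δ) (𝓝 0) (𝓝 ((0 : ℝ) ^ δ)) :=
          (Real.continuousAt_rpow_const 0 δ (Or.inr hδ.le)).tendsto
        rw [Real.zero_rpow hδ.ne'] at h4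
        exact h4.mono_left nhdsWithin_le_nhds
      rw [zero_mul] at h3
      have h5 := (h3.eventually (eventually_lt_nhds ha)).and
        (Ioc_mem_nhdsGT (zero_lt_one (α := ℝ)))
      obtain ⟨c, h6, h7⟩ := h5.exists
      exact ⟨c, h7.1, h7.2, h6⟩
    have h3 : Tendsto (fun Y : ℝ => c ^ δ * (V (c * Y) / Real.log Y ^ 2) + V Y / Real.log Y ^ 2 -
        V (c * Y) / Real.log Y ^ 2) atTop (𝓝 (c ^ δ * l + l - l)) :=
      (((hcV c hc).const_mul _).add hVT).sub (hcV c hc)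
    rw [add_sub_cancel_right] at h3
    filter_upwards [h3.eventually (eventually_lt_nhds hca), eventually_gt_atTop (0 : ℝ)]
      with Y h4 hY
    refine lt_of_le_of_lt ?_ h4
    rw [hR Y hY]
    have h5 := div_le_div_of_nonneg_right (hup c Y hc hc1 hY) (sq_nonneg (Real.log Y))
    refine h5.trans (le_of_eq ?_)
    ring

end Pool.Agent.H32.MQ
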