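import Pool.Agent.H32.MQ.TStm

/-!
# Malle's conjecture for 8T28 and 8T29 over number fields, block T: expansions over subsets
-/

set_option autoImplicit false

open scoped BigOperators
open Filter Topology

namespace Pool.Agent.H32.MQ

open Pool.Agent.H98.MK (sg)
open Pool.Agent.H98.MF

theorem two_le_sq {F : Sys} (p : F.P) : (2 : ℝ) ≤ (F.N p : ℝ) := by
  exact_mod_cast F.two_le p

theorem hpf_eq {F : Sys} (p : F.P) :
    (1 - (F.N p : ℝ) ^ (-(1 / 2) : ℝ))⁻¹ - 1 = 1 / (Real.sqrt (F.N p) - 1) := by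
  have h2 := two_le_sq p
  have h0 : (0 : ℝ) ≤ (F.N p : ℝ) := by linarith
  have hs : (F.N p : ℝ) ^ (-(1 / 2) : ℝ) = (Real.sqrt (F.N p))⁻¹ := by
    rw [Real.rpow_neg h0, ← Real.sqrt_eq_rpow]
  have hs1 : 1 < Real.sqrt (F.N p) := by
    rw [show (1 : ℝ) = Real.sqrt 1 by simp]
    exact Real.sqrt_lt_sqrt (by norm_num) (by linarith)
  have hs0 : Real.sqrt (F.N p) ≠ 0 := by linarith
  have hs2 : Real.sqrt (F.N p) - 1 ≠ 0 := by linarith
  rw [hs]
  have h3 : 1 - (Real.sqrt (F.N p))⁻¹ = (Real.sqrt (F.N p) - 1) / Real.sqrt (F.N p) := by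
    field_simp
  rw [h3, inv_div]
  field_simp
  ring

theorem sq_bd {F : Sys} (p : F.P) :
    0 < Real.sqrt (F.N p) - 1 ∧ Real.sqrt (F.N p) - 1 ≤ (F.N p : ℝ) := by
  have h2 := two_le_sq p
  have hs1 : 1 < Real.sqrt (F.N p) := by
    rw [show (1 : ℝ) = Real.sqrt 1 by simp]
    exact Real.sqrt_lt_sqrt (by norm_num) (by linarith)
  have hsq : Real.sqrt (F.N p) * Real.sqrt (F.N p) = (F.N p : ℝ) :=
    Real.mul_self_sqrt (by linarith)
  refine ⟨by linarith, ?_⟩
  nlinarith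

/-- T8 -/
theorem tEx : STEx := by
  classical
  intro F z
  refine ⟨?_, ?_, ?_, ?_, ?_⟩
  · unfold mg
    rw [← Finset.prod_one_add]
    refine Finset.prod_congr rfl fun p _ => ?_
    have h2 := two_le_sq p
    have h0 : (F.N p : ℝ) ≠ 0 := by linarith
    have h1 : (F.N p : ℝ) + 1 ≠ 0 := by linarith
    have h3 : 1 + 1 / (F.N p : ℝ) = ((F.N p : ℝ) + 1) / (F.N p : ℝ) := by
      field_simp
    rw [h3, inv_div]
    field_simp
    ring
  · unfold hp Pre.hs
    rw [← Finset.prod_one_add]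
    refine Finset.prod_congr rfl fun p _ => ?_
    ring
  · intro r
    unfold mg hp
    rw [Finset.abs_prod]
    refine Finset.prod_le_prod (fun p _ => abs_nonneg _) fun p _ => ?_
    have h2 := two_le_sq p
    obtain ⟨h3, h4⟩ := sq_bd p
    rw [hpf_eq, abs_neg, abs_of_pos (by positivity)]
    exact one_div_le_one_div_of_le h3 (by linarith)
  · have hx : ∀ r : Finset F.P, ((F.nm r : ℝ))⁻¹ = ∏ p ∈ r, 1 / (F.N p : ℝ) := by
      intro r
      simp [Pre.nm, Finset.prod_inv_distrib]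
    simp only [hx]
    rw [← Finset.prod_one_add]
  · intro r
    have hx : ((F.nm r : ℝ))⁻¹ = ∏ p ∈ r, 1 / (F.N p : ℝ) := by
      simp [Pre.nm, Finset.prod_inv_distrib]
    rw [hx]
    unfold hp
    refine Finset.prod_le_prod (fun p _ => by positivity) fun p _ => ?_
    have h2 := two_le_sq p
    obtain ⟨h3, h4⟩ := sq_bd p
    rw [hpf_eq]
    exact one_div_le_one_div_of_le h3 h4

end Pool.Agent.H32.MQ
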