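import Pool.Agent.H32.MQ.TFStm

/-!
# Malle's conjecture for 8T28 and 8T29 over number fields, row T14: the limit
-/

set_option autoImplicit false

open scoped BigOperators
open Filter Topology

namespace Pool.Agent.H32.MQ

open Pool.Agent.H98.MK (sg)
open Pool.Agent.H98.MF

/-- change of the variable in a limit -/
theorem tfin_scale {f : ℝ → ℝ} {l c : ℝ} (hc : 0 < c)
    (h : Tendsto (fun Y : ℝ => f Y / (Y * Real.log Y ^ 2)) atTop (𝓝 l)) :
    Tendsto (fun Y : ℝ => f (Y * c) / (Y * Real.log Y ^ 2)) atTop (𝓝 (c * l)) := by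
  have hc1 : Tendsto (fun Y : ℝ => Y * c) atTop atTop := tendsto_id.atTop_mul_const hc
  have h5 := h.comp hc1
  have h6 : Tendsto (fun Y : ℝ => Real.log (Y * c) / Real.log Y) atTop (𝓝 1) := by
    have h7 : Tendsto (fun Y : ℝ => 1 + Real.log c / Real.log Y) atTop (𝓝 (1 + 0)) :=
      tendsto_const_nhds.add (Tendsto.div_atTop tendsto_const_nhds Real.tendsto_log_atTop)
    rw [add_zero] at h7
    refine h7.congr' ?_
    filter_upwards [eventually_gt_atTop (1 : ℝ)] with Y hY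
    have h8 : Real.log Y ≠ 0 := (Real.log_pos hY).ne'
    have hY0 : Y ≠ 0 := by linarith
    rw [Real.log_mul hY0 hc.ne', add_div, div_self h8]
  have h8 := h5.mul ((h6.pow 2).mul_const c)
  have e : l * (1 ^ 2 * c) = c * l := by ring
  rw [e] at h8
  refine h8.congr' ?_
  filter_upwards [eventually_gt_atTop (1 : ℝ), eventually_gt_atTop (1 / c)] with Y hY hY2
  have hY0 : 0 < Y := by linarith
  have h9 : 1 < Y * c := by
    rw [div_lt_iff₀ hc] at hY2
    exact hY2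
  have h10 : Real.log Y ≠ 0 := (Real.log_pos hY).ne'
  have h11 : Real.log (Y * c) ≠ 0 := (Real.log_pos h9).ne'
  show f (Y * c) / (Y * c * Real.log (Y * c) ^ 2) * ((Real.log (Y * c) / Real.log Y) ^ 2 * c) =
    f (Y * c) / (Y * Real.log Y ^ 2)
  field_simp

theorem tFin (h1 : STZ) (h2 : STB) (h3 : STFou) : STFin := by
  intro F
  obtain ⟨κ, hκ, hz⟩ := h1 F
  refine ⟨κ, hκ, fun D Nt Lv Lw hN hv hw => ?_⟩
  have hb : ∀ b x, |D.vb Nt b x| ≤ D.w x := (h3 F D Nt 0).2.2 hN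
  have h0 : D.vb Nt 0 = D.mn Nt := funext (h3 F D Nt 0).2.1
  obtain ⟨hs, ht⟩ := hz D (D.vb Nt 0) Lv Lw (hb 0) (by rw [h0]; exact hv) hw
  refine ⟨hs, fun c hc => tfin_scale hc ?_⟩
  have e1 : (fun Y : ℝ => D.AA Nt Y / (Y * Real.log Y ^ 2)) =
      fun Y : ℝ => ∑ b : F.T, D.G (D.vb Nt b) b Y / (Y * Real.log Y ^ 2) := by
    funext Y
    rw [(h3 F D Nt Y).1, Finset.sum_div]
  have e2 : κ / 2 * ∑' r, mg r * Lv r =
      ∑ b : F.T, if b = 0 then κ / 2 * ∑' r, mg r * Lv r else 0 := by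
    rw [Finset.sum_ite_eq' Finset.univ (0 : F.T), if_pos (Finset.mem_univ _)]
  rw [e1, e2]
  refine tendsto_finsetSum _ fun b _ => ?_
  by_cases hb0 : b = 0
  · rw [if_pos hb0, hb0]
    exact ht
  · rw [if_neg hb0]
    exact h2 F D _ Lw b hb0 (hb b) hw

end Pool.Agent.H32.MQ
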