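import Pool.Agent.H32.MQ.TFStm
import Pool.Agent.H98.MF.SClassSum

/-!
# Malle's conjecture for 8T28 and 8T29 over number fields: row T13, Fourier expansion in the types
-/

set_option autoImplicit false

open scoped BigOperators
open Filter Topology

namespace Pool.Agent.H32.MQ

open Pool.Agent.H98.MK (sg)
open Pool.Agent.H98.MF

/-- the sum of the signs over the characters, real version -/
theorem t13_sum {m : ℕ} (w : Fin m → ZMod 2) :
    ∑ c : Fin m → ZMod 2, ((sg (c ⬝ᵥ w) : ℤ) : ℝ) = if w = 0 then 2 ^ m else 0 := by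
  rw [← Int.cast_sum, cls_sum_T w]
  split_ifs <;> norm_num

/-- inversion -/
theorem t13_inv {m : ℕ} (f : (Fin m → ZMod 2) → ℝ) (e : Fin m → ZMod 2) :
    ∑ b : Fin m → ZMod 2, (1 / 2 ^ m * ∑ e' : Fin m → ZMod 2, f e' *
      ((sg (b ⬝ᵥ e') : ℤ) : ℝ)) * ((sg (b ⬝ᵥ e) : ℤ) : ℝ) = f e := by
  classical
  have h1 : ∀ b : Fin m → ZMod 2, (1 / 2 ^ m * ∑ e' : Fin m → ZMod 2, f e' *
      ((sg (b ⬝ᵥ e') : ℤ) : ℝ)) * ((sg (b ⬝ᵥ e) : ℤ) : ℝ) =
      1 / 2 ^ m * ∑ e' : Fin m → ZMod 2, f e' * ((sg (b ⬝ᵥ (e' + e)) : ℤ) : ℝ) := by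
    intro b
    rw [mul_assoc, Finset.sum_mul]
    congr 1
    refine Finset.sum_congr rfl fun e' _ => ?_
    rw [dotProduct_add, sg_add, Int.cast_mul]
    ring
  rw [Finset.sum_congr rfl fun b _ => h1 b, ← Finset.mul_sum, Finset.sum_comm]
  have h2 : ∀ e' : Fin m → ZMod 2, ∑ b : Fin m → ZMod 2, f e' *
      ((sg (b ⬝ᵥ (e' + e)) : ℤ) : ℝ) = if e' = e then f e' * 2 ^ m else 0 := by
    intro e'
    rw [← Finset.mul_sum, t13_sum]
    have h3 : e' + e = 0 ↔ e' = e := by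
      constructor
      · intro h
        funext i
        exact CharTwo.add_eq_zero.1 (congrFun h i)
      · intro h
        funext i
        exact CharTwo.add_eq_zero.2 (congrFun h i)
    by_cases h4 : e' = e
    · rw [if_pos h4, if_pos (h3.2 h4)]
    · rw [if_neg h4, if_neg (fun h5 => h4 (h3.1 h5)), mul_zero]
  rw [Finset.sum_congr rfl fun e' _ => h2 e', Finset.sum_ite_eq' Finset.univ e,
    if_pos (Finset.mem_univ e)]
  field_simp

/-- the product over the ramified primes -/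
theorem t13_prod {F : Sys} (b : F.T) (s : Finset F.P) :
    ∏ p ∈ s, (1 + ((sg (b ⬝ᵥ F.ty p) : ℤ) : ℝ)) =
      ∑ r ∈ s.powerset, ((sg (b ⬝ᵥ F.tys r) : ℤ) : ℝ) := by
  rw [Finset.prod_one_add]
  refine Finset.sum_congr rfl fun r _ => ?_
  rw [F.dot_tys, sg_sum, Int.cast_prod]

/-- T13 -/
theorem tFou : STFou := by
  intro F D Nt Y
  refine ⟨?_, fun x => ?_, fun h b x => ?_⟩
  · unfold TDat.AA TDat.G
    refine (?_ : _ = ∑ x ∈ D.fs Y, ∑ b : F.T, D.vb Nt b x *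
      TDat.fz b (D.ram x) (Y / (D.n x : ℝ))).trans Finset.sum_comm
    refine Finset.sum_congr rfl fun x _ => ?_
    have h1 : ∀ b : F.T, D.vb Nt b x * TDat.fz b (D.ram x) (Y / (D.n x : ℝ)) =
        ∑ r ∈ (D.ram x).powerset, ∑ a ∈ F.bx (Y / (D.n x : ℝ)),
          (if Disjoint a (D.ram x) then (1 / 2 ^ F.m * ∑ e : F.T, Nt x e *
            ((sg (b ⬝ᵥ e) : ℤ) : ℝ)) * ((sg (b ⬝ᵥ (F.tys r + F.tys a)) : ℤ) : ℝ) else 0) := by
      intro b
      unfold TDat.vb TDat.fz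
      generalize (1 / 2 ^ F.m * ∑ e : F.T, Nt x e * ((sg (b ⬝ᵥ e) : ℤ) : ℝ)) = S
      rw [t13_prod, mul_assoc, Finset.sum_mul, Finset.mul_sum]
      refine Finset.sum_congr rfl fun r _ => ?_
      rw [Finset.mul_sum, Finset.mul_sum]
      refine Finset.sum_congr rfl fun a _ => ?_
      split_ifs with hd
      · rw [dotProduct_add, sg_add, Int.cast_mul]
      · rw [mul_zero, mul_zero]
    refine Eq.trans ?_ (Finset.sum_congr rfl fun b _ => h1 b).symm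
    refine (?_ : _ = ∑ r ∈ (D.ram x).powerset, ∑ b : F.T, ∑ a ∈ F.bx (Y / (D.n x : ℝ)),
          (if Disjoint a (D.ram x) then (1 / 2 ^ F.m * ∑ e : F.T, Nt x e *
            ((sg (b ⬝ᵥ e) : ℤ) : ℝ)) * ((sg (b ⬝ᵥ (F.tys r + F.tys a)) : ℤ) : ℝ)
            else 0)).trans Finset.sum_comm
    refine Finset.sum_congr rfl fun r _ => ?_
    refine (?_ : _ = ∑ a ∈ F.bx (Y / (D.n x : ℝ)), ∑ b : F.T,
          (if Disjoint a (D.ram x) then (1 / 2 ^ F.m * ∑ e : F.T, Nt x e *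
            ((sg (b ⬝ᵥ e) : ℤ) : ℝ)) * ((sg (b ⬝ᵥ (F.tys r + F.tys a)) : ℤ) : ℝ)
            else 0)).trans Finset.sum_comm
    refine Finset.sum_congr rfl fun a _ => ?_
    split_ifs with hd
    · exact (t13_inv (Nt x) (F.tys r + F.tys a)).symm
    · exact Finset.sum_const_zero.symm
  · unfold TDat.vb TDat.mn
    have h1 : ∀ e : F.T, ((sg ((0 : F.T) ⬝ᵥ e) : ℤ) : ℝ) = 1 := fun e => by
      rw [zero_dotProduct, sg_zero, Int.cast_one]
    have h2 : ∏ p ∈ D.ram x, (1 + ((sg ((0 : F.T) ⬝ᵥ F.ty p) : ℤ) : ℝ)) =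
        2 ^ (D.ram x).card := by
      rw [Finset.prod_congr rfl fun p _ => by rw [h1 (F.ty p)], Finset.prod_const]
      norm_num
    rw [h2, Finset.sum_congr rfl fun e _ => by rw [h1 e, mul_one]]
    ring
  · unfold TDat.vb
    rw [abs_mul, abs_mul]
    have h1 : |∏ p ∈ D.ram x, (1 + ((sg (b ⬝ᵥ F.ty p) : ℤ) : ℝ))| ≤ 2 ^ (D.ram x).card := by
      rw [Finset.abs_prod, ← Finset.prod_const]
      refine Finset.prod_le_prod (fun p _ => abs_nonneg _) fun p _ => ?_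
      refine (abs_add_le _ _).trans ?_
      rw [abs_sgr, abs_one]
      norm_num
    have h2 : |∑ e : F.T, Nt x e * ((sg (b ⬝ᵥ e) : ℤ) : ℝ)| ≤ ∑ e : F.T, |Nt x e| := by
      refine (Finset.abs_sum_le_sum_abs _ _).trans (le_of_eq ?_)
      refine Finset.sum_congr rfl fun e _ => ?_
      rw [abs_mul, abs_sgr, mul_one]
    have h3 : |(1 : ℝ) / 2 ^ F.m| = 1 / 2 ^ F.m := abs_of_nonneg (by positivity)
    have h4 : (Fintype.card F.T : ℝ) = 2 ^ F.m := by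
      rw [Fintype.card_fun, ZMod.card, Fintype.card_fin]
      norm_num
    have h5 : ∑ e : F.T, |Nt x e| * 2 ^ (D.ram x).card ≤ 2 ^ F.m * D.w x := by
      refine (Finset.sum_le_sum fun e _ => h x e).trans (le_of_eq ?_)
      rw [Finset.sum_const, nsmul_eq_mul, Finset.card_univ, h4]
    rw [h3]
    calc 1 / 2 ^ F.m * |∑ e : F.T, Nt x e * ((sg (b ⬝ᵥ e) : ℤ) : ℝ)| *
          |∏ p ∈ D.ram x, (1 + ((sg (b ⬝ᵥ F.ty p) : ℤ) : ℝ))|
        ≤ 1 / 2 ^ F.m * (∑ e : F.T, |Nt x e|) * 2 ^ (D.ram x).card := by gcongr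
      _ = 1 / 2 ^ F.m * ∑ e : F.T, |Nt x e| * 2 ^ (D.ram x).card := by
          rw [← Finset.sum_mul]
          ring
      _ ≤ 1 / 2 ^ F.m * (2 ^ F.m * D.w x) := by gcongr
      _ = D.w x := by field_simp

end Pool.Agent.H32.MQ
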