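import Pool.Agent.H32.MQ.TStm

/-!
# Block T, row T3: Karamata's theorem for double poles
-/

set_option autoImplicit false

open scoped BigOperators
open Filter Topology

namespace Pool.Agent.H32.MQ

theorem tk_mem {n : ℕ} (hn : 1 ≤ n) {σ : ℝ} (hσ : 0 < σ) :
    0 ≤ (n : ℝ) ^ (-σ) ∧ (n : ℝ) ^ (-σ) ≤ 1 := by
  constructor
  · positivity
  · exact Real.rpow_le_one_of_one_le_of_nonpos (by exact_mod_cast hn) (by linarith)

theorem tk_term {n : ℕ} (hn : 1 ≤ n) {u : ℝ} (hu : 1 < u) (b : ℝ) :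
    b * (n : ℝ) ^ (-(1 / Real.log u)) * gK ((n : ℝ) ^ (-(1 / Real.log u))) =
      if (n : ℝ) ≤ u then b else 0 := by
  have hl : 0 < Real.log u := Real.log_pos hu
  have hn0 : (0 : ℝ) < n := by
    have : (1 : ℝ) ≤ n := by exact_mod_cast hn
    linarith
  have hy : 0 < (n : ℝ) ^ (-(1 / Real.log u)) := Real.rpow_pos_of_pos hn0 _
  have hiff : Real.exp (-1) ≤ (n : ℝ) ^ (-(1 / Real.log u)) ↔ (n : ℝ) ≤ u := by
    rw [Real.rpow_def_of_pos hn0, Real.exp_le_exp, ← Real.log_le_log_iff hn0 (by linarith)]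
    constructor
    · intro h
      have h2 : Real.log n * (1 / Real.log u) ≤ 1 := by linarith
      rw [mul_one_div, div_le_one hl] at h2
      exact h2
    · intro h
      have h2 : Real.log n * (1 / Real.log u) ≤ 1 := by
        rw [mul_one_div, div_le_one hl]
        exact h
      linarith
  unfold gK
  by_cases h : (n : ℝ) ≤ u
  · rw [if_pos h, if_pos (hiff.2 h), mul_assoc, mul_one_div, div_self hy.ne', mul_one]
  · rw [if_neg h, if_neg (fun h' => h (hiff.1 h')), mul_zero]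

theorem tk_sum {X : Type} (n : X → ℕ) (b : X → ℝ) (h1 : ∀ x, 1 ≤ n x)
    (hf : ∀ N : ℕ, {x | n x ≤ N}.Finite) {u : ℝ} (hu : 1 < u) :
    HasSum (fun x => b x * (n x : ℝ) ^ (-(1 / Real.log u)) *
      gK ((n x : ℝ) ^ (-(1 / Real.log u)))) (∑ x ∈ fsz hf u, b x) := by
  have hmem : ∀ x, x ∈ fsz hf u ↔ (n x : ℝ) ≤ u := by
    intro x
    unfold fsz
    rw [Set.Finite.mem_toFinset, Set.mem_setOf_eq, Nat.le_floor_iff (by linarith)]
  have h2 : ∑ x ∈ fsz hf u, b x = ∑ x ∈ fsz hf u, b x * (n x : ℝ) ^ (-(1 / Real.log u)) *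
      gK ((n x : ℝ) ^ (-(1 / Real.log u))) := by
    refine Finset.sum_congr rfl fun x hx => ?_
    rw [tk_term (h1 x) hu, if_pos ((hmem x).1 hx)]
  rw [h2]
  refine hasSum_sum_of_ne_finset_zero fun x hx => ?_
  rw [tk_term (h1 x) hu, if_neg (fun h => hx ((hmem x).2 h))]

theorem tk_sig : Tendsto (fun u : ℝ => 1 / Real.log u) atTop (𝓝[>] 0) := by
  rw [tendsto_nhdsWithin_iff]
  constructor
  · exact tendsto_const_nhds.div_atTop Real.tendsto_log_atTop
  · filter_upwards [eventually_gt_atTop 1] with u hu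
    exact Set.mem_Ioi.2 (one_div_pos.2 (Real.log_pos hu))

theorem tKar (h1 : STPol) (h2 : STApx) : STKar := by
  intro X n b L hn hf hD
  have hpol := h1 X n b L hn hD
  have hL : 0 ≤ L := by
    refine ge_of_tendsto hD.lim (Eventually.of_forall fun σ => ?_)
    exact mul_nonneg (sq_nonneg _) (tsum_nonneg fun x => mul_nonneg (hD.nonneg x) (by positivity))
  rw [Metric.tendsto_nhds]
  intro δ hδ
  obtain ⟨P1, P2, hP, hl1, hl2⟩ := h2 (δ / (2 * (L + 1))) (by positivity)
  have hLe : L * (δ / (2 * (L + 1))) ≤ δ / 2 := by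
    have e : L * (δ / (2 * (L + 1))) = δ / 2 * (L / (L + 1)) := by
      field_simp
    rw [e]
    have : L / (L + 1) ≤ 1 := by
      rw [div_le_one (by linarith)]
      linarith
    nlinarith
  have b1 : L / 2 - δ / 2 ≤ L * LamP P1 := by
    have h3 := (abs_le.1 hl1).1
    nlinarith
  have b2 : L * LamP P2 ≤ L / 2 + δ / 2 := by
    have h3 := (abs_le.1 hl2).2
    nlinarith
  have t1 := (hpol P1).2.comp tk_sig
  have t2 := (hpol P2).2.comp tk_sig
  have e1 := t1.eventually (lt_mem_nhds (show L / 2 - δ < L * LamP P1 by linarith))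
  have e2 := t2.eventually (gt_mem_nhds (show L * LamP P2 < L / 2 + δ by linarith))
  filter_upwards [eventually_gt_atTop 1, e1, e2] with u hu h3 h4
  have hl : 0 < Real.log u := Real.log_pos hu
  have hs : 0 < 1 / Real.log u := one_div_pos.2 hl
  have hS := tk_sum n b hn hf hu
  have c1 : ∑' x, b x * (n x : ℝ) ^ (-(1 / Real.log u)) *
      P1.eval ((n x : ℝ) ^ (-(1 / Real.log u))) ≤ ∑ x ∈ fsz hf u, b x := by
    refine hasSum_le (fun x => ?_) ((hpol P1).1 _ hs).hasSum hS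
    have hy := tk_mem (hn x) hs
    exact mul_le_mul_of_nonneg_left (hP _ hy.1 hy.2).1 (mul_nonneg (hD.nonneg x) hy.1)
  have c2 : ∑ x ∈ fsz hf u, b x ≤ ∑' x, b x * (n x : ℝ) ^ (-(1 / Real.log u)) *
      P2.eval ((n x : ℝ) ^ (-(1 / Real.log u))) := by
    refine hasSum_le (fun x => ?_) hS ((hpol P2).1 _ hs).hasSum
    have hy := tk_mem (hn x) hs
    exact mul_le_mul_of_nonneg_left (hP _ hy.1 hy.2).2 (mul_nonneg (hD.nonneg x) hy.1)
  have hq : (∑ x ∈ fsz hf u, b x) / Real.log u ^ 2 =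
      (1 / Real.log u) ^ 2 * ∑ x ∈ fsz hf u, b x := by
    rw [div_pow, one_pow, one_div_mul_eq_div]
  have d1 := mul_le_mul_of_nonneg_left c1 (sq_nonneg (1 / Real.log u))
  have d2 := mul_le_mul_of_nonneg_left c2 (sq_nonneg (1 / Real.log u))
  simp only [Function.comp_apply] at h3 h4
  rw [Real.dist_eq, hq, abs_lt]
  constructor <;> linarith

end Pool.Agent.H32.MQ
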