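import Pool.Agent.H32.MQ.TStm

/-!
# Project MQ, row T2a: the functional of Karamata's theorem (helper91)
-/

set_option autoImplicit false

open scoped BigOperators
open MeasureTheory Set

namespace Pool.Agent.H32.MQ

theorem tlam_int (k : ℕ) :
    IntervalIntegrable (fun x : ℝ => x ^ k * (-Real.log x)) volume 0 1 := by
  have h1 : IntervalIntegrable (fun x : ℝ => -Real.log x) volume 0 1 :=
    (intervalIntegral.intervalIntegrable_log').neg
  exact h1.continuousOn_mul (continuous_pow k).continuousOn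

theorem tlam_val (k : ℕ) :
    ∫ x in (0 : ℝ)..1, x ^ k * (-Real.log x) = 1 / ((k : ℝ) + 1) ^ 2 := by
  have hk : ((k : ℝ) + 1) ≠ 0 := by positivity
  have hc : Continuous fun x : ℝ => x ^ (k + 1) / ((k : ℝ) + 1) ^ 2 -
      x ^ k * (x * Real.log x) / ((k : ℝ) + 1) :=
    ((continuous_pow (k + 1)).div_const _).sub
      (((continuous_pow k).mul Real.continuous_mul_log).div_const _)
  have h := intervalIntegral.integral_eq_sub_of_hasDerivAt_of_le (a := (0 : ℝ)) (b := 1)
    (f := fun x : ℝ => x ^ (k + 1) / ((k : ℝ) + 1) ^ 2 -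
      x ^ k * (x * Real.log x) / ((k : ℝ) + 1))
    (f' := fun x : ℝ => x ^ k * (-Real.log x)) zero_le_one hc.continuousOn (by
      intro x hx
      have hx0 : x ≠ 0 := hx.1.ne'
      have h1 : HasDerivAt (fun x : ℝ => x ^ (k + 1) / ((k : ℝ) + 1) ^ 2)
          (((k + 1 : ℕ) : ℝ) * x ^ k / ((k : ℝ) + 1) ^ 2) x := by
        have h2 := (hasDerivAt_pow (k + 1) x).div_const (((k : ℝ) + 1) ^ 2)
        simpa using h2
      have h2 : HasDerivAt (fun x : ℝ => x ^ (k + 1) * Real.log x / ((k : ℝ) + 1))
          ((((k + 1 : ℕ) : ℝ) * x ^ k * Real.log x + x ^ (k + 1) * x⁻¹) / ((k : ℝ) + 1)) x := by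
        have h3 := ((hasDerivAt_pow (k + 1) x).mul (Real.hasDerivAt_log hx0)).div_const
          ((k : ℝ) + 1)
        simpa using h3
      have h4 := h1.sub h2
      have h5 : (fun x : ℝ => x ^ (k + 1) / ((k : ℝ) + 1) ^ 2 -
          x ^ k * (x * Real.log x) / ((k : ℝ) + 1)) =
          (fun x : ℝ => x ^ (k + 1) / ((k : ℝ) + 1) ^ 2) -
            fun x : ℝ => x ^ (k + 1) * Real.log x / ((k : ℝ) + 1) := by
        funext y
        simp only [Pi.sub_apply]
        ring
      rw [h5]
      have h6 : x ^ k * (-Real.log x) = ((k + 1 : ℕ) : ℝ) * x ^ k / ((k : ℝ) + 1) ^ 2 -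
          (((k + 1 : ℕ) : ℝ) * x ^ k * Real.log x + x ^ (k + 1) * x⁻¹) / ((k : ℝ) + 1) := by
        push_cast
        field_simp
        ring
      simp only [h6]
      exact h4) (tlam_int k)
  rw [h]
  simp

theorem tLam : STLam := by
  intro P
  unfold LamP
  simp only [Polynomial.eval_eq_sum, Polynomial.sum_def]
  simp only [Finset.sum_mul]
  rw [intervalIntegral.integral_finsetSum]
  · refine Finset.sum_congr rfl (fun k _ => ?_)
    have h1 : (fun x : ℝ => P.coeff k * x ^ k * (-Real.log x)) =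
        fun x : ℝ => P.coeff k * (x ^ k * (-Real.log x)) := by
      funext x
      ring
    rw [h1, intervalIntegral.integral_const_mul, tlam_val]
    ring
  · intro k _
    have h1 : (fun x : ℝ => P.coeff k * x ^ k * (-Real.log x)) =
        fun x : ℝ => P.coeff k * (x ^ k * (-Real.log x)) := by
      funext x
      ring
    rw [h1]
    exact (tlam_int k).const_mul _

end Pool.Agent.H32.MQ
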