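import Pool.Agent.H32.MQ.TStm

/-!
# Block T, row T12: positivity
-/

set_option autoImplicit false

open scoped BigOperators
open Filter Topology

namespace Pool.Agent.H32.MQ

open Pool.Agent.H98.MK (sg)
open Pool.Agent.H98.MF

theorem tps_log : Tendsto (fun u : ℝ => (1 + Real.log u) ^ 2 / Real.log u ^ 2) atTop (𝓝 1) := by
  have h1 : Tendsto (fun u : ℝ => (Real.log u)⁻¹ + 1) atTop (𝓝 (0 + 1)) :=
    (tendsto_inv_atTop_zero.comp Real.tendsto_log_atTop).add tendsto_const_nhds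
  have h2 := h1.pow 2
  rw [zero_add, one_pow] at h2
  refine h2.congr' ?_
  filter_upwards [eventually_gt_atTop (1 : ℝ)] with u hu
  have hl : Real.log u ≠ 0 := (Real.log_pos hu).ne'
  field_simp

theorem tPos (h1 : STW) (h2 : STU) (h3 : STX) (h4 : STT) (h5 : STEx) : STPos := by
  intro F D v Lv Lw hv0 hvw hL hLw hpos
  have hva : ∀ x, |v x| ≤ D.w x := fun x => by
    rw [abs_of_nonneg (hv0 x)]
    exact hvw x
  -- the three limits
  have ha := h1 F D v Lv Lw hva hL hLw ∅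
  have hrs : D.rs v ∅ = v := by
    funext x
    unfold TDat.rs
    rw [if_pos (Finset.empty_subset _)]
  rw [hrs] at ha
  obtain ⟨_, hb⟩ := h4 F D v Lv Lw mg hva hL hLw (fun r => (h5 F r).2.2.1 r)
  set S : ℝ := ∑' r, mg r * Lv r with hS
  -- the sums
  set g : D.X → ℝ := fun x => ∑ r ∈ (D.ram x).powerset, mg r with hg
  set k : D.X → ℝ := fun x => ∑ r ∈ (D.ram x).powerset, ((F.nm r : ℝ))⁻¹ with hk
  have hN : ∀ p : F.P, (0 : ℝ) < 1 + 1 / (F.N p : ℝ) := fun p => by positivity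
  have hg1 : ∀ x, g x = ∏ p ∈ D.ram x, (1 + 1 / (F.N p : ℝ))⁻¹ := fun x => ((h5 F (D.ram x)).1).symm
  have hk1 : ∀ x, k x = ∏ p ∈ D.ram x, (1 + 1 / (F.N p : ℝ)) := fun x =>
    ((h5 F (D.ram x)).2.2.2.1).symm
  have hgpos : ∀ x, 0 < g x := fun x => by
    rw [hg1]
    exact Finset.prod_pos fun p _ => inv_pos.2 (hN p)
  have hkpos : ∀ x, 0 < k x := fun x => by
    rw [hk1]
    exact Finset.prod_pos fun p _ => hN p
  have hgk : ∀ x, g x * k x = 1 := fun x => by
    rw [hg1, hk1, ← Finset.prod_mul_distrib]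
    exact Finset.prod_eq_one fun p _ => inv_mul_cancel₀ (hN p).ne'
  have hn : ∀ x, (0 : ℝ) < (D.n x : ℝ) := fun x => by
    have := D.one_le x
    exact_mod_cast this
  -- the bound for the large factor
  set C : ℝ := Real.exp 1 * ∑' r, hp r * D.ρ r with hC
  have hhp : ∀ r : Finset F.P, (0 : ℝ) ≤ hp r := fun r =>
    (inv_nonneg.2 (Nat.cast_nonneg _)).trans ((h5 F r).2.2.2.2 r)
  have hC0 : 0 ≤ C := by
    rw [hC]
    exact mul_nonneg (Real.exp_pos 1).le (tsum_nonneg fun r => mul_nonneg (hhp r) (D.ρ0 r))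
  have hc : ∀ u : ℝ, 1 ≤ u → D.W (fun x => D.w x * k x) u ≤ C * (1 + Real.log u) ^ 2 := by
    intro u hu
    obtain ⟨hs, he⟩ := h3 F D D.w (fun r => ((F.nm r : ℝ))⁻¹) u
    have he' : D.W (fun x => D.w x * k x) u = ∑' r, ((F.nm r : ℝ))⁻¹ * D.W (D.rs D.w r) u := he
    rw [he']
    have hsum2 : Summable fun r : Finset F.P =>
        Real.exp 1 * (1 + Real.log u) ^ 2 * (hp r * D.ρ r) := D.hρ.mul_left _
    have hle : ∀ r : Finset F.P, ((F.nm r : ℝ))⁻¹ * D.W (D.rs D.w r) u ≤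
        Real.exp 1 * (1 + Real.log u) ^ 2 * (hp r * D.ρ r) := by
      intro r
      have e1 := h2 F D r u hu
      have e2 := (h5 F r).2.2.2.2 r
      have e3 : (0 : ℝ) ≤ ((F.nm r : ℝ))⁻¹ := inv_nonneg.2 (Nat.cast_nonneg _)
      have e4 : 0 ≤ Real.exp 1 * D.ρ r * (1 + Real.log u) ^ 2 :=
        mul_nonneg (mul_nonneg (Real.exp_pos 1).le (D.ρ0 r)) (sq_nonneg _)
      calc ((F.nm r : ℝ))⁻¹ * D.W (D.rs D.w r) u
          ≤ ((F.nm r : ℝ))⁻¹ * (Real.exp 1 * D.ρ r * (1 + Real.log u) ^ 2) :=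
            mul_le_mul_of_nonneg_left e1 e3
        _ ≤ hp r * (Real.exp 1 * D.ρ r * (1 + Real.log u) ^ 2) :=
            mul_le_mul_of_nonneg_right e2 e4
        _ = Real.exp 1 * (1 + Real.log u) ^ 2 * (hp r * D.ρ r) := by ring
    have e5 := hs.tsum_le_tsum hle hsum2
    rw [tsum_mul_left] at e5
    refine e5.trans (le_of_eq ?_)
    rw [hC]
    ring
  -- Cauchy-Schwarz
  have hcs : ∀ u : ℝ, D.W v u ^ 2 ≤ D.W (fun x => v x * g x) u * D.W (fun x => D.w x * k x) u := by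
    intro u
    have e1 : D.W v u ^ 2 ≤ D.W (fun x => v x * g x) u * D.W (fun x => v x * k x) u := by
      unfold TDat.W
      refine Finset.sum_sq_le_sum_mul_sum_of_sq_le_mul _ ?_ ?_ ?_
      · intro x _
        exact div_nonneg (mul_nonneg (hv0 x) (hgpos x).le) (hn x).le
      · intro x _
        exact div_nonneg (mul_nonneg (hv0 x) (hkpos x).le) (hn x).le
      · intro x _
        have e2 := hgk x
        have e3 : v x * g x / (D.n x : ℝ) * (v x * k x / (D.n x : ℝ)) =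
            (v x / (D.n x : ℝ)) ^ 2 * (g x * k x) := by ring
        rw [e3, e2, mul_one]
    refine e1.trans (mul_le_mul_of_nonneg_left ?_ ?_)
    · unfold TDat.W
      refine Finset.sum_le_sum fun x _ => ?_
      exact div_le_div_of_nonneg_right (mul_le_mul_of_nonneg_right (hvw x) (hkpos x).le) (hn x).le
    · unfold TDat.W
      exact Finset.sum_nonneg fun x _ => div_nonneg (mul_nonneg (hv0 x) (hgpos x).le) (hn x).le
  have hWg0 : ∀ u, 0 ≤ D.W (fun x => v x * g x) u := fun u => by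
    unfold TDat.W
    exact Finset.sum_nonneg fun x _ => div_nonneg (mul_nonneg (hv0 x) (hgpos x).le) (hn x).le
  -- the limit inequality
  have hfin : (Lv ∅ / 2) ^ 2 ≤ 1 / 2 * S * (C * 1) := by
    refine le_of_tendsto_of_tendsto (ha.pow 2) (hb.mul (tps_log.const_mul C)) ?_
    filter_upwards [eventually_gt_atTop (1 : ℝ)] with u hu
    have hl : 0 < Real.log u := Real.log_pos hu
    have hl2 : 0 < Real.log u ^ 2 := pow_pos hl 2
    have e1 := (hcs u).trans (mul_le_mul_of_nonneg_left (hc u hu.le) (hWg0 u))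
    have e2 : (D.W v u / Real.log u ^ 2) ^ 2 = D.W v u ^ 2 / (Real.log u ^ 2 * Real.log u ^ 2) := by
      rw [div_pow, sq (Real.log u ^ 2)]
    have e3 : D.W (fun x => v x * g x) u / Real.log u ^ 2 *
        (C * ((1 + Real.log u) ^ 2 / Real.log u ^ 2)) =
        D.W (fun x => v x * g x) u * (C * (1 + Real.log u) ^ 2) /
          (Real.log u ^ 2 * Real.log u ^ 2) := by
      rw [mul_div_assoc', div_mul_div_comm]
    change (D.W v u / Real.log u ^ 2) ^ 2 ≤ D.W (fun x => v x * g x) u / Real.log u ^ 2 *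
        (C * ((1 + Real.log u) ^ 2 / Real.log u ^ 2))
    rw [e2, e3]
    exact div_le_div_of_nonneg_right e1 (mul_pos hl2 hl2).le
  have hq : 0 < (Lv ∅ / 2) ^ 2 := pow_pos (by linarith) 2
  have hSC : 0 < S * C := by linarith
  rcases hC0.eq_or_lt with h0 | h0
  · rw [← h0, mul_zero] at hSC
    exact absurd hSC (lt_irrefl 0)
  · exact (pos_iff_pos_of_mul_pos hSC).2 h0

end Pool.Agent.H32.MQ
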