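import Pool.Agent.H32.MQ.TStm

/-!
# Malle's conjecture for 8T28 and 8T29: summation over the twists (row T7, helper35)
-/

set_option autoImplicit false

open scoped BigOperators
open Filter Topology

namespace Pool.Agent.H32.MQ

open Pool.Agent.H98.MF

theorem tt_W_abs {F : Sys} (D : TDat F) {v : D.X → ℝ} (hv : ∀ x, |v x| ≤ D.w x)
    (r : Finset F.P) (u : ℝ) : |D.W (D.rs v r) u| ≤ D.W (D.rs D.w r) u := by
  unfold TDat.W
  refine (Finset.abs_sum_le_sum_abs _ _).trans (Finset.sum_le_sum fun x _ => ?_)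
  have hn : (0 : ℝ) ≤ D.n x := Nat.cast_nonneg _
  rw [abs_div, abs_of_nonneg hn]
  refine div_le_div_of_nonneg_right ?_ hn
  unfold TDat.rs
  split_ifs
  · exact hv x
  · rw [abs_zero]

theorem tt_log {u : ℝ} (hu : Real.exp 1 ≤ u) : 1 ≤ Real.log u := by
  have h1 := Real.log_le_log (Real.exp_pos 1) hu
  rwa [Real.log_exp] at h1

theorem tt_bound {F : Sys} (h2 : STU) (D : TDat F) {v : D.X → ℝ} (hv : ∀ x, |v x| ≤ D.w x)
    (r : Finset F.P) {u : ℝ} (hu : Real.exp 1 ≤ u) :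
    |D.W (D.rs v r) u / Real.log u ^ 2| ≤ 4 * Real.exp 1 * D.ρ r := by
  have hl := tt_log hu
  have hu1 : 1 ≤ u := by
    have := Real.add_one_le_exp (1 : ℝ)
    linarith
  have h3 := (tt_W_abs D hv r u).trans (h2 F D r u hu1)
  have hl2 : (0 : ℝ) < Real.log u ^ 2 := by positivity
  rw [abs_div, abs_of_pos hl2, div_le_iff₀ hl2]
  refine h3.trans ?_
  have h4 : (1 + Real.log u) ^ 2 ≤ 4 * Real.log u ^ 2 := by nlinarith
  have h5 : 0 ≤ Real.exp 1 * D.ρ r := mul_nonneg (Real.exp_pos 1).le (D.ρ0 r)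
  calc Real.exp 1 * D.ρ r * (1 + Real.log u) ^ 2 ≤ Real.exp 1 * D.ρ r * (4 * Real.log u ^ 2) :=
        mul_le_mul_of_nonneg_left h4 h5
    _ = 4 * Real.exp 1 * D.ρ r * Real.log u ^ 2 := by ring

theorem tT (h1 : STW) (h2 : STU) (h3 : STX) : STT := by
  intro F D v Lv Lw m hv hLv hLw hm
  have hhp : ∀ r : Finset F.P, 0 ≤ hp r := fun r => (abs_nonneg _).trans (hm r)
  have hlim := h1 F D v Lv Lw hv hLv hLw
  have hev : ∀ᶠ u : ℝ in atTop, Real.exp 1 ≤ u := eventually_ge_atTop _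
  have hLb : ∀ r, |Lv r / 2| ≤ 4 * Real.exp 1 * D.ρ r := fun r =>
    le_of_tendsto (hlim r).abs (hev.mono fun u hu => tt_bound h2 D hv r hu)
  have hS : Summable fun r : Finset F.P => 4 * Real.exp 1 * (hp r * D.ρ r) :=
    D.hρ.mul_left _
  constructor
  · refine Summable.of_norm_bounded (hS.mul_left 2) fun r => ?_
    rw [Real.norm_eq_abs, abs_mul]
    have h4 : |Lv r| ≤ 2 * (4 * Real.exp 1 * D.ρ r) := by
      have h5 := hLb r
      rw [abs_div, abs_of_pos (by norm_num : (0 : ℝ) < 2)] at h5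
      linarith
    calc |m r| * |Lv r| ≤ hp r * (2 * (4 * Real.exp 1 * D.ρ r)) :=
          mul_le_mul (hm r) h4 (abs_nonneg _) (hhp r)
      _ = 2 * (4 * Real.exp 1 * (hp r * D.ρ r)) := by ring
  · have h4 : Tendsto (fun u : ℝ => ∑' r : Finset F.P,
        m r * (D.W (D.rs v r) u / Real.log u ^ 2)) atTop (𝓝 (∑' r, m r * (Lv r / 2))) := by
      refine tendsto_tsum_of_dominated_convergence hS (fun r => (hlim r).const_mul (m r))
        (hev.mono fun u hu r => ?_)
      rw [Real.norm_eq_abs, abs_mul]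
      calc |m r| * |D.W (D.rs v r) u / Real.log u ^ 2| ≤ hp r * (4 * Real.exp 1 * D.ρ r) :=
            mul_le_mul (hm r) (tt_bound h2 D hv r hu) (abs_nonneg _) (hhp r)
        _ = 4 * Real.exp 1 * (hp r * D.ρ r) := by ring
    have h5 : (fun u : ℝ => ∑' r : Finset F.P, m r * (D.W (D.rs v r) u / Real.log u ^ 2)) =
        fun u : ℝ => D.W (fun x => v x * ∑ r ∈ (D.ram x).powerset, m r) u / Real.log u ^ 2 := by
      funext u
      rw [(h3 F D v m u).2, ← tsum_div_const]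
      refine tsum_congr fun r => ?_
      rw [mul_div_assoc]
    have h6 : ∑' r, m r * (Lv r / 2) = 1 / 2 * ∑' r, m r * Lv r := by
      rw [← tsum_mul_left]
      refine tsum_congr fun r => ?_
      ring
    rw [h5, h6] at h4
    exact h4

end Pool.Agent.H32.MQ
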