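import Pool.Agent.H32.MQ.TStm

/-!
# MQ, row T5: the upper bound for the logarithmic sums
-/

set_option autoImplicit false

open scoped BigOperators

namespace Pool.Agent.H32.MQ

open Pool.Agent.H98.MF

theorem tU_loc {F : Sys} (D : TDat F) {u : ℝ} (hu : 1 ≤ u) {x : D.X} (hx : x ∈ D.fs u) :
    1 / (D.n x : ℝ) ≤ Real.exp 1 * (D.n x : ℝ) ^ (-(1 + 1 / (1 + Real.log u))) := by
  have hl : 0 ≤ Real.log u := Real.log_nonneg hu
  have h1 : D.n x ≤ ⌊u⌋₊ := by
    unfold TDat.fs fsz at hx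
    rw [Set.Finite.mem_toFinset] at hx
    exact hx
  have h2 : (D.n x : ℝ) ≤ u := le_trans (by exact_mod_cast h1) (Nat.floor_le (by linarith))
  have h3 : (1 : ℝ) ≤ D.n x := by exact_mod_cast D.one_le x
  have h4 : (0 : ℝ) < D.n x := by linarith
  set s : ℝ := 1 / (1 + Real.log u) with hs
  have hs0 : 0 < s := by positivity
  have hsl : s * Real.log (D.n x) ≤ 1 := by
    have h5 : Real.log (D.n x) ≤ Real.log u := Real.log_le_log h4 h2
    have h6 : s * Real.log (D.n x) ≤ s * (1 + Real.log u) :=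
      mul_le_mul_of_nonneg_left (by linarith) hs0.le
    have h7 : s * (1 + Real.log u) = 1 := by
      rw [hs]
      field_simp
    linarith
  have h8 : (D.n x : ℝ) ^ (-(1 + s)) = (1 / (D.n x : ℝ)) * (D.n x : ℝ) ^ (-s) := by
    rw [show -(1 + s) = (-1 : ℝ) + -s by ring, Real.rpow_add h4, Real.rpow_neg_one, one_div]
  have h9 : Real.exp (-1) ≤ (D.n x : ℝ) ^ (-s) := by
    rw [Real.rpow_def_of_pos h4]
    apply Real.exp_le_exp.2
    nlinarith
  have h10 : 1 ≤ Real.exp 1 * (D.n x : ℝ) ^ (-s) := by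
    have h11 := mul_le_mul_of_nonneg_left h9 (Real.exp_pos 1).le
    rw [← Real.exp_add] at h11
    simpa using h11
  rw [h8]
  have h12 : 0 ≤ 1 / (D.n x : ℝ) := by positivity
  calc 1 / (D.n x : ℝ) = 1 / (D.n x : ℝ) * 1 := by ring
    _ ≤ 1 / (D.n x : ℝ) * (Real.exp 1 * (D.n x : ℝ) ^ (-s)) :=
        mul_le_mul_of_nonneg_left h10 h12
    _ = _ := by ring

theorem tU : STU := by
  intro F D r u hu
  have hl : 0 ≤ Real.log u := Real.log_nonneg hu
  set s : ℝ := 1 / (1 + Real.log u) with hs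
  have hs0 : 0 < s := by positivity
  have hs1 : s ≤ 1 := by
    rw [hs, div_le_one (by positivity)]
    linarith
  set g : D.X → ℝ := fun x => if r ⊆ D.ram x then D.w x * (D.n x : ℝ) ^ (-(1 + s)) else 0
    with hg
  have hg0 : ∀ x, 0 ≤ g x := by
    intro x
    simp only [hg]
    split_ifs
    · exact mul_nonneg (D.w0 x) (Real.rpow_nonneg (Nat.cast_nonneg _) _)
    · exact le_refl _
  have hgs : Summable g := by
    refine Summable.of_nonneg_of_le hg0 (fun x => ?_) (D.summ (1 + s) (by linarith))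
    simp only [hg]
    split_ifs
    · exact le_refl _
    · exact mul_nonneg (D.w0 x) (Real.rpow_nonneg (Nat.cast_nonneg _) _)
  have h1 : D.W (D.rs D.w r) u ≤ Real.exp 1 * ∑ x ∈ D.fs u, g x := by
    unfold TDat.W
    rw [Finset.mul_sum]
    apply Finset.sum_le_sum
    intro x hx
    have h2 := tU_loc D hu hx
    simp only [TDat.rs, hg]
    split_ifs
    · calc D.w x / (D.n x : ℝ) = D.w x * (1 / (D.n x : ℝ)) := by ring
        _ ≤ D.w x * (Real.exp 1 * (D.n x : ℝ) ^ (-(1 + s))) :=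
            mul_le_mul_of_nonneg_left h2 (D.w0 x)
        _ = _ := by ring
    · simp
  have h3 : ∑ x ∈ D.fs u, g x ≤ ∑' x, g x := hgs.sum_le_tsum _ (fun x _ => hg0 x)
  have h4 : ∑' x, g x ≤ D.ρ r * s ^ (-(2 : ℝ)) := D.hU r s hs0 hs1
  have h5 : s ^ (-(2 : ℝ)) = (1 + Real.log u) ^ 2 := by
    rw [hs, one_div, Real.inv_rpow (by linarith), Real.rpow_neg (by linarith), inv_inv]
    exact Real.rpow_natCast _ 2
  rw [h5] at h4
  calc D.W (D.rs D.w r) u ≤ Real.exp 1 * ∑ x ∈ D.fs u, g x := h1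
    _ ≤ Real.exp 1 * (D.ρ r * (1 + Real.log u) ^ 2) :=
        mul_le_mul_of_nonneg_left (h3.trans h4) (Real.exp_pos 1).le
    _ = _ := by ring

end Pool.Agent.H32.MQ
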