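import Pool.Agent.H32.MQ.TStm

/-!
# Malle's conjecture for 8T28 and 8T29 over number fields: block T, row T4
(Karamata's theorem for the logarithmic sums of the data)
-/

set_option autoImplicit false

open scoped BigOperators
open Filter Topology

namespace Pool.Agent.H32.MQ

open Pool.Agent.H98.MF

/-- a function below `w`, restricted to the objects ramified at `r`, divided by the size -/
theorem tW_summ {F : Sys} (D : TDat F) (v : D.X → ℝ) (hv : ∀ x, |v x| ≤ D.w x)
    (r : Finset F.P) (σ : ℝ) (hσ : 0 < σ) :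
    Summable fun x => D.rs v r x / (D.n x : ℝ) * (D.n x : ℝ) ^ (-σ) := by
  refine Summable.of_norm_bounded (D.summ (1 + σ) (by linarith)) fun x => ?_
  have hn : (0 : ℝ) < D.n x := by exact_mod_cast D.one_le x
  have h1 : D.rs v r x / (D.n x : ℝ) * (D.n x : ℝ) ^ (-σ) =
      D.rs v r x * (D.n x : ℝ) ^ (-(1 + σ)) := by
    rw [neg_add, Real.rpow_add hn, Real.rpow_neg_one]
    ring
  have h2 : |D.rs v r x| ≤ D.w x := by
    unfold TDat.rs
    split_ifs with h
    · exact hv x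
    · rw [abs_zero]
      exact D.w0 x
  have h3 : 0 ≤ (D.n x : ℝ) ^ (-(1 + σ)) := Real.rpow_nonneg hn.le _
  rw [h1, Real.norm_eq_abs, abs_mul, abs_of_nonneg h3]
  exact mul_le_mul_of_nonneg_right h2 h3

/-- the double pole of a function below `w` -/
theorem tW_lim {F : Sys} (D : TDat F) (v : D.X → ℝ) (Lv : Finset F.P → ℝ)
    (hL : D.HasL v Lv) (r : Finset F.P) :
    Tendsto (fun σ : ℝ => σ ^ 2 * ∑' x, D.rs v r x / (D.n x : ℝ) * (D.n x : ℝ) ^ (-σ))
      (𝓝[>] 0) (𝓝 (Lv r)) := by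
  refine (hL r).congr' ?_
  refine Filter.Eventually.of_forall fun σ => ?_
  have h1 : ∀ x, (if r ⊆ D.ram x then v x * (D.n x : ℝ) ^ (-(1 + σ)) else 0) =
      D.rs v r x / (D.n x : ℝ) * (D.n x : ℝ) ^ (-σ) := by
    intro x
    have hn : (0 : ℝ) < D.n x := by exact_mod_cast D.one_le x
    unfold TDat.rs
    split_ifs with h
    · rw [neg_add, Real.rpow_add hn, Real.rpow_neg_one]
      ring
    · rw [zero_div, zero_mul]
  show σ ^ 2 * ∑' x, (if r ⊆ D.ram x then v x * (D.n x : ℝ) ^ (-(1 + σ)) else 0) = _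
  rw [tsum_congr h1]

/-- T4 -/
theorem tW (h : STKar) : STW := by
  intro F D v Lv Lw hv hLv hLw r
  have hw : ∀ x, |D.w x| ≤ D.w x := fun x => by rw [abs_of_nonneg (D.w0 x)]
  have hn : ∀ x, (0 : ℝ) < D.n x := fun x => by exact_mod_cast D.one_le x
  have hsw := tW_summ D D.w hw r
  have hsv := tW_summ D v hv r
  have hlw := tW_lim D D.w Lw hLw r
  have hlv := tW_lim D v Lv hLv r
  have hrw : ∀ x, 0 ≤ D.rs D.w r x := by
    intro x
    unfold TDat.rs
    split_ifs with h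
    · exact D.w0 x
    · exact le_rfl
  have hrv : ∀ x, 0 ≤ D.rs D.w r x + D.rs v r x := by
    intro x
    unfold TDat.rs
    split_ifs with h
    · have := neg_abs_le (v x)
      linarith [hv x]
    · rw [add_zero]
  have hD2 : DPole D.n (fun x => D.rs D.w r x / (D.n x : ℝ)) (Lw r) :=
    ⟨fun x => div_nonneg (hrw x) (hn x).le, hsw, hlw⟩
  have hD1 : DPole D.n (fun x => (D.rs D.w r x + D.rs v r x) / (D.n x : ℝ)) (Lw r + Lv r) := by
    refine ⟨fun x => div_nonneg (hrv x) (hn x).le, fun σ hσ => ?_, ?_⟩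
    · refine ((hsw σ hσ).add (hsv σ hσ)).congr fun x => ?_
      ring
    · refine (hlw.add hlv).congr' ?_
      refine eventually_nhdsWithin_of_forall fun σ hσ => ?_
      have hσ0 : 0 < σ := hσ
      show σ ^ 2 * ∑' x, D.rs D.w r x / (D.n x : ℝ) * (D.n x : ℝ) ^ (-σ) +
        σ ^ 2 * ∑' x, D.rs v r x / (D.n x : ℝ) * (D.n x : ℝ) ^ (-σ) =
        σ ^ 2 * ∑' x, (D.rs D.w r x + D.rs v r x) / (D.n x : ℝ) * (D.n x : ℝ) ^ (-σ)
      rw [← mul_add, ← (hsw σ hσ0).tsum_add (hsv σ hσ0)]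
      refine congrArg (fun t => σ ^ 2 * t) (tsum_congr fun x => ?_)
      ring
  have k1 := h D.X D.n _ _ D.one_le D.fin hD1
  have k2 := h D.X D.n _ _ D.one_le D.fin hD2
  have k3 := k1.sub k2
  have hval : (Lw r + Lv r) / 2 - Lw r / 2 = Lv r / 2 := by ring
  rw [hval] at k3
  refine k3.congr fun u => ?_
  rw [← sub_div, ← Finset.sum_sub_distrib]
  unfold TDat.W TDat.fs
  refine congrArg (fun t => t / Real.log u ^ 2) (Finset.sum_congr rfl fun x _ => ?_)
  ring

end Pool.Agent.H32.MQ
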