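import Pool.Agent.H32.MQ.TStm

/-!
# Project MQ, row T6: expansion over the sets of ramified primes
-/

set_option autoImplicit false

open scoped BigOperators
open Filter Topology

namespace Pool.Agent.H32.MQ

open Pool.Agent.H98.MK (sg)
open Pool.Agent.H98.MF

theorem tX : STX := by
  intro F D v m u
  have h0 : ∀ r ∉ (D.fs u).biUnion fun x => (D.ram x).powerset,
      m r * D.W (D.rs v r) u = 0 := by
    intro r hr
    have h1 : D.W (D.rs v r) u = 0 := by
      unfold TDat.W
      refine Finset.sum_eq_zero fun x hx => ?_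
      unfold TDat.rs
      rw [if_neg, zero_div]
      intro h
      exact hr (Finset.mem_biUnion.2 ⟨x, hx, Finset.mem_powerset.2 h⟩)
    rw [h1, mul_zero]
  refine ⟨summable_of_ne_finset_zero h0, ?_⟩
  rw [tsum_eq_sum h0]
  unfold TDat.W
  have h2 : ∀ r ∈ (D.fs u).biUnion fun x => (D.ram x).powerset,
      m r * ∑ x ∈ D.fs u, D.rs v r x / (D.n x : ℝ) =
        ∑ x ∈ D.fs u, m r * (D.rs v r x / (D.n x : ℝ)) := fun r _ => Finset.mul_sum _ _ _
  rw [Finset.sum_congr rfl h2, Finset.sum_comm]
  refine Finset.sum_congr rfl fun x hx => ?_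
  have h3 : ∑ r ∈ (D.ram x).powerset, m r * (D.rs v r x / (D.n x : ℝ)) =
      ∑ r ∈ (D.fs u).biUnion fun x => (D.ram x).powerset, m r * (D.rs v r x / (D.n x : ℝ)) := by
    refine Finset.sum_subset (Finset.subset_biUnion_of_mem
      (fun x => (D.ram x).powerset) hx) fun r _ hr => ?_
    unfold TDat.rs
    rw [if_neg, zero_div, mul_zero]
    exact fun h => hr (Finset.mem_powerset.2 h)
  rw [← h3, mul_div_assoc, Finset.sum_div, Finset.mul_sum]
  refine Finset.sum_congr rfl fun r hr => ?_
  unfold TDat.rs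
  rw [if_pos (Finset.mem_powerset.1 hr)]
  ring

end Pool.Agent.H32.MQ
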