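import Pool.Agent.H32.MQ.TStm

/-!
# Malle's conjecture for 8T28 and 8T29 over number fields, row T10: the trivial character
-/

set_option autoImplicit false

open scoped BigOperators
open Filter Topology

namespace Pool.Agent.H32.MQ

open Pool.Agent.H98.MK (sg)
open Pool.Agent.H98.MF

namespace TZ

theorem fz_zero {F : Sys} (z : Finset F.P) (t : ℝ) :
    TDat.fz (0 : F.T) z t = (((F.bx t).filter fun x => Disjoint x z).card : ℝ) := by
  unfold TDat.fz
  rw [Finset.card_filter, Nat.cast_sum]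
  refine Finset.sum_congr rfl fun a _ => ?_
  split_ifs with h
  · rw [zero_dotProduct]
    have h1 : sg (0 : ZMod 2) = 1 := rfl
    rw [h1]
    norm_num
  · norm_num

theorem mem_fs {F : Sys} (D : TDat F) {Y : ℝ} (hY : 0 ≤ Y) {x : D.X} (h : x ∈ D.fs Y) :
    (D.n x : ℝ) ≤ Y := by
  have h0 : x ∈ (D.fin ⌊Y⌋₊).toFinset := h
  rw [Set.Finite.mem_toFinset] at h0
  have h1 : D.n x ≤ ⌊Y⌋₊ := h0
  exact (Nat.le_floor_iff hY).1 h1

end TZ

theorem tZ (h1 : STT) (h2 : STEx) (h3 : STEr) : STZ := by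
  intro F
  obtain ⟨κ, C, hκ, hcnt⟩ := cnt_sqf F
  refine ⟨κ, hκ, fun D v Lv Lw hv hLv hLw => ?_⟩
  have hC : 0 ≤ C := by
    have h := hcnt ∅ 1 le_rfl
    have h4 : F.hs (∅ : Finset F.P) = 1 := by
      unfold Pre.hs
      rw [Finset.prod_empty]
    rw [h4, mul_one, Real.one_rpow, mul_one] at h
    have h5 := (abs_nonneg _).trans h
    linarith
  obtain ⟨hs1, hs2⟩ := h1 F D v Lv Lw mg hv hLv hLw (h2 F ∅).2.2.1
  refine ⟨hs1, ?_⟩
  have herr := h3 F D Lw hLw F.dl F.dl_pos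
  set W : ℝ → ℝ := fun Y => D.W (fun x => v x * ∑ r ∈ (D.ram x).powerset, mg r) Y with hW
  have hE : Tendsto (fun Y : ℝ => D.G v 0 Y / (Y * Real.log Y ^ 2) -
      κ * (W Y / Real.log Y ^ 2)) atTop (𝓝 0) := by
    have hb : Tendsto (fun Y : ℝ => C * ((∑ x ∈ D.fs Y, D.w x * F.hs (D.ram x) *
        (Y / (D.n x : ℝ)) ^ (1 - F.dl)) / (Y * Real.log Y ^ 2))) atTop (𝓝 0) := by
      have := herr.const_mul C
      rwa [mul_zero] at this
    refine squeeze_zero_norm' ?_ hb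
    filter_upwards [eventually_ge_atTop (2 : ℝ)] with Y hY
    have hY0 : (0 : ℝ) < Y := by linarith
    have hlog : 0 < Real.log Y := Real.log_pos (by linarith)
    have hden : 0 < Y * Real.log Y ^ 2 := by positivity
    have e1 : D.G v 0 Y / (Y * Real.log Y ^ 2) - κ * (W Y / Real.log Y ^ 2) =
        (∑ x ∈ D.fs Y, v x * ((((F.bx (Y / (D.n x : ℝ))).filter fun a =>
          Disjoint a (D.ram x)).card : ℝ) -
          κ * (∏ p ∈ D.ram x, (1 + 1 / (F.N p : ℝ))⁻¹) * (Y / (D.n x : ℝ)))) /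
          (Y * Real.log Y ^ 2) := by
      have e2 : D.G v 0 Y = ∑ x ∈ D.fs Y, v x * (((F.bx (Y / (D.n x : ℝ))).filter fun a =>
          Disjoint a (D.ram x)).card : ℝ) := by
        unfold TDat.G
        exact Finset.sum_congr rfl fun x _ => by rw [TZ.fz_zero]
      have e3 : κ * (W Y / Real.log Y ^ 2) = (∑ x ∈ D.fs Y, v x *
          (κ * (∏ p ∈ D.ram x, (1 + 1 / (F.N p : ℝ))⁻¹) * (Y / (D.n x : ℝ)))) /
          (Y * Real.log Y ^ 2) := by
        have e4 : (∑ x ∈ D.fs Y, v x *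
            (κ * (∏ p ∈ D.ram x, (1 + 1 / (F.N p : ℝ))⁻¹) * (Y / (D.n x : ℝ)))) =
            κ * Y * W Y := by
          rw [hW]
          unfold TDat.W
          rw [Finset.mul_sum]
          refine Finset.sum_congr rfl fun x _ => ?_
          rw [(h2 F (D.ram x)).1]
          ring
        rw [e4]
        field_simp
      rw [e2, e3, ← sub_div, ← Finset.sum_sub_distrib]
      congr 1
      exact Finset.sum_congr rfl fun x _ => by ring
    rw [e1, Real.norm_eq_abs, abs_div, abs_of_pos hden, ← mul_div_assoc]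
    refine div_le_div_of_nonneg_right ?_ hden.le
    refine (Finset.abs_sum_le_sum_abs _ _).trans ?_
    rw [Finset.mul_sum]
    refine Finset.sum_le_sum fun x hx => ?_
    have hn1 : (1 : ℝ) ≤ D.n x := by exact_mod_cast D.one_le x
    have hn2 := TZ.mem_fs D hY0.le hx
    have ht : 1 ≤ Y / (D.n x : ℝ) := by
      rw [le_div_iff₀ (by linarith), one_mul]
      exact hn2
    have h5 := hcnt (D.ram x) (Y / (D.n x : ℝ)) ht
    rw [abs_mul]
    calc |v x| * |(((F.bx (Y / (D.n x : ℝ))).filter fun a =>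
          Disjoint a (D.ram x)).card : ℝ) -
          κ * (∏ p ∈ D.ram x, (1 + 1 / (F.N p : ℝ))⁻¹) * (Y / (D.n x : ℝ))|
        ≤ D.w x * (C * F.hs (D.ram x) * (Y / (D.n x : ℝ)) ^ (1 - F.dl)) :=
          mul_le_mul (hv x) h5 (abs_nonneg _) (D.w0 x)
      _ = C * (D.w x * F.hs (D.ram x) * (Y / (D.n x : ℝ)) ^ (1 - F.dl)) := by ring
  have hmain : Tendsto (fun Y : ℝ => κ * (W Y / Real.log Y ^ 2)) atTop
      (𝓝 (κ / 2 * ∑' r, mg r * Lv r)) := by
    have h6 := hs2.const_mul κ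
    have h7 : κ * (1 / 2 * ∑' r, mg r * Lv r) = κ / 2 * ∑' r, mg r * Lv r := by ring
    rwa [h7] at h6
  have h8 := hE.add hmain
  rw [zero_add] at h8
  refine h8.congr fun Y => ?_
  ring

end Pool.Agent.H32.MQ
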