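import Pool.Agent.H32.MQ.TPol
import Pool.Agent.H32.MQ.TLam
import Pool.Agent.H32.MQ.TApx
import Pool.Agent.H32.MQ.TKar
import Pool.Agent.H32.MQ.TW
import Pool.Agent.H32.MQ.TU
import Pool.Agent.H32.MQ.TX
import Pool.Agent.H32.MQ.TT
import Pool.Agent.H32.MQ.TEx
import Pool.Agent.H32.MQ.TEr
import Pool.Agent.H32.MQ.TZ
import Pool.Agent.H32.MQ.TB
import Pool.Agent.H32.MQ.TPs
import Pool.Agent.H32.MQ.TFou
import Pool.Agent.H32.MQ.TFin

/-!
# Malle's conjecture for 8T28 and 8T29 over number fields: block T, assembly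
-/

set_option autoImplicit false

namespace Pool.Agent.H32.MQ

theorem stmKar : STKar := tKar tPol (tApx tLam)

theorem stmT : STT := tT (tW stmKar) tU tX

theorem stmEr : STEr := tEr stmT tEx

theorem stmFin : STFin := tFin (tZ stmT tEx stmEr) (tB stmEr) tFou

theorem stmPos : STPos := tPos (tW stmKar) tU tX stmT tEx

end Pool.Agent.H32.MQ
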