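import Pool.Agent.H32.MQ.BFInst
import Pool.Agent.H98.MF.C.C2
import Pool.Agent.H98.MF.C.Val

/-!
# Malle's conjecture for 8T28 and 8T29, block BF: small representatives modulo squares
-/

set_option autoImplicit false

open scoped BigOperators
open NumberField IsDedekindDomain

namespace Pool.Agent.H32.MQ

open Pool.Agent.H98.MF

section

variable {k : Type} [Field k] [NumberField k]

theorem bd_int {x : k} (hx : x ≠ 0) (h : ∀ P : HeightOneSpectrum (𝓞 k), 0 ≤ ord P x) :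
    ∃ r : 𝓞 k, (r : k) = x := by
  have h0 : x ∈ (algebraMap (𝓞 k) k).range :=
    HeightOneSpectrum.mem_integers_of_valuation_le_one k x fun v => by
      have h1 := (B.le_ord_iff v hx 0).1 (h v)
      rwa [neg_zero, WithZero.exp_zero] at h1
  obtain ⟨r, hr⟩ := h0
  exact ⟨r, hr⟩

theorem bd_ne {r : 𝓞 k} (h : (r : k) ≠ 0) : r ≠ 0 := by
  rintro rfl
  exact h (map_zero (algebraMap (𝓞 k) k))

theorem bd_ne' {r : 𝓞 k} (h : r ≠ 0) : (r : k) ≠ 0 := fun h0 =>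
  h (FaithfulSMul.algebraMap_injective (𝓞 k) k (by
    rw [map_zero]
    exact h0))

theorem bd_dvd (Q : HeightOneSpectrum (𝓞 k)) {x : 𝓞 k} (hx : x ≠ 0) :
    Q.asIdeal ^ (ord Q (x : k)).toNat ∣ Ideal.span {x} := by
  rw [← HeightOneSpectrum.intValuation_le_pow_iff_dvd]
  have h := B.val_int Q x hx
  rw [HeightOneSpectrum.valuation_of_algebraMap] at h
  rw [h, Int.toNat_of_nonneg (B.ord_alg_nonneg Q x)]

theorem bd_norm {x : 𝓞 k} (hx : x ≠ 0) (T : Finset (HeightOneSpectrum (𝓞 k))) :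
    ∏ Q ∈ T, nrm Q ^ (ord Q (x : k)).toNat ∣ (Algebra.norm ℤ x).natAbs := by
  have h1 : ∏ Q ∈ T, Q.asIdeal ^ (ord Q (x : k)).toNat ∣ Ideal.span {x} := by
    refine Finset.prod_dvd_of_coprime (fun P _ Q _ hne => ?_) fun Q _ => bd_dvd Q hx
    refine IsCoprime.pow ?_
    rw [Ideal.isCoprime_iff_sup_eq]
    refine Ideal.IsMaximal.coprime_of_ne P.isMaximal Q.isMaximal ?_
    intro h
    exact hne (HeightOneSpectrum.ext h)
  rw [← Ideal.absNorm_span_singleton]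
  have h2 := Ideal.absNorm_dvd_absNorm_of_le (Ideal.dvd_iff_le.1 h1)
  rw [map_prod] at h2
  have h3 : ∏ Q ∈ T, nrm Q ^ (ord Q (x : k)).toNat =
      ∏ Q ∈ T, Ideal.absNorm (Q.asIdeal ^ (ord Q (x : k)).toNat) :=
    Finset.prod_congr rfl fun Q _ => by
      rw [map_pow]
      rfl
  rw [h3]
  exact h2

theorem bd_sz (m : ℕ) (hm : m ≠ 0) (r : 𝓞 k) : sz r ≤ sz ((m : 𝓞 k) * r) := by
  unfold sz
  refine Finset.sup_le fun i hi => ?_
  refine le_trans ?_ (Finset.le_sup (f := fun i => ((kco k).repr ((m : 𝓞 k) * r) i).natAbs) hi)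
  have h1 : (m : 𝓞 k) * r = m • r := by rw [nsmul_eq_mul]
  show ((kco k).repr r i).natAbs ≤ ((kco k).repr ((m : 𝓞 k) * r) i).natAbs
  rw [h1, map_nsmul, Finsupp.smul_apply, nsmul_eq_mul, Int.natAbs_mul, Int.natAbs_natCast]
  exact Nat.le_mul_of_pos_left _ (Nat.pos_of_ne_zero hm)

theorem bd_mul (h1 : SzSt k) (θ : k) :
    ∃ C : ℕ, ∀ x r : 𝓞 k, (r : k) = x * θ → sz r ≤ C * sz x := by
  obtain ⟨C, -, -, hC, -⟩ := h1
  obtain ⟨t, s, hs, rfl⟩ := IsFractionRing.div_surjective (A := 𝓞 k) θ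
  have hs0 : s ≠ 0 := nonZeroDivisors.ne_zero hs
  obtain ⟨s', hs'⟩ : s ∣ ((Ideal.absNorm (Ideal.span {s}) : ℕ) : 𝓞 k) :=
    Ideal.mem_span_singleton.1 (Ideal.absNorm_mem _)
  have hm : Ideal.absNorm (Ideal.span {s}) ≠ 0 := by
    intro h
    rw [Ideal.absNorm_eq_zero_iff] at h
    exact hs0 (Ideal.span_singleton_eq_bot.1 h)
  refine ⟨C * sz (t * s'), fun x r hr => ?_⟩
  have hsk : algebraMap (𝓞 k) k s ≠ 0 := bd_ne' hs0
  have e0 : s * r = x * t := by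
    apply FaithfulSMul.algebraMap_injective (𝓞 k) k
    rw [map_mul, map_mul]
    have e1 : algebraMap (𝓞 k) k r = algebraMap (𝓞 k) k x *
      (algebraMap (𝓞 k) k t / algebraMap (𝓞 k) k s) := hr
    rw [e1]
    field_simp
  have e : ((Ideal.absNorm (Ideal.span {s}) : ℕ) : 𝓞 k) * r = x * (t * s') := by
    rw [hs', mul_right_comm, e0, mul_assoc]
  calc sz r ≤ sz (((Ideal.absNorm (Ideal.span {s}) : ℕ) : 𝓞 k) * r) := bd_sz _ hm r
    _ = sz (x * (t * s')) := by rw [e]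
    _ ≤ C * sz x * sz (t * s') := hC _ _
    _ = C * sz (t * s') * sz x := by ring

theorem bd_gen (P : HeightOneSpectrum (𝓞 k)) : ∃ a : kˣ, 1 ≤ ord P (a : k) ∧
    ∀ Q : HeightOneSpectrum (𝓞 k), Q ≠ P → ord Q (a : k) = 0 := by
  obtain ⟨a, ha, ha'⟩ := B.c2_gen k P
  rcases lt_or_gt_of_ne ha with h | h
  · refine ⟨a⁻¹, ?_, fun Q hQ => ?_⟩
    · rw [Units.val_inv_eq_inv_val, B.ord_inv]
      omega
    · rw [Units.val_inv_eq_inv_val, B.ord_inv, ha' Q hQ, neg_zero]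
  · exact ⟨a, by omega, ha'⟩

theorem bd_den (S : Finset (HeightOneSpectrum (𝓞 k))) (x : kˣ) : ∃ d : kˣ,
    (∀ Q, Q ∉ S → ord Q (d : k) = 0) ∧ ∀ P ∈ S, 0 ≤ ord P (d : k) ∧
      0 ≤ ord P (x : k) + ord P (d : k) := by
  classical
  choose g hg hg' using bd_gen (k := k)
  refine ⟨∏ P ∈ S, g P ^ (ord P (x : k)).natAbs, fun Q hQ => ?_, fun P hP => ?_⟩
  · rw [B.ord_prod]
    refine Finset.sum_eq_zero fun P hP => ?_
    rw [Units.val_pow_eq_pow_val, B.ord_pow, hg' P Q (fun h => hQ (h ▸ hP)), mul_zero]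
  · have h1 : ord P ((∏ P ∈ S, g P ^ (ord P (x : k)).natAbs : kˣ) : k) =
        ((ord P (x : k)).natAbs : ℤ) * ord P (g P : k) := by
      rw [B.ord_prod, Finset.sum_eq_single P]
      · rw [Units.val_pow_eq_pow_val, B.ord_pow]
      · intro Q _ hne
        rw [Units.val_pow_eq_pow_val, B.ord_pow, hg' Q P (Ne.symm hne), mul_zero]
      · intro h
        exact absurd hP h
    have h2 : |ord P (x : k)| ≤ |ord P (x : k)| * ord P (g P : k) :=
      le_mul_of_one_le_right (abs_nonneg _) (hg P)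
    have h3 := neg_abs_le (ord P (x : k))
    have h4 := abs_nonneg (ord P (x : k))
    rw [h1, Int.natCast_natAbs]
    constructor <;> linarith

/-! ### the frame -/

variable (Fr : Frm k)

theorem bd_cases (P : HeightOneSpectrum (𝓞 k)) : P ∈ Fr.S ∨ ∃ p, Fr.pl p = P := by
  by_cases h : P ∈ Fr.S
  · exact Or.inl h
  · exact Or.inr ((Fr.pl_iff P).2 h)

theorem bd_notMem (p : Fr.sys.P) : Fr.pl p ∉ Fr.S := (Fr.pl_iff _).1 ⟨p, rfl⟩

theorem bd_ord_pi (p : Fr.sys.P) (f : Fr.sys.P →₀ ℕ) :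
    ord (Fr.pl p) ((∏ q ∈ f.support, Fr.pi q ^ f q : kˣ) : k) = f p := by
  rw [B.ord_prod]
  have h1 : ∀ q, ord (Fr.pl p) ((Fr.pi q ^ f q : kˣ) : k) = if q = p then (f q : ℤ) else 0 := by
    intro q
    rw [Units.val_pow_eq_pow_val, B.ord_pow]
    split_ifs with h
    · rw [h, Fr.pi_self, mul_one]
    · rw [Fr.pi_other q p (Ne.symm h), mul_zero]
  simp only [h1]
  rw [Finset.sum_ite_eq']
  split_ifs with h
  · rfl
  · rw [Finsupp.notMem_support_iff.1 h]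
    rfl

/-- the small generators -/
theorem bd_rho (h1 : SzSt k) (h2 : PgSt k) : ∃ C : ℕ, ∀ p : Fr.sys.P, ∃ r : 𝓞 k, r ≠ 0 ∧
    (∀ q, ord (Fr.pl q) (r : k) = if q = p then 1 else 0) ∧ sz r ≤ C * Fr.sys.N p := by
  classical
  obtain ⟨C1, hC1, -, -, hN⟩ := id h1
  choose d hd hd' using fun f : Fr.sys.P →₀ ℕ =>
    bd_den Fr.S (∏ q ∈ f.support, Fr.pi q ^ f q : kˣ)⁻¹
  set θ : (Fr.sys.P →₀ ℕ) → kˣ := fun f => (∏ q ∈ f.support, Fr.pi q ^ f q : kˣ)⁻¹ * d f with hθ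
  choose Cf hCf using fun f : Fr.sys.P →₀ ℕ => bd_mul h1 ((θ f : kˣ) : k)
  have hfin := Fr.sys.finite_nf (C1 : ℝ)
  refine ⟨hfin.toFinset.sup Cf, fun p => ?_⟩
  obtain ⟨x, hx0, hxp, hxs⟩ := h2 (Fr.pl p)
  have hxk : (x : k) ≠ 0 := bd_ne' hx0
  -- the exponent at `p`
  have ho : ∀ Q : HeightOneSpectrum (𝓞 k), 0 ≤ ord Q (x : k) := fun Q => B.ord_alg_nonneg Q x
  have hp1 : 1 ≤ ord (Fr.pl p) (x : k) := by
    rw [B.le_ord_iff _ hxk]
    have e1 : (Fr.pl p).valuation k (x : k) = (Fr.pl p).intValuation x :=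
      HeightOneSpectrum.valuation_of_algebraMap _ _
    rw [e1]
    have e2 := ((Fr.pl p).intValuation_le_pow_iff_mem x 1).2 (by rwa [pow_one])
    exact_mod_cast e2
  -- the cofactor
  have hsup : {q : Fr.sys.P | (ord (Fr.pl q) (x : k) - if q = p then 1 else 0).toNat ≠
      0}.Finite := by
    refine ((B.ord_finite (x : k) hxk).preimage Fr.pl_inj.injOn).subset fun q hq => ?_
    show ord (Fr.pl q) (x : k) ≠ 0
    intro h
    refine hq ?_
    rw [h]
    split_ifs <;> rfl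
  set f : Fr.sys.P →₀ ℕ := Finsupp.ofSupportFinite
    (fun q => (ord (Fr.pl q) (x : k) - if q = p then 1 else 0).toNat) hsup with hf
  have hfq : ∀ q, (f q : ℤ) = ord (Fr.pl q) (x : k) - if q = p then 1 else 0 := by
    intro q
    have e1 : f q = (ord (Fr.pl q) (x : k) - if q = p then 1 else 0).toNat := rfl
    rw [e1, Int.toNat_of_nonneg]
    split_ifs with h
    · rw [h]
      linarith
    · linarith [ho (Fr.pl q)]
  have hfq' : ∀ q, (ord (Fr.pl q) (x : k)).toNat = f q + if q = p then 1 else 0 := by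
    intro q
    have e1 := hfq q
    split_ifs at e1 ⊢ <;> omega
  -- the norm of the cofactor
  have hn1 : Fr.sys.nf f * Fr.sys.N p ≤ C1 * Fr.sys.N p := by
    have e1 := bd_norm hx0 ((insert p f.support).image Fr.pl)
    rw [Finset.prod_image fun a _ b _ h => Fr.pl_inj h] at e1
    have e2 : ∏ q ∈ insert p f.support, nrm (Fr.pl q) ^ (ord (Fr.pl q) (x : k)).toNat =
        Fr.sys.nf f * Fr.sys.N p := by
      have e3 : ∀ q ∈ insert p f.support, nrm (Fr.pl q) ^ (ord (Fr.pl q) (x : k)).toNat =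
          Fr.sys.N q ^ f q * (if q = p then Fr.sys.N q else 1) := by
        intro q _
        rw [hfq', ← Fr.N_eq, pow_add]
        split_ifs
        · rw [pow_one]
        · rw [pow_zero]
      rw [Finset.prod_congr rfl e3, Finset.prod_mul_distrib, Finset.prod_ite_eq',
        if_pos (Finset.mem_insert_self _ _)]
      congr 1
      unfold Pre.nf Finsupp.prod
      refine (Finset.prod_subset (Finset.subset_insert _ _) fun q _ hq => ?_).symm
      rw [Finsupp.notMem_support_iff.1 hq, pow_zero]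
    rw [e2] at e1
    have e4 : (Algebra.norm ℤ x).natAbs ≠ 0 := by
      rw [Int.natAbs_ne_zero]
      exact Algebra.norm_ne_zero_iff.2 hx0
    have e5 := Nat.le_of_dvd (Nat.pos_of_ne_zero e4) e1
    have e6 : C1 * sz x ^ dg k ≤ C1 * Fr.sys.N p := by
      rw [Fr.N_eq]
      exact Nat.mul_le_mul_left _ hxs
    exact e5.trans ((hN x).trans e6)
  have hNp : 0 < Fr.sys.N p := Fr.sys.one_le_N p
  have hn2 : Fr.sys.nf f ≤ C1 := Nat.le_of_mul_le_mul_right hn1 hNp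
  have hmem : f ∈ hfin.toFinset := by
    rw [Set.Finite.mem_toFinset]
    show (Fr.sys.nf f : ℝ) ≤ C1
    exact_mod_cast hn2
  -- the exponents of the product
  have hθq : ∀ Q : HeightOneSpectrum (𝓞 k), ord Q ((x : k) * (θ f : kˣ)) = ord Q (x : k) +
      (ord Q (((∏ q ∈ f.support, Fr.pi q ^ f q : kˣ)⁻¹ : kˣ) : k) + ord Q (d f : k)) := by
    intro Q
    rw [B.ord_mul _ hxk (Units.ne_zero _)]
    congr 1
    simp only [hθ]
    rw [Units.val_mul, B.ord_mul _ (Units.ne_zero _) (Units.ne_zero _)]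
  have hoq : ∀ q, ord (Fr.pl q) ((x : k) * (θ f : kˣ)) = if q = p then 1 else 0 := by
    intro q
    rw [hθq, hd f _ (bd_notMem Fr q), Units.val_inv_eq_inv_val, B.ord_inv, bd_ord_pi, hfq]
    ring
  have hne : (x : k) * (θ f : kˣ) ≠ 0 := mul_ne_zero hxk (Units.ne_zero _)
  obtain ⟨r, hr⟩ := bd_int hne fun P => by
    rcases bd_cases Fr P with h | ⟨q, rfl⟩
    · rw [hθq]
      have e1 := (hd' f P h).2
      have e2 := ho P
      linarith
    · rw [hoq]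
      split_ifs <;> norm_num
  refine ⟨r, bd_ne (by rw [hr]; exact hne), fun q => by rw [hr, hoq], ?_⟩
  have e1 : sz r ≤ Cf f * sz x := hCf f x r hr
  have e2 : Cf f ≤ hfin.toFinset.sup Cf := Finset.le_sup hmem
  have e3 : sz x ≤ Fr.sys.N p := by
    have e4 : dg k ≠ 0 := by
      unfold dg
      rw [RingOfIntegers.rank]
      exact Module.finrank_pos.ne'
    rw [Fr.N_eq]
    exact (Nat.le_self_pow e4 _).trans hxs
  exact e1.trans (Nat.mul_le_mul e2 e3)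

/-- integral representatives of the units -/
theorem bd_u : ∃ C : ℕ, ∀ c : Fr.sys.T, ∃ v : 𝓞 k, v ≠ 0 ∧ (∀ q, ord (Fr.pl q) (v : k) = 0) ∧
    (∃ z : kˣ, (v : k) = ((∏ j, Fr.u j ^ (c j).val : kˣ) : k) * z ^ 2) ∧ sz v ≤ C := by
  classical
  have h : ∀ c : Fr.sys.T, ∃ v : 𝓞 k, v ≠ 0 ∧ (∀ q, ord (Fr.pl q) (v : k) = 0) ∧
      ∃ z : kˣ, (v : k) = ((∏ j, Fr.u j ^ (c j).val : kˣ) : k) * z ^ 2 := by
    intro c
    set e : kˣ := ∏ j, Fr.u j ^ (c j).val with he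
    have he0 : e ∈ US Fr.S := by
      rw [he]
      exact Subgroup.prod_mem _ fun j _ => pow_mem (Fr.u_mem j) _
    obtain ⟨d, hd, hd'⟩ := bd_den Fr.S e
    have h2 : ∀ Q : HeightOneSpectrum (𝓞 k), ord Q ((e : k) * (d : k) ^ 2) =
        ord Q (e : k) + 2 * ord Q (d : k) := by
      intro Q
      rw [B.ord_mul _ e.ne_zero (pow_ne_zero _ d.ne_zero), B.ord_pow]
      rfl
    have h3 : ∀ q, ord (Fr.pl q) ((e : k) * (d : k) ^ 2) = 0 := by
      intro q
      rw [h2, B.mem_US.1 he0 _ (bd_notMem Fr q), hd _ (bd_notMem Fr q)]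
      rfl
    have hne : (e : k) * (d : k) ^ 2 ≠ 0 := mul_ne_zero e.ne_zero (pow_ne_zero _ d.ne_zero)
    obtain ⟨v, hv⟩ := bd_int hne fun P => by
      rcases bd_cases Fr P with h | ⟨q, rfl⟩
      · rw [h2]
        have e1 := hd' P h
        linarith [e1.1, e1.2]
      · rw [h3]
    exact ⟨v, bd_ne (by rw [hv]; exact hne), fun q => by rw [hv, h3], d, hv⟩
  choose v h0 h1 h2 using h
  refine ⟨Finset.univ.sup fun c => sz (v c), fun c => ⟨v c, h0 c, h1 c, h2 c, ?_⟩⟩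
  exact Finset.le_sup (f := fun c => sz (v c)) (Finset.mem_univ c)

theorem bd_prod {C : ℕ} (hC1 : sz (1 : 𝓞 k) ≤ C)
    (hC : ∀ x y : 𝓞 k, sz (x * y) ≤ C * sz x * sz y) {ι : Type} (s : Finset ι) (r : ι → 𝓞 k) :
    sz (∏ i ∈ s, r i) ≤ C * ∏ i ∈ s, (C * sz (r i)) := by
  classical
  induction s using Finset.induction_on with
  | empty => simpa using hC1
  | insert i s hi ih =>
    rw [Finset.prod_insert hi, Finset.prod_insert hi]
    calc sz (r i * ∏ j ∈ s, r j) ≤ C * sz (r i) * sz (∏ j ∈ s, r j) := hC _ _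
      _ ≤ C * sz (r i) * (C * ∏ j ∈ s, (C * sz (r j))) := Nat.mul_le_mul_left _ ih
      _ = C * (C * sz (r i) * ∏ j ∈ s, (C * sz (r j))) := by ring

/-- Row I3. -/
theorem bdSt (h1 : SzSt k) (h2 : PgSt k) : BdSt Fr := by
  classical
  obtain ⟨C0, hC0, hC1, hC2, -⟩ := id h1
  obtain ⟨Cr, hr⟩ := bd_rho Fr h1 h2
  obtain ⟨Cu, hu⟩ := bd_u Fr
  choose r hr0 hro hrs using hr
  refine ⟨C0 * C0 * (Cu + 1), C0 * Cr + 1, ?_, fun a M hM => ?_⟩
  · exact Nat.succ_le_of_lt (by positivity)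
  set s := odp Fr a with hs
  have hsM : s ⊆ M := by
    intro p hp
    by_contra h
    have e1 := hM p h
    rw [hs, mem_odp, ← Int.not_even_iff_odd] at hp
    exact hp e1
  -- the unit
  have hrk : ∀ p, (r p : k) ≠ 0 := fun p => bd_ne' (hr0 p)
  set ru : Fr.sys.P → kˣ := fun p => Units.mk0 (r p : k) (hrk p) with hru
  have hord : ∀ q, ord (Fr.pl q) ((∏ p ∈ s, ru p : kˣ) : k) = if q ∈ s then 1 else 0 := by
    intro q
    rw [B.ord_prod]
    have e1 : ∀ p ∈ s, ord (Fr.pl q) (ru p : k) = if p = q then 1 else 0 := by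
      intro p _
      have e2 : (ru p : k) = (r p : k) := rfl
      rw [e2, hro]
      by_cases h : q = p
      · rw [if_pos h, if_pos h.symm]
      · rw [if_neg h, if_neg (Ne.symm h)]
    rw [Finset.sum_congr rfl e1, Finset.sum_ite_eq']
  have hev : ∀ q : Fr.sys.P, Even (ord (Fr.pl q) ((a * ∏ p ∈ s, ru p : kˣ) : k)) := by
    intro q
    rw [Units.val_mul, B.ord_mul _ a.ne_zero (Units.ne_zero _), hord]
    split_ifs with h
    · rw [hs, mem_odp] at h
      exact h.add_one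
    · rw [hs, mem_odp, Int.not_odd_iff_even] at h
      rw [add_zero]
      exact h
  obtain ⟨c, w, hw⟩ := hb_even Fr _ hev
  obtain ⟨v, hv0, hvo, ⟨z, hz⟩, hvs⟩ := hu c
  have hvk : (v : k) ≠ 0 := bd_ne' hv0
  have hcoe : (((∏ p ∈ s, r p) : 𝓞 k) : k) = ((∏ p ∈ s, ru p : kˣ) : k) := by
    rw [Units.coe_prod]
    exact map_prod (algebraMap (𝓞 k) k) r s
  have hcoe2 : (((∏ p ∈ s, r p) * v : 𝓞 k) : k) = ((∏ p ∈ s, ru p : kˣ) : k) * (v : k) := by
    rw [← hcoe]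
    exact map_mul (algebraMap (𝓞 k) k) _ _
  refine ⟨(∏ p ∈ s, r p) * v, a⁻¹ * w * z, ?_, fun q hq => ?_, ?_⟩
  · rw [hcoe2, hz]
    have e1 : (a : k) * ((∏ p ∈ s, ru p : kˣ) : k) * ((∏ j, Fr.u j ^ (c j).val : kˣ) : k) =
        (w : k) * w := by
      rw [← Units.val_mul, ← Units.val_mul, ← Units.val_mul, hw]
    have e3 : (a : k) * (a : k)⁻¹ = 1 := mul_inv_cancel₀ a.ne_zero
    rw [Units.val_mul, Units.val_mul, Units.val_inv_eq_inv_val]
    linear_combination (a : k)⁻¹ * (z : k) ^ 2 * e1 - ((w : k) ^ 2 * (z : k) ^ 2 * (a : k)⁻¹ +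
      ((∏ p ∈ s, ru p : kˣ) : k) * ((∏ j, Fr.u j ^ (c j).val : kˣ) : k) * (z : k) ^ 2) * e3
  · rw [hcoe2, B.ord_mul _ (Units.ne_zero _) hvk, hvo, hord, if_neg fun h => hq (hsM h)]
    rfl
  · have e1 : ∏ p ∈ s, (C0 * sz (r p)) ≤ Fr.sys.nm M ^ (C0 * Cr + 1) := by
      calc ∏ p ∈ s, (C0 * sz (r p)) ≤ ∏ p ∈ s, Fr.sys.N p ^ (C0 * Cr + 1) := by
            refine Finset.prod_le_prod' fun p _ => ?_
            have e2 : C0 * Cr ≤ Fr.sys.N p ^ (C0 * Cr) :=
              (Nat.lt_pow_self (Fr.sys.two_le p)).le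
            calc C0 * sz (r p) ≤ C0 * (Cr * Fr.sys.N p) := Nat.mul_le_mul_left _ (hrs p)
              _ = C0 * Cr * Fr.sys.N p := by ring
              _ ≤ Fr.sys.N p ^ (C0 * Cr) * Fr.sys.N p := Nat.mul_le_mul_right _ e2
              _ = Fr.sys.N p ^ (C0 * Cr + 1) := (pow_succ _ _).symm
        _ = Fr.sys.nm s ^ (C0 * Cr + 1) := by
            unfold Pre.nm
            rw [Finset.prod_pow]
        _ ≤ Fr.sys.nm M ^ (C0 * Cr + 1) := by
            refine Nat.pow_le_pow_left ?_ _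
            unfold Pre.nm
            exact Finset.prod_le_prod_of_subset_of_one_le' hsM fun p _ _ => Fr.sys.one_le_N p
    calc sz ((∏ p ∈ s, r p) * v) ≤ C0 * sz (∏ p ∈ s, r p) * sz v := hC2 _ _
      _ ≤ C0 * (C0 * ∏ p ∈ s, (C0 * sz (r p))) * (Cu + 1) :=
          Nat.mul_le_mul (Nat.mul_le_mul_left _ (bd_prod hC1 hC2 s r)) (hvs.trans (Nat.le_succ _))
      _ ≤ C0 * (C0 * Fr.sys.nm M ^ (C0 * Cr + 1)) * (Cu + 1) :=
          Nat.mul_le_mul_right _ (Nat.mul_le_mul_left _ (Nat.mul_le_mul_left _ e1))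
      _ = C0 * C0 * (Cu + 1) * Fr.sys.nm M ^ (C0 * Cr + 1) := by ring

end

end Pool.Agent.H32.MQ
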