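import Pool.Agent.H32.MQ.BFInst

/-!
# Project MQ, row BI1: sizes of integers (helper19)
-/

set_option autoImplicit false

open scoped BigOperators
open NumberField IsDedekindDomain

namespace Pool.Agent.H32.MQ

section

variable {k : Type} [Field k] [NumberField k]

theorem sz_coord (x : 𝓞 k) (i : Fin (dg k)) : ((kco k).repr x i).natAbs ≤ sz x :=
  Finset.le_sup (f := fun i => ((kco k).repr x i).natAbs) (Finset.mem_univ i)

theorem sz_add (x y : 𝓞 k) : sz (x + y) ≤ sz x + sz y := by
  refine Finset.sup_le fun i _ => ?_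
  rw [map_add, Finsupp.add_apply]
  exact (Int.natAbs_add_le _ _).trans (add_le_add (sz_coord x i) (sz_coord y i))

theorem sz_neg (x : 𝓞 k) : sz (-x) = sz x := by
  unfold sz
  refine Finset.sup_congr rfl fun i _ => ?_
  rw [map_neg, Finsupp.neg_apply, Int.natAbs_neg]

theorem sz_zero : sz (0 : 𝓞 k) = 0 := by
  unfold sz
  refine le_antisymm (Finset.sup_le fun i _ => ?_) (Nat.zero_le _)
  rw [map_zero, Finsupp.zero_apply, Int.natAbs_zero]

theorem sz_eq_zero (x : 𝓞 k) : sz x = 0 ↔ x = 0 := by
  constructor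
  · intro h
    rw [← (kco k).repr.map_eq_zero_iff]
    ext i
    have h1 := sz_coord x i
    rw [h, Nat.le_zero, Int.natAbs_eq_zero] at h1
    rw [h1, Finsupp.zero_apply]
  · rintro rfl
    exact sz_zero

theorem sz_zsmul (n : ℤ) (x : 𝓞 k) : sz (n • x) ≤ n.natAbs * sz x := by
  refine Finset.sup_le fun i _ => ?_
  rw [map_zsmul, Finsupp.smul_apply, smul_eq_mul, Int.natAbs_mul]
  exact Nat.mul_le_mul_left _ (sz_coord x i)

theorem sz_sum {ι : Type*} (s : Finset ι) (f : ι → 𝓞 k) :
    sz (∑ i ∈ s, f i) ≤ ∑ i ∈ s, sz (f i) := by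
  classical
  induction s using Finset.induction_on with
  | empty => simp [sz_zero]
  | insert a s ha ih =>
    rw [Finset.sum_insert ha, Finset.sum_insert ha]
    exact (sz_add _ _).trans (Nat.add_le_add_left ih _)

variable (k)

theorem dg_eq : dg k = Module.finrank ℚ k := RingOfIntegers.rank k

theorem dg_pos : 1 ≤ dg k := by
  rw [dg_eq]
  exact Module.finrank_pos

/-- the constant of products -/
noncomputable def szA : ℕ := ∑ i, ∑ j, sz (kco k i * kco k j)

variable {k}

theorem sz_mul (x y : 𝓞 k) : sz (x * y) ≤ szA k * sz x * sz y := by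
  have h1 : x * y = ∑ i, ∑ j, ((kco k).repr x i) • ((kco k).repr y j) • (kco k i * kco k j) := by
    conv_lhs => rw [← (kco k).sum_repr x, ← (kco k).sum_repr y]
    rw [Finset.sum_mul_sum]
    refine Finset.sum_congr rfl fun i _ => Finset.sum_congr rfl fun j _ => ?_
    rw [smul_mul_smul_comm, mul_smul]
  rw [h1]
  have h2 : ∀ i j, sz (((kco k).repr x i) • ((kco k).repr y j) • (kco k i * kco k j)) ≤
      sz (kco k i * kco k j) * (sz x * sz y) := by
    intro i j
    calc _ ≤ ((kco k).repr x i).natAbs * (((kco k).repr y j).natAbs * sz (kco k i * kco k j)) :=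
          (sz_zsmul _ _).trans (Nat.mul_le_mul_left _ (sz_zsmul _ _))
      _ ≤ sz x * (sz y * sz (kco k i * kco k j)) :=
          Nat.mul_le_mul (sz_coord x i) (Nat.mul_le_mul_right _ (sz_coord y j))
      _ = _ := by ring
  calc _ ≤ ∑ i, ∑ j, sz (kco k i * kco k j) * (sz x * sz y) := by
        refine (sz_sum _ _).trans (Finset.sum_le_sum fun i _ => ?_)
        exact (sz_sum _ _).trans (Finset.sum_le_sum fun j _ => h2 i j)
    _ = _ := by
        unfold szA
        rw [mul_assoc, Finset.sum_mul]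
        refine Finset.sum_congr rfl fun i _ => ?_
        rw [Finset.sum_mul]

theorem sz_basis (i : Fin (dg k)) : sz (kco k i) ≤ 1 := by
  classical
  refine Finset.sup_le fun j _ => ?_
  rw [(kco k).repr_self, Finsupp.single_apply]
  split_ifs <;> simp

theorem norm_sz (x : 𝓞 k) :
    (Algebra.norm ℤ x).natAbs ≤ (dg k).factorial * szA k ^ dg k * sz x ^ dg k := by
  classical
  have h1 : Algebra.norm ℤ x = (Algebra.leftMulMatrix (kco k) x).det :=
    Algebra.norm_eq_matrix_det (kco k) x
  have h2 : ∀ i j, AbsoluteValue.abs (Algebra.leftMulMatrix (kco k) x i j) ≤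
      ((szA k * sz x : ℕ) : ℤ) := by
    intro i j
    rw [Algebra.leftMulMatrix_eq_repr_mul, AbsoluteValue.abs_apply, Int.abs_eq_natAbs]
    have h3 : ((kco k).repr (x * kco k j) i).natAbs ≤ szA k * sz x := by
      refine (sz_coord _ i).trans ((sz_mul _ _).trans ?_)
      calc szA k * sz x * sz (kco k j) ≤ szA k * sz x * 1 := Nat.mul_le_mul_left _ (sz_basis j)
        _ = _ := mul_one _
    exact_mod_cast h3
  have h4 := Matrix.det_le h2
  rw [← h1, AbsoluteValue.abs_apply, Int.abs_eq_natAbs, Fintype.card_fin, nsmul_eq_mul] at h4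
  have h5 : (Algebra.norm ℤ x).natAbs ≤ (dg k).factorial * (szA k * sz x) ^ dg k := by
    exact_mod_cast h4
  refine h5.trans (le_of_eq ?_)
  rw [mul_pow, mul_assoc]

end

/-- sizes of products and norms -/
theorem szSt (k : Type) [Field k] [NumberField k] : SzSt k := by
  refine ⟨1 + sz (1 : 𝓞 k) + szA k + (dg k).factorial * szA k ^ dg k, by omega, by omega, ?_, ?_⟩
  · intro x y
    refine (sz_mul x y).trans ?_
    refine Nat.mul_le_mul_right _ (Nat.mul_le_mul_right _ ?_)
    omega
  · intro x
    refine (norm_sz x).trans (Nat.mul_le_mul_right _ ?_)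
    omega

end Pool.Agent.H32.MQ
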