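import Pool.Agent.H32.MQ.BFInst

/-!
# Malle's conjecture for 8T28 and 8T29, block BF: the classes modulo squares
-/

set_option autoImplicit false

open scoped BigOperators
open NumberField IsDedekindDomain

namespace Pool.Agent.H32.MQ

open Pool.Agent.H98.MF

section

variable {k : Type} [Field k] [NumberField k] {Fr : Frm k} {L : Type} [Field L]
  [NumberField L] [Algebra k L] (X : HX Fr L)

/-- the residue symbol of a representative -/
theorem icl_qr (x : Lˣ) (Q : HeightOneSpectrum (𝓞 L)) :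
    qr ((HX.out (x : HX.GX L) : Lˣ) : L) Q = qr (x : L) Q := by
  obtain ⟨y, hy⟩ := HX.out_mk x
  rw [hy]
  apply hb_qr_sq
  exact ⟨x * y, by rw [pow_two, mul_mul_mul_comm, mul_right_comm]⟩

/-- the parity of the exponents of a representative -/
theorem icl_ord (x : Lˣ) (Q : HeightOneSpectrum (𝓞 L)) :
    Odd (ord Q ((HX.out (x : HX.GX L) : Lˣ) : L)) ↔ Odd (ord Q (x : L)) := by
  obtain ⟨y, hy⟩ := HX.out_mk x
  rw [hy, Units.val_mul, Units.val_pow_eq_pow_val,
    Pool.Agent.H98.MF.B.ord_mul Q x.ne_zero (pow_ne_zero 2 y.ne_zero),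
    Pool.Agent.H98.MF.B.ord_pow]
  have h1 : Even (((2 : ℕ) : ℤ) * ord Q (y : L)) := ⟨ord Q (y : L), by push_cast; ring⟩
  rw [Int.odd_add]
  exact ⟨fun h => h.2 h1, fun h => ⟨fun _ => h1, fun _ => h⟩⟩

theorem icl_mem {g : Finset X.PX} {γ : HX.GX L} :
    γ ∈ (Qof X).B g ↔ γ ∈ X.Bs g := hi_mem X (h_cardB X)

/-- I11 -/
theorem clSt : ClSt X := by
  refine ⟨fun x b _ => icl_qr x b.1, fun g γ => ?_, fun x y => ?_⟩
  · rw [icl_mem]
    constructor
    · intro h
      refine ⟨HX.out γ, Quotient.out_eq _, fun Q => h Q.1 Q.2⟩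
    · rintro ⟨x, rfl, h⟩ Q hQ
      rw [icl_ord]
      exact h ⟨Q, hQ⟩
  · rw [eq_comm, QuotientGroup.eq]
    constructor
    · rintro ⟨z, hz⟩
      refine ⟨z, ?_⟩
      have h2 : z ^ 2 = y⁻¹ * x := hz
      rw [← pow_two, h2, mul_inv_cancel_left]
    · rintro ⟨z, rfl⟩
      refine ⟨z, ?_⟩
      show z ^ 2 = y⁻¹ * (y * (z * z))
      rw [inv_mul_cancel_left, pow_two]

end

end Pool.Agent.H32.MQ
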