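import Pool.Agent.H32.MQ.BFStm

/-!
# Malle's conjecture for 8T28 and 8T29, row BF1: small elements in the ideals of good sets
-/

set_option autoImplicit false

open scoped BigOperators

namespace Pool.Agent.H32.MQ

open Pool.Agent.H98.MK (sg)
open Pool.Agent.H98.MF

theorem bal_nq {S : Sys} {Q : Qd S} {g : Finset Q.P} (hg : Q.Gd g) :
    Q.nq g = ∏ a ∈ g, S.N (Q.sh a) := by
  classical
  have h1 : (Q.shd g).prod S.N = ∏ a ∈ g, S.N (Q.sh a) :=
    Finset.prod_image fun a ha b hb h => hg a ha b hb h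
  exact h1

theorem bal_root (n N : ℕ) (hn : 1 ≤ n) : ∃ D : ℕ, D ^ n ≤ N ∧ N < (D + 1) ^ n := by
  classical
  have h0 : (fun D : ℕ => D ^ n ≤ N) 0 := by
    show 0 ^ n ≤ N
    rw [zero_pow (by omega)]
    exact Nat.zero_le _
  refine ⟨Nat.findGreatest (fun D => D ^ n ≤ N) N, ?_, ?_⟩
  · exact Nat.findGreatest_spec (P := fun D => D ^ n ≤ N) (Nat.zero_le N) h0
  · by_contra hcon
    rw [not_lt] at hcon
    have h1 : Nat.findGreatest (fun D => D ^ n ≤ N) N + 1 ≤ N :=
      (Nat.le_self_pow (by omega) _).trans hcon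
    have h2 := Nat.le_findGreatest (P := fun D => D ^ n ≤ N) h1 hcon
    omega

theorem bal_one {S : Sys} {Q : Qd S} {n c B K : ℕ} (O : Od Q n c B K) (g : Finset Q.P)
    (hg : Q.Gd g) : ∃ x : O.A, x ≠ 0 ∧ (∀ i, |(O.L.e x i : ℝ)| ^ n ≤ Q.nq g) ∧
      ∀ a ∈ g, O.rs a x = 0 := by
  classical
  choose G iG fG f hc hf using O.pig
  let _ : ∀ a : {a // a ∈ g}, Fintype (G a.1) := fun a => fG a.1
  obtain ⟨D, hD, hD'⟩ := bal_root n (Q.nq g) O.n_pos
  let box : Finset (Fin n → ℤ) := Fintype.piFinset fun _ => Finset.Icc (0 : ℤ) D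
  have hbox : box.card = (D + 1) ^ n := by
    show (Fintype.piFinset fun _ : Fin n => Finset.Icc (0 : ℤ) D).card = _
    rw [Fintype.card_piFinset]
    simp
  let φ : (Fin n → ℤ) → ∀ a : {a // a ∈ g}, G a.1 := fun y a => f a.1 (O.L.e.symm y)
  have hcard : (Finset.univ : Finset (∀ a : {a // a ∈ g}, G a.1)).card = Q.nq g := by
    rw [Finset.card_univ, Fintype.card_pi, bal_nq hg]
    rw [← Finset.prod_coe_sort g (fun a => S.N (Q.sh a))]
    exact Finset.prod_congr rfl fun a _ => hc a.1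
  obtain ⟨y, hy, y', hy', hne, heq⟩ := Finset.exists_ne_map_eq_of_card_lt_of_maps_to
    (s := box) (t := (Finset.univ : Finset (∀ a : {a // a ∈ g}, G a.1))) (f := φ)
    (by rw [hcard, hbox]; exact hD') (fun _ _ => Finset.mem_univ _)
  refine ⟨O.L.e.symm y - O.L.e.symm y', ?_, ?_, ?_⟩
  · intro h
    apply hne
    exact O.L.e.symm.injective (sub_eq_zero.1 h)
  · intro i
    have h1 : O.L.e (O.L.e.symm y - O.L.e.symm y') i = y i - y' i := by
      rw [map_sub, O.L.e.apply_symm_apply, O.L.e.apply_symm_apply, Pi.sub_apply]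
    rw [h1]
    have h2 := Finset.mem_Icc.1 (Fintype.mem_piFinset.1 hy i)
    have h3 := Finset.mem_Icc.1 (Fintype.mem_piFinset.1 hy' i)
    have h4 : |y i - y' i| ≤ (D : ℤ) := by
      rw [abs_le]
      constructor <;> omega
    have h5 : |((y i - y' i : ℤ) : ℝ)| ≤ D := by
      exact_mod_cast h4
    refine (pow_le_pow_left₀ (abs_nonneg _) h5 n).trans ?_
    exact_mod_cast hD
  · intro a ha
    apply hf
    have h1 := congrFun heq ⟨a, ha⟩
    have h2 : f a (O.L.e.symm y) = f a (O.L.e.symm y') := h1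
    rw [map_sub, h2, sub_self]

theorem alSt : AlSt := by
  classical
  intro S Q n c B K O
  have h : ∀ g : Finset Q.P, ∃ x : O.A, Q.Gd g → x ≠ 0 ∧
      (∀ i, |(O.L.e x i : ℝ)| ^ n ≤ Q.nq g) ∧ ∀ a ∈ g, O.rs a x = 0 := by
    intro g
    by_cases hg : Q.Gd g
    · obtain ⟨x, hx⟩ := bal_one O g hg
      exact ⟨x, fun _ => hx⟩
    · exact ⟨0, fun h => absurd h hg⟩
  choose al hal using h
  exact ⟨al, fun g hg => (hal g hg).1, fun g hg => (hal g hg).2.1, fun g hg => (hal g hg).2.2⟩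

end Pool.Agent.H32.MQ
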