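import Pool.Agent.H32.MQ.BFStm

/-!
# Malle's conjecture for 8T28 and 8T29, row BF6: the bilinear estimate for the kernels
-/

set_option autoImplicit false

open scoped BigOperators

namespace Pool.Agent.H32.MQ

open Pool.Agent.H98.MK (sg)
open Pool.Agent.H98.MF
open Pool.Agent.H32.MA.AB (Lat Ker cube bxA)

/-- few good sets with given norm of the element -/
private theorem bk_few {S : Sys} {Q : Qd S} {n c B K : ℕ} (O : Od Q n c B K)
    (al : Finset Q.P → O.A) (Z : Finset (Finset Q.P)) (hZ : ∀ g ∈ Z, Q.Gd g)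
    (hd : ∀ g ∈ Z, Q.nq g ∣ O.L.nrm (al g)) (t : ℕ) (ht : 1 ≤ t) :
    (((Z.image al).filter fun x => O.L.nrm x = t)).card ≤ t.divisors.card ^ (B + 1) := by
  classical
  have ht0 : t ≠ 0 := by omega
  have h1 : ((Z.image al).filter fun x => O.L.nrm x = t) ⊆
      ((t.divisors.biUnion fun m => (Q.gb m).filter fun z => Q.nq z = m)).image al := by
    intro x hx
    rw [Finset.mem_filter, Finset.mem_image] at hx
    obtain ⟨⟨g, hg, rfl⟩, hx⟩ := hx
    refine Finset.mem_image_of_mem _ ?_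
    rw [Finset.mem_biUnion]
    refine ⟨Q.nq g, ?_, ?_⟩
    · rw [Nat.mem_divisors]
      exact ⟨hx ▸ hd g hg, ht0⟩
    · rw [Finset.mem_filter, Q.mem_gb]
      exact ⟨⟨hZ g hg, le_rfl⟩, rfl⟩
  calc (((Z.image al).filter fun x => O.L.nrm x = t)).card
      ≤ ((t.divisors.biUnion fun m => (Q.gb m).filter fun z => Q.nq z = m)).card :=
        (Finset.card_le_card h1).trans Finset.card_image_le
    _ ≤ ∑ m ∈ t.divisors, ((Q.gb m).filter fun z => Q.nq z = m).card := Finset.card_biUnion_le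
    _ ≤ ∑ m ∈ t.divisors, t.divisors.card ^ B := by
        refine Finset.sum_le_sum fun m hm => ?_
        have hm' := Nat.mem_divisors.1 hm
        have hm0 : 1 ≤ m := Nat.pos_of_dvd_of_pos hm'.1 (by omega)
        refine (O.few m hm0).trans (Nat.pow_le_pow_left ?_ _)
        exact Finset.card_le_card (Nat.divisors_subset_of_dvd ht0 hm'.1)
    _ = t.divisors.card ^ (B + 1) := by
        rw [Finset.sum_const, smul_eq_mul, pow_succ, mul_comm]

theorem bkSt (h1 : KerSt) (h2 : CntSt) (h3 : LbSt) : BKSt := by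
  classical
  intro S n B hn
  have hn' : (0 : ℝ) < 24 * n := by
    have : (1 : ℝ) ≤ n := by exact_mod_cast hn
    linarith
  obtain ⟨C0, hC0, hbil⟩ := Pool.Agent.H32.MA.AB.bil n (B + 1) hn
  obtain ⟨C3, hC3, hcnt⟩ := h2 S (1 / (24 * n : ℝ)) (by positivity)
  set M : ℝ := max 1 C3 with hM
  have hM1 : 1 ≤ M := le_max_left _ _
  refine ⟨C0 * M ^ (n + 1), by positivity, ?_⟩
  intro Q c K O al hal f X Y hX hXY a b ha hb
  have hX0 : 0 < X := by linarith
  -- the sets
  set I : Finset (Finset Q.P) := (Q.gb X).filter (fun e => Disjoint e (O.bp f)) with hI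
  set Z : Finset (Finset Q.P) := (Q.gb Y).filter (fun g => O.lab al g = f) with hZ
  have hIm : ∀ e ∈ I, Q.Gd e ∧ (Q.nq e : ℝ) ≤ X := fun e he =>
    Q.mem_gb.1 (Finset.mem_filter.1 he).1
  have hZm : ∀ g ∈ Z, Q.Gd g ∧ (Q.nq g : ℝ) ≤ Y := fun g hg =>
    Q.mem_gb.1 (Finset.mem_filter.1 hg).1
  have hZf : ∀ g ∈ Z, O.lab al g = f := fun g hg => (Finset.mem_filter.1 hg).2
  have hinj : ∀ g ∈ Z, ∀ g' ∈ Z, al g = al g' → g = g' := by
    intro g hg g' hg' h
    have h4 := (h3 S Q n c B K O al hal g' (hZm g' hg').1).2.2.2.1 g (hZm g hg).1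
    exact h4 (by rw [hZf g hg, hZf g' hg']) h
  have hIc : (I.card : ℝ) ≤ M * X ^ (1 + 1 / (24 * n : ℝ)) := by
    have h4 : I.card ≤ (Q.gb X).card := Finset.card_filter_le _ _
    have h5 : (I.card : ℝ) ≤ ((Q.gb X).card : ℝ) := by exact_mod_cast h4
    refine h5.trans ((hcnt Q X hX).trans ?_)
    exact mul_le_mul_of_nonneg_right (le_max_right _ _) (Real.rpow_nonneg hX0.le _)
  -- the coefficients
  let b' : O.A → ℝ := fun x => if h : ∃ g ∈ Z, al g = x then b h.choose else 0
  have hb' : ∀ x, |b' x| ≤ 1 := by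
    intro x
    show |if h : ∃ g ∈ Z, al g = x then b h.choose else 0| ≤ 1
    split_ifs with h
    · exact hb _
    · rw [abs_zero]
      exact zero_le_one
  have hbb : ∀ g ∈ Z, b' (al g) = b g := by
    intro g hg
    have h : ∃ g' ∈ Z, al g' = al g := ⟨g, hg, rfl⟩
    show (if h : ∃ g' ∈ Z, al g' = al g then b h.choose else 0) = b g
    rw [dif_pos h]
    exact congrArg b (hinj _ h.choose_spec.1 g hg h.choose_spec.2)
  have key := hbil O.A c O.L (Finset Q.P) I O.kr Q.nq X Y M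
    (h1 S Q n c B K O X I hIm) hX hXY hM1 hIc (Z.image al) ?_ ?_ ?_ a b' ha hb'
  · have hsum : ∑ e ∈ I, ∑ g ∈ Z, a e * b g * O.kr e (al g) =
        ∑ e ∈ I, ∑ x ∈ Z.image al, a e * b' x * O.kr e x := by
      refine Finset.sum_congr rfl fun e _ => ?_
      rw [Finset.sum_image (fun g hg g' hg' h => hinj g hg g' hg' h)]
      refine Finset.sum_congr rfl fun g hg => ?_
      rw [hbb g hg]
    rw [hsum]
    refine key.trans (le_of_eq ?_)
    rw [mul_pow]
    ring
  · intro x hx i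
    obtain ⟨g, hg, rfl⟩ := Finset.mem_image.1 hx
    exact (hal.bd g (hZm g hg).1 i).trans (hZm g hg).2
  · intro h0
    obtain ⟨g, hg, h⟩ := Finset.mem_image.1 h0
    exact hal.ne g (hZm g hg).1 h
  · intro t ht
    have h4 := bk_few O al Z (fun g hg => (hZm g hg).1)
      (fun g hg => (h3 S Q n c B K O al hal g (hZm g hg).1).2.2.2.2) t ht
    convert h4

end Pool.Agent.H32.MQ
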