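import Pool.Agent.H32.MQ.BFStm

/-!
# Project MQ, row BF3: the number of good sets
-/

set_option autoImplicit false

open scoped BigOperators

namespace Pool.Agent.H32.MQ

open Pool.Agent.H98.MF

namespace BCnt

open Classical in
/-- at most `2 ^ card x` good sets have the shadow `x` -/
theorem fib_card {S : Sys} (Q : Qd S) (X : ℝ) (x : Finset S.P) :
    ((Q.gb X).filter fun z => Q.shd z = x).card ≤ 2 ^ x.card := by
  rw [← Finset.card_powerset]
  let t : S.P → Option Q.P := fun p => if h : ∃ a, Q.sh a = p then some h.choose else none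
  have ht : ∀ a : Q.P, ∃ b, t (Q.sh a) = some b ∧ Q.sh b = Q.sh a := by
    intro a
    have h : ∃ b, Q.sh b = Q.sh a := ⟨a, rfl⟩
    exact ⟨h.choose, dif_pos h, h.choose_spec⟩
  refine Finset.card_le_card_of_injOn
    (fun z => x.filter fun p => ∃ b, t p = some b ∧ b ∈ z) (fun z _ => ?_) ?_
  · exact Finset.mem_coe.2 (Finset.mem_powerset.2 (Finset.filter_subset _ _))
  · have key : ∀ z z' : Finset Q.P, Q.Gd z → Q.Gd z' → Q.shd z = x → Q.shd z' = x →
        (x.filter fun p => ∃ b, t p = some b ∧ b ∈ z) =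
          (x.filter fun p => ∃ b, t p = some b ∧ b ∈ z') → z ⊆ z' := by
      intro z z' hz hz' hx hx' he a ha
      obtain ⟨b, hb, hba⟩ := ht a
      have hp : Q.sh a ∈ x := hx ▸ Finset.mem_image_of_mem _ ha
      have he' := Finset.ext_iff.1 he (Q.sh a)
      rw [Finset.mem_filter, Finset.mem_filter] at he'
      by_cases hbz : b ∈ z
      · have hab : b = a := hz b hbz a ha hba
        obtain ⟨-, b', hb', hbz'⟩ := he'.1 ⟨hp, b, hb, hbz⟩
        rw [hb] at hb'
        have : b = b' := Option.some.inj hb'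
        rw [← hab, this]
        exact hbz'
      · have hbz' : b ∉ z' := by
          intro h
          obtain ⟨-, b', hb', hbz''⟩ := he'.2 ⟨hp, b, hb, h⟩
          rw [hb] at hb'
          have : b = b' := Option.some.inj hb'
          exact hbz (this ▸ hbz'')
        have hac : a = Q.cj b := by
          rcases Q.fib b a hba with h | h
          · exact absurd (h ▸ ha) hbz
          · exact h
        have hp' : Q.sh a ∈ Q.shd z' := hx' ▸ hp
        obtain ⟨a', ha', hsa⟩ := Finset.mem_image.1 hp'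
        rcases Q.fib b a' (hba.trans hsa.symm) with h | h
        · exact absurd (h ▸ ha') hbz'
        · rw [hac, ← h]
          exact ha'
    intro z hz z' hz' he
    rw [Finset.mem_coe, Finset.mem_filter, Q.mem_gb] at hz hz'
    exact Finset.Subset.antisymm (key z z' hz.1.1 hz'.1.1 hz.2 hz'.2 he)
      (key z' z hz'.1.1 hz.1.1 hz'.2 hz.2 he.symm)

/-- the divisor bound -/
theorem two_pow_card (S : Sys) (ε : ℝ) (hε : 0 < ε) (x : Finset S.P) :
    (2 : ℝ) ^ x.card ≤ 2 ^ (S.pr (2 ^ (1 / ε))).card * (S.nm x : ℝ) ^ ε := by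
  classical
  set Z := S.pr (2 ^ (1 / ε)) with hZ
  have h1 : (2 : ℝ) ^ x.card = (2 : ℝ) ^ (x ∩ Z).card * 2 ^ (x \ Z).card := by
    rw [← pow_add, Finset.card_inter_add_card_sdiff]
  have h2 : (2 : ℝ) ^ (x ∩ Z).card ≤ 2 ^ Z.card :=
    pow_le_pow_right₀ (by norm_num) (Finset.card_le_card Finset.inter_subset_right)
  have h3 : (2 : ℝ) ^ (x \ Z).card ≤ (S.nm (x \ Z) : ℝ) ^ ε := by
    unfold Pre.nm
    push_cast
    rw [← Real.finsetProd_rpow _ _ fun p _ => Nat.cast_nonneg _, ← Finset.prod_const]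
    refine Finset.prod_le_prod (fun p _ => by norm_num) fun p hp => ?_
    have hp' : p ∉ Z := (Finset.mem_sdiff.1 hp).2
    rw [hZ, S.mem_pr (by positivity), not_le] at hp'
    calc (2 : ℝ) = ((2 : ℝ) ^ (1 / ε)) ^ ε := by
          rw [← Real.rpow_mul (by norm_num), one_div, inv_mul_cancel₀ hε.ne', Real.rpow_one]
      _ ≤ (S.N p : ℝ) ^ ε := Real.rpow_le_rpow (by positivity) hp'.le hε.le
  have h4 : (S.nm (x \ Z) : ℝ) ^ ε ≤ (S.nm x : ℝ) ^ ε :=
    Real.rpow_le_rpow (Nat.cast_nonneg _) (by exact_mod_cast S.nm_mono Finset.sdiff_subset) hε.le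
  rw [h1]
  exact mul_le_mul h2 (h3.trans h4) (by positivity) (by positivity)

theorem bx_card (S : Sys) (X : ℝ) (hX : 1 ≤ X) :
    ((S.bx X).card : ℝ) ≤ (S.κ + S.C) * X := by
  have h1 : (S.bx X).card ≤ (S.idl X).card := by
    refine Finset.card_le_card_of_injOn (fun x => S.idf x) (fun x hx => ?_)
      fun x _ y _ h => S.idf_inj h
    rw [Finset.mem_coe] at hx ⊢
    rw [S.mem_idl, S.nf_idf]
    exact S.mem_bx.1 hx
  have h2 := (abs_le.1 (S.cnt X hX)).2
  have h3 : X ^ (1 - S.δ) ≤ X := by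
    calc X ^ (1 - S.δ) ≤ X ^ (1 : ℝ) :=
          Real.rpow_le_rpow_of_exponent_le hX (by linarith [S.δ_pos])
      _ = X := Real.rpow_one X
  have h4 := mul_le_mul_of_nonneg_left h3 S.C_nonneg
  have h5 : ((S.bx X).card : ℝ) ≤ (S.idl X).card := by exact_mod_cast h1
  linarith

end BCnt

open Classical in
theorem cntSt : CntSt := by
  intro S ε hε
  refine ⟨2 ^ (S.pr (2 ^ (1 / ε))).card * (S.κ + S.C), ?_, fun Q X hX => ?_⟩
  · have := S.κ_pos
    have := S.C_nonneg
    positivity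
  have h1 : (Q.gb X).card = ∑ x ∈ S.bx X, ((Q.gb X).filter fun z => Q.shd z = x).card := by
    refine Finset.card_eq_sum_card_fiberwise fun z hz => ?_
    exact Finset.mem_coe.2 (S.mem_bx.2 (Q.mem_gb.1 (Finset.mem_coe.1 hz)).2)
  have h2 : ((Q.gb X).card : ℝ) ≤
      ∑ _x ∈ S.bx X, 2 ^ (S.pr (2 ^ (1 / ε))).card * X ^ ε := by
    rw [h1]
    push_cast
    refine Finset.sum_le_sum fun x hx => ?_
    have h3 : (((Q.gb X).filter fun z => Q.shd z = x).card : ℝ) ≤ 2 ^ x.card := by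
      exact_mod_cast BCnt.fib_card Q X x
    refine (h3.trans (BCnt.two_pow_card S ε hε x)).trans ?_
    refine mul_le_mul_of_nonneg_left ?_ (by positivity)
    exact Real.rpow_le_rpow (Nat.cast_nonneg _) (S.mem_bx.1 hx) hε.le
  rw [Finset.sum_const, nsmul_eq_mul] at h2
  have h3 := BCnt.bx_card S X hX
  have h4 : X ^ (1 + ε) = X * X ^ ε := by
    rw [Real.rpow_add (by linarith), Real.rpow_one]
  have h5 : 0 ≤ (2 : ℝ) ^ (S.pr (2 ^ (1 / ε))).card * X ^ ε := by positivity
  calc ((Q.gb X).card : ℝ) ≤ (S.bx X).card * (2 ^ (S.pr (2 ^ (1 / ε))).card * X ^ ε) := h2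
    _ ≤ ((S.κ + S.C) * X) * (2 ^ (S.pr (2 ^ (1 / ε))).card * X ^ ε) :=
      mul_le_mul_of_nonneg_right h3 h5
    _ = _ := by rw [h4]; ring

end Pool.Agent.H32.MQ
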