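import Pool.Agent.H32.MQ.BFStm

/-!
# Malle's conjecture for 8T28 and 8T29, block BF7: the bilinear estimate, the symbols at the
shorter variable (helper78)
-/

set_option autoImplicit false

open scoped BigOperators

namespace Pool.Agent.H32.MQ

open Pool.Agent.H98.MK (sg)
open Pool.Agent.H98.MF
open Pool.Agent.H32.MA.AB (Lat Ker cube bxA)

namespace BFaW

variable {S : Sys} {Q : Qd S} {n c B K : ℕ}

theorem gb_mono {X : ℝ} {e e' : Finset Q.P} (h : e' ⊆ e) (he : e ∈ Q.gb X) : e' ∈ Q.gb X := by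
  rw [Q.mem_gb] at he ⊢
  refine ⟨fun a ha b hb hab => he.1 a (h ha) b (h hb) hab, le_trans ?_ he.2⟩
  have h1 : Q.nq e' ≤ Q.nq e := S.nm_mono (Finset.image_subset_image h)
  exact_mod_cast h1

theorem sgs_union (O : Od Q n c B K) {w e : Finset Q.P} (h : Disjoint w e) (x : O.U) :
    O.sgs (w ∪ e) x = O.sgs w x * O.sgs e x := by
  unfold Od.sgs
  rw [Finset.sum_union h, sg_add, Int.cast_mul]

theorem abs_sgs (O : Od Q n c B K) (e : Finset Q.P) (x : O.U) : |O.sgs e x| = 1 := abs_sgr _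

open Classical in
/-- the part of the sum with a given intersection with `T` -/
theorem part (X : ℝ) (T w : Finset Q.P) (hw : w ⊆ T) (F : Finset Q.P → ℝ) :
    ∑ e ∈ (Q.gb X).filter (fun e => e ∩ T = w), F e =
      ∑ e ∈ (Q.gb X).filter (fun e => Disjoint e T), if w ∪ e ∈ Q.gb X then F (w ∪ e) else 0 := by
  rw [← Finset.sum_filter]
  refine Finset.sum_nbij' (fun e => e \ T) (fun e => w ∪ e) ?_ ?_ ?_ ?_ ?_
  · intro e he
    rw [Finset.mem_filter] at he
    have h1 : w ∪ e \ T = e := by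
      rw [← he.2, Finset.union_comm]
      exact Finset.sdiff_union_inter e T
    rw [Finset.mem_filter, Finset.mem_filter]
    refine ⟨⟨gb_mono Finset.sdiff_subset he.1, Finset.sdiff_disjoint⟩, ?_⟩
    rw [h1]
    exact he.1
  · intro e he
    rw [Finset.mem_filter, Finset.mem_filter] at he
    rw [Finset.mem_filter]
    refine ⟨he.2, ?_⟩
    rw [Finset.union_inter_distrib_right, Finset.disjoint_iff_inter_eq_empty.1 he.1.2,
      Finset.union_empty, Finset.inter_eq_left.2 hw]
  · intro e he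
    rw [Finset.mem_filter] at he
    change w ∪ e \ T = e
    rw [← he.2, Finset.union_comm]
    exact Finset.sdiff_union_inter e T
  · intro e he
    rw [Finset.mem_filter, Finset.mem_filter] at he
    change (w ∪ e) \ T = e
    rw [Finset.union_sdiff_distrib, Finset.sdiff_eq_empty_iff_subset.2 hw, Finset.empty_union,
      Finset.sdiff_eq_self_of_disjoint he.1.2]
  · intro e he
    rw [Finset.mem_filter] at he
    change F e = F (w ∪ e \ T)
    rw [← he.2, Finset.union_comm, Finset.sdiff_union_inter e T]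

open Classical in
/-- the value of a summand -/
theorem val (h2 : KrSt) (O : Od Q n c B K) (al : Finset Q.P → O.A) (hal : O.Al al)
    (f : O.V →₀ ℕ) {w e g : Finset Q.P} (hw : w ⊆ O.bp f) (he : Q.Gd e)
    (hd : Disjoint e (O.bp f)) (hg : Q.Gd g) (hl : O.lab al g = f) (x y : ℝ) :
    (if Disjoint (Q.shd (w ∪ e)) (Q.shd g) then x * y * O.sgs (w ∪ e) (O.io (al g)) else 0) =
      x * (if Disjoint (Q.shd w) (Q.shd g) then y * O.sgs w (O.io (al g)) else 0) *
        ((O.kr e (al g) : ℤ) : ℝ) := by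
  have h1 : ((O.kr e (al g) : ℤ) : ℝ) =
      if Disjoint (Q.shd e) (Q.shd g) then O.sgs e (O.io (al g)) else 0 :=
    h2 S Q n c B K O al hal g hg e he (by rw [hl]; exact hd)
  have h3 : Q.shd (w ∪ e) = Q.shd w ∪ Q.shd e := Finset.image_union _ _
  have h4 : Disjoint w e := (Finset.disjoint_of_subset_right hw hd).symm
  rw [h1, h3, sgs_union O h4]
  by_cases hw1 : Disjoint (Q.shd w) (Q.shd g)
  · by_cases he1 : Disjoint (Q.shd e) (Q.shd g)
    · rw [if_pos (Finset.disjoint_union_left.2 ⟨hw1, he1⟩), if_pos hw1, if_pos he1]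
      ring
    · rw [if_neg (fun h => he1 (Finset.disjoint_union_left.1 h).2), if_neg he1, mul_zero]
  · rw [if_neg (fun h => hw1 (Finset.disjoint_union_left.1 h).1), if_neg hw1, mul_zero, zero_mul]

end BFaW

open BFaW in
/-- BF7 -/
theorem bfaSt (h1 : BKSt) (h2 : KrSt) (h3 : LbSt) : BFaSt := by
  classical
  intro S n B hn
  obtain ⟨C, hC, hBK⟩ := h1 S n B hn
  refine ⟨C, hC, fun Q c K O al hal f X Y hX hXY a b ha hb => ?_⟩
  have hX0 : 0 ≤ X := by linarith
  have hY0 : 0 ≤ Y := by linarith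
  have hR : 0 ≤ X ^ (1 - 1 / (24 * n : ℝ)) := Real.rpow_nonneg hX0 _
  rcases Finset.eq_empty_or_nonempty ((Q.gb Y).filter (fun g => O.lab al g = f)) with h0 | h0
  · rw [h0]
    simp only [Finset.sum_empty, Finset.sum_const_zero, abs_zero]
    positivity
  obtain ⟨g0, hg0⟩ := h0
  rw [Finset.mem_filter, Q.mem_gb] at hg0
  have hc : 2 ^ (O.bp f).card ≤ c ^ 2 := by
    have h := (h3 S Q n c B K O al hal g0 hg0.1.1).2.2.1
    rw [hg0.2] at h
    exact h
  -- the partition
  have hpart : ∑ e ∈ Q.gb X, ∑ g ∈ (Q.gb Y).filter (fun g => O.lab al g = f),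
      (if Disjoint (Q.shd e) (Q.shd g) then a e * b g * O.sgs e (O.io (al g)) else 0) =
      ∑ w ∈ (O.bp f).powerset, ∑ e ∈ (Q.gb X).filter (fun e => Disjoint e (O.bp f)),
        ∑ g ∈ (Q.gb Y).filter (fun g => O.lab al g = f),
          (if w ∪ e ∈ Q.gb X then a (w ∪ e) else 0) *
            (if Disjoint (Q.shd w) (Q.shd g) then b g * O.sgs w (O.io (al g)) else 0) *
            ((O.kr e (al g) : ℤ) : ℝ) := by
    rw [← Finset.sum_fiberwise_of_maps_to (s := Q.gb X) (t := (O.bp f).powerset)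
      (g := fun e => e ∩ O.bp f)
      (fun e _ => Finset.mem_powerset.2 Finset.inter_subset_right)]
    refine Finset.sum_congr rfl fun w hw => ?_
    rw [Finset.mem_powerset] at hw
    rw [part X (O.bp f) w hw]
    refine Finset.sum_congr rfl fun e he => ?_
    rw [Finset.mem_filter, Q.mem_gb] at he
    split_ifs with h
    · refine Finset.sum_congr rfl fun g hg => ?_
      rw [Finset.mem_filter, Q.mem_gb] at hg
      exact val h2 O al hal f hw he.1.1 he.2 hg.1.1 hg.2 _ _
    · symm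
      refine Finset.sum_eq_zero fun g _ => ?_
      rw [zero_mul, zero_mul]
  rw [hpart]
  refine (Finset.abs_sum_le_sum_abs _ _).trans ?_
  have hw : ∀ w ∈ (O.bp f).powerset,
      |∑ e ∈ (Q.gb X).filter (fun e => Disjoint e (O.bp f)),
        ∑ g ∈ (Q.gb Y).filter (fun g => O.lab al g = f),
          (if w ∪ e ∈ Q.gb X then a (w ∪ e) else 0) *
            (if Disjoint (Q.shd w) (Q.shd g) then b g * O.sgs w (O.io (al g)) else 0) *
            ((O.kr e (al g) : ℤ) : ℝ)| ≤
        C * (c : ℝ) ^ (n + 1) * Y * X ^ (1 - 1 / (24 * n : ℝ)) := by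
    intro w _
    refine hBK Q c K O al hal f X Y hX hXY (fun e => if w ∪ e ∈ Q.gb X then a (w ∪ e) else 0)
      (fun g => if Disjoint (Q.shd w) (Q.shd g) then b g * O.sgs w (O.io (al g)) else 0) ?_ ?_
    · intro e
      beta_reduce
      split_ifs
      · exact ha _
      · rw [abs_zero]
        exact zero_le_one
    · intro g
      beta_reduce
      split_ifs
      · rw [abs_mul, abs_sgs, mul_one]
        exact hb g
      · rw [abs_zero]
        exact zero_le_one
  refine (Finset.sum_le_sum hw).trans ?_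
  rw [Finset.sum_const, Finset.card_powerset, nsmul_eq_mul]
  have hc2 : ((2 ^ (O.bp f).card : ℕ) : ℝ) ≤ (c : ℝ) ^ 2 := by
    exact_mod_cast hc
  calc ((2 ^ (O.bp f).card : ℕ) : ℝ) *
        (C * (c : ℝ) ^ (n + 1) * Y * X ^ (1 - 1 / (24 * n : ℝ))) ≤
      (c : ℝ) ^ 2 * (C * (c : ℝ) ^ (n + 1) * Y * X ^ (1 - 1 / (24 * n : ℝ))) :=
        mul_le_mul_of_nonneg_right hc2 (by positivity)
    _ = C * (c : ℝ) ^ (n + 3) * Y * X ^ (1 - 1 / (24 * n : ℝ)) := by ring

end Pool.Agent.H32.MQ
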