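import Pool.Agent.H32.MQ.BFStm

/-!
# Malle's conjecture for 8T28 and 8T29, block BF: the symbols at the longer variable
(row BF9, helper35)
-/

set_option autoImplicit false

open scoped BigOperators

namespace Pool.Agent.H32.MQ

open Pool.Agent.H98.MK (sg)
open Pool.Agent.H98.MF
open Pool.Agent.H32.MA.AB (Lat Ker cube bxA)

theorem bfb_ind {p : Prop} [Decidable p] {x : ℝ} (hx : |x| ≤ 1) : |if p then x else 0| ≤ 1 := by
  split_ifs
  · exact hx
  · rw [abs_zero]
    exact zero_le_one

theorem bfb_mul {x y : ℝ} (hx : |x| ≤ 1) (hy : |y| ≤ 1) : |x * y| ≤ 1 := by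
  rw [abs_mul]
  exact mul_le_one₀ hx (abs_nonneg _) hy

/-- splitting a double sum by labels -/
theorem bfb_split {α β l : Type} [Fintype l] [DecidableEq l] (s : Finset α) (t : Finset β)
    (P : α → Prop) [DecidablePred P] (u : α → l) (v : β → l) (w : l → l → ℝ) (F : α → β → ℝ) :
    ∑ g ∈ s.filter P, ∑ e ∈ t, w (u g) (v e) * F g e =
      ∑ i : l, ∑ j : l, w i j * ∑ g ∈ s, ∑ e ∈ t,
        (if P g ∧ u g = i ∧ v e = j then F g e else 0) := by
  have h1 : ∀ g ∈ s, (if P g then ∑ e ∈ t, w (u g) (v e) * F g e else 0) =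
      ∑ i : l, ∑ j : l, ∑ e ∈ t, w i j * (if P g ∧ u g = i ∧ v e = j then F g e else 0) := by
    intro g _
    by_cases hP : P g
    · rw [if_pos hP]
      rw [Finset.sum_eq_single (u g)]
      · rw [Finset.sum_comm]
        refine Finset.sum_congr rfl fun e _ => ?_
        rw [Finset.sum_eq_single (v e)]
        · rw [if_pos ⟨hP, rfl, rfl⟩]
        · intro j _ hj
          rw [if_neg (fun h => hj h.2.2.symm), mul_zero]
        · intro h
          exact absurd (Finset.mem_univ _) h
      · intro i _ hi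
        refine Finset.sum_eq_zero fun j _ => Finset.sum_eq_zero fun e _ => ?_
        rw [if_neg (fun h => hi h.2.1.symm), mul_zero]
      · intro h
        exact absurd (Finset.mem_univ _) h
    · rw [if_neg hP]
      symm
      refine Finset.sum_eq_zero fun i _ => Finset.sum_eq_zero fun j _ =>
        Finset.sum_eq_zero fun e _ => ?_
      rw [if_neg (fun h => hP h.1), mul_zero]
  rw [Finset.sum_filter, Finset.sum_congr rfl h1, Finset.sum_comm]
  refine Finset.sum_congr rfl fun i _ => ?_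
  rw [Finset.sum_comm]
  refine Finset.sum_congr rfl fun j _ => ?_
  rw [Finset.mul_sum]
  refine Finset.sum_congr rfl fun g _ => ?_
  rw [Finset.mul_sum]

open Classical in
theorem bfbSt (h1 : BFaSt) (h2 : RcSt) (h3 : LbSt) : BFbSt := by
  intro S n B hn
  obtain ⟨C, hC, h⟩ := h1 S n B hn
  refine ⟨C, hC, fun Q c K O al hAl f X Y hX hXY a b ha hb => ?_⟩
  obtain ⟨Φ, hΦ, hΦ2⟩ := O.cntV
  have hlab : ∀ e ∈ Q.gb Y, O.lab al e ∈ Φ := fun e he =>
    hΦ2 _ (h3 S Q n c B K O al hAl e (Q.mem_gb.1 he).1).2.1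
  obtain ⟨T, hT⟩ : ∃ T : ℝ, T = C * (c : ℝ) ^ (n + 3) * Y * X ^ (1 - 1 / (24 * n : ℝ)) :=
    ⟨_, rfl⟩
  have hX0 : 0 ≤ X := by linarith
  have hT0 : 0 ≤ T := by
    rw [hT]
    have hY0 : 0 ≤ Y := by linarith
    have := Real.rpow_nonneg hX0 (1 - 1 / (24 * n : ℝ))
    positivity
  have hK : (Fintype.card O.Lm : ℝ) ≤ K := by exact_mod_cast O.card_Lm
  have hΦK : (Φ.card : ℝ) ≤ K := by exact_mod_cast hΦ
  have key : ∀ f' ∈ Φ, |∑ g ∈ (Q.gb X).filter (fun g => O.lab al g = f),
      ∑ e ∈ (Q.gb Y).filter (fun e => O.lab al e = f'),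
        (if Disjoint (Q.shd e) (Q.shd g) then a g * b e * O.sgs e (O.io (al g)) else 0)| ≤
      (K : ℝ) * ((K : ℝ) * T) := by
    intro f' _
    obtain ⟨a1, b1, w, ha1, hb1, hw, hR⟩ := h2 S Q n c B K O al hAl f f'
    have e1 : ∑ g ∈ (Q.gb X).filter (fun g => O.lab al g = f),
        ∑ e ∈ (Q.gb Y).filter (fun e => O.lab al e = f'),
          (if Disjoint (Q.shd e) (Q.shd g) then a g * b e * O.sgs e (O.io (al g)) else 0) =
        ∑ g ∈ (Q.gb X).filter (fun g => O.lab al g = f),
        ∑ e ∈ (Q.gb Y).filter (fun e => O.lab al e = f'),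
          w (O.loc (O.io (al g))) (O.loc (O.io (al e))) *
          (if Disjoint (Q.shd g) (Q.shd e) then
            (a g * a1 g) * (b e * b1 e) * O.sgs g (O.io (al e)) else 0) := by
      refine Finset.sum_congr rfl fun g hg => Finset.sum_congr rfl fun e he => ?_
      rw [Finset.mem_filter, Q.mem_gb] at hg he
      by_cases hd : Disjoint (Q.shd e) (Q.shd g)
      · rw [if_pos hd, if_pos hd.symm, hR g e hg.1.1 he.1.1 hg.2 he.2 hd]
        ring
      · rw [if_neg hd, if_neg (fun h => hd h.symm), mul_zero]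
    have e3 := bfb_split (Q.gb X) ((Q.gb Y).filter (fun e => O.lab al e = f'))
      (fun g => O.lab al g = f) (fun g => O.loc (O.io (al g))) (fun e => O.loc (O.io (al e))) w
      (fun g e => if Disjoint (Q.shd g) (Q.shd e) then
            (a g * a1 g) * (b e * b1 e) * O.sgs g (O.io (al e)) else 0)
    rw [e1, e3]
    have hb1' : ∀ i j : O.Lm, |∑ g ∈ Q.gb X,
        ∑ e ∈ (Q.gb Y).filter (fun e => O.lab al e = f'),
        (if O.lab al g = f ∧ O.loc (O.io (al g)) = i ∧ O.loc (O.io (al e)) = j then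
          (if Disjoint (Q.shd g) (Q.shd e) then
            (a g * a1 g) * (b e * b1 e) * O.sgs g (O.io (al e)) else 0) else 0)| ≤ T := by
      intro i j
      have h4 := h Q c K O al hAl f' X Y hX hXY
        (fun g => if O.lab al g = f ∧ O.loc (O.io (al g)) = i then a g * a1 g else 0)
        (fun e => if O.loc (O.io (al e)) = j then b e * b1 e else 0)
        (fun g => bfb_ind (bfb_mul (ha g) (ha1 g))) (fun e => bfb_ind (bfb_mul (hb e) (hb1 e)))
      rw [hT]
      have e2 : ∑ g ∈ Q.gb X,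
          ∑ e ∈ (Q.gb Y).filter (fun e => O.lab al e = f'),
          (if O.lab al g = f ∧ O.loc (O.io (al g)) = i ∧ O.loc (O.io (al e)) = j then
            (if Disjoint (Q.shd g) (Q.shd e) then
              (a g * a1 g) * (b e * b1 e) * O.sgs g (O.io (al e)) else 0) else 0) =
          ∑ g ∈ Q.gb X, ∑ e ∈ (Q.gb Y).filter (fun e => O.lab al e = f'),
            if Disjoint (Q.shd g) (Q.shd e) then
              (if O.lab al g = f ∧ O.loc (O.io (al g)) = i then a g * a1 g else 0) *
              (if O.loc (O.io (al e)) = j then b e * b1 e else 0) *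
              O.sgs g (O.io (al e)) else 0 := by
        refine Finset.sum_congr rfl fun g _ => Finset.sum_congr rfl fun e _ => ?_
        by_cases hd : Disjoint (Q.shd g) (Q.shd e)
        · rw [if_pos hd, if_pos hd]
          by_cases hp : O.lab al g = f ∧ O.loc (O.io (al g)) = i
          · by_cases hq : O.loc (O.io (al e)) = j
            · rw [if_pos ⟨hp.1, hp.2, hq⟩, if_pos hp, if_pos hq]
            · rw [if_neg (fun h => hq h.2.2), if_neg hq, mul_zero, zero_mul]
          · rw [if_neg (fun h => hp ⟨h.1, h.2.1⟩), if_neg hp, zero_mul, zero_mul]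
        · rw [if_neg hd, if_neg hd, ite_self]
      rw [e2]
      exact h4
    refine (Finset.abs_sum_le_sum_abs _ _).trans ?_
    have h5 : ∀ i : O.Lm, |∑ j : O.Lm, w i j * ∑ g ∈ Q.gb X,
        ∑ e ∈ (Q.gb Y).filter (fun e => O.lab al e = f'),
        (if O.lab al g = f ∧ O.loc (O.io (al g)) = i ∧ O.loc (O.io (al e)) = j then
          (if Disjoint (Q.shd g) (Q.shd e) then
            (a g * a1 g) * (b e * b1 e) * O.sgs g (O.io (al e)) else 0) else 0)| ≤
        (K : ℝ) * T := by
      intro i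
      refine (Finset.abs_sum_le_sum_abs _ _).trans ?_
      have h6 : ∀ j ∈ (Finset.univ : Finset O.Lm), |w i j * ∑ g ∈ Q.gb X,
          ∑ e ∈ (Q.gb Y).filter (fun e => O.lab al e = f'),
          (if O.lab al g = f ∧ O.loc (O.io (al g)) = i ∧ O.loc (O.io (al e)) = j then
            (if Disjoint (Q.shd g) (Q.shd e) then
              (a g * a1 g) * (b e * b1 e) * O.sgs g (O.io (al e)) else 0) else 0)| ≤ T := by
        intro j _
        rw [abs_mul]
        calc _ ≤ 1 * T := mul_le_mul (hw i j) (hb1' i j) (abs_nonneg _) zero_le_one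
          _ = T := one_mul T
      refine (Finset.sum_le_sum h6).trans ?_
      rw [Finset.sum_const, nsmul_eq_mul, Finset.card_univ]
      exact mul_le_mul_of_nonneg_right hK hT0
    refine (Finset.sum_le_sum fun i _ => h5 i).trans ?_
    rw [Finset.sum_const, nsmul_eq_mul, Finset.card_univ]
    exact mul_le_mul_of_nonneg_right hK (mul_nonneg (Nat.cast_nonneg _) hT0)
  have e0 : ∀ g, ∑ e ∈ Q.gb Y,
      (if Disjoint (Q.shd e) (Q.shd g) then a g * b e * O.sgs e (O.io (al g)) else 0) =
      ∑ f' ∈ Φ, ∑ e ∈ (Q.gb Y).filter (fun e => O.lab al e = f'),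
        (if Disjoint (Q.shd e) (Q.shd g) then a g * b e * O.sgs e (O.io (al g)) else 0) :=
    fun g => (Finset.sum_fiberwise_of_maps_to hlab _).symm
  rw [Finset.sum_congr rfl fun g _ => e0 g, Finset.sum_comm]
  refine (Finset.abs_sum_le_sum_abs _ _).trans ?_
  refine (Finset.sum_le_sum key).trans ?_
  rw [Finset.sum_const, nsmul_eq_mul]
  have h7 : (Φ.card : ℝ) * ((K : ℝ) * ((K : ℝ) * T)) ≤ (K : ℝ) * ((K : ℝ) * ((K : ℝ) * T)) := by
    refine mul_le_mul_of_nonneg_right hΦK ?_
    positivity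
  refine h7.trans (le_of_eq ?_)
  rw [hT]
  ring

end Pool.Agent.H32.MQ
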