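import Pool.Agent.H32.MQ.BFStm

/-!
# MQ, row BF11: assembly of the abstract part of the bilinear estimate
-/

set_option autoImplicit false

open scoped BigOperators

namespace Pool.Agent.H32.MQ

open Pool.Agent.H98.MK (sg)
open Pool.Agent.H98.MF
open Pool.Agent.H32.MA.AB (Lat Ker cube bxA)

namespace Od

variable {S : Sys} {Q : Qd S} {n c B K : ℕ} (O : Od Q n c B K)

theorem abs_sgs (e : Finset Q.P) (x : O.U) : |O.sgs e x| = 1 := by
  unfold sgs
  exact abs_sgr _

theorem sgs_add (e : Finset Q.P) (x y : O.U) : O.sgs e (x + y) = O.sgs e x * O.sgs e y := by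
  unfold sgs
  have h1 : ∑ p ∈ e, O.chi (O.em p) (x + y) =
      ∑ p ∈ e, O.chi (O.em p) x + ∑ p ∈ e, O.chi (O.em p) y := by
    rw [← Finset.sum_add_distrib]
    exact Finset.sum_congr rfl fun p _ => map_add _ _ _
  rw [h1, sg_add, Int.cast_mul]

end Od

open Classical in
/-- one label -/
theorem bf_label (h2 : BFaSt) (h3 : BFbSt) (h4 : RepSt) (S : Sys) (n B : ℕ) (hn : 1 ≤ n) :
    ∃ C : ℝ, 0 < C ∧ ∀ (Q : Qd S) (c K : ℕ), 1 ≤ c → 1 ≤ K → ∀ (O : Od Q n c B K)
      (al : Finset Q.P → O.A), O.Al al → ∀ (f : O.V →₀ ℕ) (h : Finset Q.P)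
      (a : Finset Q.P → Q.G → ℝ) (b : Finset Q.P → ℝ),
      (∀ g γ, |a g γ| ≤ 1) → (∀ e, |b e| ≤ 1) → ∀ X Y : ℝ, 1 ≤ X → 1 ≤ Y →
      |∑ g ∈ (Q.gb X).filter (fun g => O.lab al g = f), ∑ e ∈ Q.gb Y,
        (if Disjoint (Q.shd g) (Q.shd h) ∧ Disjoint (Q.shd e) (Q.shd g ∪ Q.shd h)
          then ∑ γ ∈ Q.B (g ∪ h), a g γ * b e * ((sg (∑ p ∈ e, Q.sy γ p) : ℤ) : ℝ) else 0)| ≤
        4 ^ (S.m + Q.M.card) * (C * (K : ℝ) ^ 3 * (c : ℝ) ^ (n + 3) * (X * Y) *
          min X Y ^ (-(1 / (24 * n : ℝ)))) := by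
  obtain ⟨Ca, hCa, ha2⟩ := h2 S n B hn
  obtain ⟨Cb, hCb, hb3⟩ := h3 S n B hn
  refine ⟨Ca + Cb, by positivity, ?_⟩
  intro Q c K hc hK O al hal f h a b ha hb X Y hX hY
  obtain ⟨Yf, hYc, hYf⟩ := h4 S Q n c B K O al hal h f
  have hX0 : 0 < X := by linarith
  have hY0 : 0 < Y := by linarith
  have hc1 : (1 : ℝ) ≤ (c : ℝ) ^ (n + 3) := one_le_pow₀ (by exact_mod_cast hc)
  have hK1 : (1 : ℝ) ≤ (K : ℝ) ^ 3 := one_le_pow₀ (by exact_mod_cast hK)
  set a' : O.U → Finset Q.P → ℝ := fun y g =>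
    if Disjoint (Q.shd g) (Q.shd h) then a g (O.cl (O.io (al g) + y)) else 0 with ha'
  set b' : O.U → Finset Q.P → ℝ := fun y e =>
    if Disjoint (Q.shd e) (Q.shd h) then b e * O.sgs e y else 0 with hb'
  have ha1 : ∀ y g, |a' y g| ≤ 1 := by
    intro y g
    simp only [ha']
    split_ifs
    · exact ha _ _
    · simp
  have hb1 : ∀ y e, |b' y e| ≤ 1 := by
    intro y e
    simp only [hb']
    split_ifs
    · rw [abs_mul, O.abs_sgs, mul_one]
      exact hb e
    · simp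
  -- the identity
  have hid : ∀ g ∈ (Q.gb X).filter (fun g => O.lab al g = f), ∀ e ∈ Q.gb Y,
      (if Disjoint (Q.shd g) (Q.shd h) ∧ Disjoint (Q.shd e) (Q.shd g ∪ Q.shd h)
          then ∑ γ ∈ Q.B (g ∪ h), a g γ * b e * ((sg (∑ p ∈ e, Q.sy γ p) : ℤ) : ℝ) else 0) =
      ∑ y ∈ Yf, if Disjoint (Q.shd e) (Q.shd g) then
        a' y g * b' y e * O.sgs e (O.io (al g)) else 0 := by
    intro g hg e _
    obtain ⟨hg1, hg2⟩ := Finset.mem_filter.1 hg
    have hGd : Q.Gd g := (Q.mem_gb.1 hg1).1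
    by_cases hd : Disjoint (Q.shd g) (Q.shd h)
    · by_cases he1 : Disjoint (Q.shd e) (Q.shd g)
      · by_cases he2 : Disjoint (Q.shd e) (Q.shd h)
        · have he : Disjoint (Q.shd e) (Q.shd g ∪ Q.shd h) :=
            Finset.disjoint_union_right.2 ⟨he1, he2⟩
          rw [if_pos ⟨hd, he⟩]
          obtain ⟨hB, hsy⟩ := hYf g hGd hg2 hd
          rw [hB (fun γ => a g γ * b e * ((sg (∑ p ∈ e, Q.sy γ p) : ℤ) : ℝ))]
          apply Finset.sum_congr rfl
          intro y hy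
          rw [if_pos he1]
          simp only [ha', hb', if_pos hd, if_pos he2]
          have hs : ∑ p ∈ e, Q.sy (O.cl (O.io (al g) + y)) p =
              ∑ p ∈ e, O.chi (O.em p) (O.io (al g) + y) := by
            apply Finset.sum_congr rfl
            intro p hp
            have hp' : p ∉ g ∪ h := by
              intro hp2
              have hp3 : Q.sh p ∈ Q.shd e := Finset.mem_image_of_mem _ hp
              rcases Finset.mem_union.1 hp2 with hp4 | hp4
              · exact Finset.disjoint_left.1 he1 hp3 (Finset.mem_image_of_mem _ hp4)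
              · exact Finset.disjoint_left.1 he2 hp3 (Finset.mem_image_of_mem _ hp4)
            rw [hsy y hy p hp', map_add]
          rw [hs]
          have hs2 : ((sg (∑ p ∈ e, O.chi (O.em p) (O.io (al g) + y)) : ℤ) : ℝ) =
              O.sgs e (O.io (al g) + y) := rfl
          rw [hs2, O.sgs_add]
          ring
        · rw [if_neg (fun h5 => he2 (Finset.disjoint_union_right.1 h5.2).2)]
          symm
          apply Finset.sum_eq_zero
          intro y _
          rw [if_pos he1]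
          simp only [hb', if_neg he2, mul_zero, zero_mul]
      · rw [if_neg (fun h5 => he1 (Finset.disjoint_union_right.1 h5.2).1)]
        symm
        apply Finset.sum_eq_zero
        intro y _
        rw [if_neg he1]
    · rw [if_neg (fun h5 => hd h5.1)]
      symm
      apply Finset.sum_eq_zero
      intro y _
      simp only [ha', if_neg hd, zero_mul, ite_self]
  have hswap : ∑ g ∈ (Q.gb X).filter (fun g => O.lab al g = f), ∑ e ∈ Q.gb Y,
        (if Disjoint (Q.shd g) (Q.shd h) ∧ Disjoint (Q.shd e) (Q.shd g ∪ Q.shd h)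
          then ∑ γ ∈ Q.B (g ∪ h), a g γ * b e * ((sg (∑ p ∈ e, Q.sy γ p) : ℤ) : ℝ) else 0) =
      ∑ y ∈ Yf, ∑ g ∈ (Q.gb X).filter (fun g => O.lab al g = f), ∑ e ∈ Q.gb Y,
        if Disjoint (Q.shd e) (Q.shd g) then
          a' y g * b' y e * O.sgs e (O.io (al g)) else 0 := by
    rw [Finset.sum_comm (s := Yf)]
    apply Finset.sum_congr rfl
    intro g hg
    rw [Finset.sum_comm (s := Yf)]
    apply Finset.sum_congr rfl
    intro e he
    exact hid g hg e he
  rw [hswap]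
  -- the bound for one representative
  have hone : ∀ y ∈ Yf, |∑ g ∈ (Q.gb X).filter (fun g => O.lab al g = f), ∑ e ∈ Q.gb Y,
        if Disjoint (Q.shd e) (Q.shd g) then
          a' y g * b' y e * O.sgs e (O.io (al g)) else 0| ≤
      (Ca + Cb) * (K : ℝ) ^ 3 * (c : ℝ) ^ (n + 3) * (X * Y) *
          min X Y ^ (-(1 / (24 * n : ℝ))) := by
    intro y _
    rcases le_total X Y with hXY | hXY
    · have h6 := hb3 Q c K O al hal f X Y hX hXY (a' y) (b' y) (ha1 y) (hb1 y)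
      refine h6.trans ?_
      rw [min_eq_left hXY]
      have h7 : X ^ (1 - 1 / (24 * n : ℝ)) = X * X ^ (-(1 / (24 * n : ℝ))) := by
        rw [sub_eq_add_neg, Real.rpow_add hX0, Real.rpow_one]
      rw [h7]
      have h8 : 0 ≤ (K : ℝ) ^ 3 * (c : ℝ) ^ (n + 3) * (X * Y) * X ^ (-(1 / (24 * n : ℝ))) := by
        positivity
      nlinarith
    · have h6 := ha2 Q c K O al hal f Y X hY hXY (b' y) (a' y) (hb1 y) (ha1 y)
      have h9 : ∑ g ∈ (Q.gb X).filter (fun g => O.lab al g = f), ∑ e ∈ Q.gb Y,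
          (if Disjoint (Q.shd e) (Q.shd g) then
            a' y g * b' y e * O.sgs e (O.io (al g)) else 0) =
          ∑ e ∈ Q.gb Y, ∑ g ∈ (Q.gb X).filter (fun g => O.lab al g = f),
            if Disjoint (Q.shd e) (Q.shd g) then
              b' y e * a' y g * O.sgs e (O.io (al g)) else 0 := by
        rw [Finset.sum_comm]
        apply Finset.sum_congr rfl
        intro e _
        apply Finset.sum_congr rfl
        intro g _
        rw [mul_comm (a' y g) (b' y e)]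
      rw [h9]
      refine h6.trans ?_
      rw [min_eq_right hXY]
      have h7 : Y ^ (1 - 1 / (24 * n : ℝ)) = Y * Y ^ (-(1 / (24 * n : ℝ))) := by
        rw [sub_eq_add_neg, Real.rpow_add hY0, Real.rpow_one]
      rw [h7]
      have h8 : 0 ≤ (c : ℝ) ^ (n + 3) * (X * Y) * Y ^ (-(1 / (24 * n : ℝ))) := by
        positivity
      have h10 : Ca ≤ (Ca + Cb) * (K : ℝ) ^ 3 := by nlinarith
      calc Ca * (c : ℝ) ^ (n + 3) * X * (Y * Y ^ (-(1 / (24 * n : ℝ))))
          = Ca * ((c : ℝ) ^ (n + 3) * (X * Y) * Y ^ (-(1 / (24 * n : ℝ)))) := by ring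
        _ ≤ (Ca + Cb) * (K : ℝ) ^ 3 *
            ((c : ℝ) ^ (n + 3) * (X * Y) * Y ^ (-(1 / (24 * n : ℝ)))) :=
            mul_le_mul_of_nonneg_right h10 h8
        _ = _ := by ring
  refine (Finset.abs_sum_le_sum_abs _ _).trans ((Finset.sum_le_sum hone).trans ?_)
  rw [Finset.sum_const, nsmul_eq_mul]
  apply mul_le_mul_of_nonneg_right
  · exact_mod_cast hYc
  · have : 0 < min X Y := lt_min hX0 hY0
    positivity

theorem bfSt (h1 : AlSt) (h2 : BFaSt) (h3 : BFbSt) (h4 : RepSt) (h5 : LbSt) : BFSt := by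
  classical
  intro S n B hn
  obtain ⟨C, hC, hmain⟩ := bf_label h2 h3 h4 S n B hn
  refine ⟨C, hC, ?_⟩
  intro Q c K hc hK O
  obtain ⟨al, hal⟩ := h1 S Q n c B K O
  intro h _ a b ha hb X Y hX hY
  obtain ⟨Φ, hΦc, hΦ⟩ := O.cntV
  have hmaps : ∀ g ∈ Q.gb X, O.lab al g ∈ Φ := by
    intro g hg
    have hGd : Q.Gd g := (Q.mem_gb.1 hg).1
    exact hΦ _ (h5 S Q n c B K O al hal g hGd).2.1
  rw [← Finset.sum_fiberwise_of_maps_to hmaps]
  refine (Finset.abs_sum_le_sum_abs _ _).trans ?_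
  have hone := fun f (_ : f ∈ Φ) => hmain Q c K hc hK O al hal f h a b ha hb X Y hX hY
  refine (Finset.sum_le_sum hone).trans ?_
  rw [Finset.sum_const, nsmul_eq_mul, Real.rpow_zero, mul_one]
  have h0 : 0 < min X Y := lt_min (by linarith) (by linarith)
  have h6 : (0 : ℝ) ≤ 4 ^ (S.m + Q.M.card) * (C * (K : ℝ) ^ 3 * (c : ℝ) ^ (n + 3) * (X * Y) *
      min X Y ^ (-(1 / (24 * n : ℝ)))) := by positivity
  have h7 : (Φ.card : ℝ) ≤ K := by exact_mod_cast hΦc
  refine (mul_le_mul_of_nonneg_right h7 h6).trans (le_of_eq ?_)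
  ring

end Pool.Agent.H32.MQ
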