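import Pool.Agent.H32.MQ.BFStm
import Pool.Agent.H32.MA.AbsL

/-!
# Malle's conjecture for 8T28 and 8T29, block BF: orthogonality of the kernels
-/

set_option autoImplicit false

open scoped BigOperators

namespace Pool.Agent.H32.MQ

open Pool.Agent.H98.MK (sg)
open Pool.Agent.H98.MF
open Pool.Agent.H32.MA.AB (Lat Ker cube bxA orth_of_twist)

section

variable {S : Sys} {Q : Qd S} {n c B K : ℕ} (O : Od Q n c B K)

theorem bk_zero (a : Q.P) : O.rs a 0 = 0 := (O.rs_zero a 0).2 (Or.inl rfl)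

theorem bk_mul (a : Q.P) (x y : O.A) : O.rs a (x * y) = O.rs a x * O.rs a y := by
  by_cases hx : x = 0
  · rw [hx, zero_mul, bk_zero, zero_mul]
  by_cases hy : y = 0
  · rw [hy, mul_zero, bk_zero, mul_zero]
  have hxy : x * y ≠ 0 := mul_ne_zero hx hy
  have h1 : O.ord (O.em a) (O.io (x * y)) =
      O.ord (O.em a) (O.io x) + O.ord (O.em a) (O.io y) := by
    rw [O.io_mul x y hx hy, map_add]
  have h2 := O.ord_nn x hx (O.em a)
  have h3 := O.ord_nn y hy (O.em a)
  by_cases ox : O.ord (O.em a) (O.io x) = 0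
  · by_cases oy : O.ord (O.em a) (O.io y) = 0
    · rw [O.rs_eq a x hx ox, O.rs_eq a y hy oy, O.rs_eq a (x * y) hxy (by rw [h1, ox, oy, add_zero]),
        O.io_mul x y hx hy, map_add, sg_add]
    · rw [(O.rs_zero a y).2 (Or.inr oy), mul_zero]
      exact (O.rs_zero a (x * y)).2 (Or.inr (by omega))
  · rw [(O.rs_zero a x).2 (Or.inr ox), zero_mul]
    exact (O.rs_zero a (x * y)).2 (Or.inr (by omega))

theorem bk_io_one : O.io 1 = 0 := by
  have h1 := O.io_mul 1 1 one_ne_zero one_ne_zero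
  rw [mul_one] at h1
  exact left_eq_add.1 h1

theorem bk_one (a : Q.P) : O.rs a 1 = 1 := by
  rw [O.rs_eq a 1 one_ne_zero (by rw [bk_io_one, map_zero]), bk_io_one, map_zero]
  rfl

theorem bk_val (a : Q.P) (x : O.A) : O.rs a x = 0 ∨ O.rs a x = 1 ∨ O.rs a x = -1 := by
  by_cases h : O.rs a x = 0
  · exact Or.inl h
  · have h1 := (O.rs_zero a x).not.1 h
    push Not at h1
    rw [O.rs_eq a x h1.1 h1.2]
    rcases zm2 (O.chi (O.em a) (O.io x)) with h2 | h2
    · rw [h2]
      exact Or.inr (Or.inl sg_zero)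
    · rw [h2]
      exact Or.inr (Or.inr sg_one)

theorem bk_kr_mul (e : Finset Q.P) (x y : O.A) : O.kr e (x * y) = O.kr e x * O.kr e y := by
  unfold Od.kr
  rw [← Finset.prod_mul_distrib]
  refine Finset.prod_congr rfl fun a _ => ?_
  rw [bk_mul, bk_mul]
  ring

theorem bk_kr_one (e : Finset Q.P) : O.kr e 1 = 1 := by
  unfold Od.kr
  refine Finset.prod_eq_one fun a _ => ?_
  rw [bk_one, bk_one]
  norm_num

theorem bk_kr_abs (e : Finset Q.P) (x : O.A) : |O.kr e x| ≤ 1 := by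
  unfold Od.kr
  rw [Finset.abs_prod]
  refine Finset.prod_le_one (fun a _ => abs_nonneg _) fun a _ => ?_
  rcases bk_val O a x with h | h | h <;> rcases bk_val O (Q.cj a) x with h' | h' | h' <;>
    rw [h, h'] <;> norm_num

theorem bk_dvd {e : Finset Q.P} {a : Q.P} (ha : a ∈ e) : S.N (Q.sh a) ∣ Q.nq e := by
  classical
  unfold Qd.nq Pre.nm
  refine Finset.dvd_prod_of_mem _ ?_
  unfold Qd.shd
  exact Finset.mem_image_of_mem _ ha

theorem bk_kr_per (e : Finset Q.P) (x y : O.A) : O.kr e (x + Q.nq e * y) = O.kr e x := by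
  unfold Od.kr
  refine Finset.prod_congr rfl fun a ha => ?_
  obtain ⟨k, hk⟩ := bk_dvd ha
  have h1 : x + ((Q.nq e : ℕ) : O.A) * y = x + (S.N (Q.sh a) : O.A) * ((k : O.A) * y) := by
    rw [hk]
    push_cast
    ring
  have h2 : x + ((Q.nq e : ℕ) : O.A) * y = x + (S.N (Q.sh (Q.cj a)) : O.A) * ((k : O.A) * y) := by
    rw [Q.sh_cj, h1]
  have h3 : O.rs a (x + ((Q.nq e : ℕ) : O.A) * y) = O.rs a x := by
    rw [h1]
    exact O.rs_per a x _
  have h4 : O.rs (Q.cj a) (x + ((Q.nq e : ℕ) : O.A) * y) = O.rs (Q.cj a) x := by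
    rw [h2]
    exact O.rs_per (Q.cj a) x _
  rw [h3, h4]

theorem bk_pos (e : Finset Q.P) : 1 ≤ Q.nq e := S.one_le_nm _

theorem bk_orth {e e' : Finset Q.P} {a : Q.P} (ha : a ∈ e) (ha' : a ∉ e') (v : Fin n → ℤ) :
    ∑ x ∈ cube O.L v (Q.nq e * Q.nq e'), O.kr e x * O.kr e' x = 0 := by
  classical
  have hm : 1 ≤ Q.nq e * Q.nq e' := Nat.mul_pos (bk_pos e) (bk_pos e')
  obtain ⟨u, hu1, hu2, hu3⟩ := O.tw (e ∪ e' ∪ (e.image Q.cj ∪ e'.image Q.cj)) a
    (Finset.mem_union_left _ (Finset.mem_union_left _ ha)) (Q.nq e * Q.nq e') hm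
  have hsq : ∀ b, b ∈ e ∪ e' → O.rs (Q.cj b) u ^ 2 = 1 := by
    intro b hb
    by_cases hba : Q.cj b = a
    · rw [hba, hu1]
      norm_num
    · rw [hu2 (Q.cj b) ?_ hba]
      · norm_num
      · refine Finset.mem_union_right _ ?_
        rcases Finset.mem_union.1 hb with h | h
        · exact Finset.mem_union_left _ (Finset.mem_image_of_mem _ h)
        · exact Finset.mem_union_right _ (Finset.mem_image_of_mem _ h)
  have hK : O.kr e u = -1 := by
    unfold Od.kr
    rw [Finset.prod_eq_single_of_mem a ha]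
    · rw [hu1, hsq a (Finset.mem_union_left _ ha)]
      norm_num
    · intro b hb hba
      rw [hu2 b (Finset.mem_union_left _ (Finset.mem_union_left _ hb)) hba,
        hsq b (Finset.mem_union_left _ hb)]
      norm_num
  have hK' : O.kr e' u = 1 := by
    unfold Od.kr
    refine Finset.prod_eq_one fun b hb => ?_
    have hba : b ≠ a := fun h => ha' (h ▸ hb)
    rw [hu2 b (Finset.mem_union_left _ (Finset.mem_union_right _ hb)) hba,
      hsq b (Finset.mem_union_right _ hb)]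
    norm_num
  refine orth_of_twist O.L (fun x => O.kr e x * O.kr e' x) (Q.nq e * Q.nq e') hm ?_
    (AddMonoidHom.mulLeft u) ?_ ?_ v
  · intro x y
    have h1 : x + ((Q.nq e * Q.nq e' : ℕ) : O.A) * y =
        x + (Q.nq e : O.A) * ((Q.nq e' : O.A) * y) := by
      push_cast
      ring
    have h2 : x + ((Q.nq e * Q.nq e' : ℕ) : O.A) * y =
        x + (Q.nq e' : O.A) * ((Q.nq e : O.A) * y) := by
      push_cast
      ring
    have h3 : O.kr e (x + ((Q.nq e * Q.nq e' : ℕ) : O.A) * y) = O.kr e x := by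
      rw [h1]
      exact bk_kr_per O e x _
    have h4 : O.kr e' (x + ((Q.nq e * Q.nq e' : ℕ) : O.A) * y) = O.kr e' x := by
      rw [h2]
      exact bk_kr_per O e' x _
    show O.kr e (x + ((Q.nq e * Q.nq e' : ℕ) : O.A) * y) *
      O.kr e' (x + ((Q.nq e * Q.nq e' : ℕ) : O.A) * y) = _
    rw [h3, h4]
  · intro x hx
    exact hu3 x hx
  · intro x
    show O.kr e (u * x) * O.kr e' (u * x) = -(O.kr e x * O.kr e' x)
    rw [bk_kr_mul, bk_kr_mul, hK, hK']
    ring

end

theorem kerSt : KerSt := by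
  classical
  intro S Q n c B K O E I hI
  refine ⟨fun e _ => bk_pos e, fun e he => (hI e he).2, fun e _ x => bk_kr_abs O e x,
    fun e _ => bk_kr_one O e, fun e _ x y => bk_kr_mul O e x y,
    fun e _ x y => bk_kr_per O e x y, ?_⟩
  intro e _ e' _ hne v
  by_cases h : ∃ a ∈ e, a ∉ e'
  · obtain ⟨a, ha, ha'⟩ := h
    exact bk_orth O ha ha' v
  · push Not at h
    have h1 : ∃ a ∈ e', a ∉ e := by
      by_contra hc
      push Not at hc
      exact hne (Finset.Subset.antisymm h hc)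
    obtain ⟨a, ha, ha'⟩ := h1
    have h2 := bk_orth O ha ha' v
    rw [mul_comm (Q.nq e) (Q.nq e'), ← h2]
    exact Finset.sum_congr rfl fun x _ => mul_comm _ _

end Pool.Agent.H32.MQ
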