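import Pool.Agent.H32.MQ.BFStm
import Pool.Agent.H98.MF.SBase

/-!
# Malle's conjecture for 8T28 and 8T29, block BF, row BF5: the values of the kernels
-/

set_option autoImplicit false

open scoped BigOperators

namespace Pool.Agent.H32.MQ

open Pool.Agent.H98.MK (sg)
open Pool.Agent.H98.MF
open Pool.Agent.H32.MA.AB (Lat Ker cube bxA)

namespace Od

variable {S : Sys} {Q : Qd S} {n c B K : ℕ} (O : Od Q n c B K)

theorem bkr_bp {f : O.V →₀ ℕ} {e : Finset Q.P} (h : Disjoint e (O.bp f)) {a : Q.P}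
    (ha : a ∈ e) : f (O.em a) = 0 ∧ f (O.em (Q.cj a)) = 0 := by
  have h1 : a ∉ O.bp f := Finset.disjoint_left.1 h ha
  unfold bp at h1
  rw [Finset.mem_union, not_or] at h1
  obtain ⟨h2, h3⟩ := h1
  constructor
  · by_contra h4
    exact h2 (Finset.mem_preimage.2 (Finsupp.mem_support_iff.2 h4))
  · by_contra h4
    exact h3 (Finset.mem_image.2 ⟨Q.cj a,
      Finset.mem_preimage.2 (Finsupp.mem_support_iff.2 h4), Q.cj_cj a⟩)

end Od

theorem krSt (h : LbSt) : KrSt := by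
  intro S Q n c B K O al hal g hg e he hd
  have hL := (h S Q n c B K O al hal g hg).1
  have hne : al g ≠ 0 := hal.ne g hg
  have hmem : ∀ b : Q.P, O.em b ∈ g.image O.em ↔ b ∈ g := by
    intro b
    rw [Finset.mem_image]
    constructor
    · rintro ⟨b', hb', h1⟩
      rw [← O.em_inj h1]
      exact hb'
    · exact fun hb => ⟨b, hb, rfl⟩
  have hin : ∀ b : Q.P, O.lab al g (O.em b) = 0 → b ∈ g → O.rs b (al g) = 0 := by
    intro b h0 hb
    refine (O.rs_zero b (al g)).2 (Or.inr ?_)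
    rw [hL, h0, if_pos ((hmem b).2 hb)]
    norm_num
  have hout : ∀ b : Q.P, O.lab al g (O.em b) = 0 → b ∉ g →
      O.rs b (al g) = sg (O.chi (O.em b) (O.io (al g))) := by
    intro b h0 hb
    refine O.rs_eq b (al g) hne ?_
    rw [hL, h0, if_neg (fun h1 => hb ((hmem b).1 h1))]
    norm_num
  by_cases hs : Disjoint (Q.shd e) (Q.shd g)
  · rw [if_pos hs]
    have hnot : ∀ a ∈ e, a ∉ g ∧ Q.cj a ∉ g := by
      intro a ha
      have h1 : Q.sh a ∈ Q.shd e := Finset.mem_image_of_mem _ ha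
      have h2 : Q.sh a ∉ Q.shd g := Finset.disjoint_left.1 hs h1
      refine ⟨fun h3 => h2 (Finset.mem_image_of_mem _ h3), fun h3 => h2 ?_⟩
      rw [← Q.sh_cj a]
      exact Finset.mem_image_of_mem _ h3
    have h1 : ∀ a ∈ e, O.rs a (al g) * O.rs (Q.cj a) (al g) ^ 2 =
        sg (O.chi (O.em a) (O.io (al g))) := by
      intro a ha
      obtain ⟨h2, h3⟩ := hnot a ha
      obtain ⟨h4, h5⟩ := O.bkr_bp hd ha
      rw [hout a h4 h2, hout _ h5 h3, pow_two, sg_mul_self, mul_one]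
    unfold Od.kr Od.sgs
    rw [Finset.prod_congr rfl h1, sg_sum]
  · rw [if_neg hs]
    obtain ⟨p, hp1, hp2⟩ := Finset.not_disjoint_iff.1 hs
    obtain ⟨a, ha, hap⟩ := Finset.mem_image.1 hp1
    obtain ⟨b, hb, hbp⟩ := Finset.mem_image.1 hp2
    obtain ⟨h4, h5⟩ := O.bkr_bp hd ha
    unfold Od.kr
    rw [Finset.prod_eq_zero ha, Int.cast_zero]
    rcases Q.fib a b (hap.trans hbp.symm) with h6 | h6
    · rw [h6] at hb
      rw [hin a h4 hb, zero_mul]
    · rw [h6] at hb
      rw [hin _ h5 hb]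
      ring

end Pool.Agent.H32.MQ
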