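import Pool.Agent.H32.MQ.BFStm

/-!
# Project MQ, row BF4: the labels
-/

set_option autoImplicit false

open scoped BigOperators

namespace Pool.Agent.H32.MQ

open Pool.Agent.H98.MK (sg)
open Pool.Agent.H98.MF
open Pool.Agent.H32.MA.AB (Lat Ker cube bxA)

namespace Od

variable {S : Sys} {Q : Qd S} {n c B K : ℕ} (O : Od Q n c B K)

theorem blb_nq {g : Finset Q.P} (hg : Q.Gd g) : Q.nq g = ∏ a ∈ g, S.N (Q.sh a) := by
  unfold Qd.nq Pre.nm Qd.shd
  exact Finset.prod_image fun a ha b hb h => hg a ha b hb h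

open Classical in
theorem blb_ge {al : Finset Q.P → O.A} (hal : O.Al al) {g : Finset Q.P} (hg : Q.Gd g) {v : O.V}
    (hv : v ∈ g.image O.em) : 1 ≤ O.ord v (O.io (al g)) := by
  obtain ⟨a, ha, rfl⟩ := Finset.mem_image.1 hv
  have h1 := (O.rs_zero a (al g)).1 (hal.van g hg a ha)
  have h2 := O.ord_nn (al g) (hal.ne g hg) (O.em a)
  rcases h1 with h1 | h1
  · exact absurd h1 (hal.ne g hg)
  · omega

open Classical in
theorem blb_ord {al : Finset Q.P → O.A} (hal : O.Al al) {g : Finset Q.P} (hg : Q.Gd g)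
    (v : O.V) : O.ord v (O.io (al g)) = O.lab al g v + if v ∈ g.image O.em then 1 else 0 := by
  have h1 : O.lab al g v =
      (O.ord v (O.io (al g))).toNat - if v ∈ g.image O.em then 1 else 0 := rfl
  have h2 := O.ord_nn (al g) (hal.ne g hg) v
  rw [h1]
  by_cases hv : v ∈ g.image O.em
  · have h3 := O.blb_ge hal hg hv
    rw [if_pos hv, if_pos hv]
    omega
  · rw [if_neg hv, if_neg hv]
    omega

open Classical in
theorem blb_dvd {al : Finset Q.P → O.A} (hal : O.Al al) {g : Finset Q.P} (hg : Q.Gd g) :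
    O.nV (O.lab al g) * Q.nq g ∣ O.L.nrm (al g) := by
  have h1 := O.nrm_dvd (al g) (hal.ne g hg) ((O.lab al g).support ∪ g.image O.em)
  have h2 : ∏ v ∈ (O.lab al g).support ∪ g.image O.em,
      O.NV v ^ (O.ord v (O.io (al g))).toNat = O.nV (O.lab al g) * Q.nq g := by
    have h3 : ∀ v ∈ (O.lab al g).support ∪ g.image O.em,
        O.NV v ^ (O.ord v (O.io (al g))).toNat =
          O.NV v ^ (O.lab al g v) * (if v ∈ g.image O.em then O.NV v else 1) := by
      intro v _
      have h4 := O.blb_ord hal hg v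
      by_cases hv : v ∈ g.image O.em
      · rw [if_pos hv] at h4
        have h5 : (O.ord v (O.io (al g))).toNat = O.lab al g v + 1 := by omega
        rw [if_pos hv, h5, pow_succ]
      · rw [if_neg hv] at h4
        have h5 : (O.ord v (O.io (al g))).toNat = O.lab al g v := by omega
        rw [if_neg hv, h5, mul_one]
    rw [Finset.prod_congr rfl h3, Finset.prod_mul_distrib]
    congr 1
    · unfold nV Finsupp.prod
      symm
      refine Finset.prod_subset Finset.subset_union_left fun v _ hv => ?_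
      rw [Finsupp.notMem_support_iff.1 hv]
      exact pow_zero _
    · rw [Finset.prod_ite_mem, Finset.inter_eq_right.2 Finset.subset_union_right, blb_nq hg,
        Finset.prod_image fun a _ b _ h => O.em_inj h]
      exact Finset.prod_congr rfl fun a _ => O.NV_em a
  rwa [h2] at h1

theorem blb_nrm {al : Finset Q.P → O.A} (hal : O.Al al) {g : Finset Q.P} (hg : Q.Gd g) :
    O.L.nrm (al g) ≤ c * Q.nq g := by
  obtain ⟨R, hR⟩ : ∃ R : ℕ, R = Finset.univ.sup fun i => (O.L.e (al g) i).natAbs := ⟨_, rfl⟩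
  have hn : (Finset.univ : Finset (Fin n)).Nonempty :=
    ⟨⟨0, O.n_pos⟩, Finset.mem_univ _⟩
  have h1 : ∀ i, |O.L.e (al g) i| ≤ (R : ℤ) := by
    intro i
    rw [Int.abs_eq_natAbs, hR]
    exact_mod_cast Finset.le_sup (f := fun i => (O.L.e (al g) i).natAbs) (Finset.mem_univ i)
  have h2 := O.L.nrm_le (al g) R h1
  obtain ⟨i, -, hi⟩ := Finset.exists_mem_eq_sup _ hn fun i => (O.L.e (al g) i).natAbs
  have h3 : R ^ n ≤ Q.nq g := by
    have h4 := hal.bd g hg i
    have h5 : |(O.L.e (al g) i : ℝ)| = (R : ℝ) := by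
      rw [hR, hi, ← Int.cast_abs, Int.abs_eq_natAbs]
      rfl
    rw [h5] at h4
    exact_mod_cast h4
  exact h2.trans (Nat.mul_le_mul_left _ h3)

theorem blb_nV {al : Finset Q.P → O.A} (hal : O.Al al) {g : Finset Q.P} (hg : Q.Gd g) :
    O.nV (O.lab al g) ≤ c := by
  have h1 := Nat.le_of_dvd (O.L.nrm_pos _ (hal.ne g hg)) (O.blb_dvd hal hg)
  have h2 := h1.trans (O.blb_nrm hal hg)
  exact Nat.le_of_mul_le_mul_right h2 (S.nm_pos _)

theorem blb_supp (f : O.V →₀ ℕ) : 2 ^ f.support.card ≤ O.nV f := by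
  unfold nV Finsupp.prod
  rw [← Finset.prod_const]
  refine Finset.prod_le_prod' fun v hv => ?_
  have h1 : f v ≠ 0 := Finsupp.mem_support_iff.1 hv
  exact (O.NV_two v).trans (Nat.le_self_pow h1 _)

theorem blb_bp (f : O.V →₀ ℕ) : (O.bp f).card ≤ 2 * f.support.card := by
  classical
  unfold bp
  have h1 : (f.support.preimage O.em O.em_inj.injOn).card ≤ f.support.card := by
    rw [Finset.card_preimage]
    exact Finset.card_filter_le _ _
  refine (Finset.card_union_le _ _).trans ?_
  have h2 : ((f.support.preimage O.em O.em_inj.injOn).image Q.cj).card ≤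
      (f.support.preimage O.em O.em_inj.injOn).card := Finset.card_image_le
  omega

end Od

open Classical in
theorem lbSt : LbSt := by
  intro S Q n c B K O al hal g hg
  refine ⟨fun v => O.blb_ord hal hg v, O.blb_nV hal hg, ?_, ?_,
    (Dvd.intro_left _ rfl).trans (O.blb_dvd hal hg)⟩
  · have h1 := O.blb_bp (O.lab al g)
    have h2 := (O.blb_supp (O.lab al g)).trans (O.blb_nV hal hg)
    calc 2 ^ (O.bp (O.lab al g)).card ≤ 2 ^ (2 * (O.lab al g).support.card) :=
          Nat.pow_le_pow_right (by norm_num) h1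
      _ = (2 ^ (O.lab al g).support.card) ^ 2 := by
          rw [mul_comm, pow_mul]
      _ ≤ c ^ 2 := Nat.pow_le_pow_left h2 2
  · intro g' hg' h1 h2
    refine Finset.image_injective O.em_inj ?_
    ext v
    have h3 := O.blb_ord hal hg v
    have h4 := O.blb_ord hal hg' v
    rw [h2, h3, h1] at h4
    have h5 := add_left_cancel h4
    by_cases ha : v ∈ g.image O.em
    · by_cases hb : v ∈ g'.image O.em
      · exact ⟨fun _ => ha, fun _ => hb⟩
      · rw [if_pos ha, if_neg hb] at h5
        exact absurd h5 one_ne_zero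
    · by_cases hb : v ∈ g'.image O.em
      · rw [if_neg ha, if_pos hb] at h5
        exact absurd h5 zero_ne_one
      · exact ⟨fun h => absurd h hb, fun h => absurd h ha⟩

end Pool.Agent.H32.MQ
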