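import Pool.Agent.H32.MQ.BFStm

/-!
# Malle's conjecture for 8T28 and 8T29, block BF, row BF8: the product formula for good sets
-/

set_option autoImplicit false

open scoped BigOperators

namespace Pool.Agent.H32.MQ

open Pool.Agent.H98.MK (sg)
open Pool.Agent.H98.MF
open Pool.Agent.H32.MA.AB (Lat Ker cube bxA)

namespace BRc

theorem abs_sg (t : ZMod 2) : |((sg t : ℤ) : ℝ)| ≤ 1 := by
  unfold sg
  split_ifs <;> simp

/-- sums of exponents against a function -/
theorem sum_lb {V P : Type} [DecidableEq V] (em : P → V) (hem : Function.Injective em)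
    (k : V →₀ ℕ) (s : Finset P) (T : Finset V) (h1 : k.support ⊆ T) (h2 : s.image em ⊆ T)
    (F : V → ZMod 2) :
    ∑ v ∈ T, (((k v : ℕ) : ZMod 2) + if v ∈ s.image em then 1 else 0) * F v =
      ∑ v ∈ k.support, ((k v : ℕ) : ZMod 2) * F v + ∑ p ∈ s, F (em p) := by
  simp only [add_mul, ite_mul, one_mul, zero_mul]
  rw [Finset.sum_add_distrib]
  congr 1
  · symm
    refine Finset.sum_subset h1 fun v _ hv => ?_
    rw [Finsupp.notMem_support_iff] at hv
    rw [hv]
    simp
  · rw [← Finset.sum_filter, Finset.filter_mem_eq_inter, Finset.inter_eq_right.2 h2,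
      Finset.sum_image (fun a _ b _ hab => hem hab)]

end BRc

/-- BF8: the product formula for good sets with disjoint shadows -/
theorem rcSt (h : LbSt) : RcSt := by
  classical
  intro S Q n c B K O al hal f f'
  let A : Finset Q.P → ZMod 2 := fun g =>
    ∑ v ∈ f'.support, ((f' v : ℕ) : ZMod 2) *
      (((O.ord v (O.io (al g)) : ℤ) : ZMod 2) * O.chi v O.m1 + O.chi v (O.io (al g)))
  let Bb : Finset Q.P → ZMod 2 := fun e =>
    ∑ p ∈ e, ((f (O.em p) : ℕ) : ZMod 2) * O.chi (O.em p) O.m1 +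
      ∑ v ∈ f.support, ((f v : ℕ) : ZMod 2) * O.chi v (O.io (al e))
  refine ⟨fun g => ((sg (A g) : ℤ) : ℝ), fun e => ((sg (Bb e) : ℤ) : ℝ),
    fun l l' => ((sg (O.H l l') : ℤ) : ℝ), fun g => BRc.abs_sg _, fun e => BRc.abs_sg _,
    fun l l' => BRc.abs_sg _, ?_⟩
  intro g e hg he hgf hef hd
  have hx := (h S Q n c B K O al hal g hg).1
  have hy := (h S Q n c B K O al hal e he).1
  rw [hgf] at hx
  rw [hef] at hy
  set x := O.io (al g) with hxd
  set y := O.io (al e) with hyd
  let T : Finset O.V := f.support ∪ f'.support ∪ g.image O.em ∪ e.image O.em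
  have hT1 : f.support ⊆ T := fun v hv => by
    simp only [T, Finset.mem_union]
    exact Or.inl (Or.inl (Or.inl hv))
  have hT2 : f'.support ⊆ T := fun v hv => by
    simp only [T, Finset.mem_union]
    exact Or.inl (Or.inl (Or.inr hv))
  have hT3 : g.image O.em ⊆ T := fun v hv => by
    simp only [T, Finset.mem_union]
    exact Or.inl (Or.inr hv)
  have hT4 : e.image O.em ⊆ T := fun v hv => by
    simp only [T, Finset.mem_union]
    exact Or.inr hv
  have hx2 : ∀ v, ((O.ord v x : ℤ) : ZMod 2) =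
      ((f v : ℕ) : ZMod 2) + if v ∈ g.image O.em then 1 else 0 := by
    intro v
    rw [hx v]
    push_cast
    congr 1
  have hy2 : ∀ v, ((O.ord v y : ℤ) : ZMod 2) =
      ((f' v : ℕ) : ZMod 2) + if v ∈ e.image O.em then 1 else 0 := by
    intro v
    rw [hy v]
    push_cast
    congr 1
  have hout : ∀ v, v ∉ T → O.ord v x = 0 ∧ O.ord v y = 0 := by
    intro v hv
    have h1 : v ∉ f.support := fun h2 => hv (hT1 h2)
    have h2 : v ∉ f'.support := fun h2 => hv (hT2 h2)
    have h3 : v ∉ g.image O.em := fun h2 => hv (hT3 h2)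
    have h4 : v ∉ e.image O.em := fun h2 => hv (hT4 h2)
    rw [Finsupp.notMem_support_iff] at h1 h2
    constructor
    · rw [hx v, h1]
      simp only [h3, if_false]
      simp
    · rw [hy v, h2]
      simp only [h4, if_false]
      simp
  have hp := O.prod x y T hout
  -- the three sums
  have e1 : ∑ v ∈ T, (((O.ord v x : ℤ) : ZMod 2) * ((O.ord v y : ℤ) : ZMod 2) * O.chi v O.m1 +
      ((O.ord v y : ℤ) : ZMod 2) * O.chi v x + ((O.ord v x : ℤ) : ZMod 2) * O.chi v y) =
      ∑ v ∈ T, (((f' v : ℕ) : ZMod 2) + if v ∈ e.image O.em then 1 else 0) *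
        (((O.ord v x : ℤ) : ZMod 2) * O.chi v O.m1 + O.chi v x) +
      ∑ v ∈ T, (((f v : ℕ) : ZMod 2) + if v ∈ g.image O.em then 1 else 0) * O.chi v y := by
    rw [← Finset.sum_add_distrib]
    refine Finset.sum_congr rfl fun v _ => ?_
    rw [← hy2 v, ← hx2 v]
    ring
  rw [e1, BRc.sum_lb O.em O.em_inj f' e T hT2 hT4, BRc.sum_lb O.em O.em_inj f g T hT1 hT3] at hp
  have e2 : ∑ p ∈ e, (((O.ord (O.em p) x : ℤ) : ZMod 2) * O.chi (O.em p) O.m1 +
      O.chi (O.em p) x) = ∑ p ∈ e, ((f (O.em p) : ℕ) : ZMod 2) * O.chi (O.em p) O.m1 +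
        ∑ p ∈ e, O.chi (O.em p) x := by
    rw [← Finset.sum_add_distrib]
    refine Finset.sum_congr rfl fun p hp1 => ?_
    have h1 : O.em p ∉ g.image O.em := by
      intro h2
      rw [Finset.mem_image] at h2
      obtain ⟨q, hq, hqp⟩ := h2
      have h3 : q = p := O.em_inj hqp
      subst h3
      exact Finset.disjoint_left.1 hd (Finset.mem_image_of_mem _ hp1)
        (Finset.mem_image_of_mem _ hq)
    rw [hx2 (O.em p)]
    simp only [h1, if_false, add_zero]
  rw [e2] at hp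
  have hA : A g = ∑ v ∈ f'.support, ((f' v : ℕ) : ZMod 2) *
      (((O.ord v x : ℤ) : ZMod 2) * O.chi v O.m1 + O.chi v x) := rfl
  have hB : Bb e = ∑ p ∈ e, ((f (O.em p) : ℕ) : ZMod 2) * O.chi (O.em p) O.m1 +
      ∑ v ∈ f.support, ((f v : ℕ) : ZMod 2) * O.chi v y := rfl
  have key : ∑ p ∈ e, O.chi (O.em p) x =
      A g + Bb e + O.H (O.loc x) (O.loc y) + ∑ p ∈ g, O.chi (O.em p) y := by
    rw [hA, hB, ← hp]
    generalize ∑ v ∈ f'.support, ((f' v : ℕ) : ZMod 2) *
      (((O.ord v x : ℤ) : ZMod 2) * O.chi v O.m1 + O.chi v x) = t1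
    generalize ∑ p ∈ e, ((f (O.em p) : ℕ) : ZMod 2) * O.chi (O.em p) O.m1 = t2
    generalize ∑ p ∈ e, O.chi (O.em p) x = t3
    generalize ∑ v ∈ f.support, ((f v : ℕ) : ZMod 2) * O.chi v y = t4
    generalize ∑ p ∈ g, O.chi (O.em p) y = t5
    revert t1 t2 t3 t4 t5
    decide
  unfold Od.sgs
  rw [key, sg_add, sg_add, sg_add]
  push_cast
  ring

end Pool.Agent.H32.MQ
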