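import Pool.Agent.H32.MQ.BFStm

/-!
# Malle's conjecture for 8T28 and 8T29, block BF, row BF10: the classes with given odd exponents
-/

set_option autoImplicit false

open scoped BigOperators

namespace Pool.Agent.H32.MQ

open Pool.Agent.H98.MK (sg)
open Pool.Agent.H98.MF
open Pool.Agent.H32.MA.AB (Lat Ker cube bxA)

namespace BRep

theorem parity {p p0 q : Prop} [Decidable p] [Decidable p0] (h1 : ¬ (p ∧ q)) (h2 : ¬ (p0 ∧ q))
    (m : ℤ) (hm : Odd m ↔ (p0 ∨ q)) (f : ℤ) :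
    Odd ((f + if p then 1 else 0) + (m - (f + if p0 then 1 else 0))) ↔ (p ∨ q) := by
  have e : (f + if p then 1 else 0) + (m - (f + if p0 then 1 else 0)) =
      m + (if p then 1 else 0) - (if p0 then 1 else 0) := by ring
  rw [e]
  rw [Int.odd_iff] at hm ⊢
  by_cases hp : p <;> by_cases hp0 : p0 <;> by_cases hq : q <;> simp_all <;> omega

variable {S : Sys} {Q : Qd S} {n c B K : ℕ} (O : Od Q n c B K)

open Classical in
/-- transfer of the parities from `g0` to `g` -/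
theorem move (al : Finset Q.P → O.A) (f : O.V →₀ ℕ) (g g0 h G G0 : Finset Q.P)
    (hg : ∀ v, O.ord v (O.io (al g)) = f v + if v ∈ g.image O.em then 1 else 0)
    (hg0 : ∀ v, O.ord v (O.io (al g0)) = f v + if v ∈ g0.image O.em then 1 else 0)
    (hd : Disjoint (Q.shd g) (Q.shd h)) (hd0 : Disjoint (Q.shd g0) (Q.shd h))
    (hG : ∀ a, a ∈ G ↔ a ∈ g ∨ a ∈ h) (hG0 : ∀ a, a ∈ G0 ↔ a ∈ g0 ∨ a ∈ h) (x : O.U)
    (hx : ∀ v, (Odd (O.ord v x) ↔ ∃ a ∈ G0, O.em a = v)) (v : O.V) :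
    Odd (O.ord v (O.io (al g) + (x - O.io (al g0)))) ↔ ∃ a ∈ G, O.em a = v := by
  have key : ∀ (g' : Finset Q.P), Disjoint (Q.shd g') (Q.shd h) →
      ¬ (v ∈ g'.image O.em ∧ ∃ a ∈ h, O.em a = v) := by
    rintro g' hd' ⟨h1, b, hb, hb1⟩
    obtain ⟨a, ha, ha1⟩ := Finset.mem_image.1 h1
    have hab : a = b := O.em_inj (ha1.trans hb1.symm)
    subst hab
    exact Finset.disjoint_left.1 hd' (Finset.mem_image_of_mem _ ha) (Finset.mem_image_of_mem _ hb)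
  have hx1 : Odd (O.ord v x) ↔ (v ∈ g0.image O.em ∨ ∃ a ∈ h, O.em a = v) := by
    rw [hx v, Finset.mem_image]
    constructor
    · rintro ⟨a, ha, rfl⟩
      rcases (hG0 a).1 ha with h1 | h1
      · exact Or.inl ⟨a, h1, rfl⟩
      · exact Or.inr ⟨a, h1, rfl⟩
    · rintro (⟨a, h1, rfl⟩ | ⟨a, h1, rfl⟩)
      · exact ⟨a, (hG0 a).2 (Or.inl h1), rfl⟩
      · exact ⟨a, (hG0 a).2 (Or.inr h1), rfl⟩
  have h2 := parity (key g hd) (key g0 hd0) (O.ord v x) hx1 (f v)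
  rw [map_add, map_sub, hg v, hg0 v, h2, Finset.mem_image]
  constructor
  · rintro (⟨a, h1, rfl⟩ | ⟨a, h1, rfl⟩)
    · exact ⟨a, (hG a).2 (Or.inl h1), rfl⟩
    · exact ⟨a, (hG a).2 (Or.inr h1), rfl⟩
  · rintro ⟨a, ha, rfl⟩
    rcases (hG a).1 ha with h1 | h1
    · exact Or.inl ⟨a, h1, rfl⟩
    · exact Or.inr ⟨a, h1, rfl⟩

end BRep

open Classical in
theorem repSt (h : LbSt) : RepSt := by
  intro S Q n c B K O al hal h f
  by_cases hex : ∃ g0, Q.Gd g0 ∧ O.lab al g0 = f ∧ Disjoint (Q.shd g0) (Q.shd h)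
  swap
  · refine ⟨∅, by simp, fun g h1 h2 h3 => ?_⟩
    exact absurd ⟨g, h1, h2, h3⟩ hex
  obtain ⟨g0, hg0, hl0, hd0⟩ := hex
  rename_i hLb
  have hs : ∀ γ ∈ Q.B (g0 ∪ h), ∃ x, O.cl x = γ ∧
      ∀ v, (Odd (O.ord v x) ↔ ∃ a ∈ g0 ∪ h, O.em a = v) := fun γ hγ => (O.mem_B _ _).1 hγ
  choose! s hs1 hs2 using hs
  have hinj : ∀ γ ∈ Q.B (g0 ∪ h), ∀ γ' ∈ Q.B (g0 ∪ h),
      (∃ w, s γ = s γ' + (w + w)) → γ = γ' := by
    intro γ h1 γ' h2 h3
    rw [← hs1 γ h1, ← hs1 γ' h2]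
    exact (O.cl_eq _ _).2 h3
  refine ⟨(Q.B (g0 ∪ h)).image fun γ => s γ - O.io (al g0),
    Finset.card_image_le.trans (Q.card_B _), fun g hg hl hd => ?_⟩
  have e0 : ∀ v, O.ord v (O.io (al g0)) = f v + if v ∈ g0.image O.em then 1 else 0 := by
    intro v
    have h1 := (hLb S Q n c B K O al hal g0 hg0).1 v
    rw [hl0] at h1
    exact h1
  have e1 : ∀ v, O.ord v (O.io (al g)) = f v + if v ∈ g.image O.em then 1 else 0 := by
    intro v
    have h1 := (hLb S Q n c B K O al hal g hg).1 v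
    rw [hl] at h1
    exact h1
  have hpar : ∀ γ ∈ Q.B (g0 ∪ h), ∀ v, (Odd (O.ord v (O.io (al g) + (s γ - O.io (al g0)))) ↔
      ∃ a ∈ g ∪ h, O.em a = v) := fun γ hγ v =>
    BRep.move O al f g g0 h (g ∪ h) (g0 ∪ h) e1 e0 hd hd0 (fun _ => Finset.mem_union)
      (fun _ => Finset.mem_union) (s γ) (hs2 γ hγ) v
  constructor
  · intro F
    rw [Finset.sum_image]
    · symm
      refine Finset.sum_bij (fun γ _ => O.cl (O.io (al g) + (s γ - O.io (al g0)))) ?_ ?_ ?_ ?_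
      · intro γ hγ
        exact (O.mem_B _ _).2 ⟨_, rfl, hpar γ hγ⟩
      · intro γ h1 γ' h2 h3
        obtain ⟨w, hw⟩ := (O.cl_eq _ _).1 h3
        refine hinj γ h1 γ' h2 ⟨w, ?_⟩
        have h4 : s γ = (O.io (al g) + (s γ - O.io (al g0))) - O.io (al g) + O.io (al g0) := by
          abel
        rw [h4, hw]
        abel
      · intro γ' h1
        obtain ⟨x', hx1, hx2⟩ := (O.mem_B _ _).1 h1
        have h2 : O.cl (O.io (al g0) + (x' - O.io (al g))) ∈ Q.B (g0 ∪ h) :=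
          (O.mem_B _ _).2 ⟨_, rfl, fun v => BRep.move O al f g0 g h (g0 ∪ h) (g ∪ h) e0 e1 hd0 hd
            (fun _ => Finset.mem_union) (fun _ => Finset.mem_union) x' hx2 v⟩
        refine ⟨_, h2, ?_⟩
        obtain ⟨w, hw⟩ := (O.cl_eq _ _).1 (hs1 _ h2)
        rw [← hx1, O.cl_eq]
        refine ⟨w, ?_⟩
        rw [hw]
        abel
      · intro γ hγ
        rfl
    · intro γ h1 γ' h2 h3
      refine hinj γ h1 γ' h2 ⟨0, ?_⟩
      have h4 : s γ - O.io (al g0) = s γ' - O.io (al g0) := h3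
      rw [add_zero, add_zero]
      exact sub_left_injective h4
  · intro y hy a ha
    obtain ⟨γ, hγ, rfl⟩ := Finset.mem_image.1 hy
    have h1 : Even (O.ord (O.em a) (O.io (al g) + (s γ - O.io (al g0)))) := by
      rw [← Int.not_odd_iff_even, hpar γ hγ (O.em a)]
      rintro ⟨b, hb, hb1⟩
      rw [O.em_inj hb1] at hb
      exact ha hb
    rw [O.sy_cl _ a h1, map_add]

end Pool.Agent.H32.MQ
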