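import Pool.Agent.H32.MQ.IOd
import Pool.Agent.H32.MQ.BAl
import Pool.Agent.H32.MQ.BKer
import Pool.Agent.H32.MQ.BCnt
import Pool.Agent.H32.MQ.BLb
import Pool.Agent.H32.MQ.BKr
import Pool.Agent.H32.MQ.BBK
import Pool.Agent.H32.MQ.BFa
import Pool.Agent.H32.MQ.BRc
import Pool.Agent.H32.MQ.BFb
import Pool.Agent.H32.MQ.BRep
import Pool.Agent.H32.MQ.BFin

/-!
# Malle's conjecture for 8T28 and 8T29, block BF: the bilinear estimate from the instance
-/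

set_option autoImplicit false

open scoped BigOperators
open NumberField IsDedekindDomain

namespace Pool.Agent.H32.MQ

open Pool.Agent.H98.MF

/-- the symbols at the shorter variable -/
theorem bf_a : BFaSt := bfaSt (bkSt kerSt cntSt lbSt) (krSt lbSt) lbSt

/-- the bilinear estimate of an order -/
theorem bf_abs : BFSt :=
  bfSt alSt bf_a (bfbSt bf_a (rcSt lbSt) lbSt) (repSt lbSt) lbSt

theorem Qd.BF.of_le {S : Sys} {Q : Qd S} {C C' A' η : ℝ} (h : Q.BF C 0 η)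
    (hC : C ≤ C' * (S.nm Q.M : ℝ) ^ A') : Q.BF C' A' η := by
  intro h0 hg a b ha hb X Y hX hY
  refine (h h0 hg a b ha hb X Y hX hY).trans ?_
  rw [Real.rpow_zero, mul_one]
  have h1 : (0 : ℝ) < min X Y := lt_min (by linarith) (by linarith)
  have h2 : (0 : ℝ) ≤ X * Y := by positivity
  have h3 : (0 : ℝ) ≤ min X Y ^ (-η) := (Real.rpow_pos_of_pos h1 _).le
  exact mul_le_mul_of_nonneg_right (mul_le_mul_of_nonneg_right hC h2) h3

theorem bf_dg (k : Type) [Field k] [NumberField k] : 1 ≤ dg k := by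
  unfold dg
  exact Module.finrank_pos

/-- the bilinear estimate from the instance -/
theorem bf_of {k : Type} [Field k] [NumberField k] (Fr : Frm k) (hOd : OdSt Fr) :
    BFMain Fr := by
  classical
  have hdg := bf_dg k
  obtain ⟨C, A, hC, hOd⟩ := hOd
  set n := 2 * dg k with hn
  have hn1 : 1 ≤ n := by omega
  obtain ⟨C1, hC1, hbf⟩ := bf_abs Fr.sys n n hn1
  have hC0 : (0 : ℝ) < C := by exact_mod_cast hC
  refine ⟨C1 * (C : ℝ) ^ 4 * (C : ℝ) ^ (n + 3) * 4 ^ Fr.sys.m,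
    ((A * 4 + A * (n + 3) + 2 : ℕ) : ℝ), 1 / (24 * n : ℝ), by positivity, by positivity,
    by positivity, ?_⟩
  intro L _ _ _ X
  obtain ⟨c, K, hc, hK, hcN, hKN, ⟨O⟩⟩ := hOd L X
  refine (hbf (Qof X) c K hc hK O).of_le ?_
  rw [Real.rpow_natCast]
  have hM : (Qof X).M = X.M := rfl
  rw [hM]
  set N : ℕ := Fr.sys.nm X.M with hN
  have h2 : 2 ^ X.M.card ≤ N := by
    rw [hN]
    exact Fr.sys.pow_card_le_nm X.M
  have hcN' : (c : ℝ) ≤ C * (N : ℝ) ^ A := by exact_mod_cast hcN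
  have hKN' : (K : ℝ) ≤ C * (N : ℝ) ^ A := by exact_mod_cast hKN
  have h4 : (4 : ℝ) ^ X.M.card ≤ (N : ℝ) ^ 2 := by
    have h5 : (4 : ℕ) ^ X.M.card ≤ N ^ 2 := by
      calc (4 : ℕ) ^ X.M.card = (2 ^ X.M.card) ^ 2 := by
            rw [← pow_mul, mul_comm, pow_mul]
            norm_num
        _ ≤ N ^ 2 := Nat.pow_le_pow_left h2 2
    exact_mod_cast h5
  have h6 : (K : ℝ) ^ 4 ≤ (C * (N : ℝ) ^ A) ^ 4 := pow_le_pow_left₀ (by positivity) hKN' 4
  have h7 : (c : ℝ) ^ (n + 3) ≤ (C * (N : ℝ) ^ A) ^ (n + 3) :=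
    pow_le_pow_left₀ (by positivity) hcN' _
  calc C1 * (K : ℝ) ^ 4 * (c : ℝ) ^ (n + 3) * 4 ^ (Fr.sys.m + X.M.card)
      ≤ C1 * (C * (N : ℝ) ^ A) ^ 4 * (C * (N : ℝ) ^ A) ^ (n + 3) *
        (4 ^ Fr.sys.m * (N : ℝ) ^ 2) := by
        rw [pow_add (4 : ℝ)]
        gcongr
    _ = C1 * (C : ℝ) ^ 4 * (C : ℝ) ^ (n + 3) * 4 ^ Fr.sys.m *
        (N : ℝ) ^ (A * 4 + A * (n + 3) + 2) := by
        rw [mul_pow, mul_pow, ← pow_mul, ← pow_mul, pow_add (N : ℝ) (A * 4 + A * (n + 3)) 2,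
          pow_add (N : ℝ) (A * 4) (A * (n + 3))]
        ring

end Pool.Agent.H32.MQ
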