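import Pool.Agent.H32.MQ.BFInst
import Pool.Agent.H98.MF.L.Odd

/-!
# Malle's conjecture for 8T28 and 8T29, block BF, row I6: quadratic characters
-/

set_option autoImplicit false

open scoped BigOperators
open NumberField IsDedekindDomain

namespace Pool.Agent.H32.MQ

open Pool.Agent.H98.MF

section

variable {L : Type} [Field L] [NumberField L] (Q : HeightOneSpectrum (𝓞 L))

/-- the character `hs x ϖ + ord x * hs ϖ ϖ` -/
noncomputable def ichChi (ϖ : L) (hϖ : ϖ ≠ 0) : Additive Lˣ →+ ZMod 2 where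
  toFun x := hs Q ((Additive.toMul x : Lˣ) : L) ϖ +
    ((ord Q ((Additive.toMul x : Lˣ) : L) : ℤ) : ZMod 2) * hs Q ϖ ϖ
  map_zero' := by
    have h1 : ((Additive.toMul (0 : Additive Lˣ) : Lˣ) : L) = 1 := rfl
    have h2 : hs Q (1 : L) ϖ = 0 := by
      have h3 := hs_mul_left Q (one_ne_zero : (1 : L) ≠ 0) (one_ne_zero : (1 : L) ≠ 0) hϖ
      rw [mul_one] at h3
      have h4 : hs Q (1 : L) ϖ + 0 = hs Q (1 : L) ϖ + hs Q (1 : L) ϖ := by
        rw [add_zero]
        exact h3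
      exact (add_left_cancel h4).symm
    rw [h1, h2, Pool.Agent.H98.MF.ord_one, Int.cast_zero, zero_mul, add_zero]
  map_add' x y := by
    have hx : ((Additive.toMul x : Lˣ) : L) ≠ 0 := Units.ne_zero _
    have hy : ((Additive.toMul y : Lˣ) : L) ≠ 0 := Units.ne_zero _
    have h1 : ((Additive.toMul (x + y) : Lˣ) : L) =
        ((Additive.toMul x : Lˣ) : L) * ((Additive.toMul y : Lˣ) : L) := rfl
    rw [h1, hs_mul_left Q hx hy hϖ, Pool.Agent.H98.MF.ord_mul Q hx hy, Int.cast_add]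
    ring

theorem ichChi_apply (ϖ : L) (hϖ : ϖ ≠ 0) (x : Lˣ) :
    ichChi Q ϖ hϖ (Additive.ofMul x) =
      hs Q (x : L) ϖ + ((ord Q (x : L) : ℤ) : ZMod 2) * hs Q ϖ ϖ := rfl

end

theorem ich_even {a : ℤ} (h : Even a) : ((a : ℤ) : ZMod 2) = 0 := by
  rw [ZMod.intCast_zmod_eq_zero_iff_dvd]
  exact even_iff_two_dvd.1 h

theorem ich_odd {a : ℤ} (h : ¬ Even a) : ((a : ℤ) : ZMod 2) = 1 := by
  obtain ⟨m, hm⟩ := Int.not_even_iff_odd.1 h
  have h2 : ((2 : ℤ) : ZMod 2) = 0 := by decide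
  rw [hm, Int.cast_add, Int.cast_mul, h2, zero_mul, zero_add, Int.cast_one]

/-- Row I6: the quadratic characters. -/
theorem chSt (L : Type) [Field L] [NumberField L] : ChSt L := by
  intro Q h2
  obtain ⟨π, hπ⟩ := Pool.Agent.H98.MF.exists_unif Q
  have hπ0 : (π : L) ≠ 0 := by
    intro h
    rw [h, Pool.Agent.H98.MF.ord_zero] at hπ
    exact zero_ne_one hπ
  have hπ1 : ((ord Q (π : L) : ℤ) : ZMod 2) = 1 := by
    rw [hπ, Int.cast_one]
  have hev : ∀ x : L, x ≠ 0 → Even (ord Q x) → hs Q x (π : L) = qr x Q := by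
    intro x hx he
    rw [hs_even h2 hx hπ0 he, hπ1, one_mul]
  refine ⟨ichChi Q (π : L) hπ0, fun x hx => ?_, fun x y => ?_⟩
  · rw [ichChi_apply, hev _ x.ne_zero hx, ich_even hx, zero_mul, add_zero]
  · have hx0 : (x : L) ≠ 0 := x.ne_zero
    have hy0 : (y : L) ≠ 0 := y.ne_zero
    have hm : ichChi Q (π : L) hπ0 (Additive.ofMul (-1)) = hs Q (π : L) (π : L) := by
      have h3 : (((-1 : Lˣ) : Lˣ) : L) = -1 := rfl
      have h4 : Even (ord Q (-1 : L)) := by
        rw [Pool.Agent.H98.MF.ord_neg, Pool.Agent.H98.MF.ord_one]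
        exact Even.zero
      rw [ichChi_apply, h3, ich_even h4, zero_mul, add_zero, hs_self Q hπ0,
        hs_symm Q (neg_ne_zero.2 one_ne_zero) hπ0]
    rw [hm, ichChi_apply, ichChi_apply]
    have two : ∀ z : ZMod 2, z + z = 0 := by decide
    by_cases hx : Even (ord Q (x : L))
    · rw [ich_even hx, hs_even h2 hx0 hy0 hx, hev _ hx0 hx]
      ring
    · by_cases hy : Even (ord Q (y : L))
      · rw [ich_even hy, hs_symm Q hx0 hy0, hs_even h2 hy0 hx0 hy, hev _ hy0 hy]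
        ring
      · have hxp : Even (ord Q ((x : L) * (π : L))) := by
          rw [Pool.Agent.H98.MF.ord_mul Q hx0 hπ0, hπ]
          exact (Int.not_even_iff_odd.1 hx).add_odd odd_one
        have g0 : (x : L) * (π : L) ≠ 0 := mul_ne_zero hx0 hπ0
        have g1 := hs_even h2 g0 hy0 hxp
        have g2 := hs_even h2 g0 hπ0 hxp
        rw [hs_mul_left Q hx0 hπ0 hy0, ich_odd hy, one_mul] at g1
        rw [hs_mul_left Q hx0 hπ0 hπ0, hπ1, one_mul] at g2
        rw [hs_symm Q hπ0 hy0] at g1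
        rw [← g2] at g1
        rw [ich_odd hx, ich_odd hy]
        have g3 := two (hs Q (y : L) (π : L))
        have g4 := two (hs Q (π : L) (π : L))
        linear_combination g1 - g3 - g4

end Pool.Agent.H32.MQ
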