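import Pool.Agent.H32.MQ.BFInst

/-!
# Malle's conjecture for 8T28 and 8T29, block BF, row I12: few ideals of small norm
-/

set_option autoImplicit false

open scoped BigOperators
open NumberField IsDedekindDomain

namespace Pool.Agent.H32.MQ

open Pool.Agent.H98.MF

section

variable {k : Type} [Field k] [NumberField k] {Fr : Frm k} {L : Type} [Field L]
  [NumberField L] [Algebra k L] (X : HX Fr L)

/-- the prime below -/
noncomputable def icvS (Q : VX X) : Fr.sys.P := Q.2.choose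

theorem icvS_over (Q : VX X) : Over (Fr.pl (icvS X Q)) Q.1 := Q.2.choose_spec.2

/-- a prime above -/
noncomputable def icvU (Fr : Frm k) (L : Type) [Field L] [NumberField L] [Algebra k L]
    (p : Fr.sys.P) : HeightOneSpectrum (𝓞 L) := (exists_over (L := L) (Fr.pl p)).choose

theorem icvU_over (p : Fr.sys.P) : Over (Fr.pl p) (icvU Fr L p) :=
  (exists_over (L := L) (Fr.pl p)).choose_spec

theorem icv_le (Q : VX X) : Fr.sys.N (icvS X Q) ≤ nrm Q.1 := by
  have h1 : nrm Q.1 = Ideal.absNorm (Fr.pl (icvS X Q)).asIdeal ^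
      (Fr.pl (icvS X Q)).asIdeal.inertiaDeg' Q.1.asIdeal := by
    unfold nrm
    exact over_absNorm (icvS_over X Q)
  rw [Fr.N_eq, h1]
  refine Nat.le_self_pow ?_ _
  intro h0
  rw [h0, pow_zero] at h1
  unfold nrm at h1
  exact Q.1.isPrime.ne_top (Ideal.absNorm_eq_one_iff.1 h1)

/-- the chosen primes -/
def icvT (Q : VX X) : Prop := Q.1 = icvU Fr L (icvS X Q)

theorem icv_inj0 : Set.InjOn (icvS X) {Q | icvT X Q} := by
  intro Q hQ Q' hQ' h
  apply Subtype.ext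
  have e1 : Q.1 = icvU Fr L (icvS X Q) := hQ
  have e2 : Q'.1 = icvU Fr L (icvS X Q') := hQ'
  rw [e1, e2, h]

theorem icv_cj (Q : VX X) (h : ¬ icvT X Q) : Q.1 = cj X.sig (icvU Fr L (icvS X Q)) := by
  rcases B.qe_over X.qe X.sig X.sig_α (icvU_over (L := L) (icvS X Q)) (icvS_over X Q) with h1 | h1
  · exact absurd h1 h
  · exact h1

theorem icv_inj1 : Set.InjOn (icvS X) {Q | ¬ icvT X Q} := by
  intro Q hQ Q' hQ' h
  apply Subtype.ext
  rw [icv_cj X Q hQ, icv_cj X Q' hQ', h]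

theorem icv_map (T : VX X → Prop) [DecidablePred T] (hT : Set.InjOn (icvS X) {Q | T Q})
    (f : VX X →₀ ℕ) (Q : VX X) (hQ : T Q) : (f.filter T).mapDomain (icvS X) (icvS X Q) = f Q := by
  rw [Finsupp.mapDomain_apply' {Q | T Q} (f.filter T) ?_ hT hQ, Finsupp.filter_apply_pos T f hQ]
  intro a ha
  rw [Finset.mem_coe, Finsupp.mem_support_iff] at ha
  by_contra h
  exact ha (Finsupp.filter_apply_neg T f h)

open Classical in
/-- the pair of ideals below -/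
noncomputable def icvF (f : VX X →₀ ℕ) : (Fr.sys.P →₀ ℕ) × (Fr.sys.P →₀ ℕ) :=
  ((f.filter (icvT X)).mapDomain (icvS X), (f.filter fun Q => ¬ icvT X Q).mapDomain (icvS X))

theorem icvF_inj : Function.Injective (icvF X) := by
  classical
  intro f g h
  ext Q
  have h1 := congrArg Prod.fst h
  have h2 := congrArg Prod.snd h
  unfold icvF at h1 h2
  simp only at h1 h2
  by_cases hQ : icvT X Q
  · rw [← icv_map X _ (icv_inj0 X) f Q hQ, ← icv_map X _ (icv_inj0 X) g Q hQ, h1]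
  · rw [← icv_map X _ (icv_inj1 X) f Q hQ, ← icv_map X _ (icv_inj1 X) g Q hQ, h2]

theorem icvF_nf (f : VX X →₀ ℕ) : Fr.sys.nf (icvF X f).1 * Fr.sys.nf (icvF X f).2 ≤
    f.prod fun Q j => nrm Q.1 ^ j := by
  classical
  unfold icvF Pre.nf
  simp only
  rw [Finsupp.prod_mapDomain_index (fun _ => pow_zero _) (fun _ _ _ => pow_add _ _ _),
    Finsupp.prod_mapDomain_index (fun _ => pow_zero _) (fun _ _ _ => pow_add _ _ _),
    Finsupp.prod_filter_mul_prod_filter_not]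
  exact Finset.prod_le_prod (fun _ _ => Nat.zero_le _)
    (fun Q _ => Nat.pow_le_pow_left (icv_le X Q) _)

end

variable {k : Type} [Field k] [NumberField k] (Fr : Frm k)

theorem icv_card (c : ℕ) (hc : 1 ≤ c) :
    ((Fr.sys.idl (c : ℝ)).card : ℝ) ≤ (Fr.sys.κ + Fr.sys.C) * c := by
  have h0 : (1 : ℝ) ≤ (c : ℝ) := by exact_mod_cast hc
  have h1 := Fr.sys.cnt (c : ℝ) h0
  have h2 := (abs_le.1 h1).2
  have h3 : (c : ℝ) ^ (1 - Fr.sys.δ) ≤ c := by
    calc (c : ℝ) ^ (1 - Fr.sys.δ) ≤ (c : ℝ) ^ (1 : ℝ) :=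
          Real.rpow_le_rpow_of_exponent_le h0 (by linarith [Fr.sys.δ_pos])
      _ = c := Real.rpow_one _
  have h4 : Fr.sys.C * (c : ℝ) ^ (1 - Fr.sys.δ) ≤ Fr.sys.C * c :=
    mul_le_mul_of_nonneg_left h3 Fr.sys.C_nonneg
  linarith

/-- I12: few ideals of small norm -/
theorem cvSt : CvSt Fr := by
  classical
  refine ⟨⌈(Fr.sys.κ + Fr.sys.C) ^ 2⌉₊, ?_, ?_⟩
  · rw [Nat.one_le_ceil_iff]
    have h1 := Fr.sys.κ_pos
    have h2 := Fr.sys.C_nonneg
    positivity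
  intro L _ _ _ X c hc
  refine ⟨((Fr.sys.idl (c : ℝ)) ×ˢ (Fr.sys.idl (c : ℝ))).preimage (icvF X)
    (icvF_inj X).injOn, ?_, ?_⟩
  · have h1 : (((Fr.sys.idl (c : ℝ)) ×ˢ (Fr.sys.idl (c : ℝ))).preimage (icvF X)
        (icvF_inj X).injOn).card ≤ (Fr.sys.idl (c : ℝ)).card * (Fr.sys.idl (c : ℝ)).card := by
      rw [← Finset.card_product, Finset.card_preimage]
      exact Finset.card_filter_le _ _
    have h2 := icv_card Fr c hc
    have h3 : (((Fr.sys.idl (c : ℝ)).card * (Fr.sys.idl (c : ℝ)).card : ℕ) : ℝ) ≤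
        ((⌈(Fr.sys.κ + Fr.sys.C) ^ 2⌉₊ * c ^ 2 : ℕ) : ℝ) := by
      push_cast
      calc ((Fr.sys.idl (c : ℝ)).card : ℝ) * ((Fr.sys.idl (c : ℝ)).card : ℝ)
          ≤ ((Fr.sys.κ + Fr.sys.C) * c) * ((Fr.sys.κ + Fr.sys.C) * c) :=
            mul_le_mul h2 h2 (Nat.cast_nonneg _) ((Nat.cast_nonneg _).trans h2)
        _ = (Fr.sys.κ + Fr.sys.C) ^ 2 * (c : ℝ) ^ 2 := by ring
        _ ≤ (⌈(Fr.sys.κ + Fr.sys.C) ^ 2⌉₊ : ℝ) * (c : ℝ) ^ 2 :=
            mul_le_mul_of_nonneg_right (Nat.le_ceil _) (by positivity)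
    exact h1.trans (by exact_mod_cast h3)
  · intro f hf
    rw [Finset.mem_preimage, Finset.mem_product, Pre.mem_idl, Pre.mem_idl]
    have h1 := (icvF_nf X f).trans hf
    have h2 := Fr.sys.nf_pos (icvF X f).1
    have h3 := Fr.sys.nf_pos (icvF X f).2
    have h4 : Fr.sys.nf (icvF X f).1 ≤ c := (Nat.le_mul_of_pos_right _ h3).trans h1
    have h5 : Fr.sys.nf (icvF X f).2 ≤ c := (Nat.le_mul_of_pos_left _ h2).trans h1
    exact ⟨by exact_mod_cast h4, by exact_mod_cast h5⟩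

end Pool.Agent.H32.MQ
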