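import Pool.Agent.H32.MQ.BFInst

/-!
# Malle's conjecture for 8T28 and 8T29, block BF: few good sets of given norm
-/

set_option autoImplicit false

open scoped BigOperators nonZeroDivisors
open NumberField IsDedekindDomain

namespace Pool.Agent.H32.MQ

open Pool.Agent.H98.MF

/-- primes above a rational prime -/
theorem fw_fib {k : Type} [Field k] [NumberField k] (p : ℕ)
    (T : Finset (HeightOneSpectrum (𝓞 k))) (hp : p.Prime)
    (hT : ∀ Q ∈ T, Ideal.absNorm (Ideal.under ℤ Q.asIdeal) = p) : T.card ≤ dg k := by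
  classical
  have h1 : (∏ Q ∈ T, Q.asIdeal) ∣ Ideal.span {(p : 𝓞 k)} := by
    refine Finset.prod_dvd_of_coprime ?_ ?_
    · intro Q _ R _ hQR
      exact Ideal.isCoprime_of_isMaximal (fun h => hQR (HeightOneSpectrum.ext h))
    · intro Q hQ
      rw [Ideal.dvd_span_singleton, ← hT Q hQ]
      exact Int.absNorm_under_mem Q.asIdeal
  have h2 : ∏ Q ∈ T, Ideal.absNorm Q.asIdeal ∣ p ^ Module.finrank ℤ (𝓞 k) := by
    rw [← Ideal.absNorm_span_natCast, ← map_prod]
    exact map_dvd _ h1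
  have hpos : ∀ Q : HeightOneSpectrum (𝓞 k), 0 < Ideal.absNorm Q.asIdeal := by
    intro Q
    rw [Nat.pos_iff_ne_zero]
    exact fun h => Q.ne_bot (Ideal.absNorm_eq_zero_iff.1 h)
  have h3 : p ^ T.card ≤ ∏ Q ∈ T, Ideal.absNorm Q.asIdeal := by
    refine Finset.pow_card_le_prod T _ p fun Q hQ => ?_
    rw [← hT Q hQ]
    exact Nat.le_of_dvd (hpos Q) (Int.absNorm_under_dvd_absNorm Q.asIdeal)
  have h4 : p ^ T.card ≤ p ^ Module.finrank ℤ (𝓞 k) :=
    h3.trans (Nat.le_of_dvd (pow_pos hp.pos _) h2)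
  exact (Nat.pow_le_pow_iff_right hp.one_lt).1 h4

/-- the number of divisors -/
theorem fw_div (m : ℕ) (hm : 1 ≤ m) : 2 ^ m.primeFactors.card ≤ m.divisors.card := by
  have hm0 : m ≠ 0 := by omega
  rw [Nat.card_divisors hm0]
  refine Finset.pow_card_le_prod _ _ 2 fun p hp => ?_
  have h1 : 0 < m.factorization p :=
    (Nat.prime_of_mem_primeFactors hp).factorization_pos_of_dvd hm0
      (Nat.dvd_of_mem_primeFactors hp)
  omega

/-- primes of the frame whose norm divides `m` -/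
theorem fw_prim {k : Type} [Field k] [NumberField k] (Fr : Frm k) (m : ℕ) (hm : 1 ≤ m)
    (D : Finset Fr.sys.P) (hD : ∀ p ∈ D, Fr.sys.N p ∣ m) :
    D.card ≤ dg k * m.primeFactors.card := by
  classical
  refine Finset.card_le_mul_card_image_of_maps_to
    (f := fun p : Fr.sys.P => Ideal.absNorm (Ideal.under ℤ (Fr.pl p).asIdeal)) ?_ _ ?_
  · intro p hp
    have : NeZero (Fr.pl p).asIdeal := ⟨(Fr.pl p).ne_bot⟩
    have h1 : Ideal.absNorm (Ideal.under ℤ (Fr.pl p).asIdeal) ∣ m := by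
      have h2 := hD p hp
      rw [Fr.N_eq] at h2
      exact (Int.absNorm_under_dvd_absNorm (Fr.pl p).asIdeal).trans h2
    exact Nat.mem_primeFactors.2 ⟨Nat.absNorm_under_prime (Fr.pl p).asIdeal, h1, by omega⟩
  · intro l hl
    let e : Fr.sys.P ↪ HeightOneSpectrum (𝓞 k) := ⟨Fr.pl, Fr.pl_inj⟩
    have h4 := fw_fib l ((D.filter fun p : Fr.sys.P =>
      Ideal.absNorm (Ideal.under ℤ (Fr.pl p).asIdeal) = l).map e)
      (Nat.prime_of_mem_primeFactors hl) ?_
    · rwa [Finset.card_map] at h4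
    · intro Q hQ
      obtain ⟨R, hR, rfl⟩ := Finset.mem_map.1 hQ
      exact (Finset.mem_filter.1 hR).2

/-- good sets of given norm -/
theorem fw_qd {S : Sys} (Q : Qd S) (m : ℕ) (n : ℕ)
    (hn : ∀ D : Finset S.P, (∀ p ∈ D, S.N p ∣ m) → D.card ≤ n) (hm : 1 ≤ m) :
    ((Q.gb m).filter fun z => Q.nq z = m).card ≤ 2 ^ (n * 2) := by
  classical
  have hD : ∃ D : Finset S.P, ∀ p, p ∈ D ↔ S.N p ∣ m := by
    refine ⟨(S.fin m).toFinset.filter fun p => S.N p ∣ m, fun p => ?_⟩
    rw [Finset.mem_filter, Set.Finite.mem_toFinset]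
    exact ⟨fun h => h.2, fun h => ⟨Nat.le_of_dvd hm h, h⟩⟩
  obtain ⟨D, hD⟩ := hD
  obtain ⟨f, hf⟩ : ∃ f : S.P → Finset Q.P, (∀ p, (f p).card ≤ 2) ∧
      ∀ a : Q.P, a ∈ f (Q.sh a) := by
    refine ⟨fun p => if h : ∃ a, Q.sh a = p then {h.choose, Q.cj h.choose} else ∅, ?_, ?_⟩
    · intro p
      by_cases h : ∃ a, Q.sh a = p
      · simp only [dif_pos h]
        exact Finset.card_le_two
      · simp only [dif_neg h]
        simp
    · intro a
      have h : ∃ b, Q.sh b = Q.sh a := ⟨a, rfl⟩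
      simp only [dif_pos h]
      rcases Q.fib h.choose a h.choose_spec with h1 | h1
      · rw [Finset.mem_insert]
        exact Or.inl h1
      · rw [Finset.mem_insert, Finset.mem_singleton]
        exact Or.inr h1
  have hW : (D.biUnion f).card ≤ n * 2 :=
    (Finset.card_biUnion_le_card_mul D f 2 fun p _ => hf.1 p).trans
      (Nat.mul_le_mul_right 2 (hn D fun p hp => (hD p).1 hp))
  have hsub : ((Q.gb m).filter fun z => Q.nq z = m) ⊆ (D.biUnion f).powerset := by
    intro z hz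
    have hz1 : Q.nq z = m := (Finset.mem_filter.1 hz).2
    rw [Finset.mem_powerset]
    intro a ha
    rw [Finset.mem_biUnion]
    refine ⟨Q.sh a, (hD _).2 ?_, hf.2 a⟩
    rw [← hz1]
    exact Finset.dvd_prod_of_mem _ (Finset.mem_image_of_mem _ ha)
  refine (Finset.card_le_card hsub).trans ?_
  rw [Finset.card_powerset]
  exact Nat.pow_le_pow_right (by norm_num) hW

section

variable {k : Type} [Field k] [NumberField k] (Fr : Frm k)

theorem fwSt : FwSt Fr := by
  intro L _ _ _ X m hm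
  refine (fw_qd (Qof X) m (dg k * m.primeFactors.card) (fw_prim Fr m hm) hm).trans ?_
  have h1 : 2 ^ (dg k * m.primeFactors.card * 2) = (2 ^ m.primeFactors.card) ^ (2 * dg k) := by
    rw [← pow_mul]
    congr 1
    ring
  rw [h1]
  exact Nat.pow_le_pow_left (fw_div m hm) _

end

end Pool.Agent.H32.MQ
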