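import Pool.Agent.H32.MQ.BFInst
import Pool.Agent.H98.MF.L.QuadX

/-!
# MQ, row BI4: coordinates of the order
-/

set_option autoImplicit false

open scoped BigOperators
open NumberField IsDedekindDomain

namespace Pool.Agent.H32.MQ

open Pool.Agent.H98.MF
open Pool.Agent.H32.MA.AB (Lat)

section

variable {k : Type} [Field k] [NumberField k]

theorem il_sz_le {x : 𝓞 k} {R : ℕ} : sz x ≤ R ↔ ∀ i, |(kco k).repr x i| ≤ (R : ℤ) := by
  unfold sz
  rw [Finset.sup_le_iff]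
  constructor
  · intro h i
    have h1 := h i (Finset.mem_univ i)
    rw [Int.abs_eq_natAbs]
    exact_mod_cast h1
  · intro h i _
    have h1 := h i
    rw [Int.abs_eq_natAbs] at h1
    exact_mod_cast h1

theorem il_sz_add (x y : 𝓞 k) : sz (x + y) ≤ sz x + sz y := by
  rw [il_sz_le]
  intro i
  have hx := il_sz_le.1 (le_refl (sz x)) i
  have hy := il_sz_le.1 (le_refl (sz y)) i
  rw [map_add, Finsupp.add_apply]
  push_cast
  exact (abs_add_le _ _).trans (add_le_add hx hy)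

theorem il_sz_neg (x : 𝓞 k) : sz (-x) = sz x := by
  unfold sz
  simp only [map_neg, Finsupp.neg_apply, Int.natAbs_neg]

theorem il_sz_zero : sz (0 : 𝓞 k) = 0 := by
  unfold sz
  simp

theorem il_dg_pos : 1 ≤ dg k := by
  unfold dg
  rw [RingOfIntegers.rank]
  exact Module.finrank_pos

end

/-- pairs of vectors -/
def il_sig (n : ℕ) : Fin (2 * n) ≃ Fin n ⊕ Fin n := (finCongr (two_mul n)).trans finSumFinEquiv.symm

/-- pairs of vectors -/
def il_pr (n : ℕ) : ((Fin n → ℤ) × (Fin n → ℤ)) ≃+ (Fin (2 * n) → ℤ) where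
  toFun ab i := Sum.elim ab.1 ab.2 (il_sig n i)
  invFun f := (fun j => f ((il_sig n).symm (Sum.inl j)), fun j => f ((il_sig n).symm (Sum.inr j)))
  left_inv := by
    intro ab
    ext j
    · simp
    · simp
  right_inv := by
    intro f
    funext i
    have h1 : (il_sig n).symm (il_sig n i) = i := (il_sig n).symm_apply_apply i
    show Sum.elim (fun j => f ((il_sig n).symm (Sum.inl j)))
      (fun j => f ((il_sig n).symm (Sum.inr j))) (il_sig n i) = f i
    cases h : il_sig n i with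
    | inl j =>
      rw [Sum.elim_inl, ← h, h1]
    | inr j =>
      rw [Sum.elim_inr, ← h, h1]
  map_add' := by
    intro a b
    funext i
    simp only [Pi.add_apply]
    cases il_sig n i with
    | inl j => rfl
    | inr j => rfl

theorem il_pr_le {n : ℕ} {a b : Fin n → ℤ} {R : ℤ} :
    (∀ i, |il_pr n (a, b) i| ≤ R) ↔ (∀ j, |a j| ≤ R) ∧ ∀ j, |b j| ≤ R := by
  constructor
  · intro h
    refine ⟨fun j => ?_, fun j => ?_⟩
    · have h1 := h ((il_sig n).symm (Sum.inl j))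
      have h2 : il_pr n (a, b) ((il_sig n).symm (Sum.inl j)) = a j := by
        show Sum.elim a b (il_sig n ((il_sig n).symm (Sum.inl j))) = a j
        rw [Equiv.apply_symm_apply, Sum.elim_inl]
      rwa [h2] at h1
    · have h1 := h ((il_sig n).symm (Sum.inr j))
      have h2 : il_pr n (a, b) ((il_sig n).symm (Sum.inr j)) = b j := by
        show Sum.elim a b (il_sig n ((il_sig n).symm (Sum.inr j))) = b j
        rw [Equiv.apply_symm_apply, Sum.elim_inr]
      rwa [h2] at h1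
  · rintro ⟨h1, h2⟩ i
    show |Sum.elim a b (il_sig n i)| ≤ R
    cases il_sig n i with
    | inl j => exact h1 j
    | inr j => exact h2 j

section

variable {k : Type} [Field k] [NumberField k] {L : Type} [Field L] [NumberField L] [Algebra k L]

theorem il_inj {b : 𝓞 k} {β : L} (h : β ^ 2 = algebraMap k L b) (hb : ¬ IsSquare (b : k))
    {x y : 𝓞 k} (h0 : algebraMap k L x + algebraMap k L y * β = 0) : x = 0 ∧ y = 0 := by
  by_cases hy : (y : k) = 0
  · rw [hy, map_zero, zero_mul, add_zero] at h0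
    have hx := (map_eq_zero (algebraMap k L)).1 h0
    exact ⟨RingOfIntegers.coe_eq_zero_iff.1 hx, RingOfIntegers.coe_eq_zero_iff.1 hy⟩
  · exfalso
    apply qx_not_range h hb (-(x : k) / y)
    rw [map_div₀, map_neg, eq_div_iff ((map_ne_zero _).2 hy)]
    linear_combination h0

/-- the coordinates over the integers of `k` -/
noncomputable def il_hom (b : 𝓞 k) (β : L) (h : β ^ 2 = algebraMap k L b) :
    (𝓞 k × 𝓞 k) →+ ordA b β h where
  toFun p := ⟨algebraMap k L p.1 + algebraMap k L p.2 * β, p.1, p.2, rfl⟩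
  map_zero' := by
    apply Subtype.ext
    have e2 : (((0 : 𝓞 k × 𝓞 k).1 : 𝓞 k) : k) = 0 := rfl
    have e3 : (((0 : 𝓞 k × 𝓞 k).2 : 𝓞 k) : k) = 0 := rfl
    show algebraMap k L _ + algebraMap k L _ * β = 0
    rw [e2, e3, map_zero, zero_mul, add_zero]
  map_add' p q := by
    apply Subtype.ext
    have e2 : (((p + q).1 : 𝓞 k) : k) = (p.1 : k) + q.1 := rfl
    have e3 : (((p + q).2 : 𝓞 k) : k) = (p.2 : k) + q.2 := rfl
    show algebraMap k L _ + algebraMap k L _ * β =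
      (algebraMap k L p.1 + algebraMap k L p.2 * β) + (algebraMap k L q.1 + algebraMap k L q.2 * β)
    rw [e2, e3, map_add, map_add]
    ring

theorem il_hom_coe (b : 𝓞 k) (β : L) (h : β ^ 2 = algebraMap k L b) (p : 𝓞 k × 𝓞 k) :
    ((il_hom b β h p : ordA b β h) : L) = algebraMap k L p.1 + algebraMap k L p.2 * β := rfl

theorem il_hom_bij {b : 𝓞 k} {β : L} (h : β ^ 2 = algebraMap k L b) (hb : ¬ IsSquare (b : k)) :
    Function.Bijective (il_hom b β h) := by
  constructor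
  · rw [injective_iff_map_eq_zero]
    intro p hp
    have h1 : algebraMap k L p.1 + algebraMap k L p.2 * β = 0 := by
      rw [← il_hom_coe b β h p, hp]
      rfl
    have h2 := il_inj h hb h1
    exact Prod.ext h2.1 h2.2
  · rintro ⟨z, x, y, rfl⟩
    exact ⟨(x, y), rfl⟩

/-- the coordinates over the integers of `k` -/
noncomputable def il_phi {b : 𝓞 k} {β : L} (h : β ^ 2 = algebraMap k L b)
    (hb : ¬ IsSquare (b : k)) : (𝓞 k × 𝓞 k) ≃+ ordA b β h :=
  AddEquiv.ofBijective (il_hom b β h) (il_hom_bij h hb)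

theorem il_phi_coe {b : 𝓞 k} {β : L} (h : β ^ 2 = algebraMap k L b) (hb : ¬ IsSquare (b : k))
    (p : 𝓞 k × 𝓞 k) : ((il_phi h hb p : ordA b β h) : L) =
      algebraMap k L p.1 + algebraMap k L p.2 * β := rfl

theorem il_phi_mul {b : 𝓞 k} {β : L} (h : β ^ 2 = algebraMap k L b) (hb : ¬ IsSquare (b : k))
    (p q : 𝓞 k × 𝓞 k) : il_phi h hb p * il_phi h hb q =
      il_phi h hb (p.1 * q.1 + b * (p.2 * q.2), p.1 * q.2 + p.2 * q.1) := by
  apply Subtype.ext
  rw [il_phi_coe]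
  show (il_phi h hb p : L) * (il_phi h hb q : L) = _
  rw [il_phi_coe, il_phi_coe]
  have e1 : ((p.1 * q.1 + b * (p.2 * q.2) : 𝓞 k) : k) = (p.1 : k) * q.1 + b * (p.2 * q.2) := rfl
  have e2 : ((p.1 * q.2 + p.2 * q.1 : 𝓞 k) : k) = (p.1 : k) * q.2 + p.2 * q.1 := rfl
  rw [e1, e2]
  simp only [map_add, map_mul]
  linear_combination (algebraMap k L p.2 * algebraMap k L q.2) * h

theorem il_phi_one {b : 𝓞 k} {β : L} (h : β ^ 2 = algebraMap k L b) (hb : ¬ IsSquare (b : k)) :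
    (1 : ordA b β h) = il_phi h hb (1, 0) := by
  apply Subtype.ext
  rw [il_phi_coe]
  have e1 : ((1 : 𝓞 k) : k) = 1 := rfl
  have e2 : ((0 : 𝓞 k) : k) = 0 := rfl
  show (1 : L) = algebraMap k L ((1 : 𝓞 k) : k) + algebraMap k L ((0 : 𝓞 k) : k) * β
  rw [e1, e2, map_one, map_zero, zero_mul, add_zero]

/-- integral coordinates -/
noncomputable def il_e {b : 𝓞 k} {β : L} (h : β ^ 2 = algebraMap k L b)
    (hb : ¬ IsSquare (b : k)) : ordA b β h ≃+ (Fin (2 * dg k) → ℤ) :=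
  (il_phi h hb).symm.trans
    (((kco k).equivFun.toAddEquiv.prodCongr (kco k).equivFun.toAddEquiv).trans (il_pr (dg k)))

theorem il_e_le {b : 𝓞 k} {β : L} (h : β ^ 2 = algebraMap k L b) (hb : ¬ IsSquare (b : k))
    (p : 𝓞 k × 𝓞 k) (R : ℕ) : (∀ i, |il_e h hb (il_phi h hb p) i| ≤ (R : ℤ)) ↔
      sz p.1 ≤ R ∧ sz p.2 ≤ R := by
  have h1 : il_e h hb (il_phi h hb p) =
      il_pr (dg k) (fun i => (kco k).repr p.1 i, fun i => (kco k).repr p.2 i) := by
    unfold il_e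
    rw [AddEquiv.trans_apply, AddEquiv.symm_apply_apply]
    rfl
  rw [h1, il_pr_le, il_sz_le, il_sz_le]

/-- the norm -/
noncomputable def il_nrm {b : 𝓞 k} {β : L} (h : β ^ 2 = algebraMap k L b)
    (hb : ¬ IsSquare (b : k)) (z : ordA b β h) : ℕ :=
  (Algebra.norm ℤ (((il_phi h hb).symm z).1 ^ 2 - b * ((il_phi h hb).symm z).2 ^ 2)).natAbs

theorem il_nrm_phi {b : 𝓞 k} {β : L} (h : β ^ 2 = algebraMap k L b) (hb : ¬ IsSquare (b : k))
    (p : 𝓞 k × 𝓞 k) : il_nrm h hb (il_phi h hb p) =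
      (Algebra.norm ℤ (p.1 ^ 2 - b * p.2 ^ 2)).natAbs := by
  unfold il_nrm
  rw [AddEquiv.symm_apply_apply]

theorem il_nrm_eq {b : 𝓞 k} {β : L} (h : β ^ 2 = algebraMap k L b) (hb : ¬ IsSquare (b : k))
    (hL : Module.finrank k L = 2) (z : ordA b β h) :
    ((il_nrm h hb z : ℕ) : ℚ) = |Algebra.norm ℚ (z : L)| := by
  obtain ⟨p, rfl⟩ := (il_phi h hb).surjective z
  have hnn : Algebra.norm ℚ (algebraMap k L p.1 + algebraMap k L p.2 * β) =
      Algebra.norm ℚ (Algebra.norm k (algebraMap k L p.1 + algebraMap k L p.2 * β)) :=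
    Algebra.norm_norm.symm
  rw [il_nrm_phi, il_phi_coe, hnn, qx_norm_form h hb hL]
  have e1 : ((p.1 ^ 2 - b * p.2 ^ 2 : 𝓞 k) : k) = (p.1 : k) ^ 2 - b * (p.2 : k) ^ 2 := rfl
  rw [← e1, ← Algebra.coe_norm_int, ← Int.cast_abs, Nat.cast_natAbs]

end

theorem latSt (k : Type) [Field k] [NumberField k] (h1 : SzSt k) : LatSt k := by
  obtain ⟨C0, hC0, hone, hmul, hnorm⟩ := h1
  have hn := il_dg_pos (k := k)
  refine ⟨2 * C0 ^ (2 * dg k + 1), ?_, ?_⟩
  · have : 1 ≤ C0 ^ (2 * dg k + 1) := Nat.one_le_pow _ _ hC0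
    omega
  intro L _ _ _ b β h hL hb
  have hCb : C0 ^ 2 ≤ C0 ^ (2 * dg k + 1) := Nat.pow_le_pow_right hC0 (by omega)
  have hC1 : C0 ≤ C0 ^ (2 * dg k + 1) := by
    calc C0 = C0 ^ 1 := (pow_one _).symm
      _ ≤ _ := Nat.pow_le_pow_right hC0 (by omega)
  have hs1 : 1 + sz b ≤ (1 + sz b) ^ dg k := by
    calc 1 + sz b = (1 + sz b) ^ 1 := (pow_one _).symm
      _ ≤ _ := Nat.pow_le_pow_right (by omega) hn
  have hs2 : 1 ≤ (1 + sz b) ^ dg k := by omega
  have hszmul : ∀ (x y : 𝓞 k) (R S : ℕ), sz x ≤ R → sz y ≤ S → sz (x * y) ≤ C0 * R * S := by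
    intro x y R S hx hy
    exact (hmul x y).trans (Nat.mul_le_mul (Nat.mul_le_mul_left _ hx) hy)
  refine ⟨{ e := il_e h hb, nrm := il_nrm h hb, c_pos := ?_, one_le := ?_, mul_le := ?_,
            nrm_mul := ?_, nrm_pos := ?_, nrm_le := ?_ }, fun x => il_nrm_eq h hb hL x⟩
  · have h3 : 1 ≤ C0 ^ (2 * dg k + 1) := Nat.one_le_pow _ _ hC0
    exact Nat.mul_pos (by omega) (by omega)
  · rw [il_phi_one h hb]
    rw [il_e_le]
    refine ⟨hone.trans ?_, ?_⟩
    · calc C0 ≤ 2 * C0 ^ (2 * dg k + 1) := by omega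
        _ ≤ 2 * C0 ^ (2 * dg k + 1) * (1 + sz b) ^ dg k := Nat.le_mul_of_pos_right _ (by omega)
    · rw [il_sz_zero]
      exact Nat.zero_le _
  · intro x y R S hx hy
    obtain ⟨p, rfl⟩ := (il_phi h hb).surjective x
    obtain ⟨q, rfl⟩ := (il_phi h hb).surjective y
    rw [il_e_le] at hx hy
    rw [il_phi_mul]
    have hg : ∀ i, |il_e h hb (il_phi h hb
        (p.1 * q.1 + b * (p.2 * q.2), p.1 * q.2 + p.2 * q.1)) i| ≤
        ((2 * C0 ^ (2 * dg k + 1) * (1 + sz b) ^ dg k * R * S : ℕ) : ℤ) := by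
      rw [il_e_le]
      have e0 : C0 ^ 2 * (1 + sz b) ≤ C0 ^ (2 * dg k + 1) * (1 + sz b) ^ dg k :=
        Nat.mul_le_mul hCb hs1
      have e00 : C0 ≤ C0 ^ (2 * dg k + 1) * (1 + sz b) ^ dg k :=
        hC1.trans (Nat.le_mul_of_pos_right _ (by omega))
      constructor
      · have e1 : sz (p.1 * q.1) ≤ C0 * R * S := hszmul _ _ _ _ hx.1 hy.1
        have e2 : sz (p.2 * q.2) ≤ C0 * R * S := hszmul _ _ _ _ hx.2 hy.2
        have e3 : sz (b * (p.2 * q.2)) ≤ C0 * sz b * (C0 * R * S) :=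
          hszmul _ _ _ _ (le_refl _) e2
        calc sz (p.1 * q.1 + b * (p.2 * q.2)) ≤ C0 * R * S + C0 * sz b * (C0 * R * S) :=
              (il_sz_add _ _).trans (add_le_add e1 e3)
          _ ≤ C0 ^ 2 * (R * S) + C0 ^ 2 * sz b * (R * S) := by
              have e4 : C0 ≤ C0 ^ 2 := by nlinarith
              have e5 : C0 * R * S ≤ C0 ^ 2 * (R * S) := by
                rw [mul_assoc]
                exact Nat.mul_le_mul_right _ e4
              have e6 : C0 * sz b * (C0 * R * S) = C0 ^ 2 * sz b * (R * S) := by ring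
              omega
          _ = C0 ^ 2 * (1 + sz b) * (R * S) := by ring
          _ ≤ C0 ^ (2 * dg k + 1) * (1 + sz b) ^ dg k * (R * S) := Nat.mul_le_mul_right _ e0
          _ ≤ 2 * (C0 ^ (2 * dg k + 1) * (1 + sz b) ^ dg k * (R * S)) := by omega
          _ = _ := by ring
      · have e1 : sz (p.1 * q.2) ≤ C0 * R * S := hszmul _ _ _ _ hx.1 hy.2
        have e2 : sz (p.2 * q.1) ≤ C0 * R * S := hszmul _ _ _ _ hx.2 hy.1
        calc sz (p.1 * q.2 + p.2 * q.1) ≤ C0 * R * S + C0 * R * S :=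
              (il_sz_add _ _).trans (add_le_add e1 e2)
          _ = 2 * (C0 * (R * S)) := by ring
          _ ≤ 2 * (C0 ^ (2 * dg k + 1) * (1 + sz b) ^ dg k * (R * S)) :=
              Nat.mul_le_mul_left _ (Nat.mul_le_mul_right _ e00)
          _ = _ := by ring
    intro i
    have h9 := hg i
    push_cast at h9 ⊢
    exact h9
  · intro x y
    have h3 := il_nrm_eq h hb hL (x * y)
    have h4 : ((x * y : ordA b β h) : L) = (x : L) * (y : L) := rfl
    rw [h4, map_mul, abs_mul, ← il_nrm_eq h hb hL, ← il_nrm_eq h hb hL] at h3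
    exact_mod_cast h3
  · intro x hx
    have h3 := il_nrm_eq h hb hL x
    have h4 : (x : L) ≠ 0 := fun h5 => hx (Subtype.ext h5)
    have h5 : Algebra.norm ℚ (x : L) ≠ 0 := (Algebra.norm_ne_zero_iff).2 h4
    have h6 : (0 : ℚ) < |Algebra.norm ℚ (x : L)| := abs_pos.2 h5
    rw [← h3] at h6
    exact_mod_cast h6
  · intro x R hx
    obtain ⟨p, rfl⟩ := (il_phi h hb).surjective x
    rw [il_e_le] at hx
    rw [il_nrm_phi]
    have e1 : sz (p.1 ^ 2 - b * p.2 ^ 2) ≤ C0 ^ 2 * (1 + sz b) * R ^ 2 := by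
      have e2 : sz (p.1 ^ 2) ≤ C0 * R * R := by
        rw [pow_two]
        exact hszmul _ _ _ _ hx.1 hx.1
      have e3 : sz (p.2 ^ 2) ≤ C0 * R * R := by
        rw [pow_two]
        exact hszmul _ _ _ _ hx.2 hx.2
      have e4 : sz (b * p.2 ^ 2) ≤ C0 * sz b * (C0 * R * R) := hszmul _ _ _ _ (le_refl _) e3
      have e5 : sz (p.1 ^ 2 - b * p.2 ^ 2) ≤ sz (p.1 ^ 2) + sz (b * p.2 ^ 2) := by
        rw [sub_eq_add_neg]
        refine (il_sz_add _ _).trans ?_
        rw [il_sz_neg]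
      have e6 : C0 ≤ C0 ^ 2 := by nlinarith
      have e7 : C0 * R * R ≤ C0 ^ 2 * (R * R) := by
        rw [mul_assoc]
        exact Nat.mul_le_mul_right _ e6
      calc sz (p.1 ^ 2 - b * p.2 ^ 2) ≤ C0 * R * R + C0 * sz b * (C0 * R * R) := by omega
        _ ≤ C0 ^ 2 * (R * R) + C0 ^ 2 * sz b * (R * R) := by
            have e8 : C0 * sz b * (C0 * R * R) = C0 ^ 2 * sz b * (R * R) := by ring
            omega
        _ = _ := by ring
    calc (Algebra.norm ℤ (p.1 ^ 2 - b * p.2 ^ 2)).natAbs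
        ≤ C0 * sz (p.1 ^ 2 - b * p.2 ^ 2) ^ dg k := hnorm _
      _ ≤ C0 * (C0 ^ 2 * (1 + sz b) * R ^ 2) ^ dg k :=
          Nat.mul_le_mul_left _ (Nat.pow_le_pow_left e1 _)
      _ = C0 ^ (2 * dg k + 1) * (1 + sz b) ^ dg k * R ^ (2 * dg k) := by
          rw [mul_pow, mul_pow, ← pow_mul, ← pow_mul, pow_succ]
          ring
      _ ≤ 2 * (C0 ^ (2 * dg k + 1) * (1 + sz b) ^ dg k * R ^ (2 * dg k)) := by omega
      _ = _ := by ring

end Pool.Agent.H32.MQ
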