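import Pool.Agent.H32.MQ.BFInst
import Pool.Agent.H98.MF.C.Lin
import Pool.Agent.H98.MF.C.C3b
import Pool.Agent.H98.MF.C.C3c

/-!
# Malle's conjecture for 8T28 and 8T29, block BF: the number of local classes
-/

set_option autoImplicit false

open scoped BigOperators
open NumberField IsDedekindDomain

namespace Pool.Agent.H32.MQ

open Pool.Agent.H98.MF

section

variable {k : Type} [Field k] [NumberField k] {L : Type} [Field L] [NumberField L] [Algebra k L]

private theorem ilc_nrm_pos {K : Type} [Field K] [NumberField K]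
    (P : HeightOneSpectrum (𝓞 K)) : 1 ≤ nrm P := by
  unfold nrm
  rw [Nat.one_le_iff_ne_zero]
  intro h
  exact P.ne_bot (Ideal.absNorm_eq_zero_iff.1 h)

/-- the exponents in a quadratic extension -/
private theorem ilc_ef (hL : Module.finrank k L = 2) {P : HeightOneSpectrum (𝓞 k)}
    {Q : HeightOneSpectrum (𝓞 L)} (h : Over P Q) :
    P.asIdeal.ramificationIdx' Q.asIdeal * P.asIdeal.inertiaDeg' Q.asIdeal ≤ 2 := by
  have hm := P.isMaximal
  have h1 := Ideal.sum_ramification_inertia (𝓞 L) k L P.ne_bot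
  rw [hL] at h1
  have h2 : Q.asIdeal ∈ IsDedekindDomain.primesOverFinset P.asIdeal (𝓞 L) := by
    rw [IsDedekindDomain.mem_primesOverFinset_iff P.ne_bot]
    exact ⟨Q.isPrime, h.liesOver⟩
  rw [← h1]
  exact Finset.single_le_sum (f := fun I : Ideal (𝓞 L) =>
    P.asIdeal.ramificationIdx' I * P.asIdeal.inertiaDeg' I) (fun _ _ => Nat.zero_le _) h2

private theorem ilc_e (hL : Module.finrank k L = 2) {P : HeightOneSpectrum (𝓞 k)}
    {Q : HeightOneSpectrum (𝓞 L)} (h : Over P Q) :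
    P.asIdeal.ramificationIdx' Q.asIdeal ≤ 2 := by
  have hm := P.isMaximal
  have h0 := h.liesOver
  have h1 : 0 < P.asIdeal.inertiaDeg' Q.asIdeal := Ideal.inertiaDeg'_pos _ _
  exact (Nat.le_mul_of_pos_right _ h1).trans (ilc_ef hL h)

private theorem ilc_f (hL : Module.finrank k L = 2) {P : HeightOneSpectrum (𝓞 k)}
    {Q : HeightOneSpectrum (𝓞 L)} (h : Over P Q) :
    P.asIdeal.inertiaDeg' Q.asIdeal ≤ 2 :=
  (Nat.le_mul_of_pos_left _ h.ram_pos).trans (ilc_ef hL h)

/-- the bound for the index at a prime above `P` -/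
private noncomputable def ilc_g (P : HeightOneSpectrum (𝓞 k)) : ℕ :=
  4 * nrm P ^ (4 * (ord P (2 : k)).toNat)

private theorem ilc_g_pos (P : HeightOneSpectrum (𝓞 k)) : 1 ≤ ilc_g P := by
  unfold ilc_g
  exact Nat.mul_pos (by norm_num) (pow_pos (ilc_nrm_pos P) _)

private theorem ilc_idx (hL : Module.finrank k L = 2) {P : HeightOneSpectrum (𝓞 k)}
    {Q : HeightOneSpectrum (𝓞 L)} (h : Over P Q) :
    (LS (Sum.inl Q : Pl L)).index ≤ ilc_g P := by
  rw [(Pool.Agent.H98.MF.B.lin L).idxP Q]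
  unfold ilc_g
  refine Nat.mul_le_mul_left 4 ?_
  have h1 : nrm Q ≤ nrm P ^ 2 := by
    have h2 : nrm Q = nrm P ^ P.asIdeal.inertiaDeg' Q.asIdeal := over_absNorm h
    rw [h2]
    exact Nat.pow_le_pow_right (ilc_nrm_pos P) (ilc_f hL h)
  have h3 : (ord Q (2 : L)).toNat ≤ 2 * (ord P (2 : k)).toNat := by
    have h4 := h.ord_map (2 : k)
    rw [map_ofNat] at h4
    rw [h4]
    have h5 : (0 : ℤ) ≤ ord P (2 : k) := by
      have h6 := Pool.Agent.H98.MF.B.ord_alg_nonneg P (2 : 𝓞 k)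
      have h7 : algebraMap (𝓞 k) k (2 : 𝓞 k) = (2 : k) := map_ofNat _ 2
      rwa [h7] at h6
    have h8 : (P.asIdeal.ramificationIdx' Q.asIdeal : ℤ) ≤ 2 := by exact_mod_cast ilc_e hL h
    rw [Int.toNat_le, Nat.cast_mul, Int.toNat_of_nonneg h5]
    exact mul_le_mul_of_nonneg_right h8 h5
  calc nrm Q ^ (ord Q (2 : L)).toNat
      ≤ nrm Q ^ (2 * (ord P (2 : k)).toNat) := Nat.pow_le_pow_right (ilc_nrm_pos Q) h3
    _ ≤ (nrm P ^ 2) ^ (2 * (ord P (2 : k)).toNat) := Nat.pow_le_pow_left h1 _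
    _ = nrm P ^ (4 * (ord P (2 : k)).toNat) := by
      rw [← pow_mul]
      congr 1
      ring

/-- few real places -/
private theorem ilc_real (hL : Module.finrank k L = 2) :
    Fintype.card (L →+* ℝ) ≤ 2 * Module.finrank ℚ k := by
  have h1 : Fintype.card (L →+* ℝ) ≤ Fintype.card (L →+* ℂ) := by
    refine Fintype.card_le_of_injective (fun φ => Complex.ofRealHom.comp φ) fun φ ψ h => ?_
    ext x
    have h2 := congrArg (fun f : L →+* ℂ => f x) h
    exact Complex.ofReal_injective h2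
  rw [Embeddings.card L ℂ] at h1
  have h2 := Module.finrank_mul_finrank ℚ k L
  rw [hL] at h2
  rw [mul_comm, h2]
  exact h1

end

section

variable {k : Type} [Field k] [NumberField k] {Fr : Frm k} {L : Type} [Field L]
  [NumberField L] [Algebra k L] (X : HX Fr L)

open Classical in
/-- the product over the primes above `S₀` and `M` -/
private theorem ilc_prod : ∏ Q ∈ X.SL, (LS (Sum.inl Q : Pl L)).index ≤
    (∏ P ∈ Fr.S, ilc_g P ^ 2) * 16 ^ X.M.card := by
  have hL := X.qe.deg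
  have hmap : ∀ Q ∈ X.SL, HeightOneSpectrum.under (𝓞 k) Q ∈ Fr.S ∪ X.M.image Fr.pl := by
    intro Q hQ
    obtain ⟨P, hP, h⟩ := (X.mem_SL Q).1 hQ
    have h1 : HeightOneSpectrum.under (𝓞 k) Q = P := HeightOneSpectrum.ext h
    rw [h1]
    exact hP
  rw [← Finset.prod_fiberwise_of_maps_to hmap]
  have h1 : ∀ P ∈ Fr.S ∪ X.M.image Fr.pl,
      ∏ Q ∈ X.SL with HeightOneSpectrum.under (𝓞 k) Q = P, (LS (Sum.inl Q : Pl L)).index ≤
        ilc_g P ^ 2 := by
    intro P _
    have h2 : ∀ Q ∈ X.SL.filter (fun Q => HeightOneSpectrum.under (𝓞 k) Q = P),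
        (LS (Sum.inl Q : Pl L)).index ≤ ilc_g P := by
      intro Q hQ
      have h3 := (Finset.mem_filter.1 hQ).2
      have h4 : Over P Q := by
        rw [← h3]
        exact rfl
      exact ilc_idx hL h4
    refine (Finset.prod_le_pow_card _ _ _ h2).trans ?_
    refine Nat.pow_le_pow_right (ilc_g_pos P) ?_
    obtain ⟨Q0, hQ0⟩ := exists_over (L := L) P
    have h5 : X.SL.filter (fun Q => HeightOneSpectrum.under (𝓞 k) Q = P) ⊆
        {Q0, cj X.sig Q0} := by
      intro Q hQ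
      have h3 := (Finset.mem_filter.1 hQ).2
      have h4 : Over P Q := by
        rw [← h3]
        exact rfl
      rw [Finset.mem_insert, Finset.mem_singleton]
      exact Pool.Agent.H98.MF.B.qe_over X.qe X.sig X.sig_α hQ0 h4
    exact (Finset.card_le_card h5).trans Finset.card_le_two
  refine (Finset.prod_le_prod' h1).trans ?_
  have hdis : Disjoint Fr.S (X.M.image Fr.pl) := by
    rw [Finset.disjoint_right]
    intro P hP
    obtain ⟨p, _, rfl⟩ := Finset.mem_image.1 hP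
    exact hb_notMem Fr p
  rw [Finset.prod_union hdis, Finset.prod_image fun p _ q _ h => Fr.pl_inj h]
  refine Nat.mul_le_mul_left _ ?_
  have h6 : ∀ p ∈ X.M, ilc_g (Fr.pl p) ^ 2 ≤ 16 := by
    intro p _
    unfold ilc_g
    rw [hb_two Fr p]
    norm_num
  exact Finset.prod_le_pow_card _ _ _ h6

private theorem ilc_fin (v : Pl L) : (LS v).index ≠ 0 := by
  rcases v with Q | φ
  · rw [(Pool.Agent.H98.MF.B.lin L).idxP Q]
    exact (Nat.mul_pos (by norm_num) (pow_pos (ilc_nrm_pos Q) _)).ne'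
  · rw [(Pool.Agent.H98.MF.B.lin L).idxR φ]
    norm_num

private theorem ilc_finite : Finite (LmX X) := by
  have h : ∀ v : PM X, Finite (Lˣ ⧸ LS v.1) := fun v => by
    have h1 := ilc_fin v.1
    unfold Subgroup.index at h1
    exact Nat.finite_of_card_ne_zero h1
  unfold LmX
  exact Pi.finite

private theorem ilc_card : Nat.card (LmX X) =
    (∏ Q ∈ X.SL, (LS (Sum.inl Q : Pl L)).index) * 2 ^ Fintype.card (L →+* ℝ) := by
  classical
  have h1 : Nat.card (LmX X) = ∏ v : PM X, (LS v.1).index := by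
    unfold LmX
    rw [Nat.card_pi]
    rfl
  rw [h1, Finset.prod_coe_sort (pls X.SL) fun v => (LS v).index]
  unfold pls
  rw [Finset.prod_disjSum]
  congr 1
  have h2 : ∀ φ ∈ (Finset.univ : Finset (L →+* ℝ)), (LS (Sum.inr φ : Pl L)).index = 2 :=
    fun φ _ => (Pool.Agent.H98.MF.B.lin L).idxR φ
  rw [Finset.prod_congr rfl h2, Finset.prod_const, Finset.card_univ]

end

/-- I8: the number of local classes -/
theorem lcSt {k : Type} [Field k] [NumberField k] (Fr : Frm k) : LcSt Fr := by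
  classical
  refine ⟨(∏ P ∈ Fr.S, ilc_g P ^ 2) * 2 ^ (2 * Module.finrank ℚ k), 4, ?_, ?_⟩
  · refine Nat.mul_pos ?_ (by positivity)
    exact Finset.prod_pos fun P _ => pow_pos (ilc_g_pos P) 2
  intro L _ _ _ X
  refine ⟨ilc_finite X, ?_⟩
  rw [ilc_card]
  have h1 := ilc_prod X
  have h2 : 2 ^ Fintype.card (L →+* ℝ) ≤ 2 ^ (2 * Module.finrank ℚ k) :=
    Nat.pow_le_pow_right (by norm_num) (ilc_real X.qe.deg)
  have h3 : 16 ^ X.M.card ≤ Fr.sys.nm X.M ^ 4 := by
    have h4 : (16 : ℕ) = 2 ^ 4 := by norm_num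
    rw [h4, ← pow_mul, mul_comm, pow_mul]
    exact Nat.pow_le_pow_left (Pre.pow_card_le_nm _ X.M) 4
  calc (∏ Q ∈ X.SL, (LS (Sum.inl Q : Pl L)).index) * 2 ^ Fintype.card (L →+* ℝ)
      ≤ ((∏ P ∈ Fr.S, ilc_g P ^ 2) * 16 ^ X.M.card) * 2 ^ (2 * Module.finrank ℚ k) :=
        Nat.mul_le_mul h1 h2
    _ ≤ ((∏ P ∈ Fr.S, ilc_g P ^ 2) * Fr.sys.nm X.M ^ 4) * 2 ^ (2 * Module.finrank ℚ k) :=
        Nat.mul_le_mul_right _ (Nat.mul_le_mul_left _ h3)
    _ = _ := by ring

end Pool.Agent.H32.MQ
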