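import Pool.Agent.H32.MQ.BFInst
import Pool.Agent.H98.MF.C.Val

/-!
# Malle's conjecture for 8T28 and 8T29, block BF: exponents and norms
-/

set_option autoImplicit false

open scoped BigOperators
open NumberField IsDedekindDomain

namespace Pool.Agent.H32.MQ

open Pool.Agent.H98.MF

theorem ndSt (L : Type) [Field L] [NumberField L] : NdSt L := by
  classical
  intro x hx
  refine ⟨fun Q => B.ord_alg_nonneg Q x, fun T => ?_⟩
  have h1 : (Algebra.norm ℤ x).natAbs = Ideal.absNorm (Ideal.span {x} : Ideal (𝓞 L)) :=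
    (Ideal.absNorm_span_singleton x).symm
  have hs0 : (Ideal.span {x} : Ideal (𝓞 L)) ≠ 0 := by
    intro h
    exact hx (Ideal.span_singleton_eq_bot.1 h)
  have h2 : ∀ Q : HeightOneSpectrum (𝓞 L), (ord Q (x : L)).toNat =
      (Associates.mk Q.asIdeal).count (Associates.mk (Ideal.span {x} : Ideal (𝓞 L))).factors := by
    intro Q
    have e : ord Q (x : L) = _ := B.ord_int Q x hx
    rw [e, Int.toNat_natCast]
  have h3 : ∏ Q ∈ T, nrm Q ^ (ord Q (x : L)).toNat =
      Ideal.absNorm (∏ Q ∈ T, Q.asIdeal ^ (ord Q (x : L)).toNat) := by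
    rw [map_prod]
    refine Finset.prod_congr rfl fun Q _ => ?_
    rw [map_pow]
    rfl
  rw [h1, h3]
  apply Ideal.absNorm_dvd_absNorm_of_le
  rw [← Ideal.dvd_iff_le]
  refine Finset.prod_dvd_of_coprime ?_ ?_
  · intro Q _ Q' _ hne
    exact (Q.isCoprime_of_ne Q' hne).pow
  · intro Q _
    rw [← Associates.mk_dvd_mk, Associates.mk_pow]
    refine (Associates.prime_pow_dvd_iff_le (Associates.mk_ne_zero.2 hs0)
      (Q.associates_irreducible)).2 ?_
    rw [h2 Q]

end Pool.Agent.H32.MQ
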