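import Pool.Agent.H32.MQ.BFInst

/-!
# Malle's conjecture for 8T28 and 8T29, block BF, row I7: the product formula
-/

set_option autoImplicit false

open scoped BigOperators
open NumberField IsDedekindDomain

namespace Pool.Agent.H32.MQ

open Pool.Agent.H98.MF

namespace IPf

section

variable {L : Type} [Field L] [NumberField L]

theorem hv_ls (hl : LIn L) (v : Pl L) {s : Lˣ} (hs : s ∈ LS v) (b : Lˣ) :
    hv v (s : L) (b : L) = 0 :=
  (hl.nd v s).2 ((hl.memLS v s).1 hs) b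

/-- the symbol depends only on the classes modulo local squares -/
theorem hv_out (hl : LIn L) (v : Pl L) (x y : Lˣ) :
    hv v ((Quotient.out ((x : Lˣ) : Lˣ ⧸ LS v) : Lˣ) : L)
      ((Quotient.out ((y : Lˣ) : Lˣ ⧸ LS v) : Lˣ) : L) = hv v (x : L) (y : L) := by
  obtain ⟨⟨s, hs⟩, h1⟩ := QuotientGroup.mk_out_eq_mul (LS v) x
  obtain ⟨⟨t, ht⟩, h2⟩ := QuotientGroup.mk_out_eq_mul (LS v) y
  have h1' : (Quotient.out ((x : Lˣ) : Lˣ ⧸ LS v) : Lˣ) = x * s := h1
  have h2' : (Quotient.out ((y : Lˣ) : Lˣ ⧸ LS v) : Lˣ) = y * t := h2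
  rw [h1', h2', hl.mulR, hl.symm v (x * s) y, hl.symm v (x * s) t, hl.mulR, hl.mulR,
    hl.symm v y s, hv_ls hl v hs y, hv_ls hl v ht x, hv_ls hl v ht s, hl.symm v y x]
  simp

end

end IPf

section

variable {k : Type} [Field k] [NumberField k] {Fr : Frm k} {L : Type} [Field L]
  [NumberField L] [Algebra k L]

/-- row I7 -/
theorem pfSt (X : HX Fr L) (h : RecSt L) (hl : LIn L) : PfSt X := by
  classical
  intro x y T hT
  let T' : Finset (HeightOneSpectrum (𝓞 L)) := T.image Subtype.val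
  have hTS : Disjoint X.SL T' := by
    rw [Finset.disjoint_left]
    intro Q hQS hQT
    obtain ⟨Q', -, rfl⟩ := Finset.mem_image.1 hQT
    obtain ⟨p, hp, hov⟩ := Q'.2
    exact HP.not_SL X hp hov hQS
  have hT0 : ∀ Q, Q ∉ X.SL ∪ T' → ord Q (x : L) = 0 ∧ ord Q (y : L) = 0 := by
    intro Q hQ
    rw [Finset.mem_union, not_or] at hQ
    obtain ⟨p, hp, hov⟩ := HP.below X hQ.1
    refine hT ⟨Q, ⟨p, hp, hov⟩⟩ fun h1 => hQ.2 ?_
    exact Finset.mem_image.2 ⟨_, h1, rfl⟩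
  have hrec := h (X.SL ∪ T') (fun Q hQ2 => by
      by_contra h3
      rw [Finset.mem_union, not_or] at h3
      obtain ⟨p, hpM, hov⟩ := HP.below X h3.1
      rw [(h_ord X _ _ hpM hov).1] at hQ2
      exact lt_irrefl _ hQ2) x
    (Pool.Agent.H98.MF.B.mem_US.2 fun Q h => (hT0 Q h).1) y
    (Pool.Agent.H98.MF.B.mem_US.2 fun Q h => (hT0 Q h).2)
  have h4 : hX X (fun _ => (x : _)) (fun _ => (y : _)) =
      ∑ v ∈ pls X.SL, hv v (x : L) (y : L) := by
    unfold hX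
    rw [← Finset.sum_coe_sort (pls X.SL) (fun v => hv v (x : L) (y : L))]
    exact Finset.sum_congr rfl fun v _ => IPf.hv_out hl v.1 x y
  have h5 : ∑ Q ∈ T, hs Q.1 (x : L) (y : L) = ∑ Q ∈ T', hs Q (x : L) (y : L) := by
    show _ = ∑ Q ∈ T.image Subtype.val, hs Q (x : L) (y : L)
    rw [Finset.sum_image fun a _ b _ hab => Subtype.ext hab]
  rw [h4, h5]
  unfold pls at hrec ⊢
  rw [Finset.sum_disjSum, Finset.sum_union hTS] at hrec
  rw [Finset.sum_disjSum]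
  have h6 : ∑ Q ∈ T', hs Q (x : L) (y : L) = ∑ Q ∈ T', hv (Sum.inl Q) (x : L) (y : L) := rfl
  rw [h6]
  have h7 : ∑ Q ∈ T', hv (Sum.inl Q) (x : L) (y : L) +
      (∑ Q ∈ X.SL, hv (Sum.inl Q) (x : L) (y : L) +
        ∑ φ : L →+* ℝ, hv (Sum.inr φ) (x : L) (y : L)) = 0 := by
    rw [← hrec]
    ring
  have h8 := eq_neg_of_add_eq_zero_left h7
  rw [ZMod.neg_eq_self_mod_two] at h8
  exact h8

end

end Pool.Agent.H32.MQ
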