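import Pool.Agent.H32.MQ.BFInst

/-!
# Malle's conjecture for 8T28 and 8T29, block BF, instance: small elements of prime ideals
-/

set_option autoImplicit false

open scoped BigOperators
open NumberField IsDedekindDomain

namespace Pool.Agent.H32.MQ

open Pool.Agent.H98.MF

section

variable {k : Type} [Field k] [NumberField k]

/-- the element with given coordinates -/
noncomputable def ipgEl (c : Fin (dg k) → ℕ) : 𝓞 k :=
  ∑ i, (c i : ℤ) • (kco k) i

theorem ipg_repr (c : Fin (dg k) → ℕ) (i : Fin (dg k)) :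
    (kco k).repr (ipgEl c) i = (c i : ℤ) := by
  unfold ipgEl
  rw [Module.Basis.repr_sum_self]

theorem ipg_pow (n N : ℕ) (hn : 0 < n) : ∃ D : ℕ, D ^ n ≤ N ∧ N < (D + 1) ^ n := by
  classical
  have h1 : ∃ D : ℕ, N < (D + 1) ^ n := by
    refine ⟨N, ?_⟩
    calc N < N + 1 := Nat.lt_succ_self N
      _ ≤ (N + 1) ^ n := Nat.le_self_pow hn.ne' _
  refine ⟨Nat.find h1, ?_, Nat.find_spec h1⟩
  rcases Nat.eq_zero_or_pos (Nat.find h1) with h2 | h2
  · rw [h2, Nat.zero_pow hn]
    exact Nat.zero_le _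
  · have h3 := Nat.find_min h1 (Nat.sub_lt h2 Nat.one_pos)
    rw [Nat.sub_add_cancel h2] at h3
    exact not_lt.1 h3

end

/-- small elements of prime ideals -/
theorem pgSt (k : Type) [Field k] [NumberField k] : PgSt k := by
  classical
  intro P
  have hn : 0 < dg k := by
    unfold dg
    exact Module.finrank_pos
  obtain ⟨D, hD1, hD2⟩ := ipg_pow (dg k) (nrm P) hn
  have hfin : Finite (𝓞 k ⧸ P.asIdeal) := Ideal.finiteQuotientOfFreeOfNeBot P.asIdeal P.ne_bot
  letI : Fintype (𝓞 k ⧸ P.asIdeal) := Fintype.ofFinite _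
  have hcard : Fintype.card (𝓞 k ⧸ P.asIdeal) = nrm P := by
    unfold nrm
    rw [Ideal.absNorm_apply, Submodule.cardQuot_apply, Nat.card_eq_fintype_card]
  set S : Finset (Fin (dg k) → ℕ) := Fintype.piFinset fun _ => Finset.range (D + 1) with hS
  have hSc : S.card = (D + 1) ^ dg k := by
    rw [hS, Fintype.card_piFinset, Finset.prod_const, Finset.card_range, Finset.card_univ,
      Fintype.card_fin]
  obtain ⟨c, hc, c', hc', hne, heq⟩ := Finset.exists_ne_map_eq_of_card_lt_of_maps_to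
    (s := S) (t := (Finset.univ : Finset (𝓞 k ⧸ P.asIdeal)))
    (f := fun c => Ideal.Quotient.mk P.asIdeal (ipgEl c))
    (by rw [Finset.card_univ, hcard, hSc]; exact hD2)
    (fun c _ => Finset.mem_coe.2 (Finset.mem_univ _))
  have hcD : ∀ i, c i ≤ D := fun i =>
    Nat.lt_succ_iff.1 (Finset.mem_range.1 (Fintype.mem_piFinset.1 hc i))
  have hcD' : ∀ i, c' i ≤ D := fun i =>
    Nat.lt_succ_iff.1 (Finset.mem_range.1 (Fintype.mem_piFinset.1 hc' i))
  refine ⟨ipgEl c - ipgEl c', ?_, ?_, ?_⟩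
  · intro h0
    apply hne
    have h1 : ipgEl c = ipgEl c' := sub_eq_zero.1 h0
    funext i
    have h2 : (c i : ℤ) = c' i := by
      rw [← ipg_repr c i, ← ipg_repr c' i, h1]
    exact_mod_cast h2
  · exact (Ideal.Quotient.eq).1 heq
  · have h1 : sz (ipgEl c - ipgEl c') ≤ D := by
      unfold sz
      refine Finset.sup_le fun i _ => ?_
      rw [map_sub, Finsupp.sub_apply, ipg_repr, ipg_repr]
      have h2 := hcD i
      have h3 := hcD' i
      omega
    exact (Nat.pow_le_pow_left h1 _).trans hD1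

end Pool.Agent.H32.MQ
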