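import Pool.Agent.H32.MQ.BFInst
import Pool.Agent.H32.MQ.HQr

/-!
# Malle's conjecture for 8T28 and 8T29, block BF, row I9: the residue symbols depend on residues
-/

set_option autoImplicit false
set_option linter.unusedSectionVars false

open scoped BigOperators
open NumberField IsDedekindDomain

namespace Pool.Agent.H32.MQ

open Pool.Agent.H98.MK (sg)
open Pool.Agent.H98.MF

section

variable {k : Type} [Field k] [NumberField k] {Fr : Frm k} {L : Type} [Field L]
  [NumberField L] [Algebra k L] (X : HX Fr L)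

/-- the prime is odd -/
theorem irs_two (b : X.PX) : ord b.1 (2 : L) = 0 :=
  (h_ord X _ _ (X.shX_not b) (X.shX_over b)).1

/-- the values of the residue symbols -/
theorem rsX_abs (b : X.PX) (x : L) : rsX X b x = -1 ∨ rsX X b x = 0 ∨ rsX X b x = 1 := by
  unfold rsX
  split_ifs with h
  · exact Or.inr (Or.inl rfl)
  · unfold sg
    split_ifs with h2
    · exact Or.inr (Or.inr rfl)
    · exact Or.inl rfl

/-- an integer in the prime ideal -/
theorem irs_mem {Q : HeightOneSpectrum (𝓞 L)} {x : 𝓞 L} (h : x ∈ Q.asIdeal) :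
    (x : L) = 0 ∨ ord Q (x : L) ≠ 0 := by
  have h1 := (le_ord_iff Q x 1).2 (by rw [pow_one]; exact h)
  rcases h1 with h1 | h1
  · left
    rw [h1]
    rfl
  · right
    intro h2
    rw [h2] at h1
    norm_num at h1

/-- an integer outside the prime ideal -/
theorem irs_notMem {Q : HeightOneSpectrum (𝓞 L)} {x : 𝓞 L} (h : x ∉ Q.asIdeal) :
    ¬ ((x : L) = 0 ∨ ord Q (x : L) ≠ 0) := by
  rintro (h1 | h1)
  · apply h
    have h2 : x = 0 := by exact_mod_cast h1
    rw [h2]
    exact Q.asIdeal.zero_mem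
  · exact h1 (ord_unit Q h)

theorem rsX_mem (b : X.PX) {x : 𝓞 L} (h : x ∈ b.1.asIdeal) : rsX X b (x : L) = 0 := by
  unfold rsX
  rw [if_pos (irs_mem h)]

theorem rsX_notMem (b : X.PX) {x : 𝓞 L} (h : x ∉ b.1.asIdeal) :
    rsX X b (x : L) = sg (qr (x : L) b.1) := by
  unfold rsX
  rw [if_neg (irs_notMem h)]

/-- quadratic residues modulo the prime ideal -/
theorem irs_qr {Q : HeightOneSpectrum (𝓞 L)} (h2 : ord Q (2 : L) = 0) {x y : 𝓞 L}
    (hx : x ∉ Q.asIdeal) (hy : y ∉ Q.asIdeal) (h : x - y ∈ Q.asIdeal) :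
    qr (x : L) Q = qr (y : L) Q := by
  have key : ∀ {x y : 𝓞 L}, x ∉ Q.asIdeal → y ∉ Q.asIdeal → x - y ∈ Q.asIdeal →
      qr (x : L) Q = 0 → qr (y : L) Q = 0 := by
    intro x y hx hy h h0
    rw [qr_int h2 x hx] at h0
    rw [qr_int h2 y hy]
    obtain ⟨c, hc⟩ := h0
    refine ⟨c, ?_⟩
    have e : y - c ^ 2 = (x - c ^ 2) - (x - y) := by ring
    rw [e]
    exact Q.asIdeal.sub_mem hc h
  have h01 : ∀ a : ZMod 2, a = 0 ∨ a = 1 := by decide
  have hs : y - x ∈ Q.asIdeal := by
    have e : y - x = -(x - y) := by ring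
    rw [e]
    exact Q.asIdeal.neg_mem h
  rcases h01 (qr (x : L) Q) with h3 | h3
  · rw [h3, key hx hy h h3]
  · rcases h01 (qr (y : L) Q) with h4 | h4
    · rw [h4, key hy hx hs h4]
    · rw [h3, h4]

theorem rsSt : RsSt X := by
  intro b x y h
  by_cases hx : x ∈ b.1.asIdeal
  · have hy : y ∈ b.1.asIdeal := by
      have e : y = x - (x - y) := by ring
      rw [e]
      exact b.1.asIdeal.sub_mem hx h
    rw [rsX_mem X b hx, rsX_mem X b hy]
  · have hy : y ∉ b.1.asIdeal := by
      intro hy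
      apply hx
      have e : x = y + (x - y) := by ring
      rw [e]
      exact b.1.asIdeal.add_mem hy h
    rw [rsX_notMem X b hx, rsX_notMem X b hy, irs_qr (irs_two X b) hx hy h]

end

end Pool.Agent.H32.MQ
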