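import Pool.Agent.H32.MQ.BFInst

/-!
# Block BF, I10: elements of the order with given residue symbols

The order `A = O_k[β]`, `β² = b₀`, contains `f O_L` for `f = 2 b₀`, and `f` is prime to the primes
of `X.PX`. An element `u = 1 + f s` of `A` which is prime to `m` in `O_L` is invertible modulo
`m A`: if `v u + w m f = 1` in `O_L`, then `v = 1 - f (w m + v s)` lies in `A`.
-/

set_option autoImplicit false

open scoped BigOperators
open NumberField IsDedekindDomain

namespace Pool.Agent.H32.MQ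

open Pool.Agent.H98.MK (sg)
open Pool.Agent.H98.MF

namespace ITw

section

variable {k : Type} [Field k] [NumberField k] {L : Type} [Field L] [NumberField L] [Algebra k L]

/-- the integral elements of `k` lie in the order -/
theorem base_mem (b : 𝓞 k) (β : L) (h : β ^ 2 = algebraMap k L b) (x : 𝓞 k) :
    algebraMap k L x ∈ ordA b β h := by
  refine ⟨x, 0, ?_⟩
  have e2 : ((0 : 𝓞 k) : k) = 0 := rfl
  rw [e2, map_zero, zero_mul, add_zero]

/-- the conductor: `2 b z` lies in the order -/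
theorem cond (b : 𝓞 k) (β : L) (h : β ^ 2 = algebraMap k L b)
    (hd : Module.finrank k L = 2) (hb : ¬ IsSquare (b : k)) (z : L) (hz : IsIntegral ℤ z) :
    algebraMap k L ((2 * b : 𝓞 k) : k) * z ∈ ordA b β h := by
  obtain ⟨σ, hσ, -, -⟩ := qx_conj h hb hd
  obtain ⟨x, y, hxy⟩ := qx_repr h hb hd z
  have hbi : IsIntegral ℤ (algebraMap k L b) := b.2.map (Algebra.algHom ℤ k L)
  have hβ : IsIntegral ℤ β := by
    refine IsIntegral.of_pow two_pos ?_
    rw [h]
    exact hbi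
  have hσi : ∀ w : L, IsIntegral ℤ w → IsIntegral ℤ (σ w) := fun w hw =>
    hw.map (σ : L →ₐ[k] L).toRingHom.toIntAlgHom
  have e1 : algebraMap k L (2 * x) = z + σ z := by
    rw [hxy]
    simp only [map_add, map_mul, hσ, AlgEquiv.commutes, map_ofNat]
    ring
  have e2 : algebraMap k L (2 * (b : k) * y) = z * β + σ (z * β) := by
    rw [hxy]
    simp only [map_add, map_mul, hσ, AlgEquiv.commutes, map_ofNat]
    linear_combination (-2 * algebraMap k L y) * h
  have i1 : IsIntegral ℤ (2 * x) :=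
    (isIntegral_algebraMap_iff (algebraMap k L).injective).1
      (by rw [e1]; exact hz.add (hσi z hz))
  have i2 : IsIntegral ℤ (2 * (b : k) * y) :=
    (isIntegral_algebraMap_iff (algebraMap k L).injective).1
      (by rw [e2]; exact (hz.mul hβ).add (hσi _ (hz.mul hβ)))
  obtain ⟨x', hx'⟩ : ∃ x' : 𝓞 k, (x' : k) = 2 * x := ⟨⟨_, i1⟩, rfl⟩
  obtain ⟨y', hy'⟩ : ∃ y' : 𝓞 k, (y' : k) = 2 * (b : k) * y := ⟨⟨_, i2⟩, rfl⟩
  refine ⟨b * x', y', ?_⟩
  have f1 : ((b * x' : 𝓞 k) : k) = (b : k) * (x' : k) := rfl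
  have f3 : ((2 * b : 𝓞 k) : k) = 2 * (b : k) := by
    have h1 : ((2 * b : 𝓞 k) : k) = ((2 : 𝓞 k) : k) * (b : k) := rfl
    rw [h1, rc_two]
  rw [f1, hx', hy', f3, hxy]
  simp only [map_mul, map_ofNat]
  ring

/-- a non-residue -/
theorem nonres (Q : HeightOneSpectrum (𝓞 L)) (h2 : ord Q (2 : L) = 0) :
    ∃ r : 𝓞 L, r ∉ Q.asIdeal ∧ qr (r : L) Q = 1 := by
  obtain ⟨u, hu, hu0, hq⟩ := exists_qr_one (P := Q) h2
  obtain ⟨r, t, hr, ht, he⟩ := hq_red (P := Q) hu (by rw [hu0]; exact Even.zero)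
  refine ⟨r, hr, ?_⟩
  unfold qr at hq ⊢
  rw [if_neg]
  intro hl
  rw [if_pos] at hq
  · exact absurd hq (by decide)
  · intro n
    obtain ⟨c, hc⟩ := hl n
    refine ⟨t * c, ?_⟩
    rw [← he] at hc
    rw [mul_pow, ← mul_assoc]
    exact hc

/-- an element of finitely many primes, not in `Q` -/
theorem avoid (Q : HeightOneSpectrum (𝓞 L)) (T : Finset (HeightOneSpectrum (𝓞 L))) (hQ : Q ∉ T) :
    ∃ t : 𝓞 L, (∀ R ∈ T, t ∈ R.asIdeal) ∧ t ∉ Q.asIdeal := by
  have h1 : ¬ (∏ R ∈ T, R.asIdeal ≤ Q.asIdeal) := by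
    intro h
    obtain ⟨R, hR, hle⟩ := (Q.isPrime.prod_le).1 h
    rw [ideal_eq_of_le hle] at hR
    exact hQ hR
  obtain ⟨t, ht, htQ⟩ := SetLike.not_le_iff_exists.1 h1
  exact ⟨t, fun R hR => Ideal.le_of_dvd (Finset.dvd_prod_of_mem _ hR) ht, htQ⟩

end

section

variable {k : Type} [Field k] [NumberField k] {Fr : Frm k} {L : Type} [Field L]
  [NumberField L] [Algebra k L] (X : HX Fr L)

theorem rs_unit (b : X.PX) {x : 𝓞 L} (hx : x ∉ b.1.asIdeal) :
    rsX X b (x : L) = sg (qr (x : L) b.1) := by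
  unfold rsX
  rw [if_neg]
  rintro (h | h)
  · apply hx
    have h1 : x = 0 := by exact_mod_cast h
    rw [h1]
    exact b.1.asIdeal.zero_mem
  · exact h (ord_unit b.1 hx)

theorem rs_one (b : X.PX) : rsX X b ((1 : 𝓞 L) : L) = 1 := by
  have h1 : (1 : 𝓞 L) ∉ b.1.asIdeal := (Ideal.ne_top_iff_one _).1 b.1.isPrime.ne_top
  rw [rs_unit X b h1]
  have h2 : qr ((1 : 𝓞 L) : L) b.1 = 0 := by
    unfold qr
    rw [if_pos]
    intro n
    refine ⟨1, Or.inl ?_⟩
    have : ((1 : 𝓞 L) : L) = 1 := rfl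
    rw [this, one_pow, one_mul]
  rw [h2]
  rfl

end

end ITw

open ITw in
/-- I10: elements of the order with given symbols -/
theorem twSt {k : Type} [Field k] [NumberField k] {Fr : Frm k} {L : Type} [Field L]
    [NumberField L] [Algebra k L] (X : HX Fr L) (hR : RsSt X) : TwSt X := by
  classical
  intro b0 β h hns hord W a ha m hm
  -- the conductor
  set f : 𝓞 L := algebraMap (𝓞 k) (𝓞 L) (2 * b0) with hf
  have hfL : (f : L) = algebraMap k L ((2 * b0 : 𝓞 k) : k) := rfl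
  have hfA : ∀ z : 𝓞 L, ((f * z : 𝓞 L) : L) ∈ ordA b0 β h := by
    intro z
    rw [rc_mul, hfL]
    exact cond b0 β h X.qe.deg hns (z : L) z.2
  have hb0 : (b0 : k) ≠ 0 := by
    intro h0
    exact hns (by rw [h0]; exact ⟨0, by rw [mul_zero]⟩)
  have h2L : ord a.1 (2 : L) = 0 := (h_ord X (X.shX a) a.1 (X.shX_not a) (X.shX_over a)).1
  have hfa : f ∉ a.1.asIdeal := by
    intro hmem
    have h1 := (le_ord_iff a.1 f 1).2 (by rw [pow_one]; exact hmem)
    have e1 : ((2 * b0 : 𝓞 k) : k) = 2 * (b0 : k) := by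
      have h1 : ((2 * b0 : 𝓞 k) : k) = ((2 : 𝓞 k) : k) * (b0 : k) := rfl
      rw [h1, rc_two]
    have e2 : (2 * (b0 : k)) ≠ 0 := mul_ne_zero two_ne_zero hb0
    rcases h1 with h1 | h1
    · have h3 : (f : L) = 0 := by rw [h1]; rfl
      rw [hfL, e1] at h3
      exact e2 ((algebraMap k L).injective (by rw [h3, map_zero]))
    · rw [hfL, (h_ord X (X.shX a) a.1 (X.shX_not a) (X.shX_over a)).2, e1,
        ord_mul _ two_ne_zero hb0, hq_two, hord _ (X.shX_not a)] at h1
      norm_num at h1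
  obtain ⟨r, hr, hrq⟩ := nonres a.1 h2L
  -- the other primes
  have hm0 : (m : 𝓞 L) ≠ 0 := by
    have : (m : ℕ) ≠ 0 := by omega
    exact_mod_cast this
  have hfin : {Q : HeightOneSpectrum (𝓞 L) | (m : 𝓞 L) ∈ Q.asIdeal}.Finite := by
    have h1 := Ideal.finite_factors (I := Ideal.span {(m : 𝓞 L)})
      (by rwa [Ne, Ideal.zero_eq_bot, Ideal.span_singleton_eq_bot])
    refine h1.subset fun Q hQ => ?_
    show Q.asIdeal ∣ Ideal.span {(m : 𝓞 L)}
    rw [Ideal.dvd_span_singleton]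
    exact hQ
  set T : Finset (HeightOneSpectrum (𝓞 L)) :=
    (W.image (fun b => b.1) ∪ hfin.toFinset).erase a.1 with hT
  obtain ⟨t, htT, hta⟩ := avoid a.1 T (Finset.notMem_erase _ _)
  have hft : f * t ∉ a.1.asIdeal := fun hmem =>
    (a.1.isPrime.mem_or_mem hmem).elim hfa hta
  obtain ⟨y, i, hi, hy⟩ := a.1.isMaximal.exists_inv hft
  set s : 𝓞 L := t * (y * (r - 1)) with hs
  set u : 𝓞 L := 1 + f * s with hu
  have hua : u - r ∈ a.1.asIdeal := by
    have : u - r = i * (1 - r) := by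
      rw [hu, hs]
      linear_combination (r - 1) * hy
    rw [this]
    exact Ideal.mul_mem_right _ _ hi
  have huT : ∀ Q ∈ T, u - 1 ∈ Q.asIdeal := by
    intro Q hQ
    have : u - 1 = (f * (y * (r - 1))) * t := by
      rw [hu, hs]
      ring
    rw [this]
    exact Ideal.mul_mem_left _ _ (htT Q hQ)
  have huA : (u : L) ∈ ordA b0 β h := by
    have h1 : (u : L) = 1 + ((f * s : 𝓞 L) : L) := rfl
    rw [h1]
    exact (ordA b0 β h).add_mem (ordA b0 β h).one_mem (hfA s)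
  have hcop : IsCoprime u (m : 𝓞 L) := by
    rw [← Ideal.isCoprime_span_singleton_iff, Ideal.isCoprime_iff_sup_eq]
    by_contra hne
    obtain ⟨I, hI, hle⟩ := Ideal.exists_le_maximal _ hne
    have h1 : u ∈ I := hle (Ideal.mem_sup_left (Ideal.mem_span_singleton_self _))
    have h2 : (m : 𝓞 L) ∈ I := hle (Ideal.mem_sup_right (Ideal.mem_span_singleton_self _))
    have h3 : I ≠ ⊥ := by
      intro h4
      rw [h4, Ideal.mem_bot] at h2
      exact hm0 h2
    by_cases h5 : (⟨I, hI.isPrime, h3⟩ : HeightOneSpectrum (𝓞 L)) = a.1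
    · have h6 : I = a.1.asIdeal := by rw [← h5]
      rw [h6] at h1
      apply hr
      have := a.1.asIdeal.sub_mem h1 hua
      rwa [sub_sub_cancel] at this
    · have h6 : (⟨I, hI.isPrime, h3⟩ : HeightOneSpectrum (𝓞 L)) ∈ T := by
        rw [hT, Finset.mem_erase, Finset.mem_union]
        exact ⟨h5, Or.inr ((Set.Finite.mem_toFinset _).2 h2)⟩
      have h7 := huT _ h6
      apply hI.ne_top
      rw [Ideal.eq_top_iff_one]
      have := I.sub_mem h1 h7
      rwa [sub_sub_cancel] at this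
  have hcf : IsCoprime u f := ⟨1, -s, by rw [hu]; ring⟩
  obtain ⟨v, w, hvw⟩ := hcop.mul_right hcf
  have hv : v = 1 - f * (w * m + v * s) := by
    rw [hu] at hvw
    linear_combination hvw
  have hvA : (v : L) ∈ ordA b0 β h := by
    have h1 : (v : L) = 1 - ((f * (w * m + v * s) : 𝓞 L) : L) := by
      conv_lhs => rw [hv]
      rfl
    rw [h1]
    exact (ordA b0 β h).sub_mem (ordA b0 β h).one_mem (hfA _)
  refine ⟨⟨(u : L), huA⟩, ?_, ?_, ?_⟩
  · show rsX X a (u : L) = -1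
    rw [hR a u r hua, rs_unit X a hr, hrq]
    rfl
  · intro b hb hba
    show rsX X b (u : L) = 1
    have h1 : b.1 ∈ T := by
      rw [hT, Finset.mem_erase, Finset.mem_union]
      exact ⟨fun h => hba (Subtype.ext h), Or.inl (Finset.mem_image_of_mem _ hb)⟩
    rw [hR b u 1 (huT _ h1), rs_one]
  · rintro x ⟨z, hz⟩
    refine ⟨⟨(v : L), hvA⟩ * z + ⟨((f * w : 𝓞 L) : L), hfA w⟩ * x, ?_⟩
    have hid : (⟨(v : L), hvA⟩ : ordA b0 β h) * ⟨(u : L), huA⟩ +
        ⟨((f * w : 𝓞 L) : L), hfA w⟩ * (m : ordA b0 β h) = 1 := by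
      apply Subtype.ext
      show (v : L) * (u : L) + ((f * w : 𝓞 L) : L) * ((m : ordA b0 β h) : L) = 1
      have h1 : ((m : ordA b0 β h) : L) = ((m : 𝓞 L) : L) := by
        simp
      have h2 : ((v * u + w * (m * f) : 𝓞 L) : L) = ((1 : 𝓞 L) : L) := by rw [hvw]
      have h3 : ((v * u + w * (m * f) : 𝓞 L) : L) =
        (v : L) * (u : L) + (w : L) * (((m : 𝓞 L) : L) * (f : L)) := rfl
      have h4 : ((1 : 𝓞 L) : L) = 1 := rfl
      rw [h3, h4] at h2
      rw [h1, rc_mul, ← h2]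
      ring
    linear_combination (-x) * hid + (⟨(v : L), hvA⟩ : ordA b0 β h) * hz

end Pool.Agent.H32.MQ
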