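import Pool.Agent.H32.MQ.XDefs

/-!
# Malle's conjecture for 8T28 and 8T29 over number fields, block X: statements
-/

set_option autoImplicit false

open scoped BigOperators Topology
open NumberField IsDedekindDomain Filter

namespace Pool.Agent.H32.MQ

open Pool.Agent.H98.MK (sg)
open Pool.Agent.H98.MF
open Pool.Agent.H98.ML (Dt Ext norb hind)

/-! ### pairs of classes -/

section

variable {k : Type} [Field k] [NumberField k] {Fr : Frm k} {L : Type} [Field L]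
  [NumberField L] [Algebra k L] (X : HX Fr L)

open Classical in
/-- the parametrisation of the pairs of classes -/
def StBij : Prop := ∀ f : (Finset Fr.sys.P × Finset X.PX) → HX.GX L → El Fr.sys → ℝ,
  (Summable fun z : Finset Fr.sys.P × Finset X.PX => if X.okX z.1 z.2 then
    ∑ γ ∈ X.BX z.2, ∑ c ∈ (Finset.univ : Finset Fr.sys.T) ×ˢ X.M.powerset, |f z γ c| else 0) →
  (Summable fun p : HX.GX L × HX.GX k =>
    if X.OkT p then f (X.xX p.2, X.gX p.1) p.1 (X.cX p.2) else 0) ∧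
  ∑' p : HX.GX L × HX.GX k, (if X.OkT p then f (X.xX p.2, X.gX p.1) p.1 (X.cX p.2) else 0) =
    ∑' z : Finset Fr.sys.P × Finset X.PX, if X.okX z.1 z.2 then
      ∑ γ ∈ X.BX z.2, ∑ c ∈ (Finset.univ : Finset Fr.sys.T) ×ˢ X.M.powerset, f z γ c else 0

/-- the factors and the symbols -/
def StFac : Prop := ∀ p : HX.GX L × HX.GX k, X.OkT p →
  (X.SolO p → X.FacX p = 2 ^ (X.ramX (X.xX p.2) (X.gX p.1)).card) ∧
    (¬ X.SolO p → X.FacX p = 0)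

end

section

variable {k : Type} [Field k] [NumberField k] {L : Type} [Field L] [NumberField L]
  [Algebra k L] (E : QX k L) (F : FrP k L) (h : E.M ⊆ F.Fr.S)

open Classical in
/-- types, ramified primes and norms -/
def StTypY : Prop := ∀ (y : Finset F.Fr.sys.P) (p : HX.GX L × HX.GX k),
  ((∀ q : F.Fr.sys.P, q ∉ y → ¬ E.OT p (F.Fr.pl q)) ↔ (E.toY F.Fr h y).OkT p) ∧
  ((E.toY F.Fr h y).OkT p →
    ((E.toY F.Fr h y).ramX ((E.toY F.Fr h y).xX p.2) ((E.toY F.Fr h y).gX p.1)).card =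
      ((E.ram F.FL p).filter fun Q => F.bel Q ∉ y).card ∧
    (E.toY F.Fr h y).nT p = F.Fr.sys.nm (F.sh (E.ram F.FL p) \ y))

namespace QX

/-- a function of the coordinates -/
noncomputable def tc (θ : F.FL.sys.T → F.FL.sys.T → F.Fr.sys.T → F.Fr.sys.T → ℝ)
    (p : HX.GX L × HX.GX k) : ℝ := θ (F.ca p) (F.ck p) (F.cc p) (F.cl p)

open Classical in
/-- restriction to the classes with the local conditions -/
noncomputable def sc4 (R : Finset (HeightOneSpectrum (𝓞 k)))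
    (θ : F.FL.sys.T → F.FL.sys.T → F.Fr.sys.T → F.Fr.sys.T → ℝ) :
    F.FL.sys.T → F.FL.sys.T → F.Fr.sys.T → F.Fr.sys.T → ℝ :=
  fun a κ c l => if E.SC F R (F.pr a κ c l) then θ a κ c l else 0

/-- the structure `Qf` of the objects -/
noncomputable def qf : Qf F.Fr.sys F.FL.sys := Qfof (E.toY F.Fr h ∅) F.FL F.ov rfl

end QX

open Classical in
/-- the objects in terms of the factors -/
def StOb : Prop := ∀ (On : Lˣ → kˣ → Prop) (R : Finset (HeightOneSpectrum (𝓞 k))),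
  R ⊆ F.Fr.S → ∀ (θ : E.XX On R → ℝ)
  (θt : F.FL.sys.T → F.FL.sys.T → F.Fr.sys.T → F.Fr.sys.T → ℝ),
  (∀ p : E.XX On R, QX.tc F θt p.1 = θ p) → ∀ p : HX.GX L × HX.GX k,
    (if (E.toY F.Fr h ∅).OkT p ∧ On (HX.out p.1) (HX.out p.2) then
      QX.tc F (E.sc4 F R θt) p * (E.toY F.Fr h ∅).FacX p else 0) =
    if hp : E.XOk On R p then θ ⟨p, hp⟩ * 2 ^ (E.ram F.FL p).card else 0

open Classical in
/-- the Dirichlet series of the objects in terms of the factors -/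
def StDX : Prop := ∀ (On : Lˣ → kˣ → Prop) (R : Finset (HeightOneSpectrum (𝓞 k))),
  R ⊆ F.Fr.S → ∀ (θ : E.XX On R → ℝ)
  (θt : F.FL.sys.T → F.FL.sys.T → F.Fr.sys.T → F.Fr.sys.T → ℝ),
  (∀ p : E.XX On R, QX.tc F θt p.1 = θ p) → ∀ s : ℝ,
    E.DX F θ s = ∑' p : HX.GX L × HX.GX k,
      if (E.toY F.Fr h ∅).OkT p ∧ On (HX.out p.1) (HX.out p.2) then
        QX.tc F (E.sc4 F R θt) p * (E.toY F.Fr h ∅).FacX p *
          ((E.toY F.Fr h ∅).nT p : ℝ) ^ (-s) else 0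

/-! ### the Dirichlet series of block L -/

open Classical in
/-- the series `D1` -/
def StD1 : Prop := ∀ (θ : F.FL.sys.T → F.FL.sys.T → F.Fr.sys.T → F.Fr.sys.T → ℝ) (s : ℝ),
  Bdd4 θ → 1 < s →
  (Summable fun p : HX.GX L × HX.GX k => if (E.toY F.Fr h ∅).OkT p ∧
    (E.toY F.Fr h ∅).xX p.2 ≠ ∅ ∧ (E.toY F.Fr h ∅).NS p then
      QX.tc F θ p * (E.toY F.Fr h ∅).FacX p * ((E.toY F.Fr h ∅).nT p : ℝ) ^ (-s) else 0) ∧
  D1 (E.qf F h) θ s = ∑' p : HX.GX L × HX.GX k, if (E.toY F.Fr h ∅).OkT p ∧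
    (E.toY F.Fr h ∅).xX p.2 ≠ ∅ ∧ (E.toY F.Fr h ∅).NS p then
      QX.tc F θ p * (E.toY F.Fr h ∅).FacX p * ((E.toY F.Fr h ∅).nT p : ℝ) ^ (-s) else 0

open Classical in
/-- the series `D2` -/
def StD2 : Prop := ∀ s : ℝ, 1 < s →
  (Summable fun p : HX.GX L × HX.GX k => if (E.toY F.Fr h ∅).OkT p ∧
    (E.toY F.Fr h ∅).xX p.2 = ∅ ∧ (E.toY F.Fr h ∅).NS p ∧
    ¬ IsSquare (E.δ * Units.map (algebraMap k L : k →* L) (HX.out p.2)) then
      (E.toY F.Fr h ∅).FacX p * ((E.toY F.Fr h ∅).nT p : ℝ) ^ (-s) else 0) ∧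
  D2 (E.qf F h) (fun _ _ _ _ => 1) s = ∑' p : HX.GX L × HX.GX k,
    if (E.toY F.Fr h ∅).OkT p ∧ (E.toY F.Fr h ∅).xX p.2 = ∅ ∧ (E.toY F.Fr h ∅).NS p ∧
    ¬ IsSquare (E.δ * Units.map (algebraMap k L : k →* L) (HX.out p.2)) then
      (E.toY F.Fr h ∅).FacX p * ((E.toY F.Fr h ∅).nT p : ℝ) ^ (-s) else 0

open Classical in
/-- the pairs with `γ` a unit -/
def StG0 : Prop := ∀ s : ℝ, 1 < s →
  (Summable fun p : HX.GX L × HX.GX k => if (E.toY F.Fr h ∅).OkT p ∧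
    (E.toY F.Fr h ∅).gX p.1 = ∅ ∧ (E.toY F.Fr h ∅).NS p then
      (E.toY F.Fr h ∅).FacX p * ((E.toY F.Fr h ∅).nT p : ℝ) ^ (-s) else 0) ∧
  WA (E.qf F h) (fun _ _ _ _ => 1) {0, 1, 2} ⟨∅, ∅, ∅, ∅, ∅⟩ s =
    ∑' p : HX.GX L × HX.GX k, if (E.toY F.Fr h ∅).OkT p ∧
    (E.toY F.Fr h ∅).gX p.1 = ∅ ∧ (E.toY F.Fr h ∅).NS p then
      (E.toY F.Fr h ∅).FacX p * ((E.toY F.Fr h ∅).nT p : ℝ) ^ (-s) else 0

open Classical in
/-- the limit for functions of the coordinates -/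
def StLF4 : Prop := ∃ c0 : ℝ, 0 < c0 ∧ ∀ (On : Lˣ → kˣ → Prop), E.OnOk On →
  ∀ θ : F.FL.sys.T → F.FL.sys.T → F.Fr.sys.T → F.Fr.sys.T → ℝ, Bdd4 θ →
    Tendsto (fun σ : ℝ => σ ^ 2 * ∑' p : HX.GX L × HX.GX k,
      if (E.toY F.Fr h ∅).OkT p ∧ On (HX.out p.1) (HX.out p.2) then
        QX.tc F θ p * (E.toY F.Fr h ∅).FacX p *
          ((E.toY F.Fr h ∅).nT p : ℝ) ^ (-(1 + σ)) else 0) (𝓝[>] 0)
      (𝓝 (c0 * (mv θ + mv (mth (E.qf F h) θ))))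

/-- the limit of the Dirichlet series of the objects -/
def StLF : Prop := ∀ (On : Lˣ → kˣ → Prop) (R : Finset (HeightOneSpectrum (𝓞 k))),
  R ⊆ F.Fr.S → E.OnOk On → ∀ (θ : E.XX On R → ℝ) (B : ℝ), (∀ p, |θ p| ≤ B) →
  (∀ p p' : E.XX On R, F.LocE p.1 p'.1 → θ p = θ p') →
    ∃ l : ℝ, Tendsto (fun σ : ℝ => σ ^ 2 * E.DX F θ (1 + σ)) (𝓝[>] 0) (𝓝 l)

/-- positivity of the limit -/
def StLP : Prop := ∀ (On : Lˣ → kˣ → Prop), E.OnOk On →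
  ∃ l : ℝ, 0 < l ∧
    Tendsto (fun σ : ℝ => σ ^ 2 * E.DX F (fun _ : E.XX On ∅ => 1) (1 + σ)) (𝓝[>] 0) (𝓝 l)

/-- absolute convergence -/
def StSmX : Prop := ∀ (On : Lˣ → kˣ → Prop) (R : Finset (HeightOneSpectrum (𝓞 k))),
  R ⊆ F.Fr.S → ∀ s : ℝ, 1 < s → Summable fun p : E.XX On R =>
    (2 : ℝ) ^ (E.ram F.FL p.1).card * (E.nP F p.1 : ℝ) ^ (-s)

open Classical in
/-- the uniform bound for the objects ramified at `r` -/
def StUX : Prop := ∀ (C0 A0 η0 : ℝ), 0 < η0 →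
  (∀ y : Finset F.Fr.sys.P, (Qof (E.toY F.Fr h y)).BF C0 A0 η0) →
  ∃ C : ℝ, 0 ≤ C ∧ ∀ (On : Lˣ → kˣ → Prop) (R : Finset (HeightOneSpectrum (𝓞 k))),
    R ⊆ F.Fr.S → E.OnOk On → ∀ (r : Finset F.FL.sys.P) (σ : ℝ), 0 < σ → σ ≤ 1 →
      ∑' p : E.XX On R, (if r ⊆ E.ram F.FL p.1 then
        (2 : ℝ) ^ (E.ram F.FL p.1).card * (E.nP F p.1 : ℝ) ^ (-(1 + σ)) else 0) ≤
        C * (F.Fr.sys.nm (F.sh r) : ℝ) ^ (-(3 / 4) : ℝ) * σ ^ (-(2 : ℝ))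

open Classical in
/-- the limit of the Dirichlet series of the objects ramified at `r` -/
def StHL : Prop := ∀ (On : Lˣ → kˣ → Prop) (R : Finset (HeightOneSpectrum (𝓞 k))),
  R ⊆ F.Fr.S → E.OnOk On → ∀ (θ : E.XX On R → ℝ) (B : ℝ), (∀ p, |θ p| ≤ B) →
  (∀ p p' : E.XX On R, F.LocE p.1 p'.1 → θ p = θ p') → ∀ r : Finset F.FL.sys.P,
    ∃ l : ℝ, Tendsto (fun σ : ℝ => σ ^ 2 * ∑' p : E.XX On R,
      (if r ⊆ E.ram F.FL p.1 then θ p * 2 ^ (E.ram F.FL p.1).card *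
        (E.nP F p.1 : ℝ) ^ (-(1 + σ)) else 0)) (𝓝[>] 0) (𝓝 l)

/-- summability of the bounds -/
def StRho : Prop := Summable fun r : Finset F.FL.sys.P =>
  hp r * (F.Fr.sys.nm (F.sh r) : ℝ) ^ (-(3 / 4) : ℝ)

end

/-! ### frames -/

section

variable (k L : Type) [Field k] [NumberField k] [Field L] [NumberField L] [Algebra k L]

/-- compatible frames exist -/
def StFrE : Prop := ∀ T : Finset (HeightOneSpectrum (𝓞 k)), ∃ F : FrP k L, T ⊆ F.Fr.S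

/-- enlarged frames -/
def StFrX : Prop := ∀ (F : FrP k L) (y : Finset F.Fr.sys.P), ∃ F' : FrP k L,
  ∀ P, P ∈ F'.Fr.S ↔ P ∈ F.Fr.S ∨ ∃ q ∈ y, F.Fr.pl q = P

end

/-! ### homomorphisms -/

section

variable (L : Type) [Field L] [NumberField L]

/-- existence of homomorphisms -/
def StEmb : Prop := ∀ γ δ : Lˣ, (∀ v : Pl L, hv v (γ : L) (δ : L) = 0) →
  ∃ ρ : Gm L →* Ext D4, IsLocallyConstant ρ ∧ (∀ σ, c0 (ρ σ) = chi (γ : L) σ) ∧
    ∀ σ, c1 (ρ σ) = chi (δ : L) σ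

/-- the symbols vanish at all places -/
def StHvZ : Prop := ∀ (ρ : Gm L →* Ext D4) (γ δ : Lˣ), IsLocallyConstant ρ →
  (∀ σ, c0 (ρ σ) = chi (γ : L) σ) → (∀ σ, c1 (ρ σ) = chi (δ : L) σ) →
    ∀ v : Pl L, hv v (γ : L) (δ : L) = 0

/-- surjectivity of twists -/
def StSurT : Prop := ∀ (ρ : Gm L →* Ext D4) (b : Lˣ), Function.Surjective ρ →
  Function.Surjective (twH ρ b)

/-- all homomorphisms with given characters are twists -/
def StPa : Prop := ∀ (FL : Frm L) (ρ ρ' : Gm L →* Ext D4), IsLocallyConstant ρ →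
  IsLocallyConstant ρ' → (∀ σ, (ρ' σ).v = (ρ σ).v) → ∃! b : El FL.sys, ρ' = twH ρ (rep FL b)

/-- the part of the discriminant at the frame depends on the local classes -/
def StQSt : Prop := ∀ (FL : Frm L) (RL : Rx L) (ρ : Gm L →* Ext D4), IsLocallyConstant ρ →
  Function.Surjective ρ → ∀ b : El FL.sys,
    FL.qS RL H4 (twH ρ (rep FL b)) = FL.qS RL H4 (twH ρ (lrp FL b.1 (FL.sys.tys b.2)))

end

section

variable {k : Type} [Field k] [NumberField k] {L : Type} [Field L] [NumberField L]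
  [Algebra k L] (E : QX k L) (F : FrP k L) (RL : Rx L)

/-- normalised homomorphisms exist -/
def StNrX : Prop := ∀ (On : Lˣ → kˣ → Prop) (R : Finset (HeightOneSpectrum (𝓞 k)))
  (p : E.XX On R), E.Nrml F.FL RL p.1 (E.rho0 F.FL RL p.1)

open Classical in
/-- the discriminant of the twists -/
def StDnX : Prop := ∀ (On : Lˣ → kˣ → Prop) (R : Finset (HeightOneSpectrum (𝓞 k))),
  E.M ⊆ F.Fr.S → R ⊆ F.Fr.S → E.OnOk On → ∀ (p : E.XX On R) (b : El F.FL.sys),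
    QX.dn (twH (E.rho0 F.FL RL p.1) (rep F.FL b)) =
      F.FL.qS RL H4 (twH (E.rho0 F.FL RL p.1) (rep F.FL b)) *
        (E.nP F p.1 * F.FL.sys.nm (b.2 \ E.ram F.FL p.1)) ^ 2

/-- every homomorphism belongs to two objects -/
def StTwoX : Prop := ∀ (On : Lˣ → kˣ → Prop) (R : Finset (HeightOneSpectrum (𝓞 k))),
  E.OnOk On → Disjoint R E.M →
    (∀ ρ ∈ E.Hs RL On R,
      {p : E.XX On R | E.Hm ρ (HX.out p.1.1) (HX.out p.1.2)}.ncard = 2) ∧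
    ∀ (p : E.XX On R) (ρ : Gm L →* Ext D4), E.Hm ρ (HX.out p.1.1) (HX.out p.1.2) →
      ρ ∈ E.Hs RL On R

/-- the numbers of local twists are local -/
def StLM : Prop := ∀ (On : Lˣ → kˣ → Prop) (R : Finset (HeightOneSpectrum (𝓞 k))),
  E.M ⊆ F.Fr.S → E.OnOk On →
    (∀ (p p' : E.XX On R), F.LocE p.1 p'.1 → ∀ q, E.thX F RL q p = E.thX F RL q p') ∧
    ∃ Qs : Finset ℕ, (∀ q ∈ Qs, 0 < q) ∧
      (∀ (p : E.XX On R) (e ε : F.FL.sys.T),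
        F.FL.qS RL H4 (twH (E.rho0 F.FL RL p.1) (lrp F.FL e ε)) ∈ Qs) ∧
      ∀ p : E.XX On R, ∑ q ∈ Qs, E.thX F RL q p = 2 ^ F.FL.sys.m

/-- the exact formula -/
def StXA : Prop := ∀ (On : Lˣ → kˣ → Prop) (R : Finset (HeightOneSpectrum (𝓞 k))),
  E.M ⊆ F.Fr.S → R ⊆ F.Fr.S → Disjoint R E.M → E.OnOk On →
  ∀ (hf : ∀ N : ℕ, {x : E.XX On R | E.nP F x.1 ≤ N}.Finite) (Qs : Finset ℕ),
    (∀ q ∈ Qs, 0 < q) → (∀ (p : E.XX On R) (e ε : F.FL.sys.T),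
      F.FL.qS RL H4 (twH (E.rho0 F.FL RL p.1) (lrp F.FL e ε)) ∈ Qs) →
    ∀ Y : ℝ, 0 ≤ Y → (2 : ℝ) * (E.Cn RL On R Y).ncard =
      ∑ q ∈ Qs, E.AX F hf (E.NtX F RL q) (Y * (q : ℝ) ^ (-(1 / 2) : ℝ))

end

/-! ### the result -/

/-- the bilinear estimate for all quadratic extensions -/
def BFAll (k : Type) [Field k] [NumberField k] : Prop := ∀ Fr : Frm k,
  ∃ C A η : ℝ, 0 < η ∧ ∀ (L : Type) [Field L] [NumberField L] [Algebra k L] (X : HX Fr L),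
    (Qof X).BF C A η

section

variable {k : Type} [Field k] [NumberField k] {L : Type} [Field L] [NumberField L]
  [Algebra k L] (E : QX k L)

/-- the limit for a fixed quadratic extension and fixed exceptional primes -/
def StX : Prop := ∀ (RL : Rx L) (On : Lˣ → kˣ → Prop) (R : Finset (HeightOneSpectrum (𝓞 k))),
  E.OnOk On → Disjoint R E.M → ∃ l : ℝ, 0 ≤ l ∧ (R = ∅ → 0 < l) ∧
    Tendsto (fun Y : ℝ => ((E.Cn RL On R Y).ncard : ℝ) / (Y * Real.log Y ^ 2)) atTop (𝓝 l)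

end

end Pool.Agent.H32.MQ
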