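import Pool.Agent.H32.MQ.HMain
import Pool.Agent.H32.MQ.XStm
import Pool.Agent.H32.MQ.BOf
import Pool.Agent.H32.MQ.ISz
import Pool.Agent.H32.MQ.IPg
import Pool.Agent.H32.MQ.IBd
import Pool.Agent.H32.MQ.ILat
import Pool.Agent.H32.MQ.INd
import Pool.Agent.H32.MQ.ICh
import Pool.Agent.H32.MQ.IPf
import Pool.Agent.H32.MQ.ILc
import Pool.Agent.H32.MQ.IRs
import Pool.Agent.H32.MQ.ITw
import Pool.Agent.H32.MQ.ICl
import Pool.Agent.H32.MQ.ICv
import Pool.Agent.H32.MQ.IFw

/-!
# Malle's conjecture for 8T28 and 8T29, block BF: the bilinear estimate, without hypotheses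
-/

set_option autoImplicit false

open scoped BigOperators
open NumberField IsDedekindDomain

namespace Pool.Agent.H32.MQ

open Pool.Agent.H98.MF

/-- the bilinear estimate over all quadratic extensions of `k` -/
theorem bf_main {k : Type} [Field k] [NumberField k] (Fr : Frm k) : BFMain Fr :=
  bf_of Fr (odSt Fr (bf_dg k) (bdSt Fr (szSt k) (pgSt k)) (latSt k (szSt k)) (fun L => ndSt L)
    (fun L => chSt L) (fun L _ _ _ X => pfSt X (B.recSt (nin L)) (B.lin L)) (lcSt Fr)
    (fun L _ _ _ X => rsSt X) (fun L _ _ _ X => twSt X (rsSt X)) (fun L _ _ _ X => clSt X)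
    (cvSt Fr) (fwSt Fr))

/-- the bilinear estimate in the form used in block X -/
theorem bfAll (k : Type) [Field k] [NumberField k] : BFAll k := by
  intro Fr
  obtain ⟨C, A, η, -, -, hη, h⟩ := bf_main Fr
  exact ⟨C, A, η, hη, h⟩

end Pool.Agent.H32.MQ
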