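import Pool.Agent.H32.MQ.HStm

/-!
# Malle's conjecture for 8T28 and 8T29 over number fields, row H3: the number of classes
-/

set_option autoImplicit false

open scoped BigOperators
open NumberField IsDedekindDomain

namespace Pool.Agent.H32.MQ

open Pool.Agent.H98.MF

/-- squares in a commutative group -/
theorem h3_cancel {G : Type} [CommGroup G] {x y r : G} (h : IsSquare (x * r * (y * r))) :
    IsSquare (x * y) := by
  have h1 : x * y = x * r * (y * r) * (r * r)⁻¹ := by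
    rw [mul_mul_mul_comm, mul_inv_cancel_right]
  rw [h1]
  exact h.mul (IsSquare.inv ⟨r, rfl⟩)

section

variable {k : Type} [Field k] [NumberField k] {Fr : Frm k} {L : Type} [Field L]
  [NumberField L] [Algebra k L] (X : HX Fr L)

/-- two elements with the same coordinates -/
theorem h3_co (hC : StCo Fr) {x y : kˣ} (h : co Fr x = co Fr y) : IsSquare (x * y) := by
  have h1 := hC x
  have h2 := hC y
  rw [h] at h1
  exact h3_cancel (h1.mul h2)

/-- the possible coordinates -/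
noncomputable def h3E : Finset (El Fr.sys) := (Finset.univ : Finset Fr.sys.T) ×ˢ X.M.powerset

theorem h3_card : (h3E X).card = 2 ^ (Fr.sys.m + X.M.card) := by
  unfold h3E
  rw [Finset.card_product, Finset.card_powerset, pow_add, Finset.card_univ]
  congr 1
  rw [Fintype.card_fun, ZMod.card, Fintype.card_fin]

theorem h3_mem {x : kˣ} (h : ∀ p, p ∉ X.M → Even (ord (Fr.pl p) (x : k))) :
    co Fr x ∈ h3E X :=
  Finset.mem_product.2 ⟨Finset.mem_univ _, Finset.mem_powerset.2 fun p hp => by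
    by_contra h1
    exact (Int.not_even_iff_odd.2 ((mem_odp Fr).1 hp)) (h p h1)⟩

include X in
/-- theorem 90 -/
theorem h3_hil (z : Lˣ) (w : kˣ) (h : HX.nrX (k := k) z = w * w) :
    ∃ (c : kˣ) (y : Lˣ), (z : L) = algebraMap k L (c : k) * (y : L) ^ 2 := by
  have hw : algebraMap k L (w : k) ≠ 0 := by simp
  have h1 : (z : L) * X.sig (z : L) = algebraMap k L (w : k) * algebraMap k L (w : k) := by
    have h2 : Algebra.norm k (z : L) = (w : k) * (w : k) := by
      have h3 := congrArg Units.val h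
      rw [Units.val_mul] at h3
      exact h3
    rw [← X.nm_eq, h2, map_mul]
  obtain ⟨t, ht⟩ : ∃ t : L, (z : L) = algebraMap k L (w : k) * t :=
    ⟨(z : L) / algebraMap k L (w : k), by rw [mul_div_cancel₀ _ hw]⟩
  have h4 : t * X.sig t = 1 := by
    rw [ht, map_mul, AlgEquiv.commutes, mul_mul_mul_comm] at h1
    have h5 : algebraMap k L (w : k) * algebraMap k L (w : k) ≠ 0 := mul_ne_zero hw hw
    exact mul_left_cancel₀ h5 (by rw [h1, mul_one])
  by_cases h6 : t = -1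
  · refine ⟨-w, 1, ?_⟩
    rw [ht, h6, Units.val_neg, map_neg, Units.val_one]
    ring
  · have hy : 1 + t ≠ 0 := fun h7 => h6 (by linear_combination h7)
    have h8 : X.sig (1 + t) * t = 1 + t := by
      rw [map_add, map_one]
      linear_combination h4
    have h9 : X.sig (1 + t) ≠ 0 := by
      intro h10
      rw [h10, zero_mul] at h8
      exact hy h8.symm
    have h11 := X.nm_eq (1 + t)
    have h12 : Algebra.norm k (1 + t) ≠ 0 := by
      intro h13
      rw [h13, map_zero] at h11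
      exact mul_ne_zero hy h9 h11.symm
    refine ⟨w / Units.mk0 _ h12, Units.mk0 _ hy, ?_⟩
    rw [Units.val_div_eq_div_val, Units.val_mk0, Units.val_mk0, map_div₀, h11, ht]
    field_simp
    linear_combination h8

/-- exponents of a product of two classes -/
theorem h3_even {g : Finset X.PX} {γ γ' : HX.GX L} (h : γ ∈ X.Bs g) (h' : γ' ∈ X.Bs g)
    {Q : HeightOneSpectrum (𝓞 L)} (hQ : X.Out Q) :
    Even (ord Q ((HX.out γ * HX.out γ' : Lˣ) : L)) := by
  rw [Units.val_mul, ord_mul Q (Units.ne_zero _) (Units.ne_zero _), Int.even_add']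
  exact (h Q hQ).trans (h' Q hQ).symm

omit [NumberField k] [NumberField L] in
theorem h3_nr_mul (x y : Lˣ) :
    HX.nrX (k := k) (x * y) = HX.nrX (k := k) x * HX.nrX (k := k) y := map_mul _ _ _

theorem h3_nr_mem (h2 : StOrdN X) {g : Finset X.PX} {γ γ' : HX.GX L} (h : γ ∈ X.Bs g)
    (h' : γ' ∈ X.Bs g) : co Fr (HX.nrX (k := k) (HX.out γ * HX.out γ')) ∈ h3E X := by
  refine h3_mem X fun p hp => ?_
  obtain ⟨Q, hQ⟩ := exists_over (L := L) (Fr.pl p)
  rw [h2 p Q hp hQ]
  exact (h3_even X h h' ⟨p, hp, hQ⟩).add (h3_even X h h' ⟨p, hp, hQ.cj X.sig⟩)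

theorem h3_c (hC : StCo Fr) (h1 : StOrd X) {g : Finset X.PX} {γ γ' γ₀ : HX.GX L}
    (h : γ ∈ X.Bs g) (h' : γ' ∈ X.Bs g)
    (he : co Fr (HX.nrX (k := k) (HX.out γ * HX.out γ₀)) =
      co Fr (HX.nrX (k := k) (HX.out γ' * HX.out γ₀))) :
    ∃ (c : kˣ) (y : Lˣ), co Fr c ∈ h3E X ∧ ((HX.out γ * HX.out γ' : Lˣ) : L) =
      algebraMap k L (c : k) * (y : L) ^ 2 := by
  have h3 := h3_co hC he
  rw [h3_nr_mul, h3_nr_mul] at h3
  have h4 := h3_cancel h3
  rw [← h3_nr_mul] at h4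
  obtain ⟨w, hw⟩ := h4
  obtain ⟨c, y, hc⟩ := h3_hil X _ w hw
  refine ⟨c, y, h3_mem X fun p hp => ?_, hc⟩
  obtain ⟨Q, hQ⟩ := exists_over (L := L) (Fr.pl p)
  have h5 := h3_even X h h' ⟨p, hp, hQ⟩
  have hc0 : algebraMap k L (c : k) ≠ 0 := by simp
  rw [hc, ord_mul Q hc0 (pow_ne_zero 2 (Units.ne_zero _)), ord_pow, (h1 p Q hp hQ).2,
    Int.even_add] at h5
  exact h5.2 (by push_cast; exact even_two_mul _)

omit [NumberField L] in
theorem h3_eq {γ γ' : HX.GX L} (h : IsSquare (HX.out γ * HX.out γ')) : γ = γ' := by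
  obtain ⟨y, hy⟩ := h
  have h1 : ((HX.out γ : Lˣ) : HX.GX L) = ((HX.out γ' : Lˣ) : HX.GX L) := by
    rw [QuotientGroup.eq]
    refine ⟨y * (HX.out γ)⁻¹, ?_⟩
    have h2 : (y * (HX.out γ)⁻¹) ^ 2 = y * y * ((HX.out γ)⁻¹ * (HX.out γ)⁻¹) := by
      rw [pow_two, mul_mul_mul_comm]
    show (y * (HX.out γ)⁻¹) ^ 2 = (HX.out γ)⁻¹ * HX.out γ'
    rw [h2, ← hy, mul_comm (HX.out γ) (HX.out γ'), mul_assoc, mul_inv_cancel_left, mul_comm]
  have h3 : ((HX.out γ : Lˣ) : HX.GX L) = γ := Quotient.out_eq _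
  have h4 : ((HX.out γ' : Lˣ) : HX.GX L) = γ' := Quotient.out_eq _
  rw [← h3, ← h4, h1]

theorem h_card (hC : StCo Fr) (hO : StRepO Fr) (h1 : StOrd X) (h2 : StOrdN X) :
    StCardB X := by
  classical
  intro g
  have hOO := hO
  rcases (X.Bs g).eq_empty_or_nonempty with h0 | ⟨γ₀, hγ₀⟩
  · rw [h0]
    exact ⟨Set.finite_empty, by rw [Set.ncard_empty]; exact Nat.zero_le _⟩
  · obtain ⟨F, hF⟩ : ∃ F : HX.GX L → El Fr.sys, ∀ γ,
        F γ = co Fr (HX.nrX (k := k) (HX.out γ * HX.out γ₀)) := ⟨_, fun _ => rfl⟩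
    obtain ⟨b, hb⟩ : ∃ b : El Fr.sys → HX.GX L, ∀ γ ∈ X.Bs g,
        b (F γ) ∈ X.Bs g ∧ F (b (F γ)) = F γ := by
      refine ⟨fun e => if h : ∃ γ ∈ X.Bs g, F γ = e then h.choose else γ₀, fun γ hγ => ?_⟩
      have h3 : ∃ γ' ∈ X.Bs g, F γ' = F γ := ⟨γ, hγ, rfl⟩
      have h4 := h3.choose_spec
      simp only [h3, dite_true]
      exact h4
    have hex : ∀ γ ∈ X.Bs g, ∃ (c : kˣ) (y : Lˣ), co Fr c ∈ h3E X ∧
        ((HX.out γ * HX.out (b (F γ)) : Lˣ) : L) = algebraMap k L (c : k) * (y : L) ^ 2 := by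
      intro γ hγ
      obtain ⟨h3, h4⟩ := hb γ hγ
      refine h3_c X hC h1 hγ h3 (γ₀ := γ₀) ?_
      rw [← hF, ← hF, h4]
    choose! C Y hC1 hC2 using hex
    have hmaps : Set.MapsTo (fun γ => (F γ, co Fr (C γ))) (X.Bs g)
        ((h3E X ×ˢ h3E X : Finset (El Fr.sys × El Fr.sys)) : Set (El Fr.sys × El Fr.sys)) := by
      intro γ hγ
      refine Finset.mem_coe.2 (Finset.mem_product.2 ⟨?_, hC1 γ hγ⟩)
      show F γ ∈ h3E X
      rw [hF]
      exact h3_nr_mem X h2 hγ hγ₀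
    have hinj : Set.InjOn (fun γ => (F γ, co Fr (C γ))) (X.Bs g) := by
      intro γ hγ γ' hγ' he
      have he1 : F γ = F γ' := congrArg Prod.fst he
      have he2 : co Fr (C γ) = co Fr (C γ') := congrArg Prod.snd he
      obtain ⟨s, hs⟩ := h3_co hC he2
      have h3 := hC2 γ hγ
      have h4 := hC2 γ' hγ'
      rw [he1] at h3
      have h5 : IsSquare (HX.out γ * HX.out (b (F γ')) * (HX.out γ' * HX.out (b (F γ')))) := by
        refine ⟨Units.map (algebraMap k L : k →* L) s * Y γ * Y γ', Units.ext ?_⟩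
        have hs' : (C γ : k) * (C γ' : k) = (s : k) * (s : k) := by
          rw [← Units.val_mul, hs, Units.val_mul]
        rw [Units.val_mul, h3, h4]
        have hs2 : algebraMap k L (C γ : k) * algebraMap k L (C γ' : k) =
            algebraMap k L (s : k) * algebraMap k L (s : k) := by
          rw [← map_mul, hs', map_mul]
        simp only [Units.val_mul, Units.coe_map, MonoidHom.coe_coe]
        linear_combination (Y γ : L) ^ 2 * (Y γ' : L) ^ 2 * hs2
      exact h3_eq (h3_cancel h5)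
    refine ⟨Set.Finite.of_injOn hmaps hinj (Finset.finite_toSet _), ?_⟩
    have h6 := Set.ncard_le_ncard_of_injOn _ hmaps hinj (Finset.finite_toSet _)
    rw [Set.ncard_coe_finset, Finset.card_product, h3_card, ← mul_pow] at h6
    exact h6

end

end Pool.Agent.H32.MQ
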