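import Pool.Agent.H32.MQ.HStm
import Pool.Agent.H98.MF.C.C9
import Pool.Agent.H98.MF.L.Odd

/-!
# Malle's conjecture for 8T28 and 8T29 over number fields, row H5: the local symbols depend on the
local classes only
-/

set_option autoImplicit false

open scoped BigOperators
open NumberField IsDedekindDomain

namespace Pool.Agent.H32.MQ

open Pool.Agent.H98.MF

section

variable {k : Type} [Field k] [NumberField k]

/-- local squares go up -/
theorem hinv_up {L : Type} [Field L] [NumberField L] [Algebra k L]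
    {P : HeightOneSpectrum (𝓞 k)} {Q : HeightOneSpectrum (𝓞 L)} (h : Over P Q) {a : k}
    (ha : LocSq P a) : LocSq Q (algebraMap k L a) := by
  intro n
  obtain ⟨c, hc⟩ := ha n
  refine ⟨algebraMap k L c, ?_⟩
  have e : algebraMap k L a * algebraMap k L c ^ 2 - 1 = algebraMap k L (a * c ^ 2 - 1) := by
    simp only [map_sub, map_mul, map_pow, map_one]
  rcases hc with hc | hc
  · left
    rw [← map_pow, ← map_mul, hc, map_one]
  · right
    rw [e, h.ord_map]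
    have h1 : (1 : ℤ) ≤ (P.asIdeal.ramificationIdx' Q.asIdeal : ℤ) := by
      exact_mod_cast h.ram_pos
    have h2 : (0 : ℤ) ≤ n := Int.natCast_nonneg n
    nlinarith

omit [NumberField k] in
theorem hinv_pow_add (a : kˣ) (x y : ZMod 2) :
    ∃ t : kˣ, a ^ x.val * a ^ y.val = a ^ (x + y).val * t ^ 2 := by
  have h : ∀ x y : ZMod 2, x.val + y.val = (x + y).val + ((x.val + y.val) / 2) * 2 := by decide
  obtain ⟨n, hn⟩ : ∃ n : ℕ, x.val + y.val = (x + y).val + n * 2 := ⟨_, h x y⟩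
  exact ⟨a ^ n, by rw [← pow_add, hn, pow_add, pow_mul]⟩

omit [NumberField k] in
theorem hinv_prod_add {ι : Type} [Fintype ι] (a : ι → kˣ) (x y : ι → ZMod 2) :
    ∃ t : kˣ, (∏ i, a i ^ (x i).val) * ∏ i, a i ^ (y i).val =
      (∏ i, a i ^ ((x + y) i).val) * t ^ 2 := by
  classical
  choose t ht using fun i => hinv_pow_add (a i) (x i) (y i)
  refine ⟨∏ i, t i, ?_⟩
  rw [← Finset.prod_mul_distrib, ← Finset.prod_pow, ← Finset.prod_mul_distrib]
  exact Finset.prod_congr rfl fun i _ => ht i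

variable (Fr : Frm k)

/-- the local class of a product of generators -/
theorem hinv_loc (hk : LIn k) {v : Pl k} (hv : v ∈ pls Fr.S) (x : Finset Fr.sys.P) :
    (∏ p ∈ x, Fr.pi p) * ∏ j, Fr.w j ^ (Fr.sys.tys x j).val ∈ LS v := by
  classical
  induction x using Finset.induction_on with
  | empty =>
    have h : ∀ j, Fr.w j ^ (Fr.sys.tys ∅ j).val = 1 := by
      intro j
      have h1 : Fr.sys.tys ∅ j = 0 := rfl
      rw [h1, ZMod.val_zero, pow_zero]
    rw [Finset.prod_empty, one_mul, Finset.prod_congr rfl fun j _ => h j, Finset.prod_const_one]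
    exact one_mem _
  | insert a s ha ih =>
    have h1 : Fr.pi a * ∏ j, Fr.w j ^ (Fr.sys.ty a j).val ∈ LS v :=
      (hk.memLS v _).2 (Fr.loc a v hv)
    obtain ⟨t, ht⟩ := hinv_prod_add Fr.w (Fr.sys.ty a) (Fr.sys.tys s)
    have h2 : Fr.sys.tys (insert a s) = Fr.sys.ty a + Fr.sys.tys s := by
      unfold Sys.tys
      rw [Finset.sum_insert ha]
    rw [Finset.prod_insert ha, h2]
    have h3 : Fr.pi a * (∏ p ∈ s, Fr.pi p) *
        (∏ j, Fr.w j ^ ((Fr.sys.ty a + Fr.sys.tys s) j).val) =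
        (Fr.pi a * ∏ j, Fr.w j ^ (Fr.sys.ty a j).val) *
          ((∏ p ∈ s, Fr.pi p) * ∏ j, Fr.w j ^ (Fr.sys.tys s j).val) * (t ^ 2)⁻¹ := by
      have h4 : (∏ j, Fr.w j ^ ((Fr.sys.ty a + Fr.sys.tys s) j).val) =
          (∏ j, Fr.w j ^ (Fr.sys.ty a j).val) * (∏ j, Fr.w j ^ (Fr.sys.tys s j).val) *
            (t ^ 2)⁻¹ := by
        rw [ht, mul_inv_cancel_right]
      rw [h4]
      simp only [mul_assoc, mul_left_comm, mul_comm]
    rw [h3]
    exact mul_mem (mul_mem h1 ih) (inv_mem (B.sq_mem_LS v t))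

/-- the quotient of two products with the same type is a local square -/
theorem hinv_quot (hk : LIn k) {v : Pl k} (hv : v ∈ pls Fr.S) (x x' : Finset Fr.sys.P)
    (h : Fr.sys.tys x = Fr.sys.tys x') :
    (∏ p ∈ x, Fr.pi p)⁻¹ * ∏ p ∈ x', Fr.pi p ∈ LS v := by
  have h1 := hinv_loc Fr hk hv x
  have h2 := hinv_loc Fr hk hv x'
  rw [h] at h1
  have h3 := mul_mem (inv_mem h1) h2
  have h4 : ((∏ p ∈ x, Fr.pi p) * ∏ j, Fr.w j ^ (Fr.sys.tys x' j).val)⁻¹ *
      ((∏ p ∈ x', Fr.pi p) * ∏ j, Fr.w j ^ (Fr.sys.tys x' j).val) =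
      (∏ p ∈ x, Fr.pi p)⁻¹ * ∏ p ∈ x', Fr.pi p := by
    generalize (∏ p ∈ x, Fr.pi p) = A
    generalize (∏ p ∈ x', Fr.pi p) = B
    generalize (∏ j, Fr.w j ^ (Fr.sys.tys x' j).val) = W
    rw [mul_inv, mul_comm B W, mul_assoc, inv_mul_cancel_left]
  rwa [h4] at h3

/-- the representative with trivial unit part -/
theorem hinv_rep (x : Finset Fr.sys.P) :
    rep Fr ((0, x) : El Fr.sys) = ∏ p ∈ x, Fr.pi p := by
  unfold rep
  have h : ∀ j, Fr.u j ^ ((0 : Fr.sys.T) j).val = 1 := by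
    intro j
    rw [Pi.zero_apply, ZMod.val_zero, pow_zero]
  have h1 : (∏ j, Fr.u j ^ (((0, x) : El Fr.sys).1 j).val) = 1 :=
    Finset.prod_eq_one fun j _ => h j
  rw [h1, one_mul]

theorem hinv_qr (hQ : StRepQ Fr) (x : Finset Fr.sys.P) (v : Fr.sys.P) (hv : v ∉ x) :
    qr ((∏ p ∈ x, Fr.pi p : kˣ) : k) (Fr.pl v) = ∑ p ∈ x, Fr.sys.J p v := by
  have h := hQ ((0, x) : El Fr.sys) v hv
  rw [hinv_rep] at h
  rw [h]
  unfold Sys.ex
  rw [zero_dotProduct, add_zero]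

theorem hinv_ord (hO : StRepO Fr) (x : Finset Fr.sys.P) (v : Fr.sys.P) (hv : v ∉ x) :
    ord (Fr.pl v) ((∏ p ∈ x, Fr.pi p : kˣ) : k) = 0 := by
  have h := hO ((0, x) : El Fr.sys) v
  rw [hinv_rep] at h
  rw [h, if_neg hv]

/-- at the primes of `M` -/
theorem hinv_M (hO : StRepO Fr) (hQ : StRepQ Fr) (x x' : Finset Fr.sys.P) (v : Fr.sys.P)
    (hx : v ∉ x) (hx' : v ∉ x') (h : ∑ p ∈ x, Fr.sys.J p v = ∑ p ∈ x', Fr.sys.J p v) :
    LocSq (Fr.pl v) (((∏ p ∈ x, Fr.pi p)⁻¹ * ∏ p ∈ x', Fr.pi p : kˣ) : k) := by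
  have hS : Fr.pl v ∉ Fr.S := (Fr.pl_iff _).1 ⟨v, rfl⟩
  have h2 : ord (Fr.pl v) (2 : k) = 0 := B.ord_two_eq Fr.adm hS
  have q1 := hinv_qr Fr hQ x v hx
  have q2 := hinv_qr Fr hQ x' v hx'
  have o1 := hinv_ord Fr hO x v hx
  have o2 := hinv_ord Fr hO x' v hx'
  obtain ⟨A, hA⟩ : ∃ A : kˣ, A = ∏ p ∈ x, Fr.pi p := ⟨_, rfl⟩
  obtain ⟨B, hB⟩ : ∃ B : kˣ, B = ∏ p ∈ x', Fr.pi p := ⟨_, rfl⟩
  rw [← hA] at q1 o1 ⊢
  rw [← hB] at q2 o2 ⊢
  have h3 : qr ((A : k) * (B : k)) (Fr.pl v) = 0 := by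
    rw [qr_mul h2 A.ne_zero B.ne_zero (by rw [o1]; exact Even.zero) (by rw [o2]; exact Even.zero),
      q1, q2, h]
    exact CharTwo.add_self_eq_zero _
  have h4 : LocSq (Fr.pl v) ((A : k) * (B : k)) := (qr_eq_zero _).1 h3
  have h5 : ((A⁻¹ * B : kˣ) : k) = (A : k) * (B : k) * ((A⁻¹ : kˣ) : k) ^ 2 := by
    rw [Units.val_mul, Units.val_inv_eq_inv_val]
    have hA0 := A.ne_zero
    field_simp
  rw [h5, locSq_mul_sq _ (Units.ne_zero _)]
  exact h4

end

section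

variable {k : Type} [Field k] [NumberField k] {Fr : Frm k} {L : Type} [Field L]
  [NumberField L] [Algebra k L] (X : HX Fr L)

theorem hinv_eq_of_iff {a b : ZMod 2} (h : a = 1 ↔ b = 1) : a = b := by
  revert a b
  decide

theorem hinv_tt (c : El Fr.sys) (x : Finset Fr.sys.P) (hc : c.2 ⊆ X.M)
    (hx : Disjoint x X.M) : tt Fr c x = rep Fr c * ∏ p ∈ x, Fr.pi p := by
  classical
  have hd : Disjoint c.2 x := by
    rw [Finset.disjoint_left] at hx ⊢
    intro p hp hpx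
    exact hx hpx (hc hp)
  unfold tt rep
  have h1 : (∏ p ∈ c.2 ∪ x, Fr.pi p) = (∏ p ∈ c.2, Fr.pi p) * ∏ p ∈ x, Fr.pi p :=
    Finset.prod_union hd
  rw [mul_assoc, ← h1]

theorem h_inv (hk : LIn k) (hL : LIn L) (hO : StRepO Fr) (hQ : StRepQ Fr) : StInv X := by
  classical
  intro γ c x x' hc hx hx' hlab
  have ht : Fr.sys.tys x = Fr.sys.tys x' := congrArg Prod.fst hlab
  have hf : (X.M.filter fun v => ∑ p ∈ x, Fr.sys.J p v = 1) =
      X.M.filter fun v => ∑ p ∈ x', Fr.sys.J p v = 1 := by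
    have := congrArg Prod.snd hlab
    unfold labM at this
    convert this
  have hJ : ∀ v ∈ X.M, ∑ p ∈ x, Fr.sys.J p v = ∑ p ∈ x', Fr.sys.J p v := by
    intro v hv
    apply hinv_eq_of_iff
    have h1 : v ∈ (X.M.filter fun v => ∑ p ∈ x, Fr.sys.J p v = 1) ↔
        v ∈ X.M.filter fun v => ∑ p ∈ x', Fr.sys.J p v = 1 := by rw [hf]
    rw [Finset.mem_filter, Finset.mem_filter] at h1
    exact ⟨fun h => (h1.1 ⟨hv, h⟩).2, fun h => (h1.2 ⟨hv, h⟩).2⟩
  obtain ⟨A, hA⟩ : ∃ A : kˣ, A = ∏ p ∈ x, Fr.pi p := ⟨_, rfl⟩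
  obtain ⟨A', hA'⟩ : ∃ A' : kˣ, A' = ∏ p ∈ x', Fr.pi p := ⟨_, rfl⟩
  unfold HX.hS
  refine Finset.sum_congr rfl fun v hv => ?_
  rw [hinv_tt X c x hc hx, hinv_tt X c x' hc hx', ← hA, ← hA']
  have hloc : (Units.map (algebraMap k L : k →* L) (A⁻¹ * A') : Lˣ) ∈ LS v := by
    rw [hL.memLS v]
    rcases v with Q | φ
    · rw [B.inl_mem_pls, HX.mem_SL] at hv
      obtain ⟨P, hP, hPQ⟩ := hv
      have hov : Over P Q := hPQ
      show LocSq Q (algebraMap k L ((A⁻¹ * A' : kˣ) : k))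
      apply hinv_up hov
      rw [Finset.mem_union] at hP
      rcases hP with hP | hP
      · have h1 : (Sum.inl P : Pl k) ∈ pls Fr.S := B.inl_mem_pls.2 hP
        have h2 := (hk.memLS _ _).1 (hinv_quot Fr hk h1 x x' ht)
        rw [← hA, ← hA'] at h2
        exact h2
      · rw [Finset.mem_image] at hP
        obtain ⟨p, hpM, rfl⟩ := hP
        have h2 := hinv_M Fr hO hQ x x' p (fun h => Finset.disjoint_left.1 hx h hpM)
          (fun h => Finset.disjoint_left.1 hx' h hpM) (hJ p hpM)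
        rw [← hA, ← hA'] at h2
        exact h2
    · have h1 : (Sum.inr (φ.comp (algebraMap k L)) : Pl k) ∈ pls Fr.S := B.inr_mem_pls _ _
      have h2 := (hk.memLS _ _).1 (hinv_quot Fr hk h1 x x' ht)
      rw [← hA, ← hA'] at h2
      exact h2
  have h1 := hL.mulR v (HX.out γ) (X.δ * Units.map (algebraMap k L : k →* L) (rep Fr c * A))
    (Units.map (algebraMap k L : k →* L) (A⁻¹ * A'))
  rw [B.hv_of_loc hL v _ _ hloc, add_zero] at h1
  have h2 : X.δ * Units.map (algebraMap k L : k →* L) (rep Fr c * A) *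
      Units.map (algebraMap k L : k →* L) (A⁻¹ * A') =
      X.δ * Units.map (algebraMap k L : k →* L) (rep Fr c * A') := by
    rw [mul_assoc, ← map_mul, mul_assoc, mul_inv_cancel_left]
  rw [h2] at h1
  exact h1.symm

end

end Pool.Agent.H32.MQ
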