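import Pool.Agent.H32.MQ.HStm
import Pool.Agent.H98.MF.C.C9

/-!
# Malle's conjecture for 8T28 and 8T29 over number fields, row H4: the product formula
-/

set_option autoImplicit false

open scoped BigOperators
open NumberField IsDedekindDomain

namespace Pool.Agent.H32.MQ

open Pool.Agent.H98.MF

section

variable {k : Type} [Field k] [NumberField k] {Fr : Frm k} {L : Type} [Field L] [NumberField L]
  [Algebra k L] (X : HX Fr L)

namespace HP

/-- primes outside `SL` -/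
theorem below {Q : HeightOneSpectrum (𝓞 L)} (hQ : Q ∉ X.SL) :
    ∃ p, p ∉ X.M ∧ Over (Fr.pl p) Q := by
  classical
  have h1 : Over (HeightOneSpectrum.under (𝓞 k) Q) Q := rfl
  have h2 : HeightOneSpectrum.under (𝓞 k) Q ∉ Fr.S := fun h => hQ ((X.mem_SL Q).2
    ⟨_, Finset.mem_union_left _ h, h1⟩)
  obtain ⟨p, hp⟩ := (Fr.pl_iff _).2 h2
  refine ⟨p, fun h => hQ ((X.mem_SL Q).2 ⟨_, Finset.mem_union_right _
    (Finset.mem_image_of_mem _ h), ?_⟩), ?_⟩
  · rw [hp]
    exact h1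
  · rw [hp]
    exact h1

theorem not_SL {p : Fr.sys.P} (hp : p ∉ X.M) {Q : HeightOneSpectrum (𝓞 L)}
    (hQ : Over (Fr.pl p) Q) : Q ∉ X.SL := by
  classical
  intro h
  obtain ⟨P, hP, hPQ⟩ := (X.mem_SL Q).1 h
  have h1 : P = Fr.pl p := by
    apply HeightOneSpectrum.ext
    rw [← hPQ, ← hQ]
  rw [h1] at hP
  rcases Finset.mem_union.1 hP with h2 | h2
  · exact (Fr.pl_iff _).1 ⟨p, rfl⟩ h2
  · obtain ⟨q, hq, hqp⟩ := Finset.mem_image.1 h2
    rw [Fr.pl_inj hqp] at hq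
    exact hp hq

theorem cast_odd {n : ℤ} (h : Odd n) : (n : ZMod 2) = 1 := by
  obtain ⟨m, rfl⟩ := h
  push_cast
  have h2 : (2 : ZMod 2) = 0 := rfl
  rw [h2, zero_mul, zero_add]

theorem cast_even {n : ℤ} (h : Even n) : (n : ZMod 2) = 0 := by
  rw [ZMod.intCast_zmod_eq_zero_iff_dvd]
  exact h.two_dvd

end HP

open Classical in
theorem h_prod (hL : LIn L) (hR : RecSt L) (hO : StRepO Fr) (hQ : StRepQ Fr) (h1 : StOrd X)
    (hM : StQM X) (hS : StQS X) (hI : StQI X) : StProd X := by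
  intro g _ γ hγ c hc x hxM hxg
  set G : Lˣ := HX.out γ with hG
  set t : kˣ := tt Fr c x with ht
  set D : Lˣ := X.δ * Units.map (algebraMap k L : k →* L) t with hD
  have hDval : (D : L) = (X.δ : L) * algebraMap k L (t : k) := rfl
  have ht0 : algebraMap k L (t : k) ≠ 0 := (Units.map (algebraMap k L : k →* L) t).ne_zero
  -- exponents
  have ht1 : ∀ p, ord (Fr.pl p) (t : k) = if p ∈ c.2 ∪ x then 1 else 0 := by
    intro p
    have h := hO (c.1, c.2 ∪ x) p
    rw [ht]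
    unfold tt
    exact h
  have hDo : ∀ p, p ∉ X.M → ∀ Q, Over (Fr.pl p) Q →
      ord Q (D : L) = ord Q (X.δ : L) + ord (Fr.pl p) (t : k) := by
    intro p hp Q hQp
    rw [hDval, ord_mul Q X.δ.ne_zero ht0, (h1 p Q hp hQp).2]
  have hpc : ∀ p, p ∉ X.M → p ∉ c.2 := fun p hp h => hp (hc h)
  have hGx : ∀ p ∈ x, ∀ Q, Over (Fr.pl p) Q → Even (ord Q (G : L)) := by
    intro p hp Q hQp
    by_contra h
    rw [Int.not_even_iff_odd] at h
    have hpM : p ∉ X.M := Finset.disjoint_left.1 hxM hp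
    obtain ⟨b, hb, hbQ⟩ := (hγ Q ⟨p, hpM, hQp⟩).1 h
    subst hbQ
    have h2 := X.shX_eq b hQp
    exact Finset.disjoint_left.1 hxg hp (h2 ▸ Finset.mem_image_of_mem _ hb)
  have hshg : ∀ b ∈ g, X.shX b ∉ x := fun b hb h =>
    Finset.disjoint_left.1 hxg h (Finset.mem_image_of_mem _ hb)
  -- the local values
  have vx : ∀ p ∈ x, ∀ Q, Over (Fr.pl p) Q → hs Q (G : L) (D : L) = qr (G : L) Q := by
    intro p hp Q hQp
    have hpM : p ∉ X.M := Finset.disjoint_left.1 hxM hp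
    have h2 := (h1 p Q hpM hQp).1
    rw [hs_even h2 G.ne_zero D.ne_zero (hGx p hp Q hQp)]
    have h3 : Odd (ord Q (D : L)) := by
      rw [hDo p hpM Q hQp, ht1, if_pos (Finset.mem_union_right _ hp)]
      exact (X.evd p hpM Q hQp).add_one
    rw [HP.cast_odd h3, one_mul]
  have hDe : ∀ p, p ∉ X.M → p ∉ x → ∀ Q, Over (Fr.pl p) Q → Even (ord Q (D : L)) := by
    intro p hpM hpx Q hQp
    rw [hDo p hpM Q hQp, ht1, if_neg, add_zero]
    · exact X.evd p hpM Q hQp
    · rw [Finset.mem_union, not_or]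
      exact ⟨hpc p hpM, hpx⟩
  have vg : ∀ b ∈ g, hs b.1 (G : L) (D : L) =
      qr (X.δ : L) b.1 + Fr.sys.ex (x ∪ c.2) c.1 (X.shX b) := by
    intro b hb
    have hpM := X.shX_not b
    have hov := X.shX_over b
    have hpx := hshg b hb
    have h2 := (h1 _ _ hpM hov).1
    have hodd : Odd (ord b.1 (G : L)) := (hγ b.1 b.2.1).2 ⟨b, hb, rfl⟩
    have hte : ord (Fr.pl (X.shX b)) (t : k) = 0 := by
      rw [ht1, if_neg]
      rw [Finset.mem_union, not_or]
      exact ⟨hpc _ hpM, hpx⟩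
    have e0 : Even (ord (Fr.pl (X.shX b)) (t : k)) := by
      rw [hte]
      exact Even.zero
    have e1 : Even (ord b.1 (algebraMap k L (t : k))) := by
      rw [(h1 _ _ hpM hov).2]
      exact e0
    rw [hs_symm b.1 G.ne_zero D.ne_zero, hs_even h2 D.ne_zero G.ne_zero (hDe _ hpM hpx _ hov),
      HP.cast_odd hodd, one_mul, hDval, qr_mul h2 X.δ.ne_zero ht0 (X.evd _ hpM _ hov) e1,
      hM t b e0]
    congr 1
    have h3 : X.shX b ∉ ((c.1, c.2 ∪ x) : El Fr.sys).2 := by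
      show X.shX b ∉ c.2 ∪ x
      rw [Finset.mem_union, not_or]
      exact ⟨hpc _ hpM, hpx⟩
    have h4 := hQ (c.1, c.2 ∪ x) (X.shX b) h3
    rw [Finset.union_comm x c.2]
    exact h4
  have v0 : ∀ Q, Q ∉ X.SL → (∀ p ∈ x, ¬ Over (Fr.pl p) Q) → (∀ b ∈ g, b.1 ≠ Q) →
      hs Q (G : L) (D : L) = 0 := by
    intro Q hQS hQx hQg
    obtain ⟨p, hpM, hov⟩ := HP.below X hQS
    have h2 := (h1 _ _ hpM hov).1
    have hpx : p ∉ x := fun h => hQx p h hov
    have hev : Even (ord Q (G : L)) := by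
      by_contra h
      rw [Int.not_even_iff_odd] at h
      obtain ⟨b, hb, hbQ⟩ := (hγ Q ⟨p, hpM, hov⟩).1 h
      exact hQg b hb hbQ
    rw [hs_even h2 G.ne_zero D.ne_zero hev, HP.cast_even (hDe p hpM hpx Q hov), zero_mul]
  -- the primes above `x`
  have hex : ∀ p, ∃ Q : HeightOneSpectrum (𝓞 L), Over (Fr.pl p) Q := fun p => exists_over _
  choose q hq using hex
  let Ap : Fr.sys.P → Finset (HeightOneSpectrum (𝓞 L)) := fun p => {q p, cj X.sig (q p)}
  have hAp : ∀ p Q, Q ∈ Ap p ↔ Over (Fr.pl p) Q := by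
    intro p Q
    rw [Finset.mem_insert, Finset.mem_singleton]
    constructor
    · rintro (h | h)
      · rw [h]
        exact hq p
      · rw [h]
        exact (hq p).cj X.sig
    · intro h
      exact Pool.Agent.H98.MF.B.qe_over X.qe X.sig X.sig_α (hq p) h
  have sAp : ∀ p ∈ x, ∑ Q ∈ Ap p, qr (G : L) Q =
      qr (HX.nrX (k := k) G : k) (Fr.pl p) := by
    intro p hp
    have hpM : p ∉ X.M := Finset.disjoint_left.1 hxM hp
    by_cases hcj : cj X.sig (q p) = q p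
    · have h2 : Ap p = {q p} := by
        show ({q p, cj X.sig (q p)} : Finset (HeightOneSpectrum (𝓞 L))) = {q p}
        rw [hcj, Finset.pair_eq_singleton]
      rw [h2, Finset.sum_singleton, hI G p (q p) hpM (hq p) hcj (hGx p hp _ (hq p))]
    · have h2 : ∑ Q ∈ Ap p, qr (G : L) Q = qr (G : L) (q p) + qr (G : L) (cj X.sig (q p)) :=
        Finset.sum_pair fun h => hcj h.symm
      let b : X.PX := ⟨q p, ⟨p, hpM, hq p⟩, hcj⟩
      have hb : X.shX b = p := X.shX_eq b (hq p)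
      have h3 := hS G b (hGx p hp _ (hq p)) (hGx p hp _ ((hq p).cj X.sig))
      rw [hb] at h3
      rw [h2, h3]
      rfl
  -- the finite sets
  let A : Finset (HeightOneSpectrum (𝓞 L)) := x.biUnion Ap
  let B' : Finset (HeightOneSpectrum (𝓞 L)) := g.image fun b => b.1
  let T0 : Finset (HeightOneSpectrum (𝓞 L)) :=
    ((Pool.Agent.H98.MF.B.ord_finite (G : L) G.ne_zero).toFinset ∪
      (Pool.Agent.H98.MF.B.ord_finite (D : L) D.ne_zero).toFinset) \ X.SL
  have hAS : ∀ Q ∈ A, Q ∉ X.SL := by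
    intro Q h
    obtain ⟨p, hp, h2⟩ := Finset.mem_biUnion.1 h
    exact HP.not_SL X (Finset.disjoint_left.1 hxM hp) ((hAp p Q).1 h2)
  have hBS : ∀ Q ∈ B', Q ∉ X.SL := by
    intro Q h
    obtain ⟨b, -, rfl⟩ := Finset.mem_image.1 h
    exact HP.not_SL X (X.shX_not b) (X.shX_over b)
  have hAB : Disjoint A B' := by
    rw [Finset.disjoint_left]
    intro Q hQA hQB
    obtain ⟨p, hp, h2⟩ := Finset.mem_biUnion.1 hQA
    obtain ⟨b, hb, rfl⟩ := Finset.mem_image.1 hQB
    have h3 := X.shX_eq b ((hAp p b.1).1 h2)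
    exact hshg b hb (h3 ▸ hp)
  let T : Finset (HeightOneSpectrum (𝓞 L)) := T0 ∪ (A ∪ B')
  have hTS : Disjoint X.SL T := by
    rw [Finset.disjoint_left]
    intro Q hQS hQT
    rcases Finset.mem_union.1 hQT with h | h
    · exact (Finset.mem_sdiff.1 h).2 hQS
    · rcases Finset.mem_union.1 h with h | h
      · exact hAS Q h hQS
      · exact hBS Q h hQS
  have hsumT : ∑ Q ∈ T, hs Q (G : L) (D : L) =
      ∑ p ∈ x, qr (HX.nrX (k := k) G : k) (Fr.pl p) +
      ∑ b ∈ g, (qr (X.δ : L) b.1 + Fr.sys.ex (x ∪ c.2) c.1 (X.shX b)) := by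
    rw [← Finset.sum_subset (Finset.subset_union_right : A ∪ B' ⊆ T), Finset.sum_union hAB]
    · congr 1
      · show ∑ Q ∈ x.biUnion Ap, _ = _
        rw [Finset.sum_biUnion]
        · refine Finset.sum_congr rfl fun p hp => ?_
          rw [← sAp p hp]
          exact Finset.sum_congr rfl fun Q hQp => vx p hp Q ((hAp p Q).1 hQp)
        · intro p hp p' hp' hne
          rw [Function.onFun, Finset.disjoint_left]
          intro Q h2 h3
          exact hne (HX.over_inj ((hAp p Q).1 h2) ((hAp p' Q).1 h3))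
      · show ∑ Q ∈ g.image (fun b => b.1), _ = _
        rw [Finset.sum_image (fun b _ b' _ h => Subtype.ext h)]
        exact Finset.sum_congr rfl fun b hb => vg b hb
    · intro Q hQT hQAB
      rw [Finset.mem_union, not_or] at hQAB
      refine v0 Q (fun h => Finset.disjoint_left.1 hTS h hQT) (fun p hp h => ?_)
        (fun b hb h => ?_)
      · exact hQAB.1 (Finset.mem_biUnion.2 ⟨p, hp, (hAp p Q).2 h⟩)
      · exact hQAB.2 (Finset.mem_image.2 ⟨b, hb, h⟩)
  -- reciprocity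
  have hT0 : ∀ Q, Q ∉ X.SL ∪ T → ord Q (G : L) = 0 ∧ ord Q (D : L) = 0 := by
    intro Q h
    rw [Finset.mem_union, not_or] at h
    have h2 : Q ∉ T0 := fun h3 => h.2 (Finset.mem_union_left _ h3)
    have h3 : Q ∉ (Pool.Agent.H98.MF.B.ord_finite (G : L) G.ne_zero).toFinset ∪
      (Pool.Agent.H98.MF.B.ord_finite (D : L) D.ne_zero).toFinset := fun h4 =>
        h2 (Finset.mem_sdiff.2 ⟨h4, h.1⟩)
    rw [Finset.mem_union, not_or, Set.Finite.mem_toFinset, Set.Finite.mem_toFinset] at h3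
    exact ⟨not_not.1 h3.1, not_not.1 h3.2⟩
  have hrec := hR (X.SL ∪ T) (fun Q hQ2 => by
      by_contra h
      rw [Finset.mem_union, not_or] at h
      obtain ⟨p, hpM, hov⟩ := HP.below X h.1
      rw [(h1 _ _ hpM hov).1] at hQ2
      exact lt_irrefl _ hQ2) G
    (Pool.Agent.H98.MF.B.mem_US.2 fun Q h => (hT0 Q h).1) D
    (Pool.Agent.H98.MF.B.mem_US.2 fun Q h => (hT0 Q h).2)
  have hdec : X.hS γ c x + ∑ Q ∈ T, hs Q (G : L) (D : L) = 0 := by
    unfold pls at hrec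
    rw [Finset.sum_disjSum, Finset.sum_union hTS] at hrec
    have h2 : X.hS γ c x = ∑ Q ∈ X.SL, hv (Sum.inl Q) (G : L) (D : L) +
        ∑ φ : L →+* ℝ, hv (Sum.inr φ) (G : L) (D : L) := by
      unfold HX.hS pls
      rw [Finset.sum_disjSum]
      rfl
    rw [h2, ← hrec]
    have h3 : ∑ Q ∈ T, hs Q (G : L) (D : L) = ∑ Q ∈ T, hv (Sum.inl Q) (G : L) (D : L) := rfl
    rw [h3]
    ring
  rw [hsumT] at hdec
  have h5 := eq_neg_of_add_eq_zero_left hdec
  rw [ZMod.neg_eq_self_mod_two] at h5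
  exact h5.symm

end

end Pool.Agent.H32.MQ
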