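import Pool.Agent.H32.MQ.HInst
import Pool.Agent.H32.MQ.HQr
import Pool.Agent.H32.MQ.HCard
import Pool.Agent.H32.MQ.HProd
import Pool.Agent.H32.MQ.HInv
import Pool.Agent.H98.MF.C.Main
import Pool.Agent.H98.MF.NNin

/-!
# Malle's conjecture for 8T28 and 8T29 over number fields, block H: the structure `Qd` and its
laws, without hypotheses
-/

set_option autoImplicit false

open scoped BigOperators
open NumberField IsDedekindDomain

namespace Pool.Agent.H32.MQ

open Pool.Agent.H98.MF

section

variable {k : Type} [Field k] [NumberField k] {Fr : Frm k} {L : Type} [Field L]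
  [NumberField L] [Algebra k L] (X : HX Fr L)

theorem h_cardB : StCardB X := h_card X (h_co Fr) (h_repO Fr) (h_ord X) (h_ordN X)

/-- the structure `Qd` of a quadratic extension -/
noncomputable def Qof : Qd Fr.sys := toQd X (h_cardB X)

theorem h_invX : StInv X := h_inv X (B.lin k) (B.lin L) (h_repO Fr) (h_repQ Fr)

theorem h_prodX : StProd X :=
  h_prod X (B.lin L) (B.recSt (nin L)) (h_repO Fr) (h_repQ Fr) (h_ord X) (h_qm X) (h_qs X) (h_qi X)

/-- the laws -/
theorem lawX : (Qof X).Law :=
  law_of X (h_cardB X) (h_ordN X) (h_qs X) (h_prodX X) (h_invX X)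

end

end Pool.Agent.H32.MQ
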