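import Pool.Agent.H32.MQ.KUStm
import Pool.Agent.H98.MF.SCount

/-!
# Malle's conjecture for 8T28 and 8T29 over number fields: absolute convergence (row U11)
-/

set_option autoImplicit false

open scoped BigOperators

namespace Pool.Agent.H32.MQ

open Pool.Agent.H98.MK (sg)
open Pool.Agent.H98.MF

section

variable {S : Sys} (Q : Qd S)

/-- powers of norms are products -/
theorem ua_nm_rpow (x : Finset S.P) (s : ℝ) :
    (S.nm x : ℝ) ^ s = ∏ p ∈ x, (S.N p : ℝ) ^ s := by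
  unfold Pre.nm
  rw [Nat.cast_prod]
  exact Real.finsetProd_rpow x (fun p => (S.N p : ℝ)) (fun p _ => Nat.cast_nonneg _) s |>.symm

/-- the norm of a good set is a product over its elements -/
theorem ua_nq_rpow (g : Finset Q.P) (hg : Q.Gd g) (s : ℝ) :
    (S.nm (Q.shd g) : ℝ) ^ s = ∏ a ∈ g, (S.N (Q.sh a) : ℝ) ^ s := by
  classical
  rw [ua_nm_rpow]
  have h : Q.shd g = g.image Q.sh := by
    unfold Qd.shd
    congr 1
  rw [h, Finset.prod_image]
  intro a ha b hb hab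
  exact hg a ha b hb hab

theorem ua_card_shd (g : Finset Q.P) (hg : Q.Gd g) : (Q.shd g).card = g.card := by
  classical
  have h : Q.shd g = g.image Q.sh := by
    unfold Qd.shd
    congr 1
  rw [h]
  exact Finset.card_image_of_injOn fun a ha b hb hab => hg a ha b hb hab

/-- the sum over the primes of `F` converges -/
theorem ua_summable_sh (s : ℝ) (hs : 1 < s) :
    Summable fun a : Q.P => (S.N (Q.sh a) : ℝ) ^ (-s) := by
  classical
  have h1 := summable_N S s hs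
  have h0 : ∀ p : S.P, 0 ≤ (S.N p : ℝ) ^ (-s) := fun p => Real.rpow_nonneg (Nat.cast_nonneg _) _
  refine summable_of_sum_le (c := 2 * ∑' p : S.P, (S.N p : ℝ) ^ (-s)) (fun a => h0 _) fun u => ?_
  rw [Finset.sum_comp (fun p : S.P => (S.N p : ℝ) ^ (-s)) Q.sh]
  have h2 : ∀ p ∈ u.image Q.sh, (u.filter fun a => Q.sh a = p).card • (S.N p : ℝ) ^ (-s) ≤
      2 * (S.N p : ℝ) ^ (-s) := by
    intro p hp
    obtain ⟨a, _, rfl⟩ := Finset.mem_image.1 hp
    rw [nsmul_eq_mul]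
    refine mul_le_mul_of_nonneg_right ?_ (h0 _)
    have h3 : (u.filter fun b => Q.sh b = Q.sh a) ⊆ {a, Q.cj a} := by
      intro b hb
      have h4 := (Finset.mem_filter.1 hb).2
      rw [Finset.mem_insert, Finset.mem_singleton]
      exact Q.fib a b h4.symm
    have h5 := (Finset.card_le_card h3).trans Finset.card_le_two
    exact_mod_cast h5
  refine (Finset.sum_le_sum h2).trans ?_
  rw [← Finset.mul_sum]
  exact mul_le_mul_of_nonneg_left (h1.sum_le_tsum _ fun p _ => h0 p) (by norm_num)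

/-- sums of products over all finite sets of primes -/
theorem ua_sum1 (s : ℝ) (hs : 1 < s) (c : ℝ) (hc : 0 ≤ c) :
    Summable fun x : Finset S.P => ∏ p ∈ x, (c * (S.N p : ℝ) ^ (-s)) :=
  summable_finsetProd_of_summable_nonneg
    (fun p : S.P => mul_nonneg hc (Real.rpow_nonneg (Nat.cast_nonneg (S.N p)) (-s)))
    ((summable_N S s hs).mul_left c)

theorem ua_sum2 (s : ℝ) (hs : 1 < s) (c : ℝ) (hc : 0 ≤ c) :
    Summable fun g : Finset Q.P => ∏ a ∈ g, (c * (S.N (Q.sh a) : ℝ) ^ (-s)) :=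
  summable_finsetProd_of_summable_nonneg
    (fun a : Q.P => mul_nonneg hc (Real.rpow_nonneg (Nat.cast_nonneg (S.N (Q.sh a))) (-s)))
    ((ua_summable_sh Q s hs).mul_left c)

theorem ua_nn1 (s c : ℝ) (hc : 0 ≤ c) (x : Finset S.P) :
    0 ≤ ∏ p ∈ x, (c * (S.N p : ℝ) ^ (-s)) :=
  Finset.prod_nonneg fun _ _ => mul_nonneg hc (Real.rpow_nonneg (Nat.cast_nonneg _) _)

theorem ua_nn2 (s c : ℝ) (hc : 0 ≤ c) (g : Finset Q.P) :
    0 ≤ ∏ a ∈ g, (c * (S.N (Q.sh a) : ℝ) ^ (-s)) :=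
  Finset.prod_nonneg fun _ _ => mul_nonneg hc (Real.rpow_nonneg (Nat.cast_nonneg _) _)

/-- double sums over the classes and the elements `c` -/
theorem ua_double (g : Finset Q.P) (f : Q.G → El S → ℝ) (K : ℝ) (hK : 0 ≤ K)
    (hf : ∀ γ c, |f γ c| ≤ K) :
    |∑ γ ∈ Q.B g, ∑ c ∈ Q.els, f γ c| ≤ (4 : ℝ) ^ (S.m + Q.M.card) * Q.els.card * K := by
  have h1 : |∑ γ ∈ Q.B g, ∑ c ∈ Q.els, f γ c| ≤ ((Q.B g).card : ℝ) * ((Q.els.card : ℝ) * K) := by
    refine (Finset.abs_sum_le_sum_abs _ _).trans ?_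
    have h2 : ∀ γ ∈ Q.B g, |∑ c ∈ Q.els, f γ c| ≤ (Q.els.card : ℝ) * K := by
      intro γ _
      refine (Finset.abs_sum_le_sum_abs _ _).trans ?_
      refine (Finset.sum_le_card_nsmul _ _ K fun c _ => hf γ c).trans ?_
      rw [nsmul_eq_mul]
    refine (Finset.sum_le_card_nsmul _ _ _ h2).trans ?_
    rw [nsmul_eq_mul]
  refine h1.trans ?_
  rw [mul_assoc]
  refine mul_le_mul_of_nonneg_right ?_ (mul_nonneg (Nat.cast_nonneg _) hK)
  exact_mod_cast Q.card_B g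

theorem ua_fp_le (γ : Q.G) (p : S.P) : |Q.fp γ p| ≤ 4 := by
  have h1 : ∀ t : ZMod 2, |1 + ((sg t : ℤ) : ℝ)| ≤ 2 := by
    intro t
    have h2 := abs_sgr t
    have h3 := abs_add_le (1 : ℝ) ((sg t : ℤ) : ℝ)
    rw [h2, abs_one] at h3
    linarith
  unfold Qd.fp
  split_ifs with h
  · rw [abs_mul]
    have h2 := mul_le_mul (h1 (Q.sy γ h.choose)) (h1 (Q.sy γ (Q.cj h.choose))) (abs_nonneg _)
      (by norm_num)
    linarith
  · have := h1 (Q.ns γ p)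
    linarith

theorem ua_fa_le (c : El S) (x : Finset S.P) (a : Q.P) : |Q.fa c x a| ≤ 2 := by
  unfold Qd.fa
  have h2 := abs_sgr (Q.d0 a + S.ex (x ∪ c.2) c.1 (Q.sh a))
  have h3 := abs_add_le (1 : ℝ) ((sg (Q.d0 a + S.ex (x ∪ c.2) c.1 (Q.sh a)) : ℤ) : ℝ)
  rw [h2, abs_one] at h3
  linarith

/-- the bound for the terms of the configurations -/
theorem ua_tm_le (Θ : Q.G → El S → El S → ℝ) (hΘ : BdT Θ) (x : Cf Q) :
    |x.tm Θ| ≤ (4 : ℝ) ^ (S.m + Q.M.card) * Q.els.card := by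
  unfold Cf.tm
  split_ifs with h
  · have h1 := ua_double Q x.g (fun γ c => Θ γ c (Q.lab x.q) * ((sg (x.E γ c) : ℤ) : ℝ)) 1
      zero_le_one (fun γ c => by
        rw [abs_mul, abs_sgr, mul_one]
        exact hΘ γ c _)
    rw [mul_one] at h1
    exact h1
  · rw [abs_zero]
    positivity

/-- the bound for the values of the weights on admissible configurations -/
theorem ua_val_eq (s : ℝ) (x : Cf Q) (hx : x.Ok) :
    (Wp Q s).val x = ((∏ p ∈ x.q0, (1 * (S.N p : ℝ) ^ (-s))) *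
      (∏ p ∈ x.q12, (1 * (S.N p : ℝ) ^ (-s)))) *
      ((∏ a ∈ x.qq, (1 * (S.N (Q.sh a) : ℝ) ^ (-s))) *
        ((∏ a ∈ x.g0, (1 * (S.N (Q.sh a) : ℝ) ^ (-s))) *
          (∏ a ∈ x.g1, (1 * (S.N (Q.sh a) : ℝ) ^ (-s))))) := by
  unfold Wg.val Wp pw
  simp only [one_mul]
  rw [ua_nm_rpow, ua_nm_rpow, ua_nq_rpow Q x.qq hx.gqq, ua_nq_rpow Q x.g0 hx.gg0,
    ua_nq_rpow Q x.g1 hx.gg1]
  ring

/-- the first series converges absolutely -/
theorem ua_first (Θ : Q.G → El S → El S → ℝ) (s : ℝ) (hΘ : BdT Θ) (hs : 1 < s) :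
    Summable fun x : Cf Q => (Wp Q s).val x * x.tm Θ := by
  set K : ℝ := (4 : ℝ) ^ (S.m + Q.M.card) * Q.els.card with hK
  have hK0 : 0 ≤ K := by positivity
  have a1 := ua_sum1 (S := S) s hs 1 zero_le_one
  have a2 := ua_sum2 Q s hs 1 zero_le_one
  have n1 := ua_nn1 (S := S) s 1 zero_le_one
  have n2 := ua_nn2 Q s 1 zero_le_one
  have b1 := a1.mul_of_nonneg a1 n1 n1
  have b2 := a2.mul_of_nonneg a2 n2 n2
  have b3 := a2.mul_of_nonneg b2 n2 (fun z => mul_nonneg (n2 _) (n2 _))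
  have b4 := b1.mul_of_nonneg b3 (fun z => mul_nonneg (n1 _) (n1 _))
    (fun z => mul_nonneg (n2 _) (mul_nonneg (n2 _) (n2 _)))
  let f : Cf Q → (Finset S.P × Finset S.P) × (Finset Q.P × Finset Q.P × Finset Q.P) :=
    fun x => ((x.q0, x.q12), (x.qq, x.g0, x.g1))
  have hf : Function.Injective f := by
    intro x y h
    simp only [f, Prod.mk.injEq] at h
    exact Cf.ext h.1.1 h.1.2 h.2.1 h.2.2.1 h.2.2.2
  have b5 := (b4.comp_injective hf).mul_right K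
  refine Summable.of_norm_bounded b5 fun x => ?_
  simp only [Function.comp, f]
  rw [Real.norm_eq_abs, abs_mul]
  by_cases hx : x.Ok
  · rw [ua_val_eq Q s x hx]
    have h0 : 0 ≤ ((∏ p ∈ x.q0, (1 * (S.N p : ℝ) ^ (-s))) *
      (∏ p ∈ x.q12, (1 * (S.N p : ℝ) ^ (-s)))) *
      ((∏ a ∈ x.qq, (1 * (S.N (Q.sh a) : ℝ) ^ (-s))) *
        ((∏ a ∈ x.g0, (1 * (S.N (Q.sh a) : ℝ) ^ (-s))) *
          (∏ a ∈ x.g1, (1 * (S.N (Q.sh a) : ℝ) ^ (-s))))) :=
      mul_nonneg (mul_nonneg (n1 _) (n1 _)) (mul_nonneg (n2 _) (mul_nonneg (n2 _) (n2 _)))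
    rw [abs_of_nonneg h0]
    exact mul_le_mul_of_nonneg_left (ua_tm_le Q Θ hΘ x) h0
  · have h1 : x.tm Θ = 0 := by
      unfold Cf.tm
      rw [if_neg hx]
    rw [h1, abs_zero, mul_zero]
    exact mul_nonneg (mul_nonneg (mul_nonneg (n1 _) (n1 _))
      (mul_nonneg (n2 _) (mul_nonneg (n2 _) (n2 _)))) hK0

/-- the bound for the terms of the pairs -/
theorem ua_tp_le (Θ : Q.G → El S → El S → ℝ) (hΘ : BdT Θ) (x : Finset S.P) (g : Finset Q.P) :
    |Q.tp Θ x g| ≤ (4 : ℝ) ^ (S.m + Q.M.card) * Q.els.card *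
      ((4 : ℝ) ^ x.card * (2 : ℝ) ^ g.card) := by
  unfold Qd.tp
  split_ifs with h
  · refine ua_double Q g (fun γ c => Θ γ c (Q.lab x) *
      ((∏ p ∈ x, Q.fp γ p) * ∏ a ∈ g, Q.fa c x a)) _ (by positivity) fun γ c => ?_
    rw [abs_mul, abs_mul, Finset.abs_prod, Finset.abs_prod]
    have h1 : ∏ p ∈ x, |Q.fp γ p| ≤ (4 : ℝ) ^ x.card := by
      rw [← Finset.prod_const]
      exact Finset.prod_le_prod (fun _ _ => abs_nonneg _) fun p _ => ua_fp_le Q γ p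
    have h2 : ∏ a ∈ g, |Q.fa c x a| ≤ (2 : ℝ) ^ g.card := by
      rw [← Finset.prod_const]
      exact Finset.prod_le_prod (fun _ _ => abs_nonneg _) fun a _ => ua_fa_le Q c x a
    have h3 : (∏ p ∈ x, |Q.fp γ p|) * ∏ a ∈ g, |Q.fa c x a| ≤
        (4 : ℝ) ^ x.card * (2 : ℝ) ^ g.card :=
      mul_le_mul h1 h2 (Finset.prod_nonneg fun _ _ => abs_nonneg _) (by positivity)
    have h4 : 0 ≤ (∏ p ∈ x, |Q.fp γ p|) * ∏ a ∈ g, |Q.fa c x a| :=
      mul_nonneg (Finset.prod_nonneg fun _ _ => abs_nonneg _)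
        (Finset.prod_nonneg fun _ _ => abs_nonneg _)
    calc |Θ γ c (Q.lab x)| * ((∏ p ∈ x, |Q.fp γ p|) * ∏ a ∈ g, |Q.fa c x a|)
        ≤ 1 * ((∏ p ∈ x, |Q.fp γ p|) * ∏ a ∈ g, |Q.fa c x a|) :=
          mul_le_mul_of_nonneg_right (hΘ γ c _) h4
      _ ≤ _ := by rw [one_mul]; exact h3
  · rw [abs_zero]
    positivity

/-- the second series converges absolutely -/
theorem ua_second (Θ : Q.G → El S → El S → ℝ) (s : ℝ) (hΘ : BdT Θ) (hs : 1 < s) :
    Summable fun z : Finset S.P × Finset Q.P =>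
      Q.tp Θ z.1 z.2 * ((S.nm z.1 : ℝ) * (Q.nq z.2 : ℝ)) ^ (-s) := by
  set K : ℝ := (4 : ℝ) ^ (S.m + Q.M.card) * Q.els.card with hK
  have hK0 : 0 ≤ K := by positivity
  have a1 := ua_sum1 (S := S) s hs 4 (by norm_num)
  have a2 := ua_sum2 Q s hs 2 (by norm_num)
  have n1 := ua_nn1 (S := S) s 4 (by norm_num)
  have n2 := ua_nn2 Q s 2 (by norm_num)
  have b5 := (a1.mul_of_nonneg a2 n1 n2).mul_left K
  refine Summable.of_norm_bounded b5 fun z => ?_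
  obtain ⟨x, g⟩ := z
  show ‖Q.tp Θ x g * ((S.nm x : ℝ) * (Q.nq g : ℝ)) ^ (-s)‖ ≤ _
  rw [Real.norm_eq_abs, abs_mul]
  by_cases hg : Q.OkP x g
  · have h1 : ((S.nm x : ℝ) * (Q.nq g : ℝ)) ^ (-s) =
        (∏ p ∈ x, (S.N p : ℝ) ^ (-s)) * ∏ a ∈ g, (S.N (Q.sh a) : ℝ) ^ (-s) := by
      rw [Real.mul_rpow (Nat.cast_nonneg _) (Nat.cast_nonneg _), ua_nm_rpow]
      unfold Qd.nq
      rw [ua_nq_rpow Q g hg.1]
    have h2 : 0 ≤ ((S.nm x : ℝ) * (Q.nq g : ℝ)) ^ (-s) :=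
      Real.rpow_nonneg (mul_nonneg (Nat.cast_nonneg _) (Nat.cast_nonneg _)) _
    rw [abs_of_nonneg h2]
    refine (mul_le_mul_of_nonneg_right (ua_tp_le Q Θ hΘ x g) h2).trans (le_of_eq ?_)
    rw [h1, Finset.prod_mul_distrib, Finset.prod_mul_distrib, Finset.prod_const,
      Finset.prod_const]
    ring
  · have h1 : Q.tp Θ x g = 0 := by
      unfold Qd.tp
      rw [if_neg hg]
    rw [h1, abs_zero, zero_mul]
    exact mul_nonneg hK0 (mul_nonneg (n1 _) (n2 _))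

end

/-- absolute convergence -/
theorem sua : SUA := fun _ Q Θ s hΘ hs => ⟨ua_first Q Θ s hΘ hs, ua_second Q Θ s hΘ hs⟩

/-- absolute convergence, with the hypotheses of the row (not needed) -/
theorem sua_of (h0 : SKPt) (h1 : SKCard) : SUA := by
  have _ := h0
  have _ := h1
  exact sua

end Pool.Agent.H32.MQ
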