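import Pool.Agent.H32.MQ.AStm
import Pool.Agent.H32.MQ.HMain
import Pool.Agent.H32.MQ.UA

/-!
# Malle's conjecture for 8T28 and 8T29 over number fields, block A: the sum over the pairs

The finite sum of the terms of the pairs of norm at most `Y` is compared with the Dirichlet
series at `1 + 1 / max 1 (log Y)`.
-/

set_option autoImplicit false

open scoped BigOperators
open NumberField IsDedekindDomain

namespace Pool.Agent.H32.MQ

open Pool.Agent.H98.MK (sg)
open Pool.Agent.H98.MF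

section

variable {k : Type} [Field k] [NumberField k] {Fr : Frm k} {L : Type} [Field L]
  [NumberField L] [Algebra k L] (X : HX Fr L)

open Classical in
/-- the function which vanishes where the norm of the class is a square -/
private noncomputable def aads_th : (Qof X).G → El Fr.sys → El Fr.sys → ℝ := fun γ _ _ =>
  if (γ : HX.GX L) ∈ X.BX ∅ ∧ X.nuX (γ : HX.GX L) = (0, ∅) then 0 else 1

private theorem aads_th_cases (γ : (Qof X).G) (c l : El Fr.sys) :
    aads_th X γ c l = 0 ∨ aads_th X γ c l = 1 := by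
  unfold aads_th
  split_ifs
  · exact Or.inl rfl
  · exact Or.inr rfl

private theorem aads_bd : BdT (Q := Qof X) (aads_th X) := by
  intro γ c l
  rcases aads_th_cases X γ c l with h | h
  · rw [h, abs_zero]
    exact zero_le_one
  · rw [h, abs_one]

private theorem aads_nz : (Qof X).Nz (aads_th X) := by
  intro γ hγ h1 h2 c l
  unfold aads_th
  rw [if_pos]
  exact ⟨hγ, Prod.ext h1 h2⟩

private theorem aads_sg (t : ZMod 2) : (0 : ℝ) ≤ 1 + ((sg t : ℤ) : ℝ) := by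
  have h := abs_sgr t
  have h2 := neg_abs_le ((sg t : ℤ) : ℝ)
  rw [h] at h2
  linarith

private theorem aads_fp (γ : (Qof X).G) (p : Fr.sys.P) : 0 ≤ (Qof X).fp γ p := by
  unfold Qd.fp
  split_ifs with h
  · exact mul_nonneg (aads_sg _) (aads_sg _)
  · exact aads_sg _

private theorem aads_fa (c : El Fr.sys) (x : Finset Fr.sys.P) (a : (Qof X).P) :
    0 ≤ (Qof X).fa c x a := aads_sg _

private theorem aads_tp_nn (x : Finset Fr.sys.P) (g : Finset (Qof X).P) :
    0 ≤ (Qof X).tp (aads_th X) x g := by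
  unfold Qd.tp
  split_ifs with h
  · refine Finset.sum_nonneg fun γ _ => Finset.sum_nonneg fun c _ => ?_
    refine mul_nonneg ?_ (mul_nonneg (Finset.prod_nonneg fun p _ => aads_fp X γ p)
      (Finset.prod_nonneg fun a _ => aads_fa X c x a))
    rcases aads_th_cases X γ c ((Qof X).lab x) with h1 | h1
    · rw [h1]
    · rw [h1]
      exact zero_le_one
  · exact le_rfl

private theorem aads_ok (x : Finset Fr.sys.P) (g : Finset X.PX) :
    (Qof X).OkP x g ↔ X.okX x g := by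
  classical
  have h1 : (Qof X).shd g = g.image X.shX := by
    unfold Qd.shd
    congr 1
  constructor
  · intro h
    refine ⟨h.1, h.2.1, ?_⟩
    have h2 := h.2.2.2
    rw [h1] at h2
    convert h2
  · intro h
    refine ⟨h.1, h.2.1, ?_, ?_⟩
    · rw [h1, Finset.disjoint_left]
      intro p hp
      obtain ⟨b, _, rfl⟩ := Finset.mem_image.1 hp
      exact X.shX_not b
    · have h2 := h.2.2
      rw [h1]
      convert h2

private theorem aads_tp_eq (x : Finset Fr.sys.P) (g : Finset X.PX) :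
    X.tpX x g = (Qof X).tp (aads_th X) x g := by
  classical
  unfold HX.tpX Qd.tp
  by_cases h : X.okX x g
  · rw [if_pos h, if_pos ((aads_ok X x g).2 h)]
    refine Finset.sum_congr rfl fun γ _ => ?_
    refine Finset.sum_congr ?_ fun c _ => ?_
    · unfold Qd.els
      congr 1
    · congr 1
  · rw [if_neg h, if_neg fun h1 => h ((aads_ok X x g).1 h1)]

private theorem aads_nm_eq (z : Finset Fr.sys.P × Finset X.PX) :
    (X.nmX z : ℝ) = (Fr.sys.nm z.1 : ℝ) * ((Qof X).nq z.2 : ℝ) := by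
  classical
  have h1 : (Qof X).nq z.2 = Fr.sys.nm (z.2.image X.shX) := by
    unfold Qd.nq Qd.shd
    congr 1
  rw [h1]
  unfold HX.nmX
  rw [Nat.cast_mul]

/-- the numerical inequality -/
private theorem aads_num (n Y : ℝ) (hn : 1 ≤ n) (hnY : n ≤ Y) :
    n⁻¹ ≤ Real.exp 1 * n ^ (-(1 + 1 / max 1 (Real.log Y))) := by
  have hn0 : 0 < n := by linarith
  set σ : ℝ := 1 / max 1 (Real.log Y) with hσ
  have hm : 0 < max 1 (Real.log Y) := lt_of_lt_of_le one_pos (le_max_left _ _)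
  have hσ0 : 0 ≤ σ := by positivity
  have h1 : n ^ σ ≤ Real.exp 1 := by
    have h2 : Real.log n ≤ max 1 (Real.log Y) :=
      (Real.log_le_log hn0 hnY).trans (le_max_right _ _)
    rw [Real.rpow_def_of_pos hn0]
    refine Real.exp_le_exp.2 ?_
    rw [hσ, mul_one_div]
    exact (div_le_one hm).2 h2
  have h3 : n ^ (-(1 + σ)) = n⁻¹ * (n ^ σ)⁻¹ := by
    rw [Real.rpow_neg hn0.le, Real.rpow_add hn0, Real.rpow_one, mul_inv]
  have hp : 0 < n ^ σ := Real.rpow_pos_of_pos hn0 _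
  rw [h3]
  have h4 : 1 ≤ Real.exp 1 * (n ^ σ)⁻¹ := by
    rw [← div_eq_mul_inv, le_div_iff₀ hp, one_mul]
    exact h1
  calc n⁻¹ = n⁻¹ * 1 := (mul_one _).symm
    _ ≤ n⁻¹ * (Real.exp 1 * (n ^ σ)⁻¹) := mul_le_mul_of_nonneg_left h4 (inv_nonneg.2 hn0.le)
    _ = _ := by ring

private theorem aads_sig (Y : ℝ) (hY : 1 ≤ Y) :
    (1 / max 1 (Real.log Y)) ^ (-(2 : ℝ)) ≤ (1 + Real.log Y) ^ 2 := by
  have hl : 0 ≤ Real.log Y := Real.log_nonneg hY
  have hm : 0 < max 1 (Real.log Y) := lt_of_lt_of_le one_pos (le_max_left _ _)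
  have h1 : (1 / max 1 (Real.log Y)) ^ (-(2 : ℝ)) = (max 1 (Real.log Y)) ^ 2 := by
    rw [one_div, Real.rpow_neg (inv_nonneg.2 hm.le), Real.inv_rpow hm.le, inv_inv]
    exact_mod_cast Real.rpow_natCast (max 1 (Real.log Y)) 2
  rw [h1]
  have h2 : max 1 (Real.log Y) ≤ 1 + Real.log Y := max_le (by linarith) (by linarith)
  exact pow_le_pow_left₀ hm.le h2 2

/-- the finite sum is at most the Dirichlet series -/
private theorem aads_sum (Y : ℝ) :
    ∑ z ∈ X.zs Y, X.tpX z.1 z.2 / (X.nmX z : ℝ) ≤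
      Real.exp 1 * (Qof X).DS (aads_th X) (1 + 1 / max 1 (Real.log Y)) := by
  classical
  set s : ℝ := 1 + 1 / max 1 (Real.log Y) with hs
  have hm : 0 < max 1 (Real.log Y) := lt_of_lt_of_le one_pos (le_max_left _ _)
  have hs1 : 1 < s := by
    rw [hs]
    have : 0 < 1 / max 1 (Real.log Y) := by positivity
    linarith
  have hsum := (sua Fr.sys (Qof X) (aads_th X) s (aads_bd X) hs1).2
  have hnn : ∀ z : Finset Fr.sys.P × Finset (Qof X).P, 0 ≤ (Qof X).tp (aads_th X) z.1 z.2 *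
      ((Fr.sys.nm z.1 : ℝ) * ((Qof X).nq z.2 : ℝ)) ^ (-s) := fun z =>
    mul_nonneg (aads_tp_nn X z.1 z.2)
      (Real.rpow_nonneg (mul_nonneg (Nat.cast_nonneg _) (Nat.cast_nonneg _)) _)
  have h1 : ∀ z ∈ X.zs Y, X.tpX z.1 z.2 / (X.nmX z : ℝ) ≤ Real.exp 1 *
      ((Qof X).tp (aads_th X) z.1 z.2 *
        ((Fr.sys.nm z.1 : ℝ) * ((Qof X).nq z.2 : ℝ)) ^ (-s)) := by
    intro z hz
    have hz1 : (X.nmX z : ℝ) ≤ Y := by
      unfold HX.zs at hz
      split_ifs at hz with h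
      · exact ((Set.Finite.mem_toFinset _).1 hz).2
      · exact absurd hz (Finset.notMem_empty _)
    have hn1 : (1 : ℝ) ≤ X.nmX z := by
      rw [aads_nm_eq]
      exact one_le_mul_of_one_le_of_one_le (Pre.one_le_nmr _ z.1) (Pre.one_le_nmr _ _)
    have h2 := aads_num (X.nmX z : ℝ) Y hn1 hz1
    rw [← hs] at h2
    rw [aads_tp_eq, ← aads_nm_eq, div_eq_mul_inv]
    calc (Qof X).tp (aads_th X) z.1 z.2 * (X.nmX z : ℝ)⁻¹
        ≤ (Qof X).tp (aads_th X) z.1 z.2 * (Real.exp 1 * (X.nmX z : ℝ) ^ (-s)) :=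
          mul_le_mul_of_nonneg_left h2 (aads_tp_nn X z.1 z.2)
      _ = _ := by ring
  refine (Finset.sum_le_sum h1).trans ?_
  rw [← Finset.mul_sum]
  refine mul_le_mul_of_nonneg_left ?_ (Real.exp_pos 1).le
  have h5 : ∀ u : Finset (Finset Fr.sys.P × Finset (Qof X).P),
      ∑ z ∈ u, (Qof X).tp (aads_th X) z.1 z.2 *
        ((Fr.sys.nm z.1 : ℝ) * ((Qof X).nq z.2 : ℝ)) ^ (-s) ≤ (Qof X).DS (aads_th X) s :=
    fun u => hsum.sum_le_tsum u fun z _ => hnn z
  exact h5 (X.zs Y)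

end

/-- the sum over the pairs -/
theorem sADs {k : Type} [Field k] [NumberField k] (Fr : Frm k) (hD : SUD) : SADs Fr := by
  intro C0 A0 η0 ε hη hε
  obtain ⟨C, hC⟩ := hD Fr.sys C0 A0 η0 ε hη hε
  refine ⟨Real.exp 1 * |C|, ?_⟩
  intro L _ _ _ X hBF Y hY
  have hm : 0 < max 1 (Real.log Y) := lt_of_lt_of_le one_pos (le_max_left _ _)
  have hσ0 : 0 < 1 / max 1 (Real.log Y) := by positivity
  have hσ1 : 1 / max 1 (Real.log Y) ≤ 1 := by
    rw [div_le_one hm]
    exact le_max_left _ _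
  have h1 := hC (Qof X) (lawX X) hBF (aads_th X) (1 / max 1 (Real.log Y)) (aads_bd X)
    (aads_nz X) hσ0 hσ1
  have hM : (Fr.sys.nm (Qof X).M : ℝ) = (Fr.sys.nm X.M : ℝ) := rfl
  rw [hM] at h1
  have hMp : (0 : ℝ) ≤ (Fr.sys.nm X.M : ℝ) ^ ε := Real.rpow_nonneg (Nat.cast_nonneg _) _
  have hsp : (0 : ℝ) ≤ (1 / max 1 (Real.log Y)) ^ (-(2 : ℝ)) := Real.rpow_nonneg hσ0.le _
  have h2 : (Qof X).DS (aads_th X) (1 + 1 / max 1 (Real.log Y)) ≤
      |C| * (Fr.sys.nm X.M : ℝ) ^ ε * (1 + Real.log Y) ^ 2 := by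
    refine (le_abs_self _).trans (h1.trans ?_)
    calc C * (Fr.sys.nm X.M : ℝ) ^ ε * (1 / max 1 (Real.log Y)) ^ (-(2 : ℝ))
        ≤ |C| * (Fr.sys.nm X.M : ℝ) ^ ε * (1 / max 1 (Real.log Y)) ^ (-(2 : ℝ)) :=
          mul_le_mul_of_nonneg_right (mul_le_mul_of_nonneg_right (le_abs_self C) hMp) hsp
      _ ≤ _ := mul_le_mul_of_nonneg_left (aads_sig Y hY) (mul_nonneg (abs_nonneg _) hMp)
  refine (aads_sum X Y).trans ?_
  calc Real.exp 1 * (Qof X).DS (aads_th X) (1 + 1 / max 1 (Real.log Y))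
      ≤ Real.exp 1 * (|C| * (Fr.sys.nm X.M : ℝ) ^ ε * (1 + Real.log Y) ^ 2) :=
        mul_le_mul_of_nonneg_left h2 (Real.exp_pos 1).le
    _ = _ := by ring

end Pool.Agent.H32.MQ
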