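import Pool.Agent.H32.MQ.AStm
import Pool.Agent.H98.MF.SBase

/-!
# Malle's conjecture for 8T28 and 8T29 over number fields, block A: the bound by a finite sum
-/

set_option autoImplicit false

open scoped BigOperators
open NumberField IsDedekindDomain

namespace Pool.Agent.H32.MQ

open Pool.Agent.H98.MF
open Pool.Agent.H98.ML (Dt Ext norb hind)

/-- Covering of a set by finitely many finite sets. -/
theorem aafin_cov {α ι : Type} (I : Finset ι) :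
    ∀ (C : Set α) (S : ι → Set α) (a : ι → ℝ),
      (∀ i ∈ I, (S i).Finite ∧ ((S i).ncard : ℝ) ≤ a i) → (∀ r ∈ C, ∃ i ∈ I, r ∈ S i) →
      C.Finite ∧ (C.ncard : ℝ) ≤ ∑ i ∈ I, a i := by
  classical
  induction I using Finset.induction_on with
  | empty =>
    intro C S a _ hC
    have h0 : C = ∅ := by
      rw [Set.eq_empty_iff_forall_notMem]
      intro r hr
      obtain ⟨i, hi, _⟩ := hC r hr
      exact absurd hi (Finset.notMem_empty i)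
    subst h0
    exact ⟨Set.finite_empty, by simp⟩
  | insert j I hj ih =>
    intro C S a hS hC
    obtain ⟨h1, h2⟩ := ih (C \ S j) S a (fun i hi => hS i (Finset.mem_insert_of_mem hi))
      (fun r hr => by
        obtain ⟨i, hi, hri⟩ := hC r hr.1
        rcases Finset.mem_insert.1 hi with h | h
        · subst h
          exact absurd hri hr.2
        · exact ⟨i, h, hri⟩)
    obtain ⟨h3, h4⟩ := hS j (Finset.mem_insert_self j I)
    have h5 : C ⊆ (C \ S j) ∪ S j := fun r hr => by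
      by_cases h : r ∈ S j
      · exact Or.inr h
      · exact Or.inl ⟨hr, h⟩
    have h6 : ((C \ S j) ∪ S j).Finite := h1.union h3
    refine ⟨h6.subset h5, ?_⟩
    have h7 : C.ncard ≤ (C \ S j).ncard + (S j).ncard :=
      (Set.ncard_le_ncard h5 h6).trans (Set.ncard_union_le _ _)
    have h8 : (C.ncard : ℝ) ≤ ((C \ S j).ncard : ℝ) + ((S j).ncard : ℝ) := by exact_mod_cast h7
    rw [Finset.sum_insert hj]
    linarith

/-- Norms are positive. -/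
theorem aafin_nrm {F : Type} [Field F] [NumberField F] (P : HeightOneSpectrum (𝓞 F)) :
    0 < nrm P := by
  unfold nrm
  rw [Nat.pos_iff_ne_zero, Ne, Ideal.absNorm_eq_zero_iff]
  exact P.ne_bot

open Classical in
/-- The bound by a finite sum. -/
theorem stAFin {k : Type} [Field k] [NumberField k] {L : Type} [Field L] [NumberField L]
    [Algebra k L] (E : QX k L) (Fr : Frm k) (hPar : StPar E Fr) (hSz : StSize E Fr)
    (hF : ∀ R, StFib (E.toHX Fr R)) (hP : ∀ R, StPosX (E.toHX Fr R))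
    (hZ : ∀ R, StZs (E.toHX Fr R)) : StAFin E Fr := by
  intro hS RL On hOS hON R hR K hK Y hY
  have hn1 : 1 ≤ nmR R := by
    unfold nmR
    exact Finset.one_le_prod' fun P _ => aafin_nrm P
  have hn : (1 : ℝ) ≤ (nmR R : ℝ) := by exact_mod_cast hn1
  have hn0 : (0 : ℝ) < (nmR R : ℝ) ^ 2 := by positivity
  have hm1 : ∀ z : Finset Fr.sys.P × Finset (E.toHX Fr R).PX, (1 : ℝ) ≤ (E.toHX Fr R).nmX z := by
    intro z
    have : 1 ≤ (E.toHX Fr R).nmX z := by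
      unfold HX.nmX
      exact Nat.one_le_iff_ne_zero.2 (Nat.mul_ne_zero
        (Nat.pos_iff_ne_zero.1 (Fr.sys.toPre.nm_pos _))
        (Nat.pos_iff_ne_zero.1 (Fr.sys.toPre.nm_pos _)))
    exact_mod_cast this
  -- parameters with sizes
  have key : ∀ ρ ∈ E.Cn RL On R Y, ∃ (x : Finset Fr.sys.P) (g : Finset (E.toHX Fr R).PX)
      (γ : HX.GX L) (c : El Fr.sys) (A : Finset (HeightOneSpectrum (𝓞 L))),
      (E.toHX Fr R).okX x g ∧ γ ∈ (E.toHX Fr R).Bs g ∧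
      ¬ (γ ∈ (E.toHX Fr R).Bs ∅ ∧ (E.toHX Fr R).nuX γ = (0, ∅)) ∧ c.2 ⊆ (E.toHX Fr R).M ∧
      (∀ Q ∈ A, (E.toHX Fr R).Out Q) ∧
      ρ ∈ (E.toHX Fr R).Fib RL (HX.out γ) (rep Fr (c.1, c.2 ∪ x)) A ∧
      (nmR R : ℝ) ^ 2 * (E.toHX Fr R).nmX (x, g) * ((∏ Q ∈ A, nrm Q : ℕ) : ℝ) ≤ Y := by
    intro ρ hρ
    have hρ1 : ρ ∈ E.Hs RL On R := hρ.1
    have hρ2 : (QX.dn ρ : ℝ) ≤ Y ^ 2 := hρ.2
    obtain ⟨⟨γ0, t0, hHm, hOn⟩, hOth⟩ := hρ1
    have hsur := hOS ρ γ0 t0 hHm hOn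
    obtain ⟨x, g, γ, c, A, h1, h2, h3, h4, h5, h6⟩ := hPar hS RL On hOS hON R hR ρ hρ.1
    refine ⟨x, g, γ, c, A, h1, h2, h3, h4, h5, h6, ?_⟩
    have hOth' : ∀ P ∈ R, E.Oth RL ρ P := fun P hP' =>
      (hOth P (Finset.disjoint_left.1 hR hP')).1 hP'
    have h7 := hSz hS RL ρ hsur R hR hOth' x g γ c A h1 h2 h4 h5 h6
    have h8 : ((nmR R : ℝ) ^ 2 * (E.toHX Fr R).nmX (x, g) * ((∏ Q ∈ A, nrm Q : ℕ) : ℝ)) ^ 2 ≤
        Y ^ 2 := by
      have h9 : (((nmR R ^ 2 * (E.toHX Fr R).nmX (x, g) * ∏ Q ∈ A, nrm Q) ^ 2 : ℕ) : ℝ) ≤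
          (QX.dn ρ : ℝ) := by exact_mod_cast h7
      refine le_trans (le_of_eq ?_) (h9.trans hρ2)
      push_cast
      ring
    exact le_of_sq_le_sq h8 hY
  have hA1 : ∀ A : Finset (HeightOneSpectrum (𝓞 L)), (1 : ℝ) ≤ ((∏ Q ∈ A, nrm Q : ℕ) : ℝ) := by
    intro A
    have : 1 ≤ ∏ Q ∈ A, nrm Q := Finset.one_le_prod' fun Q _ => aafin_nrm Q
    exact_mod_cast this
  set X := E.toHX Fr R with hX
  set Y1 : ℝ := Y / (nmR R : ℝ) ^ 2 with hY1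
  have hY0 : 0 ≤ Y1 := div_nonneg hY hn0.le
  have hmz : ∀ z, z ∈ X.zs Y1 ↔ X.okX z.1 z.2 ∧ (X.nmX z : ℝ) ≤ Y1 := by
    intro z
    unfold HX.zs
    rw [dif_pos (hZ R Y1), Set.Finite.mem_toFinset]
    rfl
  have hBm : ∀ (g : Finset X.PX) (γ : HX.GX L), γ ∈ X.BX g ↔ γ ∈ X.Bs g := fun g γ =>
    hi_mem X (h_cardB X)
  -- the covering
  let w : ℝ := 4 ^ (Fr.sys.m + X.M.card)
  have hw : 0 ≤ w := by positivity
  let pr : Finset Fr.sys.P × Finset X.PX → HX.GX L → El Fr.sys → ℝ := fun z γ c =>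
    (∏ p ∈ z.1, X.fpX γ p) * ∏ b ∈ z.2, X.faX c z.1 b
  have hpr : ∀ z γ c, 0 ≤ pr z γ c := fun z γ c =>
    mul_nonneg (Finset.prod_nonneg fun p _ => (hP R).1 γ p)
      (Finset.prod_nonneg fun b _ => (hP R).2 c z.1 b)
  let Q : Finset Fr.sys.P × Finset X.PX → HX.GX L → Prop := fun _ γ =>
    γ ∈ X.BX ∅ ∧ X.nuX γ = (0, ∅)
  let S4 : Finset Fr.sys.P × Finset X.PX → HX.GX L → El Fr.sys →
      Finset (HeightOneSpectrum (𝓞 L)) → Set (Gm L →* Ext D4) := fun z γ c A =>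
    X.Fib RL (HX.out γ) (rep Fr (c.1, c.2 ∪ z.1)) A
  let S3 : Finset Fr.sys.P × Finset X.PX → HX.GX L → El Fr.sys → Set (Gm L →* Ext D4) :=
    fun z γ c => {ρ | ¬ Q z γ ∧ ∃ A ∈ X.As (Y1 / X.nmX z), ρ ∈ S4 z γ c A}
  let S2 : Finset Fr.sys.P × Finset X.PX → HX.GX L → Set (Gm L →* Ext D4) :=
    fun z γ => {ρ | ∃ c ∈ (Finset.univ : Finset Fr.sys.T) ×ˢ X.M.powerset, ρ ∈ S3 z γ c}
  let S1 : Finset Fr.sys.P × Finset X.PX → Set (Gm L →* Ext D4) :=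
    fun z => {ρ | ∃ γ ∈ X.BX z.2, ρ ∈ S2 z γ}
  let a3 : Finset Fr.sys.P × Finset X.PX → HX.GX L → El Fr.sys → ℝ := fun z γ c =>
    (w * K * (Y1 / X.nmX z)) * ((if γ ∈ X.BX ∅ ∧ X.nuX γ = (0, ∅) then 0 else 1) * pr z γ c)
  have h3 : ∀ z ∈ X.zs Y1, ∀ γ ∈ X.BX z.2,
      ∀ c ∈ (Finset.univ : Finset Fr.sys.T) ×ˢ X.M.powerset,
      (S3 z γ c).Finite ∧ ((S3 z γ c).ncard : ℝ) ≤ a3 z γ c := by
    intro z hz γ hγ c hc
    obtain ⟨hok, hnz⟩ := (hmz z).1 hz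
    have hγ' : γ ∈ X.Bs z.2 := (hBm _ _).1 hγ
    have hc' : c.2 ⊆ X.M := by
      rw [Finset.mem_product, Finset.mem_powerset] at hc
      exact hc.2
    by_cases hQ : γ ∈ X.BX ∅ ∧ X.nuX γ = (0, ∅)
    · have he : S3 z γ c = ∅ := by
        rw [Set.eq_empty_iff_forall_notMem]
        intro ρ hρ
        exact hρ.1 hQ
      rw [he]
      refine ⟨Set.finite_empty, ?_⟩
      simp only [a3]
      rw [if_pos hQ]
      simp
    · have hnz0 : (0 : ℝ) < X.nmX z := lt_of_lt_of_le one_pos (hm1 z)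
      have hz1 : 1 ≤ Y1 / X.nmX z := by
        rw [one_le_div hnz0]
        exact hnz
      obtain ⟨hAf, hAc⟩ := hK (Y1 / X.nmX z) hz1
      have h5 := aafin_cov hAf.toFinset (S3 z γ c) (S4 z γ c)
        (fun _ => w * pr z γ c)
        (fun A _ => hF R RL z.1 z.2 hok γ hγ' c hc' A)
        (fun ρ hρ => by
          obtain ⟨_, A, hA, hρA⟩ := hρ
          exact ⟨A, hAf.mem_toFinset.2 hA, hρA⟩)
      refine ⟨h5.1, h5.2.trans ?_⟩
      rw [Finset.sum_const, nsmul_eq_mul, ← Set.ncard_eq_toFinset_card _ hAf]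
      simp only [a3]
      rw [if_neg hQ, one_mul]
      calc ((X.As (Y1 / X.nmX z)).ncard : ℝ) * (w * pr z γ c)
          ≤ (K * (Y1 / X.nmX z)) * (w * pr z γ c) :=
            mul_le_mul_of_nonneg_right hAc (mul_nonneg hw (hpr _ _ _))
        _ = _ := by ring
  have h2 : ∀ z ∈ X.zs Y1, ∀ γ ∈ X.BX z.2, (S2 z γ).Finite ∧ ((S2 z γ).ncard : ℝ) ≤
      ∑ c ∈ (Finset.univ : Finset Fr.sys.T) ×ˢ X.M.powerset, a3 z γ c := by
    intro z hz γ hγ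
    exact aafin_cov _ (S2 z γ) (S3 z γ) (a3 z γ) (fun c hc => h3 z hz γ hγ c hc)
      (fun ρ hρ => hρ)
  have h1 : ∀ z ∈ X.zs Y1, (S1 z).Finite ∧ ((S1 z).ncard : ℝ) ≤
      ∑ γ ∈ X.BX z.2, ∑ c ∈ (Finset.univ : Finset Fr.sys.T) ×ˢ X.M.powerset, a3 z γ c := by
    intro z hz
    exact aafin_cov _ (S1 z) (S2 z) _ (fun γ hγ => h2 z hz γ hγ) (fun ρ hρ => hρ)
  have hsize : ∀ (z : Finset Fr.sys.P × Finset X.PX) (A : Finset (HeightOneSpectrum (𝓞 L))),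
      (nmR R : ℝ) ^ 2 * X.nmX z * ((∏ Q ∈ A, nrm Q : ℕ) : ℝ) ≤ Y →
      (X.nmX z : ℝ) ≤ Y1 ∧ ((∏ Q ∈ A, nrm Q : ℕ) : ℝ) ≤ Y1 / X.nmX z ∧
        (nmR R : ℝ) ^ 2 ≤ Y := by
    intro z A h
    have hnz0 : (0 : ℝ) < X.nmX z := lt_of_lt_of_le one_pos (hm1 z)
    have e1 := hm1 z
    have e2 := hA1 A
    have e3 : (nmR R : ℝ) ^ 2 * X.nmX z ≤ Y := by
      have : (nmR R : ℝ) ^ 2 * X.nmX z * 1 ≤
          (nmR R : ℝ) ^ 2 * X.nmX z * ((∏ Q ∈ A, nrm Q : ℕ) : ℝ) :=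
        mul_le_mul_of_nonneg_left e2 (by positivity)
      linarith
    refine ⟨?_, ?_, ?_⟩
    · rw [hY1, le_div_iff₀ hn0]
      linarith
    · rw [le_div_iff₀ hnz0, hY1, le_div_iff₀ hn0]
      linarith
    · have : (nmR R : ℝ) ^ 2 * 1 ≤ (nmR R : ℝ) ^ 2 * X.nmX z :=
        mul_le_mul_of_nonneg_left e1 hn0.le
      linarith
  have h0 := aafin_cov (X.zs Y1) (E.Cn RL On R Y) S1 _ (fun z hz => h1 z hz) (fun ρ hρ => by
    obtain ⟨x, g, γ, c, A, k1, k2, k3, k4, k5, k6, k7⟩ := key ρ hρ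
    obtain ⟨m1, m2, _⟩ := hsize (x, g) A k7
    refine ⟨(x, g), (hmz _).2 ⟨k1, m1⟩, γ, (hBm _ _).2 k2, c, ?_, ?_, A, ⟨k5, m2⟩, k6⟩
    · rw [Finset.mem_product, Finset.mem_powerset]
      exact ⟨Finset.mem_univ _, k4⟩
    · intro hQ
      exact k3 ⟨(hBm _ _).1 hQ.1, hQ.2⟩)
  refine ⟨h0.1, ?_, ?_⟩
  · rintro ⟨ρ, hρ⟩
    obtain ⟨x, g, γ, c, A, k1, k2, k3, k4, k5, k6, k7⟩ := key ρ hρ
    exact (hsize (x, g) A k7).2.2
  · refine h0.2.trans (le_of_eq ?_)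
    rw [Finset.mul_sum]
    refine Finset.sum_congr rfl fun z hz => ?_
    obtain ⟨hok, _⟩ := (hmz z).1 hz
    have ht : X.tpX z.1 z.2 = ∑ γ ∈ X.BX z.2,
        ∑ c ∈ (Finset.univ : Finset Fr.sys.T) ×ˢ X.M.powerset,
        (if γ ∈ X.BX ∅ ∧ X.nuX γ = (0, ∅) then 0 else 1) * pr z γ c := by
      unfold HX.tpX
      rw [if_pos hok]
    rw [ht]
    simp only [a3]
    simp_rw [← Finset.mul_sum]
    ring

end Pool.Agent.H32.MQ
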