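import Pool.Agent.H32.MQ.AStm
import Pool.Agent.H32.MQ.KPt

/-!
# Malle's conjecture for 8T28 and 8T29 over number fields, block A: the uniform upper bound
-/

set_option autoImplicit false

open scoped BigOperators
open NumberField IsDedekindDomain

namespace Pool.Agent.H32.MQ

open Pool.Agent.H98.MK (sg)
open Pool.Agent.H98.MF
open Pool.Agent.H98.ML (Dt Ext norb hind)

/-- norms are positive -/
theorem aau_nrm {F : Type} [Field F] [NumberField F] (P : HeightOneSpectrum (𝓞 F)) :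
    1 ≤ nrm P := by
  unfold nrm
  rw [Nat.one_le_iff_ne_zero, Ne, Ideal.absNorm_eq_zero_iff]
  exact P.ne_bot

theorem aau_nmR {F : Type} [Field F] [NumberField F] (R : Finset (HeightOneSpectrum (𝓞 F))) :
    1 ≤ nmR R := by
  unfold nmR
  exact Finset.one_le_prod' fun P _ => aau_nrm P

open Classical in
/-- the norm of the exceptional primes -/
theorem aau_nm {k : Type} [Field k] [NumberField k] {L : Type} [Field L] [NumberField L]
    [Algebra k L] (E : QX k L) (Fr : Frm k) (R : Finset (HeightOneSpectrum (𝓞 k)))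
    (hR : Disjoint R E.M) : Fr.sys.nm (E.toHX Fr R).M ≤ nmR E.M * nmR R := by
  have h1 : Fr.sys.nm (E.toHX Fr R).M = ∏ P ∈ (E.MR Fr R).image Fr.pl, nrm P := by
    rw [Finset.prod_image fun x _ y _ h => Fr.pl_inj h]
    show ∏ p ∈ E.MR Fr R, Fr.sys.N p = _
    exact Finset.prod_congr rfl fun p _ => Fr.N_eq p
  have h2 : (E.MR Fr R).image Fr.pl ⊆ E.M ∪ R := by
    intro P hP
    obtain ⟨p, hp, rfl⟩ := Finset.mem_image.1 hP
    unfold QX.MR at hp
    exact Finset.mem_preimage.1 hp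
  have h3 : ∏ P ∈ (E.MR Fr R).image Fr.pl, nrm P ≤ ∏ P ∈ E.M ∪ R, nrm P :=
    Finset.prod_le_prod_of_subset_of_one_le' h2 fun P _ _ => aau_nrm P
  rw [h1]
  refine h3.trans (le_of_eq ?_)
  rw [Finset.prod_union hR.symm]
  rfl

/-- the uniform upper bound -/
theorem sAU {k : Type} [Field k] [NumberField k] (Fr : Frm k)
    (h1 : ∀ (L : Type) [Field L] [NumberField L] [Algebra k L] (E : QX k L), StAFin E Fr)
    (h2 : SAsU Fr) (h3 : SADs Fr) : SAU Fr := by
  intro C0 A0 η0 ε hη0 hε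
  have hε3 : 0 < ε / 3 := by positivity
  obtain ⟨Ca, hCa⟩ := h2 (ε / 3) hε3
  obtain ⟨Cd, hCd⟩ := h3 C0 A0 η0 (ε / 3) hη0 hε3
  obtain ⟨Cp, hCp⟩ := skpt Fr.sys (ε / 3) hε3
  refine ⟨4 ^ Fr.sys.m * |Cp| * |Ca| * |Cd|, ?_⟩
  intro L _ _ _ E hS RL On hOS hON R hR hBF Y hY
  obtain ⟨hfin, hne, hcard⟩ := h1 L E hS RL On hOS hON R hR _ (hCa L (E.toHX Fr R)) Y hY
  refine ⟨hfin, hne, fun hY1 => ?_⟩
  have hn1 : (1 : ℝ) ≤ (nmR R : ℝ) := by exact_mod_cast aau_nmR R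
  have hn2 : (0 : ℝ) < (nmR R : ℝ) ^ 2 := by positivity
  have hn3 : (1 : ℝ) ≤ (nmR R : ℝ) ^ 2 := one_le_pow₀ hn1
  have hM1 : (1 : ℝ) ≤ (nmR E.M : ℝ) := by exact_mod_cast aau_nmR E.M
  have hL0 : 0 ≤ Real.log Y := Real.log_nonneg hY1
  have hB0 : 0 ≤ ((nmR E.M : ℝ) * nmR R) ^ ε := Real.rpow_nonneg (by positivity) _
  rcases lt_or_ge (Y / (nmR R : ℝ) ^ 2) 1 with hlt | hge
  · have hem : E.Cn RL On R Y = ∅ := by
      by_contra hc
      have h4 := hne (Set.nonempty_iff_ne_empty.2 hc)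
      rw [div_lt_one hn2] at hlt
      exact absurd h4 (not_le.2 hlt)
    rw [hem, Set.ncard_empty, Nat.cast_zero]
    positivity
  · obtain ⟨q, hq⟩ : ∃ q : ℝ, q = (Fr.sys.nm (E.toHX Fr R).M : ℝ) ^ (ε / 3) := ⟨_, rfl⟩
    obtain ⟨Z, hZ⟩ : ∃ Z : ℝ, Z = Y / (nmR R : ℝ) ^ 2 := ⟨_, rfl⟩
    have hq0 : 0 ≤ q := by
      rw [hq]
      exact Real.rpow_nonneg (Nat.cast_nonneg _) _
    have hZY : Z ≤ Y := by
      rw [hZ]
      exact div_le_self hY hn3
    rw [← hZ] at hge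
    have hZ0 : 0 ≤ Z := by linarith
    have hK0 : 0 ≤ Ca * q := by
      have h5 := (hCa L (E.toHX Fr R) 1 le_rfl).2
      rw [mul_one, ← hq] at h5
      exact le_trans (Nat.cast_nonneg _) h5
    have hsum := hCd L (E.toHX Fr R) hBF Z hge
    rw [← hq] at hsum
    have hlog : Real.log Z ≤ Real.log Y := Real.log_le_log (by linarith) hZY
    have hlogZ : 0 ≤ Real.log Z := Real.log_nonneg hge
    have hsum2 : ∑ z ∈ (E.toHX Fr R).zs Z,
        (E.toHX Fr R).tpX z.1 z.2 / ((E.toHX Fr R).nmX z : ℝ) ≤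
        |Cd| * q * (1 + Real.log Y) ^ 2 := by
      refine hsum.trans ?_
      have h6 : Cd * q ≤ |Cd| * q := mul_le_mul_of_nonneg_right (le_abs_self _) hq0
      have h7 : (1 + Real.log Z) ^ 2 ≤ (1 + Real.log Y) ^ 2 :=
        pow_le_pow_left₀ (by linarith) (by linarith) 2
      exact mul_le_mul h6 h7 (by positivity) (by positivity)
    have hpow : (4 : ℝ) ^ (Fr.sys.m + (E.toHX Fr R).M.card) ≤ 4 ^ Fr.sys.m * (|Cp| * q) := by
      rw [pow_add]
      refine mul_le_mul_of_nonneg_left ?_ (by positivity)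
      have h8 := (hCp (E.toHX Fr R).M).2
      rw [← hq] at h8
      have h9 : (4 : ℝ) ^ (E.toHX Fr R).M.card ≤ 16 ^ (E.toHX Fr R).M.card :=
        pow_le_pow_left₀ (by norm_num) (by norm_num) _
      exact (h9.trans h8).trans (mul_le_mul_of_nonneg_right (le_abs_self _) hq0)
    have hqqq : q * q * q ≤ ((nmR E.M : ℝ) * nmR R) ^ ε := by
      have h10 : q * q * q = (Fr.sys.nm (E.toHX Fr R).M : ℝ) ^ ε := by
        have hnp : (0 : ℝ) < Fr.sys.nm (E.toHX Fr R).M := Fr.sys.nm_posr _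
        rw [hq, ← Real.rpow_add hnp, ← Real.rpow_add hnp]
        refine congrArg (fun t => (Fr.sys.nm (E.toHX Fr R).M : ℝ) ^ t) ?_
        ring
      rw [h10]
      refine Real.rpow_le_rpow (Nat.cast_nonneg _) ?_ hε.le
      exact_mod_cast aau_nm E Fr R hR
    rw [← hZ, ← hq] at hcard
    calc ((E.Cn RL On R Y).ncard : ℝ)
        ≤ 4 ^ (Fr.sys.m + (E.toHX Fr R).M.card) * (Ca * q) * Z *
          ∑ z ∈ (E.toHX Fr R).zs Z,
            (E.toHX Fr R).tpX z.1 z.2 / ((E.toHX Fr R).nmX z : ℝ) := hcard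
      _ ≤ 4 ^ (Fr.sys.m + (E.toHX Fr R).M.card) * (Ca * q) * Z *
          (|Cd| * q * (1 + Real.log Y) ^ 2) :=
          mul_le_mul_of_nonneg_left hsum2 (by positivity)
      _ ≤ (4 ^ Fr.sys.m * (|Cp| * q)) * (|Ca| * q) * Z *
          (|Cd| * q * (1 + Real.log Y) ^ 2) := by
          refine mul_le_mul_of_nonneg_right (mul_le_mul_of_nonneg_right ?_ hZ0) (by positivity)
          exact mul_le_mul hpow (mul_le_mul_of_nonneg_right (le_abs_self _) hq0) hK0
            (by positivity)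
      _ = 4 ^ Fr.sys.m * |Cp| * |Ca| * |Cd| * (q * q * q) * Z * (1 + Real.log Y) ^ 2 := by ring
      _ ≤ 4 ^ Fr.sys.m * |Cp| * |Ca| * |Cd| * ((nmR E.M : ℝ) * nmR R) ^ ε * Z *
          (1 + Real.log Y) ^ 2 := by
          refine mul_le_mul_of_nonneg_right (mul_le_mul_of_nonneg_right ?_ hZ0) (by positivity)
          exact mul_le_mul_of_nonneg_left hqqq (by positivity)
      _ = _ := by rw [hZ]

end Pool.Agent.H32.MQ
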