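import Pool.Agent.H32.MQ.KUStm
import Pool.Agent.H32.MQ.KPt
import Pool.Agent.H98.MF.SChrSqf

/-!
# Project MQ, row K1: the number of good sets
-/

set_option autoImplicit false

open scoped BigOperators

namespace Pool.Agent.H32.MQ

open Pool.Agent.H98.MK (sg)
open Pool.Agent.H98.MF

/-! ### fibres of the shadow -/

theorem kc_sgr (a : ZMod 2) : (0 : ℝ) ≤ 1 + ((sg a : ℤ) : ℝ) := by
  rcases zm2 a with rfl | rfl
  · rw [sg_zero]; norm_num
  · rw [sg_one]; norm_num

section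

variable {S : Sys} (Q : Qd S)

theorem kc_mem_shd {g : Finset Q.P} {p : S.P} : p ∈ Q.shd g ↔ ∃ a ∈ g, Q.sh a = p := by
  unfold Qd.shd
  exact Finset.mem_image

theorem kc_card_shd {g : Finset Q.P} (hg : Q.Gd g) : (Q.shd g).card = g.card := by
  unfold Qd.shd
  exact Finset.card_image_of_injOn fun a ha b hb h => hg a ha b hb h

/-- a good set is determined by its shadow and its intersection with a good set of the same
shadow -/
theorem kc_sub {g0 g g' : Finset Q.P} (hg : Q.Gd g)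
    (h1 : Q.shd g = Q.shd g0) (h2 : Q.shd g' = Q.shd g0) (h : g0 ∩ g = g0 ∩ g') : g ⊆ g' := by
  intro b hb
  have h3 : Q.sh b ∈ Q.shd g0 := h1 ▸ (kc_mem_shd Q).2 ⟨b, hb, rfl⟩
  obtain ⟨a, ha, hab⟩ := (kc_mem_shd Q).1 h3
  have h4 : Q.sh b ∈ Q.shd g' := h2 ▸ h3
  obtain ⟨b', hb', hbb⟩ := (kc_mem_shd Q).1 h4
  rcases Q.fib a b hab with h5 | h5
  · have h6 : b ∈ g0 ∩ g' := h ▸ Finset.mem_inter.2 ⟨h5 ▸ ha, hb⟩
    exact (Finset.mem_inter.1 h6).2
  · have h6 : a ∉ g := by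
      intro h7
      have h8 := hg a h7 b hb hab
      exact Q.cj_ne a (by rw [← h5]; exact h8.symm)
    have h7 : a ∉ g' := by
      intro h8
      have h9 : a ∈ g0 ∩ g := h.symm ▸ Finset.mem_inter.2 ⟨ha, h8⟩
      exact h6 (Finset.mem_inter.1 h9).2
    rcases Q.fib a b' (hab.trans hbb.symm) with h8 | h8
    · exact absurd (h8 ▸ hb') h7
    · rw [h5, ← h8]
      exact hb'

theorem kc_fibre (X : ℝ) (n : Finset S.P) :
    ((((Q.gb X).filter fun g => Q.shd g = n).card : ℕ) : ℝ) ≤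
      (if Disjoint n Q.M then ∏ p ∈ n, (1 + ((sg (S.ex Q.d.2 Q.d.1 p) : ℤ) : ℝ)) else 0) := by
  classical
  rcases ((Q.gb X).filter fun g => Q.shd g = n).eq_empty_or_nonempty with h0 | ⟨g0, hg0⟩
  · rw [h0, Finset.card_empty, Nat.cast_zero]
    split_ifs
    · exact Finset.prod_nonneg fun p _ => kc_sgr _
    · exact le_refl _
  · obtain ⟨h1, h2⟩ := Finset.mem_filter.1 hg0
    have h3 := (Q.mem_gb.1 h1).1
    have h4 : Disjoint n Q.M := by
      rw [Finset.disjoint_left]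
      intro p hp
      rw [← h2] at hp
      obtain ⟨a, _, rfl⟩ := (kc_mem_shd Q).1 hp
      exact Q.sh_not a
    rw [if_pos h4]
    have h5 : ∏ p ∈ n, (1 + ((sg (S.ex Q.d.2 Q.d.1 p) : ℤ) : ℝ)) = 2 ^ n.card := by
      rw [← Finset.prod_const]
      refine Finset.prod_congr rfl fun p hp => ?_
      have h6 : S.ex Q.d.2 Q.d.1 p = 0 := by
        rw [← Q.split p (Finset.disjoint_left.1 h4 hp)]
        rw [← h2] at hp
        obtain ⟨a, _, h7⟩ := (kc_mem_shd Q).1 hp
        exact ⟨a, h7⟩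
      rw [h6, sg_zero]
      norm_num
    rw [h5]
    have h6 : ((Q.gb X).filter fun g => Q.shd g = n).card ≤ g0.powerset.card := by
      refine Finset.card_le_card_of_injOn (fun g => g0 ∩ g) ?_ ?_
      · intro g _
        rw [Finset.mem_coe, Finset.mem_powerset]
        exact Finset.inter_subset_left
      · intro g hg g' hg' h
        have a1 := Finset.mem_filter.1 (Finset.mem_coe.1 hg)
        have a2 := Finset.mem_filter.1 (Finset.mem_coe.1 hg')
        have b1 := (Q.mem_gb.1 a1.1).1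
        have b2 := (Q.mem_gb.1 a2.1).1
        have c1 : Q.shd g = Q.shd g0 := a1.2.trans h2.symm
        have c2 : Q.shd g' = Q.shd g0 := a2.2.trans h2.symm
        exact Finset.Subset.antisymm (kc_sub Q b1 c1 c2 h) (kc_sub Q b2 c2 c1 h.symm)
    rw [Finset.card_powerset, ← kc_card_shd Q h3, h2] at h6
    exact_mod_cast h6

theorem kc_card_le (X : ℝ) : ((Q.gb X).card : ℝ) ≤ ∑ n ∈ S.bx X,
    (if Disjoint n Q.M then ∏ p ∈ n, (1 + ((sg (S.ex Q.d.2 Q.d.1 p) : ℤ) : ℝ)) else 0) := by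
  classical
  have h1 : (Q.gb X).card = ∑ n ∈ S.bx X, ((Q.gb X).filter fun g => Q.shd g = n).card :=
    Finset.card_eq_sum_card_fiberwise fun g hg => by
      exact Finset.mem_coe.2 (S.mem_bx.2 (Q.mem_gb.1 (Finset.mem_coe.1 hg)).2)
  rw [h1]
  push_cast
  exact Finset.sum_le_sum fun n _ => kc_fibre Q X n

/-- the character of the extension -/
noncomputable def kcx (e : Finset S.P) : ℝ :=
  ((sg (S.JJ e Q.d.2 + Q.d.1 ⬝ᵥ S.tys e) : ℤ) : ℝ)

theorem kc_abs (e : Finset S.P) : |kcx Q e| = 1 := abs_sgr _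

theorem kc_expand (n : Finset S.P) :
    ∏ p ∈ n, (1 + ((sg (S.ex Q.d.2 Q.d.1 p) : ℤ) : ℝ)) = ∑ e ∈ n.powerset, kcx Q e := by
  classical
  rw [Finset.prod_one_add]
  refine Finset.sum_congr rfl fun e _ => ?_
  unfold kcx
  rw [← S.sum_ex, sg_sum]
  push_cast
  rfl

end

/-! ### boxes -/

/-- pairs of disjoint sets -/
theorem kc_pairs (S : Pre) (G : Finset S.P → Finset S.P → ℝ) (t : ℝ) :
    ∑ x ∈ S.bx t, ∑ y ∈ x.powerset, G (x \ y) y =
      ∑ z ∈ S.bx t, ∑ y ∈ S.bx (t / S.nm z), (if Disjoint y z then G z y else 0) := by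
  classical
  rw [Finset.sum_sigma', Finset.sum_sigma']
  rw [← Finset.sum_filter (s := (S.bx t).sigma fun z => S.bx (t / S.nm z))
    (p := fun q => Disjoint q.2 q.1) (f := fun q => G q.1 q.2)]
  refine Finset.sum_bij' (fun q _ => (⟨q.1 \ q.2, q.2⟩ : (_ : Finset S.P) × Finset S.P))
    (fun q _ => (⟨q.1 ∪ q.2, q.2⟩ : (_ : Finset S.P) × Finset S.P)) ?_ ?_ ?_ ?_ ?_
  · rintro ⟨x, y⟩ hq
    rw [Finset.mem_sigma] at hq
    have h1 : (S.nm x : ℝ) ≤ t := S.mem_bx.1 hq.1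
    have h2 : y ⊆ x := Finset.mem_powerset.1 hq.2
    have h4 : S.nm (x \ y) * S.nm y = S.nm x := by
      rw [← S.nm_union Finset.sdiff_disjoint, Finset.sdiff_union_of_subset h2]
    rw [Finset.mem_filter, Finset.mem_sigma]
    refine ⟨⟨S.mem_bx.2 ?_, S.mem_bx.2 ?_⟩, ?_⟩
    · exact le_trans (by exact_mod_cast S.nm_mono Finset.sdiff_subset) h1
    · show (S.nm y : ℝ) ≤ t / S.nm (x \ y)
      rw [le_div_iff₀ (S.nm_posr _), mul_comm]
      rw [← h4] at h1
      push_cast at h1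
      exact h1
    · exact Finset.disjoint_sdiff
  · rintro ⟨z, y⟩ hq
    rw [Finset.mem_filter, Finset.mem_sigma] at hq
    have h1 : (S.nm z : ℝ) ≤ t := S.mem_bx.1 hq.1.1
    have h2 : (S.nm y : ℝ) ≤ t / S.nm z := S.mem_bx.1 hq.1.2
    have h3 : Disjoint z y := hq.2.symm
    rw [le_div_iff₀ (S.nm_posr _), mul_comm] at h2
    rw [Finset.mem_sigma]
    refine ⟨S.mem_bx.2 ?_, Finset.mem_powerset.2 Finset.subset_union_right⟩
    show (S.nm (z ∪ y) : ℝ) ≤ t
    rw [S.nm_union h3]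
    push_cast
    exact h2
  · rintro ⟨x, y⟩ hq
    rw [Finset.mem_sigma] at hq
    have h2 : y ⊆ x := Finset.mem_powerset.1 hq.2
    simp only [Finset.sdiff_union_of_subset h2]
  · rintro ⟨z, y⟩ hq
    rw [Finset.mem_filter] at hq
    have h3 : Disjoint z y := hq.2.symm
    simp only [Finset.union_sdiff_right, Finset.sdiff_eq_self_of_disjoint h3]
  · rintro ⟨x, y⟩ _
    rfl

/-- one dyadic block -/
theorem kc_block (S : Pre) (h : Finset S.P → ℝ) (hh : ∀ x, 0 ≤ h x)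
    (C0 : ℝ) (hC0 : 0 ≤ C0) (hs : ∀ t : ℝ, 1 ≤ t → ∑ x ∈ S.bx t, h x ≤ C0 * t) (u : ℝ)
    (hu : 0 ≤ u) : ∑ x ∈ S.bx u, h x ≤ C0 * u := by
  rcases le_or_gt 1 u with h1 | h1
  · exact hs u h1
  · have h2 : S.bx u = ∅ := by
      rw [Finset.eq_empty_iff_forall_notMem]
      intro x hx
      have h3 := S.mem_bx.1 hx
      have h4 := S.one_le_nmr x
      linarith
    rw [h2, Finset.sum_empty]
    exact mul_nonneg hC0 hu

theorem kc_head (S : Pre) (h : Finset S.P → ℝ) (hh : ∀ x, 0 ≤ h x)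
    (C0 : ℝ) (hs : ∀ t : ℝ, 1 ≤ t → ∑ x ∈ S.bx t, h x ≤ C0 * t) (w : ℝ) (hw0 : 0 ≤ w)
    (hw : w < 1) :
    ∃ C : ℝ, 0 ≤ C ∧ ∀ t : ℝ, 1 ≤ t →
      ∑ x ∈ S.bx t, h x * (S.nm x : ℝ) ^ (-w) ≤ C * t ^ (1 - w) := by
  classical
  have hC0 : 0 ≤ C0 := by
    have h1 := hs 1 le_rfl
    rw [mul_one] at h1
    exact (Finset.sum_nonneg fun x _ => hh x).trans h1
  set ρ : ℝ := (2 : ℝ) ^ (-(1 - w)) with hρ
  have hρ0 : 0 ≤ ρ := Real.rpow_nonneg (by norm_num) _
  have hρ1 : ρ < 1 := Real.rpow_lt_one_of_one_lt_of_neg (by norm_num) (by linarith)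
  refine ⟨2 * C0 * (1 - ρ)⁻¹, by
    have : 0 ≤ (1 - ρ)⁻¹ := inv_nonneg.2 (by linarith)
    positivity, fun t ht => ?_⟩
  have ht0 : 0 < t := by linarith
  obtain ⟨J, hJ⟩ := pow_unbounded_of_one_lt t (by norm_num : (1 : ℝ) < 2)
  have h1 : ∀ x ∈ S.bx t, h x * (S.nm x : ℝ) ^ (-w) ≤
      ∑ j ∈ Finset.range J,
        (if (S.nm x : ℝ) ≤ t / 2 ^ j then h x * (t / 2 ^ (j + 1)) ^ (-w) else 0) := by
    intro x hx
    have hnn : ∀ j ∈ Finset.range J, (0 : ℝ) ≤
        (if (S.nm x : ℝ) ≤ t / 2 ^ j then h x * (t / 2 ^ (j + 1)) ^ (-w) else 0) := by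
      intro j _
      split_ifs
      · exact mul_nonneg (hh x) (Real.rpow_nonneg (by positivity) _)
      · exact le_rfl
    have hx1 : (S.nm x : ℝ) ≤ t := S.mem_bx.1 hx
    have hx2 := S.one_le_nmr x
    have hex : ∃ j : ℕ, t / 2 ^ (j + 1) < (S.nm x : ℝ) := by
      refine ⟨J, ?_⟩
      rw [div_lt_iff₀ (by positivity)]
      have h4 : (2 : ℝ) ^ J ≤ 2 ^ (J + 1) := pow_le_pow_right₀ (by norm_num) (by omega)
      have h5 : (0 : ℝ) < 2 ^ (J + 1) := by positivity
      nlinarith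
    have hj1 := Nat.find_spec hex
    have hj3 : (S.nm x : ℝ) ≤ t / 2 ^ (Nat.find hex) := by
      rcases Nat.eq_zero_or_pos (Nat.find hex) with h0 | h0
      · rw [h0, pow_zero, div_one]
        exact hx1
      · have h3 := Nat.find_min hex (m := Nat.find hex - 1) (by omega)
        rw [Nat.sub_add_cancel h0] at h3
        exact not_lt.1 h3
    have hj2 : Nat.find hex ∈ Finset.range J := by
      rw [Finset.mem_range]
      by_contra hcon
      push Not at hcon
      have h4 : t / 2 ^ (Nat.find hex) < 1 := by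
        rw [div_lt_one (by positivity)]
        exact lt_of_lt_of_le hJ (pow_le_pow_right₀ (by norm_num) hcon)
      linarith
    refine le_trans ?_ (Finset.single_le_sum hnn hj2)
    rw [if_pos hj3]
    refine mul_le_mul_of_nonneg_left ?_ (hh x)
    exact Real.rpow_le_rpow_of_nonpos (by positivity) hj1.le (by linarith)
  have h2 : ∀ j ∈ Finset.range J, ∑ x ∈ S.bx t,
      (if (S.nm x : ℝ) ≤ t / 2 ^ j then h x * (t / 2 ^ (j + 1)) ^ (-w) else 0) ≤
      2 * C0 * t ^ (1 - w) * ρ ^ j := by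
    intro j _
    rw [← Finset.sum_filter, ← Finset.sum_mul]
    have h3 : (S.bx t).filter (fun x => (S.nm x : ℝ) ≤ t / 2 ^ j) ⊆ S.bx (t / 2 ^ j) := by
      intro x hx
      rw [Finset.mem_filter] at hx
      exact S.mem_bx.2 hx.2
    have h4 := (Finset.sum_le_sum_of_subset_of_nonneg h3 fun x _ _ => hh x).trans
      (kc_block S h hh C0 hC0 hs (t / 2 ^ j) (by positivity))
    have h5 : (0 : ℝ) < t / 2 ^ (j + 1) := by positivity
    refine (mul_le_mul_of_nonneg_right h4 (Real.rpow_nonneg h5.le _)).trans ?_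
    have e0 : t / 2 ^ j = 2 * (t / 2 ^ (j + 1)) := by
      rw [pow_succ]
      field_simp
    have e1 : (t / 2 ^ (j + 1)) * (t / 2 ^ (j + 1)) ^ (-w) = (t / 2 ^ (j + 1)) ^ (1 - w) := by
      nth_rewrite 1 [← Real.rpow_one (t / 2 ^ (j + 1))]
      rw [← Real.rpow_add h5]
      congr 1
    have e2 : (t / 2 ^ (j + 1)) ^ (1 - w) = t ^ (1 - w) * ρ ^ (j + 1) := by
      rw [Real.div_rpow ht0.le (by positivity), hρ, div_eq_mul_inv, ← Real.rpow_natCast 2 (j + 1),
        ← Real.rpow_mul (by norm_num), ← Real.rpow_neg (by norm_num), ← Real.rpow_natCast,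
        ← Real.rpow_mul (by norm_num)]
      congr 2
      ring
    have e3 : ρ ^ (j + 1) ≤ ρ ^ j := pow_le_pow_of_le_one hρ0 hρ1.le (Nat.le_succ j)
    calc C0 * (t / 2 ^ j) * (t / 2 ^ (j + 1)) ^ (-w)
        = 2 * C0 * ((t / 2 ^ (j + 1)) * (t / 2 ^ (j + 1)) ^ (-w)) := by rw [e0]; ring
      _ = 2 * C0 * t ^ (1 - w) * ρ ^ (j + 1) := by rw [e1, e2]; ring
      _ ≤ 2 * C0 * t ^ (1 - w) * ρ ^ j := mul_le_mul_of_nonneg_left e3 (by positivity)
  calc ∑ x ∈ S.bx t, h x * (S.nm x : ℝ) ^ (-w)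
      ≤ ∑ x ∈ S.bx t, ∑ j ∈ Finset.range J,
        (if (S.nm x : ℝ) ≤ t / 2 ^ j then h x * (t / 2 ^ (j + 1)) ^ (-w) else 0) :=
        Finset.sum_le_sum h1
    _ = ∑ j ∈ Finset.range J, ∑ x ∈ S.bx t,
        (if (S.nm x : ℝ) ≤ t / 2 ^ j then h x * (t / 2 ^ (j + 1)) ^ (-w) else 0) :=
        Finset.sum_comm
    _ ≤ ∑ j ∈ Finset.range J, 2 * C0 * t ^ (1 - w) * ρ ^ j := Finset.sum_le_sum h2
    _ = 2 * C0 * t ^ (1 - w) * ∑ j ∈ Finset.range J, ρ ^ j := by rw [Finset.mul_sum]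
    _ ≤ 2 * C0 * t ^ (1 - w) * (1 - ρ)⁻¹ := by
        refine mul_le_mul_of_nonneg_left ?_ (by positivity)
        have h3 := (summable_geometric_of_lt_one hρ0 hρ1).sum_le_tsum (Finset.range J)
          (fun j _ => pow_nonneg hρ0 j)
        rwa [tsum_geometric_of_lt_one hρ0 hρ1] at h3
    _ = 2 * C0 * (1 - ρ)⁻¹ * t ^ (1 - w) := by ring

/-- the number of elements of boxes, cut at a level -/
theorem kc_min (S : Sys) : ∃ C : ℝ, 0 ≤ C ∧ ∀ X E : ℝ, 1 ≤ X → 1 ≤ E →
    ∑ f ∈ S.bx X, (((S.bx (min (X / S.nm f) E)).card : ℕ) : ℝ) ≤ C * X * (1 + Real.log E) := by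
  classical
  obtain ⟨C0, hC0⟩ := card_bx_le S
  have hone : ∀ t : ℝ, 1 ≤ t → ∑ x ∈ S.bx t, (1 : ℝ) ≤ C0 * t := by
    intro t ht
    have := hC0 t ht
    simpa using this
  have hC0' : 0 ≤ C0 := by
    have h1 := hC0 1 le_rfl
    have h2 : (0 : ℝ) ≤ (S.bx 1).card := Nat.cast_nonneg _
    linarith
  obtain ⟨C1, hC1⟩ := rs_sum S.toPre (κ := Unit) (fun _ => 1) (fun _ => zero_le_one) C0 hone
  refine ⟨C0 * max C1 0, mul_nonneg hC0' (le_max_right _ _), fun X E hX hE => ?_⟩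
  have h1 : ∑ f ∈ S.bx X, min (X / (S.nm f : ℝ)) E ≤ C1 * X * (1 + Real.log E) := by
    have h2 := hC1 X E hX hE
    rw [Fintype.card_unit, Nat.sub_self, pow_zero, mul_one] at h2
    refine le_trans (le_of_eq ?_) h2
    refine Finset.sum_bij (fun f _ => fun _ : Unit => f) ?_ ?_ ?_ ?_
    · intro f hf
      have h3 : ∀ _ : Unit, (fun _ : Unit => f) () ∈ S.bx X := fun _ => hf
      have h4 := (@Fintype.mem_piFinset Unit (fun a b => Classical.propDecidable (a = b)) _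
        (fun _ => Finset S.P) (fun _ => S.bx X) (fun _ => f)).2 h3
      convert h4
    · intro f _ f' _ h
      exact congrFun h ()
    · intro r hr
      have h4 := (@Fintype.mem_piFinset Unit (fun a b => Classical.propDecidable (a = b)) _
        (fun _ => Finset S.P) (fun _ => S.bx X) r).1 (by convert hr)
      exact ⟨r (), h4 (), rfl⟩
    · intro f hf
      simp only [Finset.univ_unique, Finset.prod_singleton, Finset.prod_const_one, one_mul]
      rw [if_pos (S.mem_bx.1 hf)]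
  calc ∑ f ∈ S.bx X, (((S.bx (min (X / S.nm f) E)).card : ℕ) : ℝ)
      ≤ ∑ f ∈ S.bx X, C0 * min (X / (S.nm f : ℝ)) E := by
        refine Finset.sum_le_sum fun f hf => hC0 _ ?_
        refine le_min ?_ hE
        rw [le_div_iff₀ (S.nm_posr f), one_mul]
        exact S.mem_bx.1 hf
    _ = C0 * ∑ f ∈ S.bx X, min (X / (S.nm f : ℝ)) E := by rw [Finset.mul_sum]
    _ ≤ C0 * (C1 * X * (1 + Real.log E)) := mul_le_mul_of_nonneg_left h1 hC0'
    _ ≤ C0 * max C1 0 * X * (1 + Real.log E) := by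
        have h3 : 0 ≤ Real.log E := Real.log_nonneg hE
        have h4 : C1 * (X * (1 + Real.log E)) ≤ max C1 0 * (X * (1 + Real.log E)) :=
          mul_le_mul_of_nonneg_right (le_max_left _ _) (by positivity)
        calc C0 * (C1 * X * (1 + Real.log E)) = C0 * (C1 * (X * (1 + Real.log E))) := by ring
          _ ≤ C0 * (max C1 0 * (X * (1 + Real.log E))) := mul_le_mul_of_nonneg_left h4 hC0'
          _ = _ := by ring

theorem skcard : SKCard := by
  classical
  intro S ε hε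
  obtain ⟨C1, hC1, hmin⟩ := kc_min S
  obtain ⟨C3, hC3, hchr⟩ := chr_sqf S
  obtain ⟨Ch, hh⟩ := hs_sum S 1 1 le_rfl
  have hhs : ∀ t : ℝ, 1 ≤ t → ∑ x ∈ S.bx t, S.hs x ≤ Ch * t := by
    intro t ht
    have h1 := hh t ht
    simpa using h1
  obtain ⟨C4, hC4, hhead⟩ := kc_head S.toPre S.hs (fun x => le_trans zero_le_one (S.one_le_hs x))
    Ch hhs (1 - S.dl) (by linarith [S.dl_le]) (by linarith [S.dl_pos])
  obtain ⟨C5, h5⟩ := skpt S 1 one_pos
  have hC5 : 0 ≤ C5 := by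
    have h1 := (h5 ∅).1
    rw [S.nm_empty, Nat.cast_one, Real.one_rpow, mul_one] at h1
    exact le_trans (le_trans zero_le_one (S.one_le_hs ∅)) h1
  have hdl := S.dl_pos
  have hA := S.A_nonneg
  refine ⟨C1 * (1 + (S.A + 1) / S.dl / ε) + 2 * C3 * C5 * C4, ?_⟩
  intro Q X hX
  have hX0 : 0 < X := by linarith
  set m : ℝ := (S.nm Q.M : ℝ) with hm
  have hm1 : 1 ≤ m := S.one_le_nmr _
  have hm0 : 0 < m := by linarith
  set E : ℝ := m ^ ((S.A + 1) / S.dl) with hE
  have hE1 : 1 ≤ E := Real.one_le_rpow hm1 (by positivity)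
  have hE0 : 0 < E := by linarith
  -- the sum over pairs
  have hT : ((Q.gb X).card : ℝ) ≤ ∑ f ∈ S.bx X, ∑ e ∈ S.bx (X / S.nm f),
      (if Disjoint f Q.M ∧ Disjoint e (Q.d.2 ∪ (Q.M ∪ f)) then kcx Q e else 0) := by
    refine (kc_card_le Q X).trans (le_of_eq ?_)
    have h1 : ∀ n ∈ S.bx X, (if Disjoint n Q.M then
        ∏ p ∈ n, (1 + ((sg (S.ex Q.d.2 Q.d.1 p) : ℤ) : ℝ)) else 0) =
        ∑ e ∈ n.powerset, (if Disjoint (n \ e) Q.M ∧ Disjoint e Q.M then kcx Q e else 0) := by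
      intro n _
      split_ifs with h2
      · rw [kc_expand]
        refine Finset.sum_congr rfl fun e he => ?_
        rw [if_pos]
        exact ⟨Finset.disjoint_of_subset_left Finset.sdiff_subset h2,
          Finset.disjoint_of_subset_left (Finset.mem_powerset.1 he) h2⟩
      · symm
        refine Finset.sum_eq_zero fun e he => ?_
        rw [if_neg]
        rintro ⟨h3, h4⟩
        apply h2
        rw [← Finset.sdiff_union_of_subset (Finset.mem_powerset.1 he)]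
        exact Finset.disjoint_union_left.2 ⟨h3, h4⟩
    rw [Finset.sum_congr rfl h1, kc_pairs S.toPre
      (fun z y => if Disjoint z Q.M ∧ Disjoint y Q.M then kcx Q y else 0) X]
    refine Finset.sum_congr rfl fun f _ => Finset.sum_congr rfl fun e _ => ?_
    have h3 : Disjoint e (Q.d.2 ∪ (Q.M ∪ f)) ↔ Disjoint e Q.M ∧ Disjoint e f := by
      rw [Finset.disjoint_union_right, Finset.disjoint_union_right]
      constructor
      · exact fun h => h.2
      · exact fun h => ⟨Finset.disjoint_of_subset_right Q.d_sub h.1, h⟩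
    by_cases h4 : Disjoint e f
    · rw [if_pos h4]
      congr 1
      rw [h3]
      exact propext ⟨fun h => ⟨h.1, h.2, h4⟩, fun h => ⟨h.1, h.2.1⟩⟩
    · rw [if_neg h4, if_neg]
      rintro ⟨_, h5⟩
      exact h4 (h3.1 h5).2
  -- the inner sums
  have hin : ∀ f ∈ S.bx X, ∑ e ∈ S.bx (X / S.nm f),
      (if Disjoint f Q.M ∧ Disjoint e (Q.d.2 ∪ (Q.M ∪ f)) then kcx Q e else 0) ≤
      (((S.bx (min (X / S.nm f) E)).card : ℕ) : ℝ) +
        (if f ∈ S.bx (X / E) then
          2 * C3 * m ^ S.A * (S.hs Q.M * S.hs f) * (X / S.nm f) ^ (1 - S.dl) else 0) := by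
    intro f hf
    have hf1 : (S.nm f : ℝ) ≤ X := S.mem_bx.1 hf
    have hf0 := S.nm_posr f
    have hXf : 1 ≤ X / S.nm f := by rwa [le_div_iff₀ hf0, one_mul]
    have hsM := S.one_le_hs Q.M
    have hsf := S.one_le_hs f
    have hpos : 0 ≤ 2 * C3 * m ^ S.A * (S.hs Q.M * S.hs f) * (X / S.nm f) ^ (1 - S.dl) := by
      have h1 : 0 ≤ m ^ S.A := Real.rpow_nonneg hm0.le _
      have h2 : 0 ≤ (X / S.nm f) ^ (1 - S.dl) := Real.rpow_nonneg (by linarith) _
      have h3 : 0 ≤ S.hs Q.M * S.hs f := mul_nonneg (by linarith) (by linarith)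
      exact mul_nonneg (mul_nonneg (mul_nonneg (by linarith) h1) h3) h2
    have htriv : ∀ t : ℝ, ∑ e ∈ S.bx t,
        (if Disjoint f Q.M ∧ Disjoint e (Q.d.2 ∪ (Q.M ∪ f)) then kcx Q e else 0) ≤
        ((S.bx t).card : ℝ) := by
      intro t
      calc _ ≤ ∑ e ∈ S.bx t, (1 : ℝ) := by
            refine Finset.sum_le_sum fun e _ => ?_
            split_ifs
            · exact le_trans (le_abs_self _) (le_of_eq (kc_abs Q e))
            · exact zero_le_one
        _ = _ := by simp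
    by_cases hfE : f ∈ S.bx (X / E)
    · rw [if_pos hfE]
      have h1 : (S.nm f : ℝ) ≤ X / E := S.mem_bx.1 hfE
      have h2 : E ≤ X / S.nm f := by
        rw [le_div_iff₀ hf0, mul_comm]
        rwa [le_div_iff₀ hE0] at h1
      rw [min_eq_right h2]
      by_cases hfM : Disjoint f Q.M
      · have hb : ∀ t : ℝ, 1 ≤ t → t ≤ X / S.nm f → |∑ e ∈ S.bx t,
            (if Disjoint f Q.M ∧ Disjoint e (Q.d.2 ∪ (Q.M ∪ f)) then kcx Q e else 0)| ≤
            C3 * m ^ S.A * (S.hs Q.M * S.hs f) * (X / S.nm f) ^ (1 - S.dl) := by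
          intro t ht1 ht2
          have h3 := hchr Q.d.2 (Q.M ∪ f) Q.d.1 Q.d_ne t ht1
          have h4 : ∑ e ∈ S.bx t,
              (if Disjoint f Q.M ∧ Disjoint e (Q.d.2 ∪ (Q.M ∪ f)) then kcx Q e else 0) =
              ∑ x ∈ S.bx t, (if Disjoint x (Q.d.2 ∪ (Q.M ∪ f))
                then ((sg (S.JJ x Q.d.2 + Q.d.1 ⬝ᵥ S.tys x) : ℤ) : ℝ) else 0) := by
            refine Finset.sum_congr rfl fun e _ => ?_
            by_cases h5 : Disjoint e (Q.d.2 ∪ (Q.M ∪ f))
            · rw [if_pos ⟨hfM, h5⟩, if_pos h5]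
              rfl
            · rw [if_neg (fun h => h5 h.2), if_neg h5]
          rw [h4]
          refine h3.trans ?_
          have h6 : (S.nm Q.d.2 : ℝ) ^ S.A ≤ m ^ S.A :=
            Real.rpow_le_rpow (Nat.cast_nonneg _) (by rw [hm]; exact_mod_cast S.nm_mono Q.d_sub) hA
          have h7 : S.hs (Q.M ∪ f) ≤ S.hs Q.M * S.hs f := S.hs_union_le _ _
          have h8 : t ^ (1 - S.dl) ≤ (X / S.nm f) ^ (1 - S.dl) :=
            Real.rpow_le_rpow (by linarith) ht2 (by linarith [S.dl_le])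
          have h9 : 0 ≤ S.hs (Q.M ∪ f) := le_trans zero_le_one (S.one_le_hs _)
          have h10 : 0 ≤ (S.nm Q.d.2 : ℝ) ^ S.A := Real.rpow_nonneg (Nat.cast_nonneg _) _
          have h11 : 0 ≤ m ^ S.A := Real.rpow_nonneg hm0.le _
          refine mul_le_mul (mul_le_mul (mul_le_mul_of_nonneg_left h6 hC3) h7 h9
            (mul_nonneg hC3 h11)) h8 (Real.rpow_nonneg (by linarith) _) ?_
          exact mul_nonneg (mul_nonneg hC3 h11) (mul_nonneg (by linarith) (by linarith))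
        have h3 := (abs_le.1 (hb (X / S.nm f) hXf le_rfl)).2
        have h4 : 0 ≤ (((S.bx E).card : ℕ) : ℝ) := Nat.cast_nonneg _
        have h5 : 0 ≤ C3 * m ^ S.A * (S.hs Q.M * S.hs f) * (X / S.nm f) ^ (1 - S.dl) :=
          le_trans (abs_nonneg _) (hb (X / S.nm f) hXf le_rfl)
        linarith
      · have h3 : ∀ e ∈ S.bx (X / S.nm f),
            (if Disjoint f Q.M ∧ Disjoint e (Q.d.2 ∪ (Q.M ∪ f)) then kcx Q e else 0) = 0 :=
          fun e _ => if_neg fun h => hfM h.1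
        rw [Finset.sum_eq_zero h3]
        exact add_nonneg (Nat.cast_nonneg _) hpos
    · rw [if_neg hfE, add_zero]
      have h1 : X / S.nm f ≤ E := by
        by_contra hcon
        push Not at hcon
        apply hfE
        refine S.mem_bx.2 ?_
        rw [le_div_iff₀ hE0]
        rw [lt_div_iff₀ hf0] at hcon
        linarith
      rw [min_eq_left h1]
      exact htriv _
  have hsumh : ∑ f ∈ S.bx X, (if f ∈ S.bx (X / E) then
      2 * C3 * m ^ S.A * (S.hs Q.M * S.hs f) * (X / S.nm f) ^ (1 - S.dl) else 0) ≤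
      2 * C3 * C5 * C4 * X := by
    have hXE : X / E ≤ X := div_le_self hX0.le hE1
    rw [← Finset.sum_filter]
    have h1 : (S.bx X).filter (fun f => f ∈ S.bx (X / E)) = S.bx (X / E) := by
      rw [Finset.filter_mem_eq_inter]
      exact Finset.inter_eq_right.2 (S.bx_mono hXE)
    rw [h1]
    rcases lt_or_ge (X / E) 1 with h2 | h2
    · have h3 : S.bx (X / E) = ∅ := by
        rw [Finset.eq_empty_iff_forall_notMem]
        intro x hx
        have h3 := S.mem_bx.1 hx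
        have h4 := S.one_le_nmr x
        linarith
      rw [h3, Finset.sum_empty]
      positivity
    · have h3 := hhead (X / E) h2
      have e1 : ∀ f ∈ S.bx (X / E), 2 * C3 * m ^ S.A * (S.hs Q.M * S.hs f) *
          (X / S.nm f) ^ (1 - S.dl) = 2 * C3 * m ^ S.A * S.hs Q.M * X ^ (1 - S.dl) *
          (S.hs f * (S.nm f : ℝ) ^ (-(1 - S.dl))) := by
        intro f _
        rw [Real.div_rpow hX0.le (Nat.cast_nonneg _), Real.rpow_neg (Nat.cast_nonneg _),
          div_eq_mul_inv]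
        ring
      rw [Finset.sum_congr rfl e1, ← Finset.mul_sum]
      have h4 : 0 ≤ 2 * C3 * m ^ S.A * S.hs Q.M * X ^ (1 - S.dl) := by
        have := S.one_le_hs Q.M
        have h6 : 0 ≤ S.hs Q.M := by linarith
        positivity
      refine (mul_le_mul_of_nonneg_left h3 h4).trans ?_
      have e2 : 1 - (1 - S.dl) = S.dl := by ring
      have e3 : X ^ (1 - S.dl) * (X / E) ^ S.dl = X * m ^ (-(S.A + 1)) := by
        rw [Real.div_rpow hX0.le hE0.le, hE, ← Real.rpow_mul hm0.le,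
          div_mul_cancel₀ _ hdl.ne', Real.rpow_neg hm0.le, ← mul_div_assoc,
          ← Real.rpow_add hX0, div_eq_mul_inv]
        norm_num
      have h6 := (h5 Q.M).1
      rw [Real.rpow_one] at h6
      rw [e2]
      calc 2 * C3 * m ^ S.A * S.hs Q.M * X ^ (1 - S.dl) * (C4 * (X / E) ^ S.dl)
          = 2 * C3 * C4 * m ^ S.A * S.hs Q.M * (X ^ (1 - S.dl) * (X / E) ^ S.dl) := by ring
        _ = 2 * C3 * C4 * m ^ S.A * S.hs Q.M * (X * m ^ (-(S.A + 1))) := by rw [e3]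
        _ ≤ 2 * C3 * C4 * m ^ S.A * (C5 * m) * (X * m ^ (-(S.A + 1))) := by
            gcongr
        _ = 2 * C3 * C5 * C4 * X * (m ^ S.A * m * m ^ (-(S.A + 1))) := by ring
        _ = 2 * C3 * C5 * C4 * X := by
            have e4 : m ^ S.A * m * m ^ (-(S.A + 1)) = 1 := by
              nth_rewrite 2 [← Real.rpow_one m]
              rw [← Real.rpow_add hm0, ← Real.rpow_add hm0]
              norm_num
            rw [e4, mul_one]
  have hlog : Real.log E ≤ (S.A + 1) / S.dl / ε * m ^ ε := by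
    rw [hE, Real.log_rpow hm0]
    have h1 := Real.log_le_rpow_div hm0.le hε
    calc (S.A + 1) / S.dl * Real.log m ≤ (S.A + 1) / S.dl * (m ^ ε / ε) :=
          mul_le_mul_of_nonneg_left h1 (by positivity)
      _ = _ := by ring
  have hme : 1 ≤ m ^ ε := Real.one_le_rpow hm1 hε.le
  calc ((Q.gb X).card : ℝ) ≤ _ := hT
    _ ≤ ∑ f ∈ S.bx X, ((((S.bx (min (X / S.nm f) E)).card : ℕ) : ℝ) +
        (if f ∈ S.bx (X / E) then
          2 * C3 * m ^ S.A * (S.hs Q.M * S.hs f) * (X / S.nm f) ^ (1 - S.dl) else 0)) :=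
        Finset.sum_le_sum hin
    _ ≤ C1 * X * (1 + Real.log E) + 2 * C3 * C5 * C4 * X := by
        rw [Finset.sum_add_distrib]
        exact add_le_add (hmin X E hX hE1) hsumh
    _ ≤ C1 * X * (m ^ ε + (S.A + 1) / S.dl / ε * m ^ ε) + 2 * C3 * C5 * C4 * X * m ^ ε := by
        refine add_le_add ?_ ?_
        · exact mul_le_mul_of_nonneg_left (add_le_add hme hlog) (by positivity)
        · exact le_mul_of_one_le_right (by positivity) hme
    _ = (C1 * (1 + (S.A + 1) / S.dl / ε) + 2 * C3 * C5 * C4) * m ^ ε * X := by ring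

end Pool.Agent.H32.MQ
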