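import Pool.Agent.H32.MQ.AStm
import Pool.Agent.H32.MQ.KCard
import Pool.Agent.H32.MQ.UA

/-!
# Malle's conjecture for 8T28 and 8T29 over number fields, row A12: the number of sets of primes
outside `M`, and finitely many pairs of bounded norm (helper61)
-/

set_option autoImplicit false

open scoped BigOperators
open NumberField IsDedekindDomain

namespace Pool.Agent.H32.MQ

open Pool.Agent.H98.MF

section

variable {k : Type} [Field k] [NumberField k] {Fr : Frm k} {L : Type} [Field L]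
  [NumberField L] [Algebra k L] (X : HX Fr L)

/-- good sets of norm at most `Y` -/
noncomputable def aasuB (Y : ℝ) : Finset (Finset X.PX) := (Qof X).gb Y

open Classical in
theorem aasu_gb (Y : ℝ) (g : Finset X.PX) : g ∈ aasuB X Y ↔
    (∀ b ∈ g, ∀ b' ∈ g, X.shX b = X.shX b' → b = b') ∧
      (Fr.sys.nm (g.image X.shX) : ℝ) ≤ Y :=
  (Qof X).mem_gb

theorem stZs : StZs X := by
  classical
  intro Y
  refine Set.Finite.subset (Finset.finite_toSet
    (Fr.sys.bx Y ×ˢ aasuB X Y)) fun z hz => ?_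
  obtain ⟨h1, h2⟩ := hz
  unfold HX.nmX at h2
  push_cast at h2
  have h3 := Fr.sys.one_le_nmr z.1
  have h4 := Fr.sys.one_le_nmr (z.2.image X.shX)
  rw [Finset.mem_coe, Finset.mem_product, Fr.sys.mem_bx, aasu_gb]
  refine ⟨le_trans ?_ h2, h1.1, le_trans ?_ h2⟩
  · exact le_mul_of_one_le_right (by linarith) h4
  · exact le_mul_of_one_le_left (by linarith) h3

theorem aasu_fin (A : Finset (HeightOneSpectrum (𝓞 L))) :
    {p : Fr.sys.P | p ∉ X.M ∧ (∃ Q ∈ A, Over (Fr.pl p) Q) ∧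
      ∀ Q, Over (Fr.pl p) Q → Q ∈ A}.Finite := by
  have h1 : (⋃ Q ∈ A, {p : Fr.sys.P | Over (Fr.pl p) Q}).Finite := by
    refine Set.Finite.biUnion (Finset.finite_toSet A) fun Q _ => ?_
    refine Set.Subsingleton.finite fun p hp q hq => ?_
    exact HX.over_inj hp hq
  refine h1.subset fun p hp => ?_
  obtain ⟨-, ⟨Q, hQ, hov⟩, -⟩ := hp
  rw [Set.mem_iUnion₂]
  exact ⟨Q, hQ, hov⟩

/-- the primes below all of whose primes above are in `A` -/
noncomputable def aasuY (A : Finset (HeightOneSpectrum (𝓞 L))) : Finset Fr.sys.P :=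
  (aasu_fin X A).toFinset

open Classical in
/-- the primes in `A` whose conjugate is not in `A` -/
noncomputable def aasuG (A : Finset (HeightOneSpectrum (𝓞 L))) : Finset X.PX :=
  (A.subtype fun Q => X.Out Q ∧ cj X.sig Q ≠ Q).filter fun b => (X.cjX b).1 ∉ A

theorem aasu_memY {A : Finset (HeightOneSpectrum (𝓞 L))} {p : Fr.sys.P} :
    p ∈ aasuY X A ↔ p ∉ X.M ∧ (∃ Q ∈ A, Over (Fr.pl p) Q) ∧
      ∀ Q, Over (Fr.pl p) Q → Q ∈ A := by
  unfold aasuY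
  rw [Set.Finite.mem_toFinset]
  rfl

theorem aasu_memG {A : Finset (HeightOneSpectrum (𝓞 L))} {b : X.PX} :
    b ∈ aasuG X A ↔ b.1 ∈ A ∧ (X.cjX b).1 ∉ A := by
  classical
  unfold aasuG
  rw [Finset.mem_filter, Finset.mem_subtype]

theorem aasu_two {p : Fr.sys.P} {Q Q' : HeightOneSpectrum (𝓞 L)} (hQ : Over (Fr.pl p) Q)
    (hQ' : Over (Fr.pl p) Q') : Q' = Q ∨ Q' = cj X.sig Q :=
  Pool.Agent.H98.MF.B.qe_over X.qe X.sig X.sig_α hQ hQ'

/-- `A` is determined by the two sets -/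
theorem aasu_mem {A : Finset (HeightOneSpectrum (𝓞 L))} (hA : ∀ Q ∈ A, X.Out Q)
    (Q : HeightOneSpectrum (𝓞 L)) :
    Q ∈ A ↔ (∃ p ∈ aasuY X A, Over (Fr.pl p) Q) ∨ ∃ b ∈ aasuG X A, b.1 = Q := by
  constructor
  · intro hQ
    obtain ⟨p, hp, hov⟩ := hA Q hQ
    by_cases hc : cj X.sig Q = Q
    · refine Or.inl ⟨p, (aasu_memY X).2 ⟨hp, ⟨Q, hQ, hov⟩, fun Q' hQ' => ?_⟩, hov⟩
      rcases aasu_two X hov hQ' with h | h
      · rw [h]
        exact hQ
      · rw [h, hc]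
        exact hQ
    · by_cases h1 : cj X.sig Q ∈ A
      · refine Or.inl ⟨p, (aasu_memY X).2 ⟨hp, ⟨Q, hQ, hov⟩, fun Q' hQ' => ?_⟩, hov⟩
        rcases aasu_two X hov hQ' with h | h
        · rw [h]
          exact hQ
        · rw [h]
          exact h1
      · exact Or.inr ⟨⟨Q, hA Q hQ, hc⟩, (aasu_memG X).2 ⟨hQ, h1⟩, rfl⟩
  · rintro (⟨p, hp, hov⟩ | ⟨b, hb, rfl⟩)
    · exact ((aasu_memY X).1 hp).2.2 Q hov
    · exact ((aasu_memG X).1 hb).1

theorem aasu_good (A : Finset (HeightOneSpectrum (𝓞 L))) :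
    ∀ b ∈ aasuG X A, ∀ b' ∈ aasuG X A, X.shX b = X.shX b' → b = b' := by
  intro b hb b' hb' h
  rcases hi_fib X b b' h with h1 | h1
  · exact h1.symm
  · exfalso
    rw [h1] at hb'
    exact ((aasu_memG X).1 hb).2 ((aasu_memG X).1 hb').1

theorem aasu_one (Q : HeightOneSpectrum (𝓞 L)) : 1 ≤ nrm Q := by
  unfold nrm
  refine Nat.one_le_iff_ne_zero.2 ?_
  rw [Ne, Ideal.absNorm_eq_zero_iff]
  exact Q.ne_bot

theorem aasu_memA {p : Fr.sys.P} {Q : HeightOneSpectrum (𝓞 L)} :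
    Q ∈ HX.abv L ({p} : Finset Fr.sys.P) ↔ Over (Fr.pl p) Q := by
  classical
  unfold HX.abv
  have h1 := (Pool.Agent.H98.MF.B.ovr_exists (L := L)
    (({p} : Finset Fr.sys.P).image Fr.pl)).choose_spec Q
  rw [h1]
  constructor
  · rintro ⟨P, hP, h2⟩
    rw [Finset.image_singleton, Finset.mem_singleton] at hP
    rw [hP] at h2
    exact h2
  · intro h2
    exact ⟨Fr.pl p, by rw [Finset.image_singleton, Finset.mem_singleton], h2⟩

/-- the primes above a prime of the first set -/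
theorem aasu_sq (hN : StNrm X) {A : Finset (HeightOneSpectrum (𝓞 L))} {p : Fr.sys.P}
    (hp : p ∈ aasuY X A) : Fr.sys.N p ^ 2 ≤ ∏ Q ∈ HX.abv L ({p} : Finset Fr.sys.P), nrm Q := by
  classical
  obtain ⟨h1, ⟨Q, hQ, hov⟩, -⟩ := (aasu_memY X).1 hp
  rw [Fr.N_eq]
  by_cases hc : cj X.sig Q = Q
  · rw [← hN.2 p Q h1 hov hc]
    exact Finset.single_le_prod' (f := fun Q : HeightOneSpectrum (𝓞 L) => nrm Q)
      (fun Q _ => aasu_one Q) (aasu_memA.2 hov)
  · obtain ⟨b, hb⟩ : ∃ b : X.PX, b.1 = Q := ⟨⟨Q, ⟨p, h1, hov⟩, hc⟩, rfl⟩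
    have h2 : X.shX b = p := X.shX_eq b (by rw [hb]; exact hov)
    have h3 : X.shX (X.cjX b) = p := X.shX_eq _ (by
      have := hov.cj X.sig
      rw [← hb] at this
      exact this)
    have h4 := hN.1 b
    have h5 := hN.1 (X.cjX b)
    rw [h2] at h4
    rw [h3] at h5
    have h6 : ({b.1, (X.cjX b).1} : Finset (HeightOneSpectrum (𝓞 L))) ⊆
        HX.abv L ({p} : Finset Fr.sys.P) := by
      intro Q' hQ'
      rw [Finset.mem_insert, Finset.mem_singleton] at hQ'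
      rcases hQ' with h | h
      · rw [h, aasu_memA, ← h2]
        exact X.shX_over b
      · rw [h, aasu_memA, ← h3]
        exact X.shX_over (X.cjX b)
    have h7 : b.1 ∉ ({(X.cjX b).1} : Finset (HeightOneSpectrum (𝓞 L))) := by
      rw [Finset.mem_singleton]
      exact fun h => b.2.2 h.symm
    calc nrm (Fr.pl p) ^ 2 = ∏ Q ∈ ({b.1, (X.cjX b).1} : Finset (HeightOneSpectrum (𝓞 L))),
          nrm Q := by
          rw [Finset.prod_insert h7, Finset.prod_singleton, h4, h5, pow_two]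
      _ ≤ _ := Finset.prod_le_prod_of_subset_of_one_le' h6 fun Q _ _ => aasu_one Q

open Classical in
/-- the norms -/
theorem aasu_nrm (hN : StNrm X) (A : Finset (HeightOneSpectrum (𝓞 L))) :
    Fr.sys.nm ((aasuG X A).image X.shX) * Fr.sys.nm (aasuY X A) ^ 2 ≤ ∏ Q ∈ A, nrm Q := by
  have h1 : Fr.sys.nm ((aasuG X A).image X.shX) =
      ∏ Q ∈ (aasuG X A).image Subtype.val, nrm Q := by
    unfold Pre.nm
    rw [Finset.prod_image fun b hb b' hb' h => aasu_good X A b hb b' hb' h,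
      Finset.prod_image fun b _ b' _ h => Subtype.ext h]
    refine Finset.prod_congr rfl fun b _ => ?_
    rw [Fr.N_eq]
    exact (hN.1 b).symm
  have h2 : Fr.sys.nm (aasuY X A) ^ 2 ≤
      ∏ Q ∈ (aasuY X A).biUnion (fun p => HX.abv L ({p} : Finset Fr.sys.P)), nrm Q := by
    rw [Finset.prod_biUnion]
    · unfold Pre.nm
      rw [← Finset.prod_pow]
      exact Finset.prod_le_prod' fun p hp => aasu_sq X hN hp
    · intro p _ q _ hpq
      rw [Function.onFun, Finset.disjoint_left]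
      intro Q h3 h4
      exact hpq (HX.over_inj (aasu_memA.1 h3) (aasu_memA.1 h4))
  have h3 : Disjoint ((aasuG X A).image Subtype.val)
      ((aasuY X A).biUnion (fun p => HX.abv L ({p} : Finset Fr.sys.P))) := by
    rw [Finset.disjoint_left]
    intro Q h4 h5
    obtain ⟨b, hb, rfl⟩ := Finset.mem_image.1 h4
    obtain ⟨p, hp, h6⟩ := Finset.mem_biUnion.1 h5
    exact ((aasu_memG X).1 hb).2 (((aasu_memY X).1 hp).2.2 _ ((aasu_memA.1 h6).cj X.sig))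
  have h4 : (aasuG X A).image Subtype.val ∪
      (aasuY X A).biUnion (fun p => HX.abv L ({p} : Finset Fr.sys.P)) ⊆ A := by
    refine Finset.union_subset ?_ ?_
    · intro Q h5
      obtain ⟨b, hb, rfl⟩ := Finset.mem_image.1 h5
      exact ((aasu_memG X).1 hb).1
    · intro Q h5
      obtain ⟨p, hp, h6⟩ := Finset.mem_biUnion.1 h5
      exact ((aasu_memY X).1 hp).2.2 _ (aasu_memA.1 h6)
  calc Fr.sys.nm ((aasuG X A).image X.shX) * Fr.sys.nm (aasuY X A) ^ 2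
      ≤ (∏ Q ∈ (aasuG X A).image Subtype.val, nrm Q) *
        ∏ Q ∈ (aasuY X A).biUnion (fun p => HX.abv L ({p} : Finset Fr.sys.P)), nrm Q := by
        rw [h1]
        exact Nat.mul_le_mul_left _ h2
    _ = ∏ Q ∈ (aasuG X A).image Subtype.val ∪
        (aasuY X A).biUnion (fun p => HX.abv L ({p} : Finset Fr.sys.P)), nrm Q :=
        (Finset.prod_union h3).symm
    _ ≤ ∏ Q ∈ A, nrm Q := Finset.prod_le_prod_of_subset_of_one_le' h4 fun Q _ _ => aasu_one Q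

/-- the number of the sets of primes -/
theorem aasu_count (hN : StNrm X) (C ε : ℝ) (hC : ∀ Z : ℝ, 1 ≤ Z →
      ((aasuB X Z).card : ℝ) ≤ C * (Fr.sys.nm X.M : ℝ) ^ ε * Z)
    (Z : ℝ) (hZ : 1 ≤ Z) :
    (X.As Z).Finite ∧ ((X.As Z).ncard : ℝ) ≤ |C| * (Fr.sys.nm X.M : ℝ) ^ ε * Z *
      ∑ y ∈ Fr.sys.bx Z, ((Fr.sys.nm y : ℝ) ^ 2)⁻¹ := by
  classical
  obtain ⟨F, hF⟩ : ∃ F : Finset (Σ _ : Finset Fr.sys.P, Finset X.PX), F =
    (Fr.sys.bx Z).sigma fun y =>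
      aasuB X (Z * ((Fr.sys.nm y : ℝ) ^ 2)⁻¹) := ⟨_, rfl⟩
  obtain ⟨Φ, hΦ⟩ : ∃ Φ : Finset (HeightOneSpectrum (𝓞 L)) →
    (Σ _ : Finset Fr.sys.P, Finset X.PX), Φ = fun A => ⟨aasuY X A, aasuG X A⟩ := ⟨_, rfl⟩
  have hmaps : ∀ A ∈ X.As Z, Φ A ∈ (F : Set (Σ _ : Finset Fr.sys.P, Finset X.PX)) := by
    intro A hA
    have h1 : ((∏ Q ∈ A, nrm Q : ℕ) : ℝ) ≤ Z := hA.2
    have h2 : ((Fr.sys.nm ((aasuG X A).image X.shX) * Fr.sys.nm (aasuY X A) ^ 2 : ℕ) : ℝ) ≤ Z :=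
      le_trans (by exact_mod_cast aasu_nrm X hN A) h1
    push_cast at h2
    have h3 := Fr.sys.one_le_nmr (aasuY X A)
    have h4 := Fr.sys.one_le_nmr ((aasuG X A).image X.shX)
    have h5 : (Fr.sys.nm (aasuY X A) : ℝ) ≤ (Fr.sys.nm (aasuY X A) : ℝ) ^ 2 :=
      le_self_pow₀ h3 (by norm_num)
    rw [hF, hΦ, Finset.mem_coe, Finset.mem_sigma]
    refine ⟨Fr.sys.mem_bx.2 ?_, (aasu_gb X _ _).2 ⟨aasu_good X A, ?_⟩⟩
    · refine h5.trans (le_trans ?_ h2)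
      exact le_mul_of_one_le_left (by positivity) h4
    · rw [← div_eq_mul_inv, le_div_iff₀ (by positivity)]
      exact h2
  have hinj : Set.InjOn Φ (X.As Z) := by
    intro A hA B hB h
    rw [hΦ] at h
    have h1 : aasuY X A = aasuY X B := congrArg (fun z => z.1) h
    have h2 : aasuG X A = aasuG X B := congrArg (fun z => z.2) h
    ext Q
    rw [aasu_mem X hA.1 Q, aasu_mem X hB.1 Q, h1, h2]
  refine ⟨Set.Finite.of_injOn hmaps hinj (Finset.finite_toSet F), ?_⟩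
  have h1 := Set.ncard_le_ncard_of_injOn Φ hmaps hinj (Finset.finite_toSet F)
  rw [Set.ncard_coe_finset] at h1
  have h2 : ((X.As Z).ncard : ℝ) ≤ (F.card : ℝ) := by exact_mod_cast h1
  refine h2.trans ?_
  rw [hF, Finset.card_sigma, Nat.cast_sum, Finset.mul_sum]
  refine Finset.sum_le_sum fun y _ => ?_
  have h3 := Fr.sys.one_le_nmr y
  have hM : (0 : ℝ) ≤ (Fr.sys.nm X.M : ℝ) ^ ε := Real.rpow_nonneg (Nat.cast_nonneg _) _
  by_cases h4 : 1 ≤ Z * ((Fr.sys.nm y : ℝ) ^ 2)⁻¹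
  · refine (hC _ h4).trans ?_
    rw [mul_assoc (|C| * (Fr.sys.nm X.M : ℝ) ^ ε)]
    refine mul_le_mul_of_nonneg_right ?_ (by linarith)
    exact mul_le_mul_of_nonneg_right (le_abs_self C) hM
  · have h5 : aasuB X (Z * ((Fr.sys.nm y : ℝ) ^ 2)⁻¹) = ∅ := by
      refine Finset.eq_empty_of_forall_notMem fun g hg => h4 ?_
      exact (Fr.sys.one_le_nmr _).trans ((aasu_gb X _ _).1 hg).2
    rw [h5, Finset.card_empty, Nat.cast_zero]
    positivity

end

theorem aasu_inv {S : Sys} (y : Finset S.P) :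
    ∏ p ∈ y, (1 * (S.N p : ℝ) ^ (-(2 : ℝ))) = ((S.nm y : ℝ) ^ 2)⁻¹ := by
  unfold Pre.nm
  push_cast
  rw [← Finset.prod_pow, ← Finset.prod_inv_distrib]
  refine Finset.prod_congr rfl fun p _ => ?_
  rw [one_mul, Real.rpow_neg (Nat.cast_nonneg _), Real.rpow_two]

theorem sAsU {k : Type} [Field k] [NumberField k] (Fr : Frm k)
    (hN : ∀ (L : Type) [Field L] [NumberField L] [Algebra k L] (X : HX Fr L), StNrm X) :
    SAsU Fr := by
  intro ε hε
  obtain ⟨C, hC⟩ := skcard Fr.sys ε hε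
  have hs := ua_sum1 (S := Fr.sys) 2 (by norm_num) 1 zero_le_one
  refine ⟨|C| * ∑' y : Finset Fr.sys.P, ∏ p ∈ y, (1 * (Fr.sys.N p : ℝ) ^ (-(2 : ℝ))),
    fun L _ _ _ X Z hZ => ?_⟩
  obtain ⟨h1, h2⟩ := aasu_count X (hN L X) C ε (fun Z hZ => hC (Qof X) Z hZ) Z hZ
  refine ⟨h1, h2.trans ?_⟩
  have h3 : ∑ y ∈ Fr.sys.bx Z, ((Fr.sys.nm y : ℝ) ^ 2)⁻¹ ≤
      ∑' y : Finset Fr.sys.P, ∏ p ∈ y, (1 * (Fr.sys.N p : ℝ) ^ (-(2 : ℝ))) := by
    rw [← Finset.sum_congr rfl fun y _ => aasu_inv (S := Fr.sys) y]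
    exact hs.sum_le_tsum _ fun y _ => ua_nn1 2 1 zero_le_one y
  have hM : (0 : ℝ) ≤ (Fr.sys.nm X.M : ℝ) ^ ε := Real.rpow_nonneg (Nat.cast_nonneg _) _
  have h4 : 0 ≤ |C| * (Fr.sys.nm X.M : ℝ) ^ ε * Z := by positivity
  refine (mul_le_mul_of_nonneg_left h3 h4).trans (le_of_eq ?_)
  ring

end Pool.Agent.H32.MQ
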