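import Pool.Agent.H32.MQ.AStm

/-!
# Malle's conjecture for 8T28 and 8T29 over number fields, block A, row A6: few classes with odd
exponents inside a given set
-/

set_option autoImplicit false

open scoped BigOperators
open NumberField IsDedekindDomain

namespace Pool.Agent.H32.MQ

open Pool.Agent.H98.MF

section

variable {k : Type} [Field k] [NumberField k] {Fr : Frm k} {L : Type} [Field L]
  [NumberField L] [Algebra k L] (X : HX Fr L)

open Classical in
/-- the odd exponents in `W` -/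
noncomputable def aclw_S (W : Finset (HeightOneSpectrum (𝓞 L))) (γ : HX.GX L) :
    Finset (HeightOneSpectrum (𝓞 L)) :=
  W.filter fun Q => Odd (ord Q ((HX.out γ : Lˣ) : L))

omit [NumberField L] in
theorem aclw_out (γ γ' : HX.GX L) :
    ∃ z : Lˣ, HX.out (γ * γ') = HX.out γ * HX.out γ' * z ^ 2 := by
  obtain ⟨z, hz⟩ := HX.out_mk (HX.out γ * HX.out γ')
  refine ⟨z, ?_⟩
  rw [← hz]
  congr 1
  rw [QuotientGroup.mk_mul]
  have h1 : ((HX.out γ : Lˣ) : HX.GX L) = γ := Quotient.out_eq γ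
  have h2 : ((HX.out γ' : Lˣ) : HX.GX L) = γ' := Quotient.out_eq γ'
  rw [h1, h2]

theorem aclw_odd (γ γ' : HX.GX L) (Q : HeightOneSpectrum (𝓞 L)) :
    Odd (ord Q ((HX.out (γ * γ') : Lˣ) : L)) ↔
      ¬ (Odd (ord Q ((HX.out γ : Lˣ) : L)) ↔ Odd (ord Q ((HX.out γ' : Lˣ) : L))) := by
  obtain ⟨z, hz⟩ := aclw_out γ γ'
  rw [hz]
  push_cast
  rw [ord_mul Q (mul_ne_zero (Units.ne_zero _) (Units.ne_zero _)) (pow_ne_zero _ (Units.ne_zero _)),
    ord_mul Q (Units.ne_zero _) (Units.ne_zero _), pow_two, ord_mul Q (Units.ne_zero _) (Units.ne_zero _)]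
  generalize ord Q ((HX.out γ : Lˣ) : L) = a
  generalize ord Q ((HX.out γ' : Lˣ) : L) = b
  generalize ord Q (z : L) = c
  simp only [Int.odd_iff]
  omega

theorem aclw_mem (W : Finset (HeightOneSpectrum (𝓞 L))) (γ γ' : HX.GX L) (h : γ ∈ X.Cl W)
    (h' : γ' ∈ X.Cl W) (hS : aclw_S W γ = aclw_S W γ') : γ * γ' ∈ X.Bs ∅ := by
  classical
  intro Q hQ
  rw [aclw_odd]
  constructor
  · intro h1
    exfalso
    apply h1
    constructor
    · intro h2
      have h3 : Q ∈ aclw_S W γ := by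
        unfold aclw_S
        exact Finset.mem_filter.2 ⟨h Q hQ h2, h2⟩
      rw [hS] at h3
      unfold aclw_S at h3
      exact (Finset.mem_filter.1 h3).2
    · intro h2
      have h3 : Q ∈ aclw_S W γ' := by
        unfold aclw_S
        exact Finset.mem_filter.2 ⟨h' Q hQ h2, h2⟩
      rw [← hS] at h3
      unfold aclw_S at h3
      exact (Finset.mem_filter.1 h3).2
  · rintro ⟨b, hb, -⟩
    exact absurd hb (Finset.notMem_empty b)

theorem stClW : StClW X := by
  classical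
  intro W
  obtain ⟨hf, hc⟩ := h_cardB X ∅
  have hU : X.Cl W = ⋃ s ∈ W.powerset, {γ | γ ∈ X.Cl W ∧ aclw_S W γ = s} := by
    ext γ
    simp only [Set.mem_iUnion, Set.mem_ofPred_eq]
    constructor
    · intro h
      exact ⟨aclw_S W γ, Finset.mem_powerset.2 (Finset.filter_subset _ _), h, rfl⟩
    · rintro ⟨_, _, h, _⟩
      exact h
  have hF : ∀ s, {γ | γ ∈ X.Cl W ∧ aclw_S W γ = s}.Finite ∧
      {γ | γ ∈ X.Cl W ∧ aclw_S W γ = s}.ncard ≤ 4 ^ (Fr.sys.m + X.M.card) := by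
    intro s
    rcases Set.eq_empty_or_nonempty {γ | γ ∈ X.Cl W ∧ aclw_S W γ = s} with h | ⟨γ0, h0, h0s⟩
    · rw [h]
      exact ⟨Set.finite_empty, by rw [Set.ncard_empty]; exact Nat.zero_le _⟩
    · have hsub : {γ | γ ∈ X.Cl W ∧ aclw_S W γ = s} ⊆ (fun z => γ0⁻¹ * z) '' X.Bs ∅ := by
        rintro γ ⟨h, hs⟩
        refine ⟨γ0 * γ, aclw_mem X W γ0 γ h0 h (h0s.trans hs.symm), ?_⟩
        show γ0⁻¹ * (γ0 * γ) = γ
        rw [inv_mul_cancel_left]
      have hfi : ((fun z => γ0⁻¹ * z) '' X.Bs ∅).Finite := hf.image _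
      refine ⟨hfi.subset hsub, ?_⟩
      exact (Set.ncard_le_ncard hsub hfi).trans ((Set.ncard_image_le hf).trans hc)
  constructor
  · rw [hU]
    exact Set.Finite.biUnion (Finset.finite_toSet _) fun s _ => (hF s).1
  · rw [hU]
    refine (Finset.set_ncard_biUnion_le W.powerset _).trans ?_
    refine (Finset.sum_le_card_nsmul _ _ _ fun s _ => (hF s).2).trans ?_
    rw [Finset.card_powerset, smul_eq_mul]

end

end Pool.Agent.H32.MQ
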