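import Pool.Agent.H32.MQ.HStm
import Pool.Agent.H98.MF.MDefs

/-!
# Malle's conjecture for 8T28 and 8T29 over number fields, blocks A (uniform bound for the number
of homomorphisms) and X (the exact formula for a fixed quadratic extension): definitions

`D4` is the dihedral group of order 8 with coordinates `v 0 = γ`, `v 1 = δ`, `H4` the stabiliser
of a point. `QX k L` is a quadratic extension `L = k(α)` with an element `δ` and a finite set `M`
of primes of `k`.
-/

set_option autoImplicit false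

open scoped BigOperators
open NumberField IsDedekindDomain

namespace Pool.Agent.H32.MQ

open Pool.Agent.H98.MF
open Pool.Agent.H98.ML (Dt Ext norb hind)

/-- the cocycle of the dihedral group -/
def d4b : (Fin 2 → ZMod 2) →ₗ[ZMod 2] (Fin 2 → ZMod 2) →ₗ[ZMod 2] (Fin 1 → ZMod 2) :=
  LinearMap.mk₂ (ZMod 2) (fun v w _ => v 0 * w 1)
    (fun v v' w => by funext i; exact add_mul _ _ _)
    (fun c v w => by funext i; exact mul_assoc _ _ _)
    (fun v w w' => by funext i; exact mul_add _ _ _)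
    (fun c v w => by funext i; exact mul_left_comm _ _ _)

/-- the dihedral group of order 8 -/
def D4 : Dt where
  r := 2
  s := 1
  β := d4b
  spz := by
    refine top_le_iff.1 fun x _ => ?_
    have h1 : x = x 0 • (d4b ![1, 1] ![1, 1]) := by
      funext i
      have hi : i = 0 := Subsingleton.elim _ _
      subst hi
      show x 0 = x 0 * (1 * 1)
      rw [mul_one, mul_one]
    rw [h1]
    exact Submodule.smul_mem _ _ (Submodule.subset_span ⟨_, rfl⟩)

/-- the stabiliser of a point -/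
def H4 : Subgroup (Ext D4) := Subgroup.zpowers (⟨![0, 1], 0⟩ : Ext D4)

/-- the coordinate `γ` -/
def c0 (g : Ext D4) : ZMod 2 := g.v (0 : Fin 2)

/-- the coordinate `δ` -/
def c1 (g : Ext D4) : ZMod 2 := g.v (1 : Fin 2)

/-- the central coordinate -/
def cz (g : Ext D4) : ZMod 2 := g.z (0 : Fin 1)

/-- a quadratic extension of `k` with an element `δ` and a finite set `M` of primes -/
structure QX (k L : Type) [Field k] [NumberField k] [Field L] [NumberField L] [Algebra k L] where
  a : kˣ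
  α : L
  qe : QE a α
  δ : Lˣ
  M : Finset (HeightOneSpectrum (𝓞 k))
  two : ∀ P : HeightOneSpectrum (𝓞 k), 0 < ord P (2 : k) → P ∈ M
  unr : ∀ P, P ∉ M → Even (ord P (a : k))
  evd : ∀ P, P ∉ M → ∀ Q : HeightOneSpectrum (𝓞 L), Over P Q → Even (ord Q (δ : L))

namespace QX

variable {k : Type} [Field k] [NumberField k] {L : Type} [Field L]
  [NumberField L] [Algebra k L] (E : QX k L)

/-- the conjugation -/
noncomputable def sig : L ≃ₐ[k] L := (Pool.Agent.H98.MF.B.qe_conj E.qe).choose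

open Classical in
/-- the primes of the frame in `M` or `R` -/
noncomputable def MR (Fr : Frm k) (R : Finset (HeightOneSpectrum (𝓞 k))) : Finset Fr.sys.P :=
  (E.M ∪ R).preimage Fr.pl Fr.pl_inj.injOn

theorem pl_notMem {Fr : Frm k} {R : Finset (HeightOneSpectrum (𝓞 k))} {p : Fr.sys.P}
    (h : p ∉ E.MR Fr R) : Fr.pl p ∉ E.M ∧ Fr.pl p ∉ R := by
  classical
  unfold MR at h
  rw [Finset.mem_preimage, Finset.mem_union, not_or] at h
  exact h

/-- the data of block H -/
noncomputable def toHX (Fr : Frm k) (R : Finset (HeightOneSpectrum (𝓞 k))) : HX Fr L where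
  a := E.a
  α := E.α
  qe := E.qe
  δ := E.δ
  M := E.MR Fr R
  unr := fun _ hp => E.unr _ (E.pl_notMem hp).1
  evd := fun _ hp => E.evd _ (E.pl_notMem hp).1

variable (RL : Rx L)

/-- the vector of a tame generator -/
noncomputable def vv (ρ : Gm L →* Ext D4) (Q : HeightOneSpectrum (𝓞 L)) : Fin 2 → ZMod 2 := (ρ (RL.tau Q)).v

/-- unramified type -/
def TN (ρ : Gm L →* Ext D4) (P : HeightOneSpectrum (𝓞 k)) : Prop :=
  ∀ Q : HeightOneSpectrum (𝓞 L), Over P Q → vv RL ρ Q = 0

/-- primes of `t` -/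
def TQ (ρ : Gm L →* Ext D4) (P : HeightOneSpectrum (𝓞 k)) : Prop :=
  ∀ Q : HeightOneSpectrum (𝓞 L), Over P Q → vv RL ρ Q = ![0, 1]

/-- primes of `γ` -/
def TG (ρ : Gm L →* Ext D4) (P : HeightOneSpectrum (𝓞 k)) : Prop :=
  ∃ Q : HeightOneSpectrum (𝓞 L), Over P Q ∧ cj E.sig Q ≠ Q ∧ vv RL ρ Q = ![1, 0] ∧
    vv RL ρ (cj E.sig Q) = 0

/-- the other types -/
def Oth (ρ : Gm L →* Ext D4) (P : HeightOneSpectrum (𝓞 k)) : Prop :=
  ¬ TN RL ρ P ∧ ¬ TQ RL ρ P ∧ ¬ E.TG RL ρ P

/-- homomorphisms to the dihedral group with characters `γ` and `δ t` -/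
structure Hm (ρ : Gm L →* Ext D4) (γ : Lˣ) (t : kˣ) : Prop where
  lc : IsLocallyConstant ρ
  gam : ∀ σ, c0 (ρ σ) = chi (γ : L) σ
  del : ∀ σ, c1 (ρ σ) = chi ((E.δ : L) * algebraMap k L (t : k)) σ

/-- the homomorphisms with characters `γ` and `δ t` such that `On γ t`, with the other types
exactly at `R` outside `M` -/
def Hs (On : Lˣ → kˣ → Prop) (R : Finset (HeightOneSpectrum (𝓞 k))) :
    Set (Gm L →* Ext D4) :=
  {ρ | (∃ γ t, E.Hm ρ γ t ∧ On γ t) ∧ ∀ P, P ∉ E.M → (P ∈ R ↔ E.Oth RL ρ P)}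

/-- the norm of the relative discriminant of the quartic field -/
noncomputable def dn (ρ : Gm L →* Ext D4) : ℕ := rdN (fld L (H4.comap ρ))

/-- the homomorphisms of bounded discriminant -/
def Cn (On : Lˣ → kˣ → Prop) (R : Finset (HeightOneSpectrum (𝓞 k))) (Y : ℝ) :
    Set (Gm L →* Ext D4) :=
  {ρ ∈ E.Hs RL On R | (dn ρ : ℝ) ≤ Y ^ 2}

end QX

/-- the product of the norms -/
noncomputable def nmR {k : Type} [Field k] [NumberField k]
    (R : Finset (HeightOneSpectrum (𝓞 k))) : ℕ := ∏ P ∈ R, nrm P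

/-! ### facts on the dihedral group -/

/-- the indices -/
def StHind : Prop := ∀ g : Ext D4, hind H4 g =
  (if g.v = 0 then (if g.z = 0 then 0 else 2) else if g.v = ![0, 1] then 1
    else if g.v = ![1, 0] then 2 else 3)

end Pool.Agent.H32.MQ
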