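import Pool.Agent.H32.MQ.AStm
import Pool.Agent.H98.MF.ParK

/-!
# Malle's conjecture for 8T28 and 8T29 over number fields, block A, row A4: two homomorphisms to
the dihedral group with the same characters differ by a quadratic character
-/

set_option autoImplicit false

open scoped BigOperators
open NumberField IsDedekindDomain

namespace Pool.Agent.H32.MQ

open Pool.Agent.H98.MF
open Pool.Agent.H98.ML (Dt Ext norb hind)

private theorem adiff_mul (x y : Ext D4) :
    cz (x * y) = cz x + cz y + D4.β x.v y.v (0 : Fin 1) := rfl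

private theorem adiff_two (a b c d e : ZMod 2) :
    a + b + e + (c + d + e) = (a + c) + (b + d) := by
  have h := ParK.two e
  calc a + b + e + (c + d + e) = (a + c) + (b + d) + (e + e) := by ring
    _ = (a + c) + (b + d) := by rw [h, add_zero]

/-- two homomorphisms with the same characters differ by a quadratic character -/
theorem stDiff (L : Type) [Field L] [NumberField L] : StDiff L := by
  intro ρ ρ' h h' hv
  have hc : IsLocallyConstant (fun σ : Gm L => cz (ρ' σ) + cz (ρ σ)) :=
    (h'.comp cz).add (h.comp cz)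
  have ha : ∀ σ τ : Gm L, cz (ρ' (σ * τ)) + cz (ρ (σ * τ)) =
      (cz (ρ' σ) + cz (ρ σ)) + (cz (ρ' τ) + cz (ρ τ)) := by
    intro σ τ
    rw [map_mul, map_mul, adiff_mul, adiff_mul, ← hv σ, ← hv τ]
    exact adiff_two _ _ _ _ _
  obtain ⟨b, hb⟩ := ParK.exists_chi1 (fun σ : Gm L => cz (ρ' σ) + cz (ρ σ)) hc ha
  refine ⟨b, fun σ => ?_⟩
  rw [← hb σ]
  have h2 := ParK.two (cz (ρ σ))
  calc cz (ρ' σ) = cz (ρ' σ) + (cz (ρ σ) + cz (ρ σ)) := by rw [h2, add_zero]
    _ = cz (ρ σ) + (cz (ρ' σ) + cz (ρ σ)) := by ring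

end Pool.Agent.H32.MQ
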