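import Pool.Agent.H32.MQ.AStm

/-!
# Malle's conjecture for 8T28 and 8T29 over number fields, row A9: the number of homomorphisms
with given characters and given central values
-/

set_option autoImplicit false

open scoped BigOperators
open NumberField IsDedekindDomain

namespace Pool.Agent.H32.MQ

open Pool.Agent.H98.MK (sg)
open Pool.Agent.H98.MF
open Pool.Agent.H98.ML (Dt Ext norb hind)

section

variable {k : Type} [Field k] [NumberField k] {Fr : Frm k} {L : Type} [Field L]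
  [NumberField L] [Algebra k L] (X : HX Fr L)

theorem afib_zm (t : ZMod 2) : t = 0 ∨ t = 1 := by
  revert t; decide

theorem afib_zm_even {n : ℤ} (h : Even n) : ((n : ℤ) : ZMod 2) = 0 := by
  obtain ⟨m, rfl⟩ := h
  push_cast
  exact CharTwo.add_self_eq_zero _

theorem afib_even_zm {n : ℤ} (h : ((n : ℤ) : ZMod 2) = 0) : Even n := by
  rw [ZMod.intCast_zmod_eq_zero_iff_dvd] at h
  exact even_iff_two_dvd.2 (by exact_mod_cast h)

/-- the vector of a homomorphism is given by its two characters -/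
theorem afib_v (g h : Ext D4) (h0 : c0 g = c0 h) (h1 : c1 g = c1 h) : g.v = h.v := by
  funext i
  have hi : i = (0 : Fin 2) ∨ i = (1 : Fin 2) := by
    revert i
    show ∀ i : Fin 2, i = 0 ∨ i = 1
    decide
  rcases hi with hi | hi
  · rw [hi]
    exact h0
  · rw [hi]
    exact h1

/-- the central part of a homomorphism is given by its coordinate -/
theorem afib_z (g h : Ext D4) (h0 : cz g = cz h) : g.z = h.z := by
  funext i
  have hi : i = (0 : Fin 1) := Subsingleton.elim (α := Fin 1) _ _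
  rw [hi]
  exact h0

theorem afib_mem_abv {x : Finset Fr.sys.P} {p : Fr.sys.P} (hp : p ∈ x)
    {Q : HeightOneSpectrum (𝓞 L)} (hQ : Over (Fr.pl p) Q) : Q ∈ HX.abv L x := by
  classical
  unfold HX.abv
  refine ((Pool.Agent.H98.MF.B.ovr_exists (L := L) (x.image Fr.pl)).choose_spec Q).2 ?_
  exact ⟨Fr.pl p, Finset.mem_image_of_mem _ hp, hQ⟩

/-- outside the ramified primes the vector of the tame generator is zero -/
theorem afib_v0 (RL : Rx L) (x : Finset Fr.sys.P) (g : Finset X.PX) (γ : HX.GX L)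
    (hγ : γ ∈ X.Bs g) (c : El Fr.sys) (hc : c.2 ⊆ X.M)
    (A : Finset (HeightOneSpectrum (𝓞 L))) (ρ : Gm L →* Ext D4)
    (hρ : ρ ∈ X.Fib RL (HX.out γ) (rep Fr (c.1, c.2 ∪ x)) A)
    (Q : HeightOneSpectrum (𝓞 L)) (hQ : X.Out Q) (hQr : Q ∉ X.ramX x g) :
    (ρ (RL.tau Q)).v = 0 := by
  classical
  obtain ⟨p, hpM, hpQ⟩ := hQ
  obtain ⟨hQ2, hQo⟩ := h_ord X p Q hpM hpQ
  have hQr' : Q ∉ HX.abv L x ∧ Q ∉ g.image Subtype.val := by
    unfold HX.ramX at hQr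
    rw [Finset.mem_union, not_or] at hQr
    exact hQr
  have e0 : c0 (ρ (RL.tau Q)) = 0 := by
    rw [hρ.2.1, RL.chi Q hQ2]
    refine afib_zm_even ?_
    rw [← Int.not_odd_iff_even]
    intro h
    obtain ⟨b, hb, hbQ⟩ := (hγ Q ⟨p, hpM, hpQ⟩).1 h
    exact hQr'.2 (Finset.mem_image.2 ⟨b, hb, hbQ⟩)
  have e1 : c1 (ρ (RL.tau Q)) = 0 := by
    rw [hρ.2.2.1]
    have h1 : (X.δ : L) * algebraMap k L (rep Fr (c.1, c.2 ∪ x) : k) =
        ((X.δ * Units.map (algebraMap k L : k →* L) (rep Fr (c.1, c.2 ∪ x)) : Lˣ) : L) := by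
      rw [Units.val_mul]
      rfl
    rw [h1, RL.chi Q hQ2]
    refine afib_zm_even ?_
    rw [Units.val_mul, Pool.Agent.H98.MF.B.ord_mul Q (Units.ne_zero _) (Units.ne_zero _)]
    refine (X.evd p hpM Q hpQ).add ?_
    have h2 : ((Units.map (algebraMap k L : k →* L) (rep Fr (c.1, c.2 ∪ x)) : Lˣ) : L) =
        algebraMap k L (rep Fr (c.1, c.2 ∪ x) : k) := rfl
    rw [h2, hQo, h_repO Fr]
    have h3 : p ∉ c.2 ∪ x := by
      rw [Finset.mem_union, not_or]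
      exact ⟨fun h => hpM (hc h), fun h => hQr'.1 (afib_mem_abv h hpQ)⟩
    rw [if_neg h3]
    exact Even.zero
  exact afib_v (ρ (RL.tau Q)) 1 e0 e1

/-- the difference of two homomorphisms in a fibre is a class of the ramified primes -/
theorem afib_class (RL : Rx L) (x : Finset Fr.sys.P) (g : Finset X.PX) (γ : HX.GX L)
    (hγ : γ ∈ X.Bs g) (c : El Fr.sys) (hc : c.2 ⊆ X.M)
    (A : Finset (HeightOneSpectrum (𝓞 L))) (ρ ρ' : Gm L →* Ext D4)
    (hρ : ρ ∈ X.Fib RL (HX.out γ) (rep Fr (c.1, c.2 ∪ x)) A)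
    (hρ' : ρ' ∈ X.Fib RL (HX.out γ) (rep Fr (c.1, c.2 ∪ x)) A) (b : Lˣ)
    (hb : ∀ σ, cz (ρ' σ) = cz (ρ σ) + chi (b : L) σ) :
    ((b : Lˣ) : HX.GX L) ∈ X.Cl (X.ramX x g) := by
  intro Q hQ hodd
  by_contra hQr
  have v0 := afib_v0 X RL x g γ hγ c hc A ρ hρ Q hQ hQr
  have v0' := afib_v0 X RL x g γ hγ c hc A ρ' hρ' Q hQ hQr
  have hA := hρ.2.2.2 Q hQ
  have hA' := hρ'.2.2.2 Q hQ
  have hz : cz (ρ' (RL.tau Q)) = cz (ρ (RL.tau Q)) := by
    have key : ∀ e : Ext D4, e.v = 0 → (e = (⟨0, 1⟩ : Ext D4) ↔ cz e = 1) := by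
      intro e he
      constructor
      · intro h
        rw [h]
        rfl
      · intro h
        exact Pool.Agent.H98.ML.Ext.ext he (afib_z e ⟨0, 1⟩ h)
    have k1 := key _ v0
    have k2 := key _ v0'
    have k3 : cz (ρ' (RL.tau Q)) = 1 ↔ cz (ρ (RL.tau Q)) = 1 := by
      rw [← k1, ← k2, hA, hA']
    rcases afib_zm (cz (ρ (RL.tau Q))) with h | h
    · rcases afib_zm (cz (ρ' (RL.tau Q))) with h' | h'
      · rw [h, h']
      · exact absurd (k3.1 h') (by rw [h]; decide)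
    · rw [h]
      exact k3.2 h
  obtain ⟨p, hpM, hpQ⟩ := hQ
  obtain ⟨hQ2, -⟩ := h_ord X p Q hpM hpQ
  have h1 : chi (b : L) (RL.tau Q) = 0 := by
    have h2 := hb (RL.tau Q)
    rw [hz] at h2
    exact (left_eq_add.1 h2)
  rw [RL.chi Q hQ2] at h1
  have h3 := afib_even_zm h1
  obtain ⟨y, hy⟩ := HX.out_mk b
  rw [hy, Units.val_mul, Units.val_pow_eq_pow_val,
    Pool.Agent.H98.MF.B.ord_mul Q (Units.ne_zero _) (pow_ne_zero 2 (Units.ne_zero _)),
    Pool.Agent.H98.MF.B.ord_pow] at hodd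
  have h4 : Even (ord Q (b : L) + ((2 : ℕ) : ℤ) * ord Q (y : L)) := by
    refine h3.add ?_
    exact ⟨ord Q (y : L), by push_cast; ring⟩
  exact (Int.not_odd_iff_even.2 h4) hodd

/-- a homomorphism of a fibre is determined by the class of the difference -/
theorem afib_inj (RL : Rx L) (γ : Lˣ) (t : kˣ) (A : Finset (HeightOneSpectrum (𝓞 L)))
    (ρ ρ1 ρ2 : Gm L →* Ext D4) (h1 : ρ1 ∈ X.Fib RL γ t A) (h2 : ρ2 ∈ X.Fib RL γ t A)
    (b1 b2 : Lˣ) (hb1 : ∀ σ, cz (ρ1 σ) = cz (ρ σ) + chi (b1 : L) σ)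
    (hb2 : ∀ σ, cz (ρ2 σ) = cz (ρ σ) + chi (b2 : L) σ)
    (he : ((b1 : Lˣ) : HX.GX L) = ((b2 : Lˣ) : HX.GX L)) : ρ1 = ρ2 := by
  rw [QuotientGroup.eq] at he
  obtain ⟨y, hy⟩ := he
  have hy' : y ^ 2 = b1⁻¹ * b2 := hy
  have hb : b2 = b1 * y ^ 2 := by rw [hy', mul_inv_cancel_left]
  have hchi : ∀ σ : Gm L, chi (b2 : L) σ = chi (b1 : L) σ := by
    intro σ
    rw [hb, Pool.Agent.H98.MF.B.chi_mul_units, Units.val_pow_eq_pow_val,
      Pool.Agent.H98.MF.B.chi_sq, add_zero]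
  ext1 σ
  refine Pool.Agent.H98.ML.Ext.ext ?_ ?_
  · refine afib_v _ _ ?_ ?_
    · rw [h1.2.1, h2.2.1]
    · rw [h1.2.2.1, h2.2.2.1]
  · refine afib_z _ _ ?_
    rw [hb1, hb2, hchi]

theorem stFib (hZ : StHsZ L) (hD : StDiff L) (hC : StClW X) (hR : StRam X) (hN : StLocN X)
    (hP : StPosX X) : StFib X := by
  classical
  intro RL x g hok γ hγ c hc A
  by_cases hne : (X.Fib RL (HX.out γ) (rep Fr (c.1, c.2 ∪ x)) A).Nonempty
  · obtain ⟨ρ0, hρ0⟩ := hne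
    -- the product of the factors
    have hz : ∀ Q : HeightOneSpectrum (𝓞 L), hs Q ((HX.out γ : Lˣ) : L)
        ((X.δ : L) * algebraMap k L (rep Fr (c.1, c.2 ∪ x) : k)) = 0 := by
      intro Q
      have h1 : (X.δ : L) * algebraMap k L (rep Fr (c.1, c.2 ∪ x) : k) =
          ((X.δ * Units.map (algebraMap k L : k →* L) (rep Fr (c.1, c.2 ∪ x)) : Lˣ) : L) := by
        rw [Units.val_mul]
        rfl
      have h2 := hZ ρ0 (HX.out γ)
        (X.δ * Units.map (algebraMap k L : k →* L) (rep Fr (c.1, c.2 ∪ x))) hρ0.1 hρ0.2.1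
        (by
          intro σ
          rw [← h1]
          exact hρ0.2.2.1 σ) Q
      rw [← h1] at h2
      exact h2
    have hprod := hN x g hok γ hγ c hc hz
    have hram := hR x g hok.2.1
    obtain ⟨hCf, hCc⟩ := hC (X.ramX x g)
    -- the map to the classes
    have hex : ∀ ρ : Gm L →* Ext D4, ∃ b : Lˣ,
        ρ ∈ X.Fib RL (HX.out γ) (rep Fr (c.1, c.2 ∪ x)) A →
          ∀ σ, cz (ρ σ) = cz (ρ0 σ) + chi (b : L) σ := by
      intro ρ
      by_cases hρ : ρ ∈ X.Fib RL (HX.out γ) (rep Fr (c.1, c.2 ∪ x)) A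
      · obtain ⟨b, hb⟩ := hD ρ0 ρ hρ0.1 hρ.1 (fun σ => afib_v _ _ (by rw [hρ0.2.1, hρ.2.1])
          (by rw [hρ0.2.2.1, hρ.2.2.1]))
        exact ⟨b, fun _ => hb⟩
      · exact ⟨1, fun h => absurd h hρ⟩
    choose b hb using hex
    have hmaps : ∀ ρ ∈ X.Fib RL (HX.out γ) (rep Fr (c.1, c.2 ∪ x)) A,
        ((b ρ : Lˣ) : HX.GX L) ∈ X.Cl (X.ramX x g) := fun ρ hρ =>
      afib_class X RL x g γ hγ c hc A ρ0 ρ hρ0 hρ (b ρ) (hb ρ hρ)
    have hinj : Set.InjOn (fun ρ => ((b ρ : Lˣ) : HX.GX L))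
        (X.Fib RL (HX.out γ) (rep Fr (c.1, c.2 ∪ x)) A) := fun ρ1 h1 ρ2 h2 he =>
      afib_inj X RL (HX.out γ) (rep Fr (c.1, c.2 ∪ x)) A ρ0 ρ1 ρ2 h1 h2 (b ρ1) (b ρ2)
        (hb ρ1 h1) (hb ρ2 h2) he
    refine ⟨Set.Finite.of_injOn hmaps hinj hCf, ?_⟩
    have hcard := Set.ncard_le_ncard_of_injOn (fun ρ => ((b ρ : Lˣ) : HX.GX L)) hmaps hinj hCf
    have h3 : (X.Fib RL (HX.out γ) (rep Fr (c.1, c.2 ∪ x)) A).ncard ≤
        ((∏ p ∈ x, (if ∃ b : X.PX, X.shX b = p then 4 else 2)) * 2 ^ g.card) *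
          4 ^ (Fr.sys.m + X.M.card) :=
      hcard.trans (hCc.trans (Nat.mul_le_mul_right _ hram))
    rw [hprod, mul_comm]
    have h4 : ((((∏ p ∈ x, (if ∃ b : X.PX, X.shX b = p then 4 else 2)) * 2 ^ g.card) *
          4 ^ (Fr.sys.m + X.M.card) : ℕ) : ℝ) =
        ((∏ p ∈ x, (if ∃ b : X.PX, X.shX b = p then 4 else 2)) * 2 ^ g.card) *
          4 ^ (Fr.sys.m + X.M.card) := by
      push_cast
      rfl
    rw [← h4]
    exact_mod_cast h3
  · rw [Set.not_nonempty_iff_eq_empty] at hne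
    rw [hne]
    refine ⟨Set.finite_empty, ?_⟩
    rw [Set.ncard_empty, Nat.cast_zero]
    refine mul_nonneg (by positivity) (mul_nonneg ?_ ?_)
    · exact Finset.prod_nonneg fun p _ => hP.1 γ p
    · exact Finset.prod_nonneg fun b _ => hP.2 c x b

end

end Pool.Agent.H32.MQ
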