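import Pool.Agent.H32.MQ.AStm
import Pool.Agent.H98.ML.NorbBurnside

/-!
# Malle's conjecture for 8T28 and 8T29 over number fields, row MQ-A1: the index of the elements
of the dihedral group of order 8
-/

set_option autoImplicit false

open scoped BigOperators

namespace Pool.Agent.H32.MQ

open Pool.Agent.H98.ML (Dt Ext hind norb norb_burnside)

/-- the powers of `g` -/
private def ahP (g a : Ext D4) : Prop :=
  a = 1 ∨ a = g ∨ a = g * g ∨ a = g * g * g

private instance (g a : Ext D4) : Decidable (ahP g a) := by unfold ahP; infer_instance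

private theorem ah_p4 (g : Ext D4) : g * g * (g * g) = 1 := by
  revert g; decide +kernel

private theorem ah_pow4 (g : Ext D4) : g ^ 4 = 1 := by
  rw [← ah_p4 g]
  simp only [pow_succ, pow_zero, one_mul, mul_assoc]

private theorem ah_mem (g a : Ext D4) : a ∈ Subgroup.zpowers g ↔ ahP g a := by
  rw [Subgroup.mem_zpowers_iff]
  constructor
  · rintro ⟨k, hk⟩
    have h1 : g ^ k = g ^ (k % 4).toNat := by
      have h2 : k = 4 * (k / 4) + k % 4 := (Int.mul_ediv_add_emod k 4).symm
      have h3 : ((k % 4).toNat : ℤ) = k % 4 := Int.toNat_of_nonneg (Int.emod_nonneg _ (by norm_num))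
      rw [← zpow_natCast, h3]
      conv_lhs => rw [h2]
      rw [zpow_add, zpow_mul]
      have h4 : g ^ (4 : ℤ) = 1 := by
        have := ah_pow4 g
        exact_mod_cast this
      rw [h4, one_zpow, one_mul]
    have h5 : (k % 4).toNat < 4 := by omega
    rw [h1] at hk
    subst hk
    generalize (k % 4).toNat = n at h5 ⊢
    unfold ahP
    interval_cases n <;> simp only [pow_succ, pow_zero, one_mul, mul_assoc, true_or, or_true]
  · intro h
    rcases h with h | h | h | h
    · exact ⟨0, by rw [h]; exact zpow_zero g⟩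
    · exact ⟨1, by rw [h]; exact zpow_one g⟩
    · exact ⟨((2 : ℕ) : ℤ), by rw [h, zpow_natCast]; simp only [pow_succ, pow_zero, one_mul]⟩
    · exact ⟨((3 : ℕ) : ℤ), by rw [h, zpow_natCast]; simp only [pow_succ, pow_zero, one_mul]⟩

private theorem ah_cz (g : Ext D4) :
    Nat.card (Subgroup.zpowers g) = (Finset.univ.filter fun a : Ext D4 => ahP g a).card := by
  rw [Nat.card_congr (Equiv.subtypeEquivRight fun a => ah_mem g a), Nat.card_eq_fintype_card,
    Fintype.card_subtype]

/-- the generator of the stabiliser -/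
private def ahh : Ext D4 := ⟨![0, 1], 0⟩

private theorem ah_ci (g x : Ext D4) :
    Nat.card (Subgroup.zpowers g ⊓ H4.comap (MulAut.conj x).toMonoidHom : Subgroup (Ext D4)) =
      (Finset.univ.filter fun a : Ext D4 => ahP g a ∧ ahP ahh (x * a * x⁻¹)).card := by
  have h : ∀ a : Ext D4, a ∈ (Subgroup.zpowers g ⊓ H4.comap (MulAut.conj x).toMonoidHom :
      Subgroup (Ext D4)) ↔ ahP g a ∧ ahP ahh (x * a * x⁻¹) := by
    intro a
    rw [Subgroup.mem_inf, ah_mem g a, ← ah_mem ahh]
    exact Iff.rfl
  rw [Nat.card_congr (Equiv.subtypeEquivRight h), Nat.card_eq_fintype_card, Fintype.card_subtype]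

private theorem ah_h4 : Nat.card H4 = 2 := by
  have h : ∀ a : Ext D4, a ∈ H4 ↔ ahP ahh a := fun a => ah_mem ahh a
  rw [Nat.card_congr (Equiv.subtypeEquivRight h), Nat.card_eq_fintype_card, Fintype.card_subtype]
  decide +kernel

private theorem ah_idx : H4.index = 4 := by
  have h := H4.index_mul_card
  rw [ah_h4] at h
  have h2 : Nat.card (Ext D4) = 8 := by
    rw [Nat.card_eq_fintype_card]
    decide +kernel
  omega

/-- the number of orbits -/
private def aht (g : Ext D4) : ℕ :=
  if g.v = 0 then (if g.z = 0 then 4 else 2) else if g.v = ![0, 1] then 3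
    else if g.v = ![1, 0] then 2 else 1

private theorem ah_fin (g : Ext D4) :
    (∑ x : Ext D4, (Finset.univ.filter fun a : Ext D4 => ahP g a ∧ ahP ahh (x * a * x⁻¹)).card) =
      aht g * 2 * (Finset.univ.filter fun a : Ext D4 => ahP g a).card := by
  revert g
  decide +kernel

private theorem ah_norb (g : Ext D4) : norb H4 g = aht g := by
  have h := norb_burnside H4 g
  rw [Finset.sum_congr rfl fun x _ => ah_ci g x, ah_fin, ah_h4, ← ah_cz] at h
  have h2 : 0 < Nat.card (Subgroup.zpowers g) := Nat.card_pos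
  have h3 := Nat.eq_of_mul_eq_mul_right h2 h
  omega

theorem stHind : StHind := by
  intro g
  unfold hind
  rw [ah_norb, ah_idx]
  unfold aht
  split_ifs <;> rfl

end Pool.Agent.H32.MQ
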