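import Pool.Agent.H32.MQ.AStm
import Pool.Agent.H98.MF.C.Lin

/-!
# Malle's conjecture for 8T28 and 8T29 over number fields, block A: the local symbols vanish
-/

set_option autoImplicit false

open scoped BigOperators
open NumberField IsDedekindDomain

namespace Pool.Agent.H32.MQ

open Pool.Agent.H98.MF
open Pool.Agent.H98.ML (Dt Ext norb hind)

/-- the central coordinate of a product -/
theorem ahsz_mul (x y : Ext D4) : cz (x * y) = cz x + cz y + c0 x * c1 y := rfl

theorem stHsZ (L : Type) [Field L] [NumberField L] : StHsZ L := by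
  intro ρ γ δ hρ h0 h1 Q
  have h2 := ((B.lin L).triv Q (r := 1) (fun _ => γ) (fun _ => δ)).1 ?_
  · rwa [Fin.sum_univ_one] at h2
  · refine ⟨fun σ => cz (ρ σ), hρ.comp cz, fun σ _ τ _ => ?_⟩
    rw [Fin.sum_univ_one]
    show cz (ρ (σ * τ)) = cz (ρ σ) + cz (ρ τ) + chi (γ : L) σ * chi (δ : L) τ
    rw [map_mul, ahsz_mul, h0, h1]

end Pool.Agent.H32.MQ
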