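import Pool.Agent.H32.MQ.AStm

/-!
# Malle's conjecture for 8T28 and 8T29 over number fields, row A8: the local conditions and the
factors
-/

set_option autoImplicit false

open scoped BigOperators
open NumberField IsDedekindDomain

namespace Pool.Agent.H32.MQ

open Pool.Agent.H98.MK (sg)
open Pool.Agent.H98.MF

section

variable {k : Type} [Field k] [NumberField k] {Fr : Frm k} {L : Type} [Field L] [NumberField L]
  [Algebra k L] (X : HX Fr L)

private theorem alocn_sg (x : ZMod 2) : 0 ≤ 1 + ((sg x : ℤ) : ℝ) := by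
  have h : ∀ x : ZMod 2, (-1 : ℤ) ≤ sg x := by decide
  have h1 : ((-1 : ℤ) : ℝ) ≤ ((sg x : ℤ) : ℝ) := by exact_mod_cast h x
  push_cast at h1
  linarith

private theorem alocn_sg0 : 1 + ((sg (0 : ZMod 2) : ℤ) : ℝ) = 2 := by
  have h : sg (0 : ZMod 2) = 1 := by decide
  rw [h]
  norm_num

theorem stPosX : StPosX X := by
  refine ⟨fun γ p => ?_, fun c x b => ?_⟩
  · unfold HX.fpX
    split_ifs with h
    · exact mul_nonneg (alocn_sg _) (alocn_sg _)
    · exact alocn_sg _
  · unfold HX.faX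
    exact alocn_sg _

open Classical in
theorem stLocN : StLocN X := by
  intro x g hok γ hγ c hc hhs
  obtain ⟨-, hxM, hxg⟩ := hok
  have hO := h_repO Fr
  have hQ := h_repQ Fr
  have h1 := h_ord X
  have hM := h_qm X
  have hI := h_qi X
  set G : Lˣ := HX.out γ with hG
  set t : kˣ := rep Fr (c.1, c.2 ∪ x) with ht
  set D : Lˣ := X.δ * Units.map (algebraMap k L : k →* L) t with hD
  have hDval : (D : L) = (X.δ : L) * algebraMap k L (t : k) := rfl
  have ht0 : algebraMap k L (t : k) ≠ 0 := (Units.map (algebraMap k L : k →* L) t).ne_zero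
  have hhs' : ∀ Q : HeightOneSpectrum (𝓞 L), hs Q (G : L) (D : L) = 0 := by
    intro Q
    rw [hDval]
    exact hhs Q
  have ht1 : ∀ p, ord (Fr.pl p) (t : k) = if p ∈ c.2 ∪ x then 1 else 0 := by
    intro p
    have h := hO (c.1, c.2 ∪ x) p
    rw [ht]
    convert h using 2
  have hDo : ∀ p, p ∉ X.M → ∀ Q, Over (Fr.pl p) Q →
      ord Q (D : L) = ord Q (X.δ : L) + ord (Fr.pl p) (t : k) := by
    intro p hp Q hQp
    rw [hDval, ord_mul Q X.δ.ne_zero ht0, (h1 p Q hp hQp).2]
  have hpc : ∀ p, p ∉ X.M → p ∉ c.2 := fun p hp h => hp (hc h)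
  have hGx : ∀ p ∈ x, ∀ Q, Over (Fr.pl p) Q → Even (ord Q (G : L)) := by
    intro p hp Q hQp
    by_contra h
    rw [Int.not_even_iff_odd] at h
    have hpM : p ∉ X.M := Finset.disjoint_left.1 hxM hp
    obtain ⟨b, hb, hbQ⟩ := (hγ Q ⟨p, hpM, hQp⟩).1 h
    subst hbQ
    have h2 := X.shX_eq b hQp
    exact Finset.disjoint_left.1 hxg hp (h2 ▸ Finset.mem_image_of_mem _ hb)
  have hshg : ∀ b ∈ g, X.shX b ∉ x := fun b hb h =>
    Finset.disjoint_left.1 hxg h (Finset.mem_image_of_mem _ hb)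
  have vx : ∀ p ∈ x, ∀ Q, Over (Fr.pl p) Q → qr (G : L) Q = 0 := by
    intro p hp Q hQp
    have hpM : p ∉ X.M := Finset.disjoint_left.1 hxM hp
    have h2 := (h1 p Q hpM hQp).1
    have h3 : Odd (ord Q (D : L)) := by
      rw [hDo p hpM Q hQp, ht1, if_pos (Finset.mem_union_right _ hp)]
      exact (X.evd p hpM Q hQp).add_one
    have h4 := hhs' Q
    rw [hs_even h2 G.ne_zero D.ne_zero (hGx p hp Q hQp), HP.cast_odd h3, one_mul] at h4
    exact h4
  have vg : ∀ b ∈ g, qr (X.δ : L) b.1 + Fr.sys.ex (x ∪ c.2) c.1 (X.shX b) = 0 := by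
    intro b hb
    have hpM := X.shX_not b
    have hov := X.shX_over b
    have hpx := hshg b hb
    have h2 := (h1 _ _ hpM hov).1
    have hodd : Odd (ord b.1 (G : L)) := (hγ b.1 b.2.1).2 ⟨b, hb, rfl⟩
    have hte : ord (Fr.pl (X.shX b)) (t : k) = 0 := by
      rw [ht1, if_neg]
      rw [Finset.mem_union, not_or]
      exact ⟨hpc _ hpM, hpx⟩
    have e0 : Even (ord (Fr.pl (X.shX b)) (t : k)) := by
      rw [hte]
      exact Even.zero
    have e1 : Even (ord b.1 (algebraMap k L (t : k))) := by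
      rw [(h1 _ _ hpM hov).2]
      exact e0
    have hDe : Even (ord b.1 (D : L)) := by
      rw [hDo _ hpM _ hov, hte, add_zero]
      exact X.evd _ hpM _ hov
    have h4 := hhs' b.1
    rw [hs_symm b.1 G.ne_zero D.ne_zero, hs_even h2 D.ne_zero G.ne_zero hDe,
      HP.cast_odd hodd, one_mul, hDval, qr_mul h2 X.δ.ne_zero ht0 (X.evd _ hpM _ hov) e1,
      hM t b e0] at h4
    rw [← h4]
    congr 1
    have h3 : X.shX b ∉ ((c.1, c.2 ∪ x) : El Fr.sys).2 := by
      show X.shX b ∉ c.2 ∪ x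
      rw [Finset.mem_union, not_or]
      exact ⟨hpc _ hpM, hpx⟩
    have h5 := hQ (c.1, c.2 ∪ x) (X.shX b) h3
    rw [Finset.union_comm x c.2]
    exact h5.symm
  congr 1
  · refine Finset.prod_congr rfl fun p hp => ?_
    have hpM : p ∉ X.M := Finset.disjoint_left.1 hxM hp
    unfold HX.fpX
    split_ifs with h
    · have hsp := h.choose_spec
      have ho1 : Over (Fr.pl p) h.choose.1 := by
        have := X.shX_over h.choose
        rwa [hsp] at this
      have ho2 : Over (Fr.pl p) (X.cjX h.choose).1 := ho1.cj X.sig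
      rw [vx p hp _ ho1, vx p hp _ ho2, alocn_sg0]
      norm_num
    · obtain ⟨Q, hQp⟩ := exists_over (L := L) (Fr.pl p)
      have hcj : cj X.sig Q = Q := by
        by_contra hne
        exact h ⟨⟨Q, ⟨p, hpM, hQp⟩, hne⟩, X.shX_eq _ hQp⟩
      have h5 := hI G p Q hpM hQp hcj (hGx p hp Q hQp)
      rw [vx p hp Q hQp] at h5
      rw [h5, alocn_sg0]
  · rw [Finset.prod_congr rfl (g := fun _ => (2 : ℝ)), Finset.prod_const]
    intro b hb
    unfold HX.faX
    rw [vg b hb, alocn_sg0]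

end

end Pool.Agent.H32.MQ
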