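import Pool.Agent.H32.MQ.AStm
import Pool.Agent.H32.MQ.HQr

/-!
# Malle's conjecture for 8T28 and 8T29 over number fields, block A: the norms of the primes
-/

set_option autoImplicit false
set_option linter.unusedSectionVars false

open scoped BigOperators
open NumberField IsDedekindDomain

namespace Pool.Agent.H32.MQ

open Pool.Agent.H98.MF

/-- the norms of the primes -/
theorem stNrm {k : Type} [Field k] [NumberField k] {Fr : Frm k} {L : Type} [Field L]
    [NumberField L] [Algebra k L] (X : HX Fr L) : StNrm X := by
  constructor
  · intro b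
    have h := over_absNorm (X.shX_over b)
    rw [hq_deg X b, pow_one] at h
    exact h
  · intro p Q hp hQ hcj
    have hu : ∀ Q' : HeightOneSpectrum (𝓞 L), Over (Fr.pl p) Q' → Q' = Q := by
      intro Q' h'
      rcases Pool.Agent.H98.MF.B.qe_over X.qe X.sig X.sig_α hQ h' with h | h
      · exact h
      · rw [h, hcj]
    have hef := ef_of_unique X.qe.deg hQ hu
    have he : (Fr.pl p).asIdeal.ramificationIdx' Q.asIdeal = 1 := by
      obtain ⟨π, hπ⟩ := exists_unif (Fr.pl p)
      have h1 := (h_ord X p Q hp hQ).2 (π : k)
      rw [hQ.ord_map, hπ, mul_one] at h1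
      exact_mod_cast h1
    rw [he, one_mul] at hef
    have h := over_absNorm hQ
    rw [hef] at h
    exact h

end Pool.Agent.H32.MQ
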