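import Pool.Agent.H32.MQ.KUStm

/-!
# Malle's conjecture for 8T28 and 8T29 over number fields: definitions and statements of the
blocks E (Euler products) and L (fixed quadratic extension)
-/

set_option autoImplicit false

open scoped BigOperators Topology
open Filter

namespace Pool.Agent.H32.MQ

open Pool.Agent.H98.MK (sg)
open Pool.Agent.H98.MF

/-- a quadratic extension without exceptional primes, with the system `SF` of the extension -/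
structure Qf (S SF : Sys) where
  /-- the abstract quadratic extension -/
  Q : Qd S
  law : Q.Law
  M_eq : Q.M = ∅
  /-- the primes of degree one as primes of `SF` -/
  io : Q.P → SF.P
  io_inj : Function.Injective io
  N_io : ∀ a, SF.N (io a) = S.N (Q.sh a)
  /-- the primes above a prime of `k` -/
  up : S.P → Finset SF.P
  up_s : ∀ a, up (Q.sh a) = {io a, io (Q.cj a)}
  up_i : ∀ p, (∀ a, Q.sh a ≠ p) → ∃ P, up p = {P} ∧ SF.N P = S.N p ^ 2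
  up_c : ∀ P, ∃ p, P ∈ up p
  up_d : ∀ P p p', P ∈ up p → P ∈ up p' → p = p'
  /-- the class with unit coordinates `a` and primes `g` -/
  el : SF.T → Finset Q.P → Q.G
  el_inj : ∀ a a' g g', Q.Gd g → Q.Gd g' → el a g = el a' g' → a = a' ∧ g = g'
  B_eq : ∀ g, Q.Gd g → Q.B g = Finset.univ.image fun a => el a g
  /-- unit coordinates and type of a class -/
  co : Q.G → SF.T × SF.T
  co_el : ∀ a g, Q.Gd g → co (el a g) = (a, SF.tys (g.image io))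
  sy_el : ∀ a g b, Q.Gd g → Q.sh b ∉ Q.shd g → Q.sy (el a g) b = SF.ex (g.image io) a (io b)
  ns_el : ∀ a g p, Q.Gd g → p ∉ Q.shd g →
    Q.ns (el a g) p = ∑ P ∈ up p, SF.ex (g.image io) a P
  /-- the unit coordinates of `δ₀` -/
  cd : SF.T
  d0_eq : ∀ b, Q.d0 b = cd ⬝ᵥ SF.ty (io b)
  /-- the unit coordinates in `F` of a class of `k` -/
  em : El S → SF.T
  em_s : ∀ (e : El S) (b : Q.P), Q.sh b ∉ e.2 →
    S.ex e.2 e.1 (Q.sh b) = SF.ex (e.2.biUnion up) (em e) (io b)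
  em_i : ∀ (e : El S) (p : S.P) (P : SF.P), (∀ a, Q.sh a ≠ p) → p ∉ e.2 → P ∈ up p →
    SF.ex (e.2.biUnion up) (em e) P = 0
  /-- the product of the Hilbert symbols at `S` as a function of the classes -/
  hS : SF.T → SF.T → S.T → S.T → ZMod 2
  hM_eq : ∀ a g c x, Q.Gd g → Q.hM (el a g) (c, ∅) (Q.lab x) =
    hS a (SF.tys (g.image io)) c (S.tys x)

/-! ### block E -/

section

variable {S SF : Sys} (F : Qf S SF)

open Classical in
/-- admissible tuples: pairwise disjoint shadows, disjoint from `z`, good sets -/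
def okE {u v : ℕ} (z : Finset S.P) (w : (Fin u → Finset S.P) × (Fin v → Finset F.Q.P)) : Prop :=
  (∀ i, Disjoint (w.1 i) z) ∧ (∀ j, Disjoint (F.Q.shd (w.2 j)) z) ∧ (∀ j, F.Q.Gd (w.2 j)) ∧
    (∀ i i', i ≠ i' → Disjoint (w.1 i) (w.1 i')) ∧
    (∀ j j', j ≠ j' → Disjoint (F.Q.shd (w.2 j)) (F.Q.shd (w.2 j'))) ∧
    ∀ i j, Disjoint (w.1 i) (F.Q.shd (w.2 j))

open Classical in
/-- the term of a tuple with characters `y` (over `k`) and `Y` (over `F`) -/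
noncomputable def tE {u v : ℕ} (y : Fin u → El S) (Y : Fin v → El SF) (z : Finset S.P) (s : ℝ)
    (w : (Fin u → Finset S.P) × (Fin v → Finset F.Q.P)) : ℝ :=
  if okE F z w then
    (∏ i, ((sg (S.JJ (w.1 i) (y i).2 + (y i).1 ⬝ᵥ S.tys (w.1 i)) : ℤ) : ℝ) * pw s (w.1 i)) *
      ∏ j, ((sg (SF.JJ ((w.2 j).image F.io) (Y j).2 +
        (Y j).1 ⬝ᵥ SF.tys ((w.2 j).image F.io)) : ℤ) : ℝ) * pw s (F.Q.shd (w.2 j)) else 0

/-- the sum over all tuples -/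
noncomputable def ES {u v : ℕ} (y : Fin u → El S) (Y : Fin v → El SF) (z : Finset S.P) (s : ℝ) :
    ℝ := ∑' w : (Fin u → Finset S.P) × (Fin v → Finset F.Q.P), tE F y Y z s w

open Classical in
/-- the number of trivial characters -/
noncomputable def nfr {u v : ℕ} (y : Fin u → El S) (Y : Fin v → El SF) : ℕ :=
  (Finset.univ.filter fun i => y i = (0, ∅)).card +
    (Finset.univ.filter fun j => Y j = (0, ∅)).card

end

/-- absolute convergence -/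
def SES : Prop := ∀ (S SF : Sys) (F : Qf S SF) (u v : ℕ) (y : Fin u → El S) (Y : Fin v → El SF)
  (z : Finset S.P) (s : ℝ), 1 < s → Summable fun w => tE F y Y z s w

/-- the bound for the Euler products -/
def SEB : Prop := ∀ (S SF : Sys) (F : Qf S SF) (u v : ℕ) (y : Fin u → El S) (Y : Fin v → El SF)
  (z : Finset S.P), (∀ i, (y i).2 ⊆ z) → (∀ j, (Y j).2 ⊆ z.biUnion F.up) → ∃ C : ℝ, ∀ σ : ℝ,
    0 < σ → σ ≤ 1 → |ES F y Y z (1 + σ)| ≤ C * σ ^ (-(nfr y Y : ℝ))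

/-- the main constant -/
def SEC : Prop := ∀ (S SF : Sys) (F : Qf S SF), ∃ c0 : ℝ, 0 < c0 ∧
  Tendsto (fun σ : ℝ => σ ^ 2 *
    ES F (fun _ : Fin 1 => ((0 : S.T), (∅ : Finset S.P)))
      (fun _ : Fin 1 => ((0 : SF.T), (∅ : Finset SF.P))) ∅ (1 + σ)) (𝓝[>] 0) (𝓝 c0)

/-! ### block L -/

section

variable {S SF : Sys} (F : Qf S SF)

open Classical in
/-- the function of the classes, zero for the units of square norm -/
noncomputable def thc (θ : SF.T → SF.T → S.T → S.T → ℝ) : F.Q.G → El S → El S → ℝ :=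
  fun γ c l => if (∃ a, γ = F.el a ∅) ∧ F.Q.nu γ = (0, ∅) then 0
    else θ (F.co γ).1 (F.co γ).2 c.1 l.1

/-- agreement of configurations outside a set of variables -/
def Ag (A : Finset (Fin 5)) (b x : Cf F.Q) : Prop :=
  (0 ∉ A → x.q0 = b.q0) ∧ (1 ∉ A → x.q12 = b.q12) ∧ (2 ∉ A → x.qq = b.qq) ∧
    (3 ∉ A → x.g0 = b.g0) ∧ (4 ∉ A → x.g1 = b.g1)

open Classical in
/-- the sum over the variables in `A`, the others fixed -/
noncomputable def WA (θ : SF.T → SF.T → S.T → S.T → ℝ) (A : Finset (Fin 5)) (b : Cf F.Q)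
    (s : ℝ) : ℝ :=
  ∑' x : Cf F.Q, if Ag F A b x then (Wp F.Q s).val x * x.tm (thc F θ) else 0

open Classical in
/-- the Dirichlet series of the pairs with `t` not a unit -/
noncomputable def D1 (θ : SF.T → SF.T → S.T → S.T → ℝ) (s : ℝ) : ℝ :=
  ∑' z : Finset S.P × Finset F.Q.P, if z.1 = ∅ then 0
    else F.Q.tp (thc F θ) z.1 z.2 * ((S.nm z.1 : ℝ) * (F.Q.nq z.2 : ℝ)) ^ (-s)

open Classical in
/-- the Dirichlet series of the pairs with `t` a unit and `δ₀ t` not a square -/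
noncomputable def D2 (θ : SF.T → SF.T → S.T → S.T → ℝ) (s : ℝ) : ℝ :=
  ∑' g : Finset F.Q.P, (if F.Q.Gd g then ∑ γ ∈ F.Q.B g, ∑ c : S.T,
    (if F.cd + F.em (c, ∅) = 0 then 0
      else thc F θ γ (c, ∅) (0, ∅) * ∏ a ∈ g, F.Q.fa (c, ∅) ∅ a) else 0) * pw s (F.Q.shd g)

open Classical in
/-- the large variables -/
noncomputable def lar (J : ℕ) (x : Cf F.Q) : Finset (Fin 5) := Finset.univ.filter fun i => J < x.lv i

open Classical in
/-- the configurations with given large variables and `t` not a unit -/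
noncomputable def VA (θ : SF.T → SF.T → S.T → S.T → ℝ) (J : ℕ) (A : Finset (Fin 5))
    (s : ℝ) : ℝ :=
  ∑' x : Cf F.Q, if lar F J x = A ∧ x.q ≠ ∅ then (Wp F.Q s).val x * x.tm (thc F θ) else 0

end

/-- bounded functions -/
def Bdd4 {A B : Type} (θ : A → A → B → B → ℝ) : Prop := ∀ a k c l, |θ a k c l| ≤ 1

/-- the expansion of `D1` -/
def SLD : Prop := ∀ (S SF : Sys) (F : Qf S SF) (θ : SF.T → SF.T → S.T → S.T → ℝ) (s : ℝ),
  Bdd4 θ → 1 < s → D1 F θ s =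
    ∑' x : Cf F.Q, open Classical in (if x.q = ∅ then 0 else (Wp F.Q s).val x * x.tm (thc F θ))

/-- the sign of a term as a function of all variables -/
def SLE : Prop := ∀ (S SF : Sys) (F : Qf S SF) (x : Cf F.Q) (a : SF.T) (c : S.T), x.Ok →
  x.E (F.el a x.g) (c, ∅) =
    (SF.JJ (x.q12.biUnion F.up) (x.g0.image F.io) + SF.JJ (x.q12.biUnion F.up) (x.g1.image F.io)
      + a ⬝ᵥ SF.tys (x.q12.biUnion F.up)) +
    (SF.JJ (x.qq.image F.io) (x.g0.image F.io) + SF.JJ (x.qq.image F.io) (x.g1.image F.io)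
      + a ⬝ᵥ SF.tys (x.qq.image F.io)) +
    (F.cd ⬝ᵥ SF.tys (x.g1.image F.io) + S.JJ (F.Q.shd x.g1) x.q0 + S.JJ (F.Q.shd x.g1) x.q12 +
      S.JJ (F.Q.shd x.g1) (F.Q.shd x.qq) + c ⬝ᵥ S.tys (F.Q.shd x.g1))

/-- at most one variable free -/
def SLW1 : Prop := ∀ (S SF : Sys) (F : Qf S SF) (A : Finset (Fin 5)) (b : Cf F.Q), A.card ≤ 1 →
  ∃ C : ℝ, ∀ (θ : SF.T → SF.T → S.T → S.T → ℝ) (σ : ℝ), Bdd4 θ → 0 < σ → σ ≤ 1 →
    |WA F θ A b (1 + σ)| ≤ C * σ ^ (-(1 : ℝ))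

/-- the variables `g0`, `g1` -/
def SLW34 : Prop := ∀ (S SF : Sys) (F : Qf S SF) (b : Cf F.Q), b.q ≠ ∅ →
  ∃ C : ℝ, ∀ (θ : SF.T → SF.T → S.T → S.T → ℝ) (σ : ℝ), Bdd4 θ → 0 < σ → σ ≤ 1 →
    |WA F θ {3, 4} b (1 + σ)| ≤ C * σ ^ (-(1 : ℝ))

/-- the variables `q0`, `q12`, `qq` -/
def SLW012 : Prop := ∀ (S SF : Sys) (F : Qf S SF) (A : Finset (Fin 5)) (b : Cf F.Q),
  A ⊆ {0, 1, 2} →
  ∃ C : ℝ, ∀ (θ : SF.T → SF.T → S.T → S.T → ℝ) (σ : ℝ), Bdd4 θ → 0 < σ → σ ≤ 1 →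
    |WA F θ A b (1 + σ)| ≤ C * σ ^ (-(1 : ℝ))

/-- the variables `q0`, `g0`, the others not all empty -/
def SLW03 : Prop := ∀ (S SF : Sys) (F : Qf S SF) (b : Cf F.Q),
  (b.q12 ≠ ∅ ∨ b.qq ≠ ∅ ∨ b.g1 ≠ ∅) →
  ∃ C : ℝ, ∀ (θ : SF.T → SF.T → S.T → S.T → ℝ) (σ : ℝ), Bdd4 θ → 0 < σ → σ ≤ 1 →
    |WA F θ {0, 3} b (1 + σ)| ≤ C * σ ^ (-(1 : ℝ))

/-- the limit value of the main term -/
noncomputable def mv {S SF : Sys} (θ : SF.T → SF.T → S.T → S.T → ℝ) : ℝ :=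
  (1 / 2 ^ (SF.m + S.m)) * ∑ a, ∑ k, ∑ c, ∑ l, θ a k c l

/-- the variables `q0`, `g0`, the others empty -/
def SLM03 : Prop := ∀ (S SF : Sys) (F : Qf S SF) (c0 : ℝ),
  Tendsto (fun σ : ℝ => σ ^ 2 *
    ES F (fun _ : Fin 1 => ((0 : S.T), (∅ : Finset S.P)))
      (fun _ : Fin 1 => ((0 : SF.T), (∅ : Finset SF.P))) ∅ (1 + σ)) (𝓝[>] 0) (𝓝 c0) →
  ∀ (θ : SF.T → SF.T → S.T → S.T → ℝ), Bdd4 θ →
    Tendsto (fun σ : ℝ => σ ^ 2 * WA F θ {0, 3} ⟨∅, ∅, ∅, ∅, ∅⟩ (1 + σ)) (𝓝[>] 0)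
      (𝓝 (c0 * mv θ))

/-- the mirror image of the function -/
noncomputable def mth {S SF : Sys} (F : Qf S SF) (θ : SF.T → SF.T → S.T → S.T → ℝ) :
    SF.T → SF.T → S.T → S.T → ℝ := fun a k c l => θ a k c l * ((sg (F.hS a k c l) : ℤ) : ℝ)

open Classical in
/-- the mirror image of a configuration -/
noncomputable def mc {S SF : Sys} (F : Qf S SF) (x : Cf F.Q) : Cf F.Q :=
  ⟨x.q12, x.q0, x.qq.image F.Q.cj, x.g1, x.g0⟩

/-- the symmetry for the pair `q12`, `g1` -/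
def SLMir : Prop := ∀ (S SF : Sys) (F : Qf S SF) (θ : SF.T → SF.T → S.T → S.T → ℝ) (b : Cf F.Q)
  (s : ℝ), Bdd4 θ → 1 < s → WA F θ {1, 4} b s = WA F (mth F θ) {0, 3} (mc F b) s

/-- the configurations with large variables `A` reduced to sums over `A` -/
def SLV : Prop := ∀ (S SF : Sys) (F : Qf S SF) (c0 : ℝ),
  Tendsto (fun σ : ℝ => σ ^ 2 *
    ES F (fun _ : Fin 1 => ((0 : S.T), (∅ : Finset S.P)))
      (fun _ : Fin 1 => ((0 : SF.T), (∅ : Finset SF.P))) ∅ (1 + σ)) (𝓝[>] 0) (𝓝 c0) →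
  ∀ (θ : SF.T → SF.T → S.T → S.T → ℝ) (J : ℕ) (A : Finset (Fin 5)), Bdd4 θ →
    (∀ i ∈ A, ∀ k ∈ A, ¬ Qd.Lk i k) →
    Tendsto (fun σ : ℝ => σ ^ 2 * VA F θ J A (1 + σ)) (𝓝[>] 0)
      (𝓝 (if A = {0, 3} then c0 * mv θ else if A = {1, 4} then c0 * mv (mth F θ) else 0))

/-- (L'), main part -/
def SL1 : Prop := ∀ (S SF : Sys) (F : Qf S SF) (C0 A0 η0 c0 : ℝ), 0 < η0 → F.Q.BF C0 A0 η0 →
  Tendsto (fun σ : ℝ => σ ^ 2 *
    ES F (fun _ : Fin 1 => ((0 : S.T), (∅ : Finset S.P)))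
      (fun _ : Fin 1 => ((0 : SF.T), (∅ : Finset SF.P))) ∅ (1 + σ)) (𝓝[>] 0) (𝓝 c0) →
  ∀ (θ : SF.T → SF.T → S.T → S.T → ℝ), Bdd4 θ →
    Tendsto (fun σ : ℝ => σ ^ 2 * D1 F θ (1 + σ)) (𝓝[>] 0)
      (𝓝 (c0 * (mv θ + mv (mth F θ))))

/-- (L'), the part with `t` a unit -/
def SL2 : Prop := ∀ (S SF : Sys) (F : Qf S SF), ∃ C : ℝ, ∀ (θ : SF.T → SF.T → S.T → S.T → ℝ)
  (σ : ℝ), Bdd4 θ → 0 < σ → σ ≤ 1 → |D2 F θ (1 + σ)| ≤ C * σ ^ (-(1 : ℝ))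

end Pool.Agent.H32.MQ
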