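import Pool.Agent.H32.MQ.HMain
import Pool.Agent.H32.MQ.LStm

/-!
# Malle's conjecture for 8T28 and 8T29 over number fields: the structure `Qf` of a quadratic
extension without exceptional primes and of compatible frames
-/

set_option autoImplicit false

open scoped BigOperators
open NumberField IsDedekindDomain

namespace Pool.Agent.H32.MQ

open Pool.Agent.H98.MF

/-! ### coordinates -/

section

variable {k : Type} [Field k] [NumberField k] (Fr : Frm k)

theorem co_congr {x y : kˣ} (h : IsSquare (x * y)) : co Fr x = co Fr y := by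
  apply h_coU Fr
  obtain ⟨a, ha⟩ := h_co Fr x
  obtain ⟨b, hb⟩ := h_co Fr y
  obtain ⟨c, hc⟩ := h
  refine ⟨a * b * c⁻¹, ?_⟩
  have h1 : rep Fr (co Fr x) * rep Fr (co Fr y) = (x * rep Fr (co Fr x)) *
      (y * rep Fr (co Fr y)) * (x * y)⁻¹ := by
    rw [mul_mul_mul_comm x, mul_comm (x * y), mul_assoc, mul_inv_cancel, mul_one]
  rw [h1, ha, hb, hc, mul_inv]
  simp only [mul_assoc, mul_left_comm, mul_comm]

theorem co_rep (c : El Fr.sys) : co Fr (rep Fr c) = c :=
  (h_coU Fr _ _ (h_co Fr (rep Fr c))).symm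

end

/-! ### classes -/

section

variable {L : Type} [Field L]

theorem cls_eq {x y : Lˣ} : (x : HX.GX L) = (y : HX.GX L) ↔ IsSquare (x * y) := by
  rw [QuotientGroup.eq]
  constructor
  · rintro ⟨z, hz⟩
    refine ⟨x * z, ?_⟩
    have hz' : z ^ 2 = x⁻¹ * y := hz
    have h1 : y = x * z ^ 2 := by rw [hz', mul_inv_cancel_left]
    rw [h1, pow_two]
    simp only [mul_assoc, mul_left_comm]
  · rintro ⟨z, hz⟩
    refine ⟨x⁻¹ * z, ?_⟩
    show (x⁻¹ * z) ^ 2 = x⁻¹ * y
    rw [pow_two, mul_mul_mul_comm, ← hz, mul_mul_mul_comm, inv_mul_cancel, one_mul]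

theorem out_sq (x : Lˣ) : IsSquare (HX.out (x : HX.GX L) * x) := by
  obtain ⟨y, hy⟩ := HX.out_mk x
  rw [hy]
  refine ⟨x * y, ?_⟩
  rw [pow_two]
  simp only [mul_left_comm, mul_comm]

theorem mk_out (γ : HX.GX L) : ((HX.out γ : Lˣ) : HX.GX L) = γ := Quotient.out_eq γ

end

section

variable {k : Type} [Field k] [NumberField k] {Fr : Frm k} {L : Type} [Field L]
  [NumberField L] [Algebra k L] (X : HX Fr L) (FL : Frm L) (hF : Ovr Fr.S FL.S)

include hF in
/-- primes of `L` outside the frame lie over primes outside the frame -/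
theorem qf_below {Q : HeightOneSpectrum (𝓞 L)} (hQ : Q ∉ FL.S) :
    ∃ p : Fr.sys.P, Over (Fr.pl p) Q := by
  obtain ⟨P, hP⟩ : ∃ P : HeightOneSpectrum (𝓞 k), Over P Q :=
    ⟨HeightOneSpectrum.under (𝓞 k) Q, rfl⟩
  have h1 : P ∉ Fr.S := fun h => hQ ((hF Q).2 ⟨P, h, hP⟩)
  obtain ⟨p, rfl⟩ := (Fr.pl_iff P).2 h1
  exact ⟨p, hP⟩

include hF in
theorem qf_notMem {Q : HeightOneSpectrum (𝓞 L)} {p : Fr.sys.P} (h : Over (Fr.pl p) Q) :
    Q ∉ FL.S := by
  intro hQ
  obtain ⟨P, hP, hPQ⟩ := (hF Q).1 hQ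
  have h1 : Fr.pl p = P := HeightOneSpectrum.ext (h.symm.trans hPQ)
  exact hb_notMem Fr p (h1 ▸ hP)

include hF in
theorem ex_io (b : X.PX) : ∃ P : FL.sys.P, FL.pl P = b.1 :=
  (FL.pl_iff _).2 (qf_notMem FL hF (X.shX_over b))

/-- the primes of degree one as primes of the frame of `L` -/
noncomputable def io (b : X.PX) : FL.sys.P := (ex_io X FL hF b).choose

theorem pl_io (b : X.PX) : FL.pl (io X FL hF b) = b.1 := (ex_io X FL hF b).choose_spec

theorem io_inj : Function.Injective (io X FL hF) := by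
  intro b b' h
  apply Subtype.ext
  rw [← pl_io X FL hF b, ← pl_io X FL hF b', h]

theorem up_fin (p : Fr.sys.P) : {P : FL.sys.P | Over (Fr.pl p) (FL.pl P)}.Finite :=
  (B.c3c_above_finite (L := L) (Fr.pl p)).preimage FL.pl_inj.injOn

/-- the primes above a prime of `k` -/
noncomputable def up (Fr : Frm k) (p : Fr.sys.P) : Finset FL.sys.P := (up_fin FL p).toFinset

theorem mem_up {p : Fr.sys.P} {P : FL.sys.P} : P ∈ up FL Fr p ↔ Over (Fr.pl p) (FL.pl P) := by
  unfold up
  rw [Set.Finite.mem_toFinset]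
  rfl

open Classical in
/-- the class with given coordinates -/
noncomputable def elX (a : FL.sys.T) (g : Finset X.PX) : HX.GX L :=
  ((rep FL (a, g.image (io X FL hF)) : Lˣ) : HX.GX L)

/-- unit coordinates and type of a class -/
noncomputable def coX (γ : HX.GX L) : FL.sys.T × FL.sys.T :=
  ((co FL (HX.out γ)).1, FL.sys.tys (co FL (HX.out γ)).2)

open Classical in
theorem co_out_el (a : FL.sys.T) (g : Finset X.PX) :
    co FL (HX.out (elX X FL hF a g)) = (a, g.image (io X FL hF)) := by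
  unfold elX
  rw [co_congr FL (out_sq _), co_rep]

variable (hM : X.M = ∅)

include hM hF in
theorem qf_Out {Q : HeightOneSpectrum (𝓞 L)} : X.Out Q ↔ Q ∉ FL.S := by
  constructor
  · rintro ⟨p, -, hp⟩
    exact qf_notMem FL hF hp
  · intro h
    obtain ⟨p, hp⟩ := qf_below FL hF h
    exact ⟨p, by rw [hM]; exact Finset.notMem_empty p, hp⟩

theorem qf_p (hM : X.M = ∅) (p : Fr.sys.P) : p ∉ X.M := by
  rw [hM]
  exact Finset.notMem_empty p

theorem up_s (b : X.PX) : up FL Fr (X.shX b) = {io X FL hF b, io X FL hF (X.cjX b)} := by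
  ext P
  rw [mem_up, Finset.mem_insert, Finset.mem_singleton]
  constructor
  · intro h
    rcases B.qe_over X.qe X.sig X.sig_α (X.shX_over b) h with h1 | h1
    · left
      apply FL.pl_inj
      rw [pl_io, h1]
    · right
      apply FL.pl_inj
      rw [pl_io, h1]
      rfl
  · rintro (h | h)
    · rw [h, pl_io]
      exact X.shX_over b
    · rw [h, pl_io]
      exact (X.shX_over b).cj X.sig

include hM in
/-- primes of degree two -/
theorem qf_inert {p : Fr.sys.P} (h : ∀ b : X.PX, X.shX b ≠ p) {Q : HeightOneSpectrum (𝓞 L)}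
    (hQ : Over (Fr.pl p) Q) : cj X.sig Q = Q := by
  by_contra hc
  exact h ⟨Q, ⟨p, qf_p X hM p, hQ⟩, hc⟩ (X.shX_eq _ hQ)

include hM hF in
theorem up_i (p : Fr.sys.P) (h : ∀ b : X.PX, X.shX b ≠ p) :
    ∃ P, up FL Fr p = {P} ∧ FL.sys.N P = Fr.sys.N p ^ 2 := by
  obtain ⟨Q, hQ⟩ := exists_over (L := L) (Fr.pl p)
  obtain ⟨P, hP⟩ := (FL.pl_iff _).2 (qf_notMem FL hF hQ)
  have hcj := qf_inert X hM h hQ
  have hu : ∀ Q' : HeightOneSpectrum (𝓞 L), Over (Fr.pl p) Q' → Q' = Q := by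
    intro Q' h'
    rcases B.qe_over X.qe X.sig X.sig_α hQ h' with h1 | h1
    · exact h1
    · rw [h1, hcj]
  refine ⟨P, ?_, ?_⟩
  · ext P'
    rw [mem_up, Finset.mem_singleton]
    constructor
    · intro h1
      apply FL.pl_inj
      rw [hP, hu _ h1]
    · rintro rfl
      rw [hP]
      exact hQ
  · have h1 := ef_of_unique X.qe.deg hQ hu
    have h2 := unram_of_even X.qe.sq (B.qe_ns X.qe) X.qe.deg X.sig X.sig_α X.sig_all hQ
      (hb_two Fr p) (X.unr p (qf_p X hM p))
    rw [h2, one_mul] at h1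
    rw [FL.N_eq, Fr.N_eq, hP]
    unfold nrm
    rw [over_absNorm hQ, h1]

theorem N_ioX (b : X.PX) : FL.sys.N (io X FL hF b) = Fr.sys.N (X.shX b) := by
  have h1 := ef_of_split X.qe.deg (X.shX_over b) ((X.shX_over b).cj X.sig) b.2.2
  rw [FL.N_eq, Fr.N_eq, pl_io]
  unfold nrm
  rw [over_absNorm (X.shX_over b), h1.2, pow_one]

include hF in
theorem up_c (P : FL.sys.P) : ∃ p, P ∈ up FL Fr p := by
  obtain ⟨p, hp⟩ := qf_below (Fr := Fr) FL hF (hb_notMem FL P)
  exact ⟨p, (mem_up FL).2 hp⟩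

theorem up_d (P : FL.sys.P) (p p' : Fr.sys.P) (h : P ∈ up FL Fr p) (h' : P ∈ up FL Fr p') :
    p = p' := HX.over_inj ((mem_up FL).1 h) ((mem_up FL).1 h')

open Classical in
theorem el_injX (a a' : FL.sys.T) (g g' : Finset X.PX)
    (h : elX X FL hF a g = elX X FL hF a' g') : a = a' ∧ g = g' := by
  have h1 := co_out_el X FL hF a g
  rw [h, co_out_el] at h1
  refine ⟨(congrArg Prod.fst h1).symm, ?_⟩
  exact (Finset.image_injective (io_inj X FL hF) (congrArg Prod.snd h1)).symm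

open Classical in
/-- parity of the exponents of a class -/
theorem odd_el (a : FL.sys.T) (g : Finset X.PX) (P : FL.sys.P) :
    Odd (ord (FL.pl P) ((HX.out (elX X FL hF a g) : Lˣ) : L)) ↔ P ∈ g.image (io X FL hF) := by
  rw [← mem_odp]
  have h1 : (co FL (HX.out (elX X FL hF a g))).2 = g.image (io X FL hF) := by
    rw [co_out_el]
  rw [← h1]
  rfl

include hM in
open Classical in
theorem mem_BX (g : Finset X.PX) (γ : HX.GX L) :
    γ ∈ X.BX g ↔ ∃ a, elX X FL hF a g = γ := by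
  rw [hi_mem X (h_cardB X)]
  constructor
  · intro hγ
    refine ⟨(co FL (HX.out γ)).1, ?_⟩
    have h1 : g.image (io X FL hF) = (co FL (HX.out γ)).2 := by
      ext P
      have e : P ∈ (co FL (HX.out γ)).2 ↔ P ∈ odp FL (HX.out γ) := Iff.rfl
      rw [e, mem_odp, hγ (FL.pl P) ((qf_Out X FL hF hM).2 (hb_notMem FL P)), Finset.mem_image]
      constructor
      · rintro ⟨b, hb, rfl⟩
        exact ⟨b, hb, (pl_io X FL hF b).symm⟩
      · rintro ⟨b, hb, h2⟩
        refine ⟨b, hb, FL.pl_inj ?_⟩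
        rw [pl_io, h2]
    unfold elX
    rw [h1]
    conv_rhs => rw [← mk_out γ]
    rw [cls_eq, mul_comm]
    exact h_co FL (HX.out γ)
  · rintro ⟨a, rfl⟩
    intro Q hQ
    obtain ⟨P, rfl⟩ := (FL.pl_iff Q).2 ((qf_Out X FL hF hM).1 hQ)
    rw [odd_el X FL hF a g P, Finset.mem_image]
    constructor
    · rintro ⟨b, hb, rfl⟩
      exact ⟨b, hb, (pl_io X FL hF b).symm⟩
    · rintro ⟨b, hb, h2⟩
      refine ⟨b, hb, FL.pl_inj ?_⟩
      rw [pl_io, h2]

open Classical in
/-- the symbols of a class -/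
theorem qr_el (a : FL.sys.T) (g : Finset X.PX) (P : FL.sys.P) (hP : P ∉ g.image (io X FL hF)) :
    qr ((HX.out (elX X FL hF a g) : Lˣ) : L) (FL.pl P) =
      FL.sys.ex (g.image (io X FL hF)) a P := by
  have h1 := h_repQ FL (a, g.image (io X FL hF)) P hP
  rw [← h1]
  exact hb_qr_sq (out_sq _) _

open Classical in
theorem io_notMem (g : Finset X.PX) (b : X.PX) (h : X.shX b ∉ g.image X.shX) :
    io X FL hF b ∉ g.image (io X FL hF) := by
  intro h1
  obtain ⟨b', hb', h2⟩ := Finset.mem_image.1 h1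
  apply h
  rw [← io_inj X FL hF h2]
  exact Finset.mem_image_of_mem _ hb'

include hM in
open Classical in
theorem ns_elX (a : FL.sys.T) (g : Finset X.PX) (p : Fr.sys.P) (hp : p ∉ g.image X.shX) :
    qr (HX.nrX (k := k) (HX.out (elX X FL hF a g)) : k) (Fr.pl p) =
      ∑ P ∈ up FL Fr p, FL.sys.ex (g.image (io X FL hF)) a P := by
  have hev : ∀ P : FL.sys.P, P ∉ g.image (io X FL hF) →
      Even (ord (FL.pl P) ((HX.out (elX X FL hF a g) : Lˣ) : L)) := by
    intro P hP
    rw [← Int.not_odd_iff_even, odd_el]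
    exact hP
  by_cases h : ∃ b, X.shX b = p
  · obtain ⟨b, rfl⟩ := h
    have h1 : io X FL hF b ∉ g.image (io X FL hF) := io_notMem X FL hF g b hp
    have hs : X.shX (X.cjX b) = X.shX b := X.shX_eq _ ((X.shX_over b).cj X.sig)
    have h2 : io X FL hF (X.cjX b) ∉ g.image (io X FL hF) :=
      io_notMem X FL hF g _ (by rw [hs]; exact hp)
    have hne : io X FL hF b ≠ io X FL hF (X.cjX b) := by
      intro h3
      have h4 := io_inj X FL hF h3
      exact b.2.2 (congrArg Subtype.val h4).symm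
    rw [up_s X FL hF b, Finset.sum_pair hne, ← qr_el X FL hF a g _ h1,
      ← qr_el X FL hF a g _ h2, pl_io, pl_io]
    have e1 := hev _ h1
    have e2 := hev _ h2
    rw [pl_io] at e1 e2
    exact h_qs X _ b e1 e2
  · have h' : ∀ b, X.shX b ≠ p := fun b hb => h ⟨b, hb⟩
    obtain ⟨P, hP, -⟩ := up_i X FL hF hM p h'
    have hov : Over (Fr.pl p) (FL.pl P) := (mem_up FL).1 (by rw [hP]; exact Finset.mem_singleton_self P)
    have h1 : P ∉ g.image (io X FL hF) := by
      intro h2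
      obtain ⟨b, -, rfl⟩ := Finset.mem_image.1 h2
      rw [pl_io] at hov
      exact h' b (X.shX_eq b hov)
    rw [hP, Finset.sum_singleton, ← qr_el X FL hF a g P h1]
    exact h_qi X _ p _ (qf_p X hM p) hov (qf_inert X hM h' hov) (hev P h1)

include hF hM in
theorem co_δ : (co FL X.δ).2 = ∅ := by
  rw [Finset.eq_empty_iff_forall_notMem]
  intro P hP
  have h1 : P ∈ odp FL X.δ := hP
  rw [mem_odp, ← Int.not_even_iff_odd] at h1
  obtain ⟨p, hp⟩ := qf_below (Fr := Fr) FL hF (hb_notMem FL P)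
  exact h1 (X.evd p (qf_p X hM p) _ hp)

include hM in
theorem d0_eqX (b : X.PX) :
    qr (X.δ : L) b.1 = (co FL X.δ).1 ⬝ᵥ FL.sys.ty (io X FL hF b) := by
  have h1 : Even (ord (FL.pl (io X FL hF b)) (X.δ : L)) := by
    rw [pl_io]
    exact X.evd _ (X.shX_not b) _ (X.shX_over b)
  have h2 := h_qr FL X.δ _ h1
  rw [pl_io, co_δ X FL hF hM] at h2
  rw [h2]
  unfold Sys.ex
  rw [Finset.sum_empty, zero_add]

/-- the unit coordinates in `L` of a class of `k` -/
noncomputable def emX (Fr : Frm k) (e : El Fr.sys) : FL.sys.T :=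
  (co FL (Units.map (algebraMap k L : k →* L) (rep Fr e))).1

include hF hM in
open Classical in
theorem co_em (e : El Fr.sys) :
    co FL (Units.map (algebraMap k L : k →* L) (rep Fr e)) =
      (emX FL Fr e, e.2.biUnion (up FL Fr)) := by
  refine Prod.ext rfl ?_
  ext P
  have h0 : P ∈ (co FL (Units.map (algebraMap k L : k →* L) (rep Fr e))).2 ↔
      P ∈ odp FL (Units.map (algebraMap k L : k →* L) (rep Fr e)) := Iff.rfl
  obtain ⟨p, hp⟩ := qf_below (Fr := Fr) FL hF (hb_notMem FL P)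
  have h1 : ord (FL.pl P) ((Units.map (algebraMap k L : k →* L) (rep Fr e) : Lˣ) : L) =
      if p ∈ e.2 then 1 else 0 := by
    rw [← h_repO Fr e p]
    exact (h_ord X p _ (qf_p X hM p) hp).2 _
  rw [h0, mem_odp, h1, Finset.mem_biUnion]
  constructor
  · intro h
    split_ifs at h with h2
    · exact ⟨p, h2, (mem_up FL).2 hp⟩
    · exact absurd h (by decide)
  · rintro ⟨p', hp', hP⟩
    have h2 : p' = p := HX.over_inj ((mem_up FL).1 hP) hp
    rw [if_pos (h2 ▸ hp')]
    decide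

include hM in
open Classical in
theorem em_sX (e : El Fr.sys) (b : X.PX) (hb : X.shX b ∉ e.2) :
    Fr.sys.ex e.2 e.1 (X.shX b) =
      FL.sys.ex (e.2.biUnion (up FL Fr)) (emX FL Fr e) (io X FL hF b) := by
  have h1 : Even (ord (Fr.pl (X.shX b)) (rep Fr e : k)) := by
    rw [h_repO Fr e, if_neg hb]
    exact Even.zero
  rw [← h_repQ Fr e _ hb, ← h_qm X _ b h1]
  have h2 : Even (ord (FL.pl (io X FL hF b))
      ((Units.map (algebraMap k L : k →* L) (rep Fr e) : Lˣ) : L)) := by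
    rw [pl_io]
    have h3 := (h_ord X _ _ (X.shX_not b) (X.shX_over b)).2 (rep Fr e : k)
    show Even (ord b.1 (algebraMap k L (rep Fr e : k)))
    rw [h3]
    exact h1
  have h3 := h_qr FL _ _ h2
  rw [pl_io, co_em X FL hF hM e] at h3
  exact h3

include hF hM in
open Classical in
theorem em_iX (e : El Fr.sys) (p : Fr.sys.P) (P : FL.sys.P) (h : ∀ b : X.PX, X.shX b ≠ p)
    (hp : p ∉ e.2) (hP : P ∈ up FL Fr p) :
    FL.sys.ex (e.2.biUnion (up FL Fr)) (emX FL Fr e) P = 0 := by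
  have hov := (mem_up FL).1 hP
  have h1 : Even (ord (Fr.pl p) (rep Fr e : k)) := by
    rw [h_repO Fr e, if_neg hp]
    exact Even.zero
  have h2 : Even (ord (FL.pl P)
      ((Units.map (algebraMap k L : k →* L) (rep Fr e) : Lˣ) : L)) := by
    show Even (ord (FL.pl P) (algebraMap k L (rep Fr e : k)))
    rw [(h_ord X p _ (qf_p X hM p) hov).2 (rep Fr e : k)]
    exact h1
  have h3 := h_qr FL _ _ h2
  rw [co_em X FL hF hM e] at h3
  have h3' : qr ((Units.map (algebraMap k L : k →* L) (rep Fr e) : Lˣ) : L) (FL.pl P) =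
      FL.sys.ex (e.2.biUnion (up FL Fr)) (emX FL Fr e) P := h3
  rw [← h3', ← h_qi X _ p _ (qf_p X hM p) hov (qf_inert X hM h hov) h2, qr_eq_zero]
  have h4 : (HX.nrX (k := k) (Units.map (algebraMap k L : k →* L) (rep Fr e)) : k) =
      (rep Fr e : k) ^ 2 := by
    show Algebra.norm k (algebraMap k L (rep Fr e : k)) = _
    rw [Algebra.norm_algebraMap, X.qe.deg]
  rw [h4]
  exact locSq_sq _ (Units.ne_zero _)

end

/-! ### the symbols at the frame -/

/-- the representative of local classes -/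
noncomputable def lrp {k : Type} [Field k] [NumberField k] (Fr : Frm k) (a κ : Fr.sys.T) : kˣ :=
  (∏ j, Fr.u j ^ (a j).val) * ∏ j, Fr.w j ^ (κ j).val

theorem rep_lrp {k : Type} [Field k] [NumberField k] (Fr : Frm k) {v : Pl k}
    (hv : v ∈ pls Fr.S) (c : El Fr.sys) :
    rep Fr c * lrp Fr c.1 (Fr.sys.tys c.2) ∈ LS v := by
  have h1 := hinv_loc Fr (B.lin k) hv c.2
  have h2 : rep Fr c * lrp Fr c.1 (Fr.sys.tys c.2) =
      (∏ j, Fr.u j ^ (c.1 j).val) ^ 2 *
        ((∏ p ∈ c.2, Fr.pi p) * ∏ j, Fr.w j ^ (Fr.sys.tys c.2 j).val) := by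
    unfold rep lrp
    rw [pow_two, mul_mul_mul_comm]
  rw [h2]
  exact mul_mem (B.sq_mem_LS v _) h1

theorem LS_map {k L : Type} [Field k] [NumberField k] [Field L] [NumberField L] [Algebra k L]
    {P : HeightOneSpectrum (𝓞 k)} {Q : HeightOneSpectrum (𝓞 L)} (h : Over P Q) {x : kˣ}
    (hx : x ∈ LS (Sum.inl P : Pl k)) :
    Units.map (algebraMap k L : k →* L) x ∈ LS (Sum.inl Q : Pl L) :=
  ((B.lin L).memLS _ _).2 (hinv_up h (((B.lin k).memLS _ _).1 hx))

theorem LS_mapR {k L : Type} [Field k] [NumberField k] [Field L] [NumberField L] [Algebra k L]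
    (φ : L →+* ℝ) {x : kˣ} (hx : x ∈ LS (Sum.inr (φ.comp (algebraMap k L)) : Pl k)) :
    Units.map (algebraMap k L : k →* L) x ∈ LS (Sum.inr φ : Pl L) :=
  ((B.lin L).memLS _ _).2 (((B.lin k).memLS _ _).1 hx)

theorem hv_congr {L : Type} [Field L] [NumberField L] {v : Pl L} {a a' b b' : Lˣ}
    (ha : a * a' ∈ LS v) (hb : b * b' ∈ LS v) : hv v (a : L) b = hv v (a' : L) b' := by
  have key : ∀ x y y' : Lˣ, y * y' ∈ LS v → hv v (x : L) y = hv v (x : L) y' := by
    intro x y y' h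
    have h1 := (B.lin L).mulR v x y y'
    rw [B.hv_of_loc (B.lin L) v x _ h] at h1
    have h2 : ∀ s t : ZMod 2, 0 = s + t → s = t := by decide
    exact h2 _ _ h1
  rw [key a b b' hb, (B.lin L).symm v a b', key b' a a' ha, (B.lin L).symm v b' a']

section

variable {k : Type} [Field k] [NumberField k] {Fr : Frm k} {L : Type} [Field L]
  [NumberField L] [Algebra k L] (X : HX Fr L) (FL : Frm L) (hF : Ovr Fr.S FL.S)
  (hM : X.M = ∅)

/-- the product of the Hilbert symbols at the frame as a function of the classes -/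
noncomputable def hSX (a κ : FL.sys.T) (c l : Fr.sys.T) : ZMod 2 :=
  ∑ v ∈ pls FL.S, hv v ((lrp FL a κ : Lˣ) : L)
    ((X.δ : L) * algebraMap k L (lrp Fr c l : k))

include hF hM in
theorem SL_eq : X.SL = FL.S := by
  classical
  ext Q
  rw [X.mem_SL, hF Q, hM]
  simp

include hF hM in
open Classical in
theorem hS_eq (a : FL.sys.T) (g : Finset X.PX) (c : Fr.sys.T) (x : Finset Fr.sys.P) :
    X.hS (elX X FL hF a g) (c, ∅) x =
      hSX X FL a (FL.sys.tys (g.image (io X FL hF))) c (Fr.sys.tys x) := by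
  unfold HX.hS hSX
  rw [SL_eq X FL hF hM]
  refine Finset.sum_congr rfl fun v hv => ?_
  have h1 : HX.out (elX X FL hF a g) * lrp FL a (FL.sys.tys (g.image (io X FL hF))) ∈ LS v := by
    obtain ⟨z, hz⟩ := HX.out_mk (rep FL (a, g.image (io X FL hF)))
    have e : HX.out (elX X FL hF a g) = rep FL (a, g.image (io X FL hF)) * z ^ 2 := hz
    rw [e, mul_right_comm]
    exact mul_mem (rep_lrp FL hv (a, g.image (io X FL hF))) (B.sq_mem_LS v z)
  have h2 : X.δ * Units.map (algebraMap k L : k →* L) (tt Fr (c, ∅) x) *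
      (X.δ * Units.map (algebraMap k L : k →* L) (lrp Fr c (Fr.sys.tys x))) ∈ LS v := by
    have e : X.δ * Units.map (algebraMap k L : k →* L) (tt Fr (c, ∅) x) *
        (X.δ * Units.map (algebraMap k L : k →* L) (lrp Fr c (Fr.sys.tys x))) =
        X.δ ^ 2 * Units.map (algebraMap k L : k →* L)
          (tt Fr (c, ∅) x * lrp Fr c (Fr.sys.tys x)) := by
      rw [mul_mul_mul_comm, ← pow_two, map_mul]
    rw [e]
    refine mul_mem (B.sq_mem_LS v _) ?_
    have e2 : tt Fr (c, ∅) x = rep Fr (c, x) := by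
      unfold tt
      rw [Finset.empty_union]
    rw [e2]
    rcases v with Q | φ
    · obtain ⟨P, hP, hPQ⟩ := (hF Q).1 (B.inl_mem_pls.1 hv)
      exact LS_map (P := P) hPQ (rep_lrp Fr (B.inl_mem_pls.2 hP) (c, x))
    · exact LS_mapR φ (rep_lrp Fr (B.inr_mem_pls _ _) (c, x))
  exact hv_congr h1 h2

open Classical in
/-- the structure `Qf` -/
noncomputable def Qfof : Qf Fr.sys FL.sys where
  Q := Qof X
  law := lawX X
  M_eq := hM
  io := io X FL hF
  io_inj := io_inj X FL hF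
  N_io := N_ioX X FL hF
  up := up FL Fr
  up_s := up_s X FL hF
  up_i := up_i X FL hF hM
  up_c := up_c FL hF
  up_d := up_d FL
  el := elX X FL hF
  el_inj a a' g g' _ _ h := el_injX X FL hF a a' g g' h
  B_eq g _ := by
    ext γ
    rw [Finset.mem_image]
    refine (mem_BX X FL hF hM g γ).trans ?_
    constructor
    · rintro ⟨a, ha⟩
      exact ⟨a, Finset.mem_univ _, ha⟩
    · rintro ⟨a, -, ha⟩
      exact ⟨a, ha⟩
  co := coX FL
  co_el a g _ := by
    unfold coX
    rw [co_out_el]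
    rfl
  sy_el a g b _ h := by
    have h1 := qr_el X FL hF a g (io X FL hF b) (io_notMem X FL hF g b h)
    rw [pl_io] at h1
    exact h1
  ns_el a g p _ h := ns_elX X FL hF hM a g p h
  cd := (co FL X.δ).1
  d0_eq := d0_eqX X FL hF hM
  em := emX FL Fr
  em_s := em_sX X FL hF hM
  em_i := em_iX X FL hF hM
  hS := hSX X FL
  hM_eq a g c x _ := by
    refine Eq.trans ?_ (hS_eq X FL hF hM a g c x)
    have hc' : ((c, ∅) : El Fr.sys).2 ⊆ X.M := Finset.empty_subset _
    have hx : Disjoint x X.M := by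
      rw [hM]
      exact Finset.disjoint_empty_right x
    have h3 : ∃ x', Disjoint x' X.M ∧ labM X.M x' = labM X.M x := ⟨x, hx, rfl⟩
    have h4 : X.hMX (elX X FL hF a g) (c, ∅) (labM X.M x) =
        X.hS (elX X FL hF a g) (c, ∅) h3.choose := by
      unfold HX.hMX
      rw [dif_pos h3]
    have h5 : X.hMX (elX X FL hF a g) (c, ∅) (labM X.M x) =
        X.hS (elX X FL hF a g) (c, ∅) x := by
      rw [h4]
      exact h_invX X _ _ _ _ hc' h3.choose_spec.1 hx h3.choose_spec.2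
    exact h5

end

end Pool.Agent.H32.MQ
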