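import Pool.Agent.H32.MQ.AStm
import Pool.Agent.H32.MQ.QfInst
import Pool.Agent.H98.MF.ChiM

/-!
# Malle's conjecture for 8T28 and 8T29 over number fields, block A: the parameters of a
homomorphism (row A10)
-/

set_option autoImplicit false

open scoped BigOperators
open NumberField IsDedekindDomain

namespace Pool.Agent.H32.MQ

open Pool.Agent.H98.MF
open Pool.Agent.H98.ML (Dt Ext norb hind)

section

variable {L : Type} [Field L] [NumberField L]

/-- characters of elements that differ by a square -/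
theorem apar_chi {x y : Lˣ} (h : IsSquare (x * y)) (σ : Gm L) :
    chi (x : L) σ = chi (y : L) σ := by
  obtain ⟨w, hw⟩ := h
  have h1 := Pool.Agent.H98.MF.M6a.chi_mul x y σ
  rw [hw, Pool.Agent.H98.MF.M6a.chi_mul] at h1
  rw [CharTwo.add_self_eq_zero] at h1
  have h2 : chi (x : L) σ + chi (y : L) σ = 0 := h1.symm
  calc chi (x : L) σ = chi (x : L) σ + chi (y : L) σ + chi (y : L) σ := by
        rw [add_assoc, CharTwo.add_self_eq_zero, add_zero]
    _ = chi (y : L) σ := by rw [h2, zero_add]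

/-- exponents of elements that differ by a square -/
theorem apar_odd {x y : Lˣ} (h : IsSquare (x * y)) (Q : HeightOneSpectrum (𝓞 L)) :
    Odd (ord Q (x : L)) ↔ Odd (ord Q (y : L)) := by
  obtain ⟨w, hw⟩ := h
  have h1 : ord Q (x : L) + ord Q (y : L) = ord Q (w : L) + ord Q (w : L) := by
    rw [← ord_mul _ x.ne_zero y.ne_zero, ← ord_mul _ w.ne_zero w.ne_zero, ← Units.val_mul, hw,
      Units.val_mul]
  rw [Int.odd_iff, Int.odd_iff]
  omega

theorem apar_cast_zero {n : ℤ} (h : ((n : ℤ) : ZMod 2) = 0) : Even n := by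
  rwa [ZMod.intCast_eq_zero_iff_even] at h

theorem apar_cast_one {n : ℤ} (h : ((n : ℤ) : ZMod 2) = 1) : Odd n := by
  rwa [ZMod.intCast_eq_one_iff_odd] at h

end

section

variable {k : Type} [Field k] [NumberField k] {L : Type} [Field L] [NumberField L] [Algebra k L]
  (E : QX k L) (Fr : Frm k)

theorem apar_sig (R : Finset (HeightOneSpectrum (𝓞 k))) : (E.toHX Fr R).sig = E.sig := rfl

/-- the first coordinate of a tame generator -/
theorem apar_v0 (RL : Rx L) (R : Finset (HeightOneSpectrum (𝓞 k))) {ρ : Gm L →* Ext D4} {γ : Lˣ}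
    {t : kˣ} (hm : E.Hm ρ γ t) {p : Fr.sys.P} (hp : p ∉ (E.toHX Fr R).M)
    {Q : HeightOneSpectrum (𝓞 L)} (hQ : Over (Fr.pl p) Q) :
    c0 (ρ (RL.tau Q)) = ((ord Q (γ : L) : ℤ) : ZMod 2) := by
  rw [hm.gam]
  exact RL.chi Q (h_ord (E.toHX Fr R) p Q hp hQ).1 γ

/-- the second coordinate of a tame generator -/
theorem apar_v1 (RL : Rx L) (R : Finset (HeightOneSpectrum (𝓞 k))) {ρ : Gm L →* Ext D4} {γ : Lˣ}
    {t : kˣ} (hm : E.Hm ρ γ t) {p : Fr.sys.P} (hp : p ∉ (E.toHX Fr R).M)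
    {Q : HeightOneSpectrum (𝓞 L)} (hQ : Over (Fr.pl p) Q) :
    c1 (ρ (RL.tau Q)) = ((ord (Fr.pl p) (t : k) : ℤ) : ZMod 2) := by
  have h1 := (h_ord (E.toHX Fr R) p Q hp hQ)
  have h2 := RL.chi Q h1.1 (E.δ * Units.map (algebraMap k L : k →* L) t)
  have h3 : ((E.δ * Units.map (algebraMap k L : k →* L) t : Lˣ) : L) =
      (E.δ : L) * algebraMap k L (t : k) := rfl
  rw [h3] at h2
  rw [hm.del, h2]
  have h4 : algebraMap k L (t : k) ≠ 0 := by simp
  rw [ord_mul Q E.δ.ne_zero h4, h1.2 (t : k)]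
  have h5 : Even (ord Q (E.δ : L)) := (E.toHX Fr R).evd p hp Q hQ
  have h6 : ((ord Q (E.δ : L) : ℤ) : ZMod 2) = 0 := by
    rwa [ZMod.intCast_eq_zero_iff_even]
  push_cast
  rw [h6, zero_add]

/-- the types of the primes outside `M` and `R` -/
theorem apar_types (RL : Rx L) (R : Finset (HeightOneSpectrum (𝓞 k))) {ρ : Gm L →* Ext D4}
    {γ : Lˣ} {t : kˣ} (hm : E.Hm ρ γ t) {p : Fr.sys.P} (hp : p ∉ (E.toHX Fr R).M)
    (ho : ¬ E.Oth RL ρ (Fr.pl p)) :
    (∀ Q : HeightOneSpectrum (𝓞 L), Over (Fr.pl p) Q → Even (ord Q (γ : L))) ∨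
      (Even (ord (Fr.pl p) (t : k)) ∧ ∃ Q : HeightOneSpectrum (𝓞 L), Over (Fr.pl p) Q ∧
        cj (E.toHX Fr R).sig Q ≠ Q ∧ Even (ord (cj (E.toHX Fr R).sig Q) (γ : L))) := by
  unfold QX.Oth at ho
  have h1 : QX.TN RL ρ (Fr.pl p) ∨ QX.TQ RL ρ (Fr.pl p) ∨ E.TG RL ρ (Fr.pl p) := by
    by_contra hc
    rw [not_or, not_or] at hc
    exact ho hc
  rcases h1 with h1 | h1 | h1
  · left
    intro Q hQ
    have h2 : c0 (ρ (RL.tau Q)) = 0 := congrFun (h1 Q hQ) (0 : Fin 2)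
    rw [apar_v0 E Fr RL R hm hp hQ] at h2
    exact apar_cast_zero h2
  · left
    intro Q hQ
    have h2 : c0 (ρ (RL.tau Q)) = 0 := congrFun (h1 Q hQ) (0 : Fin 2)
    rw [apar_v0 E Fr RL R hm hp hQ] at h2
    exact apar_cast_zero h2
  · right
    obtain ⟨Q, hQ, hne, hv, hv'⟩ := h1
    refine ⟨?_, Q, hQ, hne, ?_⟩
    · have h2 : c1 (ρ (RL.tau Q)) = 0 := congrFun hv (1 : Fin 2)
      rw [apar_v1 E Fr RL R hm hp hQ] at h2
      exact apar_cast_zero h2
    · have h2 : c0 (ρ (RL.tau (cj E.sig Q))) = 0 := congrFun hv' (0 : Fin 2)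
      rw [apar_v0 E Fr RL R hm hp (hQ.cj E.sig)] at h2
      exact apar_cast_zero h2

/-- if some exponent above `p` is odd, it is the only one and `t` has an even exponent -/
theorem apar_uni (RL : Rx L) (R : Finset (HeightOneSpectrum (𝓞 k))) {ρ : Gm L →* Ext D4}
    {γ : Lˣ} {t : kˣ} (hm : E.Hm ρ γ t) {p : Fr.sys.P} (hp : p ∉ (E.toHX Fr R).M)
    (ho : ¬ E.Oth RL ρ (Fr.pl p)) {Q : HeightOneSpectrum (𝓞 L)} (hQ : Over (Fr.pl p) Q)
    (hodd : Odd (ord Q (γ : L))) :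
    Even (ord (Fr.pl p) (t : k)) ∧ cj (E.toHX Fr R).sig Q ≠ Q ∧
      ∀ Q' : HeightOneSpectrum (𝓞 L), Over (Fr.pl p) Q' → Odd (ord Q' (γ : L)) → Q' = Q := by
  rcases apar_types E Fr RL R hm hp ho with h | ⟨h1, Q0, hQ0, hne, hev⟩
  · exact absurd (h Q hQ) (Int.not_even_iff_odd.2 hodd)
  · have h2 : ∀ Q' : HeightOneSpectrum (𝓞 L), Over (Fr.pl p) Q' → Odd (ord Q' (γ : L)) →
        Q' = Q0 := by
      intro Q' hQ' hod
      rcases B.qe_over (E.toHX Fr R).qe (E.toHX Fr R).sig (E.toHX Fr R).sig_α hQ0 hQ' with h3 | h3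
      · exact h3
      · rw [h3] at hod
        exact absurd hev (Int.not_even_iff_odd.2 hod)
    have h4 := h2 Q hQ hodd
    subst h4
    exact ⟨h1, hne, h2⟩

end

/-- the parameters of a homomorphism -/
theorem stPar {k : Type} [Field k] [NumberField k] {L : Type} [Field L] [NumberField L]
    [Algebra k L] (E : QX k L) (Fr : Frm k) (hI : StHind) (hR : StRexH L) : StPar E Fr := by
  classical
  intro hFr RL On hS hN R hdR ρ hρ
  obtain ⟨⟨γ0, t0, hm, hon⟩, hRO⟩ := hρ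
  -- the other types do not occur outside `M` and `R`
  have hoth : ∀ p : Fr.sys.P, p ∉ (E.toHX Fr R).M → ¬ E.Oth RL ρ (Fr.pl p) := by
    intro p hp ho
    have h1 := E.pl_notMem (Fr := Fr) (R := R) hp
    exact h1.2 ((hRO _ h1.1).2 ho)
  have hsq := out_sq γ0
  have hpar : ∀ Q : HeightOneSpectrum (𝓞 L),
      Odd (ord Q ((HX.out ((γ0 : Lˣ) : HX.GX L) : Lˣ) : L)) ↔ Odd (ord Q (γ0 : L)) :=
    fun Q => apar_odd hsq Q
  -- the primes with odd exponent
  have hgf : {b : (E.toHX Fr R).PX | Odd (ord b.1 (γ0 : L))}.Finite := by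
    refine ((Pool.Agent.H98.MF.B.ord_finite (γ0 : L) γ0.ne_zero).preimage
      (Subtype.val_injective.injOn (s := Set.univ) |>.mono (Set.subset_univ _))).subset
        fun b hb => ?_
    show ord b.1 (γ0 : L) ≠ 0
    intro h
    have hb1 : Odd (ord b.1 (γ0 : L)) := hb
    rw [h] at hb1
    exact absurd hb1 (by decide)
  have hgm : ∀ b : (E.toHX Fr R).PX, b ∈ hgf.toFinset ↔ Odd (ord b.1 (γ0 : L)) := by
    intro b
    rw [Set.Finite.mem_toFinset]
    rfl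
  -- the central values
  have hsur : Function.Surjective ρ := hS ρ γ0 t0 hm hon
  have hAf : {Q : HeightOneSpectrum (𝓞 L) | (E.toHX Fr R).Out Q ∧
      ρ (RL.tau Q) = (⟨0, 1⟩ : Ext D4)}.Finite := by
    have hop : IsOpen ((H4.comap ρ : Subgroup (Gm L)) : Set (Gm L)) := hm.lc (H4 : Set (Ext D4))
    refine (RL.fin (H4.comap ρ) hop).subset fun Q hQ => ?_
    obtain ⟨⟨p, hp, hQp⟩, hv⟩ := hQ
    show RL.rex Q (H4.comap ρ) ≠ 0
    rw [hR RL ρ hm.lc hsur Q (h_ord (E.toHX Fr R) p Q hp hQp).1, hv, hI]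
    rw [if_pos rfl, if_neg]
    · decide
    · intro h
      have h2 := congrFun h (0 : Fin 1)
      exact absurd h2 (by decide)
  have hAm : ∀ Q, Q ∈ hAf.toFinset ↔ ((E.toHX Fr R).Out Q ∧
      ρ (RL.tau Q) = (⟨0, 1⟩ : Ext D4)) := by
    intro Q
    rw [Set.Finite.mem_toFinset]
    rfl
  have hBs : ((γ0 : Lˣ) : HX.GX L) ∈ (E.toHX Fr R).Bs hgf.toFinset := by
    intro Q hQ
    rw [hpar Q]
    obtain ⟨p, hp, hQp⟩ := hQ
    constructor
    · intro hod
      obtain ⟨-, hne, -⟩ := apar_uni E Fr RL R hm hp (hoth p hp) hQp hod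
      exact ⟨⟨Q, ⟨p, hp, hQp⟩, hne⟩, (hgm _).2 hod, rfl⟩
    · rintro ⟨b, hb, rfl⟩
      exact (hgm b).1 hb
  have hc2 : (co Fr t0).2.filter (fun p => p ∈ (E.toHX Fr R).M) ∪
      (co Fr t0).2.filter (fun p => p ∉ (E.toHX Fr R).M) = (co Fr t0).2 :=
    Finset.filter_union_filter_not_eq _ _
  refine ⟨(co Fr t0).2.filter (fun p => p ∉ (E.toHX Fr R).M), hgf.toFinset, (γ0 : HX.GX L),
    ((co Fr t0).1, (co Fr t0).2.filter (fun p => p ∈ (E.toHX Fr R).M)), hAf.toFinset,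
    ⟨?_, ?_, ?_⟩, hBs, ?_, ?_, ?_, ?_⟩
  · intro b hb b' hb' hbb
    have h1 := (E.toHX Fr R).shX_over b
    have h2 := (E.toHX Fr R).shX_over b'
    rw [← hbb] at h2
    obtain ⟨-, -, h3⟩ := apar_uni E Fr RL R hm ((E.toHX Fr R).shX_not b)
      (hoth _ ((E.toHX Fr R).shX_not b)) h1 ((hgm b).1 hb)
    exact (Subtype.ext (h3 b'.1 h2 ((hgm b').1 hb'))).symm
  · rw [Finset.disjoint_left]
    intro p hp
    exact (Finset.mem_filter.1 hp).2
  · rw [Finset.disjoint_left]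
    intro p hp hp'
    obtain ⟨b, hb, rfl⟩ := Finset.mem_image.1 hp'
    have h1 : (E.toHX Fr R).shX b ∈ odp Fr t0 := (Finset.mem_filter.1 hp).1
    rw [mem_odp] at h1
    obtain ⟨h2, -, -⟩ := apar_uni E Fr RL R hm ((E.toHX Fr R).shX_not b)
      (hoth _ ((E.toHX Fr R).shX_not b)) ((E.toHX Fr R).shX_over b) ((hgm b).1 hb)
    exact absurd h2 (Int.not_even_iff_odd.2 h1)
  · rintro ⟨hB0, hnu⟩
    have h1 := hi_co (E.toHX Fr R) (h_ordN (E.toHX Fr R)) ∅
      (fun b hb => absurd hb (Finset.notMem_empty b)) _ hB0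
    rw [hnu, Finset.image_empty, Finset.empty_union] at h1
    have h2 : (co Fr (HX.nrX (k := k) (HX.out ((γ0 : Lˣ) : HX.GX L)))).1 = 0 :=
      congrArg Prod.fst hnu
    have h3 : co Fr (HX.nrX (k := k) (HX.out ((γ0 : Lˣ) : HX.GX L))) = (0, ∅) :=
      Prod.ext h2 h1
    have h4 := h_co Fr (HX.nrX (k := k) (HX.out ((γ0 : Lˣ) : HX.GX L)))
    rw [h3] at h4
    have h5 : rep Fr ((0, ∅) : El Fr.sys) = 1 := by
      unfold rep
      simp
    rw [h5, mul_one] at h4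
    apply hN γ0 t0 hon
    obtain ⟨s, hs⟩ := h4
    obtain ⟨w, hw⟩ := hsq
    have h6 : HX.nrX (k := k) (HX.out ((γ0 : Lˣ) : HX.GX L)) * HX.nrX (k := k) γ0 =
        HX.nrX (k := k) w * HX.nrX (k := k) w := by
      rw [← h3_nr_mul, ← h3_nr_mul, hw]
    rw [hs] at h6
    refine ⟨HX.nrX (k := k) w * s⁻¹, ?_⟩
    have h7 : HX.nrX (k := k) γ0 = (s * s)⁻¹ * (HX.nrX (k := k) w * HX.nrX (k := k) w) := by
      rw [← h6, inv_mul_cancel_left]
    rw [h7, mul_inv, mul_mul_mul_comm, mul_comm s⁻¹]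
  · intro p hp
    exact (Finset.mem_filter.1 hp).2
  · intro Q hQ
    exact ((hAm Q).1 hQ).1
  · refine ⟨hm.lc, fun σ => ?_, fun σ => ?_, fun Q hQ => ?_⟩
    · rw [hm.gam]
      exact (apar_chi hsq σ).symm
    · have h1 : rep Fr ((co Fr t0).1, (co Fr t0).2.filter (fun p => p ∈ (E.toHX Fr R).M) ∪
          (co Fr t0).2.filter (fun p => p ∉ (E.toHX Fr R).M)) = rep Fr (co Fr t0) := by
        rw [hc2]
      rw [h1, hm.del]
      obtain ⟨w, hw⟩ := h_co Fr t0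
      have h2 : IsSquare ((E.δ * Units.map (algebraMap k L : k →* L) t0) *
          (E.δ * Units.map (algebraMap k L : k →* L) (rep Fr (co Fr t0)))) := by
        refine ⟨E.δ * Units.map (algebraMap k L : k →* L) w, ?_⟩
        rw [mul_mul_mul_comm, ← map_mul, hw, map_mul, mul_mul_mul_comm]
      exact apar_chi h2 σ
    · rw [hAm Q]
      exact ⟨fun h => ⟨hQ, h⟩, fun h => h.2⟩

end Pool.Agent.H32.MQ
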