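import Pool.Agent.H32.MQ.AStm

/-!
# MQ-A7: the number of ramified primes of a pair (helper51)
-/

set_option autoImplicit false

open scoped BigOperators
open NumberField IsDedekindDomain

namespace Pool.Agent.H32.MQ

open Pool.Agent.H98.MF

section

variable {k : Type} [Field k] [NumberField k] {Fr : Frm k} {L : Type} [Field L]
  [NumberField L] [Algebra k L] (X : HX Fr L)

open Classical in
theorem aram_mem_abv (x : Finset Fr.sys.P) (Q : HeightOneSpectrum (𝓞 L)) :
    Q ∈ HX.abv L x ↔ ∃ p ∈ x, Over (Fr.pl p) Q := by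
  have h := (Pool.Agent.H98.MF.B.ovr_exists (L := L) (x.image Fr.pl)).choose_spec Q
  have h' : Q ∈ HX.abv L x ↔ ∃ P ∈ x.image Fr.pl,
      Q.asIdeal.comap (algebraMap (𝓞 k) (𝓞 L)) = P.asIdeal := h
  rw [h']
  constructor
  · rintro ⟨P, hP, hQ⟩
    obtain ⟨p, hp, rfl⟩ := Finset.mem_image.1 hP
    exact ⟨p, hp, hQ⟩
  · rintro ⟨p, hp, hQ⟩
    exact ⟨Fr.pl p, Finset.mem_image_of_mem _ hp, hQ⟩

open Classical in
theorem aram_card (x : Finset Fr.sys.P) (p : Fr.sys.P) (hp : p ∉ X.M) :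
    ((HX.abv L x).filter fun Q => Over (Fr.pl p) Q).card ≤
      if ∃ b : X.PX, X.shX b = p then 2 else 1 := by
  by_cases h0 : ∃ Q : HeightOneSpectrum (𝓞 L), Over (Fr.pl p) Q ∧ cj X.sig Q ≠ Q
  · obtain ⟨Q, hQ, hne⟩ := h0
    have hb : ∃ b : X.PX, X.shX b = p := ⟨⟨Q, ⟨p, hp, hQ⟩, hne⟩, X.shX_eq _ hQ⟩
    rw [if_pos hb]
    refine (Finset.card_le_card (t := {Q, cj X.sig Q}) fun Q' hQ' => ?_).trans
      Finset.card_le_two
    rw [Finset.mem_filter] at hQ'
    rw [Finset.mem_insert, Finset.mem_singleton]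
    exact Pool.Agent.H98.MF.B.qe_over X.qe X.sig X.sig_α hQ hQ'.2
  · have h1 : ∀ Q : HeightOneSpectrum (𝓞 L), Over (Fr.pl p) Q → cj X.sig Q = Q := by
      intro Q hQ
      by_contra hne
      exact h0 ⟨Q, hQ, hne⟩
    refine le_trans (Finset.card_le_one.2 fun Q hQ Q' hQ' => ?_) (by split_ifs <;> omega)
    rw [Finset.mem_filter] at hQ hQ'
    rcases Pool.Agent.H98.MF.B.qe_over X.qe X.sig X.sig_α hQ.2 hQ'.2 with h | h
    · exact h.symm
    · rw [h, h1 Q hQ.2]

theorem stRam : StRam X := by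
  classical
  intro x g hx
  have h1 : (HX.abv L x).card ≤ ∑ p ∈ x, if ∃ b : X.PX, X.shX b = p then 2 else 1 := by
    have h2 : HX.abv L x ⊆ x.biUnion fun p => (HX.abv L x).filter fun Q => Over (Fr.pl p) Q := by
      intro Q hQ
      obtain ⟨p, hp, hQp⟩ := (aram_mem_abv x Q).1 hQ
      exact Finset.mem_biUnion.2 ⟨p, hp, Finset.mem_filter.2 ⟨hQ, hQp⟩⟩
    refine (Finset.card_le_card h2).trans (Finset.card_biUnion_le.trans ?_)
    refine Finset.sum_le_sum fun p hp => ?_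
    convert aram_card X x p (Finset.disjoint_left.1 hx hp)
  have h3 : (X.ramX x g).card ≤
      (∑ p ∈ x, if ∃ b : X.PX, X.shX b = p then 2 else 1) + g.card := by
    unfold HX.ramX
    refine (Finset.card_union_le _ _).trans (add_le_add h1 ?_)
    exact Finset.card_image_le
  refine (Nat.pow_le_pow_right (by norm_num) h3).trans (le_of_eq ?_)
  rw [pow_add, ← Finset.prod_pow_eq_pow_sum]
  congr 1
  refine Finset.prod_congr rfl fun p _ => ?_
  split_ifs <;> norm_num

end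

end Pool.Agent.H32.MQ
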