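import Pool.Agent.H32.MQ.AStm
import Pool.Agent.H98.MF.LhTauK

/-!
# Malle's conjecture for 8T28 and 8T29 over number fields, block A: exponents of the discriminant

The exponent of an odd prime in the discriminant of the quartic field of a surjective
homomorphism to the dihedral group is the index of the image of the tame generator; the
homomorphism is trivial on almost all the tame generators.
-/

set_option autoImplicit false

open scoped BigOperators
open NumberField IsDedekindDomain

namespace Pool.Agent.H32.MQ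

open Pool.Agent.H98.MF
open Pool.Agent.H98.ML (Dt Ext norb hind)

section

variable {L : Type} [Field L] [NumberField L]

theorem arexh_index (RL : Rx L) {D : Dt} (H0 : Subgroup (Ext D)) (ρ : Gm L →* Ext D)
    (hρ : IsLocallyConstant ρ) (hs : Function.Surjective ρ) (Q : HeightOneSpectrum (𝓞 L))
    (hQ : ord Q (2 : L) = 0) :
    RL.rex Q (H0.comap ρ) = hind H0 (ρ (RL.tau Q)) := by
  have h1 := RL.disc Q hQ ρ.ker (LTK.ker_open ρ hρ) (LTK.ker_index ρ)
    (H0.comap ρ) (by
      intro x hx
      rw [Subgroup.mem_comap, MonoidHom.mem_ker.1 hx]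
      exact H0.one_mem)
  rw [Pool.Agent.H98.ML.m3_norb ρ hs, Subgroup.index_comap_of_surjective H0 hs] at h1
  unfold hind
  omega

theorem arexh_fin' (RL : Rx L) {D : Dt} (ρ : Gm L →* Ext D) (hρ : IsLocallyConstant ρ) :
    {Q : HeightOneSpectrum (𝓞 L) | ord Q (2 : L) = 0 ∧ ρ (RL.tau Q) ≠ 1}.Finite := by
  refine Set.Finite.subset (RL.fin ρ.ker (LTK.ker_open ρ hρ)) fun Q hp => ?_
  obtain ⟨hQ, hp⟩ := hp
  have h2 := RL.disc Q hQ ρ.ker (LTK.ker_open ρ hρ) (LTK.ker_index ρ)
    ρ.ker le_rfl
  have h3 : norb ρ.ker (RL.tau Q) < ρ.ker.index := by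
    apply Pool.Agent.H98.ML.m3_norb_lt
    · obtain ⟨j, hj⟩ := LTK.ker_index ρ
      rw [hj]
      positivity
    · intro h
      exact hp (MonoidHom.mem_ker.1 h)
  show RL.rex Q ρ.ker ≠ 0
  omega

theorem arexh_fin (RL : Rx L) (ρ : Gm L →* Ext D4) (hρ : IsLocallyConstant ρ) :
    {Q : HeightOneSpectrum (𝓞 L) | ord Q (2 : L) = 0 ∧ ρ (RL.tau Q) ≠ 1}.Finite :=
  arexh_fin' RL ρ hρ

end

/-- the exponents of the discriminant at odd primes -/
theorem stRexH (L : Type) [Field L] [NumberField L] : StRexH L :=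
  fun RL ρ hρ hs Q hQ => arexh_index RL H4 ρ hρ hs Q hQ

end Pool.Agent.H32.MQ
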