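import Pool.Agent.H32.MQ.ASize_a

/-!
# Malle's conjecture for 8T28 and 8T29 over number fields, row A11: the size of the discriminant
of a homomorphism with given parameters, the theorem
-/

set_option autoImplicit false

open scoped BigOperators
open NumberField IsDedekindDomain

namespace Pool.Agent.H32.MQ

open Pool.Agent.H98.MF
open Pool.Agent.H98.ML (Dt Ext norb hind)

/-- the discriminant of a homomorphism with given parameters -/
theorem stSize {k : Type} [Field k] [NumberField k] {L : Type} [Field L] [NumberField L]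
    [Algebra k L] (E : QX k L) (Fr : Frm k) (hI : StHind) (hR : StRexH L)
    (hN : ∀ R, StNrm (E.toHX Fr R)) : StSize E Fr := by
  classical
  intro hS RL ρ hsur R hRM hOth x g γ c A hok hγ hc hA hfib
  obtain ⟨hlc, hgam, hdel, hz⟩ := hfib
  obtain ⟨hinj, hxM, hxg⟩ := hok
  have hpM : ∀ p, p ∉ (E.toHX Fr R).M → Fr.pl p ∉ E.M ∧ Fr.pl p ∉ R :=
    fun p hp => E.pl_notMem hp
  have hrep := h_repO Fr (c.1, c.2 ∪ x)
  have hrex : ∀ Q : HeightOneSpectrum (𝓞 L), (E.toHX Fr R).Out Q →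
      RL.rex Q (H4.comap ρ) = hind H4 (ρ (RL.tau Q)) := by
    rintro Q ⟨p, hp, hQ⟩
    exact hR RL ρ hlc hsur Q (asize_two E (hpM p hp).1 hQ)
  have hxM' : ∀ p ∈ x, p ∉ (E.toHX Fr R).M := fun p hp => Finset.disjoint_left.1 hxM hp
  have hxg' : ∀ p ∈ x, ∀ b ∈ g, (E.toHX Fr R).shX b ≠ p := by
    intro p hp b hb e
    exact Finset.disjoint_left.1 hxg hp (Finset.mem_image.2 ⟨b, hb, e⟩)
  -- coordinates at the primes of `x`
  have hx0 : ∀ p ∈ x, ∀ Q : HeightOneSpectrum (𝓞 L), Over (Fr.pl p) Q →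
      c0 (ρ (RL.tau Q)) = 0 ∧ c1 (ρ (RL.tau Q)) = 1 := by
    intro p hp Q hQ
    have hp1 := hxM' p hp
    have h1 := (hpM p hp1).1
    constructor
    · rw [asize_c0 E h1 hQ RL ρ _ hgam]
      refine asize_even (Int.not_odd_iff_even.1 fun ho => ?_)
      obtain ⟨b, hb, e⟩ := (hγ Q ⟨p, hp1, hQ⟩).1 ho
      refine hxg' p hp b hb ((E.toHX Fr R).shX_eq b ?_)
      rw [e]
      exact hQ
    · rw [asize_c1 E h1 hQ RL ρ _ hdel, hrep p, if_pos (Finset.mem_union_right _ hp)]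
      rfl
  -- coordinates at the primes of `g`
  have hg0 : ∀ b ∈ g, c0 (ρ (RL.tau b.1)) = 1 ∧ c1 (ρ (RL.tau b.1)) = 0 := by
    intro b hb
    have hp1 := (E.toHX Fr R).shX_not b
    have hQ := (E.toHX Fr R).shX_over b
    have h1 := (hpM _ hp1).1
    constructor
    · rw [asize_c0 E h1 hQ RL ρ _ hgam]
      exact asize_odd ((hγ b.1 b.2.1).2 ⟨b, hb, rfl⟩)
    · rw [asize_c1 E h1 hQ RL ρ _ hdel, hrep, if_neg]
      · rfl
      · intro h2
        rcases Finset.mem_union.1 h2 with h2 | h2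
        · exact hp1 (hc h2)
        · exact hxg' _ h2 b hb rfl
  -- the four sets
  set F : HeightOneSpectrum (𝓞 L) → ℕ := fun Q => nrm Q ^ RL.rex Q (H4.comap ρ) with hF
  set T1 : Finset (HeightOneSpectrum (𝓞 L)) := x.biUnion fun p => asizeAb E.sig (Fr.pl p) with hT1
  set T2 : Finset (HeightOneSpectrum (𝓞 L)) := g.image Subtype.val with hT2
  set T4 : Finset (HeightOneSpectrum (𝓞 L)) := R.biUnion fun P => asizeAb E.sig P with hT4
  have m1 : ∀ Q ∈ T1, ∃ p ∈ x, Over (Fr.pl p) Q := by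
    intro Q hQ
    obtain ⟨p, hp, h1⟩ := Finset.mem_biUnion.1 hQ
    exact ⟨p, hp, asize_over _ _ h1⟩
  have m2 : ∀ Q ∈ T2, ∃ b ∈ g, b.1 = Q := by
    intro Q hQ
    obtain ⟨b, hb, h1⟩ := Finset.mem_image.1 hQ
    exact ⟨b, hb, h1⟩
  have m4 : ∀ Q ∈ T4, ∃ P ∈ R, Over P Q := by
    intro Q hQ
    obtain ⟨P, hP, h1⟩ := Finset.mem_biUnion.1 hQ
    exact ⟨P, hP, asize_over _ _ h1⟩
  have mA : ∀ Q ∈ A, c0 (ρ (RL.tau Q)) = 0 ∧ c1 (ρ (RL.tau Q)) = 0 := by
    intro Q hQ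
    rw [(hz Q (hA Q hQ)).2 hQ]
    exact ⟨rfl, rfl⟩
  have d12 : Disjoint T1 T2 := by
    rw [Finset.disjoint_left]
    intro Q h1 h2
    obtain ⟨p, hp, h3⟩ := m1 Q h1
    obtain ⟨b, hb, h4⟩ := m2 Q h2
    refine hxg' p hp b hb ((E.toHX Fr R).shX_eq b ?_)
    rw [h4]
    exact h3
  have d3 : Disjoint (T1 ∪ T2) A := by
    rw [Finset.disjoint_left]
    intro Q h1 h2
    obtain ⟨h3, h4⟩ := mA Q h2
    rcases Finset.mem_union.1 h1 with h1 | h1
    · obtain ⟨p, hp, h5⟩ := m1 Q h1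
      rw [(hx0 p hp Q h5).2] at h4
      exact absurd h4 (by decide)
    · obtain ⟨b, hb, h5⟩ := m2 Q h1
      rw [← h5, (hg0 b hb).1] at h3
      exact absurd h3 (by decide)
  have d4 : Disjoint (T1 ∪ T2 ∪ A) T4 := by
    rw [Finset.disjoint_left]
    intro Q h1 h2
    obtain ⟨P, hP, h3⟩ := m4 Q h2
    have ho : (E.toHX Fr R).Out Q := by
      rcases Finset.mem_union.1 h1 with h1 | h1
      · rcases Finset.mem_union.1 h1 with h1 | h1
        · obtain ⟨p, hp, h5⟩ := m1 Q h1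
          exact ⟨p, hxM' p hp, h5⟩
        · obtain ⟨b, hb, h5⟩ := m2 Q h1
          rw [← h5]
          exact b.2.1
      · exact hA Q h1
    obtain ⟨p, hp, h5⟩ := ho
    apply (hpM p hp).2
    have e : Fr.pl p = P := HeightOneSpectrum.ext (by rw [← h5, ← h3])
    rw [e]
    exact hP
  -- the bounds
  have b1 : Fr.sys.nm x ^ 2 ≤ ∏ Q ∈ T1, F Q := by
    have hd : ((x : Finset Fr.sys.P) : Set Fr.sys.P).PairwiseDisjoint
        fun p => asizeAb E.sig (Fr.pl p) := by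
      intro p hp q hq hne
      refine Finset.disjoint_left.2 fun Q h1 h2 => hne ?_
      exact HX.over_inj (asize_over _ _ h1) (asize_over _ _ h2)
    rw [hT1, Finset.prod_biUnion hd]
    have e : Fr.sys.nm x ^ 2 = ∏ p ∈ x, nrm (Fr.pl p) ^ 2 := by
      rw [Finset.prod_pow]
      congr 1
      exact Finset.prod_congr rfl fun p _ => Fr.N_eq p
    rw [e]
    refine Finset.prod_le_prod (fun _ _ => Nat.zero_le _) fun p hp => ?_
    refine asize_x E (hN ∅) (hpM p (hxM' p hp)).1 F fun Q hQ => ?_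
    obtain ⟨h1, h2⟩ := hx0 p hp Q hQ
    show nrm Q ^ RL.rex Q (H4.comap ρ) = nrm Q
    rw [hrex Q ⟨p, hxM' p hp, hQ⟩, asize_h01 hI _ h1 h2, pow_one]
  have b2 : Fr.sys.nm (g.image (E.toHX Fr R).shX) ^ 2 = ∏ Q ∈ T2, F Q := by
    have e : Fr.sys.nm (g.image (E.toHX Fr R).shX) =
        ∏ b ∈ g, nrm (Fr.pl ((E.toHX Fr R).shX b)) := by
      show ∏ p ∈ g.image (E.toHX Fr R).shX, Fr.sys.N p = _
      rw [Finset.prod_image fun b hb b' hb' h => hinj b hb b' hb' h]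
      exact Finset.prod_congr rfl fun b _ => Fr.N_eq _
    rw [e, hT2, Finset.prod_image fun b _ b' _ h => Subtype.ext h, ← Finset.prod_pow]
    refine Finset.prod_congr rfl fun b hb => ?_
    obtain ⟨h1, h2⟩ := hg0 b hb
    show _ = nrm b.1 ^ RL.rex b.1 (H4.comap ρ)
    rw [hrex b.1 b.2.1, asize_h10 hI _ h1 h2, ← (hN R).1 b]
  have b3 : (∏ Q ∈ A, nrm Q) ^ 2 = ∏ Q ∈ A, F Q := by
    rw [← Finset.prod_pow]
    refine Finset.prod_congr rfl fun Q hQ => ?_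
    show _ = nrm Q ^ RL.rex Q (H4.comap ρ)
    rw [hrex Q (hA Q hQ), (hz Q (hA Q hQ)).2 hQ, asize_hz hI]
  have b4 : nmR R ^ 4 ≤ ∏ Q ∈ T4, F Q := by
    have hd : ((R : Finset (HeightOneSpectrum (𝓞 k))) :
        Set (HeightOneSpectrum (𝓞 k))).PairwiseDisjoint fun P => asizeAb E.sig P := by
      intro P hp P' hq hne
      refine Finset.disjoint_left.2 fun Q h1 h2 => hne ?_
      exact HeightOneSpectrum.ext (by rw [← asize_over _ _ h1, ← asize_over _ _ h2])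
    rw [hT4, Finset.prod_biUnion hd]
    unfold nmR
    rw [← Finset.prod_pow]
    refine Finset.prod_le_prod (fun _ _ => Nat.zero_le _) fun P hP => ?_
    have hPM : P ∉ E.M := Finset.disjoint_left.1 hRM hP
    obtain ⟨p, rfl⟩ := (Fr.pl_iff P).2 fun h => hPM (hS h)
    exact asize_R E hI hR (hN ∅) RL ρ hlc hsur hPM _
      (fun Q hQ => asize_c1 E hPM hQ RL ρ _ hdel) (hOth _ hP)
  have e0 : (nmR R ^ 2 * (E.toHX Fr R).nmX (x, g) * ∏ Q ∈ A, nrm Q) ^ 2 =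
      Fr.sys.nm x ^ 2 * Fr.sys.nm (g.image (E.toHX Fr R).shX) ^ 2 * (∏ Q ∈ A, nrm Q) ^ 2 *
        nmR R ^ 4 := by
    have e1 : (E.toHX Fr R).nmX (x, g) =
      Fr.sys.nm x * Fr.sys.nm (g.image (E.toHX Fr R).shX) := by
      unfold HX.nmX
      congr!
    rw [e1]
    ring
  rw [e0]
  refine le_trans ?_ (asize_dn RL ρ hlc (T1 ∪ T2 ∪ A ∪ T4))
  rw [asize_four _ _ _ _ _ d12 d3 d4, b2, b3]
  exact Nat.mul_le_mul (Nat.mul_le_mul (Nat.mul_le_mul b1 le_rfl) le_rfl) b4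

end Pool.Agent.H32.MQ
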