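import Pool.Agent.H32.MQ.KUStm

/-!
# Block K: the bilinear estimate (B1) from the three ranges
-/

set_option autoImplicit false

open scoped BigOperators

namespace Pool.Agent.H32.MQ

open Pool.Agent.H98.MK (sg)
open Pool.Agent.H98.MF

/-- weakening of a bound -/
theorem kb1_weak {V C₁ C n A₁ A Z m η₁ η : ℝ} (hn : 1 ≤ n) (hm : 1 ≤ m) (hZ : 0 ≤ Z)
    (hC : |C₁| ≤ C) (hA : A₁ ≤ A) (hη : η ≤ η₁)
    (h : V ≤ C₁ * n ^ A₁ * Z * m ^ (-η₁)) : V ≤ C * n ^ A * Z * m ^ (-η) := by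
  have hn0 : 0 ≤ n := le_trans zero_le_one hn
  have hm0 : 0 ≤ m := le_trans zero_le_one hm
  have hC0 : 0 ≤ C := le_trans (abs_nonneg _) hC
  have h1 : n ^ A₁ ≤ n ^ A := Real.rpow_le_rpow_of_exponent_le hn hA
  have h2 : m ^ (-η₁) ≤ m ^ (-η) := Real.rpow_le_rpow_of_exponent_le hm (neg_le_neg hη)
  have h3 : C₁ ≤ C := le_trans (le_abs_self _) hC
  have h4 : 0 ≤ n ^ A₁ := Real.rpow_nonneg hn0 _
  have h5 : 0 ≤ m ^ (-η₁) := Real.rpow_nonneg hm0 _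
  have h6 : C₁ * n ^ A₁ ≤ C * n ^ A :=
    le_trans (mul_le_mul_of_nonneg_right h3 h4) (mul_le_mul_of_nonneg_left h1 hC0)
  have h7 : 0 ≤ C * n ^ A := mul_nonneg hC0 (Real.rpow_nonneg hn0 _)
  have h8 : C₁ * n ^ A₁ * Z ≤ C * n ^ A * Z := mul_le_mul_of_nonneg_right h6 hZ
  exact le_trans h (le_trans (mul_le_mul_of_nonneg_right h8 h5)
    (mul_le_mul_of_nonneg_left h2 (mul_nonneg h7 hZ)))

theorem skb1_of (ha : SKa) (hb : SKb) (hc : SKc) : SKB1 := by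
  intro S
  obtain ⟨L₁, C₁, A₁, η₁, hL₁, hA₁, hη₁, h₁⟩ := hb S
  obtain ⟨L₂, C₂, A₂, η₂, hL₂, hA₂, hη₂, h₂⟩ := hc S
  obtain ⟨C₀, η₀, hη₀, h₀⟩ := ha S (max L₁ L₂) (le_trans hL₁ (le_max_left _ _))
  refine ⟨|C₀| + |C₁| + |C₂|, max A₁ A₂, min η₀ (min η₁ η₂), le_trans hA₁ (le_max_left _ _),
    lt_min hη₀ (lt_min hη₁ hη₂), ?_⟩
  intro Q a b hab hbb X Y hX hY
  have hX0 : 0 < X := lt_of_lt_of_le one_pos hX
  have hY0 : 0 < Y := lt_of_lt_of_le one_pos hY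
  have hn : (1 : ℝ) ≤ (S.nm Q.M : ℝ) := by
    exact_mod_cast S.nm_pos Q.M
  have hZ : 0 ≤ X * Y := (mul_pos hX0 hY0).le
  have a0 := abs_nonneg C₀
  have a1 := abs_nonneg C₁
  have a2 := abs_nonneg C₂
  by_cases c1 : X ^ L₁ ≤ Y
  · have e1 : X ≤ X ^ L₁ := by
      have := Real.rpow_le_rpow_of_exponent_le hX hL₁
      rwa [Real.rpow_one] at this
    have e2 : min X Y = X := min_eq_left (le_trans e1 c1)
    rw [e2]
    exact kb1_weak hn hX hZ (by linarith) (le_max_left _ _)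
      (le_trans (min_le_right _ _) (min_le_left _ _)) (h₁ Q a b hab hbb X Y hX hY c1)
  · by_cases c2 : Y ^ L₂ ≤ X
    · have e1 : Y ≤ Y ^ L₂ := by
        have := Real.rpow_le_rpow_of_exponent_le hY hL₂
        rwa [Real.rpow_one] at this
      have e2 : min X Y = Y := min_eq_right (le_trans e1 c2)
      rw [e2]
      exact kb1_weak hn hY hZ (by linarith) (le_max_right _ _)
        (le_trans (min_le_right _ _) (min_le_right _ _)) (h₂ Q a b hab hbb X Y hX hY c2)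
    · have e1 : X ≤ Y ^ max L₁ L₂ :=
        le_trans (not_le.1 c2).le (Real.rpow_le_rpow_of_exponent_le hY (le_max_right _ _))
      have e2 : Y ≤ X ^ max L₁ L₂ :=
        le_trans (not_le.1 c1).le (Real.rpow_le_rpow_of_exponent_le hX (le_max_left _ _))
      have e3 := h₀ Q a b hab hbb X Y hX hY e1 e2
      refine kb1_weak hn (le_min hX hY) hZ (C₁ := C₀) (A₁ := 0) (η₁ := η₀) (by linarith)
        (le_trans hA₁ (le_max_left _ _)) (min_le_left _ _) ?_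
      rw [Real.rpow_zero, mul_one]
      exact e3

end Pool.Agent.H32.MQ
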