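import Pool.Agent.H32.MQ.KUStm
import Pool.Agent.H98.MF.SBoxSym

/-!
# Malle's conjecture for 8T28 and 8T29 over number fields: row K5a, both variables comparable
-/

set_option autoImplicit false

open scoped BigOperators

namespace Pool.Agent.H32.MQ

open Pool.Agent.H98.MK (sg)
open Pool.Agent.H98.MF

variable {S : Sys}

theorem kba_mem (Q : Qd S) {g : Finset Q.P} {p : S.P} :
    p ∈ Q.shd g ↔ ∃ a ∈ g, Q.sh a = p := by
  unfold Qd.shd
  exact Finset.mem_image

theorem kba_sub (Q : Qd S) {g0 g g' : Finset Q.P} (h0 : Q.Gd g0) (hg : Q.Gd g)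
    (e0 : Q.shd g = Q.shd g0) (e1 : Q.shd g = Q.shd g')
    (h : Q.shd (g ∩ g0) = Q.shd (g' ∩ g0)) : g ⊆ g' := by
  intro a ha
  have hp : Q.sh a ∈ Q.shd g := (kba_mem Q).2 ⟨a, ha, rfl⟩
  obtain ⟨a0, ha0, hs0⟩ := (kba_mem Q).1 (e0 ▸ hp)
  obtain ⟨a', ha', hs'⟩ := (kba_mem Q).1 (e1 ▸ hp)
  rcases Q.fib a0 a hs0 with h1 | h1
  · have h2 : Q.sh a ∈ Q.shd (g ∩ g0) :=
      (kba_mem Q).2 ⟨a, Finset.mem_inter.2 ⟨ha, h1 ▸ ha0⟩, rfl⟩
    rw [h] at h2
    obtain ⟨b, hb, hbs⟩ := (kba_mem Q).1 h2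
    rw [Finset.mem_inter] at hb
    have h3 : b = a0 := h0 b hb.2 a0 ha0 (hbs.trans hs0.symm)
    rw [h1, ← h3]
    exact hb.1
  · rcases Q.fib a0 a' (hs0.trans hs'.symm) with h2 | h2
    · exfalso
      have h3 : Q.sh a ∈ Q.shd (g' ∩ g0) :=
        (kba_mem Q).2 ⟨a', Finset.mem_inter.2 ⟨ha', h2 ▸ ha0⟩, hs'⟩
      rw [← h] at h3
      obtain ⟨b, hb, hbs⟩ := (kba_mem Q).1 h3
      rw [Finset.mem_inter] at hb
      have h4 : b = a0 := h0 b hb.2 a0 ha0 (hbs.trans hs0.symm)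
      have h5 : b = a := hg b hb.1 a ha hbs
      exact Q.cj_ne a0 (by rw [← h1, ← h5, h4])
    · rw [h1, ← h2]
      exact ha'

/-- the number of good sets with a given shadow -/
theorem kba_fib (Q : Qd S) (n : Finset S.P) (s : Finset (Finset Q.P))
    (hs : ∀ g ∈ s, Q.Gd g ∧ Q.shd g = n) : s.card ≤ 2 ^ n.card := by
  classical
  rcases s.eq_empty_or_nonempty with rfl | ⟨g0, hg0⟩
  · simp
  rw [← Finset.card_powerset]
  refine Finset.card_le_card_of_injOn (fun g => Q.shd (g ∩ g0)) (fun g hg => ?_) ?_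
  · rw [Finset.mem_coe, Finset.mem_powerset]
    intro p hp
    obtain ⟨a, ha, rfl⟩ := (kba_mem Q).1 hp
    rw [← (hs g hg).2]
    exact (kba_mem Q).2 ⟨a, (Finset.mem_inter.1 ha).1, rfl⟩
  · intro g hg g' hg' h
    have e := (hs g hg).2
    have e' := (hs g' hg').2
    have e0 := (hs g0 hg0).2
    exact Finset.Subset.antisymm
      (kba_sub Q (hs g0 hg0).1 (hs g hg).1 (e.trans e0.symm) (e.trans e'.symm) h)
      (kba_sub Q (hs g0 hg0).1 (hs g' hg').1 (e'.trans e0.symm) (e'.trans e.symm) h.symm)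

open Classical in
/-- the weights of the shadows -/
noncomputable def kbaB (Q : Qd S) (b : Finset Q.P → ℝ) (Y : ℝ) (n : Finset S.P) : ℝ :=
  ∑ g ∈ (Q.gb Y).filter (fun g => Q.shd g = n), b g

theorem kba_B_le (Q : Qd S) (b : Finset Q.P → ℝ) (hb : ∀ g, |b g| ≤ 1) (Y : ℝ)
    {C ε : ℝ} (hC : 0 ≤ C) (hε : 0 ≤ ε) (hY : 0 ≤ Y)
    (h : ∀ x : Finset S.P, (16 : ℝ) ^ x.card ≤ C * (S.nm x : ℝ) ^ ε)
    (n : Finset S.P) : |kbaB Q b Y n| ≤ C * Y ^ ε := by
  classical
  unfold kbaB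
  rcases ((Q.gb Y).filter (fun g => Q.shd g = n)).eq_empty_or_nonempty with h1 | ⟨g0, hg0⟩
  · rw [h1, Finset.sum_empty, abs_zero]
    positivity
  · have h2 : (((Q.gb Y).filter (fun g => Q.shd g = n)).card : ℝ) ≤ 2 ^ n.card := by
      exact_mod_cast kba_fib Q n _ fun g hg => by
        rw [Finset.mem_filter, Q.mem_gb] at hg
        exact ⟨hg.1.1, hg.2⟩
    rw [Finset.mem_filter, Q.mem_gb] at hg0
    have h3 : (S.nm n : ℝ) ≤ Y := by
      rw [← hg0.2]
      exact hg0.1.2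
    calc |∑ g ∈ (Q.gb Y).filter (fun g => Q.shd g = n), b g|
        ≤ ∑ g ∈ (Q.gb Y).filter (fun g => Q.shd g = n), |b g| := Finset.abs_sum_le_sum_abs _ _
      _ ≤ ∑ g ∈ (Q.gb Y).filter (fun g => Q.shd g = n), 1 := Finset.sum_le_sum fun g _ => hb g
      _ = (((Q.gb Y).filter (fun g => Q.shd g = n)).card : ℝ) := by simp
      _ ≤ 2 ^ n.card := h2
      _ ≤ 16 ^ n.card := pow_le_pow_left₀ (by norm_num) (by norm_num) _
      _ ≤ C * (S.nm n : ℝ) ^ ε := h n
      _ ≤ C * Y ^ ε := mul_le_mul_of_nonneg_left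
        (Real.rpow_le_rpow (Nat.cast_nonneg _) h3 hε) hC

open Classical in
/-- collecting the good sets by their shadows -/
theorem kba_BL (Q : Qd S) (a : Finset S.P → ℝ) (b : Finset Q.P → ℝ) (X Y : ℝ) :
    BL Q a b X Y = ∑ x ∈ S.bx X, ∑ y ∈ S.bx Y,
      (if Disjoint x y then (if Disjoint x Q.M then a x else 0) * kbaB Q b Y y * (S.jj x y : ℝ)
        else 0) := by
  unfold BL
  refine Finset.sum_congr rfl fun x _ => ?_
  have hm : ∀ g ∈ Q.gb Y, Q.shd g ∈ S.bx Y := fun g hg => by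
    rw [S.mem_bx]
    exact (Q.mem_gb.1 hg).2
  rw [← Finset.sum_fiberwise_of_maps_to hm]
  refine Finset.sum_congr rfl fun y _ => ?_
  by_cases h1 : Disjoint x y
  · by_cases h2 : Disjoint x Q.M
    · rw [if_pos h1, if_pos h2]
      unfold kbaB
      rw [Finset.mul_sum, Finset.sum_mul]
      refine Finset.sum_congr rfl fun g hg => ?_
      have h3 : Q.shd g = y := (Finset.mem_filter.1 hg).2
      rw [h3, if_pos ⟨h2, h1⟩]
    · rw [if_pos h1, if_neg h2, zero_mul, zero_mul]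
      refine Finset.sum_eq_zero fun g _ => ?_
      rw [if_neg fun h => h2 h.1]
  · rw [if_neg h1]
    refine Finset.sum_eq_zero fun g hg => ?_
    have h3 : Q.shd g = y := (Finset.mem_filter.1 hg).2
    rw [h3, if_neg fun h => h1 h.2]

/-- logarithms against small powers -/
theorem kba_log (c L : ℝ) (hc : 0 < c) (hL : 1 ≤ L) (E : ℕ) : ∃ C : ℝ, 0 ≤ C ∧
    ∀ P Z : ℝ, 1 ≤ P → 1 ≤ Z → Z ≤ P ^ (2 * L) → (1 + Real.log Z) ^ E ≤ C * P ^ (c / 2) := by
  set δ : ℝ := c / (2 * ((E : ℝ) + 1)) with hδ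
  have hE : (0 : ℝ) < (E : ℝ) + 1 := by positivity
  have hδ0 : 0 < δ := by positivity
  refine ⟨(1 + 2 * L / δ) ^ E, by positivity, fun P Z hP hZ hZP => ?_⟩
  have hP0 : 0 < P := zero_lt_one.trans_le hP
  have hZ0 : 0 < Z := zero_lt_one.trans_le hZ
  have h1 : Real.log Z ≤ 2 * L * Real.log P := by
    rw [← Real.log_rpow hP0]
    exact Real.log_le_log hZ0 hZP
  have h2 : Real.log P ≤ P ^ δ / δ := Real.log_le_rpow_div hP0.le hδ0
  have h3 : (1 : ℝ) ≤ P ^ δ := Real.one_le_rpow hP hδ0.le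
  have h4 : 1 + Real.log Z ≤ (1 + 2 * L / δ) * P ^ δ := by
    have h5 : 2 * L * Real.log P ≤ 2 * L * (P ^ δ / δ) :=
      mul_le_mul_of_nonneg_left h2 (by linarith)
    have h6 : 2 * L * (P ^ δ / δ) = 2 * L / δ * P ^ δ := by ring
    rw [add_mul, one_mul]
    linarith
  have h5 : 0 ≤ 1 + Real.log Z := by
    have := Real.log_nonneg hZ
    linarith
  calc (1 + Real.log Z) ^ E ≤ ((1 + 2 * L / δ) * P ^ δ) ^ E := pow_le_pow_left₀ h5 h4 E
    _ = (1 + 2 * L / δ) ^ E * P ^ (δ * E) := by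
        rw [mul_pow, ← Real.rpow_natCast (P ^ δ), ← Real.rpow_mul hP0.le]
    _ ≤ (1 + 2 * L / δ) ^ E * P ^ (c / 2) := by
        refine mul_le_mul_of_nonneg_left (Real.rpow_le_rpow_of_exponent_le hP ?_) (by positivity)
        have h6 : δ * ((E : ℝ) + 1) = c / 2 := by
          rw [hδ]
          field_simp
        nlinarith

/-- row K5a -/
theorem ska_of (h0 : SKPt) : SKa := by
  classical
  intro S L hL
  have hc := S.c0_pos
  have hL0 : 0 < L := zero_lt_one.trans_le hL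
  obtain ⟨C1, h1⟩ := h0 S (S.c0 / (2 * L)) (by positivity)
  obtain ⟨C2, E, h2⟩ := box_sym S
  obtain ⟨C3, hC3, h3⟩ := kba_log S.c0 L hc hL E
  have hC1 : 1 ≤ C1 := by
    have h := (h1 ∅).2
    rw [Pre.nm_empty, Nat.cast_one, Real.one_rpow, mul_one, Finset.card_empty, pow_zero] at h
    exact h
  have hC1' : 0 < C1 := zero_lt_one.trans_le hC1
  refine ⟨C1 * |C2| * C3, S.c0, hc, fun Q a b ha hb X Y hX hY hXY hYX => ?_⟩
  set P : ℝ := min X Y with hPd
  have hP : 1 ≤ P := le_min hX hY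
  have hP0 : 0 < P := zero_lt_one.trans_le hP
  have hX0 : 0 < X := zero_lt_one.trans_le hX
  have hY0 : 0 < Y := zero_lt_one.trans_le hY
  -- the longer variable
  have hYP : Y ≤ P ^ L := by
    rcases le_total X Y with h | h
    · rw [hPd, min_eq_left h]
      exact hYX
    · rw [hPd, min_eq_right h]
      calc Y = Y ^ (1 : ℝ) := (Real.rpow_one Y).symm
        _ ≤ Y ^ L := Real.rpow_le_rpow_of_exponent_le hY hL
  have hXP : X ≤ P ^ L := by
    rcases le_total X Y with h | h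
    · rw [hPd, min_eq_left h]
      calc X = X ^ (1 : ℝ) := (Real.rpow_one X).symm
        _ ≤ X ^ L := Real.rpow_le_rpow_of_exponent_le hX hL
    · rw [hPd, min_eq_right h]
      exact hXY
  have hZ : X * Y ≤ P ^ (2 * L) := by
    calc X * Y ≤ P ^ L * P ^ L := mul_le_mul hXP hYP hY0.le (Real.rpow_nonneg hP0.le _)
      _ = P ^ (2 * L) := by rw [← Real.rpow_add hP0, two_mul]
  have hZ1 : 1 ≤ X * Y := one_le_mul_of_one_le_of_one_le hX hY
  have hlog := h3 P (X * Y) hP hZ1 hZ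
  have hlog0 : 0 ≤ 1 + Real.log (X * Y) := by
    have := Real.log_nonneg hZ1
    linarith
  -- the weights
  set K : ℝ := C1 * Y ^ (S.c0 / (2 * L)) with hK
  have hK0 : 0 < K := mul_pos hC1' (Real.rpow_pos_of_pos hY0 _)
  have hKP : K ≤ C1 * P ^ (S.c0 / 2) := by
    refine mul_le_mul_of_nonneg_left ?_ hC1'.le
    calc Y ^ (S.c0 / (2 * L)) ≤ (P ^ L) ^ (S.c0 / (2 * L)) :=
          Real.rpow_le_rpow hY0.le hYP (by positivity)
      _ = P ^ (S.c0 / 2) := by
          rw [← Real.rpow_mul hP0.le]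
          congr 1
          field_simp
  have hB : ∀ n, |kbaB Q b Y n| ≤ K := fun n =>
    kba_B_le Q b hb Y hC1'.le (by positivity) hY0.le (fun x => (h1 x).2) n
  have hmain := h2 X Y P (fun x => if Disjoint x Q.M then a x else 0)
    (fun y => kbaB Q b Y y / K) hP (min_le_left _ _) (min_le_right _ _)
    (fun x => by
      by_cases h : Disjoint x Q.M
      · rw [if_pos h]
        exact ha x
      · rw [if_neg h, abs_zero]
        exact zero_le_one)
    (fun y => by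
      rw [abs_div, abs_of_pos hK0, div_le_one hK0]
      exact hB y)
  have hBL : BL Q a b X Y = K * ∑ x ∈ S.bx X, ∑ y ∈ S.bx Y, (if Disjoint x y
      then (if Disjoint x Q.M then a x else 0) * (kbaB Q b Y y / K) * (S.jj x y : ℝ) else 0) := by
    rw [kba_BL, Finset.mul_sum]
    refine Finset.sum_congr rfl fun x _ => ?_
    rw [Finset.mul_sum]
    refine Finset.sum_congr rfl fun y _ => ?_
    by_cases h : Disjoint x y
    · rw [if_pos h, if_pos h]
      field_simp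
    · rw [if_neg h, if_neg h, mul_zero]
  rw [hBL, abs_mul, abs_of_pos hK0]
  have hpp : 0 ≤ P ^ (-(2 * S.c0)) := Real.rpow_nonneg hP0.le _
  have hXY0 : 0 ≤ X * Y := by positivity
  calc K * |∑ x ∈ S.bx X, ∑ y ∈ S.bx Y, (if Disjoint x y
        then (if Disjoint x Q.M then a x else 0) * (kbaB Q b Y y / K) * (S.jj x y : ℝ) else 0)|
      ≤ K * (C2 * (X * Y) * P ^ (-(2 * S.c0)) * (1 + Real.log (X * Y)) ^ E) :=
        mul_le_mul_of_nonneg_left hmain hK0.le
    _ ≤ K * (|C2| * (X * Y) * P ^ (-(2 * S.c0)) * (1 + Real.log (X * Y)) ^ E) := by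
        refine mul_le_mul_of_nonneg_left ?_ hK0.le
        refine mul_le_mul_of_nonneg_right ?_ (pow_nonneg hlog0 _)
        refine mul_le_mul_of_nonneg_right ?_ hpp
        exact mul_le_mul_of_nonneg_right (le_abs_self _) hXY0
    _ ≤ (C1 * P ^ (S.c0 / 2)) *
        (|C2| * (X * Y) * P ^ (-(2 * S.c0)) * (C3 * P ^ (S.c0 / 2))) := by
        refine mul_le_mul hKP ?_ ?_ ?_
        · exact mul_le_mul_of_nonneg_left hlog (by positivity)
        · have := pow_nonneg hlog0 E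
          positivity
        · have := Real.rpow_nonneg hP0.le (S.c0 / 2)
          positivity
    _ = C1 * |C2| * C3 * (X * Y) *
        (P ^ (S.c0 / 2) * P ^ (-(2 * S.c0)) * P ^ (S.c0 / 2)) := by ring
    _ = C1 * |C2| * C3 * (X * Y) * P ^ (-S.c0) := by
        rw [← Real.rpow_add hP0, ← Real.rpow_add hP0]
        congr 2
        ring

end Pool.Agent.H32.MQ
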