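import Pool.Agent.H32.MQ.KUStm
import Pool.Agent.H98.MF.SCount

/-!
# Malle's conjecture for 8T28 and 8T29 over number fields: block K, the good sets long
-/

set_option autoImplicit false

open scoped BigOperators

namespace Pool.Agent.H32.MQ

open Pool.Agent.H98.MK (sg)
open Pool.Agent.H98.MF

section

variable {S : Sys}

theorem kbb_JJ (n x x' : Finset S.P) : S.JJ n x + S.JJ n x' = S.JJ n (symmDiff x x') := by
  have h1 : S.JJ n x = S.JJ n (x \ x') + S.JJ n (x ∩ x') := by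
    rw [← S.JJ_union_right n (Finset.disjoint_sdiff_inter x x'), Finset.sdiff_union_inter]
  have h2 : S.JJ n x' = S.JJ n (x' \ x) + S.JJ n (x ∩ x') := by
    rw [Finset.inter_comm x x', ← S.JJ_union_right n (Finset.disjoint_sdiff_inter x' x),
      Finset.sdiff_union_inter]
  have h3 : S.JJ n (symmDiff x x') = S.JJ n (x \ x') + S.JJ n (x' \ x) := by
    rw [← S.JJ_union_right n disjoint_sdiff_sdiff]
    rfl
  rw [h1, h2, h3]
  have h4 : ∀ a b c : ZMod 2, a + c + (b + c) = a + b := by decide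
  exact h4 _ _ _

theorem kbb_jj (n x x' : Finset S.P) (h : Disjoint x n) (h' : Disjoint x' n) :
    S.jj x n * S.jj x' n = sg (S.JJ n (symmDiff x x') +
      ((S.l ⬝ᵥ S.tys x + S.l ⬝ᵥ S.tys x') • S.l) ⬝ᵥ S.tys n) := by
  have h1 := S.JJ_recip h
  have h2 := S.JJ_recip h'
  unfold Sys.jj
  rw [← sg_add, ← kbb_JJ, smul_dotProduct, smul_eq_mul]
  congr 1
  have h4 : ∀ a b a' b' u v w : ZMod 2, a + b = u * w → a' + b' = v * w →
      a + a' = b + b' + (u + v) * w := by decide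
  exact h4 _ _ _ _ _ _ _ h1 h2

theorem kbb_disj (n x x' : Finset S.P) :
    (Disjoint x n ∧ Disjoint x' n) ↔ Disjoint n (symmDiff x x' ∪ (x ∩ x')) := by
  have h1 : symmDiff x x' ∪ (x ∩ x') = x ∪ x' := symmDiff_sup_inf x x'
  rw [h1, Finset.disjoint_union_right]
  exact and_congr disjoint_comm disjoint_comm

end

open Classical in
/-- the inner sum -/
noncomputable def kbbG {S : Sys} (Q : Qd S) (Y : ℝ) (x x' : Finset S.P) : ℝ :=
  ∑ g ∈ Q.gb Y, (if Disjoint x (Q.shd g) ∧ Disjoint x' (Q.shd g)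
    then ((S.jj x (Q.shd g) * S.jj x' (Q.shd g) : ℤ) : ℝ) else 0)

theorem kbbG_triv {S : Sys} (Q : Qd S) (Y : ℝ) (x x' : Finset S.P) :
    |kbbG Q Y x x'| ≤ ((Q.gb Y).card : ℝ) := by
  unfold kbbG
  refine (Finset.abs_sum_le_sum_abs _ _).trans ?_
  refine (Finset.sum_le_card_nsmul _ _ 1 fun g _ => ?_).trans (by simp)
  split_ifs
  · push_cast
    rw [abs_mul, S.abs_jj, S.abs_jj, one_mul]
  · simp

theorem kbbG_bd (h0 : SKPt) (h4 : SKGood) (S : Sys) : ∃ C A δ : ℝ, 0 ≤ C ∧ 0 ≤ A ∧ 0 < δ ∧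
    ∀ (Q : Qd S) (X Y : ℝ) (x x' : Finset S.P), 1 ≤ X → 1 ≤ Y → x ∈ S.bx X → x' ∈ S.bx X →
      Disjoint x Q.M → Disjoint x' Q.M → x ≠ x' →
      |kbbG Q Y x x'| ≤ C * (S.nm Q.M : ℝ) ^ A * X ^ (2 * A + 1) * Y ^ (1 - δ) := by
  classical
  obtain ⟨C0, hC0⟩ := h0 S 1 one_pos
  obtain ⟨C1, A1, δ, hδ, hC1⟩ := h4 S
  refine ⟨|C1| * |C0|, max A1 0, δ, by positivity, le_max_right _ _, hδ, ?_⟩
  intro Q X Y x x' hX hY hx hx' hxM hxM' hne
  have hX0 : 0 < X := by linarith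
  have hx1 := S.mem_bx.1 hx
  have hx1' := S.mem_bx.1 hx'
  have hp : ∃ p ∈ symmDiff x x', p ∉ Q.M := by
    have h1 : (symmDiff x x').Nonempty := by
      rw [Finset.nonempty_iff_ne_empty]
      intro h
      exact hne (symmDiff_eq_bot.1 h)
    obtain ⟨p, hp⟩ := h1
    refine ⟨p, hp, fun hpM => ?_⟩
    rw [Finset.mem_symmDiff] at hp
    rcases hp with h | h
    · exact Finset.disjoint_left.1 hxM h.1 hpM
    · exact Finset.disjoint_left.1 hxM' h.1 hpM
  have h1 := hC1 Q (symmDiff x x') (x ∩ x')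
    ((S.l ⬝ᵥ S.tys x + S.l ⬝ᵥ S.tys x') • S.l) hp Y hY
  have h2 : kbbG Q Y x x' = ∑ g ∈ Q.gb Y,
      (if Disjoint (Q.shd g) (symmDiff x x' ∪ (x ∩ x'))
        then ((sg (S.JJ (Q.shd g) (symmDiff x x') +
          ((S.l ⬝ᵥ S.tys x + S.l ⬝ᵥ S.tys x') • S.l) ⬝ᵥ S.tys (Q.shd g)) : ℤ) : ℝ) else 0) := by
    unfold kbbG
    refine Finset.sum_congr rfl fun g _ => ?_
    by_cases h : Disjoint x (Q.shd g) ∧ Disjoint x' (Q.shd g)
    · rw [if_pos h, if_pos ((kbb_disj _ _ _).1 h), kbb_jj _ _ _ h.1 h.2]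
    · rw [if_neg h, if_neg (fun h3 => h ((kbb_disj _ _ _).2 h3))]
  rw [h2]
  refine h1.trans ?_
  have hM := S.one_le_nmr Q.M
  have hy : (S.nm (symmDiff x x') : ℝ) ≤ X ^ (2 : ℝ) := by
    have e1 : S.nm (symmDiff x x') ≤ S.nm x * S.nm x' :=
      (S.nm_mono (symmDiff_le_sup (a := x) (b := x'))).trans (S.nm_union_le x x')
    have e2 : (S.nm (symmDiff x x') : ℝ) ≤ S.nm x * S.nm x' := by exact_mod_cast e1
    refine e2.trans ?_
    rw [Real.rpow_two, sq]
    exact mul_le_mul hx1 hx1' (Nat.cast_nonneg _) hX0.le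
  have hy1 := S.one_le_nmr (symmDiff x x')
  have hz : S.hs (x ∩ x') ≤ |C0| * X := by
    refine ((hC0 (x ∩ x')).1).trans ?_
    rw [Real.rpow_one]
    refine mul_le_mul (le_abs_self _) ?_ (Nat.cast_nonneg _) (abs_nonneg _)
    refine le_trans ?_ hx1
    exact_mod_cast S.nm_mono Finset.inter_subset_left
  have hz0 : 0 ≤ S.hs (x ∩ x') := le_trans zero_le_one (S.one_le_hs _)
  have hA : ((S.nm Q.M : ℝ) * S.nm (symmDiff x x')) ^ A1 ≤
      (S.nm Q.M : ℝ) ^ (max A1 0) * X ^ (2 * max A1 0) := by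
    have e1 : 1 ≤ (S.nm Q.M : ℝ) * S.nm (symmDiff x x') := by nlinarith
    refine (Real.rpow_le_rpow_of_exponent_le e1 (le_max_left A1 0)).trans ?_
    rw [Real.mul_rpow (by linarith) (by linarith), Real.rpow_mul hX0.le]
    refine mul_le_mul_of_nonneg_left ?_ (Real.rpow_nonneg (by linarith) _)
    exact Real.rpow_le_rpow (by linarith) hy (le_max_right _ _)
  have hY0 : 0 ≤ Y ^ (1 - δ) := Real.rpow_nonneg (by linarith) _
  have hM0 : 0 ≤ (S.nm Q.M : ℝ) ^ (max A1 0) := Real.rpow_nonneg (by linarith) _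
  have hX1 : 0 ≤ X ^ (2 * max A1 0) := Real.rpow_nonneg hX0.le _
  have hB0 : 0 ≤ ((S.nm Q.M : ℝ) * S.nm (symmDiff x x')) ^ A1 :=
    Real.rpow_nonneg (by positivity) _
  calc C1 * ((S.nm Q.M : ℝ) * S.nm (symmDiff x x')) ^ A1 * S.hs (x ∩ x') * Y ^ (1 - δ)
      ≤ |C1| * ((S.nm Q.M : ℝ) ^ (max A1 0) * X ^ (2 * max A1 0)) * (|C0| * X) * Y ^ (1 - δ) := by
        refine mul_le_mul_of_nonneg_right ?_ hY0
        refine mul_le_mul ?_ hz hz0 (by positivity)
        exact mul_le_mul (le_abs_self _) hA hB0 (abs_nonneg _)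
    _ = |C1| * |C0| * (S.nm Q.M : ℝ) ^ (max A1 0) * X ^ (2 * max A1 0 + 1) * Y ^ (1 - δ) := by
        rw [Real.rpow_add hX0, Real.rpow_one]
        ring

theorem kbb_cs {S : Sys} (Q : Qd S) (a : Finset S.P → ℝ) (b : Finset Q.P → ℝ)
    (ha : ∀ x, |a x| ≤ 1) (hb : ∀ g, |b g| ≤ 1) (X Y : ℝ) (K1 : ℝ) (hK1 : 0 ≤ K1)
    (hK : ∀ x ∈ S.bx X, ∀ x' ∈ S.bx X, Disjoint x Q.M → Disjoint x' Q.M → x ≠ x' →
      |kbbG Q Y x x'| ≤ K1) :
    BL Q a b X Y ^ 2 ≤ ((Q.gb Y).card : ℝ) *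
      (((S.bx X).card : ℝ) * (Q.gb Y).card + ((S.bx X).card : ℝ) ^ 2 * K1) := by
  classical
  set F : Finset Q.P → ℝ := fun g => ∑ x ∈ S.bx X,
    (if Disjoint x Q.M ∧ Disjoint x (Q.shd g) then a x * (S.jj x (Q.shd g) : ℝ) else 0) with hF
  have h1 : BL Q a b X Y = ∑ g ∈ Q.gb Y, b g * F g := by
    unfold BL
    rw [Finset.sum_comm]
    refine Finset.sum_congr rfl fun g _ => ?_
    rw [hF, Finset.mul_sum]
    refine Finset.sum_congr rfl fun x _ => ?_
    by_cases h : Disjoint x Q.M ∧ Disjoint x (Q.shd g)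
    · rw [if_pos h, if_pos h]
      ring
    · rw [if_neg h, if_neg h, mul_zero]
  have h2 : ∑ g ∈ Q.gb Y, F g ^ 2 = ∑ x ∈ S.bx X, ∑ x' ∈ S.bx X,
      (if Disjoint x Q.M ∧ Disjoint x' Q.M then a x * a x' * kbbG Q Y x x' else 0) := by
    have e1 : ∀ g ∈ Q.gb Y, F g ^ 2 = ∑ x ∈ S.bx X, ∑ x' ∈ S.bx X,
        (if Disjoint x Q.M ∧ Disjoint x' Q.M then a x * a x' *
          (if Disjoint x (Q.shd g) ∧ Disjoint x' (Q.shd g)
            then ((S.jj x (Q.shd g) * S.jj x' (Q.shd g) : ℤ) : ℝ) else 0) else 0) := by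
      intro g _
      rw [sq, hF, Finset.sum_mul_sum]
      refine Finset.sum_congr rfl fun x _ => Finset.sum_congr rfl fun x' _ => ?_
      by_cases h : Disjoint x Q.M <;> by_cases h' : Disjoint x' Q.M <;>
        by_cases k : Disjoint x (Q.shd g) <;> by_cases k' : Disjoint x' (Q.shd g) <;>
        simp [h, h', k, k']
      ring
    rw [Finset.sum_congr rfl e1, Finset.sum_comm]
    refine Finset.sum_congr rfl fun x _ => ?_
    rw [Finset.sum_comm]
    refine Finset.sum_congr rfl fun x' _ => ?_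
    by_cases h : Disjoint x Q.M ∧ Disjoint x' Q.M
    · simp only [if_pos h]
      rw [← Finset.mul_sum]
      rfl
    · simp only [if_neg h]
      exact Finset.sum_const_zero
  have h3 : ∑ g ∈ Q.gb Y, F g ^ 2 ≤
      ((S.bx X).card : ℝ) * (Q.gb Y).card + ((S.bx X).card : ℝ) ^ 2 * K1 := by
    rw [h2]
    have e1 : ∀ x ∈ S.bx X, ∀ x' ∈ S.bx X,
        (if Disjoint x Q.M ∧ Disjoint x' Q.M then a x * a x' * kbbG Q Y x x' else 0) ≤
          (if x = x' then ((Q.gb Y).card : ℝ) else 0) + K1 := by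
      intro x hx x' hx'
      have hg0 : (0 : ℝ) ≤ if x = x' then ((Q.gb Y).card : ℝ) else 0 := by
        split_ifs
        · exact Nat.cast_nonneg _
        · exact le_rfl
      by_cases h : Disjoint x Q.M ∧ Disjoint x' Q.M
      · rw [if_pos h]
        have e2 : a x * a x' * kbbG Q Y x x' ≤ |kbbG Q Y x x'| := by
          refine (le_abs_self _).trans ?_
          rw [abs_mul, abs_mul]
          have e3 : |a x| * |a x'| ≤ 1 := mul_le_one₀ (ha x) (abs_nonneg _) (ha x')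
          calc |a x| * |a x'| * |kbbG Q Y x x'| ≤ 1 * |kbbG Q Y x x'| :=
                mul_le_mul_of_nonneg_right e3 (abs_nonneg _)
            _ = |kbbG Q Y x x'| := one_mul _
        refine e2.trans ?_
        by_cases hxx : x = x'
        · rw [if_pos hxx]
          have := kbbG_triv Q Y x x'
          linarith
        · rw [if_neg hxx]
          have := hK x hx x' hx' h.1 h.2 hxx
          linarith
      · rw [if_neg h]
        linarith
    calc _ ≤ ∑ x ∈ S.bx X, ∑ x' ∈ S.bx X,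
          ((if x = x' then ((Q.gb Y).card : ℝ) else 0) + K1) :=
          Finset.sum_le_sum fun x hx => Finset.sum_le_sum fun x' hx' => e1 x hx x' hx'
      _ = _ := by
          have e4 : ∀ x ∈ S.bx X, ∑ x' ∈ S.bx X,
              ((if x = x' then ((Q.gb Y).card : ℝ) else 0) + K1) =
                ((Q.gb Y).card : ℝ) + (S.bx X).card * K1 := by
            intro x hx
            rw [Finset.sum_add_distrib, Finset.sum_ite_eq, if_pos hx, Finset.sum_const,
              nsmul_eq_mul]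
          rw [Finset.sum_congr rfl e4, Finset.sum_const, nsmul_eq_mul]
          ring
  rw [h1]
  refine (Finset.sum_mul_sq_le_sq_mul_sq _ _ _).trans ?_
  refine mul_le_mul ?_ h3 (Finset.sum_nonneg fun g _ => sq_nonneg _) (Nat.cast_nonneg _)
  refine (Finset.sum_le_card_nsmul _ _ 1 fun g _ => ?_).trans (by simp)
  rw [← sq_abs]
  exact pow_le_one₀ (abs_nonneg _) (hb g)

/-- the good sets long -/
theorem skb_of (h0 : SKPt) (h1 : SKCard) (h2 : SKHs) (h4 : SKGood) : SKb := by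
  intro S
  obtain ⟨C, A, δ, hC, hA, hδ, hG⟩ := kbbG_bd h0 h4 S
  obtain ⟨C1, hC1⟩ := h1 S 1 one_pos
  obtain ⟨C2, hC2⟩ := card_bx_le S
  have hL : 2 * A + 2 ≤ max 1 ((2 * A + 2) / δ) * δ := by
    have := le_max_right 1 ((2 * A + 2) / δ)
    rwa [div_le_iff₀ hδ] at this
  set L := max 1 ((2 * A + 2) / δ) with hLd
  set K := C1 ^ 2 * |C2| + |C1| * C2 ^ 2 * C with hKd
  have hK0 : 0 ≤ K := by positivity
  refine ⟨L, K + 1, A + 2, 1 / 2, le_max_left _ _, by linarith, by norm_num, ?_⟩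
  intro Q a b ha hb X Y hX hY hXY
  have hX0 : 0 < X := by linarith
  have hY0 : 0 < Y := by linarith
  have hM := S.one_le_nmr Q.M
  set m : ℝ := (S.nm Q.M : ℝ) with hm
  have hm0 : 0 < m := by linarith
  have hg : ((Q.gb Y).card : ℝ) ≤ |C1| * m * Y := by
    refine (hC1 Q Y hY).trans ?_
    rw [Real.rpow_one]
    exact mul_le_mul_of_nonneg_right (mul_le_mul_of_nonneg_right (le_abs_self _) hm0.le) hY0.le
  have hx : ((S.bx X).card : ℝ) ≤ |C2| * X :=
    (hC2 X hX).trans (mul_le_mul_of_nonneg_right (le_abs_self _) hX0.le)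
  have hK1 : 0 ≤ C * m ^ A * X ^ (2 * A + 1) * Y ^ (1 - δ) :=
    mul_nonneg (mul_nonneg (mul_nonneg hC (Real.rpow_nonneg hm0.le _))
      (Real.rpow_nonneg hX0.le _)) (Real.rpow_nonneg hY0.le _)
  have hcs := kbb_cs Q a b ha hb X Y (C * m ^ A * X ^ (2 * A + 1) * Y ^ (1 - δ)) hK1
    (fun x hx x' hx' hM1 hM2 hne => hG Q X Y x x' hX hY hx hx' hM1 hM2 hne)
  have hg0 : (0 : ℝ) ≤ (Q.gb Y).card := Nat.cast_nonneg _
  have hx0 : (0 : ℝ) ≤ (S.bx X).card := Nat.cast_nonneg _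
  -- the power of `Y`
  have hYp : X ^ (2 * A + 1) * X * Y ^ (1 - δ) ≤ Y := by
    have e1 : Y ^ (1 - δ) = Y * Y ^ (-δ) := by
      rw [sub_eq_add_neg, Real.rpow_add hY0, Real.rpow_one]
    have e2 : X ^ (2 * A + 1) * X = X ^ (2 * A + 2) := by
      have e5 : 2 * A + 2 = (2 * A + 1) + 1 := by ring
      rw [e5]
      exact (Real.rpow_add_one hX0.ne' (2 * A + 1)).symm
    have e3 : X ^ (2 * A + 2) ≤ Y ^ δ := by
      calc X ^ (2 * A + 2) ≤ X ^ (L * δ) := Real.rpow_le_rpow_of_exponent_le hX hL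
        _ = (X ^ L) ^ δ := Real.rpow_mul hX0.le _ _
        _ ≤ Y ^ δ := Real.rpow_le_rpow (Real.rpow_nonneg hX0.le _) hXY hδ.le
    have e4 : 0 < Y ^ δ := Real.rpow_pos_of_pos hY0 _
    rw [e2, e1, Real.rpow_neg hY0.le]
    calc X ^ (2 * A + 2) * (Y * (Y ^ δ)⁻¹) = Y * (X ^ (2 * A + 2) / Y ^ δ) := by
          field_simp
      _ ≤ Y * 1 := by
          refine mul_le_mul_of_nonneg_left ?_ hY0.le
          rw [div_le_one e4]
          exact e3
      _ = Y := mul_one _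
  have hmA : 1 ≤ m ^ A := Real.one_le_rpow hM hA
  have hmA2 : m ^ (A + 2) = m ^ A * m ^ 2 := by
    rw [Real.rpow_add hm0, Real.rpow_two]
  have hm1 : m ^ 2 ≤ m ^ (A + 2) := by
    rw [hmA2]
    exact le_mul_of_one_le_left (by positivity) hmA
  have hm2 : m * m ^ A ≤ m ^ (A + 2) := by
    rw [hmA2, mul_comm]
    refine mul_le_mul_of_nonneg_left ?_ (by linarith)
    nlinarith
  have hsq : BL Q a b X Y ^ 2 ≤ K * m ^ (A + 2) * (Y ^ 2 * X) := by
    refine hcs.trans ?_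
    calc ((Q.gb Y).card : ℝ) * (((S.bx X).card : ℝ) * (Q.gb Y).card +
          ((S.bx X).card : ℝ) ^ 2 * (C * m ^ A * X ^ (2 * A + 1) * Y ^ (1 - δ)))
        ≤ (|C1| * m * Y) * ((|C2| * X) * (|C1| * m * Y) +
          (|C2| * X) ^ 2 * (C * m ^ A * X ^ (2 * A + 1) * Y ^ (1 - δ))) := by
          have f1 : ((S.bx X).card : ℝ) ^ 2 ≤ (|C2| * X) ^ 2 := pow_le_pow_left₀ hx0 hx 2
          have f2 := mul_le_mul_of_nonneg_right f1 hK1
          have f3 := mul_le_mul hx hg hg0 (by positivity)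
          exact mul_le_mul hg (add_le_add f3 f2) (by positivity) (by positivity)
      _ = C1 ^ 2 * |C2| * m ^ 2 * (Y ^ 2 * X) + |C1| * C2 ^ 2 * C * (m * m ^ A) *
            (X * Y) * (X ^ (2 * A + 1) * X * Y ^ (1 - δ)) := by
          have g1 : |C1| ^ 2 = C1 ^ 2 := sq_abs _
          have g2 : |C2| ^ 2 = C2 ^ 2 := sq_abs _
          rw [← g1, ← g2]
          ring
      _ ≤ C1 ^ 2 * |C2| * m ^ (A + 2) * (Y ^ 2 * X) + |C1| * C2 ^ 2 * C * m ^ (A + 2) *
            (X * Y) * Y := by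
          have g0 : 0 ≤ m ^ (A + 2) := by positivity
          refine add_le_add ?_ ?_
          · exact mul_le_mul_of_nonneg_right (mul_le_mul_of_nonneg_left hm1 (by positivity))
              (by positivity)
          · refine mul_le_mul ?_ hYp ?_ (by positivity)
            · exact mul_le_mul_of_nonneg_right (mul_le_mul_of_nonneg_left hm2 (by positivity))
                (by positivity)
            · have := Real.rpow_nonneg hX0.le (2 * A + 1)
              have := Real.rpow_nonneg hY0.le (1 - δ)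
              positivity
      _ = K * m ^ (A + 2) * (Y ^ 2 * X) := by
          rw [hKd]
          ring
  have hmA3 : 1 ≤ m ^ (A + 2) := Real.one_le_rpow hM (by linarith)
  have hXh : X ^ (-(1 / 2) : ℝ) * X = X ^ (1 / 2 : ℝ) := by
    rw [← Real.rpow_add_one hX0.ne']
    norm_num
  have hXh2 : (X ^ (1 / 2 : ℝ)) ^ 2 = X := by
    rw [← Real.rpow_natCast, ← Real.rpow_mul hX0.le]
    norm_num
  have hfin : BL Q a b X Y ^ 2 ≤ ((K + 1) * m ^ (A + 2) * (Y * X ^ (1 / 2 : ℝ))) ^ 2 := by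
    refine hsq.trans ?_
    have e1 : ((K + 1) * m ^ (A + 2) * (Y * X ^ (1 / 2 : ℝ))) ^ 2 =
        (K + 1) ^ 2 * (m ^ (A + 2)) ^ 2 * (Y ^ 2 * X) := by
      rw [mul_pow, mul_pow, mul_pow, hXh2]
    rw [e1]
    refine mul_le_mul_of_nonneg_right ?_ (by positivity)
    have f1 : K ≤ (K + 1) ^ 2 := by
      have f2 : (K + 1) ^ 2 = K + (K ^ 2 + K + 1) := by ring
      rw [f2]
      have f3 : 0 ≤ K ^ 2 + K + 1 := by positivity
      linarith
    have f4 : m ^ (A + 2) ≤ (m ^ (A + 2)) ^ 2 := by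
      rw [sq]
      exact le_mul_of_one_le_left (by linarith) hmA3
    exact mul_le_mul f1 f4 (by linarith) (by positivity)
  have h5 := abs_le_of_sq_le_sq hfin (by positivity)
  have h6 : (K + 1) * m ^ (A + 2) * (X * Y) * X ^ (-(1 / 2) : ℝ) =
      (K + 1) * m ^ (A + 2) * (Y * X ^ (1 / 2 : ℝ)) := by
    rw [← hXh]
    ring
  rw [h6]
  exact h5

end Pool.Agent.H32.MQ
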