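import Pool.Agent.H32.MQ.KUStm
import Pool.Agent.H98.MF.SSieve

/-!
# Malle's conjecture for 8T28 and 8T29: row K5c, the bilinear form with short good sets
-/

set_option autoImplicit false

open scoped BigOperators

namespace Pool.Agent.H32.MQ

open Pool.Agent.H98.MK (sg)
open Pool.Agent.H98.MF

theorem k5c_chv (F : Sys) (x y : Finset F.P) :
    F.chv y (F.ex y 0) (F.idf x) = if Disjoint x y then F.jj x y else 0 := by
  unfold Pre.chv
  rw [F.idf_support]
  by_cases h : Disjoint x y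
  · rw [if_pos h, if_pos h]
    unfold Sys.jj
    congr 1
    unfold Finsupp.sum
    rw [F.idf_support]
    have h1 : ∑ p ∈ x, ((F.idf x p : ℕ) : ZMod 2) * F.ex y 0 p = ∑ p ∈ x, F.ex y 0 p := by
      refine Finset.sum_congr rfl fun p hp => ?_
      rw [F.idf_apply, if_pos hp, Nat.cast_one, one_mul]
    rw [h1, F.sum_ex, zero_dotProduct, add_zero]
  · rw [if_neg h, if_neg h]

open Classical in
/-- the primes of `F` above a prime of `k` -/
noncomputable def k5cFib {S : Sys} (Q : Qd S) (p : S.P) : Finset Q.P :=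
  if h : ∃ a, Q.sh a = p then {h.choose, Q.cj h.choose} else ∅

theorem k5c_card {S : Sys} (Q : Qd S) (p : S.P) : (k5cFib Q p).card ≤ 2 := by
  classical
  unfold k5cFib
  split_ifs with h
  · exact Finset.card_le_two
  · simp

theorem k5c_mem {S : Sys} (Q : Qd S) (a : Q.P) : a ∈ k5cFib Q (Q.sh a) := by
  classical
  unfold k5cFib
  have h : ∃ a', Q.sh a' = Q.sh a := ⟨a, rfl⟩
  rw [dif_pos h]
  rcases Q.fib h.choose a h.choose_spec with h1 | h1
  · rw [Finset.mem_insert]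
    exact Or.inl h1
  · rw [Finset.mem_insert, Finset.mem_singleton]
    exact Or.inr h1

open Classical in
/-- few good sets with a given shadow -/
theorem k5c_few {S : Sys} (Q : Qd S) (Y : ℝ) (n : Finset S.P) :
    ((Q.gb Y).filter fun g => Q.shd g = n).card ≤ 4 ^ n.card := by
  have h1 : ((Q.gb Y).filter fun g => Q.shd g = n) ⊆ (n.biUnion (k5cFib Q)).powerset := by
    intro g hg
    rw [Finset.mem_filter] at hg
    rw [Finset.mem_powerset]
    intro a ha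
    rw [Finset.mem_biUnion]
    refine ⟨Q.sh a, ?_, k5c_mem Q a⟩
    rw [← hg.2]
    exact Finset.mem_image_of_mem _ ha
  have h2 : (n.biUnion (k5cFib Q)).card ≤ n.card * 2 :=
    Finset.card_biUnion_le_card_mul _ _ _ fun p _ => k5c_card Q p
  calc ((Q.gb Y).filter fun g => Q.shd g = n).card
      ≤ (n.biUnion (k5cFib Q)).powerset.card := Finset.card_le_card h1
    _ = 2 ^ (n.biUnion (k5cFib Q)).card := Finset.card_powerset _
    _ ≤ 2 ^ (n.card * 2) := Nat.pow_le_pow_right (by norm_num) h2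
    _ = 4 ^ n.card := by
      rw [mul_comm, pow_mul]
      norm_num

open Classical in
/-- the sum with coefficients `B` of size `4 ^ card` -/
theorem k5c_core (S : Sys) (hPt : ∃ C : ℝ, ∀ x : Finset S.P,
    (16 : ℝ) ^ x.card ≤ C * (S.nm x : ℝ) ^ (1 / 4 : ℝ)) :
    ∃ C : ℝ, ∀ (B : Finset S.P → ℝ), (∀ n, |B n| ≤ 4 ^ n.card) → ∀ X Y : ℝ, 1 ≤ X → 1 ≤ Y →
      Y ^ ((2 * S.A + 2) / S.dl) ≤ X →
      ∑ x ∈ S.bx X, |∑ n ∈ S.bx Y, (if Disjoint x n then B n * (S.jj x n : ℝ) else 0)| ≤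
        C * (X * Y) * Y ^ (-(1 / 4) : ℝ) := by
  obtain ⟨C1, hC1⟩ := hPt
  obtain ⟨C2, hC2⟩ := sieve S
  obtain ⟨C3, hC3⟩ := card_bx_le S
  have hC1pos : 1 ≤ C1 := by
    have h := hC1 ∅
    rw [Finset.card_empty, pow_zero, S.nm_empty, Nat.cast_one, Real.one_rpow, mul_one] at h
    exact h
  refine ⟨2 * C1 ^ 2 * |C2| * |C3| + 1, fun B hB X Y hX hY hL => ?_⟩
  have hX0 : 0 < X := by linarith
  have hY0 : 0 < Y := by linarith
  set K : ℝ := C1 * Y ^ (1 / 4 : ℝ) with hK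
  have hK0 : 0 < K := mul_pos (by linarith) (Real.rpow_pos_of_pos hY0 _)
  set D : ℝ := 2 * C1 ^ 2 * |C2| * |C3| + 1 with hD
  have hD1 : 1 ≤ D := by
    have : 0 ≤ 2 * C1 ^ 2 * |C2| * |C3| := by positivity
    linarith
  let b : Finset S.P → ℝ := fun n => if n ∈ S.bx Y then B n / K else 0
  have hb : ∀ n, |b n| ≤ 1 := by
    intro n
    by_cases hn : n ∈ S.bx Y
    · have h1 : b n = B n / K := if_pos hn
      rw [h1, abs_div, abs_of_pos hK0, div_le_one hK0]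
      have h2 : (S.nm n : ℝ) ≤ Y := S.mem_bx.1 hn
      calc |B n| ≤ 4 ^ n.card := hB n
        _ ≤ 16 ^ n.card := pow_le_pow_left₀ (by norm_num) (by norm_num) _
        _ ≤ C1 * (S.nm n : ℝ) ^ (1 / 4 : ℝ) := hC1 n
        _ ≤ K := by
          rw [hK]
          exact mul_le_mul_of_nonneg_left
            (Real.rpow_le_rpow (Nat.cast_nonneg _) h2 (by norm_num)) (by linarith)
    · have h1 : b n = 0 := if_neg hn
      rw [h1, abs_zero]
      exact zero_le_one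
  let U : (S.P →₀ ℕ) → ℝ := fun f => ∑ n ∈ S.bx Y, b n * (S.chv n (S.ex n 0) f : ℝ)
  let T : Finset S.P → ℝ := fun x =>
    ∑ n ∈ S.bx Y, (if Disjoint x n then B n * (S.jj x n : ℝ) else 0)
  have hT : ∀ x, T x = K * U (S.idf x) := by
    intro x
    show ∑ n ∈ S.bx Y, _ = K * ∑ n ∈ S.bx Y, _
    rw [Finset.mul_sum]
    refine Finset.sum_congr rfl fun n hn => ?_
    have h1 : b n = B n / K := if_pos hn
    rw [k5c_chv, h1]
    by_cases h : Disjoint x n
    · rw [if_pos h, if_pos h]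
      field_simp
    · rw [if_neg h, if_neg h, Int.cast_zero, mul_zero, mul_zero]
  have hsq : ∑ x ∈ S.bx X, T x ^ 2 ≤ K ^ 2 * (|C2| * (2 * (X * Y))) := by
    have h1 : ∑ x ∈ S.bx X, T x ^ 2 = K ^ 2 * ∑ x ∈ S.bx X, U (S.idf x) ^ 2 := by
      rw [Finset.mul_sum]
      refine Finset.sum_congr rfl fun x _ => ?_
      rw [hT, mul_pow]
    have h2 : ∑ x ∈ S.bx X, U (S.idf x) ^ 2 ≤ ∑ f ∈ S.idl X, U f ^ 2 := by
      have h3 : ∑ x ∈ S.bx X, U (S.idf x) ^ 2 = ∑ f ∈ (S.bx X).image S.idf, U f ^ 2 := by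
        rw [Finset.sum_image]
        intro x _ y _ h
        exact S.idf_inj h
      rw [h3]
      refine Finset.sum_le_sum_of_subset_of_nonneg ?_ fun f _ _ => sq_nonneg _
      intro f hf
      rw [Finset.mem_image] at hf
      obtain ⟨x, hx, rfl⟩ := hf
      rw [S.mem_idl, S.nf_idf]
      exact S.mem_bx.1 hx
    have h4 : ∑ f ∈ S.idl X, U f ^ 2 ≤ C2 * (X * Y + Y ^ (2 * S.A + 2) * X ^ (1 - S.dl)) :=
      hC2 X Y b hX hY hb
    have h5 : Y ^ (2 * S.A + 2) * X ^ (1 - S.dl) ≤ X * Y := by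
      have h6 : Y ^ (2 * S.A + 2) ≤ X ^ S.dl := by
        have h7 : Y ^ (2 * S.A + 2) = (Y ^ ((2 * S.A + 2) / S.dl)) ^ S.dl := by
          rw [← Real.rpow_mul hY0.le, div_mul_cancel₀ _ S.dl_pos.ne']
        rw [h7]
        exact Real.rpow_le_rpow (Real.rpow_nonneg hY0.le _) hL S.dl_pos.le
      calc Y ^ (2 * S.A + 2) * X ^ (1 - S.dl) ≤ X ^ S.dl * X ^ (1 - S.dl) :=
            mul_le_mul_of_nonneg_right h6 (Real.rpow_nonneg hX0.le _)
        _ = X := by
            rw [← Real.rpow_add hX0, add_sub_cancel, Real.rpow_one]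
        _ ≤ X * Y := le_mul_of_one_le_right hX0.le hY
    have h8 : 0 ≤ X * Y + Y ^ (2 * S.A + 2) * X ^ (1 - S.dl) := by positivity
    rw [h1]
    refine mul_le_mul_of_nonneg_left ?_ (sq_nonneg K)
    calc ∑ x ∈ S.bx X, U (S.idf x) ^ 2
        ≤ C2 * (X * Y + Y ^ (2 * S.A + 2) * X ^ (1 - S.dl)) := h2.trans h4
      _ ≤ |C2| * (X * Y + Y ^ (2 * S.A + 2) * X ^ (1 - S.dl)) :=
          mul_le_mul_of_nonneg_right (le_abs_self _) h8
      _ ≤ |C2| * (2 * (X * Y)) :=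
          mul_le_mul_of_nonneg_left (by linarith) (abs_nonneg _)
  have hcs : (∑ x ∈ S.bx X, |T x|) ^ 2 ≤ ((S.bx X).card : ℝ) * ∑ x ∈ S.bx X, T x ^ 2 := by
    have h1 := sq_sum_le_card_mul_sum_sq (s := S.bx X) (f := fun x => |T x|)
    simpa only [sq_abs] using h1
  have hY2 : (Y ^ (1 / 4 : ℝ)) ^ 2 * Y = (Y * Y ^ (-(1 / 4) : ℝ)) ^ 2 := by
    have e1 : (Y ^ (1 / 4 : ℝ)) ^ 2 * Y = Y ^ (3 / 2 : ℝ) := by
      rw [← Real.rpow_natCast, ← Real.rpow_mul hY0.le]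
      nth_rewrite 2 [← Real.rpow_one Y]
      rw [← Real.rpow_add hY0]
      norm_num
    have e2 : (Y * Y ^ (-(1 / 4) : ℝ)) ^ 2 = Y ^ (3 / 2 : ℝ) := by
      nth_rewrite 1 [← Real.rpow_one Y]
      rw [← Real.rpow_add hY0, ← Real.rpow_natCast, ← Real.rpow_mul hY0.le]
      norm_num
    rw [e1, e2]
  have hfin : (∑ x ∈ S.bx X, |T x|) ^ 2 ≤ (D * (X * Y) * Y ^ (-(1 / 4) : ℝ)) ^ 2 := by
    have h1 : ((S.bx X).card : ℝ) ≤ |C3| * X :=
      (hC3 X hX).trans (mul_le_mul_of_nonneg_right (le_abs_self _) hX0.le)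
    have h2 : 0 ≤ ∑ x ∈ S.bx X, T x ^ 2 := Finset.sum_nonneg fun _ _ => sq_nonneg _
    calc (∑ x ∈ S.bx X, |T x|) ^ 2 ≤ ((S.bx X).card : ℝ) * ∑ x ∈ S.bx X, T x ^ 2 := hcs
      _ ≤ (|C3| * X) * (K ^ 2 * (|C2| * (2 * (X * Y)))) :=
          mul_le_mul h1 hsq h2 (by positivity)
      _ = (D - 1) * (X ^ 2 * ((Y ^ (1 / 4 : ℝ)) ^ 2 * Y)) := by
          rw [hK, hD]
          ring
      _ ≤ D ^ 2 * (X ^ 2 * ((Y ^ (1 / 4 : ℝ)) ^ 2 * Y)) := by
          refine mul_le_mul_of_nonneg_right ?_ (by positivity)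
          nlinarith
      _ = (D * (X * Y) * Y ^ (-(1 / 4) : ℝ)) ^ 2 := by
          rw [hY2]
          ring
  exact le_of_sq_le_sq hfin (by positivity)

theorem skc_of (h0 : SKPt) : SKc := by
  classical
  intro S
  obtain ⟨C1, hC1⟩ := h0 S (1 / 4) (by norm_num)
  obtain ⟨C, hC⟩ := k5c_core S ⟨C1, fun x => (hC1 x).2⟩
  refine ⟨(2 * S.A + 2) / S.dl, C, 0, 1 / 4, ?_, le_rfl, by norm_num, ?_⟩
  · rw [one_le_div S.dl_pos]
    have h1 := S.dl_le
    have h2 := S.A_nonneg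
    linarith
  intro Q a b ha hb X Y hX hY hL
  rw [Real.rpow_zero, mul_one]
  let B : Finset S.P → ℝ := fun n => ∑ g ∈ (Q.gb Y).filter (fun g => Q.shd g = n), b g
  have hB : ∀ n, |B n| ≤ 4 ^ n.card := by
    intro n
    calc |B n| ≤ ∑ g ∈ (Q.gb Y).filter (fun g => Q.shd g = n), |b g| :=
          Finset.abs_sum_le_sum_abs _ _
      _ ≤ ∑ _g ∈ (Q.gb Y).filter (fun g => Q.shd g = n), (1 : ℝ) :=
          Finset.sum_le_sum fun g _ => hb g
      _ = (((Q.gb Y).filter (fun g => Q.shd g = n)).card : ℝ) := by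
          rw [Finset.sum_const, nsmul_eq_mul, mul_one]
      _ ≤ 4 ^ n.card := by exact_mod_cast k5c_few Q Y n
  have h := hC B hB X Y hX hY hL
  refine le_trans ?_ h
  unfold BL
  refine (Finset.abs_sum_le_sum_abs _ _).trans (Finset.sum_le_sum fun x _ => ?_)
  by_cases hx : Disjoint x Q.M
  · have h1 : ∑ g ∈ Q.gb Y, (if Disjoint x Q.M ∧ Disjoint x (Q.shd g)
        then a x * b g * (S.jj x (Q.shd g) : ℝ) else 0) =
        a x * ∑ n ∈ S.bx Y, (if Disjoint x n then B n * (S.jj x n : ℝ) else 0) := by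
      have h2 : ∀ g ∈ Q.gb Y, Q.shd g ∈ S.bx Y := fun g hg =>
        S.mem_bx.2 ((Q.mem_gb.1 hg).2)
      rw [← Finset.sum_fiberwise_of_maps_to h2, Finset.mul_sum]
      refine Finset.sum_congr rfl fun n _ => ?_
      by_cases hn : Disjoint x n
      · rw [if_pos hn]
        show _ = a x * ((∑ g ∈ (Q.gb Y).filter (fun g => Q.shd g = n), b g) * _)
        rw [Finset.sum_mul, Finset.mul_sum]
        refine Finset.sum_congr rfl fun g hg => ?_
        rw [Finset.mem_filter] at hg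
        rw [hg.2, if_pos ⟨hx, hn⟩]
        ring
      · rw [if_neg hn, mul_zero]
        refine Finset.sum_eq_zero fun g hg => ?_
        rw [Finset.mem_filter] at hg
        rw [hg.2, if_neg fun h3 => hn h3.2]
    rw [h1, abs_mul]
    exact mul_le_of_le_one_left (abs_nonneg _) (ha x)
  · have h1 : ∑ g ∈ Q.gb Y, (if Disjoint x Q.M ∧ Disjoint x (Q.shd g)
        then a x * b g * (S.jj x (Q.shd g) : ℝ) else 0) = 0 :=
      Finset.sum_eq_zero fun g _ => if_neg fun h2 => hx h2.1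
    rw [h1, abs_zero]
    exact abs_nonneg _

end Pool.Agent.H32.MQ
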