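import Pool.Agent.H32.MQ.KUStm
import Pool.Agent.H98.MF.SChrSqf

/-!
# Malle's conjecture for 8T28 and 8T29 over number fields, row K4: character sums over good sets
-/

set_option autoImplicit false

open scoped BigOperators

namespace Pool.Agent.H32.MQ

open Pool.Agent.H98.MK (sg)
open Pool.Agent.H98.MF

namespace Qd

variable {S : Sys} (Q : Qd S)

theorem k4_fin_fb (p : S.P) : {a : Q.P | Q.sh a = p}.Finite := by
  by_cases h3 : ∃ a, Q.sh a = p
  · obtain ⟨a, rfl⟩ := h3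
    refine Set.Finite.subset (Set.toFinite {a, Q.cj a}) fun b hb => ?_
    have hb1 : Q.sh b = Q.sh a := hb
    rcases Q.fib a b hb1.symm with h4 | h4
    · exact Or.inl h4
    · exact Or.inr h4
  · refine Set.Finite.subset Set.finite_empty fun b hb => ?_
    exact absurd ⟨b, hb⟩ h3

/-- the primes above `p` -/
noncomputable def k4fb (p : S.P) : Finset Q.P := (Q.k4_fin_fb p).toFinset

theorem k4_mem_fb {p : S.P} {a : Q.P} : a ∈ Q.k4fb p ↔ Q.sh a = p := by
  unfold k4fb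
  rw [Set.Finite.mem_toFinset]
  rfl

theorem k4_card_fb {p : S.P} (hp : p ∉ Q.M) :
    ((Q.k4fb p).card : ℝ) = 1 + ((sg (S.ex Q.d.2 Q.d.1 p) : ℤ) : ℝ) := by
  rcases zm2 (S.ex Q.d.2 Q.d.1 p) with h | h
  · obtain ⟨a, ha⟩ := (Q.split p hp).2 h
    have h1 : Q.k4fb p = {a, Q.cj a} := by
      ext b
      rw [k4_mem_fb, Finset.mem_insert, Finset.mem_singleton]
      constructor
      · intro hb
        exact Q.fib a b (ha.trans hb.symm)
      · rintro (rfl | rfl)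
        · exact ha
        · rw [Q.sh_cj]
          exact ha
    rw [h, sg_zero, h1, Finset.card_pair (Ne.symm (Q.cj_ne a))]
    norm_num
  · have h1 : Q.k4fb p = ∅ := by
      rw [Finset.eq_empty_iff_forall_notMem]
      intro a ha
      have h2 := (Q.split p hp).1 ⟨a, Q.k4_mem_fb.1 ha⟩
      rw [h2] at h
      exact absurd h (by decide)
    rw [h, sg_one, h1, Finset.card_empty]
    norm_num

theorem k4_card_fiber {X : ℝ} {n : Finset S.P} (hn : n ∈ S.bx X) :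
    ((Q.gb X).filter (fun g => Q.shd g = n)).card = ∏ p ∈ n, (Q.k4fb p).card := by
  classical
  rw [← Finset.card_pi]
  symm
  refine Finset.card_bij (fun f _ => n.attach.image fun p => f p.1 p.2) ?_ ?_ ?_
  · intro f hf
    have hf1 : ∀ p (hp : p ∈ n), Q.sh (f p hp) = p := fun p hp =>
      Q.k4_mem_fb.1 (Finset.mem_pi.1 hf p hp)
    have h1 : Q.shd (n.attach.image fun p => f p.1 p.2) = n := by
      unfold shd
      ext p
      rw [Finset.mem_image]
      constructor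
      · rintro ⟨a, ha, rfl⟩
        obtain ⟨q, _, rfl⟩ := Finset.mem_image.1 ha
        rw [hf1]
        exact q.2
      · intro hp
        exact ⟨f p hp, Finset.mem_image.2 ⟨⟨p, hp⟩, Finset.mem_attach _ _, rfl⟩, hf1 p hp⟩
    rw [Finset.mem_filter, mem_gb]
    refine ⟨⟨?_, ?_⟩, h1⟩
    · intro a ha b hb hab
      obtain ⟨p, _, rfl⟩ := Finset.mem_image.1 ha
      obtain ⟨q, _, rfl⟩ := Finset.mem_image.1 hb
      rw [hf1, hf1] at hab
      have h2 : p = q := Subtype.ext hab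
      rw [h2]
    · unfold nq
      rw [h1]
      exact S.mem_bx.1 hn
  · intro f hf f' hf' h
    funext p hp
    have h1 : f p hp ∈ n.attach.image fun p => f' p.1 p.2 := by
      rw [← h]
      exact Finset.mem_image.2 ⟨⟨p, hp⟩, Finset.mem_attach _ _, rfl⟩
    obtain ⟨q, _, hq⟩ := Finset.mem_image.1 h1
    have h2 : Q.sh (f' q.1 q.2) = q.1 := Q.k4_mem_fb.1 (Finset.mem_pi.1 hf' _ _)
    have h3 : Q.sh (f p hp) = p := Q.k4_mem_fb.1 (Finset.mem_pi.1 hf _ _)
    have h4 : q = ⟨p, hp⟩ := Subtype.ext (by rw [← h2, hq, h3])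
    rw [← hq, h4]
  · intro g hg
    rw [Finset.mem_filter, mem_gb] at hg
    obtain ⟨⟨hg1, _⟩, hg2⟩ := hg
    have h1 : ∀ p ∈ n, ∃ a ∈ g, Q.sh a = p := by
      intro p hp
      rw [← hg2] at hp
      obtain ⟨a, ha, h⟩ := Finset.mem_image.1 hp
      exact ⟨a, ha, h⟩
    choose f hf1 hf2 using h1
    refine ⟨f, Finset.mem_pi.2 fun p hp => Q.k4_mem_fb.2 (hf2 p hp), ?_⟩
    ext a
    rw [Finset.mem_image]
    constructor
    · rintro ⟨p, _, rfl⟩
      exact hf1 _ _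
    · intro ha
      have h2 : Q.sh a ∈ n := by
        rw [← hg2]
        exact Finset.mem_image_of_mem _ ha
      exact ⟨⟨Q.sh a, h2⟩, Finset.mem_attach _ _, hg1 _ (hf1 _ _) _ ha (hf2 _ _)⟩

open Classical in
/-- a sum over good sets as a sum over their shadows -/
theorem k4_sum_gb (X : ℝ) (F : Finset S.P → ℝ) :
    ∑ g ∈ Q.gb X, F (Q.shd g) = ∑ n ∈ S.bx X, (if Disjoint n Q.M
      then (∏ p ∈ n, (1 + ((sg (S.ex Q.d.2 Q.d.1 p) : ℤ) : ℝ))) * F n else 0) := by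
  have h1 : ∀ g ∈ Q.gb X, Q.shd g ∈ S.bx X := fun g hg => S.mem_bx.2 ((Q.mem_gb.1 hg).2)
  rw [← Finset.sum_fiberwise_of_maps_to h1]
  refine Finset.sum_congr rfl fun n hn => ?_
  have h2 : ∑ g ∈ (Q.gb X).filter (fun g => Q.shd g = n), F (Q.shd g) =
      ∑ _g ∈ (Q.gb X).filter (fun g => Q.shd g = n), F n :=
    Finset.sum_congr rfl fun g hg => by rw [(Finset.mem_filter.1 hg).2]
  rw [h2, Finset.sum_const, nsmul_eq_mul, k4_card_fiber Q hn]
  split_ifs with hd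
  · push_cast
    congr 1
    exact Finset.prod_congr rfl fun p hp => Q.k4_card_fb (Finset.disjoint_left.1 hd hp)
  · obtain ⟨p, hp, hpM⟩ := Finset.not_disjoint_iff.1 hd
    have h3 : (Q.k4fb p).card = 0 := by
      rw [Finset.card_eq_zero, Finset.eq_empty_iff_forall_notMem]
      intro a ha
      have h4 := Q.k4_mem_fb.1 ha
      exact Q.sh_not a (by rw [h4]; exact hpM)
    rw [Finset.prod_eq_zero hp h3, Nat.cast_zero, zero_mul]

end Qd

/-- the character of `(y, c)` -/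
def k4ch (S : Sys) (y : Finset S.P) (c : S.T) (x : Finset S.P) : ℝ :=
  ((sg (S.JJ x y + c ⬝ᵥ S.tys x) : ℤ) : ℝ)

section

variable (S : Sys)

theorem k4ch_union (y : Finset S.P) (c : S.T) {x x' : Finset S.P} (h : Disjoint x x') :
    k4ch S y c (x ∪ x') = k4ch S y c x * k4ch S y c x' := by
  unfold k4ch
  rw [S.JJ_union_left y h, S.tys_union h, dotProduct_add,
    show S.JJ x y + S.JJ x' y + (c ⬝ᵥ S.tys x + c ⬝ᵥ S.tys x') =
      (S.JJ x y + c ⬝ᵥ S.tys x) + (S.JJ x' y + c ⬝ᵥ S.tys x') by ring, sg_add]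
  push_cast
  rfl

theorem k4_JJ_symm (x y y' : Finset S.P) :
    S.JJ x (symmDiff y y') = S.JJ x y + S.JJ x y' := by
  have h1 : S.JJ x y = S.JJ x (y \ y') + S.JJ x (y ∩ y') := by
    rw [← S.JJ_union_right x (Finset.disjoint_sdiff_inter y y'), Finset.sdiff_union_inter]
  have h2 : S.JJ x y' = S.JJ x (y' \ y) + S.JJ x (y ∩ y') := by
    rw [Finset.inter_comm, ← S.JJ_union_right x (Finset.disjoint_sdiff_inter y' y),
      Finset.sdiff_union_inter]
  have h3 : S.JJ x (symmDiff y y') = S.JJ x (y \ y') + S.JJ x (y' \ y) := by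
    rw [← S.JJ_union_right x]
    · rfl
    · exact disjoint_sdiff_sdiff
  have h4 : S.JJ x (y ∩ y') + S.JJ x (y ∩ y') = 0 := CharTwo.add_self_eq_zero _
  rw [h3, h1, h2]
  linear_combination -h4

theorem k4ch_mul (y y' : Finset S.P) (c c' : S.T) (x : Finset S.P) :
    k4ch S y' c' x * k4ch S y c x = k4ch S (symmDiff y y') (c + c') x := by
  unfold k4ch
  rw [k4_JJ_symm, add_dotProduct,
    show S.JJ x y + S.JJ x y' + (c ⬝ᵥ S.tys x + c' ⬝ᵥ S.tys x) =
      (S.JJ x y' + c' ⬝ᵥ S.tys x) + (S.JJ x y + c ⬝ᵥ S.tys x) by ring,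
    sg_add (S.JJ x y' + c' ⬝ᵥ S.tys x) (S.JJ x y + c ⬝ᵥ S.tys x), Int.cast_mul]

theorem k4ch_abs (y : Finset S.P) (c : S.T) (x : Finset S.P) : |k4ch S y c x| = 1 := abs_sgr _

theorem k4ch_prod (y : Finset S.P) (c : S.T) (x : Finset S.P) :
    ∏ p ∈ x, ((sg (S.ex y c p) : ℤ) : ℝ) = k4ch S y c x := by
  unfold k4ch
  rw [← S.sum_ex, sg_sum]
  push_cast
  rfl

open Classical in
/-- the character sum -/
noncomputable def k4CS (y : Finset S.P) (c : S.T) (W : Finset S.P) (t : ℝ) : ℝ :=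
  ∑ x ∈ S.bx t, if Disjoint x W then k4ch S y c x else 0

theorem k4_chr : ∃ C : ℝ, 0 ≤ C ∧ ∀ (y W : Finset S.P) (c : S.T), y.Nonempty → y ⊆ W →
    ∀ t : ℝ, 1 ≤ t → |k4CS S y c W t| ≤ C * (S.nm y : ℝ) ^ S.A * S.hs W * t ^ (1 - S.dl) := by
  obtain ⟨C, hC, h⟩ := chr_sqf S
  refine ⟨C, hC, fun y W c hy hyW t ht => ?_⟩
  have h1 := h y W c (Or.inl hy) t ht
  rw [Finset.union_eq_right.2 hyW] at h1
  exact h1

open Classical in
/-- double counting of the subsets -/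
theorem k4_double (G : Finset S.P → Finset S.P → ℝ) (X : ℝ) :
    ∑ n ∈ S.bx X, ∑ e ∈ n.powerset, G e (n \ e) =
      ∑ e ∈ S.bx X, ∑ f ∈ S.bx X,
        if Disjoint e f ∧ (S.nm e : ℝ) * S.nm f ≤ X then G e f else 0 := by
  rw [← Finset.sum_product', ← Finset.sum_filter, Finset.sum_sigma']
  refine Finset.sum_bij' (fun a _ => (a.2, a.1 \ a.2)) (fun a _ => ⟨a.1 ∪ a.2, a.1⟩)
    ?_ ?_ ?_ ?_ ?_
  · rintro ⟨n, e⟩ h
    rw [Finset.mem_sigma] at h
    have hn : (S.nm n : ℝ) ≤ X := S.mem_bx.1 h.1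
    have he : e ⊆ n := Finset.mem_powerset.1 h.2
    have h1 : (S.nm n : ℝ) = (S.nm e : ℝ) * S.nm (n \ e) := by
      have h2 := S.nm_union (x := e) (y := n \ e) Finset.disjoint_sdiff
      rw [Finset.union_sdiff_of_subset he] at h2
      rw [h2]
      push_cast
      rfl
    rw [Finset.mem_filter, Finset.mem_product]
    refine ⟨⟨S.mem_bx.2 ?_, S.mem_bx.2 ?_⟩, Finset.disjoint_sdiff, ?_⟩
    · exact le_trans (by exact_mod_cast S.nm_mono he) hn
    · exact le_trans (by exact_mod_cast S.nm_mono Finset.sdiff_subset) hn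
    · exact le_trans h1.symm.le hn
  · rintro ⟨e, f⟩ h
    rw [Finset.mem_filter, Finset.mem_product] at h
    rw [Finset.mem_sigma]
    refine ⟨S.mem_bx.2 ?_, Finset.mem_powerset.2 Finset.subset_union_left⟩
    have h2 := S.nm_union h.2.1
    refine le_trans (le_of_eq ?_) h.2.2
    show ((S.nm (e ∪ f) : ℕ) : ℝ) = _
    rw [h2]
    push_cast
    rfl
  · rintro ⟨n, e⟩ h
    rw [Finset.mem_sigma] at h
    have he : e ⊆ n := Finset.mem_powerset.1 h.2
    have h1 : e ∪ n \ e = n := Finset.union_sdiff_of_subset he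
    exact Sigma.ext h1 (heq_of_eq rfl)
  · rintro ⟨e, f⟩ h
    rw [Finset.mem_filter, Finset.mem_product] at h
    have h1 : (e ∪ f) \ e = f := Finset.union_sdiff_cancel_left h.2.1
    exact Prod.ext rfl h1
  · rintro ⟨n, e⟩ _
    rfl

open Classical in
/-- the pairs -/
noncomputable def k4G (y y' : Finset S.P) (c c' : S.T) (D e f : Finset S.P) : ℝ :=
  if Disjoint e D ∧ Disjoint f D then k4ch S y' c' e * k4ch S y c f else 0

open Classical in
/-- the sum over good sets as a sum over pairs -/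
theorem k4_pairs (Q : Qd S) (y z : Finset S.P) (c : S.T) (X : ℝ) :
    ∑ g ∈ Q.gb X, (if Disjoint (Q.shd g) (y ∪ z) then k4ch S y c (Q.shd g) else 0) =
      ∑ e ∈ S.bx X, ∑ f ∈ S.bx X, if Disjoint e f ∧ (S.nm e : ℝ) * S.nm f ≤ X then
        k4G S y (symmDiff y Q.d.2) c (c + Q.d.1) (Q.M ∪ (y ∪ z)) e f else 0 := by
  rw [← k4_double, Q.k4_sum_gb X (fun n => if Disjoint n (y ∪ z) then k4ch S y c n else 0)]
  refine Finset.sum_congr rfl fun n _ => ?_
  by_cases h1 : Disjoint n (Q.M ∪ (y ∪ z))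
  · have h2 : Disjoint n Q.M := Finset.disjoint_of_subset_right Finset.subset_union_left h1
    have h3 : Disjoint n (y ∪ z) := Finset.disjoint_of_subset_right Finset.subset_union_right h1
    rw [if_pos h2, if_pos h3, Finset.prod_one_add, Finset.sum_mul]
    refine Finset.sum_congr rfl fun e he => ?_
    have he1 : e ⊆ n := Finset.mem_powerset.1 he
    unfold k4G
    rw [if_pos ⟨Finset.disjoint_of_subset_left he1 h1,
      Finset.disjoint_of_subset_left Finset.sdiff_subset h1⟩, k4ch_prod, ← k4ch_mul, mul_assoc,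
      ← k4ch_union S y c Finset.disjoint_sdiff, Finset.union_sdiff_of_subset he1]
  · have h2 : ∑ e ∈ n.powerset, k4G S y (symmDiff y Q.d.2) c (c + Q.d.1) (Q.M ∪ (y ∪ z)) e
        (n \ e) = 0 := by
      refine Finset.sum_eq_zero fun e he => ?_
      have he1 : e ⊆ n := Finset.mem_powerset.1 he
      unfold k4G
      refine if_neg fun h => h1 ?_
      rw [← Finset.union_sdiff_of_subset he1]
      exact Finset.disjoint_union_left.2 h
    rw [h2]
    split_ifs with h3 h4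
    · exact absurd (Finset.disjoint_union_right.2 ⟨h3, h4⟩) h1
    · rw [mul_zero]
    · rfl

open Classical in
theorem k4_bx {R X : ℝ} (h : R ≤ X) (A : Finset S.P → ℝ) :
    ∑ e ∈ S.bx X, (if (S.nm e : ℝ) ≤ R then A e else 0) = ∑ e ∈ S.bx R, A e := by
  rw [← Finset.sum_filter]
  refine Finset.sum_congr ?_ fun _ _ => rfl
  ext e
  rw [Finset.mem_filter, S.mem_bx, S.mem_bx]
  exact ⟨fun h1 => h1.2, fun h1 => ⟨h1.trans h, h1⟩⟩

open Classical in
theorem k4_in1 (y y' : Finset S.P) (c c' : S.T) (D e : Finset S.P) (X : ℝ) :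
    |∑ f ∈ S.bx X, if Disjoint e f ∧ (S.nm e : ℝ) * S.nm f ≤ X then k4G S y y' c c' D e f
      else 0| ≤ |k4CS S y c (D ∪ e) (X / S.nm e)| := by
  by_cases hX : 0 ≤ X
  · by_cases he : Disjoint e D
    · have h1 : ∑ f ∈ S.bx X, (if Disjoint e f ∧ (S.nm e : ℝ) * S.nm f ≤ X then
          k4G S y y' c c' D e f else 0) = k4ch S y' c' e * k4CS S y c (D ∪ e) (X / S.nm e) := by
        unfold k4CS
        rw [← k4_bx S (R := X / S.nm e) (X := X)
          (div_le_self hX (S.one_le_nmr e)), Finset.mul_sum]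
        refine Finset.sum_congr rfl fun f _ => ?_
        have h2 : ((S.nm f : ℝ) ≤ X / S.nm e) ↔ (S.nm e : ℝ) * S.nm f ≤ X := by
          rw [le_div_iff₀ (S.nm_posr e), mul_comm]
        unfold k4G
        by_cases h3 : (S.nm e : ℝ) * S.nm f ≤ X
        · rw [if_pos (h2.2 h3)]
          by_cases h4 : Disjoint e f
          · rw [if_pos ⟨h4, h3⟩]
            by_cases h5 : Disjoint f D
            · rw [if_pos ⟨he, h5⟩, if_pos (Finset.disjoint_union_right.2 ⟨h5, h4.symm⟩)]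
            · rw [if_neg (fun h => h5 h.2),
                if_neg (fun h => h5 (Finset.disjoint_union_right.1 h).1), mul_zero]
          · rw [if_neg (fun h => h4 h.1),
              if_neg (fun h => h4 (Finset.disjoint_union_right.1 h).2.symm), mul_zero]
        · rw [if_neg (fun h => h3 h.2), if_neg (fun h => h3 (h2.1 h)), mul_zero]
      rw [h1, abs_mul, k4ch_abs, one_mul]
    · rw [Finset.sum_eq_zero]
      · rw [abs_zero]
        exact abs_nonneg _
      · intro f _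
        unfold k4G
        rw [if_neg (fun h : Disjoint e D ∧ Disjoint f D => he h.1), ite_self]
  · have h1 : S.bx X = ∅ := by
      rw [Finset.eq_empty_iff_forall_notMem]
      intro f hf
      exact hX ((Nat.cast_nonneg _).trans (S.mem_bx.1 hf))
    rw [h1, Finset.sum_empty, abs_zero]
    exact abs_nonneg _

open Classical in
theorem k4_in2 (y y' : Finset S.P) (c c' : S.T) (D f : Finset S.P) {R X : ℝ} (hR : 0 ≤ R)
    (hRX : R * R = X) (h1R : 1 ≤ R) (hf : (S.nm f : ℝ) ≤ R) :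
    |∑ e ∈ S.bx X, if (S.nm e : ℝ) ≤ R then 0 else
      (if Disjoint e f ∧ (S.nm e : ℝ) * S.nm f ≤ X then k4G S y y' c c' D e f else 0)| ≤
      |k4CS S y' c' (D ∪ f) (X / S.nm f)| + |k4CS S y' c' (D ∪ f) R| := by
  have hX : 0 ≤ X := by nlinarith
  have hRX' : R ≤ X := by nlinarith
  have hfX : R ≤ X / S.nm f := by
    rw [le_div_iff₀ (S.nm_posr f), ← hRX]
    exact mul_le_mul_of_nonneg_left hf hR
  by_cases he : Disjoint f D
  · have h1 : ∑ e ∈ S.bx X, (if (S.nm e : ℝ) ≤ R then 0 else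
        (if Disjoint e f ∧ (S.nm e : ℝ) * S.nm f ≤ X then k4G S y y' c c' D e f else 0)) =
        k4ch S y c f * (k4CS S y' c' (D ∪ f) (X / S.nm f) - k4CS S y' c' (D ∪ f) R) := by
      unfold k4CS
      rw [← k4_bx S (R := X / S.nm f) (X := X) (div_le_self hX (S.one_le_nmr f)),
        ← k4_bx S hRX', ← Finset.sum_sub_distrib, Finset.mul_sum]
      refine Finset.sum_congr rfl fun e _ => ?_
      have h2 : ((S.nm e : ℝ) ≤ X / S.nm f) ↔ (S.nm e : ℝ) * S.nm f ≤ X := by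
        rw [le_div_iff₀ (S.nm_posr f)]
      unfold k4G
      by_cases h6 : (S.nm e : ℝ) ≤ R
      · rw [if_pos h6, if_pos h6, if_pos (h6.trans hfX), sub_self, mul_zero]
      · rw [if_neg h6, if_neg h6, sub_zero]
        by_cases h3 : (S.nm e : ℝ) * S.nm f ≤ X
        · rw [if_pos (h2.2 h3)]
          by_cases h4 : Disjoint e f
          · rw [if_pos ⟨h4, h3⟩]
            by_cases h5 : Disjoint e D
            · rw [if_pos ⟨h5, he⟩, if_pos (Finset.disjoint_union_right.2 ⟨h5, h4⟩), mul_comm]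
            · rw [if_neg (fun h => h5 h.1),
                if_neg (fun h => h5 (Finset.disjoint_union_right.1 h).1), mul_zero]
          · rw [if_neg (fun h => h4 h.1),
              if_neg (fun h => h4 (Finset.disjoint_union_right.1 h).2), mul_zero]
        · rw [if_neg (fun h => h3 h.2), if_neg (fun h => h3 (h2.1 h)), mul_zero]
    rw [h1, abs_mul, k4ch_abs, one_mul]
    exact abs_sub _ _
  · rw [Finset.sum_eq_zero]
    · rw [abs_zero]
      exact add_nonneg (abs_nonneg _) (abs_nonneg _)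
    · intro e _
      unfold k4G
      rw [if_neg (fun h : Disjoint e D ∧ Disjoint f D => he h.2), ite_self, ite_self]

open Classical in
theorem k4_in3 (y y' : Finset S.P) (c c' : S.T) (D f : Finset S.P) {R X : ℝ} (hR : 0 ≤ R)
    (hRX : R * R = X) (hf : ¬ (S.nm f : ℝ) ≤ R) :
    ∑ e ∈ S.bx X, (if (S.nm e : ℝ) ≤ R then 0 else
      (if Disjoint e f ∧ (S.nm e : ℝ) * S.nm f ≤ X then k4G S y y' c c' D e f else 0)) = 0 := by
  refine Finset.sum_eq_zero fun e _ => ?_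
  by_cases h6 : (S.nm e : ℝ) ≤ R
  · rw [if_pos h6]
  · rw [if_neg h6, if_neg]
    rintro ⟨_, h⟩
    push Not at h6 hf
    nlinarith [mul_pos (sub_pos.2 h6) (sub_pos.2 hf), mul_nonneg hR (sub_pos.2 h6).le,
      mul_nonneg hR (sub_pos.2 hf).le]

/-- the sum of the bounds -/
theorem k4_sum : ∃ C : ℝ, 0 ≤ C ∧ ∀ X R : ℝ, 1 ≤ X → R = Real.sqrt X →
    ∑ e ∈ S.bx R, S.hs e * (X / S.nm e) ^ (1 - S.dl) ≤ C * X ^ (1 - S.dl / 4) := by
  obtain ⟨C2, hC2⟩ := hs_tail S 1 zero_le_one 1 (1 + S.dl / 2) (by linarith [S.dl_pos])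
  refine ⟨max C2 0, le_max_right _ _, fun X R hX hR => ?_⟩
  have hX0 : 0 < X := by linarith
  have hd := S.dl_pos
  have h1 : ∀ e ∈ S.bx R, S.hs e * (X / S.nm e) ^ (1 - S.dl) ≤
      X ^ (1 - S.dl / 4) * ((1 : ℝ) ^ e.card * S.hs e ^ 1 * (S.nm e : ℝ) ^ (-(1 + S.dl / 2))) := by
    intro e he
    have he1 : (S.nm e : ℝ) ≤ R := S.mem_bx.1 he
    have he0 := S.nm_posr e
    have hs0 : 0 ≤ S.hs e := zero_le_one.trans (S.one_le_hs e)
    have h2 : (S.nm e : ℝ) ^ (3 * S.dl / 2) ≤ X ^ (3 * S.dl / 4) := by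
      have h3 : (S.nm e : ℝ) ^ (3 * S.dl / 2) ≤ R ^ (3 * S.dl / 2) :=
        Real.rpow_le_rpow he0.le he1 (by linarith)
      refine h3.trans (le_of_eq ?_)
      rw [hR, Real.sqrt_eq_rpow, ← Real.rpow_mul hX0.le]
      congr 1
      ring
    have h4 : (X / S.nm e) ^ (1 - S.dl) = X ^ (1 - S.dl) *
        ((S.nm e : ℝ) ^ (3 * S.dl / 2) * (S.nm e : ℝ) ^ (-(1 + S.dl / 2))) := by
      rw [Real.div_rpow hX0.le he0.le, ← Real.rpow_add he0, div_eq_mul_inv,
        ← Real.rpow_neg he0.le]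
      congr 2
      ring
    have h5 : X ^ (1 - S.dl / 4) = X ^ (1 - S.dl) * X ^ (3 * S.dl / 4) := by
      rw [← Real.rpow_add hX0]
      congr 1
      ring
    rw [h4, h5, one_pow, one_mul, pow_one]
    have h6 : 0 ≤ X ^ (1 - S.dl) := Real.rpow_nonneg hX0.le _
    have h7 : 0 ≤ (S.nm e : ℝ) ^ (-(1 + S.dl / 2)) := Real.rpow_nonneg he0.le _
    calc S.hs e * (X ^ (1 - S.dl) *
          ((S.nm e : ℝ) ^ (3 * S.dl / 2) * (S.nm e : ℝ) ^ (-(1 + S.dl / 2))))
        = (X ^ (1 - S.dl) * (S.hs e * (S.nm e : ℝ) ^ (-(1 + S.dl / 2)))) *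
          (S.nm e : ℝ) ^ (3 * S.dl / 2) := by ring
      _ ≤ (X ^ (1 - S.dl) * (S.hs e * (S.nm e : ℝ) ^ (-(1 + S.dl / 2)))) *
          X ^ (3 * S.dl / 4) :=
          mul_le_mul_of_nonneg_left h2 (mul_nonneg h6 (mul_nonneg hs0 h7))
      _ = _ := by ring
  refine (Finset.sum_le_sum h1).trans ?_
  rw [← Finset.mul_sum, mul_comm]
  exact mul_le_mul_of_nonneg_right ((hC2 R).trans (le_max_left _ _))
    (Real.rpow_nonneg hX0.le _)

end

/-- K4 -/
theorem skgood_of (h0 : SKPt) : SKGood := by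
  classical
  intro S
  obtain ⟨C1, hC1, hchr⟩ := k4_chr S
  obtain ⟨C3, hC3⟩ := h0 S 1 one_pos
  obtain ⟨C2, hC20, hC2⟩ := k4_sum S
  refine ⟨3 * (C1 * C3 ^ 2) * C2, S.A + 1, S.dl / 4, by linarith [S.dl_pos], ?_⟩
  intro Q y z c hy X hX
  obtain ⟨p, hpy, hpM⟩ := hy
  have hX0 : 0 < X := by linarith
  obtain ⟨R, hR⟩ : ∃ R : ℝ, R = Real.sqrt X := ⟨_, rfl⟩
  have hR1 : 1 ≤ R := by
    rw [hR]
    exact Real.one_le_sqrt.2 hX
  have hR0 : 0 ≤ R := by linarith
  have hRX : R * R = X := by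
    rw [hR]
    exact Real.mul_self_sqrt hX0.le
  have hRX' : R ≤ X := by nlinarith
  have hA := S.A_nonneg
  have hdl := S.dl_le
  have hM0 : (1 : ℝ) ≤ S.nm Q.M := S.one_le_nmr _
  have hy1 : (1 : ℝ) ≤ S.nm y := S.one_le_nmr _
  have hy0 : y.Nonempty := ⟨p, hpy⟩
  have hy'0 : (symmDiff y Q.d.2).Nonempty :=
    ⟨p, Finset.mem_symmDiff.2 (Or.inl ⟨hpy, fun h => hpM (Q.d_sub h)⟩)⟩
  have hyy' : symmDiff y Q.d.2 ⊆ Q.M ∪ y := by
    intro q hq
    rcases Finset.mem_symmDiff.1 hq with h | h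
    · exact Finset.mem_union_right _ h.1
    · exact Finset.mem_union_left _ (Q.d_sub h.1)
  have hMyD : Q.M ∪ y ⊆ Q.M ∪ (y ∪ z) :=
    Finset.union_subset_union_right Finset.subset_union_left
  have hyD : y ⊆ Q.M ∪ (y ∪ z) := Finset.subset_union_right.trans hMyD
  have hy'D : symmDiff y Q.d.2 ⊆ Q.M ∪ (y ∪ z) := hyy'.trans hMyD
  have hny' : (S.nm (symmDiff y Q.d.2) : ℝ) ≤ (S.nm Q.M : ℝ) * S.nm y := by
    have h1 := (S.nm_mono hyy').trans (S.nm_union_le _ _)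
    exact_mod_cast h1
  have hny : (S.nm y : ℝ) ≤ (S.nm Q.M : ℝ) * S.nm y := by nlinarith
  obtain ⟨N, hN⟩ : ∃ N : ℝ, N = (S.nm Q.M : ℝ) * S.nm y := ⟨_, rfl⟩
  have hN1 : 1 ≤ N := by
    rw [hN]
    nlinarith
  have hNA : 0 ≤ N ^ S.A := Real.rpow_nonneg (by linarith) _
  rw [← hN] at hny hny'
  obtain ⟨K, hK⟩ : ∃ K : ℝ, K = C1 * N ^ S.A * (S.hs Q.M * (S.hs y * S.hs z)) := ⟨_, rfl⟩
  have hs0 : ∀ x : Finset S.P, 0 ≤ S.hs x := fun x => zero_le_one.trans (S.one_le_hs x)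
  have hK0 : 0 ≤ K := by
    rw [hK]
    exact mul_nonneg (mul_nonneg hC1 hNA) (mul_nonneg (hs0 _) (mul_nonneg (hs0 _) (hs0 _)))
  obtain ⟨D, hD⟩ : ∃ D : Finset S.P, D = Q.M ∪ (y ∪ z) := ⟨_, rfl⟩
  have hsD : ∀ e : Finset S.P, S.hs (D ∪ e) ≤ (S.hs Q.M * (S.hs y * S.hs z)) * S.hs e := by
    intro e
    refine (S.hs_union_le _ _).trans (mul_le_mul_of_nonneg_right ?_ (hs0 _))
    rw [hD]
    exact (S.hs_union_le _ _).trans (mul_le_mul_of_nonneg_left (S.hs_union_le _ _) (hs0 _))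
  have hb : ∀ (w : Finset S.P) (c' : S.T), w.Nonempty → w ⊆ D → (S.nm w : ℝ) ≤ N →
      ∀ (e : Finset S.P) (t : ℝ), 1 ≤ t → t ≤ X / S.nm e →
      |k4CS S w c' (D ∪ e) t| ≤ K * (S.hs e * (X / S.nm e) ^ (1 - S.dl)) := by
    intro w c' hw hwD hwN e t ht hte
    refine (hchr w (D ∪ e) c' hw (hwD.trans Finset.subset_union_left) t ht).trans ?_
    have h1 : (S.nm w : ℝ) ^ S.A ≤ N ^ S.A :=
      Real.rpow_le_rpow (Nat.cast_nonneg _) hwN hA
    have h2 : t ^ (1 - S.dl) ≤ (X / S.nm e) ^ (1 - S.dl) :=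
      Real.rpow_le_rpow (by linarith) hte (by linarith)
    have h3 : 0 ≤ t ^ (1 - S.dl) := Real.rpow_nonneg (by linarith) _
    calc C1 * (S.nm w : ℝ) ^ S.A * S.hs (D ∪ e) * t ^ (1 - S.dl)
        ≤ C1 * N ^ S.A * ((S.hs Q.M * (S.hs y * S.hs z)) * S.hs e) *
          (X / S.nm e) ^ (1 - S.dl) := by
          refine mul_le_mul (mul_le_mul (mul_le_mul_of_nonneg_left h1 hC1) (hsD e) (hs0 _)
            (mul_nonneg hC1 hNA)) h2 h3 ?_
          exact mul_nonneg (mul_nonneg hC1 hNA)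
            (mul_nonneg (mul_nonneg (hs0 _) (mul_nonneg (hs0 _) (hs0 _))) (hs0 _))
      _ = K * (S.hs e * (X / S.nm e) ^ (1 - S.dl)) := by
          rw [hK]
          ring
  have hmain := k4_pairs S Q y z c X
  rw [← hD] at hmain hyD hy'D
  have hgoal : |∑ g ∈ Q.gb X, (if Disjoint (Q.shd g) (y ∪ z) then k4ch S y c (Q.shd g)
      else 0)| ≤ 3 * K * ∑ e ∈ S.bx R, S.hs e * (X / S.nm e) ^ (1 - S.dl) := by
    rw [hmain]
    obtain ⟨H, hH⟩ : ∃ H : Finset S.P → Finset S.P → ℝ, H = fun e f =>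
        if Disjoint e f ∧ (S.nm e : ℝ) * S.nm f ≤ X then
          k4G S y (symmDiff y Q.d.2) c (c + Q.d.1) D e f else 0 := ⟨_, rfl⟩
    have h1 : ∑ e ∈ S.bx X, ∑ f ∈ S.bx X, (if Disjoint e f ∧ (S.nm e : ℝ) * S.nm f ≤ X then
        k4G S y (symmDiff y Q.d.2) c (c + Q.d.1) D e f else 0) =
        ∑ e ∈ S.bx R, ∑ f ∈ S.bx X, H e f +
          ∑ f ∈ S.bx R, ∑ e ∈ S.bx X, (if (S.nm e : ℝ) ≤ R then 0 else H e f) := by
      rw [← k4_bx S hRX', ← k4_bx S hRX']
      have h2 : ∀ f : Finset S.P, (if (S.nm f : ℝ) ≤ R then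
          ∑ e ∈ S.bx X, (if (S.nm e : ℝ) ≤ R then 0 else H e f) else 0) =
          ∑ e ∈ S.bx X, (if (S.nm e : ℝ) ≤ R then 0 else H e f) := by
        intro f
        by_cases hf : (S.nm f : ℝ) ≤ R
        · rw [if_pos hf]
        · rw [if_neg hf, hH]
          exact (k4_in3 S y (symmDiff y Q.d.2) c (c + Q.d.1) D f hR0 hRX hf).symm
      simp only [h2]
      rw [Finset.sum_comm (s := S.bx X) (t := S.bx X)
        (f := fun f e => if (S.nm e : ℝ) ≤ R then 0 else H e f), ← Finset.sum_add_distrib]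
      refine Finset.sum_congr rfl fun e _ => ?_
      by_cases he : (S.nm e : ℝ) ≤ R
      · simp only [if_pos he]
        rw [Finset.sum_const_zero, add_zero, hH]
      · simp only [if_neg he]
        rw [zero_add, hH]
    rw [h1]
    refine (abs_add_le _ _).trans ?_
    have h3 : |∑ e ∈ S.bx R, ∑ f ∈ S.bx X, H e f| ≤
        K * ∑ e ∈ S.bx R, S.hs e * (X / S.nm e) ^ (1 - S.dl) := by
      rw [Finset.mul_sum]
      refine (Finset.abs_sum_le_sum_abs _ _).trans (Finset.sum_le_sum fun e he => ?_)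
      have he1 : (S.nm e : ℝ) ≤ R := S.mem_bx.1 he
      rw [hH]
      refine (k4_in1 S y (symmDiff y Q.d.2) c (c + Q.d.1) D e X).trans ?_
      refine hb y c hy0 hyD hny e _ ?_ le_rfl
      rw [le_div_iff₀ (S.nm_posr e), one_mul]
      exact he1.trans hRX'
    have h4 : |∑ f ∈ S.bx R, ∑ e ∈ S.bx X, (if (S.nm e : ℝ) ≤ R then 0 else H e f)| ≤
        2 * K * ∑ e ∈ S.bx R, S.hs e * (X / S.nm e) ^ (1 - S.dl) := by
      rw [Finset.mul_sum]
      refine (Finset.abs_sum_le_sum_abs _ _).trans (Finset.sum_le_sum fun f hf => ?_)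
      have hf1 : (S.nm f : ℝ) ≤ R := S.mem_bx.1 hf
      have hfX : R ≤ X / S.nm f := by
        rw [le_div_iff₀ (S.nm_posr f), ← hRX]
        exact mul_le_mul_of_nonneg_left hf1 hR0
      rw [hH]
      refine (k4_in2 S y (symmDiff y Q.d.2) c (c + Q.d.1) D f hR0 hRX hR1 hf1).trans ?_
      have h5 := hb (symmDiff y Q.d.2) (c + Q.d.1) hy'0 hy'D hny' f (X / S.nm f)
        (hR1.trans hfX) le_rfl
      have h6 := hb (symmDiff y Q.d.2) (c + Q.d.1) hy'0 hy'D hny' f R hR1 hfX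
      linarith
    linarith
  have hfin : 3 * K * ∑ e ∈ S.bx R, S.hs e * (X / S.nm e) ^ (1 - S.dl) ≤
      3 * (C1 * C3 ^ 2) * C2 * ((S.nm Q.M : ℝ) * S.nm y) ^ (S.A + 1) * S.hs z *
        X ^ (1 - S.dl / 4) := by
    have h1 := hC2 X R hX hR
    have h2 : S.hs Q.M ≤ C3 * S.nm Q.M := by
      have h := (hC3 Q.M).1
      rwa [Real.rpow_one] at h
    have h3 : S.hs y ≤ C3 * S.nm y := by
      have h := (hC3 y).1
      rwa [Real.rpow_one] at h
    have h4 : K ≤ C1 * C3 ^ 2 * N ^ (S.A + 1) * S.hs z := by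
      have h5 : N ^ (S.A + 1) = N ^ S.A * ((S.nm Q.M : ℝ) * S.nm y) := by
        rw [Real.rpow_add (by linarith), Real.rpow_one, ← hN]
      have h6 : S.hs Q.M * S.hs y ≤ (C3 * S.nm Q.M) * (C3 * S.nm y) :=
        mul_le_mul h2 h3 (hs0 _) ((hs0 _).trans h2)
      rw [hK, h5]
      calc C1 * N ^ S.A * (S.hs Q.M * (S.hs y * S.hs z))
          = (C1 * N ^ S.A * S.hs z) * (S.hs Q.M * S.hs y) := by ring
        _ ≤ (C1 * N ^ S.A * S.hs z) * ((C3 * S.nm Q.M) * (C3 * S.nm y)) :=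
            mul_le_mul_of_nonneg_left h6 (mul_nonneg (mul_nonneg hC1 hNA) (hs0 _))
        _ = _ := by ring
    have h7 : 0 ≤ C2 * X ^ (1 - S.dl / 4) := mul_nonneg hC20 (Real.rpow_nonneg hX0.le _)
    calc 3 * K * ∑ e ∈ S.bx R, S.hs e * (X / S.nm e) ^ (1 - S.dl)
        ≤ 3 * K * (C2 * X ^ (1 - S.dl / 4)) :=
          mul_le_mul_of_nonneg_left h1 (by linarith)
      _ ≤ 3 * (C1 * C3 ^ 2 * N ^ (S.A + 1) * S.hs z) * (C2 * X ^ (1 - S.dl / 4)) :=
          mul_le_mul_of_nonneg_right (by linarith) h7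
      _ = _ := by
          rw [hN]
          ring
  exact hgoal.trans hfin

end Pool.Agent.H32.MQ
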