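import Pool.Agent.H32.MQ.KUStm
import Pool.Agent.H98.MF.SHs

/-!
# Malle's conjecture for 8T28 and 8T29, block K: the mean of the loss function over good sets
-/

set_option autoImplicit false

open scoped BigOperators

namespace Pool.Agent.H32.MQ

open Pool.Agent.H98.MK (sg)
open Pool.Agent.H98.MF

open Classical in
/-- the part of a good set above `y` is determined by a subset of `y` -/
theorem kh_cnt {S : Sys} (Q : Qd S) (X : ℝ) (y : Finset S.P) :
    ((Q.gb X).filter (fun g => y ⊆ Q.shd g)).card ≤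
      2 ^ y.card * (Q.gb (X / S.nm y)).card := by
  rw [← Finset.card_powerset, ← Finset.card_product]
  have key : ∀ g g' : Finset Q.P, Q.Gd g → y ⊆ Q.shd g' →
      y.filter (fun p => ∃ h : (∃ a, Q.sh a = p), h.choose ∈ g) =
        y.filter (fun p => ∃ h : (∃ a, Q.sh a = p), h.choose ∈ g') →
      g.filter (fun a => Q.sh a ∉ y) = g'.filter (fun a => Q.sh a ∉ y) → g ⊆ g' := by
    intro g g' hGd hy' e1 e2 a ha
    by_cases hay : Q.sh a ∈ y
    · have hex : ∃ b, Q.sh b = Q.sh a := ⟨a, rfl⟩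
      by_cases hc : hex.choose ∈ g
      · have h1 : hex.choose = a := hGd _ hc _ ha hex.choose_spec
        have h2 : Q.sh a ∈ y.filter (fun p => ∃ h : (∃ a, Q.sh a = p), h.choose ∈ g) :=
          Finset.mem_filter.2 ⟨hay, hex, hc⟩
        rw [e1] at h2
        obtain ⟨_, h3, h4⟩ := Finset.mem_filter.1 h2
        have h5 : h3.choose = a := h1
        rwa [h5] at h4
      · have h2 : Q.sh a ∉ y.filter (fun p => ∃ h : (∃ a, Q.sh a = p), h.choose ∈ g) := by
          intro h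
          obtain ⟨_, h3, h4⟩ := Finset.mem_filter.1 h
          exact hc h4
        rw [e1] at h2
        have h3 : hex.choose ∉ g' := fun h => h2 (Finset.mem_filter.2 ⟨hay, hex, h⟩)
        have h6 := hy' hay
        unfold Qd.shd at h6
        obtain ⟨b, hb, hba⟩ := Finset.mem_image.1 h6
        rcases Q.fib hex.choose a hex.choose_spec with ha1 | ha1
        · exact absurd (ha1 ▸ ha) hc
        rcases Q.fib hex.choose b (hex.choose_spec.trans hba.symm) with hb1 | hb1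
        · exact absurd (hb1 ▸ hb) h3
        rw [ha1, ← hb1]
        exact hb
    · have h7 : a ∈ g.filter (fun a => Q.sh a ∉ y) := Finset.mem_filter.2 ⟨ha, hay⟩
      rw [e2] at h7
      exact (Finset.mem_filter.1 h7).1
  refine Finset.card_le_card_of_injOn
    (fun g => (y.filter (fun p => ∃ h : (∃ a, Q.sh a = p), h.choose ∈ g),
      g.filter (fun a => Q.sh a ∉ y))) ?_ ?_
  · intro g hg
    obtain ⟨h1, h2⟩ := Finset.mem_filter.1 (Finset.mem_coe.1 hg)
    obtain ⟨h3, h4⟩ := Q.mem_gb.1 h1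
    refine Finset.mem_coe.2 (Finset.mem_product.2
      ⟨Finset.mem_powerset.2 (Finset.filter_subset _ _), Q.mem_gb.2 ⟨?_, ?_⟩⟩)
    · intro a ha b hb hab
      exact h3 a (Finset.mem_filter.1 ha).1 b (Finset.mem_filter.1 hb).1 hab
    · rw [le_div_iff₀ (S.nm_posr y)]
      have h5 : Q.shd (g.filter (fun a => Q.sh a ∉ y)) = Q.shd g \ y := by
        ext p
        unfold Qd.shd
        simp only [Finset.mem_image, Finset.mem_filter, Finset.mem_sdiff]
        constructor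
        · rintro ⟨a, ⟨ha, hay⟩, rfl⟩
          exact ⟨⟨a, ha, rfl⟩, hay⟩
        · rintro ⟨⟨a, ha, rfl⟩, hay⟩
          exact ⟨a, ⟨ha, hay⟩, rfl⟩
      have h6 : S.nm (Q.shd g \ y) * S.nm y = S.nm (Q.shd g) := by
        rw [← S.nm_union Finset.sdiff_disjoint, Finset.sdiff_union_of_subset h2]
      have h7 : ((Q.nq (g.filter (fun a => Q.sh a ∉ y)) : ℕ) : ℝ) * (S.nm y : ℝ) =
          (Q.nq g : ℝ) := by
        unfold Qd.nq
        rw [h5]
        exact_mod_cast h6
      rw [h7]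
      exact h4
  · intro g hg g' hg' hfg
    obtain ⟨h1, h2⟩ := Finset.mem_filter.1 (Finset.mem_coe.1 hg)
    obtain ⟨h1', h2'⟩ := Finset.mem_filter.1 (Finset.mem_coe.1 hg')
    have e := Prod.mk.inj hfg
    exact Finset.Subset.antisymm
      (key g g' (Q.mem_gb.1 h1).1 h2' e.1 e.2)
      (key g' g (Q.mem_gb.1 h1').1 h2 e.1.symm e.2.symm)

theorem skhs_of (_h0 : SKPt) (h1 : SKCard) : SKHs := by
  classical
  intro S ε hε
  obtain ⟨C, hC⟩ := h1 S ε hε
  obtain ⟨D, hD, hu⟩ := S.sh_pow_sub_one 1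
  set u : S.P → ℝ := fun p => S.shf p ^ 1 - 1 with hudef
  have hu0 : ∀ p, 0 ≤ u p := fun p => sub_nonneg.2 (one_le_pow₀ (S.sh_one_le p))
  set g : S.P → ℝ := fun p => 2 * u p * (S.N p : ℝ) ^ (-(1 : ℝ)) with hg
  have hg0 : ∀ p, 0 ≤ g p := fun p =>
    mul_nonneg (mul_nonneg (by norm_num) (hu0 p)) (Real.rpow_nonneg (Nat.cast_nonneg _) _)
  have hgs : Summable g := by
    refine Summable.of_nonneg_of_le hg0 (fun p => ?_)
      ((summable_N S (3 / 2) (by norm_num)).mul_left (2 * D))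
    have hN : (0 : ℝ) < S.N p := by
      have := S.one_le_N p
      exact_mod_cast (by omega : 0 < S.N p)
    have e1 : (S.N p : ℝ) ^ (-(3 / 2) : ℝ) =
        (S.N p : ℝ) ^ (-(1 / 2) : ℝ) * (S.N p : ℝ) ^ (-(1 : ℝ)) := by
      rw [← Real.rpow_add hN]
      norm_num
    rw [e1, ← mul_assoc]
    refine mul_le_mul_of_nonneg_right ?_ (Real.rpow_nonneg (Nat.cast_nonneg _) _)
    rw [mul_assoc]
    exact mul_le_mul_of_nonneg_left (hu p) (by norm_num)
  refine ⟨C * Real.exp (∑' p, g p), fun Q X hX => ?_⟩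
  have hexp : ∀ x : Finset S.P, S.hs x = ∑ y ∈ x.powerset, ∏ p ∈ y, u p := by
    intro x
    have h2 : S.hs x = S.hs x ^ 1 := (pow_one _).symm
    rw [h2, S.sh_hs]
    have h3 : ∏ p ∈ x, S.shf p ^ 1 = ∏ p ∈ x, (1 + u p) :=
      Finset.prod_congr rfl fun p _ => by simp [hudef]
    rw [h3, Finset.prod_one_add]
  have hM0 : 0 ≤ C * (S.nm Q.M : ℝ) ^ ε := by
    have h2 := hC Q 1 le_rfl
    have h3 : (0 : ℝ) ≤ (Q.gb 1).card := Nat.cast_nonneg _
    linarith
  calc ∑ g' ∈ Q.gb X, S.hs (Q.shd g')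
      = ∑ g' ∈ Q.gb X, ∑ y ∈ (Q.shd g').powerset, ∏ p ∈ y, u p :=
        Finset.sum_congr rfl fun x _ => hexp _
    _ = ∑ y ∈ S.bx X, ∑ g' ∈ (Q.gb X).filter (fun g' => y ⊆ Q.shd g'), ∏ p ∈ y, u p := by
        apply Finset.sum_comm'
        intro g' y
        constructor
        · rintro ⟨h2, h3⟩
          have h4 := Finset.mem_powerset.1 h3
          refine ⟨Finset.mem_filter.2 ⟨h2, h4⟩, S.mem_bx.2 ?_⟩
          have h5 : (S.nm y : ℝ) ≤ S.nm (Q.shd g') := by exact_mod_cast S.nm_mono h4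
          exact h5.trans (Q.mem_gb.1 h2).2
        · rintro ⟨h2, h3⟩
          obtain ⟨h4, h5⟩ := Finset.mem_filter.1 h2
          exact ⟨h4, Finset.mem_powerset.2 h5⟩
    _ ≤ ∑ y ∈ S.bx X, (C * (S.nm Q.M : ℝ) ^ ε * X) * ∏ p ∈ y, g p := by
        refine Finset.sum_le_sum fun y hy => ?_
        have hy1 : (S.nm y : ℝ) ≤ X := S.mem_bx.1 hy
        rw [Finset.sum_const, nsmul_eq_mul]
        have h2 : ((((Q.gb X).filter (fun g' => y ⊆ Q.shd g')).card : ℕ) : ℝ) ≤
            2 ^ y.card * ((Q.gb (X / S.nm y)).card : ℝ) := by exact_mod_cast kh_cnt Q X y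
        have h3 : (1 : ℝ) ≤ X / S.nm y := by rwa [le_div_iff₀ (S.nm_posr y), one_mul]
        have h4 := hC Q _ h3
        have h5 : (0 : ℝ) ≤ ∏ p ∈ y, u p := Finset.prod_nonneg fun p _ => hu0 p
        have h6 : ∏ p ∈ y, g p = 2 ^ y.card * (∏ p ∈ y, u p) * (S.nm y : ℝ) ^ (-(1 : ℝ)) := by
          rw [S.sh_nm_rpow, ← Finset.prod_const, ← Finset.prod_mul_distrib,
            ← Finset.prod_mul_distrib]
        rw [h6, Real.rpow_neg_one]
        calc ((((Q.gb X).filter (fun g' => y ⊆ Q.shd g')).card : ℕ) : ℝ) * ∏ p ∈ y, u p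
            ≤ (2 ^ y.card * (C * (S.nm Q.M : ℝ) ^ ε * (X / S.nm y))) * ∏ p ∈ y, u p :=
              mul_le_mul_of_nonneg_right
                (h2.trans (mul_le_mul_of_nonneg_left h4 (by positivity))) h5
          _ = (C * (S.nm Q.M : ℝ) ^ ε * X) *
                (2 ^ y.card * (∏ p ∈ y, u p) * (S.nm y : ℝ)⁻¹) := by
              rw [div_eq_mul_inv]
              ring
    _ ≤ (C * (S.nm Q.M : ℝ) ^ ε * X) * Real.exp (∑' p, g p) := by
        rw [← Finset.mul_sum]
        exact mul_le_mul_of_nonneg_left (sum_prod_le S.toPre g hg0 hgs X)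
          (mul_nonneg hM0 (by linarith))
    _ = C * Real.exp (∑' p, g p) * (S.nm Q.M : ℝ) ^ ε * X := by ring

end Pool.Agent.H32.MQ
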