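import Pool.Agent.H32.MQ.KUStm
import Pool.Agent.H98.MF.SCount

/-!
# Project MQ, row U2: the pair `q12`, `g0` (helper36)
-/

set_option autoImplicit false

open scoped BigOperators

namespace Pool.Agent.H32.MQ

open Pool.Agent.H98.MK (sg)
open Pool.Agent.H98.MF

namespace U13

variable {S : Sys} (Q : Qd S)

/-! ### labels -/

open Classical in
/-- the sum of two labels -/
noncomputable def cmb (l0 l : El S) : El S :=
  (l0.1 + l.1, Q.M.filter fun v => (if v ∈ l0.2 then (1 : ZMod 2) else 0) +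
    (if v ∈ l.2 then (1 : ZMod 2) else 0) = 1)

theorem mem_lab2 {x : Finset S.P} {v : S.P} :
    v ∈ (Q.lab x).2 ↔ v ∈ Q.M ∧ ∑ p ∈ x, S.J p v = 1 := by
  unfold Qd.lab
  simp

theorem ite_z2 (a : ZMod 2) : (if a = 1 then (1 : ZMod 2) else 0) = a := by
  revert a; decide

theorem lab_union {x y : Finset S.P} (h : Disjoint x y) :
    Q.lab (x ∪ y) = cmb Q (Q.lab x) (Q.lab y) := by
  classical
  refine Prod.ext ?_ ?_
  · exact S.tys_union h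
  · ext v
    rw [mem_lab2]
    unfold cmb
    simp only [Finset.mem_filter, mem_lab2]
    refine and_congr_right fun hv => ?_
    simp only [hv, true_and]
    rw [ite_z2, ite_z2, Finset.sum_union h]

theorem lab_mem (x : Finset S.P) : Q.lab x ∈ Q.els := by
  classical
  unfold Qd.els
  rw [Finset.mem_product]
  refine ⟨Finset.mem_univ _, ?_⟩
  rw [Finset.mem_powerset]
  intro v hv
  exact ((mem_lab2 Q).1 hv).1

theorem nu_mem (γ : Q.G) : Q.nu γ ∈ Q.els := by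
  classical
  unfold Qd.els
  rw [Finset.mem_product]
  exact ⟨Finset.mem_univ _, Finset.mem_powerset.2 (Q.nu_sub γ)⟩

theorem mem_els_sub {c : El S} (hc : c ∈ Q.els) : c.2 ⊆ Q.M := by
  classical
  unfold Qd.els at hc
  rw [Finset.mem_product] at hc
  exact Finset.mem_powerset.1 hc.2

theorem card_els : (Q.els.card : ℝ) ≤ 2 ^ S.m * (S.nm Q.M : ℝ) := by
  classical
  have h1 : Q.els.card = 2 ^ S.m * 2 ^ Q.M.card := by
    unfold Qd.els
    rw [Finset.card_product, Finset.card_powerset, Finset.card_univ]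
    congr 1
    simp
  rw [h1]
  push_cast
  refine mul_le_mul_of_nonneg_left ?_ (by positivity)
  exact_mod_cast S.pow_card_le_nm Q.M

theorem K_le : (4 : ℝ) ^ (S.m + Q.M.card) ≤ 4 ^ S.m * (S.nm Q.M : ℝ) ^ 2 := by
  rw [pow_add]
  refine mul_le_mul_of_nonneg_left ?_ (by positivity)
  have h1 : (2 : ℝ) ^ Q.M.card ≤ (S.nm Q.M : ℝ) := by exact_mod_cast S.pow_card_le_nm Q.M
  calc (4 : ℝ) ^ Q.M.card = (2 ^ Q.M.card) ^ 2 := by
        rw [← pow_mul, mul_comm, pow_mul]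
        norm_num
    _ ≤ _ := pow_le_pow_left₀ (by positivity) h1 2

/-! ### the configurations -/

theorem ok_iff (x : Cf Q) : x.Ok ↔
    (Disjoint x.q0 (Q.shd x.qq) ∧ Disjoint x.q0 (Q.shd x.g1) ∧
      Disjoint (Q.shd x.qq) (Q.shd x.g1) ∧ Disjoint x.q0 Q.M ∧ Disjoint (Q.shd x.qq) Q.M ∧
      Disjoint (Q.shd x.g1) Q.M ∧ Q.Gd x.qq ∧ Q.Gd x.g1) ∧
    (Disjoint x.q12 x.q0 ∧ Disjoint x.q12 (Q.shd x.qq) ∧ Disjoint x.q12 (Q.shd x.g1)) ∧
    (Disjoint (Q.shd x.g0) x.q0 ∧ Disjoint (Q.shd x.g0) (Q.shd x.qq) ∧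
      Disjoint (Q.shd x.g0) (Q.shd x.g1) ∧ Disjoint (Q.shd x.g0) Q.M) ∧ Q.Gd x.g0 ∧
    (Disjoint x.q12 Q.M ∧ Disjoint x.q12 (Q.shd x.g0)) := by
  constructor
  · intro h
    have d01 : Disjoint x.q0 x.q12 := h.dj 0 1 (by decide)
    have d02 : Disjoint x.q0 (Q.shd x.qq) := h.dj 0 2 (by decide)
    have d03 : Disjoint x.q0 (Q.shd x.g0) := h.dj 0 3 (by decide)
    have d04 : Disjoint x.q0 (Q.shd x.g1) := h.dj 0 4 (by decide)
    have d12 : Disjoint x.q12 (Q.shd x.qq) := h.dj 1 2 (by decide)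
    have d13 : Disjoint x.q12 (Q.shd x.g0) := h.dj 1 3 (by decide)
    have d14 : Disjoint x.q12 (Q.shd x.g1) := h.dj 1 4 (by decide)
    have d23 : Disjoint (Q.shd x.qq) (Q.shd x.g0) := h.dj 2 3 (by decide)
    have d24 : Disjoint (Q.shd x.qq) (Q.shd x.g1) := h.dj 2 4 (by decide)
    have d34 : Disjoint (Q.shd x.g0) (Q.shd x.g1) := h.dj 3 4 (by decide)
    have m0 : Disjoint x.q0 Q.M := h.dM 0
    have m1 : Disjoint x.q12 Q.M := h.dM 1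
    have m2 : Disjoint (Q.shd x.qq) Q.M := h.dM 2
    have m3 : Disjoint (Q.shd x.g0) Q.M := h.dM 3
    have m4 : Disjoint (Q.shd x.g1) Q.M := h.dM 4
    exact ⟨⟨d02, d04, d24, m0, m2, m4, h.gqq, h.gg1⟩, ⟨d01.symm, d12, d14⟩,
      ⟨d03.symm, d23.symm, d34, m3⟩, h.gg0, m1, d13⟩
  · rintro ⟨⟨d02, d04, d24, m0, m2, m4, gqq, gg1⟩, ⟨d10, d12, d14⟩, ⟨d30, d32, d34, m3⟩, gg0,
      m1, d13⟩
    refine ⟨?_, ?_, gqq, gg0, gg1⟩
    · intro i j hij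
      fin_cases i <;> fin_cases j
      · exact absurd rfl hij
      · exact d10.symm
      · exact d02
      · exact d30.symm
      · exact d04
      · exact d10
      · exact absurd rfl hij
      · exact d12
      · exact d13
      · exact d14
      · exact d02.symm
      · exact d12.symm
      · exact absurd rfl hij
      · exact d32.symm
      · exact d24
      · exact d30
      · exact d13.symm
      · exact d32
      · exact absurd rfl hij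
      · exact d34
      · exact d04.symm
      · exact d14.symm
      · exact d24.symm
      · exact d34.symm
      · exact absurd rfl hij
    · intro i
      fin_cases i
      · exact m0
      · exact m1
      · exact m2
      · exact m3
      · exact m4

/-- the conditions on the fixed variables -/
def Zc (j : Fin 5 → ℕ) (q0 : Finset S.P) (qq g1 : Finset Q.P) : Prop :=
  (Disjoint q0 (Q.shd qq) ∧ Disjoint q0 (Q.shd g1) ∧
      Disjoint (Q.shd qq) (Q.shd g1) ∧ Disjoint q0 Q.M ∧ Disjoint (Q.shd qq) Q.M ∧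
      Disjoint (Q.shd g1) Q.M ∧ Q.Gd qq ∧ Q.Gd g1) ∧
    Nat.clog 2 (S.nm q0) = j 0 ∧ Nat.clog 2 (S.nm (Q.shd qq)) = j 2 ∧
    Nat.clog 2 (S.nm (Q.shd g1)) = j 4

/-- the conditions on `q12` -/
def Ac (j : Fin 5 → ℕ) (q0 : Finset S.P) (qq g1 : Finset Q.P) (x : Finset S.P) : Prop :=
  (Disjoint x q0 ∧ Disjoint x (Q.shd qq) ∧ Disjoint x (Q.shd g1)) ∧ Nat.clog 2 (S.nm x) = j 1

/-- the conditions on `g0` -/
def Bd' (j : Fin 5 → ℕ) (q0 : Finset S.P) (qq g1 : Finset Q.P) (g0 : Finset Q.P) : Prop :=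
  (Disjoint (Q.shd g0) q0 ∧ Disjoint (Q.shd g0) (Q.shd qq) ∧
      Disjoint (Q.shd g0) (Q.shd g1) ∧ Disjoint (Q.shd g0) Q.M) ∧
    Nat.clog 2 (S.nm (Q.shd g0)) = j 3

theorem mem_box {j : Fin 5 → ℕ} {x : Cf Q} : x ∈ Q.box j ↔ x.Ok ∧ ∀ i, x.lv i = j i := by
  unfold Qd.box
  rw [Set.Finite.mem_toFinset]
  rfl

theorem mem_box_iff {j : Fin 5 → ℕ} {q0 x : Finset S.P} {qq g0 g1 : Finset Q.P} :
    (⟨q0, x, qq, g0, g1⟩ : Cf Q) ∈ Q.box j ↔
      Zc Q j q0 qq g1 ∧ Ac Q j q0 qq g1 x ∧ Bd' Q j q0 qq g1 g0 ∧ Q.Gd g0 ∧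
        (Disjoint x Q.M ∧ Disjoint x (Q.shd g0)) := by
  rw [mem_box, ok_iff]
  unfold Zc Ac Bd'
  constructor
  · rintro ⟨⟨h1, h2, h3, h4, h5⟩, h6⟩
    exact ⟨⟨h1, h6 0, h6 2, h6 4⟩, ⟨h2, h6 1⟩, ⟨h3, h6 3⟩, h4, h5⟩
  · rintro ⟨⟨h1, l0, l2, l4⟩, ⟨h2, l1⟩, ⟨h3, l3⟩, h4, h5⟩
    refine ⟨⟨h1, h2, h3, h4, h5⟩, ?_⟩
    intro i
    fin_cases i
    · exact l0
    · exact l1
    · exact l2
    · exact l3
    · exact l4

open Classical in
/-- the coefficient of `q12` -/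
noncomputable def af (W : Wg Q) (j : Fin 5 → ℕ) (q0 : Finset S.P) (qq g1 : Finset Q.P)
    (l e : El S) (x : Finset S.P) : ℝ :=
  if Ac Q j q0 qq g1 x ∧ Q.lab x = l then
    W.a1 x * ((sg (S.JJ x (Q.shd g1) + S.JJ x e.2 + e.1 ⬝ᵥ S.tys x +
      ∑ a ∈ g1, ∑ q ∈ x, S.J q (Q.sh a)) : ℤ) : ℝ) else 0

open Classical in
/-- the coefficient of `g0` -/
noncomputable def bf (Θ : Q.G → El S → El S → ℝ) (W : Wg Q) (j : Fin 5 → ℕ) (q0 : Finset S.P)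
    (qq g1 : Finset Q.P) (c l e : El S) (g0 : Finset Q.P) : ℝ :=
  if Bd' Q j q0 qq g1 g0 then
    W.a3 g0 * ((∑ γ ∈ Q.B (g0 ∪ g1), if Q.nu γ = e then
      Θ γ c (cmb Q (Q.lab (q0 ∪ Q.shd qq)) l) * ((sg (∑ a ∈ qq, Q.sy γ a) : ℤ) : ℝ) else 0) /
        4 ^ (S.m + Q.M.card)) else 0

/-- the constant factor -/
noncomputable def cs (W : Wg Q) (q0 : Finset S.P) (qq g1 : Finset Q.P) (c : El S) : ℝ :=
  W.a0 q0 * W.a2 qq * W.a4 g1 *
    ((sg (∑ a ∈ g1, (Q.d0 a + S.ex (q0 ∪ Q.shd qq ∪ c.2) c.1 (Q.sh a))) : ℤ) : ℝ)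

theorem abs_af {W : Wg Q} (hW : W.Bd) (j : Fin 5 → ℕ) (q0 : Finset S.P) (qq g1 : Finset Q.P)
    (l e : El S) (x : Finset S.P) : |af Q W j q0 qq g1 l e x| ≤ 1 := by
  unfold af
  split_ifs
  · rw [abs_mul, abs_sgr, mul_one]
    exact hW.b1 x
  · rw [abs_zero]
    exact zero_le_one

theorem abs_bf {Θ : Q.G → El S → El S → ℝ} (hΘ : BdT Θ) {W : Wg Q} (hW : W.Bd)
    (j : Fin 5 → ℕ) (q0 : Finset S.P) (qq g1 : Finset Q.P) (c l e : El S) (g0 : Finset Q.P) :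
    |bf Q Θ W j q0 qq g1 c l e g0| ≤ 1 := by
  classical
  unfold bf
  split_ifs
  · rw [abs_mul]
    refine mul_le_one₀ (hW.b3 g0) (abs_nonneg _) ?_
    have hK : (0 : ℝ) < 4 ^ (S.m + Q.M.card) := by positivity
    rw [abs_div, abs_of_pos hK, div_le_one hK]
    refine (Finset.abs_sum_le_sum_abs _ _).trans ?_
    have h1 : ∀ γ ∈ Q.B (g0 ∪ g1), |if Q.nu γ = e then
        Θ γ c (cmb Q (Q.lab (q0 ∪ Q.shd qq)) l) * ((sg (∑ a ∈ qq, Q.sy γ a) : ℤ) : ℝ) else 0|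
          ≤ 1 := by
      intro γ _
      split_ifs
      · rw [abs_mul, abs_sgr, mul_one]
        exact hΘ _ _ _
      · rw [abs_zero]
        exact zero_le_one
    refine (Finset.sum_le_sum h1).trans ?_
    rw [Finset.sum_const, nsmul_eq_mul, mul_one]
    exact_mod_cast Q.card_B _
  · rw [abs_zero]
    exact zero_le_one

theorem abs_cs {W : Wg Q} (hW : W.Bd) (q0 : Finset S.P) (qq g1 : Finset Q.P) (c : El S) :
    |cs Q W q0 qq g1 c| ≤ 1 := by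
  unfold cs
  rw [abs_mul, abs_sgr, mul_one, abs_mul, abs_mul]
  exact mul_le_one₀ (mul_le_one₀ (hW.b0 _) (abs_nonneg _) (hW.b2 _)) (abs_nonneg _) (hW.b4 _)

theorem shd_union (g g' : Finset Q.P) : Q.shd (g ∪ g') = Q.shd g ∪ Q.shd g' := by
  classical
  unfold Qd.shd
  exact Finset.image_union _ _

theorem ex_union {y y' : Finset S.P} (h : Disjoint y y') (c : S.T) (p : S.P) :
    S.ex (y ∪ y') c p = ∑ q ∈ y, S.J q p + S.ex y' c p := by
  unfold Sys.ex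
  rw [Finset.sum_union h, add_assoc]

theorem gd_union {g g' : Finset Q.P} (h : Q.Gd g) (h' : Q.Gd g')
    (hd : Disjoint (Q.shd g) (Q.shd g')) : Q.Gd (g ∪ g') := by
  classical
  have hm : ∀ (g : Finset Q.P) (a : Q.P), a ∈ g → Q.sh a ∈ Q.shd g := by
    intro g a ha
    unfold Qd.shd
    exact Finset.mem_image_of_mem _ ha
  intro a ha b hb hab
  rw [Finset.mem_union] at ha hb
  rcases ha with ha | ha <;> rcases hb with hb | hb
  · exact h a ha b hb hab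
  · exact absurd (hab ▸ hm _ _ hb) (Finset.disjoint_left.1 hd (hm _ _ ha))
  · exact absurd (hab ▸ hm _ _ ha) (Finset.disjoint_left.1 hd (hm _ _ hb))
  · exact h' a ha b hb hab

/-- the sign of a term -/
theorem sign_eq (hL : Q.Law) {j : Fin 5 → ℕ} {q0 x : Finset S.P} {qq g0 g1 : Finset Q.P}
    (hZ : Zc Q j q0 qq g1) (hA : Ac Q j q0 qq g1 x) (hB : Bd' Q j q0 qq g1 g0) (hg : Q.Gd g0)
    (hM : Disjoint x Q.M) (hxg : Disjoint x (Q.shd g0)) {γ : Q.G} (hγ : γ ∈ Q.B (g0 ∪ g1))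
    {c : El S} (hc : c ∈ Q.els) :
    ((sg ((⟨q0, x, qq, g0, g1⟩ : Cf Q).E γ c) : ℤ) : ℝ) =
      (S.jj x (Q.shd g0) : ℝ) *
      ((sg (S.JJ x (Q.shd g1) + S.JJ x (Q.nu γ).2 + (Q.nu γ).1 ⬝ᵥ S.tys x +
        ∑ a ∈ g1, ∑ q ∈ x, S.J q (Q.sh a)) : ℤ) : ℝ) *
      ((sg (∑ a ∈ qq, Q.sy γ a) : ℤ) : ℝ) *
      ((sg (∑ a ∈ g1, (Q.d0 a + S.ex (q0 ∪ Q.shd qq ∪ c.2) c.1 (Q.sh a))) : ℤ) : ℝ) := by
  classical
  obtain ⟨⟨d02, d04, d24, m0, m2, m4, gqq, gg1⟩, -, -, -⟩ := hZ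
  obtain ⟨⟨d10, d12, d14⟩, -⟩ := hA
  obtain ⟨⟨d30, d32, d34, m3⟩, -⟩ := hB
  have e1 : ∑ p ∈ x, Q.ns γ p = S.JJ x (Q.shd g0) + S.JJ x (Q.shd g1) + S.JJ x (Q.nu γ).2 +
      (Q.nu γ).1 ⬝ᵥ S.tys x := by
    have h1 : ∀ p ∈ x, Q.ns γ p = S.ex (Q.shd (g0 ∪ g1) ∪ (Q.nu γ).2) (Q.nu γ).1 p := by
      intro p hp
      refine hL.ns_eq _ (gd_union Q hg gg1 d34) γ hγ p (Finset.disjoint_left.1 hM hp) ?_
      rw [shd_union, Finset.mem_union]
      rintro (h | h)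
      · exact Finset.disjoint_left.1 hxg hp h
      · exact Finset.disjoint_left.1 d14 hp h
    rw [Finset.sum_congr rfl h1, S.sum_ex, S.JJ_union_right, shd_union, S.JJ_union_right _ d34]
    rw [shd_union, Finset.disjoint_union_left]
    exact ⟨Finset.disjoint_of_subset_right (Q.nu_sub γ) m3,
      Finset.disjoint_of_subset_right (Q.nu_sub γ) m4⟩
  have e2 : ∑ a ∈ g1, (Q.d0 a + S.ex ((⟨q0, x, qq, g0, g1⟩ : Cf Q).q ∪ c.2) c.1 (Q.sh a)) =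
      ∑ a ∈ g1, ∑ q ∈ x, S.J q (Q.sh a) +
        ∑ a ∈ g1, (Q.d0 a + S.ex (q0 ∪ Q.shd qq ∪ c.2) c.1 (Q.sh a)) := by
    rw [← Finset.sum_add_distrib]
    refine Finset.sum_congr rfl fun a _ => ?_
    have h2 : (⟨q0, x, qq, g0, g1⟩ : Cf Q).q ∪ c.2 = x ∪ (q0 ∪ Q.shd qq ∪ c.2) := by
      unfold Cf.q
      ext v
      simp only [Finset.mem_union]
      tauto
    rw [h2, ex_union]
    · ring
    · rw [Finset.disjoint_union_right, Finset.disjoint_union_right]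
      exact ⟨⟨d10, d12⟩, Finset.disjoint_of_subset_right (mem_els_sub Q hc) hM⟩
  have e3 : (⟨q0, x, qq, g0, g1⟩ : Cf Q).E γ c = S.JJ x (Q.shd g0) +
      (S.JJ x (Q.shd g1) + S.JJ x (Q.nu γ).2 + (Q.nu γ).1 ⬝ᵥ S.tys x +
        ∑ a ∈ g1, ∑ q ∈ x, S.J q (Q.sh a)) + ∑ a ∈ qq, Q.sy γ a +
      ∑ a ∈ g1, (Q.d0 a + S.ex (q0 ∪ Q.shd qq ∪ c.2) c.1 (Q.sh a)) := by
    unfold Cf.E
    rw [e2]
    show ∑ p ∈ x, Q.ns γ p + _ + _ = _
    rw [e1]
    ring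
  rw [e3, sg_add, sg_add, sg_add]
  push_cast
  rfl

theorem lab_eq {j : Fin 5 → ℕ} {q0 x : Finset S.P} {qq g0 g1 : Finset Q.P}
    (hA : Ac Q j q0 qq g1 x) : Q.lab (⟨q0, x, qq, g0, g1⟩ : Cf Q).q =
      cmb Q (Q.lab (q0 ∪ Q.shd qq)) (Q.lab x) := by
  classical
  obtain ⟨⟨d10, d12, d14⟩, -⟩ := hA
  have h2 : (⟨q0, x, qq, g0, g1⟩ : Cf Q).q = (q0 ∪ Q.shd qq) ∪ x := by
    unfold Cf.q
    ext v
    simp only [Finset.mem_union]
    tauto
  rw [h2, lab_union]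
  rw [Finset.disjoint_union_left]
  exact ⟨d10.symm, d12.symm⟩

open Classical in
/-- the pointwise identity -/
theorem pt (hL : Q.Law) (Θ : Q.G → El S → El S → ℝ) (W : Wg Q) (j : Fin 5 → ℕ)
    {q0 : Finset S.P} {qq g1 : Finset Q.P} (hZ : Zc Q j q0 qq g1) (x : Finset S.P)
    {g0 : Finset Q.P} (hg : Q.Gd g0) :
    (if (⟨q0, x, qq, g0, g1⟩ : Cf Q) ∈ Q.box j then
      W.val ⟨q0, x, qq, g0, g1⟩ * (⟨q0, x, qq, g0, g1⟩ : Cf Q).tm Θ else 0) =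
    ∑ c ∈ Q.els, ∑ l ∈ Q.els, ∑ e ∈ Q.els, 4 ^ (S.m + Q.M.card) * cs Q W q0 qq g1 c *
      (if Disjoint x Q.M ∧ Disjoint x (Q.shd g0) then
        af Q W j q0 qq g1 l e x * bf Q Θ W j q0 qq g1 c l e g0 * (S.jj x (Q.shd g0) : ℝ)
      else 0) := by
  by_cases hD : Disjoint x Q.M ∧ Disjoint x (Q.shd g0)
  swap
  · rw [if_neg (fun h => hD ((mem_box_iff Q).1 h).2.2.2.2)]
    symm
    refine Finset.sum_eq_zero fun c _ => Finset.sum_eq_zero fun l _ =>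
      Finset.sum_eq_zero fun e _ => ?_
    rw [if_neg hD, mul_zero]
  by_cases hA : Ac Q j q0 qq g1 x
  swap
  · rw [if_neg (fun h => hA ((mem_box_iff Q).1 h).2.1)]
    symm
    refine Finset.sum_eq_zero fun c _ => Finset.sum_eq_zero fun l _ =>
      Finset.sum_eq_zero fun e _ => ?_
    have h0 : af Q W j q0 qq g1 l e x = 0 := by
      unfold af
      rw [if_neg (fun h => hA h.1)]
    rw [h0]
    simp
  by_cases hB : Bd' Q j q0 qq g1 g0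
  swap
  · rw [if_neg (fun h => hB ((mem_box_iff Q).1 h).2.2.1)]
    symm
    refine Finset.sum_eq_zero fun c _ => Finset.sum_eq_zero fun l _ =>
      Finset.sum_eq_zero fun e _ => ?_
    have h0 : bf Q Θ W j q0 qq g1 c l e g0 = 0 := by
      unfold bf
      rw [if_neg hB]
    rw [h0]
    simp
  have hbox : (⟨q0, x, qq, g0, g1⟩ : Cf Q) ∈ Q.box j :=
    (mem_box_iff Q).2 ⟨hZ, hA, hB, hg, hD⟩
  rw [if_pos hbox]
  simp only [if_pos hD]
  have hOk : (⟨q0, x, qq, g0, g1⟩ : Cf Q).Ok := ((mem_box Q).1 hbox).1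
  have hK : (4 : ℝ) ^ (S.m + Q.M.card) ≠ 0 := by positivity
  -- the sums over `l` and `e`
  have hle : ∀ c ∈ Q.els, ∑ l ∈ Q.els, ∑ e ∈ Q.els, 4 ^ (S.m + Q.M.card) * cs Q W q0 qq g1 c *
      (af Q W j q0 qq g1 l e x * bf Q Θ W j q0 qq g1 c l e g0 * (S.jj x (Q.shd g0) : ℝ)) =
      ∑ γ ∈ Q.B (g0 ∪ g1), W.val ⟨q0, x, qq, g0, g1⟩ *
        (Θ γ c (Q.lab (⟨q0, x, qq, g0, g1⟩ : Cf Q).q) *
          ((sg ((⟨q0, x, qq, g0, g1⟩ : Cf Q).E γ c) : ℤ) : ℝ)) := by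
    intro c hc
    rw [Finset.sum_eq_single (Q.lab x)]
    · have h1 : ∀ e ∈ Q.els, 4 ^ (S.m + Q.M.card) * cs Q W q0 qq g1 c *
          (af Q W j q0 qq g1 (Q.lab x) e x * bf Q Θ W j q0 qq g1 c (Q.lab x) e g0 *
            (S.jj x (Q.shd g0) : ℝ)) =
          ∑ γ ∈ Q.B (g0 ∪ g1), if Q.nu γ = e then W.val ⟨q0, x, qq, g0, g1⟩ *
            (Θ γ c (Q.lab (⟨q0, x, qq, g0, g1⟩ : Cf Q).q) *
              ((sg ((⟨q0, x, qq, g0, g1⟩ : Cf Q).E γ c) : ℤ) : ℝ)) else 0 := by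
        intro e _
        unfold af bf
        rw [if_pos ⟨hA, rfl⟩, if_pos hB, ← lab_eq Q (g0 := g0) hA]
        have h2 : ∀ (A B C D E : ℝ) (s : Finset Q.G) (f : Q.G → ℝ),
            4 ^ (S.m + Q.M.card) * A * (B * C * (D * ((∑ γ ∈ s, f γ) /
              4 ^ (S.m + Q.M.card))) * E) = ∑ γ ∈ s, A * B * C * D * E * f γ := by
          intro A B C D E s f
          rw [← Finset.mul_sum]
          field_simp
        rw [h2]
        refine Finset.sum_congr rfl fun γ hγ => ?_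
        split_ifs with he
        · subst he
          rw [sign_eq Q hL hZ hA hB hg hD.1 hD.2 hγ hc]
          unfold cs Wg.val
          ring
        · rw [mul_zero]
      rw [Finset.sum_congr rfl h1, Finset.sum_comm]
      refine Finset.sum_congr rfl fun γ _ => ?_
      rw [Finset.sum_ite_eq, if_pos (nu_mem Q γ)]
    · intro l _ hl
      refine Finset.sum_eq_zero fun e _ => ?_
      have h0 : af Q W j q0 qq g1 l e x = 0 := by
        unfold af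
        rw [if_neg (fun h => hl h.2.symm)]
      rw [h0]
      simp
    · intro h
      exact absurd (lab_mem Q x) h
  rw [Finset.sum_congr rfl hle, Finset.sum_comm]
  unfold Cf.tm
  rw [if_pos hOk, Finset.mul_sum]
  show ∑ γ ∈ Q.B (g0 ∪ g1), _ = _
  refine Finset.sum_congr rfl fun γ _ => ?_
  rw [Finset.mul_sum]

open Classical in
/-- the sum over a box as an iterated sum -/
theorem TD_eq (Θ : Q.G → El S → El S → ℝ) (W : Wg Q) (j : Fin 5 → ℕ) :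
    Q.TD Θ W j = ∑ q0 ∈ S.bx (2 ^ j 0), ∑ qq ∈ Q.gb (2 ^ j 2), ∑ g1 ∈ Q.gb (2 ^ j 4),
      ∑ x ∈ S.bx (2 ^ j 1), ∑ g0 ∈ Q.gb (2 ^ j 3),
        (if (⟨q0, x, qq, g0, g1⟩ : Cf Q) ∈ Q.box j then
          W.val ⟨q0, x, qq, g0, g1⟩ * (⟨q0, x, qq, g0, g1⟩ : Cf Q).tm Θ else 0) := by
  have hb : ∀ (y : Finset S.P) (k : ℕ), Nat.clog 2 (S.nm y) = k → (S.nm y : ℝ) ≤ 2 ^ k := by
    intro y k h
    have h1 : S.nm y ≤ 2 ^ Nat.clog 2 (S.nm y) := Nat.le_pow_clog one_lt_two _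
    rw [h] at h1
    exact_mod_cast h1
  set mk : Finset S.P × Finset Q.P × Finset Q.P × Finset S.P × Finset Q.P → Cf Q :=
    fun t => ⟨t.1, t.2.2.2.1, t.2.1, t.2.2.2.2, t.2.2.1⟩ with hmk
  have h1 : Q.TD Θ W j = ∑ t ∈ S.bx (2 ^ j 0) ×ˢ Q.gb (2 ^ j 2) ×ˢ Q.gb (2 ^ j 4) ×ˢ
      S.bx (2 ^ j 1) ×ˢ Q.gb (2 ^ j 3),
      (if mk t ∈ Q.box j then W.val (mk t) * (mk t).tm Θ else 0) := by
    unfold Qd.TD
    rw [← Finset.sum_filter]
    symm
    refine Finset.sum_nbij' mk (fun x => (x.q0, x.qq, x.g1, x.q12, x.g0)) ?_ ?_ ?_ ?_ ?_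
    · intro t ht
      exact (Finset.mem_filter.1 ht).2
    · intro x hx
      have hx' := (mem_box Q).1 hx
      obtain ⟨hok, hl⟩ := hx'
      rw [Finset.mem_filter]
      refine ⟨?_, hx⟩
      simp only [Finset.mem_product, S.mem_bx, Q.mem_gb]
      exact ⟨hb _ _ (hl 0), ⟨hok.gqq, hb _ _ (hl 2)⟩, ⟨hok.gg1, hb _ _ (hl 4)⟩, hb _ _ (hl 1),
        hok.gg0, hb _ _ (hl 3)⟩
    · intro t _
      rfl
    · intro x _
      rfl
    · intro t _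
      rfl
  rw [h1]
  simp only [Finset.sum_product]
  rfl

/-- the sum over `q12` and `g0` -/
theorem inner (hL : Q.Law) {Θ : Q.G → El S → El S → ℝ} (hΘ : BdT Θ) {W : Wg Q} (hW : W.Bd)
    (j : Fin 5 → ℕ) (R : ℝ)
    (hR : ∀ (a : Finset S.P → ℝ) (b : Finset Q.P → ℝ), (∀ x, |a x| ≤ 1) → (∀ g, |b g| ≤ 1) →
      |BL Q a b (2 ^ j 1) (2 ^ j 3)| ≤ R) (q0 : Finset S.P) (qq g1 : Finset Q.P) :
    |∑ x ∈ S.bx (2 ^ j 1), ∑ g0 ∈ Q.gb (2 ^ j 3),
        (open Classical in if (⟨q0, x, qq, g0, g1⟩ : Cf Q) ∈ Q.box j then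
          W.val ⟨q0, x, qq, g0, g1⟩ * (⟨q0, x, qq, g0, g1⟩ : Cf Q).tm Θ else 0)| ≤
      (Q.els.card : ℝ) ^ 3 * (4 ^ (S.m + Q.M.card) * R) := by
  classical
  have hR0 : 0 ≤ R := (abs_nonneg _).trans (hR (fun _ => 0) (fun _ => 0) (by simp) (by simp))
  by_cases hZ : Zc Q j q0 qq g1
  swap
  · rw [Finset.sum_eq_zero]
    · rw [abs_zero]
      positivity
    · intro x _
      refine Finset.sum_eq_zero fun g0 _ => ?_
      rw [if_neg (fun h => hZ ((mem_box_iff Q).1 h).1)]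
  have h1 : ∑ x ∈ S.bx (2 ^ j 1), ∑ g0 ∈ Q.gb (2 ^ j 3),
        (if (⟨q0, x, qq, g0, g1⟩ : Cf Q) ∈ Q.box j then
          W.val ⟨q0, x, qq, g0, g1⟩ * (⟨q0, x, qq, g0, g1⟩ : Cf Q).tm Θ else 0) =
      ∑ c ∈ Q.els, ∑ l ∈ Q.els, ∑ e ∈ Q.els, 4 ^ (S.m + Q.M.card) * cs Q W q0 qq g1 c *
        BL Q (af Q W j q0 qq g1 l e) (bf Q Θ W j q0 qq g1 c l e) (2 ^ j 1) (2 ^ j 3) := by
    have h2 : ∀ x ∈ S.bx (2 ^ j 1), ∑ g0 ∈ Q.gb (2 ^ j 3),
        (if (⟨q0, x, qq, g0, g1⟩ : Cf Q) ∈ Q.box j then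
          W.val ⟨q0, x, qq, g0, g1⟩ * (⟨q0, x, qq, g0, g1⟩ : Cf Q).tm Θ else 0) =
        ∑ c ∈ Q.els, ∑ l ∈ Q.els, ∑ e ∈ Q.els, ∑ g0 ∈ Q.gb (2 ^ j 3),
          4 ^ (S.m + Q.M.card) * cs Q W q0 qq g1 c *
          (if Disjoint x Q.M ∧ Disjoint x (Q.shd g0) then
            af Q W j q0 qq g1 l e x * bf Q Θ W j q0 qq g1 c l e g0 * (S.jj x (Q.shd g0) : ℝ)
          else 0) := by
      intro x _
      rw [Finset.sum_congr rfl fun g0 hg0 => pt Q hL Θ W j hZ x ((Q.mem_gb).1 hg0).1]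
      rw [Finset.sum_comm]
      refine Finset.sum_congr rfl fun c _ => ?_
      rw [Finset.sum_comm]
      refine Finset.sum_congr rfl fun l _ => ?_
      rw [Finset.sum_comm]
    rw [Finset.sum_congr rfl h2, Finset.sum_comm]
    refine Finset.sum_congr rfl fun c _ => ?_
    rw [Finset.sum_comm]
    refine Finset.sum_congr rfl fun l _ => ?_
    rw [Finset.sum_comm]
    refine Finset.sum_congr rfl fun e _ => ?_
    unfold BL
    rw [Finset.mul_sum]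
    refine Finset.sum_congr rfl fun x _ => ?_
    rw [Finset.mul_sum]
  rw [h1]
  have h3 : ∀ c ∈ Q.els, ∀ l ∈ Q.els, ∀ e ∈ Q.els, |4 ^ (S.m + Q.M.card) * cs Q W q0 qq g1 c *
        BL Q (af Q W j q0 qq g1 l e) (bf Q Θ W j q0 qq g1 c l e) (2 ^ j 1) (2 ^ j 3)| ≤
        4 ^ (S.m + Q.M.card) * R := by
    intro c _ l _ e _
    rw [abs_mul, abs_mul, abs_of_pos (by positivity : (0 : ℝ) < 4 ^ (S.m + Q.M.card)), mul_assoc]
    refine mul_le_mul_of_nonneg_left ?_ (by positivity)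
    calc |cs Q W q0 qq g1 c| * |BL Q (af Q W j q0 qq g1 l e) (bf Q Θ W j q0 qq g1 c l e)
          (2 ^ j 1) (2 ^ j 3)| ≤ 1 * R :=
          mul_le_mul (abs_cs Q hW _ _ _ _)
            (hR _ _ (abs_af Q hW _ _ _ _ _ _) (abs_bf Q hΘ hW _ _ _ _ _ _ _))
            (abs_nonneg _) zero_le_one
      _ = R := one_mul R
  calc _ ≤ ∑ c ∈ Q.els, ∑ l ∈ Q.els, ∑ e ∈ Q.els, 4 ^ (S.m + Q.M.card) * R := by
        refine (Finset.abs_sum_le_sum_abs _ _).trans (Finset.sum_le_sum fun c hc => ?_)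
        refine (Finset.abs_sum_le_sum_abs _ _).trans (Finset.sum_le_sum fun l hl => ?_)
        exact (Finset.abs_sum_le_sum_abs _ _).trans (Finset.sum_le_sum fun e he => h3 c hc l hl e he)
    _ = _ := by
        simp only [Finset.sum_const, nsmul_eq_mul]
        ring

theorem min_pow (a b : ℕ) (η : ℝ) : min ((2 : ℝ) ^ a) ((2 : ℝ) ^ b) ^ (-η) =
    (2 : ℝ) ^ (-η * min (a : ℝ) (b : ℝ)) := by
  have h : ∀ c : ℕ, ((2 : ℝ) ^ c) ^ (-η) = (2 : ℝ) ^ (-η * (c : ℝ)) := by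
    intro c
    rw [← Real.rpow_natCast, ← Real.rpow_mul two_pos.le, mul_comm]
  rcases le_total a b with hab | hab
  · rw [min_eq_left (pow_le_pow_right₀ one_le_two hab), min_eq_left (by exact_mod_cast hab), h]
  · rw [min_eq_right (pow_le_pow_right₀ one_le_two hab), min_eq_right (by exact_mod_cast hab), h]

end U13

open U13

/-- the pair `q12, g0` -/
theorem su13_of (_h0 : SKPt) (h1 : SKCard) (hB : SKB1) : SU13 := by
  classical
  intro S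
  obtain ⟨C, A, η, hA, hη, hB⟩ := hB S
  obtain ⟨C1, hC1⟩ := card_bx_le S
  obtain ⟨C2, hC2⟩ := h1 S 1 one_pos
  refine ⟨|C1| * |C2| ^ 2 * (2 ^ S.m) ^ 3 * 4 ^ S.m * |C|, A + 7, η, by linarith, hη, ?_⟩
  intro Q hL Θ W j hΘ hW
  have hN1 : (1 : ℝ) ≤ S.nm Q.M := S.one_le_nmr Q.M
  have hN0 : (0 : ℝ) < S.nm Q.M := by linarith
  set N : ℝ := (S.nm Q.M : ℝ) with hN
  have hNA : 0 ≤ N ^ A := Real.rpow_nonneg hN0.le _
  have hX : ∀ i : Fin 5, (1 : ℝ) ≤ 2 ^ j i := fun i => one_le_pow₀ one_le_two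
  set D : ℝ := (2 : ℝ) ^ (-η * min (j 1 : ℝ) (j 3)) with hD
  have hD0 : 0 ≤ D := Real.rpow_nonneg two_pos.le _
  set R : ℝ := |C| * N ^ A * (2 ^ j 1 * 2 ^ j 3) * D with hRd
  have hR0 : 0 ≤ R := by positivity
  have hR : ∀ (a : Finset S.P → ℝ) (b : Finset Q.P → ℝ), (∀ x, |a x| ≤ 1) →
      (∀ g, |b g| ≤ 1) → |BL Q a b (2 ^ j 1) (2 ^ j 3)| ≤ R := by
    intro a b ha hb
    refine (hB Q a b ha hb _ _ (hX 1) (hX 3)).trans ?_
    rw [U13.min_pow, hRd]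
    refine mul_le_mul_of_nonneg_right ?_ hD0
    refine mul_le_mul_of_nonneg_right ?_ (by positivity)
    exact mul_le_mul_of_nonneg_right (le_abs_self C) hNA
  have hcard0 : ((S.bx (2 ^ j 0)).card : ℝ) ≤ |C1| * 2 ^ j 0 :=
    (hC1 _ (hX 0)).trans (mul_le_mul_of_nonneg_right (le_abs_self _) (by positivity))
  have hcardg : ∀ i : Fin 5, ((Q.gb (2 ^ j i)).card : ℝ) ≤ |C2| * N * 2 ^ j i := by
    intro i
    refine (hC2 Q _ (hX i)).trans ?_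
    rw [Real.rpow_one]
    refine mul_le_mul_of_nonneg_right ?_ (by positivity)
    exact mul_le_mul_of_nonneg_right (le_abs_self _) hN0.le
  have hTD : |Q.TD Θ W j| ≤ ((S.bx (2 ^ j 0)).card : ℝ) * (((Q.gb (2 ^ j 2)).card : ℝ) *
      (((Q.gb (2 ^ j 4)).card : ℝ) *
        ((Q.els.card : ℝ) ^ 3 * (4 ^ (S.m + Q.M.card) * R)))) := by
    rw [TD_eq Q Θ W j]
    calc _ ≤ ∑ q0 ∈ S.bx (2 ^ j 0), ∑ qq ∈ Q.gb (2 ^ j 2), ∑ g1 ∈ Q.gb (2 ^ j 4),
          (Q.els.card : ℝ) ^ 3 * (4 ^ (S.m + Q.M.card) * R) := by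
          refine (Finset.abs_sum_le_sum_abs _ _).trans (Finset.sum_le_sum fun q0 _ => ?_)
          refine (Finset.abs_sum_le_sum_abs _ _).trans (Finset.sum_le_sum fun qq _ => ?_)
          refine (Finset.abs_sum_le_sum_abs _ _).trans (Finset.sum_le_sum fun g1 _ => ?_)
          exact inner Q hL hΘ hW j R hR q0 qq g1
      _ = _ := by
          simp only [Finset.sum_const, nsmul_eq_mul]
  refine hTD.trans ?_
  have hels : (Q.els.card : ℝ) ^ 3 ≤ (2 ^ S.m * N) ^ 3 :=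
    pow_le_pow_left₀ (Nat.cast_nonneg _) (card_els Q) 3
  have hK := K_le Q
  calc ((S.bx (2 ^ j 0)).card : ℝ) * (((Q.gb (2 ^ j 2)).card : ℝ) *
      (((Q.gb (2 ^ j 4)).card : ℝ) *
        ((Q.els.card : ℝ) ^ 3 * (4 ^ (S.m + Q.M.card) * R))))
      ≤ (|C1| * 2 ^ j 0) * ((|C2| * N * 2 ^ j 2) * ((|C2| * N * 2 ^ j 4) *
        ((2 ^ S.m * N) ^ 3 * ((4 ^ S.m * N ^ 2) * R)))) := by
        refine mul_le_mul hcard0 ?_ (by positivity) (by positivity)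
        refine mul_le_mul (hcardg 2) ?_ (by positivity) (by positivity)
        refine mul_le_mul (hcardg 4) ?_ (by positivity) (by positivity)
        refine mul_le_mul hels ?_ (by positivity) (by positivity)
        exact mul_le_mul_of_nonneg_right hK hR0
    _ = _ := by
        have hv : vol j = 2 ^ j 0 * 2 ^ j 1 * 2 ^ j 2 * 2 ^ j 3 * 2 ^ j 4 := by
          unfold vol
          rw [Fin.sum_univ_five, pow_add, pow_add, pow_add, pow_add]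
        have hp : N ^ (A + 7) = N ^ A * N ^ 7 := by
          rw [Real.rpow_add hN0]
          congr 1
          exact_mod_cast Real.rpow_natCast N 7
        rw [hv, hp, hRd]
        ring

end Pool.Agent.H32.MQ
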