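import Pool.Agent.H32.MQ.U13

/-!
# Project MQ, row U3: the pair `qq`, `g0` (helper19)
-/

set_option autoImplicit false

open scoped BigOperators

namespace Pool.Agent.H32.MQ

open Pool.Agent.H98.MK (sg)
open Pool.Agent.H98.MF
open U13 (cmb lab_union lab_mem mem_els_sub card_els mem_box shd_union ex_union gd_union)

namespace U23

variable {S : Sys} (Q : Qd S)

/-- the conditions on the fixed variables -/
def Zc (j : Fin 5 → ℕ) (q0 x : Finset S.P) (g1 : Finset Q.P) : Prop :=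
  (Disjoint q0 x ∧ Disjoint q0 (Q.shd g1) ∧ Disjoint x (Q.shd g1) ∧ Disjoint q0 Q.M ∧
      Disjoint x Q.M ∧ Disjoint (Q.shd g1) Q.M ∧ Q.Gd g1) ∧
    Nat.clog 2 (S.nm q0) = j 0 ∧ Nat.clog 2 (S.nm x) = j 1 ∧
    Nat.clog 2 (S.nm (Q.shd g1)) = j 4

/-- the conditions on `qq` -/
def Ac (j : Fin 5 → ℕ) (q0 x : Finset S.P) (qq : Finset Q.P) : Prop :=
  (Disjoint (Q.shd qq) q0 ∧ Disjoint (Q.shd qq) x ∧ Disjoint (Q.shd qq) Q.M) ∧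
    Nat.clog 2 (S.nm (Q.shd qq)) = j 2

/-- the conditions on `g0` -/
def Bc (j : Fin 5 → ℕ) (q0 x : Finset S.P) (g0 : Finset Q.P) : Prop :=
  (Disjoint (Q.shd g0) q0 ∧ Disjoint (Q.shd g0) x ∧ Disjoint (Q.shd g0) Q.M) ∧
    Nat.clog 2 (S.nm (Q.shd g0)) = j 3

theorem mem_box_iff {j : Fin 5 → ℕ} {q0 x : Finset S.P} {qq g0 g1 : Finset Q.P} :
    (⟨q0, x, qq, g0, g1⟩ : Cf Q) ∈ Q.box j ↔
      Zc Q j q0 x g1 ∧ Ac Q j q0 x qq ∧ Bc Q j q0 x g0 ∧ (Q.Gd g0 ∧ Q.Gd qq) ∧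
        (Disjoint (Q.shd g0) (Q.shd g1) ∧ Disjoint (Q.shd qq) (Q.shd g0 ∪ Q.shd g1)) := by
  rw [mem_box, U13.ok_iff]
  unfold Zc Ac Bc
  rw [Finset.disjoint_union_right]
  constructor
  · rintro ⟨⟨⟨d02, d04, d24, m0, m2, m4, gqq, gg1⟩, ⟨d10, d12, d14⟩, ⟨d30, d32, d34, m3⟩, gg0,
      m1, d13⟩, h6⟩
    exact ⟨⟨⟨d10.symm, d04, d14, m0, m1, m4, gg1⟩, h6 0, h6 1, h6 4⟩,
      ⟨⟨d02.symm, d12.symm, m2⟩, h6 2⟩, ⟨⟨d30, d13.symm, m3⟩, h6 3⟩, ⟨gg0, gqq⟩, d34,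
      d32.symm, d24⟩
  · rintro ⟨⟨⟨d01, d04, d14, m0, m1, m4, gg1⟩, l0, l1, l4⟩, ⟨⟨d20, d21, m2⟩, l2⟩,
      ⟨⟨d30, d31, m3⟩, l3⟩, ⟨gg0, gqq⟩, d34, d23, d24⟩
    refine ⟨⟨⟨d20.symm, d04, d24, m0, m2, m4, gqq, gg1⟩, ⟨d01.symm, d21.symm, d14⟩,
      ⟨d30, d23.symm, d34, m3⟩, gg0, m1, d31.symm⟩, ?_⟩
    intro i
    fin_cases i
    · exact l0
    · exact l1
    · exact l2
    · exact l3
    · exact l4

open Classical in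
/-- the coefficient of `qq` -/
noncomputable def bf (W : Wg Q) (j : Fin 5 → ℕ) (q0 x : Finset S.P) (g1 : Finset Q.P)
    (l : El S) (qq : Finset Q.P) : ℝ :=
  if Ac Q j q0 x qq ∧ Q.lab (Q.shd qq) = l then
    W.a2 qq * ((sg (∑ a ∈ g1, ∑ q ∈ Q.shd qq, S.J q (Q.sh a)) : ℤ) : ℝ) else 0

open Classical in
/-- the coefficient of `g0` -/
noncomputable def af (Θ : Q.G → El S → El S → ℝ) (W : Wg Q) (j : Fin 5 → ℕ)
    (q0 x : Finset S.P) (c l : El S) (g0 : Finset Q.P) (γ : Q.G) : ℝ :=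
  if Bc Q j q0 x g0 then
    W.a3 g0 * (Θ γ c (cmb Q (Q.lab (q0 ∪ x)) l) * ((sg (∑ p ∈ x, Q.ns γ p) : ℤ) : ℝ)) else 0

/-- the constant factor -/
noncomputable def cs (W : Wg Q) (q0 x : Finset S.P) (g1 : Finset Q.P) (c : El S) : ℝ :=
  W.a0 q0 * W.a1 x * W.a4 g1 *
    ((sg (∑ a ∈ g1, (Q.d0 a + S.ex (q0 ∪ x ∪ c.2) c.1 (Q.sh a))) : ℤ) : ℝ)

theorem abs_bf {W : Wg Q} (hW : W.Bd) (j : Fin 5 → ℕ) (q0 x : Finset S.P) (g1 : Finset Q.P)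
    (l : El S) (qq : Finset Q.P) : |bf Q W j q0 x g1 l qq| ≤ 1 := by
  unfold bf
  split_ifs
  · rw [abs_mul, abs_sgr, mul_one]
    exact hW.b2 qq
  · rw [abs_zero]
    exact zero_le_one

theorem abs_af {Θ : Q.G → El S → El S → ℝ} (hΘ : BdT Θ) {W : Wg Q} (hW : W.Bd)
    (j : Fin 5 → ℕ) (q0 x : Finset S.P) (c l : El S) (g0 : Finset Q.P) (γ : Q.G) :
    |af Q Θ W j q0 x c l g0 γ| ≤ 1 := by
  unfold af
  split_ifs
  · rw [abs_mul, abs_mul, abs_sgr, mul_one]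
    exact mul_le_one₀ (hW.b3 g0) (abs_nonneg _) (hΘ _ _ _)
  · rw [abs_zero]
    exact zero_le_one

theorem abs_cs {W : Wg Q} (hW : W.Bd) (q0 x : Finset S.P) (g1 : Finset Q.P) (c : El S) :
    |cs Q W q0 x g1 c| ≤ 1 := by
  unfold cs
  rw [abs_mul, abs_sgr, mul_one, abs_mul, abs_mul]
  exact mul_le_one₀ (mul_le_one₀ (hW.b0 _) (abs_nonneg _) (hW.b1 _)) (abs_nonneg _) (hW.b4 _)

/-- the sign of a term -/
theorem sign_eq {j : Fin 5 → ℕ} {q0 x : Finset S.P} {qq g0 g1 : Finset Q.P}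
    (hA : Ac Q j q0 x qq) (γ : Q.G) {c : El S} (hc : c ∈ Q.els) :
    ((sg ((⟨q0, x, qq, g0, g1⟩ : Cf Q).E γ c) : ℤ) : ℝ) =
      ((sg (∑ p ∈ x, Q.ns γ p) : ℤ) : ℝ) * ((sg (∑ a ∈ qq, Q.sy γ a) : ℤ) : ℝ) *
      ((sg (∑ a ∈ g1, ∑ q ∈ Q.shd qq, S.J q (Q.sh a)) : ℤ) : ℝ) *
      ((sg (∑ a ∈ g1, (Q.d0 a + S.ex (q0 ∪ x ∪ c.2) c.1 (Q.sh a))) : ℤ) : ℝ) := by
  classical
  obtain ⟨⟨d20, d21, m2⟩, -⟩ := hA
  have e2 : ∑ a ∈ g1, (Q.d0 a + S.ex ((⟨q0, x, qq, g0, g1⟩ : Cf Q).q ∪ c.2) c.1 (Q.sh a)) =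
      ∑ a ∈ g1, ∑ q ∈ Q.shd qq, S.J q (Q.sh a) +
        ∑ a ∈ g1, (Q.d0 a + S.ex (q0 ∪ x ∪ c.2) c.1 (Q.sh a)) := by
    rw [← Finset.sum_add_distrib]
    refine Finset.sum_congr rfl fun a _ => ?_
    have h2 : (⟨q0, x, qq, g0, g1⟩ : Cf Q).q ∪ c.2 = Q.shd qq ∪ (q0 ∪ x ∪ c.2) := by
      unfold Cf.q
      ext v
      simp only [Finset.mem_union]
      tauto
    rw [h2, ex_union]
    · ring
    · rw [Finset.disjoint_union_right, Finset.disjoint_union_right]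
      exact ⟨⟨d20, d21⟩, Finset.disjoint_of_subset_right (mem_els_sub Q hc) m2⟩
  have e3 : (⟨q0, x, qq, g0, g1⟩ : Cf Q).E γ c = ∑ p ∈ x, Q.ns γ p + ∑ a ∈ qq, Q.sy γ a +
      ∑ a ∈ g1, ∑ q ∈ Q.shd qq, S.J q (Q.sh a) +
      ∑ a ∈ g1, (Q.d0 a + S.ex (q0 ∪ x ∪ c.2) c.1 (Q.sh a)) := by
    unfold Cf.E
    rw [e2]
    show ∑ p ∈ x, Q.ns γ p + _ + _ = _
    ring
  rw [e3, sg_add, sg_add, sg_add]
  push_cast
  rfl

theorem lab_eq {j : Fin 5 → ℕ} {q0 x : Finset S.P} {qq g0 g1 : Finset Q.P}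
    (hA : Ac Q j q0 x qq) : Q.lab (⟨q0, x, qq, g0, g1⟩ : Cf Q).q =
      cmb Q (Q.lab (q0 ∪ x)) (Q.lab (Q.shd qq)) := by
  classical
  obtain ⟨⟨d20, d21, m2⟩, -⟩ := hA
  have h2 : (⟨q0, x, qq, g0, g1⟩ : Cf Q).q = (q0 ∪ x) ∪ Q.shd qq := rfl
  rw [h2, lab_union]
  rw [Finset.disjoint_union_left]
  exact ⟨d20.symm, d21.symm⟩

open Classical in
/-- the pointwise identity -/
theorem pt (Θ : Q.G → El S → El S → ℝ) (W : Wg Q) (j : Fin 5 → ℕ)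
    {q0 x : Finset S.P} {g1 : Finset Q.P} (hZ : Zc Q j q0 x g1) {g0 : Finset Q.P}
    (hg : Q.Gd g0) {qq : Finset Q.P} (hq : Q.Gd qq) :
    (if (⟨q0, x, qq, g0, g1⟩ : Cf Q) ∈ Q.box j then
      W.val ⟨q0, x, qq, g0, g1⟩ * (⟨q0, x, qq, g0, g1⟩ : Cf Q).tm Θ else 0) =
    ∑ c ∈ Q.els, ∑ l ∈ Q.els, cs Q W q0 x g1 c *
      (if Disjoint (Q.shd g0) (Q.shd g1) ∧ Disjoint (Q.shd qq) (Q.shd g0 ∪ Q.shd g1) then
        ∑ γ ∈ Q.B (g0 ∪ g1), af Q Θ W j q0 x c l g0 γ * bf Q W j q0 x g1 l qq *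
          ((sg (∑ p ∈ qq, Q.sy γ p) : ℤ) : ℝ) else 0) := by
  by_cases hD : Disjoint (Q.shd g0) (Q.shd g1) ∧ Disjoint (Q.shd qq) (Q.shd g0 ∪ Q.shd g1)
  swap
  · rw [if_neg (fun h => hD ((mem_box_iff Q).1 h).2.2.2.2)]
    symm
    refine Finset.sum_eq_zero fun c _ => Finset.sum_eq_zero fun l _ => ?_
    rw [if_neg hD, mul_zero]
  simp only [if_pos hD]
  by_cases hA : Ac Q j q0 x qq
  swap
  · rw [if_neg (fun h => hA ((mem_box_iff Q).1 h).2.1)]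
    symm
    refine Finset.sum_eq_zero fun c _ => Finset.sum_eq_zero fun l _ => ?_
    have h0 : bf Q W j q0 x g1 l qq = 0 := by
      unfold bf
      rw [if_neg (fun h => hA h.1)]
    rw [h0]
    simp
  by_cases hB : Bc Q j q0 x g0
  swap
  · rw [if_neg (fun h => hB ((mem_box_iff Q).1 h).2.2.1)]
    symm
    refine Finset.sum_eq_zero fun c _ => Finset.sum_eq_zero fun l _ => ?_
    have h0 : ∀ γ, af Q Θ W j q0 x c l g0 γ = 0 := by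
      intro γ
      unfold af
      rw [if_neg hB]
    simp [h0]
  have hbox : (⟨q0, x, qq, g0, g1⟩ : Cf Q) ∈ Q.box j :=
    (mem_box_iff Q).2 ⟨hZ, hA, hB, ⟨hg, hq⟩, hD⟩
  rw [if_pos hbox]
  have hOk : (⟨q0, x, qq, g0, g1⟩ : Cf Q).Ok := ((mem_box Q).1 hbox).1
  have hle : ∀ c ∈ Q.els, ∑ l ∈ Q.els, cs Q W q0 x g1 c *
      ∑ γ ∈ Q.B (g0 ∪ g1), af Q Θ W j q0 x c l g0 γ * bf Q W j q0 x g1 l qq *
          ((sg (∑ p ∈ qq, Q.sy γ p) : ℤ) : ℝ) =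
      ∑ γ ∈ Q.B (g0 ∪ g1), W.val ⟨q0, x, qq, g0, g1⟩ *
        (Θ γ c (Q.lab (⟨q0, x, qq, g0, g1⟩ : Cf Q).q) *
          ((sg ((⟨q0, x, qq, g0, g1⟩ : Cf Q).E γ c) : ℤ) : ℝ)) := by
    intro c hc
    rw [Finset.sum_eq_single (Q.lab (Q.shd qq))]
    · rw [Finset.mul_sum]
      refine Finset.sum_congr rfl fun γ _ => ?_
      unfold af bf
      rw [if_pos hB, if_pos ⟨hA, rfl⟩, ← lab_eq Q (g0 := g0) (g1 := g1) hA,
        sign_eq Q (g0 := g0) (g1 := g1) hA γ hc]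
      unfold cs Wg.val
      ring
    · intro l _ hl
      have h0 : bf Q W j q0 x g1 l qq = 0 := by
        unfold bf
        rw [if_neg (fun h => hl h.2.symm)]
      rw [h0]
      simp
    · intro h
      exact absurd (lab_mem Q _) h
  rw [Finset.sum_congr rfl hle, Finset.sum_comm]
  unfold Cf.tm
  rw [if_pos hOk, Finset.mul_sum]
  show ∑ γ ∈ Q.B (g0 ∪ g1), _ = _
  refine Finset.sum_congr rfl fun γ _ => ?_
  rw [Finset.mul_sum]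

open Classical in
/-- the sum over a box as an iterated sum -/
theorem TD_eq (Θ : Q.G → El S → El S → ℝ) (W : Wg Q) (j : Fin 5 → ℕ) :
    Q.TD Θ W j = ∑ q0 ∈ S.bx (2 ^ j 0), ∑ x ∈ S.bx (2 ^ j 1), ∑ g1 ∈ Q.gb (2 ^ j 4),
      ∑ g0 ∈ Q.gb (2 ^ j 3), ∑ qq ∈ Q.gb (2 ^ j 2),
        (if (⟨q0, x, qq, g0, g1⟩ : Cf Q) ∈ Q.box j then
          W.val ⟨q0, x, qq, g0, g1⟩ * (⟨q0, x, qq, g0, g1⟩ : Cf Q).tm Θ else 0) := by
  rw [U13.TD_eq Q Θ W j]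
  refine Finset.sum_congr rfl fun q0 _ => ?_
  -- `qq, g1, x, g0` to `x, g1, g0, qq`
  have h1 : ∀ (f : Finset Q.P → Finset Q.P → Finset S.P → Finset Q.P → ℝ),
      ∑ qq ∈ Q.gb (2 ^ j 2), ∑ g1 ∈ Q.gb (2 ^ j 4), ∑ x ∈ S.bx (2 ^ j 1),
        ∑ g0 ∈ Q.gb (2 ^ j 3), f qq g1 x g0 =
      ∑ x ∈ S.bx (2 ^ j 1), ∑ g1 ∈ Q.gb (2 ^ j 4), ∑ g0 ∈ Q.gb (2 ^ j 3),
        ∑ qq ∈ Q.gb (2 ^ j 2), f qq g1 x g0 := by
    intro f
    calc ∑ qq ∈ Q.gb (2 ^ j 2), ∑ g1 ∈ Q.gb (2 ^ j 4), ∑ x ∈ S.bx (2 ^ j 1),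
        ∑ g0 ∈ Q.gb (2 ^ j 3), f qq g1 x g0
        = ∑ qq ∈ Q.gb (2 ^ j 2), ∑ x ∈ S.bx (2 ^ j 1), ∑ g1 ∈ Q.gb (2 ^ j 4),
          ∑ g0 ∈ Q.gb (2 ^ j 3), f qq g1 x g0 :=
          Finset.sum_congr rfl fun qq _ => Finset.sum_comm
      _ = ∑ x ∈ S.bx (2 ^ j 1), ∑ qq ∈ Q.gb (2 ^ j 2), ∑ g1 ∈ Q.gb (2 ^ j 4),
          ∑ g0 ∈ Q.gb (2 ^ j 3), f qq g1 x g0 := Finset.sum_comm
      _ = ∑ x ∈ S.bx (2 ^ j 1), ∑ g1 ∈ Q.gb (2 ^ j 4), ∑ qq ∈ Q.gb (2 ^ j 2),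
          ∑ g0 ∈ Q.gb (2 ^ j 3), f qq g1 x g0 :=
          Finset.sum_congr rfl fun x _ => Finset.sum_comm
      _ = _ := Finset.sum_congr rfl fun x _ => Finset.sum_congr rfl fun g1 _ => Finset.sum_comm
  exact h1 fun qq g1 x g0 => if (⟨q0, x, qq, g0, g1⟩ : Cf Q) ∈ Q.box j then
    W.val ⟨q0, x, qq, g0, g1⟩ * (⟨q0, x, qq, g0, g1⟩ : Cf Q).tm Θ else 0

open Classical in
/-- the bilinear form of `BF` -/
noncomputable def FF (h : Finset Q.P) (a : Finset Q.P → Q.G → ℝ) (b : Finset Q.P → ℝ)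
    (X Y : ℝ) : ℝ :=
  ∑ g ∈ Q.gb X, ∑ e ∈ Q.gb Y,
      (if Disjoint (Q.shd g) (Q.shd h) ∧ Disjoint (Q.shd e) (Q.shd g ∪ Q.shd h)
        then ∑ γ ∈ Q.B (g ∪ h), a g γ * b e * ((sg (∑ p ∈ e, Q.sy γ p) : ℤ) : ℝ) else 0)

/-- the sum over `g0` and `qq` -/
theorem inner {Θ : Q.G → El S → El S → ℝ} (hΘ : BdT Θ) {W : Wg Q} (hW : W.Bd)
    (j : Fin 5 → ℕ) (R : ℝ)
    (hR : ∀ (h : Finset Q.P), Q.Gd h → ∀ (a : Finset Q.P → Q.G → ℝ) (b : Finset Q.P → ℝ),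
      (∀ g γ, |a g γ| ≤ 1) → (∀ e, |b e| ≤ 1) →
      |FF Q h a b (2 ^ j 3) (2 ^ j 2)| ≤ R) (q0 x : Finset S.P) (g1 : Finset Q.P) :
    |∑ g0 ∈ Q.gb (2 ^ j 3), ∑ qq ∈ Q.gb (2 ^ j 2),
        (open Classical in if (⟨q0, x, qq, g0, g1⟩ : Cf Q) ∈ Q.box j then
          W.val ⟨q0, x, qq, g0, g1⟩ * (⟨q0, x, qq, g0, g1⟩ : Cf Q).tm Θ else 0)| ≤
      (Q.els.card : ℝ) ^ 2 * R := by
  classical
  have hR0 : 0 ≤ R := (abs_nonneg _).trans (hR ∅ (fun a ha => absurd ha (by simp))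
    (fun _ _ => 0) (fun _ => 0) (by simp) (by simp))
  by_cases hZ : Zc Q j q0 x g1
  swap
  · rw [Finset.sum_eq_zero]
    · rw [abs_zero]
      positivity
    · intro g0 _
      refine Finset.sum_eq_zero fun qq _ => ?_
      rw [if_neg (fun h => hZ ((mem_box_iff Q).1 h).1)]
  have h1 : ∑ g0 ∈ Q.gb (2 ^ j 3), ∑ qq ∈ Q.gb (2 ^ j 2),
        (if (⟨q0, x, qq, g0, g1⟩ : Cf Q) ∈ Q.box j then
          W.val ⟨q0, x, qq, g0, g1⟩ * (⟨q0, x, qq, g0, g1⟩ : Cf Q).tm Θ else 0) =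
      ∑ c ∈ Q.els, ∑ l ∈ Q.els, cs Q W q0 x g1 c *
        FF Q g1 (af Q Θ W j q0 x c l) (bf Q W j q0 x g1 l) (2 ^ j 3) (2 ^ j 2) := by
    have h2 : ∀ g0 ∈ Q.gb (2 ^ j 3), ∑ qq ∈ Q.gb (2 ^ j 2),
        (if (⟨q0, x, qq, g0, g1⟩ : Cf Q) ∈ Q.box j then
          W.val ⟨q0, x, qq, g0, g1⟩ * (⟨q0, x, qq, g0, g1⟩ : Cf Q).tm Θ else 0) =
        ∑ c ∈ Q.els, ∑ l ∈ Q.els, ∑ qq ∈ Q.gb (2 ^ j 2), cs Q W q0 x g1 c *
          (if Disjoint (Q.shd g0) (Q.shd g1) ∧ Disjoint (Q.shd qq) (Q.shd g0 ∪ Q.shd g1) then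
            ∑ γ ∈ Q.B (g0 ∪ g1), af Q Θ W j q0 x c l g0 γ * bf Q W j q0 x g1 l qq *
              ((sg (∑ p ∈ qq, Q.sy γ p) : ℤ) : ℝ) else 0) := by
      intro g0 hg0
      rw [Finset.sum_congr rfl fun qq hqq =>
        pt Q Θ W j hZ ((Q.mem_gb).1 hg0).1 ((Q.mem_gb).1 hqq).1]
      rw [Finset.sum_comm]
      refine Finset.sum_congr rfl fun c _ => ?_
      rw [Finset.sum_comm]
    rw [Finset.sum_congr rfl h2, Finset.sum_comm]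
    refine Finset.sum_congr rfl fun c _ => ?_
    rw [Finset.sum_comm]
    refine Finset.sum_congr rfl fun l _ => ?_
    unfold FF
    rw [Finset.mul_sum]
    refine Finset.sum_congr rfl fun g0 _ => ?_
    rw [Finset.mul_sum]
  rw [h1]
  have h3 : ∀ c ∈ Q.els, ∀ l ∈ Q.els, |cs Q W q0 x g1 c *
        FF Q g1 (af Q Θ W j q0 x c l) (bf Q W j q0 x g1 l) (2 ^ j 3) (2 ^ j 2)| ≤ R := by
    intro c _ l _
    rw [abs_mul]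
    calc |cs Q W q0 x g1 c| * |FF Q g1 (af Q Θ W j q0 x c l) (bf Q W j q0 x g1 l)
          (2 ^ j 3) (2 ^ j 2)| ≤ 1 * R :=
          mul_le_mul (abs_cs Q hW _ _ _ _)
            (hR g1 hZ.1.2.2.2.2.2.2 _ _ (abs_af Q hΘ hW _ _ _ _ _) (abs_bf Q hW _ _ _ _ _))
            (abs_nonneg _) zero_le_one
      _ = R := one_mul R
  calc _ ≤ ∑ c ∈ Q.els, ∑ l ∈ Q.els, R := by
        refine (Finset.abs_sum_le_sum_abs _ _).trans (Finset.sum_le_sum fun c hc => ?_)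
        exact (Finset.abs_sum_le_sum_abs _ _).trans (Finset.sum_le_sum fun l hl => h3 c hc l hl)
    _ = _ := by
        simp only [Finset.sum_const, nsmul_eq_mul]
        ring

end U23

open U23

/-- the pair `qq, g0` -/
theorem su23_of (_h0 : SKPt) (h1 : SKCard) : SU23 := by
  classical
  intro S C0 A0 η0 hη0
  obtain ⟨C1, hC1⟩ := card_bx_le S
  obtain ⟨C2, hC2⟩ := h1 S 1 one_pos
  refine ⟨|C1| ^ 2 * |C2| * (2 ^ S.m) ^ 2 * |C0|, max A0 0 + 3, η0,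
    by have := le_max_right A0 0; linarith, hη0, ?_⟩
  intro Q _ hB Θ W j hΘ hW
  have hN1 : (1 : ℝ) ≤ S.nm Q.M := S.one_le_nmr Q.M
  have hN0 : (0 : ℝ) < S.nm Q.M := by linarith
  set N : ℝ := (S.nm Q.M : ℝ) with hN
  set A : ℝ := max A0 0 with hA
  have hNA : 0 ≤ N ^ A := Real.rpow_nonneg hN0.le _
  have hNA0 : N ^ A0 ≤ N ^ A := Real.rpow_le_rpow_of_exponent_le hN1 (le_max_left _ _)
  have hX : ∀ i : Fin 5, (1 : ℝ) ≤ 2 ^ j i := fun i => one_le_pow₀ one_le_two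
  set D : ℝ := (2 : ℝ) ^ (-η0 * min (j 2 : ℝ) (j 3)) with hD
  have hD0 : 0 ≤ D := Real.rpow_nonneg two_pos.le _
  set R : ℝ := |C0| * N ^ A * (2 ^ j 3 * 2 ^ j 2) * D with hRd
  have hR0 : 0 ≤ R := by positivity
  have hR : ∀ (h : Finset Q.P), Q.Gd h → ∀ (a : Finset Q.P → Q.G → ℝ) (b : Finset Q.P → ℝ),
      (∀ g γ, |a g γ| ≤ 1) → (∀ e, |b e| ≤ 1) →
      |FF Q h a b (2 ^ j 3) (2 ^ j 2)| ≤ R := by
    intro h hh a b ha hb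
    refine (hB h hh a b ha hb _ _ (hX 3) (hX 2)).trans ?_
    rw [U13.min_pow, min_comm, hRd]
    refine mul_le_mul_of_nonneg_right ?_ hD0
    refine mul_le_mul_of_nonneg_right ?_ (by positivity)
    calc C0 * N ^ A0 ≤ |C0| * N ^ A0 :=
          mul_le_mul_of_nonneg_right (le_abs_self C0) (Real.rpow_nonneg hN0.le _)
      _ ≤ |C0| * N ^ A := mul_le_mul_of_nonneg_left hNA0 (abs_nonneg _)
  have hcard : ∀ i : Fin 5, ((S.bx (2 ^ j i)).card : ℝ) ≤ |C1| * 2 ^ j i := fun i =>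
    (hC1 _ (hX i)).trans (mul_le_mul_of_nonneg_right (le_abs_self _) (by positivity))
  have hcardg : ∀ i : Fin 5, ((Q.gb (2 ^ j i)).card : ℝ) ≤ |C2| * N * 2 ^ j i := by
    intro i
    refine (hC2 Q _ (hX i)).trans ?_
    rw [Real.rpow_one]
    refine mul_le_mul_of_nonneg_right ?_ (by positivity)
    exact mul_le_mul_of_nonneg_right (le_abs_self _) hN0.le
  have hTD : |Q.TD Θ W j| ≤ ((S.bx (2 ^ j 0)).card : ℝ) * (((S.bx (2 ^ j 1)).card : ℝ) *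
      (((Q.gb (2 ^ j 4)).card : ℝ) * ((Q.els.card : ℝ) ^ 2 * R))) := by
    rw [U23.TD_eq Q Θ W j]
    calc _ ≤ ∑ q0 ∈ S.bx (2 ^ j 0), ∑ x ∈ S.bx (2 ^ j 1), ∑ g1 ∈ Q.gb (2 ^ j 4),
          (Q.els.card : ℝ) ^ 2 * R := by
          refine (Finset.abs_sum_le_sum_abs _ _).trans (Finset.sum_le_sum fun q0 _ => ?_)
          refine (Finset.abs_sum_le_sum_abs _ _).trans (Finset.sum_le_sum fun x _ => ?_)
          refine (Finset.abs_sum_le_sum_abs _ _).trans (Finset.sum_le_sum fun g1 _ => ?_)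
          exact U23.inner Q hΘ hW j R hR q0 x g1
      _ = _ := by
          simp only [Finset.sum_const, nsmul_eq_mul]
  refine hTD.trans ?_
  have hels : (Q.els.card : ℝ) ^ 2 ≤ (2 ^ S.m * N) ^ 2 :=
    pow_le_pow_left₀ (Nat.cast_nonneg _) (card_els Q) 2
  calc ((S.bx (2 ^ j 0)).card : ℝ) * (((S.bx (2 ^ j 1)).card : ℝ) *
      (((Q.gb (2 ^ j 4)).card : ℝ) * ((Q.els.card : ℝ) ^ 2 * R)))
      ≤ (|C1| * 2 ^ j 0) * ((|C1| * 2 ^ j 1) * ((|C2| * N * 2 ^ j 4) *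
        ((2 ^ S.m * N) ^ 2 * R))) := by
        refine mul_le_mul (hcard 0) ?_ (by positivity) (by positivity)
        refine mul_le_mul (hcard 1) ?_ (by positivity) (by positivity)
        refine mul_le_mul (hcardg 4) ?_ (by positivity) (by positivity)
        exact mul_le_mul_of_nonneg_right hels hR0
    _ = _ := by
        have hv : vol j = 2 ^ j 0 * 2 ^ j 1 * 2 ^ j 2 * 2 ^ j 3 * 2 ^ j 4 := by
          unfold vol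
          rw [Fin.sum_univ_five, pow_add, pow_add, pow_add, pow_add]
        have hp : N ^ (A + 3) = N ^ A * N ^ 3 := by
          rw [Real.rpow_add hN0]
          congr 1
          exact_mod_cast Real.rpow_natCast N 3
        rw [hv, hp, hRd]
        ring

end Pool.Agent.H32.MQ
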