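import Pool.Agent.H32.MQ.KUStm

/-!
# Block U: the decomposition of the sum over the configurations in boxes
-/

set_option autoImplicit false

open scoped BigOperators

namespace Pool.Agent.H32.MQ

open Pool.Agent.H98.MK (sg)
open Pool.Agent.H98.MF

theorem Qd.mem_box {S : Sys} (Q : Qd S) {j : Fin 5 → ℕ} {x : Cf Q} :
    x ∈ Q.box j ↔ x.Ok ∧ ∀ i, x.lv i = j i := by
  unfold Qd.box
  rw [Set.Finite.mem_toFinset]
  rfl

theorem Cf.tm_zero {S : Sys} {Q : Qd S} (x : Cf Q) (hx : ¬ x.Ok)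
    (Θ : Q.G → El S → El S → ℝ) : x.tm Θ = 0 := by
  unfold Cf.tm
  rw [if_neg hx]

/-- the sum over the configurations of given levels is the sum over the box -/
theorem tsum_fibre {S : Sys} (Q : Qd S) (Θ : Q.G → El S → El S → ℝ) (W : Wg Q)
    (j : Fin 5 → ℕ) :
    ∑' x : {x : Cf Q // x.lv = j}, W.val x.1 * x.1.tm Θ = Q.TD Θ W j := by
  classical
  have h1 : ∑' x : {x : Cf Q // x.lv = j}, W.val x.1 * x.1.tm Θ =
      ∑' x : Cf Q, Set.indicator {x : Cf Q | x.lv = j} (fun x => W.val x * x.tm Θ) x :=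
    tsum_subtype {x : Cf Q | x.lv = j} (fun x => W.val x * x.tm Θ)
  rw [h1]
  unfold Qd.TD
  rw [tsum_eq_sum (s := Q.box j)]
  · refine Finset.sum_congr rfl fun x hx => ?_
    have h2 := Q.mem_box.1 hx
    have h3 : x ∈ {x : Cf Q | x.lv = j} := funext h2.2
    rw [Set.indicator_of_mem h3]
  · intro x hx
    by_cases h3 : x.lv = j
    · have h4 : x ∈ {x : Cf Q | x.lv = j} := h3
      rw [Set.indicator_of_mem h4]
      have h5 : ¬ x.Ok := fun h6 => hx (Q.mem_box.2 ⟨h6, fun i => congrFun h3 i⟩)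
      rw [x.tm_zero h5, mul_zero]
    · have h4 : x ∉ {x : Cf Q | x.lv = j} := h3
      rw [Set.indicator_of_notMem h4]

/-- the decomposition in boxes, for general weights -/
theorem boxes {S : Sys} (Q : Qd S) (Θ : Q.G → El S → El S → ℝ) (W : Wg Q)
    (h : Summable fun x : Cf Q => W.val x * x.tm Θ) :
    (Summable fun j : Fin 5 → ℕ => Q.TD Θ W j) ∧
    ∑' x : Cf Q, W.val x * x.tm Θ = ∑' j : Fin 5 → ℕ, Q.TD Θ W j := by
  classical
  let e : (Σ j : Fin 5 → ℕ, {x : Cf Q // x.lv = j}) ≃ Cf Q :=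
    Equiv.sigmaFiberEquiv fun x : Cf Q => x.lv
  have h1 : Summable fun z : (Σ j : Fin 5 → ℕ, {x : Cf Q // x.lv = j}) =>
      W.val z.2.1 * z.2.1.tm Θ := by
    have h2 := (e.summable_iff (f := fun x : Cf Q => W.val x * x.tm Θ)).2 h
    exact h2
  have h3 : ∀ j : Fin 5 → ℕ, ∑' x : {x : Cf Q // x.lv = j}, W.val x.1 * x.1.tm Θ =
      Q.TD Θ W j := tsum_fibre Q Θ W
  constructor
  · have h4 := h1.sigma
    refine h4.congr fun j => ?_
    exact h3 j
  · have h4 : ∑' x : Cf Q, W.val x * x.tm Θ =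
        ∑' z : (Σ j : Fin 5 → ℕ, {x : Cf Q // x.lv = j}), W.val z.2.1 * z.2.1.tm Θ :=
      (e.tsum_eq (fun x : Cf Q => W.val x * x.tm Θ)).symm
    rw [h4, h1.tsum_sigma]
    exact tsum_congr h3

theorem sub_of (hA : SUA) : SUB := by
  intro S Q Θ s hΘ hs
  exact boxes Q Θ (Wp Q s) (hA S Q Θ s hΘ hs).1

end Pool.Agent.H32.MQ
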