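import Pool.Agent.H32.MQ.KUStm

/-!
# Malle's conjecture for 8T28 and 8T29: the uniform bound and the tail (row U14, helper35)
-/

set_option autoImplicit false

open scoped BigOperators

namespace Pool.Agent.H32.MQ

open Pool.Agent.H98.MK (sg)
open Pool.Agent.H98.MF

theorem ud_mem_box {S : Sys} {Q : Qd S} {j : Fin 5 → ℕ} {x : Cf Q} :
    x ∈ Q.box j ↔ x.Ok ∧ ∀ i, x.lv i = j i := by
  unfold Qd.box
  rw [Set.Finite.mem_toFinset]
  rfl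

theorem ud_tm {S : Sys} {Q : Qd S} (Θ : Q.G → El S → El S → ℝ) {x : Cf Q} (h : ¬ x.Ok) :
    x.tm Θ = 0 := by
  unfold Cf.tm
  rw [if_neg h]

/-- sums over the configurations by boxes -/
theorem ud_fib {S : Sys} {Q : Qd S} {f : Cf Q → ℝ} (hf : Summable f)
    (h0 : ∀ x : Cf Q, ¬ x.Ok → f x = 0) :
    HasSum (fun j : Fin 5 → ℕ => ∑ x ∈ Q.box j, f x) (∑' x, f x) := by
  classical
  have h1 := HasSum.tsum_fiberwise hf.hasSum (fun x : Cf Q => x.lv)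
  have h2 : (fun j : Fin 5 → ℕ => ∑' x : (fun x : Cf Q => x.lv) ⁻¹' {j}, f x) =
      fun j : Fin 5 → ℕ => ∑ x ∈ Q.box j, f x := by
    funext j
    rw [tsum_subtype, tsum_eq_sum (s := Q.box j)]
    · refine Finset.sum_congr rfl fun x hx => ?_
      rw [Set.indicator_of_mem]
      exact funext (ud_mem_box.1 hx).2
    · intro x hx
      by_cases hx1 : x ∈ (fun x : Cf Q => x.lv) ⁻¹' {j}
      · rw [Set.indicator_of_mem hx1]
        refine h0 x fun hok => hx (ud_mem_box.2 ⟨hok, fun i => ?_⟩)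
        exact congrFun hx1 i
      · rw [Set.indicator_of_notMem hx1]
  rw [h2] at h1
  exact h1

theorem ud_vol (j : Fin 5 → ℕ) (σ : ℝ) :
    vol j ^ (1 - (1 + σ)) = (2 : ℝ) ^ (-(σ * (∑ i, (j i : ℝ)))) := by
  unfold vol
  rw [← Real.rpow_natCast, ← Real.rpow_mul (by norm_num)]
  congr 1
  push_cast
  ring

theorem ud_term (j : Fin 5 → ℕ) (σ κ A : ℝ) :
    vol j ^ (1 - (1 + σ)) * (2 : ℝ) ^ (-κ * EE A j) =
      (2 : ℝ) ^ (-(σ * (∑ i, (j i : ℝ))) - κ * EE A j) := by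
  rw [ud_vol, ← Real.rpow_add (by norm_num)]
  congr 1
  ring

theorem ud_bound {S : Sys} {Q : Qd S} {Θ : Q.G → El S → El S → ℝ} {C κ A ε σ : ℝ}
    {j : Fin 5 → ℕ}
    (h : |Q.TD Θ (Wp Q (1 + σ)) j| ≤ C * (S.nm Q.M : ℝ) ^ ε * vol j ^ (1 - (1 + σ)) *
      (2 : ℝ) ^ (-κ * EE A j)) :
    |Q.TD Θ (Wp Q (1 + σ)) j| ≤ |C| * (S.nm Q.M : ℝ) ^ ε *
      (2 : ℝ) ^ (-(σ * (∑ i, (j i : ℝ))) - κ * EE A j) := by
  rw [mul_assoc, ud_term] at h
  refine h.trans ?_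
  have h1 : 0 ≤ (S.nm Q.M : ℝ) ^ ε := Real.rpow_nonneg (Nat.cast_nonneg _) _
  have h2 : 0 ≤ (2 : ℝ) ^ (-(σ * (∑ i, (j i : ℝ))) - κ * EE A j) :=
    Real.rpow_nonneg (by norm_num) _
  exact mul_le_mul_of_nonneg_right (mul_le_mul_of_nonneg_right (le_abs_self C) h1) h2

theorem sud_of (hS : SUS) (hC : SUC) (hE : SUE) (hB : SUB) : SUD := by
  classical
  intro S C0 A0 η0 ε hη hε
  obtain ⟨C, A, κ, hA, hκ, h⟩ := hS S C0 A0 η0 ε hη hε
  obtain ⟨C', h'⟩ := hC κ A hκ hA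
  refine ⟨|C| * C', fun Q hQ hBF Θ σ hΘ hNz hσ hσ1 => ?_⟩
  obtain ⟨hsum, htail⟩ := h' σ hσ hσ1
  have h0 := htail 0
  have e0 : ∀ j : Fin 5 → ℕ, (if (0 : ℕ) = 0 ∨ Hi 0 j
      then (2 : ℝ) ^ (-(σ * (∑ i, (j i : ℝ))) - κ * EE A j) else 0) =
      (2 : ℝ) ^ (-(σ * (∑ i, (j i : ℝ))) - κ * EE A j) := fun j => if_pos (Or.inl rfl)
  rw [tsum_congr e0, Nat.cast_zero, mul_zero, Real.rpow_zero, mul_one] at h0
  rw [hE S Q hQ Θ (1 + σ) hΘ (by linarith), (hB S Q Θ (1 + σ) hΘ (by linarith)).2]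
  have hb : ∀ j : Fin 5 → ℕ, |Q.TD Θ (Wp Q (1 + σ)) j| ≤ |C| * (S.nm Q.M : ℝ) ^ ε *
      (2 : ℝ) ^ (-(σ * (∑ i, (j i : ℝ))) - κ * EE A j) := fun j =>
    ud_bound (h Q hQ hBF Θ j (1 + σ) hΘ hNz (by linarith) (by linarith))
  have hs2 := hsum.mul_left (|C| * (S.nm Q.M : ℝ) ^ ε)
  have h1 : ‖∑' j : Fin 5 → ℕ, Q.TD Θ (Wp Q (1 + σ)) j‖ ≤
      ∑' j : Fin 5 → ℕ, |C| * (S.nm Q.M : ℝ) ^ ε *
        (2 : ℝ) ^ (-(σ * (∑ i, (j i : ℝ))) - κ * EE A j) :=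
    tsum_of_norm_bounded hs2.hasSum fun j => by rw [Real.norm_eq_abs]; exact hb j
  rw [Real.norm_eq_abs, tsum_mul_left] at h1
  refine h1.trans ?_
  have h2 : 0 ≤ |C| * (S.nm Q.M : ℝ) ^ ε :=
    mul_nonneg (abs_nonneg _) (Real.rpow_nonneg (Nat.cast_nonneg _) _)
  refine (mul_le_mul_of_nonneg_left h0 h2).trans (le_of_eq ?_)
  ring

theorem sutail_of (hS : SUS) (hC : SUC) (hA : SUA) : SUTail := by
  classical
  intro S C0 A0 η0 hη Q hQ hBF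
  obtain ⟨C, A, κ, hA0, hκ, h⟩ := hS S C0 A0 η0 1 hη one_pos
  obtain ⟨C', h'⟩ := hC κ A hκ hA0
  refine ⟨|C| * (S.nm Q.M : ℝ) ^ (1 : ℝ) * C', κ / 4, by positivity,
    fun Θ σ J hΘ hNz hσ hσ1 hJ => ?_⟩
  obtain ⟨hsum, htail⟩ := h' σ hσ hσ1
  have h0 := htail J
  have hs1 := (hA S Q Θ (1 + σ) hΘ (by linarith)).1
  have hs3 : Summable fun x : Cf Q =>
      (if Hi J x.lv then (Wp Q (1 + σ)).val x * x.tm Θ else 0) := by
    refine Summable.of_norm_bounded hs1.norm fun x => ?_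
    by_cases hx : Hi J x.lv
    · rw [if_pos hx]
    · rw [if_neg hx, norm_zero]
      exact norm_nonneg _
  have hfib := ud_fib hs3 (fun x hx => by rw [ud_tm Θ hx, mul_zero, ite_self])
  have he : (fun j : Fin 5 → ℕ => ∑ x ∈ Q.box j,
      (if Hi J x.lv then (Wp Q (1 + σ)).val x * x.tm Θ else 0)) =
      fun j : Fin 5 → ℕ => if Hi J j then Q.TD Θ (Wp Q (1 + σ)) j else 0 := by
    funext j
    have h1 : ∀ x ∈ Q.box j, (if Hi J x.lv then (Wp Q (1 + σ)).val x * x.tm Θ else 0) =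
        if Hi J j then (Wp Q (1 + σ)).val x * x.tm Θ else 0 := by
      intro x hx
      have h2 : x.lv = j := funext (ud_mem_box.1 hx).2
      rw [h2]
    rw [Finset.sum_congr rfl h1]
    by_cases hj : Hi J j
    · simp only [if_pos hj]
      rfl
    · simp only [if_neg hj]
      exact Finset.sum_const_zero
  rw [he] at hfib
  rw [← hfib.tsum_eq]
  have hs2 : Summable fun j : Fin 5 → ℕ => (if J = 0 ∨ Hi J j
      then (2 : ℝ) ^ (-(σ * (∑ i, (j i : ℝ))) - κ * EE A j) else 0) := by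
    refine Summable.of_norm_bounded hsum.norm fun j => ?_
    by_cases hj : J = 0 ∨ Hi J j
    · rw [if_pos hj]
    · rw [if_neg hj, norm_zero]
      exact norm_nonneg _
  have hb : ∀ j : Fin 5 → ℕ, ‖if Hi J j then Q.TD Θ (Wp Q (1 + σ)) j else 0‖ ≤
      |C| * (S.nm Q.M : ℝ) ^ (1 : ℝ) * (if J = 0 ∨ Hi J j
      then (2 : ℝ) ^ (-(σ * (∑ i, (j i : ℝ))) - κ * EE A j) else 0) := by
    intro j
    by_cases hj : Hi J j
    · rw [if_pos hj, if_pos (Or.inr hj), Real.norm_eq_abs]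
      exact ud_bound (h Q hQ hBF Θ j (1 + σ) hΘ hNz (by linarith) (by linarith))
    · have hj' : ¬ (J = 0 ∨ Hi J j) := by
        rintro (h1 | h1)
        · omega
        · exact hj h1
      rw [if_neg hj, if_neg hj', norm_zero, mul_zero]
  have h1 := tsum_of_norm_bounded (hs2.mul_left (|C| * (S.nm Q.M : ℝ) ^ (1 : ℝ))).hasSum hb
  rw [Real.norm_eq_abs, tsum_mul_left] at h1
  refine h1.trans ?_
  have h2 : 0 ≤ |C| * (S.nm Q.M : ℝ) ^ (1 : ℝ) :=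
    mul_nonneg (abs_nonneg _) (Real.rpow_nonneg (Nat.cast_nonneg _) _)
  refine (mul_le_mul_of_nonneg_left h0 h2).trans (le_of_eq ?_)
  ring

end Pool.Agent.H32.MQ
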