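import Pool.Agent.H32.MQ.KUStm

/-!
# Malle's conjecture for 8T28 and 8T29: the expansion (block U, row 12)
-/

set_option autoImplicit false

open scoped BigOperators

namespace Pool.Agent.H32.MQ

open Pool.Agent.H98.MK (sg)
open Pool.Agent.H98.MF

namespace UE

variable {S : Sys} (Q : Qd S)

theorem fin_fib (p : S.P) : {a : Q.P | Q.sh a = p}.Finite := by
  by_cases h3 : ∃ a, Q.sh a = p
  · obtain ⟨a, rfl⟩ := h3
    refine Set.Finite.subset (Set.toFinite {a, Q.cj a}) fun b hb => ?_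
    have hb1 : Q.sh b = Q.sh a := hb
    rcases Q.fib a b hb1.symm with h4 | h4
    · exact Or.inl h4
    · exact Or.inr h4
  · refine Set.Finite.subset Set.finite_empty fun b hb => ?_
    exact absurd ⟨b, hb⟩ h3

/-- the primes above `p` -/
noncomputable def Fb (p : S.P) : Finset Q.P := (fin_fib Q p).toFinset

theorem mem_Fb {p : S.P} {a : Q.P} : a ∈ Fb Q p ↔ Q.sh a = p := by
  unfold Fb
  rw [Set.Finite.mem_toFinset]
  rfl

theorem mem_shd {g : Finset Q.P} {p : S.P} : p ∈ Q.shd g ↔ ∃ a ∈ g, Q.sh a = p := by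
  unfold Qd.shd
  rw [Finset.mem_image]

theorem shd_empty : Q.shd ∅ = ∅ := by
  unfold Qd.shd
  rw [Finset.image_empty]

theorem shd_union (g h : Finset Q.P) : Q.shd (g ∪ h) = Q.shd g ∪ Q.shd h := by
  unfold Qd.shd
  rw [Finset.image_union]

theorem shd_insert (a : Q.P) (g : Finset Q.P) :
    Q.shd (insert a g) = insert (Q.sh a) (Q.shd g) := by
  unfold Qd.shd
  rw [Finset.image_insert]

theorem shd_mono {g h : Finset Q.P} (h1 : g ⊆ h) : Q.shd g ⊆ Q.shd h := by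
  unfold Qd.shd
  exact Finset.image_subset_image h1

variable {Q} in
theorem gd_mono {g h : Finset Q.P} (h1 : g ⊆ h) (h2 : Q.Gd h) : Q.Gd g :=
  fun a ha b hb hab => h2 a (h1 ha) b (h1 hb) hab

open Classical in
/-- good sets above a subset of `y` -/
noncomputable def Gy (y : Finset S.P) : Finset (Finset Q.P) :=
  (y.biUnion (Fb Q)).powerset.filter Q.Gd

theorem mem_Gy {y : Finset S.P} {g : Finset Q.P} :
    g ∈ Gy Q y ↔ Q.shd g ⊆ y ∧ Q.Gd g := by
  classical
  unfold Gy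
  rw [Finset.mem_filter, Finset.mem_powerset]
  refine and_congr_left fun _ => ⟨fun h p hp => ?_, fun h a ha => ?_⟩
  · obtain ⟨a, ha, rfl⟩ := (mem_shd Q).1 hp
    obtain ⟨p, hp1, hp2⟩ := Finset.mem_biUnion.1 (h ha)
    rw [mem_Fb] at hp2
    rw [hp2]
    exact hp1
  · exact Finset.mem_biUnion.2 ⟨Q.sh a, h ((mem_shd Q).2 ⟨a, ha, rfl⟩), (mem_Fb Q).2 rfl⟩

/-- the product over the primes of sums over the fibres -/
theorem prod_fib (w : Q.P → ℝ) (y : Finset S.P) :
    ∏ p ∈ y, (1 + ∑ a ∈ Fb Q p, w a) = ∑ g ∈ Gy Q y, ∏ a ∈ g, w a := by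
  classical
  induction y using Finset.induction_on with
  | empty =>
    have h1 : Gy Q ∅ = {∅} := by
      ext g
      rw [mem_Gy, Finset.mem_singleton]
      constructor
      · rintro ⟨h, -⟩
        by_contra h2
        obtain ⟨a, ha⟩ := Finset.nonempty_iff_ne_empty.2 h2
        exact absurd (h ((mem_shd Q).2 ⟨a, ha, rfl⟩)) (Finset.notMem_empty _)
      · rintro rfl
        exact ⟨by rw [shd_empty], fun a ha => absurd ha (Finset.notMem_empty _)⟩
    rw [h1, Finset.sum_singleton, Finset.prod_empty, Finset.prod_empty]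
  | insert p y hp ih =>
    rw [Finset.prod_insert hp, ih, add_mul, one_mul]
    have hna : ∀ g ∈ Gy Q y, ∀ a ∈ Fb Q p, a ∉ g := by
      intro g hg a ha h
      rw [mem_Gy] at hg
      rw [mem_Fb] at ha
      exact hp (ha ▸ hg.1 ((mem_shd Q).2 ⟨a, h, rfl⟩))
    have h1 : Gy Q (insert p y) = Gy Q y ∪
        ((Fb Q p) ×ˢ (Gy Q y)).image (fun z => insert z.1 z.2) := by
      ext g
      rw [Finset.mem_union, Finset.mem_image, mem_Gy, mem_Gy]
      constructor
      · rintro ⟨h, h2⟩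
        by_cases h3 : ∃ a ∈ g, Q.sh a = p
        · obtain ⟨a, ha, rfl⟩ := h3
          refine Or.inr ⟨(a, g.erase a), ?_, Finset.insert_erase ha⟩
          rw [Finset.mem_product, mem_Fb, mem_Gy]
          refine ⟨rfl, fun p hp1 => ?_, gd_mono (Finset.erase_subset _ _) h2⟩
          obtain ⟨b, hb, rfl⟩ := (mem_shd Q).1 hp1
          rcases Finset.mem_insert.1 (h ((mem_shd Q).2 ⟨b, Finset.mem_of_mem_erase hb, rfl⟩))
            with h4 | h4
          · exact absurd (h2 b (Finset.mem_of_mem_erase hb) a ha h4) (Finset.ne_of_mem_erase hb)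
          · exact h4
        · refine Or.inl ⟨fun q hq => ?_, h2⟩
          rcases Finset.mem_insert.1 (h hq) with h4 | h4
          · obtain ⟨b, hb, hb2⟩ := (mem_shd Q).1 hq
            exact absurd ⟨b, hb, hb2.trans h4⟩ h3
          · exact h4
      · rintro (⟨h, h2⟩ | ⟨⟨a, g'⟩, hz, rfl⟩)
        · exact ⟨h.trans (Finset.subset_insert _ _), h2⟩
        · rw [Finset.mem_product, mem_Fb, mem_Gy] at hz
          obtain ⟨hz1, hz2, hz3⟩ := hz
          simp only at hz1 hz2 hz3 ⊢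
          refine ⟨?_, ?_⟩
          · rw [shd_insert, hz1]
            exact Finset.insert_subset_insert _ hz2
          · intro b hb c hc hbc
            rcases Finset.mem_insert.1 hb with rfl | hb1
            · rcases Finset.mem_insert.1 hc with rfl | hc1
              · rfl
              · exfalso
                refine hp (hz2 ?_)
                rw [← hz1, hbc]
                exact (mem_shd Q).2 ⟨c, hc1, rfl⟩
            · rcases Finset.mem_insert.1 hc with rfl | hc1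
              · exfalso
                refine hp (hz2 ?_)
                rw [← hz1, ← hbc]
                exact (mem_shd Q).2 ⟨b, hb1, rfl⟩
              · exact hz3 b hb1 c hc1 hbc
    have h2 : Disjoint (Gy Q y) (((Fb Q p) ×ˢ (Gy Q y)).image (fun z => insert z.1 z.2)) := by
      rw [Finset.disjoint_left]
      rintro g hg hg2
      obtain ⟨⟨a, g'⟩, hz, rfl⟩ := Finset.mem_image.1 hg2
      rw [Finset.mem_product] at hz
      exact hna _ hg a hz.1 (Finset.mem_insert_self _ _)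
    rw [h1, Finset.sum_union h2, Finset.sum_image, Finset.sum_product, Finset.sum_mul]
    · congr 1
      refine Finset.sum_congr rfl fun a ha => ?_
      rw [Finset.mul_sum]
      refine Finset.sum_congr rfl fun g hg => ?_
      rw [Finset.prod_insert (hna g hg a ha)]
    · rintro ⟨a, g⟩ hz ⟨b, g'⟩ hz' h
      rw [Finset.mem_coe, Finset.mem_product] at hz hz'
      simp only at hz hz' h
      have hab : a = b := by
        have h3 : a ∈ insert b g' := by rw [← h]; exact Finset.mem_insert_self _ _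
        rcases Finset.mem_insert.1 h3 with h4 | h4
        · exact h4
        · exact absurd h4 (hna g' hz'.2 a hz.1)
      subst hab
      have h5 : g = g' := by
        have h6 := congrArg (fun t => t.erase a) h
        rwa [Finset.erase_insert (hna g hz.2 a hz.1), Finset.erase_insert (hna g' hz'.2 a hz'.1)]
          at h6
      rw [h5]

/-- the factor of a prime as a sum -/
theorem fp_eq (hL : Q.Law) {g : Finset Q.P} (hg : Q.Gd g) {γ : Q.G} (hγ : γ ∈ Q.B g) {p : S.P}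
    (hp : p ∉ Q.shd g) :
    Q.fp γ p = ((sg (Q.ns γ p) : ℤ) : ℝ) + (1 + ∑ a ∈ Fb Q p, ((sg (Q.sy γ a) : ℤ) : ℝ)) := by
  classical
  unfold Qd.fp
  by_cases h : ∃ a, Q.sh a = p
  · rw [dif_pos h]
    have ha : Q.sh h.choose = p := h.choose_spec
    generalize h.choose = a at ha
    subst ha
    have h1 : Fb Q (Q.sh a) = {a, Q.cj a} := by
      ext b
      rw [mem_Fb, Finset.mem_insert, Finset.mem_singleton]
      constructor
      · intro hb
        exact Q.fib a b hb.symm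
      · rintro (rfl | rfl)
        · rfl
        · exact Q.sh_cj a
    have h2 : a ∉ ({Q.cj a} : Finset Q.P) := by
      rw [Finset.mem_singleton]
      exact fun h3 => Q.cj_ne a h3.symm
    rw [h1, Finset.sum_insert h2, Finset.sum_singleton, hL.ns_split g hg γ hγ a hp, sg_add]
    push_cast
    ring
  · rw [dif_neg h]
    have h1 : Fb Q p = ∅ := by
      ext b
      rw [mem_Fb]
      constructor
      · intro hb
        exact absurd ⟨b, hb⟩ h
      · intro hb
        exact absurd hb (Finset.notMem_empty _)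
    rw [h1, Finset.sum_empty]
    ring

theorem prod_fp (hL : Q.Law) {g : Finset Q.P} (hg : Q.Gd g) {γ : Q.G} (hγ : γ ∈ Q.B g)
    {x : Finset S.P} (hx : Disjoint x (Q.shd g)) :
    ∏ p ∈ x, Q.fp γ p = ∑ z ∈ x.powerset.sigma fun q => Gy Q (x \ q),
      (∏ p ∈ z.1, ((sg (Q.ns γ p) : ℤ) : ℝ)) * ∏ a ∈ z.2, ((sg (Q.sy γ a) : ℤ) : ℝ) := by
  have h1 : ∏ p ∈ x, Q.fp γ p =
      ∏ p ∈ x, (((sg (Q.ns γ p) : ℤ) : ℝ) + (1 + ∑ a ∈ Fb Q p, ((sg (Q.sy γ a) : ℤ) : ℝ))) :=
    Finset.prod_congr rfl fun p hp => fp_eq Q hL hg hγ (Finset.disjoint_left.1 hx hp)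
  rw [h1, Finset.prod_add, Finset.sum_sigma]
  refine Finset.sum_congr rfl fun q _ => ?_
  rw [prod_fib, Finset.mul_sum]

theorem prod_fa (c : El S) (x : Finset S.P) (g : Finset Q.P) :
    ∏ a ∈ g, Q.fa c x a = ∑ t ∈ g.powerset,
      ∏ a ∈ t, ((sg (Q.d0 a + S.ex (x ∪ c.2) c.1 (Q.sh a)) : ℤ) : ℝ) := by
  unfold Qd.fa
  rw [Finset.prod_one_add]

/-- the configuration of a decomposition -/
noncomputable def mk (x : Finset S.P) (g : Finset Q.P)
    (z : (Σ _ : Finset S.P, Finset Q.P) × Finset Q.P) : Cf Q :=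
  ⟨x \ (z.1.1 ∪ Q.shd z.1.2), z.1.1, z.1.2, g \ z.2, z.2⟩

/-- the decompositions -/
noncomputable def dcs (x : Finset S.P) (g : Finset Q.P) :
    Finset ((Σ _ : Finset S.P, Finset Q.P) × Finset Q.P) :=
  (x.powerset.sigma fun q => Gy Q (x \ q)) ×ˢ g.powerset

theorem mem_dcs {x : Finset S.P} {g : Finset Q.P}
    {z : (Σ _ : Finset S.P, Finset Q.P) × Finset Q.P} :
    z ∈ dcs Q x g ↔ (z.1.1 ⊆ x ∧ Q.shd z.1.2 ⊆ x \ z.1.1 ∧ Q.Gd z.1.2) ∧ z.2 ⊆ g := by
  unfold dcs
  rw [Finset.mem_product, Finset.mem_sigma, Finset.mem_powerset, Finset.mem_powerset, mem_Gy]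

theorem mk_inj (x : Finset S.P) (g : Finset Q.P) : Function.Injective (mk Q x g) := by
  rintro ⟨⟨a, b⟩, c⟩ ⟨⟨a', b'⟩, c'⟩ h
  unfold mk at h
  rw [Cf.mk.injEq] at h
  obtain ⟨-, h2, h3, -, h5⟩ := h
  simp only at h2 h3 h5
  rw [h2, h3, h5]

open Classical in
/-- the configurations above a pair -/
noncomputable def cfs (x : Finset S.P) (g : Finset Q.P) : Finset (Cf Q) :=
  (dcs Q x g).image (mk Q x g)

variable {Q}

theorem ok_q {b : Cf Q} (h : b.Ok) : Q.OkP b.q b.g := by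
  have d03 : Disjoint b.q0 (Q.shd b.g0) := h.dj 0 3 (by decide)
  have d04 : Disjoint b.q0 (Q.shd b.g1) := h.dj 0 4 (by decide)
  have d13 : Disjoint b.q12 (Q.shd b.g0) := h.dj 1 3 (by decide)
  have d14 : Disjoint b.q12 (Q.shd b.g1) := h.dj 1 4 (by decide)
  have d23 : Disjoint (Q.shd b.qq) (Q.shd b.g0) := h.dj 2 3 (by decide)
  have d24 : Disjoint (Q.shd b.qq) (Q.shd b.g1) := h.dj 2 4 (by decide)
  have d34 : Disjoint (Q.shd b.g0) (Q.shd b.g1) := h.dj 3 4 (by decide)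
  have m0 : Disjoint b.q0 Q.M := h.dM 0
  have m1 : Disjoint b.q12 Q.M := h.dM 1
  have m2 : Disjoint (Q.shd b.qq) Q.M := h.dM 2
  have m3 : Disjoint (Q.shd b.g0) Q.M := h.dM 3
  have m4 : Disjoint (Q.shd b.g1) Q.M := h.dM 4
  refine ⟨?_, ?_, ?_, ?_⟩
  · intro a ha c hc hac
    unfold Cf.g at ha hc
    rcases Finset.mem_union.1 ha with ha | ha
    · rcases Finset.mem_union.1 hc with hc | hc
      · exact h.gg0 a ha c hc hac
      · exact absurd ((mem_shd Q).2 ⟨c, hc, rfl⟩)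
          (Finset.disjoint_left.1 d34 ((mem_shd Q).2 ⟨a, ha, hac⟩))
    · rcases Finset.mem_union.1 hc with hc | hc
      · exact absurd ((mem_shd Q).2 ⟨a, ha, rfl⟩)
          (Finset.disjoint_left.1 d34 ((mem_shd Q).2 ⟨c, hc, hac.symm⟩))
      · exact h.gg1 a ha c hc hac
  · unfold Cf.q
    rw [Finset.disjoint_union_left, Finset.disjoint_union_left]
    exact ⟨⟨m0, m1⟩, m2⟩
  · unfold Cf.g
    rw [shd_union, Finset.disjoint_union_left]
    exact ⟨m3, m4⟩
  · unfold Cf.q Cf.g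
    rw [shd_union, Finset.disjoint_union_left, Finset.disjoint_union_left,
      Finset.disjoint_union_right, Finset.disjoint_union_right, Finset.disjoint_union_right]
    exact ⟨⟨⟨d03, d04⟩, ⟨d13, d14⟩⟩, ⟨d23, d24⟩⟩

theorem mem_cfs {b : Cf Q} (h : b.Ok) : b ∈ cfs Q b.q b.g := by
  classical
  have d01 : Disjoint b.q0 b.q12 := h.dj 0 1 (by decide)
  have d02 : Disjoint b.q0 (Q.shd b.qq) := h.dj 0 2 (by decide)
  have d12 : Disjoint b.q12 (Q.shd b.qq) := h.dj 1 2 (by decide)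
  have d34 : Disjoint (Q.shd b.g0) (Q.shd b.g1) := h.dj 3 4 (by decide)
  have dg : Disjoint b.g0 b.g1 := by
    rw [Finset.disjoint_left]
    intro a ha hb
    exact Finset.disjoint_left.1 d34 ((mem_shd Q).2 ⟨a, ha, rfl⟩) ((mem_shd Q).2 ⟨a, hb, rfl⟩)
  unfold cfs
  rw [Finset.mem_image]
  refine ⟨(⟨b.q12, b.qq⟩, b.g1), ?_, ?_⟩
  · rw [mem_dcs]
    refine ⟨⟨?_, ?_, h.gqq⟩, ?_⟩
    · intro p hp
      unfold Cf.q
      exact Finset.mem_union_left _ (Finset.mem_union_right _ hp)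
    · intro p hp
      rw [Finset.mem_sdiff]
      unfold Cf.q
      exact ⟨Finset.mem_union_right _ hp, fun h1 => Finset.disjoint_left.1 d12 h1 hp⟩
    · intro a ha
      unfold Cf.g
      exact Finset.mem_union_right _ ha
  · unfold mk
    apply Cf.ext
    · show b.q \ (b.q12 ∪ Q.shd b.qq) = b.q0
      unfold Cf.q
      rw [Finset.union_assoc]
      exact Finset.union_sdiff_cancel_right (Finset.disjoint_union_right.2 ⟨d01, d02⟩)
    · rfl
    · rfl
    · show b.g \ b.g1 = b.g0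
      unfold Cf.g
      exact Finset.union_sdiff_cancel_right dg
    · rfl

theorem mk_q {x : Finset S.P} {g : Finset Q.P} {z : (Σ _ : Finset S.P, Finset Q.P) × Finset Q.P}
    (hz : z ∈ dcs Q x g) : (mk Q x g z).q = x := by
  rw [mem_dcs] at hz
  obtain ⟨⟨h1, h2, h3⟩, h4⟩ := hz
  show x \ (z.1.1 ∪ Q.shd z.1.2) ∪ z.1.1 ∪ Q.shd z.1.2 = x
  rw [Finset.union_assoc]
  exact Finset.sdiff_union_of_subset (Finset.union_subset h1 (h2.trans Finset.sdiff_subset))

theorem mk_g {x : Finset S.P} {g : Finset Q.P} {z : (Σ _ : Finset S.P, Finset Q.P) × Finset Q.P}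
    (hz : z ∈ dcs Q x g) : (mk Q x g z).g = g := by
  rw [mem_dcs] at hz
  show g \ z.2 ∪ z.2 = g
  exact Finset.sdiff_union_of_subset hz.2

theorem mk_ok {x : Finset S.P} {g : Finset Q.P} (h : Q.OkP x g)
    {z : (Σ _ : Finset S.P, Finset Q.P) × Finset Q.P}
    (hz : z ∈ dcs Q x g) : (mk Q x g z).Ok := by
  rw [mem_dcs] at hz
  obtain ⟨⟨h1, h2, h3⟩, h4⟩ := hz
  obtain ⟨hg, hxM, hgM, hxg⟩ := h
  have h5 : Q.shd z.1.2 ⊆ x := h2.trans Finset.sdiff_subset
  have d12 : Disjoint z.1.1 (Q.shd z.1.2) := by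
    rw [Finset.disjoint_left]
    intro p hp hp2
    exact (Finset.mem_sdiff.1 (h2 hp2)).2 hp
  have e0 : x \ (z.1.1 ∪ Q.shd z.1.2) ⊆ x := Finset.sdiff_subset
  have d0 : Disjoint (x \ (z.1.1 ∪ Q.shd z.1.2)) (z.1.1 ∪ Q.shd z.1.2) :=
    Finset.sdiff_disjoint
  rw [Finset.disjoint_union_right] at d0
  have e3 : Q.shd (g \ z.2) ⊆ Q.shd g := shd_mono Q Finset.sdiff_subset
  have e4 : Q.shd z.2 ⊆ Q.shd g := shd_mono Q h4
  have d34 : Disjoint (Q.shd (g \ z.2)) (Q.shd z.2) := by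
    rw [Finset.disjoint_left]
    intro p hp hp2
    obtain ⟨a, ha, hap⟩ := (mem_shd Q).1 hp
    obtain ⟨b, hb, hbp⟩ := (mem_shd Q).1 hp2
    have h6 : a = b := hg a (Finset.sdiff_subset ha) b (h4 hb) (hap.trans hbp.symm)
    rw [h6] at ha
    exact (Finset.mem_sdiff.1 ha).2 hb
  have hx : ∀ y y' : Finset S.P, y ⊆ x → y' ⊆ Q.shd g → Disjoint y y' :=
    fun y y' hy hy' => Finset.disjoint_of_subset_left hy (Finset.disjoint_of_subset_right hy' hxg)
  have hM : ∀ y : Finset S.P, y ⊆ x → Disjoint y Q.M :=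
    fun y hy => Finset.disjoint_of_subset_left hy hxM
  have hM' : ∀ y : Finset S.P, y ⊆ Q.shd g → Disjoint y Q.M :=
    fun y hy => Finset.disjoint_of_subset_left hy hgM
  refine ⟨?_, ?_, h3, gd_mono Finset.sdiff_subset hg, gd_mono h4 hg⟩
  · have key : ∀ i j : Fin 5, i < j → Disjoint ((mk Q x g z).sd i) ((mk Q x g z).sd j) := by
      intro i j hij
      fin_cases i <;> fin_cases j <;>
      first
      | exact absurd hij (by decide)
      | exact d0.1
      | exact d0.2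
      | exact d12
      | exact d34
      | exact hx _ _ e0 e3
      | exact hx _ _ e0 e4
      | exact hx _ _ h1 e3
      | exact hx _ _ h1 e4
      | exact hx _ _ h5 e3
      | exact hx _ _ h5 e4
    intro i j hij
    rcases lt_or_gt_of_ne hij with h6 | h6
    · exact key i j h6
    · exact (key j i h6).symm
  · intro i
    fin_cases i
    · exact hM _ e0
    · exact hM _ h1
    · exact hM _ h5
    · exact hM' _ e3
    · exact hM' _ e4

theorem val_ok (s : ℝ) {b : Cf Q} (h : b.Ok) :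
    (Wp Q s).val b = ((S.nm b.q : ℝ) * (Q.nq b.g : ℝ)) ^ (-s) := by
  have d01 : Disjoint b.q0 b.q12 := h.dj 0 1 (by decide)
  have d02 : Disjoint b.q0 (Q.shd b.qq) := h.dj 0 2 (by decide)
  have d12 : Disjoint b.q12 (Q.shd b.qq) := h.dj 1 2 (by decide)
  have d34 : Disjoint (Q.shd b.g0) (Q.shd b.g1) := h.dj 3 4 (by decide)
  have h1 : S.nm b.q = S.nm b.q0 * S.nm b.q12 * S.nm (Q.shd b.qq) := by
    unfold Cf.q
    rw [S.nm_union (Finset.disjoint_union_left.2 ⟨d02, d12⟩), S.nm_union d01]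
  have h2 : Q.nq b.g = S.nm (Q.shd b.g0) * S.nm (Q.shd b.g1) := by
    unfold Qd.nq Cf.g
    rw [shd_union, S.nm_union d34]
  rw [h1, h2]
  push_cast
  have n0 := (S.nm_posr b.q0).le
  have n1 := (S.nm_posr b.q12).le
  have n2 := (S.nm_posr (Q.shd b.qq)).le
  have n3 := (S.nm_posr (Q.shd b.g0)).le
  have n4 := (S.nm_posr (Q.shd b.g1)).le
  rw [Real.mul_rpow (mul_nonneg (mul_nonneg n0 n1) n2) (mul_nonneg n3 n4),
    Real.mul_rpow (mul_nonneg n0 n1) n2, Real.mul_rpow n0 n1, Real.mul_rpow n3 n4]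
  unfold Wg.val Wp pw
  ring

theorem tm_mk (Θ : Q.G → El S → El S → ℝ) {x : Finset S.P} {g : Finset Q.P} (h : Q.OkP x g)
    {z : (Σ _ : Finset S.P, Finset Q.P) × Finset Q.P} (hz : z ∈ dcs Q x g) :
    (mk Q x g z).tm Θ = ∑ γ ∈ Q.B g, ∑ c ∈ Q.els, Θ γ c (Q.lab x) *
      (((∏ p ∈ z.1.1, ((sg (Q.ns γ p) : ℤ) : ℝ)) * ∏ a ∈ z.1.2, ((sg (Q.sy γ a) : ℤ) : ℝ)) *
        ∏ a ∈ z.2, ((sg (Q.d0 a + S.ex (x ∪ c.2) c.1 (Q.sh a)) : ℤ) : ℝ)) := by
  unfold Cf.tm
  rw [if_pos (mk_ok h hz), mk_g hz]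
  refine Finset.sum_congr rfl fun γ _ => Finset.sum_congr rfl fun c _ => ?_
  rw [mk_q hz]
  congr 1
  unfold Cf.E
  rw [mk_q hz, sg_add, sg_add, sg_sum, sg_sum, sg_sum]
  push_cast
  rfl

theorem sum_cfs (hL : Q.Law) (Θ : Q.G → El S → El S → ℝ) (s : ℝ) {x : Finset S.P}
    {g : Finset Q.P} (h : Q.OkP x g) :
    ∑ b ∈ cfs Q x g, (Wp Q s).val b * b.tm Θ =
      Q.tp Θ x g * ((S.nm x : ℝ) * (Q.nq g : ℝ)) ^ (-s) := by
  classical
  unfold cfs
  rw [Finset.sum_image fun a _ b _ hab => mk_inj Q x g hab]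
  have h1 : ∀ z ∈ dcs Q x g, (Wp Q s).val (mk Q x g z) * (mk Q x g z).tm Θ =
      (∑ γ ∈ Q.B g, ∑ c ∈ Q.els, Θ γ c (Q.lab x) *
      (((∏ p ∈ z.1.1, ((sg (Q.ns γ p) : ℤ) : ℝ)) * ∏ a ∈ z.1.2, ((sg (Q.sy γ a) : ℤ) : ℝ)) *
        ∏ a ∈ z.2, ((sg (Q.d0 a + S.ex (x ∪ c.2) c.1 (Q.sh a)) : ℤ) : ℝ))) *
        ((S.nm x : ℝ) * (Q.nq g : ℝ)) ^ (-s) := by
    intro z hz
    rw [val_ok s (mk_ok h hz), mk_q hz, mk_g hz, tm_mk Θ h hz, mul_comm]
  rw [Finset.sum_congr rfl h1, ← Finset.sum_mul]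
  congr 1
  unfold Qd.tp
  rw [if_pos h, Finset.sum_comm]
  refine Finset.sum_congr rfl fun γ hγ => ?_
  rw [Finset.sum_comm]
  refine Finset.sum_congr rfl fun c _ => ?_
  rw [← Finset.mul_sum]
  congr 1
  rw [prod_fp Q hL h.1 hγ h.2.2.2, prod_fa, Finset.sum_mul_sum]
  unfold dcs
  rw [Finset.sum_product]

end UE

open Classical in
/-- the expansion -/
theorem sue_of (hA : SUA) : SUE := by
  intro S Q hL Θ s hΘ hs
  obtain ⟨hS, -⟩ := hA S Q Θ s hΘ hs
  have h1 := hS.hasSum.tsum_fiberwise (fun b : Cf Q => ((b.q, b.g) : Finset S.P × Finset Q.P))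
  rw [← h1.tsum_eq]
  unfold Qd.DS
  refine tsum_congr fun z => ?_
  obtain ⟨x, g⟩ := z
  rw [tsum_subtype ((fun b : Cf Q => ((b.q, b.g) : Finset S.P × Finset Q.P)) ⁻¹' {(x, g)})
    (fun b : Cf Q => (Wp Q s).val b * b.tm Θ)]
  have h2 : ∀ b : Cf Q, ¬ b.Ok → b.tm Θ = 0 := by
    intro b hb
    unfold Cf.tm
    rw [if_neg hb]
  by_cases hok : Q.OkP x g
  · rw [tsum_eq_sum (s := UE.cfs Q x g)]
    · show Q.tp Θ x g * ((S.nm x : ℝ) * (Q.nq g : ℝ)) ^ (-s) = _
      rw [← UE.sum_cfs hL Θ s hok]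
      refine Finset.sum_congr rfl fun b hb => ?_
      unfold UE.cfs at hb
      obtain ⟨z, hz, rfl⟩ := Finset.mem_image.1 hb
      rw [Set.indicator_of_mem]
      rw [Set.mem_preimage, Set.mem_singleton_iff, UE.mk_q hz, UE.mk_g hz]
    · intro b hb
      by_cases h3 : b ∈ ((fun b : Cf Q => ((b.q, b.g) : Finset S.P × Finset Q.P)) ⁻¹' {(x, g)})
      · rw [Set.indicator_of_mem h3]
        rw [Set.mem_preimage, Set.mem_singleton_iff, Prod.mk.injEq] at h3
        obtain ⟨rfl, rfl⟩ := h3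
        rw [h2 b fun h4 => hb (UE.mem_cfs h4), mul_zero]
      · exact Set.indicator_of_notMem h3 _
  · show Q.tp Θ x g * ((S.nm x : ℝ) * (Q.nq g : ℝ)) ^ (-s) = _
    unfold Qd.tp
    rw [if_neg hok, zero_mul]
    symm
    refine (tsum_congr fun b => ?_).trans tsum_zero
    by_cases h3 : b ∈ ((fun b : Cf Q => ((b.q, b.g) : Finset S.P × Finset Q.P)) ⁻¹' {(x, g)})
    · rw [Set.indicator_of_mem h3]
      rw [Set.mem_preimage, Set.mem_singleton_iff, Prod.mk.injEq] at h3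
      obtain ⟨rfl, rfl⟩ := h3
      rw [h2 b fun h4 => hok (UE.ok_q h4), mul_zero]
    · exact Set.indicator_of_notMem h3 _

end Pool.Agent.H32.MQ
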