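import Pool.Agent.H32.MQ.KUStm

/-!
# Malle's conjecture for 8T28 and 8T29 over number fields: the symmetry of the boxes (row U4)
-/

set_option autoImplicit false

open scoped BigOperators

namespace Pool.Agent.H32.MQ

open Pool.Agent.H98.MK (sg)
open Pool.Agent.H98.MF

namespace Qd

variable {S : Sys} (Q : Qd S)

theorem shd_image_cj (g : Finset Q.P) : Q.shd (g.image Q.cj) = Q.shd g := by
  classical
  ext p
  unfold shd
  simp only [Finset.mem_image]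
  constructor
  · rintro ⟨a, ⟨b, hb, rfl⟩, rfl⟩
    exact ⟨b, hb, (Q.sh_cj b).symm⟩
  · rintro ⟨b, hb, rfl⟩
    exact ⟨Q.cj b, ⟨b, hb, rfl⟩, Q.sh_cj b⟩

theorem image_cj_cj (g : Finset Q.P) : (g.image Q.cj).image Q.cj = g := by
  classical
  ext a
  simp only [Finset.mem_image]
  constructor
  · rintro ⟨b, ⟨c, hc, rfl⟩, rfl⟩
    rw [Q.cj_cj]
    exact hc
  · intro ha
    exact ⟨Q.cj a, ⟨a, ha, rfl⟩, Q.cj_cj a⟩

theorem Gd_image_cj {g : Finset Q.P} (h : Q.Gd g) : Q.Gd (g.image Q.cj) := by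
  classical
  intro a ha b hb hab
  obtain ⟨a', ha', rfl⟩ := Finset.mem_image.1 ha
  obtain ⟨b', hb', rfl⟩ := Finset.mem_image.1 hb
  rw [Q.sh_cj, Q.sh_cj] at hab
  rw [h a' ha' b' hb' hab]

theorem mem_shd {g : Finset Q.P} {a : Q.P} (ha : a ∈ g) : Q.sh a ∈ Q.shd g := by
  classical
  unfold shd
  exact Finset.mem_image.2 ⟨a, ha, rfl⟩

theorem shd_union (g h : Finset Q.P) : Q.shd (g ∪ h) = Q.shd g ∪ Q.shd h := by
  classical
  ext p
  unfold shd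
  simp only [Finset.mem_image, Finset.mem_union]
  constructor
  · rintro ⟨a, ha | ha, rfl⟩
    · exact Or.inl ⟨a, ha, rfl⟩
    · exact Or.inr ⟨a, ha, rfl⟩
  · rintro (⟨a, ha, rfl⟩ | ⟨a, ha, rfl⟩)
    · exact ⟨a, Or.inl ha, rfl⟩
    · exact ⟨a, Or.inr ha, rfl⟩

theorem Gd_union {g h : Finset Q.P} (hg : Q.Gd g) (hh : Q.Gd h)
    (hd : Disjoint (Q.shd g) (Q.shd h)) : Q.Gd (g ∪ h) := by
  classical
  intro a ha b hb hab
  rcases Finset.mem_union.1 ha with ha | ha <;> rcases Finset.mem_union.1 hb with hb | hb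
  · exact hg a ha b hb hab
  · exact absurd (hab ▸ Q.mem_shd hb) (Finset.disjoint_left.1 hd (Q.mem_shd ha))
  · exact absurd (hab ▸ Q.mem_shd ha) (Finset.disjoint_left.1 hd (Q.mem_shd hb))
  · exact hh a ha b hb hab

theorem disjoint_of_shd {g h : Finset Q.P} (hd : Disjoint (Q.shd g) (Q.shd h)) :
    Disjoint g h := by
  rw [Finset.disjoint_left]
  intro a ha hb
  exact Finset.disjoint_left.1 hd (Q.mem_shd ha) (Q.mem_shd hb)

theorem sum_shd {g : Finset Q.P} (hg : Q.Gd g) (f : S.P → ZMod 2) :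
    ∑ p ∈ Q.shd g, f p = ∑ a ∈ g, f (Q.sh a) := by
  classical
  unfold shd
  exact Finset.sum_image fun a ha b hb hab => hg a ha b hb hab

end Qd

namespace Cf

variable {S : Sys} {Q : Qd S}

/-- the mirror image of a configuration -/
noncomputable def mir (x : Cf Q) : Cf Q := ⟨x.q12, x.q0, x.qq.image Q.cj, x.g1, x.g0⟩

theorem mir_mir (x : Cf Q) : x.mir.mir = x := by
  unfold mir
  ext1
  · rfl
  · rfl
  · exact Q.image_cj_cj x.qq
  · rfl
  · rfl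

theorem mir_sd (x : Cf Q) :
    x.mir.sd = ![x.q12, x.q0, Q.shd x.qq, Q.shd x.g1, Q.shd x.g0] := by
  unfold sd mir
  rw [Q.shd_image_cj]

theorem mir_q (x : Cf Q) : x.mir.q = x.q := by
  unfold q mir
  rw [Q.shd_image_cj]
  rw [Finset.union_comm x.q12 x.q0]

theorem mir_g (x : Cf Q) : x.mir.g = x.g := by
  unfold g mir
  exact Finset.union_comm _ _

theorem mir_lv (x : Cf Q) : x.mir.lv = Qd.mj x.lv := by
  funext i
  unfold lv Qd.mj
  rw [mir_sd]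
  fin_cases i <;> rfl

theorem Ok.mir {x : Cf Q} (h : x.Ok) : x.mir.Ok := by
  have e0 : x.mir.sd 0 = x.sd 1 := by rw [mir_sd]; rfl
  have e1 : x.mir.sd 1 = x.sd 0 := by rw [mir_sd]; rfl
  have e2 : x.mir.sd 2 = x.sd 2 := by rw [mir_sd]; rfl
  have e3 : x.mir.sd 3 = x.sd 4 := by rw [mir_sd]; rfl
  have e4 : x.mir.sd 4 = x.sd 3 := by rw [mir_sd]; rfl
  have hp : ∀ i : Fin 5, x.mir.sd i = x.sd (![1, 0, 2, 4, 3] i) := by
    intro i
    fin_cases i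
    · exact e0
    · exact e1
    · exact e2
    · exact e3
    · exact e4
  refine ⟨fun i j hij => ?_, fun i => ?_, Q.Gd_image_cj h.gqq, h.gg1, h.gg0⟩
  · rw [hp i, hp j]
    refine h.dj _ _ fun he => hij ?_
    revert i j
    decide
  · rw [hp i]
    exact h.dM _

theorem mir_Ok_iff (x : Cf Q) : x.mir.Ok ↔ x.Ok :=
  ⟨fun h => by have := h.mir; rwa [mir_mir] at this, fun h => h.mir⟩

/-- the product formula at a configuration -/
theorem E_add_mir (hQ : Q.Law) (x : Cf Q) (h : x.Ok) {γ : Q.G} (hγ : γ ∈ Q.B x.g) {c : El S}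
    (hc : c ∈ Q.els) : x.E γ c + x.mir.E γ c = Q.hM γ c (Q.lab x.q) := by
  classical
  have d01 : Disjoint x.q0 x.q12 := h.dj 0 1 (by decide)
  have d02 : Disjoint x.q0 (Q.shd x.qq) := h.dj 0 2 (by decide)
  have d12 : Disjoint x.q12 (Q.shd x.qq) := h.dj 1 2 (by decide)
  have d03 : Disjoint x.q0 (Q.shd x.g0) := h.dj 0 3 (by decide)
  have d04 : Disjoint x.q0 (Q.shd x.g1) := h.dj 0 4 (by decide)
  have d13 : Disjoint x.q12 (Q.shd x.g0) := h.dj 1 3 (by decide)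
  have d14 : Disjoint x.q12 (Q.shd x.g1) := h.dj 1 4 (by decide)
  have d23 : Disjoint (Q.shd x.qq) (Q.shd x.g0) := h.dj 2 3 (by decide)
  have d24 : Disjoint (Q.shd x.qq) (Q.shd x.g1) := h.dj 2 4 (by decide)
  have d34 : Disjoint (Q.shd x.g0) (Q.shd x.g1) := h.dj 3 4 (by decide)
  have m0 : Disjoint x.q0 Q.M := h.dM 0
  have m1 : Disjoint x.q12 Q.M := h.dM 1
  have m2 : Disjoint (Q.shd x.qq) Q.M := h.dM 2
  have hg : Q.Gd x.g := Q.Gd_union h.gg0 h.gg1 d34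
  have hqM : Disjoint x.q Q.M := by
    unfold q
    exact Finset.disjoint_union_left.2 ⟨Finset.disjoint_union_left.2 ⟨m0, m1⟩, m2⟩
  have hqg : Disjoint x.q (Q.shd x.g) := by
    unfold q g
    rw [Q.shd_union]
    exact Finset.disjoint_union_left.2 ⟨Finset.disjoint_union_left.2
      ⟨Finset.disjoint_union_right.2 ⟨d03, d04⟩, Finset.disjoint_union_right.2 ⟨d13, d14⟩⟩,
      Finset.disjoint_union_right.2 ⟨d23, d24⟩⟩
  have key := hQ.prod x.g hg γ hγ c hc x.q hqM hqg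
  have h1 : ∑ p ∈ x.q, Q.ns γ p = ∑ p ∈ x.q0, Q.ns γ p + ∑ p ∈ x.q12, Q.ns γ p +
      ∑ p ∈ Q.shd x.qq, Q.ns γ p := by
    unfold q
    rw [Finset.sum_union (Finset.disjoint_union_left.2 ⟨d02, d12⟩), Finset.sum_union d01]
  have h2 : ∑ p ∈ Q.shd x.qq, Q.ns γ p = ∑ a ∈ x.qq, Q.sy γ a + ∑ a ∈ x.qq, Q.sy γ (Q.cj a) := by
    rw [Q.sum_shd h.gqq, ← Finset.sum_add_distrib]
    refine Finset.sum_congr rfl fun a ha => ?_
    refine hQ.ns_split x.g hg γ hγ a fun hs => ?_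
    unfold g at hs
    rw [Q.shd_union] at hs
    rcases Finset.mem_union.1 hs with hs | hs
    · exact Finset.disjoint_left.1 d23 (Q.mem_shd ha) hs
    · exact Finset.disjoint_left.1 d24 (Q.mem_shd ha) hs
  have h3 : ∑ a ∈ x.g, (Q.d0 a + S.ex (x.q ∪ c.2) c.1 (Q.sh a)) =
      ∑ a ∈ x.g0, (Q.d0 a + S.ex (x.q ∪ c.2) c.1 (Q.sh a)) +
      ∑ a ∈ x.g1, (Q.d0 a + S.ex (x.q ∪ c.2) c.1 (Q.sh a)) := by
    have hd := Q.disjoint_of_shd d34
    have : x.g = x.g0 ∪ x.g1 := rfl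
    rw [this, Finset.sum_union hd]
  have h4 : ∑ a ∈ x.qq.image Q.cj, Q.sy γ a = ∑ a ∈ x.qq, Q.sy γ (Q.cj a) := by
    refine Finset.sum_image fun a _ b _ hab => ?_
    have := congrArg Q.cj hab
    rwa [Q.cj_cj, Q.cj_cj] at this
  have h5 : x.mir.E γ c = ∑ p ∈ x.q0, Q.ns γ p + ∑ a ∈ x.qq, Q.sy γ (Q.cj a) +
      ∑ a ∈ x.g0, (Q.d0 a + S.ex (x.q ∪ c.2) c.1 (Q.sh a)) := by
    unfold E
    rw [mir_q, ← h4]
    rfl
  rw [← key, h1, h2, h3, h5]
  unfold E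
  ring

theorem tm_mir (hQ : Q.Law) (Θ : Q.G → El S → El S → ℝ) (x : Cf Q) :
    x.tm Θ = x.mir.tm (mT Q Θ) := by
  classical
  unfold tm
  by_cases h : x.Ok
  · rw [if_pos h, if_pos h.mir, mir_g, mir_q]
    refine Finset.sum_congr rfl fun γ hγ => Finset.sum_congr rfl fun c hc => ?_
    have h1 := E_add_mir hQ x h hγ hc
    have h2 : x.E γ c = Q.hM γ c (Q.lab x.q) + x.mir.E γ c := by
      rw [← h1, add_assoc, CharTwo.add_self_eq_zero, add_zero]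
    unfold mT
    rw [h2, sg_add]
    push_cast
    ring
  · rw [if_neg h, if_neg fun h1 => h ((mir_Ok_iff x).1 h1)]

end Cf

theorem Wg.mir_val {S : Sys} {Q : Qd S} (W : Wg Q) (x : Cf Q) :
    W.mir.val x.mir = W.val x := by
  have h : W.mir.a2 x.mir.qq = W.a2 x.qq := by
    have h1 : W.mir.a2 x.mir.qq = W.a2 ((x.qq.image Q.cj).image Q.cj) := by
      unfold Wg.mir Cf.mir
      rfl
    rw [h1, Q.image_cj_cj]
  unfold Wg.val
  rw [h]
  unfold Wg.mir Cf.mir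
  ring

theorem Qd.mem_box {S : Sys} (Q : Qd S) {j : Fin 5 → ℕ} {x : Cf Q} :
    x ∈ Q.box j ↔ x.Ok ∧ ∀ i, x.lv i = j i := by
  unfold Qd.box
  rw [Set.Finite.mem_toFinset]
  rfl

theorem Qd.mj_mj (j : Fin 5 → ℕ) : Qd.mj (Qd.mj j) = j := by
  funext i
  fin_cases i <;> rfl

theorem mir_mem_box {S : Sys} (Q : Qd S) {j : Fin 5 → ℕ} {x : Cf Q} (hx : x ∈ Q.box j) :
    x.mir ∈ Q.box (Qd.mj j) := by
  rw [Qd.mem_box] at hx ⊢
  refine ⟨hx.1.mir, fun i => ?_⟩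
  have h : x.lv = j := funext hx.2
  rw [Cf.mir_lv, h]

theorem sum_mir : SUM := by
  intro S Q hQ Θ W j
  unfold Qd.TD
  refine Finset.sum_bij' (fun x _ => x.mir) (fun x _ => x.mir)
    (fun x hx => mir_mem_box Q hx) (fun x hx => ?_) (fun x _ => x.mir_mir)
    (fun x _ => x.mir_mir) fun x _ => ?_
  · have := mir_mem_box Q hx
    rwa [Qd.mj_mj] at this
  · rw [Wg.mir_val, Cf.tm_mir hQ]

end Pool.Agent.H32.MQ
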