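import Pool.Agent.H32.MQ.KUStm

/-!
# Malle's conjecture for 8T28 and 8T29 over number fields: all linked pairs (row U5)
-/

set_option autoImplicit false

open scoped BigOperators

namespace Pool.Agent.H32.MQ

open Pool.Agent.H98.MK (sg)
open Pool.Agent.H98.MF

theorem bdT_mT {S : Sys} {Q : Qd S} {Θ : Q.G → El S → El S → ℝ} (h : BdT Θ) : BdT (mT Q Θ) := by
  intro γ c l
  unfold mT
  rw [abs_mul, abs_sgr, mul_one]
  exact h γ c l

theorem bd_mir {S : Sys} {Q : Qd S} {W : Wg Q} (h : W.Bd) : W.mir.Bd :=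
  ⟨fun x => h.b1 x, fun x => h.b0 x, fun _ => h.b2 _, fun x => h.b4 x, fun x => h.b3 x⟩

theorem vol_mj (j : Fin 5 → ℕ) : vol (Qd.mj j) = vol j := by
  unfold vol
  have h : ∑ i, Qd.mj j i = ∑ i, j i := by
    rw [Fin.sum_univ_five, Fin.sum_univ_five]
    change j 1 + j 0 + j 2 + j 4 + j 3 = _
    omega
  rw [h]

theorem vol_nonneg (j : Fin 5 → ℕ) : 0 ≤ vol j := by
  unfold vol
  positivity

theorem wk_bound {M v m C C1 A A1 η η1 : ℝ} (hM : 1 ≤ M) (hv : 0 ≤ v) (hm : 0 ≤ m)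
    (hC : |C1| ≤ C) (hA : A1 ≤ A) (hη : η ≤ η1) :
    C1 * M ^ A1 * v * (2 : ℝ) ^ (-η1 * m) ≤ C * M ^ A * v * (2 : ℝ) ^ (-η * m) := by
  have hM0 : 0 < M := lt_of_lt_of_le one_pos hM
  have h1 : M ^ A1 ≤ M ^ A := Real.rpow_le_rpow_of_exponent_le hM hA
  have h2 : (2 : ℝ) ^ (-η1 * m) ≤ (2 : ℝ) ^ (-η * m) := by
    refine Real.rpow_le_rpow_of_exponent_le one_le_two ?_
    have := mul_le_mul_of_nonneg_right hη hm
    linarith
  have h3 : (0 : ℝ) ≤ M ^ A1 := Real.rpow_nonneg hM0.le _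
  have h4 : (0 : ℝ) ≤ (2 : ℝ) ^ (-η1 * m) := Real.rpow_nonneg (by norm_num) _
  have h5 : 0 ≤ C := (abs_nonneg _).trans hC
  have h6 : C1 ≤ C := (le_abs_self _).trans hC
  have e1 : C1 * M ^ A1 ≤ C * M ^ A :=
    (mul_le_mul_of_nonneg_right h6 h3).trans (mul_le_mul_of_nonneg_left h1 h5)
  have e2 : C1 * M ^ A1 * v ≤ C * M ^ A * v := mul_le_mul_of_nonneg_right e1 hv
  have h7 : 0 ≤ C * M ^ A * v := mul_nonneg (mul_nonneg h5 (Real.rpow_nonneg hM0.le _)) hv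
  exact (mul_le_mul_of_nonneg_right e2 h4).trans (mul_le_mul_of_nonneg_left h2 h7)

/-- all linked pairs -/
theorem sup_of (h13 : SU13) (h23 : SU23) (hM : SUM) : SUP := by
  intro S C0 A0 η0 hη0
  obtain ⟨C1, A1, η1, hA1, hη1, H1⟩ := h13 S
  obtain ⟨C2, A2, η2, hA2, hη2, H2⟩ := h23 S C0 A0 η0 hη0
  refine ⟨max |C1| |C2|, max A1 A2, min η1 η2, hA1.trans (le_max_left _ _), lt_min hη1 hη2, ?_⟩
  intro Q hL hBF Θ W j hΘ hW i k hik
  have hMM : (1 : ℝ) ≤ (S.nm Q.M : ℝ) := S.one_le_nmr Q.M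
  have hmin : ∀ a b : ℕ, (0 : ℝ) ≤ min (a : ℝ) (b : ℝ) := fun a b =>
    le_min (Nat.cast_nonneg a) (Nat.cast_nonneg b)
  rcases hik with ⟨rfl, rfl⟩ | ⟨rfl, rfl⟩ | ⟨rfl, rfl⟩ | ⟨rfl, rfl⟩
  · exact (H1 Q hL Θ W j hΘ hW).trans (wk_bound hMM (vol_nonneg j) (hmin _ _)
      (le_max_left _ _) (le_max_left _ _) (min_le_left _ _))
  · have h1 := H1 Q hL (mT Q Θ) W.mir (Qd.mj j) (bdT_mT hΘ) (bd_mir hW)
    rw [← hM S Q hL Θ W j, vol_mj] at h1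
    have e1 : Qd.mj j 1 = j 0 := rfl
    have e3 : Qd.mj j 3 = j 4 := rfl
    rw [e1, e3] at h1
    exact h1.trans (wk_bound hMM (vol_nonneg j) (hmin _ _)
      (le_max_left _ _) (le_max_left _ _) (min_le_left _ _))
  · exact (H2 Q hL hBF Θ W j hΘ hW).trans (wk_bound hMM (vol_nonneg j) (hmin _ _)
      (le_max_right _ _) (le_max_right _ _) (min_le_right _ _))
  · have h1 := H2 Q hL hBF (mT Q Θ) W.mir (Qd.mj j) (bdT_mT hΘ) (bd_mir hW)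
    rw [← hM S Q hL Θ W j, vol_mj] at h1
    have e1 : Qd.mj j 2 = j 2 := rfl
    have e3 : Qd.mj j 3 = j 4 := rfl
    rw [e1, e3] at h1
    exact h1.trans (wk_bound hMM (vol_nonneg j) (hmin _ _)
      (le_max_right _ _) (le_max_right _ _) (min_le_right _ _))

end Pool.Agent.H32.MQ
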