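import Pool.Agent.H32.MQ.KUStm

/-!
# Malle's conjecture for 8T28 and 8T29 over number fields, block U: the variable `q0` with `g1`
not empty, from the variable `q12` with `g0` not empty by the symmetry
-/

set_option autoImplicit false

open scoped BigOperators

namespace Pool.Agent.H32.MQ

open Pool.Agent.H98.MK (sg)
open Pool.Agent.H98.MF

/-- the shadow of the conjugate set is the shadow -/
theorem uq0_shd {S : Sys} (Q : Qd S) (x : Finset Q.P) (hx : DecidableEq Q.P) :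
    Q.shd (@Finset.image _ _ hx Q.cj x) = Q.shd x := by
  unfold Qd.shd
  ext p
  simp only [Finset.mem_image]
  constructor
  · rintro ⟨a, ⟨b, hb, rfl⟩, rfl⟩
    exact ⟨b, hb, (Q.sh_cj b).symm⟩
  · rintro ⟨a, ha, rfl⟩
    exact ⟨Q.cj a, ⟨a, ha, rfl⟩, Q.sh_cj a⟩

/-- the weights are invariant under the symmetry -/
theorem uq0_mir {S : Sys} (Q : Qd S) (s : ℝ) : (Wp Q s).mir = Wp Q s := by
  unfold Wg.mir Wp
  simp only [Wg.mk.injEq, true_and, and_true]
  funext x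
  rw [uq0_shd]

/-- the function of the mirror image is bounded by one -/
theorem uq0_bd {S : Sys} (Q : Qd S) (Θ : Q.G → El S → El S → ℝ) (h : BdT Θ) :
    BdT (mT Q Θ) := by
  intro γ c l
  unfold mT
  rw [abs_mul, abs_sgr, mul_one]
  exact h γ c l

/-- the volume is invariant under the symmetry -/
theorem uq0_vol (j : Fin 5 → ℕ) : vol (Qd.mj j) = vol j := by
  unfold vol Qd.mj
  congr 1
  rw [Fin.sum_univ_five, Fin.sum_univ_five]
  have e0 : (![j 1, j 0, j 2, j 4, j 3] : Fin 5 → ℕ) 0 = j 1 := rfl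
  have e1 : (![j 1, j 0, j 2, j 4, j 3] : Fin 5 → ℕ) 1 = j 0 := rfl
  have e2 : (![j 1, j 0, j 2, j 4, j 3] : Fin 5 → ℕ) 2 = j 2 := rfl
  have e3 : (![j 1, j 0, j 2, j 4, j 3] : Fin 5 → ℕ) 3 = j 4 := rfl
  have e4 : (![j 1, j 0, j 2, j 4, j 3] : Fin 5 → ℕ) 4 = j 3 := rfl
  rw [e0, e1, e2, e3, e4]
  ring

/-- the variable `q0` with `g1` not empty -/
theorem suq0_of (h : SUQ1) (hM : SUM) : SUQ0 := by
  intro S
  obtain ⟨C, A, η, hA, hη, hb⟩ := h S
  refine ⟨C, A, η, hA, hη, ?_⟩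
  intro Q hQ Θ j s hΘ h1 h2 hj
  have h3 := hb Q hQ (mT Q Θ) (Qd.mj j) s (uq0_bd Q Θ hΘ) h1 h2 hj
  rw [uq0_vol] at h3
  rw [hM S Q hQ Θ (Wp Q s) j, uq0_mir]
  exact h3

end Pool.Agent.H32.MQ
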