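import Pool.Agent.H32.MQ.KUStm
import Pool.Agent.H98.MF.SHs

/-!
# Malle's conjecture for 8T28 and 8T29 over number fields, row MQ-U8: the boxes with `g0`, `g1`
empty
-/

set_option autoImplicit false

open scoped BigOperators

namespace Pool.Agent.H32.MQ

open Pool.Agent.H98.MK (sg)
open Pool.Agent.H98.MF

/-! ### Fourier inversion -/

theorem uq00_char_sum {κ : Type} [Fintype κ] [DecidableEq κ] (w : κ → ZMod 2) :
    ∑ c : κ → ZMod 2, ((sg (c ⬝ᵥ w) : ℤ) : ℝ) = if w = 0 then 2 ^ Fintype.card κ else 0 := by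
  have h1 : ∀ c : κ → ZMod 2, ((sg (c ⬝ᵥ w) : ℤ) : ℝ) = ∏ k, ((sg (c k * w k) : ℤ) : ℝ) := by
    intro c
    unfold dotProduct
    rw [sg_sum, Int.cast_prod]
  have h2 : ∏ k, ∑ t : ZMod 2, ((sg (t * w k) : ℤ) : ℝ) =
      ∑ c : κ → ZMod 2, ∏ k, ((sg (c k * w k) : ℤ) : ℝ) := by
    rw [Finset.prod_univ_sum, Fintype.piFinset_univ]
  have h4 : ∀ t : ZMod 2, (∑ s : ZMod 2, ((sg (s * t) : ℤ) : ℝ)) = if t = 0 then 2 else 0 := by
    intro t
    have h5 : (∑ s : ZMod 2, (sg (s * t) : ℤ)) = if t = 0 then 2 else 0 := by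
      revert t
      decide
    rw [← Int.cast_sum, h5]
    split_ifs <;> norm_num
  rw [Finset.sum_congr rfl fun c _ => h1 c, ← h2]
  by_cases hw : w = 0
  · rw [if_pos hw, Finset.prod_congr rfl fun k _ => by rw [h4, hw, Pi.zero_apply, if_pos rfl],
      Finset.prod_const, Finset.card_univ]
  · rw [if_neg hw]
    obtain ⟨k, hk⟩ := Function.ne_iff.1 hw
    refine Finset.prod_eq_zero (Finset.mem_univ k) ?_
    rw [h4]
    exact if_neg hk

/-- the Fourier coefficients -/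
noncomputable def uq00F {κ : Type} [Fintype κ] [DecidableEq κ] (G : (κ → ZMod 2) → ℝ)
    (c : κ → ZMod 2) : ℝ :=
  (1 / 2) ^ Fintype.card κ * ∑ u : κ → ZMod 2, G u * ((sg (c ⬝ᵥ u) : ℤ) : ℝ)

theorem uq00_fourier {κ : Type} [Fintype κ] [DecidableEq κ] (G : (κ → ZMod 2) → ℝ)
    (u : κ → ZMod 2) : G u = ∑ c : κ → ZMod 2, uq00F G c * ((sg (c ⬝ᵥ u) : ℤ) : ℝ) := by
  unfold uq00F
  have h1 : ∀ c : κ → ZMod 2, (1 / 2 : ℝ) ^ Fintype.card κ *
      (∑ v : κ → ZMod 2, G v * ((sg (c ⬝ᵥ v) : ℤ) : ℝ)) * ((sg (c ⬝ᵥ u) : ℤ) : ℝ) =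
      ∑ v : κ → ZMod 2, (1 / 2 : ℝ) ^ Fintype.card κ * G v * ((sg (c ⬝ᵥ (v + u)) : ℤ) : ℝ) := by
    intro c
    rw [Finset.mul_sum, Finset.sum_mul]
    refine Finset.sum_congr rfl fun v _ => ?_
    rw [dotProduct_add, sg_add, Int.cast_mul]
    ring
  rw [Finset.sum_congr rfl fun c _ => h1 c, Finset.sum_comm]
  have h2 : ∀ v : κ → ZMod 2, (∑ c : κ → ZMod 2,
      (1 / 2 : ℝ) ^ Fintype.card κ * G v * ((sg (c ⬝ᵥ (v + u)) : ℤ) : ℝ)) =
      if v = u then G u else 0 := by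
    intro v
    rw [← Finset.mul_sum, uq00_char_sum]
    have h3 : v + u = 0 ↔ v = u := by
      rw [add_eq_zero_iff_eq_neg]
      have h4 : -u = u := by
        funext k
        rw [Pi.neg_apply]
        exact CharTwo.neg_eq _
      rw [h4]
    by_cases h : v = u
    · rw [if_pos h, if_pos (h3.2 h), h]
      have h5 : (1 / 2 : ℝ) ^ Fintype.card κ * 2 ^ Fintype.card κ = 1 := by
        rw [← mul_pow]
        norm_num
      linear_combination G u * h5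
    · rw [if_neg h, if_neg (fun h6 => h (h3.1 h6)), mul_zero]
  rw [Finset.sum_congr rfl fun v _ => h2 v, Finset.sum_ite_eq' Finset.univ u,
    if_pos (Finset.mem_univ u)]

theorem uq00_F_le {κ : Type} [Fintype κ] [DecidableEq κ] (G : (κ → ZMod 2) → ℝ)
    (hG : ∀ u, |G u| ≤ 1) (c : κ → ZMod 2) : |uq00F G c| ≤ 1 := by
  unfold uq00F
  rw [abs_mul, abs_of_nonneg (by positivity : (0 : ℝ) ≤ (1 / 2) ^ Fintype.card κ)]
  have h1 : |∑ u : κ → ZMod 2, G u * ((sg (c ⬝ᵥ u) : ℤ) : ℝ)| ≤ 2 ^ Fintype.card κ := by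
    refine (Finset.abs_sum_le_sum_abs _ _).trans ?_
    have h2 : ∀ u ∈ (Finset.univ : Finset (κ → ZMod 2)),
        |G u * ((sg (c ⬝ᵥ u) : ℤ) : ℝ)| ≤ 1 := by
      intro u _
      rw [abs_mul, abs_sgr, mul_one]
      exact hG u
    refine (Finset.sum_le_card_nsmul _ _ 1 h2).trans ?_
    rw [nsmul_eq_mul, mul_one, Finset.card_univ, Fintype.card_fun, ZMod.card]
    push_cast
    exact le_rfl
  calc (1 / 2 : ℝ) ^ Fintype.card κ * |∑ u : κ → ZMod 2, G u * ((sg (c ⬝ᵥ u) : ℤ) : ℝ)|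
      ≤ (1 / 2 : ℝ) ^ Fintype.card κ * 2 ^ Fintype.card κ :=
        mul_le_mul_of_nonneg_left h1 (by positivity)
    _ = 1 := by
        rw [← mul_pow]
        norm_num

/-! ### signs -/

section sgn

variable {S : Sys}

/-- the sign of a set of primes -/
noncomputable def uq00s (z : El S) (x : Finset S.P) : ℝ :=
  ((sg (S.JJ x z.2 + z.1 ⬝ᵥ S.tys x) : ℤ) : ℝ)

theorem uq00s_abs (z : El S) (x : Finset S.P) : |uq00s z x| = 1 := abs_sgr _

theorem uq00s_union (z : El S) {x x' : Finset S.P} (h : Disjoint x x') :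
    uq00s z (x ∪ x') = uq00s z x * uq00s z x' := by
  unfold uq00s
  rw [S.JJ_union_left _ h, S.tys_union h, dotProduct_add, ← Int.cast_mul, ← sg_add]
  congr 2
  ring

theorem uq00_JJ_symm (x y y' : Finset S.P) :
    S.JJ x (symmDiff y y') = S.JJ x y + S.JJ x y' := by
  have h1 : S.JJ x y = S.JJ x (y \ y') + S.JJ x (y ∩ y') := by
    rw [← S.JJ_union_right x (Finset.disjoint_sdiff_inter y y'), Finset.sdiff_union_inter]
  have h2 : S.JJ x y' = S.JJ x (y' \ y) + S.JJ x (y ∩ y') := by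
    rw [Finset.inter_comm y y', ← S.JJ_union_right x (Finset.disjoint_sdiff_inter y' y),
      Finset.sdiff_union_inter]
  have h3 : S.JJ x (symmDiff y y') = S.JJ x (y \ y') + S.JJ x (y' \ y) := by
    rw [← S.JJ_union_right x disjoint_sdiff_sdiff]
    rfl
  rw [h1, h2, h3]
  have h4 : S.JJ x (y ∩ y') + S.JJ x (y ∩ y') = 0 := CharTwo.add_self_eq_zero _
  linear_combination -h4

/-- the sum of two signs -/
noncomputable def uq00a (z e : El S) : El S := (z.1 + e.1, symmDiff z.2 e.2)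

theorem uq00s_mul (z e : El S) (x : Finset S.P) :
    uq00s z x * ((sg (S.JJ x e.2 + e.1 ⬝ᵥ S.tys x) : ℤ) : ℝ) = uq00s (uq00a z e) x := by
  unfold uq00s uq00a
  rw [← Int.cast_mul, ← sg_add, uq00_JJ_symm, add_dotProduct]
  congr 2
  ring

end sgn

/-! ### labels -/

section lab

variable {S : Sys} (Q : Qd S)

/-- the label as a vector -/
noncomputable def uq00v (x : Finset S.P) : (Fin S.m ⊕ {v // v ∈ Q.M}) → ZMod 2 :=
  Sum.elim (S.tys x) (fun v => ∑ p ∈ x, S.J p v.1)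

open Classical in
/-- the element of a vector -/
noncomputable def uq00e (u : (Fin S.m ⊕ {v // v ∈ Q.M}) → ZMod 2) : El S :=
  (fun i => u (Sum.inl i), Q.M.filter fun v => ∃ h : v ∈ Q.M, u (Sum.inr ⟨v, h⟩) = 1)

theorem uq00_lab (x : Finset S.P) : Q.lab x = uq00e Q (uq00v Q x) := by
  unfold Qd.lab uq00e uq00v
  refine Prod.ext rfl ?_
  refine Finset.filter_congr fun v hv => ?_
  simp only [Sum.elim_inr]
  exact ⟨fun h => ⟨hv, h⟩, fun ⟨_, h⟩ => h⟩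

theorem uq00e_sub (u : (Fin S.m ⊕ {v // v ∈ Q.M}) → ZMod 2) : (uq00e Q u).2 ⊆ Q.M :=
  Finset.filter_subset _ _

open Classical in
theorem uq00_dot (c : (Fin S.m ⊕ {v // v ∈ Q.M}) → ZMod 2) (x : Finset S.P) :
    c ⬝ᵥ uq00v Q x = (uq00e Q c).1 ⬝ᵥ S.tys x + S.JJ (uq00e Q c).2 x := by
  unfold dotProduct
  rw [Fintype.sum_sum_type]
  congr 1
  have h1 : S.JJ (uq00e Q c).2 x = ∑ v ∈ Q.M,
      (if ∃ h : v ∈ Q.M, c (Sum.inr ⟨v, h⟩) = 1 then ∑ p ∈ x, S.J p v else 0) := by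
    unfold Sys.JJ uq00e
    exact Finset.sum_filter _ _
  rw [h1, ← Finset.sum_coe_sort Q.M]
  refine Finset.sum_congr rfl fun v _ => ?_
  unfold uq00v
  simp only [Sum.elim_inr]
  rcases zm2 (c (Sum.inr v)) with h | h
  · rw [h, zero_mul, if_neg]
    rintro ⟨hv, h2⟩
    have h3 : (⟨v.1, hv⟩ : {v // v ∈ Q.M}) = v := Subtype.ext rfl
    rw [h3, h] at h2
    exact zero_ne_one h2
  · rw [h, one_mul, if_pos]
    exact ⟨v.2, h⟩

/-- the element of the sign -/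
noncomputable def uq00z (c : (Fin S.m ⊕ {v // v ∈ Q.M}) → ZMod 2) : El S :=
  ((uq00e Q c).1 + (S.l ⬝ᵥ S.tys (uq00e Q c).2) • S.l, (uq00e Q c).2)

theorem uq00_sgn (c : (Fin S.m ⊕ {v // v ∈ Q.M}) → ZMod 2) {x : Finset S.P}
    (h : Disjoint x Q.M) :
    ((sg (c ⬝ᵥ uq00v Q x) : ℤ) : ℝ) = uq00s (uq00z Q c) x := by
  unfold uq00s uq00z
  rw [uq00_dot]
  congr 2
  have h1 := S.JJ_recip (Finset.disjoint_of_subset_right (uq00e_sub Q c) h)
  rw [add_dotProduct, smul_dotProduct, smul_eq_mul]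
  have h2 : S.JJ x (uq00e Q c).2 + S.JJ x (uq00e Q c).2 = 0 := CharTwo.add_self_eq_zero _
  linear_combination h1 - h2

/-- a function of the label of a union -/
theorem uq00_expand (F : El S → ℝ) {a b g : Finset S.P} (hab : Disjoint a b)
    (hag : Disjoint a g) (hbg : Disjoint b g) (ha : Disjoint a Q.M) (hb : Disjoint b Q.M)
    (hg : Disjoint g Q.M) :
    F (Q.lab (a ∪ b ∪ g)) = ∑ c : (Fin S.m ⊕ {v // v ∈ Q.M}) → ZMod 2,
      uq00F (fun u => F (uq00e Q u)) c *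
        (uq00s (uq00z Q c) a * uq00s (uq00z Q c) b * uq00s (uq00z Q c) g) := by
  rw [uq00_lab]
  have h0 := uq00_fourier (fun u => F (uq00e Q u)) (uq00v Q (a ∪ b ∪ g))
  refine h0.trans (Finset.sum_congr rfl fun c _ => ?_)
  congr 1
  have h1 : Disjoint (a ∪ b ∪ g) Q.M :=
    Finset.disjoint_union_left.2 ⟨Finset.disjoint_union_left.2 ⟨ha, hb⟩, hg⟩
  rw [uq00_sgn Q c h1, uq00s_union _ (Finset.disjoint_union_left.2 ⟨hag, hbg⟩),
    uq00s_union _ hab]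

end lab

/-! ### levels -/

theorem uq00_clog {n k : ℕ} (hn : 1 ≤ n) (h : Nat.clog 2 n = k) : 2 ^ k ≤ 2 * n := by
  rcases Nat.eq_zero_or_pos k with rfl | hk
  · rw [pow_zero]; omega
  · have h1 : 1 < n := by
      by_contra h2
      have h3 : n = 1 := by omega
      rw [h3, Nat.clog_one_right] at h
      omega
    have h2 := Nat.pow_pred_clog_lt_self one_lt_two h1
    rw [h] at h2
    have h3 : 2 ^ k = 2 * 2 ^ k.pred := by
      rw [← pow_succ', Nat.pred_eq_sub_one]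
      congr 1
      omega
    omega

theorem uq00_pow_le {n k : ℕ} {s : ℝ} (hn : 1 ≤ n) (h : Nat.clog 2 n = k) (hs : 1 ≤ s)
    (hs2 : s ≤ 2) : (n : ℝ) ^ (-s) ≤ 4 * ((2 : ℝ) ^ k) ^ (-s) := by
  have h1 : (2 : ℝ) ^ k ≤ 2 * n := by exact_mod_cast uq00_clog hn h
  have hn0 : (0 : ℝ) < n := by exact_mod_cast hn
  have h2 : (2 * (n : ℝ)) ^ (-s) ≤ ((2 : ℝ) ^ k) ^ (-s) :=
    Real.rpow_le_rpow_of_nonpos (by positivity) h1 (by linarith)
  have h3 : (2 * (n : ℝ)) ^ (-s) = (2 : ℝ) ^ (-s) * (n : ℝ) ^ (-s) :=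
    Real.mul_rpow (by norm_num) hn0.le
  have h4 : (1 / 4 : ℝ) ≤ (2 : ℝ) ^ (-s) := by
    have h5 : (2 : ℝ) ^ (-(2 : ℝ)) ≤ (2 : ℝ) ^ (-s) :=
      Real.rpow_le_rpow_of_exponent_le (by norm_num) (by linarith)
    have h6 : (2 : ℝ) ^ (-(2 : ℝ)) = 1 / 4 := by
      rw [Real.rpow_neg (by norm_num)]
      norm_num
    rw [h6] at h5
    exact h5
  have h5 : 0 ≤ (n : ℝ) ^ (-s) := Real.rpow_nonneg hn0.le _
  rw [h3] at h2
  nlinarith

theorem uq00_two (k : ℕ) (s : ℝ) : ((2 : ℝ) ^ k) ^ (-s) * 2 ^ k = (2 : ℝ) ^ ((1 - s) * k) := by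
  have h1 : ((2 : ℝ) ^ k) ^ (-s) = (2 : ℝ) ^ (-s * k) := by
    rw [← Real.rpow_natCast, ← Real.rpow_mul (by norm_num)]
    congr 1
    ring
  rw [h1, ← Real.rpow_natCast, ← Real.rpow_add (by norm_num)]
  congr 1
  ring

open Classical in
theorem uq00_b1 (S : Sys) : ∃ C : ℝ, 0 ≤ C ∧ ∀ (k : ℕ) (s : ℝ), 1 ≤ s → s ≤ 2 →
    ∑ b ∈ S.bx (2 ^ k), (if Nat.clog 2 (S.nm b) = k then pw s b * S.hs b else 0) ≤
      C * (2 : ℝ) ^ ((1 - s) * k) := by
  obtain ⟨C, hC⟩ := hs_sum S 1 1 le_rfl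
  refine ⟨4 * |C|, by positivity, fun k s hs hs2 => ?_⟩
  have h1 : ∀ b ∈ S.bx (2 ^ k), (if Nat.clog 2 (S.nm b) = k then pw s b * S.hs b else 0) ≤
      4 * ((2 : ℝ) ^ k) ^ (-s) * S.hs b := by
    intro b _
    have h0 : 0 ≤ S.hs b := zero_le_one.trans (S.one_le_hs b)
    split_ifs with h
    · refine mul_le_mul_of_nonneg_right ?_ h0
      exact uq00_pow_le (S.one_le_nm b) h hs hs2
    · positivity
  refine (Finset.sum_le_sum h1).trans ?_
  rw [← Finset.mul_sum]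
  have h2 := hC (2 ^ k) (one_le_pow₀ (by norm_num))
  simp only [Nat.cast_one, one_pow, one_mul, pow_one, Nat.sub_self, pow_zero, mul_one] at h2
  have h3 : ∑ b ∈ S.bx (2 ^ k), S.hs b ≤ |C| * 2 ^ k :=
    h2.trans (mul_le_mul_of_nonneg_right (le_abs_self C) (by positivity))
  calc 4 * ((2 : ℝ) ^ k) ^ (-s) * ∑ b ∈ S.bx (2 ^ k), S.hs b
      ≤ 4 * ((2 : ℝ) ^ k) ^ (-s) * (|C| * 2 ^ k) :=
        mul_le_mul_of_nonneg_left h3 (by positivity)
    _ = 4 * |C| * (((2 : ℝ) ^ k) ^ (-s) * 2 ^ k) := by ring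
    _ = 4 * |C| * (2 : ℝ) ^ ((1 - s) * k) := by rw [uq00_two]

open Classical in
theorem uq00_b2 (h2 : SKHs) (S : Sys) : ∃ C : ℝ, 0 ≤ C ∧ ∀ (Q : Qd S) (k : ℕ) (s : ℝ),
    1 ≤ s → s ≤ 2 →
    ∑ g ∈ Q.gb (2 ^ k), (if Nat.clog 2 (S.nm (Q.shd g)) = k
      then pw s (Q.shd g) * S.hs (Q.shd g) else 0) ≤
      C * (S.nm Q.M : ℝ) * (2 : ℝ) ^ ((1 - s) * k) := by
  obtain ⟨C, hC⟩ := h2 S 1 one_pos
  refine ⟨4 * |C|, by positivity, fun Q k s hs hs2 => ?_⟩
  have h1 : ∀ g ∈ Q.gb (2 ^ k), (if Nat.clog 2 (S.nm (Q.shd g)) = k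
      then pw s (Q.shd g) * S.hs (Q.shd g) else 0) ≤
      4 * ((2 : ℝ) ^ k) ^ (-s) * S.hs (Q.shd g) := by
    intro g _
    have h0 : 0 ≤ S.hs (Q.shd g) := zero_le_one.trans (S.one_le_hs _)
    split_ifs with h
    · refine mul_le_mul_of_nonneg_right ?_ h0
      exact uq00_pow_le (S.one_le_nm _) h hs hs2
    · positivity
  refine (Finset.sum_le_sum h1).trans ?_
  rw [← Finset.mul_sum]
  have h2 := hC Q (2 ^ k) (one_le_pow₀ (by norm_num))
  rw [Real.rpow_one] at h2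
  have h3 : ∑ g ∈ Q.gb (2 ^ k), S.hs (Q.shd g) ≤ |C| * (S.nm Q.M : ℝ) * 2 ^ k := by
    refine h2.trans (mul_le_mul_of_nonneg_right ?_ (by positivity))
    exact mul_le_mul_of_nonneg_right (le_abs_self C) (by positivity)
  calc 4 * ((2 : ℝ) ^ k) ^ (-s) * ∑ g ∈ Q.gb (2 ^ k), S.hs (Q.shd g)
      ≤ 4 * ((2 : ℝ) ^ k) ^ (-s) * (|C| * (S.nm Q.M : ℝ) * 2 ^ k) :=
        mul_le_mul_of_nonneg_left h3 (by positivity)
    _ = 4 * |C| * (S.nm Q.M : ℝ) * (((2 : ℝ) ^ k) ^ (-s) * 2 ^ k) := by ring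
    _ = 4 * |C| * (S.nm Q.M : ℝ) * (2 : ℝ) ^ ((1 - s) * k) := by rw [uq00_two]

/-! ### the core estimate -/

/-- the condition on the three variables -/
def uq00c {S : Sys} (Q : Qd S) (i k l : ℕ) (a b : Finset S.P) (g : Finset Q.P) : Prop :=
  Nat.clog 2 (S.nm a) = i ∧ Nat.clog 2 (S.nm b) = k ∧ Nat.clog 2 (S.nm (Q.shd g)) = l ∧
    Disjoint a b ∧ Disjoint a (Q.shd g) ∧ Disjoint b (Q.shd g) ∧ Disjoint a Q.M ∧
    Disjoint b Q.M ∧ Disjoint (Q.shd g) Q.M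

theorem uq00c_symm {S : Sys} (Q : Qd S) (i k l : ℕ) (a b : Finset S.P) (g : Finset Q.P) :
    uq00c Q i k l a b g ↔ uq00c Q k i l b a g := by
  unfold uq00c
  constructor
  · rintro ⟨h1, h2, h3, h4, h5, h6, h7, h8, h9⟩
    exact ⟨h2, h1, h3, h4.symm, h6, h5, h8, h7, h9⟩
  · rintro ⟨h1, h2, h3, h4, h5, h6, h7, h8, h9⟩
    exact ⟨h2, h1, h3, h4.symm, h6, h5, h8, h7, h9⟩

open Classical in
theorem uq00_coreA (h0 : SKPt) (h2 : SKHs) (h3 : SKLin) (S : Sys) : ∃ C : ℝ, 0 ≤ C ∧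
    ∀ (Q : Qd S) (z : El S), z.2 ⊆ Q.M → (z.2.Nonempty ∨ z.1 ≠ 0) →
    ∀ (u : Finset S.P → ℝ) (w : Finset Q.P → ℝ), (∀ b, |u b| ≤ 1) → (∀ g, |w g| ≤ 1) →
    ∀ (i k l : ℕ) (s : ℝ), 1 ≤ s → s ≤ 2 →
    |∑ a ∈ S.bx (2 ^ i), ∑ b ∈ S.bx (2 ^ k), ∑ g ∈ Q.gb (2 ^ l),
      (if uq00c Q i k l a b g
        then pw s a * pw s b * pw s (Q.shd g) * (uq00s z a * u b * w g) else 0)| ≤
      C * (S.nm Q.M : ℝ) ^ (S.A + 2) * ((2 : ℝ) ^ ((1 - s) * i) * (2 : ℝ) ^ ((1 - s) * k) *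
        (2 : ℝ) ^ ((1 - s) * l)) * (2 : ℝ) ^ (-S.dl * i) := by
  obtain ⟨C0, hC0⟩ := h0 S 1 one_pos
  obtain ⟨C1, hC1, hb1⟩ := uq00_b1 S
  obtain ⟨C2, hC2, hb2⟩ := uq00_b2 h2 S
  obtain ⟨C3, hC3⟩ := h3 S
  refine ⟨|C3| * |C0| * C1 * C2, by positivity, fun Q z hzM hz u w hu hw i k l s hs hs2 => ?_⟩
  set nM : ℝ := (S.nm Q.M : ℝ) with hnM
  have hnM1 : 1 ≤ nM := S.one_le_nmr Q.M
  set e : ℝ := (2 : ℝ) ^ ((1 - s - S.dl) * i) with he
  have he0 : 0 ≤ e := Real.rpow_nonneg (by norm_num) _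
  -- the inner sum
  have hin : ∀ b ∈ S.bx (2 ^ k), ∀ g ∈ Q.gb (2 ^ l),
      |∑ a ∈ S.bx (2 ^ i), (if uq00c Q i k l a b g
        then pw s a * pw s b * pw s (Q.shd g) * (uq00s z a * u b * w g) else 0)| ≤
      (|C3| * nM ^ S.A * (|C0| * nM) * e) *
        ((if Nat.clog 2 (S.nm b) = k then pw s b * S.hs b else 0) *
        (if Nat.clog 2 (S.nm (Q.shd g)) = l then pw s (Q.shd g) * S.hs (Q.shd g) else 0)) := by
    intro b _ g _
    have hpb : 0 ≤ pw s b := Real.rpow_nonneg (Nat.cast_nonneg _) _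
    have hpg : 0 ≤ pw s (Q.shd g) := Real.rpow_nonneg (Nat.cast_nonneg _) _
    have hhb : 0 ≤ S.hs b := zero_le_one.trans (S.one_le_hs b)
    have hhg : 0 ≤ S.hs (Q.shd g) := zero_le_one.trans (S.one_le_hs _)
    by_cases hc : Nat.clog 2 (S.nm b) = k ∧ Nat.clog 2 (S.nm (Q.shd g)) = l ∧
        Disjoint b (Q.shd g) ∧ Disjoint b Q.M ∧ Disjoint (Q.shd g) Q.M
    · obtain ⟨c1, c2, c3, c4, c5⟩ := hc
      have hrw : ∀ a ∈ S.bx (2 ^ i), (if uq00c Q i k l a b g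
          then pw s a * pw s b * pw s (Q.shd g) * (uq00s z a * u b * w g) else 0) =
          (pw s b * pw s (Q.shd g) * (u b * w g)) *
          (if Nat.clog 2 (S.nm a) = i ∧ Disjoint a (z.2 ∪ (b ∪ Q.shd g ∪ Q.M))
            then ((sg (S.JJ a z.2 + z.1 ⬝ᵥ S.tys a) : ℤ) : ℝ) * (S.nm a : ℝ) ^ (-s) else 0) := by
        intro a _
        have hiff : uq00c Q i k l a b g ↔
            (Nat.clog 2 (S.nm a) = i ∧ Disjoint a (z.2 ∪ (b ∪ Q.shd g ∪ Q.M))) := by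
          unfold uq00c
          rw [Finset.disjoint_union_right, Finset.disjoint_union_right,
            Finset.disjoint_union_right]
          constructor
          · rintro ⟨d1, _, _, d4, d5, _, d7, _, _⟩
            exact ⟨d1, Finset.disjoint_of_subset_right hzM d7, ⟨d4, d5⟩, d7⟩
          · rintro ⟨d1, _, ⟨d4, d5⟩, d7⟩
            exact ⟨d1, c1, c2, d4, d5, c3, d7, c4, c5⟩
        by_cases hh : uq00c Q i k l a b g
        · rw [if_pos hh, if_pos (hiff.1 hh)]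
          unfold uq00s pw
          ring
        · rw [if_neg hh, if_neg (fun h => hh (hiff.2 h)), mul_zero]
      rw [Finset.sum_congr rfl hrw, ← Finset.mul_sum, abs_mul, if_pos c1, if_pos c2]
      have h5 := hC3 z.2 (b ∪ Q.shd g ∪ Q.M) z.1 hz i s hs hs2
      have h6 : |pw s b * pw s (Q.shd g) * (u b * w g)| ≤ pw s b * pw s (Q.shd g) := by
        rw [abs_mul, abs_mul, abs_mul, abs_of_nonneg hpb, abs_of_nonneg hpg]
        have h7 : |u b| * |w g| ≤ 1 := mul_le_one₀ (hu b) (abs_nonneg _) (hw g)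
        exact mul_le_of_le_one_right (mul_nonneg hpb hpg) h7
      have h7 : (S.nm z.2 : ℝ) ^ S.A ≤ nM ^ S.A :=
        Real.rpow_le_rpow (Nat.cast_nonneg _) (by rw [hnM]; exact_mod_cast S.nm_mono hzM)
          S.A_nonneg
      have h8 : S.hs (b ∪ Q.shd g ∪ Q.M) ≤ S.hs b * S.hs (Q.shd g) * (|C0| * nM) := by
        refine (S.hs_union_le _ _).trans ?_
        have h9 : S.hs Q.M ≤ |C0| * nM := by
          have h10 := (hC0 Q.M).1
          rw [Real.rpow_one] at h10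
          exact h10.trans (mul_le_mul_of_nonneg_right (le_abs_self C0) (by positivity))
        exact mul_le_mul (S.hs_union_le _ _) h9 (zero_le_one.trans (S.one_le_hs _))
          (mul_nonneg hhb hhg)
      have h9 : C3 * (S.nm z.2 : ℝ) ^ S.A * S.hs (b ∪ Q.shd g ∪ Q.M) * e ≤
          |C3| * nM ^ S.A * (S.hs b * S.hs (Q.shd g) * (|C0| * nM)) * e := by
        refine mul_le_mul_of_nonneg_right ?_ he0
        refine mul_le_mul ?_ h8 (zero_le_one.trans (S.one_le_hs _)) (by positivity)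
        exact mul_le_mul (le_abs_self _) h7 (by positivity) (abs_nonneg _)
      calc _ ≤ (pw s b * pw s (Q.shd g)) *
            (|C3| * nM ^ S.A * (S.hs b * S.hs (Q.shd g) * (|C0| * nM)) * e) :=
            mul_le_mul h6 (h5.trans h9) (abs_nonneg _) (mul_nonneg hpb hpg)
        _ = _ := by ring
    · have hz0 : ∀ a ∈ S.bx (2 ^ i), (if uq00c Q i k l a b g
          then pw s a * pw s b * pw s (Q.shd g) * (uq00s z a * u b * w g) else 0) = 0 := by
        intro a _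
        rw [if_neg]
        rintro ⟨_, d2, d3, _, _, d6, _, d8, d9⟩
        exact hc ⟨d2, d3, d6, d8, d9⟩
      rw [Finset.sum_eq_zero hz0, abs_zero]
      refine mul_nonneg (by positivity) (mul_nonneg ?_ ?_)
      · split_ifs
        · exact mul_nonneg hpb hhb
        · exact le_rfl
      · split_ifs
        · exact mul_nonneg hpg hhg
        · exact le_rfl
  have hswap : ∑ a ∈ S.bx (2 ^ i), ∑ b ∈ S.bx (2 ^ k), ∑ g ∈ Q.gb (2 ^ l),
      (if uq00c Q i k l a b g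
        then pw s a * pw s b * pw s (Q.shd g) * (uq00s z a * u b * w g) else 0) =
      ∑ b ∈ S.bx (2 ^ k), ∑ g ∈ Q.gb (2 ^ l), ∑ a ∈ S.bx (2 ^ i),
      (if uq00c Q i k l a b g
        then pw s a * pw s b * pw s (Q.shd g) * (uq00s z a * u b * w g) else 0) := by
    rw [Finset.sum_comm]
    exact Finset.sum_congr rfl fun b _ => Finset.sum_comm
  rw [hswap]
  have hK0 : 0 ≤ |C3| * nM ^ S.A * (|C0| * nM) * e := by positivity
  calc |∑ b ∈ S.bx (2 ^ k), ∑ g ∈ Q.gb (2 ^ l), ∑ a ∈ S.bx (2 ^ i),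
      (if uq00c Q i k l a b g
        then pw s a * pw s b * pw s (Q.shd g) * (uq00s z a * u b * w g) else 0)|
      ≤ ∑ b ∈ S.bx (2 ^ k), ∑ g ∈ Q.gb (2 ^ l), (|C3| * nM ^ S.A * (|C0| * nM) * e) *
        ((if Nat.clog 2 (S.nm b) = k then pw s b * S.hs b else 0) *
        (if Nat.clog 2 (S.nm (Q.shd g)) = l then pw s (Q.shd g) * S.hs (Q.shd g) else 0)) := by
        refine (Finset.abs_sum_le_sum_abs _ _).trans (Finset.sum_le_sum fun b hb => ?_)
        exact (Finset.abs_sum_le_sum_abs _ _).trans (Finset.sum_le_sum fun g hg => hin b hb g hg)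
    _ = (|C3| * nM ^ S.A * (|C0| * nM) * e) *
        ((∑ b ∈ S.bx (2 ^ k), (if Nat.clog 2 (S.nm b) = k then pw s b * S.hs b else 0)) *
        ∑ g ∈ Q.gb (2 ^ l), (if Nat.clog 2 (S.nm (Q.shd g)) = l
          then pw s (Q.shd g) * S.hs (Q.shd g) else 0)) := by
        rw [Finset.sum_mul_sum, Finset.mul_sum]
        exact Finset.sum_congr rfl fun b _ => (Finset.mul_sum _ _ _).symm
    _ ≤ (|C3| * nM ^ S.A * (|C0| * nM) * e) *
        ((C1 * (2 : ℝ) ^ ((1 - s) * k)) * (C2 * nM * (2 : ℝ) ^ ((1 - s) * l))) := by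
        refine mul_le_mul_of_nonneg_left ?_ hK0
        refine mul_le_mul (hb1 k s hs hs2) (hb2 Q l s hs hs2) ?_ (by positivity)
        refine Finset.sum_nonneg fun g _ => ?_
        split_ifs
        · exact mul_nonneg (Real.rpow_nonneg (Nat.cast_nonneg _) _)
            (zero_le_one.trans (S.one_le_hs _))
        · exact le_rfl
    _ = |C3| * |C0| * C1 * C2 * nM ^ (S.A + 2) * ((2 : ℝ) ^ ((1 - s) * i) *
        (2 : ℝ) ^ ((1 - s) * k) * (2 : ℝ) ^ ((1 - s) * l)) * (2 : ℝ) ^ (-S.dl * i) := by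
        have h11 : e = (2 : ℝ) ^ ((1 - s) * i) * (2 : ℝ) ^ (-S.dl * i) := by
          rw [he, ← Real.rpow_add (by norm_num)]
          congr 1
          ring
        have h12 : nM ^ (S.A + 2) = nM ^ S.A * (nM * nM) := by
          rw [Real.rpow_add (by linarith)]
          congr 1
          rw [show (2 : ℝ) = ((2 : ℕ) : ℝ) by norm_num, Real.rpow_natCast]
          ring
        rw [h11, h12]
        ring

open Classical in
/-- the core estimate for two signs which are not both trivial -/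
theorem uq00_core (h0 : SKPt) (h2 : SKHs) (h3 : SKLin) (S : Sys) : ∃ C : ℝ, 0 ≤ C ∧
    ∀ (Q : Qd S) (z z' : El S), z.2 ⊆ Q.M → z'.2 ⊆ Q.M →
    ((z.2.Nonempty ∨ z.1 ≠ 0) ∨ (z'.2.Nonempty ∨ z'.1 ≠ 0)) →
    ∀ (w : Finset Q.P → ℝ), (∀ g, |w g| ≤ 1) →
    ∀ (i k l : ℕ) (s : ℝ), 1 ≤ s → s ≤ 2 →
    |∑ a ∈ S.bx (2 ^ i), ∑ b ∈ S.bx (2 ^ k), ∑ g ∈ Q.gb (2 ^ l),
      (if uq00c Q i k l a b g
        then pw s a * pw s b * pw s (Q.shd g) * (uq00s z a * uq00s z' b * w g) else 0)| ≤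
      C * (S.nm Q.M : ℝ) ^ (S.A + 2) * ((2 : ℝ) ^ ((1 - s) * i) * (2 : ℝ) ^ ((1 - s) * k) *
        (2 : ℝ) ^ ((1 - s) * l)) * (2 : ℝ) ^ (-S.dl * min (i : ℝ) k) := by
  obtain ⟨C, hC, hA⟩ := uq00_coreA h0 h2 h3 S
  refine ⟨C, hC, fun Q z z' hz hz' hne w hw i k l s hs hs2 => ?_⟩
  have hd := S.dl_pos
  rcases hne with hne | hne
  · refine (hA Q z hz hne (fun b => uq00s z' b) w (fun b => (uq00s_abs z' b).le) hw i k l s
      hs hs2).trans ?_
    refine mul_le_mul_of_nonneg_left ?_ (by positivity)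
    refine Real.rpow_le_rpow_of_exponent_le (by norm_num) ?_
    have h1 : min (i : ℝ) k ≤ i := min_le_left _ _
    nlinarith
  · have h4 := hA Q z' hz' hne (fun a => uq00s z a) w (fun a => (uq00s_abs z a).le) hw k i l s
      hs hs2
    have h5 : ∑ a ∈ S.bx (2 ^ i), ∑ b ∈ S.bx (2 ^ k), ∑ g ∈ Q.gb (2 ^ l),
        (if uq00c Q i k l a b g
          then pw s a * pw s b * pw s (Q.shd g) * (uq00s z a * uq00s z' b * w g) else 0) =
        ∑ b ∈ S.bx (2 ^ k), ∑ a ∈ S.bx (2 ^ i), ∑ g ∈ Q.gb (2 ^ l),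
        (if uq00c Q k i l b a g
          then pw s b * pw s a * pw s (Q.shd g) * (uq00s z' b * uq00s z a * w g) else 0) := by
      rw [Finset.sum_comm]
      refine Finset.sum_congr rfl fun b _ => Finset.sum_congr rfl fun a _ =>
        Finset.sum_congr rfl fun g _ => ?_
      by_cases hh : uq00c Q i k l a b g
      · rw [if_pos hh, if_pos ((uq00c_symm Q i k l a b g).1 hh)]
        ring
      · rw [if_neg hh, if_neg (fun h => hh ((uq00c_symm Q i k l a b g).2 h))]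
    rw [h5]
    refine h4.trans ?_
    have h6 : (2 : ℝ) ^ (-S.dl * k) ≤ (2 : ℝ) ^ (-S.dl * min (i : ℝ) k) := by
      refine Real.rpow_le_rpow_of_exponent_le (by norm_num) ?_
      have h1 : min (i : ℝ) k ≤ k := min_le_right _ _
      nlinarith
    calc C * (S.nm Q.M : ℝ) ^ (S.A + 2) * ((2 : ℝ) ^ ((1 - s) * k) * (2 : ℝ) ^ ((1 - s) * i) *
        (2 : ℝ) ^ ((1 - s) * l)) * (2 : ℝ) ^ (-S.dl * k)
        ≤ C * (S.nm Q.M : ℝ) ^ (S.A + 2) * ((2 : ℝ) ^ ((1 - s) * k) *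
          (2 : ℝ) ^ ((1 - s) * i) * (2 : ℝ) ^ ((1 - s) * l)) *
          (2 : ℝ) ^ (-S.dl * min (i : ℝ) k) := mul_le_mul_of_nonneg_left h6 (by positivity)
      _ = _ := by ring

/-! ### the reduction -/

section red

variable {S : Sys} (Q : Qd S)

theorem uq00_shd_empty : Q.shd ∅ = ∅ := by
  unfold Qd.shd
  exact Finset.image_empty _

theorem uq00_empty {g : Finset Q.P} (h : Nat.clog 2 (S.nm (Q.shd g)) = 0) : g = ∅ := by
  have h1 : S.nm (Q.shd g) ≤ 1 := by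
    have h2 := Nat.le_pow_clog one_lt_two (S.nm (Q.shd g))
    rw [h, pow_zero] at h2
    exact h2
  have h2 : S.nm (Q.shd g) = 1 := le_antisymm h1 (S.one_le_nm _)
  have h3 := S.nm_eq_one.1 h2
  unfold Qd.shd at h3
  exact Finset.image_eq_empty.1 h3

/-- the configuration of three variables -/
def uq00m (a b : Finset S.P) (g : Finset Q.P) : Cf Q := ⟨a, b, g, ∅, ∅⟩

theorem uq00_sd (a b : Finset S.P) (g : Finset Q.P) :
    (uq00m Q a b g).sd = ![a, b, Q.shd g, ∅, ∅] := by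
  unfold Cf.sd uq00m
  rw [uq00_shd_empty]

theorem uq00_ok {j : Fin 5 → ℕ} (h3 : j 3 = 0) (h4 : j 4 = 0) (a b : Finset S.P)
    (g : Finset Q.P) :
    ((uq00m Q a b g).Ok ∧ ∀ i, (uq00m Q a b g).lv i = j i) ↔
      (uq00c Q (j 0) (j 1) (j 2) a b g ∧ Q.Gd g) := by
  unfold Cf.lv uq00c
  constructor
  · rintro ⟨hO, hl⟩
    have hdj := hO.dj
    have hdM := hO.dM
    rw [uq00_sd] at hdj hdM hl
    refine ⟨⟨hl 0, hl 1, hl 2, hdj 0 1 (by decide), hdj 0 2 (by decide), hdj 1 2 (by decide),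
      hdM 0, hdM 1, hdM 2⟩, hO.gqq⟩
  · rintro ⟨⟨d1, d2, d3, d4, d5, d6, d7, d8, d9⟩, hg⟩
    have hE : ∀ γ : Finset Q.P, γ = ∅ → Q.Gd γ := by
      rintro γ rfl a ha
      exact absurd ha (Finset.notMem_empty a)
    refine ⟨⟨?_, ?_, hg, hE _ rfl, hE _ rfl⟩, ?_⟩
    · rw [uq00_sd]
      intro i k hik
      have e1 := Finset.disjoint_empty_left a
      fin_cases i <;> fin_cases k <;>
        first
          | exact absurd rfl hik
          | exact Finset.disjoint_empty_right _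
          | exact Finset.disjoint_empty_left _
          | exact d4
          | exact d4.symm
          | exact d5
          | exact d5.symm
          | exact d6
          | exact d6.symm
    · rw [uq00_sd]
      intro i
      fin_cases i
      · exact d7
      · exact d8
      · exact d9
      · exact Finset.disjoint_empty_left _
      · exact Finset.disjoint_empty_left _
    · rw [uq00_sd]
      intro i
      fin_cases i
      · exact d1
      · exact d2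
      · exact d3
      · exact (Nat.clog_one_right 2).trans h3.symm
      · exact (Nat.clog_one_right 2).trans h4.symm

theorem uq00_le {k : ℕ} {n : ℕ} (h : Nat.clog 2 n = k) : (n : ℝ) ≤ 2 ^ k := by
  have h1 : n ≤ 2 ^ Nat.clog 2 n := Nat.le_pow_clog one_lt_two _
  rw [h] at h1
  exact_mod_cast h1

open Classical in
theorem uq00_TD {j : Fin 5 → ℕ} (h3 : j 3 = 0) (h4 : j 4 = 0) (f : Cf Q → ℝ) :
    ∑ x ∈ Q.box j, f x = ∑ t ∈ S.bx (2 ^ j 0) ×ˢ S.bx (2 ^ j 1) ×ˢ Q.gb (2 ^ j 2),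
      (if uq00c Q (j 0) (j 1) (j 2) t.1 t.2.1 t.2.2 then f (uq00m Q t.1 t.2.1 t.2.2) else 0) := by
  rw [← Finset.sum_filter]
  have hmem : ∀ x : Cf Q, x ∈ Q.box j ↔ x.Ok ∧ ∀ i, x.lv i = j i := by
    intro x
    unfold Qd.box
    rw [Set.Finite.mem_toFinset]
    rfl
  have hmk : ∀ x ∈ Q.box j, uq00m Q x.q0 x.q12 x.qq = x := by
    intro x hx
    have h5 := ((hmem x).1 hx).2
    have h6 : x.g0 = ∅ := by
      refine uq00_empty Q ?_
      have h7 := h5 3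
      rw [h3] at h7
      exact h7
    have h8 : x.g1 = ∅ := by
      refine uq00_empty Q ?_
      have h7 := h5 4
      rw [h4] at h7
      exact h7
    exact Cf.ext rfl rfl rfl h6.symm h8.symm
  refine Finset.sum_nbij' (fun x => (x.q0, x.q12, x.qq)) (fun t => uq00m Q t.1 t.2.1 t.2.2)
    ?_ ?_ hmk ?_ ?_
  · intro x hx
    have h5 : (uq00m Q x.q0 x.q12 x.qq).Ok ∧ ∀ i, (uq00m Q x.q0 x.q12 x.qq).lv i = j i := by
      rw [hmk x hx]
      exact (hmem x).1 hx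
    have h6 := (uq00_ok Q h3 h4 x.q0 x.q12 x.qq).1 h5
    rw [Finset.mem_filter, Finset.mem_product, Finset.mem_product]
    refine ⟨⟨S.mem_bx.2 (uq00_le h6.1.1), S.mem_bx.2 (uq00_le h6.1.2.1),
      Q.mem_gb.2 ⟨h6.2, uq00_le h6.1.2.2.1⟩⟩, h6.1⟩
  · intro t ht
    rw [Finset.mem_filter, Finset.mem_product, Finset.mem_product] at ht
    rw [hmem]
    exact (uq00_ok Q h3 h4 t.1 t.2.1 t.2.2).2 ⟨ht.2, (Q.mem_gb.1 ht.1.2.2).1⟩
  · intro t _
    rfl
  · intro x hx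
    show f x = f (uq00m Q x.q0 x.q12 x.qq)
    rw [hmk x hx]

open Classical in
theorem uq00_tm {j : Fin 5 → ℕ} (h3 : j 3 = 0) (h4 : j 4 = 0) (Θ : Q.G → El S → El S → ℝ)
    {a b : Finset S.P} {g : Finset Q.P} (hc : uq00c Q (j 0) (j 1) (j 2) a b g)
    (hg : Q.Gd g) :
    (uq00m Q a b g).tm Θ = ∑ γ ∈ Q.B ∅, ∑ c ∈ Q.els, Θ γ c (Q.lab (a ∪ b ∪ Q.shd g)) *
      ((sg (∑ p ∈ b, Q.ns γ p + ∑ v ∈ g, Q.sy γ v) : ℤ) : ℝ) := by
  have hO := ((uq00_ok Q h3 h4 a b g).2 ⟨hc, hg⟩).1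
  unfold Cf.tm
  rw [if_pos hO]
  have h5 : (uq00m Q a b g).g = ∅ := Finset.union_empty _
  rw [h5]
  refine Finset.sum_congr rfl fun γ _ => Finset.sum_congr rfl fun c _ => ?_
  have h6 : (uq00m Q a b g).E γ c = ∑ p ∈ b, Q.ns γ p + ∑ v ∈ g, Q.sy γ v := by
    unfold Cf.E uq00m
    rw [Finset.sum_empty, add_zero]
  rw [h6]
  rfl

end red

theorem suq00_of (h0 : SKPt) (h1 : SKCard) (h2 : SKHs) (h3 : SKLin) : SUQ00 := by
  classical
  intro S
  obtain ⟨C, hC, hcore⟩ := uq00_core h0 h2 h3 S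
  refine ⟨16 ^ S.m * C, S.A + 6, S.dl, by linarith [S.A_nonneg], S.dl_pos, ?_⟩
  intro Q hL Θ j s hΘ hNz hs hs2 hj3 hj4
  set nM : ℝ := (S.nm Q.M : ℝ) with hnM
  have hnM1 : 1 ≤ nM := S.one_le_nmr Q.M
  set V : ℝ := (2 : ℝ) ^ ((1 - s) * (j 0 : ℝ)) * (2 : ℝ) ^ ((1 - s) * (j 1 : ℝ)) *
    (2 : ℝ) ^ ((1 - s) * (j 2 : ℝ)) with hV
  have hV0 : 0 ≤ V := by positivity
  set Z : ℝ := (2 : ℝ) ^ (-S.dl * min (j 0 : ℝ) (j 1)) with hZ
  have hZ0 : 0 ≤ Z := by positivity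
  set K : ℝ := C * nM ^ (S.A + 2) * V * Z with hK
  have hK0 : 0 ≤ K := by positivity
  set I := S.bx (2 ^ j 0) ×ˢ S.bx (2 ^ j 1) ×ˢ Q.gb (2 ^ j 2) with hI
  -- the sum for fixed `γ`, `c`
  have hT : ∀ γ ∈ Q.B ∅, ∀ c ∈ Q.els,
      |∑ t ∈ I, (if uq00c Q (j 0) (j 1) (j 2) t.1 t.2.1 t.2.2
        then pw s t.1 * pw s t.2.1 * pw s (Q.shd t.2.2) *
          (Θ γ c (Q.lab (t.1 ∪ t.2.1 ∪ Q.shd t.2.2)) *
          ((sg (∑ p ∈ t.2.1, Q.ns γ p + ∑ v ∈ t.2.2, Q.sy γ v) : ℤ) : ℝ)) else 0)| ≤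
      2 ^ (S.m + Q.M.card) * K := by
    intro γ hγ c _
    by_cases hnu : (Q.nu γ).1 = 0 ∧ (Q.nu γ).2 = ∅
    · rw [Finset.sum_eq_zero, abs_zero]
      · positivity
      · intro t _
        rw [hNz γ hγ hnu.1 hnu.2, zero_mul, mul_zero, ite_self]
    · set e : El S := Q.nu γ with he
      -- rewrite the term
      have hterm : ∀ t ∈ I, (if uq00c Q (j 0) (j 1) (j 2) t.1 t.2.1 t.2.2
          then pw s t.1 * pw s t.2.1 * pw s (Q.shd t.2.2) *
            (Θ γ c (Q.lab (t.1 ∪ t.2.1 ∪ Q.shd t.2.2)) *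
            ((sg (∑ p ∈ t.2.1, Q.ns γ p + ∑ v ∈ t.2.2, Q.sy γ v) : ℤ) : ℝ)) else 0) =
          ∑ ψ : (Fin S.m ⊕ {v // v ∈ Q.M}) → ZMod 2,
            uq00F (fun u => Θ γ c (uq00e Q u)) ψ *
            (if uq00c Q (j 0) (j 1) (j 2) t.1 t.2.1 t.2.2
              then pw s t.1 * pw s t.2.1 * pw s (Q.shd t.2.2) *
                (uq00s (uq00z Q ψ) t.1 * uq00s (uq00a (uq00z Q ψ) e) t.2.1 *
                  (uq00s (uq00z Q ψ) (Q.shd t.2.2) *
                    ((sg (∑ v ∈ t.2.2, Q.sy γ v) : ℤ) : ℝ))) else 0) := by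
        intro t _
        by_cases hc : uq00c Q (j 0) (j 1) (j 2) t.1 t.2.1 t.2.2
        · obtain ⟨d1, d2, d3, d4, d5, d6, d7, d8, d9⟩ := id hc
          rw [if_pos hc, uq00_expand Q (Θ γ c) d4 d5 d6 d7 d8 d9]
          have hns : ∑ p ∈ t.2.1, Q.ns γ p =
              S.JJ t.2.1 e.2 + e.1 ⬝ᵥ S.tys t.2.1 := by
            rw [← S.sum_ex]
            refine Finset.sum_congr rfl fun p hp => ?_
            have h5 : p ∉ Q.M := Finset.disjoint_left.1 d8 hp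
            have h6 : p ∉ Q.shd ∅ := by
              rw [uq00_shd_empty]
              exact Finset.notMem_empty p
            have h7 : Q.Gd ∅ := fun a ha => absurd ha (Finset.notMem_empty a)
            rw [hL.ns_eq ∅ h7 γ hγ p h5 h6, uq00_shd_empty, Finset.empty_union]
          rw [hns, sg_add, Int.cast_mul, Finset.sum_mul, Finset.mul_sum]
          refine Finset.sum_congr rfl fun ψ _ => ?_
          rw [if_pos hc, ← uq00s_mul]
          ring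
        · rw [if_neg hc, Finset.sum_eq_zero]
          intro ψ _
          rw [if_neg hc, mul_zero]
      rw [Finset.sum_congr rfl hterm, Finset.sum_comm]
      refine (Finset.abs_sum_le_sum_abs _ _).trans ?_
      have hψ : ∀ ψ ∈ (Finset.univ : Finset ((Fin S.m ⊕ {v // v ∈ Q.M}) → ZMod 2)),
          |∑ t ∈ I, uq00F (fun u => Θ γ c (uq00e Q u)) ψ *
            (if uq00c Q (j 0) (j 1) (j 2) t.1 t.2.1 t.2.2
              then pw s t.1 * pw s t.2.1 * pw s (Q.shd t.2.2) *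
                (uq00s (uq00z Q ψ) t.1 * uq00s (uq00a (uq00z Q ψ) e) t.2.1 *
                  (uq00s (uq00z Q ψ) (Q.shd t.2.2) *
                    ((sg (∑ v ∈ t.2.2, Q.sy γ v) : ℤ) : ℝ))) else 0)| ≤ K := by
        intro ψ _
        rw [← Finset.mul_sum, abs_mul]
        have h5 : |uq00F (fun u => Θ γ c (uq00e Q u)) ψ| ≤ 1 :=
          uq00_F_le _ (fun u => hΘ γ c _) ψ
        refine (mul_le_of_le_one_left (abs_nonneg _) h5).trans ?_
        have hz1 : (uq00z Q ψ).2 ⊆ Q.M := uq00e_sub Q ψ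
        have hz2 : (uq00a (uq00z Q ψ) e).2 ⊆ Q.M := by
          refine (symmDiff_le_sup (a := (uq00z Q ψ).2) (b := e.2)).trans ?_
          exact Finset.union_subset hz1 (Q.nu_sub γ)
        have hne : ((uq00z Q ψ).2.Nonempty ∨ (uq00z Q ψ).1 ≠ 0) ∨
            ((uq00a (uq00z Q ψ) e).2.Nonempty ∨ (uq00a (uq00z Q ψ) e).1 ≠ 0) := by
          by_contra hcon
          push Not at hcon
          obtain ⟨⟨g1, g2⟩, g3, g4⟩ := hcon
          have g1' : (uq00z Q ψ).2 = ∅ := g1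
          have g3' : symmDiff (uq00z Q ψ).2 e.2 = ∅ := g3
          have g4' : (uq00z Q ψ).1 + e.1 = 0 := g4
          rw [g2, zero_add] at g4'
          have g5 : e.2 = ∅ := by
            have g6 : (uq00z Q ψ).2 = e.2 := symmDiff_eq_bot.1 g3'
            rw [← g6, g1']
          exact hnu ⟨g4', g5⟩
        have h6 := hcore Q (uq00z Q ψ) (uq00a (uq00z Q ψ) e) hz1 hz2 hne
          (fun g => uq00s (uq00z Q ψ) (Q.shd g) * ((sg (∑ v ∈ g, Q.sy γ v) : ℤ) : ℝ))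
          (fun g => by rw [abs_mul, uq00s_abs, abs_sgr, mul_one]) (j 0) (j 1) (j 2) s hs hs2
        rw [hI, Finset.sum_product]
        refine le_trans (le_of_eq ?_) h6
        congr 1
        refine Finset.sum_congr rfl fun a _ => ?_
        rw [Finset.sum_product]
      refine (Finset.sum_le_card_nsmul _ _ K hψ).trans ?_
      rw [nsmul_eq_mul, Finset.card_univ, Fintype.card_fun, Fintype.card_sum, Fintype.card_fin,
        Fintype.card_coe, ZMod.card]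
      push_cast
      exact le_rfl
  -- the total
  have hTD : Q.TD Θ (Wp Q s) j = ∑ γ ∈ Q.B ∅, ∑ c ∈ Q.els,
      ∑ t ∈ I, (if uq00c Q (j 0) (j 1) (j 2) t.1 t.2.1 t.2.2
        then pw s t.1 * pw s t.2.1 * pw s (Q.shd t.2.2) *
          (Θ γ c (Q.lab (t.1 ∪ t.2.1 ∪ Q.shd t.2.2)) *
          ((sg (∑ p ∈ t.2.1, Q.ns γ p + ∑ v ∈ t.2.2, Q.sy γ v) : ℤ) : ℝ)) else 0) := by
    unfold Qd.TD
    rw [uq00_TD Q hj3 hj4]
    have h5 : ∀ t ∈ I, (if uq00c Q (j 0) (j 1) (j 2) t.1 t.2.1 t.2.2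
        then (Wp Q s).val (uq00m Q t.1 t.2.1 t.2.2) * (uq00m Q t.1 t.2.1 t.2.2).tm Θ else 0) =
        ∑ γ ∈ Q.B ∅, ∑ c ∈ Q.els, (if uq00c Q (j 0) (j 1) (j 2) t.1 t.2.1 t.2.2
        then pw s t.1 * pw s t.2.1 * pw s (Q.shd t.2.2) *
          (Θ γ c (Q.lab (t.1 ∪ t.2.1 ∪ Q.shd t.2.2)) *
          ((sg (∑ p ∈ t.2.1, Q.ns γ p + ∑ v ∈ t.2.2, Q.sy γ v) : ℤ) : ℝ)) else 0) := by
      intro t ht
      by_cases hc : uq00c Q (j 0) (j 1) (j 2) t.1 t.2.1 t.2.2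
      · rw [if_pos hc]
        have hg : Q.Gd t.2.2 := by
          rw [hI, Finset.mem_product, Finset.mem_product] at ht
          exact (Q.mem_gb.1 ht.2.2).1
        have hval : (Wp Q s).val (uq00m Q t.1 t.2.1 t.2.2) =
            pw s t.1 * pw s t.2.1 * pw s (Q.shd t.2.2) := by
          have h6 : pw s (Q.shd ∅) = 1 := by
            unfold pw
            rw [uq00_shd_empty, S.nm_empty, Nat.cast_one, Real.one_rpow]
          show pw s t.1 * pw s t.2.1 * pw s (Q.shd t.2.2) * pw s (Q.shd ∅) * pw s (Q.shd ∅) = _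
          rw [h6, mul_one, mul_one]
        rw [hval, uq00_tm Q hj3 hj4 Θ hc hg, Finset.mul_sum]
        refine Finset.sum_congr rfl fun γ _ => ?_
        rw [Finset.mul_sum]
        refine Finset.sum_congr rfl fun c _ => ?_
        rw [if_pos hc]
      · rw [if_neg hc, Finset.sum_eq_zero]
        intro γ _
        rw [Finset.sum_eq_zero]
        intro c _
        rw [if_neg hc]
    rw [Finset.sum_congr rfl h5, Finset.sum_comm]
    refine Finset.sum_congr rfl fun γ _ => ?_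
    rw [Finset.sum_comm]
  rw [hTD]
  have hn : (2 : ℝ) ^ Q.M.card ≤ nM := by
    rw [hnM]
    exact_mod_cast S.pow_card_le_nm Q.M
  have hB : ((Q.B ∅).card : ℝ) ≤ 4 ^ (S.m + Q.M.card) := by exact_mod_cast Q.card_B ∅
  have hels : (Q.els.card : ℝ) = 2 ^ (S.m + Q.M.card) := by
    unfold Qd.els
    rw [Finset.card_product, Finset.card_univ, Fintype.card_fun, ZMod.card, Fintype.card_fin,
      Finset.card_powerset, pow_add]
    push_cast
    rfl
  have hvol : vol j ^ (1 - s) = V := by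
    unfold vol
    rw [Fin.sum_univ_five, hj3, hj4, add_zero, add_zero, ← Real.rpow_natCast,
      ← Real.rpow_mul (by norm_num), hV, ← Real.rpow_add (by norm_num),
      ← Real.rpow_add (by norm_num)]
    congr 1
    push_cast
    ring
  calc |∑ γ ∈ Q.B ∅, ∑ c ∈ Q.els,
      ∑ t ∈ I, (if uq00c Q (j 0) (j 1) (j 2) t.1 t.2.1 t.2.2
        then pw s t.1 * pw s t.2.1 * pw s (Q.shd t.2.2) *
          (Θ γ c (Q.lab (t.1 ∪ t.2.1 ∪ Q.shd t.2.2)) *
          ((sg (∑ p ∈ t.2.1, Q.ns γ p + ∑ v ∈ t.2.2, Q.sy γ v) : ℤ) : ℝ)) else 0)|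
      ≤ ∑ γ ∈ Q.B ∅, ∑ c ∈ Q.els, 2 ^ (S.m + Q.M.card) * K := by
        refine (Finset.abs_sum_le_sum_abs _ _).trans (Finset.sum_le_sum fun γ hγ => ?_)
        exact (Finset.abs_sum_le_sum_abs _ _).trans (Finset.sum_le_sum fun c hc => hT γ hγ c hc)
    _ = ((Q.B ∅).card : ℝ) * ((Q.els.card : ℝ) * (2 ^ (S.m + Q.M.card) * K)) := by
        rw [Finset.sum_const, Finset.sum_const, nsmul_eq_mul, nsmul_eq_mul]
    _ ≤ 4 ^ (S.m + Q.M.card) * (2 ^ (S.m + Q.M.card) * (2 ^ (S.m + Q.M.card) * K)) := by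
        rw [hels]
        exact mul_le_mul_of_nonneg_right hB (by positivity)
    _ = 16 ^ S.m * ((2 : ℝ) ^ Q.M.card) ^ 4 * K := by
        have h7 : (16 : ℝ) ^ S.m = 4 ^ S.m * (2 ^ S.m * 2 ^ S.m) := by
          rw [← mul_pow, ← mul_pow]
          norm_num
        have h8 : ((2 : ℝ) ^ Q.M.card) ^ 4 =
            4 ^ Q.M.card * (2 ^ Q.M.card * 2 ^ Q.M.card) := by
          rw [← pow_mul, mul_comm, pow_mul, ← mul_pow, ← mul_pow]
          norm_num
        rw [h7, h8, pow_add, pow_add]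
        ring
    _ ≤ 16 ^ S.m * nM ^ 4 * K := by
        refine mul_le_mul_of_nonneg_right ?_ hK0
        exact mul_le_mul_of_nonneg_left (pow_le_pow_left₀ (by positivity) hn 4) (by positivity)
    _ = 16 ^ S.m * C * nM ^ (S.A + 6) * vol j ^ (1 - s) *
        (2 : ℝ) ^ (-S.dl * min (j 0 : ℝ) (j 1)) := by
        have h9 : nM ^ (S.A + 6) = nM ^ (S.A + 2) * nM ^ 4 := by
          rw [show S.A + 6 = (S.A + 2) + ((4 : ℕ) : ℝ) by push_cast; ring,
            Real.rpow_add (by linarith), Real.rpow_natCast]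
        rw [hvol, h9, hK]
        ring

end Pool.Agent.H32.MQ
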