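import Pool.Agent.H32.MQ.KUStm
import Pool.Agent.H98.MF.SHs
import Pool.Agent.H98.MK.SumSg

/-!
# Project MQ, row U6: the variable `q12` when `g0` is not empty
-/

set_option autoImplicit false

open scoped BigOperators

namespace Pool.Agent.H32.MQ

open Pool.Agent.H98.MK (sg)
open Pool.Agent.H98.MF

section

variable {S : Sys} {Q : Qd S}

/-! ### Fourier expansion of functions of the local classes -/

theorem uq1_pow (M : Finset S.P) (e : S.P → ZMod 2) :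
    ∑ y ∈ M.powerset, sg (∑ v ∈ y, e v) = if ∀ v ∈ M, e v = 0 then 2 ^ M.card else 0 := by
  classical
  have h1 : ∑ y ∈ M.powerset, sg (∑ v ∈ y, e v) = ∏ v ∈ M, (1 + sg (e v)) := by
    rw [Finset.prod_one_add]
    exact Finset.sum_congr rfl fun y _ => sg_sum _ _
  rw [h1]
  split_ifs with h
  · rw [Finset.prod_congr rfl (fun v hv => by rw [h v hv, sg_zero])]
    rw [Finset.prod_const]
    norm_num
  · push Not at h
    obtain ⟨v, hv, hne⟩ := h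
    refine Finset.prod_eq_zero hv ?_
    rcases zm2 (e v) with h2 | h2
    · exact absurd h2 hne
    · rw [h2, sg_one]
      norm_num

open Classical in
/-- the Fourier coefficient -/
noncomputable def uq1F (Q : Qd S) (F : El S → ℝ) (ψ : El S) : ℝ :=
  (∑ l ∈ Q.els, F l * ((sg (ψ.1 ⬝ᵥ l.1 + ∑ v ∈ ψ.2, (if v ∈ l.2 then 1 else 0)) : ℤ) : ℝ)) /
    (2 ^ S.m * 2 ^ Q.M.card)

theorem uq1_els : (Q.els.card : ℝ) = 2 ^ S.m * 2 ^ Q.M.card := by
  unfold Qd.els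
  rw [Finset.card_product, Finset.card_powerset, Finset.card_univ, Fintype.card_fun,
    Fintype.card_fin, ZMod.card]
  push_cast
  ring

theorem uq1_F_le (F : El S → ℝ) (hF : ∀ l, |F l| ≤ 1) (ψ : El S) : |uq1F Q F ψ| ≤ 1 := by
  classical
  unfold uq1F
  have hK : (0 : ℝ) < 2 ^ S.m * 2 ^ Q.M.card := by positivity
  rw [abs_div, abs_of_pos hK, div_le_one hK, ← uq1_els]
  refine (Finset.abs_sum_le_sum_abs _ _).trans ?_
  calc _ ≤ ∑ l ∈ Q.els, (1 : ℝ) := by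
        refine Finset.sum_le_sum fun l _ => ?_
        rw [abs_mul, abs_sgr, mul_one]
        exact hF l
    _ = _ := by rw [Finset.sum_const, nsmul_eq_mul, mul_one]

theorem uq1_add_eq_zero {a b : ZMod 2} : a + b = 0 ↔ a = b := by
  revert a b; decide

open Classical in
theorem uq1_orth (l : El S) (hl : l ∈ Q.els) (t : S.T) (e : S.P → ZMod 2) :
    ∑ ψ ∈ Q.els, (sg (ψ.1 ⬝ᵥ l.1 + ∑ v ∈ ψ.2, (if v ∈ l.2 then 1 else 0)) : ℤ) *
      sg (ψ.1 ⬝ᵥ t + ∑ v ∈ ψ.2, e v) =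
      if l = (t, Q.M.filter fun v => e v = 1) then 2 ^ S.m * 2 ^ Q.M.card else 0 := by
  have hl2 : l.2 ⊆ Q.M := by
    unfold Qd.els at hl
    exact Finset.mem_powerset.1 (Finset.mem_product.1 hl).2
  have h1 : ∀ ψ : El S, (sg (ψ.1 ⬝ᵥ l.1 + ∑ v ∈ ψ.2, (if v ∈ l.2 then 1 else 0)) : ℤ) *
      sg (ψ.1 ⬝ᵥ t + ∑ v ∈ ψ.2, e v) =
      sg (ψ.1 ⬝ᵥ (l.1 + t)) * sg (∑ v ∈ ψ.2, ((if v ∈ l.2 then 1 else 0) + e v)) := by
    intro ψ
    rw [← sg_add, ← sg_add, dotProduct_add, Finset.sum_add_distrib]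
    congr 1
    ring
  rw [Finset.sum_congr rfl fun ψ _ => h1 ψ]
  unfold Qd.els
  rw [Finset.sum_product]
  simp only
  rw [← Finset.sum_mul_sum, Pool.Agent.H98.MK.sum_sg, uq1_pow]
  have h2 : (l = (t, Q.M.filter fun v => e v = 1)) ↔
      (l.1 + t = 0 ∧ ∀ v ∈ Q.M, (if v ∈ l.2 then (1 : ZMod 2) else 0) + e v = 0) := by
    constructor
    · rintro rfl
      refine ⟨?_, fun v hv => ?_⟩
      · funext i
        exact CharTwo.add_self_eq_zero _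
      · simp only [Finset.mem_filter, hv, true_and]
        rcases zm2 (e v) with h3 | h3
        · rw [h3]; decide
        · rw [h3]; decide
    · rintro ⟨h3, h4⟩
      refine Prod.ext ?_ ?_
      · funext i
        exact uq1_add_eq_zero.1 (congrFun h3 i)
      · ext v
        simp only [Finset.mem_filter]
        constructor
        · intro hv
          have := h4 v (hl2 hv)
          rw [if_pos hv] at this
          exact ⟨hl2 hv, (uq1_add_eq_zero.1 this).symm⟩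
        · rintro ⟨hv, hv1⟩
          have := h4 v hv
          by_contra hne
          rw [if_neg hne, hv1] at this
          exact absurd this (by decide)
  by_cases h5 : l.1 + t = 0
  · by_cases h6 : ∀ v ∈ Q.M, (if v ∈ l.2 then (1 : ZMod 2) else 0) + e v = 0
    · rw [if_pos h5, if_pos h6, if_pos (h2.2 ⟨h5, h6⟩)]
    · rw [if_neg h6, if_neg fun h => h6 (h2.1 h).2, mul_zero]
  · rw [if_neg h5, if_neg fun h => h5 (h2.1 h).1, zero_mul]

open Classical in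
theorem uq1_inv (F : El S → ℝ) (t : S.T) (e : S.P → ZMod 2) :
    F (t, Q.M.filter fun v => e v = 1) =
      ∑ ψ ∈ Q.els, uq1F Q F ψ * ((sg (ψ.1 ⬝ᵥ t + ∑ v ∈ ψ.2, e v) : ℤ) : ℝ) := by
  have hK : (2 : ℝ) ^ S.m * 2 ^ Q.M.card ≠ 0 := by positivity
  unfold uq1F
  have h1 : ∀ ψ ∈ Q.els, (∑ l ∈ Q.els, F l *
      ((sg (ψ.1 ⬝ᵥ l.1 + ∑ v ∈ ψ.2, (if v ∈ l.2 then 1 else 0)) : ℤ) : ℝ)) /
      (2 ^ S.m * 2 ^ Q.M.card) * ((sg (ψ.1 ⬝ᵥ t + ∑ v ∈ ψ.2, e v) : ℤ) : ℝ) =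
      ∑ l ∈ Q.els, F l * (((sg (ψ.1 ⬝ᵥ l.1 + ∑ v ∈ ψ.2, (if v ∈ l.2 then 1 else 0)) : ℤ) *
        sg (ψ.1 ⬝ᵥ t + ∑ v ∈ ψ.2, e v) : ℤ) : ℝ) / (2 ^ S.m * 2 ^ Q.M.card) := by
    intro ψ _
    rw [Finset.sum_div, Finset.sum_mul]
    refine Finset.sum_congr rfl fun l _ => ?_
    push_cast
    ring
  rw [Finset.sum_congr rfl h1, Finset.sum_comm]
  have h2 : ∀ l ∈ Q.els, ∑ ψ ∈ Q.els, F l *
      (((sg (ψ.1 ⬝ᵥ l.1 + ∑ v ∈ ψ.2, (if v ∈ l.2 then 1 else 0)) : ℤ) *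
        sg (ψ.1 ⬝ᵥ t + ∑ v ∈ ψ.2, e v) : ℤ) : ℝ) / (2 ^ S.m * 2 ^ Q.M.card) =
      if l = (t, Q.M.filter fun v => e v = 1) then F l else 0 := by
    intro l hl
    rw [← Finset.sum_div, ← Finset.mul_sum, ← Int.cast_sum, uq1_orth l hl t e]
    split_ifs with h3
    · push_cast
      rw [mul_div_assoc, div_self hK, mul_one]
    · simp
  rw [Finset.sum_congr rfl h2, Finset.sum_ite_eq', if_pos]
  unfold Qd.els
  exact Finset.mem_product.2 ⟨Finset.mem_univ _, Finset.mem_powerset.2 (Finset.filter_subset _ _)⟩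

/-! ### the sign of a term as a function of `q12` -/

/-- the configuration with the variable `q12` replaced -/
def uq1mk (r : Finset S.P × Finset Q.P × Finset Q.P × Finset Q.P) (y : Finset S.P) : Cf Q :=
  ⟨r.1, y, r.2.1, r.2.2.1, r.2.2.2⟩

theorem uq1_shd_union (g h : Finset Q.P) : Q.shd (g ∪ h) = Q.shd g ∪ Q.shd h := by
  classical
  unfold Qd.shd
  ext p
  simp only [Finset.mem_image, Finset.mem_union]
  constructor
  · rintro ⟨a, h1 | h1, rfl⟩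
    · exact Or.inl ⟨a, h1, rfl⟩
    · exact Or.inr ⟨a, h1, rfl⟩
  · rintro (⟨a, h1, rfl⟩ | ⟨a, h1, rfl⟩)
    · exact ⟨a, Or.inl h1, rfl⟩
    · exact ⟨a, Or.inr h1, rfl⟩

theorem uq1_mem_shd {g : Finset Q.P} {a : Q.P} (h : a ∈ g) : Q.sh a ∈ Q.shd g :=
  Finset.mem_image_of_mem _ h

theorem uq1_gd {x : Cf Q} (hx : x.Ok) : Q.Gd x.g := by
  intro a ha b hb hab
  have hd : Disjoint (Q.shd x.g0) (Q.shd x.g1) := hx.dj 3 4 (by decide)
  rcases Finset.mem_union.1 ha with ha | ha <;> rcases Finset.mem_union.1 hb with hb | hb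
  · exact hx.gg0 a ha b hb hab
  · have h1 := uq1_mem_shd ha
    rw [hab] at h1
    exact absurd (uq1_mem_shd hb) (Finset.disjoint_left.1 hd h1)
  · have h1 := uq1_mem_shd ha
    rw [hab] at h1
    exact absurd h1 (Finset.disjoint_left.1 hd (uq1_mem_shd hb))
  · exact hx.gg1 a ha b hb hab

theorem uq1_sum_shd {g : Finset Q.P} (hg : Q.Gd g) (f : S.P → ZMod 2) :
    ∑ p ∈ Q.shd g, f p = ∑ a ∈ g, f (Q.sh a) := by
  classical
  unfold Qd.shd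
  exact Finset.sum_image fun a ha b hb hab => hg a ha b hb hab

theorem uq1_E (hL : Q.Law) {x : Cf Q} (hx : x.Ok) {γ : Q.G} (hγ : γ ∈ Q.B x.g) {c : El S}
    (hc : c ∈ Q.els) : x.E γ c = S.JJ x.q12 (Q.shd x.g0) + S.JJ x.q12 (Q.nu γ).2 +
      ((Q.nu γ).1 + (S.l ⬝ᵥ S.tys (Q.shd x.g1)) • S.l) ⬝ᵥ S.tys x.q12 +
      (∑ a ∈ x.qq, Q.sy γ a + ∑ a ∈ x.g1,
        (Q.d0 a + S.ex (x.q0 ∪ Q.shd x.qq ∪ c.2) c.1 (Q.sh a))) := by
  classical
  have hc2 : c.2 ⊆ Q.M := by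
    unfold Qd.els at hc
    exact Finset.mem_powerset.1 (Finset.mem_product.1 hc).2
  have d10 : Disjoint x.q12 x.q0 := hx.dj 1 0 (by decide)
  have d12 : Disjoint x.q12 (Q.shd x.qq) := hx.dj 1 2 (by decide)
  have d13 : Disjoint x.q12 (Q.shd x.g0) := hx.dj 1 3 (by decide)
  have d14 : Disjoint x.q12 (Q.shd x.g1) := hx.dj 1 4 (by decide)
  have d34 : Disjoint (Q.shd x.g0) (Q.shd x.g1) := hx.dj 3 4 (by decide)
  have m1 : Disjoint x.q12 Q.M := hx.dM 1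
  have m3 : Disjoint (Q.shd x.g0) Q.M := hx.dM 3
  have m4 : Disjoint (Q.shd x.g1) Q.M := hx.dM 4
  have hg := uq1_gd hx
  have hsg : Q.shd x.g = Q.shd x.g0 ∪ Q.shd x.g1 := uq1_shd_union _ _
  have e1 : ∑ p ∈ x.q12, Q.ns γ p = S.JJ x.q12 (Q.shd x.g0) + S.JJ x.q12 (Q.shd x.g1) +
      S.JJ x.q12 (Q.nu γ).2 + (Q.nu γ).1 ⬝ᵥ S.tys x.q12 := by
    have h1 : ∀ p ∈ x.q12, Q.ns γ p = S.ex (Q.shd x.g ∪ (Q.nu γ).2) (Q.nu γ).1 p := by
      intro p hp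
      refine hL.ns_eq x.g hg γ hγ p (Finset.disjoint_left.1 m1 hp) ?_
      rw [hsg]
      intro h2
      rcases Finset.mem_union.1 h2 with h2 | h2
      · exact Finset.disjoint_left.1 d13 hp h2
      · exact Finset.disjoint_left.1 d14 hp h2
    rw [Finset.sum_congr rfl h1, S.sum_ex, hsg, S.JJ_union_right, S.JJ_union_right _ d34]
    rw [Finset.disjoint_union_left]
    exact ⟨Finset.disjoint_of_subset_right (Q.nu_sub γ) m3,
      Finset.disjoint_of_subset_right (Q.nu_sub γ) m4⟩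
  have e2 : ∑ a ∈ x.g1, (Q.d0 a + S.ex (x.q ∪ c.2) c.1 (Q.sh a)) =
      ∑ a ∈ x.g1, (Q.d0 a + S.ex (x.q0 ∪ Q.shd x.qq ∪ c.2) c.1 (Q.sh a)) +
        S.JJ (Q.shd x.g1) x.q12 := by
    have h1 : S.JJ (Q.shd x.g1) x.q12 = ∑ a ∈ x.g1, ∑ r ∈ x.q12, S.J r (Q.sh a) := by
      unfold Sys.JJ
      exact uq1_sum_shd hx.gg1 _
    rw [h1, ← Finset.sum_add_distrib]
    refine Finset.sum_congr rfl fun a _ => ?_
    have h2 : x.q ∪ c.2 = x.q12 ∪ (x.q0 ∪ Q.shd x.qq ∪ c.2) := by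
      unfold Cf.q
      ext p
      simp only [Finset.mem_union]
      tauto
    have h3 : Disjoint x.q12 (x.q0 ∪ Q.shd x.qq ∪ c.2) := by
      rw [Finset.disjoint_union_right, Finset.disjoint_union_right]
      exact ⟨⟨d10, d12⟩, Finset.disjoint_of_subset_right hc2 m1⟩
    unfold Sys.ex
    rw [h2, Finset.sum_union h3]
    ring
  have e3 : S.JJ (Q.shd x.g1) x.q12 = S.JJ x.q12 (Q.shd x.g1) +
      (S.l ⬝ᵥ S.tys (Q.shd x.g1)) * (S.l ⬝ᵥ S.tys x.q12) := by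
    have h1 := S.JJ_recip d14
    have h2 : S.JJ (Q.shd x.g1) x.q12 = S.JJ x.q12 (Q.shd x.g1) +
        (S.JJ x.q12 (Q.shd x.g1) + S.JJ (Q.shd x.g1) x.q12) := by
      rw [← add_assoc, CharTwo.add_self_eq_zero, zero_add]
    rw [h2, h1]
    ring
  unfold Cf.E
  rw [e1, e2, e3, add_dotProduct, smul_dotProduct, smul_eq_mul]
  have h5 : S.JJ x.q12 (Q.shd x.g1) + S.JJ x.q12 (Q.shd x.g1) = 0 :=
    CharTwo.add_self_eq_zero _
  linear_combination h5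

theorem uq1_JJ_symm (x A B : Finset S.P) :
    S.JJ x A + S.JJ x B = S.JJ x (symmDiff A B) := by
  classical
  unfold Sys.JJ
  rw [← Finset.sum_add_distrib]
  refine Finset.sum_congr rfl fun p _ => ?_
  have h1 : ∑ q ∈ A, S.J q p = ∑ q ∈ A \ B, S.J q p + ∑ q ∈ A ∩ B, S.J q p := by
    rw [← Finset.sum_union (Finset.disjoint_sdiff_inter A B), Finset.sdiff_union_inter]
  have h2 : ∑ q ∈ B, S.J q p = ∑ q ∈ B \ A, S.J q p + ∑ q ∈ A ∩ B, S.J q p := by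
    rw [Finset.inter_comm, ← Finset.sum_union (Finset.disjoint_sdiff_inter B A),
      Finset.sdiff_union_inter]
  have h3 : ∑ q ∈ symmDiff A B, S.J q p = ∑ q ∈ A \ B, S.J q p + ∑ q ∈ B \ A, S.J q p := by
    have h4 : symmDiff A B = (A \ B) ∪ (B \ A) := rfl
    rw [h4, Finset.sum_union]
    rw [Finset.disjoint_left]
    intro q hq hq'
    exact (Finset.mem_sdiff.1 hq').2 (Finset.mem_sdiff.1 hq).1
  rw [h1, h2, h3]
  have h5 : ∑ q ∈ A ∩ B, S.J q p + ∑ q ∈ A ∩ B, S.J q p = 0 := CharTwo.add_self_eq_zero _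
  linear_combination h5

open Classical in
theorem uq1_lab {x : Cf Q} (hx : x.Ok) : Q.lab x.q =
    (S.tys x.q12 + S.tys (x.q0 ∪ Q.shd x.qq), Q.M.filter fun v =>
      (if v ∈ Q.M.filter (fun v => ∑ p ∈ x.q12, S.J p v = 1) then (1 : ZMod 2) else 0) +
        ∑ p ∈ x.q0 ∪ Q.shd x.qq, S.J p v = 1) := by
  have d10 : Disjoint x.q12 x.q0 := hx.dj 1 0 (by decide)
  have d12 : Disjoint x.q12 (Q.shd x.qq) := hx.dj 1 2 (by decide)
  have h1 : x.q = x.q12 ∪ (x.q0 ∪ Q.shd x.qq) := by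
    unfold Cf.q
    ext p
    simp only [Finset.mem_union]
    tauto
  have h2 : Disjoint x.q12 (x.q0 ∪ Q.shd x.qq) := Finset.disjoint_union_right.2 ⟨d10, d12⟩
  unfold Qd.lab
  rw [h1, S.tys_union h2]
  refine Prod.ext rfl ?_
  refine Finset.filter_congr fun v hv => ?_
  rw [Finset.sum_union h2]
  have h3 : (if v ∈ Q.M.filter (fun v => ∑ p ∈ x.q12, S.J p v = 1) then (1 : ZMod 2) else 0) =
      ∑ p ∈ x.q12, S.J p v := by
    simp only [Finset.mem_filter, hv, true_and]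
    rcases zm2 (∑ p ∈ x.q12, S.J p v) with h4 | h4
    · rw [h4]; decide
    · rw [h4]; decide
  rw [h3]

/-- the rest of the forbidden primes -/
noncomputable def uq1z (r : Finset S.P × Finset Q.P × Finset Q.P × Finset Q.P) : Finset S.P :=
  r.1 ∪ Q.shd r.2.1 ∪ Q.shd r.2.2.2 ∪ Q.M

open Classical in
/-- the modulus of the character -/
noncomputable def uq1Y (r : Finset S.P × Finset Q.P × Finset Q.P × Finset Q.P) (γ : Q.G)
    (ψ : El S) : Finset S.P :=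
  Q.shd r.2.2.1 ∪ symmDiff (Q.nu γ).2 ψ.2

/-- the unit part of the character -/
noncomputable def uq1c (r : Finset S.P × Finset Q.P × Finset Q.P × Finset Q.P) (γ : Q.G)
    (ψ : El S) : S.T :=
  (Q.nu γ).1 + (S.l ⬝ᵥ S.tys (Q.shd r.2.2.2)) • S.l + ψ.1 + (S.l ⬝ᵥ S.tys ψ.2) • S.l

theorem uq1_Yz (r : Finset S.P × Finset Q.P × Finset Q.P × Finset Q.P) (γ : Q.G)
    {ψ : El S} (hψ : ψ ∈ Q.els) : uq1Y r γ ψ ∪ uq1z r = Q.shd r.2.2.1 ∪ uq1z r := by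
  classical
  have hψ2 : ψ.2 ⊆ Q.M := by
    unfold Qd.els at hψ
    exact Finset.mem_powerset.1 (Finset.mem_product.1 hψ).2
  unfold uq1Y uq1z
  have h1 : symmDiff (Q.nu γ).2 ψ.2 ⊆ Q.M := by
    intro v hv
    rcases Finset.mem_symmDiff.1 hv with h | h
    · exact Q.nu_sub γ h.1
    · exact hψ2 h.1
  ext p
  simp only [Finset.mem_union]
  constructor
  · rintro ((h | h) | h)
    · exact Or.inl h
    · exact Or.inr (Or.inr (h1 h))
    · exact Or.inr h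
  · rintro (h | h)
    · exact Or.inl (Or.inl h)
    · exact Or.inr h

/-- the exponent identity -/
theorem uq1_exp (hL : Q.Law) (r : Finset S.P × Finset Q.P × Finset Q.P × Finset Q.P)
    (y : Finset S.P) (hx : (uq1mk r y).Ok) {γ : Q.G} (hγ : γ ∈ Q.B (r.2.2.1 ∪ r.2.2.2))
    {c : El S} (hc : c ∈ Q.els) {ψ : El S} (hψ : ψ ∈ Q.els) :
    ψ.1 ⬝ᵥ S.tys y + ∑ v ∈ ψ.2, ∑ p ∈ y, S.J p v + (uq1mk r y).E γ c =
      S.JJ y (uq1Y r γ ψ) + uq1c r γ ψ ⬝ᵥ S.tys y +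
        (∑ a ∈ r.2.1, Q.sy γ a + ∑ a ∈ r.2.2.2,
          (Q.d0 a + S.ex (r.1 ∪ Q.shd r.2.1 ∪ c.2) c.1 (Q.sh a))) := by
  classical
  have hψ2 : ψ.2 ⊆ Q.M := by
    unfold Qd.els at hψ
    exact Finset.mem_powerset.1 (Finset.mem_product.1 hψ).2
  have m1 : Disjoint y Q.M := hx.dM 1
  have m3 : Disjoint (Q.shd r.2.2.1) Q.M := hx.dM 3
  have e1 := uq1_E hL hx (γ := γ) hγ hc
  have e2 : ∑ v ∈ ψ.2, ∑ p ∈ y, S.J p v = S.JJ ψ.2 y := rfl
  have e3 : S.JJ ψ.2 y = S.JJ y ψ.2 + (S.l ⬝ᵥ S.tys ψ.2) * (S.l ⬝ᵥ S.tys y) := by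
    have h1 := S.JJ_recip (Finset.disjoint_of_subset_right hψ2 m1)
    have h2 : S.JJ ψ.2 y = S.JJ y ψ.2 + (S.JJ y ψ.2 + S.JJ ψ.2 y) := by
      rw [← add_assoc, CharTwo.add_self_eq_zero, zero_add]
    rw [h2, h1]
    ring
  have e4 : S.JJ y (uq1Y r γ ψ) = S.JJ y (Q.shd r.2.2.1) + (S.JJ y (Q.nu γ).2 + S.JJ y ψ.2) := by
    have h1 : Disjoint (Q.shd r.2.2.1) (symmDiff (Q.nu γ).2 ψ.2) := by
      refine Finset.disjoint_of_subset_right ?_ m3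
      intro v hv
      rcases Finset.mem_symmDiff.1 hv with h | h
      · exact Q.nu_sub γ h.1
      · exact hψ2 h.1
    unfold uq1Y
    rw [S.JJ_union_right y h1, uq1_JJ_symm y (Q.nu γ).2 ψ.2]
  rw [e1, e2, e3, e4]
  unfold uq1c
  simp only [add_dotProduct, smul_dotProduct, smul_eq_mul, uq1mk]
  ring

open Classical in
theorem uq1_inner (hL : Q.Law) (r : Finset S.P × Finset Q.P × Finset Q.P × Finset Q.P)
    (hok : ∀ y, Disjoint y (Q.shd r.2.2.1 ∪ uq1z r) → (uq1mk r y).Ok)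
    (Θ : Q.G → El S → El S → ℝ) (hΘ : BdT Θ) {γ : Q.G} (hγ : γ ∈ Q.B (r.2.2.1 ∪ r.2.2.2))
    {c : El S} (hc : c ∈ Q.els) (j1 : ℕ) (s : ℝ) :
    |∑ y ∈ S.bx (2 ^ j1), (if Nat.clog 2 (S.nm y) = j1 ∧ Disjoint y (Q.shd r.2.2.1 ∪ uq1z r)
      then pw s y * (Θ γ c (Q.lab (uq1mk r y).q) * ((sg ((uq1mk r y).E γ c) : ℤ) : ℝ))
      else 0)| ≤
    ∑ ψ ∈ Q.els, |∑ y ∈ S.bx (2 ^ j1), (if Nat.clog 2 (S.nm y) = j1 ∧
      Disjoint y (uq1Y r γ ψ ∪ uq1z r) then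
        ((sg (S.JJ y (uq1Y r γ ψ) + uq1c r γ ψ ⬝ᵥ S.tys y) : ℤ) : ℝ) * (S.nm y : ℝ) ^ (-s)
      else 0)| := by
  set kk : ZMod 2 := ∑ a ∈ r.2.1, Q.sy γ a + ∑ a ∈ r.2.2.2,
          (Q.d0 a + S.ex (r.1 ∪ Q.shd r.2.1 ∪ c.2) c.1 (Q.sh a)) with hkk
  set F : El S → ℝ := fun l => Θ γ c (l.1 + S.tys (r.1 ∪ Q.shd r.2.1), Q.M.filter fun v =>
      (if v ∈ l.2 then (1 : ZMod 2) else 0) + ∑ p ∈ r.1 ∪ Q.shd r.2.1, S.J p v = 1) with hF
  have hF1 : ∀ l, |F l| ≤ 1 := fun l => hΘ γ c _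
  have h1 : ∀ y ∈ S.bx (2 ^ j1),
      (if Nat.clog 2 (S.nm y) = j1 ∧ Disjoint y (Q.shd r.2.2.1 ∪ uq1z r)
      then pw s y * (Θ γ c (Q.lab (uq1mk r y).q) * ((sg ((uq1mk r y).E γ c) : ℤ) : ℝ))
      else 0) = ∑ ψ ∈ Q.els, uq1F Q F ψ * ((sg kk : ℤ) : ℝ) * (if Nat.clog 2 (S.nm y) = j1 ∧
      Disjoint y (uq1Y r γ ψ ∪ uq1z r) then
        ((sg (S.JJ y (uq1Y r γ ψ) + uq1c r γ ψ ⬝ᵥ S.tys y) : ℤ) : ℝ) * (S.nm y : ℝ) ^ (-s)
      else 0) := by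
    intro y _
    have h2 : ∀ ψ ∈ Q.els, uq1F Q F ψ * ((sg kk : ℤ) : ℝ) * (if Nat.clog 2 (S.nm y) = j1 ∧
      Disjoint y (uq1Y r γ ψ ∪ uq1z r) then
        ((sg (S.JJ y (uq1Y r γ ψ) + uq1c r γ ψ ⬝ᵥ S.tys y) : ℤ) : ℝ) * (S.nm y : ℝ) ^ (-s)
      else 0) = (if Nat.clog 2 (S.nm y) = j1 ∧ Disjoint y (Q.shd r.2.2.1 ∪ uq1z r)
        then uq1F Q F ψ * ((sg kk : ℤ) : ℝ) *
        (((sg (S.JJ y (uq1Y r γ ψ) + uq1c r γ ψ ⬝ᵥ S.tys y) : ℤ) : ℝ) * (S.nm y : ℝ) ^ (-s))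
        else 0) := by
      intro ψ hψ
      rw [uq1_Yz r γ hψ, mul_ite, mul_zero]
    rw [Finset.sum_congr rfl h2]
    split_ifs with h3
    · have hx := hok y h3.2
      have h4 : Θ γ c (Q.lab (uq1mk r y).q) =
          F (S.tys y, Q.M.filter fun v => ∑ p ∈ y, S.J p v = 1) := by
        rw [uq1_lab hx]
        rfl
      rw [h4, uq1_inv F (S.tys y) (fun v => ∑ p ∈ y, S.J p v), Finset.sum_mul, Finset.mul_sum]
      refine Finset.sum_congr rfl fun ψ hψ => ?_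
      have h5 := uq1_exp hL r y hx hγ hc hψ
      rw [← hkk] at h5
      have h6 : (sg (ψ.1 ⬝ᵥ S.tys y + ∑ v ∈ ψ.2, ∑ p ∈ y, S.J p v) : ℤ) *
          sg ((uq1mk r y).E γ c) =
          sg (S.JJ y (uq1Y r γ ψ) + uq1c r γ ψ ⬝ᵥ S.tys y) * sg kk := by
        rw [← sg_add, ← sg_add, h5]
      have h7 : ((sg (ψ.1 ⬝ᵥ S.tys y + ∑ v ∈ ψ.2, ∑ p ∈ y, S.J p v) : ℤ) : ℝ) *
          ((sg ((uq1mk r y).E γ c) : ℤ) : ℝ) =
          ((sg (S.JJ y (uq1Y r γ ψ) + uq1c r γ ψ ⬝ᵥ S.tys y) : ℤ) : ℝ) * ((sg kk : ℤ) : ℝ) := by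
        exact_mod_cast h6
      unfold pw
      linear_combination (S.nm y : ℝ) ^ (-s) * uq1F Q F ψ * h7
    · rw [Finset.sum_const_zero]
  rw [Finset.sum_congr rfl h1, Finset.sum_comm]
  refine (Finset.abs_sum_le_sum_abs _ _).trans (Finset.sum_le_sum fun ψ _ => ?_)
  rw [← Finset.mul_sum, abs_mul, abs_mul, abs_sgr, mul_one]
  exact mul_le_of_le_one_left (abs_nonneg _) (uq1_F_le F hF1 ψ)

/-! ### dyadic sums -/

theorem uq1_dy {N j : ℕ} (hN : 1 ≤ N) (h : Nat.clog 2 N = j) {s : ℝ} (h1 : 1 ≤ s) (h2 : s ≤ 2) :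
    (N : ℝ) ^ (-s) ≤ 4 * (2 : ℝ) ^ (-s * j) := by
  have h3 : 2 ^ j ≤ 2 * N := by
    rcases Nat.lt_or_ge 1 N with h4 | h4
    · have h5 := Nat.pow_pred_clog_lt_self (b := 2) one_lt_two h4
      rw [h] at h5
      have h6 : 0 < j := by
        rw [← h]
        exact Nat.clog_pos one_lt_two h4
      obtain ⟨k, rfl⟩ : ∃ k, j = k + 1 := ⟨j - 1, by omega⟩
      simp only [Nat.pred_succ] at h5
      rw [pow_succ]
      omega
    · have h5 : N = 1 := by omega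
      subst h5
      rw [Nat.clog_one_right] at h
      subst h
      norm_num
  have hNr : (0 : ℝ) < N := by exact_mod_cast hN
  have h7 : (2 : ℝ) ^ (j : ℝ) / 2 ≤ N := by
    rw [div_le_iff₀ (by norm_num), Real.rpow_natCast]
    have : (2 : ℝ) ^ j ≤ 2 * N := by exact_mod_cast h3
    linarith
  have h8 : (0 : ℝ) < (2 : ℝ) ^ (j : ℝ) / 2 := by positivity
  calc (N : ℝ) ^ (-s) ≤ ((2 : ℝ) ^ (j : ℝ) / 2) ^ (-s) :=
        Real.rpow_le_rpow_of_nonpos h8 h7 (by linarith)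
    _ = (2 : ℝ) ^ s * (2 : ℝ) ^ (-s * j) := by
        rw [Real.div_rpow (by positivity) (by norm_num), ← Real.rpow_mul (by norm_num),
          Real.rpow_neg (by norm_num) s, div_inv_eq_mul, mul_comm, mul_comm (j : ℝ) (-s)]
    _ ≤ 4 * (2 : ℝ) ^ (-s * j) := by
        refine mul_le_mul_of_nonneg_right ?_ (by positivity)
        calc (2 : ℝ) ^ s ≤ (2 : ℝ) ^ (2 : ℝ) :=
              Real.rpow_le_rpow_of_exponent_le (by norm_num) h2
          _ = 4 := by norm_num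

/-- a dyadic weight -/
noncomputable def uq1w {α : Type} (N : α → ℕ) (h : α → ℝ) (j : ℕ) (s : ℝ) (a : α) : ℝ :=
  if Nat.clog 2 (N a) = j then h a * (N a : ℝ) ^ (-s) else 0

theorem uq1_w_nonneg {α : Type} {N : α → ℕ} {h : α → ℝ} (h0 : ∀ a, 0 ≤ h a) (j : ℕ) (s : ℝ)
    (a : α) : 0 ≤ uq1w N h j s a := by
  unfold uq1w
  split_ifs
  · exact mul_nonneg (h0 a) (Real.rpow_nonneg (Nat.cast_nonneg _) _)
  · exact le_rfl

theorem uq1_dysum {α : Type} (B : Finset α) (N : α → ℕ) (h : α → ℝ) (h0 : ∀ a, 0 ≤ h a)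
    (hN : ∀ a, 1 ≤ N a) {K : ℝ} {j : ℕ} {s : ℝ} (h1 : 1 ≤ s) (h2 : s ≤ 2)
    (hB : ∑ a ∈ B, h a ≤ K * 2 ^ j) :
    ∑ a ∈ B, uq1w N h j s a ≤ 4 * K * (2 : ℝ) ^ ((1 - s) * j) := by
  have h3 : ∀ a ∈ B, uq1w N h j s a ≤ h a * (4 * (2 : ℝ) ^ (-s * j)) := by
    intro a _
    unfold uq1w
    split_ifs with h4
    · exact mul_le_mul_of_nonneg_left (uq1_dy (hN a) h4 h1 h2) (h0 a)
    · exact mul_nonneg (h0 a) (by positivity)
  refine (Finset.sum_le_sum h3).trans ?_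
  rw [← Finset.sum_mul]
  refine (mul_le_mul_of_nonneg_right hB (by positivity)).trans (le_of_eq ?_)
  have h5 : (2 : ℝ) ^ ((1 - s) * j) = (2 : ℝ) ^ j * (2 : ℝ) ^ (-s * j) := by
    rw [← Real.rpow_natCast, ← Real.rpow_add (by norm_num)]
    congr 1
    ring
  rw [h5]
  ring

/-! ### the box -/

theorem uq1_ok {r : Finset S.P × Finset Q.P × Finset Q.P × Finset Q.P} {y : Finset S.P}
    (hx : (uq1mk r y).Ok) (y' : Finset S.P) (hy : Disjoint y' (Q.shd r.2.2.1 ∪ uq1z r)) :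
    (uq1mk r y').Ok := by
  classical
  unfold uq1z at hy
  rw [Finset.disjoint_union_right, Finset.disjoint_union_right, Finset.disjoint_union_right,
    Finset.disjoint_union_right] at hy
  obtain ⟨d3, ⟨⟨d0, d2⟩, d4⟩, dM⟩ := hy
  refine ⟨?_, ?_, hx.gqq, hx.gg0, hx.gg1⟩
  · intro i k hik
    have h := hx.dj i k hik
    fin_cases i <;> fin_cases k <;> first
      | exact absurd rfl hik
      | exact h
      | exact d0
      | exact d2
      | exact d3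
      | exact d4
      | exact d0.symm
      | exact d2.symm
      | exact d3.symm
      | exact d4.symm
  · intro i
    have h := hx.dM i
    fin_cases i <;> first
      | exact h
      | exact dM

theorem uq1_dj {r : Finset S.P × Finset Q.P × Finset Q.P × Finset Q.P} {y : Finset S.P}
    (hx : (uq1mk r y).Ok) : Disjoint y (Q.shd r.2.2.1 ∪ uq1z r) := by
  classical
  unfold uq1z
  rw [Finset.disjoint_union_right, Finset.disjoint_union_right, Finset.disjoint_union_right,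
    Finset.disjoint_union_right]
  exact ⟨hx.dj 1 3 (by decide), ⟨⟨hx.dj 1 0 (by decide), hx.dj 1 2 (by decide)⟩,
    hx.dj 1 4 (by decide)⟩, hx.dM 1⟩

/-- the condition on the other variables -/
def uq1R (j : Fin 5 → ℕ) (r : Finset S.P × Finset Q.P × Finset Q.P × Finset Q.P) : Prop :=
  (Nat.clog 2 (S.nm r.1) = j 0 ∧ Nat.clog 2 (S.nm (Q.shd r.2.1)) = j 2 ∧
    Nat.clog 2 (S.nm (Q.shd r.2.2.1)) = j 3 ∧ Nat.clog 2 (S.nm (Q.shd r.2.2.2)) = j 4) ∧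
  ∀ y, Disjoint y (Q.shd r.2.2.1 ∪ uq1z r) → (uq1mk r y).Ok

theorem uq1_mem_box {j : Fin 5 → ℕ} {x : Cf Q} : x ∈ Q.box j ↔ x.Ok ∧ ∀ i, x.lv i = j i := by
  unfold Qd.box
  rw [Set.Finite.mem_toFinset]
  rfl

theorem uq1_mk_box {j : Fin 5 → ℕ} {r : Finset S.P × Finset Q.P × Finset Q.P × Finset Q.P}
    {y : Finset S.P} : uq1mk r y ∈ Q.box j ↔ uq1R j r ∧
      (Nat.clog 2 (S.nm y) = j 1 ∧ Disjoint y (Q.shd r.2.2.1 ∪ uq1z r)) := by
  rw [uq1_mem_box]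
  constructor
  · rintro ⟨hx, hj⟩
    exact ⟨⟨⟨hj 0, hj 2, hj 3, hj 4⟩, fun y' hy' => uq1_ok hx y' hy'⟩, hj 1, uq1_dj hx⟩
  · rintro ⟨⟨⟨h0, h2, h3, h4⟩, hok⟩, h1, hd⟩
    refine ⟨hok y hd, fun i => ?_⟩
    fin_cases i
    · exact h0
    · exact h1
    · exact h2
    · exact h3
    · exact h4

theorem uq1_le_pow {N k : ℕ} (h : Nat.clog 2 N = k) : (N : ℝ) ≤ 2 ^ k := by
  have h1 : N ≤ 2 ^ Nat.clog 2 N := Nat.le_pow_clog one_lt_two _
  rw [h] at h1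
  exact_mod_cast h1

/-- the other variables of a box -/
noncomputable def uq1B (Q : Qd S) (j : Fin 5 → ℕ) :
    Finset (Finset S.P × Finset Q.P × Finset Q.P × Finset Q.P) :=
  S.bx (2 ^ j 0) ×ˢ Q.gb (2 ^ j 2) ×ˢ Q.gb (2 ^ j 3) ×ˢ Q.gb (2 ^ j 4)

open Classical in
theorem uq1_sum_box (j : Fin 5 → ℕ) (f : Cf Q → ℝ) : ∑ x ∈ Q.box j, f x =
    ∑ r ∈ uq1B Q j, ∑ y ∈ S.bx (2 ^ j 1), if uq1mk r y ∈ Q.box j then f (uq1mk r y) else 0 := by
  rw [← Finset.sum_product', ← Finset.sum_filter]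
  refine Finset.sum_nbij' (fun x => ((x.q0, x.qq, x.g0, x.g1), x.q12))
    (fun z => uq1mk z.1 z.2) ?_ ?_ ?_ ?_ ?_
  · intro x hx
    have h1 := uq1_mem_box.1 hx
    rw [Finset.mem_filter]
    refine ⟨?_, hx⟩
    unfold uq1B
    simp only [Finset.mem_product, S.mem_bx, Q.mem_gb]
    exact ⟨⟨uq1_le_pow (h1.2 0), ⟨h1.1.gqq, uq1_le_pow (h1.2 2)⟩,
      ⟨h1.1.gg0, uq1_le_pow (h1.2 3)⟩, ⟨h1.1.gg1, uq1_le_pow (h1.2 4)⟩⟩, uq1_le_pow (h1.2 1)⟩
  · intro z hz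
    exact (Finset.mem_filter.1 hz).2
  · intro x _
    rfl
  · intro z _
    rfl
  · intro x _
    rfl

/-! ### the bound for given other variables -/

/-- the weights of the other variables -/
noncomputable def uq1W (Q : Qd S) (j : Fin 5 → ℕ) (s : ℝ)
    (r : Finset S.P × Finset Q.P × Finset Q.P × Finset Q.P) : ℝ :=
  uq1w S.nm S.hs (j 0) s r.1 *
    (uq1w (fun g => S.nm (Q.shd g)) (fun g => S.hs (Q.shd g)) (j 2) s r.2.1 *
      (uq1w (fun g => S.nm (Q.shd g)) (fun _ => 1) (j 3) s r.2.2.1 *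
        uq1w (fun g => S.nm (Q.shd g)) (fun g => S.hs (Q.shd g)) (j 4) s r.2.2.2))

open Classical in
theorem uq1_r (hL : Q.Law) {CL : ℝ} (hCL : 0 ≤ CL)
    (hlin : ∀ (y z : Finset S.P) (c : S.T),
      (y.Nonempty ∨ c ≠ 0) → ∀ (j : ℕ) (s : ℝ), 1 ≤ s → s ≤ 2 →
      |∑ x ∈ S.bx (2 ^ j), (if Nat.clog 2 (S.nm x) = j ∧ Disjoint x (y ∪ z)
        then ((sg (S.JJ x y + c ⬝ᵥ S.tys x) : ℤ) : ℝ) * (S.nm x : ℝ) ^ (-s) else 0)| ≤
        CL * (S.nm y : ℝ) ^ S.A * S.hs z * (2 : ℝ) ^ ((1 - s - S.dl) * j))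
    (Θ : Q.G → El S → El S → ℝ) (hΘ : BdT Θ) (j : Fin 5 → ℕ) {s : ℝ} (h1 : 1 ≤ s) (h2 : s ≤ 2)
    (hj3 : 1 ≤ j 3) (r : Finset S.P × Finset Q.P × Finset Q.P × Finset Q.P) :
    |∑ y ∈ S.bx (2 ^ j 1), if uq1mk r y ∈ Q.box j
      then (Wp Q s).val (uq1mk r y) * (uq1mk r y).tm Θ else 0| ≤
    4 ^ (S.m + Q.M.card) * (2 ^ S.m * 2 ^ Q.M.card) * (2 ^ S.m * 2 ^ Q.M.card) *
      (CL * ((2 : ℝ) ^ (S.A * j 3) * (S.nm Q.M : ℝ) ^ S.A) * S.hs Q.M *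
        (2 : ℝ) ^ ((1 - s - S.dl) * j 1)) * uq1W Q j s r := by
  have hh0 : ∀ x : Finset S.P, 0 ≤ S.hs x := fun x => zero_le_one.trans (S.one_le_hs x)
  have hW0 : 0 ≤ uq1W Q j s r := by
    unfold uq1W
    refine mul_nonneg (uq1_w_nonneg hh0 _ _ _) (mul_nonneg (uq1_w_nonneg (fun g => hh0 _) _ _ _)
      (mul_nonneg (uq1_w_nonneg (fun _ => zero_le_one) _ _ _)
        (uq1_w_nonneg (fun g => hh0 _) _ _ _)))
  by_cases hR : uq1R j r
  · obtain ⟨⟨c0, c2, c3, c4⟩, hok⟩ := hR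
    -- the inner sums
    have hY : ∀ γ ψ, ψ ∈ Q.els → (S.nm (uq1Y r γ ψ) : ℝ) ^ S.A ≤
        (2 : ℝ) ^ (S.A * j 3) * (S.nm Q.M : ℝ) ^ S.A := by
      intro γ ψ hψ
      have hψ2 : ψ.2 ⊆ Q.M := by
        unfold Qd.els at hψ
        exact Finset.mem_powerset.1 (Finset.mem_product.1 hψ).2
      have e1 : S.nm (uq1Y r γ ψ) ≤ S.nm (Q.shd r.2.2.1) * S.nm Q.M := by
        unfold uq1Y
        refine (S.nm_union_le _ _).trans (Nat.mul_le_mul_left _ (S.nm_mono ?_))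
        intro v hv
        rcases Finset.mem_symmDiff.1 hv with h | h
        · exact Q.nu_sub γ h.1
        · exact hψ2 h.1
      have e2 : (S.nm (uq1Y r γ ψ) : ℝ) ≤ 2 ^ j 3 * S.nm Q.M := by
        have e3 : (S.nm (uq1Y r γ ψ) : ℝ) ≤ (S.nm (Q.shd r.2.2.1) : ℝ) * S.nm Q.M := by
          exact_mod_cast e1
        exact e3.trans (mul_le_mul_of_nonneg_right (uq1_le_pow c3) (Nat.cast_nonneg _))
      calc (S.nm (uq1Y r γ ψ) : ℝ) ^ S.A ≤ (2 ^ j 3 * (S.nm Q.M : ℝ)) ^ S.A :=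
            Real.rpow_le_rpow (Nat.cast_nonneg _) e2 S.A_nonneg
        _ = (2 : ℝ) ^ (S.A * j 3) * (S.nm Q.M : ℝ) ^ S.A := by
            rw [Real.mul_rpow (by positivity) (Nat.cast_nonneg _), ← Real.rpow_natCast,
              ← Real.rpow_mul (by norm_num), mul_comm (S.A) (j 3 : ℝ)]
    have hne : (Q.shd r.2.2.1).Nonempty := by
      rw [Finset.nonempty_iff_ne_empty]
      intro h
      rw [h, S.nm_empty, Nat.clog_one_right] at c3
      omega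
    have hz : S.hs (uq1z r) ≤
        S.hs r.1 * (S.hs (Q.shd r.2.1) * S.hs (Q.shd r.2.2.2)) * S.hs Q.M := by
      unfold uq1z
      refine (S.hs_union_le _ _).trans (mul_le_mul_of_nonneg_right ?_ (hh0 _))
      refine (S.hs_union_le _ _).trans ?_
      rw [← mul_assoc]
      exact mul_le_mul_of_nonneg_right (S.hs_union_le _ _) (hh0 _)
    set H : ℝ := S.hs r.1 * (S.hs (Q.shd r.2.1) * S.hs (Q.shd r.2.2.2)) with hH
    have hH0 : 0 ≤ H := mul_nonneg (hh0 _) (mul_nonneg (hh0 _) (hh0 _))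
    set D : ℝ := CL * ((2 : ℝ) ^ (S.A * j 3) * (S.nm Q.M : ℝ) ^ S.A) * (H * S.hs Q.M) *
        (2 : ℝ) ^ ((1 - s - S.dl) * j 1) with hD
    have hD0 : 0 ≤ D := by
      have := hh0 Q.M
      positivity
    have hin : ∀ γ ∈ Q.B (r.2.2.1 ∪ r.2.2.2), ∀ c ∈ Q.els,
        |∑ y ∈ S.bx (2 ^ j 1), (if Nat.clog 2 (S.nm y) = j 1 ∧
          Disjoint y (Q.shd r.2.2.1 ∪ uq1z r)
        then pw s y * (Θ γ c (Q.lab (uq1mk r y).q) * ((sg ((uq1mk r y).E γ c) : ℤ) : ℝ))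
        else 0)| ≤ (2 ^ S.m * 2 ^ Q.M.card) * D := by
      intro γ hγ c hc
      refine (uq1_inner hL r hok Θ hΘ hγ hc (j 1) s).trans ?_
      calc _ ≤ ∑ ψ ∈ Q.els, D := by
            refine Finset.sum_le_sum fun ψ hψ => ?_
            have hn : (uq1Y r γ ψ).Nonempty := by
              obtain ⟨p, hp⟩ := hne
              exact ⟨p, Finset.mem_union_left _ hp⟩
            refine (hlin (uq1Y r γ ψ) (uq1z r) (uq1c r γ ψ) (Or.inl hn) (j 1) s h1 h2).trans ?_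
            rw [hD]
            refine mul_le_mul_of_nonneg_right ?_ (by positivity)
            refine mul_le_mul (mul_le_mul_of_nonneg_left (hY γ ψ hψ) hCL) hz (hh0 _) ?_
            positivity
        _ = _ := by rw [Finset.sum_const, nsmul_eq_mul, uq1_els]
    -- the weights
    set a : ℝ := pw s r.1 * pw s (Q.shd r.2.1) * pw s (Q.shd r.2.2.1) * pw s (Q.shd r.2.2.2)
      with ha
    have hpw : ∀ x : Finset S.P, 0 ≤ pw s x := fun x => Real.rpow_nonneg (Nat.cast_nonneg _) _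
    have ha0 : 0 ≤ a :=
      mul_nonneg (mul_nonneg (mul_nonneg (hpw _) (hpw _)) (hpw _)) (hpw _)
    have e5 : ∑ y ∈ S.bx (2 ^ j 1), (if uq1mk r y ∈ Q.box j
        then (Wp Q s).val (uq1mk r y) * (uq1mk r y).tm Θ else 0) =
        a * ∑ γ ∈ Q.B (r.2.2.1 ∪ r.2.2.2), ∑ c ∈ Q.els,
          ∑ y ∈ S.bx (2 ^ j 1), (if Nat.clog 2 (S.nm y) = j 1 ∧
            Disjoint y (Q.shd r.2.2.1 ∪ uq1z r)
          then pw s y * (Θ γ c (Q.lab (uq1mk r y).q) * ((sg ((uq1mk r y).E γ c) : ℤ) : ℝ))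
          else 0) := by
      have e6 : ∀ y ∈ S.bx (2 ^ j 1), (if uq1mk r y ∈ Q.box j
          then (Wp Q s).val (uq1mk r y) * (uq1mk r y).tm Θ else 0) =
          a * ∑ γ ∈ Q.B (r.2.2.1 ∪ r.2.2.2), ∑ c ∈ Q.els,
          (if Nat.clog 2 (S.nm y) = j 1 ∧ Disjoint y (Q.shd r.2.2.1 ∪ uq1z r)
          then pw s y * (Θ γ c (Q.lab (uq1mk r y).q) * ((sg ((uq1mk r y).E γ c) : ℤ) : ℝ))
          else 0) := by
        intro y _
        by_cases hc : Nat.clog 2 (S.nm y) = j 1 ∧ Disjoint y (Q.shd r.2.2.1 ∪ uq1z r)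
        · have hx := hok y hc.2
          rw [if_pos (uq1_mk_box.2 ⟨⟨⟨c0, c2, c3, c4⟩, hok⟩, hc⟩)]
          have e7 : (uq1mk r y).tm Θ = ∑ γ ∈ Q.B (r.2.2.1 ∪ r.2.2.2), ∑ c ∈ Q.els,
              Θ γ c (Q.lab (uq1mk r y).q) * ((sg ((uq1mk r y).E γ c) : ℤ) : ℝ) := by
            unfold Cf.tm
            rw [if_pos hx]
            rfl
          have e8 : (Wp Q s).val (uq1mk r y) = a * pw s y := by
            rw [ha]
            show pw s r.1 * pw s y * pw s (Q.shd r.2.1) * pw s (Q.shd r.2.2.1) *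
              pw s (Q.shd r.2.2.2) = _
            ring
          rw [e7, e8, mul_assoc]
          congr 1
          rw [Finset.mul_sum]
          refine Finset.sum_congr rfl fun γ _ => ?_
          rw [Finset.mul_sum]
          refine Finset.sum_congr rfl fun c _ => ?_
          rw [if_pos hc]
        · rw [if_neg fun h => hc (uq1_mk_box.1 h).2]
          simp only [if_neg hc, Finset.sum_const_zero, mul_zero]
      rw [Finset.sum_congr rfl e6, ← Finset.mul_sum, Finset.sum_comm]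
      congr 1
      refine Finset.sum_congr rfl fun γ _ => ?_
      rw [Finset.sum_comm]
    rw [e5, abs_mul, abs_of_nonneg ha0]
    have e9 : |∑ γ ∈ Q.B (r.2.2.1 ∪ r.2.2.2), ∑ c ∈ Q.els,
          ∑ y ∈ S.bx (2 ^ j 1), (if Nat.clog 2 (S.nm y) = j 1 ∧
            Disjoint y (Q.shd r.2.2.1 ∪ uq1z r)
          then pw s y * (Θ γ c (Q.lab (uq1mk r y).q) * ((sg ((uq1mk r y).E γ c) : ℤ) : ℝ))
          else 0)| ≤ 4 ^ (S.m + Q.M.card) * ((2 ^ S.m * 2 ^ Q.M.card) *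
            ((2 ^ S.m * 2 ^ Q.M.card) * D)) := by
      refine (Finset.abs_sum_le_sum_abs _ _).trans ?_
      calc _ ≤ ∑ γ ∈ Q.B (r.2.2.1 ∪ r.2.2.2), (((2 : ℝ) ^ S.m * 2 ^ Q.M.card) *
            ((2 ^ S.m * 2 ^ Q.M.card) * D)) := by
            refine Finset.sum_le_sum fun γ hγ => ?_
            refine (Finset.abs_sum_le_sum_abs _ _).trans ?_
            calc _ ≤ ∑ c ∈ Q.els, ((2 ^ S.m * 2 ^ Q.M.card) * D) :=
                  Finset.sum_le_sum fun c hc => hin γ hγ c hc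
              _ = _ := by rw [Finset.sum_const, nsmul_eq_mul, uq1_els]
        _ ≤ _ := by
            rw [Finset.sum_const, nsmul_eq_mul]
            refine mul_le_mul_of_nonneg_right ?_ (by positivity)
            exact_mod_cast Q.card_B _
    refine (mul_le_mul_of_nonneg_left e9 ha0).trans (le_of_eq ?_)
    have e10 : uq1W Q j s r = H * a := by
      unfold uq1W uq1w
      rw [if_pos c0, if_pos c2, if_pos c3, if_pos c4, hH, ha]
      unfold pw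
      ring
    rw [e10, hD]
    ring
  · have e1 : ∑ y ∈ S.bx (2 ^ j 1), (if uq1mk r y ∈ Q.box j
        then (Wp Q s).val (uq1mk r y) * (uq1mk r y).tm Θ else 0) = 0 :=
      Finset.sum_eq_zero fun y _ => if_neg fun h => hR (uq1_mk_box.1 h).1
    rw [e1, abs_zero]
    have := hh0 Q.M
    positivity

theorem uq1_W_sum (j : Fin 5 → ℕ) (s : ℝ) : ∑ r ∈ uq1B Q j, uq1W Q j s r =
    (∑ x ∈ S.bx (2 ^ j 0), uq1w S.nm S.hs (j 0) s x) *
      ((∑ g ∈ Q.gb (2 ^ j 2),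
        uq1w (fun g => S.nm (Q.shd g)) (fun g => S.hs (Q.shd g)) (j 2) s g) *
        ((∑ g ∈ Q.gb (2 ^ j 3), uq1w (fun g => S.nm (Q.shd g)) (fun _ => 1) (j 3) s g) *
          (∑ g ∈ Q.gb (2 ^ j 4),
            uq1w (fun g => S.nm (Q.shd g)) (fun g => S.hs (Q.shd g)) (j 4) s g))) := by
  unfold uq1B uq1W
  rw [Finset.sum_product, Finset.sum_mul]
  refine Finset.sum_congr rfl fun x _ => ?_
  rw [Finset.sum_product, Finset.sum_mul, Finset.mul_sum]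
  refine Finset.sum_congr rfl fun g _ => ?_
  rw [Finset.sum_product, Finset.sum_mul, Finset.mul_sum, Finset.mul_sum]
  refine Finset.sum_congr rfl fun g' _ => ?_
  rw [Finset.mul_sum, Finset.mul_sum, Finset.mul_sum]

end

theorem suq1_of (h0 : SKPt) (h1 : SKCard) (h2 : SKHs) (h3 : SKLin) : SUQ1 := by
  intro S
  obtain ⟨C0, hC0⟩ := h0 S 1 one_pos
  obtain ⟨C1, hC1⟩ := h1 S 1 one_pos
  obtain ⟨C2, hC2⟩ := h2 S 1 one_pos
  obtain ⟨C3, hC3⟩ := h3 S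
  obtain ⟨C4, hC4⟩ := hs_sum S 1 1 le_rfl
  refine ⟨16 ^ S.m * |C0| * (|C3| * |C0|) * ((4 * |C4|) * ((4 * |C2|) * ((4 * |C1|) *
    (4 * |C2|)))), S.A + 5, S.dl, by linarith [S.A_nonneg], S.dl_pos, ?_⟩
  intro Q hL Θ j s hΘ hs1 hs2 hj3
  have hN : (1 : ℝ) ≤ (S.nm Q.M : ℝ) := S.one_le_nmr Q.M
  set N : ℝ := (S.nm Q.M : ℝ) with hNdef
  have hN0 : (0 : ℝ) < N := by linarith
  have hh0 : ∀ x : Finset S.P, 0 ≤ S.hs x := fun x => zero_le_one.trans (S.one_le_hs x)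
  have hnm : ∀ x : Finset S.P, 1 ≤ S.nm x := fun x => S.one_le_nm x
  have h2j : ∀ i : Fin 5, (1 : ℝ) ≤ 2 ^ j i := fun i => one_le_pow₀ (by norm_num)
  -- the four sums
  have s0 : ∑ x ∈ S.bx (2 ^ j 0), uq1w S.nm S.hs (j 0) s x ≤
      4 * |C4| * (2 : ℝ) ^ ((1 - s) * j 0) := by
    refine uq1_dysum _ _ _ hh0 hnm hs1 hs2 ?_
    have h4 := hC4 _ (h2j 0)
    simp only [Nat.cast_one, one_pow, one_mul, pow_one, Nat.sub_self, pow_zero, mul_one] at h4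
    exact h4.trans (mul_le_mul_of_nonneg_right (le_abs_self _) (by positivity))
  have s24 : ∀ i : Fin 5, ∑ g ∈ Q.gb (2 ^ j i),
      uq1w (fun g => S.nm (Q.shd g)) (fun g => S.hs (Q.shd g)) (j i) s g ≤
      4 * (|C2| * N) * (2 : ℝ) ^ ((1 - s) * j i) := by
    intro i
    refine uq1_dysum _ _ _ (fun g => hh0 _) (fun g => hnm _) hs1 hs2 ?_
    have h4 := hC2 Q _ (h2j i)
    rw [Real.rpow_one] at h4
    refine h4.trans (mul_le_mul_of_nonneg_right ?_ (by positivity))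
    exact mul_le_mul_of_nonneg_right (le_abs_self _) hN0.le
  have s3 : ∑ g ∈ Q.gb (2 ^ j 3),
      uq1w (fun g => S.nm (Q.shd g)) (fun _ => 1) (j 3) s g ≤
      4 * (|C1| * N) * (2 : ℝ) ^ ((1 - s) * j 3) := by
    refine uq1_dysum _ _ _ (fun _ => zero_le_one) (fun g => hnm _) hs1 hs2 ?_
    have h4 := hC1 Q _ (h2j 3)
    rw [Real.rpow_one] at h4
    rw [Finset.sum_const, nsmul_eq_mul, mul_one]
    refine h4.trans (mul_le_mul_of_nonneg_right ?_ (by positivity))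
    exact mul_le_mul_of_nonneg_right (le_abs_self _) hN0.le
  have n24 : ∀ i : Fin 5, 0 ≤ ∑ g ∈ Q.gb (2 ^ j i),
      uq1w (fun g => S.nm (Q.shd g)) (fun g => S.hs (Q.shd g)) (j i) s g :=
    fun i => Finset.sum_nonneg fun g _ => uq1_w_nonneg (fun g => hh0 _) _ _ _
  have n3 : 0 ≤ ∑ g ∈ Q.gb (2 ^ j 3),
      uq1w (fun g => S.nm (Q.shd g)) (fun _ => 1) (j 3) s g :=
    Finset.sum_nonneg fun g _ => uq1_w_nonneg (fun _ => zero_le_one) _ _ _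
  -- the constant
  have h16 : (4 : ℝ) ^ (S.m + Q.M.card) * (2 ^ S.m * 2 ^ Q.M.card) *
      (2 ^ S.m * 2 ^ Q.M.card) ≤ 16 ^ S.m * (|C0| * N) := by
    have e1 : (4 : ℝ) ^ (S.m + Q.M.card) * (2 ^ S.m * 2 ^ Q.M.card) *
        (2 ^ S.m * 2 ^ Q.M.card) = 16 ^ S.m * 16 ^ Q.M.card := by
      have e2 : ∀ n : ℕ, (16 : ℝ) ^ n = 4 ^ n * 2 ^ n * 2 ^ n := fun n => by
        rw [← mul_pow, ← mul_pow]
        norm_num
      rw [pow_add, e2, e2]
      ring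
    rw [e1]
    refine mul_le_mul_of_nonneg_left ?_ (by positivity)
    have h4 := (hC0 Q.M).2
    rw [Real.rpow_one] at h4
    exact h4.trans (mul_le_mul_of_nonneg_right (le_abs_self _) hN0.le)
  have hhM : S.hs Q.M ≤ |C0| * N := by
    have h4 := (hC0 Q.M).1
    rw [Real.rpow_one] at h4
    exact h4.trans (mul_le_mul_of_nonneg_right (le_abs_self _) hN0.le)
  have hlin : ∀ (y z : Finset S.P) (c : S.T),
      (y.Nonempty ∨ c ≠ 0) → ∀ (j : ℕ) (s : ℝ), 1 ≤ s → s ≤ 2 →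
      |∑ x ∈ S.bx (2 ^ j), (if Nat.clog 2 (S.nm x) = j ∧ Disjoint x (y ∪ z)
        then ((sg (S.JJ x y + c ⬝ᵥ S.tys x) : ℤ) : ℝ) * (S.nm x : ℝ) ^ (-s) else 0)| ≤
        |C3| * (S.nm y : ℝ) ^ S.A * S.hs z * (2 : ℝ) ^ ((1 - s - S.dl) * j) := by
    intro y z c hyc j s ha hb
    refine (hC3 y z c hyc j s ha hb).trans ?_
    have := hh0 z
    refine mul_le_mul_of_nonneg_right (mul_le_mul_of_nonneg_right
      (mul_le_mul_of_nonneg_right (le_abs_self _) (by positivity)) this) (by positivity)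
  -- assembly
  set P3 : ℝ := (2 : ℝ) ^ (S.A * j 3) with hP3
  set P1 : ℝ := (2 : ℝ) ^ ((1 - s - S.dl) * j 1) with hP1
  have hTD : |Q.TD Θ (Wp Q s) j| ≤ (4 ^ (S.m + Q.M.card) * (2 ^ S.m * 2 ^ Q.M.card) *
      (2 ^ S.m * 2 ^ Q.M.card) * (|C3| * (P3 * N ^ S.A) * S.hs Q.M * P1)) *
      ∑ r ∈ uq1B Q j, uq1W Q j s r := by
    unfold Qd.TD
    rw [uq1_sum_box j, Finset.mul_sum]
    refine (Finset.abs_sum_le_sum_abs _ _).trans (Finset.sum_le_sum fun r _ => ?_)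
    exact uq1_r hL (abs_nonneg C3) hlin Θ hΘ j hs1 hs2 hj3 r
  have hP30 : 0 < P3 := by positivity
  have hP10 : 0 < P1 := by positivity
  have hNA : 0 < N ^ S.A := Real.rpow_pos_of_pos hN0 _
  have hK : (4 : ℝ) ^ (S.m + Q.M.card) * (2 ^ S.m * 2 ^ Q.M.card) *
      (2 ^ S.m * 2 ^ Q.M.card) * (|C3| * (P3 * N ^ S.A) * S.hs Q.M * P1) ≤
      (16 ^ S.m * (|C0| * N)) * (|C3| * (P3 * N ^ S.A) * (|C0| * N) * P1) := by
    have := hh0 Q.M
    refine mul_le_mul h16 ?_ (by positivity) (by positivity)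
    refine mul_le_mul_of_nonneg_right ?_ hP10.le
    exact mul_le_mul_of_nonneg_left hhM (by positivity)
  have hS : ∑ r ∈ uq1B Q j, uq1W Q j s r ≤ (4 * |C4| * (2 : ℝ) ^ ((1 - s) * j 0)) *
      ((4 * (|C2| * N) * (2 : ℝ) ^ ((1 - s) * j 2)) * ((4 * (|C1| * N) *
        (2 : ℝ) ^ ((1 - s) * j 3)) * (4 * (|C2| * N) * (2 : ℝ) ^ ((1 - s) * j 4)))) := by
    rw [uq1_W_sum]
    refine mul_le_mul s0 ?_ (mul_nonneg (n24 2) (mul_nonneg n3 (n24 4))) (by positivity)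
    refine mul_le_mul (s24 2) ?_ (mul_nonneg n3 (n24 4)) (by positivity)
    exact mul_le_mul s3 (s24 4) (n24 4) (by positivity)
  have hS0 : 0 ≤ ∑ r ∈ uq1B Q j, uq1W Q j s r := by
    rw [uq1_W_sum]
    exact mul_nonneg (Finset.sum_nonneg fun x _ => uq1_w_nonneg hh0 _ _ _)
      (mul_nonneg (n24 2) (mul_nonneg n3 (n24 4)))
  refine hTD.trans ((mul_le_mul hK hS hS0 (by positivity)).trans ?_)
  have hvol : vol j ^ (1 - s) = (2 : ℝ) ^ ((1 - s) * j 0) * (2 : ℝ) ^ ((1 - s) * j 1) *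
      (2 : ℝ) ^ ((1 - s) * j 2) * (2 : ℝ) ^ ((1 - s) * j 3) * (2 : ℝ) ^ ((1 - s) * j 4) := by
    unfold vol
    rw [← Real.rpow_natCast, ← Real.rpow_mul (by norm_num), ← Real.rpow_add (by norm_num),
      ← Real.rpow_add (by norm_num), ← Real.rpow_add (by norm_num),
      ← Real.rpow_add (by norm_num)]
    congr 1
    rw [Fin.sum_univ_five]
    push_cast
    ring
  have hN5 : N ^ (S.A + 5) = N ^ S.A * (N * N * N * N * N) := by
    rw [Real.rpow_add hN0]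
    congr 1
    have : N ^ (5 : ℝ) = N ^ (5 : ℕ) := by
      rw [← Real.rpow_natCast]
      norm_num
    rw [this]
    ring
  have hP1' : P1 = (2 : ℝ) ^ ((1 - s) * j 1) * (2 : ℝ) ^ (-(S.dl * j 1)) := by
    rw [hP1, ← Real.rpow_add (by norm_num)]
    congr 1
    ring
  have hfin : P3 * (2 : ℝ) ^ (-(S.dl * j 1)) ≤ (2 : ℝ) ^ ((S.A + 5) * j 3 - S.dl * j 1) := by
    rw [hP3, ← Real.rpow_add (by norm_num)]
    refine Real.rpow_le_rpow_of_exponent_le (by norm_num) ?_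
    have h5 : (0 : ℝ) ≤ j 3 := Nat.cast_nonneg _
    nlinarith
  calc _ = (16 ^ S.m * |C0| * (|C3| * |C0|) * ((4 * |C4|) * ((4 * |C2|) * ((4 * |C1|) *
        (4 * |C2|))))) * N ^ (S.A + 5) * vol j ^ (1 - s) *
        (P3 * (2 : ℝ) ^ (-(S.dl * j 1))) := by
        rw [hN5, hvol, hP1']
        ring
    _ ≤ _ := by
        refine mul_le_mul_of_nonneg_left hfin ?_
        have hv : 0 ≤ vol j ^ (1 - s) := by
          rw [hvol]
          positivity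
        have hn : 0 ≤ N ^ (S.A + 5) := Real.rpow_nonneg hN0.le _
        positivity

end Pool.Agent.H32.MQ
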