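import Pool.Agent.H32.MQ.KUStm

/-!
# Malle's conjecture for 8T28 and 8T29 over number fields, block U: the saving in a box
-/

set_option autoImplicit false

open scoped BigOperators

namespace Pool.Agent.H32.MQ

open Pool.Agent.H98.MK (sg)
open Pool.Agent.H98.MF

namespace US

/-- the geometric mean of two bounds -/
theorem geo {T D X V u ε A θ : ℝ} (hT0 : 0 ≤ T) (hD : 0 ≤ D) (hX : 1 ≤ X) (hV : 0 ≤ V)
    (hθ0 : 0 ≤ θ) (hθ1 : θ ≤ 1) (hθ : ε / 2 * (1 - θ) + A * θ ≤ ε)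
    (h1 : T ≤ D * X ^ (ε / 2) * V) (h2 : T ≤ D * X ^ A * V * (2 : ℝ) ^ u) :
    T ≤ D * X ^ ε * V * (2 : ℝ) ^ (θ * u) := by
  have hX0 : 0 < X := by linarith
  have hn : 0 ≤ D * X ^ ε * V * (2 : ℝ) ^ (θ * u) := by positivity
  rcases hT0.eq_or_lt with h | hT
  · rw [← h]
    exact hn
  have hD' : 0 < D := by
    rcases hD.eq_or_lt with h | h
    · rw [← h, zero_mul, zero_mul] at h1
      linarith
    · exact h
  have hV' : 0 < V := by
    rcases hV.eq_or_lt with h | h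
    · rw [← h, mul_zero] at h1
      linarith
    · exact h
  have hs : ∀ a : ℝ, 0 < a → a ^ (1 - θ) * a ^ θ = a := by
    intro a ha
    rw [← Real.rpow_add ha, sub_add_cancel, Real.rpow_one]
  have e2 : T ^ (1 - θ) ≤ (D * X ^ (ε / 2) * V) ^ (1 - θ) :=
    Real.rpow_le_rpow hT.le h1 (by linarith)
  have e3 : T ^ θ ≤ (D * X ^ A * V * (2 : ℝ) ^ u) ^ θ := Real.rpow_le_rpow hT.le h2 hθ0
  have f1 : (D * X ^ (ε / 2) * V) ^ (1 - θ) =
      D ^ (1 - θ) * X ^ (ε / 2 * (1 - θ)) * V ^ (1 - θ) := by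
    rw [Real.mul_rpow (by positivity) hV'.le, Real.mul_rpow hD'.le (by positivity),
      Real.rpow_mul hX0.le]
  have f2 : (D * X ^ A * V * (2 : ℝ) ^ u) ^ θ =
      D ^ θ * X ^ (A * θ) * V ^ θ * (2 : ℝ) ^ (θ * u) := by
    rw [Real.mul_rpow (by positivity) (by positivity),
      Real.mul_rpow (by positivity) hV'.le, Real.mul_rpow hD'.le (by positivity),
      Real.rpow_mul hX0.le, mul_comm θ u, Real.rpow_mul (by norm_num)]
  calc T = T ^ (1 - θ) * T ^ θ := (hs T hT).symm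
    _ ≤ (D * X ^ (ε / 2) * V) ^ (1 - θ) * (D * X ^ A * V * (2 : ℝ) ^ u) ^ θ :=
        mul_le_mul e2 e3 (by positivity) (by positivity)
    _ = (D ^ (1 - θ) * D ^ θ) * (X ^ (ε / 2 * (1 - θ)) * X ^ (A * θ)) *
          (V ^ (1 - θ) * V ^ θ) * (2 : ℝ) ^ (θ * u) := by
        rw [f1, f2]
        ring
    _ = D * X ^ (ε / 2 * (1 - θ) + A * θ) * V * (2 : ℝ) ^ (θ * u) := by
        rw [hs D hD', hs V hV', ← Real.rpow_add hX0]
    _ ≤ D * X ^ ε * V * (2 : ℝ) ^ (θ * u) := by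
        have h3 : X ^ (ε / 2 * (1 - θ) + A * θ) ≤ X ^ ε :=
          Real.rpow_le_rpow_of_exponent_le hX hθ
        gcongr

variable {S : Sys} {Q : Qd S}

open Classical in
/-- the normalized weight at a level -/
noncomputable def wl (s : ℝ) (l : ℕ) (x : Finset S.P) : ℝ :=
  if Nat.clog 2 (S.nm x) = l then (2 : ℝ) ^ (s * ((l : ℝ) - 1)) * pw s x else 0

theorem abs_wl {s : ℝ} (hs : 0 ≤ s) (l : ℕ) (x : Finset S.P) : |wl s l x| ≤ 1 := by
  unfold wl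
  split_ifs with h
  · have hn : (0 : ℝ) < S.nm x := S.nm_posr x
    have h1 : (2 : ℝ) ^ ((l : ℝ) - 1) ≤ S.nm x := by
      rcases Nat.eq_zero_or_pos l with h0 | h0
      · have h2 : (2 : ℝ) ^ ((l : ℝ) - 1) ≤ 1 := by
          refine Real.rpow_le_one_of_one_le_of_nonpos (by norm_num) ?_
          rw [h0]
          norm_num
        exact h2.trans (S.one_le_nmr x)
      · have h2 : 1 < S.nm x := by
          by_contra h3
          have h4 : Nat.clog 2 (S.nm x) = 0 := Nat.clog_of_right_le_one (by omega) 2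
          omega
        have h3 : 2 ^ (Nat.clog 2 (S.nm x)).pred < S.nm x :=
          Nat.pow_pred_clog_lt_self (by norm_num) h2
        rw [h] at h3
        have h4 : ((2 : ℝ) ^ (l.pred) : ℝ) ≤ S.nm x := by
          exact_mod_cast h3.le
        have h5 : ((l : ℝ) - 1) = ((l.pred : ℕ) : ℝ) := by
          rw [Nat.pred_eq_sub_one, Nat.cast_sub h0, Nat.cast_one]
        rw [h5, Real.rpow_natCast]
        exact h4
    have h2 : (2 : ℝ) ^ (s * ((l : ℝ) - 1)) ≤ (S.nm x : ℝ) ^ s := by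
      rw [mul_comm, Real.rpow_mul (by norm_num)]
      exact Real.rpow_le_rpow (by positivity) h1 hs
    have h3 : 0 ≤ (2 : ℝ) ^ (s * ((l : ℝ) - 1)) * pw s x := by
      unfold pw
      positivity
    rw [abs_of_nonneg h3]
    unfold pw
    calc (2 : ℝ) ^ (s * ((l : ℝ) - 1)) * (S.nm x : ℝ) ^ (-s)
        ≤ (S.nm x : ℝ) ^ s * (S.nm x : ℝ) ^ (-s) :=
          mul_le_mul_of_nonneg_right h2 (by positivity)
      _ = 1 := by rw [← Real.rpow_add hn, add_neg_cancel, Real.rpow_zero]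
  · rw [abs_zero]
    exact zero_le_one

theorem pw_eq (s : ℝ) {l : ℕ} {x : Finset S.P} (h : Nat.clog 2 (S.nm x) = l) :
    pw s x = (2 : ℝ) ^ (s - s * (l : ℝ)) * wl s l x := by
  unfold wl
  rw [if_pos h, ← mul_assoc, ← Real.rpow_add (by norm_num)]
  have h1 : s - s * (l : ℝ) + s * ((l : ℝ) - 1) = 0 := by ring
  rw [h1, Real.rpow_zero, one_mul]

/-- the normalized weights -/
noncomputable def Wl (Q : Qd S) (s : ℝ) (j : Fin 5 → ℕ) : Wg Q :=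
  ⟨wl s (j 0), wl s (j 1), fun g => wl s (j 2) (Q.shd g), fun g => wl s (j 3) (Q.shd g),
    fun g => wl s (j 4) (Q.shd g)⟩

theorem bd_Wl (Q : Qd S) {s : ℝ} (hs : 0 ≤ s) (j : Fin 5 → ℕ) : (Wl Q s j).Bd :=
  ⟨fun x => abs_wl hs _ x, fun x => abs_wl hs _ x, fun g => abs_wl hs _ (Q.shd g),
    fun g => abs_wl hs _ (Q.shd g), fun g => abs_wl hs _ (Q.shd g)⟩

theorem vol_pos (j : Fin 5 → ℕ) : 0 < vol j := by
  unfold vol
  positivity

theorem vol_rpow (j : Fin 5 → ℕ) (t : ℝ) :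
    vol j ^ t = (2 : ℝ) ^ (t * ((j 0 : ℝ) + j 1 + j 2 + j 3 + j 4)) := by
  unfold vol
  rw [← Real.rpow_natCast, ← Real.rpow_mul (by norm_num), Fin.sum_univ_five]
  push_cast
  rw [mul_comm]

theorem mem_box {j : Fin 5 → ℕ} {x : Cf Q} : x ∈ Q.box j ↔ x.Ok ∧ ∀ i, x.lv i = j i := by
  unfold Qd.box
  rw [Set.Finite.mem_toFinset]
  rfl

theorem TD_Wp (Q : Qd S) (Θ : Q.G → El S → El S → ℝ) (s : ℝ) (j : Fin 5 → ℕ) :
    Q.TD Θ (Wp Q s) j = (2 : ℝ) ^ (5 * s) * vol j ^ (-s) * Q.TD Θ (Wl Q s j) j := by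
  unfold Qd.TD
  rw [Finset.mul_sum]
  refine Finset.sum_congr rfl fun x hx => ?_
  obtain ⟨-, hl⟩ := mem_box.1 hx
  have h0 := pw_eq s (hl 0)
  have h1 := pw_eq s (hl 1)
  have h2 := pw_eq s (hl 2)
  have h3 := pw_eq s (hl 3)
  have h4 := pw_eq s (hl 4)
  have e : (Wp Q s).val x = (2 : ℝ) ^ (5 * s) * vol j ^ (-s) * (Wl Q s j).val x := by
    have e1 : (Wp Q s).val x = pw s (x.sd 0) * pw s (x.sd 1) * pw s (x.sd 2) *
      pw s (x.sd 3) * pw s (x.sd 4) := rfl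
    have e2 : (Wl Q s j).val x = wl s (j 0) (x.sd 0) * wl s (j 1) (x.sd 1) *
      wl s (j 2) (x.sd 2) * wl s (j 3) (x.sd 3) * wl s (j 4) (x.sd 4) := rfl
    have e3 : (2 : ℝ) ^ (5 * s) * vol j ^ (-s) = (2 : ℝ) ^ (s - s * (j 0 : ℝ)) *
        (2 : ℝ) ^ (s - s * (j 1 : ℝ)) * (2 : ℝ) ^ (s - s * (j 2 : ℝ)) *
        (2 : ℝ) ^ (s - s * (j 3 : ℝ)) * (2 : ℝ) ^ (s - s * (j 4 : ℝ)) := by
      have h2 : (0 : ℝ) < 2 := by norm_num
      rw [vol_rpow, ← Real.rpow_add h2, ← Real.rpow_add h2, ← Real.rpow_add h2,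
        ← Real.rpow_add h2, ← Real.rpow_add h2]
      congr 1
      ring
    rw [e1, e2, e3, h0, h1, h2, h3, h4]
    ring
  rw [e]
  ring

theorem abs_TD_Wp (Q : Qd S) (Θ : Q.G → El S → El S → ℝ) {s : ℝ} (hs : s ≤ 2)
    (j : Fin 5 → ℕ) :
    |Q.TD Θ (Wp Q s) j| ≤ 1024 * vol j ^ (-s) * |Q.TD Θ (Wl Q s j) j| := by
  have hv := vol_pos j
  have h0 : 0 ≤ (2 : ℝ) ^ (5 * s) * vol j ^ (-s) := by positivity
  rw [TD_Wp, abs_mul, abs_of_nonneg h0]
  have h1 : (2 : ℝ) ^ (5 * s) ≤ 1024 := by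
    have h2 : (2 : ℝ) ^ (5 * s) ≤ (2 : ℝ) ^ (10 : ℝ) :=
      Real.rpow_le_rpow_of_exponent_le (by norm_num) (by linarith)
    have h3 : (2 : ℝ) ^ (10 : ℝ) = 1024 := by
      have h4 : (10 : ℝ) = ((10 : ℕ) : ℝ) := by norm_num
      rw [h4, Real.rpow_natCast]
      norm_num
    linarith
  have h2 : 0 ≤ vol j ^ (-s) := by positivity
  exact mul_le_mul_of_nonneg_right (mul_le_mul_of_nonneg_right h1 h2) (abs_nonneg _)

/-- bounds for bounded weights give bounds for the powers of the norm -/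
theorem sc (Q : Qd S) (Θ : Q.G → El S → El S → ℝ) {s : ℝ} (hs : s ≤ 2)
    (j : Fin 5 → ℕ) {C K R : ℝ} (hK : 0 ≤ K) (hR : 0 ≤ R)
    (h : |Q.TD Θ (Wl Q s j) j| ≤ C * K * vol j * R) :
    |Q.TD Θ (Wp Q s) j| ≤ 1024 * |C| * K * vol j ^ (1 - s) * R := by
  have hv := vol_pos j
  have h1 : vol j ^ (1 - s) = vol j ^ (-s) * vol j := by
    rw [sub_eq_add_neg, add_comm, Real.rpow_add hv, Real.rpow_one]
  have h2 : C * K * vol j * R ≤ |C| * K * vol j * R := by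
    have h3 : C ≤ |C| := le_abs_self C
    gcongr
  calc |Q.TD Θ (Wp Q s) j| ≤ 1024 * vol j ^ (-s) * |Q.TD Θ (Wl Q s j) j| :=
        abs_TD_Wp Q Θ hs j
    _ ≤ 1024 * vol j ^ (-s) * (|C| * K * vol j * R) :=
        mul_le_mul_of_nonneg_left (h.trans h2) (by positivity)
    _ = 1024 * |C| * K * vol j ^ (1 - s) * R := by
        rw [h1]
        ring

/-- monotonicity of the bounds -/
theorem mono {C D X A A' V u v : ℝ} (hC : C ≤ D) (hD : 0 ≤ D) (hX : 1 ≤ X) (hA : A ≤ A')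
    (hV : 0 ≤ V) (hu : u ≤ v) :
    C * X ^ A * V * (2 : ℝ) ^ u ≤ D * X ^ A' * V * (2 : ℝ) ^ v := by
  have hX0 : 0 < X := by linarith
  have h1 : X ^ A ≤ X ^ A' := Real.rpow_le_rpow_of_exponent_le hX hA
  have h2 : (2 : ℝ) ^ u ≤ (2 : ℝ) ^ v := Real.rpow_le_rpow_of_exponent_le (by norm_num) hu
  gcongr

/-- the cases of the exponent -/
theorem EE_cases (A : ℝ) (j : Fin 5 → ℕ) (P : ℝ → Prop)
    (h1 : ∀ i k, Qd.Lk i k → P (min (j i : ℝ) (j k)))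
    (h2 : 1 ≤ j 3 → 0 ≤ (j 1 : ℝ) - A * j 3 → P ((j 1 : ℝ) - A * j 3))
    (h3 : 1 ≤ j 4 → 0 ≤ (j 0 : ℝ) - A * j 4 → P ((j 0 : ℝ) - A * j 4))
    (h4 : j 3 = 0 → j 4 = 0 → P (min (j 0 : ℝ) (j 1))) : P (EE A j) := by
  have g1 := h1 1 3 (Or.inl ⟨rfl, rfl⟩)
  have g2 := h1 0 4 (Or.inr (Or.inl ⟨rfl, rfl⟩))
  have g3 := h1 2 3 (Or.inr (Or.inr (Or.inl ⟨rfl, rfl⟩)))
  have g4 := h1 2 4 (Or.inr (Or.inr (Or.inr ⟨rfl, rfl⟩)))
  have k0 : ∀ i k : Fin 5, (0 : ℝ) ≤ min (j i : ℝ) (j k) := fun i k =>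
    le_min (Nat.cast_nonneg _) (Nat.cast_nonneg _)
  have hM : ∀ a b : ℝ, P a → P b → P (max a b) := by
    intro a b ha hb
    rcases max_choice a b with h | h
    · rw [h]
      exact ha
    · rw [h]
      exact hb
  have hMP : P (max (max (min (j 1 : ℝ) (j 3)) (min (j 0 : ℝ) (j 4)))
      (max (min (j 2 : ℝ) (j 3)) (min (j 2 : ℝ) (j 4)))) :=
    hM _ _ (hM _ _ g1 g2) (hM _ _ g3 g4)
  have hM0 : 0 ≤ max (max (min (j 1 : ℝ) (j 3)) (min (j 0 : ℝ) (j 4)))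
      (max (min (j 2 : ℝ) (j 3)) (min (j 2 : ℝ) (j 4))) :=
    le_max_of_le_left (le_max_of_le_left (k0 1 3))
  unfold EE
  rcases le_total (if 1 ≤ j 3 then (j 1 : ℝ) - A * j 3
      else if 1 ≤ j 4 then (j 0 : ℝ) - A * j 4 else min (j 0 : ℝ) (j 1))
      (max (max (min (j 1 : ℝ) (j 3)) (min (j 0 : ℝ) (j 4)))
      (max (min (j 2 : ℝ) (j 3)) (min (j 2 : ℝ) (j 4)))) with h | h
  · rw [max_eq_left h]
    exact hMP
  · rw [max_eq_right h]
    have h0 := hM0.trans h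
    split_ifs at h0 ⊢ with h5 h6
    · exact h2 h5 h0
    · exact h3 h6 h0
    · exact h4 (by omega) (by omega)

end US

open US in
/-- the saving in a box -/
theorem sus_of (hT : SUT) (hP : SUP) (h1 : SUQ1) (h2 : SUQ0) (h3 : SUQ00) : SUS := by
  intro S C0 A0 η0 ε hη0 hε
  obtain ⟨c1, hc1⟩ := hT S (ε / 2) (by linarith)
  obtain ⟨c2, a2, e2, ha2, he2, hc2⟩ := hP S C0 A0 η0 hη0
  obtain ⟨c3, a3, e3, ha3, he3, hc3⟩ := h1 S
  obtain ⟨c4, a4, e4, ha4, he4, hc4⟩ := h2 S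
  obtain ⟨c5, a5, e5, ha5, he5, hc5⟩ := h3 S
  obtain ⟨D, hD⟩ : ∃ D : ℝ, D = 1024 * |c1| + 1024 * |c2| + |c3| + |c4| + |c5| := ⟨_, rfl⟩
  obtain ⟨A, hA⟩ : ∃ A : ℝ, A = a2 + a3 + a4 + a5 := ⟨_, rfl⟩
  obtain ⟨η, hη⟩ : ∃ η : ℝ, η = min (min e2 e3) (min e4 e5) := ⟨_, rfl⟩
  obtain ⟨B, hB⟩ : ∃ B : ℝ, B = max (a3 / e3) (a4 / e4) := ⟨_, rfl⟩
  obtain ⟨θ, hθ⟩ : ∃ θ : ℝ, θ = min 1 (ε / (2 * A + 2)) := ⟨_, rfl⟩
  have hc1' := abs_nonneg c1
  have hc2' := abs_nonneg c2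
  have hc3' := abs_nonneg c3
  have hc4' := abs_nonneg c4
  have hc5' := abs_nonneg c5
  have hD0 : 0 ≤ D := by rw [hD]; positivity
  have hA0 : 0 ≤ A := by rw [hA]; positivity
  have hη1 : 0 < η := by
    rw [hη]
    exact lt_min (lt_min he2 he3) (lt_min he4 he5)
  have hη2 : η ≤ e2 := by rw [hη]; exact (min_le_left _ _).trans (min_le_left _ _)
  have hη3 : η ≤ e3 := by rw [hη]; exact (min_le_left _ _).trans (min_le_right _ _)
  have hη4 : η ≤ e4 := by rw [hη]; exact (min_le_right _ _).trans (min_le_left _ _)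
  have hη5 : η ≤ e5 := by rw [hη]; exact (min_le_right _ _).trans (min_le_right _ _)
  have hB3 : a3 / e3 ≤ B := by rw [hB]; exact le_max_left _ _
  have hB4 : a4 / e4 ≤ B := by rw [hB]; exact le_max_right _ _
  have hB0 : 0 ≤ B := le_trans (by positivity) hB3
  have hB3' : a3 ≤ B * e3 := (div_le_iff₀ he3).1 hB3
  have hB4' : a4 ≤ B * e4 := (div_le_iff₀ he4).1 hB4
  have hθ0 : 0 < θ := by
    rw [hθ]
    exact lt_min one_pos (by positivity)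
  have hθ1 : θ ≤ 1 := by rw [hθ]; exact min_le_left _ _
  have hθ2 : θ * (2 * A + 2) ≤ ε := by
    have h : θ ≤ ε / (2 * A + 2) := by rw [hθ]; exact min_le_right _ _
    exact (le_div_iff₀ (by positivity)).1 h
  have hθ3 : ε / 2 * (1 - θ) + A * θ ≤ ε := by
    have h5 : 0 ≤ ε / 2 * θ := by positivity
    nlinarith
  refine ⟨D, B, θ * η, hB0, mul_pos hθ0 hη1, ?_⟩
  intro Q hL hBF Θ j s hΘ hNz hs1 hs2
  have hX : (1 : ℝ) ≤ S.nm Q.M := S.one_le_nmr Q.M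
  have hV : 0 ≤ vol j ^ (1 - s) := Real.rpow_nonneg (vol_pos j).le _
  have hbd := bd_Wl Q (by linarith : 0 ≤ s) j
  have hX0 : (0 : ℝ) < S.nm Q.M := by linarith
  -- the trivial bound
  have b1 : |Q.TD Θ (Wp Q s) j| ≤ D * (S.nm Q.M : ℝ) ^ (ε / 2) * vol j ^ (1 - s) := by
    have h5 := hc1 Q Θ (Wl Q s j) j hΘ hbd
    have h6 := sc Q Θ hs2 j (C := c1) (K := (S.nm Q.M : ℝ) ^ (ε / 2)) (R := 1)
      (by positivity) zero_le_one (by rw [mul_one]; exact h5)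
    rw [mul_one] at h6
    refine h6.trans ?_
    have h7 : 1024 * |c1| ≤ D := by rw [hD]; linarith
    gcongr
  -- the bound with the saving
  have b2 : |Q.TD Θ (Wp Q s) j| ≤
      D * (S.nm Q.M : ℝ) ^ A * vol j ^ (1 - s) * (2 : ℝ) ^ (-η * EE B j) := by
    refine EE_cases B j (fun t => |Q.TD Θ (Wp Q s) j| ≤
      D * (S.nm Q.M : ℝ) ^ A * vol j ^ (1 - s) * (2 : ℝ) ^ (-η * t)) ?_ ?_ ?_ ?_
    · intro i k hik
      have h5 := hc2 Q hL hBF Θ (Wl Q s j) j hΘ hbd i k hik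
      have h6 := sc Q Θ hs2 j (C := c2) (K := (S.nm Q.M : ℝ) ^ a2)
        (R := (2 : ℝ) ^ (-e2 * min (j i : ℝ) (j k))) (by positivity) (by positivity) h5
      refine h6.trans ?_
      have h7 : (0 : ℝ) ≤ min (j i : ℝ) (j k) := le_min (Nat.cast_nonneg _) (Nat.cast_nonneg _)
      refine mono ?_ hD0 hX ?_ hV ?_
      · rw [hD]; linarith
      · rw [hA]; linarith
      · nlinarith
    · intro h5 h6
      have h7 := hc3 Q hL Θ j s hΘ hs1 hs2 h5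
      refine h7.trans (mono ?_ hD0 hX ?_ hV ?_)
      · rw [hD]
        have := le_abs_self c3
        linarith
      · rw [hA]; linarith
      · have h8 : (0 : ℝ) ≤ j 3 := Nat.cast_nonneg _
        have h9 : a3 * (j 3 : ℝ) ≤ B * e3 * j 3 := mul_le_mul_of_nonneg_right hB3' h8
        have h10 : η * ((j 1 : ℝ) - B * j 3) ≤ e3 * ((j 1 : ℝ) - B * j 3) :=
          mul_le_mul_of_nonneg_right hη3 h6
        nlinarith
    · intro h5 h6
      have h7 := hc4 Q hL Θ j s hΘ hs1 hs2 h5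
      refine h7.trans (mono ?_ hD0 hX ?_ hV ?_)
      · rw [hD]
        have := le_abs_self c4
        linarith
      · rw [hA]; linarith
      · have h8 : (0 : ℝ) ≤ j 4 := Nat.cast_nonneg _
        have h9 : a4 * (j 4 : ℝ) ≤ B * e4 * j 4 := mul_le_mul_of_nonneg_right hB4' h8
        have h10 : η * ((j 0 : ℝ) - B * j 4) ≤ e4 * ((j 0 : ℝ) - B * j 4) :=
          mul_le_mul_of_nonneg_right hη4 h6
        nlinarith
    · intro h5 h6
      have h7 := hc5 Q hL Θ j s hΘ hNz hs1 hs2 h5 h6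
      refine h7.trans (mono ?_ hD0 hX ?_ hV ?_)
      · rw [hD]
        have := le_abs_self c5
        linarith
      · rw [hA]; linarith
      · have h8 : (0 : ℝ) ≤ min (j 0 : ℝ) (j 1) :=
          le_min (Nat.cast_nonneg _) (Nat.cast_nonneg _)
        nlinarith
  have h5 := geo (abs_nonneg _) hD0 hX hV hθ0.le hθ1 hθ3 b1 b2
  have h6 : θ * (-η * EE B j) = -(θ * η) * EE B j := by ring
  rw [h6] at h5
  exact h5

end Pool.Agent.H32.MQ
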