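import Pool.Agent.H32.MQ.KUStm
import Pool.Agent.H98.MF.SCount

/-!
# Project MQ, row U1: the trivial bound
-/

set_option autoImplicit false

open scoped BigOperators

namespace Pool.Agent.H32.MQ

open Pool.Agent.H98.MK (sg)
open Pool.Agent.H98.MF

section

variable {S : Sys} {Q : Qd S}

theorem ut_els : (Q.els.card : ℝ) = 2 ^ S.m * 2 ^ Q.M.card := by
  unfold Qd.els
  rw [Finset.card_product, Finset.card_powerset, Finset.card_univ, Fintype.card_fun,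
    Fintype.card_fin, ZMod.card]
  push_cast
  ring

theorem ut_tm {Θ : Q.G → El S → El S → ℝ} (hΘ : BdT Θ) (x : Cf Q) :
    |x.tm Θ| ≤ 4 ^ (S.m + Q.M.card) * (2 ^ S.m * 2 ^ Q.M.card) := by
  unfold Cf.tm
  split_ifs with h
  · have h1 : |∑ γ ∈ Q.B x.g, ∑ c ∈ Q.els, Θ γ c (Q.lab x.q) * ((sg (x.E γ c) : ℤ) : ℝ)| ≤
        ∑ γ ∈ Q.B x.g, ∑ c ∈ Q.els, (1 : ℝ) := by
      refine (Finset.abs_sum_le_sum_abs _ _).trans (Finset.sum_le_sum fun γ _ => ?_)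
      refine (Finset.abs_sum_le_sum_abs _ _).trans (Finset.sum_le_sum fun c _ => ?_)
      rw [abs_mul, abs_sgr, mul_one]
      exact hΘ γ c _
    refine h1.trans ?_
    rw [Finset.sum_const, Finset.sum_const, nsmul_eq_mul, nsmul_eq_mul, mul_one, ut_els]
    refine mul_le_mul_of_nonneg_right ?_ (by positivity)
    exact_mod_cast Q.card_B x.g
  · rw [abs_zero]
    positivity

theorem ut_val {W : Wg Q} (hW : W.Bd) (x : Cf Q) : |W.val x| ≤ 1 := by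
  unfold Wg.val
  rw [abs_mul, abs_mul, abs_mul, abs_mul]
  have h0 := hW.b0 x.q0
  have h1 := hW.b1 x.q12
  have h2 := hW.b2 x.qq
  have h3 := hW.b3 x.g0
  have h4 := hW.b4 x.g1
  refine mul_le_one₀ (mul_le_one₀ (mul_le_one₀ (mul_le_one₀ h0 (abs_nonneg _) h1)
    (abs_nonneg _) h2) (abs_nonneg _) h3) (abs_nonneg _) h4

theorem ut_box (j : Fin 5 → ℕ) : (Q.box j).card ≤
    ((S.bx (2 ^ j 0)).card * (S.bx (2 ^ j 1)).card) *
      ((Q.gb (2 ^ j 2)).card * ((Q.gb (2 ^ j 3)).card * (Q.gb (2 ^ j 4)).card)) := by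
  classical
  have hb : ∀ (y : Finset S.P) (k : ℕ), Nat.clog 2 (S.nm y) = k → (S.nm y : ℝ) ≤ 2 ^ k := by
    intro y k h
    have h1 : S.nm y ≤ 2 ^ Nat.clog 2 (S.nm y) := Nat.le_pow_clog one_lt_two _
    rw [h] at h1
    exact_mod_cast h1
  let f : Cf Q → (Finset S.P × Finset S.P) × (Finset Q.P × Finset Q.P × Finset Q.P) :=
    fun x => ((x.q0, x.q12), (x.qq, x.g0, x.g1))
  have hf : Function.Injective f := by
    intro x y h
    simp only [f, Prod.mk.injEq] at h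
    exact Cf.ext h.1.1 h.1.2 h.2.1 h.2.2.1 h.2.2.2
  rw [← Finset.card_product, ← Finset.card_product, ← Finset.card_product,
    ← Finset.card_product]
  refine Finset.card_le_card_of_injOn f ?_ hf.injOn
  intro x hx
  have hx1 : x ∈ Q.box j := hx
  unfold Qd.box at hx1
  rw [Set.Finite.mem_toFinset] at hx1
  obtain ⟨hx, hj⟩ := hx1
  simp only [f, Finset.mem_coe, Finset.mem_product, S.mem_bx, Q.mem_gb]
  exact ⟨⟨hb _ _ (hj 0), hb _ _ (hj 1)⟩, ⟨hx.gqq, hb _ _ (hj 2)⟩, ⟨hx.gg0, hb _ _ (hj 3)⟩,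
    ⟨hx.gg1, hb _ _ (hj 4)⟩⟩

end

theorem sut_of (h0 : SKPt) (h1 : SKCard) : SUT := by
  intro S ε hε
  obtain ⟨C0, hC0⟩ := h0 S (ε / 4) (by linarith)
  obtain ⟨C1, hC1⟩ := h1 S (ε / 4) (by linarith)
  obtain ⟨C2, hC2⟩ := card_bx_le S
  refine ⟨|C2| * |C2| * (|C1| * (|C1| * |C1|)) * (8 ^ S.m * |C0|), fun Q Θ W j hΘ hW => ?_⟩
  have hN : (1 : ℝ) ≤ (S.nm Q.M : ℝ) := S.one_le_nmr Q.M
  have hN0 : (0 : ℝ) < (S.nm Q.M : ℝ) := by linarith
  set E : ℝ := (S.nm Q.M : ℝ) ^ (ε / 4) with hE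
  have hE0 : 0 < E := Real.rpow_pos_of_pos hN0 _
  have h2j : ∀ i : Fin 5, (1 : ℝ) ≤ 2 ^ j i := fun i => one_le_pow₀ (by norm_num)
  have b0 : ∀ i : Fin 5, ((S.bx (2 ^ j i)).card : ℝ) ≤ |C2| * 2 ^ j i := fun i =>
    (hC2 _ (h2j i)).trans (mul_le_mul_of_nonneg_right (le_abs_self _) (by positivity))
  have b1 : ∀ i : Fin 5, ((Q.gb (2 ^ j i)).card : ℝ) ≤ |C1| * E * 2 ^ j i := fun i =>
    (hC1 Q _ (h2j i)).trans (by
      refine mul_le_mul_of_nonneg_right ?_ (by positivity)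
      exact mul_le_mul_of_nonneg_right (le_abs_self _) hE0.le)
  -- the number of terms
  have hbox : ((Q.box j).card : ℝ) ≤ ((|C2| * 2 ^ j 0) * (|C2| * 2 ^ j 1)) *
      ((|C1| * E * 2 ^ j 2) * ((|C1| * E * 2 ^ j 3) * (|C1| * E * 2 ^ j 4))) := by
    have h2 : ((Q.box j).card : ℝ) ≤ (((S.bx (2 ^ j 0)).card : ℝ) * (S.bx (2 ^ j 1)).card) *
      (((Q.gb (2 ^ j 2)).card : ℝ) * (((Q.gb (2 ^ j 3)).card : ℝ) * (Q.gb (2 ^ j 4)).card)) := by
      exact_mod_cast ut_box j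
    refine h2.trans ?_
    refine mul_le_mul (mul_le_mul (b0 0) (b0 1) (Nat.cast_nonneg _) (by positivity)) ?_
      (by positivity) (by positivity)
    exact mul_le_mul (b1 2) (mul_le_mul (b1 3) (b1 4) (Nat.cast_nonneg _) (by positivity))
      (by positivity) (by positivity)
  -- the size of a term
  have htm : ((4 : ℝ) ^ (S.m + Q.M.card) * (2 ^ S.m * 2 ^ Q.M.card)) ≤ 8 ^ S.m * |C0| * E := by
    have h2 : ((4 : ℝ) ^ (S.m + Q.M.card) * (2 ^ S.m * 2 ^ Q.M.card)) =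
        8 ^ S.m * 8 ^ Q.M.card := by
      rw [pow_add]
      have e1 : (8 : ℝ) ^ S.m = 4 ^ S.m * 2 ^ S.m := by rw [← mul_pow]; norm_num
      have e2 : (8 : ℝ) ^ Q.M.card = 4 ^ Q.M.card * 2 ^ Q.M.card := by
        rw [← mul_pow]; norm_num
      rw [e1, e2]
      ring
    rw [h2, mul_assoc]
    refine mul_le_mul_of_nonneg_left ?_ (by positivity)
    calc (8 : ℝ) ^ Q.M.card ≤ 16 ^ Q.M.card := pow_le_pow_left₀ (by norm_num) (by norm_num) _
      _ ≤ C0 * E := (hC0 Q.M).2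
      _ ≤ |C0| * E := mul_le_mul_of_nonneg_right (le_abs_self _) hE0.le
  have hEp : E * E * E * E = (S.nm Q.M : ℝ) ^ ε := by
    rw [hE, ← Real.rpow_add hN0, ← Real.rpow_add hN0, ← Real.rpow_add hN0]
    congr 1
    ring
  have hvol : vol j = 2 ^ j 0 * 2 ^ j 1 * 2 ^ j 2 * 2 ^ j 3 * 2 ^ j 4 := by
    unfold vol
    rw [Fin.sum_univ_five, pow_add, pow_add, pow_add, pow_add]
  calc |Q.TD Θ W j| ≤ ∑ _x ∈ Q.box j, (8 ^ S.m * |C0| * E) := by
        unfold Qd.TD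
        refine (Finset.abs_sum_le_sum_abs _ _).trans (Finset.sum_le_sum fun x _ => ?_)
        rw [abs_mul]
        calc |W.val x| * |x.tm Θ| ≤ 1 * |x.tm Θ| :=
              mul_le_mul_of_nonneg_right (ut_val hW x) (abs_nonneg _)
          _ = |x.tm Θ| := one_mul _
          _ ≤ _ := (ut_tm hΘ x).trans htm
    _ = ((Q.box j).card : ℝ) * (8 ^ S.m * |C0| * E) := by rw [Finset.sum_const, nsmul_eq_mul]
    _ ≤ (((|C2| * 2 ^ j 0) * (|C2| * 2 ^ j 1)) *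
      ((|C1| * E * 2 ^ j 2) * ((|C1| * E * 2 ^ j 3) * (|C1| * E * 2 ^ j 4)))) *
        (8 ^ S.m * |C0| * E) := mul_le_mul_of_nonneg_right hbox (by positivity)
    _ = _ := by
        rw [← hEp, hvol]
        ring

end Pool.Agent.H32.MQ
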