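import Pool.Agent.H32.MQ.KPt
import Pool.Agent.H32.MQ.KCard
import Pool.Agent.H32.MQ.KHs
import Pool.Agent.H32.MQ.KLin
import Pool.Agent.H32.MQ.KGood
import Pool.Agent.H32.MQ.KBa
import Pool.Agent.H32.MQ.KBb
import Pool.Agent.H32.MQ.KBc
import Pool.Agent.H32.MQ.KB1
import Pool.Agent.H32.MQ.UT
import Pool.Agent.H32.MQ.U13
import Pool.Agent.H32.MQ.U23
import Pool.Agent.H32.MQ.UM
import Pool.Agent.H32.MQ.UP
import Pool.Agent.H32.MQ.UQ1
import Pool.Agent.H32.MQ.UQ0
import Pool.Agent.H32.MQ.UQ00
import Pool.Agent.H32.MQ.UC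
import Pool.Agent.H32.MQ.US
import Pool.Agent.H32.MQ.UA
import Pool.Agent.H32.MQ.UE
import Pool.Agent.H32.MQ.UB
import Pool.Agent.H32.MQ.UD

/-!
# Malle's conjecture for 8T28 and 8T29 over number fields: the uniform bound (assembly of the
blocks K and U)
-/

set_option autoImplicit false

namespace Pool.Agent.H32.MQ

theorem skhs : SKHs := skhs_of skpt skcard

theorem skgood : SKGood := skgood_of skpt

theorem skb1 : SKB1 := skb1_of (ska_of skpt) (skb_of skpt skcard skhs skgood) (skc_of skpt)

theorem sut : SUT := sut_of skpt skcard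

theorem sup : SUP := sup_of (su13_of skpt skcard skb1) (su23_of skpt skcard) sum_mir

theorem suq1 : SUQ1 := suq1_of skpt skcard skhs sklin

theorem suq0 : SUQ0 := suq0_of suq1 sum_mir

theorem suq00 : SUQ00 := suq00_of skpt skcard skhs sklin

theorem sus : SUS := sus_of sut sup suq1 suq0 suq00

/-- the uniform bound for the Dirichlet series of the pairs -/
theorem sud : SUD := sud_of sus suc (sue_of sua) (sub_of sua)

/-- the tail of the expansion -/
theorem sutail : SUTail := sutail_of sus suc sua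

end Pool.Agent.H32.MQ
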