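import Pool.Agent.H32.MQ.AADs
import Pool.Agent.H32.MQ.AAFin
import Pool.Agent.H32.MQ.AAU
import Pool.Agent.H32.MQ.AAsU
import Pool.Agent.H32.MQ.APar
import Pool.Agent.H32.MQ.ASize
import Pool.Agent.H32.MQ.AFib
import Pool.Agent.H32.MQ.AHsZ
import Pool.Agent.H32.MQ.AClW
import Pool.Agent.H32.MQ.ADiff
import Pool.Agent.H32.MQ.ALocN
import Pool.Agent.H32.MQ.ANrm
import Pool.Agent.H32.MQ.ARam
import Pool.Agent.H32.MQ.ARexH
import Pool.Agent.H32.MQ.UMain
import Pool.Agent.H32.MQ.AHind

/-!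
# Malle's conjecture for 8T28 and 8T29 over number fields, block A: assembly
-/

set_option autoImplicit false

open scoped BigOperators
open NumberField IsDedekindDomain

namespace Pool.Agent.H32.MQ

open Pool.Agent.H98.MF

/-- the uniform bound for the number of homomorphisms -/
theorem sAUAll {k : Type} [Field k] [NumberField k] (Fr : Frm k) : SAU Fr :=
  sAU Fr
    (fun L _ _ _ E => stAFin E Fr (stPar E Fr stHind (stRexH L))
      (stSize E Fr stHind (stRexH L) (fun R => stNrm (E.toHX Fr R)))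
      (fun R => stFib (E.toHX Fr R) (stHsZ L) (stDiff L) (stClW (E.toHX Fr R))
        (stRam (E.toHX Fr R)) (stLocN (E.toHX Fr R)) (stPosX (E.toHX Fr R)))
      (fun R => stPosX (E.toHX Fr R)) (fun R => stZs (E.toHX Fr R)))
    (sAsU Fr (fun _ _ _ _ X => stNrm X)) (sADs Fr sud)

end Pool.Agent.H32.MQ
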