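import Pool.Agent.H32.MQ.AStm

/-!
# Malle's conjecture for 8T28 and 8T29 over number fields, row A11: the size of the discriminant
of a homomorphism with given parameters, auxiliary facts
-/

set_option autoImplicit false

open scoped BigOperators
open NumberField IsDedekindDomain

namespace Pool.Agent.H32.MQ

open Pool.Agent.H98.MF
open Pool.Agent.H98.ML (Dt Ext norb hind)

/-! ### the indices -/

theorem asize_v (g : Ext D4) : g.v = (![c0 g, c1 g] : Fin 2 → ZMod 2) := by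
  funext i
  match i with
  | ⟨0, _⟩ => rfl
  | ⟨1, _⟩ => rfl

theorem asize_01 : ∀ a : ZMod 2, a = 0 ∨ a = 1 := by decide

theorem asize_h01 (hI : StHind) (g : Ext D4) (h0 : c0 g = 0) (h1 : c1 g = 1) :
    hind H4 g = 1 := by
  have hv : g.v = (![0, 1] : Fin 2 → ZMod 2) := by rw [asize_v g, h0, h1]
  have h2 : ¬ ((![0, 1] : Fin 2 → ZMod 2) = 0) := by decide
  rw [hI g, hv]
  exact (if_neg h2).trans (if_pos rfl)

theorem asize_h10 (hI : StHind) (g : Ext D4) (h0 : c0 g = 1) (h1 : c1 g = 0) :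
    hind H4 g = 2 := by
  have hv : g.v = (![1, 0] : Fin 2 → ZMod 2) := by rw [asize_v g, h0, h1]
  have h2 : ¬ ((![1, 0] : Fin 2 → ZMod 2) = 0) := by decide
  have h3 : ¬ ((![1, 0] : Fin 2 → ZMod 2) = ![0, 1]) := by decide
  rw [hI g, hv]
  exact (if_neg h2).trans ((if_neg h3).trans (if_pos rfl))

theorem asize_h11 (hI : StHind) (g : Ext D4) (h0 : c0 g = 1) (h1 : c1 g = 1) :
    hind H4 g = 3 := by
  have hv : g.v = (![1, 1] : Fin 2 → ZMod 2) := by rw [asize_v g, h0, h1]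
  have h2 : ¬ ((![1, 1] : Fin 2 → ZMod 2) = 0) := by decide
  have h3 : ¬ ((![1, 1] : Fin 2 → ZMod 2) = ![0, 1]) := by decide
  have h4 : ¬ ((![1, 1] : Fin 2 → ZMod 2) = ![1, 0]) := by decide
  rw [hI g, hv]
  exact (if_neg h2).trans ((if_neg h3).trans (if_neg h4))

theorem asize_h1 (hI : StHind) (g : Ext D4) (h0 : c0 g = 1) : 2 ≤ hind H4 g := by
  rcases asize_01 (c1 g) with h | h
  · rw [asize_h10 hI g h0 h]
  · rw [asize_h11 hI g h0 h]
    norm_num

theorem asize_hz (hI : StHind) : hind H4 (⟨0, 1⟩ : Ext D4) = 2 := by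
  rw [hI]
  have h1 : ¬ ((1 : Dt.Z D4) = 0) := by
    intro h
    have h2 := congrFun h (0 : Fin 1)
    exact absurd h2 (by decide : ¬ ((1 : ZMod 2) = 0))
  rw [if_pos rfl, if_neg h1]

/-! ### the primes above a prime -/

section

variable {k : Type} [Field k] [NumberField k] {L : Type} [Field L] [NumberField L] [Algebra k L]

open Classical in
/-- a prime above `P` and its conjugate -/
noncomputable def asizeAb (σ : L ≃ₐ[k] L) (P : HeightOneSpectrum (𝓞 k)) :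
    Finset (HeightOneSpectrum (𝓞 L)) :=
  {(exists_over (L := L) P).choose, cj σ (exists_over (L := L) P).choose}

theorem asize_over (σ : L ≃ₐ[k] L) (P : HeightOneSpectrum (𝓞 k))
    {Q : HeightOneSpectrum (𝓞 L)} (h : Q ∈ asizeAb σ P) : Over P Q := by
  classical
  have h0 : Over P (exists_over (L := L) P).choose := (exists_over (L := L) P).choose_spec
  unfold asizeAb at h
  rw [Finset.mem_insert, Finset.mem_singleton] at h
  rcases h with h | h
  · rw [h]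
    exact h0
  · rw [h]
    exact h0.cj σ

theorem asize_ab_le (σ : L ≃ₐ[k] L) (P : HeightOneSpectrum (𝓞 k))
    (F : HeightOneSpectrum (𝓞 L) → ℕ) (c : ℕ)
    (h1 : ∀ Q, Over P Q → cj σ Q = Q → c ≤ F Q)
    (h2 : ∀ Q, Over P Q → cj σ Q ≠ Q → c ≤ F Q * F (cj σ Q)) :
    c ≤ ∏ Q ∈ asizeAb σ P, F Q := by
  classical
  have h0 : Over P (exists_over (L := L) P).choose := (exists_over (L := L) P).choose_spec
  unfold asizeAb
  by_cases h : cj σ (exists_over (L := L) P).choose = (exists_over (L := L) P).choose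
  · rw [h, Finset.pair_eq_singleton, Finset.prod_singleton]
    exact h1 _ h0 h
  · rw [Finset.prod_pair (fun e => h e.symm)]
    exact h2 _ h0 h

theorem asize_nrm_pos (P : HeightOneSpectrum (𝓞 k)) : 1 ≤ nrm P := by
  refine Nat.one_le_iff_ne_zero.2 fun h => ?_
  unfold nrm at h
  exact P.ne_bot (Ideal.absNorm_eq_zero_iff.1 h)

/-- the discriminant is at least a finite product -/
theorem asize_dn (RL : Rx L) (ρ : Gm L →* Ext D4) (hlc : IsLocallyConstant ρ)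
    (T : Finset (HeightOneSpectrum (𝓞 L))) :
    ∏ Q ∈ T, nrm Q ^ RL.rex Q (H4.comap ρ) ≤ QX.dn ρ := by
  classical
  have ho : IsOpen ((H4.comap ρ : Subgroup (Gm L)) : Set (Gm L)) := hlc (H4 : Set (Ext D4))
  have hf := RL.fin _ ho
  unfold QX.dn
  rw [RL.prod _ ho]
  have hs : Function.mulSupport (fun Q => nrm Q ^ RL.rex Q (H4.comap ρ)) ⊆
      ((T ∪ hf.toFinset : Finset (HeightOneSpectrum (𝓞 L))) :
        Set (HeightOneSpectrum (𝓞 L))) := by
    intro Q hQ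
    rw [Finset.mem_coe, Finset.mem_union, Set.Finite.mem_toFinset]
    right
    intro h
    apply hQ
    show nrm Q ^ RL.rex Q (H4.comap ρ) = 1
    rw [h, pow_zero]
  rw [finprod_eq_prod_of_mulSupport_subset _ hs]
  refine Finset.prod_le_prod_of_subset_of_one_le' Finset.subset_union_left fun Q _ _ => ?_
  exact Nat.one_le_pow _ _ (asize_nrm_pos Q)

/-- four disjoint sets of primes -/
theorem asize_four {ι : Type} [DecidableEq ι] (F : ι → ℕ) (T1 T2 T3 T4 : Finset ι)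
    (h12 : Disjoint T1 T2) (h123 : Disjoint (T1 ∪ T2) T3) (h4 : Disjoint (T1 ∪ T2 ∪ T3) T4) :
    ∏ Q ∈ T1 ∪ T2 ∪ T3 ∪ T4, F Q =
      (∏ Q ∈ T1, F Q) * (∏ Q ∈ T2, F Q) * (∏ Q ∈ T3, F Q) * ∏ Q ∈ T4, F Q := by
  rw [Finset.prod_union h4, Finset.prod_union h123, Finset.prod_union h12]

end

/-! ### exponents of the characters -/

theorem asize_even {n : ℤ} (h : Even n) : ((n : ℤ) : ZMod 2) = 0 := by
  obtain ⟨m, hm⟩ := h
  rw [hm, Int.cast_add]
  exact CharTwo.add_self_eq_zero _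

theorem asize_odd {n : ℤ} (h : Odd n) : ((n : ℤ) : ZMod 2) = 1 := by
  obtain ⟨m, hm⟩ := h
  rw [hm, two_mul, Int.cast_add, Int.cast_add, CharTwo.add_self_eq_zero, zero_add, Int.cast_one]

section

variable {k : Type} [Field k] [NumberField k] {L : Type} [Field L] [NumberField L] [Algebra k L]
  (E : QX k L) {Fr : Frm k}

theorem asize_nm {p : Fr.sys.P} (h : Fr.pl p ∉ E.M) : p ∉ (E.toHX Fr ∅).M := by
  classical
  show p ∉ E.MR Fr ∅
  unfold QX.MR
  rw [Finset.mem_preimage, Finset.mem_union, not_or]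
  exact ⟨h, Finset.notMem_empty _⟩

theorem asize_two {p : Fr.sys.P} (h : Fr.pl p ∉ E.M) {Q : HeightOneSpectrum (𝓞 L)}
    (hQ : Over (Fr.pl p) Q) : ord Q (2 : L) = 0 :=
  (h_ord (E.toHX Fr ∅) p Q (asize_nm E h) hQ).1

theorem asize_c1 {p : Fr.sys.P} (h : Fr.pl p ∉ E.M) {Q : HeightOneSpectrum (𝓞 L)}
    (hQ : Over (Fr.pl p) Q) (RL : Rx L) (ρ : Gm L →* Ext D4) (t : kˣ)
    (hdel : ∀ σ, c1 (ρ σ) = chi ((E.δ : L) * algebraMap k L (t : k)) σ) :
    c1 (ρ (RL.tau Q)) = ((ord (Fr.pl p) (t : k) : ℤ) : ZMod 2) := by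
  have h2 := h_ord (E.toHX Fr ∅) p Q (asize_nm E h) hQ
  have h3 := RL.chi Q h2.1 (E.δ * Units.map ((algebraMap k L : k →+* L) : k →* L) t)
  have h4 : ((E.δ * Units.map ((algebraMap k L : k →+* L) : k →* L) t : Lˣ) : L) =
    (E.δ : L) * algebraMap k L (t : k) := rfl
  rw [h4] at h3
  rw [hdel, h3, Pool.Agent.H98.MF.ord_mul Q (Units.ne_zero _)
    ((map_ne_zero _).2 (Units.ne_zero _)), h2.2, Int.cast_add,
    asize_even (E.evd (Fr.pl p) h Q hQ), zero_add]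

theorem asize_c0 {p : Fr.sys.P} (h : Fr.pl p ∉ E.M) {Q : HeightOneSpectrum (𝓞 L)}
    (hQ : Over (Fr.pl p) Q) (RL : Rx L) (ρ : Gm L →* Ext D4) (γ : Lˣ)
    (hgam : ∀ σ, c0 (ρ σ) = chi (γ : L) σ) :
    c0 (ρ (RL.tau Q)) = ((ord Q (γ : L) : ℤ) : ZMod 2) := by
  rw [hgam, RL.chi Q (asize_two E h hQ)]

theorem asize_inert (hN : StNrm (E.toHX Fr ∅)) {p : Fr.sys.P} (h : Fr.pl p ∉ E.M)
    {Q : HeightOneSpectrum (𝓞 L)} (hQ : Over (Fr.pl p) Q) (hc : cj E.sig Q = Q) :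
    nrm Q = nrm (Fr.pl p) ^ 2 :=
  hN.2 p Q (asize_nm E h) hQ hc

theorem asize_split (hN : StNrm (E.toHX Fr ∅)) {p : Fr.sys.P} (h : Fr.pl p ∉ E.M)
    {Q : HeightOneSpectrum (𝓞 L)} (hQ : Over (Fr.pl p) Q) (hc : cj E.sig Q ≠ Q) :
    nrm Q = nrm (Fr.pl p) := by
  have hb : (E.toHX Fr ∅).Out Q := ⟨p, asize_nm E h, hQ⟩
  have h1 := hN.1 ⟨Q, hb, hc⟩
  rw [(E.toHX Fr ∅).shX_eq ⟨Q, hb, hc⟩ hQ] at h1
  exact h1

theorem asize_cj (Fr : Frm k) (Q : HeightOneSpectrum (𝓞 L)) : cj E.sig (cj E.sig Q) = Q :=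
  (E.toHX Fr ∅).cj_cj' Q

/-- a prime of `t` -/
theorem asize_x (hN : StNrm (E.toHX Fr ∅)) {p : Fr.sys.P} (h : Fr.pl p ∉ E.M)
    (F : HeightOneSpectrum (𝓞 L) → ℕ)
    (hF : ∀ Q : HeightOneSpectrum (𝓞 L), Over (Fr.pl p) Q → F Q = nrm Q) :
    nrm (Fr.pl p) ^ 2 ≤ ∏ Q ∈ asizeAb E.sig (Fr.pl p), F Q := by
  refine asize_ab_le _ _ F _ (fun Q hQ hc => ?_) (fun Q hQ hc => ?_)
  · rw [hF Q hQ, asize_inert E hN h hQ hc]
  · have hc' : cj E.sig (cj E.sig Q) ≠ cj E.sig Q := by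
      rw [asize_cj E Fr]
      exact fun e => hc e.symm
    rw [hF Q hQ, hF _ (hQ.cj _), asize_split E hN h hQ hc, asize_split E hN h (hQ.cj _) hc',
      pow_two]

/-- an exceptional prime -/
theorem asize_R (hI : StHind) (hR : StRexH L) (hN : StNrm (E.toHX Fr ∅)) (RL : Rx L)
    (ρ : Gm L →* Ext D4) (hlc : IsLocallyConstant ρ) (hsur : Function.Surjective ρ)
    {p : Fr.sys.P} (h : Fr.pl p ∉ E.M) (s : ZMod 2)
    (hs : ∀ Q : HeightOneSpectrum (𝓞 L), Over (Fr.pl p) Q → c1 (ρ (RL.tau Q)) = s)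
    (hO : E.Oth RL ρ (Fr.pl p)) :
    nrm (Fr.pl p) ^ 4 ≤ ∏ Q ∈ asizeAb E.sig (Fr.pl p), nrm Q ^ RL.rex Q (H4.comap ρ) := by
  have hall : ∀ Q : HeightOneSpectrum (𝓞 L), Over (Fr.pl p) Q →
      ∀ Q' : HeightOneSpectrum (𝓞 L), Over (Fr.pl p) Q' → Q' = Q ∨ Q' = cj E.sig Q :=
    fun Q hQ Q' hQ' => Pool.Agent.H98.MF.B.qe_over E.qe E.sig (E.toHX Fr ∅).sig_α hQ hQ'
  have hv : ∀ Q : HeightOneSpectrum (𝓞 L), Over (Fr.pl p) Q → ∀ a, c0 (ρ (RL.tau Q)) = a →
      QX.vv RL ρ Q = ![a, s] := by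
    intro Q hQ a ha
    unfold QX.vv
    rw [asize_v, ha, hs Q hQ]
  have hrex : ∀ Q : HeightOneSpectrum (𝓞 L), Over (Fr.pl p) Q →
      RL.rex Q (H4.comap ρ) = hind H4 (ρ (RL.tau Q)) :=
    fun Q hQ => hR RL ρ hlc hsur Q (asize_two E h hQ)
  have hz : (![0, 0] : Fin 2 → ZMod 2) = 0 := by decide
  -- not all first coordinates vanish
  have hno : ¬ ∀ Q : HeightOneSpectrum (𝓞 L), Over (Fr.pl p) Q → c0 (ρ (RL.tau Q)) = 0 := by
    intro h0
    rcases asize_01 s with hs0 | hs0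
    · refine hO.1 fun Q hQ => ?_
      rw [hv Q hQ 0 (h0 Q hQ), hs0, hz]
    · refine hO.2.1 fun Q hQ => ?_
      rw [hv Q hQ 0 (h0 Q hQ), hs0]
  refine asize_ab_le _ _ _ _ (fun Q hQ hc => ?_) (fun Q hQ hc => ?_)
  · have h0 : c0 (ρ (RL.tau Q)) = 1 := by
      rcases asize_01 (c0 (ρ (RL.tau Q))) with h0 | h0
      · refine absurd (fun Q' hQ' => ?_) hno
        have e : Q' = Q := by
          rcases hall Q hQ Q' hQ' with e | e
          · exact e
          · rw [e, hc]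
        rw [e]
        exact h0
      · exact h0
    have h2 := asize_h1 hI _ h0
    rw [hrex Q hQ]
    calc nrm (Fr.pl p) ^ 4 = nrm Q ^ 2 := by
          rw [asize_inert E hN h hQ hc]
          ring
      _ ≤ nrm Q ^ hind H4 (ρ (RL.tau Q)) := Nat.pow_le_pow_right (asize_nrm_pos Q) h2
  · have hQ' := hQ.cj E.sig
    have hc' : cj E.sig (cj E.sig Q) ≠ cj E.sig Q := by
      rw [asize_cj E Fr]
      exact fun e => hc e.symm
    have hsum : 4 ≤ hind H4 (ρ (RL.tau Q)) + hind H4 (ρ (RL.tau (cj E.sig Q))) := by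
      have hsQ := hs Q hQ
      have hsQ' := hs _ hQ'
      rcases asize_01 (c0 (ρ (RL.tau Q))) with h0 | h0 <;>
        rcases asize_01 (c0 (ρ (RL.tau (cj E.sig Q)))) with h0' | h0'
      · refine absurd (fun Q1 hQ1 => ?_) hno
        rcases hall Q hQ Q1 hQ1 with e | e
        · rw [e]
          exact h0
        · rw [e]
          exact h0'
      · rcases asize_01 s with hs0 | hs0
        · exfalso
          refine hO.2.2 ⟨cj E.sig Q, hQ', hc', ?_, ?_⟩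
          · rw [hv _ hQ' 1 h0', hs0]
          · rw [asize_cj E Fr, hv _ hQ 0 h0, hs0, hz]
        · rw [asize_h01 hI _ h0 (hsQ.trans hs0), asize_h11 hI _ h0' (hsQ'.trans hs0)]
      · rcases asize_01 s with hs0 | hs0
        · exfalso
          refine hO.2.2 ⟨Q, hQ, hc, ?_, ?_⟩
          · rw [hv _ hQ 1 h0, hs0]
          · rw [hv _ hQ' 0 h0', hs0, hz]
        · rw [asize_h11 hI _ h0 (hsQ.trans hs0), asize_h01 hI _ h0' (hsQ'.trans hs0)]
      · exact add_le_add (asize_h1 hI _ h0) (asize_h1 hI _ h0')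
    rw [hrex Q hQ, hrex _ hQ', asize_split E hN h hQ hc, asize_split E hN h hQ' hc', ← pow_add]
    exact Nat.pow_le_pow_right (asize_nrm_pos _) hsum

end

end Pool.Agent.H32.MQ
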