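import Pool.Agent.H32.MQ.Qd

/-!
# Malle's conjecture for 8T28 and 8T29 over number fields: statements of the blocks K and U
-/

set_option autoImplicit false

open scoped BigOperators

namespace Pool.Agent.H32.MQ

open Pool.Agent.H98.MK (sg)
open Pool.Agent.H98.MF

/-! ### block K: estimates over the base system, uniform in the quadratic extension -/

/-- pointwise bounds -/
def SKPt : Prop := ∀ (S : Sys) (ε : ℝ), 0 < ε → ∃ C : ℝ, ∀ x : Finset S.P,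
  S.hs x ≤ C * (S.nm x : ℝ) ^ ε ∧ (16 : ℝ) ^ x.card ≤ C * (S.nm x : ℝ) ^ ε

/-- the number of good sets -/
def SKCard : Prop := ∀ (S : Sys) (ε : ℝ), 0 < ε → ∃ C : ℝ, ∀ (Q : Qd S) (X : ℝ), 1 ≤ X →
  ((Q.gb X).card : ℝ) ≤ C * (S.nm Q.M : ℝ) ^ ε * X

/-- the mean of the loss function over good sets -/
def SKHs : Prop := ∀ (S : Sys) (ε : ℝ), 0 < ε → ∃ C : ℝ, ∀ (Q : Qd S) (X : ℝ), 1 ≤ X →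
  ∑ g ∈ Q.gb X, S.hs (Q.shd g) ≤ C * (S.nm Q.M : ℝ) ^ ε * X

open Classical in
/-- character sums with powers of the norm over a dyadic range -/
def SKLin : Prop := ∀ (S : Sys), ∃ C : ℝ, ∀ (y z : Finset S.P) (c : S.T),
  (y.Nonempty ∨ c ≠ 0) → ∀ (j : ℕ) (s : ℝ), 1 ≤ s → s ≤ 2 →
    |∑ x ∈ S.bx (2 ^ j), (if Nat.clog 2 (S.nm x) = j ∧ Disjoint x (y ∪ z)
      then ((sg (S.JJ x y + c ⬝ᵥ S.tys x) : ℤ) : ℝ) * (S.nm x : ℝ) ^ (-s) else 0)| ≤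
      C * (S.nm y : ℝ) ^ S.A * S.hs z * (2 : ℝ) ^ ((1 - s - S.dl) * j)

open Classical in
/-- character sums over good sets -/
def SKGood : Prop := ∀ (S : Sys), ∃ C A δ : ℝ, 0 < δ ∧ ∀ (Q : Qd S) (y z : Finset S.P) (c : S.T),
  (∃ p ∈ y, p ∉ Q.M) → ∀ X : ℝ, 1 ≤ X →
    |∑ g ∈ Q.gb X, (if Disjoint (Q.shd g) (y ∪ z)
      then ((sg (S.JJ (Q.shd g) y + c ⬝ᵥ S.tys (Q.shd g)) : ℤ) : ℝ) else 0)| ≤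
      C * ((S.nm Q.M : ℝ) * S.nm y) ^ A * S.hs z * X ^ (1 - δ)

open Classical in
/-- the bilinear form of the pairs of type (k,k) -/
noncomputable def BL {S : Sys} (Q : Qd S) (a : Finset S.P → ℝ) (b : Finset Q.P → ℝ)
    (X Y : ℝ) : ℝ :=
  ∑ x ∈ S.bx X, ∑ g ∈ Q.gb Y,
    (if Disjoint x Q.M ∧ Disjoint x (Q.shd g) then a x * b g * (S.jj x (Q.shd g) : ℝ) else 0)

/-- both variables comparable -/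
def SKa : Prop := ∀ (S : Sys) (L : ℝ), 1 ≤ L → ∃ C η : ℝ, 0 < η ∧ ∀ (Q : Qd S)
  (a : Finset S.P → ℝ) (b : Finset Q.P → ℝ), (∀ x, |a x| ≤ 1) → (∀ g, |b g| ≤ 1) →
    ∀ X Y : ℝ, 1 ≤ X → 1 ≤ Y → X ≤ Y ^ L → Y ≤ X ^ L →
      |BL Q a b X Y| ≤ C * (X * Y) * min X Y ^ (-η)

/-- the good sets long -/
def SKb : Prop := ∀ (S : Sys), ∃ L C A η : ℝ, 1 ≤ L ∧ 0 ≤ A ∧ 0 < η ∧ ∀ (Q : Qd S)
  (a : Finset S.P → ℝ) (b : Finset Q.P → ℝ), (∀ x, |a x| ≤ 1) → (∀ g, |b g| ≤ 1) →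
    ∀ X Y : ℝ, 1 ≤ X → 1 ≤ Y → X ^ L ≤ Y →
      |BL Q a b X Y| ≤ C * (S.nm Q.M : ℝ) ^ A * (X * Y) * X ^ (-η)

/-- the good sets short -/
def SKc : Prop := ∀ (S : Sys), ∃ L C A η : ℝ, 1 ≤ L ∧ 0 ≤ A ∧ 0 < η ∧ ∀ (Q : Qd S)
  (a : Finset S.P → ℝ) (b : Finset Q.P → ℝ), (∀ x, |a x| ≤ 1) → (∀ g, |b g| ≤ 1) →
    ∀ X Y : ℝ, 1 ≤ X → 1 ≤ Y → Y ^ L ≤ X →
      |BL Q a b X Y| ≤ C * (S.nm Q.M : ℝ) ^ A * (X * Y) * Y ^ (-η)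

/-- (B1) -/
def SKB1 : Prop := ∀ (S : Sys), ∃ C A η : ℝ, 0 ≤ A ∧ 0 < η ∧ ∀ (Q : Qd S)
  (a : Finset S.P → ℝ) (b : Finset Q.P → ℝ), (∀ x, |a x| ≤ 1) → (∀ g, |b g| ≤ 1) →
    ∀ X Y : ℝ, 1 ≤ X → 1 ≤ Y →
      |BL Q a b X Y| ≤ C * (S.nm Q.M : ℝ) ^ A * (X * Y) * min X Y ^ (-η)

/-! ### block U: boxes -/

/-- functions bounded by one -/
def BdT {S : Sys} {Q : Qd S} (Θ : Q.G → El S → El S → ℝ) : Prop := ∀ γ c l, |Θ γ c l| ≤ 1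

/-- the weights `norm^(-s)` -/
noncomputable def Wp {S : Sys} (Q : Qd S) (s : ℝ) : Wg Q :=
  ⟨pw s, pw s, fun g => pw s (Q.shd g), fun g => pw s (Q.shd g), fun g => pw s (Q.shd g)⟩

/-- the volume of a box -/
noncomputable def vol (j : Fin 5 → ℕ) : ℝ := (2 : ℝ) ^ (∑ i, j i)

/-- the trivial bound -/
def SUT : Prop := ∀ (S : Sys) (ε : ℝ), 0 < ε → ∃ C : ℝ, ∀ (Q : Qd S)
  (Θ : Q.G → El S → El S → ℝ) (W : Wg Q) (j : Fin 5 → ℕ), BdT Θ → W.Bd →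
    |Q.TD Θ W j| ≤ C * (S.nm Q.M : ℝ) ^ ε * vol j

/-- the pair `q12, g0` -/
def SU13 : Prop := ∀ (S : Sys), ∃ C A η : ℝ, 0 ≤ A ∧ 0 < η ∧ ∀ (Q : Qd S), Q.Law → ∀
  (Θ : Q.G → El S → El S → ℝ) (W : Wg Q) (j : Fin 5 → ℕ), BdT Θ → W.Bd →
    |Q.TD Θ W j| ≤ C * (S.nm Q.M : ℝ) ^ A * vol j * (2 : ℝ) ^ (-η * min (j 1 : ℝ) (j 3))

/-- the pair `qq, g0` -/
def SU23 : Prop := ∀ (S : Sys) (C0 A0 η0 : ℝ), 0 < η0 → ∃ C A η : ℝ, 0 ≤ A ∧ 0 < η ∧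
  ∀ (Q : Qd S), Q.Law → Q.BF C0 A0 η0 → ∀
  (Θ : Q.G → El S → El S → ℝ) (W : Wg Q) (j : Fin 5 → ℕ), BdT Θ → W.Bd →
    |Q.TD Θ W j| ≤ C * (S.nm Q.M : ℝ) ^ A * vol j * (2 : ℝ) ^ (-η * min (j 2 : ℝ) (j 3))

/-- the function of the mirror image -/
noncomputable def mT {S : Sys} (Q : Qd S) (Θ : Q.G → El S → El S → ℝ) :
    Q.G → El S → El S → ℝ := fun γ c l => Θ γ c l * ((sg (Q.hM γ c l) : ℤ) : ℝ)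

/-- the symmetry -/
def SUM : Prop := ∀ (S : Sys) (Q : Qd S), Q.Law → ∀ (Θ : Q.G → El S → El S → ℝ) (W : Wg Q)
  (j : Fin 5 → ℕ), Q.TD Θ W j = Q.TD (mT Q Θ) W.mir (Qd.mj j)

/-- all linked pairs -/
def SUP : Prop := ∀ (S : Sys) (C0 A0 η0 : ℝ), 0 < η0 → ∃ C A η : ℝ, 0 ≤ A ∧ 0 < η ∧
  ∀ (Q : Qd S), Q.Law → Q.BF C0 A0 η0 → ∀
  (Θ : Q.G → El S → El S → ℝ) (W : Wg Q) (j : Fin 5 → ℕ), BdT Θ → W.Bd →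
    ∀ i k, Qd.Lk i k →
    |Q.TD Θ W j| ≤ C * (S.nm Q.M : ℝ) ^ A * vol j * (2 : ℝ) ^ (-η * min (j i : ℝ) (j k))

/-- the variable `q12` with `g0` not empty -/
def SUQ1 : Prop := ∀ (S : Sys), ∃ C A η : ℝ, 0 ≤ A ∧ 0 < η ∧ ∀ (Q : Qd S), Q.Law → ∀
  (Θ : Q.G → El S → El S → ℝ) (j : Fin 5 → ℕ) (s : ℝ), BdT Θ → 1 ≤ s → s ≤ 2 → 1 ≤ j 3 →
    |Q.TD Θ (Wp Q s) j| ≤ C * (S.nm Q.M : ℝ) ^ A * vol j ^ (1 - s) *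
      (2 : ℝ) ^ (A * j 3 - η * j 1)

/-- the variable `q0` with `g1` not empty -/
def SUQ0 : Prop := ∀ (S : Sys), ∃ C A η : ℝ, 0 ≤ A ∧ 0 < η ∧ ∀ (Q : Qd S), Q.Law → ∀
  (Θ : Q.G → El S → El S → ℝ) (j : Fin 5 → ℕ) (s : ℝ), BdT Θ → 1 ≤ s → s ≤ 2 → 1 ≤ j 4 →
    |Q.TD Θ (Wp Q s) j| ≤ C * (S.nm Q.M : ℝ) ^ A * vol j ^ (1 - s) *
      (2 : ℝ) ^ (A * j 4 - η * j 0)

/-- the case `g0`, `g1` empty -/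
def SUQ00 : Prop := ∀ (S : Sys), ∃ C A η : ℝ, 0 ≤ A ∧ 0 < η ∧ ∀ (Q : Qd S), Q.Law → ∀
  (Θ : Q.G → El S → El S → ℝ) (j : Fin 5 → ℕ) (s : ℝ), BdT Θ → Q.Nz Θ → 1 ≤ s → s ≤ 2 →
    j 3 = 0 → j 4 = 0 →
    |Q.TD Θ (Wp Q s) j| ≤ C * (S.nm Q.M : ℝ) ^ A * vol j ^ (1 - s) *
      (2 : ℝ) ^ (-η * min (j 0 : ℝ) (j 1))

open Classical in
/-- the exponent of the saving -/
noncomputable def EE (A : ℝ) (j : Fin 5 → ℕ) : ℝ :=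
  max (max (max (min (j 1 : ℝ) (j 3)) (min (j 0 : ℝ) (j 4)))
      (max (min (j 2 : ℝ) (j 3)) (min (j 2 : ℝ) (j 4))))
    (if 1 ≤ j 3 then (j 1 : ℝ) - A * j 3
      else if 1 ≤ j 4 then (j 0 : ℝ) - A * j 4 else min (j 0 : ℝ) (j 1))

/-- some linked pair is above the level `J` -/
def Hi (J : ℕ) (j : Fin 5 → ℕ) : Prop := ∃ i k, Qd.Lk i k ∧ J < j i ∧ J < j k

open Classical in
/-- the combinatorial lemma -/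
def SUC : Prop := ∀ (κ A : ℝ), 0 < κ → 0 ≤ A → ∃ C : ℝ, ∀ (σ : ℝ), 0 < σ → σ ≤ 1 →
  (Summable fun j : Fin 5 → ℕ => (2 : ℝ) ^ (-(σ * (∑ i, (j i : ℝ))) - κ * EE A j)) ∧
  ∀ J : ℕ, ∑' j : Fin 5 → ℕ, (if J = 0 ∨ Hi J j
      then (2 : ℝ) ^ (-(σ * (∑ i, (j i : ℝ))) - κ * EE A j) else 0) ≤
    C * (2 : ℝ) ^ (-(κ / 4) * J) * σ ^ (-(2 : ℝ))

/-- the saving in a box -/
def SUS : Prop := ∀ (S : Sys) (C0 A0 η0 ε : ℝ), 0 < η0 → 0 < ε → ∃ C A κ : ℝ, 0 ≤ A ∧ 0 < κ ∧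
  ∀ (Q : Qd S), Q.Law → Q.BF C0 A0 η0 → ∀ (Θ : Q.G → El S → El S → ℝ) (j : Fin 5 → ℕ) (s : ℝ),
    BdT Θ → Q.Nz Θ → 1 ≤ s → s ≤ 2 →
    |Q.TD Θ (Wp Q s) j| ≤ C * (S.nm Q.M : ℝ) ^ ε * vol j ^ (1 - s) * (2 : ℝ) ^ (-κ * EE A j)

/-- absolute convergence -/
def SUA : Prop := ∀ (S : Sys) (Q : Qd S) (Θ : Q.G → El S → El S → ℝ) (s : ℝ), BdT Θ → 1 < s →
  (Summable fun x : Cf Q => (Wp Q s).val x * x.tm Θ) ∧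
  (Summable fun z : Finset S.P × Finset Q.P =>
    Q.tp Θ z.1 z.2 * ((S.nm z.1 : ℝ) * (Q.nq z.2 : ℝ)) ^ (-s))

/-- the expansion -/
def SUE : Prop := ∀ (S : Sys) (Q : Qd S), Q.Law → ∀ (Θ : Q.G → El S → El S → ℝ) (s : ℝ),
  BdT Θ → 1 < s → Q.DS Θ s = ∑' x : Cf Q, (Wp Q s).val x * x.tm Θ

/-- the decomposition in boxes -/
def SUB : Prop := ∀ (S : Sys) (Q : Qd S) (Θ : Q.G → El S → El S → ℝ) (s : ℝ), BdT Θ → 1 < s →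
  (Summable fun j : Fin 5 → ℕ => Q.TD Θ (Wp Q s) j) ∧
  ∑' x : Cf Q, (Wp Q s).val x * x.tm Θ = ∑' j : Fin 5 → ℕ, Q.TD Θ (Wp Q s) j

/-- (U_D): the uniform bound -/
def SUD : Prop := ∀ (S : Sys) (C0 A0 η0 ε : ℝ), 0 < η0 → 0 < ε → ∃ C : ℝ, ∀ (Q : Qd S), Q.Law →
  Q.BF C0 A0 η0 → ∀ (Θ : Q.G → El S → El S → ℝ) (σ : ℝ), BdT Θ → Q.Nz Θ → 0 < σ → σ ≤ 1 →
    |Q.DS Θ (1 + σ)| ≤ C * (S.nm Q.M : ℝ) ^ ε * σ ^ (-(2 : ℝ))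

open Classical in
/-- the tail: configurations with a linked pair above the level `J` -/
def SUTail : Prop := ∀ (S : Sys) (C0 A0 η0 : ℝ), 0 < η0 → ∀ (Q : Qd S), Q.Law →
  Q.BF C0 A0 η0 → ∃ C κ : ℝ, 0 < κ ∧ ∀ (Θ : Q.G → El S → El S → ℝ) (σ : ℝ) (J : ℕ), BdT Θ →
    Q.Nz Θ → 0 < σ → σ ≤ 1 → 1 ≤ J →
    |∑' x : Cf Q, (if Hi J x.lv then (Wp Q (1 + σ)).val x * x.tm Θ else 0)| ≤
      C * (2 : ℝ) ^ (-κ * J) * σ ^ (-(2 : ℝ))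

end Pool.Agent.H32.MQ
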