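import Pool.Agent.H32.MQ.ADefs
import Pool.Agent.H32.MQ.KUStm
import Pool.Agent.H32.MQ.HMain

/-!
# Malle's conjecture for 8T28 and 8T29 over number fields, block A: statements

The uniform upper bound for the number of homomorphisms to the dihedral group of order 8.
-/

set_option autoImplicit false

open scoped BigOperators
open NumberField IsDedekindDomain

namespace Pool.Agent.H32.MQ

open Pool.Agent.H98.MK (sg)
open Pool.Agent.H98.MF
open Pool.Agent.H98.ML (Dt Ext norb hind)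

/-! ### homomorphisms to the dihedral group -/

section

variable (L : Type) [Field L] [NumberField L]

/-- the exponents of the discriminant at odd primes -/
def StRexH : Prop := ∀ (RL : Rx L) (ρ : Gm L →* Ext D4), IsLocallyConstant ρ →
  Function.Surjective ρ → ∀ Q : HeightOneSpectrum (𝓞 L), ord Q (2 : L) = 0 →
    RL.rex Q (H4.comap ρ) = hind H4 (ρ (RL.tau Q))

/-- the local symbols of the two characters vanish -/
def StHsZ : Prop := ∀ (ρ : Gm L →* Ext D4) (γ δ : Lˣ), IsLocallyConstant ρ →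
  (∀ σ, c0 (ρ σ) = chi (γ : L) σ) → (∀ σ, c1 (ρ σ) = chi (δ : L) σ) →
    ∀ Q : HeightOneSpectrum (𝓞 L), hs Q (γ : L) (δ : L) = 0

/-- two homomorphisms with the same characters differ by a quadratic character -/
def StDiff : Prop := ∀ (ρ ρ' : Gm L →* Ext D4), IsLocallyConstant ρ → IsLocallyConstant ρ' →
  (∀ σ, (ρ σ).v = (ρ' σ).v) → ∃ b : Lˣ, ∀ σ, cz (ρ' σ) = cz (ρ σ) + chi (b : L) σ

end

/-! ### ramified primes and classes -/

namespace HX

variable {k : Type} [Field k] [NumberField k] {Fr : Frm k} {L : Type} [Field L]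
  [NumberField L] [Algebra k L] (X : HX Fr L)

variable (L) in
open Classical in
/-- the primes above a set of primes of the frame -/
noncomputable def abv (x : Finset Fr.sys.P) : Finset (HeightOneSpectrum (𝓞 L)) :=
  (Pool.Agent.H98.MF.B.ovr_exists (L := L) (x.image Fr.pl)).choose

open Classical in
/-- the ramified primes of a pair -/
noncomputable def ramX (x : Finset Fr.sys.P) (g : Finset X.PX) :
    Finset (HeightOneSpectrum (𝓞 L)) := abv L x ∪ g.image Subtype.val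

/-- the classes with odd exponents outside `M` only at `W` -/
def Cl (W : Finset (HeightOneSpectrum (𝓞 L))) : Set (GX L) :=
  {γ | ∀ Q : HeightOneSpectrum (𝓞 L), X.Out Q → Odd (ord Q ((out γ : Lˣ) : L)) → Q ∈ W}

open Classical in
/-- the factor of a prime of `t` -/
noncomputable def fpX (γ : GX L) (p : Fr.sys.P) : ℝ :=
  if h : ∃ b : X.PX, X.shX b = p then
    (1 + ((sg (qr ((out γ : Lˣ) : L) h.choose.1) : ℤ) : ℝ)) *
      (1 + ((sg (qr ((out γ : Lˣ) : L) (X.cjX h.choose).1) : ℤ) : ℝ))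
  else 1 + ((sg (qr (nrX (k := k) (out γ) : k) (Fr.pl p)) : ℤ) : ℝ)

open Classical in
/-- the factor of a prime of `γ` -/
noncomputable def faX (c : El Fr.sys) (x : Finset Fr.sys.P) (b : X.PX) : ℝ :=
  1 + ((sg (qr (X.δ : L) b.1 + Fr.sys.ex (x ∪ c.2) c.1 (X.shX b)) : ℤ) : ℝ)

open Classical in
/-- admissible pairs -/
def okX (x : Finset Fr.sys.P) (g : Finset X.PX) : Prop :=
  (∀ b ∈ g, ∀ b' ∈ g, X.shX b = X.shX b' → b = b') ∧ Disjoint x X.M ∧
    Disjoint x (g.image X.shX)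

open Classical in
/-- the nonnegative term of a pair -/
noncomputable def tpX (x : Finset Fr.sys.P) (g : Finset X.PX) : ℝ :=
  if X.okX x g then ∑ γ ∈ X.BX g,
    ∑ c ∈ (Finset.univ : Finset Fr.sys.T) ×ˢ X.M.powerset,
      (if γ ∈ X.BX ∅ ∧ X.nuX γ = (0, ∅) then 0 else 1) *
        ((∏ p ∈ x, X.fpX γ p) * ∏ b ∈ g, X.faX c x b) else 0

open Classical in
/-- the norm of a pair -/
noncomputable def nmX (z : Finset Fr.sys.P × Finset X.PX) : ℕ :=
  Fr.sys.nm z.1 * Fr.sys.nm (z.2.image X.shX)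

/-- the admissible pairs of bounded norm -/
def Zs (Y : ℝ) : Set (Finset Fr.sys.P × Finset X.PX) :=
  {z | X.okX z.1 z.2 ∧ (X.nmX z : ℝ) ≤ Y}

open Classical in
/-- the admissible pairs of bounded norm -/
noncomputable def zs (Y : ℝ) : Finset (Finset Fr.sys.P × Finset X.PX) :=
  if h : (X.Zs Y).Finite then h.toFinset else ∅

/-- sets of primes outside `M` of bounded norm -/
def As (Z : ℝ) : Set (Finset (HeightOneSpectrum (𝓞 L))) :=
  {A | (∀ Q ∈ A, X.Out Q) ∧ ((∏ Q ∈ A, nrm Q : ℕ) : ℝ) ≤ Z}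

variable (RL : Rx L)

/-- the homomorphisms with characters `γ`, `δ t` and central values exactly at `A` -/
def Fib (γ : Lˣ) (t : kˣ) (A : Finset (HeightOneSpectrum (𝓞 L))) : Set (Gm L →* Ext D4) :=
  {ρ | IsLocallyConstant ρ ∧ (∀ σ, c0 (ρ σ) = chi (γ : L) σ) ∧
    (∀ σ, c1 (ρ σ) = chi ((X.δ : L) * algebraMap k L (t : k)) σ) ∧
    ∀ Q, X.Out Q → (ρ (RL.tau Q) = (⟨0, 1⟩ : Ext D4) ↔ Q ∈ A)}

end HX

section

variable {k : Type} [Field k] [NumberField k] {Fr : Frm k} {L : Type} [Field L]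
  [NumberField L] [Algebra k L] (X : HX Fr L)

/-- the norms of the primes -/
def StNrm : Prop := (∀ b : X.PX, nrm b.1 = nrm (Fr.pl (X.shX b))) ∧
  ∀ (p : Fr.sys.P) (Q : HeightOneSpectrum (𝓞 L)), p ∉ X.M → Over (Fr.pl p) Q →
    cj X.sig Q = Q → nrm Q = nrm (Fr.pl p) ^ 2

/-- few classes with odd exponents in a given set -/
def StClW : Prop := ∀ W : Finset (HeightOneSpectrum (𝓞 L)),
  (X.Cl W).Finite ∧ (X.Cl W).ncard ≤ 2 ^ W.card * 4 ^ (Fr.sys.m + X.M.card)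

open Classical in
/-- the number of ramified primes of a pair -/
def StRam : Prop := ∀ (x : Finset Fr.sys.P) (g : Finset X.PX), Disjoint x X.M →
  2 ^ (X.ramX x g).card ≤
    (∏ p ∈ x, (if ∃ b : X.PX, X.shX b = p then 4 else 2)) * 2 ^ g.card

open Classical in
/-- the local conditions of a homomorphism: the factors are maximal -/
def StLocN : Prop := ∀ (x : Finset Fr.sys.P) (g : Finset X.PX), X.okX x g →
  ∀ γ ∈ X.Bs g, ∀ c : El Fr.sys, c.2 ⊆ X.M →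
  (∀ Q : HeightOneSpectrum (𝓞 L),
    hs Q ((HX.out γ : Lˣ) : L) ((X.δ : L) * algebraMap k L (rep Fr (c.1, c.2 ∪ x) : k)) = 0) →
  (∏ p ∈ x, X.fpX γ p) * ∏ b ∈ g, X.faX c x b =
    (∏ p ∈ x, (if ∃ b : X.PX, X.shX b = p then 4 else 2)) * 2 ^ g.card

/-- the number of homomorphisms with given characters and given central values -/
def StFib : Prop := ∀ (RL : Rx L) (x : Finset Fr.sys.P) (g : Finset X.PX), X.okX x g →
  ∀ γ ∈ X.Bs g, ∀ c : El Fr.sys, c.2 ⊆ X.M → ∀ A : Finset (HeightOneSpectrum (𝓞 L)),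
    (X.Fib RL (HX.out γ) (rep Fr (c.1, c.2 ∪ x)) A).Finite ∧
    ((X.Fib RL (HX.out γ) (rep Fr (c.1, c.2 ∪ x)) A).ncard : ℝ) ≤
      4 ^ (Fr.sys.m + X.M.card) * ((∏ p ∈ x, X.fpX γ p) * ∏ b ∈ g, X.faX c x b)

/-- the factors are nonnegative -/
def StPosX : Prop := (∀ (γ : HX.GX L) p, 0 ≤ X.fpX γ p) ∧ ∀ c x b, 0 ≤ X.faX c x b

/-- the pairs of bounded norm are finitely many, and the sets of primes are few -/
def StAs (K : ℝ) : Prop := ∀ Z : ℝ, 1 ≤ Z → (X.As Z).Finite ∧ ((X.As Z).ncard : ℝ) ≤ K * Z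

/-- finitely many pairs of bounded norm -/
def StZs : Prop := ∀ Y : ℝ, (X.Zs Y).Finite

end

/-! ### the bound for a fixed set of exceptional primes -/

section

variable {k : Type} [Field k] [NumberField k] {L : Type} [Field L]
  [NumberField L] [Algebra k L] (E : QX k L)

/-- the homomorphisms with `On` are surjective -/
def OnS (On : Lˣ → kˣ → Prop) : Prop := ∀ ρ γ t, E.Hm ρ γ t → On γ t → Function.Surjective ρ

/-- the norm of `γ` is not a square -/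
def OnN (On : Lˣ → kˣ → Prop) : Prop :=
  ∀ γ t, On γ t → ¬ IsSquare (HX.nrX (k := k) γ)

open Classical in
/-- the parameters of a homomorphism -/
def StPar (Fr : Frm k) : Prop := Fr.S ⊆ E.M → ∀ (RL : Rx L) (On : Lˣ → kˣ → Prop), OnS E On →
  OnN (k := k) (L := L) On → ∀ (R : Finset (HeightOneSpectrum (𝓞 k))), Disjoint R E.M →
  ∀ ρ ∈ E.Hs RL On R, ∃ (x : Finset Fr.sys.P) (g : Finset (E.toHX Fr R).PX) (γ : HX.GX L)
    (c : El Fr.sys) (A : Finset (HeightOneSpectrum (𝓞 L))),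
    (E.toHX Fr R).okX x g ∧ γ ∈ (E.toHX Fr R).Bs g ∧
    ¬ (γ ∈ (E.toHX Fr R).Bs ∅ ∧ (E.toHX Fr R).nuX γ = (0, ∅)) ∧ c.2 ⊆ (E.toHX Fr R).M ∧
    (∀ Q ∈ A, (E.toHX Fr R).Out Q) ∧
    ρ ∈ (E.toHX Fr R).Fib RL (HX.out γ) (rep Fr (c.1, c.2 ∪ x)) A

open Classical in
/-- the discriminant of a homomorphism with given parameters -/
def StSize (Fr : Frm k) : Prop := Fr.S ⊆ E.M → ∀ (RL : Rx L) (ρ : Gm L →* Ext D4),
  Function.Surjective ρ → ∀ (R : Finset (HeightOneSpectrum (𝓞 k))), Disjoint R E.M →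
  (∀ P ∈ R, E.Oth RL ρ P) → ∀ (x : Finset Fr.sys.P) (g : Finset (E.toHX Fr R).PX) (γ : HX.GX L)
    (c : El Fr.sys) (A : Finset (HeightOneSpectrum (𝓞 L))),
    (E.toHX Fr R).okX x g → γ ∈ (E.toHX Fr R).Bs g → c.2 ⊆ (E.toHX Fr R).M →
    (∀ Q ∈ A, (E.toHX Fr R).Out Q) →
    ρ ∈ (E.toHX Fr R).Fib RL (HX.out γ) (rep Fr (c.1, c.2 ∪ x)) A →
    (nmR R ^ 2 * (E.toHX Fr R).nmX (x, g) * ∏ Q ∈ A, nrm Q) ^ 2 ≤ QX.dn ρ

open Classical in
/-- the bound by a finite sum -/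
def StAFin (Fr : Frm k) : Prop := Fr.S ⊆ E.M → ∀ (RL : Rx L) (On : Lˣ → kˣ → Prop), OnS E On →
  OnN (k := k) (L := L) On → ∀ (R : Finset (HeightOneSpectrum (𝓞 k))), Disjoint R E.M →
  ∀ K : ℝ, StAs (E.toHX Fr R) K → ∀ Y : ℝ, 0 ≤ Y →
    (E.Cn RL On R Y).Finite ∧ ((E.Cn RL On R Y).Nonempty → (nmR R : ℝ) ^ 2 ≤ Y) ∧
    ((E.Cn RL On R Y).ncard : ℝ) ≤ 4 ^ (Fr.sys.m + (E.toHX Fr R).M.card) * K *
      (Y / (nmR R : ℝ) ^ 2) *
        ∑ z ∈ (E.toHX Fr R).zs (Y / (nmR R : ℝ) ^ 2),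
          (E.toHX Fr R).tpX z.1 z.2 / ((E.toHX Fr R).nmX z : ℝ)

end

/-! ### uniformity -/

section

variable {k : Type} [Field k] [NumberField k] (Fr : Frm k)

/-- the number of sets of primes outside `M` -/
def SAsU : Prop := ∀ ε : ℝ, 0 < ε → ∃ C : ℝ, ∀ (L : Type) [Field L] [NumberField L]
  [Algebra k L] (X : HX Fr L), StAs X (C * (Fr.sys.nm X.M : ℝ) ^ ε)

/-- the sum over the pairs -/
def SADs : Prop := ∀ C0 A0 η0 ε : ℝ, 0 < η0 → 0 < ε → ∃ C : ℝ, ∀ (L : Type) [Field L]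
  [NumberField L] [Algebra k L] (X : HX Fr L), (Qof X).BF C0 A0 η0 → ∀ Y : ℝ, 1 ≤ Y →
    ∑ z ∈ X.zs Y, X.tpX z.1 z.2 / (X.nmX z : ℝ) ≤
      C * (Fr.sys.nm X.M : ℝ) ^ ε * (1 + Real.log Y) ^ 2

/-- the uniform upper bound -/
def SAU : Prop := ∀ C0 A0 η0 ε : ℝ, 0 < η0 → 0 < ε → ∃ C : ℝ, ∀ (L : Type) [Field L]
  [NumberField L] [Algebra k L] (E : QX k L), Fr.S ⊆ E.M → ∀ (RL : Rx L)
  (On : Lˣ → kˣ → Prop), OnS E On → OnN (k := k) (L := L) On →
  ∀ (R : Finset (HeightOneSpectrum (𝓞 k))), Disjoint R E.M →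
    (Qof (E.toHX Fr R)).BF C0 A0 η0 → ∀ Y : ℝ, 0 ≤ Y →
      (E.Cn RL On R Y).Finite ∧ ((E.Cn RL On R Y).Nonempty → (nmR R : ℝ) ^ 2 ≤ Y) ∧
      (1 ≤ Y → ((E.Cn RL On R Y).ncard : ℝ) ≤
        C * ((nmR E.M : ℝ) * nmR R) ^ ε * (Y / (nmR R : ℝ) ^ 2) * (1 + Real.log Y) ^ 2)

end

end Pool.Agent.H32.MQ
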