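import Pool.Agent.H32.MQ.HMain

/-!
# Malle's conjecture for 8T28 and 8T29 over number fields, block BF: quadratic characters at the
odd primes and the product formula
-/

set_option autoImplicit false

open scoped BigOperators
open NumberField IsDedekindDomain

namespace Pool.Agent.H32.MQ

open Pool.Agent.H98.MF

section

variable {L : Type} [Field L] [NumberField L]

theorem exists_unifU (Q : HeightOneSpectrum (𝓞 L)) : ∃ w : Lˣ, ord Q (w : L) = 1 := by
  obtain ⟨π, hπ⟩ := exists_unif Q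
  have h0 : (π : L) ≠ 0 := by
    intro h
    rw [h, ord_zero] at hπ
    exact zero_ne_one hπ
  exact ⟨Units.mk0 (π : L) h0, hπ⟩

/-- a uniformiser -/
noncomputable def unf (Q : HeightOneSpectrum (𝓞 L)) : Lˣ := (exists_unifU Q).choose

theorem ord_unf (Q : HeightOneSpectrum (𝓞 L)) : ord Q (unf Q : L) = 1 :=
  (exists_unifU Q).choose_spec

/-- the quadratic character of `L^*` at `Q`, trivial at the uniformiser -/
noncomputable def chq (Q : HeightOneSpectrum (𝓞 L)) (x : Lˣ) : ZMod 2 :=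
  hs Q (x : L) (unf Q : L) + ((ord Q (x : L) : ℤ) : ZMod 2) * hs Q (unf Q : L) (unf Q : L)

theorem hs_mulL (Q : HeightOneSpectrum (𝓞 L)) (x y z : Lˣ) :
    hs Q ((x * y : Lˣ) : L) (z : L) = hs Q (x : L) (z : L) + hs Q (y : L) (z : L) := by
  have h1 := (B.lin L).mulR (Sum.inl Q) z x y
  have h2 := (B.lin L).symm (Sum.inl Q) z (x * y)
  have h3 := (B.lin L).symm (Sum.inl Q) z x
  have h4 := (B.lin L).symm (Sum.inl Q) z y
  rw [h2, h3, h4] at h1
  exact h1

theorem chq_mul (Q : HeightOneSpectrum (𝓞 L)) (x y : Lˣ) :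
    chq Q (x * y) = chq Q x + chq Q y := by
  unfold chq
  rw [hs_mulL, Units.val_mul, ord_mul Q x.ne_zero y.ne_zero]
  push_cast
  ring

variable {Q : HeightOneSpectrum (𝓞 L)}

theorem cast_ev {n : ℤ} (h : Even n) : (n : ZMod 2) = 0 := by
  rw [ZMod.intCast_zmod_eq_zero_iff_dvd]
  exact h.two_dvd

theorem cast_od {n : ℤ} (h : Odd n) : (n : ZMod 2) = 1 := by
  obtain ⟨m, rfl⟩ := h
  push_cast
  have h2 : (2 : ZMod 2) = 0 := rfl
  rw [h2, zero_mul, zero_add]

theorem chq_even (h2 : ord Q (2 : L) = 0) (x : Lˣ) (hx : Even (ord Q (x : L))) :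
    chq Q x = qr (x : L) Q := by
  unfold chq
  rw [hs_even h2 x.ne_zero (unf Q).ne_zero hx, ord_unf, cast_ev hx]
  push_cast
  ring

theorem chq_unf (Q : HeightOneSpectrum (𝓞 L)) : chq Q (unf Q) = 0 := by
  unfold chq
  rw [ord_unf]
  push_cast
  rw [one_mul]
  exact CharTwo.add_self_eq_zero _

/-- the symbol of the uniformiser with itself -/
theorem hs_unf (h2 : ord Q (2 : L) = 0) : hs Q (unf Q : L) (unf Q : L) = chq Q (-1) := by
  have h1 : Even (ord Q (((-1 : Lˣ) : Lˣ) : L)) := by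
    rw [Units.val_neg, Units.val_one, ord_neg, ord_one]
    exact Even.zero
  have h3 : ((-1 : Lˣ) : L) = -1 := by rw [Units.val_neg, Units.val_one]
  rw [chq_even h2 _ h1]
  have h4 := hs_odd_odd h2 (unf Q).ne_zero (unf Q).ne_zero
    (by rw [ord_unf]; exact odd_one) (by rw [ord_unf]; exact odd_one)
  rw [h4, h3]
  have h5 : -((unf Q : L) * (unf Q : L)) = (-1) * (unf Q : L) ^ 2 := by ring
  rw [h5]
  have h6 := locSq_mul_sq Q (unf Q).ne_zero (-1 : L)
  unfold qr
  by_cases h7 : LocSq Q (-1 : L)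
  · rw [if_pos h7, if_pos (h6.2 h7)]
  · rw [if_neg h7, if_neg fun h => h7 (h6.1 h)]

/-- the tame symbol -/
theorem hs_chq (h2 : ord Q (2 : L) = 0) (x y : Lˣ) :
    hs Q (x : L) (y : L) = ((ord Q (x : L) : ℤ) : ZMod 2) * ((ord Q (y : L) : ℤ) : ZMod 2) *
      chq Q (-1) + ((ord Q (y : L) : ℤ) : ZMod 2) * chq Q x +
        ((ord Q (x : L) : ℤ) : ZMod 2) * chq Q y := by
  have hd : (2 : ZMod 2) = 0 := rfl
  rcases Int.even_or_odd (ord Q (x : L)) with hx | hx
  · rw [hs_even h2 x.ne_zero y.ne_zero hx, cast_ev hx, chq_even h2 x hx]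
    ring
  · rcases Int.even_or_odd (ord Q (y : L)) with hy | hy
    · have h3 : hs Q (x : L) (y : L) = hs Q (y : L) (x : L) :=
        (B.lin L).symm (Sum.inl Q) x y
      rw [h3, hs_even h2 y.ne_zero x.ne_zero hy, cast_ev hy, chq_even h2 y hy]
      ring
    · -- both odd: divide by the uniformiser
      obtain ⟨u, hu⟩ : ∃ u : Lˣ, u = x * unf Q := ⟨_, rfl⟩
      obtain ⟨w, hw⟩ : ∃ w : Lˣ, w = y * unf Q := ⟨_, rfl⟩
      have hue : Even (ord Q (u : L)) := by
        rw [hu, Units.val_mul, ord_mul Q x.ne_zero (unf Q).ne_zero, ord_unf]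
        exact hx.add_one
      have hwe : Even (ord Q (w : L)) := by
        rw [hw, Units.val_mul, ord_mul Q y.ne_zero (unf Q).ne_zero, ord_unf]
        exact hy.add_one
      have e1 : hs Q (u : L) (w : L) = 0 := by
        rw [hs_even h2 u.ne_zero w.ne_zero hue, cast_ev hwe, zero_mul]
      have e2 : hs Q (u : L) (unf Q : L) = qr (u : L) Q := by
        rw [hs_even h2 u.ne_zero (unf Q).ne_zero hue, ord_unf]
        push_cast
        rw [one_mul]
      have e3 : hs Q (w : L) (unf Q : L) = qr (w : L) Q := by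
        rw [hs_even h2 w.ne_zero (unf Q).ne_zero hwe, ord_unf]
        push_cast
        rw [one_mul]
      have c1 : qr (u : L) Q = chq Q x := by
        rw [← chq_even h2 u hue, hu, chq_mul, chq_unf, add_zero]
      have c2 : qr (w : L) Q = chq Q y := by
        rw [← chq_even h2 w hwe, hw, chq_mul, chq_unf, add_zero]
      have sy : ∀ a b : Lˣ, hs Q (a : L) (b : L) = hs Q (b : L) (a : L) := fun a b =>
        (B.lin L).symm (Sum.inl Q) a b
      -- expand
      have f1 : hs Q (u : L) (w : L) = hs Q (x : L) (y : L) + hs Q (x : L) (unf Q : L) +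
          (hs Q (unf Q : L) (y : L) + hs Q (unf Q : L) (unf Q : L)) := by
        rw [hu, hs_mulL, sy x w, sy (unf Q) w, hw, hs_mulL, hs_mulL, sy y x, sy (unf Q) x,
          sy y (unf Q)]
      have f2 : hs Q (u : L) (unf Q : L) =
          hs Q (x : L) (unf Q : L) + hs Q (unf Q : L) (unf Q : L) := by
        rw [hu, hs_mulL]
      have f3 : hs Q (w : L) (unf Q : L) =
          hs Q (unf Q : L) (y : L) + hs Q (unf Q : L) (unf Q : L) := by
        rw [hw, hs_mulL, sy y (unf Q)]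
      rw [cast_od hx, cast_od hy, ← hs_unf h2, ← c1, ← c2, ← e2, ← e3, f2, f3]
      rw [e1] at f1
      linear_combination (-1 : ZMod 2) * f1 - (hs Q (x : L) (unf Q : L) +
        hs Q (unf Q : L) (y : L) + 2 * hs Q (unf Q : L) (unf Q : L)) * hd

end

/-! ### the product formula -/

section

variable {L : Type} [Field L] [NumberField L]

/-- the product formula with a set `S` of primes containing the dyadic ones -/
theorem prod_chq (S : Finset (HeightOneSpectrum (𝓞 L)))
    (hS : ∀ Q : HeightOneSpectrum (𝓞 L), 0 < ord Q (2 : L) → Q ∈ S) (x y : Lˣ)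
    (T : Finset (HeightOneSpectrum (𝓞 L))) (hT : Disjoint S T)
    (h : ∀ Q, Q ∉ S → Q ∉ T → ord Q (x : L) = 0 ∧ ord Q (y : L) = 0) :
    ∑ Q ∈ T, (((ord Q (x : L) : ℤ) : ZMod 2) * ((ord Q (y : L) : ℤ) : ZMod 2) * chq Q (-1) +
      ((ord Q (y : L) : ℤ) : ZMod 2) * chq Q x + ((ord Q (x : L) : ℤ) : ZMod 2) * chq Q y) =
      ∑ v ∈ pls S, hv v (x : L) (y : L) := by
  classical
  have hrec := B.recSt (nin L) (S ∪ T) (fun Q hQ => Finset.mem_union_left _ (hS Q hQ)) x
    (B.mem_US.2 fun Q hQ => by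
      rw [Finset.mem_union, not_or] at hQ
      exact (h Q hQ.1 hQ.2).1) y
    (B.mem_US.2 fun Q hQ => by
      rw [Finset.mem_union, not_or] at hQ
      exact (h Q hQ.1 hQ.2).2)
  have e1 : ∑ v ∈ pls (S ∪ T), hv v (x : L) (y : L) =
      ∑ v ∈ pls S, hv v (x : L) (y : L) + ∑ Q ∈ T, hs Q (x : L) (y : L) := by
    unfold pls
    rw [Finset.sum_disjSum, Finset.sum_disjSum, Finset.sum_union hT]
    show (∑ Q ∈ S, hs Q (x : L) (y : L) + ∑ Q ∈ T, hs Q (x : L) (y : L)) + _ = _
    rw [add_right_comm]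
    rfl
  rw [e1] at hrec
  have e2 : ∑ Q ∈ T, hs Q (x : L) (y : L) =
      ∑ Q ∈ T, (((ord Q (x : L) : ℤ) : ZMod 2) * ((ord Q (y : L) : ℤ) : ZMod 2) *
        chq Q (-1) + ((ord Q (y : L) : ℤ) : ZMod 2) * chq Q x +
          ((ord Q (x : L) : ℤ) : ZMod 2) * chq Q y) := by
    refine Finset.sum_congr rfl fun Q hQ => hs_chq ?_ x y
    have h1 : Q ∉ S := fun h' => Finset.disjoint_left.1 hT h' hQ
    have h2 : 0 ≤ ord Q (2 : L) := B.c8_ord_two Q
    by_contra h3
    exact h1 (hS Q (lt_of_le_of_ne h2 (Ne.symm h3)))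
  rw [← e2]
  have h4 : ∀ a b : ZMod 2, a + b = 0 → b = a := by decide
  exact h4 _ _ hrec

end

end Pool.Agent.H32.MQ
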