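import Pool.Agent.H32.MQ.BChi
import Pool.Agent.H98.MF.C.CI

/-!
# Malle's conjecture for 8T28 and 8T29 over number fields, block BF: the classes at `M` and the
real places
-/

set_option autoImplicit false

open scoped BigOperators
open NumberField IsDedekindDomain

namespace Pool.Agent.H32.MQ

open Pool.Agent.H98.MF

section

variable {L : Type} [Field L] [NumberField L]

/-- the index of the elements that are squares at the places of `S` -/
theorem ks_index (S : Finset (HeightOneSpectrum (𝓞 L)))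
    (hS : ∀ Q : HeightOneSpectrum (𝓞 L), 0 < ord Q (2 : L) → Q ∈ S) :
    (KS S).index = 2 ^ (2 * mS S) := by
  classical
  have hL := B.lin L
  unfold KS
  rw [B.ci_index_iInf (pls S) (fun v : Pl L => LS v) (hL.weak (pls S))]
  unfold pls
  rw [Finset.prod_disjSum]
  simp only [hL.idxP, hL.idxR]
  rw [Finset.prod_mul_distrib, Finset.prod_const, Finset.prod_const, B.ci_prod_two S hS,
    B.ci_card_real, ← InfinitePlace.card_add_two_mul_card_eq_rank L]
  unfold mS
  have : (4 : ℕ) = 2 ^ 2 := by norm_num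
  rw [this, ← pow_mul, ← pow_add, ← pow_add]
  congr 1
  ring

theorem hv_congrL {v : Pl L} {a a' b b' : Lˣ}
    (ha : a⁻¹ * a' ∈ LS v) (hb : b⁻¹ * b' ∈ LS v) : hv v (a : L) b = hv v (a' : L) b' := by
  have key : ∀ x y y' : Lˣ, y⁻¹ * y' ∈ LS v → hv v (x : L) y = hv v (x : L) y' := by
    intro x y y' h
    have h1 := (B.lin L).mulR v x y (y⁻¹ * y')
    rw [B.hv_of_loc (B.lin L) v x _ h, mul_inv_cancel_left, add_zero] at h1
    exact h1.symm
  rw [key a b b' hb, (B.lin L).symm v a b', key b' a a' ha, (B.lin L).symm v b' a']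

end

section

variable {k : Type} [Field k] [NumberField k] {Fr : Frm k} {L : Type} [Field L]
  [NumberField L] [Algebra k L] (X : HX Fr L)

theorem SL_two (Q : HeightOneSpectrum (𝓞 L)) (h : 0 < ord Q (2 : L)) : Q ∈ X.SL := by
  classical
  rw [X.mem_SL]
  obtain ⟨P, hP⟩ : ∃ P : HeightOneSpectrum (𝓞 k), Over P Q :=
    ⟨HeightOneSpectrum.under (𝓞 k) Q, rfl⟩
  refine ⟨P, Finset.mem_union_left _ (Fr.adm.two P ?_), hP⟩
  have h1 := hP.ord_map (2 : k)
  have h2 : algebraMap k L 2 = 2 := map_ofNat _ 2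
  rw [h2] at h1
  rw [h1] at h
  by_contra h3
  have h4 : ord P (2 : k) ≤ 0 := not_lt.1 h3
  have h5 : (0 : ℤ) ≤ (P.asIdeal.ramificationIdx' Q.asIdeal : ℤ) := Int.natCast_nonneg _
  exact absurd h (not_lt.2 (mul_nonpos_of_nonneg_of_nonpos h5 h4))

theorem SL_card : X.SL.card ≤ 2 * (Fr.S.card + X.M.card) := by
  classical
  have h1 : X.SL ⊆ (Fr.S ∪ X.M.image Fr.pl).biUnion fun P =>
      (B.c3c_above_finite (L := L) P).toFinset := by
    intro Q hQ
    obtain ⟨P, hP, hPQ⟩ := (X.mem_SL Q).1 hQ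
    rw [Finset.mem_biUnion]
    exact ⟨P, hP, (Set.Finite.mem_toFinset _).2 hPQ⟩
  have h2 : ∀ P : HeightOneSpectrum (𝓞 k),
      ((B.c3c_above_finite (L := L) P).toFinset).card ≤ 2 := by
    intro P
    have h3 : ((B.c3c_above_finite (L := L) P).toFinset).card =
        Nat.card {Q : HeightOneSpectrum (𝓞 L) //
          Q.asIdeal.comap (algebraMap (𝓞 k) (𝓞 L)) = P.asIdeal} := by
      rw [← Set.ncard_eq_toFinset_card _ (B.c3c_above_finite (L := L) P)]
      rfl
    rw [h3]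
    by_cases hl : LocSq P (X.a : k)
    · rw [B.c3b_split X.qe hl]
    · rw [B.c3b_nonsplit X.qe hl]
      norm_num
  refine (Finset.card_le_card h1).trans ?_
  refine (Finset.card_biUnion_le).trans ?_
  refine (Finset.sum_le_card_nsmul _ _ 2 fun P _ => h2 P).trans ?_
  rw [smul_eq_mul, mul_comm]
  refine Nat.mul_le_mul_left 2 ?_
  refine (Finset.card_union_le _ _).trans ?_
  exact Nat.add_le_add_left Finset.card_image_le _

include X in
theorem finrank_L : Module.finrank ℚ L = 2 * Module.finrank ℚ k := by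
  rw [← Module.finrank_mul_finrank ℚ k L, X.qe.deg, mul_comm]

/-- the number of classes at `M` and the real places -/
theorem KS_index_le :
    (KS X.SL).index ≤ 2 ^ (4 * Fr.S.card + 4 * Module.finrank ℚ k) * 16 ^ X.M.card := by
  rw [ks_index X.SL (SL_two X)]
  have h1 := SL_card X
  have h2 := InfinitePlace.card_add_two_mul_card_eq_rank L
  rw [finrank_L X] at h2
  have h3 : mS X.SL ≤ 2 * (Fr.S.card + X.M.card) + 2 * Module.finrank ℚ k := by
    unfold mS
    omega
  have h4 : (16 : ℕ) = 2 ^ 4 := by norm_num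
  rw [h4, ← pow_mul, ← pow_add]
  refine Nat.pow_le_pow_right (by norm_num) ?_
  omega

theorem KS_index_ne : (KS X.SL).index ≠ 0 := by
  rw [ks_index X.SL (SL_two X)]
  positivity

/-- the classes at `M` and the real places -/
abbrev LmQ : Type := Lˣ ⧸ KS X.SL

theorem finite_LmQ : Finite (LmQ X) := by
  refine Nat.finite_of_card_ne_zero ?_
  exact KS_index_ne X

noncomputable instance : Fintype (LmQ X) := @Fintype.ofFinite _ (finite_LmQ X)

theorem card_LmQ :
    Fintype.card (LmQ X) ≤ 2 ^ (4 * Fr.S.card + 4 * Module.finrank ℚ k) * 16 ^ X.M.card := by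
  rw [← Nat.card_eq_fintype_card]
  exact KS_index_le X

/-- the product of the symbols as a function of the classes -/
noncomputable def HLm (a b : LmQ X) : ZMod 2 :=
  ∑ v ∈ pls X.SL, hv v ((Quotient.out a : Lˣ) : L) ((Quotient.out b : Lˣ) : L)

theorem HLm_mk (x y : Lˣ) :
    HLm X (x : LmQ X) (y : LmQ X) = ∑ v ∈ pls X.SL, hv v (x : L) (y : L) := by
  have hout : ∀ z : Lˣ, (Quotient.out (z : LmQ X))⁻¹ * z ∈ KS X.SL := by
    intro z
    rw [← QuotientGroup.eq]
    exact Quotient.out_eq (z : LmQ X)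
  have hle : ∀ v ∈ pls X.SL, ∀ z : Lˣ, z ∈ KS X.SL → z ∈ LS v := by
    intro v hv z hz
    unfold KS at hz
    rw [Subgroup.mem_iInf] at hz
    have h1 := hz v
    rw [Subgroup.mem_iInf] at h1
    exact h1 hv
  unfold HLm
  refine Finset.sum_congr rfl fun v hv => ?_
  exact hv_congrL (hle v hv _ (hout x)) (hle v hv _ (hout y))

theorem disj_SL {Q : HeightOneSpectrum (𝓞 L)} : X.Out Q ↔ Q ∉ X.SL := by
  classical
  rw [X.mem_SL]
  constructor
  · rintro ⟨p, hp, hpQ⟩ ⟨P, hP, hPQ⟩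
    have h1 : Fr.pl p = P := HeightOneSpectrum.ext (hpQ.symm.trans hPQ)
    rw [Finset.mem_union] at hP
    rcases hP with hP | hP
    · exact hb_notMem Fr p (h1 ▸ hP)
    · obtain ⟨q, hq, hq2⟩ := Finset.mem_image.1 hP
      exact hp (Fr.pl_inj (h1.trans hq2.symm) ▸ hq)
  · intro h
    obtain ⟨P, hP⟩ : ∃ P : HeightOneSpectrum (𝓞 k), Over P Q :=
      ⟨HeightOneSpectrum.under (𝓞 k) Q, rfl⟩
    have h1 : P ∉ Fr.S ∪ X.M.image Fr.pl := fun h' => h ⟨P, h', hP⟩
    rw [Finset.mem_union, not_or] at h1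
    obtain ⟨p, rfl⟩ := (Fr.pl_iff P).2 h1.1
    exact ⟨p, fun hp => h1.2 (Finset.mem_image_of_mem _ hp), hP⟩

/-- the product formula, over the primes outside `M` -/
theorem prodX (x y : Lˣ) (T : Finset {Q : HeightOneSpectrum (𝓞 L) // X.Out Q})
    (h : ∀ Q : {Q : HeightOneSpectrum (𝓞 L) // X.Out Q}, Q ∉ T →
      ord Q.1 (x : L) = 0 ∧ ord Q.1 (y : L) = 0) :
    ∑ Q ∈ T, (((ord Q.1 (x : L) : ℤ) : ZMod 2) * ((ord Q.1 (y : L) : ℤ) : ZMod 2) *
      chq Q.1 (-1) + ((ord Q.1 (y : L) : ℤ) : ZMod 2) * chq Q.1 x +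
        ((ord Q.1 (x : L) : ℤ) : ZMod 2) * chq Q.1 y) =
      HLm X (x : LmQ X) (y : LmQ X) := by
  classical
  have h1 := prod_chq X.SL (SL_two X) x y (T.map (Function.Embedding.subtype _)) (by
    rw [Finset.disjoint_left]
    intro Q hQ hT
    obtain ⟨Q', -, hQ'⟩ := Finset.mem_map.1 hT
    have hQ2 : Q'.1 = Q := hQ'
    exact (disj_SL X).1 Q'.2 (hQ2 ▸ hQ)) (by
    intro Q hQ hT
    have h2 : X.Out Q := (disj_SL X).2 hQ
    exact h ⟨Q, h2⟩ fun h3 => hT (Finset.mem_map.2 ⟨⟨Q, h2⟩, h3, rfl⟩))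
  rw [Finset.sum_map] at h1
  rw [HLm_mk]
  exact h1

end

end Pool.Agent.H32.MQ
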