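import Pool.Agent.H32.MQ.EStm

/-!
# Block E, row E1: convergence and bound of an Euler product
-/

set_option autoImplicit false

open scoped BigOperators
open Filter Topology

namespace Pool.Agent.H32.MQ

open Pool.Agent.H98.MK (sg)
open Pool.Agent.H98.MF

/-- finite products against the exponential of the sum -/
theorem ebd_prod_le {ι : Type*} (x : ι → ℝ) (F : Finset ι) (D : ℝ) (hD : 0 ≤ D)
    (h1 : ∀ i ∈ F, |x i| ≤ D) (h2 : ∀ i, i ∉ F → -1 ≤ x i) (y : Finset ι) (hy : F ⊆ y) :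
    |∏ i ∈ y, (1 + x i)| ≤ ((1 + D) * Real.exp D) ^ F.card * Real.exp (∑ i ∈ y, x i) := by
  classical
  rw [← Finset.prod_sdiff hy, ← Finset.sum_sdiff hy, abs_mul, Real.exp_add]
  have a1 : |∏ i ∈ y \ F, (1 + x i)| ≤ Real.exp (∑ i ∈ y \ F, x i) := by
    rw [Finset.abs_prod, Real.exp_sum]
    refine Finset.prod_le_prod (fun _ _ => abs_nonneg _) fun i hi => ?_
    have h3 := h2 i (Finset.mem_sdiff.1 hi).2
    rw [abs_of_nonneg (by linarith), add_comm]
    exact Real.add_one_le_exp _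
  have a2 : |∏ i ∈ F, (1 + x i)| ≤ ((1 + D) * Real.exp D) ^ F.card * Real.exp (∑ i ∈ F, x i) := by
    rw [Finset.abs_prod, Real.exp_sum, ← Finset.prod_const, ← Finset.prod_mul_distrib]
    refine Finset.prod_le_prod (fun _ _ => abs_nonneg _) fun i hi => ?_
    have h3 := h1 i hi
    have h4 : |1 + x i| ≤ 1 + D := by
      have h5 := abs_add_le 1 (x i)
      rw [abs_one] at h5
      linarith
    have h6 : 1 ≤ Real.exp D * Real.exp (x i) := by
      rw [← Real.exp_add]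
      exact Real.one_le_exp (by linarith [(abs_le.1 h3).1])
    calc |1 + x i| ≤ (1 + D) * 1 := by rw [mul_one]; exact h4
      _ ≤ (1 + D) * (Real.exp D * Real.exp (x i)) :=
          mul_le_mul_of_nonneg_left h6 (by linarith)
      _ = (1 + D) * Real.exp D * Real.exp (x i) := by ring
  calc |∏ i ∈ y \ F, (1 + x i)| * |∏ i ∈ F, (1 + x i)|
      ≤ Real.exp (∑ i ∈ y \ F, x i) *
          (((1 + D) * Real.exp D) ^ F.card * Real.exp (∑ i ∈ F, x i)) :=
        mul_le_mul a1 a2 (abs_nonneg _) (Real.exp_pos _).le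
    _ = ((1 + D) * Real.exp D) ^ F.card *
          (Real.exp (∑ i ∈ y \ F, x i) * Real.exp (∑ i ∈ F, x i)) := by ring

/-- the bound of an Euler product -/
theorem ebd_tsum_le {ι : Type*} (x : ι → ℝ) (F : Finset ι) (D : ℝ) (hD : 0 ≤ D)
    (hx : Summable fun i => |x i|) (h1 : ∀ i ∈ F, |x i| ≤ D) (h2 : ∀ i, i ∉ F → -1 ≤ x i) :
    |∑' y : Finset ι, ∏ i ∈ y, x i| ≤
      ((1 + D) * Real.exp D) ^ F.card * Real.exp (∑' i, x i) := by
  classical
  have b1 : Summable fun y : Finset ι => ∏ i ∈ y, x i :=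
    summable_finsetProd_of_summable_norm hx
  have b2 : HasProd (fun i => 1 + x i) (∑' y : Finset ι, ∏ i ∈ y, x i) :=
    hasProd_one_add_of_hasSum_prod b1.hasSum
  have b3 : Tendsto (fun y : Finset ι => |∏ i ∈ y, (1 + x i)|) atTop
      (𝓝 |∑' y : Finset ι, ∏ i ∈ y, x i|) := by
    have b4 : Tendsto (fun y : Finset ι => ∏ i ∈ y, (1 + x i)) atTop
        (𝓝 (∑' y : Finset ι, ∏ i ∈ y, x i)) := b2
    exact b4.abs
  have b5 : Tendsto (fun y : Finset ι => ((1 + D) * Real.exp D) ^ F.card *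
      Real.exp (∑ i ∈ y, x i)) atTop
      (𝓝 (((1 + D) * Real.exp D) ^ F.card * Real.exp (∑' i, x i))) := by
    have b6 : Tendsto (fun y : Finset ι => ∑ i ∈ y, x i) atTop (𝓝 (∑' i, x i)) :=
      hx.of_abs.hasSum
    exact ((Real.continuous_exp.tendsto _).comp b6).const_mul _
  refine le_of_tendsto_of_tendsto b3 b5 ?_
  filter_upwards [eventually_ge_atTop F] with y hy
  exact ebd_prod_le x F D hD h1 h2 y hy

theorem eBd : SEBd := by
  classical
  intro S u B e hB hP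
  set B' : ℝ := max B 0 with hB'
  have hB0 : 0 ≤ B' := le_max_right _ _
  have hBu : ∀ p, |u p| ≤ B' := fun p => (hB p).trans (le_max_left _ _)
  have hN0 : ∀ p : S.P, (0 : ℝ) ≤ (S.N p : ℝ) := fun p => Nat.cast_nonneg _
  have hN2 : ∀ p : S.P, (2 : ℝ) ≤ S.N p := fun p => by exact_mod_cast S.two_le p
  have hsum : ∀ s : ℝ, 1 < s → Summable fun p : S.P => |u p| * (S.N p : ℝ) ^ (-s) := by
    intro s hs
    refine Summable.of_nonneg_of_le
      (fun p => mul_nonneg (abs_nonneg _) (Real.rpow_nonneg (hN0 p) _)) (fun p => ?_)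
      ((summable_N S s hs).mul_left B')
    exact mul_le_mul_of_nonneg_right (hBu p) (Real.rpow_nonneg (hN0 p) _)
  refine ⟨fun s hs => summable_finsetProd_of_summable_nonneg
    (fun p => mul_nonneg (abs_nonneg _) (Real.rpow_nonneg (hN0 p) _)) (hsum s hs), ?_⟩
  obtain ⟨K, hK⟩ := hP
  set F : Finset S.P := S.pr (2 * B' + 2) with hF
  refine ⟨((1 + B') * Real.exp B') ^ F.card * Real.exp K, fun s hs hs2 => ?_⟩
  have hNs : ∀ p : S.P, (S.N p : ℝ) ^ (-s) ≤ (S.N p : ℝ)⁻¹ := by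
    intro p
    have h3 : (S.N p : ℝ) ^ (-s) ≤ (S.N p : ℝ) ^ (-1 : ℝ) :=
      Real.rpow_le_rpow_of_exponent_le (by linarith [hN2 p]) (by linarith)
    rwa [Real.rpow_neg_one] at h3
  have habs : ∀ p : S.P, |u p * (S.N p : ℝ) ^ (-s)| = |u p| * (S.N p : ℝ) ^ (-s) := by
    intro p
    rw [abs_mul, abs_of_nonneg (Real.rpow_nonneg (hN0 p) _)]
  have h1 : ∀ p ∈ F, |u p * (S.N p : ℝ) ^ (-s)| ≤ B' := by
    intro p _
    rw [habs]
    have h4 : (S.N p : ℝ) ^ (-s) ≤ 1 :=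
      (hNs p).trans (inv_le_one_of_one_le₀ (by linarith [hN2 p]))
    calc |u p| * (S.N p : ℝ) ^ (-s) ≤ B' * 1 :=
          mul_le_mul (hBu p) h4 (Real.rpow_nonneg (hN0 p) _) hB0
      _ = B' := mul_one _
  have h2 : ∀ p, p ∉ F → -1 ≤ u p * (S.N p : ℝ) ^ (-s) := by
    intro p hp
    have h5 : 2 * B' + 2 < S.N p := by
      by_contra h6
      exact hp ((S.mem_pr (by linarith)).2 (not_lt.1 h6))
    have h6 : |u p * (S.N p : ℝ) ^ (-s)| ≤ 1 := by
      rw [habs]
      have h7 : (0 : ℝ) < S.N p := by linarith [hN2 p]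
      calc |u p| * (S.N p : ℝ) ^ (-s) ≤ B' * (S.N p : ℝ)⁻¹ :=
            mul_le_mul (hBu p) (hNs p) (Real.rpow_nonneg (hN0 p) _) hB0
        _ ≤ 1 := by
            rw [mul_inv_le_iff₀ h7]
            linarith
    exact (abs_le.1 h6).1
  have h3 := ebd_tsum_le (fun p : S.P => u p * (S.N p : ℝ) ^ (-s)) F B' hB0
    ((hsum s hs).congr fun p => (habs p).symm) h1 h2
  refine h3.trans ?_
  rw [mul_assoc]
  refine mul_le_mul_of_nonneg_left ?_ (by positivity)
  have h4 := (abs_le.1 (hK s hs hs2)).2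
  have hs0 : 0 < s - 1 := by linarith
  have h5 : (s - 1) ^ (-e) = Real.exp (e * Real.log (1 / (s - 1))) := by
    rw [Real.rpow_def_of_pos hs0, one_div, Real.log_inv]
    congr 1
    ring
  rw [h5, ← Real.exp_add]
  refine Real.exp_le_exp.2 ?_
  linarith

end Pool.Agent.H32.MQ
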