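import Pool.Agent.H32.MQ.EGStm

/-!
# Malle's conjecture for 8T28 and 8T29 over number fields: the main constant (E14)
-/

set_option autoImplicit false

open scoped BigOperators Topology
open Filter

namespace Pool.Agent.H32.MQ

open Pool.Agent.H98.MK (sg)
open Pool.Agent.H98.MF

namespace EC14

theorem sg0 : sg 0 = 1 := by decide

theorem sg1 : sg 1 = -1 := by decide

theorem ex_zero (S : Sys) (p : S.P) : S.ex ∅ (0 : S.T) p = 0 := by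
  show ∑ q ∈ (∅ : Finset S.P), S.J q p + (0 : S.T) ⬝ᵥ S.ty p = 0
  rw [Finset.sum_empty, zero_dotProduct, add_zero]

variable {S : Sys} {Q : Qd S}

theorem ab_one_of (u : Q.P → ℝ) (hu : ∀ a, u a = 1) (p : S.P) (h : ∃ a, Q.sh a = p) :
    Pw.ab u p = 2 := by
  unfold Pw.ab
  rw [dif_pos h, hu, hu]
  norm_num

theorem ab_one_not (u : Q.P → ℝ) (p : S.P) (h : ¬ ∃ a, Q.sh a = p) :
    Pw.ab u p = 0 := by
  unfold Pw.ab
  rw [dif_neg h]

theorem tot_eq {SF : Sys} (F : Qf S SF) (f : Fin 1 → S.P → ℝ) (g : Fin 1 → F.Q.P → ℝ)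
    (hf : ∀ i p, f i p = 1) (hg : ∀ j a, g j a = 1) (p : S.P) :
    totG F f g ∅ p = cw F.Q p := by
  unfold totG cw
  have hM : p ∉ F.Q.M := by
    rw [F.M_eq]
    exact Finset.notMem_empty p
  rw [if_neg (Finset.notMem_empty p), if_neg hM, Fin.sum_univ_one, Fin.sum_univ_one, hf]
  by_cases h : ∃ a, F.Q.sh a = p
  · have h5 : S.ex F.Q.d.2 F.Q.d.1 p = 0 := (F.Q.split p hM).1 h
    rw [ab_one_of _ (hg 0) p h, h5, sg0]
    norm_num
  · have h5 : S.ex F.Q.d.2 F.Q.d.1 p ≠ 0 := fun h5 => h ((F.Q.split p hM).2 h5)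
    have h6 : ∀ c : ZMod 2, c ≠ 0 → c = 1 := by decide
    rw [ab_one_not _ p h, h6 _ h5, sg1]
    norm_num

end EC14

open EC14 in
theorem eC (h1 : SEG2) (h2 : SEC0) (h3 : SEG6) : SEC := by
  intro S SF F
  obtain ⟨c0, hc, ht⟩ := h2 S F.Q
  refine ⟨c0, hc, ht.congr' ?_⟩
  filter_upwards [self_mem_nhdsWithin] with σ hσ
  have hσ' : (0 : ℝ) < σ := hσ
  obtain ⟨f, hfd⟩ : ∃ f : Fin 1 → S.P → ℝ, f = fun i p =>
      ((sg (S.ex ((fun _ : Fin 1 => ((0 : S.T), (∅ : Finset S.P))) i).2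
        ((fun _ : Fin 1 => ((0 : S.T), (∅ : Finset S.P))) i).1 p) : ℤ) : ℝ) := ⟨_, rfl⟩
  obtain ⟨g, hgd⟩ : ∃ g : Fin 1 → F.Q.P → ℝ, g = fun j a =>
      ((sg (SF.ex ((fun _ : Fin 1 => ((0 : SF.T), (∅ : Finset SF.P))) j).2
        ((fun _ : Fin 1 => ((0 : SF.T), (∅ : Finset SF.P))) j).1 (F.io a)) : ℤ) : ℝ) := ⟨_, rfl⟩
  have hf : ∀ (i : Fin 1) (p : S.P), f i p = 1 := by
    intro i p
    rw [hfd]
    show ((sg (S.ex ∅ (0 : S.T) p) : ℤ) : ℝ) = 1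
    rw [ex_zero, sg0]
    norm_num
  have hg : ∀ (j : Fin 1) (a : F.Q.P), g j a = 1 := by
    intro j a
    rw [hgd]
    show ((sg (SF.ex ∅ (0 : SF.T) (F.io a)) : ℤ) : ℝ) = 1
    rw [ex_zero, sg0]
    norm_num
  have h5 := (h1 S SF F 1 1 f g (fun i p => by rw [hf i p]; norm_num)
    (fun j a => by rw [hg j a]; norm_num) ∅ (1 + σ) (by linarith)).2
  have h7 : ∀ w, tE F (fun _ : Fin 1 => ((0 : S.T), (∅ : Finset S.P)))
      (fun _ : Fin 1 => ((0 : SF.T), (∅ : Finset SF.P))) ∅ (1 + σ) w =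
      tG F f g ∅ (1 + σ) w := by
    intro w
    rw [hfd, hgd]
    exact h3 S SF F 1 1 _ _ ∅ (1 + σ) w
  have h6 : ES F (fun _ : Fin 1 => ((0 : S.T), (∅ : Finset S.P)))
      (fun _ : Fin 1 => ((0 : SF.T), (∅ : Finset SF.P))) ∅ (1 + σ) =
      ∑' x : Finset S.P, ∏ p ∈ x, cw F.Q p * (S.N p : ℝ) ^ (-(1 + σ)) := by
    unfold ES
    rw [tsum_congr h7, h5]
    exact tsum_congr fun x => Finset.prod_congr rfl fun p _ => by rw [tot_eq F f g hf hg]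
  rw [h6]

end Pool.Agent.H32.MQ
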