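import Pool.Agent.H32.MQ.EStm

/-!
# Malle's conjecture for 8T28 and 8T29 over number fields: the constant of the Euler product
(MQ-E13)
-/

set_option autoImplicit false

open scoped BigOperators
open Filter Topology

namespace Pool.Agent.H32.MQ

/-- a product of limits -/
lemma eC0_aux {A Q1 Qc : ℝ → ℝ} {κ l l0 h : ℝ} (hκ : 0 < κ) (hl0 : 0 < l0) (hh : 0 < h)
    (t1 : Tendsto (fun σ : ℝ => σ * Q1 σ) (𝓝[>] 0) (𝓝 κ)) (t2 : Tendsto Qc (𝓝[>] 0) (𝓝 l))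
    (hb : ∀ σ : ℝ, 0 < σ → σ ≤ 1 → l0 ≤ Qc σ)
    (t4 : Tendsto (fun σ : ℝ => A σ / (Q1 σ ^ 2 * Qc σ)) (𝓝[>] 0) (𝓝 h)) :
    ∃ c0 : ℝ, 0 < c0 ∧ Tendsto (fun σ : ℝ => σ ^ 2 * A σ) (𝓝[>] 0) (𝓝 c0) := by
  have e1 : ∀ᶠ σ : ℝ in 𝓝[>] 0, 0 < σ := eventually_mem_nhdsWithin
  have e2 : ∀ᶠ σ : ℝ in 𝓝[>] 0, σ ≤ 1 :=
    mem_nhdsWithin_of_mem_nhds (Iic_mem_nhds one_pos)
  have e3 : ∀ᶠ σ : ℝ in 𝓝[>] 0, l0 ≤ Qc σ := by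
    filter_upwards [e1, e2] with σ s1 s2 using hb σ s1 s2
  have hl : 0 < l := hl0.trans_le (ge_of_tendsto t2 e3)
  have e4 : ∀ᶠ σ : ℝ in 𝓝[>] 0, 0 < σ * Q1 σ := t1.eventually (lt_mem_nhds hκ)
  refine ⟨h * κ ^ 2 * l, by positivity, ?_⟩
  refine ((t4.mul (t1.pow 2)).mul t2).congr' ?_
  filter_upwards [e1, e3, e4] with σ s1 s3 s4
  have n1 : Q1 σ ≠ 0 := fun h0 => by
    rw [h0, mul_zero] at s4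
    exact lt_irrefl _ s4
  have n2 : Qc σ ≠ 0 := (hl0.trans_le s3).ne'
  field_simp

/-- E13: the constant `c₀` -/
theorem eC0 (h1 : SEQ1) (h2 : SEQc) (h3 : SEQp) (h4 : SEQH) : SEC0 := by
  intro S Q
  obtain ⟨κ, hκ, t1⟩ := h1 S
  obtain ⟨l, t2⟩ := h2 S Q.d.2 Q.d.1 Q.d_ne
  obtain ⟨l0, hl0, hb⟩ := h3 S Q.d.2 Q.d.1 Q.d_ne
  obtain ⟨h, hh, t4⟩ := h4 S Q
  exact eC0_aux hκ hl0 hh t1 t2 hb t4

end Pool.Agent.H32.MQ
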