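import Pool.Agent.H32.MQ.EStm

/-!
# Malle's conjecture for 8T28 and 8T29 over number fields, row E2: sums over configurations are
Euler products
-/

set_option autoImplicit false

open scoped BigOperators

namespace Pool.Agent.H32.MQ

open Pool.Agent.H98.MK (sg)
open Pool.Agent.H98.MF

section

variable {S : Sys} {Q : Qd S} (W : Pw Q)

/-- the absolute values of the weights -/
noncomputable def ecfAbs : Pw Q :=
  ⟨fun p => |W.u0 p|, fun p => |W.u1 p|, fun a => |W.u2 a|, fun a => |W.u3 a|,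
    fun a => |W.u4 a|⟩

theorem ecf_val (x : Cf Q) : (ecfAbs W).val x = |W.val x| := by
  unfold Pw.val ecfAbs
  simp only [abs_mul, Finset.abs_prod]

theorem ecf_tr (z : Finset S.P) (s : ℝ) (x : Cf Q) :
    (ecfAbs W).tr z s x = |W.tr z s x| := by
  unfold Pw.tr
  split_ifs
  · rw [ecf_val, abs_mul, abs_of_nonneg (Real.rpow_nonneg (Nat.cast_nonneg _) _)]
  · rw [abs_zero]

theorem ecf_ab {u : Q.P → ℝ} (h : ∀ a, |u a| ≤ 1) (p : S.P) :
    0 ≤ Pw.ab (fun a => |u a|) p ∧ Pw.ab (fun a => |u a|) p ≤ 2 := by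
  classical
  unfold Pw.ab
  split_ifs with hx
  · have h1 := h hx.choose
    have h2 := h (Q.cj hx.choose)
    have h3 := abs_nonneg (u hx.choose)
    have h4 := abs_nonneg (u (Q.cj hx.choose))
    constructor <;> linarith
  · constructor <;> norm_num

theorem ecf_tot (hW : W.Bd) (z : Finset S.P) (p : S.P) :
    0 ≤ (ecfAbs W).tot z p ∧ (ecfAbs W).tot z p ≤ 8 := by
  classical
  unfold Pw.tot
  split_ifs
  · constructor <;> norm_num
  · have h0 : 0 ≤ |W.u0 p| ∧ |W.u0 p| ≤ 1 := ⟨abs_nonneg _, hW.b0 p⟩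
    have h1 : 0 ≤ |W.u1 p| ∧ |W.u1 p| ≤ 1 := ⟨abs_nonneg _, hW.b1 p⟩
    have h2 := ecf_ab (Q := Q) hW.b2 p
    have h3 := ecf_ab (Q := Q) hW.b3 p
    have h4 := ecf_ab (Q := Q) hW.b4 p
    unfold ecfAbs
    dsimp only
    constructor <;> linarith

theorem ecf_not_ok (z : Finset S.P) (s : ℝ) {x : Cf Q} (hx : ¬ x.Ok) : W.tr z s x = 0 := by
  unfold Pw.tr
  rw [if_neg]
  exact fun h => hx h.1

theorem ecf_summable (h : SECfA) (hW : W.Bd) (z : Finset S.P) (s : ℝ) (hs : 1 < s) :
    Summable fun x : Cf Q => W.tr z s x := by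
  classical
  have hN := summable_N S s hs
  have h8 : Summable fun p : S.P => 8 * (S.N p : ℝ) ^ (-s) := hN.mul_left 8
  have h8' : ∀ p : S.P, 0 ≤ 8 * (S.N p : ℝ) ^ (-s) := fun p =>
    mul_nonneg (by norm_num) (Real.rpow_nonneg (Nat.cast_nonneg _) _)
  have hsum : Summable fun y : Finset S.P => ∏ p ∈ y, 8 * (S.N p : ℝ) ^ (-s) :=
    summable_finsetProd_of_summable_nonneg h8' h8
  have hnn : ∀ x : Cf Q, 0 ≤ (ecfAbs W).tr z s x := fun x => by
    rw [ecf_tr]
    exact abs_nonneg _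
  have hab : Summable fun x : Cf Q => (ecfAbs W).tr z s x := by
    refine summable_of_sum_le (c := ∑' y : Finset S.P, ∏ p ∈ y, 8 * (S.N p : ℝ) ^ (-s)) hnn
      fun F => ?_
    have hmap : ∀ x ∈ F, un x ∈ F.image un := fun x hx => Finset.mem_image_of_mem _ hx
    rw [← Finset.sum_fiberwise_of_maps_to hmap]
    have hfib : ∀ y ∈ F.image un, ∑ x ∈ F.filter (fun x => un x = y), (ecfAbs W).tr z s x ≤
        ∏ p ∈ y, 8 * (S.N p : ℝ) ^ (-s) := by
      intro y _
      obtain ⟨hf, hy⟩ := h S Q (ecfAbs W) z s y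
      have h1 : ∑ x ∈ F.filter (fun x => un x = y), (ecfAbs W).tr z s x =
          ∑ x ∈ (F.filter (fun x => un x = y)).filter (fun x => x.Ok), (ecfAbs W).tr z s x := by
        refine (Finset.sum_filter_of_ne fun x _ hx => ?_).symm
        by_contra hno
        exact hx (ecf_not_ok _ z s hno)
      rw [h1]
      have h2 : (F.filter (fun x => un x = y)).filter (fun x => x.Ok) ⊆ hf.toFinset := by
        intro x hx
        rw [Finset.mem_filter, Finset.mem_filter] at hx
        rw [Set.Finite.mem_toFinset]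
        exact ⟨hx.2, hx.1.2⟩
      refine (Finset.sum_le_sum_of_subset_of_nonneg h2 fun x _ _ => hnn x).trans ?_
      rw [hy]
      refine Finset.prod_le_prod (fun p _ => ?_) fun p _ => ?_
      · exact mul_nonneg (ecf_tot W hW z p).1 (Real.rpow_nonneg (Nat.cast_nonneg _) _)
      · exact mul_le_mul_of_nonneg_right (ecf_tot W hW z p).2
          (Real.rpow_nonneg (Nat.cast_nonneg _) _)
    refine (Finset.sum_le_sum hfib).trans ?_
    exact hsum.sum_le_tsum _ fun y _ => Finset.prod_nonneg fun p _ => h8' p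
  refine Summable.of_abs ?_
  simpa only [ecf_tr] using hab

end

theorem eCf (h : SECfA) : SECf := by
  classical
  intro S Q W hW z s hs
  have hsum := ecf_summable W h hW z s hs
  refine ⟨hsum, ?_⟩
  have h1 := hsum.hasSum.tsum_fiberwise (un : Cf Q → Finset S.P)
  rw [← h1.tsum_eq]
  refine tsum_congr fun y => ?_
  obtain ⟨hf, hy⟩ := h S Q W z s y
  rw [← hy, tsum_subtype (un ⁻¹' {y}) (fun x => W.tr z s x)]
  rw [tsum_eq_sum (s := hf.toFinset)]
  · refine Finset.sum_congr rfl fun x hx => ?_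
    rw [Set.Finite.mem_toFinset] at hx
    exact Set.indicator_of_mem (s := un ⁻¹' {y}) hx.2 _
  · intro x hx
    by_cases hxy : x ∈ un ⁻¹' {y}
    · rw [Set.indicator_of_mem hxy]
      apply ecf_not_ok
      intro hok
      apply hx
      rw [Set.Finite.mem_toFinset]
      exact ⟨hok, hxy⟩
    · exact Set.indicator_of_notMem hxy _

end Pool.Agent.H32.MQ
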