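import Pool.Agent.H32.MQ.EStm

/-!
# Block E2a: the configurations with given union of shadows

A configuration is a finite set of points of a disjoint union of five copies of sets of primes;
the admissible ones with union of shadows `y` are the sections of the shadow map over `y`.
-/

set_option autoImplicit false

open scoped BigOperators
open Filter Topology

namespace Pool.Agent.H32.MQ

open Pool.Agent.H98.MK (sg)
open Pool.Agent.H98.MF

namespace ECfA

/-! ### sections of a map with finite fibres -/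

section Sec

variable {T P : Type} [DecidableEq T] [DecidableEq P]

/-- the sections over `y` -/
def sec (sh : T → P) (fib : P → Finset T) (y : Finset P) [DecidablePred fun F : Finset T =>
    (∀ t ∈ F, ∀ u ∈ F, sh t = sh u → t = u) ∧ F.image sh = y] : Finset (Finset T) :=
  (y.biUnion fib).powerset.filter fun F =>
    (∀ t ∈ F, ∀ u ∈ F, sh t = sh u → t = u) ∧ F.image sh = y

theorem mem_sec {sh : T → P} {fib : P → Finset T} (hfib : ∀ t p, t ∈ fib p ↔ sh t = p)
    (y : Finset P) [DecidablePred fun F : Finset T =>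
    (∀ t ∈ F, ∀ u ∈ F, sh t = sh u → t = u) ∧ F.image sh = y] (F : Finset T) :
    F ∈ sec sh fib y ↔ (∀ t ∈ F, ∀ u ∈ F, sh t = sh u → t = u) ∧ F.image sh = y := by
  unfold sec
  rw [Finset.mem_filter, Finset.mem_powerset]
  refine ⟨fun h => h.2, fun h => ⟨fun t ht => ?_, h⟩⟩
  rw [Finset.mem_biUnion]
  refine ⟨sh t, ?_, (hfib t (sh t)).2 rfl⟩
  rw [← h.2]
  exact Finset.mem_image_of_mem _ ht

open Classical in
theorem sum_sec {sh : T → P} {fib : P → Finset T} (hfib : ∀ t p, t ∈ fib p ↔ sh t = p)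
    (f : T → ℝ) (y : Finset P) :
    ∑ F ∈ sec sh fib y, ∏ t ∈ F, f t = ∏ p ∈ y, ∑ t ∈ fib p, f t := by
  induction y using Finset.induction_on with
  | empty =>
    have h1 : sec sh fib ∅ = {∅} := by
      ext F
      rw [mem_sec hfib, Finset.mem_singleton]
      constructor
      · intro h
        exact Finset.image_eq_empty.1 h.2
      · rintro rfl
        exact ⟨fun t ht => absurd ht (Finset.notMem_empty _), Finset.image_empty _⟩
    rw [h1, Finset.sum_singleton, Finset.prod_empty, Finset.prod_empty]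
  | insert p y hp ih =>
    rw [Finset.prod_insert hp, ← ih, Finset.sum_mul_sum, ← Finset.sum_product']
    symm
    have hmem : ∀ x : T × Finset T, x ∈ fib p ×ˢ sec sh fib y →
        sh x.1 = p ∧ (∀ t ∈ x.2, ∀ u ∈ x.2, sh t = sh u → t = u) ∧ x.2.image sh = y := by
      intro x hx
      rw [Finset.mem_product, hfib, mem_sec hfib] at hx
      exact hx
    have hnot : ∀ x : T × Finset T, x ∈ fib p ×ˢ sec sh fib y → ∀ u ∈ x.2, sh u ≠ p := by
      intro x hx u hu he
      apply hp
      rw [← (hmem x hx).2.2, ← he]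
      exact Finset.mem_image_of_mem _ hu
    refine Finset.sum_bij (fun x _ => insert x.1 x.2) ?_ ?_ ?_ ?_
    · intro x hx
      obtain ⟨h1, h2, h3⟩ := hmem x hx
      rw [mem_sec hfib]
      refine ⟨fun t ht u hu he => ?_, ?_⟩
      · rw [Finset.mem_insert] at ht hu
        rcases ht with ht | ht <;> rcases hu with hu | hu
        · rw [ht, hu]
        · rw [ht, h1] at he
          exact absurd he.symm (hnot x hx u hu)
        · rw [hu, h1] at he
          exact absurd he (hnot x hx t ht)
        · exact h2 t ht u hu he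
      · rw [Finset.image_insert, h1, h3]
    · intro x hx x' hx' he
      have h1 : x.1 ∈ insert x'.1 x'.2 := by
        have : x.1 ∈ insert x.1 x.2 := Finset.mem_insert_self _ _
        rwa [he] at this
      have h2 : x.1 = x'.1 := by
        rcases Finset.mem_insert.1 h1 with h | h
        · exact h
        · exact absurd (hmem x hx).1 (hnot x' hx' _ h)
      have h3 : x.1 ∉ x.2 := fun h => hnot x hx _ h (hmem x hx).1
      have h4 : x'.1 ∉ x'.2 := fun h => hnot x' hx' _ h (hmem x' hx').1
      have h5 : x.2 = x'.2 := by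
        rw [← Finset.erase_insert h3, ← Finset.erase_insert h4, he, h2]
      exact Prod.ext h2 h5
    · intro G hG
      rw [mem_sec hfib] at hG
      obtain ⟨h1, h2⟩ := hG
      have h3 : p ∈ G.image sh := by rw [h2]; exact Finset.mem_insert_self _ _
      obtain ⟨t, ht, htp⟩ := Finset.mem_image.1 h3
      refine ⟨(t, G.erase t), ?_, Finset.insert_erase ht⟩
      rw [Finset.mem_product, hfib, mem_sec hfib]
      refine ⟨htp, fun u hu v hv he => h1 u (Finset.mem_of_mem_erase hu) v
        (Finset.mem_of_mem_erase hv) he, ?_⟩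
      ext q
      rw [Finset.mem_image]
      constructor
      · rintro ⟨u, hu, rfl⟩
        rw [Finset.mem_erase] at hu
        have h4 : sh u ∈ insert p y := by rw [← h2]; exact Finset.mem_image_of_mem _ hu.2
        rcases Finset.mem_insert.1 h4 with h5 | h5
        · exact absurd (h1 u hu.2 t ht (h5.trans htp.symm)) hu.1
        · exact h5
      · intro hq
        have h4 : q ∈ G.image sh := by rw [h2]; exact Finset.mem_insert_of_mem hq
        obtain ⟨u, hu, huq⟩ := Finset.mem_image.1 h4
        refine ⟨u, Finset.mem_erase.2 ⟨?_, hu⟩, huq⟩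
        rintro rfl
        exact hp (by rwa [← htp, huq])
    · intro x hx
      have h3 : x.1 ∉ x.2 := fun h => hnot x hx _ h (hmem x hx).1
      rw [Finset.prod_insert h3]

end Sec

/-! ### configurations as sets of points -/

variable {S : Sys} {Q : Qd S}

/-- the points -/
abbrev Tt (Q : Qd S) : Type := S.P ⊕ (S.P ⊕ (Q.P ⊕ (Q.P ⊕ Q.P)))

/-- the shadow of a point -/
def she : Tt Q → S.P := Sum.elim id (Sum.elim id (Sum.elim Q.sh (Sum.elim Q.sh Q.sh)))

/-- the variable of a point -/
def cmp : Tt Q → Fin 5 := Sum.elim (fun _ => 0) (Sum.elim (fun _ => 1)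
  (Sum.elim (fun _ => 2) (Sum.elim (fun _ => 3) fun _ => 4)))

/-- the set of points of a configuration -/
def enc (x : Cf Q) : Finset (Tt Q) :=
  x.q0.disjSum (x.q12.disjSum (x.qq.disjSum (x.g0.disjSum x.g1)))

/-- the configuration of a set of points -/
def dec (F : Finset (Tt Q)) : Cf Q :=
  ⟨F.toLeft, F.toRight.toLeft, F.toRight.toRight.toLeft, F.toRight.toRight.toRight.toLeft,
    F.toRight.toRight.toRight.toRight⟩

theorem dec_enc (x : Cf Q) : dec (enc x) = x := by
  simp [dec, enc]

theorem enc_dec (F : Finset (Tt Q)) : enc (dec F) = F := by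
  simp only [dec, enc, Finset.toLeft_disjSum_toRight]

theorem mem_sd (x : Cf Q) (i : Fin 5) (p : S.P) :
    p ∈ x.sd i ↔ ∃ t ∈ enc x, cmp t = i ∧ she t = p := by
  fin_cases i
  all_goals
    simp [Cf.sd, enc, she, cmp, Qd.shd]

theorem mem_un (x : Cf Q) (p : S.P) : p ∈ un x ↔ ∃ i, p ∈ x.sd i := by
  simp [un]

open Classical in
theorem un_eq (x : Cf Q) : un x = (enc x).image she := by
  ext p
  rw [mem_un, Finset.mem_image]
  constructor
  · rintro ⟨i, hi⟩
    obtain ⟨t, ht, -, h⟩ := (mem_sd x i p).1 hi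
    exact ⟨t, ht, h⟩
  · rintro ⟨t, ht, h⟩
    exact ⟨cmp t, (mem_sd x _ p).2 ⟨t, ht, rfl, h⟩⟩

theorem inj_of_ok (x : Cf Q) (hx : x.Ok) :
    ∀ t ∈ enc x, ∀ u ∈ enc x, she t = she u → t = u := by
  intro t ht u hu he
  have hc : cmp t = cmp u := by
    by_contra hc
    have h1 := hx.dj _ _ hc
    exact Finset.disjoint_left.1 h1 ((mem_sd x _ (she t)).2 ⟨t, ht, rfl, rfl⟩)
      ((mem_sd x _ (she t)).2 ⟨u, hu, rfl, he.symm⟩)
  have g2 := hx.gqq
  have g3 := hx.gg0
  have g4 := hx.gg1
  unfold Qd.Gd at g2 g3 g4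
  rcases t with t | t | t | t | t <;> rcases u with u | u | u | u | u <;>
    simp [cmp, enc, she] at hc ht hu he ⊢
  · exact he
  · exact he
  · exact g2 t ht u hu he
  · exact g3 t ht u hu he
  · exact g4 t ht u hu he

theorem ok_of_inj (x : Cf Q) (h : ∀ t ∈ enc x, ∀ u ∈ enc x, she t = she u → t = u)
    (hM : Disjoint (un x) Q.M) : x.Ok where
  dj := by
    intro i j hij
    rw [Finset.disjoint_left]
    intro p hi hj
    obtain ⟨t, ht, hti, htp⟩ := (mem_sd x i p).1 hi
    obtain ⟨u, hu, huj, hup⟩ := (mem_sd x j p).1 hj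
    have := h t ht u hu (htp.trans hup.symm)
    rw [this] at hti
    exact hij (hti.symm.trans huj)
  dM := by
    intro i
    rw [Finset.disjoint_left]
    intro p hi
    exact Finset.disjoint_left.1 hM ((mem_un x p).2 ⟨i, hi⟩)
  gqq := by
    intro a ha b hb hab
    have := h (.inr (.inr (.inl a))) (by simpa [enc] using ha) (.inr (.inr (.inl b)))
      (by simpa [enc] using hb) (by simpa [she] using hab)
    simpa using this
  gg0 := by
    intro a ha b hb hab
    have := h (.inr (.inr (.inr (.inl a)))) (by simpa [enc] using ha)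
      (.inr (.inr (.inr (.inl b)))) (by simpa [enc] using hb) (by simpa [she] using hab)
    simpa using this
  gg1 := by
    intro a ha b hb hab
    have := h (.inr (.inr (.inr (.inr a)))) (by simpa [enc] using ha)
      (.inr (.inr (.inr (.inr b)))) (by simpa [enc] using hb) (by simpa [she] using hab)
    simpa using this

/-! ### the fibres -/

open Classical in
/-- the primes above `p` -/
noncomputable def fq (Q : Qd S) (p : S.P) : Finset Q.P :=
  if h : ∃ a, Q.sh a = p then {h.choose, Q.cj h.choose} else ∅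

theorem mem_fq (a : Q.P) (p : S.P) : a ∈ fq Q p ↔ Q.sh a = p := by
  classical
  unfold fq
  by_cases h : ∃ a, Q.sh a = p
  · rw [dif_pos h, Finset.mem_insert, Finset.mem_singleton]
    have h1 := h.choose_spec
    constructor
    · rintro (h2 | h2)
      · rw [h2, h1]
      · rw [h2, Q.sh_cj, h1]
    · intro h2
      exact Q.fib _ _ (h1.trans h2.symm)
  · rw [dif_neg h]
    constructor
    · intro h2
      exact absurd h2 (Finset.notMem_empty _)
    · intro h2
      exact absurd ⟨a, h2⟩ h

theorem sum_fq (u : Q.P → ℝ) (p : S.P) : ∑ a ∈ fq Q p, u a = Pw.ab u p := by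
  classical
  unfold fq Pw.ab
  by_cases h : ∃ a, Q.sh a = p
  · rw [dif_pos h, dif_pos h, Finset.sum_pair (fun h1 => Q.cj_ne _ h1.symm)]
  · rw [dif_neg h, dif_neg h, Finset.sum_empty]

/-- the points above `p` -/
noncomputable def fT (Q : Qd S) (p : S.P) : Finset (Tt Q) :=
  ({p} : Finset S.P).disjSum (({p} : Finset S.P).disjSum
    ((fq Q p).disjSum ((fq Q p).disjSum (fq Q p))))

theorem mem_fT (t : Tt Q) (p : S.P) : t ∈ fT Q p ↔ she t = p := by
  rcases t with t | t | t | t | t <;> simp [fT, she, mem_fq]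

/-- the weight of a point -/
def wt (W : Pw Q) : Tt Q → ℝ :=
  Sum.elim W.u0 (Sum.elim W.u1 (Sum.elim W.u2 (Sum.elim W.u3 W.u4)))

theorem sum_fT (W : Pw Q) (p : S.P) : ∑ t ∈ fT Q p, wt W t =
    W.u0 p + W.u1 p + Pw.ab W.u2 p + Pw.ab W.u3 p + Pw.ab W.u4 p := by
  unfold fT wt
  rw [Finset.sum_disjSum, Finset.sum_disjSum, Finset.sum_disjSum, Finset.sum_disjSum]
  simp only [Sum.elim_inl, Sum.elim_inr, Finset.sum_singleton, sum_fq]
  ring

theorem prod_enc (W : Pw Q) (x : Cf Q) : ∏ t ∈ enc x, wt W t = W.val x := by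
  unfold enc wt Pw.val
  rw [Finset.prod_disjSum, Finset.prod_disjSum, Finset.prod_disjSum, Finset.prod_disjSum]
  simp only [Sum.elim_inl, Sum.elim_inr]
  ring

theorem n_eq (x : Cf Q) (hx : x.Ok) : x.n = S.nm (un x) := by
  unfold un Cf.n
  rw [S.nm_biUnion Finset.univ x.sd fun i _ j _ hij => hx.dj i j hij]

theorem pow_prod (y : Finset S.P) (s : ℝ) :
    (S.nm y : ℝ) ^ (-s) = ∏ p ∈ y, (S.N p : ℝ) ^ (-s) := by
  unfold Pre.nm
  rw [Nat.cast_prod]
  exact (Real.finset_prod_rpow _ _ (fun p _ => Nat.cast_nonneg _) _).symm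

open Classical in
theorem term (W : Pw Q) (s : ℝ) (x : Cf Q) (hx : x.Ok) :
    W.val x * (x.n : ℝ) ^ (-s) = ∏ t ∈ enc x, wt W t * (S.N (she t) : ℝ) ^ (-s) := by
  rw [Finset.prod_mul_distrib, prod_enc, n_eq x hx, pow_prod, un_eq]
  rw [Finset.prod_image fun t ht u hu he => inj_of_ok x hx t ht u hu he]

end ECfA

open ECfA in
/-- E2a: the configurations with given union of shadows -/
theorem eCfA : SECfA := by
  classical
  intro S Q W z s y
  -- the configurations are the sections
  have hset : ∀ x : Cf Q, (x.Ok ∧ un x = y) ↔ (enc x ∈ sec she (fT Q) y ∧ Disjoint y Q.M) := by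
    intro x
    rw [mem_sec mem_fT]
    constructor
    · rintro ⟨h1, h2⟩
      refine ⟨⟨inj_of_ok x h1, ?_⟩, ?_⟩
      · rw [← un_eq, h2]
      · rw [← h2, Finset.disjoint_left]
        intro p hp
        obtain ⟨i, hi⟩ := (mem_un x p).1 hp
        exact Finset.disjoint_left.1 (h1.dM i) hi
    · rintro ⟨⟨h1, h2⟩, h3⟩
      rw [← un_eq] at h2
      exact ⟨ok_of_inj x h1 (by rw [h2]; exact h3), h2⟩
  have hinj : Function.Injective (enc (Q := Q)) := fun x x' h => by
    rw [← dec_enc x, h, dec_enc]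
  have hf : {x : Cf Q | x.Ok ∧ un x = y}.Finite := by
    refine Set.Finite.of_finite_image (f := enc) ?_ hinj.injOn
    refine Set.Finite.subset (Finset.finite_toSet (sec she (fT Q) y)) ?_
    rintro _ ⟨x, hx, rfl⟩
    exact ((hset x).1 hx).1
  refine ⟨hf, ?_⟩
  have hmem : ∀ x : Cf Q, x ∈ hf.toFinset ↔ (x.Ok ∧ un x = y) := by
    intro x
    rw [Set.Finite.mem_toFinset]
    rfl
  by_cases hM : Disjoint y Q.M
  · by_cases hz : Disjoint y z
    · have e1 : ∑ x ∈ hf.toFinset, W.tr z s x =
          ∑ x ∈ hf.toFinset, ∏ t ∈ enc x, wt W t * (S.N (she t) : ℝ) ^ (-s) := by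
        refine Finset.sum_congr rfl fun x hx => ?_
        obtain ⟨h1, h2⟩ := (hmem x).1 hx
        rw [← term W s x h1]
        unfold Pw.tr
        rw [if_pos]
        refine ⟨h1, fun i => ?_⟩
        rw [Finset.disjoint_left]
        intro p hp
        exact Finset.disjoint_left.1 hz (by rw [← h2]; exact (mem_un x p).2 ⟨i, hp⟩)
      have e2 : ∑ x ∈ hf.toFinset, ∏ t ∈ enc x, wt W t * (S.N (she t) : ℝ) ^ (-s) =
          ∑ F ∈ sec she (fT Q) y, ∏ t ∈ F, wt W t * (S.N (she t) : ℝ) ^ (-s) := by
        refine Finset.sum_bij (fun x _ => enc x) ?_ ?_ ?_ ?_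
        · intro x hx
          exact ((hset x).1 ((hmem x).1 hx)).1
        · intro x _ x' _ h
          exact hinj h
        · intro F hF
          refine ⟨dec F, ?_, enc_dec F⟩
          rw [hmem, hset, enc_dec]
          exact ⟨hF, hM⟩
        · intro x _
          rfl
      rw [e1, e2, sum_sec mem_fT]
      refine Finset.prod_congr rfl fun p hp => ?_
      have hpM : ¬ (p ∈ Q.M ∨ p ∈ z) := by
        rintro (h | h)
        · exact Finset.disjoint_left.1 hM hp h
        · exact Finset.disjoint_left.1 hz hp h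
      have e3 : ∑ t ∈ fT Q p, wt W t * (S.N (she t) : ℝ) ^ (-s) =
          ∑ t ∈ fT Q p, wt W t * (S.N p : ℝ) ^ (-s) := by
        refine Finset.sum_congr rfl fun t ht => ?_
        rw [(mem_fT t p).1 ht]
      rw [e3, ← Finset.sum_mul, sum_fT]
      unfold Pw.tot
      rw [if_neg hpM]
    · -- `y` meets `z`
      obtain ⟨p, hpy, hpz⟩ := Finset.not_disjoint_iff.1 hz
      rw [Finset.sum_eq_zero, Finset.prod_eq_zero hpy]
      · unfold Pw.tot
        rw [if_pos (Or.inr hpz), zero_mul]
      · intro x hx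
        obtain ⟨h1, h2⟩ := (hmem x).1 hx
        unfold Pw.tr
        rw [if_neg]
        rintro ⟨-, h3⟩
        rw [← h2] at hpy
        obtain ⟨i, hi⟩ := (mem_un x p).1 hpy
        exact Finset.disjoint_left.1 (h3 i) hi hpz
  · obtain ⟨p, hpy, hpM⟩ := Finset.not_disjoint_iff.1 hM
    rw [Finset.sum_eq_zero, Finset.prod_eq_zero hpy]
    · unfold Pw.tot
      rw [if_pos (Or.inl hpM), zero_mul]
    · intro x hx
      exact absurd ((hset x).1 ((hmem x).1 hx)).2 hM

end Pool.Agent.H32.MQ
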