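import Pool.Agent.H32.MQ.EGStm

/-!
# Malle's conjecture for 8T28 and 8T29 over number fields, block E: convergence and bound of the
sums over tuples
-/

set_option autoImplicit false

open scoped BigOperators Topology
open Filter

namespace Pool.Agent.H32.MQ

open Pool.Agent.H98.MK (sg)
open Pool.Agent.H98.MF

theorem efin_fun (h6 : SEG6) {S SF : Sys} (F : Qf S SF) {u v : ℕ} (y : Fin u → El S)
    (Y : Fin v → El SF) (z : Finset S.P) (s : ℝ) :
    (fun w => tE F y Y z s w) = fun w =>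
      tG F (fun i p => ((sg (S.ex (y i).2 (y i).1 p) : ℤ) : ℝ))
        (fun j a => ((sg (SF.ex (Y j).2 (Y j).1 (F.io a)) : ℤ) : ℝ)) z s w :=
  funext fun w => h6 S SF F u v y Y z s w

theorem efin_ex (S : Sys) (p : S.P) : ((sg (S.ex ∅ 0 p) : ℤ) : ℝ) = 1 := by
  have h1 : S.ex ∅ 0 p = 0 := by
    unfold Sys.ex
    rw [Finset.sum_empty, zero_dotProduct, add_zero]
  rw [h1, sg_zero, Int.cast_one]

theorem efin_ne {S : Sys} {y : El S} (h : y ≠ (0, ∅)) : y.2.Nonempty ∨ y.1 ≠ 0 := by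
  by_contra h1
  rw [not_or, Finset.not_nonempty_iff_eq_empty, not_not] at h1
  exact h (Prod.ext h1.2 h1.1)

theorem efin_pk (hk1 : SPk1) (hk0 : SPk0) (hkM : SPkM) (S : Sys) (y : El S) (e : ℝ)
    (he1 : y = (0, ∅) → e = 1) (he0 : y ≠ (0, ∅) → e = 0) :
    Pk S.toPre (fun p => ((sg (S.ex y.2 y.1 p) : ℤ) : ℝ)) e := by
  by_cases h : y = (0, ∅)
  · rw [he1 h, h]
    have h1 : (fun p => ((sg (S.ex ((0 : S.T), (∅ : Finset S.P)).2
        ((0 : S.T), (∅ : Finset S.P)).1 p) : ℤ) : ℝ)) = fun _ => 1 :=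
      funext fun p => efin_ex S p
    rw [h1]
    exact hk1 S
  · rw [he0 h]
    refine hkM S _ _ 0 (fun p => ?_) (fun p => (abs_sgr _).le) ?_ (hk0 S y.2 y.1 (efin_ne h))
    · split_ifs
      · rw [abs_zero]
        exact zero_le_one
      · exact (abs_sgr _).le
    · refine Set.Finite.subset (Finset.finite_toSet y.2) fun p hp => ?_
      by_contra h1
      exact hp (if_neg h1)

theorem efin_pf (h5 : SEG5) (hf1 : SPf1) (hf0 : SPf0) (hfM : SPfM) {S SF : Sys} (F : Qf S SF)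
    (Y : El SF) (e : ℝ) (he1 : Y = (0, ∅) → e = 1) (he0 : Y ≠ (0, ∅) → e = 0) :
    Pf F.Q (fun a => ((sg (SF.ex Y.2 Y.1 (F.io a)) : ℤ) : ℝ)) e := by
  by_cases h : Y = (0, ∅)
  · rw [he1 h, h]
    have h1 : (fun a => ((sg (SF.ex ((0 : SF.T), (∅ : Finset SF.P)).2
        ((0 : SF.T), (∅ : Finset SF.P)).1 (F.io a)) : ℤ) : ℝ)) = fun _ => 1 :=
      funext fun a => efin_ex SF (F.io a)
    rw [h1]
    exact hf1 S F.Q
  · rw [he0 h]
    obtain ⟨f, hio⟩ := h5 S SF F
    rw [← hio]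
    refine hfM S F.Q _ _ 0 (fun p => ?_) (fun p => (abs_sgr _).le) ?_
      (hf0 S F.Q SF f Y.2 Y.1 (efin_ne h))
    · split_ifs
      · rw [abs_zero]
        exact zero_le_one
      · exact (abs_sgr _).le
    · refine Set.Finite.subset
        (Set.Finite.preimage (f.inj.injOn) (Finset.finite_toSet Y.2)) fun p hp => ?_
      by_contra h1
      exact hp (if_neg h1)

theorem eS (h2 : SEG2) (h6 : SEG6) : SES := by
  intro S SF F u v y Y z s hs
  rw [efin_fun h6]
  exact (h2 S SF F u v _ _ (fun i p => (abs_sgr _).le) (fun j a => (abs_sgr _).le) z s hs).1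

theorem eB (h4 : SEG4) (h5 : SEG5) (h6 : SEG6) (hk1 : SPk1) (hk0 : SPk0) (hf1 : SPf1)
    (hf0 : SPf0) (hkM : SPkM) (hfM : SPfM) : SEB := by
  classical
  intro S SF F u v y Y z _ _
  have hc : ∀ p : Prop, ∃ e : ℝ, (p → e = 1) ∧ (¬ p → e = 0) := fun p => by
    by_cases h : p
    · exact ⟨1, fun _ => rfl, fun h1 => absurd h h1⟩
    · exact ⟨0, fun h1 => absurd h1 h, fun _ => rfl⟩
  choose e he1 he0 using fun i => hc (y i = (0, ∅))
  choose e' he1' he0' using fun j => hc (Y j = (0, ∅))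
  have hn : (nfr y Y : ℝ) = ∑ i, e i + ∑ j, e' j := by
    unfold nfr
    rw [Finset.card_filter, Finset.card_filter]
    push_cast
    congr 1
    · refine Finset.sum_congr rfl fun i _ => ?_
      split_ifs with h
      · exact (he1 i h).symm
      · exact (he0 i h).symm
    · refine Finset.sum_congr rfl fun j _ => ?_
      split_ifs with h
      · exact (he1' j h).symm
      · exact (he0' j h).symm
  obtain ⟨C, hC⟩ := h4 S SF F u v _ _ (fun i p => (abs_sgr _).le) (fun j a => (abs_sgr _).le) z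
    e e' (fun i => efin_pk hk1 hk0 hkM S (y i) (e i) (he1 i) (he0 i))
    (fun j => efin_pf h5 hf1 hf0 hfM F (Y j) (e' j) (he1' j) (he0' j))
  refine ⟨C, fun σ h0 h1 => ?_⟩
  rw [hn]
  unfold ES
  rw [efin_fun h6]
  exact hC σ h0 h1

end Pool.Agent.H32.MQ
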