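import Pool.Agent.H32.MQ.EGStm

/-!
# Block E, G1: the tuples with given union of shadows

A tuple is a finite set of points of a disjoint union of copies of the sets of primes; the
admissible ones with union of shadows `y` are the sections of the shadow map over `y`.
-/

set_option autoImplicit false

open scoped BigOperators
open Filter Topology

namespace Pool.Agent.H32.MQ

open Pool.Agent.H98.MK (sg)
open Pool.Agent.H98.MF

namespace EG1x

/-! ### sections of a map with finite fibres -/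

section Sec

variable {T P : Type} [DecidableEq T] [DecidableEq P]

/-- the sections over `y` -/
def sec (sh : T → P) (fib : P → Finset T) (y : Finset P) [DecidablePred fun F : Finset T =>
    (∀ t ∈ F, ∀ u ∈ F, sh t = sh u → t = u) ∧ F.image sh = y] : Finset (Finset T) :=
  (y.biUnion fib).powerset.filter fun F =>
    (∀ t ∈ F, ∀ u ∈ F, sh t = sh u → t = u) ∧ F.image sh = y

theorem mem_sec {sh : T → P} {fib : P → Finset T} (hfib : ∀ t p, t ∈ fib p ↔ sh t = p)
    (y : Finset P) [DecidablePred fun F : Finset T =>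
    (∀ t ∈ F, ∀ u ∈ F, sh t = sh u → t = u) ∧ F.image sh = y] (F : Finset T) :
    F ∈ sec sh fib y ↔ (∀ t ∈ F, ∀ u ∈ F, sh t = sh u → t = u) ∧ F.image sh = y := by
  unfold sec
  rw [Finset.mem_filter, Finset.mem_powerset]
  refine ⟨fun h => h.2, fun h => ⟨fun t ht => ?_, h⟩⟩
  rw [Finset.mem_biUnion]
  refine ⟨sh t, ?_, (hfib t (sh t)).2 rfl⟩
  rw [← h.2]
  exact Finset.mem_image_of_mem _ ht

open Classical in
theorem sum_sec {sh : T → P} {fib : P → Finset T} (hfib : ∀ t p, t ∈ fib p ↔ sh t = p)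
    (f : T → ℝ) (y : Finset P) :
    ∑ F ∈ sec sh fib y, ∏ t ∈ F, f t = ∏ p ∈ y, ∑ t ∈ fib p, f t := by
  induction y using Finset.induction_on with
  | empty =>
    have h1 : sec sh fib ∅ = {∅} := by
      ext F
      rw [mem_sec hfib, Finset.mem_singleton]
      constructor
      · intro h
        exact Finset.image_eq_empty.1 h.2
      · rintro rfl
        exact ⟨fun t ht => absurd ht (Finset.notMem_empty _), Finset.image_empty _⟩
    rw [h1, Finset.sum_singleton, Finset.prod_empty, Finset.prod_empty]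
  | insert p y hp ih =>
    rw [Finset.prod_insert hp, ← ih, Finset.sum_mul_sum, ← Finset.sum_product']
    symm
    have hmem : ∀ x : T × Finset T, x ∈ fib p ×ˢ sec sh fib y →
        sh x.1 = p ∧ (∀ t ∈ x.2, ∀ u ∈ x.2, sh t = sh u → t = u) ∧ x.2.image sh = y := by
      intro x hx
      rw [Finset.mem_product, hfib, mem_sec hfib] at hx
      exact hx
    have hnot : ∀ x : T × Finset T, x ∈ fib p ×ˢ sec sh fib y → ∀ u ∈ x.2, sh u ≠ p := by
      intro x hx u hu he
      apply hp
      rw [← (hmem x hx).2.2, ← he]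
      exact Finset.mem_image_of_mem _ hu
    refine Finset.sum_bij (fun x _ => insert x.1 x.2) ?_ ?_ ?_ ?_
    · intro x hx
      obtain ⟨h1, h2, h3⟩ := hmem x hx
      rw [mem_sec hfib]
      refine ⟨fun t ht u hu he => ?_, ?_⟩
      · rw [Finset.mem_insert] at ht hu
        rcases ht with ht | ht <;> rcases hu with hu | hu
        · rw [ht, hu]
        · rw [ht, h1] at he
          exact absurd he.symm (hnot x hx u hu)
        · rw [hu, h1] at he
          exact absurd he (hnot x hx t ht)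
        · exact h2 t ht u hu he
      · rw [Finset.image_insert, h1, h3]
    · intro x hx x' hx' he
      have h1 : x.1 ∈ insert x'.1 x'.2 := by
        have : x.1 ∈ insert x.1 x.2 := Finset.mem_insert_self _ _
        rwa [he] at this
      have h2 : x.1 = x'.1 := by
        rcases Finset.mem_insert.1 h1 with h | h
        · exact h
        · exact absurd (hmem x hx).1 (hnot x' hx' _ h)
      have h3 : x.1 ∉ x.2 := fun h => hnot x hx _ h (hmem x hx).1
      have h4 : x'.1 ∉ x'.2 := fun h => hnot x' hx' _ h (hmem x' hx').1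
      have h5 : x.2 = x'.2 := by
        rw [← Finset.erase_insert h3, ← Finset.erase_insert h4, he, h2]
      exact Prod.ext h2 h5
    · intro G hG
      rw [mem_sec hfib] at hG
      obtain ⟨h1, h2⟩ := hG
      have h3 : p ∈ G.image sh := by rw [h2]; exact Finset.mem_insert_self _ _
      obtain ⟨t, ht, htp⟩ := Finset.mem_image.1 h3
      refine ⟨(t, G.erase t), ?_, Finset.insert_erase ht⟩
      rw [Finset.mem_product, hfib, mem_sec hfib]
      refine ⟨htp, fun u hu v hv he => h1 u (Finset.mem_of_mem_erase hu) v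
        (Finset.mem_of_mem_erase hv) he, ?_⟩
      ext q
      rw [Finset.mem_image]
      constructor
      · rintro ⟨u, hu, rfl⟩
        rw [Finset.mem_erase] at hu
        have h4 : sh u ∈ insert p y := by rw [← h2]; exact Finset.mem_image_of_mem _ hu.2
        rcases Finset.mem_insert.1 h4 with h5 | h5
        · exact absurd (h1 u hu.2 t ht (h5.trans htp.symm)) hu.1
        · exact h5
      · intro hq
        have h4 : q ∈ G.image sh := by rw [h2]; exact Finset.mem_insert_of_mem hq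
        obtain ⟨u, hu, huq⟩ := Finset.mem_image.1 h4
        refine ⟨u, Finset.mem_erase.2 ⟨?_, hu⟩, huq⟩
        rintro rfl
        exact hp (by rwa [← htp, huq])
    · intro x hx
      have h3 : x.1 ∉ x.2 := fun h => hnot x hx _ h (hmem x hx).1
      rw [Finset.prod_insert h3]

end Sec

/-! ### tuples as sets of points -/

section Tup

variable {u : ℕ} {P : Type}

/-- the set of points of a tuple -/
def en (w : Fin u → Finset P) : Finset (Σ _ : Fin u, P) := Finset.univ.sigma w

theorem mem_en (w : Fin u → Finset P) (i : Fin u) (p : P) :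
    (⟨i, p⟩ : Σ _ : Fin u, P) ∈ en w ↔ p ∈ w i := by
  unfold en
  rw [Finset.mem_sigma]
  exact ⟨fun h => h.2, fun h => ⟨Finset.mem_univ _, h⟩⟩

open Classical in
/-- the tuple of a set of points -/
noncomputable def de (E : Finset (Σ _ : Fin u, P)) (i : Fin u) : Finset P :=
  (E.filter fun t => t.1 = i).image fun t => t.2

open Classical in
theorem mem_de (E : Finset (Σ _ : Fin u, P)) (i : Fin u) (p : P) :
    p ∈ de E i ↔ (⟨i, p⟩ : Σ _ : Fin u, P) ∈ E := by
  unfold de
  rw [Finset.mem_image]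
  constructor
  · rintro ⟨⟨i', p'⟩, ht, rfl⟩
    rw [Finset.mem_filter] at ht
    obtain ⟨h1, h2⟩ := ht
    have h3 : i' = i := h2
    rw [← h3]
    exact h1
  · intro h
    exact ⟨⟨i, p⟩, Finset.mem_filter.2 ⟨h, rfl⟩, rfl⟩

theorem en_de (E : Finset (Σ _ : Fin u, P)) : en (de E) = E := by
  ext ⟨i, p⟩
  rw [mem_en, mem_de]

theorem de_en (w : Fin u → Finset P) : de (en w) = w := by
  funext i
  ext p
  rw [mem_de, mem_en]

end Tup

variable {S SF : Sys} (F : Qf S SF) {u v : ℕ}

/-- the points -/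
abbrev Tt (u v : ℕ) : Type := (Σ _ : Fin u, S.P) ⊕ (Σ _ : Fin v, F.Q.P)

/-- the shadow of a point -/
def she : Tt F u v → S.P := Sum.elim (fun t => t.2) fun t => F.Q.sh t.2

/-- the set of points of a pair of tuples -/
def enc (w : (Fin u → Finset S.P) × (Fin v → Finset F.Q.P)) : Finset (Tt F u v) :=
  (en w.1).disjSum (en w.2)

theorem mem_enc_l (w : (Fin u → Finset S.P) × (Fin v → Finset F.Q.P)) (i : Fin u) (p : S.P) :
    (Sum.inl ⟨i, p⟩ : Tt F u v) ∈ enc F w ↔ p ∈ w.1 i := by
  unfold enc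
  rw [Finset.inl_mem_disjSum, mem_en]

theorem mem_enc_r (w : (Fin u → Finset S.P) × (Fin v → Finset F.Q.P)) (j : Fin v)
    (a : F.Q.P) : (Sum.inr ⟨j, a⟩ : Tt F u v) ∈ enc F w ↔ a ∈ w.2 j := by
  unfold enc
  rw [Finset.inr_mem_disjSum, mem_en]

/-- the tuples of a set of points -/
noncomputable def dec (E : Finset (Tt F u v)) :
    (Fin u → Finset S.P) × (Fin v → Finset F.Q.P) := (de E.toLeft, de E.toRight)

theorem dec_enc (w : (Fin u → Finset S.P) × (Fin v → Finset F.Q.P)) : dec F (enc F w) = w := by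
  unfold dec enc
  rw [Finset.toLeft_disjSum, Finset.toRight_disjSum, de_en, de_en]

theorem enc_dec (E : Finset (Tt F u v)) : enc F (dec F E) = E := by
  unfold dec enc
  simp only [en_de, Finset.toLeft_disjSum_toRight]

theorem mem_shd (g : Finset F.Q.P) (p : S.P) : p ∈ F.Q.shd g ↔ ∃ a ∈ g, F.Q.sh a = p := by
  unfold Qd.shd
  rw [Finset.mem_image]

theorem mem_unG (w : (Fin u → Finset S.P) × (Fin v → Finset F.Q.P)) (p : S.P) :
    p ∈ unG F w ↔ (∃ i, p ∈ w.1 i) ∨ ∃ j, p ∈ F.Q.shd (w.2 j) := by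
  unfold unG
  rw [Finset.mem_union, Finset.mem_biUnion, Finset.mem_biUnion]
  simp only [Finset.mem_univ, true_and]

open Classical in
theorem un_eq (w : (Fin u → Finset S.P) × (Fin v → Finset F.Q.P)) :
    unG F w = (enc F w).image (she F) := by
  ext p
  rw [mem_unG, Finset.mem_image]
  constructor
  · rintro (⟨i, hi⟩ | ⟨j, hj⟩)
    · exact ⟨.inl ⟨i, p⟩, (mem_enc_l F w i p).2 hi, rfl⟩
    · obtain ⟨a, ha, hap⟩ := (mem_shd F _ _).1 hj
      exact ⟨.inr ⟨j, a⟩, (mem_enc_r F w j a).2 ha, hap⟩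
  · rintro ⟨⟨i, q⟩ | ⟨j, a⟩, ht, rfl⟩
    · exact Or.inl ⟨i, (mem_enc_l F w i q).1 ht⟩
    · exact Or.inr ⟨j, (mem_shd F _ _).2 ⟨a, (mem_enc_r F w j a).1 ht, rfl⟩⟩

theorem inj_of_ok (z : Finset S.P) (w : (Fin u → Finset S.P) × (Fin v → Finset F.Q.P))
    (hw : okE F z w) : ∀ t ∈ enc F w, ∀ t' ∈ enc F w, she F t = she F t' → t = t' := by
  obtain ⟨-, -, h3, h4, h5, h6⟩ := hw
  rintro (⟨i, p⟩ | ⟨j, a⟩) ht (⟨i', p'⟩ | ⟨j', a'⟩) ht' he
  · rw [mem_enc_l] at ht ht'
    have he' : p = p' := he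
    subst he'
    by_cases hi : i = i'
    · rw [hi]
    · exact absurd ht' (Finset.disjoint_left.1 (h4 i i' hi) ht)
  · rw [mem_enc_l] at ht
    rw [mem_enc_r] at ht'
    have he' : p = F.Q.sh a' := he
    exact absurd ((mem_shd F _ _).2 ⟨a', ht', he'.symm⟩) (Finset.disjoint_left.1 (h6 i j') ht)
  · rw [mem_enc_r] at ht
    rw [mem_enc_l] at ht'
    have he' : F.Q.sh a = p' := he
    exact absurd ((mem_shd F _ _).2 ⟨a, ht, he'⟩) (Finset.disjoint_left.1 (h6 i' j) ht')
  · rw [mem_enc_r] at ht ht'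
    have he' : F.Q.sh a = F.Q.sh a' := he
    by_cases hj : j = j'
    · subst hj
      rw [h3 j a ht a' ht' he']
    · exact absurd ((mem_shd F _ _).2 ⟨a', ht', he'.symm⟩)
        (Finset.disjoint_left.1 (h5 j j' hj) ((mem_shd F _ _).2 ⟨a, ht, rfl⟩))

theorem ok_of_inj (z : Finset S.P) (w : (Fin u → Finset S.P) × (Fin v → Finset F.Q.P))
    (h : ∀ t ∈ enc F w, ∀ t' ∈ enc F w, she F t = she F t' → t = t')
    (hz : Disjoint (unG F w) z) : okE F z w := by
  refine ⟨fun i => ?_, fun j => ?_, fun j a ha a' ha' he => ?_, fun i i' hi => ?_,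
    fun j j' hj => ?_, fun i j => ?_⟩
  · rw [Finset.disjoint_left]
    intro p hp
    exact Finset.disjoint_left.1 hz ((mem_unG F w p).2 (Or.inl ⟨i, hp⟩))
  · rw [Finset.disjoint_left]
    intro p hp
    exact Finset.disjoint_left.1 hz ((mem_unG F w p).2 (Or.inr ⟨j, hp⟩))
  · have h1 := h (.inr ⟨j, a⟩) ((mem_enc_r F w j a).2 ha) (.inr ⟨j, a'⟩)
      ((mem_enc_r F w j a').2 ha') he
    simpa using h1
  · rw [Finset.disjoint_left]
    intro p hp hp'
    have h1 := h (.inl ⟨i, p⟩) ((mem_enc_l F w i p).2 hp) (.inl ⟨i', p⟩)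
      ((mem_enc_l F w i' p).2 hp') rfl
    apply hi
    simpa using h1
  · rw [Finset.disjoint_left]
    intro p hp hp'
    obtain ⟨a, ha, hap⟩ := (mem_shd F _ _).1 hp
    obtain ⟨a', ha', hap'⟩ := (mem_shd F _ _).1 hp'
    have h1 := h (.inr ⟨j, a⟩) ((mem_enc_r F w j a).2 ha) (.inr ⟨j', a'⟩)
      ((mem_enc_r F w j' a').2 ha') (hap.trans hap'.symm)
    apply hj
    have h2 := Sum.inr.inj h1
    exact congrArg Sigma.fst h2
  · rw [Finset.disjoint_left]
    intro p hp hp'
    obtain ⟨a', ha', hap'⟩ := (mem_shd F _ _).1 hp'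
    have h1 := h (.inl ⟨i, p⟩) ((mem_enc_l F w i p).2 hp) (.inr ⟨j, a'⟩)
      ((mem_enc_r F w j a').2 ha') hap'.symm
    exact absurd h1 Sum.inl_ne_inr

/-! ### the fibres -/

open Classical in
/-- the primes above `p` -/
noncomputable def fq {S : Sys} (Q : Qd S) (p : S.P) : Finset Q.P :=
  if h : ∃ a, Q.sh a = p then {h.choose, Q.cj h.choose} else ∅

theorem mem_fq {S : Sys} {Q : Qd S} (a : Q.P) (p : S.P) : a ∈ fq Q p ↔ Q.sh a = p := by
  classical
  unfold fq
  by_cases h : ∃ a, Q.sh a = p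
  · rw [dif_pos h, Finset.mem_insert, Finset.mem_singleton]
    have h1 := h.choose_spec
    constructor
    · rintro (h2 | h2)
      · rw [h2, h1]
      · rw [h2, Q.sh_cj, h1]
    · intro h2
      exact Q.fib _ _ (h1.trans h2.symm)
  · rw [dif_neg h]
    constructor
    · intro h2
      exact absurd h2 (Finset.notMem_empty _)
    · intro h2
      exact absurd ⟨a, h2⟩ h

theorem sum_fq {S : Sys} {Q : Qd S} (u : Q.P → ℝ) (p : S.P) : ∑ a ∈ fq Q p, u a = Pw.ab u p := by
  classical
  unfold fq Pw.ab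
  by_cases h : ∃ a, Q.sh a = p
  · rw [dif_pos h, dif_pos h, Finset.sum_pair (fun h1 => Q.cj_ne _ h1.symm)]
  · rw [dif_neg h, dif_neg h, Finset.sum_empty]

/-- the points above `p` -/
noncomputable def fT (p : S.P) : Finset (Tt F u v) :=
  (en fun _ : Fin u => ({p} : Finset S.P)).disjSum (en fun _ : Fin v => fq F.Q p)

theorem mem_fT (t : Tt F u v) (p : S.P) : t ∈ fT F p ↔ she F t = p := by
  unfold fT
  rcases t with ⟨i, q⟩ | ⟨j, a⟩
  · rw [Finset.inl_mem_disjSum, mem_en, Finset.mem_singleton]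
    rfl
  · rw [Finset.inr_mem_disjSum, mem_en, mem_fq]
    rfl

variable (f : Fin u → S.P → ℝ) (g : Fin v → F.Q.P → ℝ)

/-- the weight of a point -/
def wt : Tt F u v → ℝ := Sum.elim (fun t => f t.1 t.2) fun t => g t.1 t.2

theorem sum_fT (p : S.P) :
    ∑ t ∈ fT F p, wt F f g t = ∑ i, f i p + ∑ j, Pw.ab (g j) p := by
  unfold fT wt en
  rw [Finset.sum_disjSum, Finset.sum_sigma, Finset.sum_sigma]
  simp only [Sum.elim_inl, Sum.elim_inr, Finset.sum_singleton, sum_fq]

theorem term (z : Finset S.P) (s : ℝ) (w : (Fin u → Finset S.P) × (Fin v → Finset F.Q.P))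
    (hw : okE F z w) :
    tG F f g z s w = ∏ t ∈ enc F w, wt F f g t * (S.N (she F t) : ℝ) ^ (-s) := by
  unfold tG enc wt she en
  rw [if_pos hw, Finset.prod_disjSum, Finset.prod_sigma, Finset.prod_sigma]
  simp only [Sum.elim_inl, Sum.elim_inr]

end EG1x

open EG1x in
/-- G1: the tuples with given union of shadows -/
theorem eG1 : SEG1 := by
  classical
  intro S SF F u v f g z s y
  -- the tuples are the sections
  have hset : ∀ w : (Fin u → Finset S.P) × (Fin v → Finset F.Q.P),
      (okE F z w ∧ unG F w = y) ↔ (enc F w ∈ sec (she F) (fT F) y ∧ Disjoint y z) := by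
    intro w
    rw [mem_sec (mem_fT F)]
    constructor
    · rintro ⟨h1, h2⟩
      refine ⟨⟨inj_of_ok F z w h1, ?_⟩, ?_⟩
      · rw [← un_eq, h2]
      · rw [← h2, Finset.disjoint_left]
        intro p hp
        rcases (mem_unG F w p).1 hp with ⟨i, hi⟩ | ⟨j, hj⟩
        · exact Finset.disjoint_left.1 (h1.1 i) hi
        · exact Finset.disjoint_left.1 (h1.2.1 j) hj
    · rintro ⟨⟨h1, h2⟩, h3⟩
      rw [← un_eq] at h2
      exact ⟨ok_of_inj F z w h1 (by rw [h2]; exact h3), h2⟩
  have hinj : Function.Injective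
      (enc F : (Fin u → Finset S.P) × (Fin v → Finset F.Q.P) → Finset (Tt F u v)) :=
    fun w w' h => by rw [← dec_enc F w, h, dec_enc]
  have hf : {w : (Fin u → Finset S.P) × (Fin v → Finset F.Q.P) |
      okE F z w ∧ unG F w = y}.Finite := by
    refine Set.Finite.of_finite_image (f := enc F) ?_ hinj.injOn
    refine Set.Finite.subset (Finset.finite_toSet (sec (she F) (fT F) y)) ?_
    rintro _ ⟨w, hw, rfl⟩
    exact ((hset w).1 hw).1
  refine ⟨hf, ?_⟩
  have hmem : ∀ w : (Fin u → Finset S.P) × (Fin v → Finset F.Q.P),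
      w ∈ hf.toFinset ↔ (okE F z w ∧ unG F w = y) := by
    intro w
    rw [Set.Finite.mem_toFinset]
    rfl
  by_cases hz : Disjoint y z
  · have e1 : ∑ w ∈ hf.toFinset, tG F f g z s w =
        ∑ w ∈ hf.toFinset, ∏ t ∈ enc F w, wt F f g t * (S.N (she F t) : ℝ) ^ (-s) := by
      refine Finset.sum_congr rfl fun w hw => ?_
      exact term F f g z s w ((hmem w).1 hw).1
    have e2 : ∑ w ∈ hf.toFinset, ∏ t ∈ enc F w, wt F f g t * (S.N (she F t) : ℝ) ^ (-s) =
        ∑ E ∈ sec (she F) (fT F) y, ∏ t ∈ E, wt F f g t * (S.N (she F t) : ℝ) ^ (-s) := by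
      refine Finset.sum_bij (fun w _ => enc F w) ?_ ?_ ?_ ?_
      · intro w hw
        exact ((hset w).1 ((hmem w).1 hw)).1
      · intro w _ w' _ h
        exact hinj h
      · intro E hE
        refine ⟨dec F E, ?_, enc_dec F E⟩
        rw [hmem, hset, enc_dec]
        exact ⟨hE, hz⟩
      · intro w _
        rfl
    rw [e1, e2, sum_sec (mem_fT F)]
    refine Finset.prod_congr rfl fun p hp => ?_
    have hpz : p ∉ z := fun h => Finset.disjoint_left.1 hz hp h
    have e3 : ∑ t ∈ fT F p, wt F f g t * (S.N (she F t) : ℝ) ^ (-s) =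
        ∑ t ∈ fT F p, wt F f g t * (S.N p : ℝ) ^ (-s) := by
      refine Finset.sum_congr rfl fun t ht => ?_
      rw [(mem_fT F t p).1 ht]
    rw [e3, ← Finset.sum_mul, sum_fT]
    unfold totG
    rw [if_neg hpz]
  · obtain ⟨p, hpy, hpz⟩ := Finset.not_disjoint_iff.1 hz
    rw [Finset.sum_eq_zero, Finset.prod_eq_zero hpy]
    · unfold totG
      rw [if_pos hpz, zero_mul]
    · intro w hw
      exact absurd ((hset w).1 ((hmem w).1 hw)).2 hz

end Pool.Agent.H32.MQ
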