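import Pool.Agent.H32.MQ.EGStm

/-!
# Malle's conjecture for 8T28 and 8T29 over number fields, row G2: sums over tuples are Euler
products
-/

set_option autoImplicit false

open scoped BigOperators

namespace Pool.Agent.H32.MQ

open Pool.Agent.H98.MK (sg)
open Pool.Agent.H98.MF

section

variable {S SF : Sys} (F : Qf S SF) {u v : ℕ}

theorem eg2_tG (f : Fin u → S.P → ℝ) (g : Fin v → F.Q.P → ℝ) (z : Finset S.P) (s : ℝ)
    (w : (Fin u → Finset S.P) × (Fin v → Finset F.Q.P)) :
    tG F (fun i p => |f i p|) (fun j a => |g j a|) z s w = |tG F f g z s w| := by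
  classical
  unfold tG
  split_ifs
  · rw [abs_mul, Finset.abs_prod, Finset.abs_prod]
    congr 1
    · refine Finset.prod_congr rfl fun i _ => ?_
      rw [Finset.abs_prod]
      refine Finset.prod_congr rfl fun p _ => ?_
      rw [abs_mul, abs_of_nonneg (Real.rpow_nonneg (Nat.cast_nonneg _) _)]
    · refine Finset.prod_congr rfl fun j _ => ?_
      rw [Finset.abs_prod]
      refine Finset.prod_congr rfl fun a _ => ?_
      rw [abs_mul, abs_of_nonneg (Real.rpow_nonneg (Nat.cast_nonneg _) _)]
  · rw [abs_zero]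

theorem eg2_ab {S : Sys} {Q : Qd S} {h : Q.P → ℝ} (hh : ∀ a, |h a| ≤ 1) (p : S.P) :
    0 ≤ Pw.ab (fun a => |h a|) p ∧ Pw.ab (fun a => |h a|) p ≤ 2 := by
  classical
  unfold Pw.ab
  split_ifs with hx
  · have h1 := hh hx.choose
    have h2 := hh (Q.cj hx.choose)
    have h3 := abs_nonneg (h hx.choose)
    have h4 := abs_nonneg (h (Q.cj hx.choose))
    constructor <;> linarith
  · constructor <;> norm_num

theorem eg2_tot (f : Fin u → S.P → ℝ) (g : Fin v → F.Q.P → ℝ) (hf : ∀ i p, |f i p| ≤ 1)
    (hg : ∀ j a, |g j a| ≤ 1) (z : Finset S.P) (p : S.P) :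
    0 ≤ totG F (fun i p => |f i p|) (fun j a => |g j a|) z p ∧
      totG F (fun i p => |f i p|) (fun j a => |g j a|) z p ≤ u + 2 * v := by
  classical
  unfold totG
  split_ifs
  · constructor
    · exact le_rfl
    · positivity
  · constructor
    · exact add_nonneg (Finset.sum_nonneg fun i _ => abs_nonneg _)
        (Finset.sum_nonneg fun j _ => (eg2_ab (hg j) p).1)
    · refine add_le_add ?_ ?_
      · refine (Finset.sum_le_sum fun i _ => hf i p).trans ?_
        simp
      · refine (Finset.sum_le_sum fun j _ => (eg2_ab (hg j) p).2).trans ?_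
        simp only [Finset.sum_const, Finset.card_univ, Fintype.card_fin, nsmul_eq_mul]
        linarith

theorem eg2_not_ok (f : Fin u → S.P → ℝ) (g : Fin v → F.Q.P → ℝ) (z : Finset S.P) (s : ℝ)
    {w : (Fin u → Finset S.P) × (Fin v → Finset F.Q.P)} (hw : ¬ okE F z w) :
    tG F f g z s w = 0 := by
  unfold tG
  rw [if_neg hw]

theorem eg2_summable (h : SEG1) (f : Fin u → S.P → ℝ) (g : Fin v → F.Q.P → ℝ)
    (hf : ∀ i p, |f i p| ≤ 1) (hg : ∀ j a, |g j a| ≤ 1) (z : Finset S.P) (s : ℝ) (hs : 1 < s) :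
    Summable fun w => tG F f g z s w := by
  classical
  have hN := summable_N S s hs
  have hB : (0 : ℝ) ≤ u + 2 * v := by positivity
  have h8 : Summable fun p : S.P => ((u : ℝ) + 2 * v) * (S.N p : ℝ) ^ (-s) := hN.mul_left _
  have h8' : ∀ p : S.P, 0 ≤ ((u : ℝ) + 2 * v) * (S.N p : ℝ) ^ (-s) := fun p =>
    mul_nonneg hB (Real.rpow_nonneg (Nat.cast_nonneg _) _)
  have hsum : Summable fun y : Finset S.P => ∏ p ∈ y, ((u : ℝ) + 2 * v) * (S.N p : ℝ) ^ (-s) :=
    summable_finsetProd_of_summable_nonneg h8' h8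
  have hnn : ∀ w, 0 ≤ tG F (fun i p => |f i p|) (fun j a => |g j a|) z s w := fun w => by
    rw [eg2_tG]
    exact abs_nonneg _
  have hab : Summable fun w => tG F (fun i p => |f i p|) (fun j a => |g j a|) z s w := by
    refine summable_of_sum_le
      (c := ∑' y : Finset S.P, ∏ p ∈ y, ((u : ℝ) + 2 * v) * (S.N p : ℝ) ^ (-s)) hnn fun T => ?_
    have hmap : ∀ x ∈ T, unG F x ∈ T.image (unG F) := fun x hx => Finset.mem_image_of_mem _ hx
    rw [← Finset.sum_fiberwise_of_maps_to hmap]
    have hfib : ∀ y ∈ T.image (unG F), ∑ x ∈ T.filter (fun x => unG F x = y),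
        tG F (fun i p => |f i p|) (fun j a => |g j a|) z s x ≤
        ∏ p ∈ y, ((u : ℝ) + 2 * v) * (S.N p : ℝ) ^ (-s) := by
      intro y _
      obtain ⟨hfin, hy⟩ := h S SF F u v (fun i p => |f i p|) (fun j a => |g j a|) z s y
      have h1 : ∑ x ∈ T.filter (fun x => unG F x = y),
          tG F (fun i p => |f i p|) (fun j a => |g j a|) z s x =
          ∑ x ∈ (T.filter (fun x => unG F x = y)).filter (fun x => okE F z x),
            tG F (fun i p => |f i p|) (fun j a => |g j a|) z s x := by
        refine (Finset.sum_filter_of_ne fun x _ hx => ?_).symm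
        by_contra hno
        exact hx (eg2_not_ok F _ _ z s hno)
      rw [h1]
      have h2 : (T.filter (fun x => unG F x = y)).filter (fun x => okE F z x) ⊆
          hfin.toFinset := by
        intro x hx
        rw [Finset.mem_filter, Finset.mem_filter] at hx
        rw [Set.Finite.mem_toFinset]
        exact ⟨hx.2, hx.1.2⟩
      refine (Finset.sum_le_sum_of_subset_of_nonneg h2 fun x _ _ => hnn x).trans ?_
      rw [hy]
      refine Finset.prod_le_prod (fun p _ => ?_) fun p _ => ?_
      · exact mul_nonneg (eg2_tot F f g hf hg z p).1 (Real.rpow_nonneg (Nat.cast_nonneg _) _)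
      · exact mul_le_mul_of_nonneg_right (eg2_tot F f g hf hg z p).2
          (Real.rpow_nonneg (Nat.cast_nonneg _) _)
    refine (Finset.sum_le_sum hfib).trans ?_
    exact hsum.sum_le_tsum _ fun y _ => Finset.prod_nonneg fun p _ => h8' p
  refine Summable.of_abs ?_
  simpa only [eg2_tG] using hab

end

theorem eG2 (h : SEG1) : SEG2 := by
  classical
  intro S SF F u v f g hf hg z s hs
  have hsum := eg2_summable F h f g hf hg z s hs
  refine ⟨hsum, ?_⟩
  have h1 := hsum.hasSum.tsum_fiberwise
    (unG F : (Fin u → Finset S.P) × (Fin v → Finset F.Q.P) → Finset S.P)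
  rw [← h1.tsum_eq]
  refine tsum_congr fun y => ?_
  obtain ⟨hfin, hy⟩ := h S SF F u v f g z s y
  rw [← hy, tsum_subtype (unG F ⁻¹' {y}) (fun w => tG F f g z s w)]
  rw [tsum_eq_sum (s := hfin.toFinset)]
  · refine Finset.sum_congr rfl fun x hx => ?_
    rw [Set.Finite.mem_toFinset] at hx
    exact Set.indicator_of_mem (s := unG F ⁻¹' {y}) hx.2 _
  · intro x hx
    by_cases hxy : x ∈ unG F ⁻¹' {y}
    · rw [Set.indicator_of_mem hxy]
      apply eg2_not_ok
      intro hok
      apply hx
      rw [Set.Finite.mem_toFinset]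
      exact ⟨hok, hxy⟩
    · exact Set.indicator_of_notMem hxy _

end Pool.Agent.H32.MQ
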