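import Pool.Agent.H32.MQ.EStm
import Pool.Agent.H98.MF.SCount

/-!
# Row E3: the prime sums of the total weight
-/

set_option autoImplicit false

open scoped BigOperators
open Filter Topology

namespace Pool.Agent.H32.MQ

open Pool.Agent.H98.MF

namespace ETotAux

variable {S : Sys} (Q : Qd S)

/-- the value of a function at the primes above `p` is a sum over the fibre -/
theorem fib_hasSum (w : Q.P → ℝ) (p : S.P) :
    HasSum (fun a : {a : Q.P // Q.sh a = p} => w a.1) (Pw.ab w p) := by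
  classical
  have key : HasSum (({a : Q.P | Q.sh a = p}).indicator w) (Pw.ab w p) := by
    unfold Pw.ab
    by_cases h : ∃ a, Q.sh a = p
    · rw [dif_pos h]
      have h0 : Q.sh h.choose = p := h.choose_spec
      obtain ⟨a0, ha0⟩ : ∃ a0, a0 = h.choose := ⟨_, rfl⟩
      rw [← ha0] at h0 ⊢
      have hne : a0 ≠ Q.cj a0 := fun e => Q.cj_ne a0 e.symm
      have h1 : ({a : Q.P | Q.sh a = p}).indicator w a0 = w a0 :=
        Set.indicator_of_mem (show a0 ∈ {a : Q.P | Q.sh a = p} from h0) w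
      have h2 : ({a : Q.P | Q.sh a = p}).indicator w (Q.cj a0) = w (Q.cj a0) :=
        Set.indicator_of_mem (show Q.cj a0 ∈ {a : Q.P | Q.sh a = p} from
          (Q.sh_cj a0).trans h0) w
      have h3 : ∑ b ∈ ({a0, Q.cj a0} : Finset Q.P), ({a : Q.P | Q.sh a = p}).indicator w b =
          w a0 + w (Q.cj a0) := by
        rw [Finset.sum_pair hne, h1, h2]
      rw [← h3]
      refine hasSum_sum_of_ne_finset_zero fun b hb => ?_
      refine Set.indicator_of_notMem (fun hb1 => hb ?_) w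
      have hb2 : Q.sh b = p := hb1
      rcases Q.fib a0 b (h0.trans hb2.symm) with h4 | h4
      · rw [h4]
        exact Finset.mem_insert_self _ _
      · rw [h4]
        exact Finset.mem_insert_of_mem (Finset.mem_singleton_self _)
    · rw [dif_neg h]
      have h1 : ({a : Q.P | Q.sh a = p}).indicator w = fun _ => 0 := by
        funext b
        exact Set.indicator_of_notMem (s := {a : Q.P | Q.sh a = p}) (a := b)
          (fun hb => h ⟨b, hb⟩) w
      rw [h1]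
      exact hasSum_zero
  exact (hasSum_subtype_iff_indicator (s := {a : Q.P | Q.sh a = p})).2 key

theorem hasSum_ab (w : Q.P → ℝ) (A : ℝ) (h : HasSum w A) : HasSum (Pw.ab w) A := by
  have h1 : HasSum (fun x : (Σ p : S.P, {a : Q.P // Q.sh a = p}) => w x.2.1) A :=
    (Equiv.sigmaFiberEquiv Q.sh).hasSum_iff.2 h
  exact h1.sigma fun p => fib_hasSum Q w p

theorem ab_mul (u : Q.P → ℝ) (s : ℝ) (p : S.P) :
    Pw.ab (fun a => u a * (S.N (Q.sh a) : ℝ) ^ (-s)) p = Pw.ab u p * (S.N p : ℝ) ^ (-s) := by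
  unfold Pw.ab
  by_cases h : ∃ a, Q.sh a = p
  · rw [dif_pos h, dif_pos h]
    have h0 : Q.sh h.choose = p := h.choose_spec
    have h1 : Q.sh (Q.cj h.choose) = p := (Q.sh_cj _).trans h0
    simp only [h1, h0]
    ring
  · rw [dif_neg h, dif_neg h, zero_mul]

theorem abs_ab (u : Q.P → ℝ) (hu : ∀ a, |u a| ≤ 1) (p : S.P) : |Pw.ab u p| ≤ 2 := by
  unfold Pw.ab
  by_cases h : ∃ a, Q.sh a = p
  · rw [dif_pos h]
    refine (abs_add_le _ _).trans ?_
    linarith [hu h.choose, hu (Q.cj h.choose)]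
  · rw [dif_neg h, abs_zero]
    norm_num

theorem summ_one (s : ℝ) (hs : 1 < s) :
    Summable fun a : Q.P => (S.N (Q.sh a) : ℝ) ^ (-s) := by
  have h0 : ∀ a : Q.P, 0 ≤ (S.N (Q.sh a) : ℝ) ^ (-s) := fun a =>
    Real.rpow_nonneg (Nat.cast_nonneg _) _
  refine (Equiv.sigmaFiberEquiv Q.sh).summable_iff.1 ?_
  refine (summable_sigma_of_nonneg fun x => h0 _).2 ⟨fun p => ?_, ?_⟩
  · exact (fib_hasSum Q (fun a => (S.N (Q.sh a) : ℝ) ^ (-s)) p).summable
  · have h1 : (fun p : S.P => ∑' y : {a : Q.P // Q.sh a = p},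
        (S.N (Q.sh ((Equiv.sigmaFiberEquiv Q.sh) ⟨p, y⟩)) : ℝ) ^ (-s)) =
        fun p => Pw.ab (fun _ : Q.P => (1 : ℝ)) p * (S.N p : ℝ) ^ (-s) := by
      funext p
      have h2 := (fib_hasSum Q (fun a => (1 : ℝ) * (S.N (Q.sh a) : ℝ) ^ (-s)) p).tsum_eq
      rw [ab_mul Q (fun _ => 1) s p] at h2
      rw [← h2]
      refine tsum_congr fun y => ?_
      rw [one_mul]
      rfl
    show Summable fun p : S.P => ∑' y : {a : Q.P // Q.sh a = p},
        (S.N (Q.sh ((Equiv.sigmaFiberEquiv Q.sh) ⟨p, y⟩)) : ℝ) ^ (-s)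
    rw [h1]
    refine Summable.of_norm_bounded ((summable_N S s hs).mul_left 2) fun p => ?_
    rw [norm_mul, Real.norm_eq_abs, Real.norm_eq_abs,
      abs_of_nonneg (Real.rpow_nonneg (Nat.cast_nonneg (S.N p)) (-s))]
    refine mul_le_mul_of_nonneg_right ?_ (Real.rpow_nonneg (Nat.cast_nonneg _) _)
    exact abs_ab Q (fun _ => 1) (fun _ => by rw [abs_one]) p

theorem summ_P (u : S.P → ℝ) (B : ℝ) (hu : ∀ p, |u p| ≤ B) (s : ℝ) (hs : 1 < s) :
    Summable fun p : S.P => u p * (S.N p : ℝ) ^ (-s) := by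
  refine Summable.of_norm_bounded ((summable_N S s hs).mul_left B) fun p => ?_
  rw [norm_mul, Real.norm_eq_abs, Real.norm_eq_abs,
    abs_of_nonneg (Real.rpow_nonneg (Nat.cast_nonneg (S.N p)) (-s))]
  exact mul_le_mul_of_nonneg_right (hu p) (Real.rpow_nonneg (Nat.cast_nonneg _) _)

theorem summ_Q (u : Q.P → ℝ) (hu : ∀ a, |u a| ≤ 1) (s : ℝ) (hs : 1 < s) :
    Summable fun a : Q.P => u a * (S.N (Q.sh a) : ℝ) ^ (-s) := by
  refine Summable.of_norm_bounded (summ_one Q s hs) fun a => ?_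
  rw [norm_mul, Real.norm_eq_abs, Real.norm_eq_abs,
    abs_of_nonneg (Real.rpow_nonneg (Nat.cast_nonneg (S.N (Q.sh a))) (-s))]
  exact mul_le_of_le_one_left (Real.rpow_nonneg (Nat.cast_nonneg _) _) (hu a)

/-- the sum over the primes of `F` as a sum over the primes of `k` -/
theorem hasSum_fold (u : Q.P → ℝ) (hu : ∀ a, |u a| ≤ 1) (s : ℝ) (hs : 1 < s) :
    HasSum (fun p : S.P => Pw.ab u p * (S.N p : ℝ) ^ (-s))
      (∑' a : Q.P, u a * (S.N (Q.sh a) : ℝ) ^ (-s)) := by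
  have h1 := hasSum_ab Q _ _ (summ_Q Q u hu s hs).hasSum
  have h2 : Pw.ab (fun a => u a * (S.N (Q.sh a) : ℝ) ^ (-s)) =
      fun p => Pw.ab u p * (S.N p : ℝ) ^ (-s) := by
    funext p
    exact ab_mul Q u s p
  rw [h2] at h1
  exact h1

theorem rpow_le_one' (p : S.P) (s : ℝ) (hs : 1 < s) : (S.N p : ℝ) ^ (-s) ≤ 1 := by
  have h1 : (1 : ℝ) ≤ S.N p := by exact_mod_cast S.one_le_N p
  exact Real.rpow_le_one_of_one_le_of_nonpos h1 (by linarith)

end ETotAux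

open ETotAux

theorem eTot : SETot := by
  classical
  intro S Q W hW z e0 e1 e2 e3 e4 h0 h1 h2 h3 h4
  obtain ⟨T, hT⟩ : ∃ T : S.P → ℝ, T = fun p => W.u0 p + W.u1 p + Pw.ab W.u2 p + Pw.ab W.u3 p +
    Pw.ab W.u4 p := ⟨_, rfl⟩
  have hTb : ∀ p, |T p| ≤ 8 := by
    intro p
    rw [hT]
    have a0 := abs_le.1 (hW.b0 p)
    have a1 := abs_le.1 (hW.b1 p)
    have a2 := abs_le.1 (abs_ab Q W.u2 hW.b2 p)
    have a3 := abs_le.1 (abs_ab Q W.u3 hW.b3 p)
    have a4 := abs_le.1 (abs_ab Q W.u4 hW.b4 p)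
    rw [abs_le]
    constructor
    · show -8 ≤ W.u0 p + W.u1 p + Pw.ab W.u2 p + Pw.ab W.u3 p + Pw.ab W.u4 p
      linarith [a0.1, a1.1, a2.1, a3.1, a4.1]
    · show W.u0 p + W.u1 p + Pw.ab W.u2 p + Pw.ab W.u3 p + Pw.ab W.u4 p ≤ 8
      linarith [a0.2, a1.2, a2.2, a3.2, a4.2]
  have htot : ∀ p, p ∈ Q.M ∪ z → W.tot z p = 0 := by
    intro p hp
    unfold Pw.tot
    rw [if_pos (Finset.mem_union.1 hp)]
  have htot' : ∀ p, p ∉ Q.M ∪ z → W.tot z p = T p := by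
    intro p hp
    unfold Pw.tot
    rw [if_neg (fun h => hp (Finset.mem_union.2 h)), hT]
  refine ⟨?_, ?_⟩
  · obtain ⟨K0, hK0⟩ := h0
    obtain ⟨K1, hK1⟩ := h1
    obtain ⟨K2, hK2⟩ := h2
    obtain ⟨K3, hK3⟩ := h3
    obtain ⟨K4, hK4⟩ := h4
    refine ⟨K0 + K1 + K2 + K3 + K4 + 8 * ((Q.M ∪ z).card : ℝ), fun s hs hs2 => ?_⟩
    have s0 := (summ_P (S := S) W.u0 1 hW.b0 s hs).hasSum
    have s1 := (summ_P (S := S) W.u1 1 hW.b1 s hs).hasSum
    have s2 := hasSum_fold Q W.u2 hW.b2 s hs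
    have s3 := hasSum_fold Q W.u3 hW.b3 s hs
    have s4 := hasSum_fold Q W.u4 hW.b4 s hs
    have sT := (((s0.add s1).add s2).add s3).add s4
    have sD : HasSum (fun p : S.P => if p ∈ Q.M ∪ z then T p * (S.N p : ℝ) ^ (-s) else 0)
        (∑ p ∈ Q.M ∪ z, T p * (S.N p : ℝ) ^ (-s)) := by
      have g1 : ∑ p ∈ Q.M ∪ z, T p * (S.N p : ℝ) ^ (-s) =
          ∑ p ∈ Q.M ∪ z, (if p ∈ Q.M ∪ z then T p * (S.N p : ℝ) ^ (-s) else 0) := by
        refine Finset.sum_congr rfl fun p hp => ?_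
        rw [if_pos hp]
      rw [g1]
      exact hasSum_sum_of_ne_finset_zero fun p hp => if_neg hp
    have sO := sT.sub sD
    have g2 : (fun p : S.P => W.tot z p * (S.N p : ℝ) ^ (-s)) = fun p : S.P =>
        W.u0 p * (S.N p : ℝ) ^ (-s) + W.u1 p * (S.N p : ℝ) ^ (-s) +
        Pw.ab W.u2 p * (S.N p : ℝ) ^ (-s) + Pw.ab W.u3 p * (S.N p : ℝ) ^ (-s) +
        Pw.ab W.u4 p * (S.N p : ℝ) ^ (-s) -
        (if p ∈ Q.M ∪ z then T p * (S.N p : ℝ) ^ (-s) else 0) := by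
      funext p
      have g3 : W.u0 p * (S.N p : ℝ) ^ (-s) + W.u1 p * (S.N p : ℝ) ^ (-s) +
        Pw.ab W.u2 p * (S.N p : ℝ) ^ (-s) + Pw.ab W.u3 p * (S.N p : ℝ) ^ (-s) +
        Pw.ab W.u4 p * (S.N p : ℝ) ^ (-s) = T p * (S.N p : ℝ) ^ (-s) := by
        rw [hT]
        ring
      rw [g3]
      by_cases hp : p ∈ Q.M ∪ z
      · rw [if_pos hp, htot p hp, zero_mul, sub_self]
      · rw [if_neg hp, htot' p hp, sub_zero]
    rw [g2, sO.tsum_eq]
    have hfin : |∑ p ∈ Q.M ∪ z, T p * (S.N p : ℝ) ^ (-s)| ≤ 8 * ((Q.M ∪ z).card : ℝ) := by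
      refine (Finset.abs_sum_le_sum_abs _ _).trans ?_
      have h5 : ∀ p ∈ Q.M ∪ z, |T p * (S.N p : ℝ) ^ (-s)| ≤ 8 := by
        intro p _
        have h6 : (0 : ℝ) ≤ (S.N p : ℝ) ^ (-s) := Real.rpow_nonneg (Nat.cast_nonneg _) _
        rw [abs_mul, abs_of_nonneg h6]
        have h7 := hTb p
        have h8 := rpow_le_one' p s hs
        calc |T p| * (S.N p : ℝ) ^ (-s) ≤ 8 * 1 :=
              mul_le_mul h7 h8 h6 (by norm_num)
          _ = 8 := by norm_num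
      refine (Finset.sum_le_sum h5).trans ?_
      rw [Finset.sum_const, nsmul_eq_mul, mul_comm]
    have b0 := abs_le.1 (hK0 s hs hs2)
    have b1 := abs_le.1 (hK1 s hs hs2)
    have b2 := abs_le.1 (hK2 s hs hs2)
    have b3 := abs_le.1 (hK3 s hs hs2)
    have b4 := abs_le.1 (hK4 s hs hs2)
    have b5 := abs_le.1 hfin
    have g4 : (e0 + e1 + e2 + e3 + e4) * Real.log (1 / (s - 1)) = e0 * Real.log (1 / (s - 1)) +
      e1 * Real.log (1 / (s - 1)) + e2 * Real.log (1 / (s - 1)) + e3 * Real.log (1 / (s - 1)) +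
      e4 * Real.log (1 / (s - 1)) := by ring
    rw [g4, abs_le]
    constructor
    · linarith [b0.1, b1.1, b2.1, b3.1, b4.1, b5.2]
    · linarith [b0.2, b1.2, b2.2, b3.2, b4.2, b5.1]
  · intro p
    by_cases hp : p ∈ Q.M ∪ z
    · rw [htot p hp, abs_zero]
      norm_num
    · rw [htot' p hp]
      exact hTb p

end Pool.Agent.H32.MQ
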