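import Pool.Agent.H32.MQ.EGStm
import Pool.Agent.H32.MQ.ETot

/-!
# Row EG3: the prime sums of the total weight, tuples of any length
-/

set_option autoImplicit false

open scoped BigOperators Topology
open Filter

namespace Pool.Agent.H32.MQ

open Pool.Agent.H98.MF

open ETotAux

theorem eG3 : SEG3 := by
  classical
  intro S SF F u v f g hf hg z e e' hPk hPf
  obtain ⟨T, hT⟩ : ∃ T : S.P → ℝ, T = fun p => ∑ i, f i p + ∑ j, Pw.ab (g j) p := ⟨_, rfl⟩
  have hTb : ∀ p, |T p| ≤ u + 2 * v := by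
    intro p
    rw [hT]
    refine (abs_add_le _ _).trans (add_le_add ?_ ?_)
    · refine (Finset.abs_sum_le_sum_abs _ _).trans ?_
      refine (Finset.sum_le_sum fun i _ => hf i p).trans ?_
      rw [Finset.sum_const, Finset.card_univ, Fintype.card_fin, nsmul_eq_mul, mul_one]
    · refine (Finset.abs_sum_le_sum_abs _ _).trans ?_
      refine (Finset.sum_le_sum fun j _ => abs_ab F.Q (g j) (hg j) p).trans ?_
      rw [Finset.sum_const, Finset.card_univ, Fintype.card_fin, nsmul_eq_mul, mul_comm]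
  have huv : (0 : ℝ) ≤ u + 2 * v := by positivity
  have htot : ∀ p, p ∈ z → totG F f g z p = 0 := by
    intro p hp
    unfold totG
    rw [if_pos hp]
  have htot' : ∀ p, p ∉ z → totG F f g z p = T p := by
    intro p hp
    unfold totG
    rw [if_neg hp, hT]
  refine ⟨?_, ?_⟩
  · choose K hK using hPk
    choose K' hK' using hPf
    refine ⟨∑ i, K i + ∑ j, K' j + (u + 2 * v) * (z.card : ℝ), fun s hs hs2 => ?_⟩
    have s0 : HasSum (fun p : S.P => ∑ i, f i p * (S.N p : ℝ) ^ (-s))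
        (∑ i, ∑' p : S.P, f i p * (S.N p : ℝ) ^ (-s)) :=
      hasSum_sum fun i _ => (summ_P (S := S) (f i) 1 (hf i) s hs).hasSum
    have s1 : HasSum (fun p : S.P => ∑ j, Pw.ab (g j) p * (S.N p : ℝ) ^ (-s))
        (∑ j, ∑' a : F.Q.P, g j a * (S.N (F.Q.sh a) : ℝ) ^ (-s)) :=
      hasSum_sum fun j _ => hasSum_fold F.Q (g j) (hg j) s hs
    have sT := s0.add s1
    have sD : HasSum (fun p : S.P => if p ∈ z then T p * (S.N p : ℝ) ^ (-s) else 0)
        (∑ p ∈ z, T p * (S.N p : ℝ) ^ (-s)) := by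
      have g1 : ∑ p ∈ z, T p * (S.N p : ℝ) ^ (-s) =
          ∑ p ∈ z, (if p ∈ z then T p * (S.N p : ℝ) ^ (-s) else 0) := by
        refine Finset.sum_congr rfl fun p hp => ?_
        rw [if_pos hp]
      rw [g1]
      exact hasSum_sum_of_ne_finset_zero fun p hp => if_neg hp
    have sO := sT.sub sD
    have g2 : (fun p : S.P => totG F f g z p * (S.N p : ℝ) ^ (-s)) = fun p : S.P =>
        ∑ i, f i p * (S.N p : ℝ) ^ (-s) + ∑ j, Pw.ab (g j) p * (S.N p : ℝ) ^ (-s) -
        (if p ∈ z then T p * (S.N p : ℝ) ^ (-s) else 0) := by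
      funext p
      have g3 : ∑ i, f i p * (S.N p : ℝ) ^ (-s) + ∑ j, Pw.ab (g j) p * (S.N p : ℝ) ^ (-s) =
          T p * (S.N p : ℝ) ^ (-s) := by
        rw [hT, ← Finset.sum_mul, ← Finset.sum_mul]
        exact (add_mul _ _ _).symm
      rw [g3]
      by_cases hp : p ∈ z
      · rw [if_pos hp, htot p hp, zero_mul, sub_self]
      · rw [if_neg hp, htot' p hp, sub_zero]
    rw [g2, sO.tsum_eq]
    have hfin : |∑ p ∈ z, T p * (S.N p : ℝ) ^ (-s)| ≤ (u + 2 * v) * (z.card : ℝ) := by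
      refine (Finset.abs_sum_le_sum_abs _ _).trans ?_
      have h5 : ∀ p ∈ z, |T p * (S.N p : ℝ) ^ (-s)| ≤ u + 2 * v := by
        intro p _
        have h6 : (0 : ℝ) ≤ (S.N p : ℝ) ^ (-s) := Real.rpow_nonneg (Nat.cast_nonneg _) _
        rw [abs_mul, abs_of_nonneg h6]
        calc |T p| * (S.N p : ℝ) ^ (-s) ≤ (u + 2 * v) * 1 :=
              mul_le_mul (hTb p) (rpow_le_one' p s hs) h6 huv
          _ = u + 2 * v := mul_one _
      refine (Finset.sum_le_sum h5).trans ?_
      rw [Finset.sum_const, nsmul_eq_mul, mul_comm]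
    have g4 : (∑ i, e i + ∑ j, e' j) * Real.log (1 / (s - 1)) =
        ∑ i, e i * Real.log (1 / (s - 1)) + ∑ j, e' j * Real.log (1 / (s - 1)) := by
      rw [add_mul, Finset.sum_mul, Finset.sum_mul]
    rw [g4]
    have b0 : |∑ i, ∑' p : S.P, f i p * (S.N p : ℝ) ^ (-s) -
        ∑ i, e i * Real.log (1 / (s - 1))| ≤ ∑ i, K i := by
      rw [← Finset.sum_sub_distrib]
      refine (Finset.abs_sum_le_sum_abs _ _).trans ?_
      exact Finset.sum_le_sum fun i _ => hK i s hs hs2
    have b1 : |∑ j, ∑' a : F.Q.P, g j a * (S.N (F.Q.sh a) : ℝ) ^ (-s) -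
        ∑ j, e' j * Real.log (1 / (s - 1))| ≤ ∑ j, K' j := by
      rw [← Finset.sum_sub_distrib]
      refine (Finset.abs_sum_le_sum_abs _ _).trans ?_
      exact Finset.sum_le_sum fun j _ => hK' j s hs hs2
    have c0 := abs_le.1 b0
    have c1 := abs_le.1 b1
    have c2 := abs_le.1 hfin
    rw [abs_le]
    constructor
    · linarith [c0.1, c1.1, c2.2]
    · linarith [c0.2, c1.2, c2.1]
  · intro p
    by_cases hp : p ∈ z
    · rw [htot p hp, abs_zero]
      exact huv
    · rw [htot' p hp]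
      exact hTb p

end Pool.Agent.H32.MQ
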