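import Pool.Agent.H32.MQ.EGStm

/-!
# Block E, row E4: the bound for tuples
-/

set_option autoImplicit false

open scoped BigOperators Topology
open Filter

namespace Pool.Agent.H32.MQ

open Pool.Agent.H98.MK (sg)
open Pool.Agent.H98.MF

theorem eG4 (h1 : SEBd) (h2 : SEG2) (h3 : SEG3) : SEG4 := by
  intro S SF F u v f g hf hg z e e' hfe hge
  obtain ⟨hP, hB⟩ := h3 S SF F u v f g hf hg z e e' hfe hge
  obtain ⟨-, C, hC⟩ := h1 S (totG F f g z) ((u : ℝ) + 2 * v) (∑ i, e i + ∑ j, e' j) hB hP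
  refine ⟨C, fun σ h0 h4 => ?_⟩
  rw [(h2 S SF F u v f g hf hg z (1 + σ) (by linarith)).2]
  have h5 := hC (1 + σ) (by linarith) (by linarith)
  rw [add_sub_cancel_left] at h5
  exact h5

end Pool.Agent.H32.MQ
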