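import Pool.Agent.H32.MQ.LStm
import Pool.Agent.H98.MF.SCount

/-!
# Malle's conjecture for 8T28 and 8T29 over number fields: nondegeneracy
-/

set_option autoImplicit false

open scoped BigOperators

namespace Pool.Agent.H32.MQ

open Pool.Agent.H98.MK (sg)
open Pool.Agent.H98.MF

/-- bounded distance to the logarithm is impossible -/
theorem nd_log (K : ℝ) (h : ∀ s : ℝ, 1 < s → s ≤ 2 → Real.log (1 / (s - 1)) ≤ K) : False := by
  have h0 : 0 < Real.exp (-(|K| + 1)) := Real.exp_pos _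
  have h1 : Real.exp (-(|K| + 1)) ≤ 1 :=
    Real.exp_le_one_iff.2 (by linarith [abs_nonneg K])
  have h2 := h (1 + Real.exp (-(|K| + 1))) (by linarith) (by linarith)
  rw [add_sub_cancel_left, one_div, ← Real.exp_neg, neg_neg, Real.log_exp] at h2
  linarith [le_abs_self K]

/-- a character of the system trivial on all primes -/
theorem nd_k (S : Sys) (c : S.T) (h : ∀ p, c ⬝ᵥ S.ty p = 0) : c = 0 := by
  by_contra hc
  obtain ⟨K0, h0⟩ := S.prm0
  obtain ⟨K1, h1⟩ := S.prm ∅ c (Or.inr hc)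
  refine nd_log (K0 + K1) fun s hs hs2 => ?_
  have h2 := h0 s hs hs2
  have h3 := h1 s hs hs2
  have h4 : ∀ p : S.P, ((S.toPre.chp ∅ (fun p => ∑ q ∈ (∅ : Finset S.P), S.J q p + c ⬝ᵥ S.ty p) p
      : ℤ) : ℝ) * (S.N p : ℝ) ^ (-s) = (S.N p : ℝ) ^ (-s) := by
    intro p
    unfold Pre.chp
    rw [if_neg (Finset.notMem_empty p)]
    beta_reduce
    rw [Finset.sum_empty, h p, add_zero, sg_zero, Int.cast_one, one_mul]
  rw [tsum_congr h4] at h3
  have h5 := abs_le.1 h2
  have h6 := abs_le.1 h3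
  linarith [h5.1, h6.2]

namespace Qf

variable {S SF : Sys} (F : Qf S SF)

/-- primes of `F` not of degree one -/
theorem inert {P : SF.P} (h : ∀ b, F.io b ≠ P) : ∃ p, F.up p = {P} ∧ SF.N P = S.N p ^ 2 := by
  obtain ⟨p, hp⟩ := F.up_c P
  by_cases h1 : ∃ a, F.Q.sh a = p
  · obtain ⟨a, rfl⟩ := h1
    rw [F.up_s, Finset.mem_insert, Finset.mem_singleton] at hp
    rcases hp with h2 | h2
    · exact absurd h2.symm (h a)
    · exact absurd h2.symm (h _)
  · push Not at h1
    obtain ⟨P', h2, h3⟩ := F.up_i p h1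
    rw [h2, Finset.mem_singleton] at hp
    subst hp
    exact ⟨p, h2, h3⟩

/-- a character of `F` trivial on all primes of degree one -/
theorem nd_F (α : SF.T) (h : ∀ b, α ⬝ᵥ SF.ty (F.io b) = 0) : α = 0 := by
  classical
  by_contra hα
  obtain ⟨K0, h0⟩ := SF.prm0
  obtain ⟨K1, h1⟩ := SF.prm ∅ α (Or.inr hα)
  -- the primes of degree two
  let f : SF.P → ℝ := fun P => if ∃ b, F.io b = P then 0 else (SF.N P : ℝ) ^ (-1 : ℝ)
  have hf0 : ∀ P, 0 ≤ f P := by
    intro P
    simp only [f]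
    split_ifs
    · exact le_refl 0
    · exact Real.rpow_nonneg (Nat.cast_nonneg _) _
  let g : {P : SF.P // ¬ ∃ b, F.io b = P} → S.P := fun P =>
    (F.inert (P := P.1) (fun b hb => P.2 ⟨b, hb⟩)).choose
  have hg : ∀ P : {P : SF.P // ¬ ∃ b, F.io b = P}, F.up (g P) = {P.1} ∧
      SF.N P.1 = S.N (g P) ^ 2 := fun P =>
    (F.inert (P := P.1) (fun b hb => P.2 ⟨b, hb⟩)).choose_spec
  have hgi : Function.Injective g := by
    intro P P' hPP
    have h2 := (hg P).1
    rw [hPP, (hg P').1] at h2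
    exact Subtype.ext (Finset.singleton_inj.1 h2).symm
  have hfs : Summable f := by
    have h2 : Summable fun P : {P : SF.P // ¬ ∃ b, F.io b = P} => (S.N (g P) : ℝ) ^ (-2 : ℝ) :=
      (summable_N S 2 one_lt_two).comp_injective hgi
    have h3 : Summable fun P : {P : SF.P // ¬ ∃ b, F.io b = P} => f P.1 := by
      refine h2.congr fun P => ?_
      simp only [f]
      rw [if_neg P.2, (hg P).2, Nat.cast_pow, ← Real.rpow_natCast, ← Real.rpow_mul
        (Nat.cast_nonneg _)]
      norm_num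
    refine (Function.Injective.summable_iff (f := f) (g := Subtype.val)
      Subtype.val_injective ?_).1 h3
    intro P hP
    simp only [f]
    rw [if_pos]
    by_contra h4
    exact hP ⟨⟨P, h4⟩, rfl⟩
  refine nd_log (K0 + K1 + 2 * ∑' P, f P) fun s hs hs2 => ?_
  have h2 := h0 s hs hs2
  have h3 := h1 s hs hs2
  set u : SF.P → ℝ := fun P => (SF.N P : ℝ) ^ (-s) with hu
  set w : SF.P → ℝ := fun P =>
    ((SF.toPre.chp ∅ (fun p => ∑ q ∈ (∅ : Finset SF.P), SF.J q p + α ⬝ᵥ SF.ty p) P : ℤ) : ℝ) *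
      (SF.N P : ℝ) ^ (-s) with hw
  have hus : Summable u := summable_N SF s hs
  have hws : Summable w := by
    refine Summable.of_norm_bounded hus fun P => ?_
    simp only [hw, hu]
    rw [norm_mul, Real.norm_eq_abs, Real.norm_eq_abs, abs_of_nonneg
      (Real.rpow_nonneg (Nat.cast_nonneg _) _)]
    unfold Pre.chp
    rw [if_neg (Finset.notMem_empty P), abs_sgr, one_mul]
  have hd : ∀ P, u P - w P ≤ 2 * f P := by
    intro P
    simp only [hw, hu]
    unfold Pre.chp
    rw [if_neg (Finset.notMem_empty P)]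
    beta_reduce
    rw [Finset.sum_empty, zero_add]
    have hN : (1 : ℝ) ≤ SF.N P := by exact_mod_cast SF.one_le_N P
    have hle : (SF.N P : ℝ) ^ (-s) ≤ (SF.N P : ℝ) ^ (-1 : ℝ) :=
      Real.rpow_le_rpow_of_exponent_le hN (by linarith)
    have hnn : 0 ≤ (SF.N P : ℝ) ^ (-s) := Real.rpow_nonneg (by linarith) _
    by_cases hP : ∃ b, F.io b = P
    · obtain ⟨b, rfl⟩ := hP
      rw [h b, sg_zero, Int.cast_one, one_mul, sub_self]
      have := hf0 (F.io b)
      linarith
    · simp only [f]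
      rw [if_neg hP]
      have h5 := abs_sgr (α ⬝ᵥ SF.ty P)
      have h6 := (abs_le.1 h5.le).1
      nlinarith
  have h4 : ∑' P, u P - ∑' P, w P ≤ 2 * ∑' P, f P := by
    rw [← hus.tsum_sub hws, ← tsum_mul_left]
    exact (hus.sub hws).tsum_le_tsum hd (hfs.mul_left 2)
  have h5 := abs_le.1 h2
  have h6 := abs_le.1 h3
  linarith [h5.1, h6.2]

/-- units of square norm -/
theorem nu_unit {a : SF.T} (h : ∀ b, a ⬝ᵥ SF.ty (F.io b) = 0) : F.Q.nu (F.el a ∅) = (0, ∅) := by
  have hG : F.Q.Gd ∅ := fun a ha => absurd ha (Finset.notMem_empty a)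
  have ha : a = 0 := F.nd_F a h
  subst ha
  have hB : F.el 0 ∅ ∈ F.Q.B ∅ := by
    rw [F.B_eq ∅ hG]
    exact Finset.mem_image_of_mem _ (Finset.mem_univ _)
  have h1 : (F.Q.nu (F.el 0 ∅)).2 = ∅ := by
    have := F.Q.nu_sub (F.el 0 ∅)
    rw [F.M_eq] at this
    exact Finset.subset_empty.1 this
  have hs : F.Q.shd (∅ : Finset F.Q.P) = ∅ := by
    unfold Qd.shd
    exact Finset.image_empty _
  have h2 : (F.Q.nu (F.el 0 ∅)).1 = 0 := by
    refine nd_k S _ fun p => ?_
    have h3 := F.law.ns_eq ∅ hG _ hB p (by rw [F.M_eq]; exact Finset.notMem_empty p)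
      (by rw [hs]; exact Finset.notMem_empty p)
    rw [F.ns_el 0 ∅ p hG (by rw [hs]; exact Finset.notMem_empty p), h1, hs] at h3
    unfold Sys.ex at h3
    simp only [Finset.image_empty, Finset.sum_empty, zero_add, zero_dotProduct,
      Finset.sum_const_zero, Finset.union_empty] at h3
    exact h3.symm
  exact Prod.ext h2 h1

/-- the class of one -/
theorem em_zero : F.em (0, ∅) = 0 := by
  refine F.nd_F _ fun b => ?_
  have h := F.em_s (0, ∅) b (Finset.notMem_empty _)
  unfold Sys.ex at h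
  simp only [Finset.sum_empty, zero_add, zero_dotProduct, Finset.biUnion_empty] at h
  exact h.symm

/-- a unit equal to its norm is a square -/
theorem unit_norm {a : SF.T} (h : F.em (F.Q.nu (F.el a ∅)) = a) : a = 0 := by
  have hG : F.Q.Gd ∅ := fun a ha => absurd ha (Finset.notMem_empty a)
  have hB : F.el a ∅ ∈ F.Q.B ∅ := by
    rw [F.B_eq ∅ hG]
    exact Finset.mem_image_of_mem _ (Finset.mem_univ _)
  have hs : F.Q.shd (∅ : Finset F.Q.P) = ∅ := by
    unfold Qd.shd
    exact Finset.image_empty _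
  have h1 : (F.Q.nu (F.el a ∅)).2 = ∅ := by
    have := F.Q.nu_sub (F.el a ∅)
    rw [F.M_eq] at this
    exact Finset.subset_empty.1 this
  have key : ∀ b, F.Q.sy (F.el a ∅) (F.Q.cj b) = 0 := by
    intro b
    have hb : F.Q.sh b ∉ F.Q.shd ∅ := by
      rw [hs]
      exact Finset.notMem_empty _
    have h2 := F.law.ns_split ∅ hG _ hB b hb
    have h3 := F.law.ns_eq ∅ hG _ hB (F.Q.sh b) (by rw [F.M_eq]; exact Finset.notMem_empty _) hb
    have h4 := F.em_s (F.Q.nu (F.el a ∅)) b (by rw [h1]; exact Finset.notMem_empty _)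
    have h5 := F.sy_el a ∅ b hG hb
    rw [h, h1, Finset.biUnion_empty] at h4
    rw [Finset.image_empty] at h5
    rw [hs, Finset.empty_union, h1, h4, ← h5, h2] at h3
    rwa [add_eq_left] at h3
  refine F.nd_F a fun b => ?_
  have h6 := key (F.Q.cj b)
  rw [F.Q.cj_cj, F.sy_el a ∅ b hG (by rw [hs]; exact Finset.notMem_empty _)] at h6
  unfold Sys.ex at h6
  simp only [Finset.image_empty, Finset.sum_empty, zero_add] at h6
  exact h6

end Qf

end Pool.Agent.H32.MQ
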