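import Pool.Agent.H32.MQ.EGStm
import Pool.Agent.H32.MQ.LNd

/-!
# Malle's conjecture for 8T28 and 8T29 over number fields: the system of `F` contains the primes
of degree one
-/

set_option autoImplicit false

open scoped BigOperators

namespace Pool.Agent.H32.MQ

open Pool.Agent.H98.MF

/-- the primes of `F` not of degree one have a convergent sum of inverse norms -/
theorem eg5_rest {S SF : Sys} (F : Qf S SF) :
    Summable fun p : {p : SF.P // p ∉ Set.range F.io} => ((SF.N p.1 : ℝ))⁻¹ := by
  have hi : ∀ P : {p : SF.P // p ∉ Set.range F.io}, ∀ b, F.io b ≠ P.1 :=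
    fun P b hb => P.2 ⟨b, hb⟩
  let g : {p : SF.P // p ∉ Set.range F.io} → S.P := fun P => (F.inert (hi P)).choose
  have hg : ∀ P : {p : SF.P // p ∉ Set.range F.io}, F.up (g P) = {P.1} ∧
      SF.N P.1 = S.N (g P) ^ 2 := fun P => (F.inert (hi P)).choose_spec
  have hgi : Function.Injective g := by
    intro P P' hPP
    have h2 := (hg P).1
    rw [hPP, (hg P').1] at h2
    exact Subtype.ext (Finset.singleton_inj.1 h2).symm
  have h2 : Summable fun P : {p : SF.P // p ∉ Set.range F.io} => (S.N (g P) : ℝ) ^ (-2 : ℝ) :=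
    (summable_N S 2 one_lt_two).comp_injective hgi
  refine h2.congr fun P => ?_
  rw [(hg P).2, Nat.cast_pow, Real.rpow_neg (Nat.cast_nonneg _), Real.rpow_two]

/-- G5: the system of `F` contains the primes of degree one -/
theorem eG5 : SEG5 := fun _ _ F => ⟨⟨F.io, F.io_inj, F.N_io, eg5_rest F⟩, rfl⟩

end Pool.Agent.H32.MQ
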