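import Pool.Agent.H32.MQ.EGStm

/-!
# Project MQ, row G6: the terms of block L have weights on the primes (helper91)
-/

set_option autoImplicit false

open scoped BigOperators

namespace Pool.Agent.H32.MQ

open Pool.Agent.H98.MK (sg)
open Pool.Agent.H98.MF

theorem eg6_sg (S : Sys) (y : Finset S.P) (c : S.T) (x : Finset S.P) :
    ((sg (S.JJ x y + c ⬝ᵥ S.tys x) : ℤ) : ℝ) = ∏ p ∈ x, ((sg (S.ex y c p) : ℤ) : ℝ) := by
  rw [← S.sum_ex y c x, sg_sum]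
  push_cast
  rfl

theorem eg6_pw {S : Sys} (s : ℝ) (x : Finset S.P) :
    pw s x = ∏ p ∈ x, (S.N p : ℝ) ^ (-s) := by
  unfold pw Pre.nm
  push_cast
  exact (Real.finsetProd_rpow x (fun p => (S.N p : ℝ)) (fun p _ => Nat.cast_nonneg _) (-s)).symm

theorem eG6 : SEG6 := by
  intro S SF F u v y Y z s w
  unfold tE tG
  by_cases h : okE F z w
  · rw [if_pos h, if_pos h]
    have h1 : ∀ i, ((sg (S.JJ (w.1 i) (y i).2 + (y i).1 ⬝ᵥ S.tys (w.1 i)) : ℤ) : ℝ) *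
        pw s (w.1 i) =
        ∏ p ∈ w.1 i, ((sg (S.ex (y i).2 (y i).1 p) : ℤ) : ℝ) * (S.N p : ℝ) ^ (-s) := by
      intro i
      rw [eg6_sg, eg6_pw, Finset.prod_mul_distrib]
    have h2 : ∀ j, ((sg (SF.JJ ((w.2 j).image F.io) (Y j).2 +
        (Y j).1 ⬝ᵥ SF.tys ((w.2 j).image F.io)) : ℤ) : ℝ) * pw s (F.Q.shd (w.2 j)) =
        ∏ a ∈ w.2 j, ((sg (SF.ex (Y j).2 (Y j).1 (F.io a)) : ℤ) : ℝ) *
          (S.N (F.Q.sh a) : ℝ) ^ (-s) := by
      intro j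
      rw [eg6_sg, eg6_pw, Finset.prod_mul_distrib]
      unfold Qd.shd
      rw [Finset.prod_image (fun a _ b _ hab => F.io_inj hab),
        Finset.prod_image (fun a ha b hb hab => h.2.2.1 j a ha b hb hab)]
    rw [Finset.prod_congr rfl (fun i _ => h1 i), Finset.prod_congr rfl (fun j _ => h2 j)]
  · rw [if_neg h, if_neg h]

end Pool.Agent.H32.MQ
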