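import Pool.Agent.H32.MQ.EStm
import Pool.Agent.H98.MF.SCount

/-!
# Malle's conjecture for 8T28 and 8T29 over number fields, block E: finitely many primes
-/

set_option autoImplicit false

open scoped BigOperators
open Filter Topology

namespace Pool.Agent.H32.MQ

open Pool.Agent.H98.MK (sg)
open Pool.Agent.H98.MF

/-- two bounded weights which differ at finitely many places -/
theorem epm_diff {ι : Type*} (f u v : ι → ℝ) (hf0 : ∀ i, 0 ≤ f i) (hf1 : ∀ i, f i ≤ 1)
    (hf : Summable f) (hu : ∀ i, |u i| ≤ 1) (hv : ∀ i, |v i| ≤ 1) (h : {i | u i ≠ v i}.Finite) :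
    |∑' i, v i * f i - ∑' i, u i * f i| ≤ 2 * h.toFinset.card := by
  have hb : ∀ w : ι → ℝ, (∀ i, |w i| ≤ 1) → Summable fun i => w i * f i := by
    intro w hw
    refine Summable.of_norm_bounded hf fun i => ?_
    rw [Real.norm_eq_abs, abs_mul, abs_of_nonneg (hf0 i)]
    exact mul_le_of_le_one_left (hf0 i) (hw i)
  rw [← (hb v hv).tsum_sub (hb u hu)]
  have h1 : ∑' i, (v i * f i - u i * f i) = ∑ i ∈ h.toFinset, (v i * f i - u i * f i) := by
    refine tsum_eq_sum fun i hi => ?_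
    have h2 : u i = v i := by
      by_contra h3
      exact hi (h.mem_toFinset.2 h3)
    rw [h2, sub_self]
  rw [h1]
  refine (Finset.abs_sum_le_sum_abs _ _).trans ?_
  have h2 : ∀ i ∈ h.toFinset, |v i * f i - u i * f i| ≤ 2 := by
    intro i _
    rw [← sub_mul, abs_mul, abs_of_nonneg (hf0 i)]
    have h3 : |v i - u i| ≤ 2 := by
      have h4 := abs_le.1 (hu i)
      have h5 := abs_le.1 (hv i)
      rw [abs_le]
      constructor <;> linarith
    exact le_trans (mul_le_of_le_one_right (abs_nonneg _) (hf1 i)) h3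
  refine (Finset.sum_le_sum h2).trans ?_
  rw [Finset.sum_const, nsmul_eq_mul, mul_comm]

theorem epm_le_one (S : Pre) (p : S.P) {s : ℝ} (hs : 1 < s) : (S.N p : ℝ) ^ (-s) ≤ 1 := by
  have h1 : (1 : ℝ) ≤ S.N p := by exact_mod_cast S.one_le_N p
  exact Real.rpow_le_one_of_one_le_of_nonpos h1 (by linarith)

/-- convergence of the sum over the primes of `F` of degree one -/
theorem epm_summable (S : Sys) (Q : Qd S) {s : ℝ} (hs : 1 < s) :
    Summable fun a : Q.P => (S.N (Q.sh a) : ℝ) ^ (-s) := by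
  classical
  have hN := summable_N S s hs
  have h0 : ∀ p : S.P, 0 ≤ (S.N p : ℝ) ^ (-s) := fun p => Real.rpow_nonneg (Nat.cast_nonneg _) _
  refine summable_of_sum_le (c := 2 * ∑' p : S.P, (S.N p : ℝ) ^ (-s)) (fun a => h0 _) fun u => ?_
  have h1 : ∀ a ∈ u, Q.sh a ∈ u.image Q.sh := fun a ha => Finset.mem_image_of_mem _ ha
  rw [← Finset.sum_fiberwise_of_maps_to h1]
  have h2 : ∀ p ∈ u.image Q.sh,
      ∑ a ∈ u.filter (fun a => Q.sh a = p), (S.N (Q.sh a) : ℝ) ^ (-s) ≤
        2 * (S.N p : ℝ) ^ (-s) := by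
    intro p hp
    obtain ⟨a, _, rfl⟩ := Finset.mem_image.1 hp
    have h3 : ∀ b ∈ u.filter (fun b => Q.sh b = Q.sh a),
        (S.N (Q.sh b) : ℝ) ^ (-s) ≤ (S.N (Q.sh a) : ℝ) ^ (-s) := by
      intro b hb
      rw [(Finset.mem_filter.1 hb).2]
    have h4 : (u.filter (fun b => Q.sh b = Q.sh a)).card ≤ 2 := by
      have h5 : u.filter (fun b => Q.sh b = Q.sh a) ⊆ {a, Q.cj a} := by
        intro b hb
        have h6 := (Finset.mem_filter.1 hb).2
        rcases Q.fib a b h6.symm with h7 | h7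
        · exact Finset.mem_insert.2 (Or.inl h7)
        · exact Finset.mem_insert.2 (Or.inr (Finset.mem_singleton.2 h7))
      exact (Finset.card_le_card h5).trans Finset.card_le_two
    refine (Finset.sum_le_card_nsmul _ _ _ h3).trans ?_
    rw [nsmul_eq_mul]
    exact mul_le_mul_of_nonneg_right (by exact_mod_cast h4) (h0 _)
  refine (Finset.sum_le_sum h2).trans ?_
  rw [← Finset.mul_sum]
  exact mul_le_mul_of_nonneg_left (hN.sum_le_tsum _ fun p _ => h0 p) (by norm_num)

theorem pkM : SPkM := by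
  intro S u v e hu hv h hP
  obtain ⟨K, hK⟩ := hP
  refine ⟨K + 2 * h.toFinset.card, fun s hs1 hs2 => ?_⟩
  have h1 := hK s hs1 hs2
  have h2 := epm_diff (fun p : S.P => (S.N p : ℝ) ^ (-s)) u v
    (fun p => Real.rpow_nonneg (Nat.cast_nonneg _) _) (fun p => epm_le_one S.toPre p hs1)
    (summable_N S s hs1) hu hv h
  have h3 := abs_le.1 h1
  have h4 := abs_le.1 h2
  rw [abs_le]
  constructor <;> linarith

theorem pfM : SPfM := by
  intro S Q u v e hu hv h hP
  obtain ⟨K, hK⟩ := hP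
  refine ⟨K + 2 * h.toFinset.card, fun s hs1 hs2 => ?_⟩
  have h1 := hK s hs1 hs2
  have h2 := epm_diff (fun a : Q.P => (S.N (Q.sh a) : ℝ) ^ (-s)) u v
    (fun a => Real.rpow_nonneg (Nat.cast_nonneg _) _)
    (fun a => epm_le_one S.toPre (Q.sh a) hs1) (epm_summable S Q hs1) hu hv h
  have h3 := abs_le.1 h1
  have h4 := abs_le.1 h2
  rw [abs_le]
  constructor <;> linarith

end Pool.Agent.H32.MQ
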