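import Pool.Agent.H32.MQ.EStm
import Pool.Agent.H32.MQ.UE
import Pool.Agent.H98.MF.SCount

/-!
# Malle's conjecture for 8T28 and 8T29: the primes of `F` of degree one (block E, row 6)
-/

set_option autoImplicit false

open scoped BigOperators

namespace Pool.Agent.H32.MQ

open Pool.Agent.H98.MK (sg)
open Pool.Agent.H98.MF

namespace EPf

variable {S : Sys} (Q : Qd S)

theorem card_fb_le (p : S.P) : (UE.Fb Q p).card ≤ 2 := by
  classical
  rcases (UE.Fb Q p).eq_empty_or_nonempty with h | ⟨a, ha⟩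
  · rw [h, Finset.card_empty]
    norm_num
  · have h1 : UE.Fb Q p ⊆ {a, Q.cj a} := by
      intro b hb
      rw [UE.mem_Fb] at ha hb
      rw [Finset.mem_insert, Finset.mem_singleton]
      exact Q.fib a b (ha.trans hb.symm)
    exact (Finset.card_le_card h1).trans Finset.card_le_two

/-- the number of primes above `p` -/
theorem card_fb {p : S.P} (hp : p ∉ Q.M) :
    ((UE.Fb Q p).card : ℝ) = 1 + ((sg (S.ex Q.d.2 Q.d.1 p) : ℤ) : ℝ) := by
  classical
  by_cases h : ∃ a, Q.sh a = p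
  · have h1 : S.ex Q.d.2 Q.d.1 p = 0 := (Q.split p hp).1 h
    rw [h1, sg_zero]
    obtain ⟨a, rfl⟩ := h
    have h2 : UE.Fb Q (Q.sh a) = {a, Q.cj a} := by
      ext b
      rw [UE.mem_Fb, Finset.mem_insert, Finset.mem_singleton]
      constructor
      · intro hb
        exact Q.fib a b hb.symm
      · rintro (rfl | rfl)
        · rfl
        · exact Q.sh_cj a
    rw [h2, Finset.card_pair fun h3 => Q.cj_ne a h3.symm]
    norm_num
  · have h1 : S.ex Q.d.2 Q.d.1 p = 1 := by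
      rcases zm2 (S.ex Q.d.2 Q.d.1 p) with h2 | h2
      · exact absurd ((Q.split p hp).2 h2) h
      · exact h2
    rw [h1, sg_one]
    have h2 : UE.Fb Q p = ∅ := by
      ext b
      rw [UE.mem_Fb]
      constructor
      · intro hb
        exact absurd ⟨b, hb⟩ h
      · intro hb
        exact absurd hb (Finset.notMem_empty _)
    rw [h2, Finset.card_empty]
    norm_num

theorem card_fb_M {p : S.P} (hp : p ∈ Q.M) : (UE.Fb Q p).card = 0 := by
  rw [Finset.card_eq_zero]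
  ext b
  rw [UE.mem_Fb]
  constructor
  · intro hb
    exact absurd hp (hb ▸ Q.sh_not b)
  · intro hb
    exact absurd hb (Finset.notMem_empty _)

/-- convergence -/
theorem summable_sh (s : ℝ) (hs : 1 < s) :
    Summable fun a : Q.P => (S.N (Q.sh a) : ℝ) ^ (-s) := by
  classical
  have hN := summable_N S s hs
  refine summable_of_sum_le (c := 2 * ∑' p : S.P, (S.N p : ℝ) ^ (-s))
    (fun a => Real.rpow_nonneg (Nat.cast_nonneg _) _) fun u => ?_
  have h1 : ∑ a ∈ u, (S.N (Q.sh a) : ℝ) ^ (-s) =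
      ∑ p ∈ u.image Q.sh, (u.filter fun a => Q.sh a = p).card • (S.N p : ℝ) ^ (-s) :=
    Finset.sum_comp (fun p : S.P => (S.N p : ℝ) ^ (-s)) Q.sh
  rw [h1]
  have h2 : ∀ p ∈ u.image Q.sh, (u.filter fun a => Q.sh a = p).card • (S.N p : ℝ) ^ (-s) ≤
      2 * (S.N p : ℝ) ^ (-s) := by
    intro p _
    rw [nsmul_eq_mul]
    refine mul_le_mul_of_nonneg_right ?_ (Real.rpow_nonneg (Nat.cast_nonneg _) _)
    have h3 : (u.filter fun a => Q.sh a = p) ⊆ UE.Fb Q p := by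
      intro a ha
      rw [UE.mem_Fb]
      exact (Finset.mem_filter.1 ha).2
    exact_mod_cast (Finset.card_le_card h3).trans (card_fb_le Q p)
  refine (Finset.sum_le_sum h2).trans ?_
  rw [← Finset.mul_sum]
  refine mul_le_mul_of_nonneg_left ?_ (by norm_num)
  exact hN.sum_le_tsum _ fun p _ => Real.rpow_nonneg (Nat.cast_nonneg _) _

/-- the sum over the fibres -/
theorem tsum_sh (s : ℝ) (hs : 1 < s) :
    ∑' a : Q.P, (S.N (Q.sh a) : ℝ) ^ (-s) =
      ∑' p : S.P, ((UE.Fb Q p).card : ℝ) * (S.N p : ℝ) ^ (-s) := by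
  classical
  have h1 := (summable_sh Q s hs).hasSum.tsum_fiberwise Q.sh
  rw [← h1.tsum_eq]
  refine tsum_congr fun p => ?_
  rw [tsum_subtype (Q.sh ⁻¹' {p}) (fun a : Q.P => (S.N (Q.sh a) : ℝ) ^ (-s))]
  rw [tsum_eq_sum (s := UE.Fb Q p)]
  · rw [Finset.sum_congr rfl (g := fun _ => (S.N p : ℝ) ^ (-s)), Finset.sum_const, nsmul_eq_mul]
    intro a ha
    rw [UE.mem_Fb] at ha
    rw [Set.indicator_of_mem (show a ∈ Q.sh ⁻¹' {p} from ha), ha]
  · intro a ha
    rw [UE.mem_Fb] at ha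
    exact Set.indicator_of_notMem (show a ∉ Q.sh ⁻¹' {p} from ha) _

end EPf

/-- all primes of `F` of degree one -/
theorem pf1 : SPf1 := by
  classical
  intro S Q
  obtain ⟨K0, hK0⟩ := S.prm0
  obtain ⟨K1, hK1⟩ := S.prm Q.d.2 Q.d.1 Q.d_ne
  refine ⟨K0 + K1 + 2 * Q.M.card, fun s hs hs2 => ?_⟩
  have hN := summable_N S s hs
  have hpos : ∀ p : S.P, 0 ≤ (S.N p : ℝ) ^ (-s) :=
    fun p => Real.rpow_nonneg (Nat.cast_nonneg _) _
  have hle1 : ∀ p : S.P, (S.N p : ℝ) ^ (-s) ≤ 1 := fun p =>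
    Real.rpow_le_one_of_one_le_of_nonpos (by exact_mod_cast S.one_le_N p) (by linarith)
  -- the character
  have hc1 : ∀ p : S.P, |((S.toPre.chp Q.d.2 (S.ex Q.d.2 Q.d.1) p : ℤ) : ℝ)| ≤ 1 := by
    intro p
    unfold Pre.chp
    split_ifs with h
    · rw [Int.cast_zero, abs_zero]
      exact zero_le_one
    · exact (abs_sgr _).le
  have hsc : Summable fun p : S.P =>
      ((S.toPre.chp Q.d.2 (S.ex Q.d.2 Q.d.1) p : ℤ) : ℝ) * (S.N p : ℝ) ^ (-s) := by
    refine Summable.of_norm_bounded hN fun p => ?_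
    rw [Real.norm_eq_abs, abs_mul, abs_of_nonneg (hpos p)]
    exact mul_le_of_le_one_left (hpos p) (hc1 p)
  -- the remainder
  set r : S.P → ℝ := fun p => ((UE.Fb Q p).card : ℝ) - 1 -
    ((S.toPre.chp Q.d.2 (S.ex Q.d.2 Q.d.1) p : ℤ) : ℝ) with hr
  have hr0 : ∀ p ∉ Q.M, r p = 0 := by
    intro p hp
    have h1 : p ∉ Q.d.2 := fun h => hp (Q.d_sub h)
    rw [hr]
    simp only
    rw [EPf.card_fb Q hp]
    unfold Pre.chp
    rw [if_neg h1]
    ring
  have hr1 : ∀ p ∈ Q.M, |r p| ≤ 2 := by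
    intro p hp
    rw [hr]
    simp only
    rw [EPf.card_fb_M Q hp, Nat.cast_zero]
    have h1 := hc1 p
    rw [abs_le] at h1 ⊢
    constructor <;> linarith [h1.1, h1.2]
  have hrs : Summable fun p : S.P => r p * (S.N p : ℝ) ^ (-s) :=
    summable_of_ne_finset_zero (s := Q.M) fun p hp => by rw [hr0 p hp, zero_mul]
  have hrt : |∑' p : S.P, r p * (S.N p : ℝ) ^ (-s)| ≤ 2 * Q.M.card := by
    rw [tsum_eq_sum (s := Q.M) fun p hp => by rw [hr0 p hp, zero_mul]]
    refine (Finset.abs_sum_le_sum_abs _ _).trans ?_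
    have h1 : ∀ p ∈ Q.M, |r p * (S.N p : ℝ) ^ (-s)| ≤ 2 := by
      intro p hp
      rw [abs_mul, abs_of_nonneg (hpos p)]
      have h2 := hr1 p hp
      have h3 := mul_le_mul h2 (hle1 p) (hpos p) (by norm_num)
      linarith
    refine (Finset.sum_le_sum h1).trans ?_
    rw [Finset.sum_const, nsmul_eq_mul]
    linarith
  have hmain : ∑' a : Q.P, (1 : ℝ) * (S.N (Q.sh a) : ℝ) ^ (-s) =
      ∑' p : S.P, (S.N p : ℝ) ^ (-s) +
      ∑' p : S.P, ((S.toPre.chp Q.d.2 (S.ex Q.d.2 Q.d.1) p : ℤ) : ℝ) * (S.N p : ℝ) ^ (-s) +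
      ∑' p : S.P, r p * (S.N p : ℝ) ^ (-s) := by
    simp only [one_mul]
    rw [EPf.tsum_sh Q s hs, ← hN.tsum_add hsc, ← (hN.add hsc).tsum_add hrs]
    refine tsum_congr fun p => ?_
    rw [hr]
    ring
  rw [hmain]
  have h0 := hK0 s hs hs2
  have h1 : |∑' p : S.P, ((S.toPre.chp Q.d.2 (S.ex Q.d.2 Q.d.1) p : ℤ) : ℝ) *
      (S.N p : ℝ) ^ (-s)| ≤ K1 := hK1 s hs hs2
  rw [abs_le] at h0 h1 hrt ⊢
  constructor <;> linarith [h0.1, h0.2, h1.1, h1.2, hrt.1, hrt.2]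

end Pool.Agent.H32.MQ
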