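import Pool.Agent.H32.MQ.EStm
import Pool.Agent.H98.MF.SCount

/-!
# Malle's conjecture for 8T28 and 8T29 over number fields: block E, a nontrivial quadratic
character of `F` restricted to the primes of degree one
-/

set_option autoImplicit false

open scoped BigOperators

namespace Pool.Agent.H32.MQ

open Pool.Agent.H98.MK (sg)
open Pool.Agent.H98.MF

theorem pf0 : SPf0 := by
  intro S Q F h y c hyc
  obtain ⟨K, hK⟩ := F.prm y c hyc
  refine ⟨K + ∑' p : {p : F.P // p ∉ Set.range h.io}, ((F.N p.1 : ℝ))⁻¹, fun s hs1 hs2 => ?_⟩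
  have hK1 := hK s hs1 hs2
  have hN : ∀ p : F.P, (2 : ℝ) ≤ F.N p := fun p => by exact_mod_cast F.two_le p
  have hN0 : ∀ p : F.P, 0 ≤ (F.N p : ℝ) ^ (-s) := fun p =>
    Real.rpow_nonneg (by linarith [hN p]) _
  have hc1 : ∀ p : F.P, |((F.chp y (fun p => ∑ q ∈ y, F.J q p + c ⬝ᵥ F.ty p) p : ℤ) : ℝ)| ≤ 1 := by
    intro p
    unfold Pre.chp
    split_ifs
    · rw [Int.cast_zero, abs_zero]
      exact zero_le_one
    · exact (abs_sgr _).le
  set f : F.P → ℝ := fun p =>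
    ((F.chp y (fun p => ∑ q ∈ y, F.J q p + c ⬝ᵥ F.ty p) p : ℤ) : ℝ) * (F.N p : ℝ) ^ (-s) with hf
  have hfle : ∀ p, ‖f p‖ ≤ (F.N p : ℝ) ^ (-s) := by
    intro p
    rw [hf, Real.norm_eq_abs, abs_mul, abs_of_nonneg (hN0 p)]
    exact mul_le_of_le_one_left (hN0 p) (hc1 p)
  have hsum : Summable f := Summable.of_norm_bounded (summable_N F s hs1) hfle
  have h1 : ∑' a : Q.P, (if h.io a ∈ y then 0 else ((sg (F.ex y c (h.io a)) : ℤ) : ℝ)) *
      (S.N (Q.sh a) : ℝ) ^ (-s) = ∑' a : Q.P, f (h.io a) := by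
    refine tsum_congr fun a => ?_
    rw [hf]
    dsimp only
    rw [h.N_io a]
    unfold Pre.chp
    by_cases hy : h.io a ∈ y
    · rw [if_pos hy, if_pos hy, Int.cast_zero]
    · rw [if_neg hy, if_neg hy]
      rfl
  have h2 : ∑' a : Q.P, f (h.io a) = ∑' p : Set.range h.io, f p := (tsum_range f h.inj).symm
  have h3 : (∑' p : Set.range h.io, f p) + ∑' p : ((Set.range h.io)ᶜ : Set F.P), f p =
      ∑' p, f p := (hsum.subtype _).tsum_add_tsum_compl (hsum.subtype _)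
  have h4 : |∑' p : ((Set.range h.io)ᶜ : Set F.P), f p| ≤
      ∑' p : {p : F.P // p ∉ Set.range h.io}, ((F.N p.1 : ℝ))⁻¹ := by
    have hb : ∀ p : {p : F.P // p ∉ Set.range h.io}, ‖f p.1‖ ≤ ((F.N p.1 : ℝ))⁻¹ := by
      intro p
      refine (hfle p.1).trans ?_
      rw [← Real.rpow_neg_one]
      exact Real.rpow_le_rpow_of_exponent_le (by linarith [hN p.1]) (by linarith)
    exact tsum_of_norm_bounded h.rest.hasSum hb
  rw [zero_mul, sub_zero, h1, h2]
  have h5 : ∑' p : Set.range h.io, f p = ∑' p, f p - ∑' p : ((Set.range h.io)ᶜ : Set F.P), f p := by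
    linarith
  rw [h5]
  calc |∑' p, f p - ∑' p : ((Set.range h.io)ᶜ : Set F.P), f p|
      ≤ |∑' p, f p| + |∑' p : ((Set.range h.io)ᶜ : Set F.P), f p| := abs_sub _ _
    _ ≤ _ := add_le_add hK1 h4

end Pool.Agent.H32.MQ
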