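import Pool.Agent.H32.MQ.EStm

/-!
# Malle's conjecture for 8T28 and 8T29 over number fields: block E, all primes of `k` and the
quadratic characters of `k`
-/

set_option autoImplicit false

open scoped BigOperators
open Filter Topology

namespace Pool.Agent.H32.MQ

open Pool.Agent.H98.MK (sg)
open Pool.Agent.H98.MF

/-- E5: all primes of `k` -/
theorem pk1 : SPk1 := by
  intro S
  obtain ⟨K, hK⟩ := S.prm0
  refine ⟨K, fun s h1 h2 => ?_⟩
  have h := hK s h1 h2
  simp only [one_mul]
  exact h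

/-- E5: a nontrivial quadratic character of `k` -/
theorem pk0 : SPk0 := by
  intro S y c hyc
  obtain ⟨K, hK⟩ := S.prm y c hyc
  refine ⟨K, fun s h1 h2 => ?_⟩
  have h := hK s h1 h2
  rw [zero_mul, sub_zero]
  have e : ∀ p : S.P, (if p ∈ y then (0 : ℝ) else ((sg (S.ex y c p) : ℤ) : ℝ)) =
      (S.chp y (fun p => ∑ q ∈ y, S.J q p + c ⬝ᵥ S.ty p) p : ℝ) := by
    intro p
    unfold Pre.chp Sys.ex
    by_cases hp : p ∈ y
    · rw [if_pos hp, if_pos hp, Int.cast_zero]
    · rw [if_neg hp, if_neg hp]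
  simp only [e]
  exact h

end Pool.Agent.H32.MQ
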