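import Pool.Agent.H32.MQ.EStm
import Mathlib.Analysis.Normed.Ring.InfiniteProd

/-!
# Malle's conjecture for 8T28 and 8T29 over number fields: comparison of the Euler products
(row E12)
-/

set_option autoImplicit false

open scoped BigOperators
open Filter Topology

namespace Pool.Agent.H32.MQ

open Pool.Agent.H98.MK (sg)
open Pool.Agent.H98.MF

section

variable {S : Sys} (Q : Qd S)

open Classical in
/-- the character without the primes of `d` -/
noncomputable def eqh_c (p : S.P) : ℝ :=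
  if p ∈ Q.d.2 then 0 else ((sg (S.ex Q.d.2 Q.d.1 p) : ℤ) : ℝ)

/-- the local factor of the quotient -/
noncomputable def eqh_q (p : S.P) (x : ℝ) : ℝ :=
  (1 + cw Q p * x) / ((1 + x) * (1 + x) * (1 + eqh_c Q p * x))

theorem eqh_sg (t : ZMod 2) : ((sg t : ℤ) : ℝ) = 1 ∨ ((sg t : ℤ) : ℝ) = -1 := by
  rcases zm2 t with h | h
  · left
    rw [h, sg_zero]
    norm_num
  · right
    rw [h, sg_one]
    norm_num

theorem eqh_c_cases (p : S.P) : eqh_c Q p = 0 ∨ eqh_c Q p = 1 ∨ eqh_c Q p = -1 := by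
  unfold eqh_c
  split_ifs with h
  · exact Or.inl rfl
  · exact Or.inr (eqh_sg _)

theorem eqh_cw_M (p : S.P) (hp : p ∈ Q.M) : cw Q p = 0 := by
  unfold cw
  rw [if_pos hp]

/-- outside `M` the factors are those of a split or of an inert prime -/
theorem eqh_cw_cases (p : S.P) (hp : p ∉ Q.M) :
    (cw Q p = 3 ∧ eqh_c Q p = 1) ∨ (cw Q p = 1 ∧ eqh_c Q p = -1) := by
  have hd : p ∉ Q.d.2 := fun h => hp (Q.d_sub h)
  unfold cw eqh_c
  rw [if_neg hp, if_neg hd]
  rcases eqh_sg (S.ex Q.d.2 Q.d.1 p) with h | h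
  · left
    rw [h]
    norm_num
  · right
    rw [h]
    norm_num

theorem eqh_cw_abs (p : S.P) : 0 ≤ cw Q p ∧ cw Q p ≤ 3 := by
  by_cases hp : p ∈ Q.M
  · rw [eqh_cw_M Q p hp]
    norm_num
  · rcases eqh_cw_cases Q p hp with ⟨h, _⟩ | ⟨h, _⟩ <;> rw [h] <;> norm_num

theorem eqh_den (p : S.P) (x : ℝ) (h0 : 0 ≤ x) (h1 : x ≤ 1 / 2) :
    1 / 2 ≤ 1 + eqh_c Q p * x := by
  rcases eqh_c_cases Q p with h | h | h <;> rw [h] <;> linarith

theorem eqh_q_pos (p : S.P) (x : ℝ) (h0 : 0 ≤ x) (h1 : x ≤ 1 / 2) : 0 < eqh_q Q p x := by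
  have h2 := eqh_den Q p x h0 h1
  have h3 := (eqh_cw_abs Q p).1
  unfold eqh_q
  have h4 : 0 ≤ cw Q p * x := mul_nonneg h3 h0
  have h5 : 0 < 1 + eqh_c Q p * x := by linarith
  positivity

open Classical in
/-- the factors are close to `1` -/
theorem eqh_q_bound (p : S.P) (x : ℝ) (h0 : 0 ≤ x) (h1 : x ≤ 1 / 2) :
    |eqh_q Q p x - 1| ≤ 4 * x ^ 2 + (if p ∈ Q.M then 1 else 0) := by
  have h2 := eqh_den Q p x h0 h1
  by_cases hp : p ∈ Q.M
  · rw [if_pos hp]
    have h3 := eqh_q_pos Q p x h0 h1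
    have h4 : eqh_q Q p x ≤ 2 := by
      unfold eqh_q
      rw [eqh_cw_M Q p hp, zero_mul, add_zero, div_le_iff₀ (by nlinarith)]
      nlinarith [mul_nonneg h0 h0]
    have h5 : |eqh_q Q p x - 1| ≤ 1 := by
      rw [abs_le]
      constructor <;> linarith
    nlinarith [sq_nonneg x]
  · rw [if_neg hp, add_zero]
    rcases eqh_cw_cases Q p hp with ⟨h3, h4⟩ | ⟨h3, h4⟩
    · have h5 : eqh_q Q p x - 1 = -((3 * x ^ 2 + x ^ 3) / (1 + x) ^ 3) := by
        unfold eqh_q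
        rw [h3, h4]
        have h6 : (1 + x) ≠ 0 := by linarith
        field_simp
        ring
      rw [h5, abs_neg, abs_of_nonneg (by positivity), div_le_iff₀ (by positivity)]
      have h6 : 1 ≤ (1 + x) ^ 3 := one_le_pow₀ (by linarith)
      have h7 : x ^ 3 ≤ x ^ 2 := by nlinarith [sq_nonneg x]
      nlinarith [sq_nonneg x]
    · have h5 : eqh_q Q p x - 1 = x ^ 2 / (1 - x ^ 2) := by
        unfold eqh_q
        rw [h3, h4]
        have h6 : (1 + x) ≠ 0 := by linarith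
        have h7 : (1 - x) ≠ 0 := by linarith
        have h8 : (1 - x ^ 2) ≠ 0 := by
          have : 1 - x ^ 2 = (1 + x) * (1 - x) := by ring
          rw [this]
          exact mul_ne_zero h6 h7
        have h9 : (1 + -1 * x) ≠ 0 := by
          intro h
          apply h7
          linarith
        rw [div_sub_one (mul_ne_zero (mul_ne_zero h6 h6) h9), div_eq_div_iff
          (mul_ne_zero (mul_ne_zero h6 h6) h9) h8]
        ring
      have h6 : x ^ 2 ≤ 1 / 4 := by nlinarith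
      rw [h5, abs_of_nonneg (div_nonneg (sq_nonneg _) (by linarith)),
        div_le_iff₀ (by linarith)]
      nlinarith [sq_nonneg x]

theorem eqh_cont (p : S.P) (x : ℝ) (h0 : 0 ≤ x) (h1 : x ≤ 1 / 2) :
    ContinuousAt (eqh_q Q p) x := by
  have h2 := eqh_den Q p x h0 h1
  unfold eqh_q
  refine ContinuousAt.div (by fun_prop) (by fun_prop) ?_
  have h5 : 0 < 1 + eqh_c Q p * x := by linarith
  positivity

/-- the variable of a prime -/
noncomputable def eqh_x (S : Sys) (p : S.P) (σ : ℝ) : ℝ := (S.N p : ℝ) ^ (-(1 + σ))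

theorem eqh_two (p : S.P) : (2 : ℝ) ≤ S.N p := by exact_mod_cast S.two_le p

theorem eqh_x_nonneg (p : S.P) (σ : ℝ) : 0 ≤ eqh_x S p σ := Real.rpow_nonneg (Nat.cast_nonneg _) _

theorem eqh_x_le (p : S.P) (σ : ℝ) (hσ : 0 ≤ σ) : eqh_x S p σ ≤ 1 / 2 := by
  have h2 := eqh_two p
  unfold eqh_x
  have h3 : (S.N p : ℝ) ^ (-(1 + σ)) ≤ (S.N p : ℝ) ^ (-1 : ℝ) :=
    Real.rpow_le_rpow_of_exponent_le (by linarith) (by linarith)
  refine h3.trans ?_
  rw [Real.rpow_neg_one, ← one_div]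
  exact one_div_le_one_div_of_le (by norm_num) h2

theorem eqh_x_sq (p : S.P) (σ : ℝ) (hσ : 0 ≤ σ) :
    eqh_x S p σ ^ 2 ≤ (S.N p : ℝ) ^ (-(2 : ℝ)) := by
  have h2 := eqh_two p
  unfold eqh_x
  rw [← Real.rpow_natCast, ← Real.rpow_mul (by linarith)]
  refine Real.rpow_le_rpow_of_exponent_le (by linarith) ?_
  push_cast
  linarith

open Classical in
/-- the dominating sequence -/
noncomputable def eqh_b (p : S.P) : ℝ :=
  4 * (S.N p : ℝ) ^ (-(2 : ℝ)) + (if p ∈ Q.M then 1 else 0)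

theorem eqh_b_sum : Summable (eqh_b Q) := by
  classical
  unfold eqh_b
  refine Summable.add ((summable_N S 2 (by norm_num)).mul_left 4) ?_
  refine summable_of_ne_finset_zero (s := Q.M) fun p hp => ?_
  rw [if_neg hp]

theorem eqh_f_le (p : S.P) (σ : ℝ) (hσ : 0 ≤ σ) :
    ‖eqh_q Q p (eqh_x S p σ) - 1‖ ≤ eqh_b Q p := by
  classical
  rw [Real.norm_eq_abs]
  refine (eqh_q_bound Q p _ (eqh_x_nonneg p σ) (eqh_x_le p σ hσ)).trans ?_
  unfold eqh_b
  have := eqh_x_sq p σ hσ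
  linarith

theorem eqh_f_sum (σ : ℝ) (hσ : 0 ≤ σ) :
    Summable fun p => ‖eqh_q Q p (eqh_x S p σ) - 1‖ :=
  Summable.of_nonneg_of_le (fun _ => norm_nonneg _) (fun p => eqh_f_le Q p σ hσ) (eqh_b_sum Q)

/-- the quotient of the Euler products -/
theorem eqh_quot (σ : ℝ) (hσ : 0 < σ) :
    (∑' x : Finset S.P, ∏ p ∈ x, cw Q p * (S.N p : ℝ) ^ (-(1 + σ))) /
      ((∑' x : Finset S.P, (S.nm x : ℝ) ^ (-(1 + σ))) ^ 2 *
        ∑' x : Finset S.P, ∏ p ∈ x, eqh_c Q p * (S.N p : ℝ) ^ (-(1 + σ))) =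
      ∏' p : S.P, (1 + (eqh_q Q p (eqh_x S p σ) - 1)) := by
  have hs : 1 < 1 + σ := by linarith
  have hN := summable_N S (1 + σ) hs
  have hx0 : ∀ p : S.P, 0 ≤ (S.N p : ℝ) ^ (-(1 + σ)) := fun p => eqh_x_nonneg p σ
  have hx1 : ∀ p : S.P, (S.N p : ℝ) ^ (-(1 + σ)) ≤ 1 / 2 := fun p => eqh_x_le p σ hσ.le
  have s1 : Summable fun p : S.P => ‖(S.N p : ℝ) ^ (-(1 + σ))‖ := by
    refine hN.congr fun p => ?_
    rw [Real.norm_eq_abs, abs_of_nonneg (hx0 p)]
  have s2 : Summable fun p : S.P => ‖eqh_c Q p * (S.N p : ℝ) ^ (-(1 + σ))‖ := by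
    refine Summable.of_nonneg_of_le (fun _ => norm_nonneg _) (fun p => ?_) hN
    rw [Real.norm_eq_abs, abs_mul, abs_of_nonneg (hx0 p)]
    refine mul_le_of_le_one_left (hx0 p) ?_
    rcases eqh_c_cases Q p with h | h | h <;> rw [h] <;> norm_num
  have s3 : Summable fun p : S.P => ‖cw Q p * (S.N p : ℝ) ^ (-(1 + σ))‖ := by
    refine Summable.of_nonneg_of_le (fun _ => norm_nonneg _) (fun p => ?_) (hN.mul_left 3)
    rw [Real.norm_eq_abs, abs_mul, abs_of_nonneg (hx0 p), abs_of_nonneg (eqh_cw_abs Q p).1]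
    exact mul_le_mul_of_nonneg_right (eqh_cw_abs Q p).2 (hx0 p)
  have s4 := eqh_f_sum Q σ hσ.le
  have e1 : ∑' x : Finset S.P, (S.nm x : ℝ) ^ (-(1 + σ)) =
      ∏' p : S.P, (1 + (S.N p : ℝ) ^ (-(1 + σ))) := by
    rw [tprod_one_add (summable_finsetProd_of_summable_norm s1)]
    refine tsum_congr fun x => ?_
    unfold Pre.nm
    rw [Nat.cast_prod]
    exact (Real.finsetProd_rpow x (fun p => (S.N p : ℝ)) (fun p _ => Nat.cast_nonneg _) _).symm
  have e2 := tprod_one_add (summable_finsetProd_of_summable_norm s2)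
  have e3 := tprod_one_add (summable_finsetProd_of_summable_norm s3)
  have m1 := multipliable_one_add_of_summable s1
  have m2 := multipliable_one_add_of_summable s2
  have m4 := multipliable_one_add_of_summable s4
  have n1 : ∏' p : S.P, (1 + (S.N p : ℝ) ^ (-(1 + σ))) ≠ 0 := by
    refine tprod_one_add_ne_zero_of_summable (fun p => ?_) s1
    have := hx0 p
    positivity
  have n2 : ∏' p : S.P, (1 + eqh_c Q p * (S.N p : ℝ) ^ (-(1 + σ))) ≠ 0 := by
    refine tprod_one_add_ne_zero_of_summable (fun p => ?_) s2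
    have := eqh_den Q p _ (hx0 p) (hx1 p)
    intro h
    rw [h] at this
    norm_num at this
  rw [e1, ← e2, ← e3, div_eq_iff (mul_ne_zero (pow_ne_zero 2 n1) n2), pow_two,
    ← m1.tprod_mul m1, ← (m1.mul m1).tprod_mul m2, ← m4.tprod_mul ((m1.mul m1).mul m2)]
  refine tprod_congr fun p => ?_
  unfold eqh_q eqh_x
  have h1 := hx0 p
  have h2 := eqh_den Q p _ (hx0 p) (hx1 p)
  have h3 : (1 + (S.N p : ℝ) ^ (-(1 + σ))) * (1 + (S.N p : ℝ) ^ (-(1 + σ))) *
      (1 + eqh_c Q p * (S.N p : ℝ) ^ (-(1 + σ))) ≠ 0 := by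
    have h4 : 0 < 1 + eqh_c Q p * (S.N p : ℝ) ^ (-(1 + σ)) := by linarith
    positivity
  rw [add_sub_cancel, div_mul_cancel₀ _ h3]

theorem eqh_tendsto :
    Tendsto (fun σ : ℝ => ∏' p : S.P, (1 + (eqh_q Q p (eqh_x S p σ) - 1))) (𝓝[>] 0)
      (𝓝 (∏' p : S.P, (1 + (eqh_q Q p (eqh_x S p 0) - 1)))) := by
  refine tendsto_tprod_one_add_of_dominated_convergence (eqh_b_sum Q) (fun p => ?_) ?_
  · have h1 : Continuous fun σ : ℝ => eqh_x S p σ := by
      unfold eqh_x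
      have h2 := eqh_two p
      exact Continuous.rpow continuous_const (by fun_prop) fun _ => Or.inl (by linarith)
    have h2 : ContinuousAt (fun σ : ℝ => eqh_q Q p (eqh_x S p σ)) 0 :=
      ContinuousAt.comp (f := fun σ : ℝ => eqh_x S p σ) (g := eqh_q Q p)
        (eqh_cont Q p _ (eqh_x_nonneg p 0) (eqh_x_le p 0 le_rfl)) h1.continuousAt
    exact (h2.tendsto.mono_left nhdsWithin_le_nhds).sub_const 1
  · refine eventually_nhdsWithin_of_forall fun σ hσ p => ?_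
    exact eqh_f_le Q p σ (le_of_lt hσ)

theorem eqh_lim_pos : 0 < ∏' p : S.P, (1 + (eqh_q Q p (eqh_x S p 0) - 1)) := by
  have hq : ∀ p : S.P, 0 < 1 + (eqh_q Q p (eqh_x S p 0) - 1) := by
    intro p
    rw [add_sub_cancel]
    exact eqh_q_pos Q p _ (eqh_x_nonneg p 0) (eqh_x_le p 0 le_rfl)
  have s4 := eqh_f_sum Q 0 le_rfl
  have h1 := tprod_one_add_ne_zero_of_summable (fun p => (hq p).ne') s4
  have h2 := (multipliable_one_add_of_summable s4).norm_tprod
  have h3 : ∏' p : S.P, ‖1 + (eqh_q Q p (eqh_x S p 0) - 1)‖ =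
      ∏' p : S.P, (1 + (eqh_q Q p (eqh_x S p 0) - 1)) :=
    tprod_congr fun p => by rw [Real.norm_eq_abs, abs_of_pos (hq p)]
  rw [h3] at h2
  refine lt_of_le_of_ne ?_ h1.symm
  rw [← h2]
  exact norm_nonneg _

end

/-- comparison of the Euler products -/
theorem eQH : SEQH := by
  intro S Q
  refine ⟨_, eqh_lim_pos Q, ?_⟩
  refine (eqh_tendsto Q).congr' ?_
  refine eventually_nhdsWithin_of_forall fun σ hσ => ?_
  exact (eqh_quot Q σ hσ).symm

end Pool.Agent.H32.MQ
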