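import Pool.Agent.H32.MQ.EStm

/-!
# Malle's conjecture for 8T28 and 8T29 over number fields, row E10: the series of sets of primes
with a nontrivial character
-/

set_option autoImplicit false

open scoped BigOperators
open Filter Topology

namespace Pool.Agent.H32.MQ

open Pool.Agent.H98.MK (sg)
open Pool.Agent.H98.MF

namespace EQc

/-- differences of powers -/
noncomputable def dk (s : ℝ) (k : ℕ) : ℝ := (k : ℝ) ^ (-s) - ((k : ℝ) + 1) ^ (-s)

theorem dk_nonneg (s : ℝ) (hs : 0 ≤ s) (k : ℕ) (hk : 1 ≤ k) : 0 ≤ dk s k := by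
  unfold dk
  have h1 : (1 : ℝ) ≤ k := by exact_mod_cast hk
  have h2 : ((k : ℝ) + 1) ^ (-s) ≤ (k : ℝ) ^ (-s) :=
    Real.rpow_le_rpow_of_nonpos (by linarith) (by linarith) (by linarith)
  linarith

theorem dk_le (s : ℝ) (hs : 1 ≤ s) (hs2 : s ≤ 2) (k : ℕ) (hk : 1 ≤ k) :
    dk s k ≤ 2 * (k : ℝ) ^ (-(2 : ℝ)) := by
  have h1 : (1 : ℝ) ≤ k := by exact_mod_cast hk
  have h0 : (0 : ℝ) < k := by linarith
  have h2 : (0 : ℝ) < (k : ℝ) + 1 := by linarith
  have h3 : ((k : ℝ) + 1) ^ (-s) = (k : ℝ) ^ (-s) * (1 + -(1 / ((k : ℝ) + 1))) ^ s := by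
    have h4 : (1 + -(1 / ((k : ℝ) + 1))) = k / (k + 1) := by
      field_simp
      ring
    rw [h4, Real.div_rpow h0.le h2.le, Real.rpow_neg h0.le, Real.rpow_neg h2.le]
    have h5 : (k : ℝ) ^ s ≠ 0 := (Real.rpow_pos_of_pos h0 s).ne'
    field_simp
  have h4 : 1 + s * -(1 / ((k : ℝ) + 1)) ≤ (1 + -(1 / ((k : ℝ) + 1))) ^ s := by
    refine one_add_mul_self_le_rpow_one_add ?_ hs
    have : 1 / ((k : ℝ) + 1) ≤ 1 := by
      rw [div_le_one h2]
      linarith
    linarith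
  have h5 : 0 < (k : ℝ) ^ (-s) := Real.rpow_pos_of_pos h0 _
  have h6 : (k : ℝ) ^ (-s) ≤ (k : ℝ) ^ (-(1 : ℝ)) :=
    Real.rpow_le_rpow_of_exponent_le h1 (by linarith)
  have h7 : dk s k ≤ (k : ℝ) ^ (-s) * (s * (1 / ((k : ℝ) + 1))) := by
    unfold dk
    rw [h3]
    nlinarith
  have h8 : s * (1 / ((k : ℝ) + 1)) ≤ 2 * (k : ℝ) ^ (-(1 : ℝ)) := by
    rw [Real.rpow_neg_one]
    have h9 : 1 / ((k : ℝ) + 1) ≤ (k : ℝ)⁻¹ := by
      rw [one_div]
      exact inv_anti₀ h0 (by linarith)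
    exact mul_le_mul hs2 h9 (by positivity) (by norm_num)
  calc dk s k ≤ (k : ℝ) ^ (-s) * (s * (1 / ((k : ℝ) + 1))) := h7
    _ ≤ (k : ℝ) ^ (-(1 : ℝ)) * (2 * (k : ℝ) ^ (-(1 : ℝ))) :=
        mul_le_mul h6 h8 (by positivity) (by positivity)
    _ = 2 * (k : ℝ) ^ (-(2 : ℝ)) := by
        rw [show (-(2 : ℝ)) = -1 + -1 by norm_num, Real.rpow_add h0]
        ring

theorem sum_dk (s : ℝ) (n : ℕ) (K : ℕ) (hK : n ≤ K) :
    ∑ k ∈ Finset.range K, (if n ≤ k then dk s k else 0) = (n : ℝ) ^ (-s) - (K : ℝ) ^ (-s) := by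
  induction K, hK using Nat.le_induction with
  | base =>
    rw [sub_self]
    refine Finset.sum_eq_zero fun k hk => ?_
    rw [if_neg (not_le.2 (Finset.mem_range.1 hk))]
  | succ K hK ih =>
    rw [Finset.sum_range_succ, ih, if_pos hK]
    unfold dk
    push_cast
    ring

theorem hasSum_dk (s : ℝ) (hs : 0 < s) (n : ℕ) (hn : 1 ≤ n) :
    HasSum (fun k : ℕ => if n ≤ k then dk s k else 0) ((n : ℝ) ^ (-s)) := by
  rw [hasSum_iff_tendsto_nat_of_nonneg]
  · have h1 : Tendsto (fun K : ℕ => (n : ℝ) ^ (-s) - (K : ℝ) ^ (-s)) atTop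
        (𝓝 ((n : ℝ) ^ (-s) - 0)) :=
      tendsto_const_nhds.sub ((tendsto_rpow_neg_atTop hs).comp tendsto_natCast_atTop_atTop)
    rw [sub_zero] at h1
    refine h1.congr' ?_
    filter_upwards [eventually_ge_atTop n] with K hK
    exact (sum_dk s n K hK).symm
  · intro k
    split_ifs with h
    · exact dk_nonneg s hs.le k (hn.trans h)
    · exact le_rfl

section

variable (S : Sys) (y : Finset S.P) (c : S.T)

open Classical in
/-- the coefficients -/
noncomputable def fx (x : Finset S.P) : ℝ :=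
  ∏ p ∈ x, (if p ∈ y then 0 else ((sg (S.ex y c p) : ℤ) : ℝ))

theorem fx_le (x : Finset S.P) : |fx S y c x| ≤ 1 := by
  unfold fx
  rw [Finset.abs_prod]
  refine Finset.prod_le_one (fun p _ => abs_nonneg _) fun p _ => ?_
  split_ifs
  · rw [abs_zero]
    exact zero_le_one
  · rw [abs_sgr]

theorem fx_eq (x : Finset S.P) : fx S y c x =
    if Disjoint x (y ∪ ∅) then ((sg (S.JJ x y + c ⬝ᵥ S.tys x) : ℤ) : ℝ) else 0 := by
  classical
  rw [Finset.union_empty]
  unfold fx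
  by_cases h : Disjoint x y
  · rw [if_pos h, ← S.sum_ex, sg_sum, Int.cast_prod]
    refine Finset.prod_congr rfl fun p hp => ?_
    rw [if_neg (Finset.disjoint_left.1 h hp)]
  · rw [if_neg h]
    obtain ⟨p, hp, hq⟩ := Finset.not_disjoint_iff.1 h
    exact Finset.prod_eq_zero hp (if_pos hq)

/-- the partial sums -/
noncomputable def Ak (k : ℕ) : ℝ := ∑ x ∈ S.bx k, fx S y c x

theorem Ak_zero : Ak S y c 0 = 0 := by
  unfold Ak
  refine Finset.sum_eq_zero fun x hx => ?_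
  have h1 := S.mem_bx.1 hx
  have h2 := S.one_le_nmr x
  rw [Nat.cast_zero] at h1
  linarith

theorem nm_rpow (s : ℝ) (x : Finset S.P) :
    ∏ p ∈ x, (S.N p : ℝ) ^ (-s) = (S.nm x : ℝ) ^ (-s) := by
  unfold Pre.nm
  rw [Nat.cast_prod]
  exact Real.finsetProd_rpow x _ (fun p _ => Nat.cast_nonneg _) _

theorem summable_nm (s : ℝ) (hs : 1 < s) : Summable fun x : Finset S.P => (S.nm x : ℝ) ^ (-s) := by
  have h1 := summable_finsetProd_of_summable_nonneg
    (f := fun p : S.P => (S.N p : ℝ) ^ (-s)) (fun p => Real.rpow_nonneg (Nat.cast_nonneg _) _)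
    (summable_N S s hs)
  exact h1.congr fun x => nm_rpow S s x

/-- the term of a pair -/
noncomputable def hx (s : ℝ) (w : Finset S.P × ℕ) : ℝ :=
  fx S y c w.1 * if S.nm w.1 ≤ w.2 then dk s w.2 else 0

theorem summable_hx (s : ℝ) (hs : 1 < s) : Summable (hx S y c s) := by
  have hn : ∀ x : Finset S.P, ∀ k : ℕ, 0 ≤ (if S.nm x ≤ k then dk s k else 0) := by
    intro x k
    split_ifs with h
    · exact dk_nonneg s (by linarith) k ((S.one_le_nm x).trans h)
    · exact le_rfl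
  have h0 : ∀ w, 0 ≤ |hx S y c s w| := fun w => abs_nonneg _
  have hd : ∀ x : Finset S.P, HasSum (fun k : ℕ => |hx S y c s (x, k)|)
      (|fx S y c x| * (S.nm x : ℝ) ^ (-s)) := by
    intro x
    have h1 := (hasSum_dk s (by linarith) (S.nm x) (S.one_le_nm x)).mul_left |fx S y c x|
    refine h1.congr_fun ?_
    intro k
    unfold hx
    rw [abs_mul, abs_of_nonneg (hn x k)]
  refine Summable.of_abs ?_
  rw [summable_prod_of_nonneg h0]
  refine ⟨fun x => (hd x).summable, ?_⟩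
  have h2 : (fun x => ∑' k, |hx S y c s (x, k)|) =
      fun x => |fx S y c x| * (S.nm x : ℝ) ^ (-s) := funext fun x => (hd x).tsum_eq
  rw [h2]
  refine Summable.of_nonneg_of_le (fun x => mul_nonneg (abs_nonneg _)
    (Real.rpow_nonneg (Nat.cast_nonneg _) _)) (fun x => ?_) (summable_nm S s hs)
  exact mul_le_of_le_one_left (Real.rpow_nonneg (Nat.cast_nonneg _) _) (fx_le S y c x)

theorem abel (s : ℝ) (hs : 1 < s) : ∑' x : Finset S.P, fx S y c x * (S.nm x : ℝ) ^ (-s) =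
    ∑' k : ℕ, Ak S y c k * dk s k := by
  have h1 : ∀ x : Finset S.P, fx S y c x * (S.nm x : ℝ) ^ (-s) =
      ∑' k : ℕ, hx S y c s (x, k) := fun x =>
    ((hasSum_dk s (by linarith) (S.nm x) (S.one_le_nm x)).mul_left (fx S y c x)).tsum_eq.symm
  have h2 : ∀ k : ℕ, Ak S y c k * dk s k = ∑' x : Finset S.P, hx S y c s (x, k) := by
    intro k
    rw [tsum_eq_sum (s := S.bx k)]
    · unfold Ak
      rw [Finset.sum_mul]
      refine Finset.sum_congr rfl fun x hxx => ?_
      have h3 : S.nm x ≤ k := by exact_mod_cast S.mem_bx.1 hxx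
      unfold hx
      rw [if_pos h3]
    · intro x hxx
      have h3 : ¬ S.nm x ≤ k := fun h => hxx (S.mem_bx.2 (by exact_mod_cast h))
      unfold hx
      rw [if_neg h3, mul_zero]
  rw [tsum_congr h1, tsum_congr h2]
  have h3 : Summable (Function.uncurry fun (x : Finset S.P) (k : ℕ) => hx S y c s (x, k)) :=
    (summable_hx S y c s hs).congr fun w => rfl
  exact h3.tsum_comm.symm

end

end EQc

open EQc in
/-- E10: the series of sets of primes with a nontrivial character -/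
theorem eQc : SEQc := by
  classical
  intro S y c hyc
  obtain ⟨C, hC0, hC⟩ := chr_sqf S
  set C1 : ℝ := C * (S.nm y : ℝ) ^ S.A * S.hs ∅ with hC1
  have hC1' : 0 ≤ C1 := mul_nonneg (mul_nonneg hC0 (Real.rpow_nonneg (Nat.cast_nonneg _) _))
    (le_trans zero_le_one (S.one_le_hs ∅))
  have hA : ∀ k : ℕ, 1 ≤ k → |Ak S y c k| ≤ C1 * (k : ℝ) ^ (1 - S.dl) := by
    intro k hk
    have h1 := hC y ∅ c hyc k (by exact_mod_cast hk)
    unfold Ak
    rw [Finset.sum_congr rfl fun x _ => fx_eq S y c x]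
    exact h1
  have hdl := S.dl_pos
  have hb : Summable fun k : ℕ => 2 * C1 * (k : ℝ) ^ (-(1 + S.dl)) :=
    (Real.summable_nat_rpow.2 (by linarith)).mul_left _
  have hbd : ∀ σ : ℝ, 0 ≤ σ → σ ≤ 1 → ∀ k : ℕ,
      ‖Ak S y c k * dk (1 + σ) k‖ ≤ 2 * C1 * (k : ℝ) ^ (-(1 + S.dl)) := by
    intro σ h0 h1 k
    rcases Nat.eq_zero_or_pos k with hk | hk
    · subst hk
      rw [Ak_zero, zero_mul, norm_zero]
      exact mul_nonneg (by linarith) (Real.rpow_nonneg (Nat.cast_nonneg _) _)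
    · have hk0 : (0 : ℝ) < k := by exact_mod_cast hk
      rw [Real.norm_eq_abs, abs_mul, abs_of_nonneg (dk_nonneg (1 + σ) (by linarith) k hk)]
      calc |Ak S y c k| * dk (1 + σ) k
          ≤ (C1 * (k : ℝ) ^ (1 - S.dl)) * (2 * (k : ℝ) ^ (-(2 : ℝ))) :=
            mul_le_mul (hA k hk) (dk_le (1 + σ) (by linarith) (by linarith) k hk)
              (dk_nonneg (1 + σ) (by linarith) k hk)
              (mul_nonneg hC1' (Real.rpow_nonneg (Nat.cast_nonneg _) _))
        _ = 2 * C1 * (k : ℝ) ^ (-(1 + S.dl)) := by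
            rw [show -(1 + S.dl) = (1 - S.dl) + -(2 : ℝ) by ring, Real.rpow_add hk0]
            ring
  refine ⟨∑' k : ℕ, Ak S y c k * dk 1 k, ?_⟩
  have h1 : Tendsto (fun σ : ℝ => ∑' k : ℕ, Ak S y c k * dk (1 + σ) k) (𝓝[>] 0)
      (𝓝 (∑' k : ℕ, Ak S y c k * dk 1 k)) := by
    refine tendsto_tsum_of_dominated_convergence hb ?_ ?_
    · intro k
      rcases Nat.eq_zero_or_pos k with hk | hk
      · subst hk
        simp only [Ak_zero, zero_mul]
        exact tendsto_const_nhds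
      · have hk0 : (0 : ℝ) < k := by exact_mod_cast hk
        refine tendsto_const_nhds.mul ?_
        have hc : Continuous fun σ : ℝ => dk (1 + σ) k := by
          unfold dk
          refine Continuous.sub ?_ ?_
          · exact (Real.continuous_const_rpow hk0.ne').comp (by fun_prop)
          · exact (Real.continuous_const_rpow (by linarith : (k : ℝ) + 1 ≠ 0)).comp
              (by fun_prop)
        have h2 : Tendsto (fun σ : ℝ => dk (1 + σ) k) (𝓝 0) (𝓝 (dk (1 + 0) k)) :=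
          hc.tendsto 0
        rw [add_zero] at h2
        exact h2.mono_left nhdsWithin_le_nhds
    · have h3 : ∀ᶠ σ : ℝ in 𝓝[>] 0, σ ∈ Set.Ioc (0 : ℝ) 1 :=
        Ioc_mem_nhdsGT one_pos
      filter_upwards [h3] with σ hσ k
      exact hbd σ hσ.1.le hσ.2 k
  refine h1.congr' ?_
  filter_upwards [self_mem_nhdsWithin] with σ hσ
  have hσ' : (0 : ℝ) < σ := hσ
  rw [← abel S y c (1 + σ) (by linarith)]
  refine tsum_congr fun x => ?_
  rw [Finset.prod_mul_distrib, nm_rpow]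
  unfold fx
  rfl

end Pool.Agent.H32.MQ
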