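import Pool.Agent.H32.MQ.EStm
import Pool.Agent.H98.MF.SCount

/-!
# Malle's conjecture for 8T28 and 8T29, row E11: positivity of the limit
-/

set_option autoImplicit false

open scoped BigOperators Topology

namespace Pool.Agent.H32.MQ

open Filter
open Pool.Agent.H98.MK (sg)
open Pool.Agent.H98.MF

theorem eqp_log {x : ℝ} (h : |x| ≤ 1 / 2) : Real.exp (x - 2 * x ^ 2) ≤ 1 + x := by
  have h1 := Real.abs_log_sub_add_sum_range_le (x := -x) (by rw [abs_neg]; linarith) 1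
  have hx := abs_le.1 h
  simp only [Finset.range_one, Finset.sum_singleton, zero_add, pow_one, Nat.cast_zero, div_one,
    abs_neg, sub_neg_eq_add] at h1
  have h2 : |x| ^ (1 + 1) / (1 - |x|) ≤ 2 * x ^ 2 := by
    rw [div_le_iff₀ (by linarith)]
    have h3 : |x| ^ (1 + 1) = x ^ 2 := by
      norm_num
    rw [h3]
    nlinarith [sq_nonneg x]
  have h3 := (abs_le.1 (h1.trans h2)).1
  have h4 : x - 2 * x ^ 2 ≤ Real.log (1 + x) := by linarith
  calc Real.exp (x - 2 * x ^ 2) ≤ Real.exp (Real.log (1 + x)) := Real.exp_le_exp.2 h4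
    _ = 1 + x := Real.exp_log (by linarith)

theorem eqp_prod {ι : Type*} (f : ι → ℝ) (hf : Summable f) (h2 : ∀ i, |f i| ≤ 1 / 2) (A B : ℝ)
    (hA : -A ≤ ∑' i, f i) (g : ι → ℝ) (hg : Summable g) (hfg : ∀ i, f i ^ 2 ≤ g i)
    (hB : ∑' i, g i ≤ B) :
    Real.exp (-A - 2 * B) ≤ ∑' s : Finset ι, ∏ i ∈ s, f i := by
  have hn : Summable fun i => ‖f i‖ := hf.norm
  have e1 : ∑' s : Finset ι, ∏ i ∈ s, f i = ∏' i, (1 + f i) :=
    (tprod_one_add (summable_finsetProd_of_summable_norm hn)).symm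
  rw [e1]
  have hm : Multipliable fun i => 1 + f i := multipliable_one_add_of_summable hn
  have hsq : Summable fun i => f i ^ 2 :=
    Summable.of_nonneg_of_le (fun i => sq_nonneg _) hfg hg
  have hs : Summable fun i => f i - 2 * f i ^ 2 := hf.sub (hsq.mul_left 2)
  have h3 : Tendsto (fun s : Finset ι => Real.exp (∑ i ∈ s, (f i - 2 * f i ^ 2))) atTop
      (𝓝 (Real.exp (∑' i, (f i - 2 * f i ^ 2)))) :=
    (Real.continuous_exp.tendsto _).comp hs.hasSum
  have h4 : Tendsto (fun s : Finset ι => ∏ i ∈ s, (1 + f i)) atTop (𝓝 (∏' i, (1 + f i))) :=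
    hm.hasProd
  have h5 : Real.exp (∑' i, (f i - 2 * f i ^ 2)) ≤ ∏' i, (1 + f i) := by
    refine le_of_tendsto_of_tendsto' h3 h4 fun s => ?_
    rw [Real.exp_sum]
    exact Finset.prod_le_prod (fun i _ => (Real.exp_pos _).le) fun i _ => eqp_log (h2 i)
  refine le_trans (Real.exp_le_exp.2 ?_) h5
  rw [hf.tsum_sub (hsq.mul_left 2), tsum_mul_left]
  have h6 : ∑' i, f i ^ 2 ≤ ∑' i, g i := hsq.tsum_le_tsum hfg hg
  linarith

theorem eQp : SEQp := by
  classical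
  intro S y c hyc
  obtain ⟨K, hK⟩ := S.prm y c hyc
  have hN2 := summable_N S 2 (by norm_num)
  refine ⟨Real.exp (-K - 2 * ∑' p : S.P, (S.N p : ℝ) ^ (-(2 : ℝ))), Real.exp_pos _,
    fun σ hσ hσ1 => ?_⟩
  have hNσ := summable_N S (1 + σ) (by linarith)
  have hN1 : ∀ p : S.P, (2 : ℝ) ≤ S.N p := fun p => by exact_mod_cast S.two_le p
  set f : S.P → ℝ := fun p => (if p ∈ y then 0 else ((sg (S.ex y c p) : ℤ) : ℝ)) *
    (S.N p : ℝ) ^ (-(1 + σ)) with hf
  have hle : ∀ p, |f p| ≤ (S.N p : ℝ) ^ (-(1 + σ)) := by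
    intro p
    rw [hf]
    simp only
    have h1 : (0 : ℝ) ≤ (S.N p : ℝ) ^ (-(1 + σ)) := Real.rpow_nonneg (Nat.cast_nonneg _) _
    rw [abs_mul, abs_of_nonneg h1]
    refine mul_le_of_le_one_left h1 ?_
    split_ifs
    · simp
    · rw [abs_sgr]
  have hhalf : ∀ p : S.P, (S.N p : ℝ) ^ (-(1 + σ)) ≤ (S.N p : ℝ)⁻¹ := by
    intro p
    rw [← Real.rpow_neg_one]
    exact Real.rpow_le_rpow_of_exponent_le (by linarith [hN1 p]) (by linarith)
  have hinv : ∀ p : S.P, (S.N p : ℝ)⁻¹ ≤ 1 / 2 := by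
    intro p
    rw [one_div]
    exact inv_anti₀ (by norm_num) (hN1 p)
  refine eqp_prod f (Summable.of_norm_bounded hNσ hle) (fun p => (hle p).trans
    ((hhalf p).trans (hinv p))) K _ ?_ _ hN2 (fun p => ?_) le_rfl
  · have h1 := hK (1 + σ) (by linarith) (by linarith)
    have h2 := (abs_le.1 h1).1
    refine h2.trans (le_of_eq (tsum_congr fun p => ?_))
    rw [hf]
    simp only [Pre.chp, Sys.ex]
    split_ifs <;> simp
  · have h1 := (hle p).trans (hhalf p)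
    have h2 : f p ^ 2 ≤ ((S.N p : ℝ)⁻¹) ^ 2 := by
      rw [← sq_abs]
      exact pow_le_pow_left₀ (abs_nonneg _) h1 2
    refine h2.trans (le_of_eq ?_)
    rw [Real.rpow_neg (Nat.cast_nonneg _), inv_pow]
    norm_num

end Pool.Agent.H32.MQ
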