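import Pool.Agent.H32.MQ.EBd
import Pool.Agent.H32.MQ.EG1
import Pool.Agent.H32.MQ.EG2
import Pool.Agent.H32.MQ.EG3
import Pool.Agent.H32.MQ.EG4
import Pool.Agent.H32.MQ.EG5
import Pool.Agent.H32.MQ.EG6
import Pool.Agent.H32.MQ.EPk
import Pool.Agent.H32.MQ.EPf
import Pool.Agent.H32.MQ.EPf0
import Pool.Agent.H32.MQ.EPM
import Pool.Agent.H32.MQ.EQ1
import Pool.Agent.H32.MQ.EQc
import Pool.Agent.H32.MQ.EQp
import Pool.Agent.H32.MQ.EQH
import Pool.Agent.H32.MQ.EC0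
import Pool.Agent.H32.MQ.EC
import Pool.Agent.H32.MQ.EFin

/-!
# Malle's conjecture for 8T28 and 8T29 over number fields: block E, assembly
-/

set_option autoImplicit false

namespace Pool.Agent.H32.MQ

theorem stmES : SES := eS (eG2 eG1) eG6

theorem stmEB : SEB := eB (eG4 eBd (eG2 eG1) eG3) eG5 eG6 pk1 pk0 pf1 pf0 pkM pfM

theorem stmEC : SEC := eC (eG2 eG1) (eC0 eQ1 eQc eQp eQH) eG6

end Pool.Agent.H32.MQ
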