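import Pool.Agent.H32.MQ.EStm
import Pool.Agent.H32.MQ.LStm

/-!
# Malle's conjecture for 8T28 and 8T29 over number fields: block E for tuples of any length
-/

set_option autoImplicit false

open scoped BigOperators Topology
open Filter

namespace Pool.Agent.H32.MQ

open Pool.Agent.H98.MK (sg)
open Pool.Agent.H98.MF

section

variable {S SF : Sys} (F : Qf S SF)

open Classical in
/-- the term of a tuple with weights on the primes -/
noncomputable def tG {u v : ℕ} (f : Fin u → S.P → ℝ) (g : Fin v → F.Q.P → ℝ) (z : Finset S.P)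
    (s : ℝ) (w : (Fin u → Finset S.P) × (Fin v → Finset F.Q.P)) : ℝ :=
  if okE F z w then
    (∏ i, ∏ p ∈ w.1 i, f i p * (S.N p : ℝ) ^ (-s)) *
      ∏ j, ∏ a ∈ w.2 j, g j a * (S.N (F.Q.sh a) : ℝ) ^ (-s) else 0

/-- the total weight of a prime, zero at `z` -/
noncomputable def totG {u v : ℕ} (f : Fin u → S.P → ℝ) (g : Fin v → F.Q.P → ℝ) (z : Finset S.P)
    (p : S.P) : ℝ := if p ∈ z then 0 else ∑ i, f i p + ∑ j, Pw.ab (g j) p

open Classical in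
/-- the union of the shadows of a tuple -/
noncomputable def unG {u v : ℕ} (w : (Fin u → Finset S.P) × (Fin v → Finset F.Q.P)) :
    Finset S.P :=
  (Finset.univ.biUnion w.1) ∪ Finset.univ.biUnion fun j => F.Q.shd (w.2 j)

end

/-- G1: the tuples with given union of shadows -/
def SEG1 : Prop := ∀ (S SF : Sys) (F : Qf S SF) (u v : ℕ) (f : Fin u → S.P → ℝ)
  (g : Fin v → F.Q.P → ℝ) (z : Finset S.P) (s : ℝ) (y : Finset S.P),
  ∃ hf : {w : (Fin u → Finset S.P) × (Fin v → Finset F.Q.P) | okE F z w ∧ unG F w = y}.Finite,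
    ∑ w ∈ hf.toFinset, tG F f g z s w = ∏ p ∈ y, totG F f g z p * (S.N p : ℝ) ^ (-s)

/-- G2: sums over tuples are Euler products -/
def SEG2 : Prop := ∀ (S SF : Sys) (F : Qf S SF) (u v : ℕ) (f : Fin u → S.P → ℝ)
  (g : Fin v → F.Q.P → ℝ), (∀ i p, |f i p| ≤ 1) → (∀ j a, |g j a| ≤ 1) →
  ∀ (z : Finset S.P) (s : ℝ), 1 < s →
  (Summable fun w => tG F f g z s w) ∧
  ∑' w, tG F f g z s w = ∑' x : Finset S.P, ∏ p ∈ x, totG F f g z p * (S.N p : ℝ) ^ (-s)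

/-- G3: the prime sums of the total weight -/
def SEG3 : Prop := ∀ (S SF : Sys) (F : Qf S SF) (u v : ℕ) (f : Fin u → S.P → ℝ)
  (g : Fin v → F.Q.P → ℝ), (∀ i p, |f i p| ≤ 1) → (∀ j a, |g j a| ≤ 1) →
  ∀ (z : Finset S.P) (e : Fin u → ℝ) (e' : Fin v → ℝ), (∀ i, Pk S.toPre (f i) (e i)) →
    (∀ j, Pf F.Q (g j) (e' j)) → Pk S.toPre (totG F f g z) (∑ i, e i + ∑ j, e' j) ∧
      ∀ p, |totG F f g z p| ≤ u + 2 * v

/-- G4: the bound for tuples -/
def SEG4 : Prop := ∀ (S SF : Sys) (F : Qf S SF) (u v : ℕ) (f : Fin u → S.P → ℝ)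
  (g : Fin v → F.Q.P → ℝ), (∀ i p, |f i p| ≤ 1) → (∀ j a, |g j a| ≤ 1) →
  ∀ (z : Finset S.P) (e : Fin u → ℝ) (e' : Fin v → ℝ), (∀ i, Pk S.toPre (f i) (e i)) →
    (∀ j, Pf F.Q (g j) (e' j)) → ∃ C : ℝ, ∀ σ : ℝ, 0 < σ → σ ≤ 1 →
      |∑' w, tG F f g z (1 + σ) w| ≤ C * σ ^ (-(∑ i, e i + ∑ j, e' j))

/-- G5: the system of `F` contains the primes of degree one -/
def SEG5 : Prop := ∀ (S SF : Sys) (F : Qf S SF), ∃ h : FxD F.Q SF, h.io = F.io

/-- G6: the terms of block L have weights on the primes -/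
def SEG6 : Prop := ∀ (S SF : Sys) (F : Qf S SF) (u v : ℕ) (y : Fin u → El S) (Y : Fin v → El SF)
  (z : Finset S.P) (s : ℝ) (w : (Fin u → Finset S.P) × (Fin v → Finset F.Q.P)),
  tE F y Y z s w = tG F (fun i p => ((sg (S.ex (y i).2 (y i).1 p) : ℤ) : ℝ))
    (fun j a => ((sg (SF.ex (Y j).2 (Y j).1 (F.io a)) : ℤ) : ℝ)) z s w

end Pool.Agent.H32.MQ
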