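import Pool.Agent.H32.MQ.Qd
import Pool.Agent.H98.MF.SCntSqf
import Pool.Agent.H98.MF.SChrSqf

/-!
# Malle's conjecture for 8T28 and 8T29 over number fields: definitions and statements of block E
(Euler products)
-/

set_option autoImplicit false

open scoped BigOperators
open Filter Topology

namespace Pool.Agent.H32.MQ

open Pool.Agent.H98.MK (sg)
open Pool.Agent.H98.MF

/-! ### weights on primes and poles -/

/-- the prime sum of `u` is `e log (1/(s-1))` up to a bounded error -/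
def Pk (S : Pre) (u : S.P → ℝ) (e : ℝ) : Prop := ∃ K : ℝ, ∀ s : ℝ, 1 < s → s ≤ 2 →
  |∑' p : S.P, u p * (S.N p : ℝ) ^ (-s) - e * Real.log (1 / (s - 1))| ≤ K

/-- the same for weights on the primes of `F` of degree one -/
def Pf {S : Sys} (Q : Qd S) (u : Q.P → ℝ) (e : ℝ) : Prop := ∃ K : ℝ, ∀ s : ℝ, 1 < s → s ≤ 2 →
  |∑' a : Q.P, u a * (S.N (Q.sh a) : ℝ) ^ (-s) - e * Real.log (1 / (s - 1))| ≤ K

/-- E1: convergence and bound of an Euler product -/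
def SEBd : Prop := ∀ (S : Sys) (u : S.P → ℝ) (B e : ℝ), (∀ p, |u p| ≤ B) → Pk S.toPre u e →
  (∀ s : ℝ, 1 < s → Summable fun x : Finset S.P => ∏ p ∈ x, |u p| * (S.N p : ℝ) ^ (-s)) ∧
  ∃ C : ℝ, ∀ s : ℝ, 1 < s → s ≤ 2 →
    |∑' x : Finset S.P, ∏ p ∈ x, u p * (S.N p : ℝ) ^ (-s)| ≤ C * (s - 1) ^ (-e)

/-! ### five variables -/

/-- weights on the primes for the five variables -/
structure Pw {S : Sys} (Q : Qd S) where
  u0 : S.P → ℝ
  u1 : S.P → ℝ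
  u2 : Q.P → ℝ
  u3 : Q.P → ℝ
  u4 : Q.P → ℝ

namespace Pw

variable {S : Sys} {Q : Qd S} (W : Pw Q)

/-- weights bounded by one -/
structure Bd : Prop where
  b0 : ∀ p, |W.u0 p| ≤ 1
  b1 : ∀ p, |W.u1 p| ≤ 1
  b2 : ∀ p, |W.u2 p| ≤ 1
  b3 : ∀ p, |W.u3 p| ≤ 1
  b4 : ∀ p, |W.u4 p| ≤ 1

/-- the value at a configuration -/
noncomputable def val (x : Cf Q) : ℝ :=
  (∏ p ∈ x.q0, W.u0 p) * (∏ p ∈ x.q12, W.u1 p) * (∏ a ∈ x.qq, W.u2 a) *
    (∏ a ∈ x.g0, W.u3 a) * (∏ a ∈ x.g1, W.u4 a)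

/-- the sum of the values of a weight at the primes above `p` -/
noncomputable def ab (u : Q.P → ℝ) (p : S.P) : ℝ := by
  classical
  exact if h : ∃ a, Q.sh a = p then u h.choose + u (Q.cj h.choose) else 0

open Classical in
/-- the total weight of a prime, zero at `M` and at `z` -/
noncomputable def tot (z : Finset S.P) (p : S.P) : ℝ :=
  if p ∈ Q.M ∨ p ∈ z then 0 else W.u0 p + W.u1 p + ab W.u2 p + ab W.u3 p + ab W.u4 p

open Classical in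
/-- the term of a configuration prime to `z` -/
noncomputable def tr (z : Finset S.P) (s : ℝ) (x : Cf Q) : ℝ :=
  if x.Ok ∧ ∀ i, Disjoint (x.sd i) z then W.val x * (x.n : ℝ) ^ (-s) else 0

end Pw

open Classical in
/-- the union of the shadows -/
noncomputable def un {S : Sys} {Q : Qd S} (x : Cf Q) : Finset S.P := Finset.univ.biUnion x.sd

/-- E2a: the configurations with given union of shadows -/
def SECfA : Prop := ∀ (S : Sys) (Q : Qd S) (W : Pw Q) (z : Finset S.P) (s : ℝ)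
  (y : Finset S.P), ∃ hf : {x : Cf Q | x.Ok ∧ un x = y}.Finite,
    ∑ x ∈ hf.toFinset, W.tr z s x = ∏ p ∈ y, W.tot z p * (S.N p : ℝ) ^ (-s)

/-- E2: sums over configurations are Euler products -/
def SECf : Prop := ∀ (S : Sys) (Q : Qd S) (W : Pw Q), W.Bd → ∀ (z : Finset S.P) (s : ℝ), 1 < s →
  (Summable fun x : Cf Q => W.tr z s x) ∧
  ∑' x : Cf Q, W.tr z s x = ∑' x : Finset S.P, ∏ p ∈ x, W.tot z p * (S.N p : ℝ) ^ (-s)

/-- E3: the prime sums of the total weight -/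
def SETot : Prop := ∀ (S : Sys) (Q : Qd S) (W : Pw Q), W.Bd → ∀ (z : Finset S.P)
  (e0 e1 e2 e3 e4 : ℝ), Pk S.toPre W.u0 e0 → Pk S.toPre W.u1 e1 → Pf Q W.u2 e2 → Pf Q W.u3 e3 →
    Pf Q W.u4 e4 → Pk S.toPre (W.tot z) (e0 + e1 + e2 + e3 + e4) ∧ ∀ p, |W.tot z p| ≤ 8

/-- E4: the bound for five variables -/
def SE : Prop := ∀ (S : Sys) (Q : Qd S) (W : Pw Q), W.Bd → ∀ (z : Finset S.P)
  (e0 e1 e2 e3 e4 : ℝ), Pk S.toPre W.u0 e0 → Pk S.toPre W.u1 e1 → Pf Q W.u2 e2 → Pf Q W.u3 e3 →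
    Pf Q W.u4 e4 → ∃ C : ℝ, ∀ s : ℝ, 1 < s → s ≤ 2 →
      (Summable fun x : Cf Q => W.tr z s x) ∧
      |∑' x : Cf Q, W.tr z s x| ≤ C * (s - 1) ^ (-(e0 + e1 + e2 + e3 + e4))

/-! ### instances -/

/-- E5: all primes of `k` -/
def SPk1 : Prop := ∀ S : Sys, Pk S.toPre (fun _ => 1) 1

/-- E5: a nontrivial quadratic character of `k` -/
def SPk0 : Prop := ∀ (S : Sys) (y : Finset S.P) (c : S.T), (y.Nonempty ∨ c ≠ 0) →
  Pk S.toPre (fun p => if p ∈ y then 0 else ((sg (S.ex y c p) : ℤ) : ℝ)) 0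

/-- E6: all primes of `F` of degree one -/
def SPf1 : Prop := ∀ (S : Sys) (Q : Qd S), Pf Q (fun _ => 1) 1

/-- the primes of degree one in the system of `F` -/
structure FxD {S : Sys} (Q : Qd S) (F : Sys) where
  io : Q.P → F.P
  inj : Function.Injective io
  N_io : ∀ a, F.N (io a) = S.N (Q.sh a)
  rest : Summable fun p : {p : F.P // p ∉ Set.range io} => ((F.N p.1 : ℝ))⁻¹

/-- E7: a nontrivial quadratic character of `F` -/
def SPf0 : Prop := ∀ (S : Sys) (Q : Qd S) (F : Sys) (h : FxD Q F) (y : Finset F.P) (c : F.T),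
  (y.Nonempty ∨ c ≠ 0) →
    Pf Q (fun a => if h.io a ∈ y then 0 else ((sg (F.ex y c (h.io a)) : ℤ) : ℝ)) 0

/-- E8: multiplying by a function different from `1` at finitely many primes -/
def SPkM : Prop := ∀ (S : Sys) (u v : S.P → ℝ) (e : ℝ), (∀ p, |u p| ≤ 1) → (∀ p, |v p| ≤ 1) →
  {p | u p ≠ v p}.Finite → Pk S.toPre u e → Pk S.toPre v e

/-- E8: the same over `F` -/
def SPfM : Prop := ∀ (S : Sys) (Q : Qd S) (u v : Q.P → ℝ) (e : ℝ), (∀ p, |u p| ≤ 1) →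
  (∀ p, |v p| ≤ 1) → {p | u p ≠ v p}.Finite → Pf Q u e → Pf Q v e

/-! ### the constant -/

/-- E9: the series of sets of primes -/
def SEQ1 : Prop := ∀ S : Sys, ∃ κ : ℝ, 0 < κ ∧
  Tendsto (fun σ : ℝ => σ * ∑' x : Finset S.P, (S.nm x : ℝ) ^ (-(1 + σ))) (𝓝[>] 0) (𝓝 κ)

/-- E10: the series of sets of primes with a nontrivial character -/
def SEQc : Prop := ∀ (S : Sys) (y : Finset S.P) (c : S.T), (y.Nonempty ∨ c ≠ 0) →
  ∃ l : ℝ, Tendsto (fun σ : ℝ => ∑' x : Finset S.P,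
    ∏ p ∈ x, (if p ∈ y then 0 else ((sg (S.ex y c p) : ℤ) : ℝ)) * (S.N p : ℝ) ^ (-(1 + σ)))
      (𝓝[>] 0) (𝓝 l)

/-- E11: its limit is positive -/
def SEQp : Prop := ∀ (S : Sys) (y : Finset S.P) (c : S.T), (y.Nonempty ∨ c ≠ 0) →
  ∃ l : ℝ, 0 < l ∧ ∀ σ : ℝ, 0 < σ → σ ≤ 1 → l ≤ ∑' x : Finset S.P,
    ∏ p ∈ x, (if p ∈ y then 0 else ((sg (S.ex y c p) : ℤ) : ℝ)) * (S.N p : ℝ) ^ (-(1 + σ))

/-- the weight of the pairs `(q, g)` -/
noncomputable def cw {S : Sys} (Q : Qd S) (p : S.P) : ℝ := by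
  classical
  exact if p ∈ Q.M then 0 else 1 + (1 + ((sg (S.ex Q.d.2 Q.d.1 p) : ℤ) : ℝ))

/-- E12: comparison of the Euler products -/
def SEQH : Prop := ∀ (S : Sys) (Q : Qd S), ∃ h : ℝ, 0 < h ∧
  Tendsto (fun σ : ℝ =>
    (∑' x : Finset S.P, ∏ p ∈ x, cw Q p * (S.N p : ℝ) ^ (-(1 + σ))) /
      ((∑' x : Finset S.P, (S.nm x : ℝ) ^ (-(1 + σ))) ^ 2 *
        ∑' x : Finset S.P, ∏ p ∈ x, (if p ∈ Q.d.2 then 0
          else ((sg (S.ex Q.d.2 Q.d.1 p) : ℤ) : ℝ)) * (S.N p : ℝ) ^ (-(1 + σ))))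
      (𝓝[>] 0) (𝓝 h)

/-- E13: the constant `c₀` -/
def SEC0 : Prop := ∀ (S : Sys) (Q : Qd S), ∃ c0 : ℝ, 0 < c0 ∧
  Tendsto (fun σ : ℝ => σ ^ 2 * ∑' x : Finset S.P, ∏ p ∈ x, cw Q p * (S.N p : ℝ) ^ (-(1 + σ)))
    (𝓝[>] 0) (𝓝 c0)

/-- E14: the constant `c₀` for configurations -/
def SECc : Prop := ∀ (S : Sys) (Q : Qd S), ∃ c0 : ℝ, 0 < c0 ∧
  Tendsto (fun σ : ℝ => σ ^ 2 * ∑' x : Cf Q, (⟨fun _ => 1, fun _ => 0, fun _ => 0, fun _ => 1,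
    fun _ => 0⟩ : Pw Q).tr ∅ (1 + σ) x) (𝓝[>] 0) (𝓝 c0)

end Pool.Agent.H32.MQ
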