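import Pool.Agent.H32.MQ.GStm

/-!
# Malle's conjecture for 8T28 and 8T29 over number fields, row G1: the representation of degree 8
-/

set_option autoImplicit false

open scoped BigOperators

namespace Pool.Agent.H32.MQ.G

open Pool.Agent.H98.MF
open Pool.Agent.H98.ML (Dt Ext)
open Pool.Agent.H32.MZ (NK MalleK T28 T29)

/-! ### the action of `D_4` on the square -/

/-- the action of `(a, b; c)` on the square -/
def g1pt (a b c : ZMod 2) (i : ZMod 4) : ZMod 4 :=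
  if a = 0 then (if b = 0 then (if c + a * b = 0 then i else i + 2)
    else -(if c + a * b = 0 then i else i + 2))
  else 1 - (if b = 0 then (if c + a * b = 0 then i else i + 2)
    else -(if c + a * b = 0 then i else i + 2))

theorem g1pt_mul : ∀ (a b c a' b' c' : ZMod 2) (i : ZMod 4),
    g1pt (a + a') (b + b') (c + c' + a * b') i = g1pt a b c (g1pt a' b' c' i) := by
  decide +kernel

theorem g1pt_one : ∀ i : ZMod 4, g1pt 0 0 0 i = i := by decide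

theorem g1pt_inj : ∀ a b c a' b' c' : ZMod 2, (∀ i, g1pt a b c i = g1pt a' b' c' i) →
    a = a' ∧ b = b' ∧ c = c' := by
  decide +kernel

/-- the action of an element of `D_4` -/
def g1ac (g : Ext D4) : ZMod 4 → ZMod 4 := g1pt (c0 g) (c1 g) (cz g)

theorem g1ac_mul (g h : Ext D4) (i : ZMod 4) : g1ac (g * h) i = g1ac g (g1ac h i) := by
  unfold g1ac
  rw [c0_mul, c1_mul, cz_mul]
  exact g1pt_mul _ _ _ _ _ _ _

theorem g1ac_one (i : ZMod 4) : g1ac (1 : Ext D4) i = i := g1pt_one i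

theorem g1_ext {g h : Ext D4} (e0 : c0 g = c0 h) (e1 : c1 g = c1 h) (e2 : cz g = cz h) :
    g = h := by
  refine Ext.ext ?_ ?_
  · funext i
    have hi : i = (0 : Fin 2) ∨ i = (1 : Fin 2) := by
      revert i
      decide
    rcases hi with rfl | rfl
    · exact e0
    · exact e1
  · funext i
    have hi : i = (0 : Fin 1) := @Subsingleton.elim (Fin 1) _ i 0
    subst hi
    exact e2

theorem g1ac_inj {g h : Ext D4} (e : ∀ i, g1ac g i = g1ac h i) : g = h := by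
  obtain ⟨e0, e1, e2⟩ := g1pt_inj _ _ _ _ _ _ e
  exact g1_ext e0 e1 e2

/-! ### the action of the wreath product -/

/-- the action of `w` on pairs -/
def g1wa (w : W) (p : ZMod 2 × ZMod 4) : ZMod 2 × ZMod 4 :=
  (p.1 + w.e, if p.1 + w.e = 0 then g1ac w.x p.2 else g1ac w.y p.2)

theorem g1wa_mul (a b : W) (p : ZMod 2 × ZMod 4) : g1wa (a * b) p = g1wa a (g1wa b p) := by
  obtain ⟨j, i⟩ := p
  obtain ⟨x, y, e⟩ := a
  obtain ⟨x', y', e'⟩ := b
  have h2 : (1 : ZMod 2) + 1 = 0 := by decide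
  have h1 : (1 : ZMod 2) ≠ 0 := by decide
  rcases z2_or e with rfl | rfl <;> rcases z2_or e' with rfl | rfl <;>
    rcases z2_or j with rfl | rfl <;>
    simp only [W.mul_def, g1wa, add_zero, zero_add, h2, if_true, if_neg h1, g1ac_mul]

theorem g1wa_one (p : ZMod 2 × ZMod 4) : g1wa 1 p = p := by
  obtain ⟨j, i⟩ := p
  show (j + 0, if j + 0 = 0 then g1ac 1 i else g1ac 1 i) = (j, i)
  rw [add_zero, g1ac_one, ite_self]

/-- the point `4 j + i` -/
def g1e8 : ZMod 2 × ZMod 4 ≃ Fin 8 := finProdFinEquiv (m := 2) (n := 4)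

/-- the representation -/
def g1pr : W →* Equiv.Perm (Fin 8) where
  toFun w := ⟨fun x => g1e8 (g1wa w (g1e8.symm x)), fun x => g1e8 (g1wa w⁻¹ (g1e8.symm x)),
    fun x => by
      show g1e8 (g1wa w⁻¹ (g1e8.symm (g1e8 (g1wa w (g1e8.symm x))))) = x
      rw [Equiv.symm_apply_apply, ← g1wa_mul, inv_mul_cancel, g1wa_one, Equiv.apply_symm_apply],
    fun x => by
      show g1e8 (g1wa w (g1e8.symm (g1e8 (g1wa w⁻¹ (g1e8.symm x))))) = x
      rw [Equiv.symm_apply_apply, ← g1wa_mul, mul_inv_cancel, g1wa_one, Equiv.apply_symm_apply]⟩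
  map_one' := by
    refine Equiv.ext fun x => ?_
    show g1e8 (g1wa 1 (g1e8.symm x)) = x
    rw [g1wa_one, Equiv.apply_symm_apply]
  map_mul' a b := by
    refine Equiv.ext fun x => ?_
    show g1e8 (g1wa (a * b) (g1e8.symm x)) =
      g1e8 (g1wa a (g1e8.symm (g1e8 (g1wa b (g1e8.symm x)))))
    rw [Equiv.symm_apply_apply, g1wa_mul]

theorem g1pr_apply (w : W) (x : Fin 8) : g1pr w x = g1e8 (g1wa w (g1e8.symm x)) := rfl

/-! ### codes -/

/-- codes of the elements -/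
abbrev G1Cd : Type := (ZMod 2 × ZMod 2 × ZMod 2) × (ZMod 2 × ZMod 2 × ZMod 2) × ZMod 2

/-- the code of an element -/
def g1cod (w : W) : G1Cd := ((c0 w.x, c1 w.x, cz w.x), (c0 w.y, c1 w.y, cz w.y), w.e)

/-- the element of a code -/
def g1dec (c : G1Cd) : W := ⟨⟨![c.1.1, c.1.2.1], fun _ => c.1.2.2⟩,
  ⟨![c.2.1.1, c.2.1.2.1], fun _ => c.2.1.2.2⟩, c.2.2⟩

theorem g1_cod_dec (c : G1Cd) : g1cod (g1dec c) = c := rfl

theorem g1_cod_inj {v w : W} (h : g1cod v = g1cod w) : v = w := by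
  have h1 := congrArg (fun c : G1Cd => c.1.1) h
  have h2 := congrArg (fun c : G1Cd => c.1.2.1) h
  have h3 := congrArg (fun c : G1Cd => c.1.2.2) h
  have h4 := congrArg (fun c : G1Cd => c.2.1.1) h
  have h5 := congrArg (fun c : G1Cd => c.2.1.2.1) h
  have h6 := congrArg (fun c : G1Cd => c.2.1.2.2) h
  have h7 := congrArg (fun c : G1Cd => c.2.2) h
  exact W.ext (g1_ext h1 h2 h3) (g1_ext h4 h5 h6) h7

/-- the permutation of a code -/
def g1A (c : G1Cd) (x : Fin 8) : Fin 8 :=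
  g1e8 ((g1e8.symm x).1 + c.2.2, if (g1e8.symm x).1 + c.2.2 = 0
    then g1pt c.1.1 c.1.2.1 c.1.2.2 (g1e8.symm x).2
    else g1pt c.2.1.1 c.2.1.2.1 c.2.1.2.2 (g1e8.symm x).2)

theorem g1_pr_A (w : W) (x : Fin 8) : g1pr w x = g1A (g1cod w) x := rfl

/-- the condition for `Gb b` -/
def g1K (b : ZMod 2) (c : G1Cd) : Prop := c.1.2.1 + c.2.1.2.1 = b * c.2.2

instance (b : ZMod 2) (c : G1Cd) : Decidable (g1K b c) := by unfold g1K; infer_instance

theorem g1_mem_Gb (b : ZMod 2) (w : W) : w ∈ W.Gb b ↔ g1K b (g1cod w) := Iff.rfl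

theorem g1_A_inj : ∀ c : G1Cd, (∀ x, g1A c x = x) → c = ((0, 0, 0), (0, 0, 0), 0) := by
  decide +kernel

theorem g1pr_inj : Function.Injective g1pr := by
  intro v w h
  have h1 : g1pr (v * w⁻¹) = 1 := by rw [map_mul, map_inv, h, mul_inv_cancel]
  have h2 : g1cod (v * w⁻¹) = ((0, 0, 0), (0, 0, 0), 0) := by
    refine g1_A_inj _ fun x => ?_
    rw [← g1_pr_A, h1]
    rfl
  have h3 : v * w⁻¹ = 1 := g1_cod_inj h2
  exact mul_inv_eq_one.1 h3

theorem g1pr_zero (w : W) : g1pr w 0 = 0 ↔ w ∈ W.H1 := by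
  have h1 : ∀ c : G1Cd, g1A c 0 = 0 ↔ (c.2.2 = 0 ∧ c.1.1 = 0 ∧ c.1.2.2 = 0) := by
    decide +kernel
  have h2 : w.x ∈ H4 ↔ (c0 w.x = 0 ∧ cz w.x = 0) := by
    unfold H4
    constructor
    · intro h
      rw [Subgroup.mem_zpowers_iff] at h
      obtain ⟨n, hn⟩ := h
      have hs : (⟨![0, 1], 0⟩ : Ext D4) * ⟨![0, 1], 0⟩ = 1 := by
        refine g1_ext ?_ ?_ ?_
        · rfl
        · rfl
        · rfl
      have h3 : ∀ m : ℕ, c0 ((⟨![0, 1], 0⟩ : Ext D4) ^ m) = 0 ∧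
          cz ((⟨![0, 1], 0⟩ : Ext D4) ^ m) = 0 := by
        intro m
        induction m with
        | zero => exact ⟨rfl, rfl⟩
        | succ m ih =>
          rw [pow_succ, c0_mul, cz_mul, ih.1, ih.2]
          exact ⟨rfl, by rw [zero_mul]; rfl⟩
      have h4 : ((⟨![0, 1], 0⟩ : Ext D4))⁻¹ = ⟨![0, 1], 0⟩ := inv_eq_of_mul_eq_one_left hs
      rw [← hn]
      rcases Int.eq_nat_or_neg n with ⟨m, rfl | rfl⟩
      · rw [zpow_natCast]
        exact h3 m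
      · rw [zpow_neg, zpow_natCast, ← inv_pow, h4]
        exact h3 m
    · rintro ⟨h3, h4⟩
      rcases z2_or (c1 w.x) with h5 | h5
      · have : w.x = 1 := g1_ext h3 h5 h4
        rw [this]
        exact Subgroup.one_mem _
      · have : w.x = ⟨![0, 1], 0⟩ := g1_ext h3 h5 h4
        rw [this]
        exact Subgroup.mem_zpowers _
  rw [g1_pr_A, h1]
  constructor
  · rintro ⟨h3, h4, h5⟩
    exact ⟨h3, h2.2 ⟨h4, h5⟩⟩
  · rintro ⟨h3, h4⟩
    exact ⟨h3, h2.1 h4⟩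

/-! ### generators -/

/-- `(g, 1)` -/
def g1kG1 : G1Cd := ((1, 0, 0), (0, 0, 0), 0)

/-- `(z, 1)` -/
def g1kZ1 : G1Cd := ((0, 0, 1), (0, 0, 0), 0)

/-- `(1, g)` -/
def g1kG2 : G1Cd := ((0, 0, 0), (1, 0, 0), 0)

/-- `(1, z)` -/
def g1kZ2 : G1Cd := ((0, 0, 0), (0, 0, 1), 0)

/-- `(s, s)` -/
def g1kR : G1Cd := ((0, 1, 0), (0, 1, 0), 0)

/-- the generator which interchanges the two blocks -/
def g1kT (b : ZMod 2) : G1Cd := ((0, b, 0), (0, 0, 0), 1)

/-- the words -/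
theorem g1_word : ∀ (b : ZMod 2) (c : G1Cd), g1K b c → ∀ x, g1A c x =
    (g1A g1kG1)^[c.1.1.val] ((g1A g1kZ1)^[(c.1.2.2 + c.1.1 * c.1.2.1).val]
      ((g1A g1kG2)^[c.2.1.1.val] ((g1A g1kZ2)^[(c.2.1.2.2 + c.2.1.1 * c.2.1.2.1).val]
        ((g1A g1kR)^[c.2.1.2.1.val] ((g1A (g1kT b))^[c.2.2.val] x))))) := by
  decide +kernel

theorem g1_pow (c : G1Cd) (n : ℕ) (x : Fin 8) : (g1pr (g1dec c) ^ n) x = (g1A c)^[n] x := by
  have h : ⇑(g1pr (g1dec c)) = g1A c := by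
    funext y
    rw [g1_pr_A, g1_cod_dec]
  rw [← h, Equiv.Perm.iterate_eq_pow]

theorem g1_mem (b : ZMod 2) (K : Subgroup (Equiv.Perm (Fin 8))) (h1 : g1pr (g1dec g1kG1) ∈ K)
    (h2 : g1pr (g1dec g1kR) ∈ K) (h3 : g1pr (g1dec (g1kT b)) ∈ K) (w : W) (hw : w ∈ W.Gb b) :
    g1pr w ∈ K := by
  have hz1 : g1pr (g1dec g1kZ1) = (g1pr (g1dec g1kR) * g1pr (g1dec g1kG1)) * (g1pr (g1dec g1kR) *
      g1pr (g1dec g1kG1)) := by
    refine Equiv.ext fun x => ?_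
    show g1A g1kZ1 x = g1A g1kR (g1A g1kG1 (g1A g1kR (g1A g1kG1 x)))
    revert x
    decide +kernel
  have hg2 : g1pr (g1dec g1kG2) * g1pr (g1dec (g1kT b)) = g1pr (g1dec (g1kT b)) * g1pr (g1dec g1kG1) := by
    refine Equiv.ext fun x => ?_
    have h : ∀ (b : ZMod 2) (x : Fin 8), g1A g1kG2 (g1A (g1kT b) x) = g1A (g1kT b) (g1A g1kG1 x) := by
      decide +kernel
    exact h b x
  have hz2 : g1pr (g1dec g1kZ2) * g1pr (g1dec (g1kT b)) = g1pr (g1dec (g1kT b)) * g1pr (g1dec g1kZ1) := by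
    refine Equiv.ext fun x => ?_
    have h : ∀ (b : ZMod 2) (x : Fin 8), g1A g1kZ2 (g1A (g1kT b) x) = g1A (g1kT b) (g1A g1kZ1 x) := by
      decide +kernel
    exact h b x
  have mz1 : g1pr (g1dec g1kZ1) ∈ K := by
    rw [hz1]
    exact K.mul_mem (K.mul_mem h2 h1) (K.mul_mem h2 h1)
  have mg2 : g1pr (g1dec g1kG2) ∈ K := by
    rw [eq_mul_inv_of_mul_eq hg2]
    exact K.mul_mem (K.mul_mem h3 h1) (K.inv_mem h3)
  have mz2 : g1pr (g1dec g1kZ2) ∈ K := by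
    rw [eq_mul_inv_of_mul_eq hz2]
    exact K.mul_mem (K.mul_mem h3 mz1) (K.inv_mem h3)
  have h4 : g1pr w = g1pr (g1dec g1kG1) ^ (g1cod w).1.1.val *
      (g1pr (g1dec g1kZ1) ^ ((g1cod w).1.2.2 + (g1cod w).1.1 * (g1cod w).1.2.1).val *
      (g1pr (g1dec g1kG2) ^ (g1cod w).2.1.1.val *
      (g1pr (g1dec g1kZ2) ^ ((g1cod w).2.1.2.2 + (g1cod w).2.1.1 * (g1cod w).2.1.2.1).val *
      (g1pr (g1dec g1kR) ^ (g1cod w).2.1.2.1.val * g1pr (g1dec (g1kT b)) ^ (g1cod w).2.2.val)))) := by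
    refine Equiv.ext fun x => ?_
    simp only [Equiv.Perm.mul_apply, g1_pow]
    rw [g1_pr_A]
    exact g1_word b (g1cod w) hw x
  rw [h4]
  exact K.mul_mem (K.pow_mem h1 _) (K.mul_mem (K.pow_mem mz1 _) (K.mul_mem (K.pow_mem mg2 _)
    (K.mul_mem (K.pow_mem mz2 _) (K.mul_mem (K.pow_mem h2 _) (K.pow_mem h3 _)))))

theorem g1_eG : g1pr (g1dec g1kG1) = Equiv.swap 0 1 * Equiv.swap 2 3 := by
  refine Equiv.ext fun x => ?_
  show g1A g1kG1 x = _
  revert x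
  decide +kernel

theorem g1_eR : g1pr (g1dec g1kR) = Equiv.swap 1 3 * Equiv.swap 5 7 := by
  refine Equiv.ext fun x => ?_
  show g1A g1kR x = _
  revert x
  decide +kernel

theorem g1_eT0 : g1pr (g1dec (g1kT 0)) =
    Equiv.swap 0 4 * Equiv.swap 1 5 * Equiv.swap 2 6 * Equiv.swap 3 7 := by
  refine Equiv.ext fun x => ?_
  show g1A (g1kT 0) x = _
  revert x
  decide +kernel

theorem g1_eT1 : g1pr (g1dec (g1kT 1)) = Equiv.swap 1 3 *
    (Equiv.swap 0 4 * Equiv.swap 1 5 * Equiv.swap 2 6 * Equiv.swap 3 7) := by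
  refine Equiv.ext fun x => ?_
  show g1A (g1kT 1) x = _
  revert x
  decide +kernel

theorem g1_RT : g1pr (g1dec g1kR) = g1pr (g1dec (g1kT 1)) * g1pr (g1dec (g1kT 1)) := by
  refine Equiv.ext fun x => ?_
  show g1A g1kR x = g1A (g1kT 1) (g1A (g1kT 1) x)
  revert x
  decide +kernel

theorem g1_kG (b : ZMod 2) : g1dec g1kG1 ∈ W.Gb b := by
  rw [g1_mem_Gb, g1_cod_dec]
  revert b
  decide

theorem g1_kR (b : ZMod 2) : g1dec g1kR ∈ W.Gb b := by
  rw [g1_mem_Gb, g1_cod_dec]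
  revert b
  decide

theorem g1_kT (b : ZMod 2) : g1dec (g1kT b) ∈ W.Gb b := by
  rw [g1_mem_Gb, g1_cod_dec]
  revert b
  decide

theorem g1_T29 : (W.Gb 0).map g1pr = T29 := by
  apply le_antisymm
  · rintro _ ⟨w, hw, rfl⟩
    refine g1_mem 0 T29 ?_ ?_ ?_ w hw
    · rw [g1_eG]
      exact Subgroup.subset_closure (by simp)
    · rw [g1_eR]
      exact Subgroup.subset_closure (by simp)
    · rw [g1_eT0]
      exact Subgroup.subset_closure (by simp)
  · unfold T29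
    rw [Subgroup.closure_le]
    rintro x (rfl | rfl | rfl)
    · rw [← g1_eT0]
      exact ⟨_, g1_kT 0, rfl⟩
    · rw [← g1_eG]
      exact ⟨_, g1_kG 0, rfl⟩
    · rw [← g1_eR]
      exact ⟨_, g1_kR 0, rfl⟩

theorem g1_T28 : (W.Gb 1).map g1pr = T28 := by
  apply le_antisymm
  · rintro _ ⟨w, hw, rfl⟩
    have hT : g1pr (g1dec (g1kT 1)) ∈ T28 := by
      rw [g1_eT1]
      exact Subgroup.subset_closure (by simp)
    refine g1_mem 1 T28 ?_ ?_ hT w hw
    · rw [g1_eG]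
      exact Subgroup.subset_closure (by simp)
    · rw [g1_RT]
      exact T28.mul_mem hT hT
  · unfold T28
    rw [Subgroup.closure_le]
    rintro x (rfl | rfl)
    · rw [← g1_eT1]
      exact ⟨_, g1_kT 1, rfl⟩
    · rw [← g1_eG]
      exact ⟨_, g1_kG 1, rfl⟩

theorem g1_trans0 : ∀ (b : ZMod 2) (x y : Fin 8), ∃ c : G1Cd, g1K b c ∧ g1A c x = y := by
  decide +kernel

theorem g1_trans (b : ZMod 2) : MulAction.IsPretransitive ((W.Gb b).map g1pr) (Fin 8) := by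
  constructor
  intro x y
  obtain ⟨c, hc, hx⟩ := g1_trans0 b x y
  exact ⟨⟨g1pr (g1dec c), g1dec c, hc, rfl⟩, hx⟩

/-- G1: the representation of degree 8 -/
theorem stPr : StPr := by
  refine ⟨g1pr, g1pr_inj, g1_T29, g1_T28, g1pr_zero, ?_, ?_⟩
  · rw [← g1_T28]
    exact g1_trans 1
  · rw [← g1_T29]
    exact g1_trans 0

end Pool.Agent.H32.MQ.G
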