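import Pool.Agent.H32.MQ.G1

/-!
# Malle's conjecture for 8T28 and 8T29 over number fields, row G2: the invariants a and b
-/

set_option autoImplicit false

open scoped BigOperators

namespace Pool.Agent.H32.MQ.G

open Pool.Agent.H98.MF
open Pool.Agent.H98.ML (Dt Ext)
open Pool.Agent.H32.MA (mInd bM pind MinCl cycRel)
open Pool.Agent.H32.MZ (NK MalleK T28 T29)

/-! ### the index -/

/-- the number of orbits -/
def g2c (c : G1Cd) : ℕ :=
  (Finset.univ.filter (fun x : Fin 8 => ∀ k : Fin 8, x ≤ (g1A c)^[(k : ℕ)] x)).card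

theorem g2_p8 : ∀ (c : G1Cd) (x : Fin 8), (g1A c)^[8] x = x := by decide +kernel

theorem g2_pow8 (w : W) : g1pr w ^ 8 = 1 := by
  refine Equiv.ext fun x => ?_
  have h : ⇑(g1pr w) = g1A (g1cod w) := by
    funext y
    rw [g1_pr_A]
  rw [← Equiv.Perm.iterate_eq_pow, h]
  exact g2_p8 _ x

theorem g2_it (w : W) (n : ℕ) (x : Fin 8) : (g1pr w ^ n) x = (g1A (g1cod w))^[n] x := by
  have h : ⇑(g1pr w) = g1A (g1cod w) := by
    funext y
    rw [g1_pr_A]
  rw [← h, Equiv.Perm.iterate_eq_pow]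

theorem g2_rel (w : W) (x y : Fin 8) :
    (MulAction.orbitRel (Subgroup.zpowers (g1pr w)) (Fin 8)) x y ↔
      ∃ k : Fin 8, (g1A (g1cod w))^[(k : ℕ)] y = x := by
  rw [MulAction.orbitRel_apply]
  constructor
  · rintro ⟨⟨h, hh⟩, h2⟩
    obtain ⟨k, hk⟩ := Subgroup.mem_zpowers_iff.mp hh
    have h3 : g1pr w ^ k = g1pr w ^ (k % 8).toNat := by
      have h4 : ((k % 8).toNat : ℤ) = k % 8 := Int.toNat_of_nonneg (Int.emod_nonneg _ (by norm_num))
      rw [← zpow_natCast, h4]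
      have h5 : k = 8 * (k / 8) + k % 8 := (Int.mul_ediv_add_emod k 8).symm
      have h6 : (g1pr w ^ (8 : ℤ)) = 1 := by exact_mod_cast g2_pow8 w
      calc g1pr w ^ k = g1pr w ^ (8 * (k / 8) + k % 8) := by rw [← h5]
        _ = g1pr w ^ (k % 8) := by rw [zpow_add, zpow_mul, h6, one_zpow, one_mul]
    have h7 : (k % 8).toNat < 8 := by
      have := Int.emod_lt_of_pos k (show (0 : ℤ) < 8 by norm_num)
      omega
    refine ⟨⟨(k % 8).toNat, h7⟩, ?_⟩
    have h8 : h y = x := h2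
    rw [← h8, ← hk, h3, g2_it]
  · rintro ⟨k, hk⟩
    refine ⟨⟨g1pr w ^ (k : ℕ), Subgroup.npow_mem_zpowers _ _⟩, ?_⟩
    show (g1pr w ^ (k : ℕ)) y = x
    rw [g2_it, hk]

theorem g2_pind (w : W) : pind (g1pr w) = 8 - g2c (g1cod w) := by
  unfold pind g2c
  congr 1
  rw [← Fintype.card_subtype, ← Nat.card_eq_fintype_card]
  symm
  refine Nat.card_congr (Equiv.ofBijective (fun x => (Quotient.mk _ x.1 :
    MulAction.orbitRel.Quotient (Subgroup.zpowers (g1pr w)) (Fin 8))) ⟨?_, ?_⟩)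
  · rintro ⟨x, hx⟩ ⟨y, hy⟩ h
    apply Subtype.ext
    have h1 := Quotient.exact h
    obtain ⟨k, hk⟩ := (g2_rel w x y).mp h1
    obtain ⟨l, hl⟩ := (g2_rel w y x).mp
      ((MulAction.orbitRel (Subgroup.zpowers (g1pr w)) (Fin 8)).iseqv.symm h1)
    exact le_antisymm ((hx l).trans_eq hl) ((hy k).trans_eq hk)
  · intro q
    induction q using Quotient.inductionOn with
    | h x =>
      obtain ⟨k, -, hk⟩ := Finset.exists_min_image (Finset.univ : Finset (Fin 8))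
        (fun k : Fin 8 => (g1A (g1cod w))^[(k : ℕ)] x) ⟨0, Finset.mem_univ _⟩
      have h1 : (MulAction.orbitRel (Subgroup.zpowers (g1pr w)) (Fin 8))
        ((g1A (g1cod w))^[(k : ℕ)] x) x := (g2_rel w _ _).mpr ⟨k, rfl⟩
      refine ⟨⟨(g1A (g1cod w))^[(k : ℕ)] x, fun j => ?_⟩, Quotient.sound h1⟩
      have h2 : (MulAction.orbitRel (Subgroup.zpowers (g1pr w)) (Fin 8))
        ((g1A (g1cod w))^[(j : ℕ)] ((g1A (g1cod w))^[(k : ℕ)] x)) ((g1A (g1cod w))^[(k : ℕ)] x) :=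
        (g2_rel w _ _).mpr ⟨j, rfl⟩
      obtain ⟨l, hl⟩ := (g2_rel w _ _).mp
        ((MulAction.orbitRel (Subgroup.zpowers (g1pr w)) (Fin 8)).iseqv.trans h2 h1)
      exact (hk l (Finset.mem_univ _)).trans_eq hl

/-! ### the finite checks -/

/-- the representatives of the classes of index two -/
def g2r (i : Fin 3) : G1Cd := if i = 0 then g1kZ1 else if i = 1 then g1kG1 else g1kR

theorem g2_ge0 : ∀ c : G1Cd, g1K 0 c → c = ((0, 0, 0), (0, 0, 0), 0) ∨ 2 ≤ 8 - g2c c := by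
  decide +kernel

theorem g2_ge1 : ∀ c : G1Cd, g1K 1 c → c = ((0, 0, 0), (0, 0, 0), 0) ∨ 2 ≤ 8 - g2c c := by
  decide +kernel

theorem g2_ge (b : ZMod 2) : ∀ c : G1Cd, g1K b c → c = ((0, 0, 0), (0, 0, 0), 0) ∨
    2 ≤ 8 - g2c c := by
  rcases z2_or b with rfl | rfl
  · exact g2_ge0
  · exact g2_ge1

theorem g2_rK : ∀ (b : ZMod 2) (i : Fin 3), g1K b (g2r i) := by decide +kernel

theorem g2_ri : ∀ i : Fin 3, 8 - g2c (g2r i) = 2 := by decide +kernel

theorem g2_rne : ∀ i : Fin 3, g2r i ≠ ((0, 0, 0), (0, 0, 0), 0) := by decide +kernel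

/-- the classes -/
theorem g2_cls : ∀ (b : ZMod 2) (c : G1Cd), g1K b c → 8 - g2c c = 2 →
    ∃ (i : Fin 3) (u : G1Cd), g1K b u ∧ ∀ x, g1A u (g1A (g2r i) x) = g1A c (g1A u x) := by
  decide +kernel

theorem g2_inv : ∀ (b : ZMod 2) (c : G1Cd), g1K b c → 8 - g2c c = 2 → ∀ x, g1A c (g1A c x) = x := by
  decide +kernel

theorem g2_sep : ∀ (b : ZMod 2) (u : G1Cd), g1K b u → ∀ i j : Fin 3,
    (∀ x, g1A u (g1A (g2r i) x) = g1A (g2r j) (g1A u x)) → i = j := by
  decide +kernel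

/-! ### the invariants -/

section

variable (b : ZMod 2)

/-- the permutation group -/
abbrev g2G : Subgroup (Equiv.Perm (Fin 8)) := (W.Gb b).map g1pr

theorem g2_mem {c : G1Cd} (hc : g1K b c) : g1pr (g1dec c) ∈ g2G b := ⟨g1dec c, hc, rfl⟩

theorem g2_ne1 (i : Fin 3) : g1pr (g1dec (g2r i)) ≠ 1 := by
  intro h
  have h1 : g1dec (g2r i) = 1 := g1pr_inj (h.trans (map_one g1pr).symm)
  have h2 : g1cod (g1dec (g2r i)) = ((0, 0, 0), (0, 0, 0), 0) := by
    rw [h1]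
    rfl
  exact g2_rne i h2

theorem g2_mInd : mInd (g2G b) = 2 := by
  unfold mInd
  have h1 : 2 ∈ {j | ∃ g ∈ g2G b, g ≠ 1 ∧ pind g = j} := by
    refine ⟨g1pr (g1dec (g2r 0)), g2_mem b (g2_rK b 0), g2_ne1 0, ?_⟩
    rw [g2_pind, g1_cod_dec, g2_ri]
  refine le_antisymm (Nat.sInf_le h1) ?_
  refine le_csInf ⟨2, h1⟩ ?_
  rintro j ⟨g, ⟨w, hw, rfl⟩, hg1, rfl⟩
  rw [g2_pind]
  refine (g2_ge b (g1cod w) hw).resolve_left fun h => ?_
  have h2 : w = 1 := g1_cod_inj h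
  rw [h2, map_one] at hg1
  exact hg1 rfl

/-- the representatives as elements -/
def g2e (i : Fin 3) : g2G b := ⟨g1pr (g1dec (g2r i)), g2_mem b (g2_rK b i)⟩

theorem g2_e_ok (i : Fin 3) : g2e b i ≠ 1 ∧
    pind ((g2e b i : g2G b) : Equiv.Perm (Fin 8)) = mInd (g2G b) := by
  refine ⟨fun h => g2_ne1 i (congrArg Subtype.val h), ?_⟩
  show pind (g1pr (g1dec (g2r i))) = mInd (g2G b)
  rw [g2_mInd, g2_pind, g1_cod_dec, g2_ri]

/-- the classes of least index -/
def g2f (i : Fin 3) : MinCl (g2G b) :=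
  ⟨ConjClasses.mk (g2e b i), g2e b i, rfl, (g2_e_ok b i).1, (g2_e_ok b i).2⟩

theorem g2_code (w : W) (x : Fin 8) : g1pr w x = g1A (g1cod w) x := rfl

theorem g2_f_inj : Function.Injective (g2f b) := by
  intro i j h
  have h1 : ConjClasses.mk (g2e b i) = ConjClasses.mk (g2e b j) := congrArg Subtype.val h
  rw [ConjClasses.mk_eq_mk_iff_isConj, isConj_iff] at h1
  obtain ⟨⟨_, w, hw, rfl⟩, h2⟩ := h1
  have h3 : g1pr w * g1pr (g1dec (g2r i)) = g1pr (g1dec (g2r j)) * g1pr w := by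
    have h4 := congrArg Subtype.val h2
    have h5 : g1pr w * g1pr (g1dec (g2r i)) * (g1pr w)⁻¹ = g1pr (g1dec (g2r j)) := h4
    rw [← h5, inv_mul_cancel_right]
  refine g2_sep b (g1cod w) hw i j fun x => ?_
  exact congrArg (fun σ : Equiv.Perm (Fin 8) => σ x) h3

theorem g2_f_surj : Function.Surjective (g2f b) := by
  rintro ⟨c, g, rfl, h1, h2⟩
  obtain ⟨⟨_, w, hw, rfl⟩⟩ : Nonempty (g2G b) := ⟨g⟩
  clear hw
  obtain ⟨g, hg⟩ := g
  obtain ⟨v, hv, rfl⟩ := hg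
  have h3 : 8 - g2c (g1cod v) = 2 := by
    rw [← g2_pind, ← g2_mInd b]
    exact h2
  obtain ⟨i, u, hu, hx⟩ := g2_cls b (g1cod v) hv h3
  refine ⟨i, Subtype.ext ?_⟩
  show ConjClasses.mk (g2e b i) = ConjClasses.mk _
  rw [ConjClasses.mk_eq_mk_iff_isConj, isConj_iff]
  refine ⟨⟨g1pr (g1dec u), g2_mem b hu⟩, Subtype.ext ?_⟩
  show g1pr (g1dec u) * g1pr (g1dec (g2r i)) * (g1pr (g1dec u))⁻¹ = g1pr v
  rw [mul_inv_eq_iff_eq_mul]
  refine Equiv.ext fun x => ?_
  exact hx x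

theorem g2_cardMin : Nat.card (MinCl (g2G b)) = 3 := by
  rw [← Nat.card_congr (Equiv.ofBijective (g2f b) ⟨g2_f_inj b, g2_f_surj b⟩)]
  exact Nat.card_fin 3

theorem g2_even : 2 ∣ Nat.card (g2G b) := by
  have h1 : orderOf (g2e b 0) = 2 := by
    refine orderOf_eq_prime ?_ (g2_e_ok b 0).1
    apply Subtype.ext
    rw [pow_two]
    show g1pr (g1dec (g2r 0)) * g1pr (g1dec (g2r 0)) = 1
    refine Equiv.ext fun x => ?_
    exact g2_inv b (g2r 0) (g2_rK b 0) (g2_ri 0) x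
  rw [← h1]
  exact orderOf_dvd_natCard _

theorem g2_bM (k : Type) [Field k] [NumberField k] : bM k (g2G b) = 3 := by
  have hcz : CharZero (AlgebraicClosure k) := charZero_of_injective_algebraMap
    (algebraMap k (AlgebraicClosure k)).injective
  have hrel : ∀ c c' : MinCl (g2G b), cycRel k (g2G b) c c' → c = c' := by
    rintro c c' ⟨σ, j, hσ, g, hg, hg'⟩
    have hodd : ¬ 2 ∣ j := by
      intro hj
      have h1 : (-1 : AlgebraicClosure k) ^ Nat.card (g2G b) = 1 := by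
        obtain ⟨m, hm⟩ := g2_even b
        rw [hm, pow_mul, neg_one_sq, one_pow]
      have h2 := hσ (-1) h1
      obtain ⟨m, hm⟩ := hj
      rw [map_neg, map_one, hm, pow_mul, neg_one_sq, one_pow] at h2
      have h3 : (2 : AlgebraicClosure k) = 0 := by linear_combination -h2
      exact two_ne_zero h3
    have hgg : g * g = 1 := by
      obtain ⟨i, hi⟩ := g2_f_surj b c
      have h1 : ConjClasses.mk (g2e b i) = ConjClasses.mk g := by
        rw [hg, ← hi]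
        rfl
      rw [ConjClasses.mk_eq_mk_iff_isConj, isConj_iff] at h1
      obtain ⟨u, hu⟩ := h1
      have h2 : g2e b i * g2e b i = 1 := by
        apply Subtype.ext
        show g1pr (g1dec (g2r i)) * g1pr (g1dec (g2r i)) = 1
        refine Equiv.ext fun x => ?_
        exact g2_inv b (g2r i) (g2_rK b i) (g2_ri i) x
      rw [← hu]
      calc u * g2e b i * u⁻¹ * (u * g2e b i * u⁻¹) = u * (g2e b i * g2e b i) * u⁻¹ := by group
        _ = 1 := by rw [h2, mul_one, mul_inv_cancel]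
    have hj : g ^ j = g := by
      obtain ⟨m, hm⟩ : ∃ m, j = 2 * m + 1 := by
        refine ⟨j / 2, ?_⟩
        omega
      rw [hm, pow_add, pow_mul, pow_two, hgg, one_pow, one_mul, pow_one]
    apply Subtype.ext
    rw [← hg, ← hg', hj]
  have hbij : Function.Bijective (Quot.mk (cycRel k (g2G b))) := by
    refine ⟨fun c c' h => ?_, fun q => Quot.exists_rep q⟩
    exact congrArg (Quot.lift (fun c : MinCl (g2G b) => c) hrel) h
  unfold bM
  rw [← Nat.card_congr (Equiv.ofBijective _ hbij)]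
  exact g2_cardMin b

end

/-- G2: the invariants -/
theorem stInvG : StInvG := by
  refine ⟨?_, ?_, fun k _ _ => ⟨?_, ?_⟩⟩
  · rw [← g1_T28]
    exact g2_mInd 1
  · rw [← g1_T29]
    exact g2_mInd 0
  · rw [← g1_T28]
    exact g2_bM 1 k
  · rw [← g1_T29]
    exact g2_bM 0 k

end Pool.Agent.H32.MQ.G
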