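import Pool.Agent.H32.MQ.GStm

/-!
# Malle's conjecture for 8T28 and 8T29 over number fields, G4: the count of fields for the two groups
-/

set_option autoImplicit false

open scoped BigOperators
open NumberField IsDedekindDomain Filter

namespace Pool.Agent.H32.MQ.G

open Pool.Agent.H98.MF
open Pool.Agent.H98.ML (Dt Ext)
open Pool.Agent.H32.MA (mInd bM)
open Pool.Agent.H32.MZ (NK MalleK T28 T29)

theorem g4_tr (h28 : MulAction.IsPretransitive T28 (Fin 8))
    (h29 : MulAction.IsPretransitive T29 (Fin 8)) (b : ZMod 2) :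
    MulAction.IsPretransitive (Tb b) (Fin 8) := by
  rcases z2_or b with rfl | rfl
  · rw [show Tb 0 = T29 from if_pos rfl]
    exact h29
  · rw [show Tb 1 = T28 from if_neg one_ne_zero]
    exact h28

theorem g4_map (pr : W →* Equiv.Perm (Fin 8)) (h0 : (W.Gb 0).map pr = T29)
    (h1 : (W.Gb 1).map pr = T28) (b : ZMod 2) : (W.Gb b).map pr = Tb b := by
  rcases z2_or b with rfl | rfl
  · rw [h0, Tb, if_pos rfl]
  · rw [h1, Tb, if_neg one_ne_zero]

theorem g4_card (pr : W →* Equiv.Perm (Fin 8)) (hs : ∀ w, pr w 0 = 0 ↔ w ∈ W.H1) (b : ZMod 2)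
    (k : Type) [Field k] [NumberField k] (X : ℝ) :
    ({ρ : Gm k →* W.Gb b | Function.Surjective ρ ∧ IsLocallyConstant ρ ∧
      (rdN (fld k (((MulAction.stabilizer (Equiv.Perm (Fin 8)) (0 : Fin 8)).comap
        (pr.comp (W.Gb b).subtype)).comap ρ)) : ℝ) ≤ X}.ncard) = (CntG k b X).ncard := by
  have hinj : Function.Injective (fun ρ : Gm k →* W.Gb b => (W.Gb b).subtype.comp ρ) := by
    intro ρ ρ' h
    refine MonoidHom.ext fun σ => Subtype.ext ?_
    exact DFunLike.congr_fun h σ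
  have hst : ∀ ρ : Gm k →* W.Gb b,
      (((MulAction.stabilizer (Equiv.Perm (Fin 8)) (0 : Fin 8)).comap
        (pr.comp (W.Gb b).subtype)).comap ρ) = W.H1.comap ((W.Gb b).subtype.comp ρ) := by
    intro ρ
    ext σ
    exact hs (ρ σ : W)
  rw [← Set.ncard_image_of_injective _ hinj]
  congr 1
  ext ρ'
  constructor
  · rintro ⟨ρ, ⟨h1, h2, h3⟩, rfl⟩
    refine ⟨⟨?_, ?_⟩, ?_⟩
    · exact h2.comp (Subtype.val)
    · show ((W.Gb b).subtype.comp ρ).range = W.Gb b
      rw [MonoidHom.range_comp, MonoidHom.range_eq_top.mpr h1, ← MonoidHom.range_eq_map,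
        Subgroup.range_subtype]
    · rw [hst ρ] at h3
      exact h3
  · rintro ⟨⟨h2, h1⟩, h3⟩
    have hm : ∀ σ, ρ' σ ∈ W.Gb b := fun σ => by
      rw [← h1]
      exact ⟨σ, rfl⟩
    refine ⟨ρ'.codRestrict (W.Gb b) hm, ⟨?_, ?_, ?_⟩, ?_⟩
    · rintro ⟨w, hw⟩
      rw [← h1] at hw
      obtain ⟨σ, hσ⟩ := hw
      exact ⟨σ, Subtype.ext hσ⟩
    · exact IsLocallyConstant.desc (ρ'.codRestrict (W.Gb b) hm) Subtype.val h2
        Subtype.val_injective
    · rw [hst]
      exact h3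
    · ext σ : 1
      rfl

/-- G4 -/
theorem stNKG (h1 : StPr) (h3 : StNK) : StNKG := by
  obtain ⟨pr, hinj, hm0, hm1, hs, h28, h29⟩ := h1
  intro b
  have hr : (pr.comp (W.Gb b).subtype).range = Tb b := by
    rw [MonoidHom.range_comp, Subgroup.range_subtype]
    exact g4_map pr hm0 hm1 b
  obtain ⟨κ, hκ, h⟩ := h3 8 (Tb b) (g4_tr h28 h29 b) 0 (W.Gb b) (pr.comp (W.Gb b).subtype)
    (hinj.comp Subtype.val_injective) hr
  refine ⟨κ, hκ, ?_⟩
  intro k _ _ X
  rw [h k X, g4_card pr hs b k X]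

end Pool.Agent.H32.MQ.G
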