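import Pool.Agent.H32.MQ.GStm
import Pool.Agent.H32.MQ.HMain
import Pool.Agent.H98.MF.ParK
import Pool.Agent.H98.MF.ChiM

/-!
# Malle's conjecture for 8T28 and 8T29 over number fields, row G5: the character of the quadratic
subfield
-/

set_option autoImplicit false

open scoped BigOperators
open NumberField IsDedekindDomain Filter

namespace Pool.Agent.H32.MQ.G

open Pool.Agent.H98.MF
open Pool.Agent.H98.ML (Dt Ext)

section

variable {k : Type} [Field k] [NumberField k]

/-- characters of elements that differ by a square -/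
theorem g5_chi {x y : kˣ} (h : IsSquare (x * y)) (σ : Gm k) :
    chi (x : k) σ = chi (y : k) σ := by
  obtain ⟨w, hw⟩ := h
  have h1 := Pool.Agent.H98.MF.M6a.chi_mul x y σ
  rw [hw, Pool.Agent.H98.MF.M6a.chi_mul] at h1
  rw [CharTwo.add_self_eq_zero] at h1
  have h2 : chi (x : k) σ + chi (y : k) σ = 0 := h1.symm
  calc chi (x : k) σ = chi (x : k) σ + chi (y : k) σ + chi (y : k) σ := by
        rw [add_assoc, CharTwo.add_self_eq_zero, add_zero]
    _ = chi (y : k) σ := by rw [h2, zero_add]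

theorem g5_rep (Fr : Frm k) : rep Fr ((0, ∅) : El Fr.sys) = 1 := by
  unfold rep
  simp

/-- an element of the group with a given value of `c1` -/
theorem g5_el (b : ZMod 2) : ∃ w ∈ W.Gb b, w.e = 1 := by
  have h0 : ∃ g : Ext D4, c1 g = b := by
    refine ⟨⟨(fun _ => b : Fin 2 → ZMod 2), (0 : Fin 1 → ZMod 2)⟩, rfl⟩
  obtain ⟨g, hg⟩ := h0
  refine ⟨⟨g, 1, 1⟩, ?_, rfl⟩
  show c1 g + c1 (1 : Ext D4) = b * 1
  have h2 : c1 (1 : Ext D4) = 0 := rfl
  rw [hg, h2, add_zero, mul_one]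

end

theorem stCls {k : Type} [Field k] [NumberField k] (Fr : Frm k) : StCls Fr := by
  refine ⟨fun b ρ hρ => ?_, fun c c' h => ?_, fun c hc h => ?_⟩
  · obtain ⟨a, ha⟩ := ParK.exists_chi1 (fun σ => (ρ σ).e) (hρ.1.comp W.e) (fun σ τ => by
      show (ρ (σ * τ)).e = _
      rw [map_mul]
      rfl)
    have h1 : ∀ σ, (ρ σ).e = chi (rep Fr (co Fr a) : k) σ := fun σ => by
      have h2 : (ρ σ).e = chi (a : k) σ := ha σ
      rw [h2]
      exact g5_chi (h_co Fr a) σ
    refine ⟨co Fr a, fun h0 => ?_, h1⟩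
    obtain ⟨w, hw, hw1⟩ := g5_el b
    rw [← hρ.2] at hw
    obtain ⟨σ, rfl⟩ := hw
    rw [h1 σ, h0, g5_rep, Pool.Agent.H98.MF.M6a.chi_one] at hw1
    exact absurd hw1 (by decide)
  · apply h_coU Fr
    apply ParK.isSquare_of_chu
    intro σ
    rw [Pool.Agent.H98.MF.M6a.chi_mul, h σ, CharTwo.add_self_eq_zero]
  · apply hc
    apply h_coU Fr
    rw [g5_rep, mul_one]
    exact h

end Pool.Agent.H32.MQ.G
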