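import Pool.Agent.H32.MQ.GStm

/-!
# MQ-G6: assembly of the structure `Rs`
-/

set_option autoImplicit false

open NumberField IsDedekindDomain

namespace Pool.Agent.H32.MQ.G

open Pool.Agent.H98.MF

variable {k : Type} [Field k] [NumberField k]

theorem stRs (h0 : StRs0 k) (hG : StRsG k) (hC : StRsC k) (hD : StRsD k) : StRs k := by
  intro a ha sg hsg
  obtain ⟨R⟩ := h0 a
  obtain ⟨h1, h2, h3, h4⟩ := hG a R
  obtain ⟨c1, c2, c3⟩ := hC a ha R sg hsg
  exact ⟨{ ι := R.ι, inj := h1, mem := h2, cont := h3, op := h4, chk := c1, cj := c2, nm := c3,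
           rd := hD a R }⟩

end Pool.Agent.H32.MQ.G
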