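import Pool.Agent.H32.MQ.GStm

/-!
# Malle's conjecture for 8T28 and 8T29 over number fields, G6a: the quadratic extension
-/

set_option autoImplicit false

open scoped BigOperators Polynomial
open NumberField IsDedekindDomain

namespace Pool.Agent.H32.MQ.G

open Pool.Agent.H98.MF

variable {k : Type} [Field k] [NumberField k]

theorem stQE : StQE (k := k) := by
  intro a ha
  have hirr : Irreducible (Polynomial.X ^ 2 - Polynomial.C (a : k) : k[X]) := by
    rw [X_pow_sub_C_irreducible_iff_of_prime Nat.prime_two]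
    intro b hb
    have hb0 : b ≠ 0 := by
      rintro rfl
      rw [zero_pow two_ne_zero] at hb
      exact a.ne_zero hb.symm
    apply ha
    refine ⟨Units.mk0 b hb0, ?_⟩
    apply Units.ext
    rw [Units.val_mul, Units.val_mk0, ← hb, pow_two]
  have hmin : minpoly k (sq (a : k)) = Polynomial.X ^ 2 - Polynomial.C (a : k) := by
    symm
    apply minpoly.eq_of_irreducible_of_monic hirr
    · rw [map_sub, map_pow, Polynomial.aeval_X, Polynomial.aeval_C, sq_sq, sub_self]
    · exact Polynomial.monic_X_pow_sub_C _ two_ne_zero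
  refine ⟨?_, ?_, ha⟩
  · show Module.finrank k (IntermediateField.adjoin k {sq (a : k)}) = 2
    rw [IntermediateField.adjoin.finrank (Algebra.IsIntegral.isIntegral _), hmin,
      Polynomial.natDegree_X_pow_sub_C]
  · apply Subtype.ext
    show (Pool.Agent.H98.MF.sq (a : k)) ^ 2 = ((algebraMap k (FQ a) (a : k) : FQ a) : Om k)
    rw [sq_sq]
    rfl

theorem stRs0 : StRs0 k := by
  intro a
  have h1 : Algebra.IsAlgebraic (FQ a) (Om k) := Algebra.IsAlgebraic.tower_top (K := k) (FQ a)
  have h2 : IsAlgClosure (FQ a) (Om k) := ⟨inferInstance, h1⟩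
  let Φ : Om (FQ a) ≃ₐ[FQ a] Om k := IsAlgClosure.equiv (FQ a) (Om (FQ a)) (Om k)
  have hc : ∀ (u : Gm (FQ a)) (c : k),
      Φ (u (Φ.symm (algebraMap k (Om k) c))) = algebraMap k (Om k) c := by
    intro u c
    have e1 : algebraMap k (Om k) c = algebraMap (FQ a) (Om k) (algebraMap k (FQ a) c) := rfl
    rw [e1, Φ.symm.commutes, u.commutes, Φ.commutes]
  refine ⟨⟨Φ.toRingEquiv, fun x => ?_,
    { toFun := fun u => AlgEquiv.ofRingEquiv
        (f := ((Φ.symm.toRingEquiv.trans u.toRingEquiv).trans Φ.toRingEquiv)) (fun c => hc u c)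
      map_one' := ?_
      map_mul' := ?_ }, fun u z => ?_⟩⟩
  · exact Φ.commutes x
  · refine AlgEquiv.ext fun x => ?_
    exact Φ.apply_symm_apply x
  · intro u v
    refine AlgEquiv.ext fun x => ?_
    show Φ ((u * v) (Φ.symm x)) = Φ (u (Φ.symm (Φ (v (Φ.symm x)))))
    rw [Φ.symm_apply_apply]
    rfl
  · show Φ (u (Φ.symm (Φ z))) = Φ (u z)
    rw [Φ.symm_apply_apply]

end Pool.Agent.H32.MQ.G
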