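import Pool.Agent.H32.MQ.GStm
import Pool.Agent.H98.MF.L.ChiB

/-!
# Malle's conjecture for 8T28 and 8T29 over number fields, block G, file G6c: the embedding of the
Galois group of the quadratic extension: range and topology
-/

set_option autoImplicit false

open scoped BigOperators Topology
open NumberField IsDedekindDomain Filter

namespace Pool.Agent.H32.MQ.G

open Pool.Agent.H98.MF

section

variable {F : Type} [Field F] [NumberField F]

omit [NumberField F] in
private lemma g6c_int (z : Om F) : IsIntegral F z := Algebra.IsIntegral.isIntegral _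

private lemma g6c_adj {S : Set (Om F)} {u : Gm F} (h : ∀ s ∈ S, u s = s) {z : Om F}
    (hz : z ∈ IntermediateField.adjoin F S) : u z = z := by
  induction hz using IntermediateField.adjoin_induction with
  | mem x hx => exact h x hx
  | algebraMap x => exact u.commutes x
  | add x y _ _ hx hy => rw [map_add, hx, hy]
  | mul x y _ _ hx hy => rw [map_mul, hx, hy]
  | inv x _ hx => rw [map_inv₀, hx]

/-- the stabiliser of finitely many elements is open -/
private lemma g6c_open (S : Finset (Om F)) : IsOpen {u : Gm F | ∀ s ∈ S, u s = s} := by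
  have hfin : FiniteDimensional F (IntermediateField.adjoin F (S : Set (Om F))) :=
    IntermediateField.finiteDimensional_adjoin (fun x _ => g6c_int x)
  have h1 : IsOpen ((IntermediateField.adjoin F (S : Set (Om F))).fixingSubgroup :
      Set (Gm F)) := IntermediateField.fixingSubgroup_isOpen _
  convert h1 using 1
  ext u
  constructor
  · intro hu
    show u ∈ (IntermediateField.adjoin F (S : Set (Om F))).fixingSubgroup
    rw [IntermediateField.mem_fixingSubgroup_iff]
    intro x hx
    exact g6c_adj hu hx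
  · intro hu s hs
    have hu' : u ∈ (IntermediateField.adjoin F (S : Set (Om F))).fixingSubgroup := hu
    rw [IntermediateField.mem_fixingSubgroup_iff] at hu'
    exact hu' s (IntermediateField.subset_adjoin F _ hs)

/-- a neighbourhood of the identity contains such a stabiliser -/
private lemma g6c_nhds {T : Set (Gm F)} (hT : T ∈ 𝓝 (1 : Gm F)) :
    ∃ S : Finset (Om F), {u : Gm F | ∀ s ∈ S, u s = s} ⊆ T := by
  obtain ⟨E, hE, hET⟩ := (krullTopology_mem_nhds_one_iff F (Om F) T).1 hT
  obtain ⟨S, hS⟩ := E.fg_of_fg_toSubalgebra (Subalgebra.fg_of_fg_toSubmodule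
    (Module.Finite.iff_fg.1 hE))
  refine ⟨S, fun u hu => hET ?_⟩
  show u ∈ E.fixingSubgroup
  rw [IntermediateField.mem_fixingSubgroup_iff]
  intro x hx
  rw [← hS] at hx
  exact g6c_adj hu hx

end

section

variable {k : Type} [Field k] [NumberField k]

private lemma g6c_fix {a : kˣ} {σ : Gm k} (h : σ (H98.MF.sq (a : k)) = H98.MF.sq (a : k)) (x : FQ a) :
    σ (x : Om k) = x := by
  have hx : (x : Om k) ∈ IntermediateField.adjoin k {sq (a : k)} := x.2
  refine g6c_adj ?_ hx
  intro s hs
  rw [Set.mem_singleton_iff.1 hs, h]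

private lemma g6c_ex {a : kˣ} (R : Rs0 a) {σ : Gm k} (h : σ (H98.MF.sq (a : k)) = H98.MF.sq (a : k)) :
    ∃ u, R.ι u = σ := by
  let e : Om (FQ a) ≃+* Om (FQ a) := (R.Φ.trans σ.toRingEquiv).trans R.Φ.symm
  have he : ∀ z, e z = R.Φ.symm (σ (R.Φ z)) := fun z => rfl
  let u : Gm (FQ a) := AlgEquiv.ofRingEquiv (f := e) (by
    intro x
    rw [he, R.alg, g6c_fix h, ← R.alg, RingEquiv.symm_apply_apply])
  have hu : ∀ z, u z = R.Φ.symm (σ (R.Φ z)) := fun z => rfl
  refine ⟨u, ?_⟩
  ext z
  obtain ⟨w, rfl⟩ := R.Φ.surjective z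
  rw [R.ev, hu, RingEquiv.apply_symm_apply]

omit [NumberField k] in
private lemma g6c_sq {a : kˣ} (R : Rs0 a) (u : Gm (FQ a)) :
    R.ι u (H98.MF.sq (a : k)) = H98.MF.sq (a : k) := by
  have h1 : R.Φ (algebraMap (FQ a) (Om (FQ a)) (FQs a)) = H98.MF.sq (a : k) := R.alg (FQs a)
  rw [← h1, R.ev, u.commutes]

/-- G6c: the group and the topology -/
theorem stRsG : StRsG k := by
  intro a R
  refine ⟨?_, ?_, ?_, ?_⟩
  · intro u v huv
    ext z
    apply R.Φ.injective
    rw [← R.ev, ← R.ev, huv]
  · intro σ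
    rw [chi_eq_zero_iff (sq_sq (a : k)) σ]
    constructor
    · rintro ⟨u, rfl⟩
      exact g6c_sq R u
    · intro h
      exact g6c_ex R h
  · apply continuous_of_continuousAt_one R.ι
    rw [ContinuousAt, map_one]
    intro T hT
    obtain ⟨S, hS⟩ := g6c_nhds hT
    classical
    have h1 : {u : Gm (FQ a) | ∀ s ∈ S.image R.Φ.symm, u s = s} ∈ 𝓝 (1 : Gm (FQ a)) :=
      (g6c_open (S.image R.Φ.symm)).mem_nhds (fun s _ => rfl)
    rw [Filter.mem_map]
    refine Filter.mem_of_superset h1 ?_
    intro u hu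
    apply hS
    intro s hs
    have h2 : u (R.Φ.symm s) = R.Φ.symm s := hu _ (Finset.mem_image_of_mem _ hs)
    have h3 : s = R.Φ (R.Φ.symm s) := (RingEquiv.apply_symm_apply _ _).symm
    rw [h3, R.ev, h2]
  · intro U hU
    apply Subgroup.isOpen_of_mem_nhds
    · obtain ⟨S, hS⟩ := g6c_nhds (hU.mem_nhds (one_mem U))
      classical
      have h1 : {σ : Gm k | ∀ s ∈ insert (H98.MF.sq (a : k)) (S.image R.Φ), σ s = s} ∈ 𝓝 (1 : Gm k) :=
        (g6c_open (insert (H98.MF.sq (a : k)) (S.image R.Φ))).mem_nhds (fun s _ => rfl)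
      refine Filter.mem_of_superset h1 ?_
      intro σ hσ
      obtain ⟨u, rfl⟩ := g6c_ex R (hσ _ (Finset.mem_insert_self _ _))
      refine ⟨u, hS ?_, rfl⟩
      intro s hs
      apply R.Φ.injective
      rw [← R.ev]
      exact hσ _ (Finset.mem_insert_of_mem (Finset.mem_image_of_mem _ hs))

end

end Pool.Agent.H32.MQ.G
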