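import Pool.Agent.H32.MQ.GStm

/-!
# Malle's conjecture for 8T28 and 8T29 over number fields, block G6: characters under the embedding
of the Galois groups of a quadratic extension
-/

set_option autoImplicit false

open scoped BigOperators
open NumberField IsDedekindDomain

namespace Pool.Agent.H32.MQ.G

open Pool.Agent.H98.MF

section

private theorem g6d_z2 {p q : ZMod 2} (h : p = 0 ↔ q = 0) : p = q := by
  revert p q
  decide

variable {k : Type} [Field k] [NumberField k]

omit [NumberField k] in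
/-- homomorphisms that agree on the square root are equal -/
theorem g6d_ext {a : kˣ} {f g : FQ a →ₐ[k] Om k} (h : f (FQs a) = g (FQs a)) : f = g := by
  refine IntermediateField.adjoin_algHom_ext k fun x hx => ?_
  have hx' : x = H98.MF.sq (a : k) := hx
  subst hx'
  exact h

/-- the characters of elements of the quadratic extension -/
theorem g6d_chi {a : kˣ} (R : Rs0 a) {x : FQ a} {s : Om k} (hs : s ^ 2 = (x : Om k))
    (u : Gm (FQ a)) : chi x u = 0 ↔ R.ι u s = s := by
  obtain ⟨z, rfl⟩ := R.Φ.surjective s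
  have hz : z ^ 2 = algebraMap (FQ a) (Om (FQ a)) x := by
    apply R.Φ.injective
    rw [map_pow, hs, R.alg]
  rw [chi_eq_zero_iff hz, R.ev]
  exact R.Φ.injective.eq_iff.symm

omit [NumberField k] in
theorem g6d_root (x : Om k) : ∃ s : Om k, s ^ 2 = x :=
  IsAlgClosed.exists_pow_nat_eq x two_pos

/-- an element that moves the square root acts as the conjugation -/
theorem g6d_sg {a : kˣ} {sg : FQ a ≃ₐ[k] FQ a} (hsg : sg (FQs a) = -FQs a) {τ : Gm k}
    (hτ : chi (a : k) τ = 1) (x : FQ a) : τ (x : Om k) = (sg x : Om k) := by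
  have h1 : (τ : Om k →ₐ[k] Om k).comp (FQ a).val = (FQ a).val.comp (sg : FQ a →ₐ[k] FQ a) := by
    apply g6d_ext
    show τ (H98.MF.sq (a : k)) = ((sg (FQs a) : FQ a) : Om k)
    rw [hsg]
    exact (chi_eq_one_iff a.ne_zero (sq_sq (a : k)) τ).1 hτ
  exact DFunLike.congr_fun h1 x

/-- the norm -/
theorem g6d_norm {a : kˣ} {sg : FQ a ≃ₐ[k] FQ a} (hsg : sg (FQs a) = -FQs a) (x : FQ a) :
    algebraMap k (Om k) (Algebra.norm k x) = (x : Om k) * (sg x : Om k) := by
  classical
  rw [Algebra.norm_eq_prod_embeddings k (Om k) x]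
  have hs0 : H98.MF.sq (a : k) ≠ 0 := by
    intro h
    have h1 := sq_sq (a : k)
    rw [h, zero_pow two_ne_zero] at h1
    exact (map_ne_zero (algebraMap k (Om k))).2 a.ne_zero h1.symm
  have hne : (FQ a).val ≠ (FQ a).val.comp (sg : FQ a →ₐ[k] FQ a) := by
    intro h
    have h1 : H98.MF.sq (a : k) = ((sg (FQs a) : FQ a) : Om k) := DFunLike.congr_fun h (FQs a)
    rw [hsg] at h1
    have h2 : H98.MF.sq (a : k) = -H98.MF.sq (a : k) := h1
    exact hs0 (self_eq_neg.1 h2)
  have hu : (Finset.univ : Finset (FQ a →ₐ[k] Om k)) =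
      {(FQ a).val, (FQ a).val.comp (sg : FQ a →ₐ[k] FQ a)} := by
    ext f
    simp only [Finset.mem_univ, Finset.mem_insert, Finset.mem_singleton, true_iff]
    have h1 : (f (FQs a)) ^ 2 = H98.MF.sq (a : k) ^ 2 := by
      have h2 : (FQs a) ^ 2 = algebraMap k (FQ a) (a : k) := by
        apply Subtype.ext
        exact sq_sq (a : k)
      rw [← map_pow, h2, AlgHom.commutes, sq_sq]
    rcases sq_eq_sq_iff_eq_or_eq_neg.1 h1 with h2 | h2
    · left
      exact g6d_ext h2
    · right
      apply g6d_ext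
      rw [h2]
      show -H98.MF.sq (a : k) = ((sg (FQs a) : FQ a) : Om k)
      rw [hsg]
      rfl
  rw [hu, Finset.prod_pair hne]
  rfl

/-- G6d: characters -/
theorem stRsC : StRsC k := by
  intro a _ R sg hsg
  refine ⟨?_, ?_, ?_⟩
  · intro c u
    apply g6d_z2
    rw [g6d_chi R (s := H98.MF.sq (c : k)) (sq_sq (c : k)), chi_eq_zero_iff (sq_sq (c : k))]
  · intro x τ u u' hτ hu
    apply g6d_z2
    obtain ⟨s, hs⟩ := g6d_root ((x : FQ a) : Om k)
    have hs' : (τ s) ^ 2 = ((sg (x : FQ a) : FQ a) : Om k) := by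
      rw [← map_pow, hs, g6d_sg hsg hτ]
    rw [g6d_chi R hs', g6d_chi R hs, hu]
    have h1 : (τ * R.ι u * τ⁻¹) (τ s) = τ (R.ι u s) := by
      show τ (R.ι u (τ⁻¹ (τ s))) = _
      have h2 : τ⁻¹ (τ s) = s := τ.symm_apply_apply s
      rw [h2]
    rw [h1]
    exact τ.injective.eq_iff
  · intro x τ u hτ hu
    apply g6d_z2
    obtain ⟨s, hs⟩ := g6d_root ((x : FQ a) : Om k)
    have hs' : (τ s) ^ 2 = ((sg (x : FQ a) : FQ a) : Om k) := by
      rw [← map_pow, hs, g6d_sg hsg hτ]
    have hr : (s * τ s) ^ 2 = algebraMap k (Om k) (HX.nrX (k := k) x : k) := by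
      show _ = algebraMap k (Om k) (Algebra.norm k (x : FQ a))
      rw [g6d_norm hsg, mul_pow, hs, hs']
    have h0 : τ s ≠ 0 := by
      intro h
      have h1 : s = 0 := by
        apply τ.injective
        rw [h, map_zero]
      rw [h1, zero_pow two_ne_zero] at hs
      exact x.ne_zero (Subtype.ext hs.symm)
    rw [chi_eq_zero_iff hr, g6d_chi R hs, hu]
    show τ (s * τ s) = s * τ s ↔ τ (τ s) = s
    rw [map_mul, mul_comm s (τ s)]
    exact mul_right_inj' h0

end

end Pool.Agent.H32.MQ.G
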