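import Pool.Agent.H32.MQ.GStm
import Pool.Agent.H98.MF.D.RdN
import Pool.Agent.H98.MF.L.Fld

/-!
# Malle's conjecture for 8T28 and 8T29 over number fields, block G: discriminants in the tower
-/

set_option autoImplicit false

open NumberField IsDedekindDomain

namespace Pool.Agent.H32.MQ.G

open Pool.Agent.H98.MF
open Pool.Agent.H67.MU (relDisc natAbs_discr)

variable {k : Type} [Field k] [NumberField k]

private theorem g6e_mem {a : kˣ} (R : Rs0 a) (U : Subgroup (Gm (FQ a))) (z : Om (FQ a)) :
    R.Φ z ∈ fld k (U.map R.ι) ↔ z ∈ fld (FQ a) U := by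
  rw [IntermediateField.mem_fixedField_iff, IntermediateField.mem_fixedField_iff]
  constructor
  · intro h u hu
    have h1 := h (R.ι u) (Subgroup.mem_map_of_mem _ hu)
    rw [R.ev] at h1
    exact R.Φ.injective h1
  · rintro h _ ⟨u, hu, rfl⟩
    rw [R.ev, h u hu]

private noncomputable def g6e_hom {a : kˣ} (R : Rs0 a) (U : Subgroup (Gm (FQ a))) :
    fld (FQ a) U →+* fld k (U.map R.ι) where
  toFun z := ⟨R.Φ z, (g6e_mem R U z).2 z.2⟩
  map_one' := Subtype.ext (map_one R.Φ)
  map_mul' x y := Subtype.ext (map_mul R.Φ _ _)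
  map_zero' := Subtype.ext (map_zero R.Φ)
  map_add' x y := Subtype.ext (map_add R.Φ _ _)

private theorem g6e_bij {a : kˣ} (R : Rs0 a) (U : Subgroup (Gm (FQ a))) :
    Function.Bijective (g6e_hom R U) := by
  refine ⟨(g6e_hom R U).injective, fun w => ?_⟩
  have h1 : R.Φ (R.Φ.symm w) = w := R.Φ.apply_symm_apply w
  refine ⟨⟨R.Φ.symm w, (g6e_mem R U _).1 ?_⟩, Subtype.ext h1⟩
  rw [h1]
  exact w.2

private theorem g6e_dN (F : Type) [Field F] [NumberField F] [Algebra k F] :
    (discr F).natAbs = (discr k).natAbs ^ Module.finrank k F * dN k F := by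
  unfold dN
  rw [natAbs_discr k F, Nat.mul_div_cancel _ (pow_pos (Int.natAbs_pos.2 (discr_ne_zero k)) _),
    mul_comm]

private theorem g6e_fin (k F K K' : Type) [Field k] [NumberField k] [Field F] [NumberField F]
    [Field K] [NumberField K] [Field K'] [NumberField K'] [Algebra k F] [Algebra F K]
    [Algebra k K'] (e : K ≃+* K') :
    Module.finrank k K' = Module.finrank k F * Module.finrank F K := by
  have h6 : Module.finrank ℚ K = Module.finrank ℚ K' :=
    LinearEquiv.finrank_eq (AlgEquiv.ofRingEquiv (f := e) (R := ℚ) fun _ => by simp).toLinearEquiv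
  have h7 : Module.finrank ℚ k * Module.finrank k K' = Module.finrank ℚ K' :=
    Module.finrank_mul_finrank _ _ _
  have h8 : Module.finrank ℚ F * Module.finrank F K = Module.finrank ℚ K :=
    Module.finrank_mul_finrank _ _ _
  have h9 : Module.finrank ℚ k * Module.finrank k F = Module.finrank ℚ F :=
    Module.finrank_mul_finrank _ _ _
  have h10 : 0 < Module.finrank ℚ k := Module.finrank_pos
  rw [← h9, h6, ← h7, mul_assoc] at h8
  exact (Nat.eq_of_mul_eq_mul_left h10 h8).symm

/-- the discriminants in the tower -/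
theorem stRsD : StRsD k := by
  intro a R U hU
  have hfd : FiniteDimensional (FQ a) (fld (FQ a) U) := fldK_finite U hU
  have hK : NumberField (fld (FQ a) U) := nf_of_fd _
  let e : fld (FQ a) U ≃+* fld k (U.map R.ι) := RingEquiv.ofBijective _ (g6e_bij R U)
  have hK' : NumberField (fld k (U.map R.ι)) := NumberField.of_ringEquiv _ _ e
  have h1 := (rdN_natAbs (fld (FQ a) U)).2
  have h2 := (rdN_natAbs (fld k (U.map R.ι))).2
  have h3 : discr (fld (FQ a) U) = discr (fld k (U.map R.ι)) := discr_eq_discr_of_ringEquiv _ e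
  have h4 : Module.finrank (FQ a) (fld (FQ a) U) = U.index := fldK_finrank U hU
  have h5 : Module.finrank k (fld k (U.map R.ι)) = Module.finrank k (FQ a) * U.index := by
    rw [← h4]
    exact g6e_fin k (FQ a) _ _ e
  rw [h4] at h1
  rw [h5, ← h3, h1, g6e_dN (k := k) (FQ a), mul_pow, ← pow_mul, mul_assoc] at h2
  exact (Nat.eq_of_mul_eq_mul_left (pow_pos (Int.natAbs_pos.2 (discr_ne_zero k)) _) h2).symm

end Pool.Agent.H32.MQ.G
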