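import Pool.Agent.H32.MQ.GStm
import Pool.Agent.H98.MF.L.ChiB

/-!
# Malle's conjecture for 8T28 and 8T29 over number fields, G7a: induced homomorphisms
-/

set_option autoImplicit false

open scoped BigOperators
open NumberField IsDedekindDomain Filter

namespace Pool.Agent.H32.MQ.G

open Pool.Agent.H98.MF
open Pool.Agent.H98.ML (Dt Ext)

section

variable {k : Type} [Field k] [NumberField k] {L : Type} [Field L] [NumberField L] [Algebra k L]
  {a : kˣ} {sg : L ≃ₐ[k] L}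

private theorem g7a_x (g h : W) (hg : g.e = 0) : (g * h).x = g.x * h.x := by
  show g.x * (if g.e = 0 then h.x else h.y) = _
  rw [if_pos hg]

private theorem g7a_x1 (g h : W) (hg : g.e = 1) : (g * h).x = g.x * h.y := by
  show g.x * (if g.e = 0 then h.x else h.y) = _
  rw [hg, if_neg W.one_ne]

/-- the representative of a coset -/
private noncomputable def g7a_s (a : kˣ) (τ σ : Gm k) : Gm k :=
  if chi (a : k) σ = 0 then 1 else τ

private noncomputable def g7a_X (R : Rs L a sg) (τ : Gm k) (ρ' : Gm L →* Ext D4) (g : Ext D4)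
    (σ : Gm k) : Ext D4 :=
  ρ' (Function.invFun R.ι (σ * (g7a_s a τ σ)⁻¹)) * (if chi (a : k) σ = 0 then 1 else g)

private theorem g7a_inv (R : Rs L a sg) (u : Gm L) : Function.invFun R.ι (R.ι u) = u :=
  Function.leftInverse_invFun R.inj u

private theorem g7a_i0 (R : Rs L a sg) (u : Gm L) : chi (a : k) (R.ι u) = 0 :=
  (R.mem _).1 ⟨u, rfl⟩

private theorem g7a_eq (R : Rs L a sg) {τ : Gm k} (hτ : chi (a : k) τ = 1)
    (ρ' : Gm L →* Ext D4) (g : Ext D4) (u : Gm L) (σ : Gm k) :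
    g7a_X R τ ρ' g (R.ι u * σ) = ρ' u * g7a_X R τ ρ' g σ := by
  have h1 : chi (a : k) (R.ι u * σ) = chi (a : k) σ := by
    rw [chi_hom, g7a_i0, zero_add]
  have h2 : g7a_s a τ (R.ι u * σ) = g7a_s a τ σ := by
    unfold g7a_s
    rw [h1]
  have h3 : chi (a : k) (σ * (g7a_s a τ σ)⁻¹) = 0 := by
    unfold g7a_s
    rw [chi_hom, chi_inv]
    split_ifs with h
    · rw [h, chi_one, add_zero]
    · rcases z2_or (chi (a : k) σ) with h' | h'
      · exact absurd h' h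
      · rw [h', hτ, z2_one_add]
  obtain ⟨w, hw⟩ := (R.mem _).2 h3
  unfold g7a_X
  rw [h2, h1, mul_assoc, ← hw, ← map_mul, g7a_inv, g7a_inv, map_mul, mul_assoc]

private theorem g7a_one (R : Rs L a sg) (τ : Gm k) (ρ' : Gm L →* Ext D4) (g : Ext D4) :
    g7a_X R τ ρ' g 1 = 1 := by
  have h : chi (a : k) (1 : Gm k) = 0 := chi_one _
  unfold g7a_X g7a_s
  rw [if_pos h, if_pos h, inv_one, mul_one, mul_one, ← map_one R.ι, g7a_inv, map_one]

private theorem g7a_tau (R : Rs L a sg) {τ : Gm k} (hτ : chi (a : k) τ = 1)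
    (ρ' : Gm L →* Ext D4) (g : Ext D4) : g7a_X R τ ρ' g τ = g := by
  have h : ¬ chi (a : k) τ = 0 := by
    rw [hτ]
    exact W.one_ne
  unfold g7a_X g7a_s
  rw [if_neg h, if_neg h, mul_inv_cancel, ← map_one R.ι, g7a_inv, map_one, one_mul]

private theorem g7a_iota (R : Rs L a sg) {τ : Gm k} (hτ : chi (a : k) τ = 1)
    (ρ' : Gm L →* Ext D4) (g : Ext D4) (u : Gm L) : g7a_X R τ ρ' g (R.ι u) = ρ' u := by
  have h := g7a_eq R hτ ρ' g u 1
  rw [mul_one, g7a_one, mul_one] at h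
  exact h

private theorem g7a_m0 (R : Rs L a sg) {τ : Gm k} (hτ : chi (a : k) τ = 1)
    (ρ' : Gm L →* Ext D4) (g : Ext D4) (σ σ' : Gm k) (h : chi (a : k) σ = 0) :
    g7a_X R τ ρ' g (σ * σ') = g7a_X R τ ρ' g σ * g7a_X R τ ρ' g σ' := by
  obtain ⟨u, rfl⟩ := (R.mem σ).2 h
  rw [g7a_eq R hτ, g7a_iota R hτ]

private theorem g7a_m1 (R : Rs L a sg) {τ : Gm k} (hτ : chi (a : k) τ = 1)
    (ρ' : Gm L →* Ext D4) (g : Ext D4) (σ σ' : Gm k) (h : chi (a : k) σ = 1) :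
    g7a_X R τ ρ' g (σ * σ') = g7a_X R τ ρ' g σ * (g⁻¹ * g7a_X R τ ρ' g (τ * σ')) := by
  have h3 : chi (a : k) (σ * τ⁻¹) = 0 := by
    rw [chi_hom, chi_inv, h, hτ, z2_one_add]
  obtain ⟨u, hu⟩ := (R.mem _).2 h3
  have h4 : σ = R.ι u * τ := by
    rw [hu, inv_mul_cancel_right]
  rw [h4, mul_assoc, g7a_eq R hτ, g7a_eq R hτ, g7a_tau R hτ]
  group

/-- the induced homomorphism -/
private noncomputable def g7a_F (R : Rs L a sg) {τ : Gm k} (hτ : chi (a : k) τ = 1)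
    (ρ' : Gm L →* Ext D4) (g : Ext D4) : Gm k →* W :=
  MonoidHom.mk' (fun σ => ⟨g7a_X R τ ρ' g σ, g⁻¹ * g7a_X R τ ρ' g (τ * σ), chi (a : k) σ⟩) (by
    intro σ σ'
    rcases z2_or (chi (a : k) σ) with h | h
    · have h1 : chi (a : k) (τ * σ) = 1 := by rw [chi_hom, hτ, h, add_zero]
      rw [W.mul_def]
      ext1
      · show g7a_X R τ ρ' g (σ * σ') = g7a_X R τ ρ' g σ *
          (if chi (a : k) σ = 0 then g7a_X R τ ρ' g σ' else g⁻¹ * g7a_X R τ ρ' g (τ * σ'))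
        rw [if_pos h, g7a_m0 R hτ _ _ _ _ h]
      · show g⁻¹ * g7a_X R τ ρ' g (τ * (σ * σ')) = g⁻¹ * g7a_X R τ ρ' g (τ * σ) *
          (if chi (a : k) σ = 0 then g⁻¹ * g7a_X R τ ρ' g (τ * σ') else g7a_X R τ ρ' g σ')
        rw [if_pos h, ← mul_assoc τ, g7a_m1 R hτ _ _ _ _ h1, mul_assoc]
      · exact chi_hom _ _ _
    · have h0 : ¬ chi (a : k) σ = 0 := by
        rw [h]
        exact W.one_ne
      have h1 : chi (a : k) (τ * σ) = 0 := by rw [chi_hom, hτ, h, z2_one_add]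
      rw [W.mul_def]
      ext1
      · show g7a_X R τ ρ' g (σ * σ') = g7a_X R τ ρ' g σ *
          (if chi (a : k) σ = 0 then g7a_X R τ ρ' g σ' else g⁻¹ * g7a_X R τ ρ' g (τ * σ'))
        rw [if_neg h0, g7a_m1 R hτ _ _ _ _ h]
      · show g⁻¹ * g7a_X R τ ρ' g (τ * (σ * σ')) = g⁻¹ * g7a_X R τ ρ' g (τ * σ) *
          (if chi (a : k) σ = 0 then g⁻¹ * g7a_X R τ ρ' g (τ * σ') else g7a_X R τ ρ' g σ')
        rw [if_neg h0, ← mul_assoc τ, g7a_m0 R hτ _ _ _ _ h1, mul_assoc]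
      · exact chi_hom _ _ _)

private theorem g7a_Xlc (R : Rs L a sg) {τ : Gm k} (hτ : chi (a : k) τ = 1)
    (ρ' : Gm L →* Ext D4) (hρ : IsLocallyConstant ρ') (g : Ext D4) :
    IsLocallyConstant (g7a_X R τ ρ' g) := by
  have hU : IsOpen (ρ'.ker : Set (Gm L)) := by
    have h := hρ.isOpen_fiber (1 : Ext D4)
    exact h
  have hV := R.op _ hU
  rw [IsLocallyConstant.iff_exists_open]
  intro σ
  refine ⟨(fun x : Gm k => x * σ⁻¹) ⁻¹' ((ρ'.ker.map R.ι : Subgroup (Gm k)) : Set (Gm k)),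
    hV.preimage (continuous_mul_const _), ?_, ?_⟩
  · show σ * σ⁻¹ ∈ ((ρ'.ker.map R.ι : Subgroup (Gm k)) : Set (Gm k))
    rw [mul_inv_cancel]
    exact Subgroup.one_mem _
  · intro x hx
    have hx' : x * σ⁻¹ ∈ (ρ'.ker.map R.ι : Subgroup (Gm k)) := hx
    obtain ⟨u, hu, hu'⟩ := Subgroup.mem_map.1 hx'
    have h1 : x = R.ι u * σ := by
      rw [hu', inv_mul_cancel_right]
    have h2 : ρ' u = 1 := hu
    rw [h1, g7a_eq R hτ, h2, one_mul]

private theorem g7a_Flc (R : Rs L a sg) {τ : Gm k} (hτ : chi (a : k) τ = 1)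
    (ρ' : Gm L →* Ext D4) (hρ : IsLocallyConstant ρ') (g : Ext D4) :
    IsLocallyConstant (g7a_F R hτ ρ' g) := by
  have h1 := g7a_Xlc R hτ ρ' hρ g
  have h2 : IsLocallyConstant fun σ => g7a_X R τ ρ' g (τ * σ) :=
    h1.comp_continuous (continuous_const_mul τ)
  have h3 : IsLocallyConstant (chi (a : k)) := chi_lc _
  exact ((h1.prodMk h2).prodMk h3).comp
    fun p : (Ext D4 × Ext D4) × ZMod 2 => (⟨p.1.1, g⁻¹ * p.1.2, p.2⟩ : W)

/-- from the big group to the small one -/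
private noncomputable def g7a_G (R : Rs L a sg) (ρ : HomA a) : Gm L →* Ext D4 :=
  MonoidHom.mk' (fun u => (ρ.1 (R.ι u)).x) (by
    intro u v
    rw [map_mul, map_mul, g7a_x]
    rw [ρ.2.2, g7a_i0])

theorem stSh (R : Rs L a sg) : StSh R := by
  intro τ hτ
  have hlc : ∀ ρ : HomA a, IsLocallyConstant (g7a_G R ρ) := fun ρ =>
    (ρ.2.1.comp_continuous R.cont).comp W.x
  let f : HomA a → {ρ' : Gm L →* Ext D4 // IsLocallyConstant ρ'} × Ext D4 := fun ρ =>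
    (⟨g7a_G R ρ, hlc ρ⟩, (ρ.1 τ).x)
  have hf : Function.Bijective f := by
    constructor
    · intro ρ₁ ρ₂ h
      have h1 : ∀ u, (ρ₁.1 (R.ι u)).x = (ρ₂.1 (R.ι u)).x := by
        intro u
        have h2 : g7a_G R ρ₁ = g7a_G R ρ₂ := congrArg Subtype.val (congrArg Prod.fst h)
        exact DFunLike.congr_fun h2 u
      have h2 : (ρ₁.1 τ).x = (ρ₂.1 τ).x := congrArg Prod.snd h
      have h3 : ∀ σ, (ρ₁.1 σ).x = (ρ₂.1 σ).x := by
        intro σ
        rcases z2_or (chi (a : k) σ) with h | h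
        · obtain ⟨u, rfl⟩ := (R.mem σ).2 h
          exact h1 u
        · have h3 : chi (a : k) (σ * τ⁻¹) = 0 := by
            rw [chi_hom, chi_inv, h, hτ, z2_one_add]
          obtain ⟨u, hu⟩ := (R.mem _).2 h3
          have h4 : σ = R.ι u * τ := by
            rw [hu, inv_mul_cancel_right]
          rw [h4, map_mul, map_mul, g7a_x _ _ (by rw [ρ₁.2.2, g7a_i0]),
            g7a_x _ _ (by rw [ρ₂.2.2, g7a_i0]), h1, h2]
      have h4 : ∀ σ, (ρ₁.1 σ).y = (ρ₂.1 σ).y := by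
        intro σ
        have h5 := h3 (τ * σ)
        rw [map_mul, map_mul, g7a_x1 _ _ (by rw [ρ₁.2.2, hτ]),
          g7a_x1 _ _ (by rw [ρ₂.2.2, hτ]), h2] at h5
        exact mul_left_cancel h5
      apply Subtype.ext
      ext σ : 1
      exact W.ext (h3 σ) (h4 σ) (by rw [ρ₁.2.2, ρ₂.2.2])
    · rintro ⟨⟨ρ', hρ⟩, g⟩
      refine ⟨⟨g7a_F R hτ ρ' g, g7a_Flc R hτ ρ' hρ g, fun σ => rfl⟩, ?_⟩
      apply Prod.ext
      · apply Subtype.ext
        ext u : 1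
        exact g7a_iota R hτ ρ' g u
      · exact g7a_tau R hτ ρ' g
  exact ⟨Equiv.ofBijective f hf, fun ρ => ⟨fun u => rfl, rfl⟩⟩

end

end Pool.Agent.H32.MQ.G
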