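import Pool.Agent.H32.MQ.GStm
import Pool.Agent.H98.MF.ParK

/-!
# Malle's conjecture for 8T28 and 8T29 over number fields, row G7b: homomorphisms to the wreath
product with values in the two groups
-/

set_option autoImplicit false

open scoped BigOperators
open NumberField IsDedekindDomain

namespace Pool.Agent.H32.MQ.G

open Pool.Agent.H98.MF
open Pool.Agent.H98.ML (Dt Ext)

section

variable {k : Type} [Field k] [NumberField k] {L : Type} [Field L] [NumberField L]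
  [Algebra k L]

theorem g7b_chi_mul (x y : kˣ) (σ : Gm k) :
    chi ((x * y : kˣ) : k) σ = chi (x : k) σ + chi (y : k) σ := by
  rw [Units.val_mul]
  exact Pool.Agent.H98.MF.chi_mul x.ne_zero y.ne_zero σ

theorem g7b_chi_sq {x : kˣ} (h : IsSquare x) (σ : Gm k) : chi (x : k) σ = 0 := by
  obtain ⟨y, rfl⟩ := h
  rw [Units.val_mul, ← pow_two]
  exact Pool.Agent.H98.MF.chi_sq _ σ

theorem g7b_z2 (x : ZMod 2) : x + x = 0 := CharTwo.add_self_eq_zero x

/-- elements whose norm is a square -/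
theorem g7b_h90 (E : QX k L) (x : Lˣ) (h : IsSquare (HX.nrX (k := k) x)) :
    ∃ (t : kˣ) (z : Lˣ), x = Units.map (algebraMap k L : k →* L) t * (z * z) := by
  obtain ⟨c, hc⟩ := h
  have hs := (Pool.Agent.H98.MF.B.qe_conj E.qe).choose_spec
  have hN : ∀ z : L, algebraMap k L (Algebra.norm k z) = z * E.sig z := hs.2.2.2
  have hc0 : algebraMap k L (c : k) ≠ 0 := by
    rw [Ne, map_eq_zero]
    exact c.ne_zero
  have h1 : (x : L) * E.sig (x : L) = algebraMap k L (c : k) * algebraMap k L (c : k) := by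
    rw [← hN, ← map_mul]
    congr 1
    exact congrArg Units.val hc
  obtain ⟨w, hw⟩ : ∃ w : L, w = (x : L) / algebraMap k L (c : k) := ⟨_, rfl⟩
  have hx : (x : L) = algebraMap k L (c : k) * w := by
    rw [hw]
    field_simp
  have h2 : w * E.sig w = 1 := by
    rw [hw, map_div₀, AlgEquiv.commutes, div_mul_div_comm, h1]
    exact div_self (mul_ne_zero hc0 hc0)
  by_cases h3 : 1 + w = 0
  · refine ⟨-c, 1, Units.ext ?_⟩
    have h4 : w = -1 := by linear_combination h3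
    rw [hx, h4]
    simp
  · have h4 : w * E.sig (1 + w) = 1 + w := by
      rw [map_add, map_one]
      linear_combination h2
    have h5 : Algebra.norm k (1 + w) ≠ 0 := by
      intro h6
      have h7 := hN (1 + w)
      rw [h6, map_zero] at h7
      rcases mul_eq_zero.1 h7.symm with h8 | h8
      · exact h3 h8
      · exact h3 ((map_eq_zero _).1 h8)
    have h6 : algebraMap k L (Algebra.norm k (1 + w)) ≠ 0 := by
      rw [Ne, map_eq_zero]
      exact h5
    refine ⟨c * (Units.mk0 _ h5)⁻¹, Units.mk0 _ h3, Units.ext ?_⟩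
    have h7 : ((Units.map (algebraMap k L : k →* L) (c * (Units.mk0 _ h5)⁻¹) : Lˣ) : L) =
        algebraMap k L (c : k) * (algebraMap k L (Algebra.norm k (1 + w)))⁻¹ := by
      show algebraMap k L ((c : k) * (Algebra.norm k (1 + w))⁻¹) = _
      rw [map_mul, map_inv₀]
    rw [Units.val_mul, h7, Units.val_mul, Units.val_mk0, hx]
    have h8 : w * algebraMap k L (Algebra.norm k (1 + w)) = (1 + w) * (1 + w) := by
      rw [hN]
      linear_combination (1 + w) * h4
    field_simp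
    linear_combination h8

end

section

variable {k : Type} [Field k] [NumberField k] {L : Type} [Field L] [NumberField L]
  [Algebra k L] {a : kˣ} {sg : L ≃ₐ[k] L} (R : Rs L a sg)

theorem g7b_e {ρ : Gm k →* W} (hρ : ρ ∈ HomA a) (u : Gm L) : (ρ (R.ι u)).e = 0 := by
  rw [hρ.2]
  exact (R.mem _).1 ⟨u, rfl⟩

/-- the `x`-component on the subgroup is multiplicative -/
theorem g7b_xmul {ρ : Gm k →* W} (hρ : ρ ∈ HomA a) (u v : Gm L) :
    (ρ (R.ι (u * v))).x = (ρ (R.ι u)).x * (ρ (R.ι v)).x := by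
  rw [map_mul, map_mul]
  show (ρ (R.ι u)).x * (if (ρ (R.ι u)).e = 0 then (ρ (R.ι v)).x else (ρ (R.ι v)).y) = _
  rw [if_pos (g7b_e R hρ u)]

theorem g7b_lc {ρ : Gm k →* W} (hρ : ρ ∈ HomA a) :
    IsLocallyConstant fun u : Gm L => (ρ (R.ι u)).x :=
  (hρ.1.comp_continuous R.cont).comp W.x

omit [NumberField k] in
/-- the square of an element over the nontrivial class -/
theorem g7b_sq {ρ : Gm k →* W} (hρ : ρ ∈ HomA a) {σ : Gm k} (h : chi (a : k) σ = 1) :
    c1 (ρ (σ * σ)).x = c1 (ρ σ).x + c1 (ρ σ).y := by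
  have h1 : (ρ σ).e ≠ 0 := by
    rw [hρ.2, h]
    exact one_ne_zero
  rw [map_mul]
  show c1 ((ρ σ).x * (if (ρ σ).e = 0 then (ρ σ).x else (ρ σ).y)) = _
  rw [if_neg h1, c1_mul]

/-- a square lies in the subgroup -/
theorem g7b_ex (σ : Gm k) : ∃ u : Gm L, R.ι u = σ * σ := by
  rw [R.mem, chiM_hom, g7b_z2]

/-- the character of `N δ` -/
theorem g7b_nm {ρ : Gm k →* W} (hρ : ρ ∈ HomA a) {b : ZMod 2} (hb : ρ.range ≤ W.Gb b)
    {τ : Gm k} (hτ : chi (a : k) τ = 1) (δ : Lˣ)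
    (hδ : ∀ u, c1 (ρ (R.ι u)).x = chi (δ : L) u) (σ : Gm k) :
    chi (HX.nrX (k := k) δ : k) σ = b * chi (a : k) σ := by
  have h1 : ∀ σ : Gm k, chi (a : k) σ = 1 → chi (HX.nrX (k := k) δ : k) σ = b := by
    intro σ hσ
    obtain ⟨u, hu⟩ := g7b_ex R σ
    rw [R.nm δ σ u hσ hu, ← hδ, hu, g7b_sq hρ hσ]
    have h2 : c1 (ρ σ).x + c1 (ρ σ).y = b * (ρ σ).e := hb ⟨σ, rfl⟩
    rw [h2, hρ.2, hσ, mul_one]
  rcases z2_or (chi (a : k) σ) with h | h
  · have h2 := h1 (σ * τ) (by rw [chiM_hom, h, hτ, zero_add])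
    rw [chiM_hom, h1 τ hτ] at h2
    rw [h, mul_zero]
    linear_combination h2
  · rw [h, mul_one]
    exact h1 σ h

/-- G7b: the condition for the image to lie in `Gb b` -/
theorem stLe : StLe R := by
  intro E b ha hsg hV ρ hρ ρ' hρ'
  subst ha
  obtain ⟨τ, hτ⟩ : ∃ τ : Gm k, chi (E.a : k) τ = 1 := by
    by_contra h
    apply E.qe.ns
    refine Pool.Agent.H98.MF.ParK.isSquare_of_chu fun σ => ?_
    rcases z2_or (chi (E.a : k) σ) with h1 | h1
    · exact h1
    · exact absurd ⟨σ, h1⟩ h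
  -- the character of the norm of `E.δ`
  have hNδ : ∀ σ : Gm k, chi (HX.nrX (k := k) E.δ : k) σ = b * chi (E.a : k) σ := by
    intro σ
    rcases z2_or b with h | h
    · have h1 : HX.nrX (k := k) E.δ = 1 := by
        rw [hV.1 h]
        exact map_one _
      rw [h1, h, zero_mul]
      exact g7b_chi_sq ⟨1, (mul_one 1).symm⟩ σ
    · have h1 := g7b_chi_sq (hV.2 h) σ
      rw [g7b_chi_mul] at h1
      rw [h, one_mul]
      have h2 := g7b_z2 (chi (E.a : k) σ)
      linear_combination h1 - h2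
  constructor
  · intro hb
    have hlc : IsLocallyConstant ρ' := by
      have h1 := g7b_lc R hρ
      have h2 : (fun u : Gm L => (ρ (R.ι u)).x) = ρ' := funext fun u => (hρ' u).symm
      rwa [h2] at h1
    obtain ⟨γ, hγ⟩ := Pool.Agent.H98.MF.ParK.exists_chi1 (fun u => c0 (ρ' u)) (hlc.comp c0)
      (fun u v => by rw [map_mul, c0_mul])
    obtain ⟨δ, hδ⟩ := Pool.Agent.H98.MF.ParK.exists_chi1 (fun u => c1 (ρ' u)) (hlc.comp c1)
      (fun u v => by rw [map_mul, c1_mul])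
    have hδ' : ∀ u, c1 (ρ (R.ι u)).x = chi (δ : L) u := fun u => by
      rw [← hδ, hρ']
    have h1 := g7b_nm R hρ hb hτ δ hδ'
    have h2 : IsSquare (HX.nrX (k := k) (δ * E.δ)) := by
      refine Pool.Agent.H98.MF.ParK.isSquare_of_chu fun σ => ?_
      have h3 : HX.nrX (k := k) (δ * E.δ) = HX.nrX (k := k) δ * HX.nrX (k := k) E.δ :=
        map_mul _ _ _
      rw [h3, g7b_chi_mul, h1, hNδ, g7b_z2]
    obtain ⟨t, z, hz⟩ := g7b_h90 E (δ * E.δ) h2
    refine ⟨γ, t, ⟨hlc, hγ, fun u => ?_⟩⟩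
    rw [hδ]
    have h4 : ((E.δ : L) * algebraMap k L (t : k)) =
        ((E.δ * Units.map (algebraMap k L : k →* L) t : Lˣ) : L) := rfl
    rw [h4, g7b_chi_mul]
    have h5 : chi ((δ * E.δ : Lˣ) : L) u =
        chi ((Units.map (algebraMap k L : k →* L) t * (z * z) : Lˣ) : L) u := by rw [hz]
    rw [g7b_chi_mul, g7b_chi_mul, g7b_chi_sq ⟨z, rfl⟩, add_zero] at h5
    rw [← h5]
    have h6 := g7b_z2 (chi (E.δ : L) u)
    linear_combination -h6
  · rintro ⟨γ, t, hH⟩
    have hone : ∀ σ : Gm k, chi (E.a : k) σ = 1 → ρ σ ∈ W.Gb b := by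
      intro σ hσ
      show c1 (ρ σ).x + c1 (ρ σ).y = b * (ρ σ).e
      obtain ⟨u, hu⟩ := g7b_ex R σ
      rw [← g7b_sq hρ hσ, ← hu, ← hρ', hH.del u]
      have h4 : ((E.δ : L) * algebraMap k L (t : k)) =
          ((E.δ * Units.map (algebraMap k L : k →* L) t : Lˣ) : L) := rfl
      rw [h4, ← R.nm _ σ u hσ hu]
      have h3 : HX.nrX (k := k) (E.δ * Units.map (algebraMap k L : k →* L) t) =
          HX.nrX (k := k) E.δ * (t * t) := by
        have h5 : HX.nrX (k := k) (E.δ * Units.map (algebraMap k L : k →* L) t) =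
            HX.nrX (k := k) E.δ * HX.nrX (k := k) (Units.map (algebraMap k L : k →* L) t) :=
          map_mul _ _ _
        rw [h5]
        congr 1
        apply Units.ext
        show Algebra.norm k (algebraMap k L (t : k)) = (t : k) * t
        rw [Algebra.norm_algebraMap, E.qe.deg, pow_two]
      rw [h3, g7b_chi_mul, g7b_chi_sq ⟨t, rfl⟩, add_zero, hNδ, hρ.2]
    rintro _ ⟨σ, rfl⟩
    rcases z2_or (chi (E.a : k) σ) with h | h
    · have h1 := hone (σ * τ) (by rw [chiM_hom, h, hτ, zero_add])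
      rw [map_mul] at h1
      exact (Subgroup.mul_mem_cancel_right _ (hone τ hτ)).1 h1
    · exact hone σ h

include R in
/-- G7f: the norm condition -/
theorem stNc : StNc (L := L) (a := a) := by
  rintro ρ ⟨hlc, hr⟩ he
  have hρ : ρ ∈ HomA a := ⟨hlc, he⟩
  obtain ⟨δ, hδ⟩ := Pool.Agent.H98.MF.ParK.exists_chi1 (fun u => c1 (ρ (R.ι u)).x)
    ((g7b_lc R hρ).comp c1) (fun u v => by rw [g7b_xmul R hρ, c1_mul])
  obtain ⟨τ, hτ⟩ : ∃ τ : Gm k, chi (a : k) τ = 1 := by
    have h1 : (⟨(⟨![0, 1], 0⟩ : Ext D4), 1, 1⟩ : W) ∈ ρ.range := by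
      rw [hr]
      show c1 (⟨![0, 1], 0⟩ : Ext D4) + c1 (1 : Ext D4) = 1 * 1
      decide
    obtain ⟨τ, hτ⟩ := h1
    refine ⟨τ, ?_⟩
    rw [← he, hτ]
  refine ⟨δ, Pool.Agent.H98.MF.ParK.isSquare_of_chu fun σ => ?_⟩
  rw [g7b_chi_mul, g7b_nm R hρ hr.le hτ δ hδ σ, one_mul, g7b_z2]

end

end Pool.Agent.H32.MQ.G
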