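import Pool.Agent.H32.MQ.G7b

/-!
# Malle's conjecture for 8T28 and 8T29 over number fields, row G7c: surjective homomorphisms to
the two groups
-/

set_option autoImplicit false

open scoped BigOperators
open NumberField IsDedekindDomain

namespace Pool.Agent.H32.MQ.G

open Pool.Agent.H98.MF
open Pool.Agent.H98.ML (Dt Ext)

/-- an element of the dihedral group by the two characters -/
def g7c_el (a b : ZMod 2) : Ext D4 := ⟨![a, b], ![0]⟩

/-- the character `n` of the wreath product is multiplicative -/
theorem g7c_n (v w : W) : c0 (v * w).x + c0 (v * w).y = (c0 v.x + c0 v.y) + (c0 w.x + c0 w.y) := by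
  show c0 (v.x * (if v.e = 0 then w.x else w.y)) + c0 (v.y * (if v.e = 0 then w.y else w.x)) = _
  rw [c0_mul, c0_mul]
  split_ifs
  · ring
  · ring

/-- on `Gb 0` the character `c1` is multiplicative -/
theorem g7c_m (v w : W) (hw : w ∈ W.Gb 0) : c1 (v * w).x = c1 v.x + c1 w.x := by
  have h : c1 w.x + c1 w.y = 0 * w.e := hw
  rw [zero_mul] at h
  have h1 : c1 w.y = c1 w.x := by
    have h2 := g7b_z2 (c1 w.x)
    linear_combination h - h2
  show c1 (v.x * (if v.e = 0 then w.x else w.y)) = _
  rw [c1_mul]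
  split_ifs
  · rfl
  · rw [h1]

section

variable {k : Type} [Field k] [NumberField k] {L : Type} [Field L] [NumberField L]
  [Algebra k L] {a : kˣ} {sg : L ≃ₐ[k] L} (R : Rs L a sg)

/-- the character of the norm of `γ` -/
theorem g7c_nm {ρ : Gm k →* W} (hρ : ρ ∈ HomA a) {τ : Gm k} (hτ : chi (a : k) τ = 1) (γ : Lˣ)
    (hγ : ∀ u, c0 (ρ (R.ι u)).x = chi (γ : L) u) (σ : Gm k) :
    c0 (ρ σ).x + c0 (ρ σ).y = chi (HX.nrX (k := k) γ : k) σ := by
  have h1 : ∀ σ : Gm k, chi (a : k) σ = 1 →
      c0 (ρ σ).x + c0 (ρ σ).y = chi (HX.nrX (k := k) γ : k) σ := by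
    intro σ hσ
    obtain ⟨u, hu⟩ := g7b_ex R σ
    rw [R.nm γ σ u hσ hu, ← hγ, hu, map_mul]
    have h2 : (ρ σ).e ≠ 0 := by
      rw [hρ.2, hσ]
      exact one_ne_zero
    show _ = c0 ((ρ σ).x * (if (ρ σ).e = 0 then (ρ σ).x else (ρ σ).y))
    rw [if_neg h2, c0_mul]
  rcases z2_or (chi (a : k) σ) with h | h
  · have h2 := h1 (σ * τ) (by rw [chiM_hom, h, hτ, zero_add])
    rw [map_mul, g7c_n, h1 τ hτ, chiM_hom] at h2
    exact add_right_cancel h2
  · exact h1 σ h

/-- the character of `t` -/
theorem g7c_t {ρ : Gm k →* W} (hb : ρ.range ≤ W.Gb 0) {τ : Gm k}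
    (hτ : chi (a : k) τ = 1) (t : kˣ) (ht : ∀ u, c1 (ρ (R.ι u)).x = chi (t : k) (R.ι u)) :
    ∃ s : ZMod 2, ∀ σ, c1 (ρ σ).x = chi (t : k) σ + s * chi (a : k) σ := by
  refine ⟨c1 (ρ τ).x + chi (t : k) τ, fun σ => ?_⟩
  have hr : ∀ σ, ρ σ ∈ W.Gb 0 := fun σ => hb ⟨σ, rfl⟩
  rcases z2_or (chi (a : k) σ) with h | h
  · obtain ⟨u, rfl⟩ := (R.mem σ).2 h
    rw [h, mul_zero, add_zero]
    exact ht u
  · obtain ⟨u, hu⟩ := (R.mem (σ * τ)).2 (by rw [chiM_hom, h, hτ]; exact z2_one_add)
    have h1 := ht u
    rw [hu, map_mul, g7c_m _ _ (hr τ), chiM_hom] at h1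
    rw [h, mul_one]
    have h2 := g7b_z2 (c1 (ρ τ).x)
    linear_combination h1 - h2

/-- G7c: the condition for the image to be `Gb b` -/
theorem stOn (h : StFrt) (R : Rs L a sg) : StOn R := by
  intro E b ha hsg hV ρ hρ ρ' hρ' hb γ t hH
  subst ha
  obtain ⟨τ, hτ⟩ : ∃ τ : Gm k, chi (E.a : k) τ = 1 := by
    by_contra h
    apply E.qe.ns
    refine Pool.Agent.H98.MF.ParK.isSquare_of_chu fun σ => ?_
    rcases z2_or (chi (E.a : k) σ) with h1 | h1
    · exact h1
    · exact absurd ⟨σ, h1⟩ h
  have hN := g7c_nm R hρ hτ γ (fun u => by rw [← hρ', hH.gam])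
  have he := hρ.2
  have hT : b = 0 → ∃ s : ZMod 2, ∀ σ, c1 (ρ σ).x = chi (t : k) σ + s * chi (E.a : k) σ := by
    intro hb0
    subst hb0
    refine g7c_t R hb hτ t fun u => ?_
    rw [← hρ', hH.del, hV.1 rfl, Units.val_one, one_mul, R.chk]
  -- a product of characters
  have hsq : ∀ x : kˣ, (∀ σ : Gm k, chi (x : k) σ = 0) ↔ IsSquare x := fun x =>
    ⟨Pool.Agent.H98.MF.ParK.isSquare_of_chu, fun hx => g7b_chi_sq hx⟩
  constructor
  · intro hK
    have hmem : ∀ w ∈ W.Gb b, ∃ σ, ρ σ = w := fun w hw => by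
      rw [← hK] at hw
      exact hw
    obtain ⟨σ1, h1⟩ := hmem ⟨g7c_el 1 0, 1, 0⟩ (by
      show c1 (g7c_el 1 0) + c1 (1 : Ext D4) = b * 0
      rw [mul_zero]
      rfl)
    obtain ⟨σ2, h2⟩ := hmem ⟨g7c_el 0 1, g7c_el 0 1, 0⟩ (by
      show c1 (g7c_el 0 1) + c1 (g7c_el 0 1) = b * 0
      rw [mul_zero]
      exact g7b_z2 _)
    have e1 : chi (E.a : k) σ1 = 0 := by rw [← he, h1]
    have e2 : chi (E.a : k) σ2 = 0 := by rw [← he, h2]
    have n1 : chi (HX.nrX (k := k) γ : k) σ1 = 1 := by
      rw [← hN, h1]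
      rfl
    have n2 : chi (HX.nrX (k := k) γ : k) σ2 = 0 := by
      rw [← hN, h2]
      exact g7b_z2 _
    refine ⟨fun hx => ?_, fun hx => ?_, fun hb0 => ?_⟩
    · have := (hsq _).2 hx σ1
      rw [n1] at this
      exact one_ne_zero this
    · have := (hsq _).2 hx σ1
      rw [g7b_chi_mul, e1, n1, zero_add] at this
      exact one_ne_zero this
    · obtain ⟨s, hs⟩ := hT hb0
      have t2 : chi (t : k) σ2 = 1 := by
        have := hs σ2
        rw [e2, mul_zero, add_zero, h2] at this
        rw [← this]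
        rfl
      refine ⟨fun hx => ?_, fun hx => ?_, fun hx => ?_, fun hx => ?_⟩
      · have := (hsq _).2 hx σ2
        rw [t2] at this
        exact one_ne_zero this
      · have := (hsq _).2 hx σ2
        rw [g7b_chi_mul, e2, t2, zero_add] at this
        exact one_ne_zero this
      · have := (hsq _).2 hx σ2
        rw [g7b_chi_mul, n2, t2, add_zero] at this
        exact one_ne_zero this
      · have := (hsq _).2 hx σ2
        rw [g7b_chi_mul, g7b_chi_mul, e2, n2, t2, add_zero, zero_add] at this
        exact one_ne_zero this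
  · rintro ⟨o1, o2, o3⟩
    rcases z2_or b with hb0 | hb1
    · subst hb0
      obtain ⟨s, hs⟩ := hT rfl
      obtain ⟨o4, o5, o6, o7⟩ := o3 rfl
      refine (h ρ.range).1 hb fun l m n hl => ?_
      have hl' : ∀ σ : Gm k, (l + n * s) * chi (E.a : k) σ +
          m * chi (HX.nrX (k := k) γ : k) σ + n * chi (t : k) σ = 0 := by
        intro σ
        have := hl (ρ σ) ⟨σ, rfl⟩
        rw [he, hN, hs] at this
        linear_combination this
      rcases z2_or n with hn | hn
      · subst hn
        rcases z2_or m with hm | hm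
        · subst hm
          rcases z2_or l with hl0 | hl0
          · exact ⟨hl0, rfl, rfl⟩
          · subst hl0
            refine absurd ((hsq _).1 fun σ => ?_) E.qe.ns
            have := hl' σ
            simpa using this
        · subst hm
          rcases z2_or l with hl0 | hl0
          · subst hl0
            refine absurd ((hsq _).1 fun σ => ?_) o1
            have := hl' σ
            simpa using this
          · subst hl0
            refine absurd ((hsq _).1 fun σ => ?_) o2
            have := hl' σ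
            rw [g7b_chi_mul]
            simpa using this
      · subst hn
        exfalso
        obtain ⟨l', hl0⟩ : ∃ l', l' = l + 1 * s := ⟨_, rfl⟩
        rw [← hl0] at hl'
        rcases z2_or l' with h0 | h0 <;> rcases z2_or m with hm | hm
        · rw [h0, hm] at hl'
          refine o4 ((hsq _).1 fun σ => ?_)
          have := hl' σ
          simpa using this
        · rw [h0, hm] at hl'
          refine o6 ((hsq _).1 fun σ => ?_)
          have := hl' σ
          rw [g7b_chi_mul]
          linear_combination this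
        · rw [h0, hm] at hl'
          refine o5 ((hsq _).1 fun σ => ?_)
          have := hl' σ
          rw [g7b_chi_mul]
          linear_combination this
        · rw [h0, hm] at hl'
          refine o7 ((hsq _).1 fun σ => ?_)
          have := hl' σ
          rw [g7b_chi_mul, g7b_chi_mul]
          linear_combination this
    · subst hb1
      refine (h ρ.range).2 hb fun l m hl => ?_
      have hl' : ∀ σ : Gm k, l * chi (E.a : k) σ + m * chi (HX.nrX (k := k) γ : k) σ = 0 := by
        intro σ
        have := hl (ρ σ) ⟨σ, rfl⟩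
        rw [he, hN] at this
        exact this
      rcases z2_or l with h0 | h0 <;> rcases z2_or m with hm | hm
      · exact ⟨h0, hm⟩
      · exfalso
        rw [h0, hm] at hl'
        refine o1 ((hsq _).1 fun σ => ?_)
        have := hl' σ
        simpa using this
      · exfalso
        rw [h0, hm] at hl'
        refine E.qe.ns ((hsq _).1 fun σ => ?_)
        have := hl' σ
        simpa using this
      · exfalso
        rw [h0, hm] at hl'
        refine o2 ((hsq _).1 fun σ => ?_)
        have := hl' σ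
        rw [g7b_chi_mul]
        linear_combination this

end

end Pool.Agent.H32.MQ.G
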