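import Pool.Agent.H32.MQ.GStm

/-!
# Malle's conjecture for 8T28 and 8T29 over number fields, row G7d: the discriminant
-/

set_option autoImplicit false

open scoped BigOperators
open NumberField IsDedekindDomain

namespace Pool.Agent.H32.MQ.G

open Pool.Agent.H98.MF
open Pool.Agent.H98.ML (Dt Ext)

private theorem g7d_card : Nat.card (Ext D4) = 8 := by
  rw [Nat.card_congr (Pool.Agent.H98.ML.Ext.equivProd (D := D4)), Nat.card_prod]
  have h1 : Nat.card (Fin 2 → ZMod 2) = 4 := by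
    rw [Nat.card_eq_fintype_card]
    rfl
  have h2 : Nat.card (Fin 1 → ZMod 2) = 2 := by
    rw [Nat.card_eq_fintype_card]
    rfl
  show Nat.card (Fin 2 → ZMod 2) * Nat.card (Fin 1 → ZMod 2) = 8
  rw [h1, h2]

private theorem g7d_ord : orderOf (⟨![0, 1], 0⟩ : Ext D4) = 2 := by
  have hf : Fact (Nat.Prime 2) := ⟨Nat.prime_two⟩
  refine orderOf_eq_prime ?_ ?_
  all_goals clear hf
  · rw [pow_two]
    apply Ext.ext
    · funext i
      show (![0, 1] : Fin 2 → ZMod 2) i + (![0, 1] : Fin 2 → ZMod 2) i = 0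
      exact CharTwo.add_self_eq_zero _
    · funext i
      show (0 : ZMod 2) + 0 + (![0, 1] : Fin 2 → ZMod 2) 0 * (![0, 1] : Fin 2 → ZMod 2) 1 = 0
      decide
  · intro h
    have h1 := congrArg (fun g : Ext D4 => g.v (1 : Fin 2)) h
    have h2 : (1 : ZMod 2) = 0 := h1
    exact absurd h2 (by decide)

private theorem g7d_index : H4.index = 4 := by
  have h2 : Nat.card H4 = 2 := by
    unfold H4
    rw [Nat.card_zpowers, g7d_ord]
  have h3 := H4.card_mul_index
  rw [g7d_card, h2] at h3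
  omega

section

variable {k : Type} [Field k] [NumberField k] {L : Type} [Field L] [NumberField L] [Algebra k L]
  {a : kˣ} {sg : L ≃ₐ[k] L}

/-- G7d: the discriminant -/
theorem stDs (R : Rs L a sg) : StDs R := by
  intro b ρ hρ hb ρ' hρ'
  have hsurj : Function.Surjective ρ' := by
    intro g
    have h1 : (⟨g, g, 0⟩ : W) ∈ W.Gb b := by
      show c1 g + c1 g = b * 0
      rw [mul_zero]
      exact CharTwo.add_self_eq_zero _
    rw [← hb] at h1
    obtain ⟨σ, hσ⟩ := h1
    have h2 : chi (a : k) σ = 0 := by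
      rw [← hρ.2 σ, hσ]
    obtain ⟨u, rfl⟩ := (R.mem σ).2 h2
    exact ⟨u, by rw [hρ', hσ]⟩
  have hopen : IsOpen ((H4.comap ρ' : Subgroup (Gm L)) : Set (Gm L)) := by
    have h1 : IsLocallyConstant fun u => (ρ (R.ι u)).x := (hρ.1.comp_continuous R.cont).comp W.x
    have h2 := h1 (H4 : Set (Ext D4))
    have h3 : ((H4.comap ρ' : Subgroup (Gm L)) : Set (Gm L)) =
        (fun u => (ρ (R.ι u)).x) ⁻¹' (H4 : Set (Ext D4)) := by
      ext u
      show ρ' u ∈ H4 ↔ (ρ (R.ι u)).x ∈ H4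
      rw [hρ']
    rw [h3]
    exact h2
  have hmap : W.H1.comap ρ = (H4.comap ρ').map R.ι := by
    ext σ
    rw [Subgroup.mem_comap, Subgroup.mem_map]
    constructor
    · rintro ⟨h1, h2⟩
      rw [hρ.2 σ] at h1
      obtain ⟨u, rfl⟩ := (R.mem σ).2 h1
      refine ⟨u, ?_, rfl⟩
      rw [Subgroup.mem_comap, hρ']
      exact h2
    · rintro ⟨u, h1, rfl⟩
      rw [Subgroup.mem_comap, hρ'] at h1
      refine ⟨?_, h1⟩
      rw [hρ.2]
      exact (R.mem _).1 ⟨u, rfl⟩
  have hidx : (H4.comap ρ').index = 4 := by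
    rw [Subgroup.index_comap_of_surjective _ hsurj, g7d_index]
  rw [hmap, R.rd _ hopen, hidx]
  rfl

end

end Pool.Agent.H32.MQ.G
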