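import Pool.Agent.H32.MQ.GStm
import Pool.Agent.H98.MF.D.RdN
import Pool.Agent.H98.MF.C.H0
import Pool.Agent.H98.MF.L.Fld

/-!
# Malle's conjecture for 8T28 and 8T29 over number fields, row G7e: the number of homomorphisms
-/

set_option autoImplicit false

open scoped BigOperators
open NumberField IsDedekindDomain

namespace Pool.Agent.H32.MQ.G

open Pool.Agent.H98.MF
open Pool.Agent.H98.ML (Dt Ext)

theorem g7e_card : Nat.card (Ext D4) = 8 := by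
  rw [Nat.card_congr (Ext.equivProd (D := D4)), Nat.card_prod, Nat.card_eq_fintype_card,
    Nat.card_eq_fintype_card, Fintype.card_fun, Fintype.card_fun, ZMod.card, Fintype.card_fin,
    Fintype.card_fin]
  rfl

section

variable {k : Type} [Field k] [NumberField k]

theorem g7e_tau {a : kˣ} (h : ¬ IsSquare a) : ∃ τ : Gm k, chi (a : k) τ = 1 := by
  by_contra hc
  push Not at hc
  refine h ?_
  have h1 : ∀ σ : Gm k, chi (a : k) σ = 0 := fun σ => by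
    have h2 : ∀ x : ZMod 2, x ≠ 1 → x = 0 := by decide
    exact h2 _ (hc σ)
  obtain ⟨r, hr⟩ := (Pool.Agent.H98.MF.B.chi_eq_zero_iff_isSquare (a : k)).1 h1
  have hr0 : r ≠ 0 := by
    rintro rfl
    rw [mul_zero] at hr
    exact a.ne_zero hr
  exact ⟨Units.mk0 r hr0, Units.ext hr⟩

variable {L : Type} [Field L] [NumberField L] [Algebra k L] {a : kˣ} {sg : L ≃ₐ[k] L}

theorem g7e_dN (R : Rs L a sg) : 0 < dN k L := by
  have h1 := R.rd ⊤ isOpen_univ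
  rw [Subgroup.index_top, pow_one] at h1
  have hop : IsOpen (((⊤ : Subgroup (Gm L)).map R.ι : Subgroup (Gm k)) : Set (Gm k)) :=
    R.op ⊤ isOpen_univ
  have h2 : rdN (fld k ((⊤ : Subgroup (Gm L)).map R.ι)) ≠ 0 := by
    have : FiniteDimensional k (fld k ((⊤ : Subgroup (Gm L)).map R.ι)) := fldK_finite _ hop
    exact rdN_ne_zero _
  rcases Nat.eq_zero_or_pos (dN k L) with h3 | h3
  · rw [h3, zero_mul] at h1
    exact absurd h1 h2
  · exact h3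

theorem stBij (R : Rs L a sg) (h1 : StSh R) (h2 : StLe R) (h3 : StOn R) (h4 : StDs R) :
    StBij (L := L) (a := a) (sg := sg) := by
  intro E b hEa hEs hV X hX
  obtain ⟨τ, hτ⟩ := g7e_tau (a := a) (hEa ▸ E.qe.ns)
  obtain ⟨e, he⟩ := h1 τ hτ
  have hd : (0 : ℝ) < dN k L := by exact_mod_cast g7e_dN R
  have hY : (Real.sqrt X / (dN k L : ℝ) ^ 2) ^ 2 = X / (dN k L : ℝ) ^ 4 := by
    rw [div_pow, Real.sq_sqrt hX, ← pow_mul]
  have hiff : ∀ ρ : HomA a, (ρ.1 ∈ CntG k b X ↔ (e ρ).1.1 ∈ E.Lf b ∧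
      (QX.dn (e ρ).1.1 : ℝ) ≤ (Real.sqrt X / (dN k L : ℝ) ^ 2) ^ 2) := by
    intro ρ
    have hu := (he ρ).1
    have hρ : ρ.1 ∈ HomA a := ρ.2
    rw [hY, le_div_iff₀ (by positivity)]
    constructor
    · rintro ⟨⟨_, hr⟩, hX1⟩
      obtain ⟨γ, t, hm⟩ := (h2 E b hEa hEs hV ρ.1 hρ _ hu).1 hr.le
      refine ⟨⟨γ, t, hm, (h3 E b hEa hEs hV ρ.1 hρ _ hu hr.le γ t hm).1 hr⟩, ?_⟩
      rw [h4 b ρ.1 hρ hr _ hu] at hX1
      push_cast at hX1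
      linarith
    · rintro ⟨⟨γ, t, hm, ho⟩, hX1⟩
      have hle : ρ.1.range ≤ W.Gb b := (h2 E b hEa hEs hV ρ.1 hρ _ hu).2 ⟨γ, t, hm⟩
      have hr : ρ.1.range = W.Gb b := (h3 E b hEa hEs hV ρ.1 hρ _ hu hle γ t hm).2 ho
      refine ⟨⟨hρ.1, hr⟩, ?_⟩
      rw [h4 b ρ.1 hρ hr _ hu]
      push_cast
      linarith
  let A : Set (Gm k →* W) := {ρ ∈ CntG k b X | ∀ σ, (ρ σ).e = chi (a : k) σ}
  let B : Set (Gm L →* Ext D4) :=
    {ρ | ρ ∈ E.Lf b ∧ (QX.dn ρ : ℝ) ≤ (Real.sqrt X / (dN k L : ℝ) ^ 2) ^ 2}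
  have hA : ∀ ρ : A, ρ.1 ∈ HomA a := fun ρ => ⟨ρ.2.1.1.1, ρ.2.2⟩
  have hlc : ∀ ρ' ∈ B, IsLocallyConstant ρ' := by
    rintro ρ' ⟨⟨γ, t, hm, _⟩, _⟩
    exact hm.lc
  let F : A ≃ B × Ext D4 :=
    { toFun := fun ρ => (⟨(e ⟨ρ.1, hA ρ⟩).1.1, (hiff ⟨ρ.1, hA ρ⟩).1 ρ.2.1⟩,
        (e ⟨ρ.1, hA ρ⟩).2)
      invFun := fun x => ⟨(e.symm (⟨x.1.1, hlc _ x.1.2⟩, x.2)).1, by
        refine ⟨(hiff _).2 ?_, (e.symm (⟨x.1.1, hlc _ x.1.2⟩, x.2)).2.2⟩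
        rw [Equiv.apply_symm_apply]
        exact x.1.2⟩
      left_inv := fun ρ => by
        apply Subtype.ext
        show (e.symm (⟨(e ⟨ρ.1, hA ρ⟩).1.1, _⟩, (e ⟨ρ.1, hA ρ⟩).2)).1 = ρ.1
        have h5 : ((⟨(e ⟨ρ.1, hA ρ⟩).1.1, (e ⟨ρ.1, hA ρ⟩).1.2⟩, (e ⟨ρ.1, hA ρ⟩).2) :
            {ρ' : Gm L →* Ext D4 // IsLocallyConstant ρ'} × Ext D4) = e ⟨ρ.1, hA ρ⟩ := rfl
        rw [h5, Equiv.symm_apply_apply]
      right_inv := fun x => by
        have h5 : e ⟨(e.symm (⟨x.1.1, hlc _ x.1.2⟩, x.2)).1,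
            (e.symm (⟨x.1.1, hlc _ x.1.2⟩, x.2)).2⟩ = (⟨x.1.1, hlc _ x.1.2⟩, x.2) :=
          Equiv.apply_symm_apply _ _
        refine Prod.ext (Subtype.ext ?_) ?_
        · exact congrArg (fun y => y.1.1) h5
        · exact congrArg (fun y => y.2) h5 }
  constructor
  · show A.ncard = 8 * B.ncard
    rw [← Nat.card_coe_set_eq, ← Nat.card_coe_set_eq, Nat.card_congr F, Nat.card_prod,
      g7e_card, mul_comm]
  · intro hB
    have hB' : Finite B := hB.to_subtype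
    have hE : Finite (Ext D4) := Nat.finite_of_card_ne_zero (by rw [g7e_card]; norm_num)
    have hA' : Finite A := Finite.of_equiv _ F.symm
    exact Set.toFinite A

end

end Pool.Agent.H32.MQ.G
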