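import Pool.Agent.H32.MQ.GStm
import Pool.Agent.H32.MQ.HMain

/-!
# Malle's conjecture for 8T28 and 8T29 over number fields, row G8a: the data of a quadratic
extension
-/

set_option autoImplicit false

open scoped BigOperators
open NumberField IsDedekindDomain

namespace Pool.Agent.H32.MQ.G

open Pool.Agent.H98.MF
open Pool.Agent.H98.ML (Dt Ext)

section

variable {k : Type} [Field k] [NumberField k]

theorem g8a_rep0 (Fr : Frm k) : rep Fr (0, ∅) = 1 := by
  unfold rep
  simp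

theorem g8a_ns (Fr : Frm k) {c : El Fr.sys} (hc : c ≠ (0, ∅)) : ¬ IsSquare (rep Fr c) := by
  intro h
  apply hc
  apply h_coU Fr
  rw [g8a_rep0, mul_one]
  exact h

variable {L : Type} [Field L] [NumberField L] [Algebra k L]

/-- the norm of an element of `k` -/
theorem g8a_nr {a : kˣ} {α : L} (h : QE a α) (x : Lˣ) (t : kˣ) :
    HX.nrX (k := k) (x * Units.map (algebraMap k L : k →* L) t) =
      HX.nrX (k := k) x * (t * t) := by
  have h5 : HX.nrX (k := k) (x * Units.map (algebraMap k L : k →* L) t) =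
      HX.nrX (k := k) x * HX.nrX (k := k) (Units.map (algebraMap k L : k →* L) t) :=
    map_mul _ _ _
  rw [h5]
  congr 1
  apply Units.ext
  show Algebra.norm k (algebraMap k L (t : k)) = (t : k) * t
  rw [Algebra.norm_algebraMap, h.deg, pow_two]

theorem g8a_sq_even (P : HeightOneSpectrum (𝓞 k)) {x : kˣ} (h : IsSquare x) :
    Even (ord P (x : k)) := by
  obtain ⟨y, rfl⟩ := h
  rw [Units.val_mul, Pool.Agent.H98.MF.B.ord_mul P y.ne_zero y.ne_zero]
  exact ⟨_, rfl⟩

open Classical in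
/-- correction of an element at the primes outside the frame -/
theorem g8a_cor (Fr : Frm k) (c : El Fr.sys) {α : L} (hq : QE (rep Fr c) α) (δ : Lˣ)
    (hδ : IsSquare (rep Fr c * HX.nrX (k := k) δ)) : ∃ δ' : Lˣ,
    IsSquare (rep Fr c * HX.nrX (k := k) δ') ∧ ∀ p, p ∉ c.2 →
      ∀ Q : HeightOneSpectrum (𝓞 L), Over (Fr.pl p) Q → Even (ord Q (δ' : L)) := by
  have hra : ∀ p, p ∉ c.2 → ord (Fr.pl p) (rep Fr c : k) = 0 := fun p hp => by
    rw [h_repO Fr c p, if_neg hp]
  let X : HX Fr L :=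
    { a := rep Fr c
      α := α
      qe := hq
      δ := 1
      M := c.2
      unr := fun p hp => by
        rw [hra p hp]
        exact Even.zero
      evd := fun p _ Q _ => by
        rw [Units.val_one, Pool.Agent.H98.MF.B.ord_one]
        exact Even.zero }
  have hfin : {p : Fr.sys.P | p ∉ c.2 ∧ ∃ Q : HeightOneSpectrum (𝓞 L),
      Over (Fr.pl p) Q ∧ Odd (ord Q (δ : L))}.Finite := by
    refine Set.Finite.subset ((Pool.Agent.H98.MF.B.ord_finite (δ : L) δ.ne_zero).biUnion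
      (t := fun Q => {p : Fr.sys.P | Over (Fr.pl p) Q}) fun Q _ =>
        Set.Subsingleton.finite fun p hp q hq => HX.over_inj hp hq) fun p hp => ?_
    obtain ⟨-, Q, hQ, h1⟩ := hp
    rw [Set.mem_iUnion₂]
    refine ⟨Q, ?_, hQ⟩
    intro h2
    have h3 : ord Q (δ : L) = 0 := h2
    rw [h3] at h1
    exact absurd h1 (by decide)
  set T := hfin.toFinset with hT
  have hmT : ∀ p, p ∈ T ↔ p ∉ c.2 ∧ ∃ Q : HeightOneSpectrum (𝓞 L),
      Over (Fr.pl p) Q ∧ Odd (ord Q (δ : L)) := fun p => by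
    rw [hT, Set.Finite.mem_toFinset]
    rfl
  refine ⟨δ * Units.map (algebraMap k L : k →* L) (rep Fr (0, T)), ?_, ?_⟩
  · rw [g8a_nr hq, ← mul_assoc]
    exact hδ.mul ⟨_, rfl⟩
  · intro p hp Q hQ
    have h1 : ord Q ((Units.map (algebraMap k L : k →* L) (rep Fr (0, T)) : Lˣ) : L) =
        if p ∈ T then 1 else 0 := by
      rw [← h_repO Fr (0, T) p]
      exact (h_ord X p Q hp hQ).2 _
    rw [Units.val_mul, Pool.Agent.H98.MF.B.ord_mul Q δ.ne_zero (Units.ne_zero _), h1]
    split_ifs with h2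
    · obtain ⟨-, Q', hQ', h3⟩ := (hmT p).1 h2
      have h4 := h_ordN X p Q' hp hQ' δ
      have h5 : Even (ord (Fr.pl p) (HX.nrX (k := k) δ : k)) := by
        have h6 := g8a_sq_even (Fr.pl p) hδ
        rw [Units.val_mul, Pool.Agent.H98.MF.B.ord_mul _ (Units.ne_zero _) (Units.ne_zero _),
          hra p hp, zero_add] at h6
        exact h6
      rw [h4] at h5
      have h7 : Odd (ord (cj X.sig Q') (δ : L)) := by
        rw [← Int.not_even_iff_odd] at h3 ⊢
        intro h8
        apply h3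
        exact (Int.even_add.1 h5).2 h8
      have h8 : Odd (ord Q (δ : L)) := by
        rcases Pool.Agent.H98.MF.B.qe_over X.qe X.sig X.sig_α hQ' hQ with h9 | h9
        · rw [h9]
          exact h3
        · rw [h9]
          exact h7
      exact h8.add_one
    · rw [add_zero, ← Int.not_odd_iff_even]
      intro h3
      exact h2 ((hmT p).2 ⟨hp, Q, hQ, h3⟩)

end

/-- G8a: existence of the data -/
theorem stQX {k : Type} [Field k] [NumberField k] (hQ : StQE (k := k)) : StQX (k := k) := by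
  classical
  intro Fr c hc b hb
  have hns := g8a_ns Fr hc
  have hq := hQ (rep Fr c) hns
  have hM : ∀ P, P ∉ Fr.S ∪ c.2.image Fr.pl → ∃ p, p ∉ c.2 ∧ Fr.pl p = P := by
    intro P hP
    rw [Finset.mem_union, not_or] at hP
    obtain ⟨p, rfl⟩ := (Fr.pl_iff P).2 hP.1
    exact ⟨p, fun h => hP.2 (Finset.mem_image_of_mem _ h), rfl⟩
  have htwo : ∀ P : HeightOneSpectrum (𝓞 k), 0 < ord P (2 : k) →
      P ∈ Fr.S ∪ c.2.image Fr.pl := by
    intro P hP
    by_contra h
    obtain ⟨p, -, rfl⟩ := hM P h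
    rw [hb_two Fr p] at hP
    exact absurd hP (lt_irrefl _)
  have hunr : ∀ P, P ∉ Fr.S ∪ c.2.image Fr.pl → Even (ord P (rep Fr c : k)) := by
    intro P hP
    obtain ⟨p, hp, rfl⟩ := hM P hP
    rw [h_repO Fr c p, if_neg hp]
    exact Even.zero
  rcases z2_or b with h0 | h1
  · refine ⟨⟨rep Fr c, FQs (rep Fr c), hq, 1, Fr.S ∪ c.2.image Fr.pl, htwo, hunr, ?_⟩,
      rfl, rfl, ⟨fun _ => rfl, fun h => ?_⟩, rfl⟩
    · intro P _ Q _
      rw [Units.val_one, Pool.Agent.H98.MF.B.ord_one]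
      exact Even.zero
    · rw [h0] at h
      exact absurd h (by decide)
  · obtain ⟨δ, hδ⟩ := hb h1
    obtain ⟨δ', h2, h3⟩ := g8a_cor Fr c hq δ hδ
    refine ⟨⟨rep Fr c, FQs (rep Fr c), hq, δ', Fr.S ∪ c.2.image Fr.pl, htwo, hunr, ?_⟩,
      rfl, rfl, ⟨fun h => ?_, fun _ => h2⟩, rfl⟩
    · intro P hP Q hQ
      obtain ⟨p, hp, rfl⟩ := hM P hP
      exact h3 p hp Q hQ
    · rw [h1] at h
      exact absurd h (by decide)

end Pool.Agent.H32.MQ.G
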