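import Pool.Agent.H32.MQ.GStm
import Pool.Agent.H32.MQ.HBase
import Pool.Agent.H98.MF.L.Ord

/-!
# Malle's conjecture for 8T28 and 8T29 over number fields, G8b: a sum of two squares which is not a
square
-/

set_option autoImplicit false

open scoped BigOperators Pointwise
open NumberField IsDedekindDomain Filter

namespace Pool.Agent.H32.MQ.G

open Pool.Agent.H98.MF
open Pool.Agent.H98.ML (Dt Ext)

section

variable {k : Type} [Field k] [NumberField k]

/-- a prime above `5` -/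
theorem g8b_five : ∃ P : HeightOneSpectrum (𝓞 k), (5 : 𝓞 k) ∈ P.asIdeal := by
  have h5 : (Ideal.span {(5 : ℤ)}).IsMaximal :=
    PrincipalIdealRing.isMaximal_of_irreducible
      (Nat.prime_iff_prime_int.1 (by norm_num : Nat.Prime 5)).irreducible
  obtain ⟨Q, hQ1, hQ2⟩ :=
    Ideal.exists_maximal_ideal_liesOver_of_isIntegral (Ideal.span {(5 : ℤ)}) (S := 𝓞 k)
  have h1 : (5 : 𝓞 k) ∈ Q := by
    have h2 : (5 : ℤ) ∈ Ideal.comap (algebraMap ℤ (𝓞 k)) Q := by
      have h3 : Ideal.span {(5 : ℤ)} = Ideal.comap (algebraMap ℤ (𝓞 k)) Q := hQ2.over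
      rw [← h3]
      exact Ideal.mem_span_singleton_self 5
    have h4 : algebraMap ℤ (𝓞 k) 5 ∈ Q := h2
    simpa using h4
  refine ⟨⟨Q, hQ1.isPrime, ?_⟩, h1⟩
  rintro rfl
  rw [Ideal.mem_bot] at h1
  have h2 : ((5 : 𝓞 k) : k) = 0 := by rw [h1]; simp
  have h3 : (5 : k) = 0 := by simpa using h2
  norm_num at h3

/-- a sum of two squares of odd exponent -/
theorem g8b_sum : ∃ (P : HeightOneSpectrum (𝓞 k)) (u : k), 1 + u ^ 2 ≠ 0 ∧
    ord P (1 + u ^ 2) = 1 := by
  obtain ⟨P, hP⟩ := g8b_five (k := k)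
  have h5 : (1 : ℤ) ≤ ord P (5 : k) := by
    have h := (Pool.Agent.H98.MF.le_ord_iff P (5 : 𝓞 k) 1).2 (by rwa [pow_one])
    have e : ((5 : 𝓞 k) : k) = 5 := map_ofNat (algebraMap (𝓞 k) k) 5
    rw [e] at h
    rcases h with h | h
    · exfalso
      have h2 : ((5 : 𝓞 k) : k) = 0 := by rw [h]; simp
      rw [e] at h2
      norm_num at h2
    · exact_mod_cast h
  have h4 : ord P (4 : k) = 0 := by
    have h : (4 : 𝓞 k) ∉ P.asIdeal := by
      intro h
      have h1 : (5 : 𝓞 k) - 4 ∈ P.asIdeal := P.asIdeal.sub_mem hP h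
      have h2 : (5 : 𝓞 k) - 4 = 1 := by norm_num
      rw [h2] at h1
      exact P.isPrime.ne_top ((Ideal.eq_top_iff_one _).2 h1)
    have h1 := Pool.Agent.H98.MF.ord_unit P h
    have e : ((4 : 𝓞 k) : k) = 4 := map_ofNat (algebraMap (𝓞 k) k) 4
    rwa [e] at h1
  rcases eq_or_lt_of_le h5 with h | h
  · refine ⟨P, 2, ?_, ?_⟩
    · norm_num
    · have e : (1 : k) + 2 ^ 2 = 5 := by norm_num
      rw [e, ← h]
  · obtain ⟨π, hπ⟩ := Pool.Agent.H98.MF.exists_unif P
    have hπ0 : (π : k) ≠ 0 := by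
      intro h0
      rw [h0, Pool.Agent.H98.MF.ord_zero] at hπ
      exact absurd hπ (by norm_num)
    have h40 : (4 : k) * π ≠ 0 := mul_ne_zero (by norm_num) hπ0
    have e1 : ord P ((4 : k) * π) = 1 := by
      rw [Pool.Agent.H98.MF.ord_mul P (by norm_num) hπ0, h4, hπ, zero_add]
    have e2 : (5 : k) + (π : k) ^ 2 = 0 ∨ 2 ≤ ord P ((5 : k) + (π : k) ^ 2) := by
      refine Pool.Agent.H98.MF.le_ord_add P 2 (Or.inr (by omega)) (Or.inr ?_)
      rw [Pool.Agent.H98.MF.ord_pow, hπ]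
      norm_num
    have e3 : (5 : k) + (π : k) ^ 2 = 0 ∨ ord P ((4 : k) * π) < ord P ((5 : k) + (π : k) ^ 2) := by
      rcases e2 with e2 | e2
      · exact Or.inl e2
      · right
        rw [e1]
        omega
    obtain ⟨e4, e5⟩ := Pool.Agent.H98.MF.ord_add_eq P h40 e3
    have e6 : 1 + (2 + (π : k)) ^ 2 = (4 : k) * π + (5 + (π : k) ^ 2) := by ring
    refine ⟨P, 2 + π, ?_, ?_⟩
    · rw [e6]
      exact e4
    · rw [e6, e5, e1]

/-- the quadratic extension -/
theorem g8b_qe (a : kˣ) (ha : ¬ IsSquare a) : QE a (FQs a) where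
  deg := by
    have hns : ∀ b : k, b ^ 2 ≠ (a : k) := by
      intro b hb
      apply ha
      have hb0 : b ≠ 0 := by
        rintro rfl
        exact a.ne_zero (by rw [← hb]; ring)
      refine ⟨Units.mk0 b hb0, ?_⟩
      apply Units.ext
      show (a : k) = b * b
      rw [← hb, pow_two]
    have hirr : Irreducible (Polynomial.X ^ 2 - Polynomial.C (a : k)) :=
      X_pow_sub_C_irreducible_of_prime Nat.prime_two hns
    have hmin : minpoly k (Pool.Agent.H98.MF.sq (a : k)) = Polynomial.X ^ 2 - Polynomial.C (a : k) := by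
      refine (minpoly.eq_of_irreducible_of_monic hirr ?_
        (Polynomial.monic_X_pow_sub_C _ two_ne_zero)).symm
      rw [map_sub, map_pow, Polynomial.aeval_X, Polynomial.aeval_C, sq_sq, sub_self]
    have h1 := IntermediateField.adjoin.finrank
      (Algebra.IsIntegral.isIntegral (R := k) (Pool.Agent.H98.MF.sq (a : k)))
    rw [hmin, Polynomial.natDegree_X_pow_sub_C] at h1
    exact h1
  sq := by
    apply Subtype.ext
    show Pool.Agent.H98.MF.sq (a : k) ^ 2 = _
    rw [sq_sq]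
    rfl
  ns := ha

theorem stEx1 : StEx1 (k := k) := by
  intro Fr
  obtain ⟨P, u, hd0, hd1⟩ := g8b_sum (k := k)
  obtain ⟨d, hd⟩ : ∃ d : kˣ, (d : k) = 1 + u ^ 2 := ⟨Units.mk0 _ hd0, rfl⟩
  have hdns : ¬ IsSquare d := by
    rintro ⟨w, hw⟩
    have h1 : ord P (d : k) = ord P (w : k) + ord P (w : k) := by
      rw [hw, Units.val_mul, Pool.Agent.H98.MF.ord_mul P w.ne_zero w.ne_zero]
    rw [hd, hd1] at h1
    omega
  have hu0 : u ≠ 0 := by
    rintro rfl
    apply hdns
    refine ⟨1, Units.ext ?_⟩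
    rw [hd]
    simp
  obtain ⟨z, hz⟩ : IsSquare (d * rep Fr (co Fr d)) := h_co Fr d
  obtain ⟨c, hc⟩ : ∃ c, c = co Fr d := ⟨_, rfl⟩
  rw [← hc] at hz
  have hrns : ¬ IsSquare (rep Fr c) := by
    rintro ⟨w, hw⟩
    apply hdns
    refine ⟨z * w⁻¹, ?_⟩
    have h1 : d * (w * w) = z * z := by rw [← hw]; exact hz
    have h2 : d = z * z * (w * w)⁻¹ := eq_mul_inv_of_mul_eq h1
    rw [h2, mul_inv]
    exact mul_mul_mul_comm _ _ _ _
  refine ⟨c, ?_, ?_⟩
  · rintro rfl
    apply hrns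
    refine ⟨1, ?_⟩
    unfold rep
    simp
  · have hQ := g8b_qe (rep Fr c) hrns
    obtain ⟨r, hr⟩ : ∃ r : kˣ, r = rep Fr c := ⟨_, rfl⟩
    rw [← hr] at hQ hz ⊢
    have hrk : (r : k) ≠ 0 := r.ne_zero
    have hzk : (d : k) * r = z * z := by
      have h1 := congrArg (Units.val) hz
      rw [Units.val_mul, Units.val_mul] at h1
      exact h1
    have hn := Pool.Agent.H98.MF.B.qe_norm_form hQ (d : k) ((z : k) / r)
    have hn2 : Algebra.norm k (algebraMap k (FQ r) (d : k) +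
        algebraMap k (FQ r) ((z : k) / r) * FQs r) = d * u ^ 2 := by
      rw [hn]
      have e1 : (r : k) * ((z : k) / r) ^ 2 = d := by
        field_simp
        linear_combination -hzk
      rw [e1]
      linear_combination (d : k) * hd
    have hne : algebraMap k (FQ r) (d : k) +
        algebraMap k (FQ r) ((z : k) / r) * FQs r ≠ 0 := by
      intro h0
      rw [h0, Algebra.norm_zero] at hn2
      exact mul_ne_zero d.ne_zero (pow_ne_zero 2 hu0) hn2.symm
    refine ⟨Units.mk0 _ hne, z * Units.mk0 u hu0, ?_⟩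
    apply Units.ext
    show (r : k) * Algebra.norm k (algebraMap k (FQ r) (d : k) +
        algebraMap k (FQ r) ((z : k) / r) * FQs r) = (z : k) * u * (z * u)
    rw [hn2]
    linear_combination u ^ 2 * hzk

end

end Pool.Agent.H32.MQ.G
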