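import Pool.Agent.H32.MQ.GStm
import Pool.Agent.H32.MQ.HBase
import Pool.Agent.H98.MF.L.QuadY
import Mathlib.NumberTheory.NumberField.Discriminant.Different

/-!
# Malle's conjecture for 8T28 and 8T29, block G: the discriminant of the quadratic extension
-/

set_option autoImplicit false

open scoped BigOperators
open NumberField IsDedekindDomain

namespace Pool.Agent.H32.MQ.G

open Pool.Agent.H98.MF
open Pool.Agent.H98.ML (Dt Ext)

section

variable {k : Type} [Field k] [NumberField k] {L : Type} [Field L] [NumberField L] [Algebra k L]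

/-- the norm of the relative discriminant is the norm of the different -/
theorem g8d_dN : dN k L = Ideal.absNorm (differentIdeal (𝓞 k) (𝓞 L)) := by
  have h1 := natAbs_discr_eq_absNorm_differentIdeal_mul_natAbs_discr_pow k (𝓞 k) L (𝓞 L)
  have h2 : 0 < (NumberField.discr k).natAbs ^ Module.finrank k L :=
    pow_pos (Int.natAbs_pos.2 (NumberField.discr_ne_zero k)) _
  unfold dN
  rw [h1, Nat.mul_div_cancel _ h2]

theorem g8d_diff_ne : differentIdeal (𝓞 k) (𝓞 L) ≠ ⊥ := by
  intro h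
  have h1 := natAbs_discr_eq_absNorm_differentIdeal_mul_natAbs_discr_pow k (𝓞 k) L (𝓞 L)
  rw [h, Ideal.absNorm_bot, zero_mul, Int.natAbs_eq_zero] at h1
  exact NumberField.discr_ne_zero L h1

/-- a prime at which a square of `L` has odd exponent is ramified -/
theorem g8d_ram {P : HeightOneSpectrum (𝓞 k)} {Q : HeightOneSpectrum (𝓞 L)} (h : Over P Q)
    {a : k} (ha : ord P a = 1) {s : L} (hs : s ^ 2 = algebraMap k L a) :
    2 ≤ P.asIdeal.ramificationIdx' Q.asIdeal := by
  have h1 := h.ord_map (L := L) a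
  rw [ha, mul_one, ← hs, Pool.Agent.H98.MF.B.ord_pow] at h1
  have h2 := h.ram_pos
  push_cast at h1
  omega

/-- a ramified prime divides the different -/
theorem g8d_dvd {P : HeightOneSpectrum (𝓞 k)} {Q : HeightOneSpectrum (𝓞 L)}
    (h2 : 2 ≤ P.asIdeal.ramificationIdx' Q.asIdeal) :
    Q.asIdeal ∣ differentIdeal (𝓞 k) (𝓞 L) := by
  have h3 : Ideal.map (algebraMap (𝓞 k) (𝓞 L)) P.asIdeal ≤ Q.asIdeal ^ 2 :=
    Ideal.le_pow_of_le_ramificationIdx' h2
  have := P.isMaximal
  have h4 := pow_sub_one_dvd_differentIdeal (𝓞 k) Q.asIdeal 2 P.ne_bot (Ideal.dvd_iff_le.2 h3)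
  rwa [show 2 - 1 = 1 from rfl, pow_one] at h4

theorem g8d_norm {P : HeightOneSpectrum (𝓞 k)} {Q : HeightOneSpectrum (𝓞 L)} (h : Over P Q) :
    nrm P ≤ Ideal.absNorm Q.asIdeal := by
  rw [over_absNorm h]
  refine Nat.le_self_pow ?_ _
  intro h0
  have h1 := over_absNorm h
  rw [h0, pow_zero, Ideal.absNorm_eq_one_iff] at h1
  exact Q.isPrime.ne_top h1

end

theorem stDN {k : Type} [Field k] [NumberField k] (_hQ : StQE (k := k)) : StDN (k := k) := by
  classical
  intro Fr c _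
  set a : kˣ := rep Fr c with ha
  choose Q hQ using fun P : HeightOneSpectrum (𝓞 k) => exists_over (L := FQ a) P
  have hs : (FQs a) ^ 2 = algebraMap k (FQ a) (a : k) := by
    apply Subtype.ext
    exact sq_sq (a : k)
  have h1 : ∀ p ∈ c.2, (Q (Fr.pl p)).asIdeal ∣ differentIdeal (𝓞 k) (𝓞 (FQ a)) := by
    intro p hp
    have ho : ord (Fr.pl p) (a : k) = 1 := by
      rw [ha, h_repO Fr c p, if_pos hp]
    exact g8d_dvd (g8d_ram (hQ _) ho hs)
  have h2 : ∏ p ∈ c.2, (Q (Fr.pl p)).asIdeal ∣ differentIdeal (𝓞 k) (𝓞 (FQ a)) := by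
    apply Finset.prod_dvd_of_coprime
    · intro p _ q _ hpq
      have h3 : (Q (Fr.pl p)).asIdeal ≠ (Q (Fr.pl q)).asIdeal := by
        intro h
        apply hpq
        apply Fr.pl_inj
        apply HeightOneSpectrum.ext
        have e1 : (Q (Fr.pl p)).asIdeal.comap (algebraMap (𝓞 k) (𝓞 (FQ a))) =
          (Fr.pl p).asIdeal := hQ _
        have e2 : (Q (Fr.pl q)).asIdeal.comap (algebraMap (𝓞 k) (𝓞 (FQ a))) =
          (Fr.pl q).asIdeal := hQ _
        rw [← e1, ← e2, h]
      exact Ideal.isCoprime_of_isMaximal h3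
    · exact h1
  rw [g8d_dN]
  have h3 : Fr.sys.nm c.2 ≤ Ideal.absNorm (∏ p ∈ c.2, (Q (Fr.pl p)).asIdeal) := by
    rw [map_prod]
    refine Finset.prod_le_prod' fun p _ => ?_
    rw [Fr.N_eq]
    exact g8d_norm (hQ _)
  refine h3.trans (Nat.le_of_dvd ?_ (map_dvd Ideal.absNorm h2))
  rw [Nat.pos_iff_ne_zero]
  exact fun h => g8d_diff_ne (Ideal.absNorm_eq_zero_iff.1 h)

end Pool.Agent.H32.MQ.G
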