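import Pool.Agent.H32.MQ.GStm
import Pool.Agent.H98.MF.L.QuadX

/-!
# Malle's conjecture for 8T28 and 8T29 over number fields, row G8e: the partition by the exceptional
primes
-/

set_option autoImplicit false

open scoped BigOperators
open NumberField IsDedekindDomain

namespace Pool.Agent.H32.MQ.G

open Pool.Agent.H98.MF
open Pool.Agent.H98.ML (Dt Ext)

section

variable {k : Type} [Field k] [NumberField k] {L : Type} [Field L] [NumberField L]
  [Algebra k L]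

theorem g8e_two (E : QX k L) {P : HeightOneSpectrum (𝓞 k)} (hP : P ∉ E.M)
    {Q : HeightOneSpectrum (𝓞 L)} (hQ : Over P Q) : ord Q (2 : L) = 0 := by
  have h0 : ord P (2 : k) = 0 := by
    by_contra h0
    apply hP
    apply E.two
    have h1 : (2 : k) = ((2 : 𝓞 k) : k) := rc_two.symm
    have h2 := ord_int_nonneg P (2 : 𝓞 k)
    rw [h1] at h0 ⊢
    exact lt_of_le_of_ne h2 (Ne.symm h0)
  have h3 := hQ.ord_map (2 : k)
  rw [h0, mul_zero, map_ofNat] at h3
  exact h3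

/-- only finitely many primes are exceptional -/
theorem g8e_fin (E : QX k L) (RL : Rx L) (b : ZMod 2) (ρ : Gm L →* Ext D4) (h : ρ ∈ E.Lf b) :
    {P : HeightOneSpectrum (𝓞 k) | P ∉ E.M ∧ E.Oth RL ρ P}.Finite := by
  obtain ⟨γ, t, hm, -⟩ := h
  have h1 := Pool.Agent.H98.MF.B.ord_finite (γ : L) (Units.ne_zero _)
  have h2 := Pool.Agent.H98.MF.B.ord_finite
    ((E.δ * Units.map (algebraMap k L : k →* L) t : Lˣ) : L) (Units.ne_zero _)
  refine ((h1.union h2).image (HeightOneSpectrum.under (𝓞 k))).subset ?_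
  rintro P ⟨hP, hO⟩
  have h3 : ¬ ∀ Q : HeightOneSpectrum (𝓞 L), Over P Q → QX.vv RL ρ Q = 0 := hO.1
  push Not at h3
  obtain ⟨Q, hQ, hv⟩ := h3
  refine ⟨Q, ?_, HeightOneSpectrum.ext hQ⟩
  by_contra hn
  rw [Set.mem_union, not_or] at hn
  have e1 : ord Q (γ : L) = 0 := not_not.1 hn.1
  have e2 : ord Q ((E.δ * Units.map (algebraMap k L : k →* L) t : Lˣ) : L) = 0 := not_not.1 hn.2
  have h4 := g8e_two E hP hQ
  have f0 : c0 (ρ (RL.tau Q)) = 0 := by
    rw [hm.gam, RL.chi Q h4, e1]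
    rfl
  have f1 : c1 (ρ (RL.tau Q)) = 0 := by
    have h5 := RL.chi Q h4 (E.δ * Units.map (algebraMap k L : k →* L) t)
    rw [e2] at h5
    rw [hm.del]
    exact h5
  apply hv
  funext i
  have hi : i = 0 ∨ i = 1 := by
    revert i
    decide
  rcases hi with rfl | rfl
  · exact f0
  · exact f1

/-- there are only finitely many sets of primes of bounded norm -/
theorem g8e_bd (Y : ℝ) : {R : Finset (HeightOneSpectrum (𝓞 k)) | (nmR R : ℝ) ^ 2 ≤ Y}.Finite := by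
  classical
  have h1 : {P : HeightOneSpectrum (𝓞 k) | nrm P ≤ ⌊Y⌋₊}.Finite := by
    refine ((Ideal.finite_setOfPred_absNorm_le (S := 𝓞 k) ⌊Y⌋₊).preimage
      (f := fun P : HeightOneSpectrum (𝓞 k) => P.asIdeal) ?_).subset fun P hP => hP
    intro P _ P' _ h
    exact HeightOneSpectrum.ext h
  refine (h1.toFinset.powerset.finite_toSet).subset ?_
  intro R hR
  have hR' : (nmR R : ℝ) ^ 2 ≤ Y := hR
  rw [Finset.mem_coe, Finset.mem_powerset]
  intro P hP
  rw [Set.Finite.mem_toFinset]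
  show nrm P ≤ ⌊Y⌋₊
  have h2 : nrm P ≤ nmR R := by
    unfold nmR
    refine Nat.le_of_dvd (Finset.prod_pos fun Q _ => Pool.Agent.H98.MF.B.nrm_pos Q) ?_
    exact Finset.dvd_prod_of_mem _ hP
  have h3 : nmR R ≤ nmR R ^ 2 := Nat.le_self_pow two_ne_zero _
  have h4 : ((nmR R ^ 2 : ℕ) : ℝ) ≤ Y := by
    rw [Nat.cast_pow]
    exact hR'
  exact h2.trans (h3.trans (Nat.le_floor h4))

end

theorem stSumR {k : Type} [Field k] [NumberField k] : StSumR (k := k) := by
  intro L _ _ _ E RL b Y hY h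
  classical
  -- the exceptional primes
  have hex : ∀ ρ ∈ E.Lf b, ∃ R : Finset (HeightOneSpectrum (𝓞 k)), Disjoint R E.M ∧
      ∀ P, P ∉ E.M → (P ∈ R ↔ E.Oth RL ρ P) := by
    intro ρ hρ
    refine ⟨(g8e_fin E RL b ρ hρ).toFinset, ?_, ?_⟩
    · rw [Finset.disjoint_left]
      intro P hP
      rw [Set.Finite.mem_toFinset] at hP
      exact hP.1
    · intro P hP
      rw [Set.Finite.mem_toFinset]
      exact ⟨fun h => h.2, fun h => ⟨hP, h⟩⟩
  have huq : ∀ (ρ : Gm L →* Ext D4) (R R' : Finset (HeightOneSpectrum (𝓞 k))),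
      Disjoint R E.M → Disjoint R' E.M → (∀ P, P ∉ E.M → (P ∈ R ↔ E.Oth RL ρ P)) →
      (∀ P, P ∉ E.M → (P ∈ R' ↔ E.Oth RL ρ P)) → R = R' := by
    intro ρ R R' h1 h2 h3 h4
    ext P
    by_cases hP : P ∈ E.M
    · exact ⟨fun h => absurd hP (Finset.disjoint_left.1 h1 h),
        fun h => absurd hP (Finset.disjoint_left.1 h2 h)⟩
    · rw [h3 P hP, h4 P hP]
  -- the sets with objects
  have hT : {R : {R : Finset (HeightOneSpectrum (𝓞 k)) // Disjoint R E.M} |
      (E.Cn RL (E.Onto b) R.1 Y).Nonempty}.Finite := by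
    refine ((g8e_bd (k := k) Y).preimage Subtype.val_injective.injOn).subset fun R hR => ?_
    exact (h R.1 R.2).2 hR
  -- the union
  have hU : {ρ | ρ ∈ E.Lf b ∧ (QX.dn ρ : ℝ) ≤ Y ^ 2} =
      (((hT.toFinset).biUnion fun R => (h R.1 R.2).1.toFinset : Finset (Gm L →* Ext D4)) :
        Set (Gm L →* Ext D4)) := by
    ext ρ
    rw [Finset.mem_coe, Finset.mem_biUnion]
    constructor
    · rintro ⟨h1, h2⟩
      obtain ⟨R, hR, hR'⟩ := hex ρ h1
      have h3 : ρ ∈ E.Cn RL (E.Onto b) R Y := ⟨⟨h1, hR'⟩, h2⟩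
      refine ⟨⟨R, hR⟩, ?_, ?_⟩
      · rw [Set.Finite.mem_toFinset]
        exact ⟨ρ, h3⟩
      · rw [Set.Finite.mem_toFinset]
        exact h3
    · rintro ⟨R, -, hR⟩
      rw [Set.Finite.mem_toFinset] at hR
      exact ⟨hR.1.1, hR.2⟩
  refine ⟨?_, ?_⟩
  · rw [hU]
    exact Finset.finite_toSet _
  have hAF : E.AF b Y = ∑ R ∈ hT.toFinset, (E.Cn RL (E.Onto b) R.1 Y).ncard := by
    have h1 : E.AF b Y = {ρ | ρ ∈ E.Lf b ∧ (QX.dn ρ : ℝ) ≤ Y ^ 2}.ncard := rfl
    rw [h1, hU, Set.ncard_coe_finset, Finset.card_biUnion]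
    · refine Finset.sum_congr rfl fun R _ => ?_
      rw [Set.ncard_eq_toFinset_card _ (h R.1 R.2).1]
    · intro R _ R' _ hne
      refine Finset.disjoint_left.2 ?_
      intro ρ h2 h3
      rw [Set.Finite.mem_toFinset] at h2 h3
      exact hne (Subtype.ext (huq ρ R.1 R'.1 R.2 R'.2 h2.1.2 h3.1.2))
  rw [hAF, Nat.cast_sum]
  refine hasSum_sum_of_ne_finset_zero ?_
  intro R hR
  rw [Set.Finite.mem_toFinset] at hR
  have h1 : E.Cn RL (E.Onto b) R.1 Y = ∅ := Set.not_nonempty_iff_eq_empty.1 hR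
  rw [h1, Set.ncard_empty, Nat.cast_zero]

end Pool.Agent.H32.MQ.G
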