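import Pool.Agent.H32.MQ.GStm
import Pool.Agent.H32.MQ.UA

/-!
# Malle's conjecture for 8T28 and 8T29 over number fields, row G8f: sums over sets of primes
-/

set_option autoImplicit false

open scoped BigOperators
open NumberField IsDedekindDomain

namespace Pool.Agent.H32.MQ.G

open Pool.Agent.H98.MF

section

variable {k : Type} [Field k] [NumberField k]

private theorem g8f_one (S : Sys) (s : ℝ) (hs : 1 < s) :
    Summable (fun x : Finset S.P => ((S.nm x : ℝ) ^ s)⁻¹) := by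
  have h1 := ua_sum1 (S := S) s hs 1 zero_le_one
  refine h1.congr fun x => ?_
  simp only [one_mul]
  rw [← ua_nm_rpow x (-s), Real.rpow_neg (Nat.cast_nonneg _)]

/-- the primes of the frame in a set -/
private noncomputable def g8f_j (Fr : Frm k) (R : Finset (HeightOneSpectrum (𝓞 k))) :
    Finset Fr.sys.P := R.preimage Fr.pl Fr.pl_inj.injOn

private theorem g8f_image (Fr : Frm k) (R : Finset (HeightOneSpectrum (𝓞 k)))
    (hR : Disjoint R Fr.S) (P : HeightOneSpectrum (𝓞 k)) :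
    P ∈ R ↔ ∃ p ∈ g8f_j Fr R, Fr.pl p = P := by
  constructor
  · intro hP
    have h1 : P ∉ Fr.S := Finset.disjoint_left.1 hR hP
    obtain ⟨p, rfl⟩ := (Fr.pl_iff P).2 h1
    exact ⟨p, Finset.mem_preimage.2 hP, rfl⟩
  · rintro ⟨p, hp, rfl⟩
    exact Finset.mem_preimage.1 hp

private theorem g8f_nm (Fr : Frm k) (R : Finset (HeightOneSpectrum (𝓞 k)))
    (hR : Disjoint R Fr.S) : nmR R = Fr.sys.nm (g8f_j Fr R) := by
  classical
  have h1 : R = (g8f_j Fr R).image Fr.pl := by
    ext P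
    rw [g8f_image Fr R hR P, Finset.mem_image]
  have h2 : nmR R = ∏ P ∈ (g8f_j Fr R).image Fr.pl, nrm P := by
    rw [← h1]
    rfl
  rw [h2, Finset.prod_image fun p _ q _ h => Fr.pl_inj h]
  unfold Pre.nm
  exact Finset.prod_congr rfl fun p _ => (Fr.N_eq p).symm

/-- G8f: the sums over sets of primes -/
theorem stSm : StSm (k := k) := by
  intro Fr s hs
  have h0 := g8f_one Fr.sys s hs
  refine ⟨h0, fun M hM => ?_⟩
  let j : {R : Finset (HeightOneSpectrum (𝓞 k)) // Disjoint R M} → Finset Fr.sys.P :=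
    fun R => g8f_j Fr R.1
  have hd : ∀ R : {R : Finset (HeightOneSpectrum (𝓞 k)) // Disjoint R M},
      Disjoint R.1 Fr.S := fun R => Disjoint.mono_right hM R.2
  have hj : Function.Injective j := by
    intro R R' h
    apply Subtype.ext
    ext P
    rw [g8f_image Fr R.1 (hd R) P, g8f_image Fr R'.1 (hd R') P]
    have h' : g8f_j Fr R.1 = g8f_j Fr R'.1 := h
    rw [h']
  have he : (fun R : {R : Finset (HeightOneSpectrum (𝓞 k)) // Disjoint R M} =>
      ((nmR R.1 : ℝ) ^ s)⁻¹) = (fun x : Finset Fr.sys.P => ((Fr.sys.nm x : ℝ) ^ s)⁻¹) ∘ j := by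
    funext R
    show ((nmR R.1 : ℝ) ^ s)⁻¹ = ((Fr.sys.nm (g8f_j Fr R.1) : ℝ) ^ s)⁻¹
    rw [g8f_nm Fr R.1 (hd R)]
  rw [he]
  have h1 := h0.comp_injective hj
  refine ⟨h1, ?_⟩
  refine Summable.tsum_le_tsum_of_inj j hj (fun x _ => ?_) (fun R => le_refl _) h1 h0
  positivity

end

end Pool.Agent.H32.MQ.G
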