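import Pool.Agent.H32.MQ.XOn

/-!
# Malle's conjecture for 8T28 and 8T29 over number fields, block G: the groups, the counts over `k`
and over a quadratic extension

`W` is the wreath product of `D_4` and `C_2` (the Sylow 2-subgroup of `S_8`), `Gb 0` is 8T29 and
`Gb 1` is 8T28.
-/

set_option autoImplicit false

open scoped BigOperators
open NumberField IsDedekindDomain

namespace Pool.Agent.H32.MQ

open Pool.Agent.H98.MF
open Pool.Agent.H98.ML (Dt Ext)

/-- the wreath product of `D_4` and `C_2` -/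
@[ext] structure W where
  x : Ext D4
  y : Ext D4
  e : ZMod 2

theorem c0_mul (g h : Ext D4) : c0 (g * h) = c0 g + c0 h := rfl

theorem c1_mul (g h : Ext D4) : c1 (g * h) = c1 g + c1 h := rfl

theorem cz_mul (g h : Ext D4) : cz (g * h) = cz g + cz h + c0 g * c1 h := rfl

theorem z2_or (e : ZMod 2) : e = 0 ∨ e = 1 := by
  revert e
  decide

theorem z2_one_add : (1 : ZMod 2) + 1 = 0 := rfl

namespace W

instance : Mul W := ⟨fun a b => ⟨a.x * (if a.e = 0 then b.x else b.y),
  a.y * (if a.e = 0 then b.y else b.x), a.e + b.e⟩⟩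
instance : One W := ⟨⟨1, 1, 0⟩⟩
instance : Inv W := ⟨fun a => ⟨if a.e = 0 then a.x⁻¹ else a.y⁻¹, if a.e = 0 then a.y⁻¹ else a.x⁻¹,
  a.e⟩⟩

theorem mul_def (a b : W) : a * b = ⟨a.x * (if a.e = 0 then b.x else b.y),
  a.y * (if a.e = 0 then b.y else b.x), a.e + b.e⟩ := rfl

theorem inv_def (a : W) : a⁻¹ = ⟨if a.e = 0 then a.x⁻¹ else a.y⁻¹,
  if a.e = 0 then a.y⁻¹ else a.x⁻¹, a.e⟩ := rfl

theorem one_def : (1 : W) = ⟨1, 1, 0⟩ := rfl

theorem one_ne : (1 : ZMod 2) ≠ 0 := by decide

theorem assoc0 (a b c : W) : a * b * c = a * (b * c) := by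
  obtain ⟨x, y, e⟩ := a
  obtain ⟨x', y', e'⟩ := b
  obtain ⟨x'', y'', e''⟩ := c
  simp only [mul_def]
  rcases z2_or e with rfl | rfl <;> rcases z2_or e' with rfl | rfl
  · simp only [if_true, add_zero, zero_add, mul_assoc]
  · simp only [if_true, if_neg one_ne, zero_add, mul_assoc]
  · simp only [if_true, if_neg one_ne, add_zero, zero_add, mul_assoc]
  · simp only [z2_one_add, if_true, if_neg one_ne, mul_assoc]
    ext1
    · rfl
    · rfl
    · show (0 : ZMod 2) + e'' = 1 + (1 + e'')
      rw [← add_assoc, z2_one_add]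

instance : Group W :=
  Group.ofLeftAxioms assoc0
    (fun a => by
      obtain ⟨x, y, e⟩ := a
      simp only [mul_def, one_def, if_true, one_mul, zero_add])
    (fun a => by
      obtain ⟨x, y, e⟩ := a
      rcases z2_or e with rfl | rfl
      · simp only [mul_def, inv_def, one_def, if_true, inv_mul_cancel, add_zero]
      · simp only [mul_def, inv_def, one_def, if_neg one_ne, inv_mul_cancel, z2_one_add])

/-- the quotient `C_2` -/
def eH (a : W) : ZMod 2 := a.e

theorem mul_e (a b : W) : (a * b).e = a.e + b.e := rfl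

/-- the stabiliser of a point in the representation of degree 8 -/
def H1 : Subgroup W where
  carrier := {w | w.e = 0 ∧ w.x ∈ H4}
  one_mem' := ⟨rfl, H4.one_mem⟩
  mul_mem' := by
    rintro a b ⟨ha, ha'⟩ ⟨hb, hb'⟩
    refine ⟨?_, ?_⟩
    · show a.e + b.e = 0
      rw [ha, hb, add_zero]
    · show a.x * (if a.e = 0 then b.x else b.y) ∈ H4
      rw [if_pos ha]
      exact H4.mul_mem ha' hb'
  inv_mem' := by
    rintro a ⟨ha, ha'⟩
    refine ⟨ha, ?_⟩
    show (if a.e = 0 then a.x⁻¹ else a.y⁻¹) ∈ H4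
    rw [if_pos ha]
    exact H4.inv_mem ha'

theorem c1_inv (g : Ext D4) : c1 g⁻¹ = c1 g := rfl

/-- `b = 0`: the group 8T29; `b = 1`: the group 8T28 -/
def Gb (b : ZMod 2) : Subgroup W where
  carrier := {w | c1 w.x + c1 w.y = b * w.e}
  one_mem' := by
    show (0 : ZMod 2) + 0 = b * 0
    rw [mul_zero, add_zero]
  mul_mem' := by
    rintro a c ha hc
    have ha1 : c1 a.x + c1 a.y = b * a.e := ha
    have hc1 : c1 c.x + c1 c.y = b * c.e := hc
    show c1 (a.x * (if a.e = 0 then c.x else c.y)) + c1 (a.y * (if a.e = 0 then c.y else c.x)) =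
      b * (a.e + c.e)
    rw [c1_mul, c1_mul]
    split_ifs with h
    · linear_combination ha1 + hc1
    · linear_combination ha1 + hc1
  inv_mem' := by
    rintro a ha
    have ha1 : c1 a.x + c1 a.y = b * a.e := ha
    show c1 (if a.e = 0 then a.x⁻¹ else a.y⁻¹) + c1 (if a.e = 0 then a.y⁻¹ else a.x⁻¹) = b * a.e
    split_ifs with h
    · rw [c1_inv, c1_inv]
      exact ha1
    · rw [c1_inv, c1_inv, add_comm]
      exact ha1

end W

/-! ### the data over a quadratic extension -/

section

variable {k : Type} [Field k] [NumberField k] {L : Type} [Field L] [NumberField L] [Algebra k L]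

/-- the homomorphisms to `D_4` for the quadratic extension -/
def QX.Lf (E : QX k L) (b : ZMod 2) : Set (Gm L →* Ext D4) :=
  {ρ | ∃ γ t, E.Hm ρ γ t ∧ E.Onto b γ t}

/-- the count for the quadratic extension -/
noncomputable def QX.AF (E : QX k L) (b : ZMod 2) (Y : ℝ) : ℕ :=
  {ρ : Gm L →* Ext D4 | ρ ∈ E.Lf b ∧ (QX.dn ρ : ℝ) ≤ Y ^ 2}.ncard

end

/-- the norm of the relative discriminant of `L/k` -/
noncomputable def dN (k L : Type) [Field k] [NumberField k] [Field L] [NumberField L]
    [Algebra k L] : ℕ :=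
  (NumberField.discr L).natAbs / (NumberField.discr k).natAbs ^ Module.finrank k L

section

variable (k : Type) [Field k] [NumberField k]

/-- the homomorphisms over `k` -/
def HomG (b : ZMod 2) : Set (Gm k →* W) := {ρ | IsLocallyConstant ρ ∧ ρ.range = W.Gb b}

/-- the homomorphisms of bounded discriminant over `k` -/
def CntG (b : ZMod 2) (X : ℝ) : Set (Gm k →* W) :=
  {ρ | ρ ∈ HomG k b ∧ (rdN (fld k (W.H1.comap ρ)) : ℝ) ≤ X}

end

end Pool.Agent.H32.MQ
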