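import Pool.Agent.H32.MQ.GStm

/-!
# Malle's conjecture for 8T28 and 8T29 over number fields: the Frattini quotients of the groups
-/

set_option autoImplicit false

open NumberField IsDedekindDomain

namespace Pool.Agent.H32.MQ.G

open Pool.Agent.H98.MF
open Pool.Agent.H98.ML (Dt Ext)

namespace Frt

/-- an element of the dihedral group by coordinates -/
def el (a b c : ZMod 2) : Ext D4 := ⟨![a, b], ![c]⟩

theorem el_mul (a b c a' b' c' : ZMod 2) :
    el a b c * el a' b' c' = el (a + a') (b + b') (c + c' + a * b') := by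
  apply Pool.Agent.H98.ML.Ext.ext
  · funext i
    fin_cases i <;> rfl
  · funext i
    fin_cases i
    rfl

theorem el_eta (x : Ext D4) : x = el (c0 x) (c1 x) (cz x) := by
  apply Pool.Agent.H98.ML.Ext.ext
  · funext i
    fin_cases i <;> rfl
  · funext i
    fin_cases i
    rfl

/-- an element of the wreath product by coordinates -/
def we (a b c a' b' c' e : ZMod 2) : W := ⟨el a b c, el a' b' c', e⟩

theorem we_eta (w : W) :
    w = we (c0 w.x) (c1 w.x) (cz w.x) (c0 w.y) (c1 w.y) (cz w.y) w.e := by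
  obtain ⟨x, y, e⟩ := w
  apply W.ext
  · exact el_eta x
  · exact el_eta y
  · rfl

theorem we_mul0 (a b c a' b' c' p q r p' q' r' e : ZMod 2) :
    we a b c a' b' c' 0 * we p q r p' q' r' e =
      we (a + p) (b + q) (c + r + a * q) (a' + p') (b' + q') (c' + r' + a' * q') e := by
  unfold we
  rw [W.mul_def]
  simp only [if_true, el_mul, zero_add]

theorem we_mul1 (a b c a' b' c' p q r p' q' r' e : ZMod 2) :
    we a b c a' b' c' 1 * we p q r p' q' r' e =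
      we (a + p') (b + q') (c + r' + a * q') (a' + p) (b' + q) (c' + r + a' * q) (1 + e) := by
  unfold we
  rw [W.mul_def]
  simp only [if_neg W.one_ne, el_mul]

theorem we_mem (β a b c a' b' c' e : ZMod 2) :
    we a b c a' b' c' e ∈ W.Gb β ↔ b + b' = β * e := Iff.rfl

theorem z2_self (a : ZMod 2) : a + a = 0 := by
  revert a
  decide

section

variable {β : ZMod 2} {F : W → ZMod 2}
  (hF : ∀ w w', w ∈ W.Gb β → w' ∈ W.Gb β → F (w * w') = F w + F w')

include hF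

theorem F_one : F (we 0 0 0 0 0 0 0) = 0 := by
  have h := hF (we 0 0 0 0 0 0 0) (we 0 0 0 0 0 0 0)
    ((we_mem β 0 0 0 0 0 0 0).2 (by simp)) ((we_mem β 0 0 0 0 0 0 0).2 (by simp))
  have h2 : we 0 0 0 0 0 0 0 * we 0 0 0 0 0 0 0 = we 0 0 0 0 0 0 0 := by
    rw [we_mul0]
    rfl
  rw [h2] at h
  exact left_eq_add.1 h

theorem F_comm (w w' z : W) (hw : w ∈ W.Gb β) (hw' : w' ∈ W.Gb β) (hz : z ∈ W.Gb β)
    (h : w * w' = z * (w' * w)) : F z = 0 := by
  have h1 := hF w w' hw hw'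
  rw [h, hF z _ hz ((W.Gb β).mul_mem hw' hw), hF w' w hw' hw, add_comm (F w') (F w)] at h1
  exact add_eq_right.1 h1

theorem F_z1 : F (we 0 0 1 0 0 0 0) = 0 := by
  refine F_comm hF (we 1 0 0 0 0 0 0) (we 0 1 0 0 1 0 0) _ ((we_mem _ _ _ _ _ _ _ _).2 (by simp))
    ((we_mem _ _ _ _ _ _ _ _).2 ?_) ((we_mem _ _ _ _ _ _ _ _).2 (by simp)) ?_
  · rw [mul_zero]
    rfl
  · rw [we_mul0, we_mul0, we_mul0]
    rfl

theorem F_z2 : F (we 0 0 0 0 0 1 0) = 0 := by
  refine F_comm hF (we 0 0 0 1 0 0 0) (we 0 1 0 0 1 0 0) _ ((we_mem _ _ _ _ _ _ _ _).2 (by simp))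
    ((we_mem _ _ _ _ _ _ _ _).2 ?_) ((we_mem _ _ _ _ _ _ _ _).2 (by simp)) ?_
  · rw [mul_zero]
    rfl
  · rw [we_mul0, we_mul0, we_mul0]
    rfl

theorem F_e0 (hB : F (we 0 0 0 1 0 0 0) = F (we 1 0 0 0 0 0 0)) (a b c a' c' : ZMod 2) :
    F (we a b c a' b c' 0) = F (we 1 0 0 0 0 0 0) * (a + a') + F (we 0 1 0 0 1 0 0) * b := by
  have h1 : ∀ a : ZMod 2, F (we a 0 0 0 0 0 0) = F (we 1 0 0 0 0 0 0) * a := by
    intro a
    rcases z2_or a with rfl | rfl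
    · rw [mul_zero, F_one hF]
    · rw [mul_one]
  have h2 : ∀ a : ZMod 2, F (we 0 0 0 a 0 0 0) = F (we 1 0 0 0 0 0 0) * a := by
    intro a
    rcases z2_or a with rfl | rfl
    · rw [mul_zero, F_one hF]
    · rw [mul_one, hB]
  have h3 : ∀ a : ZMod 2, F (we 0 0 a 0 0 0 0) = 0 := by
    intro a
    rcases z2_or a with rfl | rfl
    · exact F_one hF
    · exact F_z1 hF
  have h4 : ∀ a : ZMod 2, F (we 0 0 0 0 0 a 0) = 0 := by
    intro a
    rcases z2_or a with rfl | rfl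
    · exact F_one hF
    · exact F_z2 hF
  have h5 : ∀ a : ZMod 2, F (we 0 a 0 0 a 0 0) = F (we 0 1 0 0 1 0 0) * a := by
    intro a
    rcases z2_or a with rfl | rfl
    · rw [mul_zero, F_one hF]
    · rw [mul_one]
  have hm : ∀ a b c a' c' : ZMod 2, we a b c a' b c' 0 ∈ W.Gb β := by
    intro a b c a' c'
    rw [we_mem, mul_zero]
    exact z2_self b
  have e1 : we a b c a' b c' 0 = we a 0 0 0 0 0 0 * (we 0 0 0 a' 0 0 0 * (we 0 b 0 0 b 0 0 *
      (we 0 0 (c + a * b) 0 0 0 0 * we 0 0 0 0 0 (c' + a' * b) 0))) := by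
    simp only [we_mul0, add_zero, zero_add, zero_mul, mul_zero]
    rw [add_assoc c, add_assoc c', z2_self, z2_self, add_zero, add_zero]
  have m5 := hm 0 0 0 0 (c' + a' * b)
  have m4 := hm 0 0 (c + a * b) 0 0
  have m3 := hm 0 b 0 0 0
  have m2 := hm 0 0 0 a' 0
  have m1 := hm a 0 0 0 0
  have m45 := (W.Gb β).mul_mem m4 m5
  have m345 := (W.Gb β).mul_mem m3 m45
  have m2345 := (W.Gb β).mul_mem m2 m345
  rw [e1, hF _ _ m1 m2345, hF _ _ m2 m345, hF _ _ m3 m45, hF _ _ m4 m5, h1, h2, h3, h4, h5]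
  ring

end

theorem F_gb0 {F : W → ZMod 2}
    (hF : ∀ w w', w ∈ W.Gb 0 → w' ∈ W.Gb 0 → F (w * w') = F w + F w') :
    ∃ l m n : ZMod 2, ∀ w ∈ W.Gb 0, F w = l * w.e + m * (c0 w.x + c0 w.y) + n * c1 w.x := by
  have hA : we 0 0 0 0 0 0 1 ∈ W.Gb 0 := by
    rw [we_mem]
    rfl
  have hB1 : we 1 0 0 0 0 0 0 ∈ W.Gb 0 := by
    rw [we_mem]
    rfl
  have hB2 : we 0 0 0 1 0 0 0 ∈ W.Gb 0 := by
    rw [we_mem]
    rfl
  have hB : F (we 0 0 0 1 0 0 0) = F (we 1 0 0 0 0 0 0) := by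
    have h1 := hF _ _ hA hB1
    have h2 := hF _ _ hB2 hA
    rw [we_mul1] at h1
    rw [we_mul0] at h2
    have h3 := h1.symm.trans h2
    rw [add_comm] at h3
    exact (add_right_cancel h3).symm
  have hE : ∀ e : ZMod 2, F (we 0 0 0 0 0 0 e) = F (we 0 0 0 0 0 0 1) * e := by
    intro e
    rcases z2_or e with rfl | rfl
    · rw [mul_zero, F_one hF]
    · rw [mul_one]
  refine ⟨F (we 0 0 0 0 0 0 1), F (we 1 0 0 0 0 0 0), F (we 0 1 0 0 1 0 0), fun w hw => ?_⟩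
  have hw1 : c1 w.x + c1 w.y = 0 * w.e := hw
  rw [zero_mul] at hw1
  have hw2 : c1 w.y = c1 w.x := by
    have := z2_self (c1 w.y)
    linear_combination this - hw1
  have hm : we (c0 w.x) (c1 w.x) (cz w.x) (c0 w.y) (c1 w.x) (cz w.y) 0 ∈ W.Gb 0 := by
    rw [we_mem, zero_mul]
    exact z2_self _
  have he : we 0 0 0 0 0 0 w.e ∈ W.Gb 0 := by
    rw [we_mem, zero_mul]
    rfl
  have e1 : w = we (c0 w.x) (c1 w.x) (cz w.x) (c0 w.y) (c1 w.x) (cz w.y) 0 *
      we 0 0 0 0 0 0 w.e := by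
    rw [we_mul0]
    simp only [add_zero, mul_zero]
    have h5 := we_eta w
    rw [hw2] at h5
    exact h5
  have e2 := F_e0 hF hB (c0 w.x) (c1 w.x) (cz w.x) (c0 w.y) (cz w.y)
  calc F w = F (we (c0 w.x) (c1 w.x) (cz w.x) (c0 w.y) (c1 w.x) (cz w.y) 0 *
      we 0 0 0 0 0 0 w.e) := by rw [← e1]
    _ = F (we (c0 w.x) (c1 w.x) (cz w.x) (c0 w.y) (c1 w.x) (cz w.y) 0) +
      F (we 0 0 0 0 0 0 w.e) := hF _ _ hm he
    _ = _ := by
      rw [e2, hE]
      ring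

theorem F_gb1 {F : W → ZMod 2}
    (hF : ∀ w w', w ∈ W.Gb 1 → w' ∈ W.Gb 1 → F (w * w') = F w + F w') :
    ∃ l m : ZMod 2, ∀ w ∈ W.Gb 1, F w = l * w.e + m * (c0 w.x + c0 w.y) := by
  have hA : we 0 1 0 0 0 0 1 ∈ W.Gb 1 := by
    rw [we_mem]
    rfl
  have hB1 : we 1 0 0 0 0 0 0 ∈ W.Gb 1 := by
    rw [we_mem]
    rfl
  have hB2 : we 0 0 0 1 0 0 0 ∈ W.Gb 1 := by
    rw [we_mem]
    rfl
  have hB : F (we 0 0 0 1 0 0 0) = F (we 1 0 0 0 0 0 0) := by
    have h1 := hF _ _ hA hB1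
    have h2 := hF _ _ hB2 hA
    rw [we_mul1] at h1
    rw [we_mul0] at h2
    have h3 := h1.symm.trans h2
    rw [add_comm] at h3
    exact (add_right_cancel h3).symm
  have hC : F (we 0 1 0 0 1 0 0) = 0 := by
    have h1 := hF _ _ hA hA
    rw [we_mul1, z2_self (F _)] at h1
    exact h1
  refine ⟨F (we 0 1 0 0 0 0 1), F (we 1 0 0 0 0 0 0), fun w hw => ?_⟩
  have hw1 : c1 w.x + c1 w.y = 1 * w.e := hw
  rw [one_mul] at hw1
  rcases z2_or w.e with h0 | h0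
  · rw [h0] at hw1
    have hw2 : c1 w.y = c1 w.x := by
      have := z2_self (c1 w.y)
      linear_combination this - hw1
    have e2 := F_e0 hF hB (c0 w.x) (c1 w.x) (cz w.x) (c0 w.y) (cz w.y)
    have h5 := we_eta w
    rw [hw2, h0] at h5
    rw [← h5, hC] at e2
    rw [e2, h0]
    ring
  · rw [h0] at hw1
    have hw2 : c1 w.y = c1 w.x + 1 := by
      have := z2_self (c1 w.x)
      linear_combination hw1 - this
    have hm : we (c0 w.x) (c1 w.x + 1) (cz w.x + c0 w.x) (c0 w.y) (c1 w.x + 1) (cz w.y) 0 ∈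
        W.Gb 1 := by
      rw [we_mem, mul_zero]
      exact z2_self _
    have e1 : w = we (c0 w.x) (c1 w.x + 1) (cz w.x + c0 w.x) (c0 w.y) (c1 w.x + 1) (cz w.y) 0 *
        we 0 1 0 0 0 0 1 := by
      rw [we_mul0]
      simp only [add_zero, mul_zero, mul_one]
      rw [add_assoc (c1 w.x), z2_one_add, add_assoc (cz w.x), z2_self, add_zero, add_zero]
      have h5 := we_eta w
      rw [hw2, h0] at h5
      exact h5
    have e2 := F_e0 hF hB (c0 w.x) (c1 w.x + 1) (cz w.x + c0 w.x) (c0 w.y) (cz w.y)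
    calc F w = F (we (c0 w.x) (c1 w.x + 1) (cz w.x + c0 w.x) (c0 w.y) (c1 w.x + 1) (cz w.y) 0 *
        we 0 1 0 0 0 0 1) := by rw [← e1]
      _ = F (we (c0 w.x) (c1 w.x + 1) (cz w.x + c0 w.x) (c0 w.y) (c1 w.x + 1) (cz w.y) 0) +
        F (we 0 1 0 0 0 0 1) := hF _ _ hm hA
      _ = _ := by
        rw [e2, h0, hC]
        ring

/-! ### subgroups of index two -/

/-- the wreath product as a type of triples -/
def eqW : W ≃ (Ext D4 × Ext D4) × ZMod 2 where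
  toFun w := ((w.x, w.y), w.e)
  invFun t := ⟨t.1.1, t.1.2, t.2⟩
  left_inv _ := rfl
  right_inv _ := rfl

instance finW : Finite W := Finite.of_equiv _ eqW.symm

theorem card_ext : Nat.card (Ext D4) = 8 := by
  rw [Nat.card_congr (Pool.Agent.H98.ML.Ext.equivProd (D := D4)), Nat.card_prod]
  have h1 : Nat.card D4.V = 4 := by
    show Nat.card (Fin 2 → ZMod 2) = 4
    rw [Nat.card_fun, Nat.card_zmod, Nat.card_fin]
    rfl
  have h2 : Nat.card D4.Z = 2 := by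
    show Nat.card (Fin 1 → ZMod 2) = 2
    rw [Nat.card_fun, Nat.card_zmod, Nat.card_fin]
    rfl
  rw [h1, h2]

theorem card_W : Nat.card W = 2 ^ 7 := by
  rw [Nat.card_congr eqW, Nat.card_prod, Nat.card_prod, card_ext, Nat.card_zmod]
  rfl

theorem index_two {G : Type} [Group G] [Finite G] (hG : IsPGroup 2 G) (K : Subgroup G)
    (hK : K ≠ ⊤) : ∃ M : Subgroup G, K ≤ M ∧ M.index = 2 := by
  obtain ⟨n, hn⟩ := IsPGroup.iff_card.1 hG
  obtain ⟨m, hm⟩ := IsPGroup.iff_card.1 (hG.to_subgroup K)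
  have hlt : Nat.card K < Nat.card G := by
    refine lt_of_le_of_ne (Subgroup.card_le_card_group K) fun h => hK ?_
    exact Subgroup.eq_top_of_card_eq K h
  have hmn : m < n := by
    rw [hn, hm] at hlt
    exact (Nat.pow_lt_pow_iff_right (by norm_num)).1 hlt
  obtain ⟨n', rfl⟩ : ∃ n', n = n' + 1 := ⟨n - 1, by omega⟩
  have hdvd : 2 ^ n' ∣ Nat.card G := by
    rw [hn]
    exact pow_dvd_pow 2 (Nat.le_succ n')
  obtain ⟨M, hM, hKM⟩ := Sylow.exists_subgroup_card_pow_prime_le 2 hdvd K hm (by omega)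
  refine ⟨M, hKM, ?_⟩
  have h1 := M.card_mul_index
  rw [hM, hn, pow_succ] at h1
  exact Nat.eq_of_mul_eq_mul_left (by positivity) h1

open Classical in
theorem exF (β : ZMod 2) (K : Subgroup W) (hK : K ≤ W.Gb β) (hne : K ≠ W.Gb β) :
    ∃ F : W → ZMod 2, (∀ w w', w ∈ W.Gb β → w' ∈ W.Gb β → F (w * w') = F w + F w') ∧
      (∀ w ∈ K, F w = 0) ∧ ∃ w ∈ W.Gb β, F w = 1 := by
  have hG : IsPGroup 2 (W.Gb β) := (IsPGroup.of_card card_W).to_subgroup _
  have hK' : K.subgroupOf (W.Gb β) ≠ ⊤ := by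
    intro h
    exact hne (le_antisymm hK (Subgroup.subgroupOf_eq_top.1 h))
  obtain ⟨M, hM, hi⟩ := index_two hG _ hK'
  refine ⟨fun w => if h : w ∈ W.Gb β then (if (⟨w, h⟩ : W.Gb β) ∈ M then 0 else 1) else 0,
    ?_, ?_, ?_⟩
  · intro w w' hw hw'
    have hww := (W.Gb β).mul_mem hw hw'
    have h1 := Subgroup.mul_mem_iff_of_index_two hi (a := ⟨w, hw⟩) (b := ⟨w', hw'⟩)
    have h2 : (⟨w, hw⟩ : W.Gb β) * ⟨w', hw'⟩ = ⟨w * w', hww⟩ := rfl
    rw [h2] at h1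
    simp only [dif_pos hw, dif_pos hw', dif_pos hww]
    by_cases ha : (⟨w, hw⟩ : W.Gb β) ∈ M
    · by_cases hb : (⟨w', hw'⟩ : W.Gb β) ∈ M
      · rw [if_pos ha, if_pos hb, if_pos (h1.2 (iff_of_true ha hb))]
        rfl
      · rw [if_pos ha, if_neg hb, if_neg fun h => hb ((h1.1 h).1 ha)]
        rfl
    · by_cases hb : (⟨w', hw'⟩ : W.Gb β) ∈ M
      · rw [if_neg ha, if_pos hb, if_neg fun h => ha ((h1.1 h).2 hb)]
        rfl
      · rw [if_neg ha, if_neg hb, if_pos (h1.2 (iff_of_false ha hb))]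
        rfl
  · intro w hw
    have h1 : (⟨w, hK hw⟩ : W.Gb β) ∈ M := hM (Subgroup.mem_subgroupOf.2 hw)
    simp only [dif_pos (hK hw), if_pos h1]
  · have h1 : M ≠ ⊤ := by
      intro h
      rw [h, Subgroup.index_top] at hi
      omega
    obtain ⟨w, hw⟩ : ∃ w, w ∉ M := by
      by_contra hc
      push Not at hc
      exact h1 (eq_top_iff.2 fun w _ => hc w)
    refine ⟨w.1, w.2, ?_⟩
    simp only [dif_pos w.2, Subtype.coe_eta, if_neg hw]

end Frt

open Frt in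
theorem stFrt : StFrt := by
  intro K
  refine ⟨fun hK hl => ?_, fun hK hl => ?_⟩
  · by_contra hne
    obtain ⟨F, hF, hF0, w, hw, hw1⟩ := exF 0 K hK hne
    obtain ⟨l, m, n, h⟩ := F_gb0 hF
    obtain ⟨h1, h2, h3⟩ := hl l m n fun w hw => (h w (hK hw)).symm.trans (hF0 w hw)
    rw [h w hw, h1, h2, h3, zero_mul, zero_mul, zero_mul] at hw1
    exact absurd hw1 (by decide)
  · by_contra hne
    obtain ⟨F, hF, hF0, w, hw, hw1⟩ := exF 1 K hK hne
    obtain ⟨l, m, h⟩ := F_gb1 hF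
    obtain ⟨h1, h2⟩ := hl l m fun w hw => (h w (hK hw)).symm.trans (hF0 w hw)
    rw [h w hw, h1, h2, zero_mul, zero_mul] at hw1
    exact absurd hw1 (by decide)

end Pool.Agent.H32.MQ.G
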