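import Pool.Agent.H32.MQ.XOn
import Pool.Agent.H98.MF.L.ChiB
import Pool.Agent.H98.MF.L.QuadX

/-!
# Malle's conjecture for 8T28 and 8T29 over number fields, block X, row MQ-X23: the conditions for
the surjectivity onto the two groups
-/

set_option autoImplicit false

open scoped BigOperators
open NumberField IsDedekindDomain

namespace Pool.Agent.H32.MQ

open Pool.Agent.H98.MF
open Pool.Agent.H98.ML (Dt Ext norb hind)

/-! ### squares in commutative groups -/

section

variable {M : Type} [CommGroup M]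

theorem xont_sq {x y : M} (h : IsSquare (x * y)) (h' : IsSquare y) : IsSquare x := by
  have h1 := h.div h'
  rwa [mul_div_cancel_right] at h1

theorem xont_ns {x y : M} (h : ¬ IsSquare x) (h' : IsSquare (x * y)) : ¬ IsSquare y :=
  fun h2 => h (xont_sq h' h2)

theorem xont_mul {x y a : M} (h : IsSquare (x * y)) : IsSquare (a * x * (a * y)) := by
  rw [mul_mul_mul_comm]
  exact (IsSquare.mul_self a).mul h

theorem xont_mul2 {x y x' y' : M} (h : IsSquare (x * y)) (h' : IsSquare (x' * y')) :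
    IsSquare (x * x' * (y * y')) := by
  rw [mul_mul_mul_comm]
  exact h.mul h'

end

section

variable {k : Type} [Field k] [NumberField k] {L : Type} [Field L]
  [NumberField L] [Algebra k L]

omit [NumberField k] [NumberField L] in
theorem xont_nsq {γ γ' : Lˣ} (h : IsSquare (γ * γ')) :
    IsSquare (HX.nrX (k := k) γ * HX.nrX (k := k) γ') := by
  obtain ⟨s, hs⟩ := h
  refine ⟨HX.nrX (k := k) s, ?_⟩
  unfold HX.nrX
  rw [← map_mul, hs, map_mul]

theorem xont_odd (P : HeightOneSpectrum (𝓞 k)) {x : kˣ} (h : Odd (ord P (x : k))) :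
    ¬ IsSquare x := by
  rintro ⟨s, rfl⟩
  rw [Units.val_mul, Pool.Agent.H98.MF.B.ord_mul _ (Units.ne_zero _) (Units.ne_zero _)] at h
  exact (Int.not_odd_iff_even.2 ⟨_, rfl⟩) h

theorem xont_ord (P : HeightOneSpectrum (𝓞 k)) (x y : kˣ) :
    ord P ((x * y : kˣ) : k) = ord P (x : k) + ord P (y : k) := by
  rw [Units.val_mul, Pool.Agent.H98.MF.B.ord_mul _ (Units.ne_zero _) (Units.ne_zero _)]

/-- squares of `L` in `k` -/
theorem xont_desc {a : kˣ} {α : L} (h : QE a α) (t : kˣ) (s : L)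
    (hs : algebraMap k L (t : k) = s * s) : IsSquare t ∨ IsSquare (a * t) := by
  obtain ⟨x, y, hxy⟩ := Pool.Agent.H98.MF.B.qe_repr h s
  obtain ⟨σ, h1, -, -, -⟩ := Pool.Agent.H98.MF.B.qe_conj h
  have h2 : σ s * σ s = s * s := by
    rw [← map_mul, ← hs, AlgEquiv.commutes]
  have h3 : σ s = algebraMap k L x - algebraMap k L y * α := by
    rw [hxy, map_add, map_mul, AlgEquiv.commutes, AlgEquiv.commutes, h1]
    ring
  have h4 : (4 : L) * (algebraMap k L x * algebraMap k L y) * α = 0 := by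
    rw [h3, hxy] at h2
    linear_combination -h2
  have h5 : x = 0 ∨ y = 0 := by
    rcases mul_eq_zero.1 h4 with h6 | h6
    · rcases mul_eq_zero.1 h6 with h7 | h7
      · exact absurd h7 (by norm_num)
      · rcases mul_eq_zero.1 h7 with h8 | h8
        · exact Or.inl ((map_eq_zero _).1 h8)
        · exact Or.inr ((map_eq_zero _).1 h8)
    · exact absurd h6 (Pool.Agent.H98.MF.B.qe_ne_zero h)
  rcases h5 with h5 | h5
  · right
    have h6 : (t : k) = a * (y * y) := by
      apply (algebraMap k L).injective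
      rw [hs, hxy, h5, map_zero, zero_add, map_mul, map_mul, ← h.sq]
      ring
    have hy : y ≠ 0 := by
      rintro rfl
      rw [mul_zero, mul_zero] at h6
      exact t.ne_zero h6
    refine ⟨a * Units.mk0 y hy, Units.ext ?_⟩
    rw [Units.val_mul, Units.val_mul, Units.val_mul, Units.val_mk0, h6]
    ring
  · left
    have h6 : (t : k) = x * x := by
      apply (algebraMap k L).injective
      rw [hs, hxy, h5, map_zero, zero_mul, add_zero, map_mul]
    have hx : x ≠ 0 := by
      rintro rfl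
      rw [mul_zero] at h6
      exact t.ne_zero h6
    exact ⟨Units.mk0 x hx, Units.ext h6⟩

theorem xont_nrt {a : kˣ} {α : L} (h : QE a α) (t : kˣ) :
    HX.nrX (k := k) (Units.map (algebraMap k L : k →* L) t) = t * t := by
  apply Units.ext
  show Algebra.norm k (algebraMap k L (t : k)) = (t : k) * t
  rw [Algebra.norm_algebraMap, h.deg, pow_two]

end

/-! ### surjectivity -/

theorem xont_sur {L : Type} [Field L] [NumberField L] (ρ : Gm L →* Ext D4) (γ δ : Lˣ)
    (h0 : ∀ σ, c0 (ρ σ) = chi (γ : L) σ) (h1 : ∀ σ, c1 (ρ σ) = chi (δ : L) σ)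
    (hγ : ¬ IsSquare γ) (hδ : ¬ IsSquare δ) (hγδ : ¬ IsSquare (γ * δ)) :
    Function.Surjective ρ := by
  classical
  have hsq : ∀ x : Lˣ, ¬ IsSquare x → ¬ IsSquare (x : L) := by
    rintro x hx ⟨s, hs⟩
    apply hx
    have hs0 : s ≠ 0 := by
      rintro rfl
      rw [mul_zero] at hs
      exact x.ne_zero hs
    exact ⟨Units.mk0 s hs0, Units.ext hs⟩
  have h2 : ∀ x y : ZMod 2, ∃ σ : Gm L, c0 (ρ σ) = x ∧ c1 (ρ σ) = y := by
    intro x y
    obtain ⟨σ, hσ⟩ := exists_chi (k := L) ![(γ : L), (δ : L)] (by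
      intro s hs
      have h3 : s = {0} ∨ s = {1} ∨ s = {0, 1} := by
        revert s
        decide
      rcases h3 with rfl | rfl | rfl
      · rw [Finset.prod_singleton]
        exact hsq _ hγ
      · rw [Finset.prod_singleton]
        exact hsq _ hδ
      · rw [Finset.prod_pair (by decide)]
        exact hsq _ hγδ) ![x, y]
    refine ⟨σ, ?_, ?_⟩
    · rw [h0]
      exact hσ 0
    · rw [h1]
      exact hσ 1
  have hv : ∀ g g' : Ext D4, c0 g = c0 g' → c1 g = c1 g' → g.v = g'.v := by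
    intro g g' e0 e1
    funext i
    have hi : i = (0 : Fin 2) ∨ i = (1 : Fin 2) := by
      have h4 : ∀ i : Fin 2, i = 0 ∨ i = 1 := by decide
      exact h4 i
    rcases hi with rfl | rfl
    · exact e0
    · exact e1
  have h3 : ∀ v : D4.V, ∃ σ : Gm L, (ρ σ).v = v := by
    intro v
    obtain ⟨σ, e0, e1⟩ := h2 (c0 ⟨v, 0⟩) (c1 ⟨v, 0⟩)
    exact ⟨σ, hv _ ⟨v, 0⟩ e0 e1⟩
  obtain ⟨σ1, hσ1⟩ := h3 ![1, 0]
  obtain ⟨σ2, hσ2⟩ := h3 ![0, 1]
  have h4 : (ρ (σ2 * σ1)) * (⟨0, 1⟩ : Ext D4) = ρ (σ1 * σ2) := by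
    rw [map_mul, map_mul]
    apply Ext.ext
    · rw [Ext.mul_v, Ext.mul_v, Ext.mul_v, add_zero, add_comm]
    · rw [Ext.mul_z, Ext.mul_z, Ext.mul_z, hσ1, hσ2, Ext.mul_v, hσ1, hσ2, map_zero, add_zero]
      have e1 : D4.β ![1, 0] ![0, 1] = 1 := by
        funext i
        show (1 : ZMod 2) * 1 = 1
        decide
      have e2 : D4.β ![0, 1] ![1, 0] = 0 := by
        funext i
        show (0 : ZMod 2) * 0 = 0
        decide
      rw [e1, e2, add_zero, add_comm (ρ σ2).z]
  have h5 : (⟨0, 1⟩ : Ext D4) = ρ ((σ2 * σ1)⁻¹ * (σ1 * σ2)) := by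
    rw [map_mul, map_inv, ← h4, inv_mul_cancel_left]
  intro g
  obtain ⟨σ, hσ⟩ := h3 g.v
  have h6 : g = ρ σ ∨ g = ρ σ * ⟨0, 1⟩ := by
    have h7 : g.z = (ρ σ).z ∨ g.z = (ρ σ).z + 1 := by
      have h8 : ∀ x y : ZMod 2, x = y ∨ x = y + 1 := by decide
      rcases h8 (g.z (0 : Fin 1)) ((ρ σ).z (0 : Fin 1)) with h9 | h9
      · left
        funext i
        have hi : i = (0 : Fin 1) := Subsingleton.elim (α := Fin 1) _ _
        rw [hi]
        exact h9
      · right
        funext i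
        have hi : i = (0 : Fin 1) := Subsingleton.elim (α := Fin 1) _ _
        rw [hi]
        exact h9
    rcases h7 with h7 | h7
    · left
      exact Ext.ext hσ.symm h7
    · right
      apply Ext.ext
      · rw [Ext.mul_v, hσ, add_zero]
      · rw [Ext.mul_z, map_zero, add_zero, h7]
  rcases h6 with h6 | h6
  · exact ⟨σ, h6.symm⟩
  · refine ⟨σ * ((σ2 * σ1)⁻¹ * (σ1 * σ2)), ?_⟩
    rw [map_mul, ← h5]
    exact h6.symm

/-! ### the theorem -/

section

variable {k : Type} [Field k] [NumberField k] {L : Type} [Field L]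
  [NumberField L] [Algebra k L] (E : QX k L)

theorem xont_ordN {P : HeightOneSpectrum (𝓞 k)} {Q : HeightOneSpectrum (𝓞 L)} (hP : P ∉ E.M)
    (hQ : Over P Q) (x : Lˣ) : ord P (HX.nrX (k := k) x : k) =
      ord Q (x : L) + ord (cj E.sig Q) (x : L) := by
  have h2 : ord P (2 : k) = 0 := by
    have h3 : ¬ 0 < ord P (2 : k) := fun h => hP (E.two P h)
    have h4 := ord_int_nonneg P (2 : 𝓞 k)
    have h5 : (2 : k) = ((2 : 𝓞 k) : k) := rc_two.symm
    rw [h5] at h3 ⊢
    omega
  have h3 := Pool.Agent.H98.MF.B.qe_ord_of_even E.qe hQ h2 (E.unr P hP)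
    (HX.nrX (k := k) x : k)
  have h4 : algebraMap k L (HX.nrX (k := k) x : k) = (x : L) * E.sig (x : L) :=
    (Pool.Agent.H98.MF.B.qe_conj E.qe).choose_spec.2.2.2 (x : L)
  have h5 : E.sig (x : L) ≠ 0 := by
    rw [Ne, map_eq_zero_iff E.sig E.sig.injective]
    exact x.ne_zero
  rw [← h3, h4, ord_mul Q x.ne_zero h5, ord_cj]

end

theorem stOnto : StOnto := by
  intro k L _ _ _ _ _ E b hV
  refine ⟨?_, ?_, ?_, ?_, ?_⟩
  · rintro γ γ' t t' ⟨h1, h2, h3⟩ hγ ht
    have hN := xont_nsq (k := k) hγ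
    refine ⟨xont_ns h1 hN, xont_ns h2 (xont_mul hN), fun hb => ?_⟩
    obtain ⟨h4, h5, h6, h7⟩ := h3 hb
    refine ⟨xont_ns h4 ht, xont_ns h5 (xont_mul ht), xont_ns h6 (xont_mul2 ht hN),
      xont_ns h7 (xont_mul2 (xont_mul ht) hN)⟩
  · rintro γ t ⟨h1, h2, h3⟩
    refine ⟨h1, h2, fun hb => ?_⟩
    obtain ⟨h4, h5, h6, h7⟩ := h3 hb
    refine ⟨by rwa [mul_comm], ?_, by rwa [mul_comm t], ?_⟩
    · refine xont_ns h4 ⟨t * E.a, ?_⟩
      rw [← mul_assoc t, mul_comm (t * E.a)]
    · refine xont_ns h6 ⟨t * E.a * HX.nrX (k := k) γ, ?_⟩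
      rw [mul_mul_mul_comm t, mul_mul_mul_comm (t * E.a), ← mul_assoc t]
  · rintro ρ γ t hm ⟨h1, h2, h3⟩
    set δt : Lˣ := E.δ * Units.map (algebraMap k L : k →* L) t with hδt
    have hN : HX.nrX (k := k) δt = HX.nrX (k := k) E.δ * (t * t) := by
      rw [hδt]
      unfold HX.nrX
      rw [map_mul]
      congr 1
      exact xont_nrt E.qe t
    have hsqN : ∀ x : Lˣ, IsSquare x → IsSquare (HX.nrX (k := k) x) := by
      rintro x ⟨s, rfl⟩
      exact ⟨HX.nrX (k := k) s, by unfold HX.nrX; rw [map_mul]⟩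
    have hb : b = 0 ∨ b = 1 := by
      have h8 : ∀ x : ZMod 2, x = 0 ∨ x = 1 := by decide
      exact h8 b
    refine xont_sur ρ γ δt hm.gam (fun σ => ?_) ?_ ?_ ?_
    · exact hm.del σ
    · exact fun h => h1 (hsqN γ h)
    · intro h
      rcases hb with hb | hb
      · obtain ⟨s, hs⟩ := h
        rw [hδt, hV.1 hb, one_mul] at hs
        obtain ⟨h4, h5, -⟩ := h3 hb
        rcases xont_desc E.qe t (s : L) (congrArg Units.val hs) with h8 | h8
        · exact h4 h8
        · exact h5 h8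
      · have h4 := hsqN _ h
        rw [hN] at h4
        exact E.qe.ns (xont_sq (hV.2 hb) (xont_sq h4 (IsSquare.mul_self t)))
    · intro h
      have h4 := hsqN _ h
      have h5 : HX.nrX (k := k) (γ * δt) =
          HX.nrX (k := k) γ * HX.nrX (k := k) E.δ * (t * t) := by
        have h6 : HX.nrX (k := k) (γ * δt) = HX.nrX (k := k) γ * HX.nrX (k := k) δt := by
          unfold HX.nrX
          rw [map_mul]
        rw [h6, hN, mul_assoc]
      rw [h5] at h4
      have h6 := xont_sq h4 (IsSquare.mul_self t)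
      rcases hb with hb | hb
      · apply h1
        have h7 : HX.nrX (k := k) E.δ = 1 := by
          rw [hV.1 hb]
          unfold HX.nrX
          rw [map_one]
        rwa [h7, mul_one] at h6
      · apply h2
        have h7 := (hV.2 hb).mul h6
        rw [mul_mul_mul_comm] at h7
        exact xont_sq h7 (IsSquare.mul_self _)
  · rintro γ t ⟨h1, -, -⟩
    exact h1
  · intro γ t P Q P' hP hQ hc hg hg' ht hP' ht' hQ'
    have h1 : Odd (ord P (HX.nrX (k := k) γ : k)) := by
      rw [xont_ordN E hP hQ]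
      exact hg.add_even hg'
    refine ⟨xont_odd P h1, xont_odd P ?_, fun _ => ?_⟩
    · rw [xont_ord]
      exact (E.unr P hP).add_odd h1
    · obtain ⟨Q', hQQ'⟩ := exists_over (L := L) P'
      have h2 : Even (ord P' (HX.nrX (k := k) γ : k)) := by
        rw [xont_ordN E hP' hQQ']
        exact (hQ' Q' hQQ').add (hQ' _ (hQQ'.cj E.sig))
      have h3 := E.unr P' hP'
      refine ⟨xont_odd P' ht', xont_odd P' ?_, xont_odd P' ?_, xont_odd P' ?_⟩
      · rw [xont_ord]
        exact h3.add_odd ht'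
      · rw [xont_ord]
        exact ht'.add_even h2
      · rw [xont_ord, xont_ord]
        exact (h3.add_odd ht').add_even h2

end Pool.Agent.H32.MQ
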