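import Pool.Agent.H32.MQ.GStm

/-!
# Malle's conjecture for 8T28 and 8T29 over number fields, block Z: the uniform bound
-/

set_option autoImplicit false

open scoped BigOperators
open NumberField IsDedekindDomain Filter

namespace Pool.Agent.H32.MQ.G

open Pool.Agent.H98.MF

/-- Z1 -/
theorem stUZ {k : Type} [Field k] [NumberField k] (Fr : Frm k) (hA : SAU Fr) (hB : BFAll k)
    (hO : StOnto) : StUZ k Fr := by
  intro ε hε
  obtain ⟨C0, A0, η0, hη, hBF⟩ := hB Fr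
  obtain ⟨C, hC⟩ := hA C0 A0 η0 ε hη hε
  refine ⟨max C 0, le_max_right _ _, fun L _ _ _ E hS b hV RL R hR Y hY => ?_⟩
  have hOn := hO k L E b hV
  obtain ⟨a1, a2, a3⟩ := hC L E hS RL (E.Onto b) hOn.su hOn.nn R hR
    (hBF L (E.toHX Fr R)) Y hY
  refine ⟨a1, a2, fun h => (a3 h).trans ?_⟩
  have h1 : 0 ≤ ((nmR E.M : ℝ) * nmR R) ^ ε := Real.rpow_nonneg (by positivity) _
  have h2 : 0 ≤ Y / (nmR R : ℝ) ^ 2 := div_nonneg hY (by positivity)
  have h3 : 0 ≤ (1 + Real.log Y) ^ 2 := sq_nonneg _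
  exact mul_le_mul_of_nonneg_right (mul_le_mul_of_nonneg_right
    (mul_le_mul_of_nonneg_right (le_max_left _ _) h1) h2) h3

end Pool.Agent.H32.MQ.G
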