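import Pool.Agent.H32.MQ.Z3

/-!
# Malle's conjecture for 8T28 and 8T29 over number fields, row Z2: the limit for a fixed quadratic
subfield
-/

set_option autoImplicit false

open scoped BigOperators
open NumberField IsDedekindDomain Filter

namespace Pool.Agent.H32.MQ.G

open Pool.Agent.H98.MF
open Pool.Agent.H98.ML (Dt Ext)
open Pool.Agent.H32.MA (mInd bM)
open Pool.Agent.H32.MZ (NK MalleK T28 T29)

/-- change of variables -/
theorem z2_tendsto (f : ℝ → ℝ) (l D : ℝ) (hD : 0 < D)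
    (hf : Tendsto (fun Y : ℝ => f Y / (Y * Real.log Y ^ 2)) atTop (nhds l)) :
    Tendsto (fun X : ℝ => f (Real.sqrt X / D) / (X ^ (1 / 2 : ℝ) * Real.log X ^ 2)) atTop
      (nhds (l * (1 / D * (1 / 2) ^ 2))) := by
  have h1 : Tendsto (fun X : ℝ => Real.sqrt X / D) atTop atTop :=
    (Real.tendsto_sqrt_atTop).atTop_div_const hD
  have h2 := hf.comp h1
  have h3 : Tendsto (fun X : ℝ => Real.log (Real.sqrt X / D) / Real.log X) atTop
      (nhds (1 / 2)) := by
    have h4 : Tendsto (fun X : ℝ => 1 / 2 - Real.log D * (Real.log X)⁻¹) atTop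
        (nhds (1 / 2 - Real.log D * 0)) :=
      tendsto_const_nhds.sub (tendsto_const_nhds.mul
        (tendsto_inv_atTop_zero.comp Real.tendsto_log_atTop))
    rw [mul_zero, sub_zero] at h4
    refine h4.congr' ?_
    filter_upwards [eventually_gt_atTop (1 : ℝ)] with X hX
    have h5 : 0 < Real.log X := Real.log_pos hX
    rw [Real.log_div (Real.sqrt_ne_zero'.2 (by linarith)) hD.ne', Real.log_sqrt (by linarith)]
    field_simp
  have h4 := h2.mul ((tendsto_const_nhds (x := 1 / D)).mul (h3.pow 2))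
  refine h4.congr' ?_
  filter_upwards [eventually_gt_atTop (max 1 (D ^ 2 * 9))] with X hX
  have hX1 : 1 < X := (le_max_left _ _).trans_lt hX
  have hX2 : D ^ 2 * 9 < X := (le_max_right _ _).trans_lt hX
  have h5 : 0 < Real.log X := Real.log_pos hX1
  have h6 : 0 < Real.sqrt X := Real.sqrt_pos.2 (by linarith)
  have h7 : 3 < Real.sqrt X / D := by
    rw [lt_div_iff₀ hD]
    refine Real.lt_sqrt_of_sq_lt ?_
    nlinarith
  have h8 : 0 < Real.log (Real.sqrt X / D) := Real.log_pos (by linarith)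
  show f (Real.sqrt X / D) / (Real.sqrt X / D * Real.log (Real.sqrt X / D) ^ 2) *
    (1 / D * (Real.log (Real.sqrt X / D) / Real.log X) ^ 2) =
    f (Real.sqrt X / D) / (X ^ (1 / 2 : ℝ) * Real.log X ^ 2)
  rw [← Real.sqrt_eq_rpow]
  field_simp

section

variable {k : Type} [Field k] [NumberField k]

theorem stZF (hR : StRs k)
    (hB : ∀ (L : Type) [Field L] [NumberField L] [Algebra k L] {a : kˣ} {sg : L ≃ₐ[k] L}
      (_ : Rs L a sg), StBij (L := L) (a := a) (sg := sg)) (hX : StQX (k := k))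
    (hS : StSumR (k := k)) (hSm : StSm (k := k)) (hU : ∀ Fr : Frm k, StUZ k Fr)
    (hL : ∀ (L : Type) [Field L] [NumberField L] [Algebra k L] (E : QX k L), StX E)
    (hO : StOnto) (hD : StDN (k := k))
    (hN : ∀ (L : Type) [Field L] [NumberField L] [Algebra k L] {a : kˣ} {sg : L ≃ₐ[k] L}
      (_ : Rs L a sg), StNc (L := L) (a := a)) : StZF k := by
  intro Fr c hc b
  rcases z3_cases hR hB hX hN Fr c hc b with ⟨h, hno⟩ | ⟨E, hv, hE, -, h⟩
  · refine ⟨0, le_refl _, fun h' => absurd h' hno, ?_⟩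
    refine tendsto_const_nhds.congr fun X => ?_
    rw [h X, Set.ncard_empty, Nat.cast_zero, zero_div]
  · obtain ⟨RL⟩ := exists_rx (FQ (rep Fr c))
    obtain ⟨l, hl, hlt⟩ := zc_lim hS hSm (hU Fr) hO _ E (hL _ E) hE b hv RL
    have hn0 : (1 : ℝ) ≤ Fr.sys.nm c.2 := by exact_mod_cast z4_nm_pos Fr.sys.toPre c.2
    have hdn : (Fr.sys.nm c.2 : ℝ) ≤ dN k (FQ (rep Fr c)) := by exact_mod_cast hD Fr c hc
    have hd0 : (0 : ℝ) < dN k (FQ (rep Fr c)) := by linarith
    set D : ℝ := (dN k (FQ (rep Fr c)) : ℝ) ^ 2 with hDD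
    have hD0 : 0 < D := by positivity
    have h1 := z2_tendsto (fun Y => (E.AF b Y : ℝ)) l D hD0 hlt
    refine ⟨8 * (l * (1 / D * (1 / 2) ^ 2)), by positivity, fun _ => by positivity, ?_⟩
    refine (h1.const_mul 8).congr' ?_
    filter_upwards [eventually_ge_atTop (0 : ℝ)] with X hX
    rw [(h X hX).1]
    push_cast
    ring

end

end Pool.Agent.H32.MQ.G
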