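import Pool.Agent.H32.MQ.GStm

/-!
# Malle's conjecture for 8T28 and 8T29 over number fields, row Z5: the conclusion
-/

set_option autoImplicit false

open scoped BigOperators
open NumberField IsDedekindDomain Filter

namespace Pool.Agent.H32.MQ.G

open Pool.Agent.H98.MF
open Pool.Agent.H98.ML (Dt Ext)
open Pool.Agent.H32.MA (mInd bM)
open Pool.Agent.H32.MZ (NK MalleK T28 T29)

/-- the asymptotic formula for the number of fields -/
theorem z5_key (h1 : StNKG) (k : Type) [Field k] [NumberField k] (h3 : StCntG k) (b : ZMod 2) :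
    ∃ c : ℝ, 0 < c ∧ Tendsto (fun X : ℝ => (NK k (Tb b) X : ℝ) /
      (X ^ (1 / 2 : ℝ) * Real.log X ^ 2)) atTop (nhds c) := by
  obtain ⟨κ, hκ, hN⟩ := h1 b
  obtain ⟨c, hc, hT⟩ := h3 b
  refine ⟨κ * c, mul_pos hκ hc, ?_⟩
  have h4 : (fun X : ℝ => (NK k (Tb b) X : ℝ) / (X ^ (1 / 2 : ℝ) * Real.log X ^ 2)) =
      fun X : ℝ => κ * (((CntG k b X).ncard : ℝ) / (X ^ (1 / 2 : ℝ) * Real.log X ^ 2)) := by
    funext X
    rw [hN k X, mul_div_assoc]
  rw [h4]
  exact hT.const_mul κ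

/-- the same with the invariants of the group -/
theorem z5_malle (k : Type) [Field k] [NumberField k] (G : Subgroup (Equiv.Perm (Fin 8)))
    (hm : mInd G = 2) (hb : bM k G = 3)
    (h : ∃ c : ℝ, 0 < c ∧ Tendsto (fun X : ℝ => (NK k G X : ℝ) /
      (X ^ (1 / 2 : ℝ) * Real.log X ^ 2)) atTop (nhds c)) : MalleK k G := by
  obtain ⟨c, hc, hT⟩ := h
  refine ⟨c, hc, ?_⟩
  rw [hm, hb]
  have h5 : ((2 : ℕ) : ℝ) = 2 := Nat.cast_ofNat
  rw [h5]
  exact hT

/-- Z5: Malle's conjecture -/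
theorem stMal (h1 : StNKG) (h2 : StInvG)
    (h3 : ∀ (k : Type) [Field k] [NumberField k], StCntG k) : StMal := by
  intro k _ _
  have e0 : Tb 0 = T29 := if_pos rfl
  have e1 : Tb 1 = T28 := if_neg W.one_ne
  constructor
  · refine z5_malle k T28 h2.1 (h2.2.2 k).1 ?_
    rw [← e1]
    exact z5_key h1 k (h3 k) 1
  · refine z5_malle k T29 h2.2.1 (h2.2.2 k).2 ?_
    rw [← e0]
    exact z5_key h1 k (h3 k) 0

end Pool.Agent.H32.MQ.G
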