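import Pool.Agent.H98.MF.NEnd
import Pool.Agent.H32.MQ.G3
import Pool.Agent.H32.MQ.G5
import Pool.Agent.H32.MQ.G6d
import Pool.Agent.H32.MQ.G6e
import Pool.Agent.H32.MQ.G6
import Pool.Agent.H32.MQ.G7a
import Pool.Agent.H32.MQ.G7b
import Pool.Agent.H32.MQ.GFrt
import Pool.Agent.H32.MQ.G7c
import Pool.Agent.H32.MQ.G7d
import Pool.Agent.H32.MQ.G7e
import Pool.Agent.H32.MQ.G8a
import Pool.Agent.H32.MQ.G8b
import Pool.Agent.H32.MQ.G8d
import Pool.Agent.H32.MQ.G8e
import Pool.Agent.H32.MQ.G8f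
import Pool.Agent.H32.MQ.Z1
import Pool.Agent.H32.MQ.Z2
import Pool.Agent.H32.MQ.G2
import Pool.Agent.H32.MQ.Z5
import Pool.Agent.H32.MQ.XOnt

/-!
# Malle's conjecture for 8T28 and 8T29 over number fields: assembly of the blocks G and Z
-/

set_option autoImplicit false

open scoped BigOperators
open NumberField IsDedekindDomain Filter

namespace Pool.Agent.H32.MQ.G

open Pool.Agent.H98.MF
open Pool.Agent.H32.MZ (NK MalleK T28 T29)

section

variable {k : Type} [Field k] [NumberField k]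

theorem cnt_of (hQ : StQE (k := k)) (h0 : StRs0 k) (hG : StRsG k)
    (hA : ∀ Fr : Frm k, SAU Fr) (hBF : BFAll k)
    (hL : ∀ (L : Type) [Field L] [NumberField L] [Algebra k L] (E : QX k L), StX E) :
    StCntG k := by
  obtain ⟨Fr⟩ := exists_frm k
  have hR : StRs k := stRs h0 hG stRsC stRsD
  have hD : StDN (k := k) := stDN hQ
  have hU : ∀ Fr : Frm k, StUZ k Fr := fun Fr => stUZ Fr (hA Fr) hBF stOnto
  have hB : ∀ (L : Type) [Field L] [NumberField L] [Algebra k L] {a : kˣ} {sg : L ≃ₐ[k] L}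
      (_ : Rs L a sg), StBij (L := L) (a := a) (sg := sg) := fun L _ _ _ {a} {sg} R =>
    stBij R (stSh R) (stLe R) (stOn stFrt R) (stDs R)
  have hN : ∀ (L : Type) [Field L] [NumberField L] [Algebra k L] {a : kˣ} {sg : L ≃ₐ[k] L}
      (_ : Rs L a sg), StNc (L := L) (a := a) := fun L _ _ _ {a} {sg} R => stNc R
  exact stCntG Fr (stCls Fr) (stZF hR hB (stQX hQ) stSumR stSm hU hL stOnto hD hN)
    (stZB Fr hR hB (stQX hQ) stSumR stSm (hU Fr) hD hN) stEx1 stSm

end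

theorem mal_of (h : ∀ (k : Type) [Field k] [NumberField k], StQE (k := k) ∧ StRs0 k ∧ StRsG k ∧
    (∀ Fr : Frm k, SAU Fr) ∧ BFAll k ∧
    ∀ (L : Type) [Field L] [NumberField L] [Algebra k L] (E : QX k L), StX E)
    (hNK : StNKG) : StMal :=
  stMal hNK stInvG fun k _ _ => cnt_of (h k).1 (h k).2.1 (h k).2.2.1 (h k).2.2.2.1
    (h k).2.2.2.2.1 (h k).2.2.2.2.2

end Pool.Agent.H32.MQ.G
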