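import Pool.Agent.H32.MQ.GDefs
import Pool.Agent.H32.MZ.KDefs

/-!
# Malle's conjecture for 8T28 and 8T29 over number fields, blocks G and Z: statements
-/

set_option autoImplicit false

open scoped BigOperators
open NumberField IsDedekindDomain Filter

namespace Pool.Agent.H32.MQ.G

open Pool.Agent.H98.MF
open Pool.Agent.H98.ML (Dt Ext)
open Pool.Agent.H32.MA (mInd bM)
open Pool.Agent.H32.MZ (NK MalleK T28 T29)

/-! ### G1–G4: permutation groups and the count of fields -/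

/-- G1: the representation of degree 8 -/
def StPr : Prop := ∃ pr : W →* Equiv.Perm (Fin 8), Function.Injective pr ∧
  (W.Gb 0).map pr = T29 ∧ (W.Gb 1).map pr = T28 ∧ (∀ w, pr w 0 = 0 ↔ w ∈ W.H1) ∧
  MulAction.IsPretransitive T28 (Fin 8) ∧ MulAction.IsPretransitive T29 (Fin 8)

/-- G2: the invariants -/
def StInvG : Prop := mInd T28 = 2 ∧ mInd T29 = 2 ∧
  ∀ (k : Type) [Field k] [NumberField k], bM k T28 = 3 ∧ bM k T29 = 3

/-- G3: the count of fields in terms of homomorphisms, for every transitive group -/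
def StNK : Prop := ∀ (n : ℕ) (G : Subgroup (Equiv.Perm (Fin n))),
  MulAction.IsPretransitive G (Fin n) → ∀ (i0 : Fin n) (H : Type) [Group H]
  (pr : H →* Equiv.Perm (Fin n)), Function.Injective pr → pr.range = G →
  ∃ κ : ℝ, 0 < κ ∧ ∀ (k : Type) [Field k] [NumberField k] (X : ℝ), (NK k G X : ℝ) =
    κ * ({ρ : Gm k →* H | Function.Surjective ρ ∧ IsLocallyConstant ρ ∧
      (rdN (fld k (((MulAction.stabilizer (Equiv.Perm (Fin n)) i0).comap pr).comap ρ)) : ℝ) ≤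
        X}.ncard : ℝ)

/-- the permutation group of `b` -/
def Tb (b : ZMod 2) : Subgroup (Equiv.Perm (Fin 8)) := if b = 0 then T29 else T28

/-- G4: the same for the two groups -/
def StNKG : Prop := ∀ b : ZMod 2, ∃ κ : ℝ, 0 < κ ∧
  ∀ (k : Type) [Field k] [NumberField k] (X : ℝ),
    (NK k (Tb b) X : ℝ) = κ * ((CntG k b X).ncard : ℝ)

/-! ### G5: the quadratic subfield -/

section

variable {k : Type} [Field k] [NumberField k]

/-- G5: the character `e` and its class -/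
def StCls (Fr : Frm k) : Prop :=
  (∀ b : ZMod 2, ∀ ρ ∈ HomG k b, ∃ c : El Fr.sys, c ≠ (0, ∅) ∧
    ∀ σ, (ρ σ).e = chi (rep Fr c : k) σ) ∧
  (∀ c c' : El Fr.sys, (∀ σ, chi (rep Fr c : k) σ = chi (rep Fr c' : k) σ) → c = c') ∧
  ∀ c : El Fr.sys, c ≠ (0, ∅) → ¬ IsSquare (rep Fr c)

/-- the quadratic extension attached to an element -/
noncomputable def FQ (a : kˣ) : IntermediateField k (Om k) :=
  IntermediateField.adjoin k {sq (a : k)}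

instance FQ_fin (a : kˣ) : FiniteDimensional k (FQ a) :=
  IntermediateField.adjoin.finiteDimensional (Algebra.IsIntegral.isIntegral _)

instance FQ_nf (a : kˣ) : NumberField (FQ a) where
  to_charZero := inferInstance
  to_finiteDimensional := by
    have : FiniteDimensional ℚ k := inferInstance
    exact FiniteDimensional.trans ℚ k (FQ a)

/-- the square root in the quadratic extension -/
noncomputable def FQs (a : kˣ) : FQ a :=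
  ⟨sq (a : k), IntermediateField.mem_adjoin_simple_self k (sq (a : k))⟩

/-- G6a: it is a quadratic extension -/
def StQE : Prop := ∀ a : kˣ, ¬ IsSquare a → QE a (FQs a)

/-! ### G6: the Galois group of the quadratic extension as a subgroup -/

/-- the embedding of Galois groups of a quadratic extension, with its properties -/
structure Rs (L : Type) [Field L] [NumberField L] [Algebra k L] (a : kˣ) (sg : L ≃ₐ[k] L) where
  ι : Gm L →* Gm k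
  inj : Function.Injective ι
  mem : ∀ σ, (∃ u, ι u = σ) ↔ chi (a : k) σ = 0
  cont : Continuous ι
  op : ∀ U : Subgroup (Gm L), IsOpen (U : Set (Gm L)) →
    IsOpen ((U.map ι : Subgroup (Gm k)) : Set (Gm k))
  chk : ∀ (c : kˣ) u, chi (algebraMap k L (c : k)) u = chi (c : k) (ι u)
  cj : ∀ (x : Lˣ) (τ : Gm k) (u u' : Gm L), chi (a : k) τ = 1 → ι u' = τ * ι u * τ⁻¹ →
    chi (sg (x : L)) u' = chi (x : L) u
  nm : ∀ (x : Lˣ) (τ : Gm k) (u : Gm L), chi (a : k) τ = 1 → ι u = τ * τ →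
    chi (HX.nrX (k := k) x : k) τ = chi (x : L) u
  rd : ∀ U : Subgroup (Gm L), IsOpen (U : Set (Gm L)) →
    rdN (fld k (U.map ι)) = dN k L ^ U.index * rdN (fld L U)

/-- the raw form -/
structure Rs0 (a : kˣ) where
  Φ : Om (FQ a) ≃+* Om k
  alg : ∀ x : FQ a, Φ (algebraMap (FQ a) (Om (FQ a)) x) = (x : Om k)
  ι : Gm (FQ a) →* Gm k
  ev : ∀ u z, ι u (Φ z) = Φ (u z)

variable (k) in
/-- G6b -/
def StRs0 : Prop := ∀ a : kˣ, Nonempty (Rs0 a)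

variable (k) in
/-- G6c: the group and the topology -/
def StRsG : Prop := ∀ a : kˣ, ∀ R : Rs0 a, Function.Injective R.ι ∧
  (∀ σ, (∃ u, R.ι u = σ) ↔ chi (a : k) σ = 0) ∧ Continuous R.ι ∧
  ∀ U : Subgroup (Gm (FQ a)), IsOpen (U : Set (Gm (FQ a))) →
    IsOpen ((U.map R.ι : Subgroup (Gm k)) : Set (Gm k))

variable (k) in
/-- G6d: characters -/
def StRsC : Prop := ∀ a : kˣ, ¬ IsSquare a → ∀ (R : Rs0 a) (sg : FQ a ≃ₐ[k] FQ a),
  sg (FQs a) = -FQs a →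
  (∀ (c : kˣ) u, chi (algebraMap k (FQ a) (c : k)) u = chi (c : k) (R.ι u)) ∧
  (∀ (x : (FQ a)ˣ) (τ : Gm k) u u', chi (a : k) τ = 1 → R.ι u' = τ * R.ι u * τ⁻¹ →
    chi (sg (x : FQ a)) u' = chi (x : FQ a) u) ∧
  ∀ (x : (FQ a)ˣ) (τ : Gm k) u, chi (a : k) τ = 1 → R.ι u = τ * τ →
    chi (HX.nrX (k := k) x : k) τ = chi (x : FQ a) u

variable (k) in
/-- G6e: discriminants in the tower -/
def StRsD : Prop := ∀ a : kˣ, ∀ R : Rs0 a, ∀ U : Subgroup (Gm (FQ a)),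
  IsOpen (U : Set (Gm (FQ a))) →
    rdN (fld k (U.map R.ι)) = dN k (FQ a) ^ U.index * rdN (fld (FQ a) U)

variable (k) in
/-- G6: all together -/
def StRs : Prop := ∀ a : kˣ, ¬ IsSquare a → ∀ sg : FQ a ≃ₐ[k] FQ a,
  sg (FQs a) = -FQs a → Nonempty (Rs (FQ a) a sg)

/-! ### G7: homomorphisms to the wreath product -/

/-- the homomorphisms with a given character `e` -/
def HomA (a : kˣ) : Set (Gm k →* W) :=
  {ρ | IsLocallyConstant ρ ∧ ∀ σ, (ρ σ).e = chi (a : k) σ}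

section

variable {L : Type} [Field L] [NumberField L] [Algebra k L] {a : kˣ} {sg : L ≃ₐ[k] L}
  (R : Rs L a sg)

/-- G7a: induced homomorphisms -/
def StSh : Prop := ∀ τ : Gm k, chi (a : k) τ = 1 →
  ∃ e : HomA a ≃ {ρ' : Gm L →* Ext D4 // IsLocallyConstant ρ'} × Ext D4,
    ∀ ρ, (∀ u, (e ρ).1.1 u = (ρ.1 (R.ι u)).x) ∧ (e ρ).2 = (ρ.1 τ).x

/-- G7b: the condition for the image to lie in `Gb b` -/
def StLe : Prop := ∀ (E : QX k L) (b : ZMod 2), E.a = a → E.sig = sg → E.Val b →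
  ∀ ρ ∈ HomA a, ∀ ρ' : Gm L →* Ext D4, (∀ u, ρ' u = (ρ (R.ι u)).x) →
    (ρ.range ≤ W.Gb b ↔ ∃ γ t, E.Hm ρ' γ t)

/-- G7c: the condition for the image to be `Gb b` -/
def StOn : Prop := ∀ (E : QX k L) (b : ZMod 2), E.a = a → E.sig = sg → E.Val b →
  ∀ ρ ∈ HomA a, ∀ ρ' : Gm L →* Ext D4, (∀ u, ρ' u = (ρ (R.ι u)).x) →
    ρ.range ≤ W.Gb b → ∀ γ t, E.Hm ρ' γ t → (ρ.range = W.Gb b ↔ E.Onto b γ t)

/-- G7d: the discriminant -/
def StDs : Prop := ∀ b : ZMod 2, ∀ ρ ∈ HomA a, ρ.range = W.Gb b →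
  ∀ ρ' : Gm L →* Ext D4, (∀ u, ρ' u = (ρ (R.ι u)).x) →
    rdN (fld k (W.H1.comap ρ)) = dN k L ^ 4 * QX.dn ρ'

/-- G7e: the number of homomorphisms -/
def StBij : Prop := ∀ (E : QX k L) (b : ZMod 2), E.a = a → E.sig = sg → E.Val b →
  ∀ X : ℝ, 0 ≤ X → {ρ ∈ CntG k b X | ∀ σ, (ρ σ).e = chi (a : k) σ}.ncard =
    8 * E.AF b (Real.sqrt X / (dN k L : ℝ) ^ 2) ∧
  ({ρ | ρ ∈ E.Lf b ∧ (QX.dn ρ : ℝ) ≤ (Real.sqrt X / (dN k L : ℝ) ^ 2) ^ 2}.Finite →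
    {ρ ∈ CntG k b X | ∀ σ, (ρ σ).e = chi (a : k) σ}.Finite)

/-- G7f: the norm condition -/
def StNc : Prop := ∀ ρ ∈ HomG k 1, (∀ σ, (ρ σ).e = chi (a : k) σ) →
  ∃ δ : Lˣ, IsSquare (a * HX.nrX (k := k) δ)

end

/-- G7: the subgroups of `Gb b` with all characters are everything -/
def StFrt : Prop := ∀ K : Subgroup W,
  (K ≤ W.Gb 0 → (∀ l m n : ZMod 2, (∀ w ∈ K, l * w.e + m * (c0 w.x + c0 w.y) + n * c1 w.x = 0) →
    l = 0 ∧ m = 0 ∧ n = 0) → K = W.Gb 0) ∧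
  (K ≤ W.Gb 1 → (∀ l m : ZMod 2, (∀ w ∈ K, l * w.e + m * (c0 w.x + c0 w.y) = 0) →
    l = 0 ∧ m = 0) → K = W.Gb 1)

/-! ### G8: the data of a quadratic extension -/

open Classical in
/-- G8a: existence of the data -/
def StQX : Prop := ∀ (Fr : Frm k) (c : El Fr.sys), c ≠ (0, ∅) → ∀ b : ZMod 2,
  (b = 1 → ∃ δ : (FQ (rep Fr c))ˣ, IsSquare (rep Fr c * HX.nrX (k := k) δ)) →
  ∃ E : QX k (FQ (rep Fr c)), E.a = rep Fr c ∧ E.α = FQs (rep Fr c) ∧ E.Val b ∧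
    E.M = Fr.S ∪ c.2.image Fr.pl

/-- G8b: an element with `(a, -1) = 0` -/
def StEx1 : Prop := ∀ (Fr : Frm k), ∃ c : El Fr.sys, c ≠ (0, ∅) ∧
  ∃ δ : (FQ (rep Fr c))ˣ, IsSquare (rep Fr c * HX.nrX (k := k) δ)

/-- G8d: the discriminant of the quadratic extension -/
def StDN : Prop := ∀ (Fr : Frm k) (c : El Fr.sys), c ≠ (0, ∅) →
  Fr.sys.nm c.2 ≤ dN k (FQ (rep Fr c))

/-- G8e: the partition by the exceptional primes -/
def StSumR : Prop := ∀ (L : Type) [Field L] [NumberField L] [Algebra k L] (E : QX k L)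
  (RL : Rx L) (b : ZMod 2) (Y : ℝ), 0 ≤ Y →
  (∀ R, Disjoint R E.M → (E.Cn RL (E.Onto b) R Y).Finite ∧
    ((E.Cn RL (E.Onto b) R Y).Nonempty → (nmR R : ℝ) ^ 2 ≤ Y)) →
  {ρ | ρ ∈ E.Lf b ∧ (QX.dn ρ : ℝ) ≤ Y ^ 2}.Finite ∧
  HasSum (fun R : {R : Finset (HeightOneSpectrum (𝓞 k)) // Disjoint R E.M} =>
    ((E.Cn RL (E.Onto b) R.1 Y).ncard : ℝ)) (E.AF b Y : ℝ)

/-- G8f: the sums over sets of primes -/
def StSm : Prop := ∀ (Fr : Frm k) (s : ℝ), 1 < s →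
  Summable (fun x : Finset Fr.sys.P => ((Fr.sys.nm x : ℝ) ^ s)⁻¹) ∧
  ∀ M : Finset (HeightOneSpectrum (𝓞 k)), Fr.S ⊆ M →
    Summable (fun R : {R : Finset (HeightOneSpectrum (𝓞 k)) // Disjoint R M} =>
      ((nmR R.1 : ℝ) ^ s)⁻¹) ∧
    ∑' R : {R : Finset (HeightOneSpectrum (𝓞 k)) // Disjoint R M}, ((nmR R.1 : ℝ) ^ s)⁻¹ ≤
      ∑' x : Finset Fr.sys.P, ((Fr.sys.nm x : ℝ) ^ s)⁻¹

end

/-! ### Z: the sum over the quadratic extensions -/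

section

variable (k : Type) [Field k] [NumberField k]

/-- Z1: the uniform bound -/
def StUZ (Fr : Frm k) : Prop := ∀ ε : ℝ, 0 < ε → ∃ C : ℝ, 0 ≤ C ∧ ∀ (L : Type) [Field L]
  [NumberField L] [Algebra k L] (E : QX k L), Fr.S ⊆ E.M → ∀ (b : ZMod 2), E.Val b →
  ∀ (RL : Rx L) (R : Finset (HeightOneSpectrum (𝓞 k))), Disjoint R E.M → ∀ Y : ℝ, 0 ≤ Y →
    (E.Cn RL (E.Onto b) R Y).Finite ∧
    ((E.Cn RL (E.Onto b) R Y).Nonempty → (nmR R : ℝ) ^ 2 ≤ Y) ∧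
    (1 ≤ Y → ((E.Cn RL (E.Onto b) R Y).ncard : ℝ) ≤
      C * ((nmR E.M : ℝ) * nmR R) ^ ε * (Y / (nmR R : ℝ) ^ 2) * (1 + Real.log Y) ^ 2)

/-- Z2: the limit for a fixed field -/
def StZF : Prop := ∀ (Fr : Frm k) (c : El Fr.sys), c ≠ (0, ∅) → ∀ b : ZMod 2, ∃ l : ℝ, 0 ≤ l ∧
  ((b = 0 ∨ ∃ δ : (FQ (rep Fr c))ˣ, IsSquare (rep Fr c * HX.nrX (k := k) δ)) → 0 < l) ∧
  Tendsto (fun X : ℝ => ({ρ ∈ CntG k b X | ∀ σ, (ρ σ).e = chi (rep Fr c : k) σ}.ncard : ℝ) /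
    (X ^ (1 / 2 : ℝ) * Real.log X ^ 2)) atTop (nhds l)

/-- Z3: the bound for a fixed field -/
def StZB (Fr : Frm k) : Prop := ∃ C : ℝ, 0 ≤ C ∧ ∀ (c : El Fr.sys), c ≠ (0, ∅) →
  ∀ (b : ZMod 2) (X : ℝ), 3 ≤ X →
    {ρ ∈ CntG k b X | ∀ σ, (ρ σ).e = chi (rep Fr c : k) σ}.Finite ∧
    ({ρ ∈ CntG k b X | ∀ σ, (ρ σ).e = chi (rep Fr c : k) σ}.ncard : ℝ) ≤
      C * ((Fr.sys.nm c.2 : ℝ) ^ (3 / 2 : ℝ))⁻¹ * (X ^ (1 / 2 : ℝ) * Real.log X ^ 2) ∧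
    ({ρ ∈ CntG k b X | ∀ σ, (ρ σ).e = chi (rep Fr c : k) σ}.Nonempty →
      (Fr.sys.nm c.2 : ℝ) ≤ X)

/-- Z4: the asymptotic formula for the homomorphisms over `k` -/
def StCntG : Prop := ∀ b : ZMod 2, ∃ c : ℝ, 0 < c ∧ Tendsto
  (fun X : ℝ => ((CntG k b X).ncard : ℝ) / (X ^ (1 / 2 : ℝ) * Real.log X ^ 2)) atTop (nhds c)

end

/-- Z5: Malle's conjecture -/
def StMal : Prop := ∀ (k : Type) [Field k] [NumberField k], MalleK k T28 ∧ MalleK k T29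

end Pool.Agent.H32.MQ.G
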