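import Pool.Agent.H32.MQ.Qd
import Pool.Agent.H98.MF.Frm
import Pool.Agent.H98.MF.C.C3b
import Pool.Agent.H98.MF.C.C3c
import Pool.Agent.H98.MF.L.Odd

/-!
# Malle's conjecture for 8T28 and 8T29 over number fields, block H: quadratic extensions of a
number field with a frame; the objects of the structure `Qd`

`Fr` is a frame of `k`, `X : HX Fr L` collects a quadratic extension `L = k(α)`, `α ^ 2 = a`, an
element `δ` of `L` and a finite set `M` of primes of the frame, such that outside `M` the
extension is unramified and `δ` has even exponents.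
-/

set_option autoImplicit false

open scoped BigOperators
open NumberField IsDedekindDomain

namespace Pool.Agent.H32.MQ

open Pool.Agent.H98.MF

section Co

variable {k : Type} [Field k] [NumberField k] (Fr : Frm k)

/-- the element with given coordinates -/
noncomputable def rep (c : El Fr.sys) : kˣ := (∏ j, Fr.u j ^ (c.1 j).val) * ∏ p ∈ c.2, Fr.pi p

theorem odd_fin (x : kˣ) : {p : Fr.sys.P | Odd (ord (Fr.pl p) (x : k))}.Finite := by
  refine ((Pool.Agent.H98.MF.B.ord_finite (x : k) x.ne_zero).preimage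
    Fr.pl_inj.injOn).subset fun p hp => ?_
  show ord (Fr.pl p) (x : k) ≠ 0
  intro h
  have hp1 : Odd (ord (Fr.pl p) (x : k)) := hp
  rw [h] at hp1
  exact absurd hp1 (by decide)

/-- the primes of the frame with odd exponent -/
noncomputable def odp (x : kˣ) : Finset Fr.sys.P := (odd_fin Fr x).toFinset

open Classical in
/-- the coordinates of an element modulo squares -/
noncomputable def co (x : kˣ) : El Fr.sys :=
  (if h : ∃ c : Fr.sys.T, IsSquare (x * rep Fr (c, odp Fr x)) then h.choose else 0, odp Fr x)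

theorem mem_odp {x : kˣ} {p : Fr.sys.P} : p ∈ odp Fr x ↔ Odd (ord (Fr.pl p) (x : k)) := by
  unfold odp
  rw [Set.Finite.mem_toFinset]
  rfl

open Classical in
/-- the element `t` -/
noncomputable def tt (c : El Fr.sys) (x : Finset Fr.sys.P) : kˣ := rep Fr (c.1, c.2 ∪ x)

open Classical in
/-- the local class at `M` of the generator of a set of primes -/
noncomputable def labM {S : Sys} (M : Finset S.P) (x : Finset S.P) : El S :=
  (S.tys x, M.filter fun v => ∑ p ∈ x, S.J p v = 1)

end Co

/-- a quadratic extension of `k` with an element `δ` and a set `M` of primes of a frame -/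
structure HX {k : Type} [Field k] [NumberField k] (Fr : Frm k) (L : Type) [Field L]
    [NumberField L] [Algebra k L] where
  a : kˣ
  α : L
  qe : QE a α
  δ : Lˣ
  M : Finset Fr.sys.P
  unr : ∀ p, p ∉ M → Even (ord (Fr.pl p) (a : k))
  evd : ∀ p, p ∉ M → ∀ Q : HeightOneSpectrum (𝓞 L), Over (Fr.pl p) Q → Even (ord Q (δ : L))

namespace HX

variable {k : Type} [Field k] [NumberField k] {Fr : Frm k} {L : Type} [Field L]
  [NumberField L] [Algebra k L] (X : HX Fr L)

/-- the conjugation -/
noncomputable def sig : L ≃ₐ[k] L := (Pool.Agent.H98.MF.B.qe_conj X.qe).choose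

theorem sig_α : X.sig X.α = -X.α := (Pool.Agent.H98.MF.B.qe_conj X.qe).choose_spec.1

theorem sig_sig (z : L) : X.sig (X.sig z) = z :=
  (Pool.Agent.H98.MF.B.qe_conj X.qe).choose_spec.2.1 z

theorem sig_all (τ : L ≃ₐ[k] L) : τ = 1 ∨ τ = X.sig :=
  (Pool.Agent.H98.MF.B.qe_conj X.qe).choose_spec.2.2.1 τ

theorem nm_eq (z : L) : algebraMap k L (Algebra.norm k z) = z * X.sig z :=
  (Pool.Agent.H98.MF.B.qe_conj X.qe).choose_spec.2.2.2 z

/-- the prime `Q` lies above a prime outside `S₀` and `M` -/
def Out (Q : HeightOneSpectrum (𝓞 L)) : Prop := ∃ p, p ∉ X.M ∧ Over (Fr.pl p) Q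

/-- the primes of degree one, outside `S₀` and `M` -/
abbrev PX : Type := {Q : HeightOneSpectrum (𝓞 L) // X.Out Q ∧ cj X.sig Q ≠ Q}

/-- the prime below -/
noncomputable def shX (Q : X.PX) : Fr.sys.P := Q.2.1.choose

theorem shX_not (Q : X.PX) : X.shX Q ∉ X.M := Q.2.1.choose_spec.1

theorem shX_over (Q : X.PX) : Over (Fr.pl (X.shX Q)) Q.1 := Q.2.1.choose_spec.2

omit [NumberField L] in
theorem over_inj {p q : Fr.sys.P} {Q : HeightOneSpectrum (𝓞 L)} (h : Over (Fr.pl p) Q)
    (h' : Over (Fr.pl q) Q) : p = q := by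
  apply Fr.pl_inj
  apply HeightOneSpectrum.ext
  rw [← h, ← h']

theorem shX_eq (Q : X.PX) {p : Fr.sys.P} (h : Over (Fr.pl p) Q.1) : X.shX Q = p :=
  over_inj (X.shX_over Q) h

theorem cj_cj' (Q : HeightOneSpectrum (𝓞 L)) : cj X.sig (cj X.sig Q) = Q := by
  apply HeightOneSpectrum.ext
  ext x
  rw [mem_cj, mem_cj]
  have h1 : qxR X.sig (qxR X.sig x) = x := by
    apply RingOfIntegers.ext
    rw [qxR_coe, qxR_coe, X.sig_sig]
  rw [h1]

/-- the conjugate prime -/
noncomputable def cjX (Q : X.PX) : X.PX :=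
  ⟨cj X.sig Q.1, ⟨_, X.shX_not Q, (X.shX_over Q).cj X.sig⟩, by
    rw [X.cj_cj']
    exact fun h => Q.2.2 h.symm⟩

/-- classes modulo squares -/
abbrev GX (L : Type) [Field L] : Type := Lˣ ⧸ (powMonoidHom 2 : Lˣ →* Lˣ).range

/-- a representative of a class -/
noncomputable def out (γ : GX L) : Lˣ := Quotient.out γ

omit [NumberField L] in
theorem out_mk (x : Lˣ) : ∃ y : Lˣ, out (x : GX L) = x * y ^ 2 := by
  have h1 : ((out (x : GX L) : Lˣ) : GX L) = (x : GX L) := Quotient.out_eq _
  rw [eq_comm, QuotientGroup.eq] at h1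
  obtain ⟨y, hy⟩ := h1
  refine ⟨y, ?_⟩
  have hy' : y ^ 2 = x⁻¹ * out (x : GX L) := hy
  rw [hy', mul_inv_cancel_left]

/-- the norm of an element of `L` -/
noncomputable def nrX (x : Lˣ) : kˣ := Units.map (Algebra.norm k : L →* k) x

/-- the classes with odd exponents exactly at `g`, outside `M` -/
def Bs (g : Finset X.PX) : Set (GX L) :=
  {γ | ∀ Q : HeightOneSpectrum (𝓞 L), X.Out Q →
    (Odd (ord Q ((out γ : Lˣ) : L)) ↔ ∃ b ∈ g, b.1 = Q)}

open Classical in
/-- the classes with odd exponents exactly at `g`, outside `M` -/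
noncomputable def BX (g : Finset X.PX) : Finset (GX L) :=
  if h : (X.Bs g).Finite then h.toFinset else ∅

open Classical in
/-- the class of the norm of `γ`, divided by the generators of the shadows -/
noncomputable def nuX (γ : GX L) : El Fr.sys :=
  ((co Fr (nrX (out γ))).1, (co Fr (nrX (out γ))).2.filter fun p => p ∈ X.M)

open Classical in
/-- the primes of `L` above `S₀` and `M` -/
noncomputable def SL : Finset (HeightOneSpectrum (𝓞 L)) :=
  (Pool.Agent.H98.MF.B.ovr_exists (L := L) (Fr.S ∪ X.M.image Fr.pl)).choose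

open Classical in
theorem mem_SL (Q : HeightOneSpectrum (𝓞 L)) : Q ∈ X.SL ↔
    ∃ P ∈ Fr.S ∪ X.M.image Fr.pl, Q.asIdeal.comap (algebraMap (𝓞 k) (𝓞 L)) = P.asIdeal :=
  (Pool.Agent.H98.MF.B.ovr_exists (L := L) (Fr.S ∪ X.M.image Fr.pl)).choose_spec Q

/-- the sum of the symbols of `γ` and `δ t` at the places of `L` above `S₀` and `M` and the real
places -/
noncomputable def hS (γ : GX L) (c : El Fr.sys) (x : Finset Fr.sys.P) : ZMod 2 :=
  ∑ v ∈ pls X.SL, hv v ((out γ : Lˣ) : L) ((X.δ : L) * algebraMap k L (tt Fr c x : k))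

open Classical in
/-- the same as a function of the local classes -/
noncomputable def hMX (γ : GX L) (c l : El Fr.sys) : ZMod 2 :=
  if h : ∃ x, Disjoint x X.M ∧ labM X.M x = l then X.hS γ c h.choose else 0

end HX

end Pool.Agent.H32.MQ
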