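import Pool.Agent.H32.MQ.HBase

/-!
# Malle's conjecture for 8T28 and 8T29 over number fields, block H: the structure `Qd` of a
quadratic extension and its laws
-/

set_option autoImplicit false

open scoped BigOperators
open NumberField IsDedekindDomain

namespace Pool.Agent.H32.MQ

open Pool.Agent.H98.MF

section

variable {k : Type} [Field k] [NumberField k] {Fr : Frm k} {L : Type} [Field L]
  [NumberField L] [Algebra k L] (X : HX Fr L)

theorem h_split : StSplit X := by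
  intro p hp
  obtain ⟨Q, hQ⟩ := exists_over (L := L) (Fr.pl p)
  have h1 : Fr.sys.ex (co Fr X.a).2 (co Fr X.a).1 p = 0 ↔ cj X.sig Q ≠ Q := by
    rw [← h_qr Fr X.a p (X.unr p hp), qr_eq_zero]
    exact Pool.Agent.H98.MF.B.qe_split_iff X.qe X.sig X.sig_α hQ
  rw [h1]
  constructor
  · rintro ⟨b, hb⟩
    have hQ' : Over (Fr.pl p) b.1 := by
      rw [← hb]
      exact X.shX_over b
    rcases Pool.Agent.H98.MF.B.qe_over X.qe X.sig X.sig_α hQ hQ' with h | h
    · rw [← h]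
      exact b.2.2
    · intro h2
      apply b.2.2
      rw [h, h2, h2]
  · intro h
    exact ⟨⟨Q, ⟨p, hp, hQ⟩, h⟩, X.shX_eq _ hQ⟩

theorem hi_d_sub : (co Fr X.a).2 ⊆ X.M := by
  intro p hp
  by_contra h
  have h1 : p ∈ odp Fr X.a := hp
  rw [mem_odp, ← Int.not_even_iff_odd] at h1
  exact h1 (X.unr p h)

theorem hi_d_ne : (co Fr X.a).2.Nonempty ∨ (co Fr X.a).1 ≠ 0 := by
  by_contra h
  rw [not_or, Finset.not_nonempty_iff_eq_empty, not_not] at h
  apply X.qe.ns
  have h1 := h_co Fr X.a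
  have h2 : co Fr X.a = (0, ∅) := Prod.ext h.2 h.1
  rw [h2] at h1
  have h3 : rep Fr ((0, ∅) : El Fr.sys) = 1 := by
    unfold rep
    simp
  rwa [h3, mul_one] at h1

theorem hi_fib (b b' : X.PX) (h : X.shX b = X.shX b') : b' = b ∨ b' = X.cjX b := by
  have h1 := X.shX_over b
  have h2 := X.shX_over b'
  rw [← h] at h2
  rcases Pool.Agent.H98.MF.B.qe_over X.qe X.sig X.sig_α h1 h2 with h3 | h3
  · exact Or.inl (Subtype.ext h3)
  · exact Or.inr (Subtype.ext h3)

theorem hi_card (hB : StCardB X) (g : Finset X.PX) :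
    (X.BX g).card ≤ 4 ^ (Fr.sys.m + X.M.card) := by
  classical
  obtain ⟨h1, h2⟩ := hB g
  unfold HX.BX
  rw [dif_pos h1]
  rwa [Set.ncard_eq_toFinset_card _ h1] at h2

theorem hi_mem (hB : StCardB X) {g : Finset X.PX} {γ : HX.GX L} :
    γ ∈ X.BX g ↔ γ ∈ X.Bs g := by
  classical
  unfold HX.BX
  rw [dif_pos (hB g).1, Set.Finite.mem_toFinset]

/-- the structure `Qd` of a quadratic extension of a number field -/
noncomputable def toQd (hB : StCardB X) : Qd Fr.sys where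
  M := X.M
  P := X.PX
  sh := X.shX
  cj := X.cjX
  sh_not := X.shX_not
  sh_cj b := X.shX_eq _ ((X.shX_over b).cj X.sig)
  cj_cj b := Subtype.ext (X.cj_cj' b.1)
  cj_ne b h := b.2.2 (congrArg Subtype.val h)
  fib := hi_fib X
  d := co Fr X.a
  d_sub := hi_d_sub X
  d_ne := hi_d_ne X
  split := h_split X
  G := HX.GX L
  B := X.BX
  card_B := hi_card X hB
  nu := X.nuX
  nu_sub γ p hp := by
    unfold HX.nuX at hp
    exact (Finset.mem_filter.1 hp).2
  sy γ b := qr ((HX.out γ : Lˣ) : L) b.1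
  ns γ p := qr (HX.nrX (k := k) (HX.out γ) : k) (Fr.pl p)
  d0 b := qr (X.δ : L) b.1
  hM := X.hMX

open Classical in
theorem hi_shd (hB : StCardB X) (g : Finset X.PX) : (toQd X hB).shd g = g.image X.shX := rfl

open Classical in
/-- the odd exponents of the norm -/
theorem hi_odp (h2 : StOrdN X) (g : Finset X.PX)
    (hg : ∀ b ∈ g, ∀ b' ∈ g, X.shX b = X.shX b' → b = b') (γ : HX.GX L) (hγ : γ ∈ X.Bs g)
    (p : Fr.sys.P) (hp : p ∉ X.M) :
    p ∈ odp Fr (HX.nrX (k := k) (HX.out γ)) ↔ p ∈ g.image X.shX := by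
  obtain ⟨Q, hQ⟩ := exists_over (L := L) (Fr.pl p)
  have hQ' : Over (Fr.pl p) (cj X.sig Q) := hQ.cj X.sig
  have e1 := hγ Q ⟨p, hp, hQ⟩
  have e2 := hγ (cj X.sig Q) ⟨p, hp, hQ'⟩
  rw [mem_odp, h2 p Q hp hQ (HX.out γ), Int.odd_add, e1, Finset.mem_image,
    ← Int.not_odd_iff_even, e2]
  constructor
  · intro h
    by_contra hc
    have h3 : ¬ ∃ b ∈ g, b.1 = Q := by
      rintro ⟨b, hb, hbQ⟩
      exact hc ⟨b, hb, X.shX_eq b (hbQ ▸ hQ)⟩
    have h4 : ¬ ∃ b ∈ g, b.1 = cj X.sig Q := by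
      rintro ⟨b, hb, hbQ⟩
      exact hc ⟨b, hb, X.shX_eq b (hbQ ▸ hQ')⟩
    exact h3 (h.2 h4)
  · rintro ⟨b, hb, hbp⟩
    have hbo := X.shX_over b
    rw [hbp] at hbo
    constructor
    · rintro ⟨b1, hb1, hb1Q⟩ ⟨b2, hb2, hb2Q⟩
      have h5 : b1 = b2 := by
        apply hg b1 hb1 b2 hb2
        rw [X.shX_eq b1 (hb1Q ▸ hQ), X.shX_eq b2 (hb2Q ▸ hQ')]
      apply b1.2.2
      rw [hb1Q, ← hb2Q, ← h5, hb1Q]
    · intro h
      rcases Pool.Agent.H98.MF.B.qe_over X.qe X.sig X.sig_α hQ hbo with h6 | h6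
      · exact ⟨b, hb, h6⟩
      · exact absurd ⟨b, hb, h6⟩ h

open Classical in
/-- the coordinates of the norm -/
theorem hi_co (h2 : StOrdN X) (g : Finset X.PX)
    (hg : ∀ b ∈ g, ∀ b' ∈ g, X.shX b = X.shX b' → b = b') (γ : HX.GX L) (hγ : γ ∈ X.Bs g) :
    (co Fr (HX.nrX (k := k) (HX.out γ))).2 = g.image X.shX ∪ (X.nuX γ).2 := by
  ext p
  rw [Finset.mem_union]
  have e : p ∈ (co Fr (HX.nrX (k := k) (HX.out γ))).2 ↔
      p ∈ odp Fr (HX.nrX (k := k) (HX.out γ)) := Iff.rfl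
  have e2 : p ∈ (X.nuX γ).2 ↔ p ∈ (co Fr (HX.nrX (k := k) (HX.out γ))).2 ∧ p ∈ X.M := by
    unfold HX.nuX
    exact Finset.mem_filter
  rw [e2, e]
  by_cases hp : p ∈ X.M
  · constructor
    · exact fun h => Or.inr ⟨h, hp⟩
    · rintro (h | h)
      · obtain ⟨b, -, hb⟩ := Finset.mem_image.1 h
        exact absurd (hb ▸ hp) (X.shX_not b)
      · exact h.1
  · rw [hi_odp X h2 g hg γ hγ p hp]
    exact ⟨fun h => Or.inl h, fun h => h.resolve_right fun h' => hp h'.2⟩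

theorem law_of (hB : StCardB X) (h2 : StOrdN X) (hS : StQS X) (hP : StProd X) (hI : StInv X) :
    (toQd X hB).Law where
  ns_eq := by
    classical
    intro g hg γ hγ p hp hpg
    have hγ' : γ ∈ X.Bs g := (hi_mem X hB).1 hγ
    have h0 : p ∉ g.image X.shX := fun h => hpg ((hi_shd X hB g).symm ▸ h)
    have h1 : p ∉ odp Fr (HX.nrX (k := k) (HX.out γ)) := fun h =>
      h0 ((hi_odp X h2 g hg γ hγ' p hp).1 h)
    have h3 : Even (ord (Fr.pl p) (HX.nrX (k := k) (HX.out γ) : k)) := by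
      rw [mem_odp, Int.not_odd_iff_even] at h1
      exact h1
    have h4 := h_qr Fr _ p h3
    rw [hi_co X h2 g hg γ hγ'] at h4
    refine h4.trans ?_
    unfold Qd.shd
    congr 1
  ns_split := by
    classical
    intro g hg γ hγ a ha
    have hγ' : γ ∈ X.Bs g := (hi_mem X hB).1 hγ
    have ha' : ∀ b ∈ g, X.shX b ≠ X.shX a := by
      intro b hb hbe
      apply ha
      unfold Qd.shd
      exact Finset.mem_image.2 ⟨b, hb, hbe⟩
    refine hS (HX.out γ) a ?_ ?_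
    · rw [← Int.not_odd_iff_even, hγ' a.1 a.2.1]
      rintro ⟨b, hb, hbe⟩
      exact ha' b hb (congrArg X.shX (Subtype.ext hbe))
    · rw [← Int.not_odd_iff_even, hγ' (X.cjX a).1 (X.cjX a).2.1]
      rintro ⟨b, hb, hbe⟩
      apply ha' b hb
      rw [show b = X.cjX a from Subtype.ext hbe]
      exact X.shX_eq _ ((X.shX_over a).cj X.sig)
  prod := by
    classical
    intro g hg γ hγ c hc x hx hxg
    have hγ' : γ ∈ X.Bs g := (hi_mem X hB).1 hγ
    have hc' : c.2 ⊆ X.M := by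
      unfold Qd.els at hc
      exact Finset.mem_powerset.1 (Finset.mem_product.1 hc).2
    have hxg' : Disjoint x (g.image X.shX) := by
      rw [← hi_shd X hB g]
      exact hxg
    have h1 := hP g hg γ hγ' c hc' x hx hxg'
    refine h1.trans ?_
    have h3 : ∃ x', Disjoint x' X.M ∧ labM X.M x' = labM X.M x := ⟨x, hx, rfl⟩
    have h4 : X.hMX γ c (labM X.M x) = X.hS γ c h3.choose := by
      unfold HX.hMX
      rw [dif_pos h3]
    have h5 : X.hMX γ c (labM X.M x) = X.hS γ c x := by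
      rw [h4]
      exact hI γ c _ _ hc' h3.choose_spec.1 hx h3.choose_spec.2
    exact h5.symm

end

end Pool.Agent.H32.MQ
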