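import Pool.Agent.H32.MQ.BFInst

/-!
# Malle's conjecture for 8T28 and 8T29, block BF: the instance of `Od`
-/

set_option autoImplicit false

open scoped BigOperators
open NumberField IsDedekindDomain

namespace Pool.Agent.H32.MQ

open Pool.Agent.H98.MK (sg)
open Pool.Agent.H98.MF
open Pool.Agent.H32.MA.AB (Lat)

section

variable {k : Type} [Field k] [NumberField k] {L : Type} [Field L] [NumberField L] [Algebra k L]

theorem io_int {b : 𝓞 k} {β : L} (h : β ^ 2 = algebraMap k L b) (x : ordA b β h) :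
    IsIntegral ℤ (x : L) := by
  obtain ⟨z, x, y, rfl⟩ := x
  have h1 : ∀ t : 𝓞 k, IsIntegral ℤ (algebraMap k L (t : k)) := fun t =>
    (t.2 : IsIntegral ℤ (t : k)).map (IsScalarTower.toAlgHom ℤ k L)
  have h2 : IsIntegral ℤ β := by
    refine IsIntegral.of_pow (n := 2) two_pos ?_
    rw [h]
    exact h1 b
  exact (h1 x).add ((h1 y).mul h2)

/-- the order in the ring of integers -/
noncomputable def ordO {b : 𝓞 k} {β : L} (h : β ^ 2 = algebraMap k L b) :
    ordA b β h →+* 𝓞 L where
  toFun x := ⟨x, io_int h x⟩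
  map_one' := rfl
  map_mul' _ _ := rfl
  map_zero' := rfl
  map_add' _ _ := rfl

theorem ordO_coe {b : 𝓞 k} {β : L} (h : β ^ 2 = algebraMap k L b) (x : ordA b β h) :
    ((ordO h x : 𝓞 L) : L) = x := rfl

theorem ordO_inj {b : 𝓞 k} {β : L} (h : β ^ 2 = algebraMap k L b) {x : ordA b β h}
    (hx : x ≠ 0) : ordO h x ≠ 0 := fun h0 => hx (Subtype.ext (by
  have := congrArg (fun t : 𝓞 L => (t : L)) h0
  exact this))

end

section

variable {k : Type} [Field k] [NumberField k] {Fr : Frm k} {L : Type} [Field L]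
  [NumberField L] [Algebra k L] (X : HX Fr L)

theorem iod_two (Q : VX X) : ord Q.1 (2 : L) = 0 := by
  obtain ⟨Q, p, hp, hQ⟩ := Q
  exact (h_ord X p Q hp hQ).1

/-- the exponent as a homomorphism -/
noncomputable def iod_ord (Q : VX X) : Additive Lˣ →+ ℤ where
  toFun x := ord Q.1 ((x.toMul : Lˣ) : L)
  map_zero' := Pool.Agent.H98.MF.B.ord_one Q.1
  map_add' x y := by
    rw [toMul_add, Units.val_mul]
    exact Pool.Agent.H98.MF.B.ord_mul Q.1 (Units.ne_zero _) (Units.ne_zero _)

theorem iod_ord_apply (Q : VX X) (x : Additive Lˣ) :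
    iod_ord X Q x = ord Q.1 ((x.toMul : Lˣ) : L) := rfl

open Classical in
/-- the element of the field -/
noncomputable def iod_io {b : 𝓞 k} {β : L} (h : β ^ 2 = algebraMap k L b) (x : ordA b β h) :
    Additive Lˣ :=
  if h0 : (x : L) = 0 then 0 else Additive.ofMul (Units.mk0 (x : L) h0)

theorem iod_io_coe {b : 𝓞 k} {β : L} (h : β ^ 2 = algebraMap k L b) {x : ordA b β h}
    (hx : x ≠ 0) : (((iod_io h x).toMul : Lˣ) : L) = x := by
  have h0 : (x : L) ≠ 0 := fun h0 => hx (Subtype.ext h0)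
  unfold iod_io
  rw [dif_neg h0]
  rfl

theorem iod_NV (b : X.PX) : nrm b.1 = Fr.sys.N (X.shX b) := by
  have h1 := X.shX_over b
  have h2 : Over (Fr.pl (X.shX b)) (cj X.sig b.1) := h1.cj X.sig
  have h3 := ef_of_split X.qe.deg h1 h2 b.2.2
  rw [Fr.N_eq]
  unfold nrm
  rw [over_absNorm h1, h3.2, pow_one]

theorem iod_mem (b : X.PX) : ((Fr.sys.N (X.shX b) : ℕ) : 𝓞 L) ∈ b.1.asIdeal := by
  have h1 := X.shX_over b
  rw [← iod_NV X b]
  exact Ideal.absNorm_mem b.1.asIdeal

end

section

variable {k : Type} [Field k] [NumberField k] {Fr : Frm k} {L : Type} [Field L]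
  [NumberField L] [Algebra k L] (X : HX Fr L)

theorem iod_rs_zero {b : 𝓞 k} {β : L} (h : β ^ 2 = algebraMap k L b) (v : X.PX)
    (x : ordA b β h) : rsX X v (x : L) = 0 ↔
      x = 0 ∨ iod_ord X ⟨v.1, v.2.1⟩ (iod_io h x) ≠ 0 := by
  classical
  have h1 : ∀ t : ZMod 2, sg t ≠ 0 := by decide
  by_cases hx : x = 0
  · rw [hx]
    unfold rsX
    simp
  · have h0 : (x : L) ≠ 0 := fun h0 => hx (Subtype.ext h0)
    rw [iod_ord_apply, iod_io_coe h hx]
    unfold rsX
    by_cases h2 : ord v.1 (x : L) = 0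
    · simp [hx, h2, h1]
    · simp [h2]

theorem iod_pig {b : 𝓞 k} {β : L} (h : β ^ 2 = algebraMap k L b) (hR : RsSt X) (v : X.PX) :
    ∃ (G : Type) (_ : AddCommGroup G) (_ : Fintype G) (f : ordA b β h →+ G),
      Fintype.card G = Fr.sys.N (X.shX v) ∧ ∀ x, f x = 0 → rsX X v (x : L) = 0 := by
  classical
  have hfin : Finite (𝓞 L ⧸ v.1.asIdeal) := v.1.asIdeal.finiteQuotientOfFreeOfNeBot v.1.ne_bot
  refine ⟨𝓞 L ⧸ v.1.asIdeal, inferInstance, Fintype.ofFinite _,
    ((Ideal.Quotient.mk v.1.asIdeal).comp (ordO h)).toAddMonoidHom, ?_, ?_⟩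
  · exact (@Nat.card_eq_fintype_card _ (Fintype.ofFinite _)).symm.trans (iod_NV X v)
  · intro x hx
    have h1 : ordO h x ∈ v.1.asIdeal := Ideal.Quotient.eq_zero_iff_mem.1 hx
    have h2 := hR v (ordO h x) 0 (by rwa [sub_zero])
    have h3 : rsX X v (((0 : 𝓞 L) : 𝓞 L) : L) = 0 := by
      unfold rsX
      exact if_pos (Or.inl rfl)
    rw [h3] at h2
    exact h2

end

/-- the instance -/
theorem odSt {k : Type} [Field k] [NumberField k] (Fr : Frm k) (hdg : 1 ≤ dg k)
    (hBd : BdSt Fr) (hLat : LatSt k)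
    (hNd : ∀ (L : Type) [Field L] [NumberField L], NdSt L)
    (hCh : ∀ (L : Type) [Field L] [NumberField L], ChSt L)
    (hPf : ∀ (L : Type) [Field L] [NumberField L] [Algebra k L] (X : HX Fr L), PfSt X)
    (hLc : LcSt Fr)
    (hRs : ∀ (L : Type) [Field L] [NumberField L] [Algebra k L] (X : HX Fr L), RsSt X)
    (hTw : ∀ (L : Type) [Field L] [NumberField L] [Algebra k L] (X : HX Fr L), TwSt X)
    (hCl : ∀ (L : Type) [Field L] [NumberField L] [Algebra k L] (X : HX Fr L), ClSt X)
    (hCv : CvSt Fr) (hFw : FwSt Fr) : OdSt Fr := by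
  classical
  obtain ⟨C1, A1, hC1, hBd⟩ := hBd
  obtain ⟨C2, hC2, hLat⟩ := hLat
  obtain ⟨C3, A3, hC3, hLc⟩ := hLc
  obtain ⟨C4, hC4, hCv⟩ := hCv
  -- the constants
  set n := dg k with hn
  refine ⟨C2 * (1 + C1) ^ n + (C3 + C4 * (C2 * (1 + C1) ^ n) ^ 2), A1 * n + (A3 + 2 * (A1 * n)),
    le_add_right (Nat.one_le_iff_ne_zero.2 (by positivity)), ?_⟩
  intro L _ _ _ X
  obtain ⟨b, z, hbz, hb0, hbs⟩ := hBd X.a X.M X.unr
  set N : ℕ := Fr.sys.nm X.M with hN
  have hN1 : 1 ≤ N := Fr.sys.one_le_nm X.M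
  have hβ : (X.α * algebraMap k L (z : k)) ^ 2 = algebraMap k L (b : k) := by
    rw [mul_pow, X.qe.sq, hbz, map_mul, map_pow]
  have hns : ¬ IsSquare (b : k) := by
    rw [hbz]
    rintro ⟨r, hr⟩
    apply X.qe.ns
    have hr0 : r ≠ 0 := by
      rintro rfl
      rw [mul_zero] at hr
      exact (mul_ne_zero X.a.ne_zero (pow_ne_zero 2 z.ne_zero)) hr
    refine ⟨Units.mk0 r hr0 * z⁻¹, Units.ext ?_⟩
    rw [Units.val_mul, Units.val_mul, Units.val_mk0, Units.val_inv_eq_inv_val]
    have hz := z.ne_zero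
    field_simp
    linear_combination hr
  obtain ⟨c, hc⟩ : ∃ c : ℕ, c = C2 * (1 + sz b) ^ n := ⟨_, rfl⟩
  have hLat' := hLat L b _ hβ X.qe.deg hns
  rw [← hc] at hLat'
  obtain ⟨Lt, hLt⟩ := hLat'
  have hc1 : 1 ≤ c := Lt.c_pos
  obtain ⟨hfin, hcard⟩ := hLc L X
  obtain ⟨Φ, hΦ, hΦ'⟩ := hCv L X c hc1
  have hcN : c ≤ C2 * (1 + C1) ^ n * N ^ (A1 * n) := by
    rw [hc, mul_assoc, pow_mul, ← mul_pow]
    refine Nat.mul_le_mul_left _ (Nat.pow_le_pow_left ?_ _)
    have h1 : 1 ≤ N ^ A1 := Nat.one_le_pow _ _ hN1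
    calc 1 + sz b ≤ N ^ A1 + C1 * N ^ A1 := Nat.add_le_add h1 hbs
      _ = (1 + C1) * N ^ A1 := by ring
  refine ⟨c, Nat.card (LmX X) + C4 * c ^ 2, hc1, ?_, ?_, ?_, ⟨?_⟩⟩
  · have h1 : 1 ≤ C4 * c ^ 2 := Nat.one_le_iff_ne_zero.2 (by positivity)
    omega
  · refine hcN.trans (Nat.mul_le_mul (Nat.le_add_right _ _) ?_)
    exact Nat.pow_le_pow_right hN1 (Nat.le_add_right _ _)
  · have h1 : C4 * c ^ 2 ≤ C4 * (C2 * (1 + C1) ^ n) ^ 2 * N ^ (2 * (A1 * n)) := by
      rw [mul_assoc]
      refine Nat.mul_le_mul_left _ ?_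
      rw [mul_comm 2, pow_mul, ← mul_pow]
      exact Nat.pow_le_pow_left hcN _
    have h2 : ∀ e : ℕ, e ≤ A1 * n + (A3 + 2 * (A1 * n)) → N ^ e ≤
        N ^ (A1 * n + (A3 + 2 * (A1 * n))) := fun e he => Nat.pow_le_pow_right hN1 he
    calc Nat.card (LmX X) + C4 * c ^ 2
        ≤ C3 * N ^ A3 + C4 * (C2 * (1 + C1) ^ n) ^ 2 * N ^ (2 * (A1 * n)) :=
          Nat.add_le_add hcard h1
      _ ≤ C3 * N ^ (A1 * n + (A3 + 2 * (A1 * n))) + C4 * (C2 * (1 + C1) ^ n) ^ 2 *
          N ^ (A1 * n + (A3 + 2 * (A1 * n))) :=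
          Nat.add_le_add (Nat.mul_le_mul_left _ (h2 _ (by omega)))
            (Nat.mul_le_mul_left _ (h2 _ (by omega)))
      _ = (C3 + C4 * (C2 * (1 + C1) ^ n) ^ 2) * N ^ (A1 * n + (A3 + 2 * (A1 * n))) := by ring
      _ ≤ _ := Nat.mul_le_mul_right _ (Nat.le_add_left _ _)
  · -- the structure
    choose χ hχ1 hχ2 using fun Q : VX X => hCh L Q.1 (iod_two X Q)
    letI : Fintype (LmX X) := Fintype.ofFinite _
    have hne : ∀ {x : ordA b _ hβ}, x ≠ 0 → (x : L) ≠ 0 := fun hx h0 => hx (Subtype.ext h0)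
    have hordx : ∀ (Q : VX X) {x : ordA b _ hβ}, x ≠ 0 →
        iod_ord X Q (iod_io hβ x) = ord Q.1 (x : L) := fun Q x hx => by
      rw [iod_ord_apply, iod_io_coe hβ hx]
    exact
      { n_pos := by omega
        A := ordA b _ hβ
        L := Lt
        U := Additive Lˣ
        io := iod_io hβ
        io_mul := fun x y hx hy => by
          apply Additive.toMul.injective
          apply Units.ext
          rw [toMul_add, Units.val_mul, iod_io_coe hβ hx, iod_io_coe hβ hy,
            iod_io_coe hβ (mul_ne_zero hx hy)]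
          rfl
        V := VX X
        NV := fun Q => nrm Q.1
        NV_two := fun Q => by
          have h1 : nrm Q.1 ≠ 1 := fun h1 => Q.1.isPrime.ne_top (Ideal.absNorm_eq_one_iff.1 h1)
          have h2 : nrm Q.1 ≠ 0 := fun h2 => Q.1.ne_bot (Ideal.absNorm_eq_zero_iff.1 h2)
          show 2 ≤ nrm Q.1
          omega
        em := fun b => ⟨b.1, b.2.1⟩
        em_inj := fun b b' h => Subtype.ext (congrArg (fun Q : VX X => Q.1) h)
        NV_em := fun b => iod_NV X b
        ord := iod_ord X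
        ord_fin := fun x => by
          refine ((Pool.Agent.H98.MF.B.ord_finite ((x.toMul : Lˣ) : L)
            (Units.ne_zero _)).preimage Subtype.val_injective.injOn).subset fun Q hQ => hQ
        ord_nn := fun x hx Q => by
          rw [hordx Q hx]
          exact (hNd L (ordO hβ x) (ordO_inj hβ hx)).1 Q.1
        nrm_dvd := fun x hx T => by
          have h1 := (hNd L (ordO hβ x) (ordO_inj hβ hx)).2
            (T.map ⟨Subtype.val, Subtype.val_injective⟩)
          have h2 : (Algebra.norm ℤ (ordO hβ x)).natAbs = Lt.nrm x := by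
            have h3 := hLt x
            have h4 : ((Algebra.norm ℤ (ordO hβ x) : ℤ) : ℚ) = Algebra.norm ℚ (x : L) :=
              Algebra.coe_norm_int (ordO hβ x)
            rw [← h4] at h3
            have h5 : (((Algebra.norm ℤ (ordO hβ x)).natAbs : ℕ) : ℚ) = ((Lt.nrm x : ℕ) : ℚ) := by
              rw [h3, Nat.cast_natAbs, Int.cast_abs]
            exact_mod_cast h5
          rw [h2, Finset.prod_map] at h1
          refine Dvd.dvd.trans (dvd_of_eq ?_) h1
          refine Finset.prod_congr rfl fun Q _ => ?_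
          rw [hordx Q hx]
          rfl
        chi := χ
        rs := fun b x => rsX X b (x : L)
        rs_zero := fun v x => iod_rs_zero X hβ v x
        rs_eq := fun b x hx h0 => by
          rw [hordx ⟨b.1, b.2.1⟩ hx] at h0
          have h0' : ord b.1 (x : L) = 0 := h0
          have h1 : rsX X b (x : L) = sg (qr (x : L) b.1) := by
            unfold rsX
            rw [if_neg]
            rintro (h2 | h2)
            · exact hne hx h2
            · exact h2 h0'
          have h2 := hχ1 ⟨b.1, b.2.1⟩ (iod_io hβ x).toMul (by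
            rw [iod_io_coe hβ hx]
            show Even (ord b.1 (x : L))
            rw [h0']
            exact Even.zero)
          rw [ofMul_toMul, iod_io_coe hβ hx] at h2
          rw [h1, h2]
        rs_per := fun v x y => by
          have h1 := hRs L X v (ordO hβ (x + (Fr.sys.N (X.shX v) : ordA b _ hβ) * y)) (ordO hβ x) (by
            rw [map_add, add_sub_cancel_left, map_mul, map_natCast]
            exact Ideal.mul_mem_right _ _ (iod_mem X v))
          exact h1
        tw := fun W a ha m hm => hTw L X b _ hβ hns hb0 W a ha m hm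
        pig := fun v => iod_pig X hβ (hRs L X) v
        few := hFw L X
        cntV := ⟨Φ, hΦ.trans (Nat.le_add_left _ _), hΦ'⟩
        cl := fun x => ((x.toMul : Lˣ) : HX.GX L)
        sy_cl := fun x b h => by
          rw [(hCl L X).1 x.toMul b h, ← hχ1 ⟨b.1, b.2.1⟩ x.toMul h]
          rfl
        mem_B := fun g γ => by
          refine ((hCl L X).2.1 g γ).trans ?_
          constructor
          · rintro ⟨x, hx, hx2⟩
            refine ⟨Additive.ofMul x, hx, fun Q => ?_⟩
            rw [iod_ord_apply, toMul_ofMul, hx2 Q]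
            constructor
            · rintro ⟨a, ha, ha2⟩
              exact ⟨a, ha, Subtype.ext ha2⟩
            · rintro ⟨a, ha, ha2⟩
              exact ⟨a, ha, congrArg Subtype.val ha2⟩
          · rintro ⟨x, hx, hx2⟩
            refine ⟨x.toMul, hx, fun Q => ?_⟩
            have h1 := hx2 Q
            rw [iod_ord_apply] at h1
            rw [h1]
            constructor
            · rintro ⟨a, ha, ha2⟩
              exact ⟨a, ha, congrArg Subtype.val ha2⟩
            · rintro ⟨a, ha, ha2⟩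
              exact ⟨a, ha, Subtype.ext ha2⟩
        cl_eq := fun x y => by
          refine ((hCl L X).2.2 x.toMul y.toMul).trans ?_
          constructor
          · rintro ⟨z, hz⟩
            exact ⟨Additive.ofMul z, Additive.toMul.injective hz⟩
          · rintro ⟨z, hz⟩
            exact ⟨z.toMul, congrArg Additive.toMul hz⟩
        Lm := LmX X
        card_Lm := by
          rw [← Nat.card_eq_fintype_card]
          exact Nat.le_add_right _ _
        loc := fun x _ => ((x.toMul : Lˣ) : _)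
        H := hX X
        m1 := Additive.ofMul (-1)
        prod := fun x y T hT => by
          rw [← hPf L X x.toMul y.toMul T hT]
          refine Finset.sum_congr rfl fun Q _ => ?_
          rw [hχ2 Q x.toMul y.toMul]
          rfl }

end Pool.Agent.H32.MQ
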