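import Pool.Agent.H32.MQ.LStm

/-!
# Malle's conjecture for 8T28 and 8T29 over number fields, block L, row L8: (L'), main part
-/

set_option autoImplicit false

open scoped BigOperators Topology
open Filter

namespace Pool.Agent.H32.MQ

open Pool.Agent.H98.MK (sg)
open Pool.Agent.H98.MF

namespace L1X

variable {S SF : Sys} (F : Qf S SF)

theorem thc_bd (θ : SF.T → SF.T → S.T → S.T → ℝ) (hθ : Bdd4 θ) : BdT (thc F θ) := by
  intro γ c l
  unfold thc
  split_ifs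
  · rw [abs_zero]
    exact zero_le_one
  · exact hθ _ _ _ _

theorem gd_empty : F.Q.Gd ∅ := by
  intro a ha
  exact absurd ha (Finset.notMem_empty a)

theorem thc_nz (θ : SF.T → SF.T → S.T → S.T → ℝ) : F.Q.Nz (thc F θ) := by
  intro γ hγ h1 h2 c l
  unfold thc
  rw [if_pos]
  refine ⟨?_, Prod.ext h1 h2⟩
  rw [F.B_eq ∅ (gd_empty F), Finset.mem_image] at hγ
  obtain ⟨a, _, ha⟩ := hγ
  exact ⟨a, ha.symm⟩

theorem sd_ne {x : Cf F.Q} {i : Fin 5} {J : ℕ} (h : J < x.lv i) : x.sd i ≠ ∅ := by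
  intro h1
  unfold Cf.lv at h
  rw [h1, S.nm_empty, Nat.clog_one_right] at h
  omega

theorem q_ne {x : Cf F.Q} {i : Fin 5} (hi : i = 0 ∨ i = 1 ∨ i = 2) (h : x.sd i ≠ ∅) :
    x.q ≠ ∅ := by
  intro h1
  apply h
  unfold Cf.q at h1
  rw [Finset.union_eq_empty, Finset.union_eq_empty] at h1
  rcases hi with rfl | rfl | rfl
  · exact h1.1.1
  · exact h1.1.2
  · exact h1.2

open Classical in
/-- independent sets of variables -/
noncomputable def ind : Finset (Finset (Fin 5)) :=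
  Finset.univ.filter fun A => ∀ i ∈ A, ∀ k ∈ A, ¬ Qd.Lk i k

theorem mem_ind {A : Finset (Fin 5)} : A ∈ ind ↔ ∀ i ∈ A, ∀ k ∈ A, ¬ Qd.Lk i k := by
  classical
  unfold ind
  rw [Finset.mem_filter]
  exact ⟨fun h => h.2, fun h => ⟨Finset.mem_univ _, h⟩⟩

theorem mem_lar {J : ℕ} {x : Cf F.Q} {i : Fin 5} : i ∈ lar F J x ↔ J < x.lv i := by
  unfold lar
  rw [Finset.mem_filter]
  exact ⟨fun h => h.2, fun h => ⟨Finset.mem_univ _, h⟩⟩

theorem lar_ind {J : ℕ} {x : Cf F.Q} : lar F J x ∈ ind ↔ ¬ Hi J x.lv := by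
  rw [mem_ind]
  unfold Hi
  constructor
  · rintro h ⟨i, k, hl, hi, hk⟩
    exact h i ((mem_lar F).2 hi) k ((mem_lar F).2 hk) hl
  · intro h i hi k hk hl
    exact h ⟨i, k, hl, (mem_lar F).1 hi, (mem_lar F).1 hk⟩

open Classical in
/-- the decomposition of a term -/
theorem split_term (J : ℕ) (x : Cf F.Q) (v : ℝ) :
    (if x.q = ∅ then 0 else v) = (if Hi J x.lv then v else 0) +
      ∑ A ∈ ind, (if lar F J x = A ∧ x.q ≠ ∅ then v else 0) := by
  by_cases h : Hi J x.lv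
  · have h1 : x.q ≠ ∅ := by
      obtain ⟨i, k, hl, hi, hk⟩ := h
      rcases hl with ⟨rfl, rfl⟩ | ⟨rfl, rfl⟩ | ⟨rfl, rfl⟩ | ⟨rfl, rfl⟩
      · exact q_ne F (Or.inr (Or.inl rfl)) (sd_ne F hi)
      · exact q_ne F (Or.inl rfl) (sd_ne F hi)
      · exact q_ne F (Or.inr (Or.inr rfl)) (sd_ne F hi)
      · exact q_ne F (Or.inr (Or.inr rfl)) (sd_ne F hi)
    rw [if_neg h1, if_pos h, Finset.sum_eq_zero, add_zero]
    intro A hA
    rw [if_neg]
    rintro ⟨h2, _⟩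
    rw [← h2, lar_ind] at hA
    exact hA h
  · rw [if_neg h, zero_add, Finset.sum_eq_single (lar F J x)]
    · by_cases h1 : x.q = ∅
      · rw [if_pos h1, if_neg]
        rintro ⟨_, h2⟩
        exact h2 h1
      · rw [if_neg h1, if_pos ⟨rfl, h1⟩]
    · intro A _ hA
      rw [if_neg]
      rintro ⟨h2, _⟩
      exact hA h2.symm
    · intro h1
      exact absurd ((lar_ind F).2 h) h1

theorem sum_ite {ι : Type*} {f : ι → ℝ} (hf : Summable f) (p : ι → Prop) [DecidablePred p] :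
    Summable fun x => if p x then f x else 0 := by
  have h : (fun x => if p x then f x else 0) = Set.indicator {x | p x} f := by
    funext x
    by_cases hx : p x
    · rw [if_pos hx, Set.indicator_of_mem (s := {x | p x}) hx]
    · rw [if_neg hx, Set.indicator_of_notMem (s := {x | p x}) hx]
  rw [h]
  exact hf.indicator _

open Classical in
theorem D1_eq (hD : SLD) (hA : SUA) (θ : SF.T → SF.T → S.T → S.T → ℝ) (hθ : Bdd4 θ) (J : ℕ)
    (s : ℝ) (hs : 1 < s) :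
    D1 F θ s = ∑' x : Cf F.Q, (if Hi J x.lv then (Wp F.Q s).val x * x.tm (thc F θ) else 0) +
      ∑ A ∈ ind, VA F θ J A s := by
  have h1 := (hA S F.Q (thc F θ) s (thc_bd F θ hθ) hs).1
  have h2 : Summable fun x : Cf F.Q =>
      ∑ A ∈ ind, (if lar F J x = A ∧ x.q ≠ ∅ then (Wp F.Q s).val x * x.tm (thc F θ) else 0) :=
    summable_sum fun A _ => sum_ite h1 fun x => lar F J x = A ∧ x.q ≠ ∅
  refine (hD S SF F θ s hθ hs).trans ?_
  have h3 : ∀ x : Cf F.Q, (if x.q = ∅ then 0 else (Wp F.Q s).val x * x.tm (thc F θ)) =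
      (if Hi J x.lv then (Wp F.Q s).val x * x.tm (thc F θ) else 0) +
      ∑ A ∈ ind, (if lar F J x = A ∧ x.q ≠ ∅ then
        (Wp F.Q s).val x * x.tm (thc F θ) else 0) := fun x => split_term F J x _
  refine (tsum_congr h3).trans ?_
  have h5 := Summable.tsum_add (sum_ite h1 fun x => Hi J x.lv) h2
  have h6 := Summable.tsum_finsetSum (s := ind) (f := fun (A : Finset (Fin 5)) (x : Cf F.Q) =>
    if lar F J x = A ∧ x.q ≠ ∅ then (Wp F.Q s).val x * x.tm (thc F θ) else 0)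
    fun A _ => sum_ite h1 fun x => lar F J x = A ∧ x.q ≠ ∅
  have h7 : ∀ A : Finset (Fin 5), VA F θ J A s = ∑' x : Cf F.Q,
    (if lar F J x = A ∧ x.q ≠ ∅ then (Wp F.Q s).val x * x.tm (thc F θ) else 0) := by
    intro A
    rfl
  rw [h5, h6, Finset.sum_congr rfl fun A _ => h7 A]

theorem ind03 : ({0, 3} : Finset (Fin 5)) ∈ ind := by
  rw [mem_ind]
  unfold Qd.Lk
  decide

theorem ind14 : ({1, 4} : Finset (Fin 5)) ∈ ind := by
  rw [mem_ind]
  unfold Qd.Lk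
  decide

theorem sum_lim (a b : ℝ) :
    ∑ A ∈ ind, (if A = ({0, 3} : Finset (Fin 5)) then a
      else if A = ({1, 4} : Finset (Fin 5)) then b else 0) = a + b := by
  have hne : ({0, 3} : Finset (Fin 5)) ≠ {1, 4} := by decide
  have h1 : ∀ A : Finset (Fin 5), (if A = ({0, 3} : Finset (Fin 5)) then a
      else if A = ({1, 4} : Finset (Fin 5)) then b else 0) =
      (if A = ({0, 3} : Finset (Fin 5)) then a else 0) +
        (if A = ({1, 4} : Finset (Fin 5)) then b else 0) := by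
    intro A
    by_cases h : A = {0, 3}
    · rw [if_pos h, if_pos h, if_neg (fun h2 => hne (h.symm.trans h2)), add_zero]
    · rw [if_neg h, if_neg h, zero_add]
  rw [Finset.sum_congr rfl fun A _ => h1 A, Finset.sum_add_distrib, Finset.sum_ite_eq',
    Finset.sum_ite_eq', if_pos ind03, if_pos ind14]

end L1X

open L1X in
/-- (L'), main part -/
theorem sl1_of (hD : SLD) (hA : SUA) (hT : SUTail) (hV : SLV) : SL1 := by
  classical
  intro S SF F C0 A0 η0 c0 hη hBF hlim θ hθ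
  obtain ⟨C, κ, hκ, hC⟩ := hT S C0 A0 η0 hη F.Q F.law hBF
  have hsum : ∀ J : ℕ, Tendsto (fun σ : ℝ => ∑ A ∈ ind, σ ^ 2 * VA F θ J A (1 + σ)) (𝓝[>] 0)
      (𝓝 (c0 * (mv θ + mv (mth F θ)))) := by
    intro J
    rw [mul_add, ← sum_lim]
    refine tendsto_finsetSum _ fun A hA' => ?_
    exact hV S SF F c0 hlim θ J A hθ (mem_ind.1 hA')
  rw [Metric.tendsto_nhds]
  intro ε hε
  -- choice of `J`
  have hJ : ∃ J : ℕ, 1 ≤ J ∧ |C| * (2 : ℝ) ^ (-κ * J) < ε / 2 := by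
    have h1 : Tendsto (fun J : ℕ => |C| * (2 : ℝ) ^ (-κ * (J : ℝ))) atTop (𝓝 0) := by
      have h2 : Tendsto (fun J : ℕ => ((2 : ℝ) ^ (-κ)) ^ J) atTop (𝓝 0) :=
        tendsto_pow_atTop_nhds_zero_of_lt_one (by positivity)
          (Real.rpow_lt_one_of_one_lt_of_neg (by norm_num) (by linarith))
      have h3 := h2.const_mul |C|
      rw [mul_zero] at h3
      refine h3.congr fun J => ?_
      rw [Real.rpow_mul (by norm_num), Real.rpow_natCast]
    have h4 := (h1.eventually (gt_mem_nhds (half_pos hε))).and (eventually_ge_atTop 1)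
    obtain ⟨J, hJ1, hJ2⟩ := h4.exists
    exact ⟨J, hJ2, hJ1⟩
  obtain ⟨J, hJ1, hJ2⟩ := hJ
  have h5 : ∀ᶠ σ in 𝓝[>] (0 : ℝ), dist (∑ A ∈ ind, σ ^ 2 * VA F θ J A (1 + σ))
      (c0 * (mv θ + mv (mth F θ))) < ε / 2 := (Metric.tendsto_nhds.1 (hsum J)) _ (half_pos hε)
  have h6 : ∀ᶠ σ in 𝓝[>] (0 : ℝ), σ ∈ Set.Ioc (0 : ℝ) 1 :=
    Ioc_mem_nhdsGT one_pos
  filter_upwards [h5, h6] with σ h7 h8
  have hσ : 0 < σ := h8.1
  rw [D1_eq F hD hA θ hθ J (1 + σ) (by linarith), mul_add, Finset.mul_sum]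
  have h9 := hC (thc F θ) σ J (thc_bd F θ hθ) (thc_nz F θ) hσ h8.2 hJ1
  set T : ℝ := ∑' x : Cf F.Q,
    (if Hi J x.lv then (Wp F.Q (1 + σ)).val x * x.tm (thc F θ) else 0) with hTdef
  rw [Real.dist_eq] at h7 ⊢
  have h10 : |σ ^ 2 * T| < ε / 2 := by
    rw [abs_mul, abs_of_pos (by positivity)]
    have h11 : σ ^ 2 * σ ^ (-(2 : ℝ)) = 1 := by
      rw [Real.rpow_neg hσ.le, Real.rpow_two]
      exact mul_inv_cancel₀ (by positivity)
    calc σ ^ 2 * |T| ≤ σ ^ 2 * (C * (2 : ℝ) ^ (-κ * J) * σ ^ (-(2 : ℝ))) :=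
          mul_le_mul_of_nonneg_left h9 (by positivity)
      _ = C * (2 : ℝ) ^ (-κ * J) * (σ ^ 2 * σ ^ (-(2 : ℝ))) := by ring
      _ = C * (2 : ℝ) ^ (-κ * J) := by rw [h11, mul_one]
      _ ≤ |C| * (2 : ℝ) ^ (-κ * J) :=
          mul_le_mul_of_nonneg_right (le_abs_self _) (by positivity)
      _ < ε / 2 := hJ2
  have h12 : σ ^ 2 * T + ∑ A ∈ ind, σ ^ 2 * VA F θ J A (1 + σ) -
      c0 * (mv θ + mv (mth F θ)) = σ ^ 2 * T + (∑ A ∈ ind, σ ^ 2 * VA F θ J A (1 + σ) -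
      c0 * (mv θ + mv (mth F θ))) := by ring
  rw [h12]
  calc _ ≤ |σ ^ 2 * T| + |∑ A ∈ ind, σ ^ 2 * VA F θ J A (1 + σ) -
      c0 * (mv θ + mv (mth F θ))| := abs_add_le _ _
    _ < ε := by linarith

end Pool.Agent.H32.MQ
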