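import Pool.Agent.H32.MQ.LStm
import Pool.Agent.H98.MF.SFXSmallA

/-!
# Malle's conjecture for 8T28 and 8T29 over number fields, row L9: the part with `t` a unit
-/

set_option autoImplicit false

open scoped BigOperators Topology
open Filter

namespace Pool.Agent.H32.MQ

open Pool.Agent.H98.MK (sg)
open Pool.Agent.H98.MF

namespace L2

variable {S SF : Sys} (F : Qf S SF)

/-- pairs and tuples -/
noncomputable def eqv : Finset F.Q.P × Finset F.Q.P ≃
    (Fin 0 → Finset S.P) × (Fin 2 → Finset F.Q.P) where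
  toFun w := (fun i => i.elim0, ![symmDiff w.1 w.2, w.2])
  invFun w := (symmDiff (w.2 0) (w.2 1), w.2 1)
  left_inv w := by
    simp
  right_inv w := by
    refine Prod.ext (funext fun i => i.elim0) (funext fun i => ?_)
    fin_cases i
    · simp
    · simp

theorem sg_tys (ψ : SF.T) (g : Finset F.Q.P) :
    ((sg (ψ ⬝ᵥ SF.tys (g.image F.io)) : ℤ) : ℝ) =
      ∏ b ∈ g, ((sg (ψ ⬝ᵥ SF.ty (F.io b)) : ℤ) : ℝ) := by
  rw [SF.dot_tys, Finset.sum_image fun a _ b _ h => F.io_inj h, sg_sum, Int.cast_prod]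

theorem okE_iff (g0 g1 : Finset F.Q.P) :
    okE F (u := 0) (v := 2) ∅ (fun i => i.elim0, ![g0, g1]) ↔
      F.Q.Gd (g0 ∪ g1) ∧ Disjoint g0 g1 := by
  unfold okE
  constructor
  · rintro ⟨-, -, h3, -, h5, -⟩
    have h0 : F.Q.Gd g0 := h3 0
    have h1 : F.Q.Gd g1 := h3 1
    have h01 : Disjoint (F.Q.shd g0) (F.Q.shd g1) := h5 0 1 (by decide)
    have hm : ∀ a ∈ g0, ∀ b ∈ g1, F.Q.sh a ≠ F.Q.sh b := fun a ha b hb h =>
      Finset.disjoint_left.1 h01 (Finset.mem_image_of_mem _ ha)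
        (h ▸ Finset.mem_image_of_mem _ hb)
    refine ⟨fun a ha b hb h => ?_, Finset.disjoint_left.2 fun a ha hb => hm a ha a hb rfl⟩
    rcases Finset.mem_union.1 ha with ha | ha <;> rcases Finset.mem_union.1 hb with hb | hb
    · exact h0 a ha b hb h
    · exact absurd h (hm a ha b hb)
    · exact absurd h.symm (hm b hb a ha)
    · exact h1 a ha b hb h
  · rintro ⟨h1, h2⟩
    have hs : Disjoint (F.Q.shd g0) (F.Q.shd g1) := by
      rw [Finset.disjoint_left]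
      intro p hp hq
      obtain ⟨a, ha, rfl⟩ := Finset.mem_image.1 hp
      obtain ⟨b, hb, hab⟩ := Finset.mem_image.1 hq
      have := h1 a (Finset.mem_union_left _ ha) b (Finset.mem_union_right _ hb) hab.symm
      subst this
      exact Finset.disjoint_left.1 h2 ha hb
    have hg0 : F.Q.Gd g0 := fun a ha b hb h =>
      h1 a (Finset.mem_union_left _ ha) b (Finset.mem_union_left _ hb) h
    have hg1 : F.Q.Gd g1 := fun a ha b hb h =>
      h1 a (Finset.mem_union_right _ ha) b (Finset.mem_union_right _ hb) h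
    refine ⟨fun i => i.elim0, fun j => Finset.disjoint_empty_right _, fun j => ?_,
      fun i => i.elim0, fun j j' hj => ?_, fun i => i.elim0⟩
    · fin_cases j
      · exact hg0
      · exact hg1
    · fin_cases j <;> fin_cases j'
      · exact absurd rfl hj
      · exact hs
      · exact hs.symm
      · exact absurd rfl hj

theorem shd_union (g0 g1 : Finset F.Q.P) : F.Q.shd (g0 ∪ g1) = F.Q.shd g0 ∪ F.Q.shd g1 := by
  unfold Qd.shd
  exact Finset.image_union _ _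

theorem pw_union (s : ℝ) {x y : Finset S.P} (h : Disjoint x y) :
    pw s (x ∪ y) = pw s x * pw s y := by
  unfold pw
  rw [S.nm_union h, Nat.cast_mul, Real.mul_rpow (Nat.cast_nonneg _) (Nat.cast_nonneg _)]

/-- the characters -/
def Y2 (ψ Δ : SF.T) : Fin 2 → El SF := ![(ψ, ∅), (ψ + Δ, ∅)]

open Classical in
theorem tE_pair (ψ Δ : SF.T) (s : ℝ) (g h : Finset F.Q.P) :
    tE F (u := 0) (v := 2) (fun i => i.elim0) (Y2 ψ Δ) ∅ s (eqv F (g, h)) =
      if F.Q.Gd g ∧ h ⊆ g then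
        ((∏ b ∈ h, ((sg ((ψ + Δ) ⬝ᵥ SF.ty (F.io b)) : ℤ) : ℝ)) *
          ∏ b ∈ g \ h, ((sg (ψ ⬝ᵥ SF.ty (F.io b)) : ℤ) : ℝ)) * pw s (F.Q.shd g) else 0 := by
  classical
  have he : eqv F (g, h) = (fun i => i.elim0, ![symmDiff g h, h]) := rfl
  have hdis : Disjoint (symmDiff g h) h ↔ h ⊆ g := by
    rw [Finset.disjoint_left]
    constructor
    · intro h1 a ha
      by_contra hg
      exact h1 (Finset.mem_symmDiff.2 (Or.inr ⟨ha, hg⟩)) ha
    · intro h1 a ha hb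
      rcases Finset.mem_symmDiff.1 ha with h2 | h2
      · exact h2.2 hb
      · exact h2.2 (h1 hb)
  rw [he]
  unfold tE
  by_cases hg : F.Q.Gd g ∧ h ⊆ g
  · have hsd : symmDiff g h = g \ h := by
      ext a
      rw [Finset.mem_symmDiff, Finset.mem_sdiff]
      exact ⟨fun h1 => h1.resolve_right fun h2 => h2.2 (hg.2 h2.1), fun h1 => Or.inl h1⟩
    have hun : g \ h ∪ h = g := Finset.sdiff_union_of_subset hg.2
    have hok : okE F (u := 0) (v := 2) ∅ (fun i => i.elim0, ![symmDiff g h, h]) := by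
      rw [okE_iff, hdis, hsd, hun]
      exact hg
    have hok2 := hok
    rw [if_pos hok, if_pos hg]
    have h5 : Disjoint (F.Q.shd (g \ h)) (F.Q.shd h) := by
      have := hok2.2.2.2.2.1 0 1 (by decide)
      rw [hsd] at this
      exact this
    have hpw : pw s (F.Q.shd g) = pw s (F.Q.shd (g \ h)) * pw s (F.Q.shd h) := by
      rw [← pw_union s h5, ← shd_union, hun]
    rw [Finset.univ_eq_empty, Finset.prod_empty, one_mul, Fin.prod_univ_two, hpw, hsd]
    have e0 : (Y2 ψ Δ 0 : El SF) = (ψ, ∅) := rfl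
    have e1 : (Y2 ψ Δ 1 : El SF) = (ψ + Δ, ∅) := rfl
    have f0 : (![g \ h, h] : Fin 2 → Finset F.Q.P) 0 = g \ h := rfl
    have f1 : (![g \ h, h] : Fin 2 → Finset F.Q.P) 1 = h := rfl
    simp only [e0, e1, f0, f1, SF.JJ_empty_right, zero_add]
    rw [sg_tys, sg_tys]
    ring
  · rw [if_neg hg, if_neg]
    intro hok
    rw [okE_iff, hdis] at hok
    refine hg ⟨?_, hok.2⟩
    have hun : symmDiff g h ∪ h = g := by
      ext a
      rw [Finset.mem_union, Finset.mem_symmDiff]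
      constructor
      · rintro ((h1 | h1) | h1)
        · exact h1.1
        · exact absurd (hok.2 h1.1) h1.2
        · exact hok.2 h1
      · intro h1
        by_cases h2 : a ∈ h
        · exact Or.inr h2
        · exact Or.inl (Or.inl ⟨h1, h2⟩)
    rw [hun] at hok
    exact hok.1

open Classical in
/-- the term of `g` -/
noncomputable def tg (ψ Δ : SF.T) (s : ℝ) (g : Finset F.Q.P) : ℝ :=
  if F.Q.Gd g then ((sg (ψ ⬝ᵥ SF.tys (g.image F.io)) : ℤ) : ℝ) *
    (∏ b ∈ g, (1 + ((sg (Δ ⬝ᵥ SF.ty (F.io b)) : ℤ) : ℝ))) * pw s (F.Q.shd g) else 0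

theorem inner (ψ Δ : SF.T) (s : ℝ) (g : Finset F.Q.P) :
    ∑' h, tE F (u := 0) (v := 2) (fun i => i.elim0) (Y2 ψ Δ) ∅ s (eqv F (g, h)) =
      tg F ψ Δ s g := by
  classical
  unfold tg
  rw [tsum_eq_sum (s := g.powerset)]
  · by_cases hg : F.Q.Gd g
    · rw [if_pos hg]
      have h1 : ∀ h ∈ g.powerset,
          tE F (u := 0) (v := 2) (fun i => i.elim0) (Y2 ψ Δ) ∅ s (eqv F (g, h)) =
          ((∏ b ∈ h, ((sg ((ψ + Δ) ⬝ᵥ SF.ty (F.io b)) : ℤ) : ℝ)) *
          ∏ b ∈ g \ h, ((sg (ψ ⬝ᵥ SF.ty (F.io b)) : ℤ) : ℝ)) * pw s (F.Q.shd g) := by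
        intro h hh
        rw [tE_pair, if_pos ⟨hg, Finset.mem_powerset.1 hh⟩]
      rw [Finset.sum_congr rfl h1, ← Finset.sum_mul, ← Finset.prod_add, sg_tys,
        ← Finset.prod_mul_distrib]
      congr 1
      refine Finset.prod_congr rfl fun b _ => ?_
      rw [add_dotProduct, sg_add, Int.cast_mul]
      ring
    · rw [if_neg hg]
      refine Finset.sum_eq_zero fun h _ => ?_
      rw [tE_pair, if_neg fun h1 => hg h1.1]
  · intro h hh
    rw [tE_pair, if_neg fun h1 => hh (Finset.mem_powerset.2 h1.2)]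

theorem summable_pair (hS : SES) (ψ Δ : SF.T) (s : ℝ) (hs : 1 < s) :
    Summable fun w : Finset F.Q.P × Finset F.Q.P =>
      tE F (u := 0) (v := 2) (fun i => i.elim0) (Y2 ψ Δ) ∅ s (eqv F w) :=
  (eqv F).summable_iff.2 (hS S SF F 0 2 (fun i => i.elim0) (Y2 ψ Δ) ∅ s hs)

theorem summable_tg (hS : SES) (ψ Δ : SF.T) (s : ℝ) (hs : 1 < s) :
    Summable (tg F ψ Δ s) := by
  have h1 := (summable_pair F hS ψ Δ s hs).prod
  have h2 : (fun g => ∑' h, tE F (u := 0) (v := 2) (fun i => i.elim0) (Y2 ψ Δ) ∅ s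
      (eqv F (g, h))) = tg F ψ Δ s := funext fun g => inner F ψ Δ s g
  rw [← h2]
  exact h1

theorem tsum_tg (hS : SES) (ψ Δ : SF.T) (s : ℝ) (hs : 1 < s) :
    ∑' g, tg F ψ Δ s g = ES F (u := 0) (v := 2) (fun i => i.elim0) (Y2 ψ Δ) ∅ s := by
  unfold ES
  rw [← (eqv F).tsum_eq, (summable_pair F hS ψ Δ s hs).tsum_prod]
  exact tsum_congr fun g => (inner F ψ Δ s g).symm

/-- at most one trivial character -/
theorem nfr_le (ψ Δ : SF.T) (hΔ : Δ ≠ 0) :
    nfr (S := S) (u := 0) (v := 2) (fun i => i.elim0) (Y2 ψ Δ) ≤ 1 := by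
  classical
  unfold nfr
  rw [Finset.univ_eq_empty, Finset.filter_empty, Finset.card_empty, zero_add]
  rw [Finset.card_le_one]
  have e0 : (Y2 ψ Δ 0 : El SF) = (ψ, ∅) := rfl
  have e1 : (Y2 ψ Δ 1 : El SF) = (ψ + Δ, ∅) := rfl
  have hno : ¬ (Y2 ψ Δ 0 = (0, ∅) ∧ Y2 ψ Δ 1 = (0, ∅)) := by
    rintro ⟨h0, h1⟩
    rw [e0] at h0
    rw [e1] at h1
    have h2 : ψ = 0 := (Prod.ext_iff.1 h0).1
    have h3 : ψ + Δ = 0 := (Prod.ext_iff.1 h1).1
    rw [h2, zero_add] at h3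
    exact hΔ h3
  intro i hi j hj
  have hi2 := (Finset.mem_filter.1 hi).2
  have hj2 := (Finset.mem_filter.1 hj).2
  fin_cases i <;> fin_cases j
  · rfl
  · exact absurd ⟨hi2, hj2⟩ hno
  · exact absurd ⟨hj2, hi2⟩ hno
  · rfl

theorem sxF_le {κ : Type} [Fintype κ] [DecidableEq κ] (G : (κ → ZMod 2) → ℝ)
    (hG : ∀ u, |G u| ≤ 1) (c : κ → ZMod 2) : |sxF G c| ≤ 1 := by
  unfold sxF
  have h1 : |∑ u : κ → ZMod 2, G u * ((sg (c ⬝ᵥ u) : ℤ) : ℝ)| ≤ 2 ^ Fintype.card κ := by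
    refine (Finset.abs_sum_le_sum_abs _ _).trans ?_
    have h2 : ∀ u ∈ (Finset.univ : Finset (κ → ZMod 2)),
        |G u * ((sg (c ⬝ᵥ u) : ℤ) : ℝ)| ≤ 1 := by
      intro u _
      rw [abs_mul, abs_sgr, mul_one]
      exact hG u
    refine (Finset.sum_le_sum h2).trans ?_
    rw [Finset.sum_const, Finset.card_univ, Fintype.card_fun, ZMod.card, nsmul_eq_mul, mul_one]
    norm_num
  rw [abs_mul, abs_pow]
  have h3 : |(1 / 2 : ℝ)| = 1 / 2 := abs_of_pos (by norm_num)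
  rw [h3]
  calc (1 / 2 : ℝ) ^ Fintype.card κ * |∑ u : κ → ZMod 2, G u * ((sg (c ⬝ᵥ u) : ℤ) : ℝ)|
      ≤ (1 / 2 : ℝ) ^ Fintype.card κ * 2 ^ Fintype.card κ :=
        mul_le_mul_of_nonneg_left h1 (by positivity)
    _ = 1 := by rw [← mul_pow]; norm_num

/-- the factor of a prime -/
theorem fa_eq (c : S.T) (a : F.Q.P) : F.Q.fa (c, ∅) ∅ a =
    1 + ((sg ((F.cd + F.em (c, ∅)) ⬝ᵥ SF.ty (F.io a)) : ℤ) : ℝ) := by
  unfold Qd.fa
  have h1 := F.em_s (c, ∅) a (Finset.notMem_empty _)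
  have h2 : (∅ : Finset S.P).biUnion F.up = ∅ := rfl
  rw [h2] at h1
  have h3 : SF.ex ∅ (F.em (c, ∅)) (F.io a) = F.em (c, ∅) ⬝ᵥ SF.ty (F.io a) := by
    unfold Sys.ex
    rw [Finset.sum_empty, zero_add]
  have h4 : (∅ : Finset S.P) ∪ (c, (∅ : Finset S.P)).2 = ∅ := rfl
  have h5 : S.ex ∅ c (F.Q.sh a) = F.em (c, ∅) ⬝ᵥ SF.ty (F.io a) := h1.trans h3
  rw [h4, F.d0_eq, h5, add_dotProduct]

theorem gd_empty : F.Q.Gd ∅ := fun a ha => absurd ha (Finset.notMem_empty a)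

theorem pw_empty (s : ℝ) : pw s (∅ : Finset S.P) = 1 := by
  unfold pw
  rw [S.nm_empty, Nat.cast_one, Real.one_rpow]

open Classical in
/-- the coefficients -/
noncomputable def cf (θ : SF.T → SF.T → S.T → S.T → ℝ) (c : S.T) (a ψ : SF.T) : ℝ :=
  if F.cd + F.em (c, ∅) = 0 then 0 else sxF (fun k => θ a k c 0) ψ

open Classical in
/-- the excluded part -/
noncomputable def xc (θ : SF.T → SF.T → S.T → S.T → ℝ) : ℝ :=
  ∑ c : S.T, ∑ a : SF.T, if F.cd + F.em (c, ∅) = 0 then 0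
    else if F.Q.nu (F.el a ∅) = (0, ∅) then θ a 0 c 0 else 0

theorem cf_le (θ : SF.T → SF.T → S.T → S.T → ℝ) (hθ : Bdd4 θ) (c : S.T) (a ψ : SF.T) :
    |cf F θ c a ψ| ≤ 1 := by
  unfold cf
  split_ifs
  · rw [abs_zero]
    exact zero_le_one
  · exact sxF_le _ (fun k => hθ a k c 0) ψ

theorem xc_le (θ : SF.T → SF.T → S.T → S.T → ℝ) (hθ : Bdd4 θ) :
    |xc F θ| ≤ ∑ _c : S.T, ∑ _a : SF.T, (1 : ℝ) := by
  unfold xc
  refine (Finset.abs_sum_le_sum_abs _ _).trans (Finset.sum_le_sum fun c _ => ?_)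
  refine (Finset.abs_sum_le_sum_abs _ _).trans (Finset.sum_le_sum fun a _ => ?_)
  split_ifs
  · rw [abs_zero]
    exact zero_le_one
  · exact hθ a 0 c 0
  · rw [abs_zero]
    exact zero_le_one

/-- the term of `g` in terms of characters -/
theorem term_eq (θ : SF.T → SF.T → S.T → S.T → ℝ) (s : ℝ) (g : Finset F.Q.P) :
    (open Classical in (if F.Q.Gd g then ∑ γ ∈ F.Q.B g, ∑ c : S.T,
      (if F.cd + F.em (c, ∅) = 0 then 0
        else thc F θ γ (c, ∅) (0, ∅) * ∏ a ∈ g, F.Q.fa (c, ∅) ∅ a) else 0) * pw s (F.Q.shd g)) =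
    ∑ c : S.T, ∑ a : SF.T, ∑ ψ : SF.T,
      cf F θ c a ψ * tg F ψ (F.cd + F.em (c, ∅)) s g - (if g = ∅ then xc F θ else 0) := by
  classical
  by_cases hg : F.Q.Gd g
  · rw [if_pos hg, F.B_eq g hg, Finset.sum_image fun a _ a' _ h => (F.el_inj a a' g g hg hg h).1,
      Finset.sum_comm, Finset.sum_mul]
    have hx : (if g = ∅ then xc F θ else 0) = ∑ c : S.T, ∑ a : SF.T,
        (if F.cd + F.em (c, ∅) = 0 then (0 : ℝ)
          else if g = ∅ ∧ F.Q.nu (F.el a g) = (0, ∅) then θ a 0 c 0 else 0) := by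
      by_cases h0 : g = ∅
      · subst h0
        rw [if_pos rfl]
        unfold xc
        refine Finset.sum_congr rfl fun c _ => Finset.sum_congr rfl fun a _ => ?_
        by_cases h1 : F.cd + F.em (c, ∅) = 0
        · rw [if_pos h1, if_pos h1]
        · rw [if_neg h1, if_neg h1]
          by_cases h2 : F.Q.nu (F.el a ∅) = (0, ∅)
          · rw [if_pos h2, if_pos ⟨rfl, h2⟩]
          · rw [if_neg h2, if_neg fun h => h2 h.2]
      · rw [if_neg h0]
        refine (Finset.sum_eq_zero fun c _ => Finset.sum_eq_zero fun a _ => ?_).symm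
        by_cases h1 : F.cd + F.em (c, ∅) = 0
        · rw [if_pos h1]
        · rw [if_neg h1, if_neg fun h => h0 h.1]
    rw [hx, ← Finset.sum_sub_distrib]
    refine Finset.sum_congr rfl fun c _ => ?_
    rw [Finset.sum_mul, ← Finset.sum_sub_distrib]
    refine Finset.sum_congr rfl fun a _ => ?_
    by_cases h1 : F.cd + F.em (c, ∅) = 0
    · rw [if_pos h1, if_pos h1, zero_mul, sub_zero]
      refine (Finset.sum_eq_zero fun ψ _ => ?_).symm
      unfold cf
      rw [if_pos h1, zero_mul]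
    · rw [if_neg h1, if_neg h1]
      have hprod : ∏ a ∈ g, F.Q.fa (c, ∅) ∅ a =
          ∏ b ∈ g, (1 + ((sg ((F.cd + F.em (c, ∅)) ⬝ᵥ SF.ty (F.io b)) : ℤ) : ℝ)) :=
        Finset.prod_congr rfl fun b _ => fa_eq F c b
      have hψ : ∑ ψ : SF.T, cf F θ c a ψ * tg F ψ (F.cd + F.em (c, ∅)) s g =
          θ a (SF.tys (g.image F.io)) c 0 *
            ((∏ b ∈ g, (1 + ((sg ((F.cd + F.em (c, ∅)) ⬝ᵥ SF.ty (F.io b)) : ℤ) : ℝ))) *
              pw s (F.Q.shd g)) := by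
        have hf := sx_fourier (fun k => θ a k c 0) (SF.tys (g.image F.io))
        rw [hf, Finset.sum_mul]
        refine Finset.sum_congr rfl fun ψ _ => ?_
        unfold cf tg
        rw [if_neg h1, if_pos hg]
        ring
      rw [hψ, hprod]
      have hco := F.co_el a g hg
      have hth : thc F θ (F.el a g) (c, ∅) (0, ∅) =
          θ a (SF.tys (g.image F.io)) c 0 -
            (if g = ∅ ∧ F.Q.nu (F.el a g) = (0, ∅) then θ a 0 c 0 else 0) := by
        unfold thc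
        have hiff : ((∃ a', F.el a g = F.el a' ∅) ∧ F.Q.nu (F.el a g) = (0, ∅)) ↔
            (g = ∅ ∧ F.Q.nu (F.el a g) = (0, ∅)) := by
          refine and_congr_left fun _ => ⟨?_, ?_⟩
          · rintro ⟨a', ha'⟩
            exact (F.el_inj a a' g ∅ hg (gd_empty F) ha').2
          · rintro rfl
            exact ⟨a, rfl⟩
        by_cases h2 : g = ∅ ∧ F.Q.nu (F.el a g) = (0, ∅)
        · rw [if_pos (hiff.2 h2), if_pos h2]
          have h3 : SF.tys (g.image F.io) = 0 := by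
            rw [h2.1, Finset.image_empty]
            rfl
          rw [h3, sub_self]
        · rw [if_neg (fun h => h2 (hiff.1 h)), if_neg h2, sub_zero, hco]
      rw [hth]
      by_cases h2 : g = ∅ ∧ F.Q.nu (F.el a g) = (0, ∅)
      · rw [if_pos h2]
        obtain ⟨h3, -⟩ := h2
        subst h3
        have h4 : F.Q.shd ∅ = ∅ := Finset.image_empty _
        rw [Finset.prod_empty, h4, pw_empty]
        ring
      · rw [if_neg h2]
        ring
  · have h0 : g ≠ ∅ := by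
      rintro rfl
      exact hg (gd_empty F)
    rw [if_neg hg, if_neg h0, zero_mul, sub_zero]
    refine (Finset.sum_eq_zero fun c _ => Finset.sum_eq_zero fun a _ =>
      Finset.sum_eq_zero fun ψ _ => ?_).symm
    unfold tg
    rw [if_neg hg, mul_zero]

end L2

open L2 in
/-- (L'), the part with `t` a unit -/
theorem sl2_of (hE : SEB) (hS : SES) : SL2 := by
  classical
  intro S SF F
  have hC : ∀ (c : S.T) (ψ : SF.T), ∃ C : ℝ, 0 ≤ C ∧ (F.cd + F.em (c, ∅) ≠ 0 →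
      ∀ σ : ℝ, 0 < σ → σ ≤ 1 →
      |ES F (u := 0) (v := 2) (fun i => i.elim0) (Y2 ψ (F.cd + F.em (c, ∅))) ∅ (1 + σ)| ≤
        C * σ ^ (-(1 : ℝ))) := by
    intro c ψ
    obtain ⟨C, hC⟩ := hE S SF F 0 2 (fun i => i.elim0) (Y2 ψ (F.cd + F.em (c, ∅))) ∅
      (fun i => i.elim0) (fun j => by fin_cases j <;> exact Finset.empty_subset _)
    refine ⟨|C|, abs_nonneg _, fun hΔ σ h0 h1 => (hC σ h0 h1).trans ?_⟩
    have hn : (nfr (S := S) (u := 0) (v := 2) (fun i => i.elim0)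
        (Y2 ψ (F.cd + F.em (c, ∅))) : ℝ) ≤ 1 := by
      exact_mod_cast nfr_le ψ _ hΔ
    have h2 : σ ^ (-(nfr (S := S) (u := 0) (v := 2) (fun i => i.elim0)
        (Y2 ψ (F.cd + F.em (c, ∅))) : ℝ)) ≤ σ ^ (-(1 : ℝ)) :=
      Real.rpow_le_rpow_of_exponent_ge h0 h1 (by linarith)
    exact mul_le_mul (le_abs_self C) h2 (Real.rpow_nonneg h0.le _) (abs_nonneg _)
  choose C hC0 hC using hC
  refine ⟨(∑ c : S.T, ∑ _a : SF.T, ∑ ψ : SF.T, C c ψ) + ∑ _c : S.T, ∑ _a : SF.T, (1 : ℝ), ?_⟩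
  intro θ σ hθ h0 h1
  have hs : (1 : ℝ) < 1 + σ := by linarith
  have hσ : 1 ≤ σ ^ (-(1 : ℝ)) := by
    have := Real.one_le_rpow_of_pos_of_le_one_of_nonpos h0 h1 (by norm_num : (-(1 : ℝ)) ≤ 0)
    exact this
  have e1 : HasSum (fun g : Finset F.Q.P => ∑ c : S.T, ∑ a : SF.T, ∑ ψ : SF.T,
      cf F θ c a ψ * tg F ψ (F.cd + F.em (c, ∅)) (1 + σ) g)
      (∑ c : S.T, ∑ a : SF.T, ∑ ψ : SF.T, cf F θ c a ψ *
        ES F (u := 0) (v := 2) (fun i => i.elim0) (Y2 ψ (F.cd + F.em (c, ∅))) ∅ (1 + σ)) := by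
    refine hasSum_sum fun c _ => hasSum_sum fun a _ => hasSum_sum fun ψ _ => ?_
    refine HasSum.mul_left _ ?_
    rw [← tsum_tg F hS _ _ _ hs]
    exact (summable_tg F hS _ _ _ hs).hasSum
  have e2 : HasSum (fun g : Finset F.Q.P => if g = ∅ then xc F θ else 0) (xc F θ) :=
    hasSum_ite_eq ∅ (xc F θ)
  have e3 : D2 F θ (1 + σ) = (∑ c : S.T, ∑ a : SF.T, ∑ ψ : SF.T, cf F θ c a ψ *
        ES F (u := 0) (v := 2) (fun i => i.elim0) (Y2 ψ (F.cd + F.em (c, ∅))) ∅ (1 + σ)) -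
        xc F θ := by
    rw [← (e1.sub e2).tsum_eq]
    unfold D2
    exact tsum_congr fun g => term_eq F θ (1 + σ) g
  rw [e3]
  refine (abs_sub _ _).trans ?_
  rw [add_mul]
  refine add_le_add ?_ ?_
  · rw [Finset.sum_mul]
    refine (Finset.abs_sum_le_sum_abs _ _).trans (Finset.sum_le_sum fun c _ => ?_)
    rw [Finset.sum_mul]
    refine (Finset.abs_sum_le_sum_abs _ _).trans (Finset.sum_le_sum fun a _ => ?_)
    rw [Finset.sum_mul]
    refine (Finset.abs_sum_le_sum_abs _ _).trans (Finset.sum_le_sum fun ψ _ => ?_)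
    by_cases hΔ : F.cd + F.em (c, ∅) = 0
    · unfold cf
      rw [if_pos hΔ, zero_mul, abs_zero]
      exact mul_nonneg (hC0 c ψ) (le_trans zero_le_one hσ)
    · rw [abs_mul]
      calc |cf F θ c a ψ| * _ ≤ 1 * _ :=
            mul_le_mul_of_nonneg_right (cf_le F θ hθ c a ψ) (abs_nonneg _)
        _ ≤ _ := by
            rw [one_mul]
            exact hC c ψ hΔ σ h0 h1
  · refine (xc_le F θ hθ).trans (le_mul_of_one_le_right ?_ hσ)
    exact Finset.sum_nonneg fun _ _ => Finset.sum_nonneg fun _ _ => zero_le_one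

end Pool.Agent.H32.MQ
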