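import Pool.Agent.H32.MQ.LStm
import Pool.Agent.H32.MQ.UE

/-!
# Malle's conjecture for 8T28 and 8T29: the expansion of `D1` (row L1, helper35)
-/

set_option autoImplicit false

open scoped BigOperators

namespace Pool.Agent.H32.MQ

open Pool.Agent.H98.MK (sg)
open Pool.Agent.H98.MF

theorem ld_bdT {S SF : Sys} (F : Qf S SF) {θ : SF.T → SF.T → S.T → S.T → ℝ} (h : Bdd4 θ) :
    BdT (thc F θ) := by
  intro γ c l
  unfold thc
  split_ifs
  · rw [abs_zero]
    exact zero_le_one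
  · exact h _ _ _ _

/-- the expansion with a weight depending on the pair -/
theorem ld_exp {S : Sys} {Q : Qd S} (hL : Q.Law) (Θ : Q.G → El S → El S → ℝ) (s : ℝ)
    (H : Finset S.P → ℝ)
    (hS : Summable fun b : Cf Q => H b.q * ((Wp Q s).val b * b.tm Θ)) :
    ∑' z : Finset S.P × Finset Q.P,
      H z.1 * (Q.tp Θ z.1 z.2 * ((S.nm z.1 : ℝ) * (Q.nq z.2 : ℝ)) ^ (-s)) =
    ∑' b : Cf Q, H b.q * ((Wp Q s).val b * b.tm Θ) := by
  classical
  have h1 := hS.hasSum.tsum_fiberwise (fun b : Cf Q => ((b.q, b.g) : Finset S.P × Finset Q.P))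
  rw [← h1.tsum_eq]
  refine tsum_congr fun z => ?_
  obtain ⟨x, g⟩ := z
  rw [tsum_subtype ((fun b : Cf Q => ((b.q, b.g) : Finset S.P × Finset Q.P)) ⁻¹' {(x, g)})
    (fun b : Cf Q => H b.q * ((Wp Q s).val b * b.tm Θ))]
  have h2 : ∀ b : Cf Q, ¬ b.Ok → b.tm Θ = 0 := by
    intro b hb
    unfold Cf.tm
    rw [if_neg hb]
  by_cases hok : Q.OkP x g
  · rw [tsum_eq_sum (s := UE.cfs Q x g)]
    · show H x * (Q.tp Θ x g * ((S.nm x : ℝ) * (Q.nq g : ℝ)) ^ (-s)) = _
      rw [← UE.sum_cfs hL Θ s hok, Finset.mul_sum]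
      refine Finset.sum_congr rfl fun b hb => ?_
      unfold UE.cfs at hb
      obtain ⟨z, hz, rfl⟩ := Finset.mem_image.1 hb
      rw [Set.indicator_of_mem]
      · show _ = H (UE.mk Q x g z).q * _
        rw [UE.mk_q hz]
      · rw [Set.mem_preimage, Set.mem_singleton_iff, UE.mk_q hz, UE.mk_g hz]
    · intro b hb
      by_cases h3 : b ∈ ((fun b : Cf Q => ((b.q, b.g) : Finset S.P × Finset Q.P)) ⁻¹' {(x, g)})
      · rw [Set.indicator_of_mem h3]
        rw [Set.mem_preimage, Set.mem_singleton_iff, Prod.mk.injEq] at h3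
        obtain ⟨rfl, rfl⟩ := h3
        rw [h2 b fun h4 => hb (UE.mem_cfs h4), mul_zero, mul_zero]
      · exact Set.indicator_of_notMem h3 _
  · show H x * (Q.tp Θ x g * ((S.nm x : ℝ) * (Q.nq g : ℝ)) ^ (-s)) = _
    unfold Qd.tp
    rw [if_neg hok, zero_mul, mul_zero]
    symm
    refine (tsum_congr fun b => ?_).trans tsum_zero
    by_cases h3 : b ∈ ((fun b : Cf Q => ((b.q, b.g) : Finset S.P × Finset Q.P)) ⁻¹' {(x, g)})
    · rw [Set.indicator_of_mem h3]
      rw [Set.mem_preimage, Set.mem_singleton_iff, Prod.mk.injEq] at h3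
      obtain ⟨rfl, rfl⟩ := h3
      rw [h2 b fun h4 => hok (UE.ok_q h4), mul_zero, mul_zero]
    · exact Set.indicator_of_notMem h3 _

theorem sld_of (hA : SUA) : SLD := by
  classical
  intro S SF F θ s hθ hs
  obtain ⟨hS, -⟩ := hA S F.Q (thc F θ) s (ld_bdT F hθ) hs
  have hS' : Summable fun b : Cf F.Q =>
      (if b.q = ∅ then (0 : ℝ) else 1) * ((Wp F.Q s).val b * b.tm (thc F θ)) := by
    refine Summable.of_norm_bounded hS.norm fun b => ?_
    by_cases hb : b.q = ∅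
    · rw [if_pos hb, zero_mul, norm_zero]
      exact norm_nonneg _
    · rw [if_neg hb, one_mul]
  have h1 := ld_exp F.law (thc F θ) s (fun x => if x = ∅ then (0 : ℝ) else 1) hS'
  unfold D1
  have e1 : ∀ z : Finset S.P × Finset F.Q.P, (if z.1 = ∅ then (0 : ℝ)
      else F.Q.tp (thc F θ) z.1 z.2 * ((S.nm z.1 : ℝ) * (F.Q.nq z.2 : ℝ)) ^ (-s)) =
      (if z.1 = ∅ then (0 : ℝ) else 1) *
        (F.Q.tp (thc F θ) z.1 z.2 * ((S.nm z.1 : ℝ) * (F.Q.nq z.2 : ℝ)) ^ (-s)) := by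
    intro z
    by_cases hz : z.1 = ∅
    · rw [if_pos hz, if_pos hz, zero_mul]
    · rw [if_neg hz, if_neg hz, one_mul]
  have e2 : ∀ b : Cf F.Q, (if b.q = ∅ then (0 : ℝ) else 1) *
      ((Wp F.Q s).val b * b.tm (thc F θ)) =
      if b.q = ∅ then 0 else (Wp F.Q s).val b * b.tm (thc F θ) := by
    intro b
    by_cases hz : b.q = ∅
    · rw [if_pos hz, if_pos hz, zero_mul]
    · rw [if_neg hz, if_neg hz, one_mul]
  rw [tsum_congr e2] at h1
  rw [← tsum_congr e1] at h1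
  convert h1 using 1

end Pool.Agent.H32.MQ
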