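import Pool.Agent.H32.MQ.LStm

/-!
# Malle's conjecture for 8T28 and 8T29: the sign of a term (row L0, helper94)
-/

set_option autoImplicit false

open scoped BigOperators

namespace Pool.Agent.H32.MQ

open Pool.Agent.H98.MK (sg)
open Pool.Agent.H98.MF

/-- disjointness of the images -/
theorem le_dj {S SF : Sys} (F : Qf S SF) {g h : Finset F.Q.P}
    (hd : Disjoint (F.Q.shd g) (F.Q.shd h)) : Disjoint (g.image F.io) (h.image F.io) := by
  classical
  rw [Finset.disjoint_left]
  intro P h1 h2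
  obtain ⟨a, ha, rfl⟩ := Finset.mem_image.1 h1
  obtain ⟨b, hb, hab⟩ := Finset.mem_image.1 h2
  have e := F.io_inj hab
  subst e
  exact Finset.disjoint_left.1 hd (Finset.mem_image_of_mem _ ha) (Finset.mem_image_of_mem _ hb)

theorem le_gd {S : Sys} (Q : Qd S) {g h : Finset Q.P} (hg : Q.Gd g) (hh : Q.Gd h)
    (hd : Disjoint (Q.shd g) (Q.shd h)) : Q.Gd (g ∪ h) := by
  classical
  intro a ha b hb hab
  rcases Finset.mem_union.1 ha with h1 | h1 <;> rcases Finset.mem_union.1 hb with h2 | h2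
  · exact hg a h1 b h2 hab
  · exfalso
    refine Finset.disjoint_left.1 hd (Finset.mem_image_of_mem Q.sh h1) ?_
    rw [hab]
    exact Finset.mem_image_of_mem Q.sh h2
  · exfalso
    refine Finset.disjoint_left.1 hd (Finset.mem_image_of_mem Q.sh h2) ?_
    rw [← hab]
    exact Finset.mem_image_of_mem Q.sh h1
  · exact hh a h1 b h2 hab

theorem le_shd_union {S : Sys} (Q : Qd S) (g h : Finset Q.P) :
    Q.shd (g ∪ h) = Q.shd g ∪ Q.shd h := by
  classical
  unfold Qd.shd
  exact Finset.image_union _ _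

theorem le_not {α : Type*} {s t : Finset α} (h : Disjoint s t) {a : α} (ha : a ∈ s) : a ∉ t :=
  Finset.disjoint_left.1 h ha

theorem sle : SLE := by
  classical
  intro S SF F x a c hx
  have h23 : Disjoint (F.Q.shd x.qq) (F.Q.shd x.g0) := hx.dj 2 3 (by decide)
  have h24 : Disjoint (F.Q.shd x.qq) (F.Q.shd x.g1) := hx.dj 2 4 (by decide)
  have h13 : Disjoint x.q12 (F.Q.shd x.g0) := hx.dj 1 3 (by decide)
  have h14 : Disjoint x.q12 (F.Q.shd x.g1) := hx.dj 1 4 (by decide)
  have h34 : Disjoint (F.Q.shd x.g0) (F.Q.shd x.g1) := hx.dj 3 4 (by decide)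
  have h01 : Disjoint x.q0 x.q12 := hx.dj 0 1 (by decide)
  have h02 : Disjoint x.q0 (F.Q.shd x.qq) := hx.dj 0 2 (by decide)
  have h12 : Disjoint x.q12 (F.Q.shd x.qq) := hx.dj 1 2 (by decide)
  have hg : F.Q.Gd x.g := le_gd F.Q hx.gg0 hx.gg1 h34
  have hsg : F.Q.shd x.g = F.Q.shd x.g0 ∪ F.Q.shd x.g1 := le_shd_union F.Q x.g0 x.g1
  have himg : x.g.image F.io = x.g0.image F.io ∪ x.g1.image F.io := by
    unfold Cf.g
    convert Finset.image_union _ _
  have hdi := le_dj F h34
  unfold Cf.E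
  congr 1
  · congr 1
    · have e1 : ∑ p ∈ x.q12, F.Q.ns (F.el a x.g) p =
          ∑ P ∈ x.q12.biUnion F.up, SF.ex (x.g.image F.io) a P := by
        rw [Finset.sum_biUnion]
        · refine Finset.sum_congr rfl fun p hp => ?_
          refine F.ns_el a x.g p hg ?_
          rw [hsg, Finset.mem_union, not_or]
          exact ⟨le_not h13 hp, le_not h14 hp⟩
        · intro p _ p' _ hne
          rw [Function.onFun, Finset.disjoint_left]
          intro P h1 h2
          exact hne (F.up_d P p p' h1 h2)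
      rw [e1, SF.sum_ex, himg, SF.JJ_union_right _ hdi]
    · have e1 : ∑ b ∈ x.qq, F.Q.sy (F.el a x.g) b =
          ∑ P ∈ x.qq.image F.io, SF.ex (x.g.image F.io) a P := by
        rw [Finset.sum_image fun b _ b' _ h => F.io_inj h]
        refine Finset.sum_congr rfl fun b hb => ?_
        refine F.sy_el a x.g b hg ?_
        have hb' : F.Q.sh b ∈ F.Q.shd x.qq := Finset.mem_image_of_mem _ hb
        rw [hsg, Finset.mem_union, not_or]
        exact ⟨le_not h23 hb', le_not h24 hb'⟩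
      rw [e1, SF.sum_ex, himg, SF.JJ_union_right _ hdi]
  · rw [Finset.sum_add_distrib]
    have e1 : ∑ b ∈ x.g1, F.Q.d0 b = F.cd ⬝ᵥ SF.tys (x.g1.image F.io) := by
      rw [SF.dot_tys, Finset.sum_image fun b _ b' _ h => F.io_inj h]
      exact Finset.sum_congr rfl fun b _ => F.d0_eq b
    have e2 : ∑ b ∈ x.g1, S.ex (x.q ∪ (c, (∅ : Finset S.P)).2) (c, (∅ : Finset S.P)).1
        (F.Q.sh b) = ∑ p ∈ F.Q.shd x.g1, S.ex x.q c p := by
      unfold Qd.shd
      rw [Finset.sum_image fun b hb b' hb' h => hx.gg1 b hb b' hb' h]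
      refine Finset.sum_congr rfl fun b _ => ?_
      rw [Finset.union_empty]
    rw [e1, e2, S.sum_ex]
    have e3 : S.JJ (F.Q.shd x.g1) x.q = S.JJ (F.Q.shd x.g1) x.q0 + S.JJ (F.Q.shd x.g1) x.q12 +
        S.JJ (F.Q.shd x.g1) (F.Q.shd x.qq) := by
      unfold Cf.q
      rw [S.JJ_union_right _ (Finset.disjoint_union_left.2 ⟨h02, h12⟩),
        S.JJ_union_right _ h01]
    rw [e3]
    ring

end Pool.Agent.H32.MQ
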