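import Pool.Agent.H32.MQ.LStm
import Pool.Agent.H32.MQ.UM

/-!
# Malle's conjecture for 8T28 and 8T29 over number fields: the symmetry for the pair `q12`, `g1`
(row L6)
-/

set_option autoImplicit false

open scoped BigOperators Topology
open Filter

namespace Pool.Agent.H32.MQ

open Pool.Agent.H98.MK (sg)
open Pool.Agent.H98.MF

section

variable {S SF : Sys} (F : Qf S SF)

theorem mc_eq_mir (x : Cf F.Q) : mc F x = x.mir := by
  unfold mc Cf.mir
  ext1
  · rfl
  · rfl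
  · ext a
    simp only [Finset.mem_image]
  · rfl
  · rfl

/-- the weight of the mirror image -/
theorem Wp_val_mir (s : ℝ) (x : Cf F.Q) : (Wp F.Q s).val x.mir = (Wp F.Q s).val x := by
  unfold Wg.val Wp Cf.mir
  simp only [F.Q.shd_image_cj]
  ring

/-- the terms with the mirror image of the function -/
theorem tm_mT_thc (θ : SF.T → SF.T → S.T → S.T → ℝ) (y : Cf F.Q) :
    y.tm (mT F.Q (thc F θ)) = y.tm (thc F (mth F θ)) := by
  classical
  unfold Cf.tm
  by_cases h : y.Ok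
  · rw [if_pos h, if_pos h]
    have hg : F.Q.Gd y.g := F.Q.Gd_union h.gg0 h.gg1 (h.dj 3 4 (by decide))
    refine Finset.sum_congr rfl fun γ hγ => Finset.sum_congr rfl fun c hc => ?_
    rw [F.B_eq y.g hg] at hγ
    obtain ⟨a, -, ha⟩ := Finset.mem_image.1 hγ
    have hc2 : c.2 = ∅ := by
      unfold Qd.els at hc
      have h1 := Finset.mem_powerset.1 (Finset.mem_product.1 hc).2
      rw [F.M_eq] at h1
      exact Finset.subset_empty.1 h1
    have hc3 : c = (c.1, ∅) := Prod.ext rfl hc2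
    have h2 : F.Q.hM γ c (F.Q.lab y.q) =
        F.hS (F.co γ).1 (F.co γ).2 c.1 (F.Q.lab y.q).1 := by
      have h3 := F.hM_eq a y.g c.1 y.q hg
      rw [← hc3, ha] at h3
      have h4 := F.co_el a y.g hg
      rw [ha] at h4
      rw [h3, h4]
      rfl
    congr 1
    unfold mT thc mth
    rw [h2]
    by_cases h5 : (∃ a, γ = F.el a ∅) ∧ F.Q.nu γ = (0, ∅)
    · rw [if_pos h5, if_pos h5, zero_mul]
    · rw [if_neg h5, if_neg h5]
  · rw [if_neg h, if_neg h]

/-- the agreement for the mirror images -/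
theorem Ag_mir (b x : Cf F.Q) : Ag F {1, 4} b x.mir ↔ Ag F {0, 3} b.mir x := by
  unfold Ag Cf.mir
  have e0 : (0 : Fin 5) ∉ ({1, 4} : Finset (Fin 5)) := by decide
  have e1 : ¬ (1 : Fin 5) ∉ ({1, 4} : Finset (Fin 5)) := by decide
  have e2 : (2 : Fin 5) ∉ ({1, 4} : Finset (Fin 5)) := by decide
  have e3 : (3 : Fin 5) ∉ ({1, 4} : Finset (Fin 5)) := by decide
  have e4 : ¬ (4 : Fin 5) ∉ ({1, 4} : Finset (Fin 5)) := by decide
  have f0 : ¬ (0 : Fin 5) ∉ ({0, 3} : Finset (Fin 5)) := by decide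
  have f1 : (1 : Fin 5) ∉ ({0, 3} : Finset (Fin 5)) := by decide
  have f2 : (2 : Fin 5) ∉ ({0, 3} : Finset (Fin 5)) := by decide
  have f3 : ¬ (3 : Fin 5) ∉ ({0, 3} : Finset (Fin 5)) := by decide
  have f4 : (4 : Fin 5) ∉ ({0, 3} : Finset (Fin 5)) := by decide
  constructor
  · rintro ⟨h0, h1, h2, h3, h4⟩
    refine ⟨fun h => absurd h f0, fun _ => h0 e0, fun _ => ?_, fun h => absurd h f3,
      fun _ => h3 e3⟩
    show x.qq = b.qq.image F.Q.cj
    rw [← h2 e2, F.Q.image_cj_cj]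
  · rintro ⟨h0, h1, h2, h3, h4⟩
    refine ⟨fun _ => h1 f1, fun h => absurd h e1, fun _ => ?_, fun _ => h4 f4,
      fun h => absurd h e4⟩
    show x.qq.image F.Q.cj = b.qq
    rw [h2 f2, F.Q.image_cj_cj]

end

/-- the symmetry for the pair `q12`, `g1` -/
theorem slmir : SLMir := by
  classical
  intro S SF F θ b s _ _
  unfold WA
  let e : Cf F.Q ≃ Cf F.Q := ⟨Cf.mir, Cf.mir, Cf.mir_mir, Cf.mir_mir⟩
  rw [← Equiv.tsum_eq e]
  refine tsum_congr fun x => ?_
  have h1 : Ag F {1, 4} b (e x) ↔ Ag F {0, 3} (mc F b) x := by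
    rw [mc_eq_mir]
    exact Ag_mir F b x
  by_cases h : Ag F {0, 3} (mc F b) x
  · rw [if_pos h, if_pos (h1.2 h)]
    have h2 : (Wp F.Q s).val (e x) = (Wp F.Q s).val x := Wp_val_mir F s x
    have h3 : (e x).tm (thc F θ) = x.tm (thc F (mth F θ)) := by
      rw [Cf.tm_mir F.law, tm_mT_thc F]
      show x.mir.mir.tm _ = _
      rw [Cf.mir_mir]
    rw [h2, h3]
  · rw [if_neg h, if_neg fun h4 => h (h1.1 h4)]

end Pool.Agent.H32.MQ
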