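import Pool.Agent.H32.MQ.LStm

/-!
# Malle's conjecture for 8T28 and 8T29 over number fields: inclusion and exclusion (row L7)
-/

set_option autoImplicit false

open scoped BigOperators Topology
open Filter

namespace Pool.Agent.H32.MQ

open Pool.Agent.H98.MK (sg)
open Pool.Agent.H98.MF

namespace LV7

section

variable {S : Sys} {Q : Qd S}

/-- equality of one component -/
def eqc (i : Fin 5) (x y : Cf Q) : Prop :=
  (i = 0 → x.q0 = y.q0) ∧ (i = 1 → x.q12 = y.q12) ∧ (i = 2 → x.qq = y.qq) ∧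
    (i = 3 → x.g0 = y.g0) ∧ (i = 4 → x.g1 = y.g1)

/-- replacing one component -/
noncomputable def upd (b : Cf Q) (i : Fin 5) (v : Cf Q) : Cf Q :=
  ⟨if i = 0 then v.q0 else b.q0, if i = 1 then v.q12 else b.q12,
    if i = 2 then v.qq else b.qq, if i = 3 then v.g0 else b.g0, if i = 4 then v.g1 else b.g1⟩

/-- the empty configuration -/
def z0 (Q : Qd S) : Cf Q := ⟨∅, ∅, ∅, ∅, ∅⟩

theorem eqc_refl (i : Fin 5) (x : Cf Q) : eqc i x x :=
  ⟨fun _ => rfl, fun _ => rfl, fun _ => rfl, fun _ => rfl, fun _ => rfl⟩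

theorem eqc_symm {i : Fin 5} {x y : Cf Q} (h : eqc i x y) : eqc i y x :=
  ⟨fun e => (h.1 e).symm, fun e => (h.2.1 e).symm, fun e => (h.2.2.1 e).symm,
    fun e => (h.2.2.2.1 e).symm, fun e => (h.2.2.2.2 e).symm⟩

theorem eqc_trans {i : Fin 5} {x y z : Cf Q} (h : eqc i x y) (h' : eqc i y z) : eqc i x z :=
  ⟨fun e => (h.1 e).trans (h'.1 e), fun e => (h.2.1 e).trans (h'.2.1 e),
    fun e => (h.2.2.1 e).trans (h'.2.2.1 e), fun e => (h.2.2.2.1 e).trans (h'.2.2.2.1 e),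
    fun e => (h.2.2.2.2 e).trans (h'.2.2.2.2 e)⟩

theorem eqc_upd_self (b v : Cf Q) (i : Fin 5) : eqc i (upd b i v) v := by
  refine ⟨?_, ?_, ?_, ?_, ?_⟩ <;> intro e <;> subst e <;> rfl

theorem eqc_upd_ne (b v : Cf Q) {i k : Fin 5} (h : k ≠ i) : eqc k (upd b i v) b := by
  refine ⟨?_, ?_, ?_, ?_, ?_⟩ <;> intro e <;> subst e <;> unfold upd <;>
    simp only [if_neg h.symm]

theorem ext_eqc {x y : Cf Q} (h : ∀ i, eqc i x y) : x = y :=
  Cf.ext ((h 0).1 rfl) ((h 1).2.1 rfl) ((h 2).2.2.1 rfl) ((h 3).2.2.2.1 rfl)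
    ((h 4).2.2.2.2 rfl)

theorem sd_eqc {i : Fin 5} {x y : Cf Q} (h : eqc i x y) : x.sd i = y.sd i := by
  fin_cases i
  · exact h.1 rfl
  · exact h.2.1 rfl
  · exact congrArg Q.shd (h.2.2.1 rfl)
  · exact congrArg Q.shd (h.2.2.2.1 rfl)
  · exact congrArg Q.shd (h.2.2.2.2 rfl)

theorem lv_eqc {i : Fin 5} {x y : Cf Q} (h : eqc i x y) : x.lv i = y.lv i := by
  unfold Cf.lv
  rw [sd_eqc h]

theorem shd_eq_empty {g : Finset Q.P} : Q.shd g = ∅ ↔ g = ∅ := by
  classical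
  unfold Qd.shd
  exact Finset.image_eq_empty

theorem shd_empty : Q.shd ∅ = ∅ := shd_eq_empty.2 rfl

theorem eqc_z0_iff (i : Fin 5) (x : Cf Q) : eqc i x (z0 Q) ↔ x.sd i = ∅ := by
  constructor
  · intro h
    rw [sd_eqc h]
    fin_cases i
    · rfl
    · rfl
    · exact shd_empty
    · exact shd_empty
    · exact shd_empty
  · intro h
    fin_cases i
    · exact ⟨fun _ => h, fun e => absurd e (by decide), fun e => absurd e (by decide),
        fun e => absurd e (by decide), fun e => absurd e (by decide)⟩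
    · exact ⟨fun e => absurd e (by decide), fun _ => h, fun e => absurd e (by decide),
        fun e => absurd e (by decide), fun e => absurd e (by decide)⟩
    · exact ⟨fun e => absurd e (by decide), fun e => absurd e (by decide),
        fun _ => shd_eq_empty.1 h, fun e => absurd e (by decide), fun e => absurd e (by decide)⟩
    · exact ⟨fun e => absurd e (by decide), fun e => absurd e (by decide),
        fun e => absurd e (by decide), fun _ => shd_eq_empty.1 h, fun e => absurd e (by decide)⟩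
    · exact ⟨fun e => absurd e (by decide), fun e => absurd e (by decide),
        fun e => absurd e (by decide), fun e => absurd e (by decide),
        fun _ => shd_eq_empty.1 h⟩

theorem lv_eq_zero {i : Fin 5} {x : Cf Q} : x.lv i = 0 ↔ x.sd i = ∅ := by
  unfold Cf.lv
  constructor
  · intro h
    by_contra hne
    have h2 := S.two_le_nm (Finset.nonempty_iff_ne_empty.2 hne)
    have h3 : 0 < Nat.clog 2 (S.nm (x.sd i)) := Nat.clog_pos one_lt_two h2
    omega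
  · intro h
    rw [h, S.nm_empty]
    exact Nat.clog_of_right_le_one le_rfl 2

theorem lv_z0 (i : Fin 5) : (z0 Q).lv i = 0 := lv_eq_zero.2 ((eqc_z0_iff i _).1 (eqc_refl i _))

theorem ok_z0 : (z0 Q).Ok := by
  have h : ∀ i, (z0 Q).sd i = ∅ := fun i => (eqc_z0_iff i _).1 (eqc_refl i _)
  refine ⟨fun i j _ => ?_, fun i => ?_, ?_, ?_, ?_⟩
  · rw [h i]; exact Finset.disjoint_empty_left _
  · rw [h i]; exact Finset.disjoint_empty_left _
  · intro a ha; exact absurd ha (Finset.notMem_empty a)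
  · intro a ha; exact absurd ha (Finset.notMem_empty a)
  · intro a ha; exact absurd ha (Finset.notMem_empty a)

/-- the single component `i` of an admissible configuration -/
theorem ok_upd {x : Cf Q} (hx : x.Ok) (i : Fin 5) : (upd (z0 Q) i x).Ok := by
  have h1 : ∀ k, k ≠ i → (upd (z0 Q) i x).sd k = ∅ := fun k hk =>
    (eqc_z0_iff k _).1 (eqc_upd_ne _ _ hk)
  have h2 : (upd (z0 Q) i x).sd i = x.sd i := sd_eqc (eqc_upd_self _ _ i)
  have hg : ∀ a ∈ (∅ : Finset Q.P), ∀ b ∈ (∅ : Finset Q.P), Q.sh a = Q.sh b → a = b :=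
    fun a ha => absurd ha (Finset.notMem_empty a)
  refine ⟨fun k l hkl => ?_, fun k => ?_, ?_, ?_, ?_⟩
  · by_cases hk : k = i
    · rw [h1 l (fun h => hkl (hk.trans h.symm))]
      exact Finset.disjoint_empty_right _
    · rw [h1 k hk]
      exact Finset.disjoint_empty_left _
  · by_cases hk : k = i
    · rw [hk, h2]
      exact hx.dM i
    · rw [h1 k hk]
      exact Finset.disjoint_empty_left _
  · unfold upd
    by_cases h : i = 2
    · simp only [if_pos h]; exact hx.gqq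
    · simp only [if_neg h]; exact hg
  · unfold upd
    by_cases h : i = 3
    · simp only [if_pos h]; exact hx.gg0
    · simp only [if_neg h]; exact hg
  · unfold upd
    by_cases h : i = 4
    · simp only [if_pos h]; exact hx.gg1
    · simp only [if_neg h]; exact hg

open Classical in
/-- the values of the component `i` of level at most `J` -/
noncomputable def vals (Q : Qd S) (J : ℕ) (i : Fin 5) : Finset (Cf Q) :=
  (Finset.range (J + 1)).biUnion fun l => Q.box (Function.update (fun _ => 0) i l)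

theorem mem_vals {J : ℕ} {i : Fin 5} {v : Cf Q} : v ∈ vals Q J i ↔
    v.Ok ∧ v.lv i ≤ J ∧ ∀ k, k ≠ i → v.lv k = 0 := by
  classical
  unfold vals Qd.box
  simp only [Finset.mem_biUnion, Finset.mem_range, Set.Finite.mem_toFinset, Set.mem_ofPred_eq]
  constructor
  · rintro ⟨l, hl, hok, h⟩
    refine ⟨hok, ?_, fun k hk => ?_⟩
    · rw [h i, Function.update_self]
      omega
    · rw [h k, Function.update_of_ne hk]
  · rintro ⟨hok, h1, h2⟩
    refine ⟨v.lv i, by omega, hok, fun k => ?_⟩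
    by_cases hk : k = i
    · subst hk
      rw [Function.update_self]
    · rw [Function.update_of_ne hk]
      exact h2 k hk

theorem vals_inj {J : ℕ} {i : Fin 5} {v w : Cf Q} (hv : v ∈ vals Q J i) (hw : w ∈ vals Q J i)
    (h : eqc i v w) : v = w := by
  refine ext_eqc fun k => ?_
  by_cases hk : k = i
  · subst hk; exact h
  · have h1 := (eqc_z0_iff k v).2 (lv_eq_zero.1 ((mem_vals.1 hv).2.2 k hk))
    have h2 := (eqc_z0_iff k w).2 (lv_eq_zero.1 ((mem_vals.1 hw).2.2 k hk))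
    exact eqc_trans h1 (eqc_symm h2)

theorem upd_mem_vals {J : ℕ} {i : Fin 5} {x : Cf Q} (hx : x.Ok) (h : x.lv i ≤ J) :
    upd (z0 Q) i x ∈ vals Q J i := by
  refine mem_vals.2 ⟨ok_upd hx i, ?_, fun k hk => ?_⟩
  · rw [lv_eqc (eqc_upd_self _ _ i)]
    exact h
  · rw [lv_eqc (eqc_upd_ne _ _ hk), lv_z0]

theorem z0_mem_vals (J : ℕ) (i : Fin 5) : z0 Q ∈ vals Q J i :=
  mem_vals.2 ⟨ok_z0, by rw [lv_z0]; exact Nat.zero_le _, fun k _ => lv_z0 k⟩

/-! ### sums over sets of configurations -/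

open Classical in
/-- the sum over the configurations with the property `p` -/
noncomputable def Sg (h : Cf Q → ℝ) (p : Cf Q → Prop) : ℝ := ∑' x : Cf Q, if p x then h x else 0

theorem Sg_congr {h : Cf Q → ℝ} (h0 : ∀ x, ¬ x.Ok → h x = 0) {p p' : Cf Q → Prop}
    (hp : ∀ x : Cf Q, x.Ok → (p x ↔ p' x)) : Sg h p = Sg h p' := by
  classical
  unfold Sg
  refine tsum_congr fun x => ?_
  by_cases hx : x.Ok
  · by_cases h1 : p x
    · rw [if_pos h1, if_pos ((hp x hx).1 h1)]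
    · rw [if_neg h1, if_neg (fun h2 => h1 ((hp x hx).2 h2))]
  · rw [h0 x hx]
    simp

open Classical in
theorem summable_ite {h : Cf Q → ℝ} (hs : Summable h) (p : Cf Q → Prop) :
    Summable fun x => if p x then h x else 0 := by
  refine (hs.indicator {x | p x}).congr fun x => ?_
  rw [Set.indicator_apply]
  rfl

theorem Sg_split {h : Cf Q → ℝ} (hs : Summable h) (p r : Cf Q → Prop) :
    Sg h p = Sg h (fun x => p x ∧ r x) + Sg h (fun x => p x ∧ ¬ r x) := by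
  unfold Sg
  refine Eq.trans ?_ (Summable.tsum_add (summable_ite hs (fun x => p x ∧ r x))
    (summable_ite hs (fun x => p x ∧ ¬ r x)))
  refine tsum_congr fun x => ?_
  by_cases h1 : p x <;> by_cases h2 : r x <;> simp [h1, h2]

theorem Sg_fin {h : Cf Q → ℝ} (hs : Summable h) (h0 : ∀ x, ¬ x.Ok → h x = 0)
    (p : Cf Q → Prop) (V : Finset (Cf Q)) (e : Cf Q → Cf Q → Prop)
    (h1 : ∀ x : Cf Q, x.Ok → p x → ∃ v ∈ V, e v x ∧ ∀ w ∈ V, e w x → w = v) :
    Sg h p = ∑ v ∈ V, Sg h (fun x => p x ∧ e v x) := by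
  unfold Sg
  refine Eq.trans ?_ (Summable.tsum_finsetSum
    (fun v (_ : v ∈ V) => summable_ite hs (fun x => p x ∧ e v x)))
  refine tsum_congr fun x => ?_
  by_cases hx : x.Ok
  · by_cases hp : p x
    · rw [if_pos hp]
      obtain ⟨v, hv, hev, huniq⟩ := h1 x hx hp
      rw [Finset.sum_eq_single_of_mem v hv]
      · rw [if_pos ⟨hp, hev⟩]
      · intro w hw hwv
        rw [if_neg]
        exact fun hc => hwv (huniq w hw hc.2)
    · rw [if_neg hp]
      symm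
      refine Finset.sum_eq_zero fun v _ => ?_
      rw [if_neg (fun hc => hp hc.1)]
  · rw [h0 x hx]
    simp

/-- configurations: `D` free, `E` large, `R` small, the others equal to `b` -/
def GP (J : ℕ) (D E R : Finset (Fin 5)) (b x : Cf Q) : Prop :=
  (∀ i, i ∉ D → i ∉ E → i ∉ R → eqc i x b) ∧ (∀ i ∈ E, J < x.lv i) ∧ ∀ i ∈ R, x.lv i ≤ J

theorem exists_val {J : ℕ} {i : Fin 5} {x : Cf Q} (hx : x.Ok) (h : x.lv i ≤ J) :
    ∃ v ∈ vals Q J i, eqc i x v ∧ ∀ w ∈ vals Q J i, eqc i x w → w = v :=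
  ⟨upd (z0 Q) i x, upd_mem_vals hx h, eqc_symm (eqc_upd_self _ _ i), fun w hw hwx =>
    vals_inj hw (upd_mem_vals hx h) (eqc_trans (eqc_symm hwx) (eqc_symm (eqc_upd_self _ _ i)))⟩

theorem step_E {h : Cf Q → ℝ} (hs : Summable h) (h0 : ∀ x, ¬ x.Ok → h x = 0) (J : ℕ)
    (D E : Finset (Fin 5)) (e : Fin 5) (hD : e ∉ D) (hE : e ∉ E) (b : Cf Q) :
    Sg h (GP J D (insert e E) ∅ b) = Sg h (GP J (insert e D) E ∅ b) -
      ∑ v ∈ vals Q J e, Sg h (GP J D E ∅ (upd b e v)) := by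
  rw [Sg_split hs (GP J (insert e D) E ∅ b) (fun x => J < x.lv e)]
  have h1 : Sg h (fun x => GP J (insert e D) E ∅ b x ∧ J < x.lv e) =
      Sg h (GP J D (insert e E) ∅ b) := by
    refine Sg_congr h0 fun x _ => ?_
    unfold GP
    constructor
    · rintro ⟨⟨h2, h3, h4⟩, h5⟩
      refine ⟨fun i hi1 hi2 hi3 => ?_, fun i hi => ?_, h4⟩
      · rw [Finset.mem_insert, not_or] at hi2
        exact h2 i (by rw [Finset.mem_insert, not_or]; exact ⟨hi2.1, hi1⟩) hi2.2 hi3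
      · rcases Finset.mem_insert.1 hi with h6 | h6
        · rw [h6]; exact h5
        · exact h3 i h6
    · rintro ⟨h2, h3, h4⟩
      refine ⟨⟨fun i hi1 hi2 hi3 => ?_, fun i hi => h3 i (Finset.mem_insert_of_mem hi), h4⟩,
        h3 e (Finset.mem_insert_self _ _)⟩
      rw [Finset.mem_insert, not_or] at hi1
      exact h2 i hi1.2 (by rw [Finset.mem_insert, not_or]; exact ⟨hi1.1, hi2⟩) hi3
  have h2 : Sg h (fun x => GP J (insert e D) E ∅ b x ∧ ¬ J < x.lv e) =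
      ∑ v ∈ vals Q J e, Sg h (GP J D E ∅ (upd b e v)) := by
    rw [Sg_fin hs h0 _ (vals Q J e) (fun v x => eqc e x v)
      (fun x hx hp => exists_val hx (not_lt.1 hp.2))]
    refine Finset.sum_congr rfl fun v hv => Sg_congr h0 fun x _ => ?_
    unfold GP
    constructor
    · rintro ⟨⟨⟨h2, h3, h4⟩, h5⟩, h6⟩
      refine ⟨fun i hi1 hi2 hi3 => ?_, h3, h4⟩
      by_cases hie : i = e
      · subst hie
        exact eqc_trans h6 (eqc_symm (eqc_upd_self _ _ _))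
      · exact eqc_trans (h2 i (by rw [Finset.mem_insert, not_or]; exact ⟨hie, hi1⟩) hi2 hi3)
          (eqc_symm (eqc_upd_ne _ _ hie))
    · rintro ⟨h2, h3, h4⟩
      have h6 : eqc e x v := eqc_trans (h2 e hD hE (Finset.notMem_empty e)) (eqc_upd_self _ _ _)
      refine ⟨⟨⟨fun i hi1 hi2 hi3 => ?_, h3, h4⟩, ?_⟩, h6⟩
      · rw [Finset.mem_insert, not_or] at hi1
        exact eqc_trans (h2 i hi1.2 hi2 hi3) (eqc_upd_ne _ _ hi1.1)
      · rw [not_lt, lv_eqc h6]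
        exact (mem_vals.1 hv).2.1
  rw [h1, h2]
  ring

theorem step_R {h : Cf Q → ℝ} (hs : Summable h) (h0 : ∀ x, ¬ x.Ok → h x = 0) (J : ℕ)
    (A R : Finset (Fin 5)) (r : Fin 5) (hA : r ∉ A) (hR : r ∉ R) (b : Cf Q)
    (c : Cf Q → Prop) :
    Sg h (fun x => GP J ∅ A (insert r R) b x ∧ c x) =
      ∑ v ∈ vals Q J r, Sg h (fun x => GP J ∅ A R (upd b r v) x ∧ c x) := by
  rw [Sg_fin hs h0 _ (vals Q J r) (fun v x => eqc r x v)
    (fun x hx hp => exists_val hx (hp.1.2.2 r (Finset.mem_insert_self _ _)))]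
  refine Finset.sum_congr rfl fun v hv => Sg_congr h0 fun x _ => ?_
  unfold GP
  constructor
  · rintro ⟨⟨⟨h2, h3, h4⟩, h5⟩, h6⟩
    refine ⟨⟨fun i hi1 hi2 hi3 => ?_, h3, fun i hi => h4 i (Finset.mem_insert_of_mem hi)⟩, h5⟩
    by_cases hie : i = r
    · subst hie
      exact eqc_trans h6 (eqc_symm (eqc_upd_self _ _ _))
    · exact eqc_trans (h2 i hi1 hi2 (by rw [Finset.mem_insert, not_or]; exact ⟨hie, hi3⟩))
        (eqc_symm (eqc_upd_ne _ _ hie))
  · rintro ⟨⟨h2, h3, h4⟩, h5⟩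
    have h6 : eqc r x v := eqc_trans (h2 r (Finset.notMem_empty r) hA hR) (eqc_upd_self _ _ _)
    refine ⟨⟨⟨fun i hi1 hi2 hi3 => ?_, h3, fun i hi => ?_⟩, h5⟩, h6⟩
    · rw [Finset.mem_insert, not_or] at hi3
      exact eqc_trans (h2 i hi1 hi2 hi3.2) (eqc_upd_ne _ _ hi3.1)
    · rcases Finset.mem_insert.1 hi with h7 | h7
      · rw [h7, lv_eqc h6]
        exact (mem_vals.1 hv).2.1
      · exact h4 i h7

end

section

variable {S SF : Sys} (F : Qf S SF)

/-- the summand -/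
noncomputable def hh (θ : SF.T → SF.T → S.T → S.T → ℝ) (s : ℝ) (x : Cf F.Q) : ℝ :=
  (Wp F.Q s).val x * x.tm (thc F θ)

theorem hh_zero (θ : SF.T → SF.T → S.T → S.T → ℝ) (s : ℝ) (x : Cf F.Q) (hx : ¬ x.Ok) :
    hh F θ s x = 0 := by
  unfold hh Cf.tm
  rw [if_neg hx, mul_zero]

theorem bdt_thc {θ : SF.T → SF.T → S.T → S.T → ℝ} (hθ : Bdd4 θ) : BdT (thc F θ) := by
  intro γ c l
  unfold thc
  split_ifs
  · rw [abs_zero]; exact zero_le_one
  · exact hθ _ _ _ _

theorem bdd4_mth {θ : SF.T → SF.T → S.T → S.T → ℝ} (hθ : Bdd4 θ) : Bdd4 (mth F θ) := by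
  intro a k c l
  unfold mth
  rw [abs_mul, abs_sgr, mul_one]
  exact hθ a k c l

theorem hh_summable (hA : SUA) {θ : SF.T → SF.T → S.T → S.T → ℝ} (hθ : Bdd4 θ) {s : ℝ}
    (hs : 1 < s) : Summable (hh F θ s) := (hA S F.Q (thc F θ) s (bdt_thc F hθ) hs).1

theorem ag_iff (D : Finset (Fin 5)) (b x : Cf F.Q) : Ag F D b x ↔ ∀ i, i ∉ D → eqc i x b := by
  constructor
  · intro h i hi
    refine ⟨?_, ?_, ?_, ?_, ?_⟩
    · intro e; subst e; exact h.1 hi
    · intro e; subst e; exact h.2.1 hi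
    · intro e; subst e; exact h.2.2.1 hi
    · intro e; subst e; exact h.2.2.2.1 hi
    · intro e; subst e; exact h.2.2.2.2 hi
  · intro h
    exact ⟨fun h0 => (h 0 h0).1 rfl, fun h0 => (h 1 h0).2.1 rfl, fun h0 => (h 2 h0).2.2.1 rfl,
      fun h0 => (h 3 h0).2.2.2.1 rfl, fun h0 => (h 4 h0).2.2.2.2 rfl⟩

theorem WA_eq (θ : SF.T → SF.T → S.T → S.T → ℝ) (D : Finset (Fin 5)) (b : Cf F.Q) (s : ℝ) :
    WA F θ D b s = Sg (hh F θ s) (fun x => Ag F D b x) := rfl

theorem WA_GP (θ : SF.T → SF.T → S.T → S.T → ℝ) (J : ℕ) (D : Finset (Fin 5)) (b : Cf F.Q)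
    (s : ℝ) : Sg (hh F θ s) (GP J D ∅ ∅ b) = WA F θ D b s := by
  rw [WA_eq]
  refine Sg_congr (hh_zero F θ s) fun x _ => ?_
  rw [ag_iff]
  unfold GP
  constructor
  · intro h i hi
    exact h.1 i hi (Finset.notMem_empty i) (Finset.notMem_empty i)
  · intro h
    exact ⟨fun i hi _ _ => h i hi, fun i hi => absurd hi (Finset.notMem_empty i),
      fun i hi => absurd hi (Finset.notMem_empty i)⟩

theorem WA_b (θ : SF.T → SF.T → S.T → S.T → ℝ) (D : Finset (Fin 5)) (b b' : Cf F.Q) (s : ℝ)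
    (h : ∀ i, i ∉ D → eqc i b b') : WA F θ D b s = WA F θ D b' s := by
  rw [WA_eq, WA_eq]
  refine Sg_congr (hh_zero F θ s) fun x _ => ?_
  rw [ag_iff, ag_iff]
  constructor
  · intro h1 i hi
    exact eqc_trans (h1 i hi) (h i hi)
  · intro h1 i hi
    exact eqc_trans (h1 i hi) (eqc_symm (h i hi))

end

theorem tend0 {f : ℝ → ℝ} {C : ℝ} (h : ∀ σ : ℝ, 0 < σ → σ ≤ 1 → |f σ| ≤ C * σ ^ (-(1 : ℝ))) :
    Tendsto (fun σ : ℝ => σ ^ 2 * f σ) (𝓝[>] 0) (𝓝 0) := by
  refine squeeze_zero_norm' (a := fun σ : ℝ => C * σ) ?_ ?_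
  · filter_upwards [Ioc_mem_nhdsGT (zero_lt_one' ℝ)] with σ hσ
    have h1 := h σ hσ.1 hσ.2
    rw [Real.rpow_neg_one] at h1
    rw [Real.norm_eq_abs, abs_mul, abs_of_nonneg (sq_nonneg σ)]
    calc σ ^ 2 * |f σ| ≤ σ ^ 2 * (C * σ⁻¹) := mul_le_mul_of_nonneg_left h1 (sq_nonneg σ)
      _ = C * σ := by
        have := hσ.1.ne'
        field_simp
  · have h2 : Tendsto (fun σ : ℝ => C * σ) (𝓝[>] 0) (𝓝 (C * 0)) :=
      (tendsto_const_nhds.mul tendsto_id).mono_left nhdsWithin_le_nhds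
    rwa [mul_zero] at h2

instance decLk (i k : Fin 5) : Decidable (Qd.Lk i k) := by
  unfold Qd.Lk
  infer_instance

theorem indep_cases : ∀ D : Finset (Fin 5), (∀ i ∈ D, ∀ k ∈ D, ¬ Qd.Lk i k) →
    D.card ≤ 1 ∨ D ⊆ {0, 1, 2} ∨ D = {3, 4} ∨ D = {0, 3} ∨ D = {1, 4} := by
  decide

theorem indep_max : ∀ (D : Finset (Fin 5)) (e : Fin 5), e ∉ D →
    (∀ i ∈ insert e D, ∀ k ∈ insert e D, ¬ Qd.Lk i k) →
    D ≠ {0, 3} ∧ D ≠ {1, 4} ∧ D ≠ {3, 4} := by
  decide

section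

variable {S SF : Sys} (F : Qf S SF)

open Classical in
/-- the limit values -/
noncomputable def LL (K1 K2 : ℝ) (D R : Finset (Fin 5)) (b : Cf F.Q) : ℝ :=
  if D = {0, 3} ∧ (∀ i, i ∉ D → i ∉ R → eqc i b (z0 F.Q)) then K1
  else if D = {1, 4} ∧ (∀ i, i ∉ D → i ∉ R → eqc i b (z0 F.Q)) then K2 else 0

theorem LL_zero {K1 K2 : ℝ} {D R : Finset (Fin 5)} {b : Cf F.Q} (h1 : D ≠ {0, 3})
    (h2 : D ≠ {1, 4}) : LL F K1 K2 D R b = 0 := by
  unfold LL
  rw [if_neg (fun h => h1 h.1), if_neg (fun h => h2 h.1)]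

open Classical in
theorem base03 (h03 : SLW03) (hm : SLM03) (c0 : ℝ)
    (hc : Tendsto (fun σ : ℝ => σ ^ 2 *
      ES F (fun _ : Fin 1 => ((0 : S.T), (∅ : Finset S.P)))
        (fun _ : Fin 1 => ((0 : SF.T), (∅ : Finset SF.P))) ∅ (1 + σ)) (𝓝[>] 0) (𝓝 c0))
    (θ : SF.T → SF.T → S.T → S.T → ℝ) (hθ : Bdd4 θ) (b : Cf F.Q) :
    Tendsto (fun σ : ℝ => σ ^ 2 * WA F θ {0, 3} b (1 + σ)) (𝓝[>] 0)
      (𝓝 (if b.q12 = ∅ ∧ b.qq = ∅ ∧ b.g1 = ∅ then c0 * mv θ else 0)) := by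
  split_ifs with hb
  · have h1 := hm S SF F c0 hc θ hθ
    refine h1.congr fun σ => ?_
    congr 1
    refine WA_b F θ _ _ _ _ fun i hi => ?_
    refine ⟨?_, ?_, ?_, ?_, ?_⟩
    · intro e; subst e; exact absurd (by decide) hi
    · intro e; exact hb.1.symm
    · intro e; exact hb.2.1.symm
    · intro e; subst e; exact absurd (by decide) hi
    · intro e; exact hb.2.2.symm
  · have h2 : b.q12 ≠ ∅ ∨ b.qq ≠ ∅ ∨ b.g1 ≠ ∅ := by
      by_contra hcon
      push Not at hcon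
      exact hb hcon
    obtain ⟨C, hC⟩ := h03 S SF F b h2
    exact tend0 fun σ h3 h4 => hC θ σ hθ h3 h4

theorem base (h1 : SLW1) (h34 : SLW34) (h012 : SLW012) (h03 : SLW03) (hm : SLM03) (hM : SLMir)
    (c0 : ℝ)
    (hc : Tendsto (fun σ : ℝ => σ ^ 2 *
      ES F (fun _ : Fin 1 => ((0 : S.T), (∅ : Finset S.P)))
        (fun _ : Fin 1 => ((0 : SF.T), (∅ : Finset SF.P))) ∅ (1 + σ)) (𝓝[>] 0) (𝓝 c0))
    (θ : SF.T → SF.T → S.T → S.T → ℝ) (hθ : Bdd4 θ) (D : Finset (Fin 5)) (b : Cf F.Q)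
    (hD : ∀ i ∈ D, ∀ k ∈ D, ¬ Qd.Lk i k) (hq : D = {3, 4} → b.q ≠ ∅) :
    Tendsto (fun σ : ℝ => σ ^ 2 * WA F θ D b (1 + σ)) (𝓝[>] 0)
      (𝓝 (LL F (c0 * mv θ) (c0 * mv (mth F θ)) D ∅ b)) := by
  classical
  rcases indep_cases D hD with h | h | h | h | h
  · rw [LL_zero F (by rintro rfl; revert h; decide) (by rintro rfl; revert h; decide)]
    obtain ⟨C, hC⟩ := h1 S SF F D b h
    exact tend0 fun σ h3 h4 => hC θ σ hθ h3 h4
  · rw [LL_zero F (by rintro rfl; revert h; decide) (by rintro rfl; revert h; decide)]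
    obtain ⟨C, hC⟩ := h012 S SF F D b h
    exact tend0 fun σ h3 h4 => hC θ σ hθ h3 h4
  · rw [LL_zero F (by rw [h]; decide) (by rw [h]; decide)]
    obtain ⟨C, hC⟩ := h34 S SF F b (hq h)
    rw [h]
    exact tend0 fun σ h3 h4 => hC θ σ hθ h3 h4
  · subst h
    have h2 := base03 F h03 hm c0 hc θ hθ b
    convert h2 using 2
    unfold LL
    have h3 : (({0, 3} : Finset (Fin 5)) = {0, 3} ∧
        ∀ i, i ∉ ({0, 3} : Finset (Fin 5)) → i ∉ (∅ : Finset (Fin 5)) → eqc i b (z0 F.Q)) ↔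
        (b.q12 = ∅ ∧ b.qq = ∅ ∧ b.g1 = ∅) := by
      constructor
      · rintro ⟨_, h4⟩
        exact ⟨(h4 1 (by decide) (by decide)).2.1 rfl,
          (h4 2 (by decide) (by decide)).2.2.1 rfl,
          (h4 4 (by decide) (by decide)).2.2.2.2 rfl⟩
      · rintro ⟨h4, h5, h6⟩
        refine ⟨rfl, fun i hi _ => ⟨?_, fun _ => h4, fun _ => h5, ?_, fun _ => h6⟩⟩
        · intro e; subst e; exact absurd (by decide) hi
        · intro e; subst e; exact absurd (by decide) hi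
    by_cases h4 : b.q12 = ∅ ∧ b.qq = ∅ ∧ b.g1 = ∅
    · rw [if_pos (h3.2 h4), if_pos h4]
    · rw [if_neg (fun h5 => h4 (h3.1 h5)), if_neg h4, if_neg (fun h5 => by
        have := h5.1
        revert this
        decide)]
  · subst h
    have h2 := base03 F h03 hm c0 hc (mth F θ) (bdd4_mth F hθ) (mc F b)
    have h3 : (fun σ : ℝ => σ ^ 2 * WA F (mth F θ) {0, 3} (mc F b) (1 + σ)) =ᶠ[𝓝[>] 0]
        fun σ : ℝ => σ ^ 2 * WA F θ {1, 4} b (1 + σ) := by
      filter_upwards [self_mem_nhdsWithin] with σ hσ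
      have hσ' : (0 : ℝ) < σ := hσ
      rw [hM S SF F θ b (1 + σ) hθ (by linarith)]
    have h4 := h2.congr' h3
    convert h4 using 2
    unfold LL
    have h5 : (({1, 4} : Finset (Fin 5)) = {1, 4} ∧
        ∀ i, i ∉ ({1, 4} : Finset (Fin 5)) → i ∉ (∅ : Finset (Fin 5)) → eqc i b (z0 F.Q)) ↔
        ((mc F b).q12 = ∅ ∧ (mc F b).qq = ∅ ∧ (mc F b).g1 = ∅) := by
      constructor
      · rintro ⟨_, h4⟩
        refine ⟨(h4 0 (by decide) (by decide)).1 rfl, ?_,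
          (h4 3 (by decide) (by decide)).2.2.2.1 rfl⟩
        show b.qq.image F.Q.cj = ∅
        rw [Finset.image_eq_empty]
        exact (h4 2 (by decide) (by decide)).2.2.1 rfl
      · rintro ⟨h4, h5, h6⟩
        have h7 : b.qq = ∅ := by
          have h8 : b.qq.image F.Q.cj = ∅ := h5
          rwa [Finset.image_eq_empty] at h8
        refine ⟨rfl, fun i hi _ => ⟨fun _ => h4, ?_, fun _ => h7, fun _ => h6, ?_⟩⟩
        · intro e; subst e; exact absurd (by decide) hi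
        · intro e; subst e; exact absurd (by decide) hi
    have h6 : ¬ (({1, 4} : Finset (Fin 5)) = {0, 3} ∧
        ∀ i, i ∉ ({1, 4} : Finset (Fin 5)) → i ∉ (∅ : Finset (Fin 5)) →
          eqc i b (z0 F.Q)) := by
      intro h7
      have := h7.1
      revert this
      decide
    rw [if_neg h6]
    by_cases h7 : (mc F b).q12 = ∅ ∧ (mc F b).qq = ∅ ∧ (mc F b).g1 = ∅
    · rw [if_pos (h5.2 h7), if_pos h7]
    · rw [if_neg (fun h8 => h7 (h5.1 h8)), if_neg h7]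

theorem phaseE (hA : SUA) (h1 : SLW1) (h34 : SLW34) (h012 : SLW012) (h03 : SLW03) (hm : SLM03)
    (hM : SLMir) (c0 : ℝ)
    (hc : Tendsto (fun σ : ℝ => σ ^ 2 *
      ES F (fun _ : Fin 1 => ((0 : S.T), (∅ : Finset S.P)))
        (fun _ : Fin 1 => ((0 : SF.T), (∅ : Finset SF.P))) ∅ (1 + σ)) (𝓝[>] 0) (𝓝 c0))
    (θ : SF.T → SF.T → S.T → S.T → ℝ) (hθ : Bdd4 θ) (J : ℕ) (E : Finset (Fin 5)) :
    ∀ (D : Finset (Fin 5)) (b : Cf F.Q), (∀ e ∈ E, e ∉ D) →
      (∀ i ∈ D ∪ E, ∀ k ∈ D ∪ E, ¬ Qd.Lk i k) → (D ∪ E = {3, 4} → b.q ≠ ∅) →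
      Tendsto (fun σ : ℝ => σ ^ 2 * Sg (hh F θ (1 + σ)) (GP J D E ∅ b)) (𝓝[>] 0)
        (𝓝 (LL F (c0 * mv θ) (c0 * mv (mth F θ)) (D ∪ E) ∅ b)) := by
  induction E using Finset.induction_on with
  | empty =>
    intro D b _ hD hq
    rw [Finset.union_empty] at hD hq ⊢
    refine (base F h1 h34 h012 h03 hm hM c0 hc θ hθ D b hD hq).congr fun σ => ?_
    rw [WA_GP]
  | insert e E he ih =>
    intro D b hdis hD hq
    have hu : D ∪ insert e E = insert e (D ∪ E) := Finset.union_insert _ _ _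
    have hu' : insert e D ∪ E = insert e (D ∪ E) := Finset.insert_union _ _ _
    have heD : e ∉ D := hdis e (Finset.mem_insert_self _ _)
    have heU : e ∉ D ∪ E := by
      rw [Finset.mem_union, not_or]
      exact ⟨heD, he⟩
    rw [hu] at hD hq ⊢
    obtain ⟨hn1, hn2, hn3⟩ := indep_max (D ∪ E) e heU hD
    have h5 := ih (insert e D) b (fun i hi => by
      rw [Finset.mem_insert, not_or]
      exact ⟨fun h => he (h ▸ hi), hdis i (Finset.mem_insert_of_mem hi)⟩) (by rw [hu']; exact hD)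
      (by rw [hu']; exact hq)
    rw [hu'] at h5
    have h6 : ∀ v ∈ vals F.Q J e, Tendsto (fun σ : ℝ => σ ^ 2 *
        Sg (hh F θ (1 + σ)) (GP J D E ∅ (upd b e v))) (𝓝[>] 0) (𝓝 0) := by
      intro v _
      have h7 := ih D (upd b e v) (fun i hi => hdis i (Finset.mem_insert_of_mem hi))
        (fun i hi k hk => hD i (Finset.mem_insert_of_mem hi) k (Finset.mem_insert_of_mem hk))
        (fun h => absurd h hn3)
      rwa [LL_zero F hn1 hn2] at h7
    have h8 := h5.sub (tendsto_finsetSum _ h6)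
    rw [Finset.sum_const_zero, sub_zero] at h8
    refine h8.congr' ?_
    filter_upwards [self_mem_nhdsWithin] with σ hσ
    have hσ' : (0 : ℝ) < σ := hσ
    rw [step_E (hh_summable F hA hθ (by linarith)) (hh_zero F θ _) J D E e heD he b, mul_sub,
      Finset.mul_sum]

theorem LL_sum (K1 K2 : ℝ) (J : ℕ) (A R : Finset (Fin 5)) (r : Fin 5) (hA : r ∉ A) (hR : r ∉ R)
    (b : Cf F.Q) : ∑ v ∈ vals F.Q J r, LL F K1 K2 A R (upd b r v) =
      LL F K1 K2 A (insert r R) b := by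
  classical
  have h1 : ∀ v ∈ vals F.Q J r, (∀ i, i ∉ A → i ∉ R → eqc i (upd b r v) (z0 F.Q)) ↔
      (v = z0 F.Q ∧ ∀ i, i ∉ A → i ∉ insert r R → eqc i b (z0 F.Q)) := by
    intro v hv
    constructor
    · intro h
      refine ⟨vals_inj hv (z0_mem_vals J r)
        (eqc_trans (eqc_symm (eqc_upd_self b v r)) (h r hA hR)), fun i hi1 hi2 => ?_⟩
      rw [Finset.mem_insert, not_or] at hi2
      exact eqc_trans (eqc_symm (eqc_upd_ne b v hi2.1)) (h i hi1 hi2.2)
    · rintro ⟨rfl, h⟩ i hi1 hi2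
      by_cases hir : i = r
      · subst hir
        exact eqc_upd_self _ _ _
      · exact eqc_trans (eqc_upd_ne _ _ hir)
          (h i hi1 (by rw [Finset.mem_insert, not_or]; exact ⟨hir, hi2⟩))
  rw [Finset.sum_eq_single_of_mem (z0 F.Q) (z0_mem_vals J r)]
  · have h2 : (∀ i, i ∉ A → i ∉ R → eqc i (upd b r (z0 F.Q)) (z0 F.Q)) ↔
        ∀ i, i ∉ A → i ∉ insert r R → eqc i b (z0 F.Q) :=
      ⟨fun h => ((h1 (z0 F.Q) (z0_mem_vals J r)).1 h).2,
        fun h => (h1 (z0 F.Q) (z0_mem_vals J r)).2 ⟨rfl, h⟩⟩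
    unfold LL
    simp only [h2]
  · intro v hv hne
    have h4 : (∀ i, i ∉ A → i ∉ R → eqc i (upd b r v) (z0 F.Q)) ↔ False :=
      ⟨fun h => hne ((h1 v hv).1 h).1, False.elim⟩
    unfold LL
    simp only [h4, and_false, if_false]

theorem q_ne {J : ℕ} {i : Fin 5} (hi : i ∈ ({0, 1, 2} : Finset (Fin 5))) {x : Cf F.Q}
    (h : J < x.lv i) : x.q ≠ ∅ := by
  intro hq
  have h1 : x.lv i ≠ 0 := by omega
  apply h1
  rw [lv_eq_zero]
  unfold Cf.q at hq
  rw [Finset.union_eq_empty, Finset.union_eq_empty] at hq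
  rw [Finset.mem_insert, Finset.mem_insert, Finset.mem_singleton] at hi
  rcases hi with h2 | h2 | h2
  · subst h2; exact hq.1.1
  · subst h2; exact hq.1.2
  · subst h2; exact hq.2

theorem phaseR (hA : SUA) (h1 : SLW1) (h34 : SLW34) (h012 : SLW012) (h03 : SLW03) (hm : SLM03)
    (hM : SLMir) (c0 : ℝ)
    (hc : Tendsto (fun σ : ℝ => σ ^ 2 *
      ES F (fun _ : Fin 1 => ((0 : S.T), (∅ : Finset S.P)))
        (fun _ : Fin 1 => ((0 : SF.T), (∅ : Finset SF.P))) ∅ (1 + σ)) (𝓝[>] 0) (𝓝 c0))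
    (θ : SF.T → SF.T → S.T → S.T → ℝ) (hθ : Bdd4 θ) (J : ℕ) (A : Finset (Fin 5))
    (hI : ∀ i ∈ A, ∀ k ∈ A, ¬ Qd.Lk i k) (R : Finset (Fin 5)) :
    ∀ (b : Cf F.Q), (∀ r ∈ R, r ∉ A) →
      Tendsto (fun σ : ℝ => σ ^ 2 *
        Sg (hh F θ (1 + σ)) (fun x => GP J ∅ A R b x ∧ x.q ≠ ∅)) (𝓝[>] 0)
        (𝓝 (LL F (c0 * mv θ) (c0 * mv (mth F θ)) A R b)) := by
  induction R using Finset.induction_on with
  | empty =>
    intro b _
    have key : (A = {3, 4} → b.q ≠ ∅) → (∀ x : Cf F.Q, x.Ok → GP J ∅ A ∅ b x → x.q ≠ ∅) →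
        Tendsto (fun σ : ℝ => σ ^ 2 *
          Sg (hh F θ (1 + σ)) (fun x => GP J ∅ A ∅ b x ∧ x.q ≠ ∅)) (𝓝[>] 0)
          (𝓝 (LL F (c0 * mv θ) (c0 * mv (mth F θ)) A ∅ b)) := by
      intro hq hx
      have h5 := phaseE F hA h1 h34 h012 h03 hm hM c0 hc θ hθ J A ∅ b
        (fun e _ => Finset.notMem_empty e) (by rw [Finset.empty_union]; exact hI)
        (by rw [Finset.empty_union]; exact hq)
      rw [Finset.empty_union] at h5
      refine h5.congr fun σ => ?_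
      congr 1
      exact Sg_congr (hh_zero F θ _) fun x hok => ⟨fun h => ⟨h, hx x hok h⟩, fun h => h.1⟩
    by_cases h5 : ∃ i ∈ A, i ∈ ({0, 1, 2} : Finset (Fin 5))
    · obtain ⟨i, hi, hi2⟩ := h5
      refine key (fun h => ?_) (fun x _ hx => q_ne F hi2 (hx.2.1 i hi))
      subst h
      exfalso
      revert i
      decide
    · have h6 : ∀ i ∈ A, i ∉ ({0, 1, 2} : Finset (Fin 5)) := fun i hi h => h5 ⟨i, hi, h⟩
      have h0 : (0 : Fin 5) ∉ A := fun h => h6 0 h (by decide)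
      have h1' : (1 : Fin 5) ∉ A := fun h => h6 1 h (by decide)
      have h2' : (2 : Fin 5) ∉ A := fun h => h6 2 h (by decide)
      have hxq : ∀ x : Cf F.Q, GP J ∅ A ∅ b x → x.q = b.q := by
        intro x hx
        unfold Cf.q
        rw [(hx.1 0 (Finset.notMem_empty _) h0 (Finset.notMem_empty _)).1 rfl,
          (hx.1 1 (Finset.notMem_empty _) h1' (Finset.notMem_empty _)).2.1 rfl,
          (hx.1 2 (Finset.notMem_empty _) h2' (Finset.notMem_empty _)).2.2.1 rfl]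
      by_cases hq : b.q = ∅
      · rw [LL_zero F (fun h => h0 (by rw [h]; decide)) (fun h => h1' (by rw [h]; decide))]
        refine tendsto_const_nhds.congr fun σ => ?_
        have h7 : Sg (hh F θ (1 + σ)) (fun x => GP J ∅ A ∅ b x ∧ x.q ≠ ∅) = 0 := by
          unfold Sg
          refine (tsum_congr fun x => ?_).trans tsum_zero
          rw [if_neg]
          rintro ⟨h8, h9⟩
          exact h9 ((hxq x h8).trans hq)
        rw [h7, mul_zero]
      · exact key (fun _ => hq) (fun x _ hx => by rw [hxq x hx]; exact hq)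
  | insert r R hr ih =>
    intro b hdis
    have hrA : r ∉ A := hdis r (Finset.mem_insert_self _ _)
    rw [← LL_sum F _ _ J A R r hrA hr b]
    have h5 := tendsto_finsetSum (vals F.Q J r) (fun v _ => ih (upd b r v)
      (fun i hi => hdis i (Finset.mem_insert_of_mem hi)))
    refine h5.congr' ?_
    filter_upwards [self_mem_nhdsWithin] with σ hσ
    have hσ' : (0 : ℝ) < σ := hσ
    rw [step_R (hh_summable F hA hθ (by linarith)) (hh_zero F θ _) J A R r hrA hr b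
      (fun x => x.q ≠ ∅), Finset.mul_sum]

end

end LV7

/-- Row L7. -/
theorem slv_of (hA : SUA) (h1 : SLW1) (h34 : SLW34) (h012 : SLW012) (h03 : SLW03) (hm : SLM03)
    (hM : SLMir) : SLV := by
  classical
  intro S SF F c0 hc θ J A hθ hI
  have h5 := LV7.phaseR F hA h1 h34 h012 h03 hm hM c0 hc θ hθ J A hI Aᶜ (LV7.z0 F.Q)
    (fun r hr => Finset.mem_compl.1 hr)
  have h6 : LV7.LL F (c0 * mv θ) (c0 * mv (mth F θ)) A Aᶜ (LV7.z0 F.Q) =
      if A = {0, 3} then c0 * mv θ else if A = {1, 4} then c0 * mv (mth F θ) else 0 := by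
    unfold LV7.LL
    have h7 : ∀ i, i ∉ A → i ∉ Aᶜ → LV7.eqc i (LV7.z0 F.Q) (LV7.z0 F.Q) :=
      fun i _ _ => LV7.eqc_refl i _
    by_cases h8 : A = {0, 3}
    · rw [if_pos ⟨h8, h7⟩, if_pos h8]
    · by_cases h9 : A = {1, 4}
      · rw [if_neg (fun h => h8 h.1), if_pos ⟨h9, h7⟩, if_neg h8, if_pos h9]
      · rw [if_neg (fun h => h8 h.1), if_neg (fun h => h9 h.1), if_neg h8, if_neg h9]
  have h7 : Tendsto (fun σ : ℝ => σ ^ 2 * VA F θ J A (1 + σ)) (𝓝[>] 0)
      (𝓝 (LV7.LL F (c0 * mv θ) (c0 * mv (mth F θ)) A Aᶜ (LV7.z0 F.Q))) := by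
    refine h5.congr fun σ => ?_
    congr 1
    have h8 : VA F θ J A (1 + σ) = LV7.Sg (LV7.hh F θ (1 + σ))
        (fun x => lar F J x = A ∧ x.q ≠ ∅) := by
      unfold VA LV7.Sg LV7.hh
      refine tsum_congr fun x => ?_
      by_cases h : lar F J x = A ∧ x.q ≠ ∅
      · rw [if_pos h, if_pos h]
      · rw [if_neg h, if_neg h]
    rw [h8]
    refine LV7.Sg_congr (LV7.hh_zero F θ _) fun x _ => ?_
    unfold LV7.GP
    have h9 : lar F J x = A ↔ ((∀ i, i ∉ (∅ : Finset (Fin 5)) → i ∉ A → i ∉ Aᶜ →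
        LV7.eqc i x (LV7.z0 F.Q)) ∧ (∀ i ∈ A, J < x.lv i) ∧ ∀ i ∈ Aᶜ, x.lv i ≤ J) := by
      unfold lar
      constructor
      · intro h
        refine ⟨fun i _ h1 h2 => absurd (Finset.mem_compl.2 h1) h2, fun i hi => ?_,
          fun i hi => ?_⟩
        · rw [← h] at hi
          exact (Finset.mem_filter.1 hi).2
        · rw [Finset.mem_compl, ← h] at hi
          by_contra hcon
          exact hi (Finset.mem_filter.2 ⟨Finset.mem_univ _, not_le.1 hcon⟩)
      · rintro ⟨_, h2, h3⟩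
        ext i
        rw [Finset.mem_filter]
        constructor
        · rintro ⟨_, h4⟩
          by_contra hcon
          have := h3 i (Finset.mem_compl.2 hcon)
          omega
        · intro hi
          exact ⟨Finset.mem_univ _, h2 i hi⟩
    rw [h9]
  rw [h6] at h7
  convert h7 using 2

end Pool.Agent.H32.MQ
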