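import Pool.Agent.H32.MQ.LStm
import Pool.Agent.H32.MQ.LNd
import Pool.Agent.H98.MF.SClassSum

/-!
# Malle's conjecture for 8T28 and 8T29: the variables `q0`, `q12`, `qq` (row L4, helper93)
-/

set_option autoImplicit false

open scoped BigOperators

namespace Pool.Agent.H32.MQ

open Pool.Agent.H98.MK (sg)
open Pool.Agent.H98.MF

namespace LW

variable {S SF : Sys} (F : Qf S SF)

/-! ### fixing variables -/

/-- prescribed values of some of the variables -/
def Rx {u v : ℕ} (f1 : Fin u → Option (Finset S.P)) (f2 : Fin v → Option (Finset F.Q.P))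
    (w : (Fin u → Finset S.P) × (Fin v → Finset F.Q.P)) : Prop :=
  (∀ i b, f1 i = some b → w.1 i = b) ∧ ∀ j b, f2 j = some b → w.2 j = b

open Classical in
/-- the factor of a fixed variable over `k` -/
noncomputable def ck (y : El S) (z : Finset S.P) (s : ℝ) (b : Finset S.P) : ℝ :=
  if Disjoint b z then ((sg (S.JJ b y.2 + y.1 ⬝ᵥ S.tys b) : ℤ) : ℝ) * pw s b else 0

open Classical in
/-- the factor of a fixed variable over `F` -/
noncomputable def cF (Y : El SF) (z : Finset S.P) (s : ℝ) (b : Finset F.Q.P) : ℝ :=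
  if Disjoint (F.Q.shd b) z ∧ F.Q.Gd b then ((sg (SF.JJ (b.image F.io) Y.2 +
    Y.1 ⬝ᵥ SF.tys (b.image F.io)) : ℤ) : ℝ) * pw s (F.Q.shd b) else 0

theorem pw_nonneg (s : ℝ) (x : Finset S.P) : 0 ≤ pw s x := Real.rpow_nonneg (Nat.cast_nonneg _) _

theorem pw_le_one {s : ℝ} (hs : 0 ≤ s) (x : Finset S.P) : pw s x ≤ 1 :=
  Real.rpow_le_one_of_one_le_of_nonpos (S.one_le_nmr x) (by linarith)

theorem abs_ck (y : El S) (z : Finset S.P) {s : ℝ} (hs : 0 ≤ s) (b : Finset S.P) :
    |ck y z s b| ≤ 1 := by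
  unfold ck
  split_ifs
  · rw [abs_mul, abs_sgr, one_mul, abs_of_nonneg (pw_nonneg _ _)]
    exact pw_le_one hs b
  · rw [abs_zero]
    exact zero_le_one

theorem abs_cF (Y : El SF) (z : Finset S.P) {s : ℝ} (hs : 0 ≤ s) (b : Finset F.Q.P) :
    |cF F Y z s b| ≤ 1 := by
  unfold cF
  split_ifs
  · rw [abs_mul, abs_sgr, one_mul, abs_of_nonneg (pw_nonneg _ _)]
    exact pw_le_one hs _
  · rw [abs_zero]
    exact zero_le_one

theorem okE_k {u v : ℕ} (p : Fin (u + 1)) (z : Finset S.P)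
    (w : (Fin (u + 1) → Finset S.P) × (Fin v → Finset F.Q.P)) :
    okE F z w ↔ Disjoint (w.1 p) z ∧
      okE F (z ∪ w.1 p) ((fun i => w.1 (p.succAbove i)), w.2) := by
  unfold okE
  constructor
  · rintro ⟨h1, h2, h3, h4, h5, h6⟩
    refine ⟨h1 p, ?_, ?_, h3, ?_, h5, ?_⟩
    · intro i
      rw [Finset.disjoint_union_right]
      exact ⟨h1 _, h4 _ _ (Fin.succAbove_ne p i)⟩
    · intro j
      rw [Finset.disjoint_union_right]
      exact ⟨h2 _, (h6 p j).symm⟩
    · intro i i' hii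
      exact h4 _ _ fun h => hii (Fin.succAbove_right_injective h)
    · intro i j
      exact h6 _ _
  · rintro ⟨h0, h1, h2, h3, h4, h5, h6⟩
    refine ⟨?_, ?_, h3, ?_, h5, ?_⟩
    · rw [Fin.forall_iff_succAbove p]
      exact ⟨h0, fun i => (Finset.disjoint_union_right.1 (h1 i)).1⟩
    · intro j
      exact (Finset.disjoint_union_right.1 (h2 j)).1
    · rw [Fin.forall_iff_succAbove p]
      constructor
      · rw [Fin.forall_iff_succAbove p]
        exact ⟨fun h => absurd rfl h, fun i _ => ((Finset.disjoint_union_right.1 (h1 i)).2).symm⟩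
      · intro i
        rw [Fin.forall_iff_succAbove p]
        refine ⟨fun _ => (Finset.disjoint_union_right.1 (h1 i)).2, fun i' h => ?_⟩
        exact h4 i i' fun h' => h (by rw [h'])
    · rw [Fin.forall_iff_succAbove p]
      exact ⟨fun j => ((Finset.disjoint_union_right.1 (h2 j)).2).symm, fun i j => h6 i j⟩

theorem okE_F {u v : ℕ} (p : Fin (v + 1)) (z : Finset S.P)
    (w : (Fin u → Finset S.P) × (Fin (v + 1) → Finset F.Q.P)) :
    okE F z w ↔ (Disjoint (F.Q.shd (w.2 p)) z ∧ F.Q.Gd (w.2 p)) ∧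
      okE F (z ∪ F.Q.shd (w.2 p)) (w.1, fun i => w.2 (p.succAbove i)) := by
  unfold okE
  constructor
  · rintro ⟨h1, h2, h3, h4, h5, h6⟩
    refine ⟨⟨h2 p, h3 p⟩, ?_, ?_, fun j => h3 _, h4, ?_, ?_⟩
    · intro i
      rw [Finset.disjoint_union_right]
      exact ⟨h1 _, h6 i p⟩
    · intro j
      rw [Finset.disjoint_union_right]
      exact ⟨h2 _, h5 _ _ (Fin.succAbove_ne p j)⟩
    · intro i i' hii
      exact h5 _ _ fun h => hii (Fin.succAbove_right_injective h)
    · intro i j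
      exact h6 _ _
  · rintro ⟨⟨h0, h0'⟩, h1, h2, h3, h4, h5, h6⟩
    refine ⟨?_, ?_, ?_, h4, ?_, ?_⟩
    · intro i
      exact (Finset.disjoint_union_right.1 (h1 i)).1
    · rw [Fin.forall_iff_succAbove p]
      exact ⟨h0, fun i => (Finset.disjoint_union_right.1 (h2 i)).1⟩
    · rw [Fin.forall_iff_succAbove p]
      exact ⟨h0', h3⟩
    · rw [Fin.forall_iff_succAbove p]
      constructor
      · rw [Fin.forall_iff_succAbove p]
        exact ⟨fun h => absurd rfl h, fun i _ => ((Finset.disjoint_union_right.1 (h2 i)).2).symm⟩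
      · intro i
        rw [Fin.forall_iff_succAbove p]
        refine ⟨fun _ => (Finset.disjoint_union_right.1 (h2 i)).2, fun i' h => ?_⟩
        exact h5 i i' fun h' => h (by rw [h'])
    · intro i
      rw [Fin.forall_iff_succAbove p]
      exact ⟨(Finset.disjoint_union_right.1 (h1 i)).2, fun j => h6 i j⟩

theorem tE_k {u v : ℕ} (p : Fin (u + 1)) (y : Fin (u + 1) → El S) (Y : Fin v → El SF)
    (z : Finset S.P) (s : ℝ) (w : (Fin (u + 1) → Finset S.P) × (Fin v → Finset F.Q.P)) :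
    tE F y Y z s w = ck (y p) z s (w.1 p) *
      tE F (fun i => y (p.succAbove i)) Y (z ∪ w.1 p) s ((fun i => w.1 (p.succAbove i)), w.2) := by
  classical
  unfold tE ck
  by_cases h : okE F z w
  · have h' := (okE_k F p z w).1 h
    rw [if_pos h, if_pos h'.1, if_pos h'.2, Fin.prod_univ_succAbove _ p]
    ring
  · rw [if_neg h]
    by_cases h1 : Disjoint (w.1 p) z
    · rw [if_pos h1, if_neg fun h2 => h ((okE_k F p z w).2 ⟨h1, h2⟩), mul_zero]
    · rw [if_neg h1, zero_mul]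

theorem tE_F {u v : ℕ} (p : Fin (v + 1)) (y : Fin u → El S) (Y : Fin (v + 1) → El SF)
    (z : Finset S.P) (s : ℝ) (w : (Fin u → Finset S.P) × (Fin (v + 1) → Finset F.Q.P)) :
    tE F y Y z s w = cF F (Y p) z s (w.2 p) *
      tE F y (fun i => Y (p.succAbove i)) (z ∪ F.Q.shd (w.2 p)) s
        (w.1, fun i => w.2 (p.succAbove i)) := by
  classical
  unfold tE cF
  by_cases h : okE F z w
  · have h' := (okE_F F p z w).1 h
    rw [if_pos h, if_pos h'.1, if_pos h'.2, Fin.prod_univ_succAbove _ p]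
    ring
  · rw [if_neg h]
    by_cases h1 : Disjoint (F.Q.shd (w.2 p)) z ∧ F.Q.Gd (w.2 p)
    · rw [if_pos h1, if_neg fun h2 => h ((okE_F F p z w).2 ⟨h1, h2⟩), mul_zero]
    · rw [if_neg h1, zero_mul]

open Classical in
/-- the sum with prescribed values -/
noncomputable def PS {u v : ℕ} (f1 : Fin u → Option (Finset S.P))
    (f2 : Fin v → Option (Finset F.Q.P)) (y : Fin u → El S) (Y : Fin v → El SF)
    (z : Finset S.P) (s : ℝ) : ℝ :=
  ∑' w : (Fin u → Finset S.P) × (Fin v → Finset F.Q.P),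
    if Rx F f1 f2 w then tE F y Y z s w else 0

theorem PS_k {u v : ℕ} (p : Fin (u + 1)) (f1 : Fin (u + 1) → Option (Finset S.P))
    (f2 : Fin v → Option (Finset F.Q.P)) (y : Fin (u + 1) → El S) (Y : Fin v → El SF)
    (z : Finset S.P) (s : ℝ) (b : Finset S.P) (hb : f1 p = some b) :
    PS F f1 f2 y Y z s = ck (y p) z s b *
      PS F (fun i => f1 (p.succAbove i)) f2 (fun i => y (p.succAbove i)) Y (z ∪ b) s := by
  classical
  unfold PS
  rw [← tsum_mul_left]
  let ι : (Fin u → Finset S.P) × (Fin v → Finset F.Q.P) →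
      (Fin (u + 1) → Finset S.P) × (Fin v → Finset F.Q.P) :=
    fun w => (p.insertNth b w.1, w.2)
  have hι : Function.Injective ι := by
    intro w w' h
    have h1 : p.insertNth (α := fun _ => Finset S.P) b w.1 = p.insertNth b w'.1 :=
      (Prod.ext_iff.1 h).1
    have h2 : w.2 = w'.2 := (Prod.ext_iff.1 h).2
    refine Prod.ext ?_ h2
    exact (Fin.insertNth_right_injective (α := fun _ => Finset S.P) (p := p) b) h1
  rw [← hι.tsum_eq]
  · refine tsum_congr fun w => ?_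
    have e1 : (ι w).1 p = b := Fin.insertNth_apply_same (α := fun _ => Finset S.P) p b w.1
    have e2 : ∀ i, (ι w).1 (p.succAbove i) = w.1 i := fun i =>
      Fin.insertNth_apply_succAbove (α := fun _ => Finset S.P) p b w.1 i
    have hR : Rx F f1 f2 (ι w) ↔ Rx F (fun i => f1 (p.succAbove i)) f2 w := by
      unfold Rx
      constructor
      · rintro ⟨h1, h2⟩
        refine ⟨fun i c hc => ?_, h2⟩
        rw [← e2 i]
        exact h1 _ _ hc
      · rintro ⟨h1, h2⟩
        refine ⟨?_, h2⟩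
        rw [Fin.forall_iff_succAbove p]
        constructor
        · intro c hc
          rw [hb, Option.some.injEq] at hc
          rw [e1, hc]
        · intro i c hc
          rw [e2]
          exact h1 i c hc
    by_cases h : Rx F f1 f2 (ι w)
    · rw [if_pos h, if_pos (hR.1 h), tE_k F p, e1]
      congr 2
      · exact Prod.ext (funext e2) rfl
    · rw [if_neg h, if_neg fun h' => h (hR.2 h'), mul_zero]
  · intro w hw
    rw [Function.mem_support] at hw
    have h : Rx F f1 f2 w := by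
      by_contra h
      exact hw (if_neg h)
    refine ⟨((fun i => w.1 (p.succAbove i)), w.2), ?_⟩
    refine Prod.ext ?_ rfl
    have h1 := h.1 p b hb
    show p.insertNth (α := fun _ => Finset S.P) b (fun i => w.1 (p.succAbove i)) = w.1
    rw [← h1]
    exact Fin.insertNth_self_removeNth p w.1

theorem PS_F {u v : ℕ} (p : Fin (v + 1)) (f1 : Fin u → Option (Finset S.P))
    (f2 : Fin (v + 1) → Option (Finset F.Q.P)) (y : Fin u → El S) (Y : Fin (v + 1) → El SF)
    (z : Finset S.P) (s : ℝ) (b : Finset F.Q.P) (hb : f2 p = some b) :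
    PS F f1 f2 y Y z s = cF F (Y p) z s b *
      PS F f1 (fun i => f2 (p.succAbove i)) y (fun i => Y (p.succAbove i))
        (z ∪ F.Q.shd b) s := by
  classical
  unfold PS
  rw [← tsum_mul_left]
  let ι : (Fin u → Finset S.P) × (Fin v → Finset F.Q.P) →
      (Fin u → Finset S.P) × (Fin (v + 1) → Finset F.Q.P) :=
    fun w => (w.1, p.insertNth b w.2)
  have hι : Function.Injective ι := by
    intro w w' h
    have h1 : p.insertNth (α := fun _ => Finset F.Q.P) b w.2 = p.insertNth b w'.2 :=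
      (Prod.ext_iff.1 h).2
    have h2 : w.1 = w'.1 := (Prod.ext_iff.1 h).1
    refine Prod.ext h2 ?_
    exact (Fin.insertNth_right_injective (α := fun _ => Finset F.Q.P) (p := p) b) h1
  rw [← hι.tsum_eq]
  · refine tsum_congr fun w => ?_
    have e1 : (ι w).2 p = b := Fin.insertNth_apply_same (α := fun _ => Finset F.Q.P) p b w.2
    have e2 : ∀ i, (ι w).2 (p.succAbove i) = w.2 i := fun i =>
      Fin.insertNth_apply_succAbove (α := fun _ => Finset F.Q.P) p b w.2 i
    have hR : Rx F f1 f2 (ι w) ↔ Rx F f1 (fun i => f2 (p.succAbove i)) w := by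
      unfold Rx
      constructor
      · rintro ⟨h1, h2⟩
        refine ⟨h1, fun i c hc => ?_⟩
        rw [← e2 i]
        exact h2 _ _ hc
      · rintro ⟨h1, h2⟩
        refine ⟨h1, ?_⟩
        rw [Fin.forall_iff_succAbove p]
        constructor
        · intro c hc
          rw [hb, Option.some.injEq] at hc
          rw [e1, hc]
        · intro i c hc
          rw [e2]
          exact h2 i c hc
    by_cases h : Rx F f1 f2 (ι w)
    · rw [if_pos h, if_pos (hR.1 h), tE_F F p, e1]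
      congr 2
      · exact Prod.ext rfl (funext e2)
    · rw [if_neg h, if_neg fun h' => h (hR.2 h'), mul_zero]
  · intro w hw
    rw [Function.mem_support] at hw
    have h : Rx F f1 f2 w := by
      by_contra h
      exact hw (if_neg h)
    refine ⟨(w.1, fun i => w.2 (p.succAbove i)), ?_⟩
    refine Prod.ext rfl ?_
    have h1 := h.2 p b hb
    show p.insertNth (α := fun _ => Finset F.Q.P) b (fun i => w.2 (p.succAbove i)) = w.2
    rw [← h1]
    exact Fin.insertNth_self_removeNth p w.2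

open Classical in
theorem nfr_k {u v : ℕ} (p : Fin (u + 1)) (y : Fin (u + 1) → El S) (Y : Fin v → El SF) :
    nfr (fun i => y (p.succAbove i)) Y ≤ nfr y Y := by
  unfold nfr
  refine Nat.add_le_add_right ?_ _
  rw [← Finset.card_map (Fin.succAboveEmb p)]
  refine Finset.card_le_card fun i hi => ?_
  obtain ⟨k, hk, rfl⟩ := Finset.mem_map.1 hi
  rw [Finset.mem_filter] at hk ⊢
  exact ⟨Finset.mem_univ _, hk.2⟩

open Classical in
theorem nfr_F {u v : ℕ} (p : Fin (v + 1)) (y : Fin u → El S) (Y : Fin (v + 1) → El SF) :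
    nfr y (fun i => Y (p.succAbove i)) ≤ nfr y Y := by
  unfold nfr
  refine Nat.add_le_add_left ?_ _
  rw [← Finset.card_map (Fin.succAboveEmb p)]
  refine Finset.card_le_card fun i hi => ?_
  obtain ⟨k, hk, rfl⟩ := Finset.mem_map.1 hi
  rw [Finset.mem_filter] at hk ⊢
  exact ⟨Finset.mem_univ _, hk.2⟩

/-- the bound for the sums with prescribed values -/
theorem PS_bound (hE : SEB) (n : ℕ) : ∀ (N u v : ℕ), u + v = N → ∀
    (f1 : Fin u → Option (Finset S.P)) (f2 : Fin v → Option (Finset F.Q.P)) (y : Fin u → El S)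
    (Y : Fin v → El SF) (z : Finset S.P), (∀ i, (y i).2 ⊆ z) →
    (∀ j, (Y j).2 ⊆ z.biUnion F.up) → nfr y Y ≤ n → ∃ C : ℝ, ∀ σ : ℝ, 0 < σ → σ ≤ 1 →
      |PS F f1 f2 y Y z (1 + σ)| ≤ C * σ ^ (-(n : ℝ)) := by
  classical
  intro N
  induction N with
  | zero =>
    intro u v huv f1 f2 y Y z hy hY hn
    obtain ⟨C, hC⟩ := hE S SF F u v y Y z hy hY
    refine ⟨|C|, fun σ h0 h1 => ?_⟩
    have hu : u = 0 := by omega
    have hv : v = 0 := by omega
    subst hu hv
    have e : PS F f1 f2 y Y z (1 + σ) = ES F y Y z (1 + σ) := by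
      unfold PS ES
      refine tsum_congr fun w => if_pos ⟨fun i => i.elim0, fun i => i.elim0⟩
    rw [e]
    refine (hC σ h0 h1).trans ?_
    refine mul_le_mul (le_abs_self C) ?_ (Real.rpow_nonneg h0.le _) (abs_nonneg C)
    refine Real.rpow_le_rpow_of_exponent_ge h0 h1 ?_
    have : (nfr y Y : ℝ) ≤ n := by exact_mod_cast hn
    linarith
  | succ N ih =>
    intro u v huv f1 f2 y Y z hy hY hn
    by_cases h1 : ∃ p b, f1 p = some b
    · obtain ⟨p, b, hb⟩ := h1
      obtain ⟨u', rfl⟩ : ∃ u', u = u' + 1 := by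
        cases u with
        | zero => exact p.elim0
        | succ u' => exact ⟨u', rfl⟩
      obtain ⟨C, hC⟩ := ih u' v (by omega) (fun i => f1 (p.succAbove i)) f2
        (fun i => y (p.succAbove i)) Y (z ∪ b)
        (fun i => (hy _).trans Finset.subset_union_left)
        (fun j => (hY j).trans (Finset.biUnion_subset_biUnion_of_subset_left _
          Finset.subset_union_left)) ((nfr_k p y Y).trans hn)
      refine ⟨C, fun σ h0 h1 => ?_⟩
      rw [PS_k F p f1 f2 y Y z _ b hb, abs_mul]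
      exact (mul_le_of_le_one_left (abs_nonneg _) (abs_ck _ _ (by linarith) _)).trans
        (hC σ h0 h1)
    by_cases h2 : ∃ p b, f2 p = some b
    · obtain ⟨p, b, hb⟩ := h2
      obtain ⟨v', rfl⟩ : ∃ v', v = v' + 1 := by
        cases v with
        | zero => exact p.elim0
        | succ v' => exact ⟨v', rfl⟩
      obtain ⟨C, hC⟩ := ih u v' (by omega) f1 (fun i => f2 (p.succAbove i)) y
        (fun i => Y (p.succAbove i)) (z ∪ F.Q.shd b)
        (fun i => (hy _).trans Finset.subset_union_left)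
        (fun j => (hY _).trans (Finset.biUnion_subset_biUnion_of_subset_left _
          Finset.subset_union_left)) ((nfr_F p y Y).trans hn)
      refine ⟨C, fun σ h0 h1 => ?_⟩
      rw [PS_F F p f1 f2 y Y z _ b hb, abs_mul]
      exact (mul_le_of_le_one_left (abs_nonneg _) (abs_cF F _ _ (by linarith) _)).trans
        (hC σ h0 h1)
    obtain ⟨C, hC⟩ := hE S SF F u v y Y z hy hY
    refine ⟨|C|, fun σ h0 h3 => ?_⟩
    have e : PS F f1 f2 y Y z (1 + σ) = ES F y Y z (1 + σ) := by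
      unfold PS ES
      refine tsum_congr fun w => if_pos ⟨fun i b hb => ?_, fun i b hb => ?_⟩
      · exact absurd ⟨i, b, hb⟩ h1
      · exact absurd ⟨i, b, hb⟩ h2
    rw [e]
    refine (hC σ h0 h3).trans ?_
    refine mul_le_mul (le_abs_self C) ?_ (Real.rpow_nonneg h0.le _) (abs_nonneg C)
    refine Real.rpow_le_rpow_of_exponent_ge h0 h3 ?_
    have : (nfr y Y : ℝ) ≤ n := by exact_mod_cast hn
    linarith

/-! ### the Fourier expansion -/

/-- the Fourier coefficients -/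
noncomputable def fc (f : S.T → ℝ) (φ : S.T) : ℝ :=
  (1 / 2 ^ S.m) * ∑ l : S.T, f l * ((sg (φ ⬝ᵥ l) : ℤ) : ℝ)

theorem fc_inv (f : S.T → ℝ) (t : S.T) : f t = ∑ φ : S.T, fc f φ * ((sg (φ ⬝ᵥ t) : ℤ) : ℝ) := by
  classical
  unfold fc
  have h1 : ∀ l : S.T, ∑ φ : S.T, ((sg (φ ⬝ᵥ l) : ℤ) : ℝ) * ((sg (φ ⬝ᵥ t) : ℤ) : ℝ) =
      if l = t then 2 ^ S.m else 0 := by
    intro l
    have h2 := cls_sum_T (l + t)
    have h3 : (∑ φ : S.T, ((sg (φ ⬝ᵥ l) : ℤ) : ℝ) * ((sg (φ ⬝ᵥ t) : ℤ) : ℝ)) =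
        ((∑ φ : S.T, sg (φ ⬝ᵥ (l + t)) : ℤ) : ℝ) := by
      push_cast
      refine Finset.sum_congr rfl fun φ _ => ?_
      rw [dotProduct_add, sg_add, Int.cast_mul]
    rw [h3, h2]
    by_cases h : l = t
    · subst h
      have h5 : l + l = 0 := funext fun i => CharTwo.add_self_eq_zero (l i)
      rw [if_pos rfl, if_pos h5]
      push_cast
      rfl
    · rw [if_neg h, if_neg, Int.cast_zero]
      intro h4
      exact h (funext fun i => CharTwo.add_eq_zero.1 (congrFun h4 i))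
  have h2 : ∑ φ : S.T, (1 / 2 ^ S.m) * (∑ l : S.T, f l * ((sg (φ ⬝ᵥ l) : ℤ) : ℝ)) *
      ((sg (φ ⬝ᵥ t) : ℤ) : ℝ) = (1 / 2 ^ S.m) * ∑ l : S.T, f l *
        ∑ φ : S.T, ((sg (φ ⬝ᵥ l) : ℤ) : ℝ) * ((sg (φ ⬝ᵥ t) : ℤ) : ℝ) := by
    simp only [Finset.mul_sum, Finset.sum_mul]
    rw [Finset.sum_comm]
    refine Finset.sum_congr rfl fun l _ => Finset.sum_congr rfl fun φ _ => ?_
    ring
  rw [h2]
  simp only [h1]
  rw [Finset.sum_eq_single t (fun l _ hl => by rw [if_neg hl, mul_zero])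
    (fun h => absurd (Finset.mem_univ t) h), if_pos rfl]
  have : (2 : ℝ) ^ S.m ≠ 0 := by positivity
  field_simp

theorem abs_fc {f : S.T → ℝ} (hf : ∀ l, |f l| ≤ 1) (φ : S.T) : |fc f φ| ≤ 1 := by
  unfold fc
  have hc : Fintype.card S.T = 2 ^ S.m := by
    show Fintype.card (Fin S.m → ZMod 2) = _
    rw [Fintype.card_fun, ZMod.card, Fintype.card_fin]
  have h1 : |∑ l : S.T, f l * ((sg (φ ⬝ᵥ l) : ℤ) : ℝ)| ≤ 2 ^ S.m := by
    refine (Finset.abs_sum_le_sum_abs _ _).trans ?_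
    refine (Finset.sum_le_sum (g := fun _ => (1 : ℝ)) fun l _ => ?_).trans ?_
    · rw [abs_mul, abs_sgr, mul_one]
      exact hf l
    · rw [Finset.sum_const, Finset.card_univ, hc, nsmul_eq_mul, mul_one]
      push_cast
      exact le_refl _
  have h2 : (0 : ℝ) < 2 ^ S.m := by positivity
  rw [abs_mul, abs_of_pos (by positivity : (0 : ℝ) < 1 / 2 ^ S.m)]
  calc 1 / 2 ^ S.m * |∑ l : S.T, f l * ((sg (φ ⬝ᵥ l) : ℤ) : ℝ)| ≤ 1 / 2 ^ S.m * 2 ^ S.m :=
        mul_le_mul_of_nonneg_left h1 (by positivity)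
    _ = 1 := by field_simp

/-! ### the characters -/

theorem two_zero : (2 : ZMod 2) = 0 := rfl

theorem recip' {x y : Finset S.P} (h : Disjoint x y) :
    S.JJ y x = S.JJ x y + (S.l ⬝ᵥ S.tys x) * (S.l ⬝ᵥ S.tys y) := by
  have h1 := S.JJ_recip h
  linear_combination h1 - S.JJ x y * two_zero

/-- the modified unit part -/
noncomputable def cc (g1 : Finset F.Q.P) (φ : S.T) : S.T := φ + (S.l ⬝ᵥ S.tys (F.Q.shd g1)) • S.l

theorem cc_dot (g1 : Finset F.Q.P) (φ t : S.T) :
    cc F g1 φ ⬝ᵥ t = φ ⬝ᵥ t + (S.l ⬝ᵥ S.tys (F.Q.shd g1)) * (S.l ⬝ᵥ t) := by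
  unfold cc
  rw [add_dotProduct, smul_dotProduct, smul_eq_mul]

theorem io_disj {x y : Finset F.Q.P} (h : Disjoint (F.Q.shd x) (F.Q.shd y)) :
    Disjoint (x.image F.io) (y.image F.io) := by
  rw [Finset.disjoint_left]
  intro P hP hP'
  obtain ⟨a, ha, rfl⟩ := Finset.mem_image.1 hP
  obtain ⟨b, hb, hab⟩ := Finset.mem_image.1 hP'
  have := F.io_inj hab
  subst this
  exact Finset.disjoint_left.1 h (Finset.mem_image_of_mem _ ha) (Finset.mem_image_of_mem _ hb)

theorem shd_cj (x : Finset F.Q.P) : F.Q.shd (x.image F.Q.cj) = F.Q.shd x := by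
  unfold Qd.shd
  rw [Finset.image_image]
  refine Finset.image_congr fun a _ => ?_
  exact F.Q.sh_cj a

theorem M_not (p : S.P) : p ∉ F.Q.M := by
  rw [F.M_eq]
  exact Finset.notMem_empty p

theorem nu_two (γ : F.Q.G) : (F.Q.nu γ).2 = ∅ := by
  have := F.Q.nu_sub γ
  rw [F.M_eq] at this
  exact Finset.subset_empty.1 this

theorem mem_B (a : SF.T) {g : Finset F.Q.P} (hg : F.Q.Gd g) : F.el a g ∈ F.Q.B g := by
  rw [F.B_eq g hg]
  exact Finset.mem_image_of_mem _ (Finset.mem_univ _)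

/-- the character of `q12` -/
theorem ch12 (a : SF.T) {g : Finset F.Q.P} (hg : F.Q.Gd g) {x : Finset S.P}
    (hx : Disjoint x (F.Q.shd g)) :
    SF.JJ (x.biUnion F.up) (g.image F.io) + a ⬝ᵥ SF.tys (x.biUnion F.up) =
      S.JJ x (F.Q.shd g) + (F.Q.nu (F.el a g)).1 ⬝ᵥ S.tys x := by
  rw [← SF.sum_ex, ← S.sum_ex, Finset.sum_biUnion]
  · refine Finset.sum_congr rfl fun p hp => ?_
    have hp' : p ∉ F.Q.shd g := Finset.disjoint_left.1 hx hp
    rw [← F.ns_el a g p hg hp', F.law.ns_eq g hg _ (mem_B F a hg) p (M_not F p) hp', nu_two,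
      Finset.union_empty]
  · intro p _ p' _ hpp
    show Disjoint (F.up p) (F.up p')
    rw [Finset.disjoint_left]
    intro P h1 h2
    exact hpp (F.up_d P p p' h1 h2)

/-- the character of `qq`, part over `k` -/
theorem chqq (e : El S) {x : Finset F.Q.P} (hx : F.Q.Gd x) (hd : Disjoint (F.Q.shd x) e.2) :
    S.JJ (F.Q.shd x) e.2 + e.1 ⬝ᵥ S.tys (F.Q.shd x) =
      SF.JJ (x.image F.io) (e.2.biUnion F.up) + F.em e ⬝ᵥ SF.tys (x.image F.io) := by
  rw [← SF.sum_ex, ← S.sum_ex]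
  unfold Qd.shd
  rw [Finset.sum_image (fun a ha b hb h => hx a ha b hb h),
    Finset.sum_image (fun a _ b _ h => F.io_inj h)]
  refine Finset.sum_congr rfl fun b hb => ?_
  exact F.em_s e b (Finset.disjoint_left.1 hd (Finset.mem_image_of_mem _ hb))

/-- the primes above the shadow -/
theorem up_shd (g1 : Finset F.Q.P) :
    (F.Q.shd g1).biUnion F.up = g1.image F.io ∪ (g1.image F.Q.cj).image F.io := by
  ext P
  rw [Finset.mem_biUnion, Finset.mem_union, Finset.mem_image, Finset.mem_image]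
  constructor
  · rintro ⟨p, hp, hP⟩
    obtain ⟨a, ha, rfl⟩ := Finset.mem_image.1 hp
    rw [F.up_s, Finset.mem_insert, Finset.mem_singleton] at hP
    rcases hP with h | h
    · exact Or.inl ⟨a, ha, h.symm⟩
    · exact Or.inr ⟨F.Q.cj a, Finset.mem_image_of_mem _ ha, h.symm⟩
  · rintro (⟨a, ha, rfl⟩ | ⟨c, hc, rfl⟩)
    · refine ⟨F.Q.sh a, Finset.mem_image_of_mem _ ha, ?_⟩
      rw [F.up_s]
      exact Finset.mem_insert_self _ _
    · obtain ⟨a, ha, rfl⟩ := Finset.mem_image.1 hc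
      refine ⟨F.Q.sh a, Finset.mem_image_of_mem _ ha, ?_⟩
      rw [F.up_s]
      exact Finset.mem_insert_of_mem (Finset.mem_singleton_self _)

theorem cj_disj {g1 : Finset F.Q.P} (h1 : F.Q.Gd g1) :
    Disjoint (g1.image F.io) ((g1.image F.Q.cj).image F.io) := by
  rw [Finset.disjoint_left]
  intro P hP hP'
  obtain ⟨a, ha, rfl⟩ := Finset.mem_image.1 hP
  obtain ⟨c, hc, hca⟩ := Finset.mem_image.1 hP'
  obtain ⟨b, hb, rfl⟩ := Finset.mem_image.1 hc
  have h2 : F.Q.cj b = a := F.io_inj hca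
  have h3 : F.Q.sh a = F.Q.sh b := by rw [← h2, F.Q.sh_cj]
  have h4 := h1 a ha b hb h3
  subst h4
  exact F.Q.cj_ne _ h2

/-- the primes of the character of `qq` -/
noncomputable def yq (g0 g1 : Finset F.Q.P) : Finset SF.P :=
  g0.image F.io ∪ (g1.image F.Q.cj).image F.io

/-- the whole character of `qq` -/
theorem chq {g0 g1 x : Finset F.Q.P} (h1 : F.Q.Gd g1) (hx : F.Q.Gd x)
    (h01 : Disjoint (F.Q.shd g0) (F.Q.shd g1)) (hx1 : Disjoint (F.Q.shd x) (F.Q.shd g1))
    (a : SF.T) (φ : S.T) :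
    SF.JJ (x.image F.io) (g0.image F.io) + SF.JJ (x.image F.io) (g1.image F.io) +
      a ⬝ᵥ SF.tys (x.image F.io) + S.JJ (F.Q.shd g1) (F.Q.shd x) + φ ⬝ᵥ S.tys (F.Q.shd x) =
    SF.JJ (x.image F.io) (yq F g0 g1) +
      (a + F.em (cc F g1 φ, F.Q.shd g1)) ⬝ᵥ SF.tys (x.image F.io) := by
  have e1 := recip' hx1
  have e2 := chqq F (cc F g1 φ, F.Q.shd g1) hx hx1
  have e3 := cc_dot F g1 φ (S.tys (F.Q.shd x))
  have e4 : SF.JJ (x.image F.io) ((F.Q.shd g1).biUnion F.up) =
      SF.JJ (x.image F.io) (g1.image F.io) +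
        SF.JJ (x.image F.io) ((g1.image F.Q.cj).image F.io) := by
    rw [up_shd, SF.JJ_union_right _ (cj_disj F h1)]
  have e5 : SF.JJ (x.image F.io) (yq F g0 g1) = SF.JJ (x.image F.io) (g0.image F.io) +
      SF.JJ (x.image F.io) ((g1.image F.Q.cj).image F.io) := by
    unfold yq
    refine SF.JJ_union_right _ (io_disj F ?_)
    rw [shd_cj]
    exact h01
  rw [add_dotProduct, e5, e1]
  dsimp only at e2
  rw [e3, e4] at e2
  linear_combination e2 + SF.JJ (x.image F.io) (g1.image F.io) * two_zero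

/-- the characters over `k` -/
noncomputable def yk (g0 g1 : Finset F.Q.P) (a : SF.T) (φ : S.T) : Fin 2 → El S :=
  ![(cc F g1 φ, F.Q.shd g1), (cc F g1 φ + (F.Q.nu (F.el a (g0 ∪ g1))).1, F.Q.shd g0)]

/-- the character over `F` -/
noncomputable def yF (g0 g1 : Finset F.Q.P) (a : SF.T) (φ : S.T) : Fin 1 → El SF :=
  ![(a + F.em (cc F g1 φ, F.Q.shd g1), yq F g0 g1)]

/-- the sign of a term -/
theorem sign (hL : SLE) (x : Cf F.Q) (hx : x.Ok) (a : SF.T) (c φ : S.T) :
    x.E (F.el a x.g) (c, ∅) + φ ⬝ᵥ S.tys x.q =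
      (F.cd ⬝ᵥ SF.tys (x.g1.image F.io) + c ⬝ᵥ S.tys (F.Q.shd x.g1)) +
      (S.JJ x.q0 (yk F x.g0 x.g1 a φ 0).2 + (yk F x.g0 x.g1 a φ 0).1 ⬝ᵥ S.tys x.q0) +
      (S.JJ x.q12 (yk F x.g0 x.g1 a φ 1).2 + (yk F x.g0 x.g1 a φ 1).1 ⬝ᵥ S.tys x.q12) +
      (SF.JJ (x.qq.image F.io) (yF F x.g0 x.g1 a φ 0).2 +
        (yF F x.g0 x.g1 a φ 0).1 ⬝ᵥ SF.tys (x.qq.image F.io)) := by
  have d01 : Disjoint x.q0 x.q12 := hx.dj 0 1 (by decide)
  have d02 : Disjoint x.q0 (F.Q.shd x.qq) := hx.dj 0 2 (by decide)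
  have d12 : Disjoint x.q12 (F.Q.shd x.qq) := hx.dj 1 2 (by decide)
  have d04 : Disjoint x.q0 (F.Q.shd x.g1) := hx.dj 0 4 (by decide)
  have d13 : Disjoint x.q12 (F.Q.shd x.g0) := hx.dj 1 3 (by decide)
  have d14 : Disjoint x.q12 (F.Q.shd x.g1) := hx.dj 1 4 (by decide)
  have d24 : Disjoint (F.Q.shd x.qq) (F.Q.shd x.g1) := hx.dj 2 4 (by decide)
  have d34 : Disjoint (F.Q.shd x.g0) (F.Q.shd x.g1) := hx.dj 3 4 (by decide)
  have hsh : F.Q.shd x.g = F.Q.shd x.g0 ∪ F.Q.shd x.g1 := by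
    unfold Cf.g Qd.shd
    exact Finset.image_union _ _
  have hg : F.Q.Gd x.g := by
    intro p hp q hq hpq
    unfold Cf.g at hp hq
    rw [Finset.mem_union] at hp hq
    rcases hp with hp | hp <;> rcases hq with hq | hq
    · exact hx.gg0 p hp q hq hpq
    · exact absurd (Finset.mem_image_of_mem F.Q.sh hq)
        (Finset.disjoint_left.1 d34 (hpq ▸ Finset.mem_image_of_mem F.Q.sh hp))
    · exact absurd (Finset.mem_image_of_mem F.Q.sh hp)
        (Finset.disjoint_left.1 d34 (hpq ▸ Finset.mem_image_of_mem F.Q.sh hq))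
    · exact hx.gg1 p hp q hq hpq
  have e0 := hL S SF F x a c hx
  have e1 := ch12 F a hg (x := x.q12) (by
    rw [hsh, Finset.disjoint_union_right]
    exact ⟨d13, d14⟩)
  have e2 := chq F (g0 := x.g0) hx.gg1 hx.gqq d34 d24 a φ
  have e3 : x.g.image F.io = x.g0.image F.io ∪ x.g1.image F.io := by
    unfold Cf.g
    exact Finset.image_union _ _
  have e4 : S.tys x.q = S.tys x.q0 + S.tys x.q12 + S.tys (F.Q.shd x.qq) := by
    unfold Cf.q
    rw [S.tys_union, S.tys_union d01]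
    rw [Finset.disjoint_union_left]
    exact ⟨d02, d12⟩
  have e5 := recip' d04
  have e6 := recip' d14
  have e7 := cc_dot F x.g1 φ (S.tys x.q0)
  have e8 := cc_dot F x.g1 φ (S.tys x.q12)
  rw [e3, SF.JJ_union_right _ (io_disj F d34), hsh, S.JJ_union_right _ d34] at e1
  rw [e0, e4, dotProduct_add, dotProduct_add]
  simp only [yk, yF, Matrix.cons_val_zero, Matrix.cons_val_one, Matrix.cons_val_fin_one]
  rw [add_dotProduct (cc F x.g1 φ), e7, e8, e5, e6]
  have e9 : F.Q.nu (F.el a (x.g0 ∪ x.g1)) = F.Q.nu (F.el a x.g) := rfl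
  rw [e9]
  linear_combination e1 + e2 + S.JJ x.q12 (F.Q.shd x.g1) * two_zero

/-! ### trivial characters -/

/-- the classes excluded by `thc` -/
def Exc (g : Finset F.Q.P) (a : SF.T) : Prop :=
  (∃ a', F.el a g = F.el a' ∅) ∧ F.Q.nu (F.el a g) = (0, ∅)

theorem gd_empty : F.Q.Gd ∅ := fun a ha => absurd ha (Finset.notMem_empty a)

theorem shd_empty : F.Q.shd (∅ : Finset F.Q.P) = ∅ := by
  unfold Qd.shd
  exact Finset.image_empty _

theorem shd_eq_empty {g : Finset F.Q.P} (h : F.Q.shd g = ∅) : g = ∅ := by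
  unfold Qd.shd at h
  exact Finset.image_eq_empty.1 h

theorem exc_of {g : Finset F.Q.P} (hg : g = ∅) (a : SF.T)
    (h : (F.Q.nu (F.el a g)).1 = 0) : Exc F g a := by
  subst hg
  exact ⟨⟨a, rfl⟩, Prod.ext h (nu_two F _)⟩

/-- the norm of a unit from `k` -/
theorem nu_em (t : S.T) (a : SF.T) (ha : a = F.em (t, ∅)) : (F.Q.nu (F.el a ∅)).1 = 0 := by
  have hG := gd_empty F
  have hs := shd_empty F
  refine nd_k S _ fun p => ?_
  have hp : p ∉ F.Q.shd ∅ := by
    rw [hs]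
    exact Finset.notMem_empty p
  have h3 := F.law.ns_eq ∅ hG _ (mem_B F a hG) p (M_not F p) hp
  rw [F.ns_el a ∅ p hG hp, nu_two, hs, Finset.image_empty, Finset.union_empty] at h3
  have h4 : S.ex ∅ (F.Q.nu (F.el a ∅)).1 p = (F.Q.nu (F.el a ∅)).1 ⬝ᵥ S.ty p := by
    unfold Sys.ex
    rw [Finset.sum_empty, zero_add]
  rw [h4] at h3
  rw [← h3, ha]
  by_cases h : ∃ b, F.Q.sh b = p
  · obtain ⟨b, rfl⟩ := h
    have h5 := F.em_s (t, ∅) b (Finset.notMem_empty _)
    have h6 := F.em_s (t, ∅) (F.Q.cj b) (Finset.notMem_empty _)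
    rw [Finset.biUnion_empty] at h5 h6
    rw [F.Q.sh_cj] at h6
    have hne : F.io b ≠ F.io (F.Q.cj b) := fun h7 => F.Q.cj_ne b (F.io_inj h7).symm
    rw [F.up_s, Finset.sum_pair hne, ← h5, ← h6]
    exact CharTwo.add_self_eq_zero _
  · push Not at h
    obtain ⟨P, hP, -⟩ := F.up_i p h
    have h5 := F.em_i (t, ∅) p P h (Finset.notMem_empty _) (by
      rw [hP]
      exact Finset.mem_singleton_self _)
    rw [Finset.biUnion_empty] at h5
    rw [hP, Finset.sum_singleton, h5]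

open Classical in
/-- at most one trivial character -/
theorem nfr_le (g0 g1 : Finset F.Q.P) (a : SF.T) (φ : S.T) (h : ¬ Exc F (g0 ∪ g1) a) :
    nfr (yk F g0 g1 a φ) (yF F g0 g1 a φ) ≤ 1 := by
  have h1 : yF F g0 g1 a φ 0 ≠ (0, ∅) := by
    intro h2
    apply h
    simp only [yF, Matrix.cons_val_fin_one, Prod.mk.injEq] at h2
    obtain ⟨h3, h4⟩ := h2
    unfold yq at h4
    rw [Finset.union_eq_empty, Finset.image_eq_empty, Finset.image_eq_empty,
      Finset.image_eq_empty] at h4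
    obtain ⟨rfl, rfl⟩ := h4
    refine exc_of F (Finset.union_empty _) a ?_
    rw [shd_empty] at h3
    rw [Finset.union_empty]
    refine nu_em F (cc F ∅ φ) a ?_
    funext i
    exact CharTwo.add_eq_zero.1 (congrFun h3 i)
  have h2 : ¬ (yk F g0 g1 a φ 0 = (0, ∅) ∧ yk F g0 g1 a φ 1 = (0, ∅)) := by
    rintro ⟨h3, h4⟩
    apply h
    simp only [yk, Matrix.cons_val_zero, Matrix.cons_val_one, Matrix.cons_val_fin_one,
      Prod.mk.injEq] at h3 h4
    obtain ⟨h5, h6⟩ := h3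
    obtain ⟨h7, h8⟩ := h4
    rw [h5, zero_add] at h7
    refine exc_of F ?_ a h7
    rw [shd_eq_empty F h6, shd_eq_empty F h8, Finset.union_empty]
  unfold nfr
  have h3 : (Finset.univ.filter fun j => yF F g0 g1 a φ j = (0, ∅)) = ∅ := by
    rw [Finset.filter_eq_empty_iff]
    intro j _
    have : j = 0 := Subsingleton.elim _ _
    rw [this]
    exact h1
  rw [h3, Finset.card_empty, add_zero, Finset.card_le_one]
  intro i hi j hj
  rw [Finset.mem_filter] at hi hj
  by_contra hij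
  apply h2
  have hi' : i = 0 ∨ i = 1 := by
    fin_cases i
    · exact Or.inl rfl
    · exact Or.inr rfl
  have hj' : j = 0 ∨ j = 1 := by
    fin_cases j
    · exact Or.inl rfl
    · exact Or.inr rfl
  rcases hi' with rfl | rfl <;> rcases hj' with rfl | rfl
  · exact absurd rfl hij
  · exact ⟨hi.2, hj.2⟩
  · exact ⟨hj.2, hi.2⟩
  · exact absurd rfl hij

/-! ### the reduction -/

/-- the configuration of a tuple -/
def mk (g0 g1 : Finset F.Q.P) (w : (Fin 2 → Finset S.P) × (Fin 1 → Finset F.Q.P)) : Cf F.Q :=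
  ⟨w.1 0, w.1 1, w.2 0, g0, g1⟩

theorem mk_inj (g0 g1 : Finset F.Q.P) : Function.Injective (mk F g0 g1) := by
  intro w w' h
  unfold mk at h
  rw [Cf.mk.injEq] at h
  obtain ⟨h1, h2, h3, -, -⟩ := h
  refine Prod.ext ?_ ?_
  · funext i
    fin_cases i
    · exact h1
    · exact h2
  · funext i
    fin_cases i
    exact h3

theorem mk_ok {g0 g1 : Finset F.Q.P} (h0 : F.Q.Gd g0) (h1 : F.Q.Gd g1)
    (h01 : Disjoint (F.Q.shd g0) (F.Q.shd g1))
    (w : (Fin 2 → Finset S.P) × (Fin 1 → Finset F.Q.P)) :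
    (mk F g0 g1 w).Ok ↔ okE F (F.Q.shd g0 ∪ F.Q.shd g1) w := by
  constructor
  · intro h
    have d01 : Disjoint (w.1 0) (w.1 1) := h.dj 0 1 (by decide)
    have d02 : Disjoint (w.1 0) (F.Q.shd (w.2 0)) := h.dj 0 2 (by decide)
    have d12 : Disjoint (w.1 1) (F.Q.shd (w.2 0)) := h.dj 1 2 (by decide)
    have d03 : Disjoint (w.1 0) (F.Q.shd g0) := h.dj 0 3 (by decide)
    have d04 : Disjoint (w.1 0) (F.Q.shd g1) := h.dj 0 4 (by decide)
    have d13 : Disjoint (w.1 1) (F.Q.shd g0) := h.dj 1 3 (by decide)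
    have d14 : Disjoint (w.1 1) (F.Q.shd g1) := h.dj 1 4 (by decide)
    have d23 : Disjoint (F.Q.shd (w.2 0)) (F.Q.shd g0) := h.dj 2 3 (by decide)
    have d24 : Disjoint (F.Q.shd (w.2 0)) (F.Q.shd g1) := h.dj 2 4 (by decide)
    have hq : F.Q.Gd (w.2 0) := h.gqq
    refine ⟨?_, ?_, ?_, ?_, ?_, ?_⟩
    · intro i
      rw [Finset.disjoint_union_right]
      fin_cases i
      · exact ⟨d03, d04⟩
      · exact ⟨d13, d14⟩
    · intro j
      rw [Finset.disjoint_union_right]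
      fin_cases j
      exact ⟨d23, d24⟩
    · intro j
      fin_cases j
      exact hq
    · intro i i' hii
      fin_cases i <;> fin_cases i'
      · exact absurd rfl hii
      · exact d01
      · exact d01.symm
      · exact absurd rfl hii
    · intro j j' hjj
      exact absurd (Subsingleton.elim _ _) hjj
    · intro i j
      fin_cases j
      fin_cases i
      · exact d02
      · exact d12
  · rintro ⟨a1, a2, a3, a4, a5, a6⟩
    have b0 := Finset.disjoint_union_right.1 (a1 0)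
    have b1 := Finset.disjoint_union_right.1 (a1 1)
    have b2 := Finset.disjoint_union_right.1 (a2 0)
    have d01 := a4 0 1 (by decide)
    have d02 := a6 0 0
    have d12 := a6 1 0
    refine ⟨?_, ?_, a3 0, h0, h1⟩
    · have key : ∀ i j : Fin 5, i < j → Disjoint ((mk F g0 g1 w).sd i) ((mk F g0 g1 w).sd j) := by
        intro i j hij
        fin_cases i <;> fin_cases j <;> first | exact absurd hij (by decide) | skip
        · exact d01
        · exact d02
        · exact b0.1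
        · exact b0.2
        · exact d12
        · exact b1.1
        · exact b1.2
        · exact b2.1
        · exact b2.2
        · exact h01
      intro i j hij
      rcases lt_or_gt_of_ne hij with h | h
      · exact key i j h
      · exact (key j i h).symm
    · intro i
      rw [F.M_eq]
      exact Finset.disjoint_empty_right _

open Classical in
/-- the prescribed values over `k` -/
noncomputable def v1 (A : Finset (Fin 5)) (b : Cf F.Q) : Fin 2 → Option (Finset S.P) :=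
  ![if 0 ∈ A then none else some b.q0, if 1 ∈ A then none else some b.q12]

open Classical in
/-- the prescribed values over `F` -/
noncomputable def v2 (A : Finset (Fin 5)) (b : Cf F.Q) : Fin 1 → Option (Finset F.Q.P) :=
  ![if 2 ∈ A then none else some b.qq]

theorem ag_iff (A : Finset (Fin 5)) (b : Cf F.Q)
    (w : (Fin 2 → Finset S.P) × (Fin 1 → Finset F.Q.P)) :
    Ag F A b (mk F b.g0 b.g1 w) ↔ Rx F (v1 F A b) (v2 F A b) w := by
  classical
  unfold Ag Rx v1 v2 mk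
  constructor
  · rintro ⟨a0, a1, a2, -, -⟩
    constructor
    · intro i c hc
      fin_cases i
      · by_cases h : 0 ∈ A
        · exact absurd hc (by simp [h])
        · have : some b.q0 = some c := by simpa [h] using hc
          rw [← Option.some.inj this]
          exact a0 h
      · by_cases h : 1 ∈ A
        · exact absurd hc (by simp [h])
        · have : some b.q12 = some c := by simpa [h] using hc
          rw [← Option.some.inj this]
          exact a1 h
    · intro i c hc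
      fin_cases i
      by_cases h : 2 ∈ A
      · exact absurd hc (by simp [h])
      · have : some b.qq = some c := by simpa [h] using hc
        rw [← Option.some.inj this]
        exact a2 h
  · rintro ⟨h1, h2⟩
    refine ⟨fun h => h1 0 _ (by simp [h]), fun h => h1 1 _ (by simp [h]),
      fun h => h2 0 _ (by simp [h]), fun _ => rfl, fun _ => rfl⟩

open Classical in
/-- the coefficients -/
noncomputable def kf (θ : SF.T → SF.T → S.T → S.T → ℝ) (g0 g1 : Finset F.Q.P) (s : ℝ)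
    (t : SF.T × S.T × S.T) : ℝ :=
  (if Exc F (g0 ∪ g1) t.1 then 0
    else fc (θ t.1 (SF.tys ((g0 ∪ g1).image F.io)) t.2.1) t.2.2) *
  ((sg (F.cd ⬝ᵥ SF.tys (g1.image F.io) + t.2.1 ⬝ᵥ S.tys (F.Q.shd g1)) : ℤ) : ℝ) *
    (pw s (F.Q.shd g0) * pw s (F.Q.shd g1))

theorem abs_kf {θ : SF.T → SF.T → S.T → S.T → ℝ} (hθ : Bdd4 θ) (g0 g1 : Finset F.Q.P) {s : ℝ}
    (hs : 0 ≤ s) (t : SF.T × S.T × S.T) : |kf F θ g0 g1 s t| ≤ 1 := by
  classical
  unfold kf
  rw [abs_mul, abs_mul, abs_sgr, mul_one, abs_mul, abs_of_nonneg (pw_nonneg s _),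
    abs_of_nonneg (pw_nonneg s _)]
  have h1 : pw s (F.Q.shd g0) * pw s (F.Q.shd g1) ≤ 1 :=
    mul_le_one₀ (pw_le_one hs _) (pw_nonneg s _) (pw_le_one hs _)
  have h0 : 0 ≤ pw s (F.Q.shd g0) * pw s (F.Q.shd g1) :=
    mul_nonneg (pw_nonneg s _) (pw_nonneg s _)
  refine mul_le_one₀ ?_ h0 h1
  split_ifs
  · rw [abs_zero]
    exact zero_le_one
  · exact abs_fc (fun l => hθ _ _ _ _) _

theorem tm_eq (hL : SLE) (θ : SF.T → SF.T → S.T → S.T → ℝ) {g0 g1 : Finset F.Q.P}
    (h0 : F.Q.Gd g0) (h1 : F.Q.Gd g1) (h01 : Disjoint (F.Q.shd g0) (F.Q.shd g1)) (s : ℝ)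
    (w : (Fin 2 → Finset S.P) × (Fin 1 → Finset F.Q.P)) :
    (Wp F.Q s).val (mk F g0 g1 w) * (mk F g0 g1 w).tm (thc F θ) =
      ∑ t : SF.T × S.T × S.T, kf F θ g0 g1 s t *
        tE F (yk F g0 g1 t.1 t.2.2) (yF F g0 g1 t.1 t.2.2) (F.Q.shd g0 ∪ F.Q.shd g1) s w := by
  classical
  by_cases hok : (mk F g0 g1 w).Ok
  swap
  · have hok' : ¬ okE F (F.Q.shd g0 ∪ F.Q.shd g1) w := fun h => hok ((mk_ok F h0 h1 h01 w).2 h)
    unfold Cf.tm
    rw [if_neg hok, mul_zero]
    symm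
    refine Finset.sum_eq_zero fun t _ => ?_
    unfold tE
    rw [if_neg hok', mul_zero]
  have hok' := (mk_ok F h0 h1 h01 w).1 hok
  set x := mk F g0 g1 w with hx
  have hgx : x.g = g0 ∪ g1 := rfl
  have hg : F.Q.Gd (g0 ∪ g1) := by
    intro p hp q hq hpq
    rw [Finset.mem_union] at hp hq
    rcases hp with hp | hp <;> rcases hq with hq | hq
    · exact h0 p hp q hq hpq
    · exact absurd (Finset.mem_image_of_mem F.Q.sh hq)
        (Finset.disjoint_left.1 h01 (hpq ▸ Finset.mem_image_of_mem F.Q.sh hp))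
    · exact absurd (Finset.mem_image_of_mem F.Q.sh hp)
        (Finset.disjoint_left.1 h01 (hpq ▸ Finset.mem_image_of_mem F.Q.sh hq))
    · exact h1 p hp q hq hpq
  have e1 : x.tm (thc F θ) = ∑ a : SF.T, ∑ c : S.T,
      thc F θ (F.el a (g0 ∪ g1)) (c, ∅) (F.Q.lab x.q) *
        ((sg (x.E (F.el a (g0 ∪ g1)) (c, ∅)) : ℤ) : ℝ) := by
    unfold Cf.tm
    rw [if_pos hok, hgx, F.B_eq _ hg, Finset.sum_image]
    · refine Finset.sum_congr rfl fun a _ => ?_
      unfold Qd.els
      rw [F.M_eq, Finset.powerset_empty, Finset.sum_product]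
      refine Finset.sum_congr rfl fun c _ => ?_
      rw [Finset.sum_singleton]
    · intro a _ a' _ h
      exact (F.el_inj a a' _ _ hg hg h).1
  have e2 : ∀ (a : SF.T) (c : S.T), thc F θ (F.el a (g0 ∪ g1)) (c, ∅) (F.Q.lab x.q) =
      ∑ φ : S.T, (if Exc F (g0 ∪ g1) a then 0
        else fc (θ a (SF.tys ((g0 ∪ g1).image F.io)) c) φ) *
          ((sg (φ ⬝ᵥ S.tys x.q) : ℤ) : ℝ) := by
    intro a c
    unfold thc
    by_cases he : Exc F (g0 ∪ g1) a
    · have he' : (∃ a', F.el a (g0 ∪ g1) = F.el a' ∅) ∧ F.Q.nu (F.el a (g0 ∪ g1)) = (0, ∅) := he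
      rw [if_pos he']
      simp only [if_pos he, zero_mul, Finset.sum_const_zero]
    · have he' : ¬ ((∃ a', F.el a (g0 ∪ g1) = F.el a' ∅) ∧
        F.Q.nu (F.el a (g0 ∪ g1)) = (0, ∅)) := he
      rw [if_neg he', F.co_el a _ hg]
      simp only [if_neg he]
      exact fc_inv _ _
  have e3 : (Wp F.Q s).val x = pw s (w.1 0) * pw s (w.1 1) * pw s (F.Q.shd (w.2 0)) *
      pw s (F.Q.shd g0) * pw s (F.Q.shd g1) := rfl
  have e4 : ∀ (a : SF.T) (c φ : S.T), ((sg (x.E (F.el a (g0 ∪ g1)) (c, ∅)) : ℤ) : ℝ) *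
      ((sg (φ ⬝ᵥ S.tys x.q) : ℤ) : ℝ) =
      ((sg (F.cd ⬝ᵥ SF.tys (g1.image F.io) + c ⬝ᵥ S.tys (F.Q.shd g1)) : ℤ) : ℝ) *
      ((sg (S.JJ (w.1 0) (yk F g0 g1 a φ 0).2 + (yk F g0 g1 a φ 0).1 ⬝ᵥ S.tys (w.1 0)) : ℤ) : ℝ) *
      ((sg (S.JJ (w.1 1) (yk F g0 g1 a φ 1).2 + (yk F g0 g1 a φ 1).1 ⬝ᵥ S.tys (w.1 1)) : ℤ) : ℝ) *
      ((sg (SF.JJ ((w.2 0).image F.io) (yF F g0 g1 a φ 0).2 +
        (yF F g0 g1 a φ 0).1 ⬝ᵥ SF.tys ((w.2 0).image F.io)) : ℤ) : ℝ) := by
    intro a c φ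
    have := sign F hL x hok a c φ
    rw [← Int.cast_mul, ← sg_add, ← hgx, this, sg_add, sg_add, sg_add]
    push_cast
    rfl
  rw [e1, e3, Fintype.sum_prod_type]
  simp only [Fintype.sum_prod_type]
  rw [Finset.mul_sum]
  refine Finset.sum_congr rfl fun a _ => ?_
  rw [Finset.mul_sum]
  refine Finset.sum_congr rfl fun c _ => ?_
  rw [e2, Finset.sum_mul, Finset.mul_sum]
  refine Finset.sum_congr rfl fun φ _ => ?_
  have e5 := e4 a c φ
  unfold kf tE
  rw [if_pos hok', Fin.prod_univ_two, Fin.prod_univ_one]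
  dsimp only
  linear_combination (pw s (w.1 0) * pw s (w.1 1) * pw s (F.Q.shd (w.2 0)) *
      pw s (F.Q.shd g0) * pw s (F.Q.shd g1) * (if Exc F (g0 ∪ g1) a then 0
        else fc (θ a (SF.tys ((g0 ∪ g1).image F.io)) c) φ)) * e5

end LW

open Classical in
theorem slw012_of (hL : SLE) (hE : SEB) (hS : SES) : SLW012 := by
  intro S SF F A b hA
  have h3 : (3 : Fin 5) ∉ A := fun h => absurd (hA h) (by decide)
  have h4 : (4 : Fin 5) ∉ A := fun h => absurd (hA h) (by decide)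
  by_cases hok : F.Q.Gd b.g0 ∧ F.Q.Gd b.g1 ∧ Disjoint (F.Q.shd b.g0) (F.Q.shd b.g1)
  swap
  · refine ⟨0, fun θ σ _ _ _ => ?_⟩
    have h0 : WA F θ A b (1 + σ) = 0 := by
      unfold WA
      refine (tsum_congr fun x => ?_).trans tsum_zero
      by_cases hx : Ag F A b x
      · rw [if_pos hx]
        obtain ⟨-, -, -, a3, a4⟩ := hx
        have hn : ¬ x.Ok := by
          intro h
          apply hok
          rw [← a3 h3, ← a4 h4]
          exact ⟨h.gg0, h.gg1, h.dj 3 4 (by decide)⟩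
        unfold Cf.tm
        rw [if_neg hn, mul_zero]
      · rw [if_neg hx]
    rw [h0, abs_zero, zero_mul]
  obtain ⟨g0, g1, g01⟩ := hok
  set z := F.Q.shd b.g0 ∪ F.Q.shd b.g1 with hz
  have hb : ∀ (a : SF.T) (φ : S.T), ∃ C : ℝ, ¬ LW.Exc F (b.g0 ∪ b.g1) a →
      ∀ σ : ℝ, 0 < σ → σ ≤ 1 → |LW.PS F (LW.v1 F A b) (LW.v2 F A b) (LW.yk F b.g0 b.g1 a φ)
        (LW.yF F b.g0 b.g1 a φ) z (1 + σ)| ≤ C * σ ^ (-((1 : ℕ) : ℝ)) := by
    intro a φ
    by_cases he : LW.Exc F (b.g0 ∪ b.g1) a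
    · exact ⟨0, fun h => absurd he h⟩
    obtain ⟨C, hC⟩ := LW.PS_bound F hE 1 3 2 1 rfl (LW.v1 F A b) (LW.v2 F A b)
      (LW.yk F b.g0 b.g1 a φ) (LW.yF F b.g0 b.g1 a φ) z (by
        intro i
        fin_cases i
        · exact Finset.subset_union_right
        · exact Finset.subset_union_left) (by
        intro j
        fin_cases j
        show LW.yq F b.g0 b.g1 ⊆ z.biUnion F.up
        rw [hz, Finset.union_biUnion, LW.up_shd, LW.up_shd]
        unfold LW.yq
        refine Finset.union_subset_union ?_ ?_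
        · exact Finset.subset_union_left
        · exact Finset.subset_union_right) (LW.nfr_le F b.g0 b.g1 a φ he)
    exact ⟨C, fun _ => hC⟩
  choose C hC using hb
  refine ⟨∑ t : SF.T × S.T × S.T, |C t.1 t.2.2|, fun θ σ hθ h0 h1 => ?_⟩
  have hs1 : 1 < 1 + σ := by linarith
  have e1 : WA F θ A b (1 + σ) = ∑' w : (Fin 2 → Finset S.P) × (Fin 1 → Finset F.Q.P),
      ∑ t : SF.T × S.T × S.T, LW.kf F θ b.g0 b.g1 (1 + σ) t *
        (if LW.Rx F (LW.v1 F A b) (LW.v2 F A b) w then tE F (LW.yk F b.g0 b.g1 t.1 t.2.2)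
          (LW.yF F b.g0 b.g1 t.1 t.2.2) z (1 + σ) w else 0) := by
    unfold WA
    rw [← (LW.mk_inj F b.g0 b.g1).tsum_eq]
    · refine tsum_congr fun w => ?_
      by_cases hw : Ag F A b (LW.mk F b.g0 b.g1 w)
      · have hw' := (LW.ag_iff F A b w).1 hw
        rw [if_pos hw, LW.tm_eq F hL θ g0 g1 g01]
        refine Finset.sum_congr rfl fun t _ => ?_
        rw [if_pos hw']
      · have hw' : ¬ LW.Rx F (LW.v1 F A b) (LW.v2 F A b) w :=
          fun h => hw ((LW.ag_iff F A b w).2 h)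
        rw [if_neg hw]
        symm
        refine Finset.sum_eq_zero fun t _ => ?_
        rw [if_neg hw', mul_zero]
    · intro x hx
      rw [Function.mem_support] at hx
      have h : Ag F A b x := by
        by_contra h
        exact hx (if_neg h)
      obtain ⟨-, -, -, a3, a4⟩ := h
      refine ⟨(![x.q0, x.q12], ![x.qq]), ?_⟩
      rw [← a3 h3, ← a4 h4]
      rfl
  have hsum : ∀ t : SF.T × S.T × S.T, Summable
      fun w : (Fin 2 → Finset S.P) × (Fin 1 → Finset F.Q.P) => LW.kf F θ b.g0 b.g1 (1 + σ) t *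
        (if LW.Rx F (LW.v1 F A b) (LW.v2 F A b) w then tE F (LW.yk F b.g0 b.g1 t.1 t.2.2)
          (LW.yF F b.g0 b.g1 t.1 t.2.2) z (1 + σ) w else 0) := by
    intro t
    refine Summable.mul_left _ ?_
    refine Summable.of_norm_bounded (hS S SF F 2 1 (LW.yk F b.g0 b.g1 t.1 t.2.2)
      (LW.yF F b.g0 b.g1 t.1 t.2.2) z (1 + σ) hs1).norm fun w => ?_
    split_ifs
    · exact le_refl _
    · rw [norm_zero]
      exact norm_nonneg _
  rw [e1, Summable.tsum_finsetSum fun t _ => hsum t, Finset.sum_mul]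
  refine (Finset.abs_sum_le_sum_abs _ _).trans (Finset.sum_le_sum fun t _ => ?_)
  rw [tsum_mul_left, abs_mul]
  have hpos : 0 ≤ σ ^ (-(1 : ℝ)) := Real.rpow_nonneg h0.le _
  by_cases he : LW.Exc F (b.g0 ∪ b.g1) t.1
  · have hk : LW.kf F θ b.g0 b.g1 (1 + σ) t = 0 := by
      unfold LW.kf
      rw [if_pos he, zero_mul, zero_mul]
    rw [hk, abs_zero, zero_mul]
    exact mul_nonneg (abs_nonneg _) hpos
  · have h5 := hC t.1 t.2.2 he σ h0 h1
    rw [Nat.cast_one] at h5
    have h6 : |∑' w : (Fin 2 → Finset S.P) × (Fin 1 → Finset F.Q.P),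
        (if LW.Rx F (LW.v1 F A b) (LW.v2 F A b) w then tE F (LW.yk F b.g0 b.g1 t.1 t.2.2)
          (LW.yF F b.g0 b.g1 t.1 t.2.2) z (1 + σ) w else 0)| ≤ |C t.1 t.2.2| * σ ^ (-(1 : ℝ)) :=
      h5.trans (mul_le_mul_of_nonneg_right (le_abs_self _) hpos)
    exact (mul_le_of_le_one_left (abs_nonneg _)
      (LW.abs_kf F hθ b.g0 b.g1 (by linarith) t)).trans h6

end Pool.Agent.H32.MQ
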