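import Pool.Agent.H32.MQ.LW03_c

/-!
# Block L: the variables `q0`, `g0`
-/

set_option autoImplicit false

open scoped BigOperators Topology
open Filter

namespace Pool.Agent.H32.MQ

open Pool.Agent.H98.MK (sg)
open Pool.Agent.H98.MF

theorem w03_small {f : ℝ → ℝ} {C : ℝ}
    (h : ∀ σ : ℝ, 0 < σ → σ ≤ 1 → |f σ| ≤ C * σ ^ (-(1 : ℝ))) :
    Tendsto (fun σ : ℝ => σ ^ 2 * f σ) (𝓝[>] 0) (𝓝 0) := by
  have h1 : Tendsto (fun σ : ℝ => C * σ) (𝓝[>] 0) (𝓝 0) := by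
    have h2 : Tendsto (fun σ : ℝ => C * σ) (𝓝 0) (𝓝 (C * 0)) :=
      (continuous_const.mul continuous_id).tendsto 0
    rw [mul_zero] at h2
    exact h2.mono_left nhdsWithin_le_nhds
  refine squeeze_zero_norm' ?_ h1
  have h3 : ∀ᶠ σ in 𝓝[>] (0 : ℝ), σ ≤ 1 :=
    (eventually_le_nhds (zero_lt_one' ℝ)).filter_mono nhdsWithin_le_nhds
  filter_upwards [self_mem_nhdsWithin, h3] with σ hσ hσ1
  have hσ0 : 0 < σ := hσ
  rw [Real.norm_eq_abs, abs_mul, abs_of_nonneg (by positivity)]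
  calc σ ^ 2 * |f σ| ≤ σ ^ 2 * (C * σ ^ (-(1 : ℝ))) :=
        mul_le_mul_of_nonneg_left (h σ hσ0 hσ1) (by positivity)
    _ = C * σ := by
        rw [Real.rpow_neg_one]
        field_simp

section

variable {S SF : Sys} (F : Qf S SF) (b : Cf F.Q)

theorem w03_ES_le (hE : SEB) {u v : ℕ} (y : Fin u → El S) (Y : Fin v → El SF) (z : Finset S.P)
    (h1 : ∀ i, (y i).2 ⊆ z) (h2 : ∀ j, (Y j).2 ⊆ z.biUnion F.up) (hn : nfr y Y ≤ 1) :
    ∃ C : ℝ, 0 ≤ C ∧ ∀ σ : ℝ, 0 < σ → σ ≤ 1 → |ES F y Y z (1 + σ)| ≤ C * σ ^ (-(1 : ℝ)) := by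
  obtain ⟨C, hC⟩ := hE S SF F u v y Y z h1 h2
  refine ⟨|C|, abs_nonneg _, fun σ hσ hσ1 => (hC σ hσ hσ1).trans ?_⟩
  have h3 : σ ^ (-(nfr y Y : ℝ)) ≤ σ ^ (-(1 : ℝ)) := by
    refine Real.rpow_le_rpow_of_exponent_ge hσ hσ1 ?_
    have : (nfr y Y : ℝ) ≤ 1 := by exact_mod_cast hn
    linarith
  have h4 : 0 ≤ σ ^ (-(nfr y Y : ℝ)) := Real.rpow_nonneg hσ.le _
  calc C * σ ^ (-(nfr y Y : ℝ)) ≤ |C| * σ ^ (-(nfr y Y : ℝ)) :=
        mul_le_mul_of_nonneg_right (le_abs_self C) h4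
    _ ≤ |C| * σ ^ (-(1 : ℝ)) := mul_le_mul_of_nonneg_left h3 (abs_nonneg C)

theorem w03_nfr (y : El S) (Y : El SF) (h : y ≠ (0, ∅) ∨ Y ≠ (0, ∅)) :
    nfr (fun _ : Fin 1 => y) (fun _ : Fin 1 => Y) ≤ 1 := by
  classical
  unfold nfr
  have h1 : (Finset.univ.filter fun _ : Fin 1 => y = (0, ∅)).card ≤ 1 := by
    refine (Finset.card_filter_le _ _).trans ?_
    simp
  have h2 : (Finset.univ.filter fun _ : Fin 1 => Y = (0, ∅)).card ≤ 1 := by
    refine (Finset.card_filter_le _ _).trans ?_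
    simp
  rcases h with h | h
  · have h3 : (Finset.univ.filter fun _ : Fin 1 => y = (0, ∅)).card = 0 := by
      rw [Finset.card_eq_zero, Finset.filter_eq_empty_iff]
      exact fun _ _ => h
    exact Nat.add_le_add h3.le h2
  · have h3 : (Finset.univ.filter fun _ : Fin 1 => Y = (0, ∅)).card = 0 := by
      rw [Finset.card_eq_zero, Finset.filter_eq_empty_iff]
      exact fun _ _ => h
    exact Nat.add_le_add h1 h3.le

theorem w03_main (hL : SLE) (hE : SEB) (hS : SES) (hb : W03Ok F b) :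
    ∃ C : ℝ, ∀ (θ : SF.T → SF.T → S.T → S.T → ℝ) (σ : ℝ), Bdd4 θ → 0 < σ → σ ≤ 1 →
      |WA F θ {0, 3} b (1 + σ) - w03K F b (1 + σ) * ∑ a : SF.T, ∑ c : S.T, ∑ φ : SF.T,
        ∑ ψ : S.T, w03_hat (fun k l => θ a k c l) φ ψ * ((sg (w03c F b a φ c ψ) : ℤ) : ℝ) *
          ES F (fun _ : Fin 1 => w03y F b ψ) (fun _ : Fin 1 => w03YY F b φ) (w03z F b)
            (1 + σ)| ≤ C * σ ^ (-(1 : ℝ)) := by
  classical
  obtain ⟨C, hC0, hC⟩ := w03_ES_le F hE (fun _ : Fin 1 => ((0 : S.T), (∅ : Finset S.P)))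
    (fun i : Fin 0 => i.elim0) (w03z F b) (fun _ => Finset.empty_subset _)
    (fun j => j.elim0) (by
      unfold nfr
      have h1 : (Finset.univ.filter fun _ : Fin 1 =>
          ((0 : S.T), (∅ : Finset S.P)) = (0, ∅)).card ≤ 1 := by
        refine (Finset.card_filter_le _ _).trans ?_
        simp
      have h2 : (Finset.univ.filter fun j : Fin 0 =>
          (j.elim0 : El SF) = (0, ∅)).card = 0 := by
        rw [Finset.card_eq_zero]
        ext j
        exact j.elim0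
      exact Nat.add_le_add h1 h2.le)
  refine ⟨(Fintype.card SF.T * Fintype.card S.T : ℝ) * C, fun θ σ hθ hσ hσ1 => ?_⟩
  have hs : 1 < 1 + σ := by linarith
  have hs0 : 0 ≤ 1 + σ := by linarith
  obtain ⟨hD1, hD2⟩ := w03_D_sum F b hS hs
  have hmt : HasSum (w03mt F b θ (1 + σ)) (w03K F b (1 + σ) * ∑ a : SF.T, ∑ c : S.T,
      ∑ φ : SF.T, ∑ ψ : S.T, w03_hat (fun k l => θ a k c l) φ ψ *
        ((sg (w03c F b a φ c ψ) : ℤ) : ℝ) *
          ES F (fun _ : Fin 1 => w03y F b ψ) (fun _ : Fin 1 => w03YY F b φ) (w03z F b)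
            (1 + σ)) := by
    unfold w03mt
    refine HasSum.mul_left _ (hasSum_sum fun a _ => hasSum_sum fun c _ =>
      hasSum_sum fun φ _ => hasSum_sum fun ψ _ => HasSum.mul_left _ ?_)
    exact (hS S SF F 1 1 _ _ _ _ hs).hasSum
  have hD3 : HasSum (fun w => (Fintype.card SF.T * Fintype.card S.T : ℝ) *
      w03D F b (1 + σ) w) ((Fintype.card SF.T * Fintype.card S.T : ℝ) *
      ES F (fun _ : Fin 1 => ((0 : S.T), (∅ : Finset S.P)))
        (fun i : Fin 0 => i.elim0) (w03z F b) (1 + σ)) := by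
    rw [← hD2]
    exact HasSum.mul_left _ hD1.hasSum
  have hdiff : ∀ w, ‖(Wp F.Q (1 + σ)).val (w03x F b w) * (w03x F b w).tm (thc F θ) -
      w03mt F b θ (1 + σ) w‖ ≤ (Fintype.card SF.T * Fintype.card S.T : ℝ) *
        w03D F b (1 + σ) w := fun w => w03_diff F b hL θ hθ (1 + σ) hs0 w hb
  have hds : Summable fun w => (Wp F.Q (1 + σ)).val (w03x F b w) *
      (w03x F b w).tm (thc F θ) - w03mt F b θ (1 + σ) w :=
    Summable.of_norm_bounded hD3.summable hdiff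
  have e1 : WA F θ {0, 3} b (1 + σ) - w03K F b (1 + σ) * ∑ a : SF.T, ∑ c : S.T,
      ∑ φ : SF.T, ∑ ψ : S.T, w03_hat (fun k l => θ a k c l) φ ψ *
        ((sg (w03c F b a φ c ψ) : ℤ) : ℝ) *
          ES F (fun _ : Fin 1 => w03y F b ψ) (fun _ : Fin 1 => w03YY F b φ) (w03z F b)
            (1 + σ) = ∑' w, ((Wp F.Q (1 + σ)).val (w03x F b w) *
      (w03x F b w).tm (thc F θ) - w03mt F b θ (1 + σ) w) := by
    rw [w03_WA]
    have h1 : ∀ w, (Wp F.Q (1 + σ)).val (w03x F b w) * (w03x F b w).tm (thc F θ) =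
        ((Wp F.Q (1 + σ)).val (w03x F b w) *
          (w03x F b w).tm (thc F θ) - w03mt F b θ (1 + σ) w) + w03mt F b θ (1 + σ) w :=
      fun w => by ring
    rw [tsum_congr h1, Summable.tsum_add hds hmt.summable, hmt.tsum_eq]
    ring
  rw [e1]
  have h2 := tsum_of_norm_bounded hD3 hdiff
  rw [Real.norm_eq_abs] at h2
  refine h2.trans ?_
  have h3 := hC σ hσ hσ1
  have h4 := (le_abs_self _).trans h3
  have h5 : (0 : ℝ) ≤ (Fintype.card SF.T * Fintype.card S.T : ℝ) := by positivity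
  calc _ ≤ (Fintype.card SF.T * Fintype.card S.T : ℝ) * (C * σ ^ (-(1 : ℝ))) :=
        mul_le_mul_of_nonneg_left h4 h5
    _ = _ := by ring

theorem w03_K_le {s : ℝ} (hs : 0 ≤ s) : |w03K F b s| ≤ 1 := by
  unfold w03K
  have h1 := w03_pw_pos s b.q12
  have h2 := w03_pw_pos s (F.Q.shd b.qq)
  have h3 := w03_pw_pos s (F.Q.shd b.g1)
  rw [abs_of_nonneg (by positivity)]
  exact mul_le_one₀ (mul_le_one₀ (w03_pw_le hs _) h2.le (w03_pw_le hs _)) h3.le (w03_pw_le hs _)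

end

/-- the variables `q0`, `g0`, the others not all empty -/
theorem slw03_of (hL : SLE) (hE : SEB) (hS : SES) : SLW03 := by
  classical
  intro S SF F b hne
  by_cases hb : W03Ok F b
  · obtain ⟨C, hC⟩ := w03_main F b hL hE hS hb
    have h1 : ∀ (φ : SF.T) (ψ : S.T), ∃ C' : ℝ, 0 ≤ C' ∧ ∀ σ : ℝ, 0 < σ → σ ≤ 1 →
        |ES F (fun _ : Fin 1 => w03y F b ψ) (fun _ : Fin 1 => w03YY F b φ) (w03z F b)
          (1 + σ)| ≤ C' * σ ^ (-(1 : ℝ)) := by
      intro φ ψ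
      refine w03_ES_le F hE _ _ _ (fun _ => ?_) (fun _ => w03_Y_sub F b) (w03_nfr _ _ ?_)
      · exact Finset.subset_union_right
      · rcases hne with h | h | h
        · right
          intro h2
          have h3 : w03Y F b = ∅ := congrArg Prod.snd h2
          unfold w03Y at h3
          have h4 := (Finset.union_eq_empty.1 h3).1
          obtain ⟨p, hp⟩ := Finset.nonempty_iff_ne_empty.2 h
          obtain ⟨P, hP⟩ := w03_up_nonempty F p
          have h5 : P ∈ b.q12.biUnion F.up := Finset.mem_biUnion.2 ⟨p, hp, hP⟩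
          rw [h4] at h5
          exact absurd h5 (Finset.notMem_empty P)
        · right
          intro h2
          have h3 : w03Y F b = ∅ := congrArg Prod.snd h2
          unfold w03Y at h3
          have h4 := (Finset.union_eq_empty.1 h3).2
          exact h (Finset.image_eq_empty.1 h4)
        · left
          intro h2
          have h3 : F.Q.shd b.g1 = ∅ := congrArg Prod.snd h2
          exact h (Finset.image_eq_empty.1 h3)
    choose C' hC'0 hC' using h1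
    refine ⟨C + ∑ a : SF.T, ∑ c : S.T, ∑ φ : SF.T, ∑ ψ : S.T, C' φ ψ, fun θ σ hθ hσ hσ1 => ?_⟩
    have h2 := hC θ σ hθ hσ hσ1
    have hp : 0 ≤ σ ^ (-(1 : ℝ)) := Real.rpow_nonneg hσ.le _
    have h3 : |w03K F b (1 + σ) * ∑ a : SF.T, ∑ c : S.T, ∑ φ : SF.T,
        ∑ ψ : S.T, w03_hat (fun k l => θ a k c l) φ ψ * ((sg (w03c F b a φ c ψ) : ℤ) : ℝ) *
          ES F (fun _ : Fin 1 => w03y F b ψ) (fun _ : Fin 1 => w03YY F b φ) (w03z F b)
            (1 + σ)| ≤ (∑ a : SF.T, ∑ c : S.T, ∑ φ : SF.T, ∑ ψ : S.T, C' φ ψ) *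
            σ ^ (-(1 : ℝ)) := by
      rw [abs_mul]
      have h4 : |∑ a : SF.T, ∑ c : S.T, ∑ φ : SF.T,
          ∑ ψ : S.T, w03_hat (fun k l => θ a k c l) φ ψ * ((sg (w03c F b a φ c ψ) : ℤ) : ℝ) *
          ES F (fun _ : Fin 1 => w03y F b ψ) (fun _ : Fin 1 => w03YY F b φ) (w03z F b)
            (1 + σ)| ≤ (∑ a : SF.T, ∑ c : S.T, ∑ φ : SF.T, ∑ ψ : S.T, C' φ ψ) *
            σ ^ (-(1 : ℝ)) := by
        simp only [Finset.sum_mul]
        refine (Finset.abs_sum_le_sum_abs _ _).trans (Finset.sum_le_sum fun a _ => ?_)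
        refine (Finset.abs_sum_le_sum_abs _ _).trans (Finset.sum_le_sum fun c _ => ?_)
        refine (Finset.abs_sum_le_sum_abs _ _).trans (Finset.sum_le_sum fun φ _ => ?_)
        refine (Finset.abs_sum_le_sum_abs _ _).trans (Finset.sum_le_sum fun ψ _ => ?_)
        rw [abs_mul, abs_mul, abs_sgr, mul_one]
        have h5 := w03_hat_le (f := fun k l => θ a k c l) (fun k l => hθ a k c l) φ ψ
        calc _ ≤ 1 * |ES F (fun _ : Fin 1 => w03y F b ψ) (fun _ : Fin 1 => w03YY F b φ)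
              (w03z F b) (1 + σ)| := mul_le_mul_of_nonneg_right h5 (abs_nonneg _)
          _ ≤ _ := by
              rw [one_mul]
              exact hC' φ ψ σ hσ hσ1
      calc _ ≤ 1 * _ := mul_le_mul (w03_K_le F b (by linarith)) h4 (abs_nonneg _) zero_le_one
        _ = _ := one_mul _
    calc |WA F θ {0, 3} b (1 + σ)| = |(WA F θ {0, 3} b (1 + σ) - w03K F b (1 + σ) * ∑ a : SF.T,
          ∑ c : S.T, ∑ φ : SF.T, ∑ ψ : S.T, w03_hat (fun k l => θ a k c l) φ ψ *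
          ((sg (w03c F b a φ c ψ) : ℤ) : ℝ) *
          ES F (fun _ : Fin 1 => w03y F b ψ) (fun _ : Fin 1 => w03YY F b φ) (w03z F b)
            (1 + σ)) + w03K F b (1 + σ) * ∑ a : SF.T,
          ∑ c : S.T, ∑ φ : SF.T, ∑ ψ : S.T, w03_hat (fun k l => θ a k c l) φ ψ *
          ((sg (w03c F b a φ c ψ) : ℤ) : ℝ) *
          ES F (fun _ : Fin 1 => w03y F b ψ) (fun _ : Fin 1 => w03YY F b φ) (w03z F b)
            (1 + σ)| := by rw [sub_add_cancel]
      _ ≤ C * σ ^ (-(1 : ℝ)) + (∑ a : SF.T, ∑ c : S.T, ∑ φ : SF.T, ∑ ψ : S.T, C' φ ψ) *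
            σ ^ (-(1 : ℝ)) := (abs_add_le _ _).trans (add_le_add h2 h3)
      _ = _ := by ring
  · refine ⟨0, fun θ σ hθ hσ hσ1 => ?_⟩
    rw [w03_WA]
    have h1 : ∀ w, (Wp F.Q (1 + σ)).val (w03x F b w) * (w03x F b w).tm (thc F θ) = 0 := by
      intro w
      have hx : ¬ (w03x F b w).Ok := fun h1 => hb ((w03_ok_iff F b w).1 h1).2
      have h2 : (w03x F b w).tm (thc F θ) = 0 := by
        unfold Cf.tm
        exact if_neg hx
      rw [h2, mul_zero]
    rw [tsum_congr h1, tsum_zero, abs_zero, zero_mul]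

/-- the variables `q0`, `g0`, the others empty -/
theorem slm03_of (hL : SLE) (hE : SEB) (hS : SES) : SLM03 := by
  classical
  intro S SF F c0 hc0 θ hθ
  obtain ⟨b, hbdef⟩ : ∃ b : Cf F.Q, b = ⟨∅, ∅, ∅, ∅, ∅⟩ := ⟨_, rfl⟩
  have hsh : F.Q.shd ∅ = ∅ := rfl
  have hg0 : F.Q.Gd (∅ : Finset F.Q.P) := fun a ha => absurd ha (Finset.notMem_empty a)
  have hb : W03Ok F b := by
    subst hbdef
    exact ⟨Finset.disjoint_empty_left _, Finset.disjoint_empty_left _,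
      Finset.disjoint_empty_left _, hg0, hg0⟩
  have hz : w03z F b = ∅ := by
    subst hbdef
    rfl
  have hY : w03Y F b = ∅ := by
    subst hbdef
    rfl
  have hy : ∀ ψ, w03y F b ψ = (ψ, ∅) := by
    intro ψ
    subst hbdef
    unfold w03y
    simp only [hsh, S.tys_empty, dotProduct_zero, zero_smul, add_zero]
  have hYY : ∀ φ, w03YY F b φ = (φ, ∅) := by
    intro φ
    unfold w03YY
    rw [hY, SF.tys_empty, dotProduct_zero, zero_smul, add_zero]
  have hc : ∀ a φ c ψ, w03c F b a φ c ψ = 0 := by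
    intro a φ c ψ
    subst hbdef
    unfold w03c
    simp only [hsh, Finset.biUnion_empty, Finset.image_empty, SF.JJ_empty_left,
      S.JJ_empty_left, SF.tys_empty, S.tys_empty, dotProduct_zero, add_zero]
  have hK : ∀ s, w03K F b s = 1 := by
    intro s
    subst hbdef
    unfold w03K
    simp only [hsh, w03_pw_empty, mul_one]
  obtain ⟨C, hC⟩ := w03_main F b hL hE hS hb
  rw [← hbdef]
  -- the error
  have h1 : Tendsto (fun σ : ℝ => σ ^ 2 * (WA F θ {0, 3} b (1 + σ) -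
      w03K F b (1 + σ) * ∑ a : SF.T, ∑ c : S.T, ∑ φ : SF.T,
        ∑ ψ : S.T, w03_hat (fun k l => θ a k c l) φ ψ * ((sg (w03c F b a φ c ψ) : ℤ) : ℝ) *
          ES F (fun _ : Fin 1 => w03y F b ψ) (fun _ : Fin 1 => w03YY F b φ) (w03z F b)
            (1 + σ))) (𝓝[>] 0) (𝓝 0) :=
    w03_small fun σ hσ hσ1 => hC θ σ hθ hσ hσ1
  -- the Euler products
  have h2 : ∀ (φ : SF.T) (ψ : S.T), Tendsto (fun σ : ℝ => σ ^ 2 *
      ES F (fun _ : Fin 1 => (ψ, (∅ : Finset S.P))) (fun _ : Fin 1 => (φ, (∅ : Finset SF.P))) ∅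
        (1 + σ)) (𝓝[>] 0) (𝓝 (if φ = 0 ∧ ψ = 0 then c0 else 0)) := by
    intro φ ψ
    by_cases h : φ = 0 ∧ ψ = 0
    · obtain ⟨rfl, rfl⟩ := h
      rw [if_pos ⟨rfl, rfl⟩]
      exact hc0
    · rw [if_neg h]
      obtain ⟨C', -, hC'⟩ := w03_ES_le F hE (fun _ : Fin 1 => (ψ, (∅ : Finset S.P)))
        (fun _ : Fin 1 => (φ, (∅ : Finset SF.P))) ∅ (fun _ => Finset.empty_subset _)
        (fun _ => Finset.empty_subset _) (w03_nfr _ _ (by
          by_contra h3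
          push Not at h3
          exact h ⟨congrArg Prod.fst h3.2, congrArg Prod.fst h3.1⟩))
      exact w03_small hC'
  have h3 : Tendsto (fun σ : ℝ => ∑ a : SF.T, ∑ c : S.T, ∑ φ : SF.T, ∑ ψ : S.T,
      w03_hat (fun k l => θ a k c l) φ ψ * (σ ^ 2 *
      ES F (fun _ : Fin 1 => (ψ, (∅ : Finset S.P))) (fun _ : Fin 1 => (φ, (∅ : Finset SF.P))) ∅
        (1 + σ))) (𝓝[>] 0) (𝓝 (∑ a : SF.T, ∑ c : S.T, ∑ φ : SF.T, ∑ ψ : S.T,
      w03_hat (fun k l => θ a k c l) φ ψ * (if φ = 0 ∧ ψ = 0 then c0 else 0))) := by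
    refine tendsto_finsetSum _ fun a _ => tendsto_finsetSum _ fun c _ =>
      tendsto_finsetSum _ fun φ _ => tendsto_finsetSum _ fun ψ _ => ?_
    exact (h2 φ ψ).const_mul _
  have h4 : ∑ a : SF.T, ∑ c : S.T, ∑ φ : SF.T, ∑ ψ : S.T,
      w03_hat (fun k l => θ a k c l) φ ψ * (if φ = 0 ∧ ψ = 0 then c0 else 0) =
      c0 * mv θ := by
    have h5 : ∀ (a : SF.T) (c : S.T), ∑ φ : SF.T, ∑ ψ : S.T,
        w03_hat (fun k l => θ a k c l) φ ψ * (if φ = 0 ∧ ψ = 0 then c0 else 0) =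
        c0 * ((1 / 2 ^ (SF.m + S.m)) * ∑ k, ∑ l, θ a k c l) := by
      intro a c
      rw [Finset.sum_eq_single (0 : SF.T), Finset.sum_eq_single (0 : S.T)]
      · rw [if_pos ⟨rfl, rfl⟩, w03_hat_zero]
        ring
      · intro ψ _ hψ
        rw [if_neg fun h => hψ h.2, mul_zero]
      · intro h
        exact absurd (Finset.mem_univ _) h
      · intro φ _ hφ
        exact Finset.sum_eq_zero fun ψ _ => by rw [if_neg fun h => hφ h.1, mul_zero]
      · intro h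
        exact absurd (Finset.mem_univ _) h
    simp only [h5]
    unfold mv
    simp only [← Finset.mul_sum]
    congr 2
    refine Finset.sum_congr rfl fun a _ => ?_
    exact Finset.sum_comm
  rw [h4] at h3
  have h6 := h1.add h3
  rw [zero_add] at h6
  refine h6.congr fun σ => ?_
  rw [hK, one_mul, mul_sub]
  have h7 : σ ^ 2 * ∑ a : SF.T, ∑ c : S.T, ∑ φ : SF.T,
        ∑ ψ : S.T, w03_hat (fun k l => θ a k c l) φ ψ * ((sg (w03c F b a φ c ψ) : ℤ) : ℝ) *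
          ES F (fun _ : Fin 1 => w03y F b ψ) (fun _ : Fin 1 => w03YY F b φ) (w03z F b)
            (1 + σ) = ∑ a : SF.T, ∑ c : S.T, ∑ φ : SF.T, ∑ ψ : S.T,
      w03_hat (fun k l => θ a k c l) φ ψ * (σ ^ 2 *
      ES F (fun _ : Fin 1 => (ψ, (∅ : Finset S.P))) (fun _ : Fin 1 => (φ, (∅ : Finset SF.P))) ∅
        (1 + σ)) := by
    simp only [Finset.mul_sum]
    refine Finset.sum_congr rfl fun a _ => Finset.sum_congr rfl fun c _ =>
      Finset.sum_congr rfl fun φ _ => Finset.sum_congr rfl fun ψ _ => ?_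
    simp only [hc, hz, hy, hYY, sg_zero, Int.cast_one]
    ring
  rw [h7]
  ring

end Pool.Agent.H32.MQ
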