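import Pool.Agent.H32.MQ.LStm
import Pool.Agent.H32.MQ.UT

/-!
# Project MQ, row L2: at most one free variable
-/

set_option autoImplicit false

open scoped BigOperators Topology
open Filter

namespace Pool.Agent.H32.MQ

open Pool.Agent.H98.MK (sg)
open Pool.Agent.H98.MF

/-- sums over the image of an injection -/
theorem lw1_tsum {ι κ : Type*} (P : ι → Prop) (f : ι → ℝ) (e : ι → κ) (h : κ → ℝ) (K : ℝ)
    (hK : 0 ≤ K) (h0 : ∀ y, 0 ≤ h y) (hs : Summable h)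
    (he : ∀ x x', P x → P x' → e x = e x' → x = x') (hf : ∀ x, P x → |f x| ≤ K * h (e x))
    (hz : ∀ x, ¬ P x → f x = 0) : |∑' x, f x| ≤ K * ∑' y, h y := by
  classical
  have h1 : ∀ s : Finset ι, ∑ x ∈ s, |f x| ≤ K * ∑' y, h y := by
    intro s
    have h2 : ∑ x ∈ s, |f x| = ∑ x ∈ s.filter P, |f x| := by
      rw [Finset.sum_filter]
      refine Finset.sum_congr rfl fun x _ => ?_
      split_ifs with hx
      · rfl
      · rw [hz x hx, abs_zero]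
    rw [h2]
    have h3 : ∑ x ∈ s.filter P, |f x| ≤ ∑ x ∈ s.filter P, K * h (e x) :=
      Finset.sum_le_sum fun x hx => hf x (Finset.mem_filter.1 hx).2
    refine h3.trans ?_
    rw [← Finset.mul_sum]
    refine mul_le_mul_of_nonneg_left ?_ hK
    have h4 : ∑ x ∈ s.filter P, h (e x) = ∑ y ∈ (s.filter P).image e, h y := by
      rw [Finset.sum_image]
      intro x hx x' hx' hxx
      exact he x x' (Finset.mem_filter.1 (Finset.mem_coe.1 hx)).2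
        (Finset.mem_filter.1 (Finset.mem_coe.1 hx')).2 hxx
    rw [h4]
    exact hs.sum_le_tsum _ fun y _ => h0 y
  have h5 : Summable fun x => |f x| := summable_of_sum_le (fun x => abs_nonneg _) h1
  have h6 : ∑' x, |f x| ≤ K * ∑' y, h y :=
    h5.tsum_le_of_sum_le h1
  refine le_trans ?_ h6
  have h7 := norm_tsum_le_tsum_norm (f := f) (by simpa only [Real.norm_eq_abs] using h5)
  simpa only [Real.norm_eq_abs] using h7

theorem lw1_pw0 {S : Sys} {s : ℝ} (x : Finset S.P) : 0 ≤ pw s x := by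
  unfold pw
  exact Real.rpow_nonneg (Nat.cast_nonneg _) _

theorem lw1_pw1 {S : Sys} {s : ℝ} (hs : 0 ≤ s) (x : Finset S.P) : pw s x ≤ 1 := by
  unfold pw
  exact Real.rpow_le_one_of_one_le_of_nonpos (S.one_le_nmr x) (by linarith)

section

variable {S SF : Sys} (F : Qf S SF)

theorem lw1_bd {θ : SF.T → SF.T → S.T → S.T → ℝ} (hθ : Bdd4 θ) : BdT (thc F θ) := by
  intro γ c l
  unfold thc
  split_ifs
  · rw [abs_zero]
    exact zero_le_one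
  · exact hθ _ _ _ _

open Classical in
/-- the term with the trivial character of `k` -/
theorem lw1_tE1 (s : ℝ) (w : (Fin 1 → Finset S.P) × (Fin 0 → Finset F.Q.P)) :
    tE F (fun _ => (0, ∅)) (fun _ => (0, ∅)) ∅ s w = pw s (w.1 0) := by
  unfold tE
  have h : okE F ∅ w := by
    refine ⟨fun i => Finset.disjoint_empty_right _, fun j => j.elim0, fun j => j.elim0,
      fun i i' hi => absurd (Subsingleton.elim i i') hi, fun j => j.elim0, fun i j => j.elim0⟩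
  rw [if_pos h]
  simp [Sys.JJ_empty_right, sg_zero]

open Classical in
/-- the term with the trivial character of `F` -/
theorem lw1_tE2 (s : ℝ) (w : (Fin 0 → Finset S.P) × (Fin 1 → Finset F.Q.P)) :
    tE F (fun _ => (0, ∅)) (fun _ => (0, ∅)) ∅ s w =
      if F.Q.Gd (w.2 0) then pw s (F.Q.shd (w.2 0)) else 0 := by
  unfold tE
  have h : okE F ∅ w ↔ F.Q.Gd (w.2 0) := by
    constructor
    · intro h
      exact h.2.2.1 0
    · intro h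
      refine ⟨fun i => i.elim0, fun j => Finset.disjoint_empty_right _, fun j => ?_,
        fun i => i.elim0, fun j j' hj => absurd (Subsingleton.elim j j') hj, fun i => i.elim0⟩
      rw [Subsingleton.elim j 0]
      exact h
  by_cases hg : F.Q.Gd (w.2 0)
  · rw [if_pos (h.2 hg), if_pos hg]
    simp [Sys.JJ_empty_right, sg_zero]
  · rw [if_neg (fun h1 => hg (h.1 h1)), if_neg hg]

theorem lw1_five {a b c d e : ℝ} (ha0 : 0 ≤ a) (ha : a ≤ 1) (hb0 : 0 ≤ b) (hb : b ≤ 1)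
    (hc0 : 0 ≤ c) (hc : c ≤ 1) (hd0 : 0 ≤ d) (hd : d ≤ 1) (he0 : 0 ≤ e) (he : e ≤ 1) :
    |a * b * c * d * e| ≤ a ∧ |a * b * c * d * e| ≤ b ∧ |a * b * c * d * e| ≤ c ∧
      |a * b * c * d * e| ≤ d ∧ |a * b * c * d * e| ≤ e := by
  rw [abs_of_nonneg (by positivity)]
  have h4 : ∀ x y z w : ℝ, 0 ≤ x → x ≤ 1 → 0 ≤ y → y ≤ 1 → 0 ≤ z → z ≤ 1 → 0 ≤ w → w ≤ 1 →
      x * y * z * w ≤ 1 := fun x y z w hx0 hx hy0 hy hz0 hz hw0 hw =>
    mul_le_one₀ (mul_le_one₀ (mul_le_one₀ hx hy0 hy) hz0 hz) hw0 hw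
  refine ⟨?_, ?_, ?_, ?_, ?_⟩
  · have h := mul_le_mul_of_nonneg_left (h4 b c d e hb0 hb hc0 hc hd0 hd he0 he) ha0
    linarith
  · have h := mul_le_mul_of_nonneg_left (h4 a c d e ha0 ha hc0 hc hd0 hd he0 he) hb0
    linarith
  · have h := mul_le_mul_of_nonneg_left (h4 a b d e ha0 ha hb0 hb hd0 hd he0 he) hc0
    linarith
  · have h := mul_le_mul_of_nonneg_left (h4 a b c e ha0 ha hb0 hb hc0 hc he0 he) hd0
    linarith
  · have h := mul_le_mul_of_nonneg_left (h4 a b c d ha0 ha hb0 hb hc0 hc hd0 hd) he0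
    linarith

theorem lw1_val {s : ℝ} (hs : 0 ≤ s) (x : Cf F.Q) :
    |(Wp F.Q s).val x| ≤ pw s x.q0 ∧ |(Wp F.Q s).val x| ≤ pw s x.q12 ∧
      |(Wp F.Q s).val x| ≤ pw s (F.Q.shd x.qq) ∧ |(Wp F.Q s).val x| ≤ pw s (F.Q.shd x.g0) ∧
      |(Wp F.Q s).val x| ≤ pw s (F.Q.shd x.g1) := by
  unfold Wg.val Wp
  exact lw1_five (lw1_pw0 _) (lw1_pw1 hs _) (lw1_pw0 _) (lw1_pw1 hs _) (lw1_pw0 _)
    (lw1_pw1 hs _) (lw1_pw0 _) (lw1_pw1 hs _) (lw1_pw0 _) (lw1_pw1 hs _)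

theorem lw1_main (hS : SES) {u v : ℕ} (y : Fin u → El S) (Y : Fin v → El SF)
    (hC : ∃ C : ℝ, ∀ σ : ℝ, 0 < σ → σ ≤ 1 → |ES F y Y ∅ (1 + σ)| ≤ C * σ ^ (-(1 : ℝ)))
    (A : Finset (Fin 5)) (b : Cf F.Q)
    (e : Cf F.Q → (Fin u → Finset S.P) × (Fin v → Finset F.Q.P))
    (he : ∀ x x', Ag F A b x → Ag F A b x' → e x = e x' → x = x')
    (h0 : ∀ s w, 0 ≤ tE F y Y ∅ s w)
    (hb : ∀ (s : ℝ) (x : Cf F.Q), 0 ≤ s → x.Ok →
      |(Wp F.Q s).val x| ≤ tE F y Y ∅ s (e x)) :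
    ∃ C : ℝ, ∀ (θ : SF.T → SF.T → S.T → S.T → ℝ) (σ : ℝ), Bdd4 θ → 0 < σ → σ ≤ 1 →
      |WA F θ A b (1 + σ)| ≤ C * σ ^ (-(1 : ℝ)) := by
  obtain ⟨C, hC⟩ := hC
  obtain ⟨K, hK⟩ : ∃ K : ℝ, K = 4 ^ (S.m + F.Q.M.card) * (2 ^ S.m * 2 ^ F.Q.M.card) := ⟨_, rfl⟩
  have hK0 : 0 ≤ K := by
    rw [hK]
    positivity
  refine ⟨K * C, fun θ σ hθ hσ hσ1 => ?_⟩
  have h := lw1_tsum (Ag F A b)
    (fun x => open Classical in
      (if Ag F A b x then (Wp F.Q (1 + σ)).val x * x.tm (thc F θ) else 0)) e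
    (tE F y Y ∅ (1 + σ)) K hK0 (h0 (1 + σ)) (hS S SF F u v y Y ∅ (1 + σ) (by linarith)) he
    (fun x hx => by
      rw [if_pos hx]
      by_cases ho : x.Ok
      · rw [abs_mul, mul_comm]
        refine mul_le_mul ?_ (hb (1 + σ) x (by linarith) ho) (abs_nonneg _) hK0
        rw [hK]
        exact ut_tm (lw1_bd F hθ) x
      · have h1 : x.tm (thc F θ) = 0 := by
          unfold Cf.tm
          rw [if_neg ho]
        rw [h1, mul_zero, abs_zero]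
        exact mul_nonneg hK0 (h0 _ _))
    (fun x hx => by
      rw [if_neg hx])
  unfold WA
  refine h.trans ?_
  have h2 : ∑' w, tE F y Y ∅ (1 + σ) w ≤ C * σ ^ (-(1 : ℝ)) :=
    (le_abs_self _).trans (hC σ hσ hσ1)
  calc K * ∑' w, tE F y Y ∅ (1 + σ) w ≤ K * (C * σ ^ (-(1 : ℝ))) :=
        mul_le_mul_of_nonneg_left h2 hK0
    _ = K * C * σ ^ (-(1 : ℝ)) := by ring

theorem lw1_e1 (hE : SEB) : ∃ C : ℝ, ∀ σ : ℝ, 0 < σ → σ ≤ 1 →
    |ES F (fun _ : Fin 1 => ((0 : S.T), (∅ : Finset S.P)))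
      (fun _ : Fin 0 => ((0 : SF.T), (∅ : Finset SF.P))) ∅ (1 + σ)| ≤ C * σ ^ (-(1 : ℝ)) := by
  obtain ⟨C, hC⟩ := hE S SF F 1 0 (fun _ => (0, ∅)) (fun _ => (0, ∅)) ∅
    (fun _ => Finset.empty_subset _) (fun _ => Finset.empty_subset _)
  refine ⟨C, fun σ h0 h1 => ?_⟩
  have h := hC σ h0 h1
  have h2 : nfr (S := S) (SF := SF) (u := 1) (v := 0) (fun _ => (0, ∅)) (fun _ => (0, ∅)) = 1 := by
    unfold nfr
    simp
  rw [h2, Nat.cast_one] at h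
  exact h

theorem lw1_e2 (hE : SEB) : ∃ C : ℝ, ∀ σ : ℝ, 0 < σ → σ ≤ 1 →
    |ES F (fun _ : Fin 0 => ((0 : S.T), (∅ : Finset S.P)))
      (fun _ : Fin 1 => ((0 : SF.T), (∅ : Finset SF.P))) ∅ (1 + σ)| ≤ C * σ ^ (-(1 : ℝ)) := by
  obtain ⟨C, hC⟩ := hE S SF F 0 1 (fun _ => (0, ∅)) (fun _ => (0, ∅)) ∅
    (fun _ => Finset.empty_subset _) (fun _ => Finset.empty_subset _)
  refine ⟨C, fun σ h0 h1 => ?_⟩
  have h := hC σ h0 h1
  have h2 : nfr (S := S) (SF := SF) (u := 0) (v := 1) (fun _ => (0, ∅)) (fun _ => (0, ∅)) = 1 := by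
    unfold nfr
    simp
  rw [h2, Nat.cast_one] at h
  exact h

/-- one free variable over `k` -/
theorem lw1_k (hE : SEB) (hS : SES) (A : Finset (Fin 5)) (b : Cf F.Q)
    (e : Cf F.Q → Finset S.P)
    (he : ∀ x x', Ag F A b x → Ag F A b x' → e x = e x' → x = x')
    (hb : ∀ (s : ℝ) (x : Cf F.Q), 0 ≤ s → |(Wp F.Q s).val x| ≤ pw s (e x)) :
    ∃ C : ℝ, ∀ (θ : SF.T → SF.T → S.T → S.T → ℝ) (σ : ℝ), Bdd4 θ → 0 < σ → σ ≤ 1 →
      |WA F θ A b (1 + σ)| ≤ C * σ ^ (-(1 : ℝ)) := by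
  refine lw1_main F hS _ _ (lw1_e1 F hE) A b (fun x => (fun _ => e x, fun j => j.elim0))
    (fun x x' hx hx' hxx => ?_) (fun s w => ?_) (fun s x hs _ => ?_)
  · exact he x x' hx hx' (congrFun (congrArg Prod.fst hxx) 0)
  · rw [lw1_tE1]
    exact lw1_pw0 _
  · rw [lw1_tE1]
    exact hb s x hs

/-- one free variable over `F` -/
theorem lw1_F (hE : SEB) (hS : SES) (A : Finset (Fin 5)) (b : Cf F.Q)
    (e : Cf F.Q → Finset F.Q.P) (hg : ∀ x : Cf F.Q, x.Ok → F.Q.Gd (e x))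
    (he : ∀ x x', Ag F A b x → Ag F A b x' → e x = e x' → x = x')
    (hb : ∀ (s : ℝ) (x : Cf F.Q), 0 ≤ s → |(Wp F.Q s).val x| ≤ pw s (F.Q.shd (e x))) :
    ∃ C : ℝ, ∀ (θ : SF.T → SF.T → S.T → S.T → ℝ) (σ : ℝ), Bdd4 θ → 0 < σ → σ ≤ 1 →
      |WA F θ A b (1 + σ)| ≤ C * σ ^ (-(1 : ℝ)) := by
  refine lw1_main F hS _ _ (lw1_e2 F hE) A b (fun x => (fun i => i.elim0, fun _ => e x))
    (fun x x' hx hx' hxx => ?_) (fun s w => ?_) (fun s x hs ho => ?_)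
  · exact he x x' hx hx' (congrFun (congrArg Prod.snd hxx) 0)
  · rw [lw1_tE2]
    split_ifs
    · exact lw1_pw0 _
    · exact le_refl _
  · rw [lw1_tE2, if_pos (hg x ho)]
    exact hb s x hs

end

theorem slw1_of (hE : SEB) (hS : SES) (_hA : SUA) : SLW1 := by
  intro S SF F A b hA
  obtain ⟨i, hi⟩ := Finset.card_le_one_iff_subset_singleton.1 hA
  have hn : ∀ k, k ≠ i → k ∉ A := fun k hk h => hk (Finset.mem_singleton.1 (hi h))
  fin_cases i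
  · refine lw1_k F hE hS A b (fun x => x.q0) (fun x x' hx hx' h => ?_)
      (fun s x hs => (lw1_val F hs x).1)
    refine Cf.ext h ?_ ?_ ?_ ?_
    · rw [hx.2.1 (hn 1 (by decide)), hx'.2.1 (hn 1 (by decide))]
    · rw [hx.2.2.1 (hn 2 (by decide)), hx'.2.2.1 (hn 2 (by decide))]
    · rw [hx.2.2.2.1 (hn 3 (by decide)), hx'.2.2.2.1 (hn 3 (by decide))]
    · rw [hx.2.2.2.2 (hn 4 (by decide)), hx'.2.2.2.2 (hn 4 (by decide))]
  · refine lw1_k F hE hS A b (fun x => x.q12) (fun x x' hx hx' h => ?_)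
      (fun s x hs => (lw1_val F hs x).2.1)
    refine Cf.ext ?_ h ?_ ?_ ?_
    · rw [hx.1 (hn 0 (by decide)), hx'.1 (hn 0 (by decide))]
    · rw [hx.2.2.1 (hn 2 (by decide)), hx'.2.2.1 (hn 2 (by decide))]
    · rw [hx.2.2.2.1 (hn 3 (by decide)), hx'.2.2.2.1 (hn 3 (by decide))]
    · rw [hx.2.2.2.2 (hn 4 (by decide)), hx'.2.2.2.2 (hn 4 (by decide))]
  · refine lw1_F F hE hS A b (fun x => x.qq) (fun x ho => ho.gqq) (fun x x' hx hx' h => ?_)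
      (fun s x hs => (lw1_val F hs x).2.2.1)
    refine Cf.ext ?_ ?_ h ?_ ?_
    · rw [hx.1 (hn 0 (by decide)), hx'.1 (hn 0 (by decide))]
    · rw [hx.2.1 (hn 1 (by decide)), hx'.2.1 (hn 1 (by decide))]
    · rw [hx.2.2.2.1 (hn 3 (by decide)), hx'.2.2.2.1 (hn 3 (by decide))]
    · rw [hx.2.2.2.2 (hn 4 (by decide)), hx'.2.2.2.2 (hn 4 (by decide))]
  · refine lw1_F F hE hS A b (fun x => x.g0) (fun x ho => ho.gg0) (fun x x' hx hx' h => ?_)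
      (fun s x hs => (lw1_val F hs x).2.2.2.1)
    refine Cf.ext ?_ ?_ ?_ h ?_
    · rw [hx.1 (hn 0 (by decide)), hx'.1 (hn 0 (by decide))]
    · rw [hx.2.1 (hn 1 (by decide)), hx'.2.1 (hn 1 (by decide))]
    · rw [hx.2.2.1 (hn 2 (by decide)), hx'.2.2.1 (hn 2 (by decide))]
    · rw [hx.2.2.2.2 (hn 4 (by decide)), hx'.2.2.2.2 (hn 4 (by decide))]
  · refine lw1_F F hE hS A b (fun x => x.g1) (fun x ho => ho.gg1) (fun x x' hx hx' h => ?_)
      (fun s x hs => (lw1_val F hs x).2.2.2.2)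
    refine Cf.ext ?_ ?_ ?_ ?_ h
    · rw [hx.1 (hn 0 (by decide)), hx'.1 (hn 0 (by decide))]
    · rw [hx.2.1 (hn 1 (by decide)), hx'.2.1 (hn 1 (by decide))]
    · rw [hx.2.2.1 (hn 2 (by decide)), hx'.2.2.1 (hn 2 (by decide))]
    · rw [hx.2.2.2.1 (hn 3 (by decide)), hx'.2.2.2.1 (hn 3 (by decide))]

end Pool.Agent.H32.MQ
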