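import Pool.Agent.H32.MQ.LStm
import Pool.Agent.H32.MQ.UM
import Pool.Agent.H98.MF.SFXSmallA

/-!
# Malle's conjecture for 8T28 and 8T29 over number fields: the variables `g0`, `g1` (row L3)
-/

set_option autoImplicit false

open scoped BigOperators Topology
open Filter

namespace Pool.Agent.H32.MQ

open Pool.Agent.H98.MK (sg)
open Pool.Agent.H98.MF

namespace LW34

section

variable {S SF : Sys} (F : Qf S SF)

theorem up_ne (p : S.P) : (F.up p).Nonempty := by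
  by_cases h : ∃ a, F.Q.sh a = p
  · obtain ⟨a, rfl⟩ := h
    rw [F.up_s]
    exact ⟨F.io a, Finset.mem_insert_self _ _⟩
  · push Not at h
    obtain ⟨P, hP, -⟩ := F.up_i p h
    rw [hP]
    exact Finset.singleton_nonempty P

theorem io_mem (a : F.Q.P) : F.io a ∈ F.up (F.Q.sh a) := by
  rw [F.up_s]
  exact Finset.mem_insert_self _ _

theorem gd_empty : F.Q.Gd ∅ := fun a ha => absurd ha (Finset.notMem_empty a)

theorem sum_els (f : El S → ℝ) : ∑ c ∈ F.Q.els, f c = ∑ c : S.T, f (c, ∅) := by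
  unfold Qd.els
  rw [F.M_eq, Finset.powerset_empty, Finset.sum_product]
  refine Finset.sum_congr rfl fun c _ => ?_
  rw [Finset.sum_singleton]

theorem lab_eq (x : Finset S.P) : F.Q.lab x = (S.tys x, ∅) := by
  unfold Qd.lab
  rw [F.M_eq, Finset.filter_empty]

theorem sum_B {g : Finset F.Q.P} (hg : F.Q.Gd g) (f : F.Q.G → ℝ) :
    ∑ γ ∈ F.Q.B g, f γ = ∑ a : SF.T, f (F.el a g) := by
  rw [F.B_eq g hg, Finset.sum_image]
  intro a _ a' _ h
  exact (F.el_inj a a' g g hg hg h).1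

theorem thc_el (θ : SF.T → SF.T → S.T → S.T → ℝ) {g : Finset F.Q.P} (hg : F.Q.Gd g)
    (h0 : g ≠ ∅) (a : SF.T) (c l : S.T) :
    thc F θ (F.el a g) (c, ∅) (l, ∅) = θ a (SF.tys (g.image F.io)) c l := by
  unfold thc
  rw [if_neg, F.co_el a g hg]
  rintro ⟨⟨a', h⟩, -⟩
  exact h0 (F.el_inj a a' g ∅ hg (gd_empty F) h).2

theorem abs_thc (θ : SF.T → SF.T → S.T → S.T → ℝ) (hθ : Bdd4 θ) (γ : F.Q.G) (c l : El S) :
    |thc F θ γ c l| ≤ 1 := by
  unfold thc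
  split_ifs
  · rw [abs_zero]
    exact zero_le_one
  · exact hθ _ _ _ _

/-- the index set -/
abbrev W : Type := (Fin 0 → Finset S.P) × (Fin 2 → Finset F.Q.P)

/-- the configurations with `q0`, `q12`, `qq` fixed -/
noncomputable def cfe (b : Cf F.Q) (w : W F) : Cf F.Q := ⟨b.q0, b.q12, b.qq, w.2 0, w.2 1⟩

theorem cfe_inj (b : Cf F.Q) : Function.Injective (cfe F b) := by
  intro w w' h
  have h3 : w.2 0 = w'.2 0 := congrArg Cf.g0 h
  have h4 : w.2 1 = w'.2 1 := congrArg Cf.g1 h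
  refine Prod.ext (Subsingleton.elim _ _) (funext fun j => ?_)
  fin_cases j
  · exact h3
  · exact h4

theorem WA_eq (θ : SF.T → SF.T → S.T → S.T → ℝ) (b : Cf F.Q) (s : ℝ) :
    WA F θ {3, 4} b s =
      ∑' w : W F, (Wp F.Q s).val (cfe F b w) * (cfe F b w).tm (thc F θ) := by
  unfold WA
  rw [← (cfe_inj F b).tsum_eq]
  · refine tsum_congr fun w => ?_
    rw [if_pos]
    exact ⟨fun _ => rfl, fun _ => rfl, fun _ => rfl, fun h => absurd (by decide) h,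
      fun h => absurd (by decide) h⟩
  · intro x hx
    rw [Function.mem_support] at hx
    have h1 : Ag F {3, 4} b x := by
      by_contra h
      exact hx (if_neg h)
    obtain ⟨k0, k1, k2, -, -⟩ := h1
    refine ⟨(Fin.elim0, ![x.g0, x.g1]), ?_⟩
    ext1
    · exact (k0 (by decide)).symm
    · exact (k1 (by decide)).symm
    · exact (k2 (by decide)).symm
    · rfl
    · rfl

/-- the conditions for the fixed variables -/
structure Bs (b : Cf F.Q) : Prop where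
  d01 : Disjoint b.q0 b.q12
  d02 : Disjoint b.q0 (F.Q.shd b.qq)
  d12 : Disjoint b.q12 (F.Q.shd b.qq)
  gq : F.Q.Gd b.qq

theorem disj_q {b : Cf F.Q} {x : Finset S.P} :
    Disjoint x b.q ↔ Disjoint x b.q0 ∧ Disjoint x b.q12 ∧ Disjoint x (F.Q.shd b.qq) := by
  unfold Cf.q
  rw [Finset.disjoint_union_right, Finset.disjoint_union_right, and_assoc]

theorem ok_of {b : Cf F.Q} {w : W F} (hb : Bs F b) (h : okE F b.q w) : (cfe F b w).Ok := by
  obtain ⟨-, h1, h2, -, h3, -⟩ := h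
  obtain ⟨k0, k1, k2⟩ := (disj_q F).1 (h1 0)
  obtain ⟨l0, l1, l2⟩ := (disj_q F).1 (h1 1)
  have k3 := h3 0 1 (by decide)
  have d01 := hb.d01
  have d02 := hb.d02
  have d12 := hb.d12
  have key : ∀ i j : Fin 5, i < j → Disjoint ((cfe F b w).sd i) ((cfe F b w).sd j) := by
    intro i j hij
    fin_cases i <;> fin_cases j <;>
      first
      | exact absurd hij (by decide)
      | exact d01
      | exact d02
      | exact d12
      | exact k0.symm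
      | exact k1.symm
      | exact k2.symm
      | exact l0.symm
      | exact l1.symm
      | exact l2.symm
      | exact k3
  refine ⟨fun i j hij => ?_, fun i => ?_, hb.gq, h2 0, h2 1⟩
  · rcases lt_or_gt_of_ne hij with h4 | h4
    · exact key i j h4
    · exact (key j i h4).symm
  · rw [F.M_eq]
    exact Finset.disjoint_empty_right _

theorem of_ok {b : Cf F.Q} {w : W F} (h : (cfe F b w).Ok) : Bs F b ∧ okE F b.q w := by
  have d01 : Disjoint b.q0 b.q12 := h.dj 0 1 (by decide)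
  have d02 : Disjoint b.q0 (F.Q.shd b.qq) := h.dj 0 2 (by decide)
  have d12 : Disjoint b.q12 (F.Q.shd b.qq) := h.dj 1 2 (by decide)
  have k0 : Disjoint (F.Q.shd (w.2 0)) b.q0 := h.dj 3 0 (by decide)
  have k1 : Disjoint (F.Q.shd (w.2 0)) b.q12 := h.dj 3 1 (by decide)
  have k2 : Disjoint (F.Q.shd (w.2 0)) (F.Q.shd b.qq) := h.dj 3 2 (by decide)
  have l0 : Disjoint (F.Q.shd (w.2 1)) b.q0 := h.dj 4 0 (by decide)
  have l1 : Disjoint (F.Q.shd (w.2 1)) b.q12 := h.dj 4 1 (by decide)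
  have l2 : Disjoint (F.Q.shd (w.2 1)) (F.Q.shd b.qq) := h.dj 4 2 (by decide)
  have k3 : Disjoint (F.Q.shd (w.2 0)) (F.Q.shd (w.2 1)) := h.dj 3 4 (by decide)
  refine ⟨⟨d01, d02, d12, h.gqq⟩, fun i => i.elim0, ?_, ?_, fun i => i.elim0, ?_,
    fun i => i.elim0⟩
  · intro j
    fin_cases j
    · exact (disj_q F).2 ⟨k0, k1, k2⟩
    · exact (disj_q F).2 ⟨l0, l1, l2⟩
  · intro j
    fin_cases j
    · exact h.gg0
    · exact h.gg1
  · intro j j' hj
    fin_cases j <;> fin_cases j'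
    · exact absurd rfl hj
    · exact k3
    · exact k3.symm
    · exact absurd rfl hj

theorem disj_bi {x : Finset S.P} {g : Finset F.Q.P} (h : Disjoint (F.Q.shd g) x) :
    Disjoint (g.image F.io) (x.biUnion F.up) := by
  rw [Finset.disjoint_left]
  intro P hP hP'
  obtain ⟨a, ha, rfl⟩ := Finset.mem_image.1 hP
  obtain ⟨p, hp, hp'⟩ := Finset.mem_biUnion.1 hP'
  have h1 : F.Q.sh a = p := F.up_d _ _ _ (io_mem F a) hp'
  exact Finset.disjoint_left.1 h (F.Q.mem_shd ha) (h1 ▸ hp)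

theorem disj_io {g g' : Finset F.Q.P} (h : Disjoint (F.Q.shd g) (F.Q.shd g')) :
    Disjoint (g.image F.io) (g'.image F.io) := by
  rw [Finset.disjoint_left]
  intro P hP hP'
  obtain ⟨a, ha, rfl⟩ := Finset.mem_image.1 hP
  obtain ⟨a', ha', h1⟩ := Finset.mem_image.1 hP'
  have h2 : a' = a := F.io_inj h1
  exact Finset.disjoint_left.1 h (F.Q.mem_shd ha) (h2 ▸ F.Q.mem_shd ha')

theorem JJ_symmDiff (x y y' : Finset SF.P) :
    SF.JJ x (symmDiff y y') = SF.JJ x y + SF.JJ x y' := by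
  have h1 : Disjoint (y \ y') (y' \ y) := disjoint_sdiff_sdiff
  have h2 : Disjoint (y \ y') (y ∩ y') := Finset.disjoint_sdiff_inter y y'
  have h3 : Disjoint (y' \ y) (y' ∩ y) := Finset.disjoint_sdiff_inter y' y
  have e1 : y \ y' ∪ y ∩ y' = y := Finset.sdiff_union_inter y y'
  have e2 : y' \ y ∪ y' ∩ y = y' := Finset.sdiff_union_inter y' y
  have k1 := SF.JJ_union_right x h2
  have k2 := SF.JJ_union_right x h3
  rw [e1] at k1
  rw [e2, Finset.inter_comm y' y] at k2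
  have k3 := SF.JJ_union_right x h1
  have e3 : symmDiff y y' = y \ y' ∪ y' \ y := rfl
  rw [e3, k3, k1, k2]
  have k4 : SF.JJ x (y ∩ y') + SF.JJ x (y ∩ y') = 0 := CharTwo.add_self_eq_zero _
  linear_combination (-1 : ZMod 2) * k4

/-- the primes above `q12` and `qq` -/
noncomputable def Y0 (b : Cf F.Q) : Finset SF.P := b.q12.biUnion F.up ∪ b.qq.image F.io

/-- the coefficient of `-1` -/
noncomputable def L0 (b : Cf F.Q) : SF.T := (SF.l ⬝ᵥ SF.tys (Y0 F b)) • SF.l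

/-- the moduli for `g1` -/
noncomputable def Y1 (b : Cf F.Q) : Finset SF.P := symmDiff (Y0 F b) (b.q.biUnion F.up)

theorem sign (hL : SLE) {b : Cf F.Q} {w : W F} (h : (cfe F b w).Ok) (a : SF.T) (c : S.T) :
    (cfe F b w).E (F.el a (cfe F b w).g) (c, ∅) = a ⬝ᵥ SF.tys (Y0 F b) +
      (SF.JJ ((w.2 0).image F.io) (Y0 F b) + L0 F b ⬝ᵥ SF.tys ((w.2 0).image F.io)) +
      (SF.JJ ((w.2 1).image F.io) (Y1 F b) +
        (L0 F b + F.cd + F.em (c, b.q)) ⬝ᵥ SF.tys ((w.2 1).image F.io)) := by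
  have h0 := hL S SF F (cfe F b w) a c h
  obtain ⟨hb, ho⟩ := of_ok F h
  obtain ⟨-, o1, o2, -, o3, -⟩ := ho
  obtain ⟨k0, k1, k2⟩ := (disj_q F).1 (o1 0)
  obtain ⟨l0, l1, l2⟩ := (disj_q F).1 (o1 1)
  set A : Finset SF.P := b.q12.biUnion F.up with hA
  set B : Finset SF.P := b.qq.image F.io with hB
  set G0 : Finset SF.P := (w.2 0).image F.io with hG0
  set G1 : Finset SF.P := (w.2 1).image F.io with hG1
  have h0' : (cfe F b w).E (F.el a (cfe F b w).g) (c, ∅) =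
    (SF.JJ A G0 + SF.JJ A G1 + a ⬝ᵥ SF.tys A) + (SF.JJ B G0 + SF.JJ B G1 + a ⬝ᵥ SF.tys B) +
    (F.cd ⬝ᵥ SF.tys G1 + S.JJ (F.Q.shd (w.2 1)) b.q0 + S.JJ (F.Q.shd (w.2 1)) b.q12 +
      S.JJ (F.Q.shd (w.2 1)) (F.Q.shd b.qq) + c ⬝ᵥ S.tys (F.Q.shd (w.2 1))) := h0
  have hAB : Disjoint A B := (disj_bi F hb.d12.symm).symm
  have hAG0 : Disjoint A G0 := (disj_bi F k1).symm
  have hAG1 : Disjoint A G1 := (disj_bi F l1).symm
  have hBG0 : Disjoint B G0 := (disj_io F k2).symm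
  have hBG1 : Disjoint B G1 := (disj_io F l2).symm
  have hY : Y0 F b = A ∪ B := rfl
  have hYG0 : Disjoint (A ∪ B) G0 := Finset.disjoint_union_left.2 ⟨hAG0, hBG0⟩
  have hYG1 : Disjoint (A ∪ B) G1 := Finset.disjoint_union_left.2 ⟨hAG1, hBG1⟩
  have e0 := SF.JJ_recip hYG0
  have e1 := SF.JJ_recip hYG1
  have e2 := SF.JJ_union_left G0 hAB
  have e3 := SF.JJ_union_left G1 hAB
  have e4 : a ⬝ᵥ SF.tys (A ∪ B) = a ⬝ᵥ SF.tys A + a ⬝ᵥ SF.tys B := by
    rw [SF.tys_union hAB, dotProduct_add]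
  have t0 : SF.JJ G0 (A ∪ B) + SF.JJ G0 (A ∪ B) = 0 := CharTwo.add_self_eq_zero _
  have t1 : SF.JJ G1 (A ∪ B) + SF.JJ G1 (A ∪ B) = 0 := CharTwo.add_self_eq_zero _
  -- the sum over `g1`
  have e5 : S.JJ (F.Q.shd (w.2 1)) b.q = S.JJ (F.Q.shd (w.2 1)) b.q0 +
      S.JJ (F.Q.shd (w.2 1)) b.q12 + S.JJ (F.Q.shd (w.2 1)) (F.Q.shd b.qq) := by
    unfold Cf.q
    rw [S.JJ_union_right _ (Finset.disjoint_union_left.2 ⟨hb.d02, hb.d12⟩),
      S.JJ_union_right _ hb.d01]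
  have e6 : S.JJ (F.Q.shd (w.2 1)) b.q + c ⬝ᵥ S.tys (F.Q.shd (w.2 1)) =
      SF.JJ G1 (b.q.biUnion F.up) + F.em (c, b.q) ⬝ᵥ SF.tys G1 := by
    rw [← S.sum_ex, ← SF.sum_ex, F.Q.sum_shd (o2 1), hG1,
      Finset.sum_image fun x _ y _ hxy => F.io_inj hxy]
    refine Finset.sum_congr rfl fun x hx => ?_
    exact F.em_s (c, b.q) x (Finset.disjoint_left.1 (o1 1) (F.Q.mem_shd hx))
  have e7 : SF.JJ G1 (Y1 F b) = SF.JJ G1 (A ∪ B) + SF.JJ G1 (b.q.biUnion F.up) :=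
    JJ_symmDiff G1 (A ∪ B) (b.q.biUnion F.up)
  have e8 : ∀ G : Finset SF.P, L0 F b ⬝ᵥ SF.tys G =
      (SF.l ⬝ᵥ SF.tys (A ∪ B)) * (SF.l ⬝ᵥ SF.tys G) := by
    intro G
    unfold L0
    rw [hY, smul_dotProduct, smul_eq_mul]
  rw [h0', hY, e7, add_dotProduct, add_dotProduct, e8, e8, e4]
  linear_combination e6 - e5 + e0 + e1 - e2 - e3 - t0 - t1

/-- the characters -/
noncomputable def YY (b : Cf F.Q) (c : S.T) (ψ : SF.T) : Fin 2 → El SF :=
  ![(ψ + L0 F b, Y0 F b), (ψ + (L0 F b + F.cd + F.em (c, b.q)), Y1 F b)]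

/-- the coefficients -/
noncomputable def KK (θ : SF.T → SF.T → S.T → S.T → ℝ) (b : Cf F.Q) (s : ℝ)
    (i : SF.T × S.T × SF.T) : ℝ :=
  pw s b.q0 * pw s b.q12 * pw s (F.Q.shd b.qq) *
    sxF (fun k : Fin SF.m → ZMod 2 => θ i.1 k i.2.1 (S.tys b.q)) i.2.2 *
      ((sg (i.1 ⬝ᵥ SF.tys (Y0 F b)) : ℤ) : ℝ)

/-- the expanded term -/
noncomputable def HH (θ : SF.T → SF.T → S.T → S.T → ℝ) (b : Cf F.Q) (s : ℝ) (w : W F) : ℝ :=
  ∑ i : SF.T × S.T × SF.T, KK F θ b s i *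
    tE F (Fin.elim0 : Fin 0 → El S) (YY F b i.2.1 i.2.2) b.q s w

theorem tE_ok {b : Cf F.Q} {w : W F} (h : okE F b.q w) (s : ℝ) (c : S.T) (ψ : SF.T) :
    tE F (Fin.elim0 : Fin 0 → El S) (YY F b c ψ) b.q s w =
      (((sg (SF.JJ ((w.2 0).image F.io) (Y0 F b) +
        (ψ + L0 F b) ⬝ᵥ SF.tys ((w.2 0).image F.io)) : ℤ) : ℝ) * pw s (F.Q.shd (w.2 0))) *
      (((sg (SF.JJ ((w.2 1).image F.io) (Y1 F b) +
        (ψ + (L0 F b + F.cd + F.em (c, b.q))) ⬝ᵥ SF.tys ((w.2 1).image F.io)) : ℤ) : ℝ) *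
          pw s (F.Q.shd (w.2 1))) := by
  unfold tE
  rw [if_pos h, Fin.prod_univ_zero, one_mul, Fin.prod_univ_two]
  rfl

theorem tE_not {b : Cf F.Q} {w : W F} (h : ¬ okE F b.q w) (s : ℝ) (Y : Fin 2 → El SF) :
    tE F (Fin.elim0 : Fin 0 → El S) Y b.q s w = 0 := by
  unfold tE
  rw [if_neg h]

theorem val_eq (b : Cf F.Q) (s : ℝ) (w : W F) : (Wp F.Q s).val (cfe F b w) =
    pw s b.q0 * pw s b.q12 * pw s (F.Q.shd b.qq) * pw s (F.Q.shd (w.2 0)) *
      pw s (F.Q.shd (w.2 1)) := rfl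

theorem term (hL : SLE) (θ : SF.T → SF.T → S.T → S.T → ℝ) {b : Cf F.Q} (hb : Bs F b) (s : ℝ)
    {w : W F} (hw : ¬ (w.2 0 = ∅ ∧ w.2 1 = ∅)) :
    (Wp F.Q s).val (cfe F b w) * (cfe F b w).tm (thc F θ) = HH F θ b s w := by
  by_cases ho : okE F b.q w
  · have hk := ok_of F hb ho
    have hd : Disjoint (F.Q.shd (w.2 0)) (F.Q.shd (w.2 1)) := ho.2.2.2.2.1 0 1 (by decide)
    have hg : F.Q.Gd (cfe F b w).g := F.Q.Gd_union (ho.2.2.1 0) (ho.2.2.1 1) hd
    have hg0 : (cfe F b w).g ≠ ∅ := by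
      intro h
      have h1 : w.2 0 ∪ w.2 1 = ∅ := h
      rw [Finset.union_eq_empty] at h1
      exact hw h1
    have hty : SF.tys ((cfe F b w).g.image F.io) =
        SF.tys ((w.2 0).image F.io) + SF.tys ((w.2 1).image F.io) := by
      have h1 : (cfe F b w).g.image F.io = (w.2 0).image F.io ∪ (w.2 1).image F.io :=
        Finset.image_union _ _
      rw [h1, SF.tys_union (disj_io F hd)]
    unfold Cf.tm
    rw [if_pos hk, sum_B F hg, Finset.mul_sum]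
    unfold HH
    rw [Fintype.sum_prod_type]
    refine Finset.sum_congr rfl fun a _ => ?_
    rw [sum_els, Finset.mul_sum, Fintype.sum_prod_type]
    refine Finset.sum_congr rfl fun c _ => ?_
    have hq : (cfe F b w).q = b.q := rfl
    rw [hq, lab_eq, thc_el F θ hg hg0, hty,
      sx_fourier (fun k : Fin SF.m → ZMod 2 => θ a k c (S.tys b.q)), Finset.sum_mul,
      Finset.mul_sum]
    refine Finset.sum_congr rfl fun ψ _ => ?_
    rw [sign F hL hk a c, tE_ok F ho s c ψ, val_eq]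
    unfold KK
    simp only [add_dotProduct, dotProduct_add, sg_add, Int.cast_mul]
    ring
  · have hk : ¬ (cfe F b w).Ok := fun h => ho (of_ok F h).2
    unfold Cf.tm HH
    rw [if_neg hk, mul_zero]
    symm
    refine Finset.sum_eq_zero fun i _ => ?_
    rw [tE_not F ho, mul_zero]

theorem pw_nonneg (s : ℝ) (x : Finset S.P) : 0 ≤ pw s x :=
  Real.rpow_nonneg (Nat.cast_nonneg _) _

theorem pw_le {s : ℝ} (hs : 0 ≤ s) (x : Finset S.P) : pw s x ≤ 1 :=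
  Real.rpow_le_one_of_one_le_of_nonpos (S.one_le_nmr x) (by linarith)

theorem abs_pw {s : ℝ} (hs : 0 ≤ s) (x : Finset S.P) : |pw s x| ≤ 1 := by
  rw [abs_of_nonneg (pw_nonneg s x)]
  exact pw_le hs x

theorem abs_mul_le {x y : ℝ} (hx : |x| ≤ 1) (hy : |y| ≤ 1) : |x * y| ≤ 1 := by
  rw [abs_mul]
  exact mul_le_one₀ hx (abs_nonneg _) hy

theorem abs_sxF {κ : Type} [Fintype κ] [DecidableEq κ] (G : (κ → ZMod 2) → ℝ)
    (hG : ∀ u, |G u| ≤ 1) (c : κ → ZMod 2) : |sxF G c| ≤ 1 := by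
  unfold sxF
  rw [abs_mul]
  have h1 : |∑ u : κ → ZMod 2, G u * ((sg (c ⬝ᵥ u) : ℤ) : ℝ)| ≤ 2 ^ Fintype.card κ := by
    refine (Finset.abs_sum_le_sum_abs _ _).trans ?_
    have h2 : ∀ u ∈ (Finset.univ : Finset (κ → ZMod 2)),
        |G u * ((sg (c ⬝ᵥ u) : ℤ) : ℝ)| ≤ 1 := by
      intro u _
      rw [abs_mul, abs_sgr, mul_one]
      exact hG u
    refine (Finset.sum_le_sum h2).trans ?_
    rw [Finset.sum_const, Finset.card_univ, nsmul_eq_mul, mul_one, Fintype.card_fun, ZMod.card]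
    push_cast
    exact le_refl _
  have h3 : |(1 / 2 : ℝ) ^ Fintype.card κ| = (1 / 2 : ℝ) ^ Fintype.card κ :=
    abs_of_nonneg (by positivity)
  rw [h3]
  calc (1 / 2 : ℝ) ^ Fintype.card κ * |∑ u : κ → ZMod 2, G u * ((sg (c ⬝ᵥ u) : ℤ) : ℝ)| ≤
      (1 / 2 : ℝ) ^ Fintype.card κ * 2 ^ Fintype.card κ :=
        mul_le_mul_of_nonneg_left h1 (by positivity)
    _ = 1 := by rw [← mul_pow]; norm_num

theorem abs_KK (θ : SF.T → SF.T → S.T → S.T → ℝ) (hθ : Bdd4 θ) (b : Cf F.Q) {s : ℝ}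
    (hs : 0 ≤ s) (i : SF.T × S.T × SF.T) : |KK F θ b s i| ≤ 1 := by
  unfold KK
  refine abs_mul_le (abs_mul_le (abs_mul_le (abs_mul_le ?_ ?_) ?_) ?_) ?_
  · exact abs_pw hs _
  · exact abs_pw hs _
  · exact abs_pw hs _
  · exact abs_sxF _ (fun u => hθ _ _ _ _) _
  · rw [abs_sgr]

theorem abs_tE {b : Cf F.Q} {w : W F} {s : ℝ} (hs : 0 ≤ s) (c : S.T) (ψ : SF.T) :
    |tE F (Fin.elim0 : Fin 0 → El S) (YY F b c ψ) b.q s w| ≤ 1 := by
  by_cases ho : okE F b.q w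
  · rw [tE_ok F ho]
    refine abs_mul_le (abs_mul_le ?_ (abs_pw hs _)) (abs_mul_le ?_ (abs_pw hs _))
    · rw [abs_sgr]
    · rw [abs_sgr]
  · rw [tE_not F ho, abs_zero]
    exact zero_le_one

theorem abs_HH (θ : SF.T → SF.T → S.T → S.T → ℝ) (hθ : Bdd4 θ) (b : Cf F.Q) {s : ℝ}
    (hs : 0 ≤ s) (w : W F) : |HH F θ b s w| ≤ Fintype.card (SF.T × S.T × SF.T) := by
  unfold HH
  refine (Finset.abs_sum_le_sum_abs _ _).trans ?_
  refine (Finset.sum_le_sum fun i _ => abs_mul_le (abs_KK F θ hθ b hs i)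
    (abs_tE F hs i.2.1 i.2.2)).trans ?_
  rw [Finset.sum_const, Finset.card_univ, nsmul_eq_mul, mul_one]

theorem abs_term (θ : SF.T → SF.T → S.T → S.T → ℝ) (hθ : Bdd4 θ) (b : Cf F.Q) {s : ℝ}
    (hs : 0 ≤ s) (w : W F) : |(Wp F.Q s).val (cfe F b w) * (cfe F b w).tm (thc F θ)| ≤
      Fintype.card (SF.T × S.T) := by
  have h1 : |(Wp F.Q s).val (cfe F b w)| ≤ 1 := by
    rw [val_eq]
    exact abs_mul_le (abs_mul_le (abs_mul_le (abs_mul_le (abs_pw hs _) (abs_pw hs _))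
      (abs_pw hs _)) (abs_pw hs _)) (abs_pw hs _)
  have h2 : |(cfe F b w).tm (thc F θ)| ≤ Fintype.card (SF.T × S.T) := by
    by_cases hk : (cfe F b w).Ok
    · have hd : Disjoint (F.Q.shd (w.2 0)) (F.Q.shd (w.2 1)) := hk.dj 3 4 (by decide)
      have hg : F.Q.Gd (cfe F b w).g := F.Q.Gd_union hk.gg0 hk.gg1 hd
      unfold Cf.tm
      rw [if_pos hk, sum_B F hg]
      have h3 : ∀ a : SF.T, |∑ c ∈ F.Q.els, thc F θ (F.el a (cfe F b w).g) c
          (F.Q.lab (cfe F b w).q) * ((sg ((cfe F b w).E (F.el a (cfe F b w).g) c) : ℤ) : ℝ)| ≤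
          Fintype.card S.T := by
        intro a
        rw [sum_els]
        refine (Finset.abs_sum_le_sum_abs _ _).trans ?_
        refine (Finset.sum_le_sum (g := fun _ => (1 : ℝ)) fun c _ => ?_).trans ?_
        · exact abs_mul_le (abs_thc F θ hθ _ _ _) (by rw [abs_sgr])
        · rw [Finset.sum_const, Finset.card_univ, nsmul_eq_mul, mul_one]
      refine (Finset.abs_sum_le_sum_abs _ _).trans ((Finset.sum_le_sum fun a _ => h3 a).trans ?_)
      rw [Finset.sum_const, Finset.card_univ, nsmul_eq_mul, Fintype.card_prod]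
      push_cast
      exact le_refl _
    · unfold Cf.tm
      rw [if_neg hk, abs_zero]
      exact Nat.cast_nonneg _
  rw [abs_mul]
  calc |(Wp F.Q s).val (cfe F b w)| * |(cfe F b w).tm (thc F θ)| ≤
      1 * Fintype.card (SF.T × S.T) := mul_le_mul h1 h2 (abs_nonneg _) zero_le_one
    _ = Fintype.card (SF.T × S.T) := one_mul _

theorem nfr_le {b : Cf F.Q} (hq : b.q ≠ ∅) (c : S.T) (ψ : SF.T) :
    nfr (Fin.elim0 : Fin 0 → El S) (YY F b c ψ) ≤ 1 := by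
  have hne : ¬ (YY F b c ψ 0 = (0, ∅) ∧ YY F b c ψ 1 = (0, ∅)) := by
    rintro ⟨h0, h1⟩
    have h2 : Y0 F b = ∅ := congrArg Prod.snd h0
    have h3 : Y1 F b = ∅ := congrArg Prod.snd h1
    unfold Y1 at h3
    rw [h2] at h3
    have h4 : b.q.biUnion F.up = ∅ := by
      have h5 : symmDiff (∅ : Finset SF.P) (b.q.biUnion F.up) = b.q.biUnion F.up :=
        bot_symmDiff _
      rw [← h5, h3]
    obtain ⟨p, hp⟩ := Finset.nonempty_iff_ne_empty.2 hq
    obtain ⟨P, hP⟩ := up_ne F p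
    exact Finset.notMem_empty P (h4 ▸ Finset.mem_biUnion.2 ⟨p, hp, hP⟩)
  unfold nfr
  rw [Finset.univ_eq_empty, Finset.filter_empty, Finset.card_empty, zero_add,
    Finset.card_le_one]
  intro i hi j hj
  have hi' := (Finset.mem_filter.1 hi).2
  have hj' := (Finset.mem_filter.1 hj).2
  fin_cases i <;> fin_cases j
  · rfl
  · exact absurd ⟨hi', hj'⟩ hne
  · exact absurd ⟨hj', hi'⟩ hne
  · rfl

theorem YY_sub (b : Cf F.Q) (c : S.T) (ψ : SF.T) (j : Fin 2) :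
    (YY F b c ψ j).2 ⊆ b.q.biUnion F.up := by
  have h0 : Y0 F b ⊆ b.q.biUnion F.up := by
    intro P hP
    rw [Finset.mem_biUnion]
    rcases Finset.mem_union.1 hP with h | h
    · obtain ⟨p, hp, hP'⟩ := Finset.mem_biUnion.1 h
      exact ⟨p, Finset.mem_union_left _ (Finset.mem_union_right _ hp), hP'⟩
    · obtain ⟨a, ha, rfl⟩ := Finset.mem_image.1 h
      exact ⟨F.Q.sh a, Finset.mem_union_right _ (F.Q.mem_shd ha), io_mem F a⟩
  fin_cases j
  · exact h0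
  · intro P hP
    have hP' : P ∈ symmDiff (Y0 F b) (b.q.biUnion F.up) := hP
    rcases Finset.mem_symmDiff.1 hP' with h | h
    · exact h0 h.1
    · exact h.1

end

end LW34

open LW34 in
/-- **L3**: the variables `g0`, `g1` -/
theorem slw34_of (hL : SLE) (hE : SEB) (hS : SES) : SLW34 := by
  intro S SF F b hq
  have hC : ∀ i : SF.T × S.T × SF.T, ∃ C : ℝ, ∀ σ : ℝ, 0 < σ → σ ≤ 1 →
      |ES F (Fin.elim0 : Fin 0 → El S) (YY F b i.2.1 i.2.2) b.q (1 + σ)| ≤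
        C * σ ^ (-(nfr (Fin.elim0 : Fin 0 → El S) (YY F b i.2.1 i.2.2) : ℝ)) := fun i =>
    hE S SF F 0 2 Fin.elim0 (YY F b i.2.1 i.2.2) b.q (fun i => i.elim0)
      fun j => YY_sub F b i.2.1 i.2.2 j
  choose C hC using hC
  set N : ℝ := (Fintype.card (SF.T × S.T × SF.T) : ℝ) + (Fintype.card (SF.T × S.T) : ℝ) with hN
  have hN0 : 0 ≤ N := by positivity
  have hCs : 0 ≤ ∑ i, |C i| := Finset.sum_nonneg fun i _ => abs_nonneg _
  refine ⟨∑ i, |C i| + N, ?_⟩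
  intro θ σ hθ h0 h1
  have hs : (0 : ℝ) ≤ 1 + σ := by linarith
  have hσ : 1 ≤ σ ^ (-(1 : ℝ)) := Real.one_le_rpow_of_pos_of_le_one_of_nonpos h0 h1 (by norm_num)
  rw [WA_eq]
  by_cases hb : Bs F b
  swap
  · have h2 : ∀ w : W F, (Wp F.Q (1 + σ)).val (cfe F b w) * (cfe F b w).tm (thc F θ) = 0 := by
      intro w
      unfold Cf.tm
      rw [if_neg fun h => hb (of_ok F h).1, mul_zero]
    rw [tsum_congr h2, tsum_zero, abs_zero]
    exact mul_nonneg (add_nonneg hCs hN0) (zero_le_one.trans hσ)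
  have hsum : ∀ i : SF.T × S.T × SF.T, Summable fun w : W F => KK F θ b (1 + σ) i *
      tE F (Fin.elim0 : Fin 0 → El S) (YY F b i.2.1 i.2.2) b.q (1 + σ) w := fun i =>
    (hS S SF F 0 2 Fin.elim0 (YY F b i.2.1 i.2.2) b.q (1 + σ) (by linarith)).mul_left _
  have hH : Summable (HH F θ b (1 + σ)) := summable_sum fun i _ => hsum i
  have hHs : ∑' w, HH F θ b (1 + σ) w = ∑ i, KK F θ b (1 + σ) i *
      ES F (Fin.elim0 : Fin 0 → El S) (YY F b i.2.1 i.2.2) b.q (1 + σ) := by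
    unfold HH
    rw [Summable.tsum_finsetSum fun i _ => hsum i]
    refine Finset.sum_congr rfl fun i _ => ?_
    rw [tsum_mul_left]
    rfl
  set w0 : W F := (Fin.elim0, fun _ => ∅) with hw0
  set f : W F → ℝ := fun w => (Wp F.Q (1 + σ)).val (cfe F b w) * (cfe F b w).tm (thc F θ) with hf
  have hfw : ∀ w, f w = HH F θ b (1 + σ) w +
      (if w = w0 then f w0 - HH F θ b (1 + σ) w0 else 0) := by
    intro w
    split_ifs with h
    · rw [h]
      ring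
    · rw [add_zero]
      refine term F hL θ hb (1 + σ) fun h2 => h ?_
      refine Prod.ext (Subsingleton.elim _ _) (funext fun j => ?_)
      fin_cases j
      · exact h2.1
      · exact h2.2
  have hft : ∑' w, f w = ∑' w, HH F θ b (1 + σ) w + (f w0 - HH F θ b (1 + σ) w0) := by
    rw [tsum_congr hfw, Summable.tsum_add hH (hasSum_ite_eq w0 _).summable, tsum_ite_eq]
  have hb1 : |∑' w, HH F θ b (1 + σ) w| ≤ (∑ i, |C i|) * σ ^ (-(1 : ℝ)) := by
    rw [hHs, Finset.sum_mul]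
    refine (Finset.abs_sum_le_sum_abs _ _).trans (Finset.sum_le_sum fun i _ => ?_)
    rw [abs_mul]
    have k1 := abs_KK F θ hθ b hs i
    have k2 := hC i σ h0 h1
    have k3 : σ ^ (-(nfr (Fin.elim0 : Fin 0 → El S) (YY F b i.2.1 i.2.2) : ℝ)) ≤
        σ ^ (-(1 : ℝ)) := by
      apply Real.rpow_le_rpow_of_exponent_ge h0 h1
      have k4 : ((nfr (Fin.elim0 : Fin 0 → El S) (YY F b i.2.1 i.2.2) : ℕ) : ℝ) ≤ 1 := by
        exact_mod_cast nfr_le F hq i.2.1 i.2.2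
      linarith
    have k5 : 0 ≤ σ ^ (-(nfr (Fin.elim0 : Fin 0 → El S) (YY F b i.2.1 i.2.2) : ℝ)) :=
      Real.rpow_nonneg h0.le _
    calc |KK F θ b (1 + σ) i| *
        |ES F (Fin.elim0 : Fin 0 → El S) (YY F b i.2.1 i.2.2) b.q (1 + σ)| ≤
        1 * |ES F (Fin.elim0 : Fin 0 → El S) (YY F b i.2.1 i.2.2) b.q (1 + σ)| :=
          mul_le_mul_of_nonneg_right k1 (abs_nonneg _)
      _ ≤ C i * σ ^ (-(nfr (Fin.elim0 : Fin 0 → El S) (YY F b i.2.1 i.2.2) : ℝ)) := by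
          rw [one_mul]
          exact k2
      _ ≤ |C i| * σ ^ (-(nfr (Fin.elim0 : Fin 0 → El S) (YY F b i.2.1 i.2.2) : ℝ)) :=
          mul_le_mul_of_nonneg_right (le_abs_self _) k5
      _ ≤ |C i| * σ ^ (-(1 : ℝ)) := mul_le_mul_of_nonneg_left k3 (abs_nonneg _)
  have hb2 : |f w0| ≤ Fintype.card (SF.T × S.T) := abs_term F θ hθ b hs w0
  have hb3 : |HH F θ b (1 + σ) w0| ≤ Fintype.card (SF.T × S.T × SF.T) := abs_HH F θ hθ b hs w0
  rw [hft]
  have h5 : |∑' w, HH F θ b (1 + σ) w + (f w0 - HH F θ b (1 + σ) w0)| ≤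
      |∑' w, HH F θ b (1 + σ) w| + (|f w0| + |HH F θ b (1 + σ) w0|) :=
    (abs_add_le _ _).trans (add_le_add le_rfl (abs_sub _ _))
  have h6 : N ≤ N * σ ^ (-(1 : ℝ)) := le_mul_of_one_le_right hN0 hσ
  rw [add_mul]
  linarith

end Pool.Agent.H32.MQ
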