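import Pool.Agent.H32.MQ.KUStm

/-!
# Malle's conjecture for 8T28 and 8T29 over number fields: the combinatorial lemma (MQ-U9)

For every `j` three of the five coordinates are bounded by a multiple of the saving `EE A j`;
the other two are free. So the series is bounded by ten products of geometric series.
-/

set_option autoImplicit false

open scoped BigOperators
open Finset

namespace Pool.Agent.H32.MQ

namespace UC

lemma EE_13 (A : ℝ) (j : Fin 5 → ℕ) : min (j 1 : ℝ) (j 3) ≤ EE A j := by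
  unfold EE
  exact le_max_of_le_left (le_max_of_le_left (le_max_left _ _))

lemma EE_04 (A : ℝ) (j : Fin 5 → ℕ) : min (j 0 : ℝ) (j 4) ≤ EE A j := by
  unfold EE
  exact le_max_of_le_left (le_max_of_le_left (le_max_right _ _))

lemma EE_23 (A : ℝ) (j : Fin 5 → ℕ) : min (j 2 : ℝ) (j 3) ≤ EE A j := by
  unfold EE
  exact le_max_of_le_left (le_max_of_le_right (le_max_left _ _))

lemma EE_24 (A : ℝ) (j : Fin 5 → ℕ) : min (j 2 : ℝ) (j 4) ≤ EE A j := by
  unfold EE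
  exact le_max_of_le_left (le_max_of_le_right (le_max_right _ _))

lemma EE_sp (A : ℝ) (j : Fin 5 → ℕ) : (if 1 ≤ j 3 then (j 1 : ℝ) - A * j 3
    else if 1 ≤ j 4 then (j 0 : ℝ) - A * j 4 else min (j 0 : ℝ) (j 1)) ≤ EE A j := by
  unfold EE
  exact le_max_right _ _

lemma EE_nonneg (A : ℝ) (j : Fin 5 → ℕ) : 0 ≤ EE A j :=
  le_trans (le_min (Nat.cast_nonneg _) (Nat.cast_nonneg _)) (EE_13 A j)

lemma Hi_le {A : ℝ} {J : ℕ} {j : Fin 5 → ℕ} (h : J = 0 ∨ Hi J j) : (J : ℝ) ≤ EE A j := by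
  rcases h with rfl | ⟨i, k, hl, h1, h2⟩
  · rw [Nat.cast_zero]; exact EE_nonneg A j
  · have h1' : (J : ℝ) ≤ j i := by exact_mod_cast h1.le
    have h2' : (J : ℝ) ≤ j k := by exact_mod_cast h2.le
    rcases hl with ⟨rfl, rfl⟩ | ⟨rfl, rfl⟩ | ⟨rfl, rfl⟩ | ⟨rfl, rfl⟩
    · exact (le_min h1' h2').trans (EE_13 A j)
    · exact (le_min h1' h2').trans (EE_04 A j)
    · exact (le_min h1' h2').trans (EE_23 A j)
    · exact (le_min h1' h2').trans (EE_24 A j)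

/-- the five sums of three coordinates -/
lemma sum_free (F : Finset (Fin 5)) (j : Fin 5 → ℕ) :
    ∑ i, (if i ∈ F then 0 else (j i : ℝ)) = (if (0 : Fin 5) ∈ F then 0 else (j 0 : ℝ)) +
      (if (1 : Fin 5) ∈ F then 0 else (j 1 : ℝ)) + (if (2 : Fin 5) ∈ F then 0 else (j 2 : ℝ)) +
      (if (3 : Fin 5) ∈ F then 0 else (j 3 : ℝ)) + (if (4 : Fin 5) ∈ F then 0 else (j 4 : ℝ)) :=
  Fin.sum_univ_five _

/-- three coordinates are bounded by the saving -/
lemma free {A : ℝ} (hA : 0 ≤ A) (j : Fin 5 → ℕ) :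
    ∃ F ∈ (univ : Finset (Fin 5)).powersetCard 2,
      ∑ i, (if i ∈ F then 0 else (j i : ℝ)) ≤ (A + 3) * EE A j := by
  have e0 := EE_nonneg A j
  have e1 := EE_13 A j
  have e2 := EE_04 A j
  have e3 := EE_23 A j
  have e4 := EE_24 A j
  have e5 := EE_sp A j
  set E := EE A j
  have hE : 3 * E ≤ (A + 3) * E := by nlinarith only [mul_nonneg hA e0]
  have k34 : ∀ {x y z : ℝ}, x ≤ E → y ≤ E → z ≤ E → x + y + z ≤ (A + 3) * E := by
    intro x y z hx hy hz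
    linarith
  rcases lt_or_ge E (j 3 : ℝ) with h3 | h3
  · have b1 : (j 1 : ℝ) ≤ E := by
      rcases min_le_iff.1 e1 with h | h
      · exact h
      · exact absurd h (not_le.2 h3)
    have b2 : (j 2 : ℝ) ≤ E := by
      rcases min_le_iff.1 e3 with h | h
      · exact h
      · exact absurd h (not_le.2 h3)
    rcases min_le_iff.1 e2 with h | h
    · refine ⟨{3, 4}, by decide, ?_⟩
      rw [sum_free]
      simpa using k34 h b1 b2
    · refine ⟨{0, 3}, by decide, ?_⟩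
      rw [sum_free]
      simpa using k34 b1 b2 h
  rcases lt_or_ge E (j 4 : ℝ) with h4 | h4
  · have b1 : (j 0 : ℝ) ≤ E := by
      rcases min_le_iff.1 e2 with h | h
      · exact h
      · exact absurd h (not_le.2 h4)
    have b2 : (j 2 : ℝ) ≤ E := by
      rcases min_le_iff.1 e4 with h | h
      · exact h
      · exact absurd h (not_le.2 h4)
    rcases min_le_iff.1 e1 with h | h
    · refine ⟨{3, 4}, by decide, ?_⟩
      rw [sum_free]
      simpa using k34 b1 h b2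
    · refine ⟨{1, 4}, by decide, ?_⟩
      rw [sum_free]
      simpa using k34 b1 b2 h
  -- both `j 3` and `j 4` are at most `E`
  have hA3 : A * (j 3 : ℝ) ≤ A * E := mul_le_mul_of_nonneg_left h3 hA
  have hA4 : A * (j 4 : ℝ) ≤ A * E := mul_le_mul_of_nonneg_left h4 hA
  have c1 : (j 1 : ℝ) ≤ A * E + E → ∃ F ∈ (univ : Finset (Fin 5)).powersetCard 2,
      ∑ i, (if i ∈ F then 0 else (j i : ℝ)) ≤ (A + 3) * E := by
    intro h
    refine ⟨{0, 2}, by decide, ?_⟩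
    rw [sum_free]
    have : (j 1 : ℝ) + j 3 + j 4 ≤ (A + 3) * E := by linarith
    simpa using this
  have c0 : (j 0 : ℝ) ≤ A * E + E → ∃ F ∈ (univ : Finset (Fin 5)).powersetCard 2,
      ∑ i, (if i ∈ F then 0 else (j i : ℝ)) ≤ (A + 3) * E := by
    intro h
    refine ⟨{1, 2}, by decide, ?_⟩
    rw [sum_free]
    have : (j 0 : ℝ) + j 3 + j 4 ≤ (A + 3) * E := by linarith
    simpa using this
  have hAE : 0 ≤ A * E := mul_nonneg hA e0
  by_cases g3 : 1 ≤ j 3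
  · rw [if_pos g3] at e5
    exact c1 (by linarith)
  · rw [if_neg g3] at e5
    by_cases g4 : 1 ≤ j 4
    · rw [if_pos g4] at e5
      exact c0 (by linarith)
    · rw [if_neg g4] at e5
      rcases min_le_iff.1 e5 with h | h
      · exact c0 (by linarith)
      · exact c1 (by linarith)

/-- the ratios of the geometric series -/
noncomputable def wt (σ c : ℝ) (F : Finset (Fin 5)) (i : Fin 5) : ℝ := if i ∈ F then σ else c

lemma prod_eq (σ c : ℝ) (F : Finset (Fin 5)) (j : Fin 5 → ℕ) :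
    ∏ i, ((2 : ℝ) ^ (-wt σ c F i)) ^ (j i) =
      (2 : ℝ) ^ (-(σ * ∑ i, (if i ∈ F then (j i : ℝ) else 0)) -
        c * ∑ i, (if i ∈ F then 0 else (j i : ℝ))) := by
  have h1 : ∀ i : Fin 5, ((2 : ℝ) ^ (-wt σ c F i)) ^ (j i) = (2 : ℝ) ^ (-wt σ c F i * (j i : ℝ)) :=
    fun i => by rw [Real.rpow_mul (by norm_num), Real.rpow_natCast]
  rw [prod_congr rfl fun i _ => h1 i, ← Real.rpow_sum_of_pos (by norm_num)]
  congr 1
  rw [mul_sum, mul_sum, ← sum_neg_distrib, ← sum_sub_distrib]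
  refine sum_congr rfl fun i _ => ?_
  unfold wt
  split_ifs <;> ring

/-- the pointwise bound -/
lemma point {κ A σ : ℝ} (hκ : 0 < κ) (hA : 0 ≤ A) (hσ : 0 < σ) (J : ℕ) (j : Fin 5 → ℕ)
    (h : J = 0 ∨ Hi J j) :
    (2 : ℝ) ^ (-(σ * (∑ i, (j i : ℝ))) - κ * EE A j) ≤ (2 : ℝ) ^ (-(κ / 4) * J) *
      ∑ F ∈ (univ : Finset (Fin 5)).powersetCard 2,
        ∏ i, ((2 : ℝ) ^ (-wt σ (κ / (2 * (A + 3))) F i)) ^ (j i) := by
  obtain ⟨F, hF, hs⟩ := free hA j
  have hJ : (J : ℝ) ≤ EE A j := Hi_le h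
  have hK : 0 < A + 3 := by linarith
  have p1 : ∀ F' ∈ (univ : Finset (Fin 5)).powersetCard 2,
      0 ≤ ∏ i, ((2 : ℝ) ^ (-wt σ (κ / (2 * (A + 3))) F' i)) ^ (j i) :=
    fun F' _ => prod_nonneg fun i _ => pow_nonneg (Real.rpow_nonneg (by norm_num) _) _
  refine le_trans ?_ (mul_le_mul_of_nonneg_left (single_le_sum p1 hF)
    (Real.rpow_nonneg (by norm_num) _))
  rw [prod_eq, ← Real.rpow_add (by norm_num)]
  refine Real.rpow_le_rpow_of_exponent_le (by norm_num) ?_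
  have h2 : κ / (2 * (A + 3)) * ∑ i, (if i ∈ F then 0 else (j i : ℝ)) ≤ κ / 2 * EE A j := by
    have h3 := mul_le_mul_of_nonneg_left hs (show 0 ≤ κ / (2 * (A + 3)) by positivity)
    have h4 : κ / (2 * (A + 3)) * ((A + 3) * EE A j) = κ / 2 * EE A j := by
      field_simp
    linarith
  have h5 : σ * ∑ i, (if i ∈ F then (j i : ℝ) else 0) ≤ σ * ∑ i, (j i : ℝ) := by
    refine mul_le_mul_of_nonneg_left (sum_le_sum fun i _ => ?_) hσ.le
    split_ifs
    · exact le_rfl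
    · exact Nat.cast_nonneg _
  have h6 : κ / 4 * (J : ℝ) ≤ κ / 2 * EE A j := by
    have h7 : κ / 4 * (J : ℝ) ≤ κ / 4 * EE A j := mul_le_mul_of_nonneg_left hJ (by positivity)
    have h8 := mul_nonneg (show 0 ≤ κ / 4 by positivity) (EE_nonneg A j)
    linarith
  linarith

lemma geom_le {r : ℝ} (h0 : 0 ≤ r) (h1 : r < 1) (N : ℕ) : ∑ n ∈ range N, r ^ n ≤ (1 - r)⁻¹ := by
  rw [← tsum_geometric_of_lt_one h0 h1]
  exact (summable_geometric_of_lt_one h0 h1).sum_le_tsum _ fun n _ => pow_nonneg h0 n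

lemma two_pow_lt {w : ℝ} (hw : 0 < w) : (2 : ℝ) ^ (-w) < 1 :=
  Real.rpow_lt_one_of_one_lt_of_neg (by norm_num) (by linarith)

lemma inv_le {σ : ℝ} (h0 : 0 < σ) (h1 : σ ≤ 1) : (1 - (2 : ℝ) ^ (-σ))⁻¹ ≤ 2 / σ := by
  have h2 : (2 : ℝ) ^ (-σ) ≤ 1 - σ / 2 := by
    have h3 := rpow_one_add_le_one_add_mul_self (s := -(1 / 2 : ℝ)) (p := σ) (by norm_num)
      h0.le h1
    have h4 : (2 : ℝ) ^ (-σ) = (1 + -(1 / 2 : ℝ)) ^ σ := by
      rw [Real.rpow_neg (by norm_num), ← Real.inv_rpow (by norm_num)]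
      norm_num
    rw [h4]
    linarith
  have h5 : 0 < σ / 2 := by positivity
  calc (1 - (2 : ℝ) ^ (-σ))⁻¹ ≤ (σ / 2)⁻¹ := inv_anti₀ h5 (by linarith)
    _ = 2 / σ := by rw [inv_div]

/-- the finite sums -/
lemma fin_sum {κ A σ : ℝ} (hκ : 0 < κ) (hA : 0 ≤ A) (h0 : 0 < σ) (h1 : σ ≤ 1) (J : ℕ)
    (f : (Fin 5 → ℕ) → ℝ) (hf : ∀ j, f j ≤ (2 : ℝ) ^ (-(κ / 4) * J) *
      ∑ F ∈ (univ : Finset (Fin 5)).powersetCard 2,
        ∏ i, ((2 : ℝ) ^ (-wt σ (κ / (2 * (A + 3))) F i)) ^ (j i)) (u : Finset (Fin 5 → ℕ)) :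
    ∑ j ∈ u, f j ≤ 40 * (1 - (2 : ℝ) ^ (-(κ / (2 * (A + 3)))))⁻¹ ^ 3 *
      (2 : ℝ) ^ (-(κ / 4) * J) * σ ^ (-(2 : ℝ)) := by
  have hc : 0 < κ / (2 * (A + 3)) := by positivity
  set c := κ / (2 * (A + 3)) with hcd
  set y := (1 - (2 : ℝ) ^ (-c))⁻¹ with hy
  have hy0 : 0 < y := inv_pos.2 (sub_pos.2 (two_pow_lt hc))
  set a := (2 : ℝ) ^ (-(κ / 4) * J) with ha
  have ha0 : 0 < a := Real.rpow_pos_of_pos (by norm_num) _
  obtain ⟨N, hN⟩ : ∃ N, u ⊆ Fintype.piFinset fun _ : Fin 5 => range N := by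
    refine ⟨(u.sup fun j => univ.sup j) + 1, fun j hj => ?_⟩
    rw [Fintype.mem_piFinset]
    intro i
    rw [mem_range, Nat.lt_succ_iff]
    exact (le_sup (f := j) (mem_univ i)).trans (le_sup (f := fun j : Fin 5 → ℕ => univ.sup j) hj)
  have hw : ∀ F i, 0 < wt σ c F i := by
    intro F i; unfold wt; split_ifs
    · exact h0
    · exact hc
  have r0 : ∀ F i, 0 ≤ (2 : ℝ) ^ (-wt σ c F i) := fun F i => Real.rpow_nonneg (by norm_num) _
  have m0 : ∀ F (j : Fin 5 → ℕ), 0 ≤ ∏ i, ((2 : ℝ) ^ (-wt σ c F i)) ^ (j i) :=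
    fun F j => prod_nonneg fun i _ => pow_nonneg (r0 F i) _
  have hF : ∀ F ∈ (univ : Finset (Fin 5)).powersetCard 2,
      ∑ j ∈ Fintype.piFinset (fun _ : Fin 5 => range N), ∏ i, ((2 : ℝ) ^ (-wt σ c F i)) ^ (j i) ≤
        (2 / σ) ^ 2 * y ^ 3 := by
    intro F hF
    rw [← prod_univ_sum (fun _ : Fin 5 => range N) fun i n => ((2 : ℝ) ^ (-wt σ c F i)) ^ n]
    have h2 : ∏ i, ∑ n ∈ range N, ((2 : ℝ) ^ (-wt σ c F i)) ^ n ≤
        ∏ i, (if i ∈ F then 2 / σ else y) := by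
      refine prod_le_prod (fun i _ => sum_nonneg fun n _ => pow_nonneg (r0 F i) n) fun i _ => ?_
      refine (geom_le (r0 F i) (two_pow_lt (hw F i)) N).trans ?_
      unfold wt
      split_ifs
      · exact inv_le h0 h1
      · exact le_rfl
    refine h2.trans (le_of_eq ?_)
    have hc2 : F.card = 2 := (mem_powersetCard.1 hF).2
    rw [prod_ite, prod_const, prod_const]
    have e1 : ({i | i ∈ F} : Finset (Fin 5)) = F := by ext i; simp
    have e2 : ({i | i ∉ F} : Finset (Fin 5)) = Fᶜ := by ext i; simp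
    rw [e1, e2, card_compl, hc2, Fintype.card_fin]
  calc ∑ j ∈ u, f j ≤ ∑ j ∈ u, a * ∑ F ∈ (univ : Finset (Fin 5)).powersetCard 2,
        ∏ i, ((2 : ℝ) ^ (-wt σ c F i)) ^ (j i) := sum_le_sum fun j _ => hf j
    _ ≤ ∑ j ∈ Fintype.piFinset (fun _ : Fin 5 => range N),
        a * ∑ F ∈ (univ : Finset (Fin 5)).powersetCard 2,
        ∏ i, ((2 : ℝ) ^ (-wt σ c F i)) ^ (j i) :=
      sum_le_sum_of_subset_of_nonneg hN fun j _ _ =>
        mul_nonneg ha0.le (sum_nonneg fun F _ => m0 F j)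
    _ = a * ∑ F ∈ (univ : Finset (Fin 5)).powersetCard 2,
        ∑ j ∈ Fintype.piFinset (fun _ : Fin 5 => range N),
          ∏ i, ((2 : ℝ) ^ (-wt σ c F i)) ^ (j i) := by
      rw [← mul_sum, sum_comm]
    _ ≤ a * ∑ F ∈ (univ : Finset (Fin 5)).powersetCard 2, (2 / σ) ^ 2 * y ^ 3 :=
      mul_le_mul_of_nonneg_left (sum_le_sum hF) ha0.le
    _ = 40 * y ^ 3 * a * σ ^ (-(2 : ℝ)) := by
      have e3 : ((univ : Finset (Fin 5)).powersetCard 2).card = 10 := by decide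
      rw [sum_const, e3, nsmul_eq_mul, Real.rpow_neg h0.le, Real.rpow_two, div_pow]
      push_cast
      ring

end UC

open UC in
/-- the combinatorial lemma -/
theorem suc : SUC := by
  classical
  intro κ A hκ hA
  refine ⟨40 * (1 - (2 : ℝ) ^ (-(κ / (2 * (A + 3)))))⁻¹ ^ 3, fun σ h0 h1 => ?_⟩
  have key : ∀ (J : ℕ) (j : Fin 5 → ℕ), (if J = 0 ∨ Hi J j
      then (2 : ℝ) ^ (-(σ * (∑ i, (j i : ℝ))) - κ * EE A j) else 0) ≤ (2 : ℝ) ^ (-(κ / 4) * J) *
      ∑ F ∈ (univ : Finset (Fin 5)).powersetCard 2,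
        ∏ i, ((2 : ℝ) ^ (-wt σ (κ / (2 * (A + 3))) F i)) ^ (j i) := by
    intro J j
    by_cases h : J = 0 ∨ Hi J j
    · rw [if_pos h]
      exact point hκ hA h0 J j h
    · rw [if_neg h]
      exact mul_nonneg (Real.rpow_nonneg (by norm_num) _) (sum_nonneg fun F _ =>
        prod_nonneg fun i _ => pow_nonneg (Real.rpow_nonneg (by norm_num) _) _)
  have nn : ∀ (J : ℕ) (j : Fin 5 → ℕ), 0 ≤ (if J = 0 ∨ Hi J j
      then (2 : ℝ) ^ (-(σ * (∑ i, (j i : ℝ))) - κ * EE A j) else 0) := by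
    intro J j
    split_ifs
    · exact Real.rpow_nonneg (by norm_num) _
    · exact le_rfl
  have sm : ∀ J : ℕ, Summable fun j : Fin 5 → ℕ => (if J = 0 ∨ Hi J j
      then (2 : ℝ) ^ (-(σ * (∑ i, (j i : ℝ))) - κ * EE A j) else 0) :=
    fun J => summable_of_sum_le (nn J) (fin_sum hκ hA h0 h1 J _ (key J))
  constructor
  · have := sm 0
    simpa using this
  · intro J
    refine (sm J).tsum_le_of_sum_le fun u => ?_
    exact fin_sum hκ hA h0 h1 J _ (key J) u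

end Pool.Agent.H32.MQ
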