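import Pool.Agent.H32.MQ.LE
import Pool.Agent.H32.MQ.LD
import Pool.Agent.H32.MQ.LW1
import Pool.Agent.H32.MQ.LW34
import Pool.Agent.H32.MQ.LW012
import Pool.Agent.H32.MQ.LW03
import Pool.Agent.H32.MQ.LMir
import Pool.Agent.H32.MQ.LV
import Pool.Agent.H32.MQ.L1
import Pool.Agent.H32.MQ.L2
import Pool.Agent.H32.MQ.KPt
import Pool.Agent.H32.MQ.KCard
import Pool.Agent.H32.MQ.KHs
import Pool.Agent.H32.MQ.KLin
import Pool.Agent.H32.MQ.KGood
import Pool.Agent.H32.MQ.KBa
import Pool.Agent.H32.MQ.KBb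
import Pool.Agent.H32.MQ.KBc
import Pool.Agent.H32.MQ.KB1
import Pool.Agent.H32.MQ.UT
import Pool.Agent.H32.MQ.U13
import Pool.Agent.H32.MQ.U23
import Pool.Agent.H32.MQ.UM
import Pool.Agent.H32.MQ.UP
import Pool.Agent.H32.MQ.UQ1
import Pool.Agent.H32.MQ.UQ0
import Pool.Agent.H32.MQ.UQ00
import Pool.Agent.H32.MQ.UC
import Pool.Agent.H32.MQ.US
import Pool.Agent.H32.MQ.UA
import Pool.Agent.H32.MQ.UE
import Pool.Agent.H32.MQ.UB
import Pool.Agent.H32.MQ.UD

/-!
# Malle's conjecture for 8T28 and 8T29 over number fields: blocks K, U, L assembled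
-/

set_option autoImplicit false

namespace Pool.Agent.H32.MQ

/-- the saving in a box -/
theorem lf_sus : SUS :=
  sus_of (sut_of skpt skcard)
    (sup_of (su13_of skpt skcard (skb1_of (ska_of skpt)
      (skb_of skpt skcard (skhs_of skpt skcard) (skgood_of skpt)) (skc_of skpt)))
      (su23_of skpt skcard) sum_mir)
    (suq1_of skpt skcard (skhs_of skpt skcard) sklin)
    (suq0_of (suq1_of skpt skcard (skhs_of skpt skcard) sklin) sum_mir)
    (suq00_of skpt skcard (skhs_of skpt skcard) sklin)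

/-- the uniform bound -/
theorem lf_sud : SUD := sud_of lf_sus suc (sue_of sua) (sub_of sua)

/-- the tail -/
theorem lf_tail : SUTail := sutail_of lf_sus suc sua

/-- (L'), the main part -/
theorem lf_sl1 (hE : SEB) (hS : SES) : SL1 :=
  sl1_of (sld_of sua) sua lf_tail
    (slv_of sua (slw1_of hE hS sua) (slw34_of sle hE hS) (slw012_of sle hE hS)
      (slw03_of sle hE hS) (slm03_of sle hE hS) slmir)

/-- (L'), the part with `t` a unit -/
theorem lf_sl2 (hE : SEB) (hS : SES) : SL2 := sl2_of hE hS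

end Pool.Agent.H32.MQ
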