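import Pool.Agent.H32.MQ.UMain
import Pool.Agent.H32.MQ.LE
import Pool.Agent.H32.MQ.LD
import Pool.Agent.H32.MQ.LW1
import Pool.Agent.H32.MQ.LW34
import Pool.Agent.H32.MQ.LW012
import Pool.Agent.H32.MQ.LW03
import Pool.Agent.H32.MQ.LMir
import Pool.Agent.H32.MQ.LV
import Pool.Agent.H32.MQ.L1
import Pool.Agent.H32.MQ.L2

/-!
# Malle's conjecture for 8T28 and 8T29 over number fields: the limit for a fixed quadratic
extension (assembly of the block L, from the results of the block E)
-/

set_option autoImplicit false

namespace Pool.Agent.H32.MQ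

/-- the limit in terms of the local classes -/
theorem sl1_of_E (hE : SEB) (hS : SES) : SL1 :=
  sl1_of (sld_of sua) sua sutail (slv_of sua (slw1_of hE hS sua) (slw34_of sle hE hS)
    (slw012_of sle hE hS) (slw03_of sle hE hS) (slm03_of sle hE hS) slmir)

/-- the constant is positive -/
theorem sl2_of_E (hE : SEB) (hS : SES) : SL2 := sl2_of hE hS

end Pool.Agent.H32.MQ
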