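import Pool.Agent.H32.MQ.LStm

/-!
# Block L: the variables `q0`, `g0` (Fourier inversion, terms)
-/

set_option autoImplicit false

open scoped BigOperators Topology
open Filter

namespace Pool.Agent.H32.MQ

open Pool.Agent.H98.MK (sg)
open Pool.Agent.H98.MF

/-! ### Fourier inversion -/

theorem w03_orth {n : ℕ} (e : Fin n → ZMod 2) (he : e ≠ 0) :
    ∑ ξ : Fin n → ZMod 2, ((sg (ξ ⬝ᵥ e) : ℤ) : ℝ) = 0 := by
  have h1 : ∃ i, e i ≠ 0 := by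
    by_contra h
    push Not at h
    exact he (funext h)
  obtain ⟨i, hi⟩ := h1
  have h0 : (Pi.single i 1 : Fin n → ZMod 2) ⬝ᵥ e = 1 := by
    rw [single_dotProduct, one_mul]
    rcases zm2 (e i) with h | h
    · exact absurd h hi
    · exact h
  have h1 : ∑ ξ : Fin n → ZMod 2, ((sg ((ξ + Pi.single i 1) ⬝ᵥ e) : ℤ) : ℝ) =
      ∑ ξ : Fin n → ZMod 2, ((sg (ξ ⬝ᵥ e) : ℤ) : ℝ) :=
    Fintype.sum_equiv (Equiv.addRight (Pi.single i 1)) _ _ fun ξ => rfl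
  have h2 : ∑ ξ : Fin n → ZMod 2, ((sg ((ξ + Pi.single i 1) ⬝ᵥ e) : ℤ) : ℝ) =
      - ∑ ξ : Fin n → ZMod 2, ((sg (ξ ⬝ᵥ e) : ℤ) : ℝ) := by
    rw [← Finset.sum_neg_distrib]
    refine Finset.sum_congr rfl fun ξ _ => ?_
    rw [add_dotProduct, h0, sg_add, sg_one]
    push_cast
    ring
  rw [h1] at h2
  linarith

theorem w03_inv {n : ℕ} (f : (Fin n → ZMod 2) → ℝ) (e : Fin n → ZMod 2) :
    ∑ ξ : Fin n → ZMod 2, ((1 / 2 ^ n) * ∑ e', f e' * ((sg (ξ ⬝ᵥ e') : ℤ) : ℝ)) *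
      ((sg (ξ ⬝ᵥ e) : ℤ) : ℝ) = f e := by
  have h1 : ∀ ξ : Fin n → ZMod 2, ((1 / 2 ^ n) * ∑ e', f e' * ((sg (ξ ⬝ᵥ e') : ℤ) : ℝ)) *
      ((sg (ξ ⬝ᵥ e) : ℤ) : ℝ) =
      ∑ e', (1 / 2 ^ n) * f e' * ((sg (ξ ⬝ᵥ (e' + e)) : ℤ) : ℝ) := by
    intro ξ
    rw [Finset.mul_sum, Finset.sum_mul]
    refine Finset.sum_congr rfl fun e' _ => ?_
    rw [dotProduct_add, sg_add]
    push_cast
    ring
  rw [Finset.sum_congr rfl fun ξ _ => h1 ξ, Finset.sum_comm, Finset.sum_eq_single e]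
  · have h2 : e + e = 0 := by
      funext i
      exact CharTwo.add_self_eq_zero (e i)
    rw [h2]
    have h3 : ∀ ξ : Fin n → ZMod 2, (1 / 2 ^ n) * f e * ((sg (ξ ⬝ᵥ (0 : Fin n → ZMod 2)) : ℤ) : ℝ)
        = (1 / 2 ^ n) * f e := by
      intro ξ
      rw [dotProduct_zero, sg_zero, Int.cast_one, mul_one]
    rw [Finset.sum_congr rfl fun ξ _ => h3 ξ, Finset.sum_const, nsmul_eq_mul, Finset.card_univ]
    simp only [Fintype.card_pi, ZMod.card, Finset.prod_const, Finset.card_univ, Fintype.card_fin]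
    push_cast
    field_simp
  · intro e' _ he'
    rw [← Finset.mul_sum, w03_orth, mul_zero]
    intro h
    apply he'
    funext i
    have h1 : e' i + e i = 0 := congrFun h i
    have h2 : ∀ a b : ZMod 2, a + b = 0 → a = b := by decide
    exact h2 _ _ h1
  · intro h
    exact absurd (Finset.mem_univ e) h

/-- the Fourier coefficients of a function of two variables -/
noncomputable def w03_hat {m n : ℕ} (f : (Fin m → ZMod 2) → (Fin n → ZMod 2) → ℝ)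
    (φ : Fin m → ZMod 2) (ψ : Fin n → ZMod 2) : ℝ :=
  (1 / 2 ^ m) * ∑ k, ((1 / 2 ^ n) * ∑ l, f k l * ((sg (ψ ⬝ᵥ l) : ℤ) : ℝ)) *
    ((sg (φ ⬝ᵥ k) : ℤ) : ℝ)

theorem w03_inv2 {m n : ℕ} (f : (Fin m → ZMod 2) → (Fin n → ZMod 2) → ℝ)
    (k : Fin m → ZMod 2) (l : Fin n → ZMod 2) :
    ∑ φ, ∑ ψ, w03_hat f φ ψ * ((sg (φ ⬝ᵥ k + ψ ⬝ᵥ l) : ℤ) : ℝ) = f k l := by
  have h1 : ∀ ψ : Fin n → ZMod 2, ∑ φ, w03_hat f φ ψ * ((sg (φ ⬝ᵥ k) : ℤ) : ℝ) =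
      (1 / 2 ^ n) * ∑ l, f k l * ((sg (ψ ⬝ᵥ l) : ℤ) : ℝ) := fun ψ =>
    w03_inv (fun k => (1 / 2 ^ n) * ∑ l, f k l * ((sg (ψ ⬝ᵥ l) : ℤ) : ℝ)) k
  rw [Finset.sum_comm]
  have h2 : ∀ ψ : Fin n → ZMod 2, ∑ φ, w03_hat f φ ψ * ((sg (φ ⬝ᵥ k + ψ ⬝ᵥ l) : ℤ) : ℝ) =
      ((1 / 2 ^ n) * ∑ l, f k l * ((sg (ψ ⬝ᵥ l) : ℤ) : ℝ)) * ((sg (ψ ⬝ᵥ l) : ℤ) : ℝ) := by
    intro ψ
    rw [← h1 ψ, Finset.sum_mul]
    refine Finset.sum_congr rfl fun φ _ => ?_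
    rw [sg_add]
    push_cast
    ring
  rw [Finset.sum_congr rfl fun ψ _ => h2 ψ]
  exact w03_inv (fun l => f k l) l

theorem w03_avg {n : ℕ} {f : (Fin n → ZMod 2) → ℝ} (hf : ∀ e, |f e| ≤ 1) :
    |(1 / 2 ^ n) * ∑ e, f e| ≤ 1 := by
  rw [abs_mul, abs_of_nonneg (by positivity)]
  have h1 : |∑ e, f e| ≤ 2 ^ n := by
    refine (Finset.abs_sum_le_sum_abs _ _).trans ((Finset.sum_le_sum fun e _ => hf e).trans ?_)
    rw [Finset.sum_const, nsmul_eq_mul, Finset.card_univ, mul_one]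
    simp only [Fintype.card_pi, ZMod.card, Finset.prod_const, Finset.card_univ, Fintype.card_fin]
    push_cast
    exact le_rfl
  calc 1 / 2 ^ n * |∑ e, f e| ≤ 1 / 2 ^ n * 2 ^ n :=
        mul_le_mul_of_nonneg_left h1 (by positivity)
    _ = 1 := by field_simp

theorem w03_hat_le {m n : ℕ} {f : (Fin m → ZMod 2) → (Fin n → ZMod 2) → ℝ}
    (hf : ∀ k l, |f k l| ≤ 1) (φ : Fin m → ZMod 2) (ψ : Fin n → ZMod 2) :
    |w03_hat f φ ψ| ≤ 1 := by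
  unfold w03_hat
  refine w03_avg fun k => ?_
  rw [abs_mul, abs_sgr, mul_one]
  refine w03_avg fun l => ?_
  rw [abs_mul, abs_sgr, mul_one]
  exact hf k l

theorem w03_hat_zero {m n : ℕ} (f : (Fin m → ZMod 2) → (Fin n → ZMod 2) → ℝ) :
    w03_hat f 0 0 = (1 / 2 ^ (m + n)) * ∑ k, ∑ l, f k l := by
  unfold w03_hat
  simp only [zero_dotProduct, sg_zero, Int.cast_one, mul_one]
  rw [← Finset.mul_sum, ← mul_assoc]
  congr 1
  rw [pow_add]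
  field_simp

end Pool.Agent.H32.MQ
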