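import Pool.Agent.H32.MQ.LW03_a

/-!
# Block L: the variables `q0`, `g0` (the terms)
-/

set_option autoImplicit false

open scoped BigOperators Topology
open Filter

namespace Pool.Agent.H32.MQ

open Pool.Agent.H98.MK (sg)
open Pool.Agent.H98.MF

section

variable {S SF : Sys} (F : Qf S SF) (b : Cf F.Q)

/-- the fixed part is admissible -/
structure W03Ok : Prop where
  d1 : Disjoint b.q12 (F.Q.shd b.qq)
  d2 : Disjoint b.q12 (F.Q.shd b.g1)
  d3 : Disjoint (F.Q.shd b.qq) (F.Q.shd b.g1)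
  g2 : F.Q.Gd b.qq
  g4 : F.Q.Gd b.g1

/-- the primes of the fixed part -/
noncomputable def w03z : Finset S.P := b.q12 ∪ F.Q.shd b.qq ∪ F.Q.shd b.g1

open Classical in
/-- the primes of the character of `g0` -/
noncomputable def w03Y : Finset SF.P := b.q12.biUnion F.up ∪ b.qq.image F.io

/-- the configuration -/
def w03x (w : (Fin 1 → Finset S.P) × (Fin 1 → Finset F.Q.P)) : Cf F.Q :=
  ⟨w.1 0, b.q12, b.qq, w.2 0, b.g1⟩

theorem w03_ok_iff (w : (Fin 1 → Finset S.P) × (Fin 1 → Finset F.Q.P)) :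
    (w03x F b w).Ok ↔ okE F (w03z F b) w ∧ W03Ok F b := by
  constructor
  · intro h
    have h01 : Disjoint (w.1 0) b.q12 := h.dj 0 1 (by decide)
    have h02 : Disjoint (w.1 0) (F.Q.shd b.qq) := h.dj 0 2 (by decide)
    have h03 : Disjoint (w.1 0) (F.Q.shd (w.2 0)) := h.dj 0 3 (by decide)
    have h04 : Disjoint (w.1 0) (F.Q.shd b.g1) := h.dj 0 4 (by decide)
    have h12 : Disjoint b.q12 (F.Q.shd b.qq) := h.dj 1 2 (by decide)
    have h31 : Disjoint (F.Q.shd (w.2 0)) b.q12 := h.dj 3 1 (by decide)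
    have h14 : Disjoint b.q12 (F.Q.shd b.g1) := h.dj 1 4 (by decide)
    have h32 : Disjoint (F.Q.shd (w.2 0)) (F.Q.shd b.qq) := h.dj 3 2 (by decide)
    have h24 : Disjoint (F.Q.shd b.qq) (F.Q.shd b.g1) := h.dj 2 4 (by decide)
    have h34 : Disjoint (F.Q.shd (w.2 0)) (F.Q.shd b.g1) := h.dj 3 4 (by decide)
    refine ⟨⟨?_, ?_, ?_, ?_, ?_, ?_⟩, ⟨h12, h14, h24, h.gqq, h.gg1⟩⟩
    · rw [Fin.forall_fin_one]
      unfold w03z
      rw [Finset.disjoint_union_right, Finset.disjoint_union_right]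
      exact ⟨⟨h01, h02⟩, h04⟩
    · rw [Fin.forall_fin_one]
      unfold w03z
      rw [Finset.disjoint_union_right, Finset.disjoint_union_right]
      exact ⟨⟨h31, h32⟩, h34⟩
    · rw [Fin.forall_fin_one]
      exact h.gg0
    · intro i i' hi
      exact absurd (Subsingleton.elim i i') hi
    · intro i i' hi
      exact absurd (Subsingleton.elim i i') hi
    · rw [Fin.forall_fin_one, Fin.forall_fin_one]
      exact h03
  · rintro ⟨⟨h1, h2, h3, -, -, h6⟩, hb⟩
    have h1' := h1 0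
    have h2' := h2 0
    unfold w03z at h1' h2'
    rw [Finset.disjoint_union_right, Finset.disjoint_union_right] at h1' h2'
    obtain ⟨⟨h01, h02⟩, h04⟩ := h1'
    obtain ⟨⟨h31, h32⟩, h34⟩ := h2'
    have h03 := h6 0 0
    refine ⟨?_, ?_, hb.g2, h3 0, hb.g4⟩
    · have key : ∀ i j : Fin 5, i < j →
          Disjoint ((w03x F b w).sd i) ((w03x F b w).sd j) := by
        intro i j hij
        fin_cases i <;> fin_cases j <;> first
          | exact absurd hij (by decide)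
          | exact h01
          | exact h02
          | exact h03
          | exact h04
          | exact hb.d1
          | exact h31.symm
          | exact hb.d2
          | exact h32.symm
          | exact hb.d3
          | exact h34
      intro i j hij
      rcases lt_or_gt_of_ne hij with h | h
      · exact key i j h
      · exact (key j i h).symm
    · intro i
      rw [F.M_eq]
      exact Finset.disjoint_empty_right _

/-! ### combinatorics of the primes of `F` -/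

theorem w03_gd_union {g g' : Finset F.Q.P} (h : F.Q.Gd g) (h' : F.Q.Gd g')
    (hd : Disjoint (F.Q.shd g) (F.Q.shd g')) : F.Q.Gd (g ∪ g') := by
  classical
  intro a ha a' ha' e
  rcases Finset.mem_union.1 ha with h1 | h1 <;> rcases Finset.mem_union.1 ha' with h2 | h2
  · exact h a h1 a' h2 e
  · exact absurd (Finset.mem_image_of_mem F.Q.sh h1) (fun h3 =>
      Finset.disjoint_left.1 hd h3 (e ▸ Finset.mem_image_of_mem F.Q.sh h2))
  · exact absurd (Finset.mem_image_of_mem F.Q.sh h2) (fun h3 =>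
      Finset.disjoint_left.1 hd h3 (e ▸ Finset.mem_image_of_mem F.Q.sh h1))
  · exact h' a h1 a' h2 e

theorem w03_disj {g g' : Finset F.Q.P} (hd : Disjoint (F.Q.shd g) (F.Q.shd g')) :
    Disjoint g g' := by
  classical
  rw [Finset.disjoint_left] at hd ⊢
  intro a ha ha'
  exact hd (Finset.mem_image_of_mem F.Q.sh ha) (Finset.mem_image_of_mem F.Q.sh ha')

theorem w03_disj_io {g g' : Finset F.Q.P} (hd : Disjoint (F.Q.shd g) (F.Q.shd g')) :
    Disjoint (g.image F.io) (g'.image F.io) :=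
  (Finset.disjoint_image F.io_inj).2 (w03_disj F hd)

theorem w03_io_mem (a : F.Q.P) : F.io a ∈ F.up (F.Q.sh a) := by
  rw [F.up_s]
  exact Finset.mem_insert_self _ _

theorem w03_disj_up {x : Finset S.P} {g : Finset F.Q.P} (hd : Disjoint x (F.Q.shd g)) :
    Disjoint (x.biUnion F.up) (g.image F.io) := by
  classical
  rw [Finset.disjoint_left] at hd ⊢
  intro P hP hP'
  obtain ⟨p, hp, hp'⟩ := Finset.mem_biUnion.1 hP
  obtain ⟨a, ha, rfl⟩ := Finset.mem_image.1 hP'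
  have h1 := F.up_d _ _ _ hp' (w03_io_mem F a)
  subst h1
  exact hd hp (Finset.mem_image_of_mem F.Q.sh ha)

theorem w03_Y_sub : w03Y F b ⊆ (w03z F b).biUnion F.up := by
  classical
  intro P hP
  unfold w03Y at hP
  rw [Finset.mem_union] at hP
  rw [Finset.mem_biUnion]
  rcases hP with h | h
  · obtain ⟨p, hp, hp'⟩ := Finset.mem_biUnion.1 h
    refine ⟨p, ?_, hp'⟩
    unfold w03z
    exact Finset.mem_union_left _ (Finset.mem_union_left _ hp)
  · obtain ⟨a, ha, rfl⟩ := Finset.mem_image.1 h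
    refine ⟨F.Q.sh a, ?_, w03_io_mem F a⟩
    unfold w03z
    exact Finset.mem_union_left _ (Finset.mem_union_right _ (Finset.mem_image_of_mem F.Q.sh ha))

theorem w03_up_nonempty (p : S.P) : (F.up p).Nonempty := by
  by_cases h : ∃ a, F.Q.sh a = p
  · obtain ⟨a, rfl⟩ := h
    exact ⟨_, w03_io_mem F a⟩
  · push Not at h
    obtain ⟨P, hP, -⟩ := F.up_i p h
    rw [hP]
    exact Finset.singleton_nonempty P

/-! ### signs -/

/-- the character of `q0` -/
noncomputable def w03y (ψ : S.T) : El S :=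
  (ψ + (S.l ⬝ᵥ S.tys (F.Q.shd b.g1)) • S.l, F.Q.shd b.g1)

/-- the character of `g0` -/
noncomputable def w03YY (φ : SF.T) : El SF :=
  (φ + (SF.l ⬝ᵥ SF.tys (w03Y F b)) • SF.l, w03Y F b)

open Classical in
/-- the constant sign -/
noncomputable def w03c (a φ : SF.T) (c ψ : S.T) : ZMod 2 :=
  SF.JJ (b.q12.biUnion F.up) (b.g1.image F.io) + a ⬝ᵥ SF.tys (b.q12.biUnion F.up) +
    SF.JJ (b.qq.image F.io) (b.g1.image F.io) + a ⬝ᵥ SF.tys (b.qq.image F.io) +
    F.cd ⬝ᵥ SF.tys (b.g1.image F.io) + S.JJ (F.Q.shd b.g1) b.q12 +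
    S.JJ (F.Q.shd b.g1) (F.Q.shd b.qq) + c ⬝ᵥ S.tys (F.Q.shd b.g1) +
    φ ⬝ᵥ SF.tys (b.g1.image F.io) + ψ ⬝ᵥ S.tys b.q12 + ψ ⬝ᵥ S.tys (F.Q.shd b.qq)

theorem w03_sign (hL : SLE) (w : (Fin 1 → Finset S.P) × (Fin 1 → Finset F.Q.P))
    (h : (w03x F b w).Ok) (a φ : SF.T) (c ψ : S.T) :
    φ ⬝ᵥ SF.tys ((w03x F b w).g.image F.io) + ψ ⬝ᵥ S.tys (w03x F b w).q +
      (w03x F b w).E (F.el a (w03x F b w).g) (c, ∅) =
    (S.JJ (w.1 0) (w03y F b ψ).2 + (w03y F b ψ).1 ⬝ᵥ S.tys (w.1 0)) +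
      (SF.JJ ((w.2 0).image F.io) (w03YY F b φ).2 +
        (w03YY F b φ).1 ⬝ᵥ SF.tys ((w.2 0).image F.io)) + w03c F b a φ c ψ := by
  classical
  have h01 : Disjoint (w.1 0) b.q12 := h.dj 0 1 (by decide)
  have h02 : Disjoint (w.1 0) (F.Q.shd b.qq) := h.dj 0 2 (by decide)
  have h04 : Disjoint (w.1 0) (F.Q.shd b.g1) := h.dj 0 4 (by decide)
  have h12 : Disjoint b.q12 (F.Q.shd b.qq) := h.dj 1 2 (by decide)
  have h13 : Disjoint b.q12 (F.Q.shd (w.2 0)) := h.dj 1 3 (by decide)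
  have h23 : Disjoint (F.Q.shd b.qq) (F.Q.shd (w.2 0)) := h.dj 2 3 (by decide)
  have h34 : Disjoint (F.Q.shd (w.2 0)) (F.Q.shd b.g1) := h.dj 3 4 (by decide)
  have e1 := hL S SF F (w03x F b w) a c h
  have e2 : SF.tys ((w03x F b w).g.image F.io) =
      SF.tys ((w.2 0).image F.io) + SF.tys (b.g1.image F.io) := by
    have h1 : (w03x F b w).g = w.2 0 ∪ b.g1 := rfl
    rw [h1, Finset.image_union]
    exact SF.tys_union (w03_disj_io F h34)
  have e3 : S.tys (w03x F b w).q = S.tys (w.1 0) + S.tys b.q12 + S.tys (F.Q.shd b.qq) := by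
    have h1 : (w03x F b w).q = w.1 0 ∪ b.q12 ∪ F.Q.shd b.qq := rfl
    rw [h1, S.tys_union, S.tys_union h01]
    rw [Finset.disjoint_union_left]
    exact ⟨h02, h12⟩
  have hY : Disjoint (w03Y F b) ((w.2 0).image F.io) := by
    unfold w03Y
    rw [Finset.disjoint_union_left]
    exact ⟨w03_disj_up F h13, w03_disj_io F h23⟩
  have e4 : SF.JJ (w03Y F b) ((w.2 0).image F.io) =
      SF.JJ (b.q12.biUnion F.up) ((w.2 0).image F.io) +
        SF.JJ (b.qq.image F.io) ((w.2 0).image F.io) := by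
    unfold w03Y
    exact SF.JJ_union_left _ (w03_disj_up F h12)
  have e5 := SF.JJ_recip hY
  have e6 := S.JJ_recip h04
  have e7 : (2 : ZMod 2) = 0 := by decide
  rw [e1, e2, e3]
  unfold w03y w03YY w03c
  simp only [add_dotProduct, smul_dotProduct, smul_eq_mul, dotProduct_add]
  show _ + _ + (SF.JJ (b.q12.biUnion F.up) ((w.2 0).image F.io) +
    SF.JJ (b.q12.biUnion F.up) (b.g1.image F.io) + a ⬝ᵥ SF.tys (b.q12.biUnion F.up) +
    (SF.JJ (b.qq.image F.io) ((w.2 0).image F.io) + SF.JJ (b.qq.image F.io) (b.g1.image F.io) +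
      a ⬝ᵥ SF.tys (b.qq.image F.io)) +
    (F.cd ⬝ᵥ SF.tys (b.g1.image F.io) + S.JJ (F.Q.shd b.g1) (w.1 0) + S.JJ (F.Q.shd b.g1) b.q12 +
      S.JJ (F.Q.shd b.g1) (F.Q.shd b.qq) + c ⬝ᵥ S.tys (F.Q.shd b.g1))) = _
  linear_combination e5 + e6 - e4 - (SF.JJ ((w.2 0).image F.io) (w03Y F b) +
    S.JJ (w.1 0) (F.Q.shd b.g1)) * e7

/-! ### the terms -/

theorem w03_thc (θ : SF.T → SF.T → S.T → S.T → ℝ) (a : SF.T) (g : Finset F.Q.P)
    (hg : F.Q.Gd g) (c l : S.T) :
    thc F θ (F.el a g) (c, ∅) (l, ∅) =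
      if g = ∅ ∧ F.Q.nu (F.el a ∅) = (0, ∅) then 0
      else θ a (SF.tys (g.image F.io)) c l := by
  classical
  unfold thc
  have h0 : F.Q.Gd (∅ : Finset F.Q.P) := fun a ha => absurd ha (Finset.notMem_empty a)
  have h1 : (∃ a', F.el a g = F.el a' ∅) ↔ g = ∅ := by
    constructor
    · rintro ⟨a', h⟩
      exact (F.el_inj _ _ _ _ hg h0 h).2
    · rintro rfl
      exact ⟨a, rfl⟩
  by_cases hge : g = ∅
  · subst hge
    rw [F.co_el _ _ hg]
    by_cases h2 : F.Q.nu (F.el a ∅) = (0, ∅)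
    · rw [if_pos ⟨⟨a, rfl⟩, h2⟩, if_pos ⟨rfl, h2⟩]
    · rw [if_neg (fun h => h2 h.2), if_neg (fun h => h2 h.2)]
  · rw [if_neg (fun h => hge (h1.1 h.1)), if_neg (fun h => hge h.1), F.co_el _ _ hg]

theorem w03_tm (θ : SF.T → SF.T → S.T → S.T → ℝ) (x : Cf F.Q) (hx : x.Ok) :
    x.tm (thc F θ) = ∑ a : SF.T, ∑ c : S.T,
      (if x.g = ∅ ∧ F.Q.nu (F.el a ∅) = (0, ∅) then 0
        else θ a (SF.tys (x.g.image F.io)) c (S.tys x.q)) *
          ((sg (x.E (F.el a x.g) (c, ∅)) : ℤ) : ℝ) := by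
  classical
  have hg : F.Q.Gd x.g := w03_gd_union F hx.gg0 hx.gg1 (hx.dj 3 4 (by decide))
  have hels : F.Q.els = Finset.univ ×ˢ {(∅ : Finset S.P)} := by
    unfold Qd.els
    rw [F.M_eq, Finset.powerset_empty]
  have hlab : F.Q.lab x.q = (S.tys x.q, ∅) := by
    unfold Qd.lab
    rw [F.M_eq, Finset.filter_empty]
  unfold Cf.tm
  rw [if_pos hx, F.B_eq _ hg, Finset.sum_image]
  · refine Finset.sum_congr rfl fun a _ => ?_
    rw [hels, Finset.sum_product]
    refine Finset.sum_congr rfl fun c _ => ?_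
    rw [Finset.sum_singleton, hlab, w03_thc F θ a x.g hg]
  · intro a _ a' _ h
    exact (F.el_inj _ _ _ _ hg hg h).1

end

end Pool.Agent.H32.MQ
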