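import Pool.Agent.H32.MQ.LW03_b

/-!
# Block L: the variables `q0`, `g0` (comparison with Euler products)
-/

set_option autoImplicit false

open scoped BigOperators Topology
open Filter

namespace Pool.Agent.H32.MQ

open Pool.Agent.H98.MK (sg)
open Pool.Agent.H98.MF

theorem w03_pw_pos {S : Sys} (s : ℝ) (x : Finset S.P) : 0 < pw s x :=
  Real.rpow_pos_of_pos (S.nm_posr x) _

theorem w03_pw_le {S : Sys} {s : ℝ} (hs : 0 ≤ s) (x : Finset S.P) : pw s x ≤ 1 :=
  Real.rpow_le_one_of_one_le_of_nonpos (S.one_le_nmr x) (by linarith)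

theorem w03_pw_empty {S : Sys} (s : ℝ) : pw s (∅ : Finset S.P) = 1 := by
  unfold pw
  rw [S.nm_empty, Nat.cast_one, Real.one_rpow]

section

variable {S SF : Sys} (F : Qf S SF) (b : Cf F.Q)

/-- the factor of the fixed part -/
noncomputable def w03K (s : ℝ) : ℝ := pw s b.q12 * pw s (F.Q.shd b.qq) * pw s (F.Q.shd b.g1)

/-- the main part of a term -/
noncomputable def w03mt (θ : SF.T → SF.T → S.T → S.T → ℝ) (s : ℝ)
    (w : (Fin 1 → Finset S.P) × (Fin 1 → Finset F.Q.P)) : ℝ :=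
  w03K F b s * ∑ a : SF.T, ∑ c : S.T, ∑ φ : SF.T, ∑ ψ : S.T,
    w03_hat (fun k l => θ a k c l) φ ψ * ((sg (w03c F b a φ c ψ) : ℤ) : ℝ) *
      tE F (fun _ => w03y F b ψ) (fun _ => w03YY F b φ) (w03z F b) s w

open Classical in
/-- the bound for the excluded terms -/
noncomputable def w03D (s : ℝ) (w : (Fin 1 → Finset S.P) × (Fin 1 → Finset F.Q.P)) : ℝ :=
  if w.2 0 = ∅ ∧ Disjoint (w.1 0) (w03z F b) then pw s (w.1 0) else 0

theorem w03_val (s : ℝ) (w : (Fin 1 → Finset S.P) × (Fin 1 → Finset F.Q.P)) :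
    (Wp F.Q s).val (w03x F b w) =
      pw s (w.1 0) * pw s (F.Q.shd (w.2 0)) * w03K F b s := by
  show pw s (w.1 0) * pw s b.q12 * pw s (F.Q.shd b.qq) * pw s (F.Q.shd (w.2 0)) *
    pw s (F.Q.shd b.g1) = _
  unfold w03K
  ring

theorem w03_tE (y : El S) (Y : El SF) (z : Finset S.P) (s : ℝ)
    (w : (Fin 1 → Finset S.P) × (Fin 1 → Finset F.Q.P)) (h : okE F z w) :
    tE F (fun _ => y) (fun _ => Y) z s w =
      (((sg (S.JJ (w.1 0) y.2 + y.1 ⬝ᵥ S.tys (w.1 0)) : ℤ) : ℝ) * pw s (w.1 0)) *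
      (((sg (SF.JJ ((w.2 0).image F.io) Y.2 + Y.1 ⬝ᵥ SF.tys ((w.2 0).image F.io)) : ℤ) : ℝ) *
        pw s (F.Q.shd (w.2 0))) := by
  classical
  unfold tE
  rw [if_pos h]
  simp only [Finset.univ_unique, Fin.default_eq_zero, Finset.prod_singleton]

theorem w03_main_term (hL : SLE) (θ : SF.T → SF.T → S.T → S.T → ℝ) (s : ℝ)
    (w : (Fin 1 → Finset S.P) × (Fin 1 → Finset F.Q.P)) (h : okE F (w03z F b) w)
    (hb : W03Ok F b) :
    (Wp F.Q s).val (w03x F b w) * ∑ a : SF.T, ∑ c : S.T,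
      θ a (SF.tys ((w03x F b w).g.image F.io)) c (S.tys (w03x F b w).q) *
        ((sg ((w03x F b w).E (F.el a (w03x F b w).g) (c, ∅)) : ℤ) : ℝ) =
      w03mt F b θ s w := by
  classical
  have hx : (w03x F b w).Ok := (w03_ok_iff F b w).2 ⟨h, hb⟩
  rw [w03_val, mul_comm (pw s (w.1 0) * pw s (F.Q.shd (w.2 0))) (w03K F b s), mul_assoc]
  unfold w03mt
  congr 1
  rw [Finset.mul_sum]
  refine Finset.sum_congr rfl fun a _ => ?_
  rw [Finset.mul_sum]
  refine Finset.sum_congr rfl fun c _ => ?_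
  rw [← w03_inv2 (fun k l => θ a k c l) (SF.tys ((w03x F b w).g.image F.io))
    (S.tys (w03x F b w).q), Finset.sum_mul, Finset.mul_sum]
  refine Finset.sum_congr rfl fun φ _ => ?_
  rw [Finset.sum_mul, Finset.mul_sum]
  refine Finset.sum_congr rfl fun ψ _ => ?_
  have e1 := w03_sign F b hL w hx a φ c ψ
  have e2 : ((sg (φ ⬝ᵥ SF.tys ((w03x F b w).g.image F.io) +
      ψ ⬝ᵥ S.tys (w03x F b w).q) : ℤ) : ℝ) *
      ((sg ((w03x F b w).E (F.el a (w03x F b w).g) (c, ∅)) : ℤ) : ℝ) =
      ((sg (S.JJ (w.1 0) (w03y F b ψ).2 + (w03y F b ψ).1 ⬝ᵥ S.tys (w.1 0)) : ℤ) : ℝ) *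
      ((sg (SF.JJ ((w.2 0).image F.io) (w03YY F b φ).2 +
        (w03YY F b φ).1 ⬝ᵥ SF.tys ((w.2 0).image F.io)) : ℤ) : ℝ) *
      ((sg (w03c F b a φ c ψ) : ℤ) : ℝ) := by
    rw [← Int.cast_mul, ← Int.cast_mul, ← Int.cast_mul, ← sg_add, ← sg_add, ← sg_add, e1]
  rw [w03_tE F _ _ _ s w h]
  calc pw s (w.1 0) * pw s (F.Q.shd (w.2 0)) *
        (w03_hat (fun k l => θ a k c l) φ ψ *
          ((sg (φ ⬝ᵥ SF.tys ((w03x F b w).g.image F.io) +
            ψ ⬝ᵥ S.tys (w03x F b w).q) : ℤ) : ℝ) *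
          ((sg ((w03x F b w).E (F.el a (w03x F b w).g) (c, ∅)) : ℤ) : ℝ))
      = pw s (w.1 0) * pw s (F.Q.shd (w.2 0)) * w03_hat (fun k l => θ a k c l) φ ψ *
          (((sg (φ ⬝ᵥ SF.tys ((w03x F b w).g.image F.io) +
            ψ ⬝ᵥ S.tys (w03x F b w).q) : ℤ) : ℝ) *
          ((sg ((w03x F b w).E (F.el a (w03x F b w).g) (c, ∅)) : ℤ) : ℝ)) := by ring
    _ = _ := by
        rw [e2]
        ring

theorem w03_diff (hL : SLE) (θ : SF.T → SF.T → S.T → S.T → ℝ) (hθ : Bdd4 θ) (s : ℝ)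
    (hs : 0 ≤ s) (w : (Fin 1 → Finset S.P) × (Fin 1 → Finset F.Q.P)) (hb : W03Ok F b) :
    |(Wp F.Q s).val (w03x F b w) * (w03x F b w).tm (thc F θ) - w03mt F b θ s w| ≤
      (Fintype.card SF.T * Fintype.card S.T : ℝ) * w03D F b s w := by
  classical
  have hD0 : 0 ≤ w03D F b s w := by
    unfold w03D
    split_ifs
    · exact (w03_pw_pos _ _).le
    · exact le_rfl
  by_cases h : okE F (w03z F b) w
  · have hx : (w03x F b w).Ok := (w03_ok_iff F b w).2 ⟨h, hb⟩
    rw [← w03_main_term F b hL θ s w h hb, w03_tm F θ _ hx]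
    by_cases hg : (w03x F b w).g = ∅
    · have hw2 : w.2 0 = ∅ := by
        have h1 : w.2 0 ∪ b.g1 = ∅ := hg
        exact (Finset.union_eq_empty.1 h1).1
      have hD : w03D F b s w = pw s (w.1 0) := by
        unfold w03D
        rw [if_pos ⟨hw2, h.1 0⟩]
      rw [← mul_sub, ← Finset.sum_sub_distrib, hD, abs_mul]
      have h1 : |(Wp F.Q s).val (w03x F b w)| ≤ pw s (w.1 0) := by
        rw [w03_val]
        have hK0 : 0 ≤ w03K F b s := by
          unfold w03K
          have := w03_pw_pos s b.q12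
          have := w03_pw_pos s (F.Q.shd b.qq)
          have := w03_pw_pos s (F.Q.shd b.g1)
          positivity
        have hK1 : w03K F b s ≤ 1 := by
          unfold w03K
          refine mul_le_one₀ (mul_le_one₀ (w03_pw_le hs _) (w03_pw_pos _ _).le
            (w03_pw_le hs _)) (w03_pw_pos _ _).le (w03_pw_le hs _)
        have h2 := w03_pw_pos s (w.1 0)
        have h3 := w03_pw_pos s (F.Q.shd (w.2 0))
        have h4 := w03_pw_le hs (F.Q.shd (w.2 0))
        rw [abs_of_nonneg (by positivity)]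
        calc pw s (w.1 0) * pw s (F.Q.shd (w.2 0)) * w03K F b s
            ≤ pw s (w.1 0) * 1 * 1 := by gcongr
          _ = pw s (w.1 0) := by ring
      have h2 : |∑ a : SF.T, (∑ c : S.T,
          (if (w03x F b w).g = ∅ ∧ F.Q.nu (F.el a ∅) = (0, ∅) then 0
            else θ a (SF.tys ((w03x F b w).g.image F.io)) c (S.tys (w03x F b w).q)) *
          ((sg ((w03x F b w).E (F.el a (w03x F b w).g) (c, ∅)) : ℤ) : ℝ) -
          ∑ c : S.T, θ a (SF.tys ((w03x F b w).g.image F.io)) c (S.tys (w03x F b w).q) *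
          ((sg ((w03x F b w).E (F.el a (w03x F b w).g) (c, ∅)) : ℤ) : ℝ))| ≤
          (Fintype.card SF.T * Fintype.card S.T : ℝ) := by
        refine (Finset.abs_sum_le_sum_abs _ _).trans ?_
        have h3 : ∀ a ∈ (Finset.univ : Finset SF.T), |∑ c : S.T,
            (if (w03x F b w).g = ∅ ∧ F.Q.nu (F.el a ∅) = (0, ∅) then 0
              else θ a (SF.tys ((w03x F b w).g.image F.io)) c (S.tys (w03x F b w).q)) *
            ((sg ((w03x F b w).E (F.el a (w03x F b w).g) (c, ∅)) : ℤ) : ℝ) -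
            ∑ c : S.T, θ a (SF.tys ((w03x F b w).g.image F.io)) c (S.tys (w03x F b w).q) *
            ((sg ((w03x F b w).E (F.el a (w03x F b w).g) (c, ∅)) : ℤ) : ℝ)| ≤
            (Fintype.card S.T : ℝ) := by
          intro a _
          rw [← Finset.sum_sub_distrib]
          refine (Finset.abs_sum_le_sum_abs _ _).trans ?_
          have h4 : ∀ c ∈ (Finset.univ : Finset S.T),
              |(if (w03x F b w).g = ∅ ∧ F.Q.nu (F.el a ∅) = (0, ∅) then 0
                else θ a (SF.tys ((w03x F b w).g.image F.io)) c (S.tys (w03x F b w).q)) *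
              ((sg ((w03x F b w).E (F.el a (w03x F b w).g) (c, ∅)) : ℤ) : ℝ) -
              θ a (SF.tys ((w03x F b w).g.image F.io)) c (S.tys (w03x F b w).q) *
              ((sg ((w03x F b w).E (F.el a (w03x F b w).g) (c, ∅)) : ℤ) : ℝ)| ≤ 1 := by
            intro c _
            rw [← sub_mul, abs_mul, abs_sgr, mul_one]
            split_ifs
            · rw [zero_sub, abs_neg]
              exact hθ _ _ _ _
            · rw [sub_self, abs_zero]
              exact zero_le_one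
          refine (Finset.sum_le_sum h4).trans ?_
          rw [Finset.sum_const, nsmul_eq_mul, mul_one, Finset.card_univ]
        refine (Finset.sum_le_sum h3).trans ?_
        rw [Finset.sum_const, nsmul_eq_mul, Finset.card_univ]
      calc |(Wp F.Q s).val (w03x F b w)| * _ ≤ pw s (w.1 0) *
            (Fintype.card SF.T * Fintype.card S.T : ℝ) :=
              mul_le_mul h1 h2 (abs_nonneg _) (w03_pw_pos _ _).le
        _ = _ := mul_comm _ _
    · have h1 : ∀ a : SF.T, ∀ c : S.T,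
          (if (w03x F b w).g = ∅ ∧ F.Q.nu (F.el a ∅) = (0, ∅) then 0
            else θ a (SF.tys ((w03x F b w).g.image F.io)) c (S.tys (w03x F b w).q)) =
          θ a (SF.tys ((w03x F b w).g.image F.io)) c (S.tys (w03x F b w).q) := fun a c =>
        if_neg fun h2 => hg h2.1
      simp only [h1]
      rw [sub_self, abs_zero]
      positivity
  · have hx : ¬ (w03x F b w).Ok := fun h1 => h ((w03_ok_iff F b w).1 h1).1
    have h1 : (w03x F b w).tm (thc F θ) = 0 := by
      unfold Cf.tm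
      exact if_neg hx
    have h2 : w03mt F b θ s w = 0 := by
      unfold w03mt
      have h3 : ∀ ψ φ, tE F (fun _ : Fin 1 => w03y F b ψ) (fun _ : Fin 1 => w03YY F b φ)
          (w03z F b) s w = 0 := fun ψ φ => by
        unfold tE
        exact if_neg h
      simp only [h3, mul_zero, Finset.sum_const_zero]
    rw [h1, h2, mul_zero, sub_zero, abs_zero]
    positivity

/-! ### the sum of the bounds -/

/-- the embedding of the tuples without `g0` -/
def w03j (w : (Fin 1 → Finset S.P) × (Fin 0 → Finset F.Q.P)) :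
    (Fin 1 → Finset S.P) × (Fin 1 → Finset F.Q.P) := (w.1, fun _ => ∅)

theorem w03j_inj : Function.Injective (w03j F) := by
  rintro ⟨a, a'⟩ ⟨c, c'⟩ h
  have h1 : a = c := congrArg Prod.fst h
  have h2 : a' = c' := Subsingleton.elim _ _
  rw [h1, h2]

theorem w03j_supp (s : ℝ) : Function.support (w03D F b s) ⊆ Set.range (w03j F) := by
  classical
  intro w hw
  have h1 : w.2 0 = ∅ := by
    by_contra h
    apply hw
    unfold w03D
    exact if_neg fun h2 => h h2.1
  refine ⟨(w.1, fun i => i.elim0), ?_⟩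
  unfold w03j
  refine Prod.ext rfl ?_
  funext i
  rw [Subsingleton.elim i 0]
  exact h1.symm

theorem w03j_D (s : ℝ) (w : (Fin 1 → Finset S.P) × (Fin 0 → Finset F.Q.P)) :
    w03D F b s (w03j F w) = tE F (fun _ : Fin 1 => ((0 : S.T), (∅ : Finset S.P)))
      (fun i : Fin 0 => i.elim0) (w03z F b) s w := by
  classical
  unfold w03D tE
  have h1 : okE F (w03z F b) w ↔ ((w03j F w).2 0 = ∅ ∧ Disjoint ((w03j F w).1 0) (w03z F b)) := by
    constructor
    · intro h
      exact ⟨rfl, h.1 0⟩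
    · rintro ⟨-, h⟩
      refine ⟨?_, fun j => j.elim0, fun j => j.elim0, ?_, fun j => j.elim0, fun i j => j.elim0⟩
      · rw [Fin.forall_fin_one]
        exact h
      · intro i i' hi
        exact absurd (Subsingleton.elim i i') hi
  by_cases h : okE F (w03z F b) w
  · rw [if_pos h, if_pos (h1.1 h)]
    simp only [Finset.univ_unique, Fin.default_eq_zero, Finset.prod_singleton,
      Finset.univ_eq_empty, Finset.prod_empty, mul_one, S.JJ_empty_right, zero_dotProduct,
      add_zero, sg_zero, Int.cast_one, one_mul]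
    rfl
  · rw [if_neg h, if_neg fun h2 => h (h1.2 h2)]

theorem w03_D_sum (hS : SES) {s : ℝ} (hs : 1 < s) : Summable (w03D F b s) ∧
    ∑' w, w03D F b s w = ES F (fun _ : Fin 1 => ((0 : S.T), (∅ : Finset S.P)))
      (fun i : Fin 0 => i.elim0) (w03z F b) s := by
  have h1 := hS S SF F 1 0 (fun _ : Fin 1 => ((0 : S.T), (∅ : Finset S.P)))
    (fun i : Fin 0 => i.elim0) (w03z F b) s hs
  constructor
  · rw [← (w03j_inj F).summable_iff (f := w03D F b s)]
    · refine h1.congr fun w => ?_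
      exact (w03j_D F b s w).symm
    · intro w hw
      by_contra h
      exact hw (w03j_supp F b s h)
  · unfold ES
    rw [← (w03j_inj F).tsum_eq (w03j_supp F b s)]
    exact tsum_congr fun w => w03j_D F b s w

/-! ### the sum over the configurations -/

theorem w03x_inj : Function.Injective (w03x F b) := by
  rintro ⟨a, a'⟩ ⟨c, c'⟩ h
  have h1 : a 0 = c 0 := congrArg Cf.q0 h
  have h2 : a' 0 = c' 0 := congrArg Cf.g0 h
  refine Prod.ext ?_ ?_
  · funext i
    rw [Subsingleton.elim i 0]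
    exact h1
  · funext i
    rw [Subsingleton.elim i 0]
    exact h2

theorem w03_ag (x : Cf F.Q) : Ag F {0, 3} b x ↔ ∃ w, w03x F b w = x := by
  constructor
  · rintro ⟨-, h1, h2, -, h4⟩
    refine ⟨(fun _ => x.q0, fun _ => x.g0), ?_⟩
    refine Cf.ext rfl (h1 (by decide)).symm (h2 (by decide)).symm rfl (h4 (by decide)).symm
  · rintro ⟨w, rfl⟩
    exact ⟨fun h => absurd (by decide) h, fun _ => rfl, fun _ => rfl,
      fun h => absurd (by decide) h, fun _ => rfl⟩

theorem w03_WA (θ : SF.T → SF.T → S.T → S.T → ℝ) (s : ℝ) : WA F θ {0, 3} b s =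
    ∑' w, (Wp F.Q s).val (w03x F b w) * (w03x F b w).tm (thc F θ) := by
  classical
  unfold WA
  rw [← (w03x_inj F b).tsum_eq]
  · refine tsum_congr fun w => ?_
    exact if_pos ((w03_ag F b _).2 ⟨w, rfl⟩)
  · intro x hx
    by_contra h
    apply hx
    exact if_neg fun h1 => h ((w03_ag F b x).1 h1)

end

end Pool.Agent.H32.MQ
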