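import Pool.Agent.H32.MQ.XStm

/-!
# Malle's conjecture for 8T28 and 8T29 over number fields, block X: the exact formula
-/

set_option autoImplicit false

open scoped BigOperators Topology
open NumberField IsDedekindDomain Filter

namespace Pool.Agent.H32.MQ

open Pool.Agent.H98.MK (sg)
open Pool.Agent.H98.MF
open Pool.Agent.H98.ML (Dt Ext norb hind)

theorem xa_mem_fsz {X : Type} {n : X → ℕ} (hf : ∀ N : ℕ, {x | n x ≤ N}.Finite) {u : ℝ}
    (hu : 0 ≤ u) {x : X} : x ∈ fsz hf u ↔ (n x : ℝ) ≤ u := by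
  unfold fsz
  rw [Set.Finite.mem_toFinset]
  exact Nat.le_floor_iff hu

/-- the condition on the norm of `a` -/
theorem xa_cond {Y q n a : ℝ} (hY : 0 ≤ Y) (hq : 0 < q) (hn : 0 < n) (ha : 0 ≤ a) :
    q * (n * a) ^ 2 ≤ Y ^ 2 ↔ a ≤ Y * q ^ (-(1 / 2) : ℝ) / n := by
  have h1 : q ^ (-(1 / 2) : ℝ) = (Real.sqrt q)⁻¹ := by
    rw [Real.rpow_neg hq.le, Real.sqrt_eq_rpow]
  have h2 : 0 < Real.sqrt q := Real.sqrt_pos.2 hq
  have h3 : q * (n * a) ^ 2 = (Real.sqrt q * (n * a)) ^ 2 := by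
    rw [mul_pow (Real.sqrt q), Real.sq_sqrt hq.le]
  rw [h3, pow_le_pow_iff_left₀ (by positivity) hY two_ne_zero, h1, le_div_iff₀ hn,
    ← div_eq_mul_inv, le_div_iff₀ h2]
  constructor
  · intro h
    linarith [mul_comm (Real.sqrt q) (n * a), mul_comm n a]
  · intro h
    linarith [mul_comm (Real.sqrt q) (n * a), mul_comm n a]

section

variable {L : Type} [Field L] [NumberField L]

theorem xa_v (ρ : Gm L →* Ext D4) (b : Lˣ) (σ : Gm L) : (twH ρ b σ).v = (ρ σ).v := rfl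

theorem xa_z (ρ : Gm L →* Ext D4) (b : Lˣ) (σ : Gm L) :
    (twH ρ b σ).z = (ρ σ).z + fun _ => chi (b : L) σ := rfl

theorem xa_lc {ρ : Gm L →* Ext D4} (h : IsLocallyConstant ρ) (b : Lˣ) :
    IsLocallyConstant (twH ρ b) := by
  have h1 : IsLocallyConstant fun σ => (ρ σ, chi (b : L) σ) := h.prodMk (chiM_lc (b : L))
  have h2 := h1.comp fun t : Ext D4 × ZMod 2 => (⟨t.1.v, t.1.z + fun _ => t.2⟩ : Ext D4)
  exact h2

end

section

variable {k : Type} [Field k] [NumberField k] {L : Type} [Field L] [NumberField L]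
  [Algebra k L] (E : QX k L) (F : FrP k L) (RL : Rx L)

variable {On : Lˣ → kˣ → Prop} {R : Finset (HeightOneSpectrum (𝓞 k))}

/-- the homomorphism of an object and a class -/
noncomputable def xa_f (p : E.XX On R) (b : El F.FL.sys) : Gm L →* Ext D4 :=
  twH (E.rho0 F.FL RL p.1) (rep F.FL b)

theorem xa_hm (hN : StNrX E F RL) (p : E.XX On R) (b : El F.FL.sys) :
    E.Hm (xa_f E F RL p b) (HX.out p.1.1) (HX.out p.1.2) := by
  have h1 := (hN On R p).hm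
  exact ⟨xa_lc h1.lc _, fun σ => h1.gam σ, fun σ => h1.del σ⟩

theorem xa_par (hN : StNrX E F RL) (hPa : StPa L) (p : E.XX On R) {ρ : Gm L →* Ext D4}
    (h : E.Hm ρ (HX.out p.1.1) (HX.out p.1.2)) : ∃! b, ρ = xa_f E F RL p b := by
  have h1 := (hN On R p).hm
  refine hPa F.FL _ ρ h1.lc h.lc fun σ => ?_
  funext i
  match i with
  | ⟨0, _⟩ => exact (h.gam σ).trans (h1.gam σ).symm
  | ⟨1, _⟩ => exact (h.del σ).trans (h1.del σ).symm

theorem xa_sur (hN : StNrX E F RL) (hOn : E.OnOk On) (p : E.XX On R) :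
    Function.Surjective (E.rho0 F.FL RL p.1) :=
  hOn.su _ _ _ (hN On R p).hm p.2.on

open Classical in
/-- the number of classes -/
theorem xa_one (Qs : Finset ℕ) (hQ0 : ∀ q ∈ Qs, 0 < q)
    (p : E.XX On R) (qv : F.FL.sys.T → F.FL.sys.T → ℕ) (hqv : ∀ e ε, qv e ε ∈ Qs)
    (Y : ℝ) (hY : 0 ≤ Y) (G : Finset (El F.FL.sys))
    (hG : ∀ b, b ∈ G ↔ (((qv b.1 (F.FL.sys.tys b.2) *
      (E.nP F p.1 * F.FL.sys.nm (b.2 \ E.ram F.FL p.1)) ^ 2 : ℕ)) : ℝ) ≤ Y ^ 2) :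
    (G.card : ℝ) = ∑ q ∈ Qs, ∑ r ∈ (E.ram F.FL p.1).powerset,
      ∑ a ∈ F.FL.sys.bx (Y * (q : ℝ) ^ (-(1 / 2) : ℝ) / (E.nP F p.1 : ℝ)),
        (if Disjoint a (E.ram F.FL p.1) then
          ((Finset.univ.filter fun e => qv e (F.FL.sys.tys r + F.FL.sys.tys a) = q).card : ℝ)
          else 0) := by
  set ram := E.ram F.FL p.1 with hram
  have hn : 0 < E.nP F p.1 := F.Fr.sys.nm_pos _
  have h1 : G.card = ∑ q ∈ Qs, (G.filter fun b => qv b.1 (F.FL.sys.tys b.2) = q).card :=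
    Finset.card_eq_sum_card_fiberwise fun b _ => hqv _ _
  rw [h1, Nat.cast_sum]
  refine Finset.sum_congr rfl fun q hq => ?_
  have hq0 : (0 : ℝ) < q := by exact_mod_cast hQ0 q hq
  have hn0 : (0 : ℝ) < E.nP F p.1 := by exact_mod_cast hn
  set bb := F.FL.sys.bx (Y * (q : ℝ) ^ (-(1 / 2) : ℝ) / (E.nP F p.1 : ℝ)) with hbb
  have h2 : ∀ r ∈ ram.powerset, ∑ a ∈ bb, (if Disjoint a ram then
      ((Finset.univ.filter fun e => qv e (F.FL.sys.tys r + F.FL.sys.tys a) = q).card : ℝ)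
      else 0) = ∑ a ∈ bb.filter (fun a => Disjoint a ram),
        ((Finset.univ.filter fun e => qv e (F.FL.sys.tys r + F.FL.sys.tys a) = q).card : ℝ) :=
    fun r _ => (Finset.sum_filter _ _).symm
  rw [Finset.sum_congr rfl h2, ← Finset.sum_product', ← Nat.cast_sum, ← Finset.card_sigma]
  congr 1
  refine Finset.card_nbij'
    (fun b => (⟨(b.2 ∩ ram, b.2 \ ram), b.1⟩ :
      Σ _ : Finset F.FL.sys.P × Finset F.FL.sys.P, F.FL.sys.T))
    (fun z => (z.2, z.1.1 ∪ z.1.2)) ?_ ?_ ?_ ?_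
  · intro b hb
    rw [Finset.mem_coe, Finset.mem_filter, hG] at hb
    have h3 : F.FL.sys.tys (b.2 ∩ ram) + F.FL.sys.tys (b.2 \ ram) = F.FL.sys.tys b.2 := by
      rw [← F.FL.sys.tys_union (Finset.disjoint_sdiff_inter b.2 ram).symm, Finset.union_comm,
        Finset.sdiff_union_inter]
    rw [Finset.mem_coe, Finset.mem_sigma, Finset.mem_product, Finset.mem_powerset,
      Finset.mem_filter, Finset.mem_filter, hbb, F.FL.sys.mem_bx, h3]
    refine ⟨⟨Finset.inter_subset_right, ?_, Finset.sdiff_disjoint⟩, Finset.mem_univ _, hb.2⟩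
    rw [← xa_cond hY hq0 hn0 (Nat.cast_nonneg _)]
    have h4 := hb.1
    rw [hb.2] at h4
    exact_mod_cast h4
  · intro z hz
    rw [Finset.mem_coe, Finset.mem_sigma, Finset.mem_product, Finset.mem_powerset,
      Finset.mem_filter, Finset.mem_filter, hbb, F.FL.sys.mem_bx] at hz
    obtain ⟨⟨hz1, hz2, hz3⟩, -, hz4⟩ := hz
    have hd : Disjoint z.1.1 z.1.2 := (hz3.symm).mono_left hz1
    have h3 : (z.1.1 ∪ z.1.2) \ ram = z.1.2 := by
      rw [Finset.union_sdiff_distrib, Finset.sdiff_eq_empty_iff_subset.2 hz1, Finset.empty_union]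
      exact Finset.sdiff_eq_self_of_disjoint hz3
    rw [Finset.mem_coe, Finset.mem_filter, hG, F.FL.sys.tys_union hd]
    refine ⟨?_, hz4⟩
    rw [← xa_cond hY hq0 hn0 (Nat.cast_nonneg _)] at hz2
    show (((qv z.2 (F.FL.sys.tys z.1.1 + F.FL.sys.tys z.1.2) *
      (E.nP F p.1 * F.FL.sys.nm ((z.1.1 ∪ z.1.2) \ ram)) ^ 2 : ℕ)) : ℝ) ≤ Y ^ 2
    rw [h3, hz4]
    exact_mod_cast hz2
  · intro b _
    refine Prod.ext rfl ?_
    show b.2 ∩ ram ∪ b.2 \ ram = b.2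
    rw [Finset.union_comm, Finset.sdiff_union_inter]
  · intro z hz
    rw [Finset.mem_coe, Finset.mem_sigma, Finset.mem_product, Finset.mem_powerset,
      Finset.mem_filter, Finset.mem_filter] at hz
    obtain ⟨⟨hz1, hz2, hz3⟩, -, hz4⟩ := hz
    have h3 : (z.1.1 ∪ z.1.2) \ ram = z.1.2 := by
      rw [Finset.union_sdiff_distrib, Finset.sdiff_eq_empty_iff_subset.2 hz1, Finset.empty_union]
      exact Finset.sdiff_eq_self_of_disjoint hz3
    have h4 : (z.1.1 ∪ z.1.2) ∩ ram = z.1.1 := by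
      rw [Finset.union_inter_distrib_right, Finset.disjoint_iff_inter_eq_empty.1 hz3,
        Finset.union_empty]
      exact Finset.inter_eq_left.2 hz1
    refine Sigma.ext (Prod.ext h4 h3) HEq.rfl

end

open Classical in
/-- X20: the exact formula -/
theorem stXA {k : Type} [Field k] [NumberField k] {L : Type} [Field L] [NumberField L]
    [Algebra k L] (E : QX k L) (F : FrP k L) (RL : Rx L) (hN : StNrX E F RL) (hPa : StPa L)
    (_hS : StSurT L) (hQ : StQSt L) (hD : StDnX E F RL) (hT : StTwoX E RL) : StXA E F RL := by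
  intro On R hM hR hRM hOn hf Qs hQ0 hQs Y hY
  obtain ⟨hT1, hT2⟩ := hT On R hOn hRM
  set qv : E.XX On R → F.FL.sys.T → F.FL.sys.T → ℕ := fun p e ε =>
    F.FL.qS RL H4 (twH (E.rho0 F.FL RL p.1) (lrp F.FL e ε)) with hqv
  have hdn : ∀ (p : E.XX On R) b, QX.dn (xa_f E F RL p b) = qv p b.1 (F.FL.sys.tys b.2) *
      (E.nP F p.1 * F.FL.sys.nm (b.2 \ E.ram F.FL p.1)) ^ 2 := by
    intro p b
    have h1 := hD On R hM hR hOn p b
    rw [hQ F.FL RL _ (hN On R p).hm.lc (xa_sur E F RL hN hOn p) b] at h1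
    exact h1
  have hq1 : ∀ (p : E.XX On R) e ε, 1 ≤ qv p e ε := fun p e ε => hQ0 _ (hQs p e ε)
  have hle : ∀ (p : E.XX On R) b, (QX.dn (xa_f E F RL p b) : ℝ) ≤ Y ^ 2 →
      (E.nP F p.1 : ℝ) ≤ Y ∧ (F.FL.sys.nm (b.2 \ E.ram F.FL p.1) : ℝ) ≤ Y := by
    intro p b h
    rw [hdn] at h
    have h1 : (1 : ℝ) ≤ qv p b.1 (F.FL.sys.tys b.2) := by exact_mod_cast hq1 p _ _
    have h2 : (1 : ℝ) ≤ E.nP F p.1 := F.Fr.sys.one_le_nmr _
    have h3 : (1 : ℝ) ≤ F.FL.sys.nm (b.2 \ E.ram F.FL p.1) := F.FL.sys.one_le_nmr _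
    push_cast at h
    have h4 : ((E.nP F p.1 : ℝ) * F.FL.sys.nm (b.2 \ E.ram F.FL p.1)) ^ 2 ≤ Y ^ 2 := by
      refine le_trans ?_ h
      exact le_mul_of_one_le_left (by positivity) h1
    have h5 : (E.nP F p.1 : ℝ) * F.FL.sys.nm (b.2 \ E.ram F.FL p.1) ≤ Y :=
      (pow_le_pow_iff_left₀ (by positivity) hY two_ne_zero).1 h4
    exact ⟨(le_mul_of_one_le_right (by positivity) h3).trans h5,
      (le_mul_of_one_le_left (by positivity) h2).trans h5⟩
  have hfin : ∀ p : E.XX On R, {b : El F.FL.sys |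
      (QX.dn (xa_f E F RL p b) : ℝ) ≤ Y ^ 2}.Finite := by
    intro p
    refine Set.Finite.subset (Finset.finite_toSet (((Finset.univ : Finset F.FL.sys.T) ×ˢ
      ((E.ram F.FL p.1).powerset ×ˢ F.FL.sys.bx Y)).image fun z => (z.1, z.2.1 ∪ z.2.2)))
      fun b hb => ?_
    have hb' : (QX.dn (xa_f E F RL p b) : ℝ) ≤ Y ^ 2 := hb
    rw [Finset.mem_coe, Finset.mem_image]
    refine ⟨(b.1, (b.2 ∩ E.ram F.FL p.1, b.2 \ E.ram F.FL p.1)), ?_, ?_⟩
    · rw [Finset.mem_product, Finset.mem_product, Finset.mem_powerset, F.FL.sys.mem_bx]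
      exact ⟨Finset.mem_univ _, Finset.inter_subset_right, (hle p b hb').2⟩
    · refine Prod.ext rfl ?_
      show b.2 ∩ E.ram F.FL p.1 ∪ b.2 \ E.ram F.FL p.1 = b.2
      rw [Finset.union_comm, Finset.sdiff_union_inter]
  set PF : Finset (E.XX On R) := fsz hf Y with hPF
  have hmPF : ∀ p : E.XX On R, p ∈ PF ↔ (E.nP F p.1 : ℝ) ≤ Y := fun p => xa_mem_fsz hf hY
  -- every homomorphism has parameters
  have hex : ∀ ρ ∈ E.Cn RL On R Y, ∀ p : E.XX On R,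
      E.Hm ρ (HX.out p.1.1) (HX.out p.1.2) → p ∈ PF ∧ ∃ b ∈ (hfin p).toFinset,
        xa_f E F RL p b = ρ := by
    intro ρ hρ p hp
    obtain ⟨b, hb, -⟩ := xa_par E F RL hN hPa p hp
    have h1 : (QX.dn (xa_f E F RL p b) : ℝ) ≤ Y ^ 2 := by
      rw [← hb]
      exact hρ.2
    exact ⟨(hmPF p).2 (hle p b h1).1, b, (Set.Finite.mem_toFinset _).2 h1, hb.symm⟩
  have hCn : (E.Cn RL On R Y).Finite := by
    refine Set.Finite.subset (Finset.finite_toSet (PF.biUnion fun p =>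
      (hfin p).toFinset.image (xa_f E F RL p))) fun ρ hρ => ?_
    have h1 := hT1 ρ hρ.1
    have h2 : {p : E.XX On R | E.Hm ρ (HX.out p.1.1) (HX.out p.1.2)}.Nonempty :=
      Set.nonempty_of_ncard_ne_zero (by rw [h1]; exact two_ne_zero)
    obtain ⟨p, hp⟩ := h2
    obtain ⟨h3, b, hb, h4⟩ := hex ρ hρ p hp
    rw [Finset.mem_coe, Finset.mem_biUnion]
    exact ⟨p, h3, Finset.mem_image.2 ⟨b, hb, h4⟩⟩
  set CF := hCn.toFinset with hCF
  have hmCF : ∀ ρ, ρ ∈ CF ↔ ρ ∈ E.Cn RL On R Y := fun ρ => hCn.mem_toFinset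
  have hcard : (E.Cn RL On R Y).ncard = CF.card := Set.ncard_eq_toFinset_card _ hCn
  -- double counting
  have hdc := Finset.sum_card_bipartiteAbove_eq_sum_card_bipartiteBelow (s := CF) (t := PF)
    (fun ρ (p : E.XX On R) => E.Hm ρ (HX.out p.1.1) (HX.out p.1.2))
  have hA : ∀ ρ ∈ CF, (Finset.bipartiteAbove (fun ρ (p : E.XX On R) =>
      E.Hm ρ (HX.out p.1.1) (HX.out p.1.2)) PF ρ).card = 2 := by
    intro ρ hρ
    rw [← hT1 ρ ((hmCF ρ).1 hρ).1, ← Set.ncard_coe_finset]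
    congr 1
    ext p
    rw [Finset.mem_coe, Finset.mem_bipartiteAbove]
    exact ⟨fun h => h.2, fun h => ⟨(hex ρ ((hmCF ρ).1 hρ) p h).1, h⟩⟩
  have hB : ∀ p ∈ PF, (Finset.bipartiteBelow (fun ρ (p : E.XX On R) =>
      E.Hm ρ (HX.out p.1.1) (HX.out p.1.2)) CF p).card = (hfin p).toFinset.card := by
    intro p _
    have h1 : Finset.bipartiteBelow (fun ρ (p : E.XX On R) =>
        E.Hm ρ (HX.out p.1.1) (HX.out p.1.2)) CF p = (hfin p).toFinset.image (xa_f E F RL p) := by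
      ext ρ
      rw [Finset.mem_bipartiteBelow, Finset.mem_image]
      constructor
      · rintro ⟨h2, h3⟩
        obtain ⟨-, b, hb, h4⟩ := hex ρ ((hmCF ρ).1 h2) p h3
        exact ⟨b, hb, h4⟩
      · rintro ⟨b, hb, rfl⟩
        have h2 := xa_hm E F RL hN p b
        have h3 := (Set.Finite.mem_toFinset (hfin p)).1 hb
        have h4 : (QX.dn (xa_f E F RL p b) : ℝ) ≤ Y ^ 2 := h3
        exact ⟨(hmCF _).2 ⟨hT2 p _ h2, h4⟩, h2⟩
    rw [h1]
    refine Finset.card_image_of_injOn fun b _ b' _ h2 => ?_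
    obtain ⟨c, -, hc⟩ := xa_par E F RL hN hPa p (xa_hm E F RL hN p b)
    exact (hc b rfl).trans (hc b' h2).symm
  rw [Finset.sum_congr rfl hA, Finset.sum_congr rfl hB, Finset.sum_const, smul_eq_mul] at hdc
  have hL : (2 : ℝ) * (E.Cn RL On R Y).ncard = ∑ p ∈ PF, ((hfin p).toFinset.card : ℝ) := by
    rw [hcard, ← Nat.cast_sum, ← hdc]
    push_cast
    ring
  rw [hL]
  -- each object
  have hone : ∀ p ∈ PF, ((hfin p).toFinset.card : ℝ) = ∑ q ∈ Qs,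
      ∑ r ∈ (E.ram F.FL p.1).powerset,
      ∑ a ∈ F.FL.sys.bx (Y * (q : ℝ) ^ (-(1 / 2) : ℝ) / (E.nP F p.1 : ℝ)),
        (if Disjoint a (E.ram F.FL p.1) then
          E.NtX F RL q p (F.FL.sys.tys r + F.FL.sys.tys a) else 0) := by
    intro p _
    refine xa_one E F Qs hQ0 p (qv p) (hQs p) Y hY _ fun b => ?_
    rw [Set.Finite.mem_toFinset, ← hdn p b]
    rfl
  rw [Finset.sum_congr rfl hone, Finset.sum_comm]
  refine Finset.sum_congr rfl fun q hq => ?_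
  have hq0 : (0 : ℝ) < q := by exact_mod_cast hQ0 q hq
  have hq1 : (1 : ℝ) ≤ q := by exact_mod_cast hQ0 q hq
  have hqr : (q : ℝ) ^ (-(1 / 2) : ℝ) ≤ 1 :=
    Real.rpow_le_one_of_one_le_of_nonpos hq1 (by norm_num)
  have hqr0 : 0 < (q : ℝ) ^ (-(1 / 2) : ℝ) := Real.rpow_pos_of_pos hq0 _
  have hu : 0 ≤ Y * (q : ℝ) ^ (-(1 / 2) : ℝ) := mul_nonneg hY hqr0.le
  unfold QX.AX
  symm
  refine Finset.sum_subset (fun p hp => ?_) fun p _ hp => ?_
  · rw [xa_mem_fsz hf hu] at hp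
    rw [hmPF]
    exact hp.trans (mul_le_of_le_one_right hY hqr)
  · rw [xa_mem_fsz hf hu, not_le] at hp
    have hn0 : (0 : ℝ) < E.nP F p.1 := F.Fr.sys.nm_posr _
    have h1 : F.FL.sys.bx (Y * (q : ℝ) ^ (-(1 / 2) : ℝ) / (E.nP F p.1 : ℝ)) = ∅ := by
      rw [Finset.eq_empty_iff_forall_notMem]
      intro a ha
      rw [F.FL.sys.mem_bx] at ha
      have h2 : (1 : ℝ) ≤ Y * (q : ℝ) ^ (-(1 / 2) : ℝ) / (E.nP F p.1 : ℝ) :=
        (F.FL.sys.one_le_nmr a).trans ha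
      rw [one_le_div hn0] at h2
      linarith
    rw [h1]
    simp

end Pool.Agent.H32.MQ
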