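import Pool.Agent.H32.MQ.XStm

/-!
# Malle's conjecture for 8T28 and 8T29 over number fields, row MQ-X1: the parametrisation of the
pairs of classes
-/

set_option autoImplicit false

open scoped BigOperators Topology
open NumberField IsDedekindDomain Filter

namespace Pool.Agent.H32.MQ

open Pool.Agent.H98.MF

section

/-- reindexing of a sum along an injective map onto a family of finite sets -/
theorem xbij_sum {A Z W : Type*} [DecidableEq W] (Θ : A → Z × W) (hΘ : Function.Injective Θ)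
    (S : Z → Finset W) (hS : ∀ z w, w ∈ S z → ∃ p, Θ p = (z, w)) (F : Z → W → ℝ)
    (h : Summable fun z => ∑ w ∈ S z, |F z w|) :
    (Summable fun p => if (Θ p).2 ∈ S (Θ p).1 then F (Θ p).1 (Θ p).2 else 0) ∧
    ∑' p, (if (Θ p).2 ∈ S (Θ p).1 then F (Θ p).1 (Θ p).2 else 0) =
      ∑' z, ∑ w ∈ S z, F z w := by
  let G : Z × W → ℝ := fun q => if q.2 ∈ S q.1 then F q.1 q.2 else 0
  have hG : ∀ z, ∑' w, G (z, w) = ∑ w ∈ S z, F z w := by
    intro z
    rw [tsum_eq_sum (s := S z) fun w hw => if_neg hw]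
    exact Finset.sum_congr rfl fun w hw => if_pos hw
  have hGa : ∀ z, ∑' w, |G (z, w)| = ∑ w ∈ S z, |F z w| := by
    intro z
    rw [tsum_eq_sum (s := S z) fun w hw => by
      have h1 : G (z, w) = 0 := if_neg hw
      rw [h1, abs_zero]]
    refine Finset.sum_congr rfl fun w hw => ?_
    have h1 : G (z, w) = F z w := if_pos hw
    rw [h1]
  have hs : Summable G := by
    rw [← summable_abs_iff, summable_prod_of_nonneg fun q => abs_nonneg _]
    refine ⟨fun z => ?_, ?_⟩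
    · refine summable_of_ne_finset_zero (s := S z) fun w hw => ?_
      have h1 : G (z, w) = 0 := if_neg hw
      rw [h1, abs_zero]
    · simp only [hGa]
      exact h
  have hr : Function.support G ⊆ Set.range Θ := by
    intro q hq
    have h1 : q.2 ∈ S q.1 := by
      by_contra h2
      exact hq (if_neg h2)
    obtain ⟨p, hp⟩ := hS q.1 q.2 h1
    exact ⟨p, hp⟩
  refine ⟨hs.comp_injective hΘ, ?_⟩
  have h2 : ∑' p, G (Θ p) = ∑' q, G q := hΘ.tsum_eq hr
  refine h2.trans ?_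
  rw [hs.tsum_prod]
  exact tsum_congr hG

variable {k : Type} [Field k] [NumberField k] {Fr : Frm k} {L : Type} [Field L]
  [NumberField L] [Algebra k L] (X : HX Fr L)

theorem xbij_gX {g : Finset X.PX} {γ : HX.GX L} (h : γ ∈ X.Bs g) : X.gX γ = g := by
  ext b
  unfold HX.gX
  rw [Set.Finite.mem_toFinset]
  have h1 := h b.1 b.2.1
  constructor
  · intro hb
    obtain ⟨b', hb', e⟩ := h1.1 hb
    have : b' = b := Subtype.ext e
    exact this ▸ hb'
  · intro hb
    exact h1.2 ⟨b, hb, rfl⟩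

theorem xbij_co {τ τ' : HX.GX k} (h : co Fr (HX.out τ) = co Fr (HX.out τ')) : τ = τ' := by
  obtain ⟨a, ha⟩ := h_co Fr (HX.out τ)
  obtain ⟨b, hb⟩ := h_co Fr (HX.out τ')
  rw [← mk_out τ, ← mk_out τ', cls_eq]
  rw [h] at ha
  refine ⟨a * b * (rep Fr (co Fr (HX.out τ')))⁻¹, ?_⟩
  have h1 : HX.out τ * HX.out τ' = (HX.out τ * rep Fr (co Fr (HX.out τ'))) *
      (HX.out τ' * rep Fr (co Fr (HX.out τ'))) *
      ((rep Fr (co Fr (HX.out τ')))⁻¹ * (rep Fr (co Fr (HX.out τ')))⁻¹) := by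
    generalize rep Fr (co Fr (HX.out τ')) = r
    generalize HX.out τ = x
    generalize HX.out τ' = y
    rw [show x * r * (y * r) * (r⁻¹ * r⁻¹) = (x * y) * ((r * r⁻¹) * (r * r⁻¹)) from by
      simp only [mul_assoc, mul_left_comm, mul_comm], mul_inv_cancel, mul_one, mul_one]
  rw [h1, ha, hb]
  simp only [mul_assoc, mul_left_comm, mul_comm]

end

open Classical in
theorem stBij {k : Type} [Field k] [NumberField k] {Fr : Frm k} {L : Type} [Field L]
    [NumberField L] [Algebra k L] (X : HX Fr L) : StBij X := by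
  intro f hf
  let Θ : HX.GX L × HX.GX k → (Finset Fr.sys.P × Finset X.PX) × (HX.GX L × El Fr.sys) :=
    fun p => ((X.xX p.2, X.gX p.1), (p.1, X.cX p.2))
  let S : Finset Fr.sys.P × Finset X.PX → Finset (HX.GX L × El Fr.sys) := fun z =>
    if X.okX z.1 z.2 then X.BX z.2 ×ˢ ((Finset.univ : Finset Fr.sys.T) ×ˢ X.M.powerset) else ∅
  have hΘ : Function.Injective Θ := by
    intro p p' h
    have h1 : X.xX p.2 = X.xX p'.2 := congrArg (fun q => q.1.1) h
    have h2 : p.1 = p'.1 := congrArg (fun q => q.2.1) h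
    have h3 : X.cX p.2 = X.cX p'.2 := congrArg (fun q => q.2.2) h
    refine Prod.ext h2 (xbij_co (Fr := Fr) ?_)
    have h30 : (X.cX p.2).1 = (X.cX p'.2).1 := by rw [h3]
    have h31 : (co Fr (HX.out p.2)).1 = (co Fr (HX.out p'.2)).1 := h30
    refine Prod.ext h31 ?_
    have h40 : (X.cX p.2).2 = (X.cX p'.2).2 := by rw [h3]
    have h4 : (co Fr (HX.out p.2)).2 ∩ X.M = (co Fr (HX.out p'.2)).2 ∩ X.M := h40
    have h5 : (co Fr (HX.out p.2)).2 \ X.M = (co Fr (HX.out p'.2)).2 \ X.M := h1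
    ext q
    by_cases hq : q ∈ X.M
    · have h6 := Finset.ext_iff.1 h4 q
      rw [Finset.mem_inter, Finset.mem_inter] at h6
      exact ⟨fun h7 => (h6.1 ⟨h7, hq⟩).1, fun h7 => (h6.2 ⟨h7, hq⟩).1⟩
    · have h6 := Finset.ext_iff.1 h5 q
      rw [Finset.mem_sdiff, Finset.mem_sdiff] at h6
      exact ⟨fun h7 => (h6.1 ⟨h7, hq⟩).1, fun h7 => (h6.2 ⟨h7, hq⟩).1⟩
  have hmem : ∀ p, (Θ p).2 ∈ S (Θ p).1 ↔ X.OkT p := by
    intro p
    show (p.1, X.cX p.2) ∈ (if X.okX (X.xX p.2) (X.gX p.1) then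
      X.BX (X.gX p.1) ×ˢ ((Finset.univ : Finset Fr.sys.T) ×ˢ X.M.powerset) else ∅) ↔ _
    unfold HX.OkT
    by_cases h : X.okX (X.xX p.2) (X.gX p.1)
    · rw [if_pos h, Finset.mem_product, Finset.mem_product, Finset.mem_powerset,
        hi_mem X (h_cardB X)]
      exact ⟨fun h1 => ⟨h, h1.1⟩, fun h1 => ⟨h1.2, Finset.mem_univ _, Finset.inter_subset_right⟩⟩
    · rw [if_neg h]
      exact ⟨fun h1 => absurd h1 (Finset.notMem_empty _), fun h1 => absurd h1.1 h⟩
  have hS : ∀ z w, w ∈ S z → ∃ p, Θ p = (z, w) := by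
    rintro ⟨x, g⟩ ⟨γ, c⟩ hw
    by_cases h : X.okX x g
    · have hw' : (γ, c) ∈ X.BX g ×ˢ ((Finset.univ : Finset Fr.sys.T) ×ˢ X.M.powerset) := by
        have h1 : S (x, g) = X.BX g ×ˢ ((Finset.univ : Finset Fr.sys.T) ×ˢ X.M.powerset) :=
          if_pos h
        rwa [h1] at hw
      rw [Finset.mem_product, Finset.mem_product, Finset.mem_powerset,
        hi_mem X (h_cardB X)] at hw'
      have hc : c.2 ⊆ X.M := hw'.2.2
      have hco : co Fr (HX.out ((rep Fr (c.1, c.2 ∪ x) : kˣ) : HX.GX k)) = (c.1, c.2 ∪ x) := by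
        rw [co_congr Fr (out_sq _), co_rep]
      have hx : Disjoint x X.M := h.2.1
      refine ⟨(γ, ((rep Fr (c.1, c.2 ∪ x) : kˣ) : HX.GX k)), ?_⟩
      refine Prod.ext (Prod.ext ?_ (xbij_gX X hw'.1)) (Prod.ext rfl (Prod.ext ?_ ?_))
      · show (co Fr _).2 \ X.M = x
        rw [hco]
        show (c.2 ∪ x) \ X.M = x
        rw [Finset.union_sdiff_distrib, Finset.sdiff_eq_empty_iff_subset.2 hc,
          Finset.empty_union, Finset.sdiff_eq_self_of_disjoint hx]
      · show (co Fr _).1 = c.1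
        rw [hco]
      · show (co Fr _).2 ∩ X.M = c.2
        rw [hco]
        show (c.2 ∪ x) ∩ X.M = c.2
        rw [Finset.union_inter_distrib_right, Finset.inter_eq_left.2 hc,
          Finset.disjoint_iff_inter_eq_empty.1 hx, Finset.union_empty]
    · have h1 : S (x, g) = ∅ := if_neg h
      rw [h1] at hw
      exact absurd hw (Finset.notMem_empty _)
  have hsum : ∀ φ : (Finset Fr.sys.P × Finset X.PX) → HX.GX L → El Fr.sys → ℝ, ∀ z,
      (∑ w ∈ S z, φ z w.1 w.2) = if X.okX z.1 z.2 then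
        ∑ γ ∈ X.BX z.2, ∑ c ∈ (Finset.univ : Finset Fr.sys.T) ×ˢ X.M.powerset, φ z γ c
        else 0 := by
    intro φ z
    by_cases h : X.okX z.1 z.2
    · have h1 : S z = X.BX z.2 ×ˢ ((Finset.univ : Finset Fr.sys.T) ×ˢ X.M.powerset) :=
        if_pos h
      rw [if_pos h, h1, Finset.sum_product]
    · have h1 : S z = ∅ := if_neg h
      rw [if_neg h, h1, Finset.sum_empty]
  obtain ⟨h1, h2⟩ := xbij_sum Θ hΘ S hS (fun z w => f z w.1 w.2) (by
    have := hsum (fun z γ c => |f z γ c|)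
    simp only [this]
    exact hf)
  simp only [hmem] at h1 h2
  refine ⟨h1, ?_⟩
  refine h2.trans ?_
  exact tsum_congr fun z => hsum f z

end Pool.Agent.H32.MQ
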