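import Pool.Agent.H32.MQ.XStm
import Pool.Agent.H32.MQ.UA

/-!
# Malle's conjecture for 8T28 and 8T29 over number fields, block X: the series `D1` over pairs of
classes
-/

set_option autoImplicit false

open scoped BigOperators Topology
open NumberField IsDedekindDomain Filter

namespace Pool.Agent.H32.MQ

open Pool.Agent.H98.MK (sg)
open Pool.Agent.H98.MF

section

variable {k : Type} [Field k] [NumberField k] {Fr : Frm k} {L : Type} [Field L]
  [NumberField L] [Algebra k L] (X : HX Fr L)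

theorem xd1_sg (t : ZMod 2) : 0 ≤ 1 + ((sg t : ℤ) : ℝ) := by
  have h := abs_sgr t
  have h2 := neg_abs_le ((sg t : ℤ) : ℝ)
  linarith

theorem xd1_fp0 (γ : HX.GX L) (p : Fr.sys.P) : 0 ≤ X.fpX γ p := by
  unfold HX.fpX
  split_ifs
  · exact mul_nonneg (xd1_sg _) (xd1_sg _)
  · exact xd1_sg _

theorem xd1_fa0 (c : El Fr.sys) (x : Finset Fr.sys.P) (b : X.PX) : 0 ≤ X.faX c x b := by
  unfold HX.faX
  exact xd1_sg _

/-- the product of the factors -/
noncomputable def xd1_pr (x : Finset Fr.sys.P) (g : Finset X.PX) (γ : HX.GX L) (c : El Fr.sys) :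
    ℝ := (∏ p ∈ x, X.fpX γ p) * ∏ b ∈ g, X.faX c x b

theorem xd1_pr0 (x : Finset Fr.sys.P) (g : Finset X.PX) (γ : HX.GX L) (c : El Fr.sys) :
    0 ≤ xd1_pr X x g γ c :=
  mul_nonneg (Finset.prod_nonneg fun p _ => xd1_fp0 X γ p)
    (Finset.prod_nonneg fun b _ => xd1_fa0 X c x b)

theorem xd1_fp (γ : HX.GX L) (p : Fr.sys.P) : (Qof X).fp γ p = X.fpX γ p := rfl

theorem xd1_fa (c : El Fr.sys) (x : Finset Fr.sys.P) (b : X.PX) :
    (Qof X).fa c x b = X.faX c x b := by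
  unfold Qd.fa HX.faX
  congr 1

theorem xd1_nm (z : Finset Fr.sys.P × Finset X.PX) :
    (Fr.sys.nm z.1 : ℝ) * ((Qof X).nq z.2 : ℝ) = (X.nmX z : ℝ) := by
  unfold HX.nmX
  rw [Nat.cast_mul]
  rfl

open Classical in
theorem xd1_ok (hM : X.M = ∅) (x : Finset Fr.sys.P) (g : Finset X.PX) :
    (Qof X).OkP x g ↔ X.okX x g := by
  unfold Qd.OkP HX.okX
  have h1 : (Qof X).M = ∅ := hM
  have h2 : (Qof X).shd g = g.image X.shX := rfl
  rw [h1, h2, hM]
  constructor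
  · rintro ⟨a, b, -, c⟩
    exact ⟨a, b, c⟩
  · rintro ⟨a, b, c⟩
    exact ⟨a, b, Finset.disjoint_empty_right _, c⟩

open Classical in
theorem xd1_lab (hM : X.M = ∅) (x : Finset Fr.sys.P) :
    (Qof X).lab x = (Fr.sys.tys x, ∅) := by
  have h1 : (Qof X).M = ∅ := hM
  unfold Qd.lab
  rw [h1, Finset.filter_empty]

open Classical in
theorem xd1_tp (hM : X.M = ∅) (Θ : HX.GX L → El Fr.sys → El Fr.sys → ℝ)
    (x : Finset Fr.sys.P) (g : Finset X.PX) :
    (Qof X).tp Θ x g = if X.okX x g then ∑ γ ∈ X.BX g,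
      ∑ c ∈ (Finset.univ : Finset Fr.sys.T) ×ˢ X.M.powerset,
        Θ γ c (Fr.sys.tys x, ∅) * xd1_pr X x g γ c else 0 := by
  unfold Qd.tp
  by_cases h : X.okX x g
  · rw [if_pos h, if_pos ((xd1_ok X hM x g).2 h)]
    refine Finset.sum_congr rfl fun γ _ => ?_
    have h1 : (Qof X).els = (Finset.univ : Finset Fr.sys.T) ×ˢ X.M.powerset := rfl
    rw [h1]
    refine Finset.sum_congr rfl fun c _ => ?_
    rw [xd1_lab X hM]
    rfl
  · rw [if_neg h, if_neg fun h' => h ((xd1_ok X hM x g).1 h')]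

open Classical in
/-- absolute convergence -/
theorem xd1_sum (hM : X.M = ∅) {s : ℝ} (hs : 1 < s)
    (f : (Finset Fr.sys.P × Finset X.PX) → HX.GX L → El Fr.sys → ℝ)
    (hf : ∀ z γ c, |f z γ c| ≤ xd1_pr X z.1 z.2 γ c * (X.nmX z : ℝ) ^ (-s)) :
    Summable fun z : Finset Fr.sys.P × Finset X.PX => if X.okX z.1 z.2 then
      ∑ γ ∈ X.BX z.2, ∑ c ∈ (Finset.univ : Finset Fr.sys.T) ×ˢ X.M.powerset, |f z γ c|
      else 0 := by
  have h1 := ua_second (Qof X) (fun _ _ _ => (1 : ℝ)) s (fun _ _ _ => by simp) hs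
  refine Summable.of_nonneg_of_le (fun z => ?_) (fun z => ?_) h1
  · split_ifs
    · exact Finset.sum_nonneg fun γ _ => Finset.sum_nonneg fun c _ => abs_nonneg _
    · exact le_rfl
  · rw [xd1_tp X hM, xd1_nm X z]
    by_cases h : X.okX z.1 z.2
    · rw [if_pos h, if_pos h, Finset.sum_mul]
      refine Finset.sum_le_sum fun γ _ => ?_
      rw [Finset.sum_mul]
      refine Finset.sum_le_sum fun c _ => ?_
      rw [one_mul]
      exact hf z γ c
    · rw [if_neg h, if_neg h, zero_mul]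

end

section

variable {k : Type} [Field k] [NumberField k] {L : Type} [Field L] [NumberField L]
  [Algebra k L] (E : QX k L) (F : FrP k L) (h : E.M ⊆ F.Fr.S)

open Classical in
/-- the function of the classes in terms of the pairs -/
theorem xd1_thc (θ : F.FL.sys.T → F.FL.sys.T → F.Fr.sys.T → F.Fr.sys.T → ℝ)
    (p : HX.GX L × HX.GX k) :
    thc (E.qf F h) θ p.1 ((E.toY F.Fr h ∅).cX p.2)
        (F.Fr.sys.tys ((E.toY F.Fr h ∅).xX p.2), ∅) =
      if (E.toY F.Fr h ∅).NS p then QX.tc F θ p else 0 := by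
  have hM : (E.toY F.Fr h ∅).M = ∅ := rfl
  have h1 : (∃ a, p.1 = (E.qf F h).el a ∅) ↔ p.1 ∈ (E.toY F.Fr h ∅).Bs ∅ := by
    rw [← hi_mem (E.toY F.Fr h ∅) (h_cardB _), mem_BX (E.toY F.Fr h ∅) F.FL F.ov hM]
    constructor
    · rintro ⟨a, ha⟩
      exact ⟨a, ha.symm⟩
    · rintro ⟨a, ha⟩
      exact ⟨a, ha.symm⟩
  have h2 : (E.qf F h).Q.nu p.1 = (E.toY F.Fr h ∅).nuX p.1 := rfl
  have h3 : (E.toY F.Fr h ∅).xX p.2 = (co F.Fr (HX.out p.2)).2 := by
    unfold HX.xX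
    rw [hM, Finset.sdiff_empty]
  unfold thc HX.NS
  rw [h2, h3]
  by_cases hp : p.1 ∈ (E.toY F.Fr h ∅).Bs ∅ ∧ (E.toY F.Fr h ∅).nuX p.1 = (0, ∅)
  · rw [if_pos ⟨h1.2 hp.1, hp.2⟩, if_neg fun h' => h' hp]
  · rw [if_neg fun h' => hp ⟨h1.1 h'.1, h'.2⟩, if_pos hp]
    rfl

theorem xd1_abs (θ : F.FL.sys.T → F.FL.sys.T → F.Fr.sys.T → F.Fr.sys.T → ℝ) (hθ : Bdd4 θ)
    (γ : HX.GX L) (c l : El F.Fr.sys) : |thc (E.qf F h) θ γ c l| ≤ 1 := by
  classical
  unfold thc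
  split_ifs
  · rw [abs_zero]
    exact zero_le_one
  · exact hθ _ _ _ _

/-- Row X5. -/
theorem stD1 (hB : StBij (E.toY F.Fr h ∅)) : StD1 E F h := by
  classical
  intro θ s hθ hs
  set X := E.toY F.Fr h ∅ with hX
  have hM : X.M = ∅ := rfl
  set f : (Finset F.Fr.sys.P × Finset X.PX) → HX.GX L → El F.Fr.sys → ℝ := fun z γ c =>
    if z.1 = ∅ then 0 else thc (E.qf F h) θ γ c (F.Fr.sys.tys z.1, ∅) *
      xd1_pr X z.1 z.2 γ c * (X.nmX z : ℝ) ^ (-s) with hf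
  have hnm : ∀ z, 0 ≤ (X.nmX z : ℝ) ^ (-s) := fun z => Real.rpow_nonneg (Nat.cast_nonneg _) _
  have hf1 : ∀ z γ c, |f z γ c| ≤ xd1_pr X z.1 z.2 γ c * (X.nmX z : ℝ) ^ (-s) := by
    intro z γ c
    have e0 : 0 ≤ xd1_pr X z.1 z.2 γ c * (X.nmX z : ℝ) ^ (-s) :=
      mul_nonneg (xd1_pr0 X _ _ _ _) (hnm z)
    simp only [hf]
    split_ifs with hz
    · rw [abs_zero]
      exact e0
    · rw [mul_assoc, abs_mul, abs_of_nonneg e0]
      exact mul_le_of_le_one_left e0 (xd1_abs E F h θ hθ γ c _)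
  obtain ⟨s1, s2⟩ := hB f (xd1_sum X hM hs f hf1)
  have hA : ∀ p : HX.GX L × HX.GX k,
      (if X.OkT p then f (X.xX p.2, X.gX p.1) p.1 (X.cX p.2) else 0) =
      if X.OkT p ∧ X.xX p.2 ≠ ∅ ∧ X.NS p then
        QX.tc F θ p * X.FacX p * (X.nT p : ℝ) ^ (-s) else 0 := by
    intro p
    by_cases h1 : X.OkT p
    · rw [if_pos h1]
      simp only [hf]
      by_cases h2 : X.xX p.2 = ∅
      · rw [if_pos h2, if_neg fun h' => h'.2.1 h2]
      · rw [if_neg h2, xd1_thc E F h θ p]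
        by_cases h3 : X.NS p
        · rw [if_pos h3, if_pos ⟨h1, h2, h3⟩]
          rfl
        · rw [if_neg h3, if_neg fun h' => h3 h'.2.2, zero_mul, zero_mul]
    · rw [if_neg h1, if_neg fun h' => h1 h'.1]
  have hC : ∀ z : Finset F.Fr.sys.P × Finset X.PX, (if X.okX z.1 z.2 then
      ∑ γ ∈ X.BX z.2, ∑ c ∈ (Finset.univ : Finset F.Fr.sys.T) ×ˢ X.M.powerset, f z γ c else 0) =
      if z.1 = ∅ then 0 else (Qof X).tp (thc (E.qf F h) θ) z.1 z.2 *
        ((F.Fr.sys.nm z.1 : ℝ) * ((Qof X).nq z.2 : ℝ)) ^ (-s) := by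
    intro z
    rw [xd1_tp X hM, xd1_nm X z]
    simp only [hf]
    by_cases h1 : z.1 = ∅
    · simp only [if_pos h1, Finset.sum_const_zero, ite_self]
    · simp only [if_neg h1]
      by_cases h2 : X.okX z.1 z.2
      · rw [if_pos h2, if_pos h2, Finset.sum_mul]
        refine Finset.sum_congr rfl fun γ _ => ?_
        rw [Finset.sum_mul]
      · rw [if_neg h2, if_neg h2, zero_mul]
  simp only [hA] at s1 s2
  simp only [hC] at s2
  exact ⟨s1, s2.symm⟩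

end

end Pool.Agent.H32.MQ
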