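import Pool.Agent.H32.MQ.XStm
import Pool.Agent.H32.MQ.UA

/-!
# Malle's conjecture for 8T28 and 8T29 over number fields, block X: the series `D2` over pairs of
classes
-/

set_option autoImplicit false

open scoped BigOperators
open NumberField IsDedekindDomain

namespace Pool.Agent.H32.MQ

open Pool.Agent.H98.MK (sg)
open Pool.Agent.H98.MF

/-! ### squares and coordinates -/

section

variable {k : Type} [Field k] [NumberField k] (Fr : Frm k)

/-- equal coordinates give a square product -/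
theorem xd2_sq {x y : kˣ} (h : co Fr x = co Fr y) : IsSquare (x * y) := by
  obtain ⟨a, ha⟩ := h_co Fr x
  obtain ⟨b, hb⟩ := h_co Fr y
  rw [← h] at hb
  refine ⟨a * b * (rep Fr (co Fr x))⁻¹, ?_⟩
  have h1 : x * y = (x * rep Fr (co Fr x)) * (y * rep Fr (co Fr x)) *
      ((rep Fr (co Fr x))⁻¹ * (rep Fr (co Fr x))⁻¹) := by
    rw [mul_mul_mul_comm x, mul_assoc (x * y), mul_mul_mul_comm (rep Fr (co Fr x)) _ _,
      mul_inv_cancel, mul_one, mul_one]
  rw [h1, ha, hb]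
  simp only [mul_assoc, mul_left_comm, mul_comm]

theorem xd2_sq_iff {x y : kˣ} : IsSquare (x * y) ↔ co Fr x = co Fr y :=
  ⟨fun h => co_congr Fr h, fun h => xd2_sq Fr h⟩

end

section

variable {k : Type} [Field k] [NumberField k] {Fr : Frm k} {L : Type} [Field L]
  [NumberField L] [Algebra k L] (X : HX Fr L) (FL : Frm L) (hF : Ovr Fr.S FL.S)
  (hM : X.M = ∅)

include hF hM in
open Classical in
/-- the condition that `δ t` is a square, for a unit `t` -/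
theorem xd2_sqδ (x : kˣ) (hx : (co Fr x).2 = ∅) :
    IsSquare (X.δ * Units.map (algebraMap k L : k →* L) x) ↔
      (co FL X.δ).1 + emX FL Fr ((co Fr x).1, ∅) = 0 := by
  have h0 : co Fr x = ((co Fr x).1, ∅) := Prod.ext rfl hx
  have h1 : co FL (Units.map (algebraMap k L : k →* L) x) =
      (emX FL Fr ((co Fr x).1, ∅), ∅) := by
    have h2 := h_co Fr x
    rw [h0] at h2
    have h3 : IsSquare (Units.map (algebraMap k L : k →* L) x *
        Units.map (algebraMap k L : k →* L) (rep Fr ((co Fr x).1, ∅))) := by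
      rw [← map_mul]
      exact h2.map _
    rw [co_congr FL h3, co_em X FL hF hM]
    rfl
  have h4 : co FL X.δ = ((co FL X.δ).1, ∅) := Prod.ext rfl (co_δ X FL hF hM)
  rw [xd2_sq_iff FL, h1, h4]
  show ((co FL X.δ).1, (∅ : Finset FL.sys.P)) = _ ↔ (co FL X.δ).1 + _ = 0
  rw [Prod.mk.injEq]
  have h5 : ∀ a b : FL.sys.T, a = b ↔ a + b = 0 := by
    intro a b
    constructor
    · rintro rfl
      funext i
      exact CharTwo.add_self_eq_zero (a i)
    · intro h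
      funext i
      have h6 : a i + b i = 0 := congrFun h i
      exact CharTwo.add_eq_zero.1 h6
  rw [← h5]
  exact ⟨fun h => h.1, fun h => ⟨h, rfl⟩⟩

end

section

variable {k : Type} [Field k] [NumberField k] {L : Type} [Field L] [NumberField L]
  [Algebra k L] (E : QX k L) (F : FrP k L) (h : E.M ⊆ F.Fr.S)

open Classical in
/-- the function of the classes in terms of block H -/
theorem xd2_thc (γ : HX.GX L) (c l : El F.Fr.sys) :
    thc (E.qf F h) (fun _ _ _ _ => 1) γ c l =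
      if γ ∈ (E.toY F.Fr h ∅).Bs ∅ ∧ (E.toY F.Fr h ∅).nuX γ = (0, ∅) then 0 else 1 := by
  have h1 : (∃ a, γ = (E.qf F h).el a ∅) ↔ γ ∈ (E.toY F.Fr h ∅).Bs ∅ := by
    rw [← hi_mem (E.toY F.Fr h ∅) (h_cardB (E.toY F.Fr h ∅)),
      mem_BX (E.toY F.Fr h ∅) F.FL F.ov rfl]
    constructor
    · rintro ⟨a, ha⟩
      exact ⟨a, ha.symm⟩
    · rintro ⟨a, ha⟩
      exact ⟨a, ha.symm⟩
  have h2 : (E.qf F h).Q.nu γ = (E.toY F.Fr h ∅).nuX γ := rfl
  unfold thc
  rw [h2]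
  by_cases h3 : γ ∈ (E.toY F.Fr h ∅).Bs ∅ ∧ (E.toY F.Fr h ∅).nuX γ = (0, ∅)
  · rw [if_pos h3, if_pos ⟨h1.2 h3.1, h3.2⟩]
  · rw [if_neg h3, if_neg fun h4 => h3 ⟨h1.1 h4.1, h4.2⟩]

open Classical in
/-- the terms -/
noncomputable def xd2_f (s : ℝ) (z : Finset F.Fr.sys.P × Finset (E.toY F.Fr h ∅).PX)
    (γ : HX.GX L) (c : El F.Fr.sys) : ℝ :=
  if z.1 = ∅ ∧ ¬ (E.qf F h).cd + (E.qf F h).em (c.1, ∅) = 0 then
    thc (E.qf F h) (fun _ _ _ _ => 1) γ (c.1, ∅) (0, ∅) *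
      (∏ b ∈ z.2, (E.toY F.Fr h ∅).faX (c.1, ∅) ∅ b) *
      ((E.toY F.Fr h ∅).nmX z : ℝ) ^ (-s) else 0

open Classical in
/-- the terms of the pairs of classes -/
theorem xd2_pt (s : ℝ) (p : HX.GX L × HX.GX k) :
    xd2_f E F h s ((E.toY F.Fr h ∅).xX p.2, (E.toY F.Fr h ∅).gX p.1) p.1
        ((E.toY F.Fr h ∅).cX p.2) =
      if (E.toY F.Fr h ∅).xX p.2 = ∅ ∧ (E.toY F.Fr h ∅).NS p ∧
        ¬ IsSquare (E.δ * Units.map (algebraMap k L : k →* L) (HX.out p.2)) then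
          (E.toY F.Fr h ∅).FacX p * ((E.toY F.Fr h ∅).nT p : ℝ) ^ (-s) else 0 := by
  have hx : (E.toY F.Fr h ∅).xX p.2 = (co F.Fr (HX.out p.2)).2 := by
    show (co F.Fr (HX.out p.2)).2 \ ∅ = _
    exact Finset.sdiff_empty
  have hc : (E.toY F.Fr h ∅).cX p.2 = ((co F.Fr (HX.out p.2)).1, ∅) := by
    show ((co F.Fr (HX.out p.2)).1, (co F.Fr (HX.out p.2)).2 ∩ ∅) = _
    rw [Finset.inter_empty]
  unfold xd2_f
  by_cases h1 : (E.toY F.Fr h ∅).xX p.2 = ∅
  · have h2 := xd2_sqδ (E.toY F.Fr h ∅) F.FL F.ov rfl (HX.out p.2) (by rw [← hx, h1])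
    have h3 : IsSquare (E.δ * Units.map (algebraMap k L : k →* L) (HX.out p.2)) ↔
        (E.qf F h).cd + (E.qf F h).em ((co F.Fr (HX.out p.2)).1, ∅) = 0 := h2
    rw [hc]
    by_cases h4 : (E.qf F h).cd + (E.qf F h).em ((co F.Fr (HX.out p.2)).1, ∅) = 0
    · rw [if_neg fun h5 => h5.2 h4, if_neg fun h5 => h5.2.2 (h3.2 h4)]
    · have h6 : ¬ IsSquare (E.δ * Units.map (algebraMap k L : k →* L) (HX.out p.2)) :=
        fun h5 => h4 (h3.1 h5)
      rw [if_pos ⟨h1, h4⟩, xd2_thc]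
      by_cases h7 : p.1 ∈ (E.toY F.Fr h ∅).Bs ∅ ∧ (E.toY F.Fr h ∅).nuX p.1 = (0, ∅)
      · rw [if_pos h7, if_neg fun h8 => h8.2.1 h7, zero_mul, zero_mul]
      · rw [if_neg h7, if_pos ⟨h1, h7, h6⟩, one_mul]
        have h9 : (E.toY F.Fr h ∅).FacX p = ∏ b ∈ (E.toY F.Fr h ∅).gX p.1,
            (E.toY F.Fr h ∅).faX ((co F.Fr (HX.out p.2)).1, ∅) ∅ b := by
          unfold HX.FacX
          rw [h1, hc, Finset.prod_empty, one_mul]
        rw [h9]
        rfl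
  · rw [if_neg fun h2 => h1 h2.1, if_neg fun h2 => h1 h2.1]

/-- admissible sets -/
theorem xd2_ok (g : Finset (E.toY F.Fr h ∅).PX) :
    (E.toY F.Fr h ∅).okX ∅ g ↔ (E.qf F h).Q.Gd g := by
  constructor
  · intro h1
    exact h1.1
  · intro h1
    exact ⟨h1, Finset.disjoint_empty_left _, Finset.disjoint_empty_left _⟩

theorem xd2_okP (g : Finset (E.toY F.Fr h ∅).PX) (hg : (E.qf F h).Q.Gd g) :
    (Qof (E.toY F.Fr h ∅)).OkP ∅ g :=
  ⟨hg, Finset.disjoint_empty_left _, Finset.disjoint_empty_right _, Finset.disjoint_empty_left _⟩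

open Classical in
theorem xd2_nm (g : Finset (E.toY F.Fr h ∅).PX) :
    ((E.toY F.Fr h ∅).nmX (∅, g) : ℝ) = (F.Fr.sys.nm ((E.qf F h).Q.shd g) : ℝ) := by
  have h1 : (E.qf F h).Q.shd g = g.image (E.toY F.Fr h ∅).shX := rfl
  rw [h1]
  unfold HX.nmX
  rw [F.Fr.sys.nm_empty, one_mul]

open Classical in
/-- the terms of the pairs of sets of primes -/
theorem xd2_tm (s : ℝ) (g : Finset (E.toY F.Fr h ∅).PX) :
    (if (E.toY F.Fr h ∅).okX ∅ g then ∑ γ ∈ (E.toY F.Fr h ∅).BX g,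
      ∑ c ∈ (Finset.univ : Finset F.Fr.sys.T) ×ˢ (E.toY F.Fr h ∅).M.powerset,
        xd2_f E F h s (∅, g) γ c else 0) =
    (if (E.qf F h).Q.Gd g then ∑ γ ∈ (E.qf F h).Q.B g, ∑ c : F.Fr.sys.T,
      (if (E.qf F h).cd + (E.qf F h).em (c, ∅) = 0 then 0
        else thc (E.qf F h) (fun _ _ _ _ => 1) γ (c, ∅) (0, ∅) *
          ∏ a ∈ g, (E.qf F h).Q.fa (c, ∅) ∅ a) else 0) * pw s ((E.qf F h).Q.shd g) := by
  by_cases hg : (E.qf F h).Q.Gd g
  · rw [if_pos ((xd2_ok E F h g).2 hg), if_pos hg, Finset.sum_mul]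
    refine Finset.sum_congr rfl fun γ _ => ?_
    rw [Finset.sum_product, Finset.sum_mul]
    refine Finset.sum_congr rfl fun c _ => ?_
    have h1 : (E.toY F.Fr h ∅).M.powerset = {∅} := Finset.powerset_empty
    rw [h1, Finset.sum_singleton]
    unfold xd2_f
    by_cases h2 : (E.qf F h).cd + (E.qf F h).em (c, ∅) = 0
    · rw [if_pos h2, zero_mul, if_neg fun h3 => h3.2 h2]
    · rw [if_neg h2, if_pos ⟨rfl, h2⟩, xd2_nm]
      rfl
  · rw [if_neg fun h1 => hg ((xd2_ok E F h g).1 h1), if_neg hg, zero_mul]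

theorem xd2_sg (t : ZMod 2) : (0 : ℝ) ≤ 1 + ((sg t : ℤ) : ℝ) := by
  have h := abs_sgr t
  have h2 := neg_abs_le ((sg t : ℤ) : ℝ)
  rw [h] at h2
  linarith

theorem xd2_rhs_nn (X : HX F.Fr L) (s : ℝ) (z : Finset F.Fr.sys.P × Finset (Qof X).P) :
    0 ≤ (Qof X).tp (fun _ _ _ => 1) z.1 z.2 *
      ((F.Fr.sys.nm z.1 : ℝ) * ((Qof X).nq z.2 : ℝ)) ^ (-s) := by
  refine mul_nonneg ?_ (Real.rpow_nonneg (mul_nonneg (Nat.cast_nonneg _) (Nat.cast_nonneg _)) _)
  unfold Qd.tp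
  split_ifs with h1
  · refine Finset.sum_nonneg fun γ _ => Finset.sum_nonneg fun c _ => ?_
    refine mul_nonneg zero_le_one (mul_nonneg (Finset.prod_nonneg fun p _ => ?_)
      (Finset.prod_nonneg fun a _ => xd2_sg _))
    unfold Qd.fp
    split_ifs
    · exact mul_nonneg (xd2_sg _) (xd2_sg _)
    · exact xd2_sg _
  · exact le_rfl

open Classical in
/-- the bound of a term -/
theorem xd2_le (s : ℝ) (g : Finset (E.toY F.Fr h ∅).PX) (γ : HX.GX L) (c : F.Fr.sys.T) :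
    |xd2_f E F h s (∅, g) γ (c, ∅)| ≤
      (∏ a ∈ g, (Qof (E.toY F.Fr h ∅)).fa (c, ∅) ∅ a) *
        ((E.toY F.Fr h ∅).nmX (∅, g) : ℝ) ^ (-s) := by
  have h0 : 0 ≤ ∏ a ∈ g, (E.toY F.Fr h ∅).faX (c, ∅) ∅ a :=
    Finset.prod_nonneg fun a _ => xd2_sg _
  have h1 : 0 ≤ ((E.toY F.Fr h ∅).nmX (∅, g) : ℝ) ^ (-s) :=
    Real.rpow_nonneg (Nat.cast_nonneg _) _
  have h2 : 0 ≤ (∏ a ∈ g, (E.toY F.Fr h ∅).faX (c, ∅) ∅ a) *
      ((E.toY F.Fr h ∅).nmX (∅, g) : ℝ) ^ (-s) := mul_nonneg h0 h1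
  show _ ≤ (∏ a ∈ g, (E.toY F.Fr h ∅).faX (c, ∅) ∅ a) *
      ((E.toY F.Fr h ∅).nmX (∅, g) : ℝ) ^ (-s)
  unfold xd2_f
  split_ifs with h3
  · rw [xd2_thc, mul_assoc, abs_mul, abs_of_nonneg h2]
    refine mul_le_of_le_one_left h2 ?_
    split_ifs
    · rw [abs_zero]
      exact zero_le_one
    · rw [abs_one]
  · rw [abs_zero]
    exact h2

open Classical in
/-- absolute convergence -/
theorem xd2_sm (s : ℝ) (hs : 1 < s) :
    Summable fun z : Finset F.Fr.sys.P × Finset (E.toY F.Fr h ∅).PX =>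
      if (E.toY F.Fr h ∅).okX z.1 z.2 then ∑ γ ∈ (E.toY F.Fr h ∅).BX z.2,
        ∑ c ∈ (Finset.univ : Finset F.Fr.sys.T) ×ˢ (E.toY F.Fr h ∅).M.powerset,
          |xd2_f E F h s z γ c| else 0 := by
  have h1 := (sua F.Fr.sys (Qof (E.toY F.Fr h ∅)) (fun _ _ _ => 1) s
    (fun _ _ _ => by rw [abs_one]) hs).2
  refine Summable.of_nonneg_of_le (fun z => ?_) (fun z => ?_) h1
  · split_ifs
    · exact Finset.sum_nonneg fun γ _ => Finset.sum_nonneg fun c _ => abs_nonneg _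
    · exact le_rfl
  · obtain ⟨x, g⟩ := z
    have hr := xd2_rhs_nn F (E.toY F.Fr h ∅) s (x, g)
    by_cases hx : x = ∅
    · subst hx
      by_cases hg : (E.qf F h).Q.Gd g
      · show (if (E.toY F.Fr h ∅).okX ∅ g then _ else _) ≤
          (Qof (E.toY F.Fr h ∅)).tp (fun _ _ _ => 1) ∅ g *
            ((F.Fr.sys.nm ∅ : ℝ) * ((Qof (E.toY F.Fr h ∅)).nq g : ℝ)) ^ (-s)
        have hn : (F.Fr.sys.nm ∅ : ℝ) * ((Qof (E.toY F.Fr h ∅)).nq g : ℝ) =
            ((E.toY F.Fr h ∅).nmX (∅, g) : ℝ) := by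
          rw [xd2_nm, F.Fr.sys.nm_empty, Nat.cast_one, one_mul]
          rfl
        rw [if_pos ((xd2_ok E F h g).2 hg), hn]
        unfold Qd.tp
        rw [if_pos (xd2_okP E F h g hg), Finset.sum_mul]
        refine Finset.sum_le_sum fun γ _ => ?_
        rw [Finset.sum_mul]
        refine Finset.sum_le_sum fun c hc => ?_
        obtain ⟨c1, c2⟩ := c
        have hc2 : c2 = ∅ := by
          have h2 : c2 ∈ (∅ : Finset F.Fr.sys.P).powerset := (Finset.mem_product.1 hc).2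
          rwa [Finset.powerset_empty, Finset.mem_singleton] at h2
        subst hc2
        rw [Finset.prod_empty, one_mul, one_mul]
        exact xd2_le E F h s g γ c1
      · show (if (E.toY F.Fr h ∅).okX ∅ g then _ else _) ≤ _
        rw [if_neg fun h2 => hg ((xd2_ok E F h g).1 h2)]
        exact hr
    · have h2 : (if (E.toY F.Fr h ∅).okX x g then ∑ γ ∈ (E.toY F.Fr h ∅).BX g,
          ∑ c ∈ (Finset.univ : Finset F.Fr.sys.T) ×ˢ (E.toY F.Fr h ∅).M.powerset,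
            |xd2_f E F h s (x, g) γ c| else 0) = 0 := by
        split_ifs
        · refine Finset.sum_eq_zero fun γ _ => Finset.sum_eq_zero fun c _ => ?_
          unfold xd2_f
          rw [if_neg fun h3 => hx h3.1, abs_zero]
        · rfl
      exact h2.le.trans hr

end

/-- the series `D2` over pairs of classes -/
theorem stD2 {k : Type} [Field k] [NumberField k] {L : Type} [Field L] [NumberField L]
    [Algebra k L] (E : QX k L) (F : FrP k L) (h : E.M ⊆ F.Fr.S)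
    (hB : StBij (E.toY F.Fr h ∅)) : StD2 E F h := by
  classical
  intro s hs
  obtain ⟨h1, h2⟩ := hB (xd2_f E F h s) (xd2_sm E F h s hs)
  have e1 : (fun p : HX.GX L × HX.GX k => if (E.toY F.Fr h ∅).OkT p ∧
      (E.toY F.Fr h ∅).xX p.2 = ∅ ∧ (E.toY F.Fr h ∅).NS p ∧
      ¬ IsSquare (E.δ * Units.map (algebraMap k L : k →* L) (HX.out p.2)) then
        (E.toY F.Fr h ∅).FacX p * ((E.toY F.Fr h ∅).nT p : ℝ) ^ (-s) else 0) =
      fun p : HX.GX L × HX.GX k => if (E.toY F.Fr h ∅).OkT p then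
        xd2_f E F h s ((E.toY F.Fr h ∅).xX p.2, (E.toY F.Fr h ∅).gX p.1) p.1
          ((E.toY F.Fr h ∅).cX p.2) else 0 := by
    funext p
    by_cases h3 : (E.toY F.Fr h ∅).OkT p
    · rw [if_pos h3, xd2_pt]
      by_cases h4 : (E.toY F.Fr h ∅).xX p.2 = ∅ ∧ (E.toY F.Fr h ∅).NS p ∧
          ¬ IsSquare (E.δ * Units.map (algebraMap k L : k →* L) (HX.out p.2))
      · rw [if_pos h4, if_pos ⟨h3, h4⟩]
      · rw [if_neg h4, if_neg fun h5 => h4 h5.2]
    · rw [if_neg h3, if_neg fun h4 => h3 h4.1]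
  have e2 : D2 (E.qf F h) (fun _ _ _ _ => 1) s =
      ∑' z : Finset F.Fr.sys.P × Finset (E.toY F.Fr h ∅).PX,
        if (E.toY F.Fr h ∅).okX z.1 z.2 then ∑ γ ∈ (E.toY F.Fr h ∅).BX z.2,
          ∑ c ∈ (Finset.univ : Finset F.Fr.sys.T) ×ˢ (E.toY F.Fr h ∅).M.powerset,
            xd2_f E F h s z γ c else 0 := by
    have hinj : Function.Injective
        (fun g : Finset (E.toY F.Fr h ∅).PX => ((∅ : Finset F.Fr.sys.P), g)) := fun g g' h3 =>
      congrArg Prod.snd h3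
    rw [← hinj.tsum_eq (f := fun z : Finset F.Fr.sys.P × Finset (E.toY F.Fr h ∅).PX =>
      if (E.toY F.Fr h ∅).okX z.1 z.2 then ∑ γ ∈ (E.toY F.Fr h ∅).BX z.2,
          ∑ c ∈ (Finset.univ : Finset F.Fr.sys.T) ×ˢ (E.toY F.Fr h ∅).M.powerset,
            xd2_f E F h s z γ c else 0)]
    · unfold D2
      exact tsum_congr fun g => (xd2_tm E F h s g).symm
    · rintro ⟨x, g⟩ hz
      by_contra h3
      apply hz
      have hx : x ≠ ∅ := fun h4 => h3 ⟨g, by rw [h4]⟩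
      show (if (E.toY F.Fr h ∅).okX x g then _ else _) = _
      split_ifs
      · refine Finset.sum_eq_zero fun γ _ => Finset.sum_eq_zero fun c _ => ?_
        unfold xd2_f
        rw [if_neg fun h4 => hx h4.1]
      · rfl
  rw [e1]
  exact ⟨h1, e2.trans h2.symm⟩

end Pool.Agent.H32.MQ
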