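import Pool.Agent.H32.MQ.XStm
import Pool.Agent.H32.MQ.ASize_a

/-!
# Malle's conjecture for 8T28 and 8T29 over number fields, block X, row X17: the discriminant of
the twists
-/

set_option autoImplicit false

open scoped BigOperators Topology
open NumberField IsDedekindDomain Filter

namespace Pool.Agent.H32.MQ

open Pool.Agent.H98.MK (sg)
open Pool.Agent.H98.MF
open Pool.Agent.H98.ML (Dt Ext norb hind)

/-! ### indices -/

theorem xdn_h00 (hI : StHind) (g : Ext D4) (h0 : c0 g = 0) (h1 : c1 g = 0) :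
    (cz g = 0 → hind H4 g = 0) ∧ (cz g ≠ 0 → hind H4 g = 2) := by
  have hv : g.v = 0 := by
    rw [asize_v g, h0, h1]
    funext i
    match i with
    | ⟨0, _⟩ => rfl
    | ⟨1, _⟩ => rfl
  have hz : g.z = 0 ↔ cz g = 0 := by
    constructor
    · intro h
      exact congrFun h (0 : Fin 1)
    · intro h
      funext i
      match i with
      | ⟨0, _⟩ => exact h
  constructor
  · intro h
    rw [hI g]
    exact (if_pos hv).trans (if_pos (hz.2 h))
  · intro h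
    rw [hI g]
    exact (if_pos hv).trans (if_neg fun h' => h (hz.1 h'))

theorem xdn_twH_v {L : Type} [Field L] [NumberField L] (ρ : Gm L →* Ext D4) (b : Lˣ) (σ : Gm L) :
    (twH ρ b σ).v = (ρ σ).v := rfl

theorem xdn_twH_cz {L : Type} [Field L] [NumberField L] (ρ : Gm L →* Ext D4) (b : Lˣ)
    (σ : Gm L) : cz (twH ρ b σ) = cz (ρ σ) + chi (b : L) σ := rfl

theorem xdn_lc {L : Type} [Field L] [NumberField L] (ρ : Gm L →* Ext D4) (b : Lˣ)
    (h : IsLocallyConstant ρ) : IsLocallyConstant (twH ρ b) :=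
  h.comp₂ (chi_lc (b : L)) (fun (e : Ext D4) (c : ZMod 2) => (⟨e.v, e.z + fun _ => c⟩ : Ext D4))

section

variable {k : Type} [Field k] [NumberField k] {L : Type} [Field L] [NumberField L]
  [Algebra k L] (E : QX k L) (F : FrP k L)

theorem xdn_bel {q : F.FL.sys.P} {p : F.Fr.sys.P} :
    F.bel q = p ↔ q ∈ up F.FL F.Fr p := by
  rw [mem_up]
  constructor
  · rintro rfl
    exact F.bel_over q
  · intro h
    exact HX.over_inj (F.bel_over q) h

theorem xdn_ram {p : HX.GX L × HX.GX k} {q : F.FL.sys.P} :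
    q ∈ E.ram F.FL p ↔ E.vT p (F.FL.pl q) ≠ 0 := by
  unfold QX.ram
  rw [Set.Finite.mem_toFinset]
  rfl

/-- the product of the norms of the primes above a prime -/
theorem xdn_up (h : E.M ⊆ F.Fr.S) (p : F.Fr.sys.P) :
    ∏ q ∈ up F.FL F.Fr p, F.FL.sys.N q = F.Fr.sys.N p ^ 2 := by
  classical
  by_cases hb : ∃ b : (E.toY F.Fr h ∅).PX, (E.toY F.Fr h ∅).shX b = p
  · obtain ⟨b, rfl⟩ := hb
    rw [up_s (E.toY F.Fr h ∅) F.FL F.ov b, Finset.prod_pair, N_ioX, N_ioX, pow_two]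
    · have h1 : (E.toY F.Fr h ∅).shX ((E.toY F.Fr h ∅).cjX b) = (E.toY F.Fr h ∅).shX b :=
        (E.toY F.Fr h ∅).shX_eq _ (((E.toY F.Fr h ∅).shX_over b).cj _)
      rw [h1]
    · intro h1
      have h2 := io_inj _ _ _ h1
      have h3 := congrArg Subtype.val h2
      exact b.2.2 h3.symm
  · push Not at hb
    obtain ⟨P, hP, hN⟩ := up_i (E.toY F.Fr h ∅) F.FL F.ov rfl p hb
    rw [hP, Finset.prod_singleton, hN]

/-- the product over the ramified primes above a prime -/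
theorem xdn_fib (h : E.M ⊆ F.Fr.S) (p : HX.GX L × HX.GX k) (e : F.FL.sys.P → ℕ)
    (h01 : ∀ q, E.vT p (F.FL.pl q) = ![0, 1] → e q = 1)
    (h10 : ∀ q, E.vT p (F.FL.pl q) = ![1, 0] → e q = 2) (p' : F.Fr.sys.P)
    (hty : ¬ E.OT p (F.Fr.pl p')) (hp' : p' ∈ F.sh (E.ram F.FL p)) :
    ∏ q ∈ (E.ram F.FL p).filter (fun q => F.bel q = p'), F.FL.sys.N q ^ e q =
      F.Fr.sys.N p' ^ 2 := by
  classical
  set X := E.toY F.Fr h ∅ with hX
  by_cases hA : ∀ Q : HeightOneSpectrum (𝓞 L), Over (F.Fr.pl p') Q → E.vT p Q = 0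
  · unfold FrP.sh at hp'
    obtain ⟨q, hq, hq'⟩ := Finset.mem_image.1 hp'
    exact absurd (hA _ (hq' ▸ F.bel_over q)) ((xdn_ram E F).1 hq)
  by_cases hB : ∀ Q : HeightOneSpectrum (𝓞 L), Over (F.Fr.pl p') Q → E.vT p Q = ![0, 1]
  · have h1 : (E.ram F.FL p).filter (fun q => F.bel q = p') = up F.FL F.Fr p' := by
      ext q
      rw [Finset.mem_filter, xdn_ram, xdn_bel]
      refine ⟨fun h => h.2, fun h => ⟨?_, h⟩⟩
      rw [hB _ ((mem_up F.FL).1 h)]
      intro h2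
      have h3 := congrFun h2 1
      exact one_ne_zero h3
    rw [h1, ← xdn_up E F h p']
    refine Finset.prod_congr rfl fun q hq => ?_
    rw [h01 q (hB _ ((mem_up F.FL).1 hq)), pow_one]
  · have hC : ∃ Q : HeightOneSpectrum (𝓞 L), Over (F.Fr.pl p') Q ∧ cj E.sig Q ≠ Q ∧
        E.vT p Q = ![1, 0] ∧ E.vT p (cj E.sig Q) = 0 := by
      by_contra hC
      exact hty ⟨hA, hB, hC⟩
    obtain ⟨Q, hQ, hcj, hv, hv'⟩ := hC
    set b : X.PX := ⟨Q, ⟨p', Finset.notMem_empty p', hQ⟩, hcj⟩ with hb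
    have hsh : X.shX b = p' := X.shX_eq b hQ
    have hio : F.FL.pl (io X F.FL F.ov b) = Q := pl_io X F.FL F.ov b
    have hio' : F.FL.pl (io X F.FL F.ov (X.cjX b)) = cj E.sig Q := pl_io X F.FL F.ov (X.cjX b)
    have h1 : (E.ram F.FL p).filter (fun q => F.bel q = p') = {io X F.FL F.ov b} := by
      ext q
      rw [Finset.mem_filter, xdn_ram, xdn_bel, ← hsh, up_s X F.FL F.ov b, Finset.mem_insert,
        Finset.mem_singleton, Finset.mem_singleton]
      constructor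
      · rintro ⟨h2, h3 | h3⟩
        · exact h3
        · rw [h3, hio'] at h2
          exact absurd hv' h2
      · intro h2
        refine ⟨?_, Or.inl h2⟩
        rw [h2, hio, hv]
        intro h3
        have h4 := congrFun h3 0
        exact one_ne_zero h4
    rw [h1, Finset.prod_singleton, N_ioX, hsh, h10]
    rw [hio, hv]

/-- the product over the ramified primes -/
theorem xdn_prod (h : E.M ⊆ F.Fr.S) (p : HX.GX L × HX.GX k) (e : F.FL.sys.P → ℕ)
    (h01 : ∀ q, E.vT p (F.FL.pl q) = ![0, 1] → e q = 1)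
    (h10 : ∀ q, E.vT p (F.FL.pl q) = ![1, 0] → e q = 2)
    (hty : ∀ p', ¬ E.OT p (F.Fr.pl p')) :
    ∏ q ∈ E.ram F.FL p, F.FL.sys.N q ^ e q = E.nP F p ^ 2 := by
  classical
  unfold QX.nP Pre.nm
  rw [← Finset.prod_pow, ← Finset.prod_fiberwise_of_maps_to (s := E.ram F.FL p)
    (t := F.sh (E.ram F.FL p)) (g := F.bel) (fun q hq => Finset.mem_image_of_mem _ hq)]
  exact Finset.prod_congr rfl fun p' hp' => xdn_fib E F h p e h01 h10 p' (hty p') hp'

end

/-- the discriminant of the twists -/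
theorem stDnX {k : Type} [Field k] [NumberField k] {L : Type} [Field L] [NumberField L]
    [Algebra k L] (E : QX k L) (F : FrP k L) (RL : Rx L) (hN : StNrX E F RL) (hS : StSurT L)
    (hI : StHind) (hR : StRexH L) (hT : ∀ h, StTypY E F h) : StDnX E F RL := by
  classical
  have _ := hT
  intro On R hM hRS hOn p b
  have hN' : E.Nrml F.FL RL p.1 (E.rho0 F.FL RL p.1) := hN On R p
  obtain ⟨ρ, hρ⟩ : ∃ ρ, ρ = twH (E.rho0 F.FL RL p.1) (rep F.FL b) := ⟨_, rfl⟩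
  rw [← hρ]
  have hlc : IsLocallyConstant ρ := by
    rw [hρ]
    exact xdn_lc _ _ hN'.hm.lc
  have hsu : Function.Surjective ρ := by
    rw [hρ]
    exact hS _ _ (hOn.su _ _ _ hN'.hm p.2.on)
  have ho : IsOpen ((H4.comap ρ : Subgroup (Gm L)) : Set (Gm L)) := hlc (H4 : Set (Ext D4))
  have h2 : ∀ q : F.FL.sys.P, ord (F.FL.pl q) (2 : L) = 0 := fun q => hb_two F.FL q
  have hc0 : ∀ q : F.FL.sys.P, c0 (ρ (RL.tau (F.FL.pl q))) = E.vT p.1 (F.FL.pl q) 0 := by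
    intro q
    have h1 : c0 (ρ (RL.tau (F.FL.pl q))) = c0 (E.rho0 F.FL RL p.1 (RL.tau (F.FL.pl q))) := by
      rw [hρ]
      rfl
    rw [h1, hN'.hm.gam, RL.chi _ (h2 q)]
    rfl
  have hc1 : ∀ q : F.FL.sys.P, c1 (ρ (RL.tau (F.FL.pl q))) = E.vT p.1 (F.FL.pl q) 1 := by
    intro q
    have h1 : c1 (ρ (RL.tau (F.FL.pl q))) = c1 (E.rho0 F.FL RL p.1 (RL.tau (F.FL.pl q))) := by
      rw [hρ]
      rfl
    rw [h1, hN'.hm.del]
    have h3 := RL.chi _ (h2 q) (E.δ * Units.map (algebraMap k L : k →* L) (HX.out p.1.2))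
    exact h3
  have hcz : ∀ q : F.FL.sys.P, cz (ρ (RL.tau (F.FL.pl q))) = if q ∈ b.2 then 1 else 0 := by
    intro q
    have h1 : cz (ρ (RL.tau (F.FL.pl q))) = cz (E.rho0 F.FL RL p.1 (RL.tau (F.FL.pl q))) +
        chi (rep F.FL b : L) (RL.tau (F.FL.pl q)) := by
      rw [hρ]
      rfl
    rw [h1, hN'.nor, zero_add, RL.chi _ (h2 q), h_repO F.FL b q]
    split_ifs
    · exact Int.cast_one
    · exact Int.cast_zero
  obtain ⟨e, he⟩ : ∃ e : F.FL.sys.P → ℕ, e = fun q => RL.rex (F.FL.pl q) (H4.comap ρ) :=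
    ⟨_, rfl⟩
  have hrex : ∀ q, e q = hind H4 (ρ (RL.tau (F.FL.pl q))) := by
    intro q
    rw [he]
    exact hR RL ρ hlc hsu _ (h2 q)
  have h01 : ∀ q, E.vT p.1 (F.FL.pl q) = ![0, 1] → e q = 1 := by
    intro q hq
    rw [hrex]
    exact asize_h01 hI _ (by rw [hc0, hq]; rfl) (by rw [hc1, hq]; rfl)
  have h10 : ∀ q, E.vT p.1 (F.FL.pl q) = ![1, 0] → e q = 2 := by
    intro q hq
    rw [hrex]
    exact asize_h10 hI _ (by rw [hc0, hq]; rfl) (by rw [hc1, hq]; rfl)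
  have h00 : ∀ q, E.vT p.1 (F.FL.pl q) = 0 → (q ∉ b.2 → e q = 0) ∧ (q ∈ b.2 → e q = 2) := by
    intro q hq
    have h3 := xdn_h00 hI (ρ (RL.tau (F.FL.pl q))) (by rw [hc0, hq]; rfl) (by rw [hc1, hq]; rfl)
    rw [hrex]
    refine ⟨fun hb => h3.1 (by rw [hcz, if_neg hb]), fun hb => h3.2 ?_⟩
    rw [hcz, if_pos hb]
    exact one_ne_zero
  have hty : ∀ p', ¬ E.OT p.1 (F.Fr.pl p') := by
    intro p' hOT
    have h3 : F.Fr.pl p' ∉ F.Fr.S := hb_notMem F.Fr p'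
    exact h3 (hRS ((p.2.ty _ fun h => h3 (hM h)).2 hOT))
  have hprod := xdn_prod E F hM p.1 e h01 h10 hty
  unfold QX.dn
  rw [RL.prod _ ho, finprod_eq_prod_of_mulSupport_subset
    (s := F.FL.S ∪ (E.ram F.FL p.1 ∪ (b.2 \ E.ram F.FL p.1)).map ⟨F.FL.pl, F.FL.pl_inj⟩)]
  · have hdis : Disjoint F.FL.S
        ((E.ram F.FL p.1 ∪ (b.2 \ E.ram F.FL p.1)).map ⟨F.FL.pl, F.FL.pl_inj⟩) := by
      rw [Finset.disjoint_left]
      intro P hP hP'
      obtain ⟨q, -, rfl⟩ := Finset.mem_map.1 hP'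
      exact (F.FL.pl_iff _).1 ⟨q, rfl⟩ hP
    rw [Finset.prod_union hdis, Finset.prod_map, Finset.prod_union Finset.disjoint_sdiff]
    have e1 : ∏ q ∈ E.ram F.FL p.1, nrm ((⟨F.FL.pl, F.FL.pl_inj⟩ : F.FL.sys.P ↪ _) q) ^
        RL.rex ((⟨F.FL.pl, F.FL.pl_inj⟩ : F.FL.sys.P ↪ _) q) (H4.comap ρ) = E.nP F p.1 ^ 2 := by
      rw [← hprod]
      refine Finset.prod_congr rfl fun q _ => ?_
      rw [F.FL.N_eq, he]
      rfl
    have e2 : ∏ q ∈ b.2 \ E.ram F.FL p.1, nrm ((⟨F.FL.pl, F.FL.pl_inj⟩ : F.FL.sys.P ↪ _) q) ^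
        RL.rex ((⟨F.FL.pl, F.FL.pl_inj⟩ : F.FL.sys.P ↪ _) q) (H4.comap ρ) =
        F.FL.sys.nm (b.2 \ E.ram F.FL p.1) ^ 2 := by
      unfold Pre.nm
      rw [← Finset.prod_pow]
      refine Finset.prod_congr rfl fun q hq => ?_
      rw [Finset.mem_sdiff, xdn_ram, not_not] at hq
      have h3 : RL.rex (F.FL.pl q) (H4.comap ρ) = 2 := by
        have h4 := (h00 q hq.2).2 hq.1
        rw [he] at h4
        exact h4
      rw [F.FL.N_eq]
      show nrm (F.FL.pl q) ^ RL.rex (F.FL.pl q) (H4.comap ρ) = _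
      rw [h3]
    rw [e1, e2, mul_pow]
    rfl
  · intro P hP
    rw [Function.mem_mulSupport] at hP
    rw [Finset.mem_coe, Finset.mem_union]
    by_contra hcon
    rw [not_or] at hcon
    obtain ⟨q, rfl⟩ := (F.FL.pl_iff P).2 hcon.1
    refine hP ?_
    have hq : q ∉ E.ram F.FL p.1 ∪ (b.2 \ E.ram F.FL p.1) := fun hq =>
      hcon.2 (Finset.mem_map.2 ⟨q, hq, rfl⟩)
    rw [Finset.union_sdiff_self_eq_union, Finset.mem_union, not_or, xdn_ram, not_not] at hq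
    have h3 := (h00 q hq.1).1 hq.2
    rw [he] at h3
    have h4 : RL.rex (F.FL.pl q) (H4.comap ρ) = 0 := h3
    rw [h4, pow_zero]

end Pool.Agent.H32.MQ
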