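import Pool.Agent.H32.MQ.XStm
import Pool.Agent.H98.MF.C.Main
import Pool.Agent.H98.MF.NNin

/-!
# Malle's conjecture for 8T28 and 8T29 over number fields, row X13: homomorphisms to the dihedral
group and vanishing of the symbols (helper15)
-/

set_option autoImplicit false

open scoped BigOperators Topology
open NumberField IsDedekindDomain Filter

namespace Pool.Agent.H32.MQ

open Pool.Agent.H98.MF
open Pool.Agent.H98.ML (Dt Ext norb hind)

section

variable {L : Type} [Field L] [NumberField L]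

theorem xemb_iff (v : Pl L) (γ δ : Lˣ) : hv v (γ : L) (δ : L) = 0 ↔
    Triv (match v with | Sum.inl P => Dec P | Sum.inr φ => DecR φ)
      (fun i => ((![γ] : Fin 1 → Lˣ) i : L)) (fun i => ((![δ] : Fin 1 → Lˣ) i : L)) := by
  cases v with
  | inl P =>
    rw [(B.lin L).triv P ![γ] ![δ], Fin.sum_univ_one]
    rfl
  | inr φ =>
    rw [(B.lin L).trivR φ ![γ] ![δ], Fin.sum_univ_one]
    rfl

theorem xemb_tr (D : Subgroup (Gm L)) (γ δ : Lˣ) (f : Gm L → ZMod 2) (hf : IsLocallyConstant f)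
    (h : ∀ σ ∈ D, ∀ τ ∈ D, f (σ * τ) = f σ + f τ + chi (γ : L) σ * chi (δ : L) τ) :
    Triv D (fun i => ((![γ] : Fin 1 → Lˣ) i : L)) (fun i => ((![δ] : Fin 1 → Lˣ) i : L)) := by
  refine ⟨f, hf, fun σ hσ τ hτ => ?_⟩
  rw [Fin.sum_univ_one]
  exact h σ hσ τ hτ

end

theorem stEmb (L : Type) [Field L] [NumberField L] : StEmb L := by
  intro γ δ h
  obtain ⟨f, hf, h2⟩ := B.hpSt (nin L) 1 ![γ] ![δ]
    (fun P => (xemb_iff (Sum.inl P) γ δ).1 (h _)) (fun φ => (xemb_iff (Sum.inr φ) γ δ).1 (h _))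
  have h3 : ∀ σ τ, f (σ * τ) = f σ + f τ + chi (γ : L) σ * chi (δ : L) τ := by
    intro σ τ
    have := h2 σ trivial τ trivial
    rw [Fin.sum_univ_one] at this
    exact this
  refine ⟨MonoidHom.mk' (fun σ => (⟨![chi (γ : L) σ, chi (δ : L) σ], fun _ => f σ⟩ : Ext D4))
    (fun σ τ => ?_), ?_, fun σ => rfl, fun σ => rfl⟩
  · apply Ext.ext
    · rw [Ext.mul_v]
      funext i
      show (![chi (γ : L) (σ * τ), chi (δ : L) (σ * τ)] : Fin 2 → ZMod 2) i =
        (![chi (γ : L) σ, chi (δ : L) σ] : Fin 2 → ZMod 2) i +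
          (![chi (γ : L) τ, chi (δ : L) τ] : Fin 2 → ZMod 2) i
      fin_cases i
      · exact chiM_hom γ σ τ
      · exact chiM_hom δ σ τ
    · rw [Ext.mul_z]
      funext i
      exact h3 σ τ
  · have h4 : IsLocallyConstant fun σ => (chi (γ : L) σ, chi (δ : L) σ, f σ) :=
      (chiM_lc (γ : L)).prodMk ((chiM_lc (δ : L)).prodMk hf)
    exact h4.comp fun t => (⟨![t.1, t.2.1], fun _ => t.2.2⟩ : Ext D4)

theorem stHvZ (L : Type) [Field L] [NumberField L] : StHvZ L := by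
  intro ρ γ δ hρ h0 h1 v
  have h3 : ∀ σ τ, cz (ρ (σ * τ)) = cz (ρ σ) + cz (ρ τ) + chi (γ : L) σ * chi (δ : L) τ := by
    intro σ τ
    rw [← h0 σ, ← h1 τ, map_mul]
    have h4 := congrFun (Ext.mul_z (ρ σ) (ρ τ)) (0 : Fin 1)
    exact h4
  exact (xemb_iff v γ δ).2 (xemb_tr _ γ δ _ (hρ.comp cz) fun σ _ τ _ => h3 σ τ)

end Pool.Agent.H32.MQ
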