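import Pool.Agent.H32.MQ.XStm
import Pool.Agent.H32.MQ.ARam

/-!
# MQ-X2: the factors and the symbols (helper51)
-/

set_option autoImplicit false

open scoped BigOperators
open NumberField IsDedekindDomain

namespace Pool.Agent.H32.MQ

open Pool.Agent.H98.MK (sg)
open Pool.Agent.H98.MF

theorem xfac_sg0 : 1 + ((sg (0 : ZMod 2) : ℤ) : ℝ) = 2 := by
  have h : sg (0 : ZMod 2) = 1 := by decide
  rw [h]
  norm_num

theorem xfac_sg1 {x : ZMod 2} (hx : x ≠ 0) : 1 + ((sg x : ℤ) : ℝ) = 0 := by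
  have h : ∀ x : ZMod 2, x ≠ 0 → sg x = -1 := by decide
  rw [h x hx]
  norm_num

section

variable {k : Type} [Field k] [NumberField k] {Fr : Frm k} {L : Type} [Field L]
  [NumberField L] [Algebra k L] (X : HX Fr L)

open Classical in
/-- the number of primes over a prime -/
theorem xfac_card (x : Finset Fr.sys.P) (p : Fr.sys.P) (hpx : p ∈ x) (hp : p ∉ X.M) :
    ((HX.abv L x).filter fun Q => Over (Fr.pl p) Q).card =
      if ∃ b : X.PX, X.shX b = p then 2 else 1 := by
  split_ifs with h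
  · obtain ⟨b, rfl⟩ := h
    have e : ((HX.abv L x).filter fun Q => Over (Fr.pl (X.shX b)) Q) =
        {b.1, cj X.sig b.1} := by
      ext Q
      rw [Finset.mem_filter, Finset.mem_insert, Finset.mem_singleton]
      constructor
      · rintro ⟨-, hQ⟩
        exact Pool.Agent.H98.MF.B.qe_over X.qe X.sig X.sig_α (X.shX_over b) hQ
      · intro hQ
        have hov : Over (Fr.pl (X.shX b)) Q := by
          rcases hQ with hQ | hQ
          · rw [hQ]
            exact X.shX_over b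
          · rw [hQ]
            exact (X.shX_over b).cj X.sig
        exact ⟨(aram_mem_abv x Q).2 ⟨_, hpx, hov⟩, hov⟩
    rw [e]
    exact Finset.card_pair fun h => b.2.2 h.symm
  · obtain ⟨Q, hQ⟩ := exists_over (L := L) (Fr.pl p)
    have hcj : cj X.sig Q = Q := by
      by_contra hne
      exact h ⟨⟨Q, ⟨p, hp, hQ⟩, hne⟩, X.shX_eq _ hQ⟩
    have e : ((HX.abv L x).filter fun Q => Over (Fr.pl p) Q) = {Q} := by
      ext Q'
      rw [Finset.mem_filter, Finset.mem_singleton]
      constructor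
      · rintro ⟨-, hQ'⟩
        rcases Pool.Agent.H98.MF.B.qe_over X.qe X.sig X.sig_α hQ hQ' with h1 | h1
        · exact h1
        · rw [h1, hcj]
      · rintro rfl
        exact ⟨(aram_mem_abv x Q').2 ⟨_, hpx, hQ⟩, hQ⟩
    rw [e, Finset.card_singleton]

open Classical in
/-- the number of ramified primes of a pair -/
theorem xfac_ram (x : Finset Fr.sys.P) (g : Finset X.PX) (hx : Disjoint x X.M)
    (hg : Disjoint x (g.image X.shX)) :
    (X.ramX x g).card = (∑ p ∈ x, if ∃ b : X.PX, X.shX b = p then 2 else 1) + g.card := by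
  unfold HX.ramX
  rw [Finset.card_union_of_disjoint, Finset.card_image_of_injective _ Subtype.val_injective]
  · congr 1
    have h2 : HX.abv L x =
        x.biUnion fun p => (HX.abv L x).filter fun Q => Over (Fr.pl p) Q := by
      ext Q
      rw [Finset.mem_biUnion]
      constructor
      · intro hQ
        obtain ⟨p, hp, hQp⟩ := (aram_mem_abv x Q).1 hQ
        exact ⟨p, hp, Finset.mem_filter.2 ⟨hQ, hQp⟩⟩
      · rintro ⟨p, -, hQ⟩
        exact (Finset.mem_filter.1 hQ).1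
    have h3 : (HX.abv L x).card =
        ∑ p ∈ x, ((HX.abv L x).filter fun Q => Over (Fr.pl p) Q).card := by
      conv_lhs => rw [h2]
      rw [Finset.card_biUnion]
      intro p _ q _ hne
      rw [Function.onFun, Finset.disjoint_left]
      intro Q hQ hQ'
      exact hne (HX.over_inj (Finset.mem_filter.1 hQ).2 (Finset.mem_filter.1 hQ').2)
    rw [h3]
    refine Finset.sum_congr rfl fun p hp => ?_
    convert xfac_card X x p hp (Finset.disjoint_left.1 hx hp)
  · rw [Finset.disjoint_left]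
    intro Q hQ hQg
    obtain ⟨p, hp, hQp⟩ := (aram_mem_abv x Q).1 hQ
    obtain ⟨b, hb, rfl⟩ := Finset.mem_image.1 hQg
    have h3 := X.shX_eq b hQp
    exact Finset.disjoint_left.1 hg hp (h3 ▸ Finset.mem_image_of_mem _ hb)

theorem stFac : StFac X := by
  classical
  rintro ⟨γ, τ⟩ ⟨⟨-, hxM, hxg⟩, hγ⟩
  have hxM : Disjoint (X.xX τ) X.M := hxM
  have hγ : γ ∈ X.Bs (X.gX γ) := hγ
  have hxg : Disjoint (X.xX τ) ((X.gX γ).image X.shX) := by
    convert hxg
  have h1 := h_ord X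
  have hM := h_qm X
  have hI := h_qi X
  set x := X.xX τ with hx
  set g := X.gX γ with hg
  set c := X.cX τ with hc
  set G : Lˣ := HX.out γ with hG
  set t : kˣ := HX.out τ with ht
  set D : Lˣ := X.δ * Units.map (algebraMap k L : k →* L) t with hD
  have hDval : (D : L) = (X.δ : L) * algebraMap k L (t : k) := rfl
  have ht0 : algebraMap k L (t : k) ≠ 0 := (Units.map (algebraMap k L : k →* L) t).ne_zero
  have hxc : x ∪ c.2 = (co Fr t).2 := by
    ext q
    rw [Finset.mem_union, hx, hc, HX.xX, HX.cX]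
    simp only [Finset.mem_sdiff, Finset.mem_inter]
    tauto
  have hmx : ∀ p, p ∉ X.M → (p ∈ x ↔ Odd (ord (Fr.pl p) (t : k))) := by
    intro p hp
    rw [← mem_odp Fr]
    have h2 : p ∈ x ↔ p ∈ (co Fr t).2 ∧ p ∉ X.M := by
      rw [hx, HX.xX]
      exact Finset.mem_sdiff
    rw [h2]
    exact and_iff_left hp
  have hDo : ∀ p, p ∉ X.M → ∀ Q, Over (Fr.pl p) Q →
      ord Q (D : L) = ord Q (X.δ : L) + ord (Fr.pl p) (t : k) := by
    intro p hp Q hQp
    rw [hDval, ord_mul Q X.δ.ne_zero ht0, (h1 p Q hp hQp).2]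
  have hGx : ∀ p ∈ x, ∀ Q, Over (Fr.pl p) Q → Even (ord Q (G : L)) := by
    intro p hp Q hQp
    by_contra h
    rw [Int.not_even_iff_odd] at h
    have hpM : p ∉ X.M := Finset.disjoint_left.1 hxM hp
    obtain ⟨b, hb, hbQ⟩ := (hγ Q ⟨p, hpM, hQp⟩).1 h
    subst hbQ
    have h2 := X.shX_eq b hQp
    exact Finset.disjoint_left.1 hxg hp (h2 ▸ Finset.mem_image_of_mem _ hb)
  have hshg : ∀ b ∈ g, X.shX b ∉ x := fun b hb h =>
    Finset.disjoint_left.1 hxg h (Finset.mem_image_of_mem _ hb)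
  -- the local values
  have vx : ∀ p ∈ x, ∀ Q, Over (Fr.pl p) Q → hs Q (G : L) (D : L) = qr (G : L) Q := by
    intro p hp Q hQp
    have hpM : p ∉ X.M := Finset.disjoint_left.1 hxM hp
    have h2 := (h1 p Q hpM hQp).1
    have h3 : Odd (ord Q (D : L)) := by
      rw [hDo p hpM Q hQp]
      exact (X.evd p hpM Q hQp).add_odd ((hmx p hpM).1 hp)
    rw [hs_even h2 G.ne_zero D.ne_zero (hGx p hp Q hQp), HP.cast_odd h3, one_mul]
  have hDe : ∀ p, p ∉ X.M → p ∉ x → ∀ Q, Over (Fr.pl p) Q → Even (ord Q (D : L)) := by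
    intro p hpM hpx Q hQp
    rw [hDo p hpM Q hQp]
    refine (X.evd p hpM Q hQp).add ?_
    rw [← Int.not_odd_iff_even]
    exact fun h => hpx ((hmx p hpM).2 h)
  have vg : ∀ b ∈ g, hs b.1 (G : L) (D : L) =
      qr (X.δ : L) b.1 + Fr.sys.ex (x ∪ c.2) c.1 (X.shX b) := by
    intro b hb
    have hpM := X.shX_not b
    have hov := X.shX_over b
    have hpx := hshg b hb
    have h2 := (h1 _ _ hpM hov).1
    have hodd : Odd (ord b.1 (G : L)) := (hγ b.1 b.2.1).2 ⟨b, hb, rfl⟩
    have e0 : Even (ord (Fr.pl (X.shX b)) (t : k)) := by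
      rw [← Int.not_odd_iff_even]
      exact fun h => hpx ((hmx _ hpM).2 h)
    have e1 : Even (ord b.1 (algebraMap k L (t : k))) := by
      rw [(h1 _ _ hpM hov).2]
      exact e0
    rw [hs_symm b.1 G.ne_zero D.ne_zero, hs_even h2 D.ne_zero G.ne_zero (hDe _ hpM hpx _ hov),
      HP.cast_odd hodd, one_mul, hDval, qr_mul h2 X.δ.ne_zero ht0 (X.evd _ hpM _ hov) e1,
      hM t b e0, h_qr Fr t (X.shX b) e0, hxc]
    rfl
  have v0 : ∀ Q, X.Out Q → (∀ p ∈ x, ¬ Over (Fr.pl p) Q) → (∀ b ∈ g, b.1 ≠ Q) →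
      hs Q (G : L) (D : L) = 0 := by
    rintro Q ⟨p, hpM, hov⟩ hQx hQg
    have h2 := (h1 _ _ hpM hov).1
    have hpx : p ∉ x := fun h => hQx p h hov
    have hev : Even (ord Q (G : L)) := by
      by_contra h
      rw [Int.not_even_iff_odd] at h
      obtain ⟨b, hb, hbQ⟩ := (hγ Q ⟨p, hpM, hov⟩).1 h
      exact hQg b hb hbQ
    rw [hs_even h2 G.ne_zero D.ne_zero hev, HP.cast_even (hDe p hpM hpx Q hov), zero_mul]
  -- the factors
  have hfp : ∀ p ∈ x, (∀ Q, Over (Fr.pl p) Q → qr (G : L) Q = 0) →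
      X.fpX γ p = if ∃ b : X.PX, X.shX b = p then 4 else 2 := by
    intro p hp hz
    have hpM : p ∉ X.M := Finset.disjoint_left.1 hxM hp
    unfold HX.fpX
    split_ifs with h
    · have ho1 : Over (Fr.pl p) h.choose.1 := by
        have h5 := X.shX_over h.choose
        rwa [h.choose_spec] at h5
      have ho2 : Over (Fr.pl p) (X.cjX h.choose).1 := ho1.cj X.sig
      rw [hz _ ho1, hz _ ho2, xfac_sg0]
      norm_num
    · obtain ⟨Q, hQp⟩ := exists_over (L := L) (Fr.pl p)
      have hcj : cj X.sig Q = Q := by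
        by_contra hne
        exact h ⟨⟨Q, ⟨p, hpM, hQp⟩, hne⟩, X.shX_eq _ hQp⟩
      have h5 := hI G p Q hpM hQp hcj (hGx p hp Q hQp)
      rw [hz Q hQp] at h5
      rw [h5, xfac_sg0]
  have hfz : ∀ p ∈ x, ∀ Q, Over (Fr.pl p) Q → qr (G : L) Q ≠ 0 → X.fpX γ p = 0 := by
    intro p hp Q hQp hne
    have hpM : p ∉ X.M := Finset.disjoint_left.1 hxM hp
    unfold HX.fpX
    split_ifs with h
    · have ho1 : Over (Fr.pl p) h.choose.1 := by
        have h5 := X.shX_over h.choose
        rwa [h.choose_spec] at h5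
      rcases Pool.Agent.H98.MF.B.qe_over X.qe X.sig X.sig_α ho1 hQp with h6 | h6
      · rw [h6] at hne
        rw [xfac_sg1 hne, zero_mul]
      · have h7 : qr (G : L) (X.cjX h.choose).1 ≠ 0 := by
          rw [h6] at hne
          exact hne
        rw [xfac_sg1 h7, mul_zero]
    · have hcj : cj X.sig Q = Q := by
        by_contra hne'
        exact h ⟨⟨Q, ⟨p, hpM, hQp⟩, hne'⟩, X.shX_eq _ hQp⟩
      have h5 := hI G p Q hpM hQp hcj (hGx p hp Q hQp)
      rw [h5, xfac_sg1 hne]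
  constructor
  · intro hsol
    have hz : ∀ Q, X.Out Q → hs Q (G : L) (D : L) = 0 := hsol
    have e1 : ∏ q ∈ x, X.fpX γ q =
        ∏ q ∈ x, (if ∃ b : X.PX, X.shX b = q then (4 : ℝ) else 2) := by
      refine Finset.prod_congr rfl fun p hp => hfp p hp fun Q hQp => ?_
      rw [← vx p hp Q hQp]
      exact hz Q ⟨p, Finset.disjoint_left.1 hxM hp, hQp⟩
    have e2 : ∏ b ∈ g, X.faX c x b = 2 ^ g.card := by
      rw [Finset.prod_congr rfl (g := fun _ => (2 : ℝ)), Finset.prod_const]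
      intro b hb
      unfold HX.faX
      have h5 := vg b hb
      rw [hz b.1 b.2.1] at h5
      have h6 : qr (X.δ : L) b.1 + Fr.sys.ex (x ∪ c.2) c.1 (X.shX b) = 0 := h5.symm
      have h7 : 1 + ((sg (qr (X.δ : L) b.1 + Fr.sys.ex (x ∪ c.2) c.1 (X.shX b)) : ℤ) : ℝ) =
          2 := by
        rw [h6, xfac_sg0]
      convert h7
    show (∏ q ∈ x, X.fpX γ q) * ∏ b ∈ g, X.faX c x b = 2 ^ (X.ramX x g).card
    have e3 : (X.ramX x g).card =
        (∑ p ∈ x, if ∃ b : X.PX, X.shX b = p then 2 else 1) + g.card := by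
      convert xfac_ram X x g hxM hxg
    rw [e1, e2, e3, pow_add, ← Finset.prod_pow_eq_pow_sum]
    congr 1
    refine Finset.prod_congr rfl fun p _ => ?_
    split_ifs <;> norm_num
  · intro hns
    have hns' : ∃ Q, X.Out Q ∧ hs Q (G : L) (D : L) ≠ 0 := by
      by_contra hcon
      push Not at hcon
      exact hns hcon
    obtain ⟨Q, hQo, hQ⟩ := hns'
    show (∏ q ∈ x, X.fpX γ q) * ∏ b ∈ g, X.faX c x b = 0
    by_cases hc1 : ∃ p ∈ x, Over (Fr.pl p) Q
    · obtain ⟨p, hp, hQp⟩ := hc1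
      rw [vx p hp Q hQp] at hQ
      rw [Finset.prod_eq_zero hp (hfz p hp Q hQp hQ), zero_mul]
    · by_cases hc2 : ∃ b ∈ g, b.1 = Q
      · obtain ⟨b, hb, rfl⟩ := hc2
        rw [vg b hb] at hQ
        have h7 : X.faX c x b = 0 := by
          unfold HX.faX
          have h8 : 1 + ((sg (qr (X.δ : L) b.1 + Fr.sys.ex (x ∪ c.2) c.1 (X.shX b)) : ℤ) : ℝ) =
              0 := xfac_sg1 hQ
          convert h8
        rw [Finset.prod_eq_zero hb h7, mul_zero]
      · exfalso
        push Not at hc1 hc2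
        exact hQ (v0 Q hQo hc1 hc2)

end

end Pool.Agent.H32.MQ
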