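import Pool.Agent.H32.MQ.XStm
import Pool.Agent.H32.MQ.UA
import Pool.Agent.H32.MQ.UE

/-!
# Malle's conjecture for 8T28 and 8T29 over number fields, block X: the pairs with `γ` a unit
-/

set_option autoImplicit false

open scoped BigOperators
open NumberField IsDedekindDomain

namespace Pool.Agent.H32.MQ

open Pool.Agent.H98.MK (sg)
open Pool.Agent.H98.MF

section

variable {S SF : Sys} (F : Qf S SF)

open Classical in
/-- the function restricted to the classes without odd exponents -/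
noncomputable def xg0_th : F.Q.G → El S → El S → ℝ := fun γ c l =>
  if γ ∈ F.Q.B ∅ then thc F (fun _ _ _ _ => 1) γ c l else 0

theorem xg0_bd : BdT (xg0_th F) := by
  intro γ c l
  unfold xg0_th thc
  split_ifs <;> simp

theorem xg0_ag (x : Cf F.Q) : Ag F {0, 1, 2} ⟨∅, ∅, ∅, ∅, ∅⟩ x ↔ x.g = ∅ := by
  unfold Ag Cf.g
  rw [Finset.union_eq_empty]
  constructor
  · rintro ⟨-, -, -, h3, h4⟩
    exact ⟨h3 (by decide), h4 (by decide)⟩
  · rintro ⟨h3, h4⟩
    exact ⟨fun h => absurd (by decide) h, fun h => absurd (by decide) h,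
      fun h => absurd (by decide) h, fun _ => h3, fun _ => h4⟩

theorem xg0_term (x : Cf F.Q) (hx : x.g ≠ ∅) : x.tm (xg0_th F) = 0 := by
  classical
  unfold Cf.tm
  split_ifs with h
  · refine Finset.sum_eq_zero fun γ hγ => Finset.sum_eq_zero fun c _ => ?_
    have hok := (UE.ok_q h).1
    rw [F.B_eq _ hok] at hγ
    obtain ⟨a, -, rfl⟩ := Finset.mem_image.1 hγ
    unfold xg0_th
    rw [if_neg, zero_mul]
    intro h1
    have hg0 : F.Q.Gd ∅ := fun a ha => absurd ha (Finset.notMem_empty _)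
    rw [F.B_eq ∅ hg0] at h1
    obtain ⟨a', -, h2⟩ := Finset.mem_image.1 h1
    exact hx (F.el_inj a' a ∅ x.g hg0 hok h2).2.symm
  · rfl

theorem xg0_term0 (x : Cf F.Q) (hx : x.g = ∅) :
    x.tm (xg0_th F) = x.tm (thc F fun _ _ _ _ => 1) := by
  unfold Cf.tm
  split_ifs with h
  · refine Finset.sum_congr rfl fun γ hγ => Finset.sum_congr rfl fun c _ => ?_
    rw [hx] at hγ
    unfold xg0_th
    rw [if_pos hγ]
  · rfl

theorem xg0_WA (hE : SUE) (s : ℝ) (hs : 1 < s) :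
    WA F (fun _ _ _ _ => 1) {0, 1, 2} ⟨∅, ∅, ∅, ∅, ∅⟩ s = F.Q.DS (xg0_th F) s := by
  rw [hE S F.Q F.law _ s (xg0_bd F) hs]
  unfold WA
  refine tsum_congr fun x => ?_
  by_cases hx : x.g = ∅
  · rw [if_pos ((xg0_ag F x).2 hx), xg0_term0 F x hx]
  · rw [if_neg (fun h => hx ((xg0_ag F x).1 h)), xg0_term F x hx, mul_zero]

end

section

variable {k : Type} [Field k] [NumberField k] {Fr : Frm k} {L : Type} [Field L]
  [NumberField L] [Algebra k L] (X : HX Fr L)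

theorem xg0_ok (x : Finset Fr.sys.P) (g : Finset X.PX) :
    (Qof X).OkP x g ↔ X.okX x g := by
  classical
  have h1 : (Qof X).shd g = g.image X.shX := by
    unfold Qd.shd
    congr 1
  constructor
  · intro h
    refine ⟨h.1, h.2.1, ?_⟩
    have h2 := h.2.2.2
    rw [h1] at h2
    convert h2
  · intro h
    refine ⟨h.1, h.2.1, ?_, ?_⟩
    · rw [h1, Finset.disjoint_left]
      intro p hp
      obtain ⟨b, _, rfl⟩ := Finset.mem_image.1 hp
      exact X.shX_not b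
    · have h2 := h.2.2
      rw [h1]
      convert h2

theorem xg0_nm (z : Finset Fr.sys.P × Finset X.PX) :
    (X.nmX z : ℝ) = (Fr.sys.nm z.1 : ℝ) * ((Qof X).nq z.2 : ℝ) := by
  classical
  have h1 : (Qof X).nq z.2 = Fr.sys.nm (z.2.image X.shX) := by
    unfold Qd.nq Qd.shd
    congr 1
  rw [h1]
  unfold HX.nmX
  rw [Nat.cast_mul]

open Classical in
theorem xg0_tp (Θ : (Qof X).G → El Fr.sys → El Fr.sys → ℝ) (s : ℝ)
    (z : Finset Fr.sys.P × Finset X.PX) :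
    (Qof X).tp Θ z.1 z.2 * ((Fr.sys.nm z.1 : ℝ) * ((Qof X).nq z.2 : ℝ)) ^ (-s) =
      if X.okX z.1 z.2 then
        ∑ γ ∈ X.BX z.2, ∑ c ∈ (Finset.univ : Finset Fr.sys.T) ×ˢ X.M.powerset,
          Θ γ c ((Qof X).lab z.1) * ((∏ p ∈ z.1, X.fpX γ p) * ∏ b ∈ z.2, X.faX c z.1 b) *
            (X.nmX z : ℝ) ^ (-s) else 0 := by
  rw [← xg0_nm]
  unfold Qd.tp
  by_cases h : X.okX z.1 z.2
  · rw [if_pos h, if_pos ((xg0_ok X z.1 z.2).2 h), Finset.sum_mul]
    refine Finset.sum_congr rfl fun γ _ => ?_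
    rw [Finset.sum_mul]
    refine Finset.sum_congr ?_ fun c _ => ?_
    · unfold Qd.els
      congr 1
    · congr 1
  · rw [if_neg h, if_neg fun h1 => h ((xg0_ok X z.1 z.2).1 h1), zero_mul]

private theorem xg0_sg (t : ZMod 2) : (0 : ℝ) ≤ 1 + ((sg t : ℤ) : ℝ) := by
  have h := abs_sgr t
  have h2 := neg_abs_le ((sg t : ℤ) : ℝ)
  rw [h] at h2
  linarith

theorem xg0_fp (γ : HX.GX L) (p : Fr.sys.P) : 0 ≤ X.fpX γ p := by
  unfold HX.fpX
  split_ifs with h
  · exact mul_nonneg (xg0_sg _) (xg0_sg _)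
  · exact xg0_sg _

theorem xg0_fa (c : El Fr.sys) (x : Finset Fr.sys.P) (b : X.PX) : 0 ≤ X.faX c x b := xg0_sg _

open Classical in
theorem xg0_sum (Θ : (Qof X).G → El Fr.sys → El Fr.sys → ℝ) (s : ℝ) (hΘ : BdT Θ) (hs : 1 < s) :
    Summable fun z : Finset Fr.sys.P × Finset X.PX => if X.okX z.1 z.2 then
      ∑ γ ∈ X.BX z.2, ∑ c ∈ (Finset.univ : Finset Fr.sys.T) ×ˢ X.M.powerset,
        |Θ γ c ((Qof X).lab z.1) * ((∏ p ∈ z.1, X.fpX γ p) * ∏ b ∈ z.2, X.faX c z.1 b) *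
          (X.nmX z : ℝ) ^ (-s)| else 0 := by
  have h1 : BdT (Q := Qof X) (fun _ _ _ => (1 : ℝ)) := fun _ _ _ => by rw [abs_one]
  have h2 := (sua Fr.sys (Qof X) (fun _ _ _ => 1) s h1 hs).2
  refine Summable.of_nonneg_of_le (fun z => ?_) (fun z => ?_) h2
  · split_ifs with h
    · exact Finset.sum_nonneg fun γ _ => Finset.sum_nonneg fun c _ => abs_nonneg _
    · exact le_rfl
  · refine le_trans ?_ (le_of_eq (xg0_tp X (fun _ _ _ => 1) s z).symm)
    split_ifs with h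
    · refine Finset.sum_le_sum fun γ _ => Finset.sum_le_sum fun c _ => ?_
      have e1 : 0 ≤ ((∏ p ∈ z.1, X.fpX γ p) * ∏ b ∈ z.2, X.faX c z.1 b) :=
        mul_nonneg (Finset.prod_nonneg fun p _ => xg0_fp X γ p)
          (Finset.prod_nonneg fun b _ => xg0_fa X c z.1 b)
      have e2 : (0 : ℝ) ≤ (X.nmX z : ℝ) ^ (-s) := Real.rpow_nonneg (Nat.cast_nonneg _) _
      rw [abs_mul, abs_mul, abs_of_nonneg e1, abs_of_nonneg e2]
      exact mul_le_mul_of_nonneg_right (mul_le_mul_of_nonneg_right (hΘ _ _ _) e1) e2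
    · exact le_rfl

theorem xg0_gX (γ : HX.GX L) (h : γ ∈ X.Bs (X.gX γ)) : X.gX γ = ∅ ↔ γ ∈ X.Bs ∅ := by
  constructor
  · intro h1
    rw [h1] at h
    exact h
  · intro h1
    rw [Finset.eq_empty_iff_forall_notMem]
    intro b hb
    unfold HX.gX at hb
    rw [Set.Finite.mem_toFinset] at hb
    obtain ⟨b', hb', -⟩ := (h1 b.1 b.2.1).1 hb
    exact absurd hb' (Finset.notMem_empty _)

end

open Classical in
/-- the pairs with `γ` a unit -/
theorem stG0 {k : Type} [Field k] [NumberField k] {L : Type} [Field L] [NumberField L]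
    [Algebra k L] (E : QX k L) (F : FrP k L) (h : E.M ⊆ F.Fr.S)
    (hB : StBij (E.toY F.Fr h ∅)) (hE : SUE) : StG0 E F h := by
  intro s hs
  set X := E.toY F.Fr h ∅ with hX
  let Θ : (Qof X).G → El F.Fr.sys → El F.Fr.sys → ℝ := xg0_th (E.qf F h)
  have hΘ : BdT Θ := xg0_bd (E.qf F h)
  let f : (Finset F.Fr.sys.P × Finset X.PX) → HX.GX L → El F.Fr.sys → ℝ := fun z γ c =>
    Θ γ c ((Qof X).lab z.1) * ((∏ p ∈ z.1, X.fpX γ p) * ∏ b ∈ z.2, X.faX c z.1 b) *
      (X.nmX z : ℝ) ^ (-s)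
  have h1 := hB f (xg0_sum X Θ s hΘ hs)
  have h2 : ∀ p : HX.GX L × HX.GX k,
      (if X.OkT p then f (X.xX p.2, X.gX p.1) p.1 (X.cX p.2) else 0) =
        if X.OkT p ∧ X.gX p.1 = ∅ ∧ X.NS p then X.FacX p * (X.nT p : ℝ) ^ (-s) else 0 := by
    intro p
    by_cases hp : X.OkT p
    · rw [if_pos hp]
      have e1 := xg0_gX X p.1 hp.2
      have e2 : ∀ γ : (E.qf F h).Q.G, γ ∈ (E.qf F h).Q.B ∅ ↔ (γ : HX.GX L) ∈ X.Bs ∅ :=
        fun γ => hi_mem X (h_cardB X)
      have e3 : ∀ γ : (E.qf F h).Q.G, (∃ a, γ = (E.qf F h).el a ∅) ↔ (γ : HX.GX L) ∈ X.Bs ∅ := by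
        intro γ
        refine Iff.trans ?_ ((mem_BX X F.FL F.ov rfl ∅ γ).symm.trans (hi_mem X (h_cardB X)))
        exact ⟨fun ⟨a, ha⟩ => ⟨a, ha.symm⟩, fun ⟨a, ha⟩ => ⟨a, ha.symm⟩⟩
      have e4 : Θ p.1 (X.cX p.2) ((Qof X).lab (X.xX p.2)) =
          if X.gX p.1 = ∅ ∧ X.NS p then 1 else 0 := by
        have e5 : ∀ γ : (E.qf F h).Q.G, (γ : HX.GX L) = p.1 →
            xg0_th (E.qf F h) γ (X.cX p.2) ((Qof X).lab (X.xX p.2)) =
              if X.gX p.1 = ∅ ∧ X.NS p then 1 else 0 := by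
          intro γ hγ
          unfold xg0_th thc
          by_cases hg : X.gX p.1 = ∅
          · have hg' : (γ : HX.GX L) ∈ X.Bs ∅ := by
              rw [hγ]
              exact e1.1 hg
            rw [if_pos ((e2 γ).2 hg')]
            by_cases hN : (E.qf F h).Q.nu γ = (0, ∅)
            · rw [if_pos ⟨(e3 γ).2 hg', hN⟩, if_neg]
              rintro ⟨-, h3⟩
              apply h3
              subst hγ
              exact ⟨hg', hN⟩
            · rw [if_neg fun h3 => hN h3.2, if_pos]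
              refine ⟨hg, fun h3 => hN ?_⟩
              subst hγ
              exact h3.2
          · rw [if_neg, if_neg fun h3 => hg h3.1]
            intro h3
            have h4 := (e2 γ).1 h3
            rw [hγ] at h4
            exact hg (e1.2 h4)
        exact e5 p.1 rfl
      show Θ p.1 (X.cX p.2) ((Qof X).lab (X.xX p.2)) *
        ((∏ q ∈ X.xX p.2, X.fpX p.1 q) * ∏ b ∈ X.gX p.1, X.faX (X.cX p.2) (X.xX p.2) b) *
          (X.nmX (X.xX p.2, X.gX p.1) : ℝ) ^ (-s) = _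
      rw [e4]
      by_cases h5 : X.gX p.1 = ∅ ∧ X.NS p
      · rw [if_pos h5, if_pos ⟨hp, h5⟩, one_mul]
        rfl
      · rw [if_neg h5, if_neg fun h6 => h5 h6.2, zero_mul, zero_mul]
    · rw [if_neg hp, if_neg fun h3 => hp h3.1]
  have h3 : ∑' z : Finset F.Fr.sys.P × Finset X.PX, (if X.okX z.1 z.2 then
      ∑ γ ∈ X.BX z.2, ∑ c ∈ (Finset.univ : Finset F.Fr.sys.T) ×ˢ X.M.powerset, f z γ c else 0) =
      WA (E.qf F h) (fun _ _ _ _ => 1) {0, 1, 2} ⟨∅, ∅, ∅, ∅, ∅⟩ s := by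
    rw [xg0_WA (E.qf F h) hE s hs]
    unfold Qd.DS
    exact tsum_congr fun z => (xg0_tp X Θ s z).symm
  simp only [h2] at h1
  exact ⟨h1.1, h3.symm.trans h1.2.symm⟩

end Pool.Agent.H32.MQ
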