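import Pool.Agent.H32.MQ.XStm

/-!
# Malle's conjecture for 8T28 and 8T29 over number fields, row X12: objects ramified at a given
finite set of primes
-/

set_option autoImplicit false

open scoped BigOperators Topology
open NumberField IsDedekindDomain Filter

namespace Pool.Agent.H32.MQ

open Pool.Agent.H98.MF

/-! ### an enlarged frame -/

section

variable {k : Type} [Field k] [NumberField k] {L : Type} [Field L] [NumberField L]
  [Algebra k L] (F F2 : FrP k L)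

/-- `F2` is `F` with the primes of `y` added -/
def XhlE (y : Finset F.Fr.sys.P) : Prop :=
  ∀ P, P ∈ F2.Fr.S ↔ P ∈ F.Fr.S ∨ ∃ q ∈ y, F.Fr.pl q = P

variable {F F2} {y : Finset F.Fr.sys.P}

theorem XhlE.mL (h : XhlE F F2 y) (Q : HeightOneSpectrum (𝓞 L)) :
    Q ∈ F2.FL.S ↔ Q ∈ F.FL.S ∨ ∃ q ∈ y, Over (F.Fr.pl q) Q := by
  rw [F2.ov Q, F.ov Q]
  constructor
  · rintro ⟨P, hP, hQ⟩
    rcases (h P).1 hP with h1 | ⟨q, hq, h1⟩
    · exact Or.inl ⟨P, h1, hQ⟩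
    · refine Or.inr ⟨q, hq, ?_⟩
      rw [h1]
      exact hQ
  · rintro (⟨P, hP, hQ⟩ | ⟨q, hq, hQ⟩)
    · exact ⟨P, (h P).2 (Or.inl hP), hQ⟩
    · exact ⟨F.Fr.pl q, (h _).2 (Or.inr ⟨q, hq, rfl⟩), hQ⟩

theorem XhlE.exI (h : XhlE F F2 y) (Q : F2.FL.sys.P) :
    ∃ Q' : F.FL.sys.P, F.FL.pl Q' = F2.FL.pl Q := by
  refine (F.FL.pl_iff _).2 fun h1 => hb_notMem F2.FL Q ?_
  exact (h.mL _).2 (Or.inl h1)

/-- the primes of the enlarged frame of `L` -/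
noncomputable def XhlE.I (h : XhlE F F2 y) (Q : F2.FL.sys.P) : F.FL.sys.P := (h.exI Q).choose

theorem XhlE.plI (h : XhlE F F2 y) (Q : F2.FL.sys.P) : F.FL.pl (h.I Q) = F2.FL.pl Q :=
  (h.exI Q).choose_spec

theorem XhlE.I_inj (h : XhlE F F2 y) : Function.Injective h.I := by
  intro Q Q' e
  apply F2.FL.pl_inj
  rw [← h.plI, ← h.plI, e]

theorem XhlE.exJ (h : XhlE F F2 y) (q : F2.Fr.sys.P) :
    ∃ q' : F.Fr.sys.P, F.Fr.pl q' = F2.Fr.pl q := by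
  refine (F.Fr.pl_iff _).2 fun h1 => hb_notMem F2.Fr q ?_
  exact (h _).2 (Or.inl h1)

/-- the primes of the enlarged frame of `k` -/
noncomputable def XhlE.J (h : XhlE F F2 y) (q : F2.Fr.sys.P) : F.Fr.sys.P := (h.exJ q).choose

theorem XhlE.plJ (h : XhlE F F2 y) (q : F2.Fr.sys.P) : F.Fr.pl (h.J q) = F2.Fr.pl q :=
  (h.exJ q).choose_spec

theorem XhlE.J_inj (h : XhlE F F2 y) : Function.Injective h.J := by
  intro q q' e
  apply F2.Fr.pl_inj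
  rw [← h.plJ, ← h.plJ, e]

theorem XhlE.J_notMem (h : XhlE F F2 y) (q : F2.Fr.sys.P) : h.J q ∉ y := by
  intro h1
  apply hb_notMem F2.Fr q
  exact (h _).2 (Or.inr ⟨h.J q, h1, h.plJ q⟩)

theorem XhlE.bel_I (h : XhlE F F2 y) (Q : F2.FL.sys.P) : F.bel (h.I Q) = h.J (F2.bel Q) := by
  have h1 := F.bel_over (h.I Q)
  have h2 := F2.bel_over Q
  rw [← h.plI, ← h.plJ] at h2
  exact HX.over_inj h1 h2

theorem XhlE.ofI (h : XhlE F F2 y) (Q : F.FL.sys.P) (hQ : F.bel Q ∉ y) : ∃ Q2, h.I Q2 = Q := by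
  have h1 : F.FL.pl Q ∉ F2.FL.S := by
    intro h1
    rcases (h.mL _).1 h1 with h1 | ⟨q, hq, h1⟩
    · exact hb_notMem F.FL Q h1
    · have e := HX.over_inj h1 (F.bel_over Q)
      rw [e] at hq
      exact hQ hq
  obtain ⟨Q2, h2⟩ := (F2.FL.pl_iff _).2 h1
  refine ⟨Q2, F.FL.pl_inj ?_⟩
  rw [h.plI, h2]

variable (E : QX k L)

theorem xhl_mem (FL : Frm L) (p : HX.GX L × HX.GX k) (Q : FL.sys.P) :
    Q ∈ E.ram FL p ↔ E.vT p (FL.pl Q) ≠ 0 := by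
  unfold QX.ram
  rw [Set.Finite.mem_toFinset]
  rfl

theorem XhlE.mem_I (h : XhlE F F2 y) (p : HX.GX L × HX.GX k) (Q : F2.FL.sys.P) :
    h.I Q ∈ E.ram F.FL p ↔ Q ∈ E.ram F2.FL p := by
  rw [xhl_mem, xhl_mem, h.plI]

open Classical in
theorem XhlE.ram_not (h : XhlE F F2 y) (p : HX.GX L × HX.GX k) :
    ((E.ram F.FL p).filter fun Q => F.bel Q ∉ y) = (E.ram F2.FL p).image h.I := by
  ext Q
  rw [Finset.mem_filter, Finset.mem_image]
  constructor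
  · rintro ⟨h1, h2⟩
    obtain ⟨Q2, rfl⟩ := h.ofI Q h2
    exact ⟨Q2, (h.mem_I E p Q2).1 h1, rfl⟩
  · rintro ⟨Q2, h1, rfl⟩
    refine ⟨(h.mem_I E p Q2).2 h1, ?_⟩
    rw [h.bel_I]
    exact h.J_notMem _

open Classical in
theorem XhlE.card (h : XhlE F F2 y) (p : HX.GX L × HX.GX k) :
    (E.ram F.FL p).card =
      ((E.ram F.FL p).filter fun Q => F.bel Q ∈ y).card + (E.ram F2.FL p).card := by
  have h1 := Finset.card_filter_add_card_filter_not (s := E.ram F.FL p) (fun Q => F.bel Q ∈ y)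
  rw [h.ram_not E p, Finset.card_image_of_injective _ h.I_inj] at h1
  exact h1.symm

open Classical in
theorem XhlE.sh_eq (h : XhlE F F2 y) (p : HX.GX L × HX.GX k) (hr : y ⊆ F.sh (E.ram F.FL p)) :
    F.sh (E.ram F.FL p) = y ∪ (F2.sh (E.ram F2.FL p)).image h.J := by
  ext q
  rw [Finset.mem_union, Finset.mem_image]
  constructor
  · intro h1
    by_cases h2 : q ∈ y
    · exact Or.inl h2
    right
    obtain ⟨Q, hQ, rfl⟩ := Finset.mem_image.1 h1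
    obtain ⟨Q2, rfl⟩ := h.ofI Q h2
    refine ⟨F2.bel Q2, Finset.mem_image.2 ⟨Q2, (h.mem_I E p Q2).1 hQ, rfl⟩, (h.bel_I Q2).symm⟩
  · rintro (h1 | ⟨q2, h1, rfl⟩)
    · exact hr h1
    · obtain ⟨Q2, hQ, rfl⟩ := Finset.mem_image.1 h1
      rw [← h.bel_I]
      exact Finset.mem_image.2 ⟨h.I Q2, (h.mem_I E p Q2).2 hQ, rfl⟩

theorem XhlE.N (h : XhlE F F2 y) (q : F2.Fr.sys.P) : F.Fr.sys.N (h.J q) = F2.Fr.sys.N q := by
  rw [F.Fr.N_eq, F2.Fr.N_eq, h.plJ]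

theorem XhlE.nP (h : XhlE F F2 y) (p : HX.GX L × HX.GX k) (hr : y ⊆ F.sh (E.ram F.FL p)) :
    E.nP F p = F.Fr.sys.nm y * E.nP F2 p := by
  classical
  have hd : Disjoint y ((F2.sh (E.ram F2.FL p)).image h.J) := by
    rw [Finset.disjoint_left]
    intro q h1 h2
    obtain ⟨q2, -, rfl⟩ := Finset.mem_image.1 h2
    exact h.J_notMem q2 h1
  unfold QX.nP
  rw [h.sh_eq E p hr]
  show ∏ q ∈ _, F.Fr.sys.N q = (∏ q ∈ y, F.Fr.sys.N q) * ∏ q ∈ _, F2.Fr.sys.N q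
  rw [Finset.prod_union hd, Finset.prod_image fun a _ b _ e => h.J_inj e]
  congr 1
  exact Finset.prod_congr rfl fun q _ => h.N q

/-! ### the local classes -/

theorem xhl_par {m n : ℤ} (h : Even (m + n)) : ((m : ℤ) : ZMod 2) = ((n : ℤ) : ZMod 2) := by
  have h1 : ((m + n : ℤ) : ZMod 2) = 0 := by
    obtain ⟨c, hc⟩ := h
    rw [hc, Int.cast_add]
    exact CharTwo.add_self_eq_zero _
  rw [Int.cast_add] at h1
  have h2 : ((m : ℤ) : ZMod 2) = -((n : ℤ) : ZMod 2) := eq_neg_of_add_eq_zero_left h1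
  rw [h2]
  exact CharTwo.neg_eq _

theorem XhlE.subL (h : XhlE F F2 y) : pls F.FL.S ⊆ pls F2.FL.S := by
  intro v hv
  unfold pls at hv ⊢
  rcases v with P | φ
  · rw [Finset.inl_mem_disjSum] at hv ⊢
    exact (h.mL P).2 (Or.inl hv)
  · rw [Finset.inr_mem_disjSum]
    exact Finset.mem_univ _

theorem XhlE.subk (h : XhlE F F2 y) : pls F.Fr.S ⊆ pls F2.Fr.S := by
  intro v hv
  unfold pls at hv ⊢
  rcases v with P | φ
  · rw [Finset.inl_mem_disjSum] at hv ⊢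
    exact (h P).2 (Or.inl hv)
  · rw [Finset.inr_mem_disjSum]
    exact Finset.mem_univ _

theorem XhlE.locE (h : XhlE F F2 y) {p p' : HX.GX L × HX.GX k} (he : F2.LocE p p') :
    F.LocE p p' :=
  ⟨fun v hv => he.1 v (h.subL hv), fun v hv => he.2 v (h.subk hv)⟩

theorem XhlE.vT (h : XhlE F F2 y) {p p' : HX.GX L × HX.GX k} (he : F2.LocE p p')
    (Q : F.FL.sys.P) (hQ : F.bel Q ∈ y) : E.vT p (F.FL.pl Q) = E.vT p' (F.FL.pl Q) := by
  have hQS : F.FL.pl Q ∈ F2.FL.S := (h.mL _).2 (Or.inr ⟨_, hQ, F.bel_over Q⟩)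
  have hPS : F.Fr.pl (F.bel Q) ∈ F2.Fr.S := (h _).2 (Or.inr ⟨_, hQ, rfl⟩)
  have h1 : Even (ord (F.FL.pl Q) ((HX.out p.1 * HX.out p'.1 : Lˣ) : L)) := by
    refine LocSq.even (he.1 (Sum.inl (F.FL.pl Q)) ?_)
    unfold pls
    rw [Finset.inl_mem_disjSum]
    exact hQS
  have h2 : Even (ord (F.Fr.pl (F.bel Q)) ((HX.out p.2 * HX.out p'.2 : kˣ) : k)) := by
    refine LocSq.even (he.2 (Sum.inl (F.Fr.pl (F.bel Q))) ?_)
    unfold pls
    rw [Finset.inl_mem_disjSum]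
    exact hPS
  have h3 : Even (ord (F.FL.pl Q) (algebraMap k L ((HX.out p.2 * HX.out p'.2 : kˣ) : k))) := by
    rw [(F.bel_over Q).ord_map]
    exact h2.mul_left _
  have hd : ∀ t : kˣ, ord (F.FL.pl Q) ((E.δ : L) * algebraMap k L (t : k)) =
      ord (F.FL.pl Q) (E.δ : L) + ord (F.FL.pl Q) (algebraMap k L (t : k)) := fun t =>
    Pool.Agent.H98.MF.ord_mul _ (Units.ne_zero _) ((map_ne_zero _).2 (Units.ne_zero _))
  have e1 : ((ord (F.FL.pl Q) ((HX.out p.1 : Lˣ) : L) : ℤ) : ZMod 2) =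
      ((ord (F.FL.pl Q) ((HX.out p'.1 : Lˣ) : L) : ℤ) : ZMod 2) := by
    apply xhl_par
    rw [← Pool.Agent.H98.MF.ord_mul _ (Units.ne_zero _) (Units.ne_zero _)]
    exact h1
  have e2 : ((ord (F.FL.pl Q) ((E.δ : L) * algebraMap k L ((HX.out p.2 : kˣ) : k)) : ℤ) :
      ZMod 2) = ((ord (F.FL.pl Q) ((E.δ : L) * algebraMap k L ((HX.out p'.2 : kˣ) : k)) : ℤ) :
      ZMod 2) := by
    rw [hd, hd, Int.cast_add, Int.cast_add]
    congr 1
    apply xhl_par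
    rw [← Pool.Agent.H98.MF.ord_mul _ ((map_ne_zero _).2 (Units.ne_zero _))
      ((map_ne_zero _).2 (Units.ne_zero _)), ← map_mul]
    exact h3
  unfold QX.vT
  rw [e1, e2]

end

/-! ### the theorem -/

/-- the limit of the Dirichlet series of the objects ramified at `r` -/
theorem stHL {k : Type} [Field k] [NumberField k] {L : Type} [Field L] [NumberField L]
    [Algebra k L] (E : QX k L) (F : FrP k L) (h : E.M ⊆ F.Fr.S) (hX : StFrX k L)
    (hLF : ∀ F2 : FrP k L, E.M ⊆ F2.Fr.S → StLF E F2) : StHL E F := by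
  classical
  intro On R hR hOn θ B hB hθ r
  obtain ⟨F2, hF2⟩ := hX F (F.sh r)
  have hE : XhlE F F2 (F.sh r) := hF2
  have hM2 : E.M ⊆ F2.Fr.S := fun P hP => (hF2 P).2 (Or.inl (h hP))
  have hR2 : R ⊆ F2.Fr.S := fun P hP => (hF2 P).2 (Or.inl (hR hP))
  set y : Finset F.Fr.sys.P := F.sh r with hy
  have hry : ∀ Q ∈ r, F.bel Q ∈ y := fun Q hQ => Finset.mem_image.2 ⟨Q, hQ, rfl⟩
  set U : Finset F.FL.sys.P := y.biUnion fun q => up F.FL F.Fr q with hU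
  have hUm : ∀ Q : F.FL.sys.P, F.bel Q ∈ y → Q ∈ U := fun Q hQ =>
    Finset.mem_biUnion.2 ⟨F.bel Q, hQ, (mem_up F.FL).2 (F.bel_over Q)⟩
  -- the new function
  set θ2 : E.XX On R → ℝ := fun p => if r ⊆ E.ram F.FL p.1 then
    θ p * 2 ^ ((E.ram F.FL p.1).filter fun Q => F.bel Q ∈ y).card else 0 with hθ2
  have hb2 : ∀ p, |θ2 p| ≤ |B| * 2 ^ U.card := by
    intro p
    have h0 : (0 : ℝ) ≤ |B| * 2 ^ U.card := mul_nonneg (abs_nonneg _) (by positivity)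
    show |if r ⊆ E.ram F.FL p.1 then _ else (0 : ℝ)| ≤ _
    split_ifs with h1
    · rw [abs_mul, abs_of_nonneg (by positivity : (0 : ℝ) ≤
        2 ^ ((E.ram F.FL p.1).filter fun Q => F.bel Q ∈ y).card)]
      refine mul_le_mul ((hB p).trans (le_abs_self B)) ?_ (by positivity) (abs_nonneg _)
      refine pow_le_pow_right₀ one_le_two (Finset.card_le_card fun Q hQ => ?_)
      exact hUm Q (Finset.mem_filter.1 hQ).2
    · rw [abs_zero]
      exact h0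
  have hl2 : ∀ p p' : E.XX On R, F2.LocE p.1 p'.1 → θ2 p = θ2 p' := by
    intro p p' he
    have hv := fun Q hQ => hE.vT E he Q hQ
    have hf : ((E.ram F.FL p.1).filter fun Q => F.bel Q ∈ y) =
        (E.ram F.FL p'.1).filter fun Q => F.bel Q ∈ y := by
      ext Q
      rw [Finset.mem_filter, Finset.mem_filter, xhl_mem, xhl_mem]
      constructor
      · rintro ⟨h1, h2⟩
        exact ⟨by rwa [← hv Q h2], h2⟩
      · rintro ⟨h1, h2⟩
        exact ⟨by rwa [hv Q h2], h2⟩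
    have hs : r ⊆ E.ram F.FL p.1 ↔ r ⊆ E.ram F.FL p'.1 := by
      constructor
      · intro h1 Q hQ
        have h2 := h1 hQ
        rw [xhl_mem] at h2 ⊢
        rwa [← hv Q (hry Q hQ)]
      · intro h1 Q hQ
        have h2 := h1 hQ
        rw [xhl_mem] at h2 ⊢
        rwa [hv Q (hry Q hQ)]
    show (if r ⊆ E.ram F.FL p.1 then _ else (0 : ℝ)) = if r ⊆ E.ram F.FL p'.1 then _ else 0
    by_cases h1 : r ⊆ E.ram F.FL p.1
    · rw [if_pos h1, if_pos (hs.1 h1), hf, hθ p p' (hE.locE he)]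
    · rw [if_neg h1, if_neg fun h2 => h1 (hs.2 h2)]
  obtain ⟨l, hl⟩ := hLF F2 hM2 On R hR2 hOn θ2 _ hb2 hl2
  -- the series
  have hny : (0 : ℝ) < (F.Fr.sys.nm y : ℝ) := by
    have h1 : 0 < F.Fr.sys.nm y := Finset.prod_pos fun p _ =>
      lt_of_lt_of_le Nat.zero_lt_one (F.Fr.sys.one_le_N p)
    exact_mod_cast h1
  have hs : ∀ σ : ℝ, σ ^ 2 * ∑' p : E.XX On R,
      (if r ⊆ E.ram F.FL p.1 then θ p * 2 ^ (E.ram F.FL p.1).card *
        (E.nP F p.1 : ℝ) ^ (-(1 + σ)) else 0) =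
      (F.Fr.sys.nm y : ℝ) ^ (-(1 + σ)) * (σ ^ 2 * E.DX F2 θ2 (1 + σ)) := by
    intro σ
    unfold QX.DX
    rw [mul_left_comm]
    refine congrArg (fun z : ℝ => σ ^ 2 * z) ?_
    rw [← tsum_mul_left]
    refine tsum_congr fun p => ?_
    show _ = _ * ((if r ⊆ E.ram F.FL p.1 then _ else (0 : ℝ)) * _ * _)
    by_cases h1 : r ⊆ E.ram F.FL p.1
    · rw [if_pos h1, if_pos h1]
      have h2 : y ⊆ F.sh (E.ram F.FL p.1) := Finset.image_subset_image h1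
      rw [hE.nP E p.1 h2, hE.card E p.1, Nat.cast_mul, Real.mul_rpow hny.le (Nat.cast_nonneg _),
        pow_add]
      ring
    · rw [if_neg h1, if_neg h1, zero_mul, zero_mul, mul_zero]
  have hc : Tendsto (fun σ : ℝ => (F.Fr.sys.nm y : ℝ) ^ (-(1 + σ))) (𝓝[>] 0)
      (𝓝 ((F.Fr.sys.nm y : ℝ) ^ (-(1 + 0) : ℝ))) := by
    have h0 : Continuous fun σ : ℝ => -(1 + σ) := by fun_prop
    have h1 : Continuous fun σ : ℝ => (F.Fr.sys.nm y : ℝ) ^ (-(1 + σ)) :=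
      (Real.continuous_const_rpow hny.ne').comp h0
    exact (h1.tendsto 0).mono_left nhdsWithin_le_nhds
  refine ⟨(F.Fr.sys.nm y : ℝ) ^ (-(1 + 0) : ℝ) * l, ?_⟩
  refine (hc.mul hl).congr fun σ => ?_
  exact (hs σ).symm

end Pool.Agent.H32.MQ
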