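import Pool.Agent.H32.MQ.XStm

/-!
# Malle's conjecture for 8T28 and 8T29 over number fields, block X: the limit of the Dirichlet
series of the objects, and its positivity
-/

set_option autoImplicit false

open scoped BigOperators Topology
open NumberField IsDedekindDomain Filter

namespace Pool.Agent.H32.MQ

open Pool.Agent.H98.MK (sg)
open Pool.Agent.H98.MF
open Pool.Agent.H98.ML (Dt Ext norb hind)

private theorem xlp_al {G : Type} [CommGroup G] (x r l : G) :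
    x * l = (x * r) * (r * l) * (r⁻¹ ^ 2) := by
  have h1 : (x * r) * (r * l) * (r⁻¹ * r⁻¹) = (x * l) * ((r * r⁻¹) * (r * r⁻¹)) := by
    ac_rfl
  rw [pow_two, h1, mul_inv_cancel, mul_one, mul_one]

private theorem xlp_out_one {k : Type} [Field k] : ∃ y : kˣ, HX.out ((1 : kˣ) : HX.GX k) = y ^ 2 := by
  obtain ⟨y, hy⟩ := HX.out_mk (1 : kˣ)
  exact ⟨y, by rw [hy, one_mul]⟩

section

variable {k : Type} [Field k] [NumberField k]

private theorem xlp_loc (Fr : Frm k) {v : Pl k} (hv : v ∈ pls Fr.S) (x : kˣ) :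
    x * lrp Fr (co Fr x).1 (Fr.sys.tys (co Fr x).2) ∈ LS v := by
  obtain ⟨z, hz⟩ := h_co Fr x
  have h1 : x * lrp Fr (co Fr x).1 (Fr.sys.tys (co Fr x).2) =
      (x * rep Fr (co Fr x)) * (rep Fr (co Fr x) * lrp Fr (co Fr x).1 (Fr.sys.tys (co Fr x).2)) *
        ((rep Fr (co Fr x))⁻¹) ^ 2 := xlp_al _ _ _
  rw [h1, hz, ← pow_two]
  exact mul_mem (mul_mem (B.sq_mem_LS v z) (rep_lrp Fr hv (co Fr x))) (B.sq_mem_LS v _)

private theorem xlp_locP (Fr : Frm k) {v : Pl k} (hv : v ∈ pls Fr.S) (x y : kˣ)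
    (h1 : (co Fr x).1 = (co Fr y).1)
    (h2 : Fr.sys.tys (co Fr x).2 = Fr.sys.tys (co Fr y).2) : LocP v ((x * y : kˣ) : k) := by
  rw [← (B.lin k).memLS]
  have h3 := xlp_loc Fr hv x
  have h4 := xlp_loc Fr hv y
  rw [← h1, ← h2] at h4
  rw [mul_comm y] at h4
  have h5 : x * y = (x * lrp Fr (co Fr x).1 (Fr.sys.tys (co Fr x).2)) *
      (lrp Fr (co Fr x).1 (Fr.sys.tys (co Fr x).2) * y) *
        ((lrp Fr (co Fr x).1 (Fr.sys.tys (co Fr x).2))⁻¹) ^ 2 := xlp_al _ _ _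
  rw [h5]
  exact mul_mem (mul_mem h3 h4) (B.sq_mem_LS v _)

private theorem xlp_lrp_zero (Fr : Frm k) : lrp Fr 0 0 = 1 := by
  unfold lrp
  rw [Finset.prod_eq_one, Finset.prod_eq_one, mul_one]
  · intro j _
    show Fr.w j ^ (0 : ZMod 2).val = 1
    rw [ZMod.val_zero, pow_zero]
  · intro j _
    show Fr.u j ^ (0 : ZMod 2).val = 1
    rw [ZMod.val_zero, pow_zero]

private theorem xlp_sqLS (v : Pl k) (x : kˣ) (h : IsSquare x) : x ∈ LS v := by
  obtain ⟨z, hz⟩ := h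
  rw [hz, ← pow_two]
  exact B.sq_mem_LS v z

private theorem xlp_cast_even (n : ℤ) (h : Even n) : ((n : ℤ) : ZMod 2) = 0 :=
  (ZMod.intCast_zmod_eq_zero_iff_dvd n 2).2 h.two_dvd

end

section

variable {k : Type} [Field k] [NumberField k] {L : Type} [Field L] [NumberField L]
  [Algebra k L] (E : QX k L) (F : FrP k L)

private theorem xlp_LocE (p p' : HX.GX L × HX.GX k) (h1 : F.ca p = F.ca p')
    (h2 : F.ck p = F.ck p') (h3 : F.cc p = F.cc p') (h4 : F.cl p = F.cl p') : F.LocE p p' :=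
  ⟨fun _ hv => xlp_locP F.FL hv _ _ h1 h2, fun _ hv => xlp_locP F.Fr hv _ _ h3 h4⟩

open Classical in
private theorem xlp_tc {On : Lˣ → kˣ → Prop} {R : Finset (HeightOneSpectrum (𝓞 k))}
    (θ : E.XX On R → ℝ) (B : ℝ) (hB : ∀ p, |θ p| ≤ B)
    (hl : ∀ p p' : E.XX On R, F.LocE p.1 p'.1 → θ p = θ p') :
    ∃ θt : F.FL.sys.T → F.FL.sys.T → F.Fr.sys.T → F.Fr.sys.T → ℝ,
      (∀ p : E.XX On R, QX.tc F θt p.1 = θ p) ∧ ∀ a κ c l, |θt a κ c l| ≤ |B| := by
  refine ⟨fun a κ c l => if h : ∃ p : E.XX On R, F.ca p.1 = a ∧ F.ck p.1 = κ ∧ F.cc p.1 = c ∧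
    F.cl p.1 = l then θ h.choose else 0, ?_, ?_⟩
  · intro p
    have h : ∃ p' : E.XX On R, F.ca p'.1 = F.ca p.1 ∧ F.ck p'.1 = F.ck p.1 ∧
      F.cc p'.1 = F.cc p.1 ∧ F.cl p'.1 = F.cl p.1 := ⟨p, rfl, rfl, rfl, rfl⟩
    show (if h : ∃ p' : E.XX On R, F.ca p'.1 = F.ca p.1 ∧ F.ck p'.1 = F.ck p.1 ∧
      F.cc p'.1 = F.cc p.1 ∧ F.cl p'.1 = F.cl p.1 then θ h.choose else 0) = θ p
    rw [dif_pos h]
    obtain ⟨g1, g2, g3, g4⟩ := h.choose_spec
    exact hl _ _ (xlp_LocE F _ _ g1 g2 g3 g4)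
  · intro a κ c l
    show |if h : ∃ p : E.XX On R, F.ca p.1 = a ∧ F.ck p.1 = κ ∧ F.cc p.1 = c ∧
      F.cl p.1 = l then θ h.choose else 0| ≤ |B|
    split_ifs with h
    · exact (hB _).trans (le_abs_self B)
    · rw [abs_zero]
      exact abs_nonneg B

private theorem xlp_sc_bdd (R : Finset (HeightOneSpectrum (𝓞 k)))
    (θ : F.FL.sys.T → F.FL.sys.T → F.Fr.sys.T → F.Fr.sys.T → ℝ) (h : Bdd4 θ) :
    Bdd4 (E.sc4 F R θ) := by
  intro a κ c l
  unfold QX.sc4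
  split_ifs
  · exact h a κ c l
  · rw [abs_zero]
    exact zero_le_one

theorem stLF (h : E.M ⊆ F.Fr.S) (hD : StDX E F h) (h4 : StLF4 E F h) : StLF E F := by
  intro On R hR hOn θ B hB hl
  obtain ⟨θt, ht1, ht2⟩ := xlp_tc E F θ B hB hl
  obtain ⟨c0, -, hc⟩ := h4
  set N : ℝ := (1 + |B|)⁻¹ with hN
  have hN0 : 0 < N := inv_pos.2 (by positivity)
  have hbd : Bdd4 (fun a κ c l => N * θt a κ c l) := by
    intro a κ c l
    rw [abs_mul, abs_of_pos hN0, hN, inv_mul_le_iff₀ (by positivity), mul_one]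
    have := ht2 a κ c l
    linarith
  have hb2 := xlp_sc_bdd E F R _ hbd
  have hlim := hc On hOn _ hb2
  have hDN : ∀ s : ℝ, E.DX F (fun p : E.XX On R => N * θ p) s = N * E.DX F θ s := by
    intro s
    unfold QX.DX
    rw [← tsum_mul_left]
    refine tsum_congr fun p => ?_
    ring
  have hDX : ∀ s : ℝ, N * E.DX F θ s = _ := fun s => (hDN s).symm.trans
    (hD On R hR (fun p => N * θ p) (fun a κ c l => N * θt a κ c l)
      (fun p => congrArg (fun y => N * y) (ht1 p)) s)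
  refine ⟨N⁻¹ * _, (hlim.const_mul N⁻¹).congr fun σ => ?_⟩
  rw [← hDX (1 + σ)]
  field_simp

private theorem xlp_SC_zero : E.SC F ∅ (F.pr 0 0 0 0) := by
  obtain ⟨y, hy⟩ := xlp_out_one (k := L)
  obtain ⟨z, hz⟩ := xlp_out_one (k := k)
  have h1 : HX.out (F.pr 0 0 0 0).1 = y ^ 2 := by
    show HX.out ((lrp F.FL 0 0 : Lˣ) : HX.GX L) = y ^ 2
    rw [xlp_lrp_zero]
    exact hy
  have h2 : HX.out (F.pr 0 0 0 0).2 = z ^ 2 := by
    show HX.out ((lrp F.Fr 0 0 : kˣ) : HX.GX k) = z ^ 2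
    rw [xlp_lrp_zero]
    exact hz
  constructor
  · intro P hP hPM
    constructor
    · intro h3
      exact absurd h3 (Finset.notMem_empty P)
    · intro h3
      exfalso
      apply h3.1
      intro Q hQ
      unfold QX.vT
      rw [h1, h2]
      have e1 : ((ord Q ((y ^ 2 : Lˣ) : L) : ℤ) : ZMod 2) = 0 := by
        apply xlp_cast_even
        rw [Units.val_pow_eq_pow_val, B.ord_pow]
        exact ⟨ord Q (y : L), by push_cast; ring⟩
      have e2 : ((ord Q ((E.δ : L) * algebraMap k L ((z ^ 2 : kˣ) : k)) : ℤ) : ZMod 2) = 0 := by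
        apply xlp_cast_even
        have hz0 : algebraMap k L (z : k) ≠ 0 := by
          rw [Ne, map_eq_zero]
          exact z.ne_zero
        rw [Units.val_pow_eq_pow_val, map_pow, B.ord_mul Q E.δ.ne_zero (pow_ne_zero 2 hz0),
          B.ord_pow]
        refine (E.evd P hPM Q hQ).add ⟨ord Q (algebraMap k L (z : k)), ?_⟩
        push_cast
        ring
      rw [e1, e2]
      funext i
      fin_cases i <;> rfl
  · intro v _
    rw [h1]
    have h3 := B.hv_of_loc (B.lin L) v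
      (E.δ * Units.map (algebraMap k L : k →* L) (HX.out (F.pr 0 0 0 0).2)) (y ^ 2)
      (B.sq_mem_LS v y)
    rw [(B.lin L).symm] at h3
    exact h3

private theorem xlp_hS (h : E.M ⊆ F.Fr.S) (a κ : F.FL.sys.T) (c l : F.Fr.sys.T)
    (hs : E.SC F ∅ (F.pr a κ c l)) : (E.qf F h).hS a κ c l = 0 := by
  show hSX (E.toY F.Fr h ∅) F.FL a κ c l = 0
  unfold hSX
  refine Finset.sum_eq_zero fun v hv => ?_
  rw [← hs.2 v hv]
  have h1 : lrp F.FL a κ * HX.out (F.pr a κ c l).1 ∈ LS v := by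
    apply xlp_sqLS
    rw [mul_comm]
    exact out_sq _
  have h2 : E.δ * Units.map (algebraMap k L : k →* L) (lrp F.Fr c l) *
      (E.δ * Units.map (algebraMap k L : k →* L) (HX.out (F.pr a κ c l).2)) ∈ LS v := by
    apply xlp_sqLS
    obtain ⟨z, hz⟩ := out_sq (lrp F.Fr c l)
    refine ⟨E.δ * Units.map (algebraMap k L : k →* L) z, ?_⟩
    rw [mul_mul_mul_comm, mul_mul_mul_comm E.δ _ E.δ, ← map_mul, ← map_mul, ← hz, mul_comm
      (lrp F.Fr c l)]
    rfl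
  exact hv_congr h1 h2

private theorem xlp_mth (h : E.M ⊆ F.Fr.S) :
    mth (E.qf F h) (E.sc4 F ∅ fun _ _ _ _ => 1) = E.sc4 F ∅ fun _ _ _ _ => 1 := by
  funext a κ c l
  unfold mth QX.sc4
  split_ifs with hs
  · rw [xlp_hS E F h a κ c l hs]
    show (1 : ℝ) * ((sg 0 : ℤ) : ℝ) = 1
    have : (sg 0 : ℤ) = 1 := rfl
    rw [this]
    norm_num
  · rw [zero_mul]

private theorem xlp_mv : 0 < mv (S := F.Fr.sys) (SF := F.FL.sys)
    (E.sc4 F ∅ fun _ _ _ _ => 1) := by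
  have h0 : ∀ a κ c l, 0 ≤ E.sc4 F ∅ (fun _ _ _ _ => 1) a κ c l := by
    intro a κ c l
    unfold QX.sc4
    split_ifs
    · exact zero_le_one
    · exact le_rfl
  have h1 : E.sc4 F ∅ (fun _ _ _ _ => 1) 0 0 0 0 = 1 := by
    unfold QX.sc4
    rw [if_pos (xlp_SC_zero E F)]
  unfold mv
  refine mul_pos (by positivity) ?_
  refine Finset.sum_pos' (fun a _ => Finset.sum_nonneg fun κ _ => Finset.sum_nonneg fun c _ =>
    Finset.sum_nonneg fun l _ => h0 a κ c l) ⟨0, Finset.mem_univ _, ?_⟩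
  refine Finset.sum_pos' (fun κ _ => Finset.sum_nonneg fun c _ =>
    Finset.sum_nonneg fun l _ => h0 0 κ c l) ⟨0, Finset.mem_univ _, ?_⟩
  refine Finset.sum_pos' (fun c _ =>
    Finset.sum_nonneg fun l _ => h0 0 0 c l) ⟨0, Finset.mem_univ _, ?_⟩
  refine Finset.sum_pos' (fun l _ => h0 0 0 0 l) ⟨0, Finset.mem_univ _, ?_⟩
  rw [h1]
  exact one_pos

theorem stLP (h : E.M ⊆ F.Fr.S) (hD : StDX E F h) (h4 : StLF4 E F h) : StLP E F := by
  intro On hOn
  obtain ⟨c0, hc0, hc⟩ := h4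
  have hb : Bdd4 (fun (_ _ : F.FL.sys.T) (_ _ : F.Fr.sys.T) => (1 : ℝ)) := by
    intro a κ c l
    show |(1 : ℝ)| ≤ 1
    rw [abs_one]
  have hlim := hc On hOn _ (xlp_sc_bdd E F ∅ _ hb)
  rw [xlp_mth E F h] at hlim
  have hpos := xlp_mv E F
  refine ⟨_, mul_pos hc0 (add_pos hpos hpos), hlim.congr fun σ => ?_⟩
  rw [hD On ∅ (Finset.empty_subset _) (fun _ => 1) (fun _ _ _ _ => 1) (fun _ => rfl) (1 + σ)]

end

end Pool.Agent.H32.MQ
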