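import Pool.Agent.H32.MQ.XStm

/-!
# Block X: the limit for functions of the coordinates

The Dirichlet series over the pairs with `On` differs from `D1` by at most the series `D2` of the
pairs with `t` a unit and the series of the pairs with `γ` a unit, both `O(1/σ)`.
-/

set_option autoImplicit false

open scoped BigOperators Topology
open NumberField IsDedekindDomain Filter

namespace Pool.Agent.H32.MQ

open Pool.Agent.H98.MK (sg)
open Pool.Agent.H98.MF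
open Pool.Agent.H98.ML (Dt Ext norb hind)

/-! ### comparison of series -/

private theorem xlf_cmp {ι : Type} (tA tD t2 tW : ι → ℝ) (h : ∀ p, |tA p - tD p| ≤ t2 p + tW p)
    (hD : Summable tD) (h2 : Summable t2) (hW : Summable tW) :
    |∑' p, tA p - ∑' p, tD p| ≤ |∑' p, t2 p| + |∑' p, tW p| := by
  have hd : Summable fun p => tA p - tD p :=
    Summable.of_norm_bounded (h2.add hW) fun p => by rw [Real.norm_eq_abs]; exact h p
  have hA : Summable tA := by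
    have := hd.add hD
    simpa using this
  rw [← hA.tsum_sub hD]
  have h3 : |∑' p, (tA p - tD p)| ≤ ∑' p, |tA p - tD p| := by
    have := norm_tsum_le_tsum_norm (f := fun p => tA p - tD p) hd.norm
    simpa only [Real.norm_eq_abs] using this
  have h4 : ∑' p, |tA p - tD p| ≤ ∑' p, (t2 p + tW p) :=
    hd.abs.tsum_le_tsum h (h2.add hW)
  rw [h2.tsum_add hW] at h4
  exact h3.trans (h4.trans (add_le_add (le_abs_self _) (le_abs_self _)))

private theorem xlf_term {a b : ℝ} (hb : 0 ≤ b) (ha : |a| ≤ b) {O On x0 N g0 sq : Prop}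
    [Decidable (O ∧ On)] [Decidable (O ∧ ¬ x0 ∧ N)] [Decidable (O ∧ x0 ∧ N ∧ ¬ sq)]
    [Decidable (O ∧ g0 ∧ N)] (i : On → N) (ii : On → ¬ sq) (iii : O → ¬ x0 → ¬ g0 → On) :
    |(if O ∧ On then a else 0) - (if O ∧ ¬ x0 ∧ N then a else 0)| ≤
      (if O ∧ x0 ∧ N ∧ ¬ sq then b else 0) + (if O ∧ g0 ∧ N then b else 0) := by
  have h2 : 0 ≤ (if O ∧ x0 ∧ N ∧ ¬ sq then b else 0) := by split_ifs <;> [exact hb; exact le_rfl]
  have h3 : 0 ≤ (if O ∧ g0 ∧ N then b else 0) := by split_ifs <;> [exact hb; exact le_rfl]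
  by_cases hO : O
  · by_cases hx : x0
    · rw [if_neg (fun h : O ∧ ¬ x0 ∧ N => h.2.1 hx), sub_zero]
      by_cases hOn : On
      · rw [if_pos ⟨hO, hOn⟩, if_pos ⟨hO, hx, i hOn, ii hOn⟩]
        linarith
      · rw [if_neg (fun h : O ∧ On => hOn h.2), abs_zero]
        linarith
    · by_cases hg : g0
      · by_cases hN : N
        · rw [if_pos (⟨hO, hx, hN⟩ : O ∧ ¬ x0 ∧ N), if_pos (⟨hO, hg, hN⟩ : O ∧ g0 ∧ N)]
          by_cases hOn : On
          · rw [if_pos ⟨hO, hOn⟩, sub_self, abs_zero]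
            linarith
          · rw [if_neg (fun h : O ∧ On => hOn h.2), zero_sub, abs_neg]
            linarith
        · rw [if_neg (fun h : O ∧ On => hN (i h.2)),
            if_neg (fun h : O ∧ ¬ x0 ∧ N => hN h.2.2), sub_zero, abs_zero]
          linarith
      · have hOn := iii hO hx hg
        rw [if_pos ⟨hO, hOn⟩, if_pos (⟨hO, hx, i hOn⟩ : O ∧ ¬ x0 ∧ N), sub_self, abs_zero]
        linarith
  · rw [if_neg (fun h : O ∧ On => hO h.1), if_neg (fun h : O ∧ ¬ x0 ∧ N => hO h.1), sub_zero,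
      abs_zero]
    linarith

/-! ### the three facts -/

section

variable {k : Type} [Field k] [NumberField k] {L : Type} [Field L] [NumberField L]
  [Algebra k L]

theorem xlf_chi (w : Lˣ) (σ : Gm L) : chi ((w * w : Lˣ) : L) σ = 0 := by
  unfold chi
  rw [if_pos]
  have h1 := sq_sq ((w * w : Lˣ) : L)
  have h2 : (Pool.Agent.H98.MF.sq ((w * w : Lˣ) : L)) ^ 2 = (algebraMap L (Om L) (w : L)) ^ 2 := by
    rw [h1, Units.val_mul, map_mul, pow_two]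
  rcases sq_eq_sq_iff_eq_or_eq_neg.1 h2 with h3 | h3
  · rw [h3, AlgEquiv.commutes]
  · rw [h3, map_neg, AlgEquiv.commutes]

/-- (i): the norm of `γ` is not a square -/
theorem xlf_NS {Fr : Frm k} (X : HX Fr L) (hM : X.M = ∅) (p : HX.GX L × HX.GX k)
    (hn : ¬ IsSquare (HX.nrX (k := k) (HX.out p.1))) : X.NS p := by
  rintro ⟨hB, hnu⟩
  apply hn
  have h1 : (co Fr (HX.nrX (k := k) (HX.out p.1))).1 = 0 := congrArg Prod.fst hnu
  have h2 : (co Fr (HX.nrX (k := k) (HX.out p.1))).2 = ∅ := by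
    rw [Finset.eq_empty_iff_forall_notMem]
    intro q hq
    have hq1 : q ∈ odp Fr (HX.nrX (k := k) (HX.out p.1)) := hq
    rw [mem_odp] at hq1
    have hqM : q ∉ X.M := by rw [hM]; exact Finset.notMem_empty q
    obtain ⟨Q, hQ⟩ := exists_over (L := L) (Fr.pl q)
    rw [h_ordN X q Q hqM hQ] at hq1
    have hev : ∀ Q' : HeightOneSpectrum (𝓞 L), Over (Fr.pl q) Q' →
        Even (ord Q' ((HX.out p.1 : Lˣ) : L)) := by
      intro Q' hQ'
      rw [← Int.not_odd_iff_even, hB Q' ⟨q, hqM, hQ'⟩]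
      rintro ⟨b, hb, -⟩
      exact Finset.notMem_empty b hb
    exact Int.not_even_iff_odd.2 hq1 ((hev Q hQ).add (hev _ (hQ.cj X.sig)))
  have h3 := h_co Fr (HX.nrX (k := k) (HX.out p.1))
  have h4 : co Fr (HX.nrX (k := k) (HX.out p.1)) = (0, ∅) := Prod.ext h1 h2
  rw [h4] at h3
  have h5 : rep Fr ((0, ∅) : El Fr.sys) = 1 := by
    unfold rep
    simp
  rwa [h5, mul_one] at h3

variable (E : QX k L)

/-- (ii): `δ t` is not a square -/
theorem xlf_sq (hEm : StEmb L) (On : Lˣ → kˣ → Prop) (hS : OnS E On) (p : HX.GX L × HX.GX k)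
    (hOn : On (HX.out p.1) (HX.out p.2)) :
    ¬ IsSquare (E.δ * Units.map (algebraMap k L : k →* L) (HX.out p.2)) := by
  rintro ⟨w, hw⟩
  have h0 : ((E.δ * Units.map (algebraMap k L : k →* L) (HX.out p.2) : Lˣ) : L) =
    (E.δ : L) * algebraMap k L ((HX.out p.2 : kˣ) : k) := rfl
  obtain ⟨ρ, hlc, hg, hd⟩ := hEm (HX.out p.1)
    (E.δ * Units.map (algebraMap k L : k →* L) (HX.out p.2)) (fun v => by
      refine Pool.Agent.H98.MF.B.hv_of_loc (B.lin L) v _ _ ?_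
      rw [hw, ← pow_two]
      exact Pool.Agent.H98.MF.B.sq_mem_LS v w)
  have hsu := hS ρ (HX.out p.1) (HX.out p.2) ⟨hlc, hg, fun σ => by rw [← h0]; exact hd σ⟩ hOn
  obtain ⟨σ, hσ⟩ := hsu (⟨![0, 1], 0⟩ : Ext D4)
  have h1 := hd σ
  rw [hσ, hw, xlf_chi] at h1
  have h2 : c1 (⟨![0, 1], 0⟩ : Ext D4) = 1 := rfl
  rw [h2] at h1
  exact absurd h1 (by decide)

/-- (iii): pairs with `t` and `γ` not units satisfy `On` -/
theorem xlf_gen {Fr : Frm k} (h : E.M ⊆ Fr.S) (On : Lˣ → kˣ → Prop) (hO : E.OnOk On)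
    (p : HX.GX L × HX.GX k) (hp : (E.toY Fr h ∅).OkT p) (hx : (E.toY Fr h ∅).xX p.2 ≠ ∅)
    (hg : (E.toY Fr h ∅).gX p.1 ≠ ∅) : On (HX.out p.1) (HX.out p.2) := by
  classical
  obtain ⟨⟨hinj, -, hdis⟩, hB⟩ := hp
  obtain ⟨b, hb⟩ := Finset.nonempty_iff_ne_empty.2 hg
  obtain ⟨q, hq⟩ := Finset.nonempty_iff_ne_empty.2 hx
  have hPM : ∀ r : Fr.sys.P, Fr.pl r ∉ E.M := fun r hr => hb_notMem Fr r (h hr)
  have hmemg : ∀ b' : (E.toY Fr h ∅).PX, b' ∈ (E.toY Fr h ∅).gX p.1 ↔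
      Odd (ord b'.1 ((HX.out p.1 : Lˣ) : L)) := by
    intro b'
    unfold HX.gX
    rw [Set.Finite.mem_toFinset]
    rfl
  have hmemx : ∀ r : Fr.sys.P, r ∈ (E.toY Fr h ∅).xX p.2 ↔
      Odd (ord (Fr.pl r) ((HX.out p.2 : kˣ) : k)) := by
    intro r
    unfold HX.xX
    rw [Finset.mem_sdiff]
    have e1 : r ∈ (co Fr (HX.out p.2)).2 ↔ r ∈ odp Fr (HX.out p.2) := Iff.rfl
    rw [e1, mem_odp]
    exact ⟨fun h => h.1, fun h => ⟨h, Finset.notMem_empty r⟩⟩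
  refine hO.gen (HX.out p.1) (HX.out p.2) (Fr.pl ((E.toY Fr h ∅).shX b)) b.1 (Fr.pl q)
    (hPM _) ((E.toY Fr h ∅).shX_over b) b.2.2 ((hmemg b).1 hb) ?_ ?_ (hPM q)
    ((hmemx q).1 hq) ?_
  · have h1 : (E.toY Fr h ∅).cjX b ∉ (E.toY Fr h ∅).gX p.1 := by
      intro h2
      have h3 : (E.toY Fr h ∅).shX ((E.toY Fr h ∅).cjX b) = (E.toY Fr h ∅).shX b :=
        (E.toY Fr h ∅).shX_eq _ (((E.toY Fr h ∅).shX_over b).cj (E.toY Fr h ∅).sig)
      have h4 := hinj _ h2 _ hb h3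
      exact b.2.2 (congrArg Subtype.val h4)
    rw [hmemg, Int.not_odd_iff_even] at h1
    exact h1
  · have h1 : (E.toY Fr h ∅).shX b ∉ (E.toY Fr h ∅).xX p.2 := fun h2 =>
      Finset.disjoint_left.1 hdis h2 (Finset.mem_image_of_mem _ hb)
    rw [hmemx, Int.not_odd_iff_even] at h1
    exact h1
  · intro Q' hQ'
    rw [← Int.not_odd_iff_even]
    intro hodd
    obtain ⟨b', hb', hbQ⟩ := (hB Q' ⟨q, Finset.notMem_empty q, hQ'⟩).1 hodd
    have h1 : (E.toY Fr h ∅).shX b' = q := (E.toY Fr h ∅).shX_eq b' (by rw [hbQ]; exact hQ')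
    refine Finset.disjoint_left.1 hdis hq ?_
    rw [← h1]
    exact Finset.mem_image_of_mem _ hb'

end

open Classical in
/-- the limit for functions of the coordinates -/
theorem stLF4 {k : Type} [Field k] [NumberField k] {L : Type} [Field L] [NumberField L]
    [Algebra k L] (E : QX k L) (F : FrP k L) (h : E.M ⊆ F.Fr.S) (h1 : StD1 E F h)
    (h2 : StD2 E F h) (h3 : StG0 E F h) (hP : StPosX (E.toY F.Fr h ∅)) (hT : StTypY E F h)
    (hEm : StEmb L) (hC : SEC) (hL1 : SL1) (hL2 : SL2) (hW : SLW012)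
    (hBF : ∃ C A η : ℝ, 0 < η ∧ (Qof (E.toY F.Fr h ∅)).BF C A η) : StLF4 E F h := by
  obtain ⟨C0, A0, η0, hη, hBF⟩ := hBF
  obtain ⟨c0, hc0, hlc⟩ := hC _ _ (E.qf F h)
  refine ⟨c0, hc0, fun On hO θ hθ => ?_⟩
  have h1b : Bdd4 (fun (_ _ : F.FL.sys.T) (_ _ : F.Fr.sys.T) => (1 : ℝ)) := fun _ _ _ _ => by
    rw [abs_one]
  obtain ⟨C2, hC2⟩ := hL2 _ _ (E.qf F h)
  obtain ⟨CW, hCW⟩ := hW _ _ (E.qf F h) {0, 1, 2} ⟨∅, ∅, ∅, ∅, ∅⟩ (Finset.Subset.refl _)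
  have hlim := hL1 _ _ (E.qf F h) C0 A0 η0 c0 hη hBF hlc θ hθ
  -- the factors are nonnegative
  have hF0 : ∀ p, 0 ≤ (E.toY F.Fr h ∅).FacX p := fun p => by
    unfold HX.FacX
    exact mul_nonneg (Finset.prod_nonneg fun q _ => hP.1 _ q)
      (Finset.prod_nonneg fun b _ => hP.2 _ _ b)
  have key : ∀ s : ℝ, 1 < s → |(∑' p : HX.GX L × HX.GX k,
      if (E.toY F.Fr h ∅).OkT p ∧ On (HX.out p.1) (HX.out p.2) then
        QX.tc F θ p * (E.toY F.Fr h ∅).FacX p *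
          ((E.toY F.Fr h ∅).nT p : ℝ) ^ (-s) else 0) - D1 (E.qf F h) θ s| ≤
      |D2 (E.qf F h) (fun _ _ _ _ => 1) s| +
        |WA (E.qf F h) (fun _ _ _ _ => 1) {0, 1, 2} ⟨∅, ∅, ∅, ∅, ∅⟩ s| := by
    intro s hs
    obtain ⟨s1, e1⟩ := h1 θ s hθ hs
    obtain ⟨s2, e2⟩ := h2 s hs
    obtain ⟨s3, e3⟩ := h3 s hs
    rw [e1, e2, e3]
    refine xlf_cmp _ _ _ _ (fun p => ?_) s1 s2 s3
    have hb : 0 ≤ (E.toY F.Fr h ∅).FacX p * ((E.toY F.Fr h ∅).nT p : ℝ) ^ (-s) :=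
      mul_nonneg (hF0 p) (Real.rpow_nonneg (Nat.cast_nonneg _) _)
    have ha : |QX.tc F θ p * (E.toY F.Fr h ∅).FacX p * ((E.toY F.Fr h ∅).nT p : ℝ) ^ (-s)| ≤
        (E.toY F.Fr h ∅).FacX p * ((E.toY F.Fr h ∅).nT p : ℝ) ^ (-s) := by
      rw [mul_assoc, abs_mul, abs_of_nonneg hb]
      exact mul_le_of_le_one_left hb (hθ _ _ _ _)
    exact xlf_term (x0 := (E.toY F.Fr h ∅).xX p.2 = ∅) hb ha
      (fun hOn => xlf_NS _ rfl p (hO.nn _ _ hOn))
      (fun hOn => xlf_sq E hEm On hO.su p hOn)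
      (fun hOk hx hg => xlf_gen E h On hO p hOk hx hg)
  set A : ℝ → ℝ := fun s => ∑' p : HX.GX L × HX.GX k,
      if (E.toY F.Fr h ∅).OkT p ∧ On (HX.out p.1) (HX.out p.2) then
        QX.tc F θ p * (E.toY F.Fr h ∅).FacX p *
          ((E.toY F.Fr h ∅).nT p : ℝ) ^ (-s) else 0 with hA
  have hdiff : Tendsto (fun σ : ℝ => σ ^ 2 * (A (1 + σ) - D1 (E.qf F h) θ (1 + σ))) (𝓝[>] 0)
      (𝓝 0) := by
    have hz : Tendsto (fun σ : ℝ => (|C2| + |CW|) * σ) (𝓝[>] 0) (𝓝 0) := by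
      have h0 : Tendsto (fun σ : ℝ => (|C2| + |CW|) * σ) (𝓝 0) (𝓝 ((|C2| + |CW|) * 0)) :=
        (continuous_const.mul continuous_id).tendsto 0
      rw [mul_zero] at h0
      exact h0.mono_left nhdsWithin_le_nhds
    refine squeeze_zero_norm' ?_ hz
    filter_upwards [Ioc_mem_nhdsGT (zero_lt_one' ℝ)] with σ hσ
    have hk := key (1 + σ) (by linarith [hσ.1])
    have b2 := hC2 (fun _ _ _ _ => 1) σ h1b hσ.1 hσ.2
    have b3 := hCW (fun _ _ _ _ => 1) σ h1b hσ.1 hσ.2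
    rw [Real.rpow_neg_one] at b2 b3
    rw [Real.norm_eq_abs, abs_mul, abs_of_nonneg (sq_nonneg σ)]
    have hσ0 : 0 < σ := hσ.1
    have b2' : C2 * σ⁻¹ ≤ |C2| * σ⁻¹ :=
      mul_le_mul_of_nonneg_right (le_abs_self _) (inv_nonneg.2 hσ0.le)
    have b3' : CW * σ⁻¹ ≤ |CW| * σ⁻¹ :=
      mul_le_mul_of_nonneg_right (le_abs_self _) (inv_nonneg.2 hσ0.le)
    have hk' : |A (1 + σ) - D1 (E.qf F h) θ (1 + σ)| ≤ (|C2| + |CW|) * σ⁻¹ := by
      have := hk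
      rw [add_mul]
      linarith
    calc σ ^ 2 * |A (1 + σ) - D1 (E.qf F h) θ (1 + σ)| ≤ σ ^ 2 * ((|C2| + |CW|) * σ⁻¹) :=
          mul_le_mul_of_nonneg_left hk' (sq_nonneg σ)
      _ = (|C2| + |CW|) * σ := by
          field_simp
  have hsum := hlim.add hdiff
  rw [add_zero] at hsum
  refine hsum.congr fun σ => ?_
  ring

end Pool.Agent.H32.MQ
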