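import Pool.Agent.H32.MQ.XStm
import Pool.Agent.H98.MF.Crd
import Pool.Agent.H98.MF.L.KIn

/-!
# Malle's conjecture for 8T28 and 8T29 over number fields, block X: the numbers of local twists
are local
-/

set_option autoImplicit false

open scoped BigOperators
open NumberField IsDedekindDomain

namespace Pool.Agent.H32.MQ

open Pool.Agent.H98.MK (sg)
open Pool.Agent.H98.MF
open Pool.Agent.H98.ML (Dt Ext norb hind)

section

variable {L : Type} [Field L] [NumberField L]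

private theorem xlm_zmod {a b : ZMod 2} (h : a + b = 0) : a = b := by
  revert h; revert a b; decide

private theorem xlm_chi {v : Pl L} {x y : Lˣ} (h : x * y ∈ LS v) {σ : Gm L} (hσ : σ ∈ DecP v) :
    chi (x : L) σ = chi (y : L) σ := by
  have h1 := ((kin L).one v (x * y)).2 (((B.lin L).memLS v _).1 h) σ hσ
  rw [CrdAux.chi_mul] at h1
  exact xlm_zmod h1

private theorem xlm_lrp (FL : Frm L) (e ε : FL.sys.T) (σ : Gm L) :
    chi (lrp FL e ε : L) σ = ∑ j, chi (FL.u j : L) σ * e j + ∑ j, chi (FL.w j : L) σ * ε j := by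
  unfold lrp
  rw [CrdAux.chi_mul, CrdAux.chi_prod, CrdAux.chi_prod]

private theorem xlm_lrp_add (FL : Frm L) (e ε e0 ε0 : FL.sys.T) (σ : Gm L) :
    chi (lrp FL (e + e0) (ε + ε0) : L) σ = chi (lrp FL e ε : L) σ + chi (lrp FL e0 ε0 : L) σ := by
  rw [xlm_lrp, xlm_lrp, xlm_lrp]
  simp only [Pi.add_apply, mul_add, Finset.sum_add_distrib]
  abel

private theorem xlm_tw_lc (ρ : Gm L →* Ext D4) (hρ : IsLocallyConstant ρ) (b : Lˣ) :
    IsLocallyConstant (twH ρ b) := by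
  have h1 : IsLocallyConstant fun σ : Gm L => (ρ σ, chi (b : L) σ) :=
    hρ.prodMk (chiM_lc (b : L))
  exact h1.comp fun x : Ext D4 × ZMod 2 => (⟨x.1.v, x.1.z + fun _ => x.2⟩ : Ext D4)

/-- local coordinates of the difference of two homomorphisms -/
private theorem xlm_diff (FL : Frm L) (ρ ρ' : Gm L →* Ext D4) (hρ : IsLocallyConstant ρ)
    (hρ' : IsLocallyConstant ρ')
    (hv : ∀ v ∈ pls FL.S, ∀ σ ∈ DecP v, (ρ σ).v = (ρ' σ).v) :
    ∃ e0 ε0 : FL.sys.T, ∀ v ∈ pls FL.S, ∀ σ ∈ DecP v,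
      cz (ρ' σ) = cz (ρ σ) + chi (lrp FL e0 ε0 : L) σ := by
  obtain ⟨z, e, h⟩ := FL.crd_exists (kin L) (r := 1) (fun σ => (ρ' σ).z + (ρ σ).z)
    ((hρ'.comp Ext.z).add (hρ.comp Ext.z)) (fun v hv' σ hσ τ hτ => by
      show (ρ' (σ * τ)).z + (ρ (σ * τ)).z = ((ρ' σ).z + (ρ σ).z) + ((ρ' τ).z + (ρ τ).z)
      rw [map_mul, map_mul, Ext.mul_z, Ext.mul_z, hv v hv' σ hσ, hv v hv' τ hτ]
      funext i
      show ((ρ' σ).z i + (ρ' τ).z i + D4.β (ρ' σ).v (ρ' τ).v i) +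
          ((ρ σ).z i + (ρ τ).z i + D4.β (ρ' σ).v (ρ' τ).v i) =
        ((ρ' σ).z i + (ρ σ).z i) + ((ρ' τ).z i + (ρ τ).z i)
      generalize (ρ' σ).z i = a
      generalize (ρ' τ).z i = b
      generalize (ρ σ).z i = c
      generalize (ρ τ).z i = d
      generalize D4.β (ρ' σ).v (ρ' τ).v i = f
      revert a b c d f
      decide)
  refine ⟨fun j => z j 0, fun j => e j 0, fun v hv' σ hσ => ?_⟩
  have h1 : (ρ' σ).z + (ρ σ).z = FL.parU z σ + FL.parW e σ := h v hv' σ hσ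
  have h2 := congrFun h1 (0 : Fin 1)
  have h3 : (FL.parU z σ + FL.parW e σ) 0 = chi (lrp FL (fun j => z j 0) fun j => e j 0 : L) σ := by
    rw [xlm_lrp, Pi.add_apply, Frm.crd_aux_U, Frm.crd_aux_W]
  rw [h3] at h2
  have h4 : cz (ρ' σ) + cz (ρ σ) = chi (lrp FL (fun j => z j 0) fun j => e j 0 : L) σ := h2
  rw [← h4]
  generalize cz (ρ' σ) = a
  generalize cz (ρ σ) = b
  revert a b
  decide

/-- the part of the discriminant at the frame is local -/
private theorem xlm_qS (hS : StSurT L) (FL : Frm L) (RL : Rx L) (ρ ρ' : Gm L →* Ext D4)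
    (hρ : IsLocallyConstant ρ) (hρ' : IsLocallyConstant ρ') (hs : Function.Surjective ρ)
    (hs' : Function.Surjective ρ')
    (hv : ∀ v ∈ pls FL.S, ∀ σ ∈ DecP v, (ρ σ).v = (ρ' σ).v) :
    ∃ e0 ε0 : FL.sys.T, ∀ e ε : FL.sys.T, FL.qS RL H4 (twH ρ' (lrp FL e ε)) =
      FL.qS RL H4 (twH ρ (lrp FL (e + e0) (ε + ε0))) := by
  obtain ⟨e0, ε0, h⟩ := xlm_diff FL ρ ρ' hρ hρ' hv
  refine ⟨e0, ε0, fun e ε => ?_⟩
  unfold Frm.qS
  refine Finset.prod_congr rfl fun P hP => ?_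
  have hP' : (Sum.inl P : Pl L) ∈ pls FL.S := B.inl_mem_pls.2 hP
  refine congrArg (fun n => nrm P ^ n) (RL.loc (Ext D4) _ _ H4 (xlm_tw_lc _ hρ' _)
    (xlm_tw_lc _ hρ _) (hS _ _ hs') (hS _ _ hs) P fun σ hσ => ?_)
  have hσ' : σ ∈ DecP (Sum.inl P : Pl L) := hσ
  apply Ext.ext
  · exact (hv _ hP' σ hσ').symm
  · funext i
    have hi : i = (0 : Fin 1) := Subsingleton.elim (α := Fin 1) _ _
    subst hi
    show cz (ρ' σ) + chi (lrp FL e ε : L) σ = cz (ρ σ) + chi (lrp FL (e + e0) (ε + ε0) : L) σ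
    rw [h _ hP' σ hσ', xlm_lrp_add]
    ring

private theorem xlm_qS_pos (FL : Frm L) (RL : Rx L) (ρ : Gm L →* Ext D4) :
    0 < FL.qS RL H4 ρ := by
  unfold Frm.qS
  refine Finset.prod_pos fun P _ => pow_pos ?_ _
  unfold nrm
  rw [Nat.pos_iff_ne_zero, Ne, Ideal.absNorm_eq_zero_iff]
  exact P.ne_bot

end

section

variable {k : Type} [Field k] [NumberField k] {L : Type} [Field L] [NumberField L]
  [Algebra k L] (E : QX k L) (F : FrP k L)

/-- equal coordinates give the same local classes -/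
private theorem xlm_co {K : Type} [Field K] [NumberField K] (Fr : Frm K) {v : Pl K}
    (hv : v ∈ pls Fr.S) (x y : Kˣ) (h1 : (co Fr x).1 = (co Fr y).1)
    (h2 : Fr.sys.tys (co Fr x).2 = Fr.sys.tys (co Fr y).2) : LocP v ((x * y : Kˣ) : K) := by
  have key : ∀ x : Kˣ, x * lrp Fr (co Fr x).1 (Fr.sys.tys (co Fr x).2) ∈ LS v := by
    intro x
    obtain ⟨z, hz⟩ := h_co Fr x
    have h4 : x * lrp Fr (co Fr x).1 (Fr.sys.tys (co Fr x).2) =
        z ^ 2 * ((rep Fr (co Fr x))⁻¹) ^ 2 *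
          (rep Fr (co Fr x) * lrp Fr (co Fr x).1 (Fr.sys.tys (co Fr x).2)) := by
      rw [pow_two z, ← hz]
      group
    rw [h4]
    exact mul_mem (mul_mem (B.sq_mem_LS v _) (B.sq_mem_LS v _)) (rep_lrp Fr hv (co Fr x))
  have h5 := key y
  rw [← h1, ← h2] at h5
  have h6 : x * y = (x * lrp Fr (co Fr x).1 (Fr.sys.tys (co Fr x).2)) *
      ((lrp Fr (co Fr x).1 (Fr.sys.tys (co Fr x).2))⁻¹) ^ 2 *
        (y * lrp Fr (co Fr x).1 (Fr.sys.tys (co Fr x).2)) := by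
    rw [mul_comm y]
    group
  refine ((B.lin K).memLS v _).1 ?_
  rw [h6]
  exact mul_mem (mul_mem (key x) (B.sq_mem_LS v _)) h5

private theorem xlm_v (p p' : HX.GX L × HX.GX k) (hp : F.LocE p p')
    (ρ ρ' : Gm L →* Ext D4) (hρ : E.Hm ρ (HX.out p.1) (HX.out p.2))
    (hρ' : E.Hm ρ' (HX.out p'.1) (HX.out p'.2)) :
    ∀ v ∈ pls F.FL.S, ∀ σ ∈ DecP v, (ρ σ).v = (ρ' σ).v := by
  intro v hv σ hσ
  have h0 : c0 (ρ σ) = c0 (ρ' σ) := by
    rw [hρ.gam, hρ'.gam]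
    exact xlm_chi (((B.lin L).memLS v _).2 (hp.1 v hv)) hσ
  have h1 : c1 (ρ σ) = c1 (ρ' σ) := by
    rw [hρ.del, hρ'.del]
    have h2 : (E.δ * Units.map (algebraMap k L : k →* L) (HX.out p.2)) *
        (E.δ * Units.map (algebraMap k L : k →* L) (HX.out p'.2)) ∈ LS v := by
      have e : (E.δ * Units.map (algebraMap k L : k →* L) (HX.out p.2)) *
          (E.δ * Units.map (algebraMap k L : k →* L) (HX.out p'.2)) =
          E.δ ^ 2 * Units.map (algebraMap k L : k →* L) (HX.out p.2 * HX.out p'.2) := by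
        rw [mul_mul_mul_comm, ← pow_two, map_mul]
      rw [e]
      refine mul_mem (B.sq_mem_LS v _) ?_
      rcases v with Q | φ
      · obtain ⟨P, hP, hPQ⟩ := (F.ov Q).1 (B.inl_mem_pls.1 hv)
        exact LS_map (P := P) hPQ (((B.lin k).memLS _ _).2 (hp.2 _ (B.inl_mem_pls.2 hP)))
      · exact LS_mapR φ (((B.lin k).memLS _ _).2 (hp.2 _ (B.inr_mem_pls _ _)))
    exact xlm_chi h2 hσ
  funext i
  have hi : ∀ i : Fin 2, (ρ σ).v i = (ρ' σ).v i := by
    intro i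
    fin_cases i
    · exact h0
    · exact h1
  exact hi i

open Classical in
/-- counting twists -/
private theorem xlm_cnt {T : Type} [AddGroup T] [Fintype T] (f g : T → T → ℕ) (e0 ε0 : T)
    (h : ∀ e ε, g e ε = f (e + e0) (ε + ε0)) (q : ℕ) :
    ∑ ε : T, ((Finset.univ.filter fun e : T => g e ε = q).card : ℝ) =
      ∑ ε : T, ((Finset.univ.filter fun e : T => f e ε = q).card : ℝ) := by
  refine Fintype.sum_equiv (Equiv.addRight ε0) _ _ fun ε => ?_
  have h1 : (Finset.univ.filter fun e : T => g e ε = q).card =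
      (Finset.univ.filter fun e : T => f e (ε + ε0) = q).card :=
    Finset.card_equiv (Equiv.addRight e0) fun e => by
      rw [Finset.mem_filter, Finset.mem_filter, h]
      exact ⟨fun h => ⟨Finset.mem_univ _, h.2⟩, fun h => ⟨Finset.mem_univ _, h.2⟩⟩
  rw [h1]
  rfl

open Classical in
private theorem xlm_sum {T : Type} [Fintype T] (f : T → T → ℕ) (Qs : Finset ℕ)
    (h : ∀ e ε, f e ε ∈ Qs) :
    ∑ q ∈ Qs, ∑ ε : T, ((Finset.univ.filter fun e : T => f e ε = q).card : ℝ) =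
      (Fintype.card T : ℝ) * (Fintype.card T : ℝ) := by
  rw [Finset.sum_comm]
  have h1 : ∀ ε : T, ∑ q ∈ Qs, ((Finset.univ.filter fun e : T => f e ε = q).card : ℝ) =
      (Fintype.card T : ℝ) := by
    intro ε
    rw [← Nat.cast_sum, ← Finset.card_eq_sum_card_fiberwise (fun e _ => h e ε)]
    rfl
  rw [Finset.sum_congr rfl fun ε _ => h1 ε, Finset.sum_const, nsmul_eq_mul]
  rfl

open Classical in
theorem stLM (RL : Rx L) (hN : StNrX E F RL) (hS : StSurT L) : StLM E F RL := by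
  intro On R hM hOn
  have h1 : ∀ p p' : E.XX On R, F.LocE p.1 p'.1 → ∃ e0 ε0 : F.FL.sys.T,
      ∀ e ε : F.FL.sys.T, F.FL.qS RL H4 (twH (E.rho0 F.FL RL p'.1) (lrp F.FL e ε)) =
        F.FL.qS RL H4 (twH (E.rho0 F.FL RL p.1) (lrp F.FL (e + e0) (ε + ε0))) := by
    intro p p' hp
    have n1 := hN On R p
    have n2 := hN On R p'
    exact xlm_qS hS F.FL RL _ _ n1.hm.lc n2.hm.lc (hOn.su _ _ _ n1.hm p.2.on)
      (hOn.su _ _ _ n2.hm p'.2.on) (xlm_v E F p.1 p'.1 hp _ _ n1.hm n2.hm)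
  refine ⟨fun p p' hp q => ?_, ?_⟩
  · obtain ⟨e0, ε0, h2⟩ := h1 p p' hp
    unfold QX.thX QX.NtX
    rw [← xlm_cnt (fun e ε => F.FL.qS RL H4 (twH (E.rho0 F.FL RL p.1) (lrp F.FL e ε)))
      (fun e ε => F.FL.qS RL H4 (twH (E.rho0 F.FL RL p'.1) (lrp F.FL e ε))) e0 ε0 h2 q]
  · let cd : E.XX On R → (F.FL.sys.T × F.FL.sys.T) × (F.Fr.sys.T × F.Fr.sys.T) := fun p =>
      ((F.ca p.1, F.ck p.1), (F.cc p.1, F.cl p.1))
    let g : (((F.FL.sys.T × F.FL.sys.T) × (F.Fr.sys.T × F.Fr.sys.T)) ×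
        (F.FL.sys.T × F.FL.sys.T)) → ℕ := fun x =>
      if h : ∃ p : E.XX On R, cd p = x.1 then
        F.FL.qS RL H4 (twH (E.rho0 F.FL RL h.choose.1) (lrp F.FL x.2.1 x.2.2)) else 1
    have hQ : ∀ (p : E.XX On R) (e ε : F.FL.sys.T),
        F.FL.qS RL H4 (twH (E.rho0 F.FL RL p.1) (lrp F.FL e ε)) ∈
          Finset.univ.image g := by
      intro p e ε
      have hex : ∃ p' : E.XX On R, cd p' = cd p := ⟨p, rfl⟩
      have hc := hex.choose_spec
      have hL : F.LocE hex.choose.1 p.1 := by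
        constructor
        · intro v hv
          exact xlm_co F.FL hv _ _ (congrArg (fun x => x.1.1) hc) (congrArg (fun x => x.1.2) hc)
        · intro v hv
          exact xlm_co F.Fr hv _ _ (congrArg (fun x => x.2.1) hc) (congrArg (fun x => x.2.2) hc)
      obtain ⟨e0, ε0, h2⟩ := h1 _ _ hL
      rw [h2]
      refine Finset.mem_image.2 ⟨(cd p, (e + e0, ε + ε0)), Finset.mem_univ _, ?_⟩
      show (if h : ∃ p' : E.XX On R, cd p' = cd p then _ else 1) = _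
      rw [dif_pos hex]
    refine ⟨Finset.univ.image g, ?_, hQ, ?_⟩
    · intro q hq
      obtain ⟨x, -, rfl⟩ := Finset.mem_image.1 hq
      show 0 < (if h : ∃ p : E.XX On R, cd p = x.1 then
        F.FL.qS RL H4 (twH (E.rho0 F.FL RL h.choose.1) (lrp F.FL x.2.1 x.2.2)) else 1)
      split_ifs with h
      · exact xlm_qS_pos _ _ _
      · exact one_pos
    · intro p
      unfold QX.thX QX.NtX
      rw [← Finset.mul_sum, xlm_sum _ _ (hQ p)]
      have hT : (Fintype.card F.FL.sys.T : ℝ) = 2 ^ F.FL.sys.m := by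
        have h3 : Fintype.card F.FL.sys.T = 2 ^ F.FL.sys.m := by
          rw [Fintype.card_fun, ZMod.card, Fintype.card_fin]
        rw [h3, Nat.cast_pow, Nat.cast_ofNat]
      rw [hT]
      have h2 : (2 : ℝ) ^ F.FL.sys.m ≠ 0 := by positivity
      field_simp

end

end Pool.Agent.H32.MQ
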