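import Pool.Agent.H32.MQ.XStm
import Pool.Agent.H98.MF.LhTauK
import Pool.Agent.H98.MF.HomParamK0

/-!
# Malle's conjecture for 8T28 and 8T29 over number fields, block X: twists are onto, normalised
homomorphisms exist
-/

set_option autoImplicit false

open scoped BigOperators
open NumberField IsDedekindDomain

namespace Pool.Agent.H32.MQ

open Pool.Agent.H98.MF
open Pool.Agent.H98.ML (Dt Ext norb hind)

section

variable {L : Type} [Field L] [NumberField L]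

theorem xnrm_lc (ρ : Gm L →* Ext D4) (hρ : IsLocallyConstant ρ) (b : Lˣ) :
    IsLocallyConstant (twH ρ b) :=
  IsLocallyConstant.comp₂ hρ (chiM_lc (b : L))
    (fun (g : Ext D4) (c : ZMod 2) => (⟨g.v, g.z + fun _ => c⟩ : Ext D4))

theorem xnrm_c0 (ρ : Gm L →* Ext D4) (b : Lˣ) (σ : Gm L) : c0 (twH ρ b σ) = c0 (ρ σ) := rfl

theorem xnrm_c1 (ρ : Gm L →* Ext D4) (b : Lˣ) (σ : Gm L) : c1 (twH ρ b σ) = c1 (ρ σ) := rfl

theorem xnrm_cz (ρ : Gm L →* Ext D4) (b : Lˣ) (σ : Gm L) :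
    cz (twH ρ b σ) = cz (ρ σ) + chi (b : L) σ := rfl

theorem xnrm_v (ρ : Gm L →* Ext D4) (b : Lˣ) (σ : Gm L) : (twH ρ b σ).v = (ρ σ).v := rfl

/-- the character of a representative at a tame generator -/
theorem xnrm_tau (FL : Frm L) (RL : Rx L) (b : El FL.sys) (Q : FL.sys.P) [Decidable (Q ∈ b.2)] :
    chi (rep FL b : L) (RL.tau (FL.pl Q)) = if Q ∈ b.2 then 1 else 0 := by
  classical
  rw [RL.chi (FL.pl Q) (hb_two FL Q) (rep FL b), h_repO FL b Q]
  by_cases h : Q ∈ b.2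
  · rw [if_pos h, if_pos h]
    rfl
  · rw [if_neg h, if_neg h]
    rfl

end

/-- twists are onto -/
theorem stSurT (L : Type) [Field L] [NumberField L] : StSurT L := by
  intro ρ b hρ
  rw [← MonoidHom.range_eq_top]
  refine Pool.Agent.H98.ML.l1_top _ fun v => ?_
  obtain ⟨σ, hσ⟩ := hρ ⟨v, 0⟩
  refine ⟨(twH ρ b σ).z, ⟨σ, ?_⟩⟩
  apply Ext.ext
  · rw [xnrm_v, hσ]
  · rfl

/-- normalised homomorphisms exist -/
theorem stNrX {k : Type} [Field k] [NumberField k] {L : Type} [Field L] [NumberField L]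
    [Algebra k L] (E : QX k L) (F : FrP k L) (RL : Rx L) (hE : StEmb L) : StNrX E F RL := by
  classical
  intro On R p
  have h : ∃ ρ, E.Nrml F.FL RL p.1 ρ := by
    obtain ⟨ρ1, h1, h2, h3⟩ := hE (HX.out p.1.1)
      (E.δ * Units.map (algebraMap k L : k →* L) (HX.out p.1.2)) fun v => p.2.sol v
    have hfin : {Q : F.FL.sys.P | cz (ρ1 (RL.tau (F.FL.pl Q))) = 1}.Finite := by
      refine (F.FL.tau_finite RL ρ1 h1).subset fun Q hQ h0 => ?_
      have hQ1 : cz (ρ1 (RL.tau (F.FL.pl Q))) = 1 := hQ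
      rw [h0] at hQ1
      exact absurd hQ1 (show (0 : ZMod 2) ≠ 1 by decide)
    refine ⟨twH ρ1 (rep F.FL (0, hfin.toFinset)), ⟨xnrm_lc ρ1 h1 _, fun σ => ?_, fun σ => ?_⟩,
      fun Q => ?_⟩
    · rw [xnrm_c0, h2]
    · rw [xnrm_c1, h3]
      rfl
    · rw [xnrm_cz, xnrm_tau]
      have h4 : Q ∈ hfin.toFinset ↔ cz (ρ1 (RL.tau (F.FL.pl Q))) = 1 := by
        rw [Set.Finite.mem_toFinset]
        rfl
      have h5 : ∀ c : ZMod 2, c = 0 ∨ c = 1 := by decide
      by_cases h6 : Q ∈ hfin.toFinset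
      · rw [if_pos h6, h4.1 h6]
        decide
      · rw [if_neg h6, add_zero]
        exact (h5 _).resolve_right fun h7 => h6 (h4.2 h7)
  unfold QX.rho0
  rw [dif_pos h]
  exact h.choose_spec

end Pool.Agent.H32.MQ
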