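import Pool.Agent.H32.MQ.XStm

/-!
# Malle's conjecture for 8T28 and 8T29 over number fields, block X: the objects in terms of the
factors
-/

set_option autoImplicit false

open scoped BigOperators Topology
open NumberField IsDedekindDomain Filter

namespace Pool.Agent.H32.MQ

open Pool.Agent.H98.MF

/-! ### local classes -/

theorem xob_grp {G : Type} [CommGroup G] {x r l y z : G} (h : x * r = z * z) :
    x * (l * y ^ 2) = (z * y * r⁻¹) ^ 2 * (r * l) := by
  have h1 : x = z * z * r⁻¹ := by rw [← h, mul_inv_cancel_right]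
  have h2 : (z * y * r⁻¹) ^ 2 * (r * l) = z * y * r⁻¹ * (z * y) * l * (r⁻¹ * r) := by
    rw [pow_two]
    simp only [mul_assoc, mul_left_comm, mul_comm]
  rw [h2, inv_mul_cancel, mul_one, h1, pow_two]
  simp only [mul_assoc, mul_left_comm, mul_comm]

theorem xob_lrp {k : Type} [Field k] [NumberField k] (Fr : Frm k) {v : Pl k}
    (hv : v ∈ pls Fr.S) (x : kˣ) :
    x * HX.out ((lrp Fr (co Fr x).1 (Fr.sys.tys (co Fr x).2) : kˣ) : HX.GX k) ∈ LS v := by
  obtain ⟨y, hy⟩ := HX.out_mk (lrp Fr (co Fr x).1 (Fr.sys.tys (co Fr x).2))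
  obtain ⟨z, hz⟩ := h_co Fr x
  rw [hy, xob_grp hz]
  exact mul_mem (B.sq_mem_LS v _) (rep_lrp Fr hv (co Fr x))

theorem xob_par {L : Type} [Field L] [NumberField L] {Q : HeightOneSpectrum (𝓞 L)} {a b : Lˣ}
    (h : a * b ∈ LS (Sum.inl Q : Pl L)) :
    ((ord Q (a : L) : ℤ) : ZMod 2) = ((ord Q (b : L) : ℤ) : ZMod 2) := by
  have h1 : LocSq Q ((a * b : Lˣ) : L) := ((B.lin L).memLS _ _).1 h
  obtain ⟨c, hc⟩ := h1.even
  rw [Units.val_mul, B.ord_mul Q a.ne_zero b.ne_zero] at hc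
  have h2 := congrArg (fun n : ℤ => (n : ZMod 2)) hc
  simp only [Int.cast_add] at h2
  rw [CharTwo.add_self_eq_zero] at h2
  exact CharTwo.add_eq_zero.1 h2

section

variable {k : Type} [Field k] [NumberField k] {L : Type} [Field L] [NumberField L]
  [Algebra k L] (E : QX k L) (F : FrP k L)

theorem xob_E1 (p : HX.GX L × HX.GX k) {v : Pl L} (hv : v ∈ pls F.FL.S) :
    HX.out p.1 * HX.out (F.pr (F.ca p) (F.ck p) (F.cc p) (F.cl p)).1 ∈ LS v :=
  xob_lrp F.FL hv (HX.out p.1)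

theorem xob_E2 (p : HX.GX L × HX.GX k) {v : Pl k} (hv : v ∈ pls F.Fr.S) :
    HX.out p.2 * HX.out (F.pr (F.ca p) (F.ck p) (F.cc p) (F.cl p)).2 ∈ LS v :=
  xob_lrp F.Fr hv (HX.out p.2)

theorem xob_del {p p' : HX.GX L × HX.GX k}
    (h : ∀ v ∈ pls F.Fr.S, HX.out p.2 * HX.out p'.2 ∈ LS v) {v : Pl L}
    (hv : v ∈ pls F.FL.S) :
    E.δ * Units.map (algebraMap k L : k →* L) (HX.out p.2) *
      (E.δ * Units.map (algebraMap k L : k →* L) (HX.out p'.2)) ∈ LS v := by
  rw [mul_mul_mul_comm, ← pow_two, ← map_mul]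
  refine mul_mem (B.sq_mem_LS v _) ?_
  rcases v with Q | φ
  · obtain ⟨P, hP, hPQ⟩ := (F.ov Q).1 (B.inl_mem_pls.1 hv)
    exact LS_map (P := P) hPQ (h _ (B.inl_mem_pls.2 hP))
  · exact LS_mapR φ (h _ (B.inr_mem_pls _ _))

theorem xob_vT {p p' : HX.GX L × HX.GX k} {Q : HeightOneSpectrum (𝓞 L)}
    (h1 : HX.out p.1 * HX.out p'.1 ∈ LS (Sum.inl Q : Pl L))
    (h2 : E.δ * Units.map (algebraMap k L : k →* L) (HX.out p.2) *
      (E.δ * Units.map (algebraMap k L : k →* L) (HX.out p'.2)) ∈ LS (Sum.inl Q : Pl L)) :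
    E.vT p Q = E.vT p' Q := by
  have h3 := xob_par h1
  have h4 := xob_par h2
  have h5 : ((ord Q ((E.δ : L) * algebraMap k L ((HX.out p.2 : kˣ) : k)) : ℤ) : ZMod 2) =
      ((ord Q ((E.δ : L) * algebraMap k L ((HX.out p'.2 : kˣ) : k)) : ℤ) : ZMod 2) := h4
  unfold QX.vT
  rw [h3, h5]

theorem xob_OT {p p' : HX.GX L × HX.GX k} {P : HeightOneSpectrum (𝓞 k)}
    (h : ∀ Q : HeightOneSpectrum (𝓞 L), Over P Q → E.vT p Q = E.vT p' Q) :
    E.OT p P ↔ E.OT p' P := by
  unfold QX.OT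
  refine and_congr (not_congr ?_) (and_congr (not_congr ?_) (not_congr ?_))
  · exact forall_congr' fun Q => forall_congr' fun hQ => by rw [h Q hQ]
  · exact forall_congr' fun Q => forall_congr' fun hQ => by rw [h Q hQ]
  · refine exists_congr fun Q => and_congr_right fun hQ => and_congr_right fun _ => ?_
    rw [h Q hQ, h _ (hQ.cj E.sig)]

theorem xob_SC (R : Finset (HeightOneSpectrum (𝓞 k))) {p p' : HX.GX L × HX.GX k}
    (h1 : ∀ v ∈ pls F.FL.S, HX.out p.1 * HX.out p'.1 ∈ LS v)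
    (h2 : ∀ v ∈ pls F.Fr.S, HX.out p.2 * HX.out p'.2 ∈ LS v) :
    E.SC F R p ↔ E.SC F R p' := by
  have hT : ∀ P ∈ F.Fr.S, (E.OT p P ↔ E.OT p' P) := by
    intro P hP
    refine xob_OT E fun Q hQ => ?_
    have hv : (Sum.inl Q : Pl L) ∈ pls F.FL.S :=
      B.inl_mem_pls.2 ((F.ov Q).2 ⟨P, hP, hQ⟩)
    exact xob_vT E (h1 _ hv) (xob_del E F h2 hv)
  unfold QX.SC
  refine and_congr ?_ ?_
  · refine forall_congr' fun P => forall_congr' fun hP => forall_congr' fun _ => ?_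
    rw [hT P hP]
  · refine forall_congr' fun v => forall_congr' fun hv => ?_
    have h3 := hv_congr (h1 v hv) (xob_del E F h2 hv)
    constructor
    · intro h4
      exact h3.symm.trans h4
    · intro h4
      exact h3.trans h4

variable (h : E.M ⊆ F.Fr.S)

theorem xob_ok (h2 : StTypY E F h) {On : Lˣ → kˣ → Prop}
    {R : Finset (HeightOneSpectrum (𝓞 k))} (hR : R ⊆ F.Fr.S) {p : HX.GX L × HX.GX k}
    (hp : E.XOk On R p) : (E.toY F.Fr h ∅).OkT p := by
  refine (h2 ∅ p).1.1 fun q _ hq => ?_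
  have h3 := hb_notMem F.Fr q
  exact h3 (hR ((hp.ty (F.Fr.pl q) fun h4 => h3 (h h4)).2 hq))

theorem xob_tc (R : Finset (HeightOneSpectrum (𝓞 k)))
    (θt : F.FL.sys.T → F.FL.sys.T → F.Fr.sys.T → F.Fr.sys.T → ℝ) (p : HX.GX L × HX.GX k) :
    (E.SC F R p → QX.tc F (E.sc4 F R θt) p = QX.tc F θt p) ∧
      (¬ E.SC F R p → QX.tc F (E.sc4 F R θt) p = 0) := by
  have hSC : E.SC F R p ↔ E.SC F R (F.pr (F.ca p) (F.ck p) (F.cc p) (F.cl p)) :=
    xob_SC E F R (fun v hv => xob_E1 F p hv) (fun v hv => xob_E2 F p hv)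
  constructor
  · intro h1
    exact if_pos (hSC.1 h1)
  · intro h1
    exact if_neg fun h3 => h1 (hSC.2 h3)

end

theorem stOb {k : Type} [Field k] [NumberField k] {L : Type} [Field L] [NumberField L]
    [Algebra k L] (E : QX k L) (F : FrP k L) (h : E.M ⊆ F.Fr.S)
    (h1 : StFac (E.toY F.Fr h ∅)) (h2 : StTypY E F h) : StOb E F h := by
  intro On R hR θ θt hθ p
  by_cases hp : E.XOk On R p
  · have hok := xob_ok E F h h2 hR hp
    rw [dif_pos hp, if_pos ⟨hok, hp.on⟩]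
    have h3 : QX.tc F (E.sc4 F R θt) p = θ ⟨p, hp⟩ := by
      rw [(xob_tc E F R θt p).1 ⟨fun P _ hP => hp.ty P hP, fun v _ => hp.sol v⟩]
      exact hθ ⟨p, hp⟩
    have h4 := (h1 p hok).1 fun Q _ => hp.sol (Sum.inl Q)
    rw [h3, h4, ((h2 ∅ p).2 hok).1,
      Finset.filter_true_of_mem fun Q _ => Finset.notMem_empty _]
  · rw [dif_neg hp]
    by_cases h3 : (E.toY F.Fr h ∅).OkT p ∧ On (HX.out p.1) (HX.out p.2)
    · rw [if_pos h3]
      by_cases h4 : (E.toY F.Fr h ∅).SolO p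
      · rw [(xob_tc E F R θt p).2, zero_mul]
        intro h5
        apply hp
        refine ⟨fun P hP => ?_, fun v => ?_, h3.2⟩
        · by_cases hPS : P ∈ F.Fr.S
          · exact h5.1 P hPS hP
          · obtain ⟨q, rfl⟩ := (F.Fr.pl_iff P).2 hPS
            constructor
            · intro h6
              exact absurd (hR h6) hPS
            · intro h6
              exact absurd h6 ((h2 ∅ p).1.2 h3.1 q (Finset.notMem_empty q))
        · by_cases hv : v ∈ pls F.FL.S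
          · exact h5.2 v hv
          · rcases v with Q | φ
            · refine h4 Q ((qf_Out (E.toY F.Fr h ∅) F.FL F.ov rfl).2 fun h6 => ?_)
              exact hv (B.inl_mem_pls.2 h6)
            · exact absurd (B.inr_mem_pls _ _) hv
      · rw [(h1 p h3.1).2 h4, mul_zero]
    · rw [if_neg h3]

theorem stDX {k : Type} [Field k] [NumberField k] {L : Type} [Field L] [NumberField L]
    [Algebra k L] (E : QX k L) (F : FrP k L) (h : E.M ⊆ F.Fr.S) (h1 : StOb E F h)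
    (h2 : StTypY E F h) : StDX E F h := by
  classical
  intro On R hR θ θt hθ s
  have key : ∀ p : HX.GX L × HX.GX k,
      (if (E.toY F.Fr h ∅).OkT p ∧ On (HX.out p.1) (HX.out p.2) then
        QX.tc F (E.sc4 F R θt) p * (E.toY F.Fr h ∅).FacX p *
          ((E.toY F.Fr h ∅).nT p : ℝ) ^ (-s) else 0) =
      if hp : E.XOk On R p then
        θ ⟨p, hp⟩ * 2 ^ (E.ram F.FL p).card * (E.nP F p : ℝ) ^ (-s) else 0 := by
    intro p
    have h3 := h1 On R hR θ θt hθ p
    by_cases hp : E.XOk On R p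
    · have hok := xob_ok E F h h2 hR hp
      rw [dif_pos hp, if_pos ⟨hok, hp.on⟩] at h3
      rw [dif_pos hp, if_pos ⟨hok, hp.on⟩, h3, ((h2 ∅ p).2 hok).2, Finset.sdiff_empty]
      rfl
    · rw [dif_neg hp] at h3
      rw [dif_neg hp]
      by_cases h4 : (E.toY F.Fr h ∅).OkT p ∧ On (HX.out p.1) (HX.out p.2)
      · rw [if_pos h4] at h3
        rw [if_pos h4, h3, zero_mul]
      · rw [if_neg h4]
  have h5 := (Subtype.val_injective (p := fun p : HX.GX L × HX.GX k => E.XOk On R p)).tsum_eq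
    (f := fun p : HX.GX L × HX.GX k => if hp : E.XOk On R p then
      θ ⟨p, hp⟩ * 2 ^ (E.ram F.FL p).card * (E.nP F p : ℝ) ^ (-s) else 0) (fun p hp => by
        by_contra h6
        apply hp
        exact dif_neg fun h7 => h6 ⟨⟨p, h7⟩, rfl⟩)
  refine Eq.trans ?_ (Eq.trans h5 (tsum_congr fun p => (key p).symm))
  unfold QX.DX
  refine tsum_congr fun p => ?_
  have h6 : E.XOk On R p.1 := p.2
  simp only [h6, dif_pos]

end Pool.Agent.H32.MQ
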