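import Pool.Agent.H32.MQ.XStm
import Pool.Agent.H98.MF.ParK

/-!
# Malle's conjecture for 8T28 and 8T29 over number fields, block X: all homomorphisms with given
characters are twists
-/

set_option autoImplicit false

open scoped BigOperators
open NumberField IsDedekindDomain

namespace Pool.Agent.H32.MQ

open Pool.Agent.H98.MF
open Pool.Agent.H98.MF.ParK (chu_mul isSquare_of_chu)
open Pool.Agent.H98.ML (Dt Ext norb hind)

section

variable {L : Type} [Field L] [NumberField L]

/-- characters of elements that differ by a square -/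
theorem xpa_chi {x y : Lˣ} (h : IsSquare (x * y)) (σ : Gm L) :
    chi (x : L) σ = chi (y : L) σ := by
  obtain ⟨w, hw⟩ := h
  have h1 := chu_mul x y σ
  rw [hw, chu_mul, CharTwo.add_self_eq_zero] at h1
  have h2 : chi (x : L) σ + chi (y : L) σ = 0 := h1.symm
  calc chi (x : L) σ = chi (x : L) σ + chi (y : L) σ + chi (y : L) σ := by
        rw [add_assoc, CharTwo.add_self_eq_zero, add_zero]
    _ = chi (y : L) σ := by rw [h2, zero_add]

theorem xpa_cz (ρ : Gm L →* Ext D4) (b : Lˣ) (σ : Gm L) :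
    cz (twH ρ b σ) = cz (ρ σ) + chi (b : L) σ := rfl

theorem xpa_v (ρ : Gm L →* Ext D4) (b : Lˣ) (σ : Gm L) :
    (twH ρ b σ).v = (ρ σ).v := rfl

theorem xpa_eq {ρ ρ' : Gm L →* Ext D4} {b : Lˣ} (hv : ∀ σ, (ρ' σ).v = (ρ σ).v)
    (hb : ∀ σ, cz (ρ' σ) = cz (ρ σ) + chi (b : L) σ) : ρ' = twH ρ b := by
  apply MonoidHom.ext
  intro σ
  apply Ext.ext
  · exact hv σ
  · funext i
    have hi : i = (0 : Fin 1) := Subsingleton.elim (α := Fin 1) _ _
    rw [hi]
    exact hb σ

end

/-- all homomorphisms with given characters are twists -/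
theorem stPa (L : Type) [Field L] [NumberField L] (hD : StDiff L) : StPa L := by
  intro FL ρ ρ' hl hl' hv
  obtain ⟨b, hb⟩ := hD ρ ρ' hl hl' fun σ => (hv σ).symm
  refine ⟨co FL b, ?_, ?_⟩
  · apply xpa_eq hv
    intro σ
    rw [hb σ, xpa_chi (h_co FL b) σ]
  · intro c hc
    apply h_coU FL
    apply isSquare_of_chu
    intro σ
    have h1 : cz (ρ' σ) = cz (ρ σ) + chi ((rep FL c : Lˣ) : L) σ := by
      rw [hc, xpa_cz]
    rw [hb σ, xpa_chi (h_co FL b) σ] at h1
    have h2 := add_left_cancel h1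
    rw [chu_mul, ← h2, CharTwo.add_self_eq_zero]

end Pool.Agent.H32.MQ
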