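import Pool.Agent.H32.MQ.XStm
import Pool.Agent.H32.MQ.EQ1

/-!
# Malle's conjecture for 8T28 and 8T29 over number fields, block X: summability of the bounds
-/

set_option autoImplicit false

open scoped BigOperators
open NumberField IsDedekindDomain

namespace Pool.Agent.H32.MQ

open Pool.Agent.H98.MK (sg)
open Pool.Agent.H98.MF

/-- the bound of one factor -/
theorem xrho_h (N : ℕ) (h : 2 ≤ N) :
    0 ≤ (1 - (N : ℝ) ^ (-(1 / 2) : ℝ))⁻¹ - 1 ∧
      (1 - (N : ℝ) ^ (-(1 / 2) : ℝ))⁻¹ - 1 ≤ 4 * (N : ℝ) ^ (-(1 / 2) : ℝ) := by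
  have hN : (2 : ℝ) ≤ N := by exact_mod_cast h
  have hN0 : (0 : ℝ) < N := by linarith
  set x : ℝ := (N : ℝ) ^ (-(1 / 2) : ℝ) with hx
  have hx0 : 0 < x := Real.rpow_pos_of_pos hN0 _
  have hx2 : x * x = (N : ℝ)⁻¹ := by
    rw [hx, ← Real.rpow_add hN0, ← Real.rpow_neg_one]
    norm_num
  have hx3 : x * x ≤ 1 / 2 := by
    rw [hx2, ← one_div]
    exact one_div_le_one_div_of_le (by norm_num) hN
  have hx4 : x ≤ 3 / 4 := by nlinarith
  have hx5 : 0 < 1 - x := by linarith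
  have e : (1 - x)⁻¹ - 1 = x / (1 - x) := by
    field_simp
    ring
  rw [e]
  constructor
  · positivity
  · rw [div_le_iff₀ hx5]
    nlinarith

theorem xrho_le_one (N : ℕ) (h : 2 ≤ N) :
    (1 - (N : ℝ) ^ (-(1 / 2) : ℝ))⁻¹ - 1 ≤ 4 := by
  refine (xrho_h N h).2.trans ?_
  have hN : (1 : ℝ) ≤ N := by
    have : 1 ≤ N := by omega
    exact_mod_cast this
  have : (N : ℝ) ^ (-(1 / 2) : ℝ) ≤ 1 := Real.rpow_le_one_of_one_le_of_nonpos hN (by norm_num)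
  linarith

section

variable {k : Type} [Field k] [NumberField k] {L : Type} [Field L] [NumberField L]
  [Algebra k L] (E : QX k L) (F : FrP k L)

theorem xrho_bel {Q : F.FL.sys.P} {q : F.Fr.sys.P} :
    F.bel Q = q ↔ Q ∈ up F.FL F.Fr q := by
  rw [mem_up]
  constructor
  · rintro rfl
    exact F.bel_over Q
  · intro h
    exact HX.over_inj (F.bel_over Q) h

include E in
theorem xrho_up (q : F.Fr.sys.P) : (up F.FL F.Fr q).card ≤ 2 := by
  classical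
  rcases (up F.FL F.Fr q).eq_empty_or_nonempty with h | ⟨Q, hQ⟩
  · rw [h, Finset.card_empty]
    exact Nat.zero_le _
  · rw [← Finset.card_image_of_injective _ F.FL.pl_inj]
    have h1 : (up F.FL F.Fr q).image F.FL.pl ⊆ {F.FL.pl Q, cj E.sig (F.FL.pl Q)} := by
      intro R hR
      obtain ⟨Q', hQ', rfl⟩ := Finset.mem_image.1 hR
      rw [mem_up] at hQ hQ'
      rcases Pool.Agent.H98.MF.B.qe_over E.qe E.sig
        (Pool.Agent.H98.MF.B.qe_conj E.qe).choose_spec.1 hQ hQ' with h | h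
      · rw [h]
        exact Finset.mem_insert_self _ _
      · rw [h]
        exact Finset.mem_insert_of_mem (Finset.mem_singleton_self _)
    exact (Finset.card_le_card h1).trans Finset.card_le_two

theorem xrho_N (Q : F.FL.sys.P) : F.Fr.sys.N (F.bel Q) ≤ F.FL.sys.N Q := by
  have h1 := over_absNorm (F.bel_over Q)
  have h2 := F.FL.sys.two_le Q
  rw [F.FL.N_eq] at h2 ⊢
  rw [F.Fr.N_eq]
  unfold nrm at h2 ⊢
  rw [h1] at h2 ⊢
  refine Nat.le_self_pow ?_ _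
  intro h0
  rw [h0, pow_zero] at h2
  omega

include E in
/-- the factors above one prime -/
theorem xrho_fib (r : Finset F.FL.sys.P) (q : F.Fr.sys.P) (hq : q ∈ F.sh r) :
    ∏ Q ∈ r.filter (fun Q => F.bel Q = q),
      ((1 - (F.FL.sys.N Q : ℝ) ^ (-(1 / 2) : ℝ))⁻¹ - 1) ≤
        16 * (F.Fr.sys.N q : ℝ) ^ (-(1 / 2) : ℝ) := by
  classical
  obtain ⟨Q, hQ, hQq⟩ := Finset.mem_image.1 hq
  have hm : Q ∈ r.filter (fun Q => F.bel Q = q) := Finset.mem_filter.2 ⟨hQ, hQq⟩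
  rw [← Finset.mul_prod_erase _ _ hm]
  have hN := F.FL.sys.two_le Q
  have hn := F.Fr.sys.two_le q
  have hn' : (0 : ℝ) < F.Fr.sys.N q := by
    have : 0 < F.Fr.sys.N q := by omega
    exact_mod_cast this
  have h1 := (xrho_h _ hN)
  have h2 : (F.FL.sys.N Q : ℝ) ^ (-(1 / 2) : ℝ) ≤ (F.Fr.sys.N q : ℝ) ^ (-(1 / 2) : ℝ) := by
    refine Real.rpow_le_rpow_of_nonpos hn' ?_ (by norm_num)
    have := xrho_N F Q
    rw [hQq] at this
    exact_mod_cast this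
  have h3 : ∏ Q ∈ (r.filter (fun Q => F.bel Q = q)).erase Q,
      ((1 - (F.FL.sys.N Q : ℝ) ^ (-(1 / 2) : ℝ))⁻¹ - 1) ≤
      ∏ Q ∈ (r.filter (fun Q => F.bel Q = q)).erase Q, (4 : ℝ) :=
    Finset.prod_le_prod (fun i _ => (xrho_h _ (F.FL.sys.two_le i)).1)
      (fun i _ => xrho_le_one _ (F.FL.sys.two_le i))
  rw [Finset.prod_const] at h3
  have h4 : ((r.filter (fun Q => F.bel Q = q)).erase Q).card ≤ 1 := by
    rw [Finset.card_erase_of_mem hm]
    have h5 : (r.filter (fun Q => F.bel Q = q)).card ≤ 2 := by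
      refine (Finset.card_le_card ?_).trans (xrho_up E F q)
      intro R hR
      exact (xrho_bel F).1 (Finset.mem_filter.1 hR).2
    omega
  have h5 : (4 : ℝ) ^ ((r.filter (fun Q => F.bel Q = q)).erase Q).card ≤ 4 := by
    calc (4 : ℝ) ^ ((r.filter (fun Q => F.bel Q = q)).erase Q).card ≤ 4 ^ 1 :=
          pow_le_pow_right₀ (by norm_num) h4
      _ = 4 := pow_one _
  have h6 : 0 ≤ ∏ Q ∈ (r.filter (fun Q => F.bel Q = q)).erase Q,
      ((1 - (F.FL.sys.N Q : ℝ) ^ (-(1 / 2) : ℝ))⁻¹ - 1) :=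
    Finset.prod_nonneg fun i _ => (xrho_h _ (F.FL.sys.two_le i)).1
  have h7 : 0 < (F.Fr.sys.N q : ℝ) ^ (-(1 / 2) : ℝ) := Real.rpow_pos_of_pos hn' _
  calc _ ≤ (4 * (F.Fr.sys.N q : ℝ) ^ (-(1 / 2) : ℝ)) * 4 := by
        refine mul_le_mul ?_ (h3.trans h5) h6 (by positivity)
        refine h1.2.trans ?_
        linarith
    _ = 16 * (F.Fr.sys.N q : ℝ) ^ (-(1 / 2) : ℝ) := by ring

include E in
/-- the bound of one term -/
theorem xrho_term (r : Finset F.FL.sys.P) :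
    hp r * (F.Fr.sys.nm (F.sh r) : ℝ) ^ (-(3 / 4) : ℝ) ≤
      ∏ q ∈ F.sh r, 16 * (F.Fr.sys.N q : ℝ) ^ (-(5 / 4) : ℝ) := by
  classical
  have h1 : hp r = ∏ q ∈ F.sh r, ∏ Q ∈ r.filter (fun Q => F.bel Q = q),
      ((1 - (F.FL.sys.N Q : ℝ) ^ (-(1 / 2) : ℝ))⁻¹ - 1) := by
    unfold hp
    exact (Finset.prod_fiberwise_of_maps_to (fun Q hQ => Finset.mem_image_of_mem _ hQ) _).symm
  have h2 : (F.Fr.sys.nm (F.sh r) : ℝ) ^ (-(3 / 4) : ℝ) =
      ∏ q ∈ F.sh r, (F.Fr.sys.N q : ℝ) ^ (-(3 / 4) : ℝ) :=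
    eq1_nm_rpow F.Fr.sys.toPre (F.sh r) _
  rw [h1, h2, ← Finset.prod_mul_distrib]
  refine Finset.prod_le_prod (fun q _ => ?_) (fun q hq => ?_)
  · refine mul_nonneg (Finset.prod_nonneg fun i _ => (xrho_h _ (F.FL.sys.two_le i)).1) ?_
    exact Real.rpow_nonneg (Nat.cast_nonneg _) _
  · have hn := F.Fr.sys.two_le q
    have hn' : (0 : ℝ) < F.Fr.sys.N q := by
      have : 0 < F.Fr.sys.N q := by omega
      exact_mod_cast this
    calc _ ≤ (16 * (F.Fr.sys.N q : ℝ) ^ (-(1 / 2) : ℝ)) *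
          (F.Fr.sys.N q : ℝ) ^ (-(3 / 4) : ℝ) :=
          mul_le_mul_of_nonneg_right (xrho_fib E F r q hq) (Real.rpow_nonneg hn'.le _)
      _ = 16 * (F.Fr.sys.N q : ℝ) ^ (-(5 / 4) : ℝ) := by
          rw [mul_assoc, ← Real.rpow_add hn']
          norm_num

include E in
/-- the number of sets above a given set -/
theorem xrho_card (u : Finset (Finset F.FL.sys.P)) (y : Finset F.Fr.sys.P) :
    ((u.filter fun r => F.sh r = y).card : ℝ) ≤ 4 ^ y.card := by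
  classical
  have h1 : (u.filter fun r => F.sh r = y) ⊆ (y.biUnion fun q => up F.FL F.Fr q).powerset := by
    intro r hr
    rw [Finset.mem_powerset]
    intro Q hQ
    rw [Finset.mem_biUnion]
    refine ⟨F.bel Q, ?_, (xrho_bel F).1 rfl⟩
    rw [← (Finset.mem_filter.1 hr).2]
    exact Finset.mem_image_of_mem _ hQ
  have h2 := Finset.card_le_card h1
  rw [Finset.card_powerset] at h2
  have h3 : (y.biUnion fun q => up F.FL F.Fr q).card ≤ y.card * 2 :=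
    Finset.card_biUnion_le_card_mul _ _ _ fun q _ => xrho_up E F q
  have h4 : (u.filter fun r => F.sh r = y).card ≤ 4 ^ y.card := by
    refine h2.trans ((Nat.pow_le_pow_right (by norm_num) h3).trans (le_of_eq ?_))
    rw [mul_comm, pow_mul]
    norm_num
  exact_mod_cast h4

end

theorem stRho {k : Type} [Field k] [NumberField k] {L : Type} [Field L] [NumberField L]
    [Algebra k L] (E : QX k L) (F : FrP k L) : StRho F := by
  classical
  have h1 : Summable fun q : F.Fr.sys.P => ‖64 * (F.Fr.sys.N q : ℝ) ^ (-(5 / 4) : ℝ)‖ :=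
    ((summable_N F.Fr.sys (5 / 4) (by norm_num)).mul_left 64).norm
  have h2 := summable_finsetProd_of_summable_norm h1
  have hG0 : ∀ y : Finset F.Fr.sys.P,
      0 ≤ ∏ q ∈ y, 64 * (F.Fr.sys.N q : ℝ) ^ (-(5 / 4) : ℝ) := fun y =>
    Finset.prod_nonneg fun q _ => by positivity
  refine summable_of_sum_le (c := ∑' y : Finset F.Fr.sys.P,
    ∏ q ∈ y, 64 * (F.Fr.sys.N q : ℝ) ^ (-(5 / 4) : ℝ)) (fun r => ?_) (fun u => ?_)
  · refine mul_nonneg (Finset.prod_nonneg fun i _ => (xrho_h _ (F.FL.sys.two_le i)).1) ?_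
    exact Real.rpow_nonneg (Nat.cast_nonneg _) _
  · have h3 : ∑ r ∈ u, hp r * (F.Fr.sys.nm (F.sh r) : ℝ) ^ (-(3 / 4) : ℝ) ≤
        ∑ r ∈ u, ∏ q ∈ F.sh r, 16 * (F.Fr.sys.N q : ℝ) ^ (-(5 / 4) : ℝ) :=
      Finset.sum_le_sum fun r _ => xrho_term E F r
    have h4 : ∑ r ∈ u, ∏ q ∈ F.sh r, 16 * (F.Fr.sys.N q : ℝ) ^ (-(5 / 4) : ℝ) =
        ∑ y ∈ u.image F.sh, ∑ r ∈ u.filter (fun r => F.sh r = y),
          ∏ q ∈ F.sh r, 16 * (F.Fr.sys.N q : ℝ) ^ (-(5 / 4) : ℝ) :=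
      (Finset.sum_fiberwise_of_maps_to (fun r hr => Finset.mem_image_of_mem _ hr) _).symm
    have h5 : ∀ y ∈ u.image F.sh, ∑ r ∈ u.filter (fun r => F.sh r = y),
          ∏ q ∈ F.sh r, 16 * (F.Fr.sys.N q : ℝ) ^ (-(5 / 4) : ℝ) ≤
        ∏ q ∈ y, 64 * (F.Fr.sys.N q : ℝ) ^ (-(5 / 4) : ℝ) := by
      intro y _
      have e1 : ∑ r ∈ u.filter (fun r => F.sh r = y),
          ∏ q ∈ F.sh r, 16 * (F.Fr.sys.N q : ℝ) ^ (-(5 / 4) : ℝ) =
          ((u.filter fun r => F.sh r = y).card : ℝ) *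
            ∏ q ∈ y, 16 * (F.Fr.sys.N q : ℝ) ^ (-(5 / 4) : ℝ) := by
        rw [← nsmul_eq_mul, ← Finset.sum_const]
        refine Finset.sum_congr rfl fun r hr => ?_
        rw [(Finset.mem_filter.1 hr).2]
      rw [e1]
      have e2 : ∏ q ∈ y, 64 * (F.Fr.sys.N q : ℝ) ^ (-(5 / 4) : ℝ) =
          4 ^ y.card * ∏ q ∈ y, 16 * (F.Fr.sys.N q : ℝ) ^ (-(5 / 4) : ℝ) := by
        rw [← Finset.prod_const, ← Finset.prod_mul_distrib]
        refine Finset.prod_congr rfl fun q _ => ?_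
        ring
      rw [e2]
      exact mul_le_mul_of_nonneg_right (xrho_card E F u y)
        (Finset.prod_nonneg fun q _ => by positivity)
    calc _ ≤ _ := h3
      _ = _ := h4
      _ ≤ ∑ y ∈ u.image F.sh, ∏ q ∈ y, 64 * (F.Fr.sys.N q : ℝ) ^ (-(5 / 4) : ℝ) :=
          Finset.sum_le_sum h5
      _ ≤ _ := h2.sum_le_tsum _ fun y _ => hG0 y

end Pool.Agent.H32.MQ
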