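import Pool.Agent.H32.MQ.XStm
import Pool.Agent.H32.MQ.APar
import Pool.Agent.H98.MF.L.ChiB

/-!
# Malle's conjecture for 8T28 and 8T29 over number fields, block X: two objects for every
homomorphism (row X18)
-/

set_option autoImplicit false

open scoped BigOperators
open NumberField IsDedekindDomain

namespace Pool.Agent.H32.MQ

open Pool.Agent.H98.MK (sg)
open Pool.Agent.H98.MF
open Pool.Agent.H98.ML (Dt Ext norb hind)

section

variable {L : Type} [Field L] [NumberField L]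

/-- a unit that is a square in the field is a square of a unit -/
theorem xtwo_unit {F : Type} [Field F] {x : Fˣ} (h : IsSquare (x : F)) : IsSquare x := by
  obtain ⟨c, hc⟩ := h
  have hc0 : c ≠ 0 := by
    rintro rfl
    exact x.ne_zero (by rw [hc, mul_zero])
  exact ⟨Units.mk0 c hc0, Units.ext hc⟩

/-- characters determine classes -/
theorem xtwo_faithful {x y : Lˣ} (h : ∀ σ : Gm L, chi (x : L) σ = chi (y : L) σ) :
    IsSquare (x * y) := by
  apply xtwo_unit
  apply Pool.Agent.H98.MF.chi_isSquare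
  intro σ
  rw [Pool.Agent.H98.MF.M6a.chi_mul, h σ]
  exact CharTwo.add_self_eq_zero _

end

section

variable {k : Type} [Field k] [NumberField k] {L : Type} [Field L] [NumberField L] [Algebra k L]
  (E : QX k L)

/-- elements of the base field that become squares -/
theorem xtwo_quad {x : kˣ} (h : IsSquare (algebraMap k L (x : k))) :
    IsSquare x ∨ IsSquare (x * E.a) := by
  obtain ⟨z, hz⟩ := h
  have hns := Pool.Agent.H98.MF.B.qe_ns E.qe
  obtain ⟨u, v, huv⟩ := qx_repr E.qe.sq hns E.qe.deg z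
  have h1 : algebraMap k L (2 * u * v) * E.α =
      algebraMap k L ((x : k) - u ^ 2 - v ^ 2 * (E.a : k)) := by
    have h2 := E.qe.sq
    rw [huv] at hz
    simp only [map_sub, map_mul, map_pow, map_ofNat]
    linear_combination -hz - (algebraMap k L v) ^ 2 * h2
  have h3 : 2 * u * v = 0 := by
    by_contra h0
    apply qx_not_range E.qe.sq hns (((x : k) - u ^ 2 - v ^ 2 * (E.a : k)) / (2 * u * v))
    have h4 : algebraMap k L (2 * u * v) ≠ 0 := by
      rw [Ne, map_eq_zero]
      exact h0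
    rw [map_div₀, ← h1, mul_div_cancel_left₀ _ h4]
  have h5 : (x : k) - u ^ 2 - v ^ 2 * (E.a : k) = 0 := by
    rw [h3, map_zero, zero_mul] at h1
    exact (map_eq_zero (algebraMap k L)).1 h1.symm
  rcases mul_eq_zero.1 h3 with h6 | h6
  · have hu : u = 0 := by
      rcases mul_eq_zero.1 h6 with h7 | h7
      · exact absurd h7 two_ne_zero
      · exact h7
    right
    apply xtwo_unit
    refine ⟨v * (E.a : k), ?_⟩
    rw [Units.val_mul]
    rw [hu] at h5
    linear_combination (E.a : k) * h5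
  · left
    apply xtwo_unit
    refine ⟨u, ?_⟩
    rw [h6] at h5
    linear_combination h5

/-- the element `δ t` as a unit -/
noncomputable def xtwoD (t : kˣ) : Lˣ := E.δ * Units.map (algebraMap k L : k →* L) t

theorem xtwoD_val (t : kˣ) : (xtwoD E t : L) = (E.δ : L) * algebraMap k L (t : k) := rfl

theorem xtwoD_mul (t t' : kˣ) : xtwoD E t * xtwoD E t' =
    E.δ * E.δ * Units.map (algebraMap k L : k →* L) (t * t') := by
  unfold xtwoD
  rw [map_mul]
  simp only [mul_assoc, mul_left_comm]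

theorem xtwoD_sq {t t' : kˣ} (h : IsSquare (t * t')) : IsSquare (xtwoD E t * xtwoD E t') := by
  obtain ⟨c, hc⟩ := h
  refine ⟨E.δ * Units.map (algebraMap k L : k →* L) c, ?_⟩
  rw [xtwoD_mul, hc, map_mul]
  simp only [mul_assoc, mul_left_comm]

/-- `a` is a square in the extension -/
theorem xtwo_a : IsSquare (Units.map (algebraMap k L : k →* L) E.a) := by
  apply xtwo_unit
  refine ⟨E.α, ?_⟩
  show algebraMap k L (E.a : k) = E.α * E.α
  rw [← E.qe.sq, pow_two]

theorem xtwoD_a (t : kˣ) : IsSquare (xtwoD E t * xtwoD E (t * E.a)) := by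
  obtain ⟨c, hc⟩ := xtwo_a E
  refine ⟨E.δ * Units.map (algebraMap k L : k →* L) t * c, ?_⟩
  rw [xtwoD_mul, map_mul, map_mul, hc]
  simp only [mul_assoc, mul_left_comm]

/-- changing the classes -/
theorem xtwo_hm {ρ : Gm L →* Ext D4} {γ γ' : Lˣ} {t t' : kˣ} (h : E.Hm ρ γ t)
    (h1 : IsSquare (γ * γ')) (h2 : IsSquare (xtwoD E t * xtwoD E t')) : E.Hm ρ γ' t' where
  lc := h.lc
  gam := fun σ => (h.gam σ).trans (apar_chi h1 σ)
  del := fun σ => (h.del σ).trans (apar_chi h2 σ)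

theorem xtwo_ord {P : HeightOneSpectrum (𝓞 k)} (hP : P ∉ E.M) {Q : HeightOneSpectrum (𝓞 L)}
    (hQ : Over P Q) : ord Q (2 : L) = 0 := by
  have h1 : ord P (2 : k) = 0 := by
    have h2 := ord_int_nonneg P (2 : 𝓞 k)
    have e : ((2 : 𝓞 k) : k) = 2 := map_ofNat (algebraMap (𝓞 k) k) 2
    rw [e] at h2
    by_contra h3
    exact hP (E.two P (lt_of_le_of_ne h2 (Ne.symm h3)))
  have h2 := hQ.ord_map (2 : k)
  rw [map_ofNat, h1, mul_zero] at h2
  exact h2

/-- the vectors of the tame generators -/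
theorem xtwo_vv (RL : Rx L) {ρ : Gm L →* Ext D4} {p : HX.GX L × HX.GX k}
    (h : E.Hm ρ (HX.out p.1) (HX.out p.2)) {P : HeightOneSpectrum (𝓞 k)} (hP : P ∉ E.M)
    {Q : HeightOneSpectrum (𝓞 L)} (hQ : Over P Q) : QX.vv RL ρ Q = E.vT p Q := by
  have h2 := xtwo_ord E hP hQ
  funext i
  fin_cases i
  · show c0 (ρ (RL.tau Q)) = _
    rw [h.gam]
    exact RL.chi Q h2 (HX.out p.1)
  · show c1 (ρ (RL.tau Q)) = _
    rw [h.del]
    exact RL.chi Q h2 (xtwoD E (HX.out p.2))

/-- the exceptional types -/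
theorem xtwo_oth (RL : Rx L) {ρ : Gm L →* Ext D4} {p : HX.GX L × HX.GX k}
    (h : E.Hm ρ (HX.out p.1) (HX.out p.2)) {P : HeightOneSpectrum (𝓞 k)} (hP : P ∉ E.M) :
    E.Oth RL ρ P ↔ E.OT p P := by
  have h1 : QX.TN RL ρ P ↔ ∀ Q : HeightOneSpectrum (𝓞 L), Over P Q → E.vT p Q = 0 := by
    refine forall_congr' fun Q => forall_congr' fun hQ => ?_
    rw [xtwo_vv E RL h hP hQ]
  have h2 : QX.TQ RL ρ P ↔ ∀ Q : HeightOneSpectrum (𝓞 L), Over P Q → E.vT p Q = ![0, 1] := by
    refine forall_congr' fun Q => forall_congr' fun hQ => ?_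
    rw [xtwo_vv E RL h hP hQ]
  have h3 : E.TG RL ρ P ↔ ∃ Q : HeightOneSpectrum (𝓞 L), Over P Q ∧ cj E.sig Q ≠ Q ∧
      E.vT p Q = ![1, 0] ∧ E.vT p (cj E.sig Q) = 0 := by
    constructor
    · rintro ⟨Q, hQ, hc, ha, hb⟩
      exact ⟨Q, hQ, hc, by rw [← xtwo_vv E RL h hP hQ]; exact ha,
        by rw [← xtwo_vv E RL h hP (hQ.cj E.sig)]; exact hb⟩
    · rintro ⟨Q, hQ, hc, ha, hb⟩
      exact ⟨Q, hQ, hc, by rw [xtwo_vv E RL h hP hQ]; exact ha,
        by rw [xtwo_vv E RL h hP (hQ.cj E.sig)]; exact hb⟩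
  unfold QX.Oth QX.OT
  rw [h1, h2, h3]

/-- the object of a homomorphism with a choice of `t` -/
theorem xtwo_obj (RL : Rx L) (hZ : StHvZ L) {On : Lˣ → kˣ → Prop}
    {R : Finset (HeightOneSpectrum (𝓞 k))} (hOn : E.OnOk On) {ρ : Gm L →* Ext D4} {γ : Lˣ}
    {t : kˣ} (hm : E.Hm ρ γ t) (hon : On γ t) (hty : ∀ P, P ∉ E.M → (P ∈ R ↔ E.Oth RL ρ P)) :
    E.Hm ρ (HX.out (γ : HX.GX L)) (HX.out (t : HX.GX k)) ∧
      E.XOk On R ((γ : HX.GX L), (t : HX.GX k)) := by
  have e1 : IsSquare (γ * HX.out (γ : HX.GX L)) := by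
    rw [mul_comm]
    exact out_sq γ
  have e2 : IsSquare (t * HX.out (t : HX.GX k)) := by
    rw [mul_comm]
    exact out_sq t
  have h1 : E.Hm ρ (HX.out (γ : HX.GX L)) (HX.out (t : HX.GX k)) :=
    xtwo_hm E hm e1 (xtwoD_sq E e2)
  refine ⟨h1, fun P hP => (hty P hP).trans (xtwo_oth E RL (p := (_, _)) h1 hP), fun v => ?_,
    hOn.cl _ _ _ _ hon e1 e2⟩
  exact hZ ρ (HX.out (γ : HX.GX L)) (xtwoD E (HX.out (t : HX.GX k))) h1.lc h1.gam h1.del v

theorem stTwoX (RL : Rx L) (hZ : StHvZ L) : StTwoX E RL := by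
  intro On R hOn hRM
  refine ⟨fun ρ hρ => ?_, fun p ρ h => ?_⟩
  · obtain ⟨⟨γ, t, hm, hon⟩, hty⟩ := hρ
    obtain ⟨m1, o1⟩ := xtwo_obj E RL hZ hOn hm hon hty
    have hm' : E.Hm ρ γ (t * E.a) := xtwo_hm E hm ⟨γ, rfl⟩ (xtwoD_a E t)
    obtain ⟨m2, o2⟩ := xtwo_obj E RL hZ hOn hm' (hOn.tw _ _ hon) hty
    have hne : ((t : kˣ) : HX.GX k) ≠ ((t * E.a : kˣ) : HX.GX k) := by
      intro h
      obtain ⟨c, hc⟩ := cls_eq.1 h
      apply E.qe.ns
      refine ⟨t⁻¹ * c, ?_⟩
      have h1 : E.a = t⁻¹ * t⁻¹ * (t * (t * E.a)) := by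
        rw [mul_assoc, inv_mul_cancel_left, inv_mul_cancel_left]
      rw [h1, hc, mul_mul_mul_comm]
    set q1 : E.XX On R := ⟨((γ : HX.GX L), ((t : kˣ) : HX.GX k)), o1⟩ with hq1
    set q2 : E.XX On R := ⟨((γ : HX.GX L), ((t * E.a : kˣ) : HX.GX k)), o2⟩ with hq2
    have hq : q1 ≠ q2 := by
      intro h
      apply hne
      exact congrArg (fun q : E.XX On R => q.1.2) h
    have hset : {p : E.XX On R | E.Hm ρ (HX.out p.1.1) (HX.out p.1.2)} = {q1, q2} := by
      ext p
      rw [Set.mem_ofPred_eq, Set.mem_insert_iff, Set.mem_singleton_iff]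
      constructor
      · intro hp
        have e1 : IsSquare (HX.out p.1.1 * γ) := xtwo_faithful fun σ => by
          rw [← hp.gam, hm.gam]
        have e2 : p.1.1 = ((γ : Lˣ) : HX.GX L) := by
          rw [← mk_out p.1.1]
          exact cls_eq.2 e1
        have e3 : IsSquare (xtwoD E (HX.out p.1.2) * xtwoD E t) := xtwo_faithful fun σ =>
          (hp.del σ).symm.trans (hm.del σ)
        have e4 : IsSquare (algebraMap k L ((HX.out p.1.2 * t : kˣ) : k)) := by
          obtain ⟨c, hc⟩ := e3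
          rw [xtwoD_mul] at hc
          refine ⟨((E.δ⁻¹ * c : Lˣ) : L), ?_⟩
          have h1 : Units.map (algebraMap k L : k →* L) (HX.out p.1.2 * t) =
              (E.δ⁻¹ * c) * (E.δ⁻¹ * c) := by
            have h2 : Units.map (algebraMap k L : k →* L) (HX.out p.1.2 * t) =
                E.δ⁻¹ * E.δ⁻¹ * (E.δ * E.δ *
                  Units.map (algebraMap k L : k →* L) (HX.out p.1.2 * t)) := by
              rw [mul_assoc E.δ, mul_assoc, inv_mul_cancel_left, inv_mul_cancel_left]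
            rw [h2, hc]
            simp only [mul_assoc, mul_left_comm]
          exact congrArg Units.val h1
        rcases xtwo_quad E e4 with h5 | h5
        · left
          apply Subtype.ext
          apply Prod.ext
          · exact e2
          · show p.1.2 = ((t : kˣ) : HX.GX k)
            rw [← mk_out p.1.2]
            exact cls_eq.2 h5
        · right
          apply Subtype.ext
          apply Prod.ext
          · exact e2
          · show p.1.2 = ((t * E.a : kˣ) : HX.GX k)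
            rw [← mk_out p.1.2]
            apply cls_eq.2
            rwa [← mul_assoc]
      · rintro (rfl | rfl)
        · exact m1
        · exact m2
    rw [hset]
    exact Set.ncard_pair hq
  · exact ⟨⟨_, _, h, p.2.on⟩, fun P hP => (p.2.ty P hP).trans (xtwo_oth E RL h hP).symm⟩

end

end Pool.Agent.H32.MQ
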