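import Pool.Agent.H32.MQ.XStm

/-!
# Malle's conjecture for 8T28 and 8T29 over number fields, block X: types, ramified primes and
norms of the pairs
-/

set_option autoImplicit false

open scoped BigOperators
open NumberField IsDedekindDomain

namespace Pool.Agent.H32.MQ

open Pool.Agent.H98.MF

theorem xtyp_z (n : ℤ) : ((n : ℤ) : ZMod 2) = 0 ↔ ¬ Odd n := by
  rw [Int.not_odd_iff_even, even_iff_two_dvd]
  exact ZMod.intCast_zmod_eq_zero_iff_dvd n 2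

theorem xtyp_o (n : ℤ) : ((n : ℤ) : ZMod 2) = 1 ↔ Odd n := by
  have h1 : ∀ s : ZMod 2, s = 1 ↔ ¬ s = 0 := by decide
  rw [h1, xtyp_z, not_not]

theorem xtyp_vec (a b c d : ZMod 2) : (![a, b] : Fin 2 → ZMod 2) = ![c, d] ↔ a = c ∧ b = d := by
  constructor
  · intro h
    exact ⟨congrFun h 0, congrFun h 1⟩
  · rintro ⟨rfl, rfl⟩
    rfl

section

variable {k : Type} [Field k] [NumberField k] {L : Type} [Field L] [NumberField L]
  [Algebra k L] (E : QX k L) (F : FrP k L) (h : E.M ⊆ F.Fr.S)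

theorem xtyp_v0 (p : HX.GX L × HX.GX k) (Q : HeightOneSpectrum (𝓞 L)) :
    E.vT p Q = 0 ↔ ¬ Odd (ord Q ((HX.out p.1 : Lˣ) : L)) ∧
      ¬ Odd (ord Q ((E.δ : L) * algebraMap k L ((HX.out p.2 : kˣ) : k))) := by
  have h0 : (0 : Fin 2 → ZMod 2) = ![0, 0] := by
    funext i
    fin_cases i <;> rfl
  rw [h0]
  unfold QX.vT
  rw [xtyp_vec, xtyp_z, xtyp_z]

theorem xtyp_v1 (p : HX.GX L × HX.GX k) (Q : HeightOneSpectrum (𝓞 L)) :
    E.vT p Q = ![0, 1] ↔ ¬ Odd (ord Q ((HX.out p.1 : Lˣ) : L)) ∧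
      Odd (ord Q ((E.δ : L) * algebraMap k L ((HX.out p.2 : kˣ) : k))) := by
  unfold QX.vT
  rw [xtyp_vec, xtyp_z, xtyp_o]

theorem xtyp_v2 (p : HX.GX L × HX.GX k) (Q : HeightOneSpectrum (𝓞 L)) :
    E.vT p Q = ![1, 0] ↔ Odd (ord Q ((HX.out p.1 : Lˣ) : L)) ∧
      ¬ Odd (ord Q ((E.δ : L) * algebraMap k L ((HX.out p.2 : kˣ) : k))) := by
  unfold QX.vT
  rw [xtyp_vec, xtyp_z, xtyp_o]

variable (y : Finset F.Fr.sys.P) (p : HX.GX L × HX.GX k)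

include h in
/-- the second coordinate -/
theorem xtyp_t {q : F.Fr.sys.P} (hq : q ∉ y) {Q : HeightOneSpectrum (𝓞 L)}
    (hQ : Over (F.Fr.pl q) Q) :
    Odd (ord Q ((E.δ : L) * algebraMap k L ((HX.out p.2 : kˣ) : k))) ↔
      Odd (ord (F.Fr.pl q) ((HX.out p.2 : kˣ) : k)) := by
  have h1 : ord Q (algebraMap k L ((HX.out p.2 : kˣ) : k)) =
      ord (F.Fr.pl q) ((HX.out p.2 : kˣ) : k) :=
    (h_ord (E.toY F.Fr h y) q Q hq hQ).2 _
  have h2 : Even (ord Q (E.δ : L)) := (E.toY F.Fr h y).evd q hq Q hQ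
  have h3 : algebraMap k L ((HX.out p.2 : kˣ) : k) ≠ 0 := by
    rw [Ne, map_eq_zero]
    exact Units.ne_zero _
  rw [B.ord_mul Q E.δ.ne_zero h3, h1]
  rw [Int.even_iff] at h2
  rw [Int.odd_iff, Int.odd_iff]
  omega

include h in
/-- exceptional types -/
theorem xtyp_OT {q : F.Fr.sys.P} (hq : q ∉ y) : ¬ E.OT p (F.Fr.pl q) ↔
    (∀ Q : HeightOneSpectrum (𝓞 L), Over (F.Fr.pl q) Q →
      ¬ Odd (ord Q ((HX.out p.1 : Lˣ) : L))) ∨
    (¬ Odd (ord (F.Fr.pl q) ((HX.out p.2 : kˣ) : k)) ∧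
      ∃ Q : HeightOneSpectrum (𝓞 L), Over (F.Fr.pl q) Q ∧ cj E.sig Q ≠ Q ∧
        Odd (ord Q ((HX.out p.1 : Lˣ) : L)) ∧
        ¬ Odd (ord (cj E.sig Q) ((HX.out p.1 : Lˣ) : L))) := by
  have ht := fun {Q : HeightOneSpectrum (𝓞 L)} (hQ : Over (F.Fr.pl q) Q) =>
    xtyp_t E F h y p hq hQ
  constructor
  · intro h1
    unfold QX.OT at h1
    rw [not_and, not_and, not_not] at h1
    by_cases h2 : ∀ Q : HeightOneSpectrum (𝓞 L), Over (F.Fr.pl q) Q →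
      ¬ Odd (ord Q ((HX.out p.1 : Lˣ) : L))
    · exact Or.inl h2
    · right
      obtain ⟨Q, hQ, h3, h4, h5⟩ := h1 (fun h3 => h2 fun Q hQ => ((xtyp_v0 E p Q).1 (h3 Q hQ)).1)
        (fun h3 => h2 fun Q hQ => ((xtyp_v1 E p Q).1 (h3 Q hQ)).1)
      rw [xtyp_v2] at h4
      rw [xtyp_v0] at h5
      exact ⟨fun h6 => h4.2 ((ht hQ).2 h6), Q, hQ, h3, h4.1, h5.1⟩
  · rintro (h1 | ⟨h1, Q, hQ, h3, h4, h5⟩) ⟨h6, h7, h8⟩
    · by_cases h2 : Odd (ord (F.Fr.pl q) ((HX.out p.2 : kˣ) : k))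
      · exact h7 fun Q hQ => (xtyp_v1 E p Q).2 ⟨h1 Q hQ, (ht hQ).2 h2⟩
      · exact h6 fun Q hQ => (xtyp_v0 E p Q).2 ⟨h1 Q hQ, fun h9 => h2 ((ht hQ).1 h9)⟩
    · refine h8 ⟨Q, hQ, h3, (xtyp_v2 E p Q).2 ⟨h4, fun h9 => h1 ((ht hQ).1 h9)⟩,
        (xtyp_v0 E p _).2 ⟨h5, fun h9 => h1 ((ht (hQ.cj E.sig)).1 h9)⟩⟩

theorem xtyp_gX (b : (E.toY F.Fr h y).PX) : b ∈ (E.toY F.Fr h y).gX p.1 ↔
    Odd (ord b.1 ((HX.out p.1 : Lˣ) : L)) := by
  unfold HX.gX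
  rw [Set.Finite.mem_toFinset]
  rfl

theorem xtyp_xX (q : F.Fr.sys.P) : q ∈ (E.toY F.Fr h y).xX p.2 ↔
    Odd (ord (F.Fr.pl q) ((HX.out p.2 : kˣ) : k)) ∧ q ∉ y := by
  classical
  unfold HX.xX
  rw [Finset.mem_sdiff]
  have e1 : q ∈ (co F.Fr (HX.out p.2)).2 ↔ q ∈ odp F.Fr (HX.out p.2) := Iff.rfl
  have e2 : q ∉ (E.toY F.Fr h y).M ↔ q ∉ y := Iff.rfl
  rw [e1, mem_odp, e2]

theorem xtyp_over (b : (E.toY F.Fr h y).PX) {Q : HeightOneSpectrum (𝓞 L)} {q : F.Fr.sys.P}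
    (hb : Over (F.Fr.pl q) b.1) (hQ : Over (F.Fr.pl q) Q) : b.1 = Q ∨ b.1 = cj E.sig Q :=
  B.qe_over (E.toY F.Fr h y).qe (E.toY F.Fr h y).sig (E.toY F.Fr h y).sig_α hQ hb

/-- the types -/
theorem xtyp_types : (∀ q : F.Fr.sys.P, q ∉ y → ¬ E.OT p (F.Fr.pl q)) ↔
    (E.toY F.Fr h y).OkT p := by
  classical
  constructor
  · intro h1
    have h2 := fun q (hq : q ∉ y) => (xtyp_OT E F h y p hq).1 (h1 q hq)
    refine ⟨⟨?_, ?_, ?_⟩, ?_⟩
    · intro b hb b' hb' hbb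
      rw [xtyp_gX] at hb hb'
      have hq := (E.toY F.Fr h y).shX_not b
      have ho := (E.toY F.Fr h y).shX_over b
      have ho' := (E.toY F.Fr h y).shX_over b'
      rw [← hbb] at ho'
      rcases h2 _ hq with h3 | ⟨h3, Q, hQ, h4, h5, h6⟩
      · exact absurd hb (h3 _ ho)
      · apply Subtype.ext
        have e1 : b.1 = Q := (xtyp_over E F h y b ho hQ).resolve_right fun h7 => h6 (h7 ▸ hb)
        have e2 : b'.1 = Q := (xtyp_over E F h y b' ho' hQ).resolve_right fun h7 =>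
          h6 (h7 ▸ hb')
        rw [e1, e2]
    · rw [Finset.disjoint_left]
      intro q hq
      exact ((xtyp_xX E F h y p q).1 hq).2
    · rw [Finset.disjoint_left]
      intro q hq hq'
      obtain ⟨b, hb, rfl⟩ := Finset.mem_image.1 hq'
      rw [xtyp_gX] at hb
      rw [xtyp_xX] at hq
      rcases h2 _ hq.2 with h3 | ⟨h3, -⟩
      · exact h3 _ ((E.toY F.Fr h y).shX_over b) hb
      · exact h3 hq.1
    · intro Q hO
      constructor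
      · intro h3
        obtain ⟨q, hq, hQ⟩ := hO
        rcases h2 q hq with h4 | ⟨h4, Q', hQ', h5, h6, h7⟩
        · exact absurd h3 (h4 Q hQ)
        · rcases B.qe_over (E.toY F.Fr h y).qe (E.toY F.Fr h y).sig (E.toY F.Fr h y).sig_α
            hQ' hQ with h8 | h8
          · subst h8
            exact ⟨⟨Q, ⟨q, hq, hQ⟩, h5⟩, (xtyp_gX E F h y p _).2 h3, rfl⟩
          · exact absurd (h8 ▸ h3) h7
      · rintro ⟨b, hb, rfl⟩
        exact (xtyp_gX E F h y p _).1 hb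
  · rintro ⟨⟨h1, h2, h3⟩, h4⟩ q hq
    rw [xtyp_OT E F h y p hq]
    by_cases h5 : ∀ Q : HeightOneSpectrum (𝓞 L), Over (F.Fr.pl q) Q →
      ¬ Odd (ord Q ((HX.out p.1 : Lˣ) : L))
    · exact Or.inl h5
    · right
      rw [not_forall] at h5
      obtain ⟨Q, h5⟩ := h5
      rw [Classical.not_imp, not_not] at h5
      obtain ⟨b, hb, rfl⟩ := (h4 Q ⟨q, hq, h5.1⟩).1 h5.2
      have hs : (E.toY F.Fr h y).shX b = q := (E.toY F.Fr h y).shX_eq b h5.1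
      refine ⟨fun h6 => ?_, b.1, h5.1, b.2.2, h5.2, fun h6 => ?_⟩
      · exact Finset.disjoint_left.1 h3 ((xtyp_xX E F h y p q).2 ⟨h6, hq⟩)
          (Finset.mem_image.2 ⟨b, hb, hs⟩)
      · have h7 : (E.toY F.Fr h y).cjX b ∈ (E.toY F.Fr h y).gX p.1 :=
          (xtyp_gX E F h y p _).2 h6
        have h8 : (E.toY F.Fr h y).shX ((E.toY F.Fr h y).cjX b) = (E.toY F.Fr h y).shX b :=
          (E.toY F.Fr h y).shX_eq _ (((E.toY F.Fr h y).shX_over b).cj _)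
        have h9 := h1 _ h7 _ hb h8
        exact b.2.2 (congrArg Subtype.val h9)

theorem xtyp_ram (Q : F.FL.sys.P) : Q ∈ E.ram F.FL p ↔
    Odd (ord (F.FL.pl Q) ((HX.out p.1 : Lˣ) : L)) ∨
      Odd (ord (F.FL.pl Q) ((E.δ : L) * algebraMap k L ((HX.out p.2 : kˣ) : k))) := by
  unfold QX.ram
  rw [Set.Finite.mem_toFinset]
  show ¬ E.vT p (F.FL.pl Q) = 0 ↔ _
  rw [xtyp_v0, not_and_or, not_not, not_not]

/-- a prime of the frame of `L` above a prime of `k` -/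
theorem xtyp_up {q : F.Fr.sys.P} {Q : HeightOneSpectrum (𝓞 L)} (hQ : Over (F.Fr.pl q) Q) :
    ∃ Q' : F.FL.sys.P, F.FL.pl Q' = Q ∧ F.bel Q' = q := by
  obtain ⟨Q', hQ'⟩ := (F.FL.pl_iff Q).2 (qf_notMem F.FL F.ov hQ)
  refine ⟨Q', hQ', ?_⟩
  have h1 := F.bel_over Q'
  rw [hQ'] at h1
  exact HX.over_inj h1 hQ

open Classical in
theorem xtyp_abv (x : Finset F.Fr.sys.P) (Q : HeightOneSpectrum (𝓞 L)) :
    Q ∈ HX.abv L x ↔ ∃ q ∈ x, Over (F.Fr.pl q) Q := by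
  have h1 := (Pool.Agent.H98.MF.B.ovr_exists (L := L) (x.image F.Fr.pl)).choose_spec Q
  have h2 : Q ∈ HX.abv L x ↔ ∃ P ∈ x.image F.Fr.pl,
      Q.asIdeal.comap (algebraMap (𝓞 k) (𝓞 L)) = P.asIdeal := h1
  rw [h2]
  constructor
  · rintro ⟨P, hP, hQ⟩
    obtain ⟨q, hq, rfl⟩ := Finset.mem_image.1 hP
    exact ⟨q, hq, hQ⟩
  · rintro ⟨q, hq, hQ⟩
    exact ⟨_, Finset.mem_image_of_mem _ hq, hQ⟩

open Classical in
/-- the ramified primes -/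
theorem xtyp_img (hok : (E.toY F.Fr h y).OkT p) :
    (E.toY F.Fr h y).ramX ((E.toY F.Fr h y).xX p.2) ((E.toY F.Fr h y).gX p.1) =
      ((E.ram F.FL p).filter fun Q => F.bel Q ∉ y).image F.FL.pl := by
  ext Q
  unfold HX.ramX
  rw [Finset.mem_union, xtyp_abv F, Finset.mem_image, Finset.mem_image]
  constructor
  · rintro (⟨q, hq, hQ⟩ | ⟨b, hb, rfl⟩)
    · rw [xtyp_xX] at hq
      obtain ⟨Q', h1, h2⟩ := xtyp_up F hQ
      refine ⟨Q', ?_, h1⟩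
      rw [Finset.mem_filter, xtyp_ram, h1, h2]
      exact ⟨Or.inr ((xtyp_t E F h y p hq.2 hQ).2 hq.1), hq.2⟩
    · rw [xtyp_gX] at hb
      have hb1 := (E.toY F.Fr h y).shX_not b
      obtain ⟨Q', h1, h2⟩ := xtyp_up F ((E.toY F.Fr h y).shX_over b)
      refine ⟨Q', ?_, h1⟩
      rw [Finset.mem_filter, xtyp_ram, h1, h2]
      exact ⟨Or.inl hb, hb1⟩
  · rintro ⟨Q', hQ', rfl⟩
    rw [Finset.mem_filter, xtyp_ram] at hQ'
    rcases hQ'.1 with h1 | h1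
    · right
      exact (hok.2 _ ⟨_, hQ'.2, F.bel_over Q'⟩).1 h1
    · left
      refine ⟨F.bel Q', (xtyp_xX E F h y p _).2 ⟨?_, hQ'.2⟩, F.bel_over Q'⟩
      exact (xtyp_t E F h y p hQ'.2 (F.bel_over Q')).1 h1

open Classical in
/-- the primes below -/
theorem xtyp_sh (hok : (E.toY F.Fr h y).OkT p) : F.sh (E.ram F.FL p) \ y =
    (E.toY F.Fr h y).xX p.2 ∪
      ((E.toY F.Fr h y).gX p.1).image (E.toY F.Fr h y).shX := by
  ext q
  unfold FrP.sh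
  rw [Finset.mem_sdiff, Finset.mem_image, Finset.mem_union, xtyp_xX]
  constructor
  · rintro ⟨⟨Q', hQ', rfl⟩, hy⟩
    rw [xtyp_ram] at hQ'
    rcases hQ' with h1 | h1
    · right
      obtain ⟨b, hb, hb1⟩ := (hok.2 _ ⟨_, hy, F.bel_over Q'⟩).1 h1
      have h2 := F.bel_over Q'
      rw [← hb1] at h2
      exact Finset.mem_image.2 ⟨b, hb, (E.toY F.Fr h y).shX_eq b h2⟩
    · left
      exact ⟨(xtyp_t E F h y p hy (F.bel_over Q')).1 h1, hy⟩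
  · rintro (⟨hq, hy⟩ | hq)
    · obtain ⟨Q, hQ⟩ := exists_over (L := L) (F.Fr.pl q)
      obtain ⟨Q', h1, h2⟩ := xtyp_up F hQ
      refine ⟨⟨Q', ?_, h2⟩, hy⟩
      rw [xtyp_ram, h1]
      exact Or.inr ((xtyp_t E F h y p hy hQ).2 hq)
    · obtain ⟨b, hb, rfl⟩ := Finset.mem_image.1 hq
      rw [xtyp_gX] at hb
      obtain ⟨Q', h1, h2⟩ := xtyp_up F ((E.toY F.Fr h y).shX_over b)
      refine ⟨⟨Q', ?_, h2⟩, (E.toY F.Fr h y).shX_not b⟩
      rw [xtyp_ram, h1]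
      exact Or.inl hb

end

theorem stTypY {k : Type} [Field k] [NumberField k] {L : Type} [Field L] [NumberField L]
    [Algebra k L] (E : QX k L) (F : FrP k L) (h : E.M ⊆ F.Fr.S) : StTypY E F h := by
  classical
  intro y p
  refine ⟨xtyp_types E F h y p, fun hok => ⟨?_, ?_⟩⟩
  · rw [xtyp_img E F h y p hok, Finset.card_image_of_injective _ F.FL.pl_inj]
  · rw [xtyp_sh E F h y p hok]
    exact (Finset.prod_union hok.1.2.2).symm

end Pool.Agent.H32.MQ
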