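import Pool.Agent.H32.MQ.XStm
import Pool.Agent.H32.MQ.KPt
import Pool.Agent.H32.MQ.UA

/-!
# Malle's conjecture for 8T28 and 8T29 over number fields, block X: absolute convergence and the
uniform bound
-/

set_option autoImplicit false

open scoped BigOperators Topology
open NumberField IsDedekindDomain Filter

namespace Pool.Agent.H32.MQ

open Pool.Agent.H98.MK (sg)
open Pool.Agent.H98.MF
open Pool.Agent.H98.ML (Dt Ext norb hind)

/-! ### pairs of classes -/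

section

variable {k : Type} [Field k] [NumberField k] {Fr : Frm k} {L : Type} [Field L]
  [NumberField L] [Algebra k L] (X : HX Fr L)

theorem xu_fp (γ : HX.GX L) (p : Fr.sys.P) : (Qof X).fp γ p = X.fpX γ p := rfl

theorem xu_fa (c : El Fr.sys) (x : Finset Fr.sys.P) (b : X.PX) :
    (Qof X).fa c x b = X.faX c x b := rfl

theorem xu_one_add (a : ZMod 2) : 0 ≤ 1 + ((sg a : ℤ) : ℝ) := by
  have h := (abs_le.1 (abs_sgr a).le).1
  linarith

theorem xu_fpX_nonneg (γ : HX.GX L) (p : Fr.sys.P) : 0 ≤ X.fpX γ p := by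
  unfold HX.fpX
  split_ifs
  · exact mul_nonneg (xu_one_add _) (xu_one_add _)
  · exact xu_one_add _

theorem xu_faX_nonneg (c : El Fr.sys) (x : Finset Fr.sys.P) (b : X.PX) : 0 ≤ X.faX c x b := by
  unfold HX.faX
  exact xu_one_add _

theorem xu_okP (x : Finset Fr.sys.P) (g : Finset X.PX) : (Qof X).OkP x g ↔ X.okX x g := by
  classical
  constructor
  · rintro ⟨h1, h2, -, h4⟩
    exact ⟨h1, h2, h4⟩
  · rintro ⟨h1, h2, h4⟩
    refine ⟨h1, h2, ?_, h4⟩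
    rw [Finset.disjoint_left]
    intro p hp hpM
    unfold Qd.shd at hp
    obtain ⟨b, -, hb⟩ := Finset.mem_image.1 hp
    exact X.shX_not b (by
      rw [show X.shX b = p from hb]
      exact hpM)

/-- the function of the parametrisation -/
noncomputable def xuf (Θ : HX.GX L → ℝ) (s : ℝ) (z : Finset Fr.sys.P × Finset X.PX)
    (γ : HX.GX L) (c : El Fr.sys) : ℝ :=
  Θ γ * ((∏ p ∈ z.1, X.fpX γ p) * ∏ b ∈ z.2, X.faX c z.1 b) * (X.nmX z : ℝ) ^ (-s)

theorem xuf_nonneg {Θ : HX.GX L → ℝ} (h0 : ∀ γ, 0 ≤ Θ γ) (s : ℝ)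
    (z : Finset Fr.sys.P × Finset X.PX) (γ : HX.GX L) (c : El Fr.sys) : 0 ≤ xuf X Θ s z γ c :=
  mul_nonneg (mul_nonneg (h0 γ) (mul_nonneg
    (Finset.prod_nonneg fun p _ => xu_fpX_nonneg X γ p)
    (Finset.prod_nonneg fun b _ => xu_faX_nonneg X c z.1 b)))
    (Real.rpow_nonneg (Nat.cast_nonneg _) _)

open Classical in
theorem xu_term (Θ : HX.GX L → ℝ) (s : ℝ) (z : Finset Fr.sys.P × Finset X.PX) :
    (if X.okX z.1 z.2 then ∑ γ ∈ X.BX z.2,
      ∑ c ∈ (Finset.univ : Finset Fr.sys.T) ×ˢ X.M.powerset, xuf X Θ s z γ c else 0) =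
    (Qof X).tp (fun γ _ _ => Θ γ) z.1 z.2 *
      ((Fr.sys.nm z.1 : ℝ) * ((Qof X).nq z.2 : ℝ)) ^ (-s) := by
  have hn : (X.nmX z : ℝ) = (Fr.sys.nm z.1 : ℝ) * ((Qof X).nq z.2 : ℝ) := by
    unfold HX.nmX
    rw [Nat.cast_mul]
    rfl
  unfold Qd.tp
  by_cases hz : X.okX z.1 z.2
  · rw [if_pos hz, if_pos ((xu_okP X z.1 z.2).2 hz), Finset.sum_mul]
    refine Finset.sum_congr rfl fun γ _ => ?_
    rw [Finset.sum_mul]
    refine Finset.sum_congr rfl fun c _ => ?_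
    unfold xuf
    rw [hn]
    rfl
  · rw [if_neg hz, if_neg fun h => hz ((xu_okP X z.1 z.2).1 h), zero_mul]

open Classical in
/-- the series over the pairs of classes -/
theorem xu_main (hB : StBij X) (Θ : HX.GX L → ℝ) (h0 : ∀ γ, 0 ≤ Θ γ) (h1 : ∀ γ, Θ γ ≤ 1)
    (s : ℝ) (hs : 1 < s) :
    (Summable fun p : HX.GX L × HX.GX k =>
      if X.OkT p then Θ p.1 * X.FacX p * (X.nT p : ℝ) ^ (-s) else 0) ∧
    ∑' p : HX.GX L × HX.GX k, (if X.OkT p then Θ p.1 * X.FacX p * (X.nT p : ℝ) ^ (-s) else 0) =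
      (Qof X).DS (fun γ _ _ => Θ γ) s := by
  have hbd : BdT (Q := Qof X) fun γ _ _ => Θ γ := by
    intro γ _ _
    rw [abs_of_nonneg (h0 γ)]
    exact h1 γ
  have hs2 := (sua Fr.sys (Qof X) (fun γ _ _ => Θ γ) s hbd hs).2
  have h := hB (xuf X Θ s) (by
    refine hs2.congr fun z => ?_
    rw [← xu_term X Θ s z]
    refine if_congr Iff.rfl (Finset.sum_congr rfl fun γ _ => Finset.sum_congr rfl fun c _ => ?_)
      rfl
    exact (abs_of_nonneg (xuf_nonneg X h0 s z γ c)).symm)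
  refine ⟨h.1, h.2.trans ?_⟩
  unfold Qd.DS
  exact tsum_congr fun z => xu_term X Θ s z

theorem xu_FacX_nonneg (p : HX.GX L × HX.GX k) : 0 ≤ X.FacX p :=
  mul_nonneg (Finset.prod_nonneg fun q _ => xu_fpX_nonneg X p.1 q)
    (Finset.prod_nonneg fun b _ => xu_faX_nonneg X _ _ b)

/-- the norm of a class with even exponents and trivial norm coordinates is a square -/
theorem xu_sq (γ : HX.GX L) (h1 : γ ∈ X.Bs ∅) (h2 : X.nuX γ = (0, ∅)) :
    IsSquare (HX.nrX (k := k) (HX.out γ)) := by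
  classical
  have h3 := hi_co X (h_ordN X) ∅ (fun b hb => absurd hb (Finset.notMem_empty b)) γ h1
  rw [h2, Finset.image_empty, Finset.empty_union] at h3
  have h4 : (co Fr (HX.nrX (k := k) (HX.out γ))).1 = 0 := congrArg Prod.fst h2
  have h5 : co Fr (HX.nrX (k := k) (HX.out γ)) = (0, ∅) := Prod.ext h4 h3
  have h6 := h_co Fr (HX.nrX (k := k) (HX.out γ))
  rw [h5] at h6
  have h7 : rep Fr ((0, ∅) : El Fr.sys) = 1 := by
    unfold rep
    simp
  rwa [h7, mul_one] at h6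

end

/-! ### objects -/

section

variable {k : Type} [Field k] [NumberField k] {L : Type} [Field L] [NumberField L]
  [Algebra k L] (E : QX k L) (F : FrP k L) (h : E.M ⊆ F.Fr.S)

variable {On : Lˣ → kˣ → Prop} {R : Finset (HeightOneSpectrum (𝓞 k))}

theorem xu_ok (hT : StTypY E F h) (hR : R ⊆ F.Fr.S) (y : Finset F.Fr.sys.P) (p : E.XX On R) :
    (E.toY F.Fr h y).OkT p.1 := by
  refine (hT y p.1).1.1 fun q _ => ?_
  have h1 : F.Fr.pl q ∉ F.Fr.S := hb_notMem F.Fr q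
  intro h2
  exact h1 (hR ((p.2.ty _ fun h3 => h1 (h h3)).2 h2))

theorem xu_fac (hT : StTypY E F h) (hR : R ⊆ F.Fr.S) (y : Finset F.Fr.sys.P)
    (hF : StFac (E.toY F.Fr h y)) (p : E.XX On R) :
    (E.toY F.Fr h y).FacX p.1 = 2 ^ ((E.toY F.Fr h y).ramX ((E.toY F.Fr h y).xX p.1.2)
      ((E.toY F.Fr h y).gX p.1.1)).card :=
  (hF p.1 (xu_ok E F h hT hR y p)).1 fun Q _ => p.2.sol (Sum.inl Q)

include E h in
/-- at most two primes above every prime -/
theorem xu_card (y : Finset F.Fr.sys.P) (s : Finset F.FL.sys.P) (hs : ∀ Q ∈ s, F.bel Q ∈ y) :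
    s.card ≤ 2 * y.card := by
  classical
  refine Finset.card_le_mul_card_image_of_maps_to hs 2 fun q _ => ?_
  by_contra hc
  rw [not_le] at hc
  obtain ⟨Q1, Q2, Q3, h1, h2, h3, h12, h13, h23⟩ := Finset.two_lt_card_iff.1 hc
  have ho : ∀ Q, Q ∈ s.filter (fun Q => F.bel Q = q) → Over (F.Fr.pl q) (F.FL.pl Q) := by
    intro Q hQ
    rw [← (Finset.mem_filter.1 hQ).2]
    exact F.bel_over Q
  have o1 := ho _ h1
  have o2 := ho _ h2
  have o3 := ho _ h3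
  rcases Pool.Agent.H98.MF.B.qe_over (E.toY F.Fr h y).qe (E.toY F.Fr h y).sig
    (E.toY F.Fr h y).sig_α o1 o2 with h4 | h4
  · exact h12 (F.FL.pl_inj h4).symm
  · rcases Pool.Agent.H98.MF.B.qe_over (E.toY F.Fr h y).qe (E.toY F.Fr h y).sig
      (E.toY F.Fr h y).sig_α o1 o3 with h5 | h5
    · exact h13 (F.FL.pl_inj h5).symm
    · exact h23 (F.FL.pl_inj (h4.trans h5.symm))

end

/-- absolute convergence -/
theorem stSmX {k : Type} [Field k] [NumberField k] {L : Type} [Field L] [NumberField L]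
    [Algebra k L] (E : QX k L) (F : FrP k L) (h : E.M ⊆ F.Fr.S)
    (hB : StBij (E.toY F.Fr h ∅)) (hF : StFac (E.toY F.Fr h ∅)) (hT : StTypY E F h) :
    StSmX E F := by
  classical
  intro On R hR s hs
  have hm := (xu_main (E.toY F.Fr h ∅) hB (fun _ => 1) (fun _ => zero_le_one) (fun _ => le_refl 1)
    s hs).1
  have hinj : Function.Injective (fun p : E.XX On R => p.1) := Subtype.val_injective
  refine (hm.comp_injective hinj).congr fun p => ?_
  have hok := xu_ok E F h hT hR ∅ p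
  have h1 := (hT ∅ p.1).2 hok
  simp only [Function.comp]
  have h2 : ((E.ram F.FL p.1).filter fun Q => F.bel Q ∉ (∅ : Finset F.Fr.sys.P)).card =
      (E.ram F.FL p.1).card := by
    rw [Finset.filter_true_of_mem fun Q _ => Finset.notMem_empty _]
  have h3 : F.sh (E.ram F.FL p.1) \ ∅ = F.sh (E.ram F.FL p.1) := Finset.sdiff_empty
  rw [if_pos hok, xu_fac E F h hT hR ∅ hF p, h1.1, h1.2, one_mul, h2, h3]
  rfl

/-- the uniform bound for the objects ramified at `r` -/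
theorem stUX {k : Type} [Field k] [NumberField k] {L : Type} [Field L] [NumberField L]
    [Algebra k L] (E : QX k L) (F : FrP k L) (h : E.M ⊆ F.Fr.S)
    (hB : ∀ y, StBij (E.toY F.Fr h y)) (hF : ∀ y, StFac (E.toY F.Fr h y))
    (hP : ∀ y, StPosX (E.toY F.Fr h y)) (hT : StTypY E F h) (hD : SUD) : StUX E F h := by
  classical
  intro C0 A0 η0 hη hBF
  obtain ⟨C1, hC1⟩ := hD F.Fr.sys C0 A0 η0 (1 / 8) hη (by norm_num)
  obtain ⟨C2, hC2⟩ := skpt F.Fr.sys (1 / 8) (by norm_num)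
  refine ⟨|C1| * |C2|, by positivity, ?_⟩
  intro On R hR hOn r σ hσ hσ1
  obtain ⟨y, hy⟩ : ∃ y : Finset F.Fr.sys.P, y = F.sh r := ⟨_, rfl⟩
  rw [← hy]
  obtain ⟨X, hX⟩ : ∃ X : HX F.Fr L, X = E.toY F.Fr h y := ⟨_, rfl⟩
  have hXM : X.M = y := by rw [hX]; rfl
  -- the function vanishing at the units of square norm
  obtain ⟨Θ, hΘ⟩ : ∃ Θ : HX.GX L → ℝ, Θ = fun γ =>
      if γ ∈ X.BX ∅ ∧ X.nuX γ = (0, ∅) then 0 else 1 := ⟨_, rfl⟩
  have hΘ0 : ∀ γ, 0 ≤ Θ γ := by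
    intro γ
    rw [hΘ]
    beta_reduce
    split_ifs
    · exact le_refl 0
    · exact zero_le_one
  have hΘ1 : ∀ γ, Θ γ ≤ 1 := by
    intro γ
    rw [hΘ]
    beta_reduce
    split_ifs
    · exact zero_le_one
    · exact le_refl 1
  have hm := xu_main X (by rw [hX]; exact hB y) Θ hΘ0 hΘ1 (1 + σ) (by linarith)
  have hnz : (Qof X).Nz (fun γ _ _ => Θ γ) := by
    intro γ hγ h1 h2 _ _
    rw [hΘ]
    beta_reduce
    exact if_pos ⟨hγ, Prod.ext h1 h2⟩
  have hbd : BdT (Q := Qof X) fun γ _ _ => Θ γ := by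
    intro γ _ _
    rw [abs_of_nonneg (hΘ0 γ)]
    exact hΘ1 γ
  have hDS := hC1 (Qof X) (lawX X) (by rw [hX]; exact hBF y) (fun γ _ _ => Θ γ) σ hbd hnz hσ hσ1
  have hQM : F.Fr.sys.nm (Qof X).M = F.Fr.sys.nm y := by
    rw [← hXM]
    rfl
  rw [hQM, ← hm.2] at hDS
  -- the pointwise bound
  have hny : (1 : ℝ) ≤ F.Fr.sys.nm y := F.Fr.sys.one_le_nmr y
  have hny0 : (0 : ℝ) < F.Fr.sys.nm y := by linarith
  obtain ⟨K, hK⟩ : ∃ K : ℝ, K = 4 ^ y.card * (F.Fr.sys.nm y : ℝ) ^ (-(1 + σ)) := ⟨_, rfl⟩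
  have hK0 : 0 ≤ K := by rw [hK]; positivity
  set G : HX.GX L × HX.GX k → ℝ := fun p =>
    if X.OkT p then Θ p.1 * X.FacX p * (X.nT p : ℝ) ^ (-(1 + σ)) else 0 with hG
  have hG0 : ∀ p, 0 ≤ G p := by
    intro p
    simp only [hG]
    split_ifs
    · exact mul_nonneg (mul_nonneg (hΘ0 _) (xu_FacX_nonneg X p))
        (Real.rpow_nonneg (Nat.cast_nonneg _) _)
    · exact le_refl 0
  have hpt : ∀ p : E.XX On R, (if r ⊆ E.ram F.FL p.1 then
      (2 : ℝ) ^ (E.ram F.FL p.1).card * (E.nP F p.1 : ℝ) ^ (-(1 + σ)) else 0) ≤ K * G p.1 := by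
    intro p
    split_ifs with hr
    · have hok : X.OkT p.1 := by rw [hX]; exact xu_ok E F h hT hR y p
      have hfac : X.FacX p.1 = 2 ^ (X.ramX (X.xX p.1.2) (X.gX p.1.1)).card := by
        subst hX
        exact xu_fac E F h hT hR y (hF y) p
      have h1 : (X.ramX (X.xX p.1.2) (X.gX p.1.1)).card =
          ((E.ram F.FL p.1).filter fun Q => F.bel Q ∉ y).card ∧
          X.nT p.1 = F.Fr.sys.nm (F.sh (E.ram F.FL p.1) \ y) := by
        subst hX
        exact (hT y p.1).2 hok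
      have hΘp : Θ p.1.1 = 1 := by
        rw [hΘ]
        beta_reduce
        refine if_neg ?_
        rintro ⟨h2, h3⟩
        exact hOn.nn _ _ p.2.on (xu_sq X p.1.1 ((hi_mem X (h_cardB X)).1 h2) h3)
      have hsub : y ⊆ F.sh (E.ram F.FL p.1) := by
        rw [hy]
        exact Finset.image_subset_image hr
      have hnm : (E.nP F p.1 : ℝ) = (F.Fr.sys.nm y : ℝ) * (X.nT p.1 : ℝ) := by
        rw [h1.2]
        unfold QX.nP
        rw [← Nat.cast_mul, ← F.Fr.sys.nm_union Finset.disjoint_sdiff]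
        congr 2
        exact (Finset.union_sdiff_of_subset hsub).symm
      have hcard : (E.ram F.FL p.1).card ≤ 2 * y.card +
          (X.ramX (X.xX p.1.2) (X.gX p.1.1)).card := by
        rw [h1.1]
        have h4 := Finset.card_filter_add_card_filter_not (s := E.ram F.FL p.1)
          (fun Q => F.bel Q ∈ y)
        have h5 := xu_card E F h y ((E.ram F.FL p.1).filter fun Q => F.bel Q ∈ y)
          fun Q hQ => (Finset.mem_filter.1 hQ).2
        omega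
      simp only [hG]
      rw [if_pos hok, hΘp, one_mul, hfac, hnm, hK,
        Real.mul_rpow (Nat.cast_nonneg _) (Nat.cast_nonneg _)]
      have h6 : (2 : ℝ) ^ (E.ram F.FL p.1).card ≤
          4 ^ y.card * 2 ^ (X.ramX (X.xX p.1.2) (X.gX p.1.1)).card := by
        calc (2 : ℝ) ^ (E.ram F.FL p.1).card
            ≤ 2 ^ (2 * y.card + (X.ramX (X.xX p.1.2) (X.gX p.1.1)).card) :=
              pow_le_pow_right₀ one_le_two hcard
          _ = 4 ^ y.card * 2 ^ (X.ramX (X.xX p.1.2) (X.gX p.1.1)).card := by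
              rw [pow_add, pow_mul]
              norm_num
      have h7 : 0 ≤ (F.Fr.sys.nm y : ℝ) ^ (-(1 + σ)) * (X.nT p.1 : ℝ) ^ (-(1 + σ)) := by
        positivity
      calc (2 : ℝ) ^ (E.ram F.FL p.1).card *
            ((F.Fr.sys.nm y : ℝ) ^ (-(1 + σ)) * (X.nT p.1 : ℝ) ^ (-(1 + σ)))
          ≤ (4 ^ y.card * 2 ^ (X.ramX (X.xX p.1.2) (X.gX p.1.1)).card) *
            ((F.Fr.sys.nm y : ℝ) ^ (-(1 + σ)) * (X.nT p.1 : ℝ) ^ (-(1 + σ))) :=
            mul_le_mul_of_nonneg_right h6 h7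
        _ = _ := by ring
    · exact mul_nonneg hK0 (hG0 _)
  have hinj : Function.Injective (fun p : E.XX On R => p.1) := Subtype.val_injective
  have hGK : Summable fun p => K * G p := hm.1.mul_left K
  have hfs : Summable fun p : E.XX On R => (if r ⊆ E.ram F.FL p.1 then
      (2 : ℝ) ^ (E.ram F.FL p.1).card * (E.nP F p.1 : ℝ) ^ (-(1 + σ)) else 0) := by
    refine Summable.of_nonneg_of_le (fun p => ?_) hpt (hGK.comp_injective hinj)
    split_ifs
    · positivity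
    · exact le_refl 0
  have h8 : ∑' p : E.XX On R, (if r ⊆ E.ram F.FL p.1 then
      (2 : ℝ) ^ (E.ram F.FL p.1).card * (E.nP F p.1 : ℝ) ^ (-(1 + σ)) else 0) ≤
      ∑' p, K * G p :=
    hfs.tsum_le_tsum_of_inj (fun p : E.XX On R => p.1) hinj
      (fun p _ => mul_nonneg hK0 (hG0 p)) hpt hGK
  rw [tsum_mul_left] at h8
  have h9 : ∑' p, G p ≤ |C1| * (F.Fr.sys.nm y : ℝ) ^ (1 / 8 : ℝ) * σ ^ (-(2 : ℝ)) := by
    refine (le_abs_self _).trans (hDS.trans ?_)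
    refine mul_le_mul_of_nonneg_right (mul_le_mul_of_nonneg_right (le_abs_self C1) ?_) ?_
    · positivity
    · exact Real.rpow_nonneg hσ.le _
  have h10 : K ≤ |C2| * (F.Fr.sys.nm y : ℝ) ^ (-(7 / 8) : ℝ) := by
    have h11 : (4 : ℝ) ^ y.card ≤ |C2| * (F.Fr.sys.nm y : ℝ) ^ (1 / 8 : ℝ) := by
      calc (4 : ℝ) ^ y.card ≤ 16 ^ y.card := pow_le_pow_left₀ (by norm_num) (by norm_num) _
        _ ≤ C2 * (F.Fr.sys.nm y : ℝ) ^ (1 / 8 : ℝ) := (hC2 y).2
        _ ≤ _ := mul_le_mul_of_nonneg_right (le_abs_self C2) (by positivity)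
    have h12 : (F.Fr.sys.nm y : ℝ) ^ (-(1 + σ)) ≤ (F.Fr.sys.nm y : ℝ) ^ (-1 : ℝ) :=
      Real.rpow_le_rpow_of_exponent_le hny (by linarith)
    rw [hK]
    calc (4 : ℝ) ^ y.card * (F.Fr.sys.nm y : ℝ) ^ (-(1 + σ))
        ≤ (|C2| * (F.Fr.sys.nm y : ℝ) ^ (1 / 8 : ℝ)) * (F.Fr.sys.nm y : ℝ) ^ (-1 : ℝ) :=
          mul_le_mul h11 h12 (by positivity) (by positivity)
      _ = |C2| * (F.Fr.sys.nm y : ℝ) ^ (-(7 / 8) : ℝ) := by
          rw [mul_assoc, ← Real.rpow_add hny0]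
          norm_num
  calc ∑' p : E.XX On R, (if r ⊆ E.ram F.FL p.1 then
      (2 : ℝ) ^ (E.ram F.FL p.1).card * (E.nP F p.1 : ℝ) ^ (-(1 + σ)) else 0)
      ≤ K * ∑' p, G p := h8
    _ ≤ (|C2| * (F.Fr.sys.nm y : ℝ) ^ (-(7 / 8) : ℝ)) *
        (|C1| * (F.Fr.sys.nm y : ℝ) ^ (1 / 8 : ℝ) * σ ^ (-(2 : ℝ))) :=
        mul_le_mul h10 h9 (tsum_nonneg hG0) (by positivity)
    _ = |C1| * |C2| * ((F.Fr.sys.nm y : ℝ) ^ (-(7 / 8) : ℝ) *
        (F.Fr.sys.nm y : ℝ) ^ (1 / 8 : ℝ)) * σ ^ (-(2 : ℝ)) := by ring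
    _ = |C1| * |C2| * (F.Fr.sys.nm y : ℝ) ^ (-(3 / 4) : ℝ) * σ ^ (-(2 : ℝ)) := by
        rw [← Real.rpow_add hny0]
        norm_num

end Pool.Agent.H32.MQ
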