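import Pool.Agent.H32.MQ.XMain
import Pool.Agent.H32.MQ.XBij
import Pool.Agent.H32.MQ.XFac
import Pool.Agent.H32.MQ.XTyp
import Pool.Agent.H32.MQ.XD1
import Pool.Agent.H32.MQ.XD2
import Pool.Agent.H32.MQ.XG0
import Pool.Agent.H32.MQ.XLF4
import Pool.Agent.H32.MQ.XLF
import Pool.Agent.H32.MQ.XU
import Pool.Agent.H32.MQ.XFrm
import Pool.Agent.H32.MQ.XHL
import Pool.Agent.H32.MQ.XEmb
import Pool.Agent.H32.MQ.XNrm
import Pool.Agent.H32.MQ.XPa
import Pool.Agent.H32.MQ.XQSt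
import Pool.Agent.H32.MQ.XDn
import Pool.Agent.H32.MQ.XLM
import Pool.Agent.H32.MQ.XA
import Pool.Agent.H32.MQ.XRho
import Pool.Agent.H32.MQ.XOb
import Pool.Agent.H32.MQ.XTwo
import Pool.Agent.H32.MQ.AHind
import Pool.Agent.H32.MQ.ADiff
import Pool.Agent.H32.MQ.ALocN
import Pool.Agent.H32.MQ.ARexH
import Pool.Agent.H32.MQ.UMain
import Pool.Agent.H32.MQ.EEnd
import Pool.Agent.H32.MQ.TEnd
import Pool.Agent.H32.MQ.LMain
import Pool.Agent.H32.MQ.LW012

/-!
# Malle's conjecture for 8T28 and 8T29 over number fields, block X: final assembly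
-/

set_option autoImplicit false

open scoped BigOperators
open NumberField IsDedekindDomain

namespace Pool.Agent.H32.MQ

open Pool.Agent.H98.MF

section

variable {k : Type} [Field k] [NumberField k] {L : Type} [Field L] [NumberField L]
  [Algebra k L] (E : QX k L)

theorem xf_bf (hBF : BFAll k) {Fr : Frm k} (X : HX Fr L) :
    ∃ C A η : ℝ, 0 < η ∧ (Qof X).BF C A η := by
  obtain ⟨C, A, η, h1, h2⟩ := hBF Fr
  exact ⟨C, A, η, h1, h2 L X⟩

theorem xf_lf4 (hBF : BFAll k) (F : FrP k L) (h : E.M ⊆ F.Fr.S) : StLF4 E F h :=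
  stLF4 E F h (stD1 E F h (stBij (E.toY F.Fr h ∅))) (stD2 E F h (stBij (E.toY F.Fr h ∅)))
    (stG0 E F h (stBij (E.toY F.Fr h ∅)) (sue_of sua)) (stPosX (E.toY F.Fr h ∅))
    (stTypY E F h) (stEmb L) stmEC (sl1_of_E stmEB stmES) (sl2_of_E stmEB stmES)
    (slw012_of sle stmEB stmES) (xf_bf hBF (E.toY F.Fr h ∅))

/-- the exact formula for a fixed quadratic extension -/
theorem stXAll (hBF : BFAll k) : StX E := by
  have hDX : ∀ (F : FrP k L) (h : E.M ⊆ F.Fr.S), StDX E F h := fun F h =>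
    stDX E F h (stOb E F h (stFac (E.toY F.Fr h ∅)) (stTypY E F h)) (stTypY E F h)
  have hLF : ∀ F : FrP k L, E.M ⊆ F.Fr.S → StLF E F := fun F h =>
    stLF E F h (hDX F h) (xf_lf4 E hBF F h)
  refine stX E (stFrE k L) (fun F h => stLP E F h (hDX F h) (xf_lf4 E hBF F h))
    (fun F h => stHL E F h (stFrX k L) hLF)
    (fun F h => stSmX E F h (stBij (E.toY F.Fr h ∅)) (stFac (E.toY F.Fr h ∅)) (stTypY E F h))
    (fun F h => stUX E F h (fun y => stBij (E.toY F.Fr h y)) (fun y => stFac (E.toY F.Fr h y))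
      (fun y => stPosX (E.toY F.Fr h y)) (stTypY E F h) sud)
    (fun F => stRho E F) (fun F RL => stLM E F RL (stNrX E F RL (stEmb L)) (stSurT L))
    (fun F RL => stXA E F RL (stNrX E F RL (stEmb L)) (stPa L (stDiff L)) (stSurT L)
      (stQSt L (stSurT L)) (stDnX E F RL (stNrX E F RL (stEmb L)) (stSurT L) stHind (stRexH L)
        (fun h => stTypY E F h)) (stTwoX E RL (stHvZ L)))
    stmFin stmPos hBF

end

end Pool.Agent.H32.MQ
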