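import Pool.Agent.H32.MQ.GFin
import Pool.Agent.H32.MQ.G1
import Pool.Agent.H32.MQ.G4
import Pool.Agent.H32.MQ.G6a
import Pool.Agent.H32.MQ.G6c
import Pool.Agent.H32.MQ.AMain
import Pool.Agent.H32.MQ.XFinal
import Pool.Agent.H32.MQ.BMain

/-!
# Malle's conjecture for 8T28 and 8T29 over every number field
-/

set_option autoImplicit false

namespace Pool.Agent.H32.MQ.G

open Pool.Agent.H32.MA (mInd bM)
open Pool.Agent.H32.MZ (NK MalleK T28 T29)

/-- Malle's conjecture for `8T28` and `8T29` over every number field -/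
theorem mal_all : StMal :=
  mal_of (fun k _ _ => ⟨stQE, stRs0, stRsG, fun Fr => sAUAll Fr, bfAll k,
    fun L _ _ _ E => stXAll (E := E) (bfAll k)⟩) (stNKG stPr stNK)

/-- the final statement for the two groups -/
theorem mal_final : MulAction.IsPretransitive T28 (Fin 8) ∧ MulAction.IsPretransitive T29 (Fin 8) ∧
    mInd T28 = 2 ∧ mInd T29 = 2 ∧ ∀ (k : Type) [Field k] [NumberField k],
      bM k T28 = 3 ∧ bM k T29 = 3 ∧ MalleK k T28 ∧ MalleK k T29 := by
  obtain ⟨pr, -, -, -, -, h28, h29⟩ := stPr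
  exact ⟨h28, h29, stInvG.1, stInvG.2.1, fun k _ _ =>
    ⟨(stInvG.2.2 k).1, (stInvG.2.2 k).2, (mal_all k).1, (mal_all k).2⟩⟩

end Pool.Agent.H32.MQ.G
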