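import Pool.Agent.H32.MQ.Qd
import Pool.Agent.H32.MA.AbsB

/-!
# Malle's conjecture for 8T28 and 8T29, block BF: orders of a quadratic extension

The structure `Od` collects what is used of a quadratic extension `L` of `k` in the proof of the
bilinear estimate `Qd.BF`: an order `A` with coordinates, the multiplicative group `U` of `L`
(written additively), all primes `V` of `L` not above `M`, their exponents and quadratic
characters, and the product formula.
-/

set_option autoImplicit false

open scoped BigOperators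

namespace Pool.Agent.H32.MQ

open Pool.Agent.H98.MK (sg)
open Pool.Agent.H98.MF
open Pool.Agent.H32.MA.AB (Lat Ker cube bxA)

/-- an order in a quadratic extension, with the symbols of the field -/
structure Od {S : Sys} (Q : Qd S) (n c B K : ℕ) where
  n_pos : 1 ≤ n
  /-- the order -/
  A : Type
  [ring : CommRing A]
  [dom : IsDomain A]
  /-- coordinates and norm -/
  L : Lat A n c
  /-- the multiplicative group of the field, written additively -/
  U : Type
  [grp : AddCommGroup U]
  /-- the element of the field given by an element of the order -/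
  io : A → U
  io_mul : ∀ x y, x ≠ 0 → y ≠ 0 → io (x * y) = io x + io y
  /-- the primes of the field not above `M` -/
  V : Type
  NV : V → ℕ
  NV_two : ∀ v, 2 ≤ NV v
  /-- the primes of degree one -/
  em : Q.P → V
  em_inj : Function.Injective em
  NV_em : ∀ a, NV (em a) = S.N (Q.sh a)
  /-- the exponents -/
  ord : V → U →+ ℤ
  ord_fin : ∀ x, {v | ord v x ≠ 0}.Finite
  ord_nn : ∀ x, x ≠ 0 → ∀ v, 0 ≤ ord v (io x)
  nrm_dvd : ∀ x, x ≠ 0 → ∀ T : Finset V, ∏ v ∈ T, NV v ^ (ord v (io x)).toNat ∣ L.nrm x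
  /-- the quadratic characters -/
  chi : V → U →+ ZMod 2
  /-- the residue symbols on the order -/
  rs : Q.P → A → ℤ
  rs_zero : ∀ a x, rs a x = 0 ↔ x = 0 ∨ ord (em a) (io x) ≠ 0
  rs_eq : ∀ a x, x ≠ 0 → ord (em a) (io x) = 0 → rs a x = sg (chi (em a) (io x))
  rs_per : ∀ a x y, rs a (x + S.N (Q.sh a) * y) = rs a x
  /-- elements with given symbols, prime to `m` -/
  tw : ∀ (W : Finset Q.P), ∀ a ∈ W, ∀ m : ℕ, 1 ≤ m → ∃ u : A, rs a u = -1 ∧
    (∀ b ∈ W, b ≠ a → rs b u = 1) ∧ ∀ x, (∃ y, u * x = m * y) → ∃ y, x = m * y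
  /-- the residue groups -/
  pig : ∀ a, ∃ (G : Type) (_ : AddCommGroup G) (_ : Fintype G) (f : A →+ G),
    Fintype.card G = S.N (Q.sh a) ∧ ∀ x, f x = 0 → rs a x = 0
  /-- few good sets of a given norm -/
  few : ∀ m : ℕ, 1 ≤ m →
    ((Q.gb m).filter fun z => Q.nq z = m).card ≤ m.divisors.card ^ B
  /-- few ideals of norm at most `c` -/
  cntV : ∃ Φ : Finset (V →₀ ℕ), Φ.card ≤ K ∧
    ∀ f : V →₀ ℕ, (f.prod fun v j => NV v ^ j) ≤ c → f ∈ Φ
  /-- classes modulo squares -/
  cl : U → Q.G
  sy_cl : ∀ x a, Even (ord (em a) x) → Q.sy (cl x) a = chi (em a) x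
  mem_B : ∀ (g : Finset Q.P) (γ : Q.G), γ ∈ Q.B g ↔
    ∃ x, cl x = γ ∧ ∀ v, (Odd (ord v x) ↔ ∃ a ∈ g, em a = v)
  cl_eq : ∀ x y, cl x = cl y ↔ ∃ z, x = y + (z + z)
  /-- the classes at `M` and the real places -/
  Lm : Type
  [lf : Fintype Lm]
  card_Lm : Fintype.card Lm ≤ K
  loc : U → Lm
  H : Lm → Lm → ZMod 2
  /-- the element `-1` -/
  m1 : U
  prod : ∀ (x y : U) (T : Finset V), (∀ v, v ∉ T → ord v x = 0 ∧ ord v y = 0) →
    ∑ v ∈ T, (((ord v x : ℤ) : ZMod 2) * ((ord v y : ℤ) : ZMod 2) * chi v m1 +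
      ((ord v y : ℤ) : ZMod 2) * chi v x + ((ord v x : ℤ) : ZMod 2) * chi v y) = H (loc x) (loc y)

attribute [instance] Od.ring Od.dom Od.grp Od.lf

namespace Od

variable {S : Sys} {Q : Qd S} {n c B K : ℕ} (O : Od Q n c B K)

noncomputable instance : DecidableEq O.A := Classical.decEq _

noncomputable instance : DecidableEq O.U := Classical.decEq _

noncomputable instance : DecidableEq O.V := Classical.decEq _

noncomputable instance : DecidableEq O.Lm := Classical.decEq _

/-- the kernel of a good set `e`: the symbol at `e`, zero if the shadows meet -/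
def kr (e : Finset Q.P) (x : O.A) : ℤ := ∏ a ∈ e, (O.rs a x * O.rs (Q.cj a) x ^ 2)

/-- small elements of the ideals of good sets -/
structure Al (al : Finset Q.P → O.A) : Prop where
  ne : ∀ g, Q.Gd g → al g ≠ 0
  bd : ∀ g, Q.Gd g → ∀ i, |(O.L.e (al g) i : ℝ)| ^ n ≤ Q.nq g
  van : ∀ g, Q.Gd g → ∀ a ∈ g, O.rs a (al g) = 0

theorem lb_fin (x : O.U) (T : Finset O.V) :
    {v | ((O.ord v x).toNat - if v ∈ T then 1 else 0) ≠ 0}.Finite := by
  refine (O.ord_fin x).subset fun v hv h => hv ?_
  have h1 : O.ord v x = 0 := h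
  simp [h1]

open Classical in
/-- the ideal of `x` divided by the ideal of `T` -/
noncomputable def lb (x : O.U) (g : Finset Q.P) : O.V →₀ ℕ :=
  Finsupp.ofSupportFinite (fun v => (O.ord v x).toNat - if v ∈ g.image O.em then 1 else 0)
    (O.lb_fin x _)

/-- the norm of an ideal outside `M` -/
def nV (f : O.V →₀ ℕ) : ℕ := f.prod fun v j => O.NV v ^ j

open Classical in
/-- the primes of degree one that divide `f` or whose conjugate divides `f` -/
noncomputable def bp (f : O.V →₀ ℕ) : Finset Q.P :=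
  (f.support.preimage O.em O.em_inj.injOn) ∪
    (f.support.preimage O.em O.em_inj.injOn).image Q.cj

end Od

end Pool.Agent.H32.MQ
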