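import Pool.Agent.H98.MF.SBase

/-!
# Malle's conjecture for 8T28 and 8T29 over number fields: abstract quadratic extensions of a
system of primes (definitions of the blocks K, U, L)

`S` is the system of the base field `k`; `Q : Qd S` collects what is used of a quadratic
extension `F = k(sqrt d)`, an element `δ₀` and a finite set `M` of exceptional primes. The
primes of `F` of degree one outside `M` are `Q.P`, with their shadows `Q.sh` in `k` and the
conjugation `Q.cj`.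
-/

set_option autoImplicit false

open scoped BigOperators

namespace Pool.Agent.H32.MQ

open Pool.Agent.H98.MK (sg)
open Pool.Agent.H98.MF

/-- classes of `k^*` modulo squares with odd exponents only in the exceptional primes: unit
coordinates and the set of primes with odd exponent -/
abbrev El (S : Sys) : Type := S.T × Finset S.P

/-- a quadratic extension of a system of primes -/
structure Qd (S : Sys) where
  /-- the exceptional primes -/
  M : Finset S.P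
  /-- the primes of degree one of `F`, not above `M` -/
  P : Type
  /-- the prime of `k` below -/
  sh : P → S.P
  /-- conjugation -/
  cj : P → P
  sh_not : ∀ a, sh a ∉ M
  sh_cj : ∀ a, sh (cj a) = sh a
  cj_cj : ∀ a, cj (cj a) = a
  cj_ne : ∀ a, cj a ≠ a
  fib : ∀ a b, sh a = sh b → b = a ∨ b = cj a
  /-- the class of `d` -/
  d : El S
  d_sub : d.2 ⊆ M
  d_ne : d.2.Nonempty ∨ d.1 ≠ 0
  split : ∀ p, p ∉ M → ((∃ a, sh a = p) ↔ S.ex d.2 d.1 p = 0)
  /-- the classes `γ` of `F^*` modulo squares -/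
  G : Type
  /-- the classes with odd exponents exactly at `g` outside `M` -/
  B : Finset P → Finset G
  card_B : ∀ g, (B g).card ≤ 4 ^ (S.m + M.card)
  /-- the class of the norm of `γ`, divided by the generators of the shadows -/
  nu : G → El S
  nu_sub : ∀ γ, (nu γ).2 ⊆ M
  /-- the symbol of `γ` at a prime of `F` -/
  sy : G → P → ZMod 2
  /-- the symbol of the norm of `γ` at a prime of `k` -/
  ns : G → S.P → ZMod 2
  /-- the symbol of `δ₀` at a prime of `F` -/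
  d0 : P → ZMod 2
  /-- the product of the Hilbert symbols of `γ` and `δ₀ t` above `M` and at the real places, as
  a function of `γ`, the part of `t` at `M` and the local class at `M` of the other part -/
  hM : G → El S → El S → ZMod 2

namespace Qd

variable {S : Sys} (Q : Qd S)

noncomputable instance : DecidableEq Q.P := Classical.decEq _

noncomputable instance : DecidableEq Q.G := Classical.decEq _

open Classical in
/-- the shadow of a set of primes -/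
noncomputable def shd (g : Finset Q.P) : Finset S.P := g.image Q.sh

/-- good sets of primes: at most one prime above each prime of `k` -/
def Gd (g : Finset Q.P) : Prop := ∀ a ∈ g, ∀ b ∈ g, Q.sh a = Q.sh b → a = b

/-- the norm of a good set -/
noncomputable def nq (g : Finset Q.P) : ℕ := S.nm (Q.shd g)

open Classical in
/-- the local class at `M` of the generator of a set of primes outside `M` -/
noncomputable def lab (x : Finset S.P) : El S :=
  (S.tys x, Q.M.filter fun v => ∑ p ∈ x, S.J p v = 1)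

open Classical in
/-- the elements `c` -/
noncomputable def els : Finset (El S) := Finset.univ ×ˢ Q.M.powerset

/-- the laws of a quadratic extension -/
structure Law : Prop where
  ns_eq : ∀ g, Q.Gd g → ∀ γ ∈ Q.B g, ∀ p, p ∉ Q.M → p ∉ Q.shd g →
    Q.ns γ p = S.ex (Q.shd g ∪ (Q.nu γ).2) (Q.nu γ).1 p
  ns_split : ∀ g, Q.Gd g → ∀ γ ∈ Q.B g, ∀ a, Q.sh a ∉ Q.shd g →
    Q.ns γ (Q.sh a) = Q.sy γ a + Q.sy γ (Q.cj a)
  prod : ∀ g, Q.Gd g → ∀ γ ∈ Q.B g, ∀ c ∈ Q.els, ∀ x, Disjoint x Q.M → Disjoint x (Q.shd g) →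
    ∑ p ∈ x, Q.ns γ p + ∑ a ∈ g, (Q.d0 a + S.ex (x ∪ c.2) c.1 (Q.sh a)) = Q.hM γ c (Q.lab x)

/-- finitely many good sets of bounded norm -/
theorem fin_gb (X : ℝ) : {g : Finset Q.P | Q.Gd g ∧ (Q.nq g : ℝ) ≤ X}.Finite := by
  classical
  have h1 : {a : Q.P | (S.N (Q.sh a) : ℝ) ≤ X}.Finite := by
    have h2 : (⋃ p ∈ S.pr X, {a : Q.P | Q.sh a = p}).Finite := by
      refine Set.Finite.biUnion (Finset.finite_toSet _) fun p _ => ?_
      by_cases h3 : ∃ a, Q.sh a = p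
      · obtain ⟨a, rfl⟩ := h3
        refine Set.Finite.subset (Set.toFinite {a, Q.cj a}) fun b hb => ?_
        have hb1 : Q.sh b = Q.sh a := hb
        rcases Q.fib a b hb1.symm with h4 | h4
        · exact Or.inl h4
        · exact Or.inr h4
      · refine Set.Finite.subset Set.finite_empty fun b hb => ?_
        exact absurd ⟨b, hb⟩ h3
    refine h2.subset fun a ha => ?_
    have ha1 : (S.N (Q.sh a) : ℝ) ≤ X := ha
    rw [Set.mem_iUnion₂]
    refine ⟨Q.sh a, (S.mem_pr ?_).2 ha1, rfl⟩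
    exact le_trans (Nat.cast_nonneg _) ha1
  refine Set.Finite.subset (Finset.finite_toSet h1.toFinset.powerset) fun g hg => ?_
  rw [Finset.mem_coe, Finset.mem_powerset]
  intro a ha
  rw [Set.Finite.mem_toFinset]
  have h3 : S.N (Q.sh a) ≤ S.nm (Q.shd g) :=
    S.N_le_nm (Finset.mem_image_of_mem _ ha)
  exact le_trans (by exact_mod_cast h3) hg.2

/-- good sets of norm at most `X` -/
noncomputable def gb (X : ℝ) : Finset (Finset Q.P) := (Q.fin_gb X).toFinset

theorem mem_gb {X : ℝ} {g : Finset Q.P} : g ∈ Q.gb X ↔ Q.Gd g ∧ (Q.nq g : ℝ) ≤ X := by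
  unfold gb
  rw [Set.Finite.mem_toFinset]
  rfl

open Classical in
/-- the bilinear estimate over `F` -/
def BF (C A η : ℝ) : Prop :=
  ∀ (h : Finset Q.P), Q.Gd h → ∀ (a : Finset Q.P → Q.G → ℝ) (b : Finset Q.P → ℝ),
    (∀ g γ, |a g γ| ≤ 1) → (∀ e, |b e| ≤ 1) → ∀ X Y : ℝ, 1 ≤ X → 1 ≤ Y →
    |∑ g ∈ Q.gb X, ∑ e ∈ Q.gb Y,
      (if Disjoint (Q.shd g) (Q.shd h) ∧ Disjoint (Q.shd e) (Q.shd g ∪ Q.shd h)
        then ∑ γ ∈ Q.B (g ∪ h), a g γ * b e * ((sg (∑ p ∈ e, Q.sy γ p) : ℤ) : ℝ) else 0)| ≤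
      C * (S.nm Q.M : ℝ) ^ A * (X * Y) * min X Y ^ (-η)

end Qd

/-- configurations: the five variables -/
@[ext]
structure Cf {S : Sys} (Q : Qd S) where
  q0 : Finset S.P
  q12 : Finset S.P
  qq : Finset Q.P
  g0 : Finset Q.P
  g1 : Finset Q.P

namespace Cf

variable {S : Sys} {Q : Qd S} (x : Cf Q)

/-- the shadows of the variables -/
noncomputable def sd : Fin 5 → Finset S.P := ![x.q0, x.q12, Q.shd x.qq, Q.shd x.g0, Q.shd x.g1]

/-- the primes of `t` -/
noncomputable def q : Finset S.P := x.q0 ∪ x.q12 ∪ Q.shd x.qq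

/-- the primes of `γ` -/
noncomputable def g : Finset Q.P := x.g0 ∪ x.g1

/-- the levels: `2 ^ (j i - 1) < norm ≤ 2 ^ j i` -/
noncomputable def lv (i : Fin 5) : ℕ := Nat.clog 2 (S.nm (x.sd i))

/-- the norm -/
noncomputable def n : ℕ := ∏ i, S.nm (x.sd i)

/-- admissible configurations -/
structure Ok : Prop where
  dj : ∀ i j, i ≠ j → Disjoint (x.sd i) (x.sd j)
  dM : ∀ i, Disjoint (x.sd i) Q.M
  gqq : Q.Gd x.qq
  gg0 : Q.Gd x.g0
  gg1 : Q.Gd x.g1

/-- the exponent of the sign of a term -/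
noncomputable def E (γ : Q.G) (c : El S) : ZMod 2 :=
  ∑ p ∈ x.q12, Q.ns γ p + ∑ a ∈ x.qq, Q.sy γ a +
    ∑ a ∈ x.g1, (Q.d0 a + S.ex (x.q ∪ c.2) c.1 (Q.sh a))

open Classical in
/-- the term of a configuration -/
noncomputable def tm (Θ : Q.G → El S → El S → ℝ) : ℝ :=
  if x.Ok then ∑ γ ∈ Q.B x.g, ∑ c ∈ Q.els, Θ γ c (Q.lab x.q) * ((sg (x.E γ c) : ℤ) : ℝ) else 0

end Cf

/-- weights of the variables -/
structure Wg {S : Sys} (Q : Qd S) where
  a0 : Finset S.P → ℝ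
  a1 : Finset S.P → ℝ
  a2 : Finset Q.P → ℝ
  a3 : Finset Q.P → ℝ
  a4 : Finset Q.P → ℝ

namespace Wg

variable {S : Sys} {Q : Qd S} (W : Wg Q)

/-- the value at a configuration -/
def val (x : Cf Q) : ℝ := W.a0 x.q0 * W.a1 x.q12 * W.a2 x.qq * W.a3 x.g0 * W.a4 x.g1

/-- weights bounded by one -/
structure Bd : Prop where
  b0 : ∀ x, |W.a0 x| ≤ 1
  b1 : ∀ x, |W.a1 x| ≤ 1
  b2 : ∀ x, |W.a2 x| ≤ 1
  b3 : ∀ x, |W.a3 x| ≤ 1
  b4 : ∀ x, |W.a4 x| ≤ 1

open Classical in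
/-- the mirror image -/
noncomputable def mir : Wg Q :=
  ⟨W.a1, W.a0, fun x => W.a2 (x.image Q.cj), W.a4, W.a3⟩

end Wg

/-- powers of the norm -/
noncomputable def pw {S : Sys} (s : ℝ) (x : Finset S.P) : ℝ := (S.nm x : ℝ) ^ (-s)

namespace Qd

variable {S : Sys} (Q : Qd S)

/-- configurations in a box are finitely many -/
theorem fin_box (j : Fin 5 → ℕ) : {x : Cf Q | x.Ok ∧ ∀ i, x.lv i = j i}.Finite := by
  classical
  have hb : ∀ (y : Finset S.P) (k : ℕ), Nat.clog 2 (S.nm y) = k → (S.nm y : ℝ) ≤ 2 ^ k := by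
    intro y k h
    have h1 : S.nm y ≤ 2 ^ Nat.clog 2 (S.nm y) := Nat.le_pow_clog one_lt_two _
    rw [h] at h1
    exact_mod_cast h1
  let f : Cf Q → (Finset S.P × Finset S.P) × (Finset Q.P × Finset Q.P × Finset Q.P) :=
    fun x => ((x.q0, x.q12), (x.qq, x.g0, x.g1))
  have hf : Function.Injective f := by
    intro x y h
    simp only [f, Prod.mk.injEq] at h
    exact Cf.ext h.1.1 h.1.2 h.2.1 h.2.2.1 h.2.2.2
  refine Set.Finite.of_finite_image (f := f) ?_ hf.injOn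
  refine Set.Finite.subset (Finset.finite_toSet
    ((S.bx (2 ^ j 0) ×ˢ S.bx (2 ^ j 1)) ×ˢ
      (Q.gb (2 ^ j 2) ×ˢ Q.gb (2 ^ j 3) ×ˢ Q.gb (2 ^ j 4)))) ?_
  rintro _ ⟨x, ⟨hx, hj⟩, rfl⟩
  simp only [f, Finset.mem_coe, Finset.mem_product, S.mem_bx, Q.mem_gb]
  exact ⟨⟨hb _ _ (hj 0), hb _ _ (hj 1)⟩, ⟨hx.gqq, hb _ _ (hj 2)⟩, ⟨hx.gg0, hb _ _ (hj 3)⟩,
    ⟨hx.gg1, hb _ _ (hj 4)⟩⟩

/-- the configurations of a box -/
noncomputable def box (j : Fin 5 → ℕ) : Finset (Cf Q) := (Q.fin_box j).toFinset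

/-- the sum over a box -/
noncomputable def TD (Θ : Q.G → El S → El S → ℝ) (W : Wg Q) (j : Fin 5 → ℕ) : ℝ :=
  ∑ x ∈ Q.box j, W.val x * x.tm Θ

/-- the mirror image of the levels -/
def mj (j : Fin 5 → ℕ) : Fin 5 → ℕ := ![j 1, j 0, j 2, j 4, j 3]

/-- linked pairs of variables -/
def Lk (i k : Fin 5) : Prop :=
  (i = 1 ∧ k = 3) ∨ (i = 0 ∧ k = 4) ∨ (i = 2 ∧ k = 3) ∨ (i = 2 ∧ k = 4)

/-- the factor of a prime `p` of `t` -/
noncomputable def fp (γ : Q.G) (p : S.P) : ℝ := by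
  classical
  exact if h : ∃ a, Q.sh a = p then
      (1 + ((sg (Q.sy γ h.choose) : ℤ) : ℝ)) * (1 + ((sg (Q.sy γ (Q.cj h.choose)) : ℤ) : ℝ))
    else 1 + ((sg (Q.ns γ p) : ℤ) : ℝ)

/-- the factor of a prime `a` of `γ` -/
noncomputable def fa (c : El S) (x : Finset S.P) (a : Q.P) : ℝ :=
  1 + ((sg (Q.d0 a + S.ex (x ∪ c.2) c.1 (Q.sh a)) : ℤ) : ℝ)

/-- pairs: the primes of `t` and of `γ` -/
def OkP (x : Finset S.P) (g : Finset Q.P) : Prop :=
  Q.Gd g ∧ Disjoint x Q.M ∧ Disjoint (Q.shd g) Q.M ∧ Disjoint x (Q.shd g)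

open Classical in
/-- the nonnegative term of a pair -/
noncomputable def tp (Θ : Q.G → El S → El S → ℝ) (x : Finset S.P) (g : Finset Q.P) : ℝ :=
  if Q.OkP x g then ∑ γ ∈ Q.B g, ∑ c ∈ Q.els,
    Θ γ c (Q.lab x) * ((∏ p ∈ x, Q.fp γ p) * ∏ a ∈ g, Q.fa c x a) else 0

/-- the Dirichlet series of the pairs -/
noncomputable def DS (Θ : Q.G → El S → El S → ℝ) (s : ℝ) : ℝ :=
  ∑' z : Finset S.P × Finset Q.P,
    Q.tp Θ z.1 z.2 * ((S.nm z.1 : ℝ) * (Q.nq z.2 : ℝ)) ^ (-s)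

/-- functions vanishing where `g` is empty and the norm of `γ` is a square -/
def Nz (Θ : Q.G → El S → El S → ℝ) : Prop :=
  ∀ γ ∈ Q.B ∅, (Q.nu γ).1 = 0 → (Q.nu γ).2 = ∅ → ∀ c l, Θ γ c l = 0

end Qd

end Pool.Agent.H32.MQ
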