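import Pool.Agent.H32.MQ.TStm

/-!
# Malle's conjecture for 8T28 and 8T29 over number fields: block T, sums over all unit twists
-/

set_option autoImplicit false

open scoped BigOperators
open Filter Topology

namespace Pool.Agent.H32.MQ

open Pool.Agent.H98.MK (sg)
open Pool.Agent.H98.MF

namespace TDat

variable {F : Sys} (D : TDat F)

/-- the sum over the objects `x`, the sets `r` of primes in `ram x`, the sets `a` of primes
prime to `ram x`, of a function of `x` and the type of `r` and `a` -/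
noncomputable def AA (Nt : D.X → F.T → ℝ) (Y : ℝ) : ℝ :=
  ∑ x ∈ D.fs Y, ∑ r ∈ (D.ram x).powerset, ∑ a ∈ F.bx (Y / (D.n x : ℝ)),
    (if Disjoint a (D.ram x) then Nt x (F.tys r + F.tys a) else 0)

/-- the mean over the types, times the number of subsets of `ram x` -/
noncomputable def mn (Nt : D.X → F.T → ℝ) (x : D.X) : ℝ :=
  2 ^ (D.ram x).card / 2 ^ F.m * ∑ e : F.T, Nt x e

/-- the part of the character `b` -/
noncomputable def vb (Nt : D.X → F.T → ℝ) (b : F.T) (x : D.X) : ℝ :=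
  (1 / 2 ^ F.m * ∑ e : F.T, Nt x e * ((sg (b ⬝ᵥ e) : ℤ) : ℝ)) *
    ∏ p ∈ D.ram x, (1 + ((sg (b ⬝ᵥ F.ty p) : ℤ) : ℝ))

end TDat

/-- T13: Fourier expansion -/
def STFou : Prop := ∀ (F : Sys) (D : TDat F) (Nt : D.X → F.T → ℝ) (Y : ℝ),
  D.AA Nt Y = ∑ b : F.T, D.G (D.vb Nt b) b Y ∧ (∀ x, D.vb Nt 0 x = D.mn Nt x) ∧
  ((∀ x e, |Nt x e| * 2 ^ (D.ram x).card ≤ D.w x) → ∀ b x, |D.vb Nt b x| ≤ D.w x)

/-- T14: the limit -/
def STFin : Prop := ∀ F : Sys, ∃ κ : ℝ, 0 < κ ∧ ∀ (D : TDat F) (Nt : D.X → F.T → ℝ)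
  (Lv Lw : Finset F.P → ℝ), (∀ x e, |Nt x e| * 2 ^ (D.ram x).card ≤ D.w x) →
    D.HasL (D.mn Nt) Lv → D.HasL D.w Lw →
    (Summable fun r => mg r * Lv r) ∧ ∀ c : ℝ, 0 < c →
    Tendsto (fun Y : ℝ => D.AA Nt (Y * c) / (Y * Real.log Y ^ 2)) atTop
      (𝓝 (c * (κ / 2 * ∑' r, mg r * Lv r)))

end Pool.Agent.H32.MQ
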