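import Pool.Agent.H32.MQ.TStm

/-!
# Malle's conjecture for 8T28 and 8T29 over number fields, row T1: polynomials in Karamata's theorem
-/

set_option autoImplicit false

open scoped BigOperators
open Filter Topology

namespace Pool.Agent.H32.MQ

theorem t1_LamP_add (P Q : Polynomial ℝ) : LamP (P + Q) = LamP P + LamP Q := by
  unfold LamP
  refine Polynomial.sum_add_index P Q _ (fun k => ?_) fun k a b => ?_
  · exact zero_div _
  · exact add_div _ _ _

theorem t1_LamP_mono (k : ℕ) (a : ℝ) :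
    LamP (Polynomial.monomial k a) = a / ((k : ℝ) + 1) ^ 2 := by
  unfold LamP
  rw [Polynomial.sum_monomial_index]
  exact zero_div _

theorem t1_term {n : ℕ} (hn : 1 ≤ n) (b a σ : ℝ) (k : ℕ) :
    b * (n : ℝ) ^ (-σ) * (Polynomial.monomial k a).eval ((n : ℝ) ^ (-σ)) =
      a * (b * (n : ℝ) ^ (-(((k : ℝ) + 1) * σ))) := by
  rw [Polynomial.eval_monomial]
  have h0 : (0 : ℝ) < n := by exact_mod_cast hn
  have h : (n : ℝ) ^ (-(((k : ℝ) + 1) * σ)) = (n : ℝ) ^ (-σ) * ((n : ℝ) ^ (-σ)) ^ k := by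
    rw [← Real.rpow_natCast, ← Real.rpow_mul h0.le, ← Real.rpow_add h0]
    congr 1
    ring
  rw [h]
  ring

theorem t1_scale (k : ℕ) :
    Tendsto (fun σ : ℝ => ((k : ℝ) + 1) * σ) (𝓝[>] 0) (𝓝[>] 0) := by
  refine tendsto_nhdsWithin_iff.2 ⟨?_, ?_⟩
  · have h : Tendsto (fun σ : ℝ => ((k : ℝ) + 1) * σ) (𝓝 0) (𝓝 (((k : ℝ) + 1) * 0)) :=
      (continuous_const.mul continuous_id).tendsto 0
    rw [mul_zero] at h
    exact h.mono_left nhdsWithin_le_nhds
  · filter_upwards [self_mem_nhdsWithin] with σ hσ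
    have hk : (0 : ℝ) < (k : ℝ) + 1 := by positivity
    exact mul_pos hk (Set.mem_Ioi.1 hσ)

theorem tPol : STPol := by
  intro X n b L hn hD P
  induction P using Polynomial.induction_on' with
  | add P Q hP hQ =>
    have h1 : ∀ (σ : ℝ) (x : X), b x * (n x : ℝ) ^ (-σ) * (P + Q).eval ((n x : ℝ) ^ (-σ)) =
        b x * (n x : ℝ) ^ (-σ) * P.eval ((n x : ℝ) ^ (-σ)) +
          b x * (n x : ℝ) ^ (-σ) * Q.eval ((n x : ℝ) ^ (-σ)) := by
      intro σ x
      rw [Polynomial.eval_add, mul_add]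
    refine ⟨fun σ hσ => ?_, ?_⟩
    · simp only [h1]
      exact (hP.1 σ hσ).add (hQ.1 σ hσ)
    · rw [t1_LamP_add, mul_add]
      refine (hP.2.add hQ.2).congr' ?_
      filter_upwards [self_mem_nhdsWithin] with σ hσ
      simp only [h1]
      rw [(hP.1 σ hσ).tsum_add (hQ.1 σ hσ), mul_add]
  | monomial k a =>
    have h1 : ∀ (σ : ℝ) (x : X), b x * (n x : ℝ) ^ (-σ) *
        (Polynomial.monomial k a).eval ((n x : ℝ) ^ (-σ)) =
          a * (b x * (n x : ℝ) ^ (-(((k : ℝ) + 1) * σ))) :=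
      fun σ x => t1_term (hn x) (b x) a σ k
    have hk : (0 : ℝ) < (k : ℝ) + 1 := by positivity
    refine ⟨fun σ hσ => ?_, ?_⟩
    · simp only [h1]
      exact (hD.summ _ (mul_pos hk hσ)).mul_left a
    · rw [t1_LamP_mono]
      have h2 := (hD.lim.comp (t1_scale k)).const_mul (a / ((k : ℝ) + 1) ^ 2)
      have h3 : a / ((k : ℝ) + 1) ^ 2 * L = L * (a / ((k : ℝ) + 1) ^ 2) := mul_comm _ _
      rw [h3] at h2
      refine h2.congr fun σ => ?_
      simp only [h1, Function.comp_apply]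
      rw [tsum_mul_left]
      field_simp

end Pool.Agent.H32.MQ
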