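import Pool.Agent.H32.MQ.AStm
import Pool.Agent.H32.MQ.QfInst
import Pool.Agent.H32.MQ.TFStm

/-!
# Malle's conjecture for 8T28 and 8T29 over number fields, block X (the exact formula for a fixed
quadratic extension): definitions
-/

set_option autoImplicit false

open scoped BigOperators
open NumberField IsDedekindDomain

namespace Pool.Agent.H32.MQ

open Pool.Agent.H98.MK (sg)
open Pool.Agent.H98.MF
open Pool.Agent.H98.ML (Dt Ext norb hind)

/-! ### twists -/

/-- the twist of a homomorphism by a quadratic character -/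
noncomputable def twH {L : Type} [Field L] [NumberField L] (ρ : Gm L →* Ext D4) (b : Lˣ) :
    Gm L →* Ext D4 :=
  MonoidHom.mk' (fun σ => ⟨(ρ σ).v, (ρ σ).z + fun _ => chi (b : L) σ⟩) (fun σ τ => by
    apply Ext.ext
    · show (ρ (σ * τ)).v = (ρ σ).v + (ρ τ).v
      rw [map_mul, Ext.mul_v]
    · show (ρ (σ * τ)).z + (fun _ => chi (b : L) (σ * τ)) =
        ((ρ σ).z + fun _ => chi (b : L) σ) + ((ρ τ).z + fun _ => chi (b : L) τ) +
          D4.β (ρ σ).v (ρ τ).v
      rw [map_mul, Ext.mul_z]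
      have h : (fun _ => chi (b : L) (σ * τ) : Fin D4.s → ZMod 2) =
          (fun _ => chi (b : L) σ) + fun _ => chi (b : L) τ := by
        funext i
        exact chiM_hom b σ τ
      rw [h]
      abel)

/-! ### compatible frames -/

/-- compatible frames of `k` and `L` -/
structure FrP (k L : Type) [Field k] [NumberField k] [Field L] [NumberField L]
    [Algebra k L] where
  Fr : Frm k
  FL : Frm L
  ov : Ovr Fr.S FL.S

namespace FrP

variable {k L : Type} [Field k] [NumberField k] [Field L] [NumberField L] [Algebra k L]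
  (F : FrP k L)

/-- the prime of `k` below -/
noncomputable def bel (Q : F.FL.sys.P) : F.Fr.sys.P :=
  (qf_below F.FL F.ov (hb_notMem F.FL Q)).choose

theorem bel_over (Q : F.FL.sys.P) : Over (F.Fr.pl (F.bel Q)) (F.FL.pl Q) :=
  (qf_below F.FL F.ov (hb_notMem F.FL Q)).choose_spec

open Classical in
/-- the primes below a set of primes -/
noncomputable def sh (r : Finset F.FL.sys.P) : Finset F.Fr.sys.P := r.image F.bel

/-- the same classes at all places of the frames -/
def LocE (p p' : HX.GX L × HX.GX k) : Prop :=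
  (∀ v ∈ pls F.FL.S, LocP v ((HX.out p.1 * HX.out p'.1 : Lˣ) : L)) ∧
    ∀ v ∈ pls F.Fr.S, LocP v ((HX.out p.2 * HX.out p'.2 : kˣ) : k)

/-- coordinates of a pair of classes -/
noncomputable def ca (p : HX.GX L × HX.GX k) : F.FL.sys.T := (co F.FL (HX.out p.1)).1

/-- coordinates of a pair of classes -/
noncomputable def ck (p : HX.GX L × HX.GX k) : F.FL.sys.T :=
  F.FL.sys.tys (co F.FL (HX.out p.1)).2

/-- coordinates of a pair of classes -/
noncomputable def cc (p : HX.GX L × HX.GX k) : F.Fr.sys.T := (co F.Fr (HX.out p.2)).1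

/-- coordinates of a pair of classes -/
noncomputable def cl (p : HX.GX L × HX.GX k) : F.Fr.sys.T :=
  F.Fr.sys.tys (co F.Fr (HX.out p.2)).2

/-- the pair of classes with given local coordinates -/
noncomputable def pr (a κ : F.FL.sys.T) (c l : F.Fr.sys.T) : HX.GX L × HX.GX k :=
  (((lrp F.FL a κ : Lˣ) : HX.GX L), ((lrp F.Fr c l : kˣ) : HX.GX k))

end FrP

/-! ### pairs of classes -/

namespace HX

variable {k : Type} [Field k] [NumberField k] {Fr : Frm k} {L : Type} [Field L]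
  [NumberField L] [Algebra k L] (X : HX Fr L)

theorem gX_fin (γ : GX L) : {b : X.PX | Odd (ord b.1 ((out γ : Lˣ) : L))}.Finite := by
  refine ((Pool.Agent.H98.MF.B.ord_finite ((out γ : Lˣ) : L) (Units.ne_zero _)).preimage
    Subtype.val_injective.injOn).subset fun b hb => ?_
  show ord b.1 ((out γ : Lˣ) : L) ≠ 0
  intro h
  have hb1 : Odd (ord b.1 ((out γ : Lˣ) : L)) := hb
  rw [h] at hb1
  exact absurd hb1 (by decide)

/-- the primes of `γ` -/
noncomputable def gX (γ : GX L) : Finset X.PX := (X.gX_fin γ).toFinset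

open Classical in
/-- the part of `t` at `M` -/
noncomputable def cX (τ : GX k) : El Fr.sys := ((co Fr (out τ)).1, (co Fr (out τ)).2 ∩ X.M)

open Classical in
/-- the primes of `t` outside `M` -/
noncomputable def xX (τ : GX k) : Finset Fr.sys.P := (co Fr (out τ)).2 \ X.M

/-- no exceptional types outside `M` -/
def OkT (p : GX L × GX k) : Prop := X.okX (X.xX p.2) (X.gX p.1) ∧ p.1 ∈ X.Bs (X.gX p.1)

/-- the norm of `γ` is not a square -/
def NS (p : GX L × GX k) : Prop := ¬ (p.1 ∈ X.Bs ∅ ∧ X.nuX p.1 = (0, ∅))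

/-- the product of the factors -/
noncomputable def FacX (p : GX L × GX k) : ℝ :=
  (∏ q ∈ X.xX p.2, X.fpX p.1 q) * ∏ b ∈ X.gX p.1, X.faX (X.cX p.2) (X.xX p.2) b

/-- the norm -/
noncomputable def nT (p : GX L × GX k) : ℕ := X.nmX (X.xX p.2, X.gX p.1)

/-- the symbols outside `M` vanish -/
def SolO (p : GX L × GX k) : Prop := ∀ Q : HeightOneSpectrum (𝓞 L), X.Out Q →
  hs Q ((out p.1 : Lˣ) : L) ((X.δ : L) * algebraMap k L ((out p.2 : kˣ) : k)) = 0

end HX

/-! ### the objects -/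

namespace QX

variable {k : Type} [Field k] [NumberField k] {L : Type} [Field L]
  [NumberField L] [Algebra k L] (E : QX k L)

/-- the data of block H with the exceptional primes `y` of a frame -/
noncomputable def toY (Fr : Frm k) (h : E.M ⊆ Fr.S) (y : Finset Fr.sys.P) : HX Fr L where
  a := E.a
  α := E.α
  qe := E.qe
  δ := E.δ
  M := y
  unr := fun p _ => E.unr _ fun hp => hb_notMem Fr p (h hp)
  evd := fun p _ => E.evd _ fun hp => hb_notMem Fr p (h hp)

/-- the vector of the exponents -/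
noncomputable def vT (p : HX.GX L × HX.GX k) (Q : HeightOneSpectrum (𝓞 L)) : Fin 2 → ZMod 2 :=
  ![((ord Q ((HX.out p.1 : Lˣ) : L) : ℤ) : ZMod 2),
    ((ord Q ((E.δ : L) * algebraMap k L ((HX.out p.2 : kˣ) : k)) : ℤ) : ZMod 2)]

/-- exceptional types -/
def OT (p : HX.GX L × HX.GX k) (P : HeightOneSpectrum (𝓞 k)) : Prop :=
  ¬ (∀ Q : HeightOneSpectrum (𝓞 L), Over P Q → E.vT p Q = 0) ∧
  ¬ (∀ Q : HeightOneSpectrum (𝓞 L), Over P Q → E.vT p Q = ![0, 1]) ∧
  ¬ ∃ Q : HeightOneSpectrum (𝓞 L), Over P Q ∧ cj E.sig Q ≠ Q ∧ E.vT p Q = ![1, 0] ∧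
    E.vT p (cj E.sig Q) = 0

/-- the conditions on the surjectivity -/
structure OnOk (On : Lˣ → kˣ → Prop) : Prop where
  cl : ∀ γ γ' t t', On γ t → IsSquare (γ * γ') → IsSquare (t * t') → On γ' t'
  tw : ∀ γ t, On γ t → On γ (t * E.a)
  su : OnS E On
  nn : OnN (k := k) (L := L) On
  gen : ∀ (γ : Lˣ) (t : kˣ) (P : HeightOneSpectrum (𝓞 k)) (Q : HeightOneSpectrum (𝓞 L))
    (P' : HeightOneSpectrum (𝓞 k)), P ∉ E.M → Over P Q → cj E.sig Q ≠ Q → Odd (ord Q (γ : L)) →
    Even (ord (cj E.sig Q) (γ : L)) → Even (ord P (t : k)) → P' ∉ E.M → Odd (ord P' (t : k)) →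
    (∀ Q' : HeightOneSpectrum (𝓞 L), Over P' Q' → Even (ord Q' (γ : L))) → On γ t

variable (On : Lˣ → kˣ → Prop) (R : Finset (HeightOneSpectrum (𝓞 k)))

/-- the objects: solvable pairs with exceptional types exactly at `R` outside `M` -/
structure XOk (p : HX.GX L × HX.GX k) : Prop where
  ty : ∀ P, P ∉ E.M → (P ∈ R ↔ E.OT p P)
  sol : ∀ v : Pl L, hv v ((HX.out p.1 : Lˣ) : L)
    ((E.δ : L) * algebraMap k L ((HX.out p.2 : kˣ) : k)) = 0
  on : On (HX.out p.1) (HX.out p.2)

/-- the type of the objects -/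
abbrev XX : Type := {p : HX.GX L × HX.GX k // E.XOk On R p}

variable {On R}

theorem ram_fin (FL : Frm L) (p : HX.GX L × HX.GX k) :
    {Q : FL.sys.P | E.vT p (FL.pl Q) ≠ 0}.Finite := by
  have h1 := Pool.Agent.H98.MF.B.ord_finite ((HX.out p.1 : Lˣ) : L) (Units.ne_zero _)
  have h2 := Pool.Agent.H98.MF.B.ord_finite
    ((E.δ * Units.map (algebraMap k L : k →* L) (HX.out p.2) : Lˣ) : L) (Units.ne_zero _)
  refine ((h1.union h2).preimage FL.pl_inj.injOn).subset fun Q hQ => ?_
  by_contra h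
  apply hQ
  rw [Set.mem_preimage, Set.mem_union, not_or] at h
  have h3 : ord (FL.pl Q) ((HX.out p.1 : Lˣ) : L) = 0 := not_not.1 h.1
  have h4 : ord (FL.pl Q) ((E.δ : L) * algebraMap k L ((HX.out p.2 : kˣ) : k)) = 0 :=
    not_not.1 h.2
  unfold vT
  rw [h3, h4]
  funext i
  fin_cases i <;> rfl

/-- the ramified primes of a pair -/
noncomputable def ram (FL : Frm L) (p : HX.GX L × HX.GX k) : Finset FL.sys.P :=
  (E.ram_fin FL p).toFinset

variable (F : FrP k L)

/-- the norm of a pair -/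
noncomputable def nP (p : HX.GX L × HX.GX k) : ℕ := F.Fr.sys.nm (F.sh (E.ram F.FL p))

/-- the conditions at the places of the frames, for given local classes -/
def SC (R : Finset (HeightOneSpectrum (𝓞 k))) (p : HX.GX L × HX.GX k) : Prop :=
  (∀ P ∈ F.Fr.S, P ∉ E.M → (P ∈ R ↔ E.OT p P)) ∧
  ∀ v ∈ pls F.FL.S, hv v ((HX.out p.1 : Lˣ) : L)
    ((E.δ : L) * algebraMap k L ((HX.out p.2 : kˣ) : k)) = 0

/-- the Dirichlet series of the objects -/
noncomputable def DX (θ : E.XX On R → ℝ) (s : ℝ) : ℝ :=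
  ∑' p : E.XX On R, θ p * 2 ^ (E.ram F.FL p.1).card * (E.nP F p.1 : ℝ) ^ (-s)

/-! ### the homomorphisms -/

/-- normalised homomorphisms -/
structure Nrml (FL : Frm L) (RL : Rx L) (p : HX.GX L × HX.GX k) (ρ : Gm L →* Ext D4) :
    Prop where
  hm : E.Hm ρ (HX.out p.1) (HX.out p.2)
  nor : ∀ Q : FL.sys.P, cz (ρ (RL.tau (FL.pl Q))) = 0

open Classical in
/-- a normalised homomorphism -/
noncomputable def rho0 (FL : Frm L) (RL : Rx L) (p : HX.GX L × HX.GX k) : Gm L →* Ext D4 :=
  if h : ∃ ρ, E.Nrml FL RL p ρ then h.choose else 1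

open Classical in
/-- the number of unit twists with a given part of the discriminant -/
noncomputable def NtX (RL : Rx L) (q : ℕ) (p : E.XX On R) (ε : F.FL.sys.T) : ℝ :=
  ((Finset.univ.filter fun e : F.FL.sys.T =>
    F.FL.qS RL H4 (twH (E.rho0 F.FL RL p.1) (lrp F.FL e ε)) = q).card : ℝ)

open Classical in
/-- the number of local twists with a given part of the discriminant, divided by `2 ^ m` -/
noncomputable def thX (RL : Rx L) (q : ℕ) (p : E.XX On R) : ℝ :=
  1 / 2 ^ F.FL.sys.m * ∑ ε : F.FL.sys.T, E.NtX F RL q p ε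

open Classical in
/-- the sum over the objects and the twists -/
noncomputable def AX (hf : ∀ N : ℕ, {x : E.XX On R | E.nP F x.1 ≤ N}.Finite)
    (Nt : E.XX On R → F.FL.sys.T → ℝ) (Y : ℝ) : ℝ :=
  ∑ x ∈ fsz hf Y, ∑ r ∈ (E.ram F.FL x.1).powerset, ∑ a ∈ F.FL.sys.bx (Y / (E.nP F x.1 : ℝ)),
    (if Disjoint a (E.ram F.FL x.1) then Nt x (F.FL.sys.tys r + F.FL.sys.tys a) else 0)

end QX

end Pool.Agent.H32.MQ
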