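import Pool.Agent.H32.MQ.XStm

/-!
# Malle's conjecture for 8T28 and 8T29 over number fields, block X: assembly
-/

set_option autoImplicit false

open scoped BigOperators Topology
open NumberField IsDedekindDomain Filter

namespace Pool.Agent.H32.MQ

open Pool.Agent.H98.MK (sg)
open Pool.Agent.H98.MF
open Pool.Agent.H98.ML (Dt Ext norb hind)

section

variable {k : Type} [Field k] [NumberField k] {L : Type} [Field L] [NumberField L]
  [Algebra k L] (E : QX k L) (F : FrP k L) {On : Lˣ → kˣ → Prop}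
  {R : Finset (HeightOneSpectrum (𝓞 k))}

theorem xmain_one_le (p : HX.GX L × HX.GX k) : 1 ≤ E.nP F p := F.Fr.sys.one_le_nm _

theorem xmain_fin (hS : Summable fun p : E.XX On R =>
    (2 : ℝ) ^ (E.ram F.FL p.1).card * (E.nP F p.1 : ℝ) ^ (-(2 : ℝ))) (N : ℕ) :
    {x : E.XX On R | E.nP F x.1 ≤ N}.Finite := by
  have h1 := hS.tendsto_cofinite_zero
  have h2 : (0 : ℝ) < ((N : ℝ) + 1) ^ (-(2 : ℝ)) := Real.rpow_pos_of_pos (by positivity) _
  have h3 := h1.eventually (gt_mem_nhds h2)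
  rw [Filter.eventually_cofinite] at h3
  refine h3.subset fun x hx => ?_
  have hx1 : (E.nP F x.1 : ℝ) ≤ N + 1 := by
    have h4 : E.nP F x.1 ≤ N := hx
    have h5 : (E.nP F x.1 : ℝ) ≤ N := by exact_mod_cast h4
    linarith
  have hx2 : (1 : ℝ) ≤ E.nP F x.1 := by exact_mod_cast xmain_one_le E F x.1
  show ¬ _
  rw [not_lt]
  calc ((N : ℝ) + 1) ^ (-(2 : ℝ)) ≤ (E.nP F x.1 : ℝ) ^ (-(2 : ℝ)) :=
        Real.rpow_le_rpow_of_nonpos (by linarith) hx1 (by norm_num)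
    _ = 1 * (E.nP F x.1 : ℝ) ^ (-(2 : ℝ)) := (one_mul _).symm
    _ ≤ _ := by
        refine mul_le_mul_of_nonneg_right (one_le_pow₀ (by norm_num)) ?_
        positivity

open Classical in
/-- the data of block T -/
noncomputable def xmainD (hf : ∀ N : ℕ, {x : E.XX On R | E.nP F x.1 ≤ N}.Finite) (C : ℝ)
    (hC : 0 ≤ C)
    (hS : ∀ s : ℝ, 1 < s → Summable fun p : E.XX On R =>
      (2 : ℝ) ^ (E.ram F.FL p.1).card * (E.nP F p.1 : ℝ) ^ (-s))
    (hU : ∀ (r : Finset F.FL.sys.P) (σ : ℝ), 0 < σ → σ ≤ 1 →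
      ∑' p : E.XX On R, (if r ⊆ E.ram F.FL p.1 then
        (2 : ℝ) ^ (E.ram F.FL p.1).card * (E.nP F p.1 : ℝ) ^ (-(1 + σ)) else 0) ≤
        C * (F.Fr.sys.nm (F.sh r) : ℝ) ^ (-(3 / 4) : ℝ) * σ ^ (-(2 : ℝ)))
    (hρ : StRho F) : TDat F.FL.sys where
  X := E.XX On R
  n := fun x => E.nP F x.1
  one_le := fun x => xmain_one_le E F x.1
  fin := hf
  ram := fun x => E.ram F.FL x.1
  w := fun x => 2 ^ F.FL.sys.m * 2 ^ (E.ram F.FL x.1).card
  w0 := fun x => by positivity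
  ρ := fun r => 2 ^ F.FL.sys.m * (C * (F.Fr.sys.nm (F.sh r) : ℝ) ^ (-(3 / 4) : ℝ))
  ρ0 := fun r => by positivity
  summ := fun s hs => by
    refine ((hS s hs).mul_left ((2 : ℝ) ^ F.FL.sys.m)).congr fun x => ?_
    rw [mul_assoc]
  hU := fun r σ h0 h1 => by
    have e1 : (fun x : E.XX On R => if r ⊆ E.ram F.FL x.1 then
        (2 : ℝ) ^ F.FL.sys.m * 2 ^ (E.ram F.FL x.1).card * (E.nP F x.1 : ℝ) ^ (-(1 + σ)) else 0) =
        fun x : E.XX On R => (2 : ℝ) ^ F.FL.sys.m * (if r ⊆ E.ram F.FL x.1 then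
        2 ^ (E.ram F.FL x.1).card * (E.nP F x.1 : ℝ) ^ (-(1 + σ)) else 0) := by
      funext x
      split_ifs
      · rw [mul_assoc]
      · rw [mul_zero]
    rw [e1, tsum_mul_left, mul_assoc]
    exact mul_le_mul_of_nonneg_left (hU r σ h0 h1) (by positivity)
  hρ := by
    refine ((show Summable _ from hρ).mul_left ((2 : ℝ) ^ F.FL.sys.m * C)).congr fun r => ?_
    ring

/-! ### the numbers of twists -/

variable (RL : Rx L)

theorem xmain_card : (Fintype.card F.FL.sys.T : ℝ) = 2 ^ F.FL.sys.m := by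
  rw [Fintype.card_fun, ZMod.card, Fintype.card_fin]
  push_cast
  rfl

theorem xmain_nt0 (q : ℕ) (p : E.XX On R) (ε : F.FL.sys.T) : 0 ≤ E.NtX F RL q p ε := by
  unfold QX.NtX
  positivity

theorem xmain_nt1 (q : ℕ) (p : E.XX On R) (ε : F.FL.sys.T) :
    E.NtX F RL q p ε ≤ 2 ^ F.FL.sys.m := by
  classical
  unfold QX.NtX
  rw [← xmain_card F]
  exact_mod_cast Finset.card_le_univ _

theorem xmain_th0 (q : ℕ) (p : E.XX On R) : 0 ≤ E.thX F RL q p := by
  unfold QX.thX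
  exact mul_nonneg (by positivity) (Finset.sum_nonneg fun ε _ => xmain_nt0 E F RL q p ε)

theorem xmain_th1 (q : ℕ) (p : E.XX On R) : E.thX F RL q p ≤ 2 ^ F.FL.sys.m := by
  unfold QX.thX
  have h1 : ∑ ε : F.FL.sys.T, E.NtX F RL q p ε ≤ ∑ _ε : F.FL.sys.T, (2 : ℝ) ^ F.FL.sys.m :=
    Finset.sum_le_sum fun ε _ => xmain_nt1 E F RL q p ε
  rw [Finset.sum_const, Finset.card_univ, nsmul_eq_mul, xmain_card F] at h1
  have h2 : (0 : ℝ) < 2 ^ F.FL.sys.m := by positivity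
  rw [one_div, inv_mul_le_iff₀ h2]
  exact h1

end

/-- the limit for a fixed quadratic extension and fixed exceptional primes -/
theorem stX {k : Type} [Field k] [NumberField k] {L : Type} [Field L] [NumberField L]
    [Algebra k L] (E : QX k L) (hFE : StFrE k L)
    (hLP : ∀ F : FrP k L, E.M ⊆ F.Fr.S → StLP E F)
    (hHL : ∀ F : FrP k L, E.M ⊆ F.Fr.S → StHL E F)
    (hSm : ∀ F : FrP k L, E.M ⊆ F.Fr.S → StSmX E F)
    (hUX : ∀ (F : FrP k L) (h : E.M ⊆ F.Fr.S), StUX E F h)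
    (hRho : ∀ F : FrP k L, StRho F) (hLM : ∀ (F : FrP k L) (RL : Rx L), StLM E F RL)
    (hXA : ∀ (F : FrP k L) (RL : Rx L), StXA E F RL) (hFin : STFin) (hPos : STPos)
    (hBF : BFAll k) : StX E := by
  classical
  intro RL On R hOn hdj
  obtain ⟨F, hF⟩ := hFE (E.M ∪ R)
  have hM : E.M ⊆ F.Fr.S := Finset.union_subset_left hF
  have hR : R ⊆ F.Fr.S := Finset.union_subset_right hF
  obtain ⟨C0, A0, η0, hη, hB⟩ := hBF F.Fr
  obtain ⟨C, hC, hU⟩ := hUX F hM C0 A0 η0 hη fun y => hB L _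
  have hS : ∀ s : ℝ, 1 < s → Summable fun p : E.XX On R =>
      (2 : ℝ) ^ (E.ram F.FL p.1).card * (E.nP F p.1 : ℝ) ^ (-s) := hSm F hM On R hR
  have hf : ∀ N : ℕ, {x : E.XX On R | E.nP F x.1 ≤ N}.Finite :=
    xmain_fin E F (hS 2 (by norm_num))
  set D : TDat F.FL.sys := xmainD E F hf C hC hS (hU On R hR hOn) (hRho F) with hD
  obtain ⟨hloc, Qs, hQ0, hQs, hQ1⟩ := hLM F RL On R hM hOn
  have hHL' := hHL F hM On R hR hOn
  -- leading coefficients
  have hmn : ∀ q (x : E.XX On R), D.mn (E.NtX F RL q) x = E.thX F RL q x *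
      2 ^ (E.ram F.FL x.1).card := by
    intro q x
    show (2 : ℝ) ^ (E.ram F.FL x.1).card / 2 ^ F.FL.sys.m * ∑ e : F.FL.sys.T, E.NtX F RL q x e = _
    unfold QX.thX
    ring
  have hL1 : ∀ q, ∃ Lv : Finset F.FL.sys.P → ℝ, D.HasL (D.mn (E.NtX F RL q)) Lv := by
    intro q
    choose Lv hLv using hHL' (fun p => E.thX F RL q p) (2 ^ F.FL.sys.m)
      (fun p => by
        rw [abs_of_nonneg (xmain_th0 E F RL q p)]
        exact xmain_th1 E F RL q p) (fun p p' h => hloc p p' h q)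
    refine ⟨Lv, fun r => ?_⟩
    refine (hLv r).congr fun σ => ?_
    congr 1
    refine tsum_congr fun x => ?_
    show (if r ⊆ E.ram F.FL x.1 then _ else (0 : ℝ)) =
      if r ⊆ E.ram F.FL x.1 then D.mn (E.NtX F RL q) x * (E.nP F x.1 : ℝ) ^ (-(1 + σ)) else 0
    rw [hmn]
  choose Lv hLv using hL1
  obtain ⟨Lw, hLw⟩ : ∃ Lw : Finset F.FL.sys.P → ℝ, D.HasL D.w Lw := by
    choose Lw hLw using hHL' (fun _ => 2 ^ F.FL.sys.m) (2 ^ F.FL.sys.m)
      (fun p => by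
        rw [abs_of_nonneg (by positivity)]) (fun p p' h => rfl)
    exact ⟨Lw, fun r => hLw r⟩
  have hNw : ∀ q (x : D.X) (e : F.FL.sys.T),
      |(E.NtX F RL q : D.X → F.FL.sys.T → ℝ) x e| * 2 ^ (D.ram x).card ≤ D.w x := by
    intro q x e
    show |E.NtX F RL q x e| * 2 ^ (E.ram F.FL x.1).card ≤
      2 ^ F.FL.sys.m * 2 ^ (E.ram F.FL x.1).card
    rw [abs_of_nonneg (xmain_nt0 E F RL q x e)]
    exact mul_le_mul_of_nonneg_right (xmain_nt1 E F RL q x e) (by positivity)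
  obtain ⟨κ, hκ, hlim⟩ := hFin F.FL.sys
  have hT : ∀ q ∈ Qs, Tendsto (fun Y : ℝ => D.AA (E.NtX F RL q) (Y * (q : ℝ) ^ (-(1 / 2) : ℝ)) /
      (Y * Real.log Y ^ 2)) atTop
      (𝓝 ((q : ℝ) ^ (-(1 / 2) : ℝ) * (κ / 2 * ∑' r, mg r * Lv q r))) := by
    intro q hq
    have h0 : (0 : ℝ) < (q : ℝ) ^ (-(1 / 2) : ℝ) :=
      Real.rpow_pos_of_pos (by exact_mod_cast hQ0 q hq) _
    exact (hlim D (E.NtX F RL q) (Lv q) Lw (hNw q) (hLv q) hLw).2 _ h0
  have hnn : ∀ q (Y : ℝ), 0 ≤ D.AA (E.NtX F RL q) Y := by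
    intro q Y
    unfold TDat.AA
    refine Finset.sum_nonneg fun x _ => Finset.sum_nonneg fun r _ => Finset.sum_nonneg
      fun a _ => ?_
    split_ifs
    · exact xmain_nt0 E F RL q x _
    · exact le_rfl
  have hqn : ∀ q ∈ Qs, 0 ≤ (q : ℝ) ^ (-(1 / 2) : ℝ) * (κ / 2 * ∑' r, mg r * Lv q r) := by
    intro q hq
    refine ge_of_tendsto (hT q hq) ?_
    filter_upwards [eventually_ge_atTop (0 : ℝ)] with Y hY
    exact div_nonneg (hnn q _) (mul_nonneg hY (sq_nonneg _))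
  refine ⟨1 / 2 * ∑ q ∈ Qs, (q : ℝ) ^ (-(1 / 2) : ℝ) * (κ / 2 * ∑' r, mg r * Lv q r),
    mul_nonneg (by norm_num) (Finset.sum_nonneg hqn), ?_, ?_⟩
  · intro hR0
    subst hR0
    obtain ⟨l1, hl1, hlt⟩ := hLP F hM On hOn
    have hsum : ∑ q ∈ Qs, Lv q ∅ = 2 ^ F.FL.sys.m * l1 := by
      have h1 : Tendsto (fun σ : ℝ => ∑ q ∈ Qs, (σ ^ 2 * ∑' x : E.XX On ∅,
          (if ∅ ⊆ E.ram F.FL x.1 then D.mn (E.NtX F RL q) x *
            (E.nP F x.1 : ℝ) ^ (-(1 + σ)) else 0))) (𝓝[>] 0) (𝓝 (∑ q ∈ Qs, Lv q ∅)) :=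
        tendsto_finsetSum _ fun q _ => hLv q ∅
      have h2 : Tendsto (fun σ : ℝ => 2 ^ F.FL.sys.m *
          (σ ^ 2 * E.DX F (fun _ : E.XX On ∅ => 1) (1 + σ))) (𝓝[>] 0)
          (𝓝 (2 ^ F.FL.sys.m * l1)) := hlt.const_mul _
      refine tendsto_nhds_unique h1 (h2.congr' ?_)
      filter_upwards [self_mem_nhdsWithin] with σ hσ
      have hσ0 : (0 : ℝ) < σ := hσ
      rw [← Finset.mul_sum, ← Summable.tsum_finsetSum]
      · unfold QX.DX
        rw [mul_left_comm, ← tsum_mul_left]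
        congr 1
        refine tsum_congr fun x => ?_
        simp only [Finset.empty_subset, if_true]
        rw [← Finset.sum_mul, Finset.sum_congr rfl fun q _ => hmn q x, ← Finset.sum_mul, hQ1]
        ring
      · intro q _
        refine Summable.of_nonneg_of_le (fun x => ?_) (fun x => ?_)
          ((hS (1 + σ) (by linarith)).mul_left ((2 : ℝ) ^ F.FL.sys.m))
        · simp only [Finset.empty_subset, if_true]
          rw [hmn]
          exact mul_nonneg (mul_nonneg (xmain_th0 E F RL q x) (by positivity)) (by positivity)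
        · simp only [Finset.empty_subset, if_true]
          rw [hmn, mul_assoc]
          exact mul_le_mul_of_nonneg_right (xmain_th1 E F RL q x) (by positivity)
    have hLn : ∀ q, 0 ≤ Lv q ∅ := by
      intro q
      refine ge_of_tendsto (hLv q ∅) ?_
      filter_upwards with σ
      refine mul_nonneg (sq_nonneg _) (tsum_nonneg fun x => ?_)
      split_ifs
      · rw [hmn]
        exact mul_nonneg (mul_nonneg (xmain_th0 E F RL q x) (by positivity)) (by positivity)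
      · exact le_rfl
    obtain ⟨q, hq, hq1⟩ : ∃ q ∈ Qs, 0 < Lv q ∅ := by
      by_contra hcon
      push Not at hcon
      have h3 : ∑ q ∈ Qs, Lv q ∅ ≤ 0 := Finset.sum_nonpos hcon
      rw [hsum] at h3
      have h4 : (0 : ℝ) < 2 ^ F.FL.sys.m * l1 := by positivity
      linarith
    have h5 : 0 < ∑' r, mg r * Lv q r := by
      refine hPos F.FL.sys D (D.mn (E.NtX F RL q)) (Lv q) Lw (fun x => ?_) (fun x => ?_) (hLv q)
        hLw hq1
      · rw [hmn]
        exact mul_nonneg (xmain_th0 E F RL q x) (by positivity)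
      · rw [hmn]
        exact mul_le_mul_of_nonneg_right (xmain_th1 E F RL q x) (by positivity)
    refine mul_pos (by norm_num) (lt_of_lt_of_le ?_ (Finset.single_le_sum hqn hq))
    have h6 : (0 : ℝ) < (q : ℝ) ^ (-(1 / 2) : ℝ) :=
      Real.rpow_pos_of_pos (by exact_mod_cast hQ0 q hq) _
    positivity
  · have h7 := (tendsto_finsetSum Qs hT).const_mul (1 / 2 : ℝ)
    refine h7.congr' ?_
    filter_upwards [eventually_ge_atTop (0 : ℝ)] with Y hY
    have h8 := hXA F RL On R hM hR hdj hOn hf Qs hQ0 hQs Y hY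
    have h9 : ((E.Cn RL On R Y).ncard : ℝ) = 1 / 2 * ∑ q ∈ Qs,
        D.AA (E.NtX F RL q) (Y * (q : ℝ) ^ (-(1 / 2) : ℝ)) := by
      have h10 : ∑ q ∈ Qs, D.AA (E.NtX F RL q) (Y * (q : ℝ) ^ (-(1 / 2) : ℝ)) =
          ∑ q ∈ Qs, E.AX F hf (E.NtX F RL q) (Y * (q : ℝ) ^ (-(1 / 2) : ℝ)) := rfl
      rw [h10, ← h8]
      ring
    rw [h9, ← Finset.sum_div, mul_div_assoc]

end Pool.Agent.H32.MQ
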