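import Pool.Agent.H32.MQ.XStm

/-!
# Malle's conjecture for 8T28 and 8T29 over number fields, block X: the conditions for the
surjectivity onto the two groups
-/

set_option autoImplicit false

open scoped BigOperators
open NumberField IsDedekindDomain

namespace Pool.Agent.H32.MQ

open Pool.Agent.H98.MF
open Pool.Agent.H98.ML (Dt Ext norb hind)

namespace QX

variable {k : Type} [Field k] [NumberField k] {L : Type} [Field L]
  [NumberField L] [Algebra k L] (E : QX k L)

/-- the condition for the surjectivity onto 8T29 (`b = 0`) and 8T28 (`b = 1`) -/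
def Onto (b : ZMod 2) (γ : Lˣ) (t : kˣ) : Prop :=
  ¬ IsSquare (HX.nrX (k := k) γ) ∧ ¬ IsSquare (E.a * HX.nrX (k := k) γ) ∧
    (b = 0 → ¬ IsSquare t ∧ ¬ IsSquare (E.a * t) ∧ ¬ IsSquare (t * HX.nrX (k := k) γ) ∧
      ¬ IsSquare (E.a * t * HX.nrX (k := k) γ))

/-- the element `δ` belongs to the group -/
def Val (b : ZMod 2) : Prop := (b = 0 → E.δ = 1) ∧ (b = 1 → IsSquare (E.a * HX.nrX (k := k) E.δ))

end QX

/-- the conditions are satisfied -/
def StOnto : Prop := ∀ (k L : Type) [Field k] [NumberField k] [Field L] [NumberField L]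
  [Algebra k L] (E : QX k L) (b : ZMod 2), E.Val b → E.OnOk (E.Onto b)

end Pool.Agent.H32.MQ
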