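import Pool.Agent.H32.MQ.XStm
import Pool.Agent.H98.MF.L.KIn
import Pool.Agent.H98.MF.Crd

/-!
# Malle's conjecture for 8T28 and 8T29 over number fields, block X: the part of the discriminant
at the frame depends only on the local classes of the twist
-/

set_option autoImplicit false

open scoped BigOperators
open NumberField IsDedekindDomain

namespace Pool.Agent.H32.MQ

open Pool.Agent.H98.MF
open Pool.Agent.H98.ML (Dt Ext norb hind)

section

variable {L : Type} [Field L] [NumberField L]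

theorem xqst_lc (ρ : Gm L →* Ext D4) (hρ : IsLocallyConstant ρ) (b : Lˣ) :
    IsLocallyConstant (twH ρ b) :=
  IsLocallyConstant.comp₂ hρ (chiM_lc (b : L))
    (fun (g : Ext D4) (c : ZMod 2) => (⟨g.v, g.z + fun _ => c⟩ : Ext D4))

/-- characters that agree locally -/
theorem xqst_chi {v : Pl L} {x y : Lˣ} (h : x * y ∈ LS v) {σ : Gm L} (hσ : σ ∈ DecP v) :
    chi (x : L) σ = chi (y : L) σ := by
  have h1 := ((kin L).one v (x * y)).2 (((B.lin L).memLS v (x * y)).1 h) σ hσ
  rw [CrdAux.chi_mul] at h1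
  have h2 : ∀ s t : ZMod 2, s + t = 0 → s = t := by decide
  exact h2 _ _ h1

/-- homomorphisms that agree at the places of the frame -/
theorem xqst_eq (FL : Frm L) (RL : Rx L) (ρ ρ' : Gm L →* Ext D4) (h1 : IsLocallyConstant ρ)
    (h2 : IsLocallyConstant ρ') (h3 : Function.Surjective ρ) (h4 : Function.Surjective ρ')
    (h : ∀ P ∈ FL.S, ∀ σ ∈ Dec P, ρ σ = ρ' σ) : FL.qS RL H4 ρ = FL.qS RL H4 ρ' := by
  unfold Frm.qS
  refine Finset.prod_congr rfl fun P hP => ?_
  rw [RL.loc (Ext D4) ρ ρ' H4 h1 h2 h3 h4 P (h P hP)]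

end

/-- the part of the discriminant at the frame depends on the local classes -/
theorem stQSt (L : Type) [Field L] [NumberField L] (hS : StSurT L) : StQSt L := by
  intro FL RL ρ hρ hs b
  refine xqst_eq FL RL _ _ (xqst_lc ρ hρ _) (xqst_lc ρ hρ _) (hS ρ _ hs) (hS ρ _ hs)
    fun P hP σ hσ => ?_
  have hv : (Sum.inl P : Pl L) ∈ pls FL.S := Finset.inl_mem_disjSum.2 hP
  have h1 : chi (rep FL b : L) σ = chi (lrp FL b.1 (FL.sys.tys b.2) : L) σ :=
    xqst_chi (v := Sum.inl P) (rep_lrp FL hv b) hσ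
  apply Ext.ext
  · rfl
  · show (ρ σ).z + (fun _ => chi (rep FL b : L) σ) =
      (ρ σ).z + fun _ => chi (lrp FL b.1 (FL.sys.tys b.2) : L) σ
    rw [h1]

end Pool.Agent.H32.MQ
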