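import Pool.Agent.H32.MQ.ZCom
import Pool.Agent.H98.MF.D.ExRx

/-!
# Malle's conjecture for 8T28 and 8T29 over number fields, rows Z2, Z3: the limit and the bound
for a fixed quadratic subfield
-/

set_option autoImplicit false

open scoped BigOperators
open NumberField IsDedekindDomain Filter

namespace Pool.Agent.H32.MQ.G

open Pool.Agent.H98.MF
open Pool.Agent.H98.ML (Dt Ext)
open Pool.Agent.H32.MA (mInd bM)
open Pool.Agent.H32.MZ (NK MalleK T28 T29)

section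

variable {k : Type} [Field k] [NumberField k]

/-- the conjugation changes the sign of the square root -/
theorem z3_sig {L : Type} [Field L] [NumberField L] [Algebra k L] (E : QX k L) :
    E.sig E.α = -E.α := (Pool.Agent.H98.MF.B.qe_conj E.qe).choose_spec.1

/-- the norm of the set of primes -/
theorem z3_nmR [DecidableEq (HeightOneSpectrum (𝓞 k))] (Fr : Frm k) (x : Finset Fr.sys.P) :
    nmR (Fr.S ∪ x.image Fr.pl) ≤ nmR Fr.S * Fr.sys.nm x := by
  have h1 : nmR (Fr.S ∪ x.image Fr.pl) = nmR Fr.S * ∏ P ∈ (x.image Fr.pl) \ Fr.S, nrm P := by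
    unfold nmR
    rw [← Finset.prod_union Finset.disjoint_sdiff, Finset.union_sdiff_self_eq_union]
  rw [h1]
  refine Nat.mul_le_mul_left _ ?_
  have h2 : ∏ P ∈ x.image Fr.pl, nrm P = Fr.sys.nm x := by
    rw [Finset.prod_image fun p _ q _ h => Fr.pl_inj h]
    exact Finset.prod_congr rfl fun p _ => (Fr.N_eq p).symm
  rw [← h2]
  exact Finset.prod_le_prod_of_subset_of_one_le' Finset.sdiff_subset fun P _ _ => zc_nrm_pos P

/-- either there is no homomorphism, or the count is the count over the quadratic extension -/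
theorem z3_cases (hR : StRs k)
    (hB : ∀ (L : Type) [Field L] [NumberField L] [Algebra k L] {a : kˣ} {sg : L ≃ₐ[k] L}
      (_ : Rs L a sg), StBij (L := L) (a := a) (sg := sg)) (hX : StQX (k := k))
    (hN : ∀ (L : Type) [Field L] [NumberField L] [Algebra k L] {a : kˣ} {sg : L ≃ₐ[k] L}
      (_ : Rs L a sg), StNc (L := L) (a := a)) (Fr : Frm k) (c : El Fr.sys) (hc : c ≠ (0, ∅)) (b : ZMod 2) :
    ((∀ X : ℝ, {ρ ∈ CntG k b X | ∀ σ, (ρ σ).e = chi (rep Fr c : k) σ} = ∅) ∧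
      ¬ (b = 0 ∨ ∃ δ : (FQ (rep Fr c))ˣ, IsSquare (rep Fr c * HX.nrX (k := k) δ))) ∨
    ∃ E : QX k (FQ (rep Fr c)), E.Val b ∧ Fr.S ⊆ E.M ∧
      nmR E.M ≤ nmR Fr.S * Fr.sys.nm c.2 ∧
      ∀ X : ℝ, 0 ≤ X → {ρ ∈ CntG k b X | ∀ σ, (ρ σ).e = chi (rep Fr c : k) σ}.ncard =
        8 * E.AF b (Real.sqrt X / (dN k (FQ (rep Fr c)) : ℝ) ^ 2) ∧
      ({ρ | ρ ∈ E.Lf b ∧ (QX.dn ρ : ℝ) ≤
        (Real.sqrt X / (dN k (FQ (rep Fr c)) : ℝ) ^ 2) ^ 2}.Finite →
        {ρ ∈ CntG k b X | ∀ σ, (ρ σ).e = chi (rep Fr c : k) σ}.Finite) := by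
  classical
  by_cases hb : b = 1 → ∃ δ : (FQ (rep Fr c))ˣ, IsSquare (rep Fr c * HX.nrX (k := k) δ)
  · right
    obtain ⟨E, h1, h2, h3, h4⟩ := hX Fr c hc b hb
    have h5 : E.sig (FQs (rep Fr c)) = -FQs (rep Fr c) := by
      rw [← h2]
      exact z3_sig E
    have h6 : ¬ IsSquare (rep Fr c) := by
      rw [← h1]
      exact E.qe.ns
    obtain ⟨R⟩ := hR (rep Fr c) h6 E.sig h5
    refine ⟨E, h3, ?_, ?_, fun X hX' => hB _ R E b h1 rfl h3 X hX'⟩
    · rw [h4]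
      intro P hP
      exact Finset.mem_union_left _ hP
    · have h7 : E.M = Fr.S ∪ c.2.image Fr.pl := by
        rw [h4]
      rw [h7]
      exact z3_nmR Fr c.2
  · left
    have hb1 : b = 1 := by
      by_contra h
      exact hb fun h' => absurd h' h
    have hb2 : ∀ δ : (FQ (rep Fr c))ˣ, ¬ IsSquare (rep Fr c * HX.nrX (k := k) δ) := by
      intro δ hδ
      exact hb fun _ => ⟨δ, hδ⟩
    refine ⟨fun X => ?_, ?_⟩
    · by_contra hne
      obtain ⟨ρ, hρ, hρ'⟩ := Set.nonempty_iff_ne_empty.2 hne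
      obtain ⟨E, h1, h2, -, -⟩ := hX Fr c hc 0 (fun h => absurd h (by decide))
      have hns : ¬ IsSquare (rep Fr c) := by
        rw [← h1]
        exact E.qe.ns
      have h5 : E.sig (FQs (rep Fr c)) = -FQs (rep Fr c) := by
        rw [← h2]
        exact z3_sig E
      obtain ⟨R⟩ := hR (rep Fr c) hns E.sig h5
      subst hb1
      obtain ⟨δ, hδ⟩ := hN _ R ρ hρ.1 hρ'
      exact hb2 δ hδ
    · rintro (h | ⟨δ, hδ⟩)
      · rw [hb1] at h
        exact absurd h (by decide)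
      · exact hb2 δ hδ

theorem stZB (Fr : Frm k) (hR : StRs k)
    (hB : ∀ (L : Type) [Field L] [NumberField L] [Algebra k L] {a : kˣ} {sg : L ≃ₐ[k] L}
      (_ : Rs L a sg), StBij (L := L) (a := a) (sg := sg)) (hX : StQX (k := k)) (hS : StSumR (k := k))
    (hSm : StSm (k := k)) (hU : StUZ k Fr) (hD : StDN (k := k))
    (hN : ∀ (L : Type) [Field L] [NumberField L] [Algebra k L] {a : kˣ} {sg : L ≃ₐ[k] L}
      (_ : Rs L a sg), StNc (L := L) (a := a)) : StZB k Fr := by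
  obtain ⟨C, hC, hA⟩ := zc_all hS hSm hU
  have hS0 : (0 : ℝ) < nmR Fr.S := by exact_mod_cast zc_nmR_pos Fr.S
  refine ⟨8 * C * (nmR Fr.S : ℝ) ^ (1 / 4 : ℝ) * 4, by positivity, fun c hc b X hX3 => ?_⟩
  have hn0 : (1 : ℝ) ≤ Fr.sys.nm c.2 := by exact_mod_cast z4_nm_pos Fr.sys.toPre c.2
  have hlog : 1 ≤ Real.log X := by
    rw [Real.le_log_iff_exp_le (by linarith)]
    exact (Real.exp_one_lt_d9.le.trans (by norm_num)).trans hX3
  have hX0 : 0 < X := by linarith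
  rcases z3_cases hR hB hX hN Fr c hc b with ⟨h, -⟩ | ⟨E, hv, hE, hM, h⟩
  · rw [h X]
    refine ⟨Set.finite_empty, ?_, fun h1 => absurd h1 Set.not_nonempty_empty⟩
    rw [Set.ncard_empty, Nat.cast_zero]
    positivity
  · obtain ⟨RL⟩ := exists_rx (FQ (rep Fr c))
    obtain ⟨h1, h2⟩ := h X hX0.le
    set Y : ℝ := Real.sqrt X / (dN k (FQ (rep Fr c)) : ℝ) ^ 2 with hY
    have hY0 : 0 ≤ Y := by positivity
    obtain ⟨h3, h4, h5⟩ := hA _ E hE b hv RL Y hY0
    have hdn : (Fr.sys.nm c.2 : ℝ) ≤ dN k (FQ (rep Fr c)) := by exact_mod_cast hD Fr c hc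
    have hd0 : (1 : ℝ) ≤ dN k (FQ (rep Fr c)) := hn0.trans hdn
    have hYX : Y ≤ Real.sqrt X / (Fr.sys.nm c.2 : ℝ) ^ 2 := by
      rw [hY]
      apply div_le_div_of_nonneg_left (Real.sqrt_nonneg X) (by positivity)
      exact pow_le_pow_left₀ (by linarith) hdn 2
    refine ⟨h2 h3, ?_, ?_⟩
    · rw [h1]
      rcases lt_or_ge Y 1 with hY1 | hY1
      · rw [h4 hY1, mul_zero, Nat.cast_zero]
        positivity
      · have h6 := h5 hY1
        have h7 : Y ≤ X := by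
          refine hYX.trans ?_
          have h8 : Real.sqrt X ≤ X := by
            rw [Real.sqrt_le_left hX0.le]
            nlinarith
          refine (div_le_self (Real.sqrt_nonneg X) ?_).trans h8
          nlinarith
        have h9 : (1 + Real.log Y) ^ 2 ≤ 4 * Real.log X ^ 2 := by
          have h10 : Real.log Y ≤ Real.log X := Real.log_le_log (by linarith) h7
          have h11 : 0 ≤ Real.log Y := Real.log_nonneg hY1
          nlinarith
        have h12 : (nmR E.M : ℝ) ^ (1 / 4 : ℝ) ≤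
            (nmR Fr.S : ℝ) ^ (1 / 4 : ℝ) * (Fr.sys.nm c.2 : ℝ) ^ (1 / 4 : ℝ) := by
          rw [← Real.mul_rpow hS0.le (by linarith)]
          refine Real.rpow_le_rpow (Nat.cast_nonneg _) ?_ (by norm_num)
          exact_mod_cast hM
        have h13 : (Fr.sys.nm c.2 : ℝ) ^ (1 / 4 : ℝ) * (Real.sqrt X / (Fr.sys.nm c.2 : ℝ) ^ 2) ≤
            ((Fr.sys.nm c.2 : ℝ) ^ (3 / 2 : ℝ))⁻¹ * X ^ (1 / 2 : ℝ) := by
          rw [Real.sqrt_eq_rpow]
          have h14 : (Fr.sys.nm c.2 : ℝ) ^ (1 / 4 : ℝ) * ((Fr.sys.nm c.2 : ℝ) ^ 2)⁻¹ ≤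
              ((Fr.sys.nm c.2 : ℝ) ^ (3 / 2 : ℝ))⁻¹ := by
            rw [← Real.rpow_natCast, ← Real.rpow_neg (by linarith), ← Real.rpow_neg (by linarith),
              ← Real.rpow_add (by linarith)]
            refine Real.rpow_le_rpow_of_exponent_le hn0 ?_
            norm_num
          have h15 : 0 ≤ X ^ (1 / 2 : ℝ) := by positivity
          calc _ = ((Fr.sys.nm c.2 : ℝ) ^ (1 / 4 : ℝ) * ((Fr.sys.nm c.2 : ℝ) ^ 2)⁻¹) *
                X ^ (1 / 2 : ℝ) := by ring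
            _ ≤ _ := mul_le_mul_of_nonneg_right h14 h15
        have h16 : (0 : ℝ) ≤ (1 + Real.log Y) ^ 2 := sq_nonneg _
        have h17 : 0 ≤ (nmR Fr.S : ℝ) ^ (1 / 4 : ℝ) := by positivity
        have h18 : 0 ≤ (Fr.sys.nm c.2 : ℝ) ^ (1 / 4 : ℝ) := by positivity
        push_cast
        calc 8 * (E.AF b Y : ℝ) ≤ 8 * (C * (nmR E.M : ℝ) ^ (1 / 4 : ℝ) *
              (Y * (1 + Real.log Y) ^ 2)) := by linarith
          _ ≤ 8 * (C * ((nmR Fr.S : ℝ) ^ (1 / 4 : ℝ) * (Fr.sys.nm c.2 : ℝ) ^ (1 / 4 : ℝ)) *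
              ((Real.sqrt X / (Fr.sys.nm c.2 : ℝ) ^ 2) * (4 * Real.log X ^ 2))) := by
            gcongr
          _ = 8 * C * (nmR Fr.S : ℝ) ^ (1 / 4 : ℝ) * 4 * Real.log X ^ 2 *
              ((Fr.sys.nm c.2 : ℝ) ^ (1 / 4 : ℝ) *
                (Real.sqrt X / (Fr.sys.nm c.2 : ℝ) ^ 2)) := by ring
          _ ≤ 8 * C * (nmR Fr.S : ℝ) ^ (1 / 4 : ℝ) * 4 * Real.log X ^ 2 *
              (((Fr.sys.nm c.2 : ℝ) ^ (3 / 2 : ℝ))⁻¹ * X ^ (1 / 2 : ℝ)) := by
            gcongr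
          _ = _ := by ring
    · intro hne
      have h6 : {ρ ∈ CntG k b X | ∀ σ, (ρ σ).e = chi (rep Fr c : k) σ}.ncard ≠ 0 :=
        (Set.ncard_pos (h2 h3)).2 hne |>.ne'
      have h7 : 1 ≤ Y := by
        by_contra hY1
        rw [h1, h4 (not_le.1 hY1)] at h6
        exact h6 rfl
      have h8 : (Fr.sys.nm c.2 : ℝ) ^ 2 ≤ Real.sqrt X := by
        have h9 := h7.trans hYX
        rwa [le_div_iff₀ (by positivity), one_mul] at h9
      have h10 : Real.sqrt X ≤ X := by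
        rw [Real.sqrt_le_left hX0.le]
        nlinarith
      nlinarith

end

end Pool.Agent.H32.MQ.G
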