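import Pool.Agent.H32.MQ.GStm

/-!
# Malle's conjecture for 8T28 and 8T29 over number fields, row Z4: the asymptotic formula for the
homomorphisms over `k`
-/

set_option autoImplicit false

open scoped BigOperators
open NumberField IsDedekindDomain Filter

namespace Pool.Agent.H32.MQ.G

open Pool.Agent.H98.MF
open Pool.Agent.H98.ML (Dt Ext)
open Pool.Agent.H32.MA (mInd bM)
open Pool.Agent.H32.MZ (NK MalleK T28 T29)

/-- the cardinality of a union of disjoint sets as a sum -/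
theorem z4_ncard {α ι : Type} (S : Set α) (A : ι → Set α) (hU : ∀ x, x ∈ S ↔ ∃ i, x ∈ A i)
    (hd : ∀ i j x, x ∈ A i → x ∈ A j → i = j) (hf : ∀ i, (A i).Finite)
    (hn : {i | (A i).Nonempty}.Finite) :
    HasSum (fun i => ((A i).ncard : ℝ)) (S.ncard : ℝ) := by
  classical
  set F := hn.toFinset with hF
  have h1 : S = ↑(F.biUnion fun i => (hf i).toFinset) := by
    ext x
    rw [hU, Finset.mem_coe, Finset.mem_biUnion]
    constructor
    · rintro ⟨i, hi⟩
      exact ⟨i, by rw [hF, Set.Finite.mem_toFinset]; exact ⟨x, hi⟩,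
        by rw [Set.Finite.mem_toFinset]; exact hi⟩
    · rintro ⟨i, -, hi⟩
      exact ⟨i, by rwa [Set.Finite.mem_toFinset] at hi⟩
  have h2 : S.ncard = ∑ i ∈ F, (A i).ncard := by
    rw [h1, Set.ncard_coe_finset, Finset.card_biUnion]
    · exact Finset.sum_congr rfl fun i _ => (Set.ncard_eq_toFinset_card _ (hf i)).symm
    · intro i _ j _ hij
      refine Finset.disjoint_left.2 ?_
      intro x hx hx'
      rw [Set.Finite.mem_toFinset] at hx hx'
      exact hij (hd i j x hx hx')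
  have h3 : (S.ncard : ℝ) = ∑ i ∈ F, ((A i).ncard : ℝ) := by
    rw [h2]
    push_cast
    rfl
  rw [h3]
  refine hasSum_sum_of_ne_finset_zero fun i hi => ?_
  have h4 : A i = ∅ := by
    by_contra h
    exact hi (by rw [hF, Set.Finite.mem_toFinset]; exact Set.nonempty_iff_ne_empty.2 h)
  rw [h4, Set.ncard_empty, Nat.cast_zero]

/-- finitely many sets of primes of bounded norm -/
theorem z4_fin (S : Pre) (X : ℝ) : {x : Finset S.P | (S.nm x : ℝ) ≤ X}.Finite := by
  classical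
  rcases lt_or_ge X 0 with hX | hX
  · refine Set.Finite.subset Set.finite_empty fun f hf => ?_
    have h1 : (0 : ℝ) ≤ S.nm f := Nat.cast_nonneg _
    have h2 : (S.nm f : ℝ) ≤ X := hf
    linarith
  refine (Finset.finite_toSet (S.pr X).powerset).subset fun x hx => ?_
  rw [Finset.mem_coe, Finset.mem_powerset]
  intro p hp
  rw [S.mem_pr hX]
  have h1 : S.N p ≤ S.nm x :=
    Finset.single_le_prod' (f := fun p => S.N p) (fun q _ => S.one_le_N q) hp
  exact (Nat.cast_le.2 h1).trans hx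

theorem z4_nm_pos (S : Pre) (x : Finset S.P) : 1 ≤ S.nm x :=
  Nat.succ_le_of_lt (Finset.prod_pos fun p _ => Nat.lt_of_lt_of_le Nat.zero_lt_one (S.one_le_N p))

section

variable {k : Type} [Field k] [NumberField k]

/-- summability over the classes -/
theorem z4_sum (Fr : Frm k) (hSm : StSm (k := k)) :
    Summable (fun c : {c : El Fr.sys // c ≠ (0, ∅)} =>
      ((Fr.sys.nm c.1.2 : ℝ) ^ (3 / 2 : ℝ))⁻¹) := by
  have h1 := (hSm Fr (3 / 2) (by norm_num)).1
  have h2 : Summable (fun c : El Fr.sys => ((Fr.sys.nm c.2 : ℝ) ^ (3 / 2 : ℝ))⁻¹) := by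
    refine (summable_prod_of_nonneg ?_).2 ⟨fun x => h1, ?_⟩
    · intro c
      show (0 : ℝ) ≤ ((Fr.sys.nm c.2 : ℝ) ^ (3 / 2 : ℝ))⁻¹
      positivity
    · exact Summable.of_finite
  exact h2.subtype _

theorem stCntG (Fr : Frm k) (hc : StCls Fr) (hF : StZF k) (hB : StZB k Fr)
    (hE : StEx1 (k := k)) (hSm : StSm (k := k)) : StCntG k := by
  classical
  intro b
  set I := {c : El Fr.sys // c ≠ (0, ∅)} with hI
  set A : I → ℝ → Set (Gm k →* W) := fun c X =>
    {ρ | ρ ∈ CntG k b X ∧ ∀ σ, (ρ σ).e = chi (rep Fr c.1 : k) σ} with hA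
  obtain ⟨C, hC, hB⟩ := hB
  have hl : ∀ c : I, ∃ l : ℝ, 0 ≤ l ∧
      ((b = 0 ∨ ∃ δ : (FQ (rep Fr c.1))ˣ, IsSquare (rep Fr c.1 * HX.nrX (k := k) δ)) → 0 < l) ∧
      Tendsto (fun X : ℝ => ((A c X).ncard : ℝ) /
        (X ^ (1 / 2 : ℝ) * Real.log X ^ 2)) atTop (nhds l) := fun c => hF Fr c.1 c.2 b
  choose l hl0 hlp hlt using hl
  have hden : ∀ X : ℝ, 3 ≤ X → 0 < X ^ (1 / 2 : ℝ) * Real.log X ^ 2 := by
    intro X hX
    have h1 : 0 < Real.log X := Real.log_pos (by linarith)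
    have h2 : (0 : ℝ) < X := by linarith
    positivity
  have hbd : ∀ X : ℝ, 3 ≤ X → ∀ c : I, ((A c X).ncard : ℝ) / (X ^ (1 / 2 : ℝ) * Real.log X ^ 2) ≤
      C * ((Fr.sys.nm c.1.2 : ℝ) ^ (3 / 2 : ℝ))⁻¹ := by
    intro X hX c
    rw [div_le_iff₀ (hden X hX)]
    exact (hB c.1 c.2 b X hX).2.1
  have hsm : Summable (fun c : I => C * ((Fr.sys.nm c.1.2 : ℝ) ^ (3 / 2 : ℝ))⁻¹) :=
    (z4_sum Fr hSm).mul_left C
  have hsum : ∀ X : ℝ, 3 ≤ X → HasSum (fun c : I => ((A c X).ncard : ℝ))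
      ((CntG k b X).ncard : ℝ) := by
    intro X hX
    refine z4_ncard _ _ ?_ ?_ ?_ ?_
    · intro ρ
      constructor
      · intro h
        obtain ⟨c, hc1, hc2⟩ := hc.1 b ρ h.1
        exact ⟨⟨c, hc1⟩, h, hc2⟩
      · rintro ⟨c, h, -⟩
        exact h
    · intro c c' ρ h h'
      exact Subtype.ext (hc.2.1 _ _ fun σ => by rw [← h.2 σ, ← h'.2 σ])
    · intro c
      exact (hB c.1 c.2 b X hX).1
    · have h1 : {c : El Fr.sys | (Fr.sys.nm c.2 : ℝ) ≤ X}.Finite := by
        have h2 := (Set.finite_univ (α := Fr.sys.T)).prod (z4_fin Fr.sys.toPre X)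
        refine h2.subset fun c hc => ⟨Set.mem_univ _, hc⟩
      refine (h1.preimage (Subtype.val_injective (p := fun c : El Fr.sys => c ≠ (0, ∅))).injOn).subset ?_
      intro c hc
      exact (hB c.1 c.2 b X hX).2.2 hc
  have hlim := tendsto_tsum_of_dominated_convergence (𝓕 := atTop)
    (f := fun (X : ℝ) (c : I) => ((A c X).ncard : ℝ) / (X ^ (1 / 2 : ℝ) * Real.log X ^ 2))
    (g := l) hsm hlt (by
      filter_upwards [eventually_ge_atTop (3 : ℝ)] with X hX c
      have h1 := hden X hX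
      rw [Real.norm_of_nonneg (by positivity)]
      exact hbd X hX c)
  have hls : Summable l := by
    refine Summable.of_nonneg_of_le hl0 (fun c => ?_) hsm
    refine le_of_tendsto (hlt c) ?_
    filter_upwards [eventually_ge_atTop (3 : ℝ)] with X hX
    exact hbd X hX c
  refine ⟨∑' c, l c, ?_, ?_⟩
  · obtain ⟨c, hc1, hc2⟩ := hE Fr
    exact hls.tsum_pos hl0 ⟨c, hc1⟩ (hlp ⟨c, hc1⟩ (Or.inr hc2))
  · refine hlim.congr' ?_
    filter_upwards [eventually_ge_atTop (3 : ℝ)] with X hX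
    rw [tsum_div_const, (hsum X hX).tsum_eq]

end

end Pool.Agent.H32.MQ.G
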