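import Pool.Agent.H32.MQ.Z4

/-!
# Malle's conjecture for 8T28 and 8T29 over number fields, block Z: bounds and limits for a fixed
quadratic extension
-/

set_option autoImplicit false

open scoped BigOperators
open NumberField IsDedekindDomain Filter

namespace Pool.Agent.H32.MQ.G

open Pool.Agent.H98.MF
open Pool.Agent.H98.ML (Dt Ext)
open Pool.Agent.H32.MA (mInd bM)
open Pool.Agent.H32.MZ (NK MalleK T28 T29)

section

variable {k : Type} [Field k] [NumberField k]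

theorem zc_nrm_pos (P : HeightOneSpectrum (𝓞 k)) : 1 ≤ nrm P := by
  have h1 : nrm P ≠ 0 := by
    intro h
    have h2 : Ideal.absNorm P.asIdeal = 0 := h
    rw [Ideal.absNorm_eq_zero_iff] at h2
    exact P.ne_bot h2
  omega

theorem zc_nmR_pos (R : Finset (HeightOneSpectrum (𝓞 k))) : 1 ≤ nmR R :=
  Nat.succ_le_of_lt (Finset.prod_pos fun p _ => zc_nrm_pos p)

/-- the bound for one set of exceptional primes -/
theorem zc_one {Fr : Frm k} (hU : StUZ k Fr) : ∃ C : ℝ, 0 ≤ C ∧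
    ∀ (L : Type) [Field L] [NumberField L] [Algebra k L] (E : QX k L), Fr.S ⊆ E.M →
    ∀ (b : ZMod 2), E.Val b → ∀ (RL : Rx L) (R : Finset (HeightOneSpectrum (𝓞 k))),
    Disjoint R E.M → ∀ Y : ℝ, 1 ≤ Y → ((E.Cn RL (E.Onto b) R Y).ncard : ℝ) ≤
      C * (nmR E.M : ℝ) ^ (1 / 4 : ℝ) * (Y * (1 + Real.log Y) ^ 2) *
        ((nmR R : ℝ) ^ (7 / 4 : ℝ))⁻¹ := by
  obtain ⟨C, hC, h⟩ := hU (1 / 4) (by norm_num)
  refine ⟨C, hC, fun L _ _ _ E hE b hb RL R hR Y hY => ?_⟩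
  have h1 := (h L E hE b hb RL R hR Y (by linarith)).2.2 hY
  refine h1.trans (le_of_eq ?_)
  have hR0 : (0 : ℝ) < nmR R := by exact_mod_cast zc_nmR_pos R
  have hM0 : (0 : ℝ) < nmR E.M := by exact_mod_cast zc_nmR_pos E.M
  rw [Real.mul_rpow hM0.le hR0.le]
  have h2 : (nmR R : ℝ) ^ (7 / 4 : ℝ) * (nmR R : ℝ) ^ (1 / 4 : ℝ) = (nmR R : ℝ) ^ 2 := by
    rw [← Real.rpow_add hR0]
    norm_num
  have h3 : (0 : ℝ) < (nmR R : ℝ) ^ (7 / 4 : ℝ) := Real.rpow_pos_of_pos hR0 _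
  have h4 : (0 : ℝ) < (nmR R : ℝ) ^ (1 / 4 : ℝ) := Real.rpow_pos_of_pos hR0 _
  rw [← h2]
  field_simp

/-- the bound and the finiteness for all homomorphisms -/
theorem zc_all {Fr : Frm k} (hS : StSumR (k := k)) (hSm : StSm (k := k)) (hU : StUZ k Fr) :
    ∃ C : ℝ, 0 ≤ C ∧ ∀ (L : Type) [Field L] [NumberField L] [Algebra k L] (E : QX k L),
    Fr.S ⊆ E.M → ∀ (b : ZMod 2), E.Val b → ∀ (_ : Rx L) (Y : ℝ), 0 ≤ Y →
      {ρ | ρ ∈ E.Lf b ∧ (QX.dn ρ : ℝ) ≤ Y ^ 2}.Finite ∧ (Y < 1 → E.AF b Y = 0) ∧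
      (1 ≤ Y → (E.AF b Y : ℝ) ≤
        C * (nmR E.M : ℝ) ^ (1 / 4 : ℝ) * (Y * (1 + Real.log Y) ^ 2)) := by
  obtain ⟨C, hC, h⟩ := zc_one hU
  obtain ⟨C', hC', h'⟩ := hU 1 one_pos
  set K : ℝ := ∑' x : Finset Fr.sys.P, ((Fr.sys.nm x : ℝ) ^ (7 / 4 : ℝ))⁻¹ with hK
  have hK0 : 0 ≤ K := tsum_nonneg fun x => by positivity
  refine ⟨C * K, mul_nonneg hC hK0, fun L _ _ _ E hE b hb RL Y hY => ?_⟩
  have h1 := hS L E RL b Y hY fun R hR =>
    ⟨(h' L E hE b hb RL R hR Y hY).1, (h' L E hE b hb RL R hR Y hY).2.1⟩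
  refine ⟨h1.1, fun hY1 => ?_, fun hY1 => ?_⟩
  · have h2 : (fun R : {R : Finset (HeightOneSpectrum (𝓞 k)) // Disjoint R E.M} =>
        ((E.Cn RL (E.Onto b) R.1 Y).ncard : ℝ)) = fun _ => 0 := by
      funext R
      have h3 : E.Cn RL (E.Onto b) R.1 Y = ∅ := by
        by_contra hne
        have h4 := (h' L E hE b hb RL R.1 R.2 Y hY).2.1 (Set.nonempty_iff_ne_empty.2 hne)
        have h5 : (1 : ℝ) ≤ nmR R.1 := by exact_mod_cast zc_nmR_pos R.1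
        nlinarith
      rw [h3, Set.ncard_empty, Nat.cast_zero]
    have h6 := h1.2
    rw [h2] at h6
    have h7 := h6.unique hasSum_zero
    exact_mod_cast h7
  · have hs := (hSm Fr (7 / 4) (by norm_num)).2 E.M hE
    have h2 : (E.AF b Y : ℝ) ≤ ∑' R : {R : Finset (HeightOneSpectrum (𝓞 k)) // Disjoint R E.M},
        C * (nmR E.M : ℝ) ^ (1 / 4 : ℝ) * (Y * (1 + Real.log Y) ^ 2) *
          ((nmR R.1 : ℝ) ^ (7 / 4 : ℝ))⁻¹ := by
      rw [← h1.2.tsum_eq]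
      exact h1.2.summable.tsum_le_tsum (fun R => h L E hE b hb RL R.1 R.2 Y hY1)
        (hs.1.mul_left _)
    rw [tsum_mul_left] at h2
    have h3 : 0 ≤ C * (nmR E.M : ℝ) ^ (1 / 4 : ℝ) * (Y * (1 + Real.log Y) ^ 2) := by positivity
    refine h2.trans ((mul_le_mul_of_nonneg_left hs.2 h3).trans (le_of_eq ?_))
    ring

/-- the limit for all homomorphisms -/
theorem zc_lim {Fr : Frm k} (hS : StSumR (k := k)) (hSm : StSm (k := k)) (hU : StUZ k Fr)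
    (hO : StOnto) (L : Type) [Field L] [NumberField L] [Algebra k L] (E : QX k L)
    (hL : StX E) (hE : Fr.S ⊆ E.M) (b : ZMod 2) (hb : E.Val b) (RL : Rx L) :
    ∃ l : ℝ, 0 < l ∧ Tendsto (fun Y : ℝ => (E.AF b Y : ℝ) / (Y * Real.log Y ^ 2)) atTop
      (nhds l) := by
  obtain ⟨C, hC, h⟩ := zc_one hU
  obtain ⟨C', hC', h'⟩ := hU 1 one_pos
  have hs := (hSm Fr (7 / 4) (by norm_num)).2 E.M hE
  have hl : ∀ R : {R : Finset (HeightOneSpectrum (𝓞 k)) // Disjoint R E.M}, ∃ l : ℝ, 0 ≤ l ∧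
      (R.1 = ∅ → 0 < l) ∧ Tendsto (fun Y : ℝ => ((E.Cn RL (E.Onto b) R.1 Y).ncard : ℝ) /
        (Y * Real.log Y ^ 2)) atTop (nhds l) :=
    fun R => hL RL (E.Onto b) R.1 (hO k L E b hb) R.2
  choose l hl0 hlp hlt using hl
  have hden : ∀ Y : ℝ, 3 ≤ Y → 0 < Y * Real.log Y ^ 2 := by
    intro Y hY
    have h1 : 0 < Real.log Y := Real.log_pos (by linarith)
    have h2 : (0 : ℝ) < Y := by linarith
    positivity
  have hlog : ∀ Y : ℝ, 3 ≤ Y → 1 ≤ Real.log Y := by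
    intro Y hY
    rw [Real.le_log_iff_exp_le (by linarith)]
    exact (Real.exp_one_lt_d9.le.trans (by norm_num)).trans hY
  have hbd : ∀ Y : ℝ, 3 ≤ Y → ∀ R : {R : Finset (HeightOneSpectrum (𝓞 k)) // Disjoint R E.M},
      ((E.Cn RL (E.Onto b) R.1 Y).ncard : ℝ) / (Y * Real.log Y ^ 2) ≤
      4 * (C * (nmR E.M : ℝ) ^ (1 / 4 : ℝ)) * ((nmR R.1 : ℝ) ^ (7 / 4 : ℝ))⁻¹ := by
    intro Y hY R
    rw [div_le_iff₀ (hden Y hY)]
    refine (h L E hE b hb RL R.1 R.2 Y (by linarith)).trans ?_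
    have h1 : (1 + Real.log Y) ^ 2 ≤ 4 * Real.log Y ^ 2 := by
      have := hlog Y hY
      nlinarith
    have h2 : 0 ≤ C * (nmR E.M : ℝ) ^ (1 / 4 : ℝ) * ((nmR R.1 : ℝ) ^ (7 / 4 : ℝ))⁻¹ * Y := by
      positivity
    have h3 := mul_le_mul_of_nonneg_left h1 h2
    nlinarith [h3]
  have hsm : Summable (fun R : {R : Finset (HeightOneSpectrum (𝓞 k)) // Disjoint R E.M} =>
      4 * (C * (nmR E.M : ℝ) ^ (1 / 4 : ℝ)) * ((nmR R.1 : ℝ) ^ (7 / 4 : ℝ))⁻¹) :=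
    hs.1.mul_left _
  have hlim := tendsto_tsum_of_dominated_convergence (𝓕 := atTop)
    (f := fun (Y : ℝ) (R : {R : Finset (HeightOneSpectrum (𝓞 k)) // Disjoint R E.M}) =>
      ((E.Cn RL (E.Onto b) R.1 Y).ncard : ℝ) / (Y * Real.log Y ^ 2))
    (g := l) hsm hlt (by
      filter_upwards [eventually_ge_atTop (3 : ℝ)] with Y hY R
      have h1 := hden Y hY
      rw [Real.norm_of_nonneg (by positivity)]
      exact hbd Y hY R)
  have hls : Summable l := by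
    refine Summable.of_nonneg_of_le hl0 (fun c => ?_) hsm
    refine le_of_tendsto (hlt c) ?_
    filter_upwards [eventually_ge_atTop (3 : ℝ)] with X hX
    exact hbd X hX c
  refine ⟨∑' c, l c, ?_, ?_⟩
  · exact hls.tsum_pos hl0 ⟨∅, Finset.disjoint_empty_left _⟩ (hlp ⟨∅, _⟩ rfl)
  · refine hlim.congr' ?_
    filter_upwards [eventually_ge_atTop (3 : ℝ)] with Y hY
    have h1 := hS L E RL b Y (by linarith) fun R hR =>
      ⟨(h' L E hE b hb RL R hR Y (by linarith)).1, (h' L E hE b hb RL R hR Y (by linarith)).2.1⟩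
    rw [tsum_div_const, h1.2.tsum_eq]

end

end Pool.Agent.H32.MQ.G
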